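import Pool.Agent.Lib.MP_bb0bab_co.FE15

/-!
# FE18 row identity

PROOF. For one set `S` (lattice convex, rows in `[0,h]`, nonempty bottom and top row) put `a i = ⌈lft S i⌉`,
`b i = ⌊rgt S i⌋`, so `(x,i) ∈ S ↔ a i ≤ x ≤ b i` for `i ≤ h` (`mem_iff_row`).  CLAIM: for `s ≤ h`, every integer
`c`, the coefficient of `T n` in `∑ i ∈ range (s+1), rowPoly (a i) (b i) * rowPoly (c - b (h-(s-i))) (c - a (h-(s-i)))` is
`cov S (n - c, s - h)`.  Indeed `rowPoly (a i) (b i) * rowPoly .. = ∑_x ∑_z T (x + z)`, `x ∈ [a i, b i]`,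
`z ∈ [c - b j, c - a j]`, `j = h - (s - i) = h - s + i`, whose coefficient at `n` is the number of `x` with `(x,i) ∈ S` and
`y := c - (n - x)`, `(y, j) ∈ S` (for `z = n - x`).  And `cov S (n - c, s - h)` is the number of `p ∈ S` with
`p - (n - c, s - h) = (p.1 - n + c, p.2 + h - s) ∈ S`; such `p` has `0 ≤ p.2 ≤ s`, so it is the sum over `i ∈ range (s+1)` of the
number of `x` with `(x,i) ∈ S`, `(x - n + c, i + h - s) ∈ S` (`Finset.card_eq_sum_card_fiberwise` with `p ↦ p.2.toNat`, or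
`Finset.card_biUnion`).  Same numbers.
`row_identity`: apply the claim to `H` and `K` with `c = xh + M - 1` (any `c`), and `hc`; extensionality of Laurent
polynomials (`LaurentPolynomial.ext`, `.coeff`, `LaurentPolynomial.T_apply`).
`one_sub_mul_rowPoly`: telescoping; by induction on `(b + 1 - a).toNat`.
-/

open scoped Pointwise

namespace Pool.Agent.Lib.MP_bb0bab_co

theorem one_sub_mul_rowPoly {a b : ℤ} (hab : a ≤ b + 1) :
    (1 - LaurentPolynomial.T 1) * rowPoly a b = LaurentPolynomial.T a - LaurentPolynomial.T (b + 1) := by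
  obtain ⟨n, hn⟩ := Int.eq_ofNat_of_zero_le (show 0 ≤ b + 1 - a by linarith)
  have hb : b = a + (n : ℤ) - 1 := by linarith
  subst hb
  clear hab hn
  induction n with
  | zero =>
    have h0 : Finset.Icc a (a + ((0 : ℕ) : ℤ) - 1) = ∅ := Finset.Icc_eq_empty (by push_cast; linarith)
    simp [rowPoly]
  | succ n ih =>
    have hins : Finset.Icc a (a + ((n + 1 : ℕ) : ℤ) - 1) =
        insert (a + (n : ℤ)) (Finset.Icc a (a + (n : ℤ) - 1)) := by
      ext x
      simp only [Finset.mem_insert, Finset.mem_Icc]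
      push_cast
      omega
    have hnot : (a + (n : ℤ)) ∉ Finset.Icc a (a + (n : ℤ) - 1) := by
      simp only [Finset.mem_Icc]
      omega
    have e1 : rowPoly a (a + ((n + 1 : ℕ) : ℤ) - 1) =
        LaurentPolynomial.T (a + (n : ℤ)) + rowPoly a (a + (n : ℤ) - 1) := by
      unfold rowPoly
      rw [hins, Finset.sum_insert hnot]
    rw [e1, mul_add, ih, sub_mul, one_mul, ← LaurentPolynomial.T_add]
    have e2 : (1 : ℤ) + (a + (n : ℤ)) = a + ((n + 1 : ℕ) : ℤ) - 1 + 1 := by push_cast; ring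
    have e3 : a + (n : ℤ) - 1 + 1 = a + (n : ℤ) := by ring
    rw [e2, e3]
    ring

/-- coefficients of a product of two row polynomials -/
theorem coeff_rowPoly_mul (a b a' b' n : ℤ) :
    (rowPoly a b * rowPoly a' b').coeff n =
      (((Finset.Icc a b).filter (fun x => a' ≤ n - x ∧ n - x ≤ b')).card : ℤ) := by
  unfold rowPoly
  rw [Finset.sum_mul_sum, AddMonoidAlgebra.coeff_sum, Finset.sum_apply', Finset.card_filter]
  push_cast
  refine Finset.sum_congr rfl fun x _ => ?_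
  rw [AddMonoidAlgebra.coeff_sum, Finset.sum_apply']
  have e : ∀ z : ℤ, ((LaurentPolynomial.T x * LaurentPolynomial.T z : LaurentPolynomial ℤ).coeff n : ℤ) =
      if z = n - x then 1 else 0 := by
    intro z
    rw [← LaurentPolynomial.T_add, LaurentPolynomial.T_apply]
    by_cases hz : z = n - x
    · rw [if_pos hz, if_pos (by rw [hz]; ring)]
    · rw [if_neg hz, if_neg (by intro h; apply hz; linarith)]
  simp only [e]
  rw [Finset.sum_ite_eq']
  simp only [Finset.mem_Icc]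

/-- the coefficient of one side is a value of the covariogram -/
theorem coeff_side {S : Finset (ℤ × ℤ)} {h : ℕ} (cS : LConv S)
    (rows : ∀ p ∈ S, 0 ≤ p.2 ∧ p.2 ≤ h)
    (h0 : ∃ x : ℤ, (x, 0) ∈ S) (hh : ∃ x : ℤ, (x, (h : ℤ)) ∈ S) (c : ℤ)
    (s : ℕ) (hs : s ≤ h) (n : ℤ) :
    (∑ i ∈ Finset.range (s + 1), rowPoly ⌈lft S i⌉ ⌊rgt S i⌋ *
      rowPoly (c - ⌊rgt S ((h - (s - i) : ℕ) : ℝ)⌋) (c - ⌈lft S ((h - (s - i) : ℕ) : ℝ)⌉)).coeff n =
    (cov S (n - c, (s : ℤ) - h) : ℤ) := by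
  rw [AddMonoidAlgebra.coeff_sum, Finset.sum_apply']
  have hmem := mem_iff_row cS rows h0 hh
  have key : cov S (n - c, (s : ℤ) - h) = ∑ i ∈ Finset.range (s + 1),
      ((Finset.Icc ⌈lft S i⌉ ⌊rgt S i⌋).filter (fun x =>
        c - ⌊rgt S ((h - (s - i) : ℕ) : ℝ)⌋ ≤ n - x ∧
        n - x ≤ c - ⌈lft S ((h - (s - i) : ℕ) : ℝ)⌉)).card := by
    unfold cov
    rw [Finset.card_eq_sum_card_fiberwise (f := fun p : ℤ × ℤ => p.2.toNat)
      (t := Finset.range (s + 1))]
    · refine Finset.sum_congr rfl fun i hi => ?_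
      have hi' : i ≤ s := by
        have := Finset.mem_range.1 hi
        omega
      have hij : ((h - (s - i) : ℕ) : ℤ) = (i : ℤ) + h - s := by omega
      refine Finset.card_bij' (fun p _ => p.1) (fun x _ => (x, (i : ℤ))) ?_ ?_ ?_ ?_
      · intro p hp
        rw [Finset.mem_filter, Finset.mem_filter] at hp
        obtain ⟨⟨hpS, hpd⟩, hpi⟩ := hp
        have hp2 : p.2 = (i : ℤ) := by
          have := (rows p hpS).1
          omega
        have hpe : p = (p.1, (i : ℤ)) := by rw [← hp2]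
        rw [hpe] at hpS
        have h1 := (hmem i (by omega) p.1).1 hpS
        have hq : p - (n - c, (s : ℤ) - h) = (p.1 - (n - c), ((h - (s - i) : ℕ) : ℤ)) := by
          rw [hij, Prod.ext_iff]
          simp only [Prod.fst_sub, Prod.snd_sub, hp2]
          constructor
          · trivial
          · ring
        rw [hq] at hpd
        have h2 := (hmem (h - (s - i)) (by omega) (p.1 - (n - c))).1 hpd
        rw [Finset.mem_filter, Finset.mem_Icc]
        refine ⟨h1, ?_, ?_⟩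
        · linarith [h2.2]
        · linarith [h2.1]
      · intro x hx
        rw [Finset.mem_filter, Finset.mem_Icc] at hx
        obtain ⟨h1, h2, h3⟩ := hx
        rw [Finset.mem_filter, Finset.mem_filter]
        refine ⟨⟨(hmem i (by omega) x).2 h1, ?_⟩, by simp⟩
        have hq : ((x, (i : ℤ)) : ℤ × ℤ) - (n - c, (s : ℤ) - h) =
            (x - (n - c), ((h - (s - i) : ℕ) : ℤ)) := by
          rw [hij, Prod.ext_iff]
          simp only [Prod.fst_sub, Prod.snd_sub]
          constructor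
          · trivial
          · ring
        rw [hq]
        exact (hmem (h - (s - i)) (by omega) (x - (n - c))).2 ⟨by linarith, by linarith⟩
      · intro p hp
        rw [Finset.mem_filter, Finset.mem_filter] at hp
        obtain ⟨⟨hpS, _⟩, hpi⟩ := hp
        have hp2 : p.2 = (i : ℤ) := by
          have := (rows p hpS).1
          omega
        show (p.1, (i : ℤ)) = p
        rw [← hp2]
      · intro x _
        rfl
    · intro p hp
      have hp' := Finset.mem_filter.1 (Finset.mem_coe.1 hp)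
      have h1 := (rows p hp'.1).1
      have h2 := (rows _ hp'.2).2
      simp only [Prod.snd_sub] at h2
      have : p.2.toNat < s + 1 := by omega
      exact Finset.mem_coe.2 (Finset.mem_range.2 this)
  rw [key]
  push_cast
  refine Finset.sum_congr rfl fun i _ => ?_
  rw [coeff_rowPoly_mul]

theorem row_identity {H K : Finset (ℤ × ℤ)} {h : ℕ} (cH : LConv H) (cK : LConv K)
    (hc : ∀ x, cov H x = cov K x)
    (rowsH : ∀ p ∈ H, 0 ≤ p.2 ∧ p.2 ≤ h) (rowsK : ∀ p ∈ K, 0 ≤ p.2 ∧ p.2 ≤ h)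
    (hH0 : ∃ x : ℤ, (x, 0) ∈ H) (hHh : ∃ x : ℤ, (x, (h : ℤ)) ∈ H)
    (hK0 : ∃ x : ℤ, (x, 0) ∈ K) (hKh : ∃ x : ℤ, (x, (h : ℤ)) ∈ K) (c : ℤ)
    (s : ℕ) (hs : s ≤ h) :
    ∑ i ∈ Finset.range (s + 1), rowPoly ⌈lft H i⌉ ⌊rgt H i⌋ *
      rowPoly (c - ⌊rgt H ((h - (s - i) : ℕ) : ℝ)⌋) (c - ⌈lft H ((h - (s - i) : ℕ) : ℝ)⌉) =
    ∑ i ∈ Finset.range (s + 1), rowPoly ⌈lft K i⌉ ⌊rgt K i⌋ *
      rowPoly (c - ⌊rgt K ((h - (s - i) : ℕ) : ℝ)⌋) (c - ⌈lft K ((h - (s - i) : ℕ) : ℝ)⌉) := by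
  apply LaurentPolynomial.ext
  intro n
  rw [coeff_side cH rowsH hH0 hHh c s hs n, coeff_side cK rowsK hK0 hKh c s hs n, hc]

end Pool.Agent.Lib.MP_bb0bab_co
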