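import Pool.Agent.Lib.MP_bb0bab_co.CBDefs
import Pool.Agent.Lib.MP_bb0bab_co.FE18

/-!
# CB01 algebra of row polynomials and products of `x^p - 1`

PROOF. `sub_one_mul_rowPoly` is FE18 `one_sub_mul_rowPoly` (already on main: import FE18 if you like) with the sign changed;
`T_mul_rowPoly`: reindex the sum (`Finset.sum_bij` / `Finset.Icc` image of `x ↦ n + x`).
`prod_inj`: work with polynomials over `ℤ`.  For a multiset `S` of positive integers put `Q S = ∏ (1 - X^p)`.
If `S ≠ ∅` has minimum `p` of multiplicity `k ≥ 1`, then `Q S = 1 - k X^p + (terms of degree > p)`; so `Q S` determines `p`.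
Hence `Q S = Q S'` gives: both empty, or the same minimum `p`; cancel `1 - X^p ≠ 0` (domain), induct on the cardinality.
`alg3`, `alg2`: pass to polynomials.  Both sides are `± T a · Q`, the lowest exponent of `Q` is `0` with coefficient `1`
(constant coefficient of `Q S` is 1), so `a = b` (compare lowest exponents, e.g. the coefficient at `min a b`), cancel `T a`
(a unit), apply `prod_inj`.  The map `Polynomial.toLaurent : ℤ[X] → ℤ[T;T⁻¹]` is injective (`Polynomial.toLaurent_injective`) and
sends `X^p` to `T p` (`Polynomial.toLaurent_X_pow`).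
`T_sum_inj`: the coefficient of the sum at `n` is `Multiset.count n S`.  `exists_alt`: the additive map `LaurentPolynomial ℤ →+ ℤ` with the given values on `T n` (finite sum
`P ↦ ∑ n ∈ support, coeff n * ε n`, e.g. via `Finsupp.liftAddHom` / `AddMonoidAlgebra` API); `φ ((1 + T M) * T n) = φ (T n) + φ (T (n+M)) = 0`, and every `Q` is a sum of multiples of `T n`.
-/

namespace Pool.Agent.Lib.MP_bb0bab_co

open LaurentPolynomial

theorem sub_one_mul_rowPoly {a b : ℤ} (hab : a ≤ b + 1) :
    (T 1 - 1) * rowPoly a b = T (b + 1) - T a := by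
  have h := one_sub_mul_rowPoly hab
  linear_combination -h

theorem T_mul_rowPoly (n a b : ℤ) : T n * rowPoly a b = rowPoly (n + a) (n + b) := by
  unfold rowPoly
  rw [Finset.mul_sum, ← Finset.map_add_left_Icc, Finset.sum_map]
  refine Finset.sum_congr rfl fun x _ => ?_
  rw [← T_add]
  rfl

theorem rowPoly_empty {a b : ℤ} (hab : b < a) : rowPoly a b = 0 := by
  unfold rowPoly
  rw [Finset.Icc_eq_empty (by omega), Finset.sum_empty]

theorem rowPoly_len (a : ℤ) (n : ℕ) : rowPoly a (a + n - 1) = T a * br n := by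
  unfold br
  rw [T_mul_rowPoly]
  congr 1 <;> ring

/-- `T 1 - 1` is not a zero divisor -/
theorem sub_one_cancel {p q : LaurentPolynomial ℤ} (h : (T 1 - 1) * p = (T 1 - 1) * q) : p = q := by
  have h0 : (T 1 - 1 : LaurentPolynomial ℤ) ≠ 0 := by
    intro h1
    rw [sub_eq_zero, ← T_zero] at h1
    have h2 := congrArg (fun f : LaurentPolynomial ℤ => f.coeff 1) h1
    simp only [T_apply] at h2
    norm_num at h2
  exact mul_left_cancel₀ h0 h

theorem prod_expand (n : ℕ) (hn : 0 < n) (S : Multiset ℕ) (hS : ∀ p ∈ S, n ≤ p) :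
    ∃ R : Polynomial ℤ, (S.map (fun p => (1 - Polynomial.X ^ p : Polynomial ℤ))).prod =
      1 - (Multiset.count n S : Polynomial ℤ) * Polynomial.X ^ n + Polynomial.X ^ (n + 1) * R := by
  induction S using Multiset.induction with
  | empty => exact ⟨0, by simp⟩
  | cons p S ih =>
    obtain ⟨R, hR⟩ := ih fun p hp => hS p (Multiset.mem_cons_of_mem hp)
    rw [Multiset.map_cons, Multiset.prod_cons, hR]
    rcases (hS p (Multiset.mem_cons_self p S)).eq_or_lt with h | h
    · subst h
      obtain ⟨k, rfl⟩ := Nat.exists_eq_succ_of_ne_zero hn.ne'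
      refine ⟨R - Polynomial.X ^ (k + 1) * R +
        (Multiset.count (k + 1) S : Polynomial ℤ) * Polynomial.X ^ k, ?_⟩
      rw [Nat.succ_eq_add_one, Multiset.count_cons_self]
      push_cast
      ring
    · obtain ⟨d, rfl⟩ := Nat.exists_eq_add_of_lt h
      rw [Multiset.count_cons_of_ne (by omega)]
      refine ⟨R - Polynomial.X ^ d * (1 - (Multiset.count n S : Polynomial ℤ) * Polynomial.X ^ n +
        Polynomial.X ^ (n + 1) * R), ?_⟩
      ring

theorem count_eq_of_prod (n : ℕ) (hn : 0 < n) (S S' : Multiset ℕ) (hS : ∀ p ∈ S, n ≤ p)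
    (hS' : ∀ p ∈ S', n ≤ p)
    (h : (S.map (fun p => (1 - Polynomial.X ^ p : Polynomial ℤ))).prod =
      (S'.map (fun p => (1 - Polynomial.X ^ p : Polynomial ℤ))).prod) :
    Multiset.count n S = Multiset.count n S' := by
  obtain ⟨R, hR⟩ := prod_expand n hn S hS
  obtain ⟨R', hR'⟩ := prod_expand n hn S' hS'
  rw [hR, hR'] at h
  have h1 := congrArg (fun p => Polynomial.coeff p n) h
  have key : ∀ (k : ℕ) (Q : Polynomial ℤ), (1 - (k : Polynomial ℤ) * Polynomial.X ^ n +
      Polynomial.X ^ (n + 1) * Q).coeff n = - (k : ℤ) := by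
    intro k Q
    rw [Polynomial.coeff_add, Polynomial.coeff_sub, Polynomial.coeff_X_pow_mul',
      if_neg (by omega), Polynomial.coeff_one, if_neg hn.ne', Polynomial.natCast_mul,
      Polynomial.coeff_smul, Polynomial.coeff_X_pow_self]
    simp
  simp only [key] at h1
  omega

theorem prod_coeff_zero (S : Multiset ℕ) (hS : ∀ p ∈ S, 0 < p) :
    (S.map (fun p => (1 - Polynomial.X ^ p : Polynomial ℤ))).prod.coeff 0 = 1 := by
  obtain ⟨R, hR⟩ := prod_expand 1 one_pos S hS
  rw [hR]
  simp [Polynomial.mul_coeff_zero]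

theorem T_mul_inj_aux {a b : ℤ} (hab : a ≤ b) {P P' : Polynomial ℤ} (h0 : P.coeff 0 ≠ 0)
    (h : (T a : LaurentPolynomial ℤ) * Polynomial.toLaurent P = T b * Polynomial.toLaurent P') :
    a = b ∧ P = P' := by
  obtain ⟨n, rfl⟩ := Int.le.dest hab
  rw [T_add, mul_assoc, ← Polynomial.toLaurent_X_pow, ← map_mul] at h
  have h1 := (isUnit_T a).mul_left_cancel h
  rw [Polynomial.toLaurent_inj] at h1
  rcases Nat.eq_zero_or_pos n with rfl | hn
  · rw [pow_zero, one_mul] at h1
    exact ⟨by simp, h1⟩
  · exfalso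
    apply h0
    rw [h1, Polynomial.coeff_X_pow_mul', if_neg (by omega)]

theorem T_mul_inj {a b : ℤ} {P P' : Polynomial ℤ} (h0 : P.coeff 0 ≠ 0) (h0' : P'.coeff 0 ≠ 0)
    (h : (T a : LaurentPolynomial ℤ) * Polynomial.toLaurent P = T b * Polynomial.toLaurent P') :
    a = b ∧ P = P' := by
  rcases le_total a b with hab | hab
  · exact T_mul_inj_aux hab h0 h
  · obtain ⟨h1, h2⟩ := T_mul_inj_aux hab h0' h.symm
    exact ⟨h1.symm, h2.symm⟩

/-- general form of `alg2`, `alg3` -/
theorem T_mul_prod_inj {a b : ℤ} (S S' : Multiset ℕ) (hS : ∀ p ∈ S, 0 < p) (hS' : ∀ p ∈ S', 0 < p)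
    (hs : (T a : LaurentPolynomial ℤ) * Polynomial.toLaurent
        (S.map (fun p => (1 - Polynomial.X ^ p : Polynomial ℤ))).prod =
      T b * Polynomial.toLaurent (S'.map (fun p => (1 - Polynomial.X ^ p : Polynomial ℤ))).prod)
    (hinj : ∀ (S S' : Multiset ℕ), (∀ p ∈ S, 0 < p) → (∀ p ∈ S', 0 < p) →
      (S.map (fun p => (1 - Polynomial.X ^ p : Polynomial ℤ))).prod =
      (S'.map (fun p => (1 - Polynomial.X ^ p : Polynomial ℤ))).prod → S = S') :
    a = b ∧ S = S' := by
  obtain ⟨h1, h2⟩ := T_mul_inj (by rw [prod_coeff_zero S hS]; exact one_ne_zero)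
    (by rw [prod_coeff_zero S' hS']; exact one_ne_zero) hs
  exact ⟨h1, hinj S S' hS hS' h2⟩

theorem prod_inj (S S' : Multiset ℕ) (hS : ∀ p ∈ S, 0 < p) (hS' : ∀ p ∈ S', 0 < p)
    (h : (S.map (fun p => (1 - Polynomial.X ^ p : Polynomial ℤ))).prod =
      (S'.map (fun p => (1 - Polynomial.X ^ p : Polynomial ℤ))).prod) : S = S' := by
  have hne : ∀ A : Multiset ℕ, (∀ p ∈ A, 0 < p) →
      (A.map (fun p => (1 - Polynomial.X ^ p : Polynomial ℤ))).prod ≠ 0 := by
    intro A hA h0
    rcases A.empty_or_exists_mem with rfl | hex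
    · simp at h0
    · have h1 := congrArg (Polynomial.eval (2 : ℤ)) h0
      rw [Polynomial.eval_multiset_prod, Polynomial.eval_zero, Multiset.prod_eq_zero_iff,
        Multiset.map_map, Multiset.mem_map] at h1
      obtain ⟨p, hp, h2⟩ := h1
      have h3 : (1 : ℤ) < 2 ^ p := one_lt_pow₀ (by norm_num) (hA p hp).ne'
      simp only [Function.comp_apply, Polynomial.eval_sub, Polynomial.eval_one,
        Polynomial.eval_pow, Polynomial.eval_X] at h2
      linarith
  rw [Multiset.ext]
  intro n
  induction n using Nat.strong_induction_on with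
  | _ n ih =>
    rcases Nat.eq_zero_or_pos n with rfl | hn
    · rw [Multiset.count_eq_zero_of_notMem fun h0 => (hS 0 h0).ne rfl,
        Multiset.count_eq_zero_of_notMem fun h0 => (hS' 0 h0).ne rfl]
    · have hA : S.filter (· < n) = S'.filter (· < n) := by
        rw [Multiset.ext]
        intro j
        rw [Multiset.count_filter, Multiset.count_filter]
        split_ifs with hj
        · exact ih j hj
        · rfl
      have e1 := Multiset.filter_add_not (· < n) S
      have e2 := Multiset.filter_add_not (· < n) S'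
      rw [← e1, ← e2, Multiset.map_add, Multiset.map_add, Multiset.prod_add, Multiset.prod_add,
        hA] at h
      have h1 := mul_left_cancel₀ (hne (S'.filter (· < n)) fun p hp =>
        hS' p (Multiset.mem_filter.mp hp).1) h
      have h2 := count_eq_of_prod n hn (S.filter fun x => ¬ x < n) (S'.filter fun x => ¬ x < n)
        (fun p hp => not_lt.mp (Multiset.mem_filter.mp hp).2)
        (fun p hp => not_lt.mp (Multiset.mem_filter.mp hp).2) h1
      rw [Multiset.count_filter_of_pos (p := fun x => ¬ x < n) (lt_irrefl n),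
        Multiset.count_filter_of_pos (p := fun x => ¬ x < n) (lt_irrefl n)] at h2
      exact h2

theorem alg3 {a b : ℤ} {p q r p' q' r' : ℕ} (hp : 0 < p) (hq : 0 < q) (hr : 0 < r)
    (hp' : 0 < p') (hq' : 0 < q') (hr' : 0 < r')
    (h : (T a : LaurentPolynomial ℤ) * ((T p - 1) * (T q - 1) * (T r - 1)) =
      T b * ((T p' - 1) * (T q' - 1) * (T r' - 1))) :
    a = b ∧ ({p, q, r} : Multiset ℕ) = {p', q', r'} := by
  refine T_mul_prod_inj {p, q, r} {p', q', r'} ?_ ?_ ?_ prod_inj
  · intro x hx
    simp only [Multiset.insert_eq_cons, Multiset.mem_cons, Multiset.mem_singleton] at hx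
    rcases hx with rfl | rfl | rfl <;> assumption
  · intro x hx
    simp only [Multiset.insert_eq_cons, Multiset.mem_cons, Multiset.mem_singleton] at hx
    rcases hx with rfl | rfl | rfl <;> assumption
  · simp only [Multiset.insert_eq_cons, Multiset.map_cons, Multiset.map_singleton,
      Multiset.prod_cons, Multiset.prod_singleton, map_mul, map_sub, map_one,
      Polynomial.toLaurent_X_pow]
    linear_combination -h

theorem alg2 {a b : ℤ} {p q p' q' : ℕ} (hp : 0 < p) (hq : 0 < q) (hp' : 0 < p') (hq' : 0 < q')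
    (h : (T a : LaurentPolynomial ℤ) * ((T p - 1) * (T q - 1)) = T b * ((T p' - 1) * (T q' - 1))) :
    a = b ∧ ((p = p' ∧ q = q') ∨ (p = q' ∧ q = p')) := by
  have h1 := T_mul_prod_inj (a := a) (b := b) {p, q} {p', q'} ?_ ?_ ?_ prod_inj
  · obtain ⟨h1, h2⟩ := h1
    refine ⟨h1, ?_⟩
    have h3 : p ∈ ({p', q'} : Multiset ℕ) := by
      rw [← h2]
      simp
    have h4 := congrArg Multiset.sum h2
    simp only [Multiset.insert_eq_cons, Multiset.mem_cons, Multiset.mem_singleton,
      Multiset.sum_cons, Multiset.sum_singleton] at h3 h4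
    omega
  · intro x hx
    simp only [Multiset.insert_eq_cons, Multiset.mem_cons, Multiset.mem_singleton] at hx
    rcases hx with rfl | rfl <;> assumption
  · intro x hx
    simp only [Multiset.insert_eq_cons, Multiset.mem_cons, Multiset.mem_singleton] at hx
    rcases hx with rfl | rfl <;> assumption
  · simp only [Multiset.insert_eq_cons, Multiset.map_cons, Multiset.map_singleton,
      Multiset.prod_cons, Multiset.prod_singleton, map_mul, map_sub, map_one,
      Polynomial.toLaurent_X_pow]
    linear_combination h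

/-- sums of monomials determine the multiset of exponents -/
theorem T_sum_inj (S S' : Multiset ℤ)
    (h : (S.map (fun n => (T n : LaurentPolynomial ℤ))).sum = (S'.map (fun n => (T n : LaurentPolynomial ℤ))).sum) :
    S = S' := by
  have key : ∀ (A : Multiset ℤ) (n : ℤ),
      ((A.map (fun n => (T n : LaurentPolynomial ℤ))).sum).coeff n = (Multiset.count n A : ℤ) := by
    intro A n
    induction A using Multiset.induction with
    | empty => simp
    | cons k A ih =>
      rw [Multiset.map_cons, Multiset.sum_cons, AddMonoidAlgebra.coeff_add, Finsupp.add_apply, ih,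
        T_apply]
      by_cases hk : k = n
      · subst hk
        rw [if_pos rfl, Multiset.count_cons_self]
        push_cast
        ring
      · rw [if_neg hk, Multiset.count_cons_of_ne (Ne.symm hk), zero_add]
  rw [Multiset.ext]
  intro n
  have h1 := congrArg (fun f : LaurentPolynomial ℤ => f.coeff n) h
  simp only [key] at h1
  exact_mod_cast h1

/-- the alternating functional `∑_k (-1)^k coeff (r + k M)` kills the multiples of `1 + x^M` -/
theorem exists_alt (M : ℕ) (hM : 1 ≤ M) (r : ℤ) :
    ∃ φ : LaurentPolynomial ℤ →+ ℤ,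
      (∀ n : ℤ, φ (T n) = if (2 * (M : ℤ)) ∣ n - r then 1 else
        if (2 * (M : ℤ)) ∣ n - r - M then -1 else 0) ∧
      ∀ Q : LaurentPolynomial ℤ, φ ((1 + T M) * Q) = 0 := by
  let ε : ℤ → ℤ := fun n => if (2 * (M : ℤ)) ∣ n - r then 1 else
        if (2 * (M : ℤ)) ∣ n - r - M then -1 else 0
  let φ : LaurentPolynomial ℤ →+ ℤ :=
    (Finsupp.liftAddHom (fun n : ℤ => (AddMonoidHom.mulRight (ε n) : ℤ →+ ℤ))).comp
      AddMonoidAlgebra.coeffAddEquiv.toAddMonoidHom
  have hφC : ∀ (n : ℤ) (c : ℤ), φ (LaurentPolynomial.C c * T n) = c * ε n := by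
    intro n c
    rw [← LaurentPolynomial.single_eq_C_mul_T]
    change (Finsupp.liftAddHom (fun n : ℤ => (AddMonoidHom.mulRight (ε n) : ℤ →+ ℤ)))
      (Finsupp.single n c) = c * ε n
    simp
  have hφ : ∀ n : ℤ, φ (T n) = ε n := by
    intro n
    have h1 := hφC n 1
    rwa [map_one, one_mul, one_mul] at h1
  refine ⟨φ, hφ, ?_⟩
  have hper : ∀ n : ℤ, ε n + ε (M + n) = 0 := by
    intro n
    have hM' : (1 : ℤ) ≤ M := by exact_mod_cast hM
    have e1 : (2 * (M : ℤ)) ∣ M + n - r ↔ (2 * (M : ℤ)) ∣ n - r - M := by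
      rw [show (M : ℤ) + n - r = (n - r - M) + 2 * M by ring]
      exact dvd_add_self_right
    have e2 : (2 * (M : ℤ)) ∣ M + n - r - M ↔ (2 * (M : ℤ)) ∣ n - r := by
      rw [show (M : ℤ) + n - r - M = n - r by ring]
    have e3 : ¬ ((2 * (M : ℤ)) ∣ n - r ∧ (2 * (M : ℤ)) ∣ n - r - M) := by
      rintro ⟨h1, h2⟩
      have h3 := dvd_sub h1 h2
      rw [sub_sub_cancel] at h3
      have h4 := Int.le_of_dvd (by omega) h3
      omega
    simp only [ε, e1, e2]
    by_cases h1 : (2 * (M : ℤ)) ∣ n - r <;> by_cases h2 : (2 * (M : ℤ)) ∣ n - r - M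
    · exact absurd ⟨h1, h2⟩ e3
    · simp [h1, h2]
    · simp [h1, h2]
    · simp [h1, h2]
  intro Q
  induction Q using LaurentPolynomial.induction_on' with
  | add p q hp hq => rw [mul_add, map_add, hp, hq, add_zero]
  | C_mul_T n c =>
    rw [show ((1 + T (M : ℤ)) * (LaurentPolynomial.C c * T n) : LaurentPolynomial ℤ) =
      LaurentPolynomial.C c * T n + LaurentPolynomial.C c * (T (M : ℤ) * T n) by ring, ← T_add,
      map_add, hφC, hφC, ← mul_add, hper, mul_zero]

/-- mass: value at `x = 1` of a row polynomial -/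
theorem eval_rowPoly {R : Type*} [CommRing R] (f : LaurentPolynomial ℤ →+* R) (hf : f (T 1) = 1) (a b : ℤ) :
    f (rowPoly a b) = ((b + 1 - a).toNat : R) := by
  have hT : ∀ n : ℤ, f (T n) = 1 := by
    intro n
    obtain ⟨k, rfl | rfl⟩ := n.eq_nat_or_neg
    · rw [← mul_one (k : ℤ), ← T_pow, map_pow, hf, one_pow]
    · have h1 : f (T (k : ℤ)) = 1 := by
        rw [← mul_one (k : ℤ), ← T_pow, map_pow, hf, one_pow]
      have h2 : f (T (k : ℤ)) * f (T (-(k : ℤ))) = 1 := by
        rw [← map_mul, ← T_add, add_neg_cancel, T_zero, map_one]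
      rwa [h1, one_mul] at h2
  unfold rowPoly
  rw [map_sum, Finset.sum_congr rfl fun x _ => hT x, Finset.sum_const, Int.card_Icc, nsmul_eq_mul,
    mul_one]

end Pool.Agent.Lib.MP_bb0bab_co
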