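import Pool.Agent.Lib.MP_bb0bab_co.CB01

/-!
# CB02 the equation of a free row (pure algebra, v2; checked by brute force for M = 1,2,3,4, L up to 2M+3)

PROOF.  `D = rowPoly a' .. - rowPoly a ..`, `D' = rowPoly c' .. - rowPoly c ..`, `u1 = a'-a, u2 = b'-b, v1 = c'-c, v2 = d'-d`.  All lengths are `≥ 0`, so `(x-1) rowPoly a (b+L-1) = T (b+L) - T a` also for empty rows.
MASS (value at `x = 1`, e.g. sum of the coefficients): `M (u2 - u1) = L (v2 - v1)`.
(B) `u2 = u1 =: u`.  Then `v2 = v1 =: v`.  Multiply by `(x-1)²`: with `lam = b+L-a`, `mu = d+M-c`: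
`x^a (x^u - 1)(x^M - 1)(x^lam - 1) = x^c (x^v - 1)(x^L - 1)(x^mu - 1)`.  If `u ≠ 0` then `lam ≥ 1` (`hl`), if `v ≠ 0` then `mu ≥ 1` (`hm`); so `u = 0 ↔ v = 0` (a nonzero product on the other side).
Otherwise for negative `u` write `x^u - 1 = - x^u (x^|u| - 1)`; the signs of `u` and `v` agree (compare the lowest coefficients).  `alg3`: lowest exponents agree and `{M, lam, |u|} = {L, mu, |v|}`.
`t = 0`: `|u| = |v| = 1`, `L ≥ 2`: `lam = L`, `{M,1} = {mu,1}`: case 2.  `t = 1`: `M ≥ 2`, `L ≥ 3 > |u|`: `lam = L` and `{M,|u|} = {mu,|v|}`.  If `mu = M`: `|u| = |v|`, `u = v`, `b = a`, `d = c`, and lowest exponents give `a = c`: case 2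
(`u ∈ {-1,1,2}` since `u ≥ t-1 ≥ -1`, `u ≤ t+1 ≤ 2`).  Otherwise `mu = |u|`, `|v| = M ≥ 2`, so `v = 2 = M`, `u > 0`, `u = mu`;
`u = 2` is again `mu = M`; `u = 1`: `mu = 1`, case 3.
(A) `u2 ≠ u1`.  `|u2-u1| ≤ 2`, `|v2-v1| ≤ 2`, `M |u2-u1| = L |v2-v1|`, `L > M`: `|u2-u1| = 2`, `|v2-v1| = 1`, `L = 2M`.
`br L = br M * (1 + x^M)`, cancel `br M`: `D = (1 + x^M) D'`.  `t = 1`: `D = ±(1+x) x^p` (`u = (0,2)` or `(2,0)`), which is not a multiple of
`1+x^M` (`M ≥ 2`; `exists_alt` with `r = p`: `1 ≠ 0`).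
`t = 0`, `u = (-1,1)`: `D = x^(a-1) + x^(b+L)`; `v2 - v1 = 1` so `v ∈ {(-1,0),(0,1)}` and `D' = x^(c-1)` resp. `x^(d+M)`, i.e. `D' = x^r`;
`x^(a-1)(1 + x^l) = x^r (1 + x^M)`, `l = b+L-a+1 ≥ 1`: `r = a-1`, `l = M` (`T_sum_inj`): case 4.  `u = (1,-1)`: all signs negative, `D = -(x^a + x^(b+L-1))`,
`D' = -x^c` (`v = (1,0)`) or `-x^(d+M-1)` (`v = (0,-1)`), `b+L-1-a ≥ 1` (as the length of the row of `K` is `≥ 0`): case 5.
-/

namespace Pool.Agent.Lib.MP_bb0bab_co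

open LaurentPolynomial

private theorem z_T_sub_one_ne {n : ℕ} (hn : 0 < n) : (T (n : ℤ) - 1 : LaurentPolynomial ℤ) ≠ 0 := by
  intro h
  have h1 := congrArg (fun p : LaurentPolynomial ℤ => p.coeff 0) h
  simp only [AddMonoidAlgebra.coeff_sub, Finsupp.sub_apply] at h1
  rw [← T_zero, T_apply, T_apply] at h1
  have h2 : ¬ ((n : ℤ) = 0) := by omega
  rw [if_neg h2, if_pos rfl] at h1
  simp at h1

private theorem z_br_mul (n : ℕ) (hn : 1 ≤ n) : (T 1 - 1) * br n = (T (n : ℤ) - 1 : LaurentPolynomial ℤ) := by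
  unfold br
  rw [sub_one_mul_rowPoly (by omega)]
  rw [show (n : ℤ) - 1 + 1 = n by ring, T_zero]

private theorem z_mass {L M : ℕ} {a b c d a' b' c' d' : ℤ}
    (h1 : 0 ≤ b + L - a) (h2 : 0 ≤ b' + L - a') (h3 : 0 ≤ d + M - c) (h4 : 0 ≤ d' + M - c')
    (heq : br M * (rowPoly a' (b' + L - 1) - rowPoly a (b + L - 1)) =
      br L * (rowPoly c' (d' + M - 1) - rowPoly c (d + M - 1))) :
    (M : ℤ) * ((b' - a') - (b - a)) = L * ((d' - c') - (d - c)) := by
  set f : LaurentPolynomial ℤ →+* ℤ := LaurentPolynomial.eval₂ (Int.castRingHom ℤ) (1 : ℤˣ) with hf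
  have hf1 : f (T 1) = 1 := by rw [hf, LaurentPolynomial.eval₂_T]; simp
  have h := congrArg f heq
  unfold br at h
  simp only [map_mul, map_sub, eval_rowPoly f hf1] at h
  have e1 : (((M : ℤ) - 1 + 1 - 0).toNat : ℤ) = M := by omega
  have e2 : (((L : ℤ) - 1 + 1 - 0).toNat : ℤ) = L := by omega
  have e3 : ((b' + L - 1 + 1 - a').toNat : ℤ) = b' + L - a' := by omega
  have e4 : ((b + L - 1 + 1 - a).toNat : ℤ) = b + L - a := by omega
  have e5 : ((d' + M - 1 + 1 - c').toNat : ℤ) = d' + M - c' := by omega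
  have e6 : ((d + M - 1 + 1 - c).toNat : ℤ) = d + M - c := by omega
  rw [e1, e2, e3, e4, e5, e6] at h
  linarith

private theorem z_mul {L M : ℕ} (hM : 1 ≤ M) (hLM : M < L) {a b c d a' b' c' d' : ℤ}
    (h1 : 0 ≤ b + L - a) (h2 : 0 ≤ b' + L - a') (h3 : 0 ≤ d + M - c) (h4 : 0 ≤ d' + M - c')
    (heq : br M * (rowPoly a' (b' + L - 1) - rowPoly a (b + L - 1)) =
      br L * (rowPoly c' (d' + M - 1) - rowPoly c (d + M - 1))) :
    (T (M : ℤ) - 1 : LaurentPolynomial ℤ) * ((T (b' + L) - T a') - (T (b + L) - T a)) =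
      (T (L : ℤ) - 1) * ((T (d' + M) - T c') - (T (d + M) - T c)) := by
  have k1 : (T 1 - 1 : LaurentPolynomial ℤ) * rowPoly a' (b' + L - 1) = T (b' + L) - T a' := by
    rw [sub_one_mul_rowPoly (by omega)]; congr 2; ring
  have k2 : (T 1 - 1 : LaurentPolynomial ℤ) * rowPoly a (b + L - 1) = T (b + L) - T a := by
    rw [sub_one_mul_rowPoly (by omega)]; congr 2; ring
  have k3 : (T 1 - 1 : LaurentPolynomial ℤ) * rowPoly c' (d' + M - 1) = T (d' + M) - T c' := by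
    rw [sub_one_mul_rowPoly (by omega)]; congr 2; ring
  have k4 : (T 1 - 1 : LaurentPolynomial ℤ) * rowPoly c (d + M - 1) = T (d + M) - T c := by
    rw [sub_one_mul_rowPoly (by omega)]; congr 2; ring
  rw [← k1, ← k2, ← k3, ← k4, ← z_br_mul M (by omega), ← z_br_mul L (by omega)]
  linear_combination (T 1 - 1 : LaurentPolynomial ℤ) ^ 2 * heq

private theorem z_caseB {L M : ℕ} (hM : 1 ≤ M) (hLM : M < L) {p q : ℤ} {U V lam mu : ℕ}
    (hU : 1 ≤ U) (hU' : U < L) (hV : 1 ≤ V) (hlam : 0 < lam) (hmu : 0 < mu)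
    (h : (T p : LaurentPolynomial ℤ) * ((T M - 1) * (T U - 1) * (T lam - 1)) =
      T q * ((T L - 1) * (T V - 1) * (T mu - 1))) :
    p = q ∧ lam = L ∧ ((M = V ∧ U = mu) ∨ (M = mu ∧ U = V)) := by
  obtain ⟨h1, h2⟩ := alg3 (show 0 < M by omega) (show 0 < U by omega) hlam
    (show 0 < L by omega) (show 0 < V by omega) hmu h
  have h3 : L ∈ ({M, U, lam} : Multiset ℕ) := by rw [h2]; simp
  have h4 : lam = L := by
    simp only [Multiset.insert_eq_cons, Multiset.mem_cons, Multiset.mem_singleton] at h3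
    omega
  subst h4
  refine ⟨h1, rfl, ?_⟩
  have h5 : (T p : LaurentPolynomial ℤ) * ((T M - 1) * (T U - 1)) = T q * ((T V - 1) * (T mu - 1)) := by
    apply mul_left_cancel₀ (z_T_sub_one_ne hlam)
    linear_combination h
  exact (alg2 (show 0 < M by omega) (show 0 < U by omega) (show 0 < V by omega) hmu h5).2

/-- value at `2` -/
private theorem z_eval2 : ∃ f : LaurentPolynomial ℤ →+* ℚ, ∀ n : ℤ, f (T n) = (2 : ℚ) ^ n := by
  refine ⟨LaurentPolynomial.eval₂ (Int.castRingHom ℚ) (Units.mk0 (2 : ℚ) two_ne_zero), fun n => ?_⟩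
  rw [LaurentPolynomial.eval₂_T]
  simp

private theorem z_neg {L M : ℕ} (hM : 1 ≤ M) (hL : 1 ≤ L) {p q : ℤ} {U V lam mu : ℕ}
    (hU : 1 ≤ U) (hV : 1 ≤ V) (hlam : 0 < lam) (hmu : 0 < mu)
    (h : (T p : LaurentPolynomial ℤ) * ((T M - 1) * (T U - 1) * (T lam - 1)) =
      - (T q * ((T L - 1) * (T V - 1) * (T mu - 1)))) : False := by
  obtain ⟨f, hf⟩ := z_eval2
  have h' := congrArg f h
  simp only [map_mul, map_neg, map_sub, map_one, hf, zpow_natCast] at h'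
  have hp : ∀ n : ℕ, 1 ≤ n → (0 : ℚ) < 2 ^ n - 1 := by
    intro n hn
    have : (1 : ℚ) < 2 ^ n := one_lt_pow₀ (by norm_num) (by omega)
    linarith
  have e1 := hp M hM
  have e2 := hp U hU
  have e3 := hp lam hlam
  have e4 := hp L hL
  have e5 := hp V hV
  have e6 := hp mu hmu
  have e7 : (0 : ℚ) < 2 ^ p := by positivity
  have e8 : (0 : ℚ) < 2 ^ q := by positivity
  have l1 : (0 : ℚ) < 2 ^ p * ((2 ^ M - 1) * (2 ^ U - 1) * (2 ^ lam - 1)) := by positivity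
  have l2 : (0 : ℚ) < 2 ^ q * ((2 ^ L - 1) * (2 ^ V - 1) * (2 ^ mu - 1)) := by positivity
  linarith

/-- coefficients in case (A) -/
private theorem z_key {M : ℕ} (hM : 1 ≤ M) {a b c d a' b' c' d' : ℤ}
    (h : (T (M : ℤ) - 1 : LaurentPolynomial ℤ) * ((T (b' + (2 * M : ℕ)) - T a') - (T (b + (2 * M : ℕ)) - T a)) =
      (T ((2 * M : ℕ) : ℤ) - 1) * ((T (d' + M) - T c') - (T (d + M) - T c))) (n : ℤ) :
    ((if b' + 2 * M = n then 1 else 0) - (if a' = n then 1 else 0) -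
      ((if b + 2 * M = n then 1 else 0) - (if a = n then 1 else 0)) : ℤ) =
    ((if d' + 2 * M = n then 1 else 0) - (if c' + M = n then 1 else 0) -
      ((if d + 2 * M = n then 1 else 0) - (if c + M = n then 1 else 0))) +
    ((if d' + M = n then 1 else 0) - (if c' = n then 1 else 0) -
      ((if d + M = n then 1 else 0) - (if c = n then 1 else 0))) := by
  have e0 : (T ((2 * M : ℕ) : ℤ) : LaurentPolynomial ℤ) = T (M : ℤ) * T (M : ℤ) := by
    rw [← T_add]; congr 1; push_cast; ring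
  have h1 : ((T (b' + (2 * M : ℕ)) - T a') - (T (b + (2 * M : ℕ)) - T a) : LaurentPolynomial ℤ) =
      (T (M : ℤ) + 1) * ((T (d' + M) - T c') - (T (d + M) - T c)) := by
    apply mul_left_cancel₀ (z_T_sub_one_ne (show 0 < M by omega))
    rw [h, e0]
    ring
  have e1 : ∀ k : ℤ, (T (M : ℤ) * T k : LaurentPolynomial ℤ) = T (k + M) := by
    intro k; rw [← T_add, add_comm]
  have h2 : ((T (b' + (2 * M : ℕ)) - T a') - (T (b + (2 * M : ℕ)) - T a) : LaurentPolynomial ℤ) =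
      ((T (d' + M + M) - T (c' + M)) - (T (d + M + M) - T (c + M))) +
      ((T (d' + M) - T c') - (T (d + M) - T c)) := by
    rw [h1, add_mul, one_mul, mul_sub, mul_sub, mul_sub, e1, e1, e1, e1]
  have h3 := congrArg (fun p : LaurentPolynomial ℤ => p.coeff n) h2
  simp only [AddMonoidAlgebra.coeff_sub, AddMonoidAlgebra.coeff_add, Finsupp.sub_apply,
    Finsupp.add_apply, T_apply] at h3
  have r1 : ∀ k : ℤ, k + M + M = k + 2 * M := by intro k; ring
  rw [r1, r1] at h3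
  push_cast at h3
  exact h3

/-- case (A), `u2 - u1 = 2`, `v2 - v1 = 1` -/
private theorem z_caseAp {M : ℕ} (hM : 1 ≤ M) {a b c d a' b' c' d' t : ℤ}
    (ht : t = 0 ∨ (t = 1 ∧ 2 ≤ M))
    (h1 : 0 ≤ b + 2 * M - a) (h3 : 0 ≤ d + M - c)
    (ha : a' = a + t - 1) (hb : b' = b + t + 1)
    (hv : (c' = c + t - 1 ∧ d' = d + t) ∨ (c' = c + t ∧ d' = d + t + 1))
    (key : ∀ n : ℤ, ((if b' + 2 * M = n then 1 else 0) - (if a' = n then 1 else 0) -
      ((if b + 2 * M = n then 1 else 0) - (if a = n then 1 else 0)) : ℤ) =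
    ((if d' + 2 * M = n then 1 else 0) - (if c' + M = n then 1 else 0) -
      ((if d + 2 * M = n then 1 else 0) - (if c + M = n then 1 else 0))) +
    ((if d' + M = n then 1 else 0) - (if c' = n then 1 else 0) -
      ((if d + M = n then 1 else 0) - (if c = n then 1 else 0)))) :
    t = 0 ∧ b + 2 * M = a' + M ∧
      ((c' = a' ∧ c = a' + 1) ∨ (d' + M = a' + 1 ∧ d + M = a')) := by
  subst ha hb
  rcases ht with rfl | ⟨rfl, hM2⟩
  · rcases hv with ⟨rfl, rfl⟩ | ⟨rfl, rfl⟩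
    · have k1 := key (a - 1)
      have k2 := key (c - 1)
      have k3 := key (c + M)
      have : a = c := by omega
      omega
    · have k1 := key (a - 1)
      have k2 := key (d + M)
      have k3 := key (d + 1 + 2 * M)
      have : a - 1 = d + M := by omega
      omega
  · rcases hv with ⟨rfl, rfl⟩ | ⟨rfl, rfl⟩
    · have k1 := key (d + M)
      have k2 := key (d + 2 * M)
      omega
    · have k1 := key c
      have k2 := key (c - 2)
      have k3 := key (c + 1)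
      have k4 := key (c + 3)
      rcases (show d + M = c ∨ c + 1 ≤ d + M by omega) with h | h
      · clear k2
        omega
      · clear k3 k4
        omega

/-- case (A), `u2 - u1 = - 2`, `v2 - v1 = - 1` -/
private theorem z_caseAm {M : ℕ} (hM : 1 ≤ M) {a b c d a' b' c' d' t : ℤ}
    (ht : t = 0 ∨ (t = 1 ∧ 2 ≤ M))
    (h1 : 0 ≤ b' + 2 * M - a') (h3 : 0 ≤ d' + M - c')
    (ha : a' = a + t + 1) (hb : b' = b + t - 1)
    (hv : (c' = c + t ∧ d' = d + t - 1) ∨ (c' = c + t + 1 ∧ d' = d + t))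
    (key : ∀ n : ℤ, ((if b' + 2 * M = n then 1 else 0) - (if a' = n then 1 else 0) -
      ((if b + 2 * M = n then 1 else 0) - (if a = n then 1 else 0)) : ℤ) =
    ((if d' + 2 * M = n then 1 else 0) - (if c' + M = n then 1 else 0) -
      ((if d + 2 * M = n then 1 else 0) - (if c + M = n then 1 else 0))) +
    ((if d' + M = n then 1 else 0) - (if c' = n then 1 else 0) -
      ((if d + M = n then 1 else 0) - (if c = n then 1 else 0)))) :
    t = 0 ∧ b' + 2 * M = a + M ∧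
      ((c = a ∧ c' = a + 1) ∨ (d + M = a + 1 ∧ d' + M = a)) := by
  subst ha hb
  rcases ht with rfl | ⟨rfl, hM2⟩
  · rcases hv with ⟨rfl, rfl⟩ | ⟨rfl, rfl⟩
    · have k1 := key a
      have k2 := key (d - 1 + M)
      have k3 := key (d + 2 * M)
      have : a = d - 1 + M := by omega
      omega
    · have k1 := key a
      have k2 := key c
      have k3 := key (c + 1 + M)
      have : a = c := by omega
      omega
  · rcases hv with ⟨rfl, rfl⟩ | ⟨rfl, rfl⟩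
    · have k1 := key c
      have k2 := key (c + M)
      omega
    · have k1 := key (d + 1 + 2 * M)
      have k2 := key (d + 3 + 2 * M)
      have k3 := key c
      have k4 := key (c + 1)
      rcases (show d + M = c + 1 ∨ c + 2 ≤ d + M by omega) with h | h
      · clear k1 k2
        omega
      · clear k3 k4
        omega

/-- case (B) -/
private theorem z_caseBB {L M : ℕ} (hM : 1 ≤ M) (hLM : M < L) {a b c d u v t : ℤ}
    (ht : t = 0 ∨ (t = 1 ∧ 2 ≤ M))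
    (h1 : 0 ≤ b + L - a) (h3 : 0 ≤ d + M - c)
    (hl : u ≠ 0 → 1 ≤ b + L - a) (hm : v ≠ 0 → 1 ≤ d + M - c)
    (u1 : t - 1 ≤ u ∧ u ≤ t + 1) (v1 : t - 1 ≤ v ∧ v ≤ t + 1)
    (h : (T (M : ℤ) - 1 : LaurentPolynomial ℤ) * ((T (b + u + L) - T (a + u)) - (T (b + L) - T a)) =
      (T (L : ℤ) - 1) * ((T (d + v + M) - T (c + v)) - (T (d + M) - T c))) :
    (u = 0 ∧ v = 0) ∨ (b = a ∧ c = a ∧ d = a ∧ u = v ∧ (u = -1 ∨ u = 1 ∨ u = 2)) ∨
    (d = c - 1 ∧ v = 2) := by
  obtain ⟨lam, hlam⟩ := Int.eq_ofNat_of_zero_le (show 0 ≤ b + L - a by omega)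
  obtain ⟨mu, hmu⟩ := Int.eq_ofNat_of_zero_le (show 0 ≤ d + M - c by omega)
  have hb : b + L = a + lam := by omega
  have hd : d + M = c + mu := by omega
  have h' : (T a : LaurentPolynomial ℤ) * ((T M - 1) * (T u - 1) * (T lam - 1)) =
      T c * ((T L - 1) * (T v - 1) * (T mu - 1)) := by
    rw [show b + u + L = a + lam + u by omega, show d + v + M = c + mu + v by omega, hb, hd] at h
    simp only [T_add] at h
    linear_combination h
  have neg1 : (T (-1) - 1 : LaurentPolynomial ℤ) = - (T (-1) * (T ((1 : ℕ) : ℤ) - 1)) := by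
    rw [mul_sub, ← T_add]; simp
  have hTM := z_T_sub_one_ne (show 0 < M by omega)
  have hTL := z_T_sub_one_ne (show 0 < L by omega)
  have hT1 := z_T_sub_one_ne (show 0 < 1 by omega)
  have hT2 := z_T_sub_one_ne (show 0 < 2 by omega)
  have hTu : ∀ n : ℤ, (T n : LaurentPolynomial ℤ) ≠ 0 := fun n => (isUnit_T n).ne_zero
  have hTs : ∀ w : ℤ, -1 ≤ w → w ≤ 2 → w ≠ 0 → (T w - 1 : LaurentPolynomial ℤ) ≠ 0 := by
    intro w hw1 hw2 hw0
    have : w = -1 ∨ w = ((1 : ℕ) : ℤ) ∨ w = ((2 : ℕ) : ℤ) := by omega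
    rcases this with rfl | rfl | rfl
    · rw [neg1]
      exact neg_ne_zero.mpr (mul_ne_zero (hTu _) hT1)
    · exact hT1
    · exact hT2
  by_cases hu0 : u = 0
  · left
    refine ⟨hu0, ?_⟩
    by_contra hv0
    have hv := hTs v (by omega) (by omega) hv0
    have hmu0 : 0 < mu := by have := hm hv0; omega
    rw [hu0, T_zero, sub_self, mul_zero, zero_mul, mul_zero] at h'
    exact (mul_ne_zero (hTu c) (mul_ne_zero (mul_ne_zero hTL hv) (z_T_sub_one_ne hmu0))) h'.symm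
  have hlam0 : 0 < lam := by have := hl hu0; omega
  by_cases hv0 : v = 0
  · exfalso
    have hu := hTs u (by omega) (by omega) hu0
    rw [hv0, T_zero, sub_self, mul_zero, zero_mul, mul_zero] at h'
    exact (mul_ne_zero (hTu a) (mul_ne_zero (mul_ne_zero hTM hu) (z_T_sub_one_ne hlam0))) h'
  have hmu0 : 0 < mu := by have := hm hv0; omega
  by_cases hun : u = -1
  · have ht0 : t = 0 := by omega
    have hv : v = -1 ∨ v = ((1 : ℕ) : ℤ) := by omega
    rw [hun, neg1] at h'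
    rcases hv with hv | hv
    · rw [hv, neg1] at h'
      have h2 : (T (a + -1) : LaurentPolynomial ℤ) * ((T M - 1) * (T ((1 : ℕ) : ℤ) - 1) * (T lam - 1)) =
          T (c + -1) * ((T L - 1) * (T ((1 : ℕ) : ℤ) - 1) * (T mu - 1)) := by
        simp only [T_add]
        linear_combination - h'
      have := z_caseB hM hLM (le_refl 1) (show 1 < L by omega) (le_refl 1) hlam0 hmu0 h2
      right; left
      omega
    · rw [hv] at h'
      exfalso
      refine z_neg (L := L) (M := M) (by omega) (by omega) (p := a + -1) (q := c) (U := 1) (V := 1)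
        (le_refl 1) (le_refl 1) hlam0 hmu0 ?_
      simp only [T_add]
      linear_combination - h'
  by_cases hvn : v = -1
  · have ht0 : t = 0 := by omega
    have hu : u = ((1 : ℕ) : ℤ) := by omega
    rw [hu, hvn, neg1] at h'
    exfalso
    refine z_neg (L := L) (M := M) (by omega) (by omega) (p := a) (q := c + -1) (U := 1) (V := 1)
      (le_refl 1) (le_refl 1) hlam0 hmu0 ?_
    simp only [T_add]
    linear_combination h'
  obtain ⟨U, hU⟩ := Int.eq_ofNat_of_zero_le (show 0 ≤ u by omega)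
  obtain ⟨V, hV⟩ := Int.eq_ofNat_of_zero_le (show 0 ≤ v by omega)
  rw [hU, hV] at h'
  have := z_caseB hM hLM (show 1 ≤ U by omega) (show U < L by omega) (show 1 ≤ V by omega) hlam0 hmu0 h'
  omega

theorem z_alg {L M : ℕ} (hM : 1 ≤ M) (hLM : M < L) {a b c d a' b' c' d' t : ℤ}
    (ht : t = 0 ∨ (t = 1 ∧ 2 ≤ M))
    (h1 : 0 ≤ b + L - a) (h2 : 0 ≤ b' + L - a') (h3 : 0 ≤ d + M - c) (h4 : 0 ≤ d' + M - c')
    (hl : b' - b = a' - a → a' ≠ a → 1 ≤ b + L - a)
    (hm : d' - d = c' - c → c' ≠ c → 1 ≤ d + M - c)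
    (u1 : t - 1 ≤ a' - a ∧ a' - a ≤ t + 1) (u2 : t - 1 ≤ b' - b ∧ b' - b ≤ t + 1)
    (v1 : t - 1 ≤ c' - c ∧ c' - c ≤ t + 1) (v2 : t - 1 ≤ d' - d ∧ d' - d ≤ t + 1)
    (heq : br M * (rowPoly a' (b' + L - 1) - rowPoly a (b + L - 1)) =
      br L * (rowPoly c' (d' + M - 1) - rowPoly c (d + M - 1))) :
    (a' = a ∧ b' = b ∧ c' = c ∧ d' = d) ∨
    (b = a ∧ c = a ∧ d = a ∧ ∃ u : ℤ, (u = -1 ∨ u = 1 ∨ u = 2) ∧
      a' = a + u ∧ b' = a + u ∧ c' = a + u ∧ d' = a + u) ∨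
    (d = c - 1 ∧ c' = c + 2) ∨
    (L = 2 * M ∧ a' = a - 1 ∧ b + L = a' + M ∧
      ((c' = a' ∧ c = a' + 1) ∨ (d' + M = a' + 1 ∧ d + M = a'))) ∨
    (L = 2 * M ∧ a' = a + 1 ∧ b' + L = a + M ∧
      ((c = a ∧ c' = a + 1) ∨ (d + M = a + 1 ∧ d' + M = a))) := by
  have hmass := z_mass h1 h2 h3 h4 heq
  have hmul := z_mul hM hLM h1 h2 h3 h4 heq
  obtain ⟨δ, hδ⟩ : ∃ δ : ℤ, δ = (b' - a') - (b - a) := ⟨_, rfl⟩
  obtain ⟨ε, hε⟩ : ∃ ε : ℤ, ε = (d' - c') - (d - c) := ⟨_, rfl⟩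
  rw [← hδ, ← hε] at hmass
  have hδ2 : -2 ≤ δ ∧ δ ≤ 2 := by omega
  have hε2 : -2 ≤ ε ∧ ε ≤ 2 := by omega
  have hcase : (δ = 0 ∧ ε = 0) ∨ (δ = 2 ∧ ε = 1 ∧ L = 2 * M) ∨ (δ = -2 ∧ ε = -1 ∧ L = 2 * M) := by
    have e1 : δ = -2 ∨ δ = -1 ∨ δ = 0 ∨ δ = 1 ∨ δ = 2 := by omega
    have e2 : ε = -2 ∨ ε = -1 ∨ ε = 0 ∨ ε = 1 ∨ ε = 2 := by omega
    rcases e1 with rfl | rfl | rfl | rfl | rfl <;> rcases e2 with rfl | rfl | rfl | rfl | rfl <;>
      omega
  rcases hcase with ⟨h0, h0'⟩ | ⟨h0, h0', hL⟩ | ⟨h0, h0', hL⟩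
  · obtain ⟨u, hu⟩ : ∃ u : ℤ, u = a' - a := ⟨_, rfl⟩
    obtain ⟨v, hv⟩ : ∃ v : ℤ, v = c' - c := ⟨_, rfl⟩
    have ha' : a' = a + u := by omega
    have hb' : b' = b + u := by omega
    have hc' : c' = c + v := by omega
    have hd' : d' = d + v := by omega
    have hl' : u ≠ 0 → 1 ≤ b + L - a := fun h => hl (by omega) (by omega)
    have hm' : v ≠ 0 → 1 ≤ d + M - c := fun h => hm (by omega) (by omega)
    rw [ha', hb', hc', hd'] at hmul
    rcases z_caseBB hM hLM ht h1 h3 hl' hm' (by omega) (by omega) hmul with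
      ⟨r1, r2⟩ | ⟨r1, r2, r3, r4, r5⟩ | ⟨r1, r2⟩
    · left
      omega
    · right; left
      refine ⟨r1, r2, r3, u, r5, ?_, ?_, ?_, ?_⟩ <;> omega
    · right; right; left
      omega
  · subst hL
    have hkey := z_key hM hmul
    push_cast at h1 h2
    have := z_caseAp hM ht h1 h3 (by omega) (by omega) (by omega) hkey
    right; right; right; left
    push_cast
    refine ⟨rfl, ?_, ?_, ?_⟩ <;> omega
  · subst hL
    have hkey := z_key hM hmul
    push_cast at h1 h2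
    have := z_caseAm hM ht h2 h4 (by omega) (by omega) (by omega) hkey
    right; right; right; right
    push_cast
    refine ⟨rfl, ?_, ?_, ?_⟩ <;> omega

end Pool.Agent.Lib.MP_bb0bab_co
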