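import Pool.Agent.Lib.MP_bb0bab_co.CB01

/-!
# CB03 the equation of a forced row, case of equal lengths (pure algebra; checked by brute force)

`p1..p4` are the target positions `a_e+q, b_e+q, c_e+q, d_e+q`.  In this file `u = a'-a = b'-b`, `v = c'-c = d'-d`, `u, v ∈ {-1,0,1}`.

PROOF.  `(x-1) x^q H_e = T (p2+L) - T p1`.  Cancel `x - 1` (CB01 `sub_one_cancel`): with `lam_e = p2+L-p1 ≥ M`, `mu_e = p4+M-p3 ≥ 1`
`[M]([u]H_s - x^q H_e) = [L]([v]G_s - x^q G_e)`, where `[1] = 1, [0] = 0, [-1] = -x^(-1)`, `H_s = rowPoly a (b+L-1)`, `x^q H_e = rowPoly p1 (p2+L-1)`.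
Write `a' = p1+e1, b = p2+e2, c' = p3+e3, d = p4+e4`: `lam_s = lam_e + e2 - e1 + u`, `mu_s = mu_e + e4 - e3 + v`.
(u,v) = (1,1): masses `M t = L t'`, `t = e2-e1+1`, `t' = e4-e3+1` in {0,1,2}.  `t = t' = 0`: `e1 = e3 = 1`, `e2 = e4 = 0`: the claim.  Otherwise `L = 2M`,
  `t = 2`, `t' = 1`: `e2 = 1`, `e1 = 0`: `a = p1-1`, `b = p2+1`: `[M](x^(p1-1) + x^(p2+L)) = [2M] x^r` (`e3 = e4`: `G_s - x^q G_e = x^(p4+M)` or `x^(p3-1)`), so
  `1 + x^(lam_e+1) = x^(..)(1+x^M)`, `lam_e = M-1`: no.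
(0,0): `[M] x^q H_e = [L] x^q G_e`: multiply by `(x-1)²`, `alg2`: `lam_e = L`, `mu_e = M`, `p1 = p3`: all `p` equal, no.
(1,0), (0,1), (-1,1), (1,-1): the masses of the two sides have different signs (`mu_e, lam_e > 0`; for (1,0): left `M(lam_s - lam_e) ≥ 0`.. right
  `-L mu_e < 0`; for (0,1): left `-M lam_e < 0`, right `L (e4-e3+1) ≥ 0`; (-1,1): left < 0, right ≥ 0; (1,-1): left ≥ 0, right < 0).
(0,-1): `[M] x^q H_e = [L](x^(-1)G_s + x^q G_e)`, `x^(-1)G_s = [p3+e3, p4+e4-1+M)` nonempty.  `hv` gives `mu_s ≥ M+1`, so `mu_e ≥ M+2+e3-e4`.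
  `e3 = 0`: lowest coefficient of the right side is 2, of the left 1.  `e3 = 1`: right side `x^p3 (1 + 3x + ..)` (`mu_e ≥ 2`, `L ≥ 3`), left `x^p1 (1+2x+..)`
  (`M ≥ 2`, `lam_e ≥ 2`): lowest exponents give `p1 = p3`, next coefficients differ.
(-1,0): `[M](x^(-1)H_s + x^q H_e) = [L] x^q G_e`, `x^(-1)H_s = [p1+e1, p2+e2-1+L)`: `e1 = 0`: lowest coefficient 2 against 1; `e1 = 1`: left `1+3x+..`, right at most
  `1+2x` (`M ≥ 2`, `lam_e ≥ 2`, `lam_s ≥ 1`).
(-1,-1): `[M](x^(-1)H_s + x^q H_e) = [L](x^(-1)G_s + x^q G_e)`: lowest exponents `p1 = p3`, lowest coefficient 1 or 2: `e1 = e3`; highest: `p2+L+M = p4+M+L`, so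
  `p2 = p4`, `e2 = e4`.  With `delta = p2-p1`, `eps = e2-e1-1`: masses `M(2L+2 delta+eps) = L(2M+2 delta+eps)`, so `2 delta+eps = 0`: `(delta,eps) = (0,0)` or `(1,-2)`;
  `mu_s = M+delta+eps ≤ M` contradicts `hv` (`mu_s ≥ M+1`).
-/

namespace Pool.Agent.Lib.MP_bb0bab_co

open LaurentPolynomial

/-- `[u] = (x^u - 1)/(x - 1)` for `u ∈ {-1, 0, 1, 2}` -/
noncomputable def bu (u : ℤ) : LaurentPolynomial ℤ :=
  if u = 2 then T 1 + 1 else if u = 1 then 1 else if u = 0 then 0 else -T (-1)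

theorem bu_mul {u : ℤ} (hu : u = -1 ∨ u = 0 ∨ u = 1 ∨ u = 2) : (T 1 - 1) * bu u = T u - 1 := by
  rcases hu with rfl | rfl | rfl | rfl
  · simp only [bu]
    norm_num
    rw [sub_mul, ← T_add]
    simp
  · simp [bu]
  · simp [bu]
  · simp only [bu]
    norm_num
    rw [show (2 : ℤ) = 1 + 1 by norm_num, T_add]
    ring

theorem br_mul (n : ℕ) : (T 1 - 1) * br n = T n - 1 := by
  rw [br, sub_one_mul_rowPoly (by omega)]
  simp

/-- the equation after cancelling `x - 1` -/
theorem core_eq {L M : ℕ} {p1 p2 p3 p4 a b c d u v : ℤ}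
    (hu : u = -1 ∨ u = 0 ∨ u = 1 ∨ u = 2) (hv' : v = -1 ∨ v = 0 ∨ v = 1 ∨ v = 2)
    (h1 : 0 ≤ b + L - a) (h3 : 0 ≤ d + M - c)
    (heq : br M * (rowPoly (a + u) (b + u + L - 1) - rowPoly a (b + L - 1) - (T (p2 + L) - T p1)) =
      br L * (rowPoly (c + v) (d + v + M - 1) - rowPoly c (d + M - 1) - (T (p4 + M) - T p3))) :
    (T M - 1) * (bu u * (T (b + L) - T a) - (T (p2 + L) - T p1)) =
      (T L - 1) * (bu v * (T (d + M) - T c) - (T (p4 + M) - T p3)) := by
  apply sub_one_cancel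
  have k1 : ∀ {a b u : ℤ} {L : ℕ}, (u = -1 ∨ u = 0 ∨ u = 1 ∨ u = 2) → 0 ≤ b + L - a →
      (T 1 - 1) * (rowPoly (a + u) (b + u + L - 1) - rowPoly a (b + L - 1)) =
      (T 1 - 1) * (bu u * (T (b + L) - T a)) := by
    intro a b u L hu h
    rw [mul_sub, sub_one_mul_rowPoly (by omega), sub_one_mul_rowPoly (by omega), ← mul_assoc,
      bu_mul hu, sub_mul, mul_sub, ← T_add, ← T_add]
    rw [show b + u + L - 1 + 1 = u + (b + L) by ring, show b + L - 1 + 1 = b + L by ring,
      show a + u = u + a by ring]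
    ring
  rw [← br_mul, ← br_mul]
  calc (T 1 - 1) * ((T 1 - 1) * br M * (bu u * (T (b + L) - T a) - (T (p2 + L) - T p1)))
      = (T 1 - 1) * (br M * ((T 1 - 1) * (bu u * (T (b + L) - T a)) -
          (T 1 - 1) * (T (p2 + L) - T p1))) := by ring
    _ = (T 1 - 1) * ((T 1 - 1) * (br M * (rowPoly (a + u) (b + u + L - 1) - rowPoly a (b + L - 1) -
          (T (p2 + L) - T p1)))) := by rw [← k1 hu h1]; ring
    _ = (T 1 - 1) * ((T 1 - 1) * (br L * (rowPoly (c + v) (d + v + M - 1) - rowPoly c (d + M - 1) -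
          (T (p4 + M) - T p3)))) := by rw [heq]
    _ = (T 1 - 1) * (br L * ((T 1 - 1) * (bu v * (T (d + M) - T c)) -
          (T 1 - 1) * (T (p4 + M) - T p3))) := by rw [← k1 hv' h3]; ring
    _ = _ := by ring

/-- the mass of the equation of `core_eq` -/
theorem core_mass {L M : ℕ} {p1 p2 p3 p4 a b c d u v : ℤ}
    (hu : u = -1 ∨ u = 0 ∨ u = 1 ∨ u = 2) (hv' : v = -1 ∨ v = 0 ∨ v = 1 ∨ v = 2)
    (h1 : 0 ≤ b + L - a) (h3 : 0 ≤ d + M - c)
    (h1' : 0 ≤ p2 + L - p1) (h3' : 0 ≤ p4 + M - p3)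
    (h : (T M - 1) * (bu u * (T (b + L) - T a) - (T (p2 + L) - T p1)) =
      (T L - 1) * (bu v * (T (d + M) - T c) - (T (p4 + M) - T p3))) :
    (M : ℤ) * (u * (b + L - a) - (p2 + L - p1)) = L * (v * (d + M - c) - (p4 + M - p3)) := by
  have k1 : ∀ {a b : ℤ}, 0 ≤ b - a → T b - T a = (T 1 - 1) * rowPoly a (b - 1) := by
    intro a b h
    rw [sub_one_mul_rowPoly (by omega)]
    simp
  rw [k1 (a := a) h1, k1 (a := p1) h1', k1 (a := c) h3, k1 (a := p3) h3', ← br_mul, ← br_mul] at h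
  have h2 : br M * (bu u * rowPoly a (b + L - 1) - rowPoly p1 (p2 + L - 1)) =
      br L * (bu v * rowPoly c (d + M - 1) - rowPoly p3 (p4 + M - 1)) := by
    apply sub_one_cancel
    apply sub_one_cancel
    linear_combination h
  let f : LaurentPolynomial ℤ →+* ℤ := LaurentPolynomial.eval₂ (RingHom.id ℤ) (1 : ℤˣ)
  have hf : ∀ n : ℤ, f (T n) = 1 := by
    intro n
    show LaurentPolynomial.eval₂ (RingHom.id ℤ) (1 : ℤˣ) (T n) = 1
    rw [eval₂_T]
    simp
  have hfr : ∀ {a b : ℤ}, 0 ≤ b - a → f (rowPoly a (b - 1)) = b - a := by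
    intro a b h
    rw [eval_rowPoly f (hf 1)]
    simp only [sub_add_cancel]
    exact Int.toNat_of_nonneg h
  have hfb : ∀ n : ℕ, f (br n) = n := by
    intro n
    have := hfr (a := 0) (b := n) (by omega)
    simpa [br] using this
  have hfu : ∀ {u : ℤ}, (u = -1 ∨ u = 0 ∨ u = 1 ∨ u = 2) → f (bu u) = u := by
    intro u hu
    rcases hu with rfl | rfl | rfl | rfl
    · simp [bu, hf]
    · simp [bu]
    · simp [bu]
    · simp [bu, hf]
  have h4 := congrArg f h2
  rw [map_mul, map_mul, map_sub, map_sub, map_mul, map_mul, hfb, hfb, hfu hu, hfu hv', hfr h1,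
    hfr h3, hfr h1', hfr h3'] at h4
  linarith

/-- (1,1), exceptional masses -/
theorem fa_pp {L M : ℕ} (hM : 2 ≤ M) {p1 p2 p3 p4 a b c d : ℤ} (hL : L = 2 * M)
    (ha : a = p1 - 1) (hb : b = p2 + 1) (hcd : (c = p3 ∧ d = p4 + 1) ∨ (c = p3 - 1 ∧ d = p4))
    (hle : (M : ℤ) ≤ p2 + L - p1) (hme : 1 ≤ p4 + M - p3)
    (hc : (T M - 1 : LaurentPolynomial ℤ) * (1 * (T (b + L) - T a) - (T (p2 + L) - T p1)) =
      (T L - 1) * (1 * (T (d + M) - T c) - (T (p4 + M) - T p3))) : False := by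
  have key : ∀ n : ℤ, _ := fun n => congrArg (fun P => P.coeff n) hc
  simp only [mul_sub, sub_mul, ← T_add, one_mul, AddMonoidAlgebra.coeff_sub,
    Finsupp.sub_apply, T_apply] at key
  rcases hcd with ⟨hc1, hd1⟩ | ⟨hc1, hd1⟩
  · have k1 := key (p1 - 1)
    revert k1
    simp (disch := omega) only [if_neg, sub_zero, zero_sub, sub_self, sub_neg_eq_add, neg_sub,
      neg_zero, zero_add, add_zero, if_true]
    intro k1
    have k2 := key (p4 + M)
    revert k2
    simp (disch := omega) only [if_neg, sub_zero, zero_sub, sub_self, sub_neg_eq_add, neg_sub,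
      neg_zero, zero_add, add_zero, if_true]
    intro k2
    have : p1 - 1 = p4 + M := by omega
    have k3 := key (M + p2 + 1 + 2 * M)
    revert k3
    simp (disch := omega) only [if_neg, sub_zero, zero_sub, sub_self, sub_neg_eq_add, neg_sub,
      neg_zero, zero_add, add_zero, if_true]
    intro k3
    omega
  · have k1 := key (p1 - 1)
    revert k1
    simp (disch := omega) only [if_neg, sub_zero, zero_sub, sub_self, sub_neg_eq_add, neg_sub,
      neg_zero, zero_add, add_zero, if_true]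
    intro k1
    have k2 := key (p3 - 1)
    revert k2
    simp (disch := omega) only [if_neg, sub_zero, zero_sub, sub_self, sub_neg_eq_add, neg_sub,
      neg_zero, zero_add, add_zero, if_true]
    intro k2
    have : p1 = p3 := by omega
    have k3 := key (M + p2 + 1 + 2 * M)
    revert k3
    simp (disch := omega) only [if_neg, sub_zero, zero_sub, sub_self, sub_neg_eq_add, neg_sub,
      neg_zero, zero_add, add_zero, if_true]
    intro k3
    omega

/-- (0,0) -/
theorem fa_00 {L M : ℕ} (hM : 2 ≤ M) (hLM : M < L) {p1 p2 p3 p4 : ℤ}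
    (hle : (M : ℤ) ≤ p2 + L - p1) (hme : 1 ≤ p4 + M - p3)
    (hc : (T M - 1 : LaurentPolynomial ℤ) * (T (p2 + L) - T p1) =
      (T L - 1) * (T (p4 + M) - T p3)) : p1 = p2 ∧ p1 = p3 ∧ p1 = p4 := by
  have key : ∀ n : ℤ, _ := fun n => congrArg (fun P => P.coeff n) hc
  simp only [mul_sub, sub_mul, ← T_add, one_mul, AddMonoidAlgebra.coeff_sub,
    Finsupp.sub_apply, T_apply] at key
  have h1 : p1 = p3 := by
    have k1 := key (p1)
    revert k1
    simp (disch := omega) only [if_neg, sub_zero, zero_sub, sub_self, sub_neg_eq_add, neg_sub,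
      neg_zero, zero_add, add_zero, if_true]
    intro k1
    have k2 := key (p3)
    revert k2
    simp (disch := omega) only [if_neg, sub_zero, zero_sub, sub_self, sub_neg_eq_add, neg_sub,
      neg_zero, zero_add, add_zero, if_true]
    intro k2
    omega
  have h2 : p2 = p4 := by
    have k3 := key (M + (p2 + L))
    revert k3
    simp (disch := omega) only [if_neg, sub_zero, zero_sub, sub_self, sub_neg_eq_add, neg_sub,
      neg_zero, zero_add, add_zero, if_true]
    intro k3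
    have k4 := key (L + (p4 + M))
    revert k4
    simp (disch := omega) only [if_neg, sub_zero, zero_sub, sub_self, sub_neg_eq_add, neg_sub,
      neg_zero, zero_add, add_zero, if_true]
    intro k4
    omega
  have k5 := key (p1 + M)
  revert k5
  simp (disch := omega) only [if_neg, sub_zero, zero_sub, sub_self, sub_neg_eq_add, neg_sub,
    neg_zero, zero_add, add_zero, if_true]
  intro k5
  omega

/-- (0,-1) -/
theorem fa_0m {L M : ℕ} (hM : 2 ≤ M) (hLM : M < L) {p1 p2 p3 p4 c d : ℤ}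
    (e3 : c = p3 + 1 ∨ c = p3 + 2) (e4 : p4 ≤ d) (e4' : d ≤ p4 + 1)
    (hle : (M : ℤ) ≤ p2 + L - p1) (hme : 1 ≤ p4 + M - p3) (hv : c + 1 ≤ d)
    (hc : (T M - 1 : LaurentPolynomial ℤ) * (- (T (p2 + L) - T p1)) =
      (T L - 1) * (-T (-1) * (T (d + M) - T c) - (T (p4 + M) - T p3))) : False := by
  have key : ∀ n : ℤ, _ := fun n => congrArg (fun P => P.coeff n) hc
  simp only [mul_sub, sub_mul, ← T_add, one_mul, neg_mul, mul_neg, AddMonoidAlgebra.coeff_sub,
    Finsupp.sub_apply, T_apply, AddMonoidAlgebra.coeff_neg, Finsupp.neg_apply] at key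
  rcases e3 with e3 | e3
  · have k2 := key (p3)
    revert k2
    simp (disch := omega) only [if_neg, sub_zero, zero_sub, sub_self, sub_neg_eq_add, neg_sub,
      neg_zero, zero_add, add_zero, if_true]
    intro k2
    omega
  · have h1 : p1 = p3 := by
      have k1 := key (p1)
      revert k1
      simp (disch := omega) only [if_neg, sub_zero, zero_sub, sub_self, sub_neg_eq_add, neg_sub,
        neg_zero, zero_add, add_zero, if_true]
      intro k1
      have k2 := key (p3)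
      revert k2
      simp (disch := omega) only [if_neg, sub_zero, zero_sub, sub_self, sub_neg_eq_add, neg_sub,
        neg_zero, zero_add, add_zero, if_true]
      intro k2
      omega
    have k3 := key (p3 + 1)
    revert k3
    simp (disch := omega) only [if_neg, sub_zero, zero_sub, sub_self, sub_neg_eq_add, neg_sub,
      neg_zero, zero_add, add_zero, if_true]
    intro k3
    omega

/-- (-1,0) -/
theorem fa_m0 {L M : ℕ} (hM : 2 ≤ M) (hLM : M < L) {p1 p2 p3 p4 a b : ℤ}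
    (e1 : a = p1 + 1 ∨ a = p1 + 2) (e2 : p2 ≤ b) (e2' : b ≤ p2 + 1) (h1 : 1 ≤ b + L - a)
    (hle : (M : ℤ) ≤ p2 + L - p1) (hme : 1 ≤ p4 + M - p3)
    (hc : (T M - 1 : LaurentPolynomial ℤ) * (-T (-1) * (T (b + L) - T a) - (T (p2 + L) - T p1)) =
      (T L - 1) * (- (T (p4 + M) - T p3))) : False := by
  have key : ∀ n : ℤ, _ := fun n => congrArg (fun P => P.coeff n) hc
  simp only [mul_sub, sub_mul, ← T_add, one_mul, neg_mul, mul_neg, AddMonoidAlgebra.coeff_sub,
    Finsupp.sub_apply, T_apply, AddMonoidAlgebra.coeff_neg, Finsupp.neg_apply] at key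
  rcases e1 with e1 | e1
  · have k2 := key (p1)
    revert k2
    simp (disch := omega) only [if_neg, sub_zero, zero_sub, sub_self, sub_neg_eq_add, neg_sub,
      neg_zero, zero_add, add_zero, if_true]
    intro k2
    omega
  · have h1 : p1 = p3 := by
      have k1 := key (p1)
      revert k1
      simp (disch := omega) only [if_neg, sub_zero, zero_sub, sub_self, sub_neg_eq_add, neg_sub,
        neg_zero, zero_add, add_zero, if_true]
      intro k1
      have k2 := key (p3)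
      revert k2
      simp (disch := omega) only [if_neg, sub_zero, zero_sub, sub_self, sub_neg_eq_add, neg_sub,
        neg_zero, zero_add, add_zero, if_true]
      intro k2
      omega
    have k3 := key (p3 + 1)
    revert k3
    simp (disch := omega) only [if_neg, sub_zero, zero_sub, sub_self, sub_neg_eq_add, neg_sub,
      neg_zero, zero_add, add_zero, if_true]
    intro k3
    omega

/-- (-1,-1) -/
theorem fa_mm {L M : ℕ} (hM : 2 ≤ M) (hLM : M < L) {p1 p2 p3 p4 a b c d : ℤ}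
    (e1 : p1 + 1 ≤ a) (e1' : a ≤ p1 + 2) (e2 : p2 ≤ b) (e2' : b ≤ p2 + 1)
    (e3 : p3 + 1 ≤ c) (e3' : c ≤ p3 + 2) (e4 : p4 ≤ d) (e4' : d ≤ p4 + 1)
    (h1 : 1 ≤ b + L - a)
    (hle : (M : ℤ) ≤ p2 + L - p1) (hme : 1 ≤ p4 + M - p3) (hv : c + 1 ≤ d)
    (hc : (T M - 1 : LaurentPolynomial ℤ) * (-T (-1) * (T (b + L) - T a) - (T (p2 + L) - T p1)) =
      (T L - 1) * (-T (-1) * (T (d + M) - T c) - (T (p4 + M) - T p3))) :
    p1 = p3 ∧ p2 = p4 ∧ a = c ∧ b = d := by
  have key : ∀ n : ℤ, _ := fun n => congrArg (fun P => P.coeff n) hc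
  simp only [mul_sub, sub_mul, ← T_add, one_mul, neg_mul, mul_neg, AddMonoidAlgebra.coeff_sub,
    Finsupp.sub_apply, T_apply, AddMonoidAlgebra.coeff_neg, Finsupp.neg_apply] at key
  have h2 : p1 = p3 := by
    have k1 := key (p1)
    revert k1
    simp (disch := omega) only [if_neg, sub_zero, zero_sub, sub_self, sub_neg_eq_add, neg_sub,
      neg_zero, zero_add, add_zero, if_true]
    intro k1
    have k2 := key (p3)
    revert k2
    simp (disch := omega) only [if_neg, sub_zero, zero_sub, sub_self, sub_neg_eq_add, neg_sub,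
      neg_zero, zero_add, add_zero, if_true]
    intro k2
    omega
  have h3 : p2 = p4 := by
    have k3 := key (M + (p2 + L))
    revert k3
    simp (disch := omega) only [if_neg, sub_zero, zero_sub, sub_self, sub_neg_eq_add, neg_sub,
      neg_zero, zero_add, add_zero, if_true]
    intro k3
    have k4 := key (L + (p4 + M))
    revert k4
    simp (disch := omega) only [if_neg, sub_zero, zero_sub, sub_self, sub_neg_eq_add, neg_sub,
      neg_zero, zero_add, add_zero, if_true]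
    intro k4
    omega
  refine ⟨h2, h3, ?_, ?_⟩
  · have k1 := key (p1)
    revert k1
    simp (disch := omega) only [if_neg, sub_zero, zero_sub, sub_self, sub_neg_eq_add, neg_sub,
      neg_zero, zero_add, add_zero, if_true]
    intro k1
    omega
  · have k1 := key (M + (p2 + L))
    revert k1
    simp (disch := omega) only [if_neg, sub_zero, zero_sub, sub_self, sub_neg_eq_add, neg_sub,
      neg_zero, zero_add, add_zero, if_true]
    intro k1
    omega

theorem f_algA {L M : ℕ} (hM : 2 ≤ M) (hLM : M < L) {p1 p2 p3 p4 a b c d u v : ℤ}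
    (hu : u = -1 ∨ u = 0 ∨ u = 1) (hv' : v = -1 ∨ v = 0 ∨ v = 1)
    (e1 : a + u = p1 ∨ a + u = p1 + 1) (e2 : b = p2 ∨ b = p2 + 1)
    (e3 : c + v = p3 ∨ c + v = p3 + 1) (e4 : d = p4 ∨ d = p4 + 1)
    (h1 : 1 ≤ b + L - a) (h3 : 1 ≤ d + M - c)
    (hle : (M : ℤ) ≤ p2 + L - p1) (hme : 1 ≤ p4 + M - p3)
    (hv : v = -1 → c + 1 ≤ d)
    (hnf : ¬ (p1 = p2 ∧ p1 = p3 ∧ p1 = p4))
    (heq : br M * (rowPoly (a + u) (b + u + L - 1) - rowPoly a (b + L - 1) - (T (p2 + L) - T p1)) =
      br L * (rowPoly (c + v) (d + v + M - 1) - rowPoly c (d + M - 1) - (T (p4 + M) - T p3))) :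
    u = 1 ∧ v = 1 ∧ a = p1 ∧ b = p2 ∧ c = p3 ∧ d = p4 := by
  have hu2 : u = -1 ∨ u = 0 ∨ u = 1 ∨ u = 2 := by omega
  have hv2 : v = -1 ∨ v = 0 ∨ v = 1 ∨ v = 2 := by omega
  have hc := core_eq hu2 hv2 (by omega) (by omega) heq
  have hm := core_mass hu2 hv2 (by omega) (by omega) (by omega) (by omega) hc
  have hM0 : (2 : ℤ) ≤ M := by exact_mod_cast hM
  have hL0 : (M : ℤ) < L := by exact_mod_cast hLM
  rcases hu with rfl | rfl | rfl <;> rcases hv' with rfl | rfl | rfl
  · -- (-1,-1)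
    exfalso
    obtain ⟨g1, g2, g3, g4⟩ := fa_mm hM hLM (p1 := p1) (p2 := p2) (p3 := p3) (p4 := p4) (a := a)
      (b := b) (c := c) (d := d) (by omega) (by omega) (by omega) (by omega) (by omega) (by omega)
      (by omega) (by omega) h1 hle hme (hv rfl) (by simpa [bu] using hc)
    subst g1 g2 g3 g4
    have hx : (M - L : ℤ) * ((b - a) + (p2 - p1)) = 0 := by linear_combination -hm
    rcases mul_eq_zero.1 hx with h | h
    · omega
    · have := hv rfl
      omega
  · -- (-1,0)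
    exfalso
    exact fa_m0 hM hLM (p1 := p1) (p2 := p2) (p3 := p3) (p4 := p4) (a := a)
      (b := b) (by omega) (by omega) (by omega) h1 hle hme (by simpa [bu] using hc)
  · -- (-1,1)
    exfalso
    have k1 : (M : ℤ) * (-1 * (b + L - a) - (p2 + L - p1)) < 0 :=
      mul_neg_of_pos_of_neg (by omega) (by omega)
    have k2 : 0 ≤ (L : ℤ) * (1 * (d + M - c) - (p4 + M - p3)) :=
      mul_nonneg (by omega) (by omega)
    linarith
  · -- (0,-1)
    exfalso
    exact fa_0m hM hLM (p1 := p1) (p2 := p2) (p3 := p3) (p4 := p4) (c := c)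
      (d := d) (by omega) (by omega) (by omega) hle hme (hv rfl) (by simpa [bu] using hc)
  · -- (0,0)
    exfalso
    apply hnf
    refine fa_00 hM hLM hle hme ?_
    simp only [bu, if_true, if_false, show ¬ ((0 : ℤ) = 2) by norm_num,
      show ¬ ((0 : ℤ) = 1) by norm_num, zero_mul, zero_sub] at hc
    linear_combination -hc
  · -- (0,1)
    exfalso
    have k1 : (M : ℤ) * (0 * (b + L - a) - (p2 + L - p1)) < 0 :=
      mul_neg_of_pos_of_neg (by omega) (by omega)
    have k2 : 0 ≤ (L : ℤ) * (1 * (d + M - c) - (p4 + M - p3)) :=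
      mul_nonneg (by omega) (by omega)
    linarith
  · -- (1,-1)
    exfalso
    have k1 : 0 ≤ (M : ℤ) * (1 * (b + L - a) - (p2 + L - p1)) :=
      mul_nonneg (by omega) (by omega)
    have k2 : (L : ℤ) * (-1 * (d + M - c) - (p4 + M - p3)) < 0 :=
      mul_neg_of_pos_of_neg (by omega) (by omega)
    linarith
  · -- (1,0)
    exfalso
    have k1 : 0 ≤ (M : ℤ) * (1 * (b + L - a) - (p2 + L - p1)) :=
      mul_nonneg (by omega) (by omega)
    have k2 : (L : ℤ) * (0 * (d + M - c) - (p4 + M - p3)) < 0 :=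
      mul_neg_of_pos_of_neg (by omega) (by omega)
    linarith
  · -- (1,1)
    have hb1 : bu 1 = 1 := by simp [bu]
    rw [hb1] at hc
    have hmm : (M : ℤ) * ((b - p2) - (a - p1)) = L * ((d - p4) - (c - p3)) := by
      linear_combination hm
    have ht : (b - p2) - (a - p1) = 0 ∨ (b - p2) - (a - p1) = 1 ∨ (b - p2) - (a - p1) = 2 := by
      omega
    have ht' : (d - p4) - (c - p3) = 0 ∨ (d - p4) - (c - p3) = 1 ∨ (d - p4) - (c - p3) = 2 := by
      omega
    by_cases h21 : (b - p2) - (a - p1) = 2 ∧ (d - p4) - (c - p3) = 1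
    · exfalso
      rw [h21.1, h21.2] at hmm
      have hL2 : L = 2 * M := by omega
      exact fa_pp hM hL2 (p1 := p1) (p2 := p2) (p3 := p3) (p4 := p4) (a := a) (b := b) (c := c)
        (d := d) (by omega) (by omega) (by omega) hle hme hc
    · have h00 : (b - p2) - (a - p1) = 0 ∧ (d - p4) - (c - p3) = 0 := by
        rcases ht with ht | ht | ht <;> rcases ht' with ht' | ht' | ht' <;>
          rw [ht, ht'] at hmm h21 ⊢ <;> omega
      omega

end Pool.Agent.Lib.MP_bb0bab_co
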