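import Pool.Agent.Lib.MP_bb0bab_co.CB01

/-!
# CB04 the equation of a forced row, case of different lengths

The mass equation forces `L = 2 M`; after cancelling `br M` the equation is an equality of two
sums of five monomials, and the multisets of exponents cannot agree.
-/

namespace Pool.Agent.Lib.MP_bb0bab_co

open LaurentPolynomial

theorem cb04_left {a b : ℤ} (h : a ≤ b) : rowPoly a b = T a + rowPoly (a + 1) b := by
  apply sub_one_cancel
  rw [sub_one_mul_rowPoly (by omega), mul_add, sub_one_mul_rowPoly (by omega), T_add a 1]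
  ring

theorem cb04_right {a b : ℤ} (h : a ≤ b + 1) : rowPoly a (b + 1) = rowPoly a b + T (b + 1) := by
  apply sub_one_cancel
  rw [sub_one_mul_rowPoly (by omega), mul_add, sub_one_mul_rowPoly (by omega), T_add (b + 1) 1]
  ring

theorem cb04_grow {a b : ℤ} (h : a + 1 ≤ b + 1) :
    rowPoly a (b + 1) = T a + rowPoly (a + 1) b + T (b + 1) := by
  rw [cb04_left (by omega), cb04_right (by omega)]
  ring

theorem cb04_br {M : ℕ} : br (2 * M : ℤ) = br M * (1 + T M) := by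
  apply sub_one_cancel
  rw [← mul_assoc, br, br, sub_one_mul_rowPoly (by omega), sub_one_mul_rowPoly (by omega)]
  have h1 : ((2 * M : ℤ) - 1 + 1) = M + M := by ring
  have h2 : ((M : ℤ) - 1 + 1) = M := by ring
  rw [h1, h2, T_add, T_zero]
  ring

theorem cb04_peel5 {x y1 y2 y3 y4 y5 : ℤ} {S : Multiset ℤ} (h : x ::ₘ S = {y1, y2, y3, y4, y5}) :
    (x = y1 ∧ S = {y2, y3, y4, y5}) ∨ (x = y2 ∧ S = {y1, y3, y4, y5}) ∨
      (x = y3 ∧ S = {y1, y2, y4, y5}) ∨ (x = y4 ∧ S = {y1, y2, y3, y5}) ∨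
      (x = y5 ∧ S = {y1, y2, y3, y4}) := by
  have hx : x ∈ ({y1, y2, y3, y4, y5} : Multiset ℤ) := h ▸ Multiset.mem_cons_self x S
  have hc : ∀ n, Multiset.count n (x ::ₘ S) = Multiset.count n ({y1, y2, y3, y4, y5} : Multiset ℤ) :=
    fun n => by rw [h]
  simp only [Multiset.insert_eq_cons, Multiset.mem_cons, Multiset.mem_singleton] at hx
  simp only [Multiset.insert_eq_cons, Multiset.count_cons, Multiset.count_singleton] at hc
  rcases hx with rfl | rfl | rfl | rfl | rfl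
  · refine Or.inl ⟨rfl, ?_⟩
    ext n
    have := hc n
    simp only [Multiset.insert_eq_cons, Multiset.count_cons, Multiset.count_singleton]
    linarith
  · refine Or.inr (Or.inl ⟨rfl, ?_⟩)
    ext n
    have := hc n
    simp only [Multiset.insert_eq_cons, Multiset.count_cons, Multiset.count_singleton]
    linarith
  · refine Or.inr (Or.inr (Or.inl ⟨rfl, ?_⟩))
    ext n
    have := hc n
    simp only [Multiset.insert_eq_cons, Multiset.count_cons, Multiset.count_singleton]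
    linarith
  · refine Or.inr (Or.inr (Or.inr (Or.inl ⟨rfl, ?_⟩)))
    ext n
    have := hc n
    simp only [Multiset.insert_eq_cons, Multiset.count_cons, Multiset.count_singleton]
    linarith
  · refine Or.inr (Or.inr (Or.inr (Or.inr ⟨rfl, ?_⟩)))
    ext n
    have := hc n
    simp only [Multiset.insert_eq_cons, Multiset.count_cons, Multiset.count_singleton]
    linarith

theorem cb04_peel4 {x y1 y2 y3 y4 : ℤ} {S : Multiset ℤ} (h : x ::ₘ S = {y1, y2, y3, y4}) :
    (x = y1 ∧ S = {y2, y3, y4}) ∨ (x = y2 ∧ S = {y1, y3, y4}) ∨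
      (x = y3 ∧ S = {y1, y2, y4}) ∨ (x = y4 ∧ S = {y1, y2, y3}) := by
  have hx : x ∈ ({y1, y2, y3, y4} : Multiset ℤ) := h ▸ Multiset.mem_cons_self x S
  have hc : ∀ n, Multiset.count n (x ::ₘ S) = Multiset.count n ({y1, y2, y3, y4} : Multiset ℤ) :=
    fun n => by rw [h]
  simp only [Multiset.insert_eq_cons, Multiset.mem_cons, Multiset.mem_singleton] at hx
  simp only [Multiset.insert_eq_cons, Multiset.count_cons, Multiset.count_singleton] at hc
  rcases hx with rfl | rfl | rfl | rfl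
  · refine Or.inl ⟨rfl, ?_⟩
    ext n
    have := hc n
    simp only [Multiset.insert_eq_cons, Multiset.count_cons, Multiset.count_singleton]
    linarith
  · refine Or.inr (Or.inl ⟨rfl, ?_⟩)
    ext n
    have := hc n
    simp only [Multiset.insert_eq_cons, Multiset.count_cons, Multiset.count_singleton]
    linarith
  · refine Or.inr (Or.inr (Or.inl ⟨rfl, ?_⟩))
    ext n
    have := hc n
    simp only [Multiset.insert_eq_cons, Multiset.count_cons, Multiset.count_singleton]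
    linarith
  · refine Or.inr (Or.inr (Or.inr ⟨rfl, ?_⟩))
    ext n
    have := hc n
    simp only [Multiset.insert_eq_cons, Multiset.count_cons, Multiset.count_singleton]
    linarith

theorem cb04_peel3 {x y1 y2 y3 : ℤ} {S : Multiset ℤ} (h : x ::ₘ S = {y1, y2, y3}) :
    (x = y1 ∧ S = {y2, y3}) ∨ (x = y2 ∧ S = {y1, y3}) ∨ (x = y3 ∧ S = {y1, y2}) := by
  have hx : x ∈ ({y1, y2, y3} : Multiset ℤ) := h ▸ Multiset.mem_cons_self x S
  have hc : ∀ n, Multiset.count n (x ::ₘ S) = Multiset.count n ({y1, y2, y3} : Multiset ℤ) :=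
    fun n => by rw [h]
  simp only [Multiset.insert_eq_cons, Multiset.mem_cons, Multiset.mem_singleton] at hx
  simp only [Multiset.insert_eq_cons, Multiset.count_cons, Multiset.count_singleton] at hc
  rcases hx with rfl | rfl | rfl
  · refine Or.inl ⟨rfl, ?_⟩
    ext n
    have := hc n
    simp only [Multiset.insert_eq_cons, Multiset.count_cons, Multiset.count_singleton]
    linarith
  · refine Or.inr (Or.inl ⟨rfl, ?_⟩)
    ext n
    have := hc n
    simp only [Multiset.insert_eq_cons, Multiset.count_cons, Multiset.count_singleton]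
    linarith
  · refine Or.inr (Or.inr ⟨rfl, ?_⟩)
    ext n
    have := hc n
    simp only [Multiset.insert_eq_cons, Multiset.count_cons, Multiset.count_singleton]
    linarith

theorem cb04_peel2 {x x' y1 y2 : ℤ} (h : ({x, x'} : Multiset ℤ) = {y1, y2}) :
    (x = y1 ∧ x' = y2) ∨ (x = y2 ∧ x' = y1) := by
  have hx : x ∈ ({y1, y2} : Multiset ℤ) := h ▸ Multiset.mem_cons_self x {x'}
  simp only [Multiset.insert_eq_cons, Multiset.mem_cons, Multiset.mem_singleton] at hx
  rcases hx with rfl | rfl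
  · left
    refine ⟨rfl, ?_⟩
    have h2 := (Multiset.cons_inj_right x).1 h
    exact Multiset.singleton_inj.1 h2
  · right
    refine ⟨rfl, ?_⟩
    rw [Multiset.pair_comm y1 x] at h
    have h2 := (Multiset.cons_inj_right x).1 h
    exact Multiset.singleton_inj.1 h2

theorem cb04_finK {M : ℕ} (hM : 2 ≤ M) {p1 p2 p3 p4 a' b r : ℤ}
    (e1 : a' = p1 ∨ a' = p1 + 1) (e2 : b = p2 ∨ b = p2 + 1)
    (hr : (p3 ≤ r ∧ r ≤ p3 + 1) ∨ (p4 + M ≤ r ∧ r ≤ p4 + M + 1))
    (hle : (M : ℤ) ≤ p2 + 2 * M - p1) (hme : 1 ≤ p4 + M - p3) (h1 : a' + 2 ≤ b + 2 * M)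
    (h : (T a' + T (b + 2 * M) - (T (p2 + 2 * M) - T p1) : LaurentPolynomial ℤ) =
      (1 + T M) * (T r - (T (p4 + M) - T p3))) : False := by
  have hS : ({p1, a', b + 2 * M, p4 + M, p4 + 2 * M} : Multiset ℤ) =
      {p2 + 2 * M, p3, p3 + M, r, r + M} := by
    apply T_sum_inj
    simp only [Multiset.insert_eq_cons, Multiset.map_cons, Multiset.map_singleton,
      Multiset.sum_cons, Multiset.sum_singleton]
    have h2 : (p4 + 2 * (M : ℤ)) = (p4 + M) + M := by ring
    rw [h2, T_add (p4 + M) M, T_add r M, T_add p3 M]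
    linear_combination h
  have hS1 : p1 ::ₘ ({a', b + 2 * M, p4 + M, p4 + 2 * M} : Multiset ℤ) =
      {p2 + 2 * M, p3, p3 + M, r, r + M} := hS
  rcases cb04_peel5 hS1 with ⟨q1, hS⟩ | ⟨q1, hS⟩ | ⟨q1, hS⟩ | ⟨q1, hS⟩ | ⟨q1, hS⟩ <;>
  first
  | omega
  | (have hS2 := hS
     rw [Multiset.insert_eq_cons] at hS2
     rcases cb04_peel4 hS2 with ⟨q2, hS⟩ | ⟨q2, hS⟩ | ⟨q2, hS⟩ | ⟨q2, hS⟩ <;>
     first
     | omega
     | (have hS3 := hS
        rw [Multiset.insert_eq_cons] at hS3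
        rcases cb04_peel3 hS3 with ⟨q3, hS⟩ | ⟨q3, hS⟩ | ⟨q3, hS⟩ <;>
        first
        | omega
        | (rcases cb04_peel2 hS with ⟨q4, q5⟩ | ⟨q4, q5⟩ <;> omega)))

theorem cb04_finH {M : ℕ} (hM : 2 ≤ M) {p1 p2 p3 p4 a b r : ℤ}
    (e1 : a = p1 - 1 ∨ a = p1) (e2 : b = p2 ∨ b = p2 + 1)
    (hr : (p3 - 1 ≤ r ∧ r ≤ p3) ∨ (p4 + M - 1 ≤ r ∧ r ≤ p4 + M))
    (hle : (M : ℤ) ≤ p2 + 2 * M - p1) (hme : 1 ≤ p4 + M - p3)
    (h : (-(T a + T (b + 2 * M - 1)) - (T (p2 + 2 * M) - T p1) : LaurentPolynomial ℤ) =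
      (1 + T M) * (-T r - (T (p4 + M) - T p3))) : False := by
  have hS : ({p1, r, r + M, p4 + M, p4 + 2 * M} : Multiset ℤ) =
      {p2 + 2 * M, b + 2 * M - 1, a, p3, p3 + M} := by
    apply T_sum_inj
    simp only [Multiset.insert_eq_cons, Multiset.map_cons, Multiset.map_singleton,
      Multiset.sum_cons, Multiset.sum_singleton]
    have h2 : (p4 + 2 * (M : ℤ)) = (p4 + M) + M := by ring
    rw [h2, T_add (p4 + M) M, T_add r M, T_add p3 M]
    linear_combination h
  have hS1 : p1 ::ₘ ({r, r + M, p4 + M, p4 + 2 * M} : Multiset ℤ) =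
      {p2 + 2 * M, b + 2 * M - 1, a, p3, p3 + M} := hS
  rcases cb04_peel5 hS1 with ⟨q1, hS⟩ | ⟨q1, hS⟩ | ⟨q1, hS⟩ | ⟨q1, hS⟩ | ⟨q1, hS⟩ <;>
  first
  | omega
  | (have hS2 := hS
     rw [Multiset.insert_eq_cons] at hS2
     rcases cb04_peel4 hS2 with ⟨q2, hS⟩ | ⟨q2, hS⟩ | ⟨q2, hS⟩ | ⟨q2, hS⟩ <;>
     first
     | omega
     | (have hS3 := hS
        rw [Multiset.insert_eq_cons] at hS3
        rcases cb04_peel3 hS3 with ⟨q3, hS⟩ | ⟨q3, hS⟩ | ⟨q3, hS⟩ <;>
        first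
        | omega
        | (rcases cb04_peel2 hS with ⟨q4, q5⟩ | ⟨q4, q5⟩ <;> omega)))

theorem cb04_hom : ∃ f : LaurentPolynomial ℤ →+* ℤ, ∀ n : ℤ, f (T n) = 1 := by
  refine ⟨LaurentPolynomial.eval₂ (RingHom.id ℤ) 1, fun n => ?_⟩
  simp

theorem f_algB {L M : ℕ} (hM : 2 ≤ M) (hLM : M < L) {p1 p2 p3 p4 a b c d a' b' c' d' : ℤ}
    (e1 : a' = p1 ∨ a' = p1 + 1) (e2 : b = p2 ∨ b = p2 + 1)
    (e3 : c' = p3 ∨ c' = p3 + 1) (e4 : d = p4 ∨ d = p4 + 1)
    (h1 : 1 ≤ b + L - a) (h2 : 1 ≤ b' + L - a') (h3 : 1 ≤ d + M - c) (h4 : 1 ≤ d' + M - c')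
    (u1 : -1 ≤ a' - a ∧ a' - a ≤ 1) (u2 : -1 ≤ b' - b ∧ b' - b ≤ 1)
    (v1 : -1 ≤ c' - c ∧ c' - c ≤ 1) (v2 : -1 ≤ d' - d ∧ d' - d ≤ 1)
    (hle : (M : ℤ) ≤ p2 + L - p1) (hme : 1 ≤ p4 + M - p3)
    (hne : a' - a ≠ b' - b ∨ c' - c ≠ d' - d)
    (heq : br M * (rowPoly a' (b' + L - 1) - rowPoly a (b + L - 1) - (T (p2 + L) - T p1)) =
      br L * (rowPoly c' (d' + M - 1) - rowPoly c (d + M - 1) - (T (p4 + M) - T p3))) :
    False := by
  obtain ⟨f, hf⟩ := cb04_hom
  have hbr : ∀ n : ℕ, f (br n) = n := by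
    intro n
    rw [br, eval_rowPoly f (hf 1)]
    have : ((n : ℤ) - 1 + 1 - 0).toNat = n := by omega
    rw [this]
  have hrow : ∀ x y : ℤ, x ≤ y + 1 → f (rowPoly x y) = y + 1 - x := by
    intro x y hxy
    rw [eval_rowPoly f (hf 1)]
    have : ((y + 1 - x).toNat : ℤ) = y + 1 - x := Int.toNat_of_nonneg (by omega)
    exact_mod_cast this
  have hmass : (M : ℤ) * ((b' + L - a') - (b + L - a)) = L * ((d' + M - c') - (d + M - c)) := by
    have h5 := congrArg f heq
    simp only [map_mul, map_sub, hbr, hf] at h5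
    rw [hrow _ _ (by omega), hrow _ _ (by omega), hrow _ _ (by omega), hrow _ _ (by omega)] at h5
    linear_combination h5
  obtain ⟨u, hu⟩ : ∃ u, u = (b' - b) - (a' - a) := ⟨_, rfl⟩
  obtain ⟨v, hv⟩ : ∃ v, v = (d' - d) - (c' - c) := ⟨_, rfl⟩
  have hmass2 : (M : ℤ) * u = L * v := by
    rw [hu, hv]
    linear_combination hmass
  have hu2 : -2 ≤ u ∧ u ≤ 2 := by omega
  have hv2 : -2 ≤ v ∧ v ≤ 2 := by omega
  have hne2 : u ≠ 0 ∨ v ≠ 0 := by omega
  have hkey : (L : ℤ) = 2 * M ∧ ((u = 2 ∧ v = 1) ∨ (u = -2 ∧ v = -1)) := by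
    obtain ⟨hu3, hu4⟩ := hu2
    obtain ⟨hv3, hv4⟩ := hv2
    clear hu hv
    interval_cases u <;> interval_cases v <;> omega
  obtain ⟨hL, hcase⟩ := hkey
  have hbrL : br (L : ℤ) = br M * (1 + T M) := by
    rw [hL]
    exact cb04_br
  have hbM : br (M : ℤ) ≠ 0 := by
    intro h0
    have h5 := hbr M
    rw [h0, map_zero] at h5
    have : (M : ℤ) = 0 := h5.symm
    omega
  rw [hbrL, mul_assoc] at heq
  have heq2 := mul_left_cancel₀ hbM heq
  rw [hL] at heq2 hle h1 h2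
  rcases hcase with ⟨hu1, hv1⟩ | ⟨hu1, hv1⟩
  · -- `K` bigger
    have ha : a = a' + 1 := by omega
    have hb : b' = b + 1 := by omega
    have hD : rowPoly a' (b' + 2 * M - 1) - rowPoly a (b + 2 * M - 1) = T a' + T (b + 2 * M) := by
      have h5 : b' + 2 * (M : ℤ) - 1 = (b + 2 * M - 1) + 1 := by omega
      rw [h5, ha, cb04_grow (by omega)]
      have h6 : (b + 2 * (M : ℤ) - 1) + 1 = b + 2 * M := by ring
      rw [h6]
      ring
    rw [hD] at heq2
    have hcd : (c = c' + 1 ∧ d' = d) ∨ (c' = c ∧ d' = d + 1) := by omega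
    rcases hcd with ⟨hc, hd⟩ | ⟨hc, hd⟩
    · have hD' : rowPoly c' (d' + M - 1) - rowPoly c (d + M - 1) = T c' := by
        rw [hc, hd, cb04_left (by omega)]
        ring
      rw [hD'] at heq2
      exact cb04_finK hM e1 e2 (r := c') (by omega) hle hme (by omega) heq2
    · have hD' : rowPoly c' (d' + M - 1) - rowPoly c (d + M - 1) = T (d + M) := by
        have h5 : d' + (M : ℤ) - 1 = (d + M - 1) + 1 := by omega
        rw [h5, hc, cb04_right (by omega)]
        have h6 : (d + (M : ℤ) - 1) + 1 = d + M := by ring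
        rw [h6]
        ring
      rw [hD'] at heq2
      exact cb04_finK hM e1 e2 (r := d + M) (by omega) hle hme (by omega) heq2
  · -- `H` bigger
    have ha : a' = a + 1 := by omega
    have hb : b = b' + 1 := by omega
    have hD : rowPoly a' (b' + 2 * M - 1) - rowPoly a (b + 2 * M - 1) =
        -(T a + T (b + 2 * M - 1)) := by
      have h5 : b + 2 * (M : ℤ) - 1 = (b' + 2 * M - 1) + 1 := by omega
      rw [h5, ha, cb04_grow (by omega)]
      ring
    rw [hD] at heq2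
    have hcd : (c' = c + 1 ∧ d' = d) ∨ (c' = c ∧ d = d' + 1) := by omega
    rcases hcd with ⟨hc, hd⟩ | ⟨hc, hd⟩
    · have hD' : rowPoly c' (d' + M - 1) - rowPoly c (d + M - 1) = -T c := by
        rw [hc, hd, cb04_left (a := c) (by omega)]
        ring
      rw [hD'] at heq2
      exact cb04_finH hM (r := c) (a := a) (b := b) (by omega) e2 (by omega) hle hme heq2
    · have hD' : rowPoly c' (d' + M - 1) - rowPoly c (d + M - 1) = -T (d + M - 1) := by
        have h5 : d + (M : ℤ) - 1 = (d' + M - 1) + 1 := by omega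
        rw [h5, hc, cb04_right (by omega)]
        ring
      rw [hD'] at heq2
      exact cb04_finH hM (r := d + M - 1) (a := a) (b := b) (by omega) e2 (by omega) hle hme heq2

end Pool.Agent.Lib.MP_bb0bab_co
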