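import Pool.Agent.Lib.MP_bb0bab_co.CB03
import Pool.Agent.Lib.MP_bb0bab_co.CB04

/-!
# CB05 the forced row, algebra, final form (checked by brute force)

`f_alg`: CB03 + CB04 (if `a'-a = b'-b` and `c'-c = d'-d` CB03, otherwise CB04).
`f2_alg` (row below is full of type 1 with value `V`, and all `p` in `{A, A+1}`): `u, v ∈ {0,1,2}`.  If all of `u1,u2,v1,v2 ≤ 1` use `f_alg` (`hv` is void: no `v = -1`; `lam_e ≥ L-1 ≥ M`,
`mu_e ≥ M-1 ≥ 1`).  Otherwise masses `M (u2-u1) = L (v2-v1)`: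
(A) `u1 = u2 = u`, `v1 = v2 = v` (equal lengths): cancel `x-1` as in CB03; masses: `M (u lam_s - lam_e) = L (v mu_s - mu_e)`.
  `u = 2`: `a = b = V`, `lam_s = L`; `lam_e = lam_s - 2 + e1 - e2`, and `lam_e ≥ L-1`: `lam_e = L-1`, left mass `M (L+1)`, so `L ∣ M (L+1)`, `L ∣ M`, no.
  `v = 2`: `mu_s = M`, `mu_e = M-1`, right mass `L (M+1)`; `u ∈ {0,1}`: left mass `M t`, `t ≤ 2`: `M t = L (M+1) ≥ (M+1)^2 > 2M`, no.
(B) `u1 ≠ u2`: `L = 2M`, `(u1,u2) = (0,2)` or `(2,0)`, `|v2-v1| = 1`; `1+x^M` divides `D_s - (x^(p2+L) - x^p1)` (see CB04 for the functional).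
  `(0,2)`: `a' = a = V+1 = p1+e1`, `b = V = p2+e2`, `D_s = x^(b+L) (1+x)`.  With `g = p2 - p1 = e1-1-e2`, divide by `x^p1`, `x^L = x^(2M) ≡ 1`:
  `x^(g+e2)(1+x) - x^g + 1 ≡ 0 mod 1+x^M`.  `e2 = 0`: `x^(g+1) + 1`, `g ∈ {-1,0}`: no.  `e2 = 1`: `g ≥ -1` so `e1 = 1`, `g = -1`: `2 + x - x^(-1)`: no.
  `(2,0)`: `a = V`, `a' = V+2 = p1+e1`, `b = V+1 = b'`... `b = p2+e2`: `D_s = -x^a (1+x)`, `a = p1+e1-2`: `-x^(e1-2)(1+x) - x^g + 1 ≡ 0`, `g = p2-p1 = e1-1-e2`:
  `(e1,e2) = (1,0)`: `-x^(-1) - 1`; `(1,1)`: `-2x^(-1)`; `(0,0)`: `-x^(-2) - 2x^(-1) + 1`, all not divisible; `(0,1)`: `g = -2`, excluded by `|g| ≤ 1`.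
-/

namespace Pool.Agent.Lib.MP_bb0bab_co

open LaurentPolynomial

/-- cancel `[M]` in `[M] X = [2M] Y` -/
theorem br_two_mul {L M : ℕ} (hM : 2 ≤ M) (hL : L = 2 * M) {X Y : LaurentPolynomial ℤ}
    (h : br M * X = br L * Y) : X = (1 + T M) * Y := by
  have h1 : (T 1 - 1) * (br M * (X - (1 + T M) * Y)) = (T 1 - 1) * 0 := by
    have h2 : (T 1 - 1) * br L = (T 1 - 1) * (br M * (1 + T M)) := by
      rw [← mul_assoc, br_mul, br_mul, hL]
      push_cast
      rw [two_mul, T_add]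
      ring
    have h3 := sub_one_cancel h2
    rw [h3] at h
    linear_combination (T 1 - 1) * h
  have h4 := sub_one_cancel h1
  have h5 : br M ≠ 0 := by
    intro h0
    have h6 := br_mul M
    rw [h0, mul_zero] at h6
    have := congrArg (fun P => P.coeff (M : ℤ)) h6
    simp only [AddMonoidAlgebra.coeff_sub, Finsupp.sub_apply, T_apply, if_true,
      AddMonoidAlgebra.coeff_zero, Finsupp.zero_apply] at this
    rw [show (1 : LaurentPolynomial ℤ) = T 0 from rfl, T_apply, if_neg (by omega)] at this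
    omega
  rcases mul_eq_zero.1 h4 with h | h
  · exact absurd h h5
  · exact sub_eq_zero.1 h

/-- values of the alternating functional near `r` -/
theorem alt_small {M : ℕ} (hM : 2 ≤ M) {r : ℤ} {φ : LaurentPolynomial ℤ →+ ℤ}
    (hφ : ∀ n : ℤ, φ (T n) = if (2 * (M : ℤ)) ∣ n - r then 1 else
        if (2 * (M : ℤ)) ∣ n - r - M then -1 else 0) (n k : ℤ)
    (h : n = r + k ∨ n = r + k + 2 * M) (hk1 : -1 ≤ k) (hk2 : k ≤ 1) :
    φ (T n) = if k = 0 then 1 else 0 := by
  have hM0 : (2 : ℤ) ≤ M := by exact_mod_cast hM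
  have e1 : (2 * (M : ℤ)) ∣ n - r ↔ k = 0 := by
    have e2 : (2 * (M : ℤ)) ∣ n - r ↔ (2 * (M : ℤ)) ∣ k := by
      rcases h with rfl | rfl
      · rw [show r + k - r = k by ring]
      · rw [show r + k + 2 * (M : ℤ) - r = k + 2 * M by ring, dvd_add_self_right]
    rw [e2]
    constructor
    · intro h
      refine Int.eq_zero_of_abs_lt_dvd h ?_
      rw [abs_lt]
      constructor <;> linarith
    · rintro rfl
      exact dvd_zero _
  have e3 : ¬ (2 * (M : ℤ)) ∣ n - r - M := by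
    intro h3
    rcases h with rfl | rfl
    · rw [show r + k - r - M = k - M by ring] at h3
      have := Int.eq_zero_of_abs_lt_dvd h3 (by rw [abs_lt]; constructor <;> linarith)
      linarith
    · rw [show r + k + 2 * (M : ℤ) - r - M = k + M by ring] at h3
      have := Int.eq_zero_of_abs_lt_dvd h3 (by rw [abs_lt]; constructor <;> linarith)
      linarith
  rw [hφ, if_neg e3]
  simp only [e1]

/-- masses of the equation -/
theorem mass_eq {L M : ℕ} {p1 p2 p3 p4 a b c d a' b' c' d' : ℤ}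
    (h1 : 0 ≤ b + L - a) (h2 : 0 ≤ b' + L - a') (h3 : 0 ≤ d + M - c) (h4 : 0 ≤ d' + M - c')
    (heq : br M * (rowPoly a' (b' + L - 1) - rowPoly a (b + L - 1) - (T (p2 + L) - T p1)) =
      br L * (rowPoly c' (d' + M - 1) - rowPoly c (d + M - 1) - (T (p4 + M) - T p3))) :
    (M : ℤ) * ((b' - a') - (b - a)) = L * ((d' - c') - (d - c)) := by
  let f : LaurentPolynomial ℤ →+* ℤ := LaurentPolynomial.eval₂ (RingHom.id ℤ) (1 : ℤˣ)
  have hf : ∀ n : ℤ, f (T n) = 1 := by
    intro n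
    show LaurentPolynomial.eval₂ (RingHom.id ℤ) (1 : ℤˣ) (T n) = 1
    rw [eval₂_T]
    simp
  have hfr : ∀ {a b : ℤ}, 0 ≤ b - a → f (rowPoly a (b - 1)) = b - a := by
    intro a b h
    rw [eval_rowPoly f (hf 1)]
    simp only [sub_add_cancel]
    exact Int.toNat_of_nonneg h
  have hfb : ∀ n : ℕ, f (br n) = n := by
    intro n
    have := hfr (a := 0) (b := n) (by omega)
    simpa [br] using this
  have h5 := congrArg f heq
  rw [map_mul, map_mul, map_sub, map_sub, map_sub, map_sub, map_sub, map_sub, hfb, hfb, hfr h1,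
    hfr h2, hfr h3, hfr h4, hf, hf, hf, hf] at h5
  linarith

theorem f_alg {L M : ℕ} (hM : 2 ≤ M) (hLM : M < L) {p1 p2 p3 p4 a b c d a' b' c' d' : ℤ}
    (e1 : a' = p1 ∨ a' = p1 + 1) (e2 : b = p2 ∨ b = p2 + 1)
    (e3 : c' = p3 ∨ c' = p3 + 1) (e4 : d = p4 ∨ d = p4 + 1)
    (h1 : 1 ≤ b + L - a) (h2 : 1 ≤ b' + L - a') (h3 : 1 ≤ d + M - c) (h4 : 1 ≤ d' + M - c')
    (u1 : -1 ≤ a' - a ∧ a' - a ≤ 1) (u2 : -1 ≤ b' - b ∧ b' - b ≤ 1)
    (v1 : -1 ≤ c' - c ∧ c' - c ≤ 1) (v2 : -1 ≤ d' - d ∧ d' - d ≤ 1)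
    (hle : (M : ℤ) ≤ p2 + L - p1) (hme : 1 ≤ p4 + M - p3)
    (hv : c' = c - 1 → d' = d - 1 → c + 1 ≤ d)
    (hnf : ¬ (p1 = p2 ∧ p1 = p3 ∧ p1 = p4))
    (heq : br M * (rowPoly a' (b' + L - 1) - rowPoly a (b + L - 1) - (T (p2 + L) - T p1)) =
      br L * (rowPoly c' (d' + M - 1) - rowPoly c (d + M - 1) - (T (p4 + M) - T p3))) :
    a = p1 ∧ b = p2 ∧ c = p3 ∧ d = p4 ∧ a' = p1 + 1 ∧ b' = p2 + 1 ∧ c' = p3 + 1 ∧ d' = p4 + 1 := by
  by_cases hne : a' - a ≠ b' - b ∨ c' - c ≠ d' - d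
  · exact (f_algB hM hLM e1 e2 e3 e4 h1 h2 h3 h4 u1 u2 v1 v2 hle hme hne heq).elim
  · push Not at hne
    obtain ⟨hu, hv2⟩ := hne
    obtain ⟨u, rfl⟩ : ∃ u, a' = a + u := ⟨a' - a, by ring⟩
    obtain ⟨v, rfl⟩ : ∃ v, c' = c + v := ⟨c' - c, by ring⟩
    obtain rfl : b' = b + u := by omega
    obtain rfl : d' = d + v := by omega
    have := f_algA hM hLM (p1 := p1) (p2 := p2) (p3 := p3) (p4 := p4) (a := a) (b := b) (c := c)
      (d := d) (u := u) (v := v) (by omega) (by omega) e1 e2 e3 e4 h1 h3 hle hme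
      (fun hh => hv (by omega) (by omega)) hnf heq
    omega

theorem f2_alg {L M : ℕ} (hM : 2 ≤ M) (hLM : M < L) {p1 p2 p3 p4 a b c d a' b' c' d' A V : ℤ}
    (q1 : p1 = A ∨ p1 = A + 1) (q2 : p2 = A ∨ p2 = A + 1)
    (q3 : p3 = A ∨ p3 = A + 1) (q4 : p4 = A ∨ p4 = A + 1)
    (e1 : a' = p1 ∨ a' = p1 + 1) (e2 : b = p2 ∨ b = p2 + 1)
    (e3 : c' = p3 ∨ c' = p3 + 1) (e4 : d = p4 ∨ d = p4 + 1)
    (w1 : a = V ∨ a = V + 1) (w2 : b = V ∨ b = V + 1) (w3 : c = V ∨ c = V + 1) (w4 : d = V ∨ d = V + 1)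
    (z1 : a' = V + 1 ∨ a' = V + 2) (z2 : b' = V + 1 ∨ b' = V + 2)
    (z3 : c' = V + 1 ∨ c' = V + 2) (z4 : d' = V + 1 ∨ d' = V + 2)
    (hnf : ¬ (p1 = p2 ∧ p1 = p3 ∧ p1 = p4))
    (heq : br M * (rowPoly a' (b' + L - 1) - rowPoly a (b + L - 1) - (T (p2 + L) - T p1)) =
      br L * (rowPoly c' (d' + M - 1) - rowPoly c (d + M - 1) - (T (p4 + M) - T p3))) :
    a = p1 ∧ b = p2 ∧ c = p3 ∧ d = p4 ∧ a' = p1 + 1 ∧ b' = p2 + 1 ∧ c' = p3 + 1 ∧ d' = p4 + 1 := by
  have hM0 : (2 : ℤ) ≤ M := by exact_mod_cast hM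
  have hL0 : (M : ℤ) < L := by exact_mod_cast hLM
  have lin : ∀ {x y z : ℤ}, (x = y ∨ x = z) → y ≤ z → y ≤ x ∧ x ≤ z := by
    intro x y z h h2
    rcases h with rfl | rfl
    · exact ⟨le_refl _, h2⟩
    · exact ⟨h2, le_refl _⟩
  replace q1 := lin q1 (by linarith)
  replace q2 := lin q2 (by linarith)
  replace q3 := lin q3 (by linarith)
  replace q4 := lin q4 (by linarith)
  replace w1 := lin w1 (by linarith)
  replace w2 := lin w2 (by linarith)
  replace w3 := lin w3 (by linarith)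
  replace w4 := lin w4 (by linarith)
  replace z1 := lin z1 (by linarith)
  replace z2 := lin z2 (by linarith)
  replace z3 := lin z3 (by linarith)
  replace z4 := lin z4 (by linarith)
  have e1' := lin e1 (by linarith)
  have e2' := lin e2 (by linarith)
  have e3' := lin e3 (by linarith)
  have e4' := lin e4 (by linarith)
  by_cases hsm : a' - a ≤ 1 ∧ b' - b ≤ 1 ∧ c' - c ≤ 1 ∧ d' - d ≤ 1
  · refine f_alg hM hLM e1 e2 e3 e4 ?_ ?_ ?_ ?_ ?_ ?_ ?_ ?_ ?_ ?_ ?_ hnf heq <;> clear e1 e2 e3 e4 hnf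
    all_goals omega
  clear e1 e2 e3 e4
  exfalso
  have hmass := mass_eq (by omega) (by omega) (by omega) (by omega) heq
  by_cases hne : a' - a ≠ b' - b ∨ c' - c ≠ d' - d
  · -- different lengths
    clear hnf
    obtain ⟨hL2, hcase⟩ : L = 2 * M ∧ ((a' = a ∧ b' = b + 2) ∨ (a' = a + 2 ∧ b' = b)) := by
      have ht : (b' - a') - (b - a) = -2 ∨ (b' - a') - (b - a) = -1 ∨ (b' - a') - (b - a) = 0 ∨
          (b' - a') - (b - a) = 1 ∨ (b' - a') - (b - a) = 2 := by omega
      have ht' : (d' - c') - (d - c) = -2 ∨ (d' - c') - (d - c) = -1 ∨ (d' - c') - (d - c) = 0 ∨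
          (d' - c') - (d - c) = 1 ∨ (d' - c') - (d - c) = 2 := by omega
      rcases ht with ht | ht | ht | ht | ht <;> rcases ht' with ht' | ht' | ht' | ht' | ht' <;>
        rw [ht, ht'] at hmass <;> omega
    have hX := br_two_mul hM hL2 heq
    have hLz : (L : ℤ) = 2 * M := by exact_mod_cast hL2
    rcases hcase with ⟨h1, h2⟩ | ⟨h1, h2⟩
    · have hb : b = V := by omega
      have ha : a = V + 1 := by omega
      have hD : rowPoly a' (b' + L - 1) - rowPoly a (b + L - 1) = T (b + L) + T (b + L + 1) := by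
        apply sub_one_cancel
        rw [mul_sub, sub_one_mul_rowPoly (by omega), sub_one_mul_rowPoly (by omega), h1, h2]
        rw [show b + 2 + (L : ℤ) - 1 + 1 = b + L + 1 + 1 by ring,
          show b + (L : ℤ) - 1 + 1 = b + L by ring, T_add (b + L + 1), T_add (b + L)]
        ring
      rw [hD, hb] at hX
      have hp1 : p1 = V ∨ p1 = V + 1 := by omega
      have hp2 : p2 = V ∨ p2 = V - 1 := by omega
      obtain ⟨φ, hφ, hφ0⟩ := exists_alt M (by omega) V
      obtain ⟨ψ, hψ, hψ0⟩ := exists_alt M (by omega) (V + 1)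
      have k1 := congrArg φ hX
      have k2 := congrArg ψ hX
      rw [hφ0, map_sub, map_sub, map_add, alt_small hM hφ (V + L) 0 (by omega) (by omega) (by omega),
        alt_small hM hφ (V + L + 1) 1 (by omega) (by omega) (by omega)] at k1
      rw [hψ0, map_sub, map_sub, map_add,
        alt_small hM hψ (V + L) (-1) (by omega) (by omega) (by omega),
        alt_small hM hψ (V + L + 1) 0 (by omega) (by omega) (by omega)] at k2
      rcases hp2 with hp2 | hp2
      · rcases hp1 with hp1 | hp1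
        · rw [hp1, hp2, alt_small hM hφ (V + L) 0 (by omega) (by omega) (by omega),
            alt_small hM hφ V 0 (by omega) (by omega) (by omega)] at k1
          norm_num at k1
        · rw [hp1, hp2, alt_small hM hψ (V + L) (-1) (by omega) (by omega) (by omega),
            alt_small hM hψ (V + 1) 0 (by omega) (by omega) (by omega)] at k2
          norm_num at k2
      · have hp1' : p1 = V := by omega
        rw [hp1', hp2, alt_small hM hφ (V - 1 + L) (-1) (by omega) (by omega) (by omega),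
            alt_small hM hφ V 0 (by omega) (by omega) (by omega)] at k1
        norm_num at k1
    · have ha : a = V := by omega
      have hb : b = V + 1 := by omega
      have hD : rowPoly a' (b' + L - 1) - rowPoly a (b + L - 1) = -(T a + T (a + 1)) := by
        apply sub_one_cancel
        rw [mul_sub, sub_one_mul_rowPoly (by omega), sub_one_mul_rowPoly (by omega), h1, h2]
        rw [show a + 2 = a + 1 + 1 by ring, T_add (a + 1), T_add a]
        ring
      rw [hD, ha] at hX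
      have hp1 : p1 = V + 2 ∨ p1 = V + 1 := by omega
      have hp2 : p2 = V ∨ p2 = V + 1 := by omega
      obtain ⟨φ, hφ, hφ0⟩ := exists_alt M (by omega) V
      obtain ⟨ψ, hψ, hψ0⟩ := exists_alt M (by omega) (V + 1)
      have k1 := congrArg φ hX
      have k2 := congrArg ψ hX
      rw [hφ0, map_sub, map_sub, map_neg, map_add,
        alt_small hM hφ V 0 (by omega) (by omega) (by omega),
        alt_small hM hφ (V + 1) 1 (by omega) (by omega) (by omega)] at k1
      rw [hψ0, map_sub, map_sub, map_neg, map_add,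
        alt_small hM hψ V (-1) (by omega) (by omega) (by omega),
        alt_small hM hψ (V + 1) 0 (by omega) (by omega) (by omega)] at k2
      rcases hp1 with hp1 | hp1
      · have hp2' : p2 = V + 1 := by omega
        rw [hp1, hp2', alt_small hM hψ (V + 1 + L) 0 (by omega) (by omega) (by omega),
            alt_small hM hψ (V + 2) 1 (by omega) (by omega) (by omega)] at k2
        norm_num at k2
      · rcases hp2 with hp2 | hp2
        · rw [hp1, hp2, alt_small hM hφ (V + L) 0 (by omega) (by omega) (by omega),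
            alt_small hM hφ (V + 1) 1 (by omega) (by omega) (by omega)] at k1
          norm_num at k1
        · rw [hp1, hp2, alt_small hM hφ (V + 1 + L) 1 (by omega) (by omega) (by omega),
            alt_small hM hφ (V + 1) 1 (by omega) (by omega) (by omega)] at k1
          norm_num at k1
  · push Not at hne
    obtain ⟨hu, hv2⟩ := hne
    obtain ⟨u, rfl⟩ : ∃ u, a' = a + u := ⟨a' - a, by ring⟩
    obtain ⟨v, rfl⟩ : ∃ v, c' = c + v := ⟨c' - c, by ring⟩
    obtain rfl : b' = b + u := by omega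
    obtain rfl : d' = d + v := by omega
    have hu2 : u = -1 ∨ u = 0 ∨ u = 1 ∨ u = 2 := by omega
    have hv2 : v = -1 ∨ v = 0 ∨ v = 1 ∨ v = 2 := by omega
    have hc := core_eq hu2 hv2 (by omega) (by omega) heq
    have hm := core_mass hu2 hv2 (by omega) (by omega) (by omega) (by omega) hc
    by_cases hu' : u = 2
    · subst hu'
      have k1 : 2 * (b + L - a) - (p2 + L - p1) = L + 1 := by omega
      rw [k1] at hm
      have hdvd : (L : ℤ) ∣ M := by
        refine ⟨v * (d + M - c) - (p4 + M - p3) - M, ?_⟩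
        linear_combination hm
      have := Int.le_of_dvd (by omega) hdvd
      omega
    · have hv' : v = 2 := by omega
      subst hv'
      have k1 : 2 * (d + M - c) - (p4 + M - p3) = M + 1 := by omega
      rw [k1] at hm
      have k2 : u = 0 ∨ u = 1 := by omega
      have k3 : u * (b + L - a) - (p2 + L - p1) ≤ 2 := by
        rcases k2 with rfl | rfl <;> omega
      nlinarith
end Pool.Agent.Lib.MP_bb0bab_co
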