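import Pool.Agent.Lib.MP_bb0bab_co.CBDefs

/-!
# CB06 convex and concave sequences on `0..h`
-/

namespace Pool.Agent.Lib.MP_bb0bab_co

open LaurentPolynomial

theorem ConcN.neg {h : ℕ} {f : ℕ → ℝ} (hf : ConcN h f) : ConvN h (fun i => - f i) := by
  intro i hi
  have := hf i hi
  linarith

theorem ConvN.neg {h : ℕ} {f : ℕ → ℝ} (hf : ConvN h f) : ConcN h (fun i => - f i) := by
  intro i hi
  have := hf i hi
  linarith

/-- increments are monotone -/
theorem ConvN.incr {h : ℕ} {f : ℕ → ℝ} (hf : ConvN h f) {i : ℕ} (k : ℕ) (hj : i + k + 1 ≤ h) :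
    f (i + 1) - f i ≤ f (i + k + 1) - f (i + k) := by
  induction k with
  | zero => rw [add_zero]
  | succ k ih =>
    have h1 := ih (by omega)
    have h2 := hf (i + k) (by omega)
    have e1 : i + (k + 1) + 1 = i + k + 2 := by ring
    have e2 : i + (k + 1) = i + k + 1 := by ring
    rw [e1, e2]
    linarith

theorem ConvN.win {h : ℕ} {f : ℕ → ℝ} (hf : ConvN h f) {i j w : ℕ} (hij : i ≤ j) (hj : j + w ≤ h) :
    f (i + w) - f i ≤ f (j + w) - f j := by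
  obtain ⟨k, rfl⟩ := Nat.exists_eq_add_of_le hij
  induction w with
  | zero => simp
  | succ w ih =>
    have h1 := ih (by omega)
    have h2 := hf.incr (i := i + w) k (by omega)
    have e1 : i + (w + 1) = i + w + 1 := by ring
    have e2 : i + k + (w + 1) = i + w + k + 1 := by ring
    have e3 : i + k + w = i + w + k := by ring
    rw [e3] at h1
    rw [e1, e2]
    linarith

theorem ConcN.win {h : ℕ} {f : ℕ → ℝ} (hf : ConcN h f) {i j w : ℕ} (hij : i ≤ j) (hj : j + w ≤ h) :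
    f (j + w) - f j ≤ f (i + w) - f i := by
  have := hf.neg.win hij hj
  linarith

/-- sum of increments from below -/
theorem ConvN.sum_ge {h : ℕ} {f : ℕ → ℝ} (hf : ConvN h f) {j : ℕ} (k : ℕ) (hj : j + 1 ≤ h)
    (hk : j + k ≤ h) : (k : ℝ) * (f (j + 1) - f j) ≤ f (j + k) - f j := by
  induction k with
  | zero => simp
  | succ k ih =>
    have h1 := ih (by omega)
    have h2 := hf.incr (i := j) k (by omega)
    have e1 : j + (k + 1) = j + k + 1 := by ring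
    rw [e1]
    push_cast
    linarith

theorem ConvN.sum_le {h : ℕ} {f : ℕ → ℝ} (hf : ConvN h f) {i j : ℕ} (k : ℕ) (hij : i + k = j)
    (hj : j + 1 ≤ h) : f j - f i ≤ (k : ℝ) * (f (j + 1) - f j) := by
  induction k generalizing i with
  | zero =>
    have : i = j := by omega
    rw [this]
    simp
  | succ k ih =>
    have h1 := ih (i := i + 1) (by omega)
    have h2 := hf.incr (i := i) (k + 1) (by omega)
    have e1 : i + (k + 1) = j := hij
    rw [e1] at h2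
    push_cast
    linarith

theorem ConvN.chord {h : ℕ} {f : ℕ → ℝ} (hf : ConvN h f) {i j k : ℕ} (hij : i ≤ j) (hjk : j ≤ k)
    (hk : k ≤ h) : ((k : ℝ) - i) * f j ≤ ((k : ℝ) - j) * f i + ((j : ℝ) - i) * f k := by
  rcases Nat.eq_or_lt_of_le hjk with rfl | hlt
  · have : ((j : ℝ) - j) * f i = 0 := by ring
    linarith
  · obtain ⟨a, rfl⟩ := Nat.exists_eq_add_of_le hij
    obtain ⟨b, rfl⟩ := Nat.exists_eq_add_of_le hjk
    have h1 := hf.sum_le (i := i) (j := i + a) a rfl (by omega)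
    have h2 := hf.sum_ge (j := i + a) b (by omega) hk
    have ha : (0 : ℝ) ≤ a := Nat.cast_nonneg a
    have hb : (0 : ℝ) ≤ b := Nat.cast_nonneg b
    push_cast
    nlinarith [mul_le_mul_of_nonneg_left h1 hb, mul_le_mul_of_nonneg_left h2 ha]

theorem ConcN.chord {h : ℕ} {f : ℕ → ℝ} (hf : ConcN h f) {i j k : ℕ} (hij : i ≤ j) (hjk : j ≤ k)
    (hk : k ≤ h) : ((k : ℝ) - j) * f i + ((j : ℝ) - i) * f k ≤ ((k : ℝ) - i) * f j := by
  have := hf.neg.chord hij hjk hk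
  linarith

theorem ConcN.min {h : ℕ} {f : ℕ → ℝ} (hf : ConcN h f) {i j k : ℕ} (hij : i ≤ j) (hjk : j ≤ k)
    (hk : k ≤ h) {r : ℝ} (h1 : r ≤ f i) (h2 : r ≤ f k) : r ≤ f j := by
  rcases Nat.eq_or_lt_of_le (hij.trans hjk) with hik | hik
  · have : i = j := by omega
    rw [← this]
    exact h1
  · have h3 := hf.chord hij hjk hk
    have h4 : (0 : ℝ) < (k : ℝ) - i := by
      have : (i : ℝ) < k := by exact_mod_cast hik
      linarith
    have h5 : (0 : ℝ) ≤ (k : ℝ) - j := by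
      have : (j : ℝ) ≤ k := by exact_mod_cast hjk
      linarith
    have h6 : (0 : ℝ) ≤ (j : ℝ) - i := by
      have : (i : ℝ) ≤ j := by exact_mod_cast hij
      linarith
    have h7 : ((k : ℝ) - i) * r ≤ ((k : ℝ) - i) * f j := by
      nlinarith [mul_le_mul_of_nonneg_left h1 h5, mul_le_mul_of_nonneg_left h2 h6]
    exact le_of_mul_le_mul_left h7 h4

theorem ConcN.sym {h : ℕ} {f : ℕ → ℝ} (hf : ConcN h f) (hs : ∀ i ≤ h, f (h - i) = f i) {i j : ℕ}
    (hij : i ≤ j) (h2 : i + j ≤ h) : f i ≤ f j :=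
  hf.min hij (by omega : j ≤ h - i) (Nat.sub_le _ _) le_rfl (hs i (by omega)).ge

theorem ConcN.sub {h : ℕ} {f g : ℕ → ℝ} (hf : ConcN h f) (hg : ConvN h g) :
    ConcN h (fun i => f i - g i) := by
  intro i hi
  have h1 := hf i hi
  have h2 := hg i hi
  linarith

theorem ConvN.rev {h : ℕ} {f : ℕ → ℝ} (hf : ConvN h f) (r : ℝ) : ConcN h (fun j => r - f (h - j)) := by
  intro i hi
  have h1 := hf (h - (i + 2)) (by omega)
  have e1 : h - (i + 2) + 1 = h - (i + 1) := by omega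
  have e2 : h - (i + 2) + 2 = h - i := by omega
  rw [e1, e2] at h1
  linarith

theorem ConcN.rev {h : ℕ} {f : ℕ → ℝ} (hf : ConcN h f) (r : ℝ) : ConvN h (fun j => r - f (h - j)) := by
  intro i hi
  have h1 := hf (h - (i + 2)) (by omega)
  have e1 : h - (i + 2) + 1 = h - (i + 1) := by omega
  have e2 : h - (i + 2) + 2 = h - i := by omega
  rw [e1, e2] at h1
  linarith

theorem IncN.rev {h : ℕ} {f : ℕ → ℝ} (hf : IncN h f) (r : ℝ) : IncN h (fun j => r - f (h - j)) := by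
  intro i hi
  have h1 := hf (h - (i + 1)) (by omega)
  have e1 : h - (i + 1) + 1 = h - i := by omega
  rw [e1] at h1
  exact ⟨by linarith [h1.1], by linarith [h1.2]⟩

theorem ceil_inc {u v : ℝ} (h : u ≤ v ∧ v ≤ u + 1) : ⌈v⌉ = ⌈u⌉ ∨ ⌈v⌉ = ⌈u⌉ + 1 := by
  have h1 : ⌈u⌉ ≤ ⌈v⌉ := Int.ceil_le_ceil h.1
  have h2 : ⌈v⌉ ≤ ⌈u⌉ + 1 := by
    rw [← Int.ceil_add_one]
    exact Int.ceil_le_ceil h.2
  omega

theorem floor_inc {u v : ℝ} (h : u ≤ v ∧ v ≤ u + 1) : ⌊v⌋ = ⌊u⌋ ∨ ⌊v⌋ = ⌊u⌋ + 1 := by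
  have h1 : ⌊u⌋ ≤ ⌊v⌋ := Int.floor_le_floor h.1
  have h2 : ⌊v⌋ ≤ ⌊u⌋ + 1 := by
    rw [← Int.floor_add_one]
    exact Int.floor_le_floor h.2
  omega

theorem ceil_win {u v : ℝ} {q : ℤ} (h1 : (q : ℝ) < v - u) (h2 : v - u < q + 1) :
    ⌈v⌉ = ⌈u⌉ + q ∨ ⌈v⌉ = ⌈u⌉ + q + 1 := by
  have h3 : ⌈u⌉ + q ≤ ⌈v⌉ := by
    rw [← Int.ceil_add_intCast]
    exact Int.ceil_le_ceil (by linarith)
  have h4 : ⌈v⌉ ≤ ⌈u⌉ + (q + 1) := by
    rw [← Int.ceil_add_intCast]
    exact Int.ceil_le_ceil (by push_cast; linarith)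
  omega

theorem floor_win {u v : ℝ} {q : ℤ} (h1 : (q : ℝ) < v - u) (h2 : v - u < q + 1) :
    ⌊v⌋ = ⌊u⌋ + q ∨ ⌊v⌋ = ⌊u⌋ + q + 1 := by
  have h3 : ⌊u⌋ + q ≤ ⌊v⌋ := by
    rw [← Int.floor_add_intCast]
    exact Int.floor_le_floor (by linarith)
  have h4 : ⌊v⌋ ≤ ⌊u⌋ + (q + 1) := by
    rw [← Int.floor_add_intCast]
    exact Int.floor_le_floor (by push_cast; linarith)
  omega

end Pool.Agent.Lib.MP_bb0bab_co
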