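import Pool.Agent.Lib.MP_bb0bab_co.CB06

/-!
# CB07 the eight words

PROOF. `lK j = xr - bK (h-j)` etc. are reversals (CB06 `rev`).  Reflection: `⌈n - r⌉ = n - ⌊r⌋` (`Int.ceil_intCast_sub`-type lemmas).
Letters: `ceil_inc`, `floor_inc`.  `mono`: induction from the letters.
-/

namespace Pool.Agent.Lib.MP_bb0bab_co

open LaurentPolynomial

theorem ceil_int_sub (n : ℤ) (r : ℝ) : ⌈(n : ℝ) - r⌉ = n - ⌊r⌋ := by
  rw [sub_eq_add_neg, Int.ceil_intCast_add, Int.ceil_neg]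
  ring

theorem floor_int_sub (n : ℤ) (r : ℝ) : ⌊(n : ℝ) - r⌋ = n - ⌈r⌉ := by
  rw [sub_eq_add_neg, Int.floor_intCast_add, Int.floor_neg]
  ring

theorem mono_of_let {h : ℕ} {f : ℕ → ℤ} (hf : ∀ i < h, f (i + 1) = f i ∨ f (i + 1) = f i + 1)
    {i j : ℕ} (hij : i ≤ j) (hj : j ≤ h) : f i ≤ f j ∧ f j ≤ f i + (j - i) := by
  induction j, hij using Nat.le_induction with
  | base => constructor <;> simp
  | succ j hij ih =>
    have h1 := ih (by omega)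
    have h2 := hf j (by omega)
    push_cast
    constructor
    · rcases h2 with h2 | h2 <;> omega
    · rcases h2 with h2 | h2 <;> omega

namespace Cd

variable {C : Cd}

theorem c_eq (j : ℕ) : C.c j = C.xr - C.b' (C.h - j) := by
  unfold Cd.c Cd.b' Cd.lK
  exact ceil_int_sub _ _

theorem d_eq (j : ℕ) : C.d j = C.x - C.a' (C.h - j) := by
  unfold Cd.d Cd.a' Cd.rK
  exact floor_int_sub _ _

theorem c'_eq (j : ℕ) : C.c' j = C.xr - C.b (C.h - j) := by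
  unfold Cd.c' Cd.b Cd.lH
  exact ceil_int_sub _ _

theorem d'_eq (j : ℕ) : C.d' j = C.x - C.a (C.h - j) := by
  unfold Cd.d' Cd.a Cd.rH
  exact floor_int_sub _ _

namespace Ok

variable (hC : C.Ok)

include hC

theorem lKconv : ConvN C.h C.lK := by
  exact hC.bKconc.rev _

theorem lHconv : ConvN C.h C.lH := by
  exact hC.bHconc.rev _

theorem rKconc : ConcN C.h C.rK := by
  exact hC.aKconv.rev _

theorem rHconc : ConcN C.h C.rH := by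
  exact hC.aHconv.rev _

theorem lKinc : IncN C.h C.lK := by
  exact hC.bKinc.rev _

theorem lHinc : IncN C.h C.lH := by
  exact hC.bHinc.rev _

theorem rKinc : IncN C.h C.rK := by
  exact hC.aKinc.rev _

theorem rHinc : IncN C.h C.rH := by
  exact hC.aHinc.rev _

theorem top0 : C.lK 0 = 0 ∧ C.rK 0 = 0 ∧ C.lH 0 = 0 ∧ C.rH 0 = 0 := by
  refine ⟨?_, ?_, ?_, ?_⟩
  · simp only [Cd.lK, Nat.sub_zero, hC.bKh, sub_self]
  · simp only [Cd.rK, Nat.sub_zero, hC.aKh, sub_self]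
  · simp only [Cd.lH, Nat.sub_zero, hC.bHh, sub_self]
  · simp only [Cd.rH, Nat.sub_zero, hC.aHh, sub_self]

theorem toph : C.lK C.h = C.xr ∧ C.rK C.h = C.x ∧ C.lH C.h = C.xr ∧ C.rH C.h = C.x := by
  refine ⟨?_, ?_, ?_, ?_⟩
  · simp only [Cd.lK, Nat.sub_self, hC.bK0, sub_zero]
  · simp only [Cd.rK, Nat.sub_self, hC.aK0, sub_zero]
  · simp only [Cd.lH, Nat.sub_self, hC.bH0, sub_zero]
  · simp only [Cd.rH, Nat.sub_self, hC.aH0, sub_zero]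

/-- all words vanish at 0 -/
theorem zero : C.a 0 = 0 ∧ C.b 0 = 0 ∧ C.c 0 = 0 ∧ C.d 0 = 0 ∧
    C.a' 0 = 0 ∧ C.b' 0 = 0 ∧ C.c' 0 = 0 ∧ C.d' 0 = 0 := by
  obtain ⟨h1, h2, h3, h4⟩ := hC.top0
  refine ⟨?_, ?_, ?_, ?_, ?_, ?_, ?_, ?_⟩
  · rw [Cd.a, hC.aH0, Int.ceil_zero]
  · rw [Cd.b, hC.bH0, Int.floor_zero]
  · rw [Cd.c, h1, Int.ceil_zero]
  · rw [Cd.d, h2, Int.floor_zero]
  · rw [Cd.a', hC.aK0, Int.ceil_zero]
  · rw [Cd.b', hC.bK0, Int.floor_zero]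
  · rw [Cd.c', h3, Int.ceil_zero]
  · rw [Cd.d', h4, Int.floor_zero]

theorem a_let {i : ℕ} (hi : i < C.h) : C.a (i + 1) = C.a i ∨ C.a (i + 1) = C.a i + 1 := by
  exact ceil_inc (hC.aHinc i hi)

theorem b_let {i : ℕ} (hi : i < C.h) : C.b (i + 1) = C.b i ∨ C.b (i + 1) = C.b i + 1 := by
  exact floor_inc (hC.bHinc i hi)

theorem c_let {i : ℕ} (hi : i < C.h) : C.c (i + 1) = C.c i ∨ C.c (i + 1) = C.c i + 1 := by
  exact ceil_inc (hC.lKinc i hi)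

theorem d_let {i : ℕ} (hi : i < C.h) : C.d (i + 1) = C.d i ∨ C.d (i + 1) = C.d i + 1 := by
  exact floor_inc (hC.rKinc i hi)

theorem a'_let {i : ℕ} (hi : i < C.h) : C.a' (i + 1) = C.a' i ∨ C.a' (i + 1) = C.a' i + 1 := by
  exact ceil_inc (hC.aKinc i hi)

theorem b'_let {i : ℕ} (hi : i < C.h) : C.b' (i + 1) = C.b' i ∨ C.b' (i + 1) = C.b' i + 1 := by
  exact floor_inc (hC.bKinc i hi)

theorem c'_let {i : ℕ} (hi : i < C.h) : C.c' (i + 1) = C.c' i ∨ C.c' (i + 1) = C.c' i + 1 := by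
  exact ceil_inc (hC.lHinc i hi)

theorem d'_let {i : ℕ} (hi : i < C.h) : C.d' (i + 1) = C.d' i ∨ C.d' (i + 1) = C.d' i + 1 := by
  exact floor_inc (hC.rHinc i hi)

theorem a_mono {i j : ℕ} (hij : i ≤ j) (hj : j ≤ C.h) : C.a i ≤ C.a j ∧ C.a j ≤ C.a i + (j - i) := by
  exact mono_of_let (fun i hi => hC.a_let hi) hij hj

theorem b_mono {i j : ℕ} (hij : i ≤ j) (hj : j ≤ C.h) : C.b i ≤ C.b j ∧ C.b j ≤ C.b i + (j - i) := by
  exact mono_of_let (fun i hi => hC.b_let hi) hij hj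

theorem c_mono {i j : ℕ} (hij : i ≤ j) (hj : j ≤ C.h) : C.c i ≤ C.c j ∧ C.c j ≤ C.c i + (j - i) := by
  exact mono_of_let (fun i hi => hC.c_let hi) hij hj

theorem d_mono {i j : ℕ} (hij : i ≤ j) (hj : j ≤ C.h) : C.d i ≤ C.d j ∧ C.d j ≤ C.d i + (j - i) := by
  exact mono_of_let (fun i hi => hC.d_let hi) hij hj

theorem a'_mono {i j : ℕ} (hij : i ≤ j) (hj : j ≤ C.h) : C.a' i ≤ C.a' j ∧ C.a' j ≤ C.a' i + (j - i) := by
  exact mono_of_let (fun i hi => hC.a'_let hi) hij hj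

theorem b'_mono {i j : ℕ} (hij : i ≤ j) (hj : j ≤ C.h) : C.b' i ≤ C.b' j ∧ C.b' j ≤ C.b' i + (j - i) := by
  exact mono_of_let (fun i hi => hC.b'_let hi) hij hj

theorem c'_mono {i j : ℕ} (hij : i ≤ j) (hj : j ≤ C.h) : C.c' i ≤ C.c' j ∧ C.c' j ≤ C.c' i + (j - i) := by
  exact mono_of_let (fun i hi => hC.c'_let hi) hij hj

theorem d'_mono {i j : ℕ} (hij : i ≤ j) (hj : j ≤ C.h) : C.d' i ≤ C.d' j ∧ C.d' j ≤ C.d' i + (j - i) := by
  exact mono_of_let (fun i hi => hC.d'_let hi) hij hj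

end Ok

end Cd

end Pool.Agent.Lib.MP_bb0bab_co
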