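import Pool.Agent.Lib.MP_bb0bab_co.CB07

/-!
# CB08 cross functions

`k1 = rK - aK, k1' = rH - aH, k2 = bH - lH, k2' = bK - lK` are concave, symmetric about `h/2`, 0 at 0 and h.
`Psi = rK - lH, Phi = rH - lK` are concave, 0 at 0, `L - M` at `h`.
-/

namespace Pool.Agent.Lib.MP_bb0bab_co

open LaurentPolynomial

namespace Cd.Ok

variable {C : Cd} (hC : C.Ok)

include hC

theorem cb08_h : (0 : ℝ) < C.h := by
  have h1 := hC.hm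
  have h2 := hC.hmh
  have : 0 < C.h := by omega
  exact_mod_cast this

theorem cb08_LM : (1 : ℝ) ≤ (C.L : ℝ) - C.M := by
  have h1 := hC.hLM
  have : (C.M : ℝ) + 1 ≤ C.L := by exact_mod_cast h1
  linarith

theorem cb08_k1 : ConcN C.h (fun i => C.rK i - C.aK i) := hC.rKconc.sub hC.aKconv

theorem cb08_k1' : ConcN C.h (fun i => C.rH i - C.aH i) := hC.rHconc.sub hC.aHconv

theorem cb08_k2 : ConcN C.h (fun i => C.bH i - C.lH i) := hC.bHconc.sub hC.lHconv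

theorem cb08_k2' : ConcN C.h (fun i => C.bK i - C.lK i) := hC.bKconc.sub hC.lKconv

theorem cb08_Psi : ConcN C.h (fun i => C.rK i - C.lH i) := hC.rKconc.sub hC.lHconv

theorem cb08_Phi : ConcN C.h (fun i => C.rH i - C.lK i) := hC.rHconc.sub hC.lKconv

omit hC in
theorem cb08_k1s {i : ℕ} (hi : i ≤ C.h) :
    C.rK (C.h - i) - C.aK (C.h - i) = C.rK i - C.aK i := by
  unfold Cd.rK
  rw [Nat.sub_sub_self hi]
  ring

omit hC in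
theorem cb08_k1's {i : ℕ} (hi : i ≤ C.h) :
    C.rH (C.h - i) - C.aH (C.h - i) = C.rH i - C.aH i := by
  unfold Cd.rH
  rw [Nat.sub_sub_self hi]
  ring

omit hC in
theorem cb08_k2s {i : ℕ} (hi : i ≤ C.h) :
    C.bH (C.h - i) - C.lH (C.h - i) = C.bH i - C.lH i := by
  unfold Cd.lH
  rw [Nat.sub_sub_self hi]
  ring

omit hC in
theorem cb08_k2's {i : ℕ} (hi : i ≤ C.h) :
    C.bK (C.h - i) - C.lK (C.h - i) = C.bK i - C.lK i := by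
  unfold Cd.lK
  rw [Nat.sub_sub_self hi]
  ring

theorem k1_nn {i : ℕ} (hi : i ≤ C.h) : C.aK i ≤ C.rK i := by
  have h := hC.cb08_k1.min (Nat.zero_le i) hi le_rfl (r := 0)
    (by show (0 : ℝ) ≤ C.rK 0 - C.aK 0; rw [hC.top0.2.1, hC.aK0, sub_zero])
    (by show (0 : ℝ) ≤ C.rK C.h - C.aK C.h; rw [hC.toph.2.1, hC.aKh, sub_self])
  linarith

theorem k1'_nn {i : ℕ} (hi : i ≤ C.h) : C.aH i ≤ C.rH i := by
  have h := hC.cb08_k1'.min (Nat.zero_le i) hi le_rfl (r := 0)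
    (by show (0 : ℝ) ≤ C.rH 0 - C.aH 0; rw [hC.top0.2.2.2, hC.aH0, sub_zero])
    (by show (0 : ℝ) ≤ C.rH C.h - C.aH C.h; rw [hC.toph.2.2.2, hC.aHh, sub_self])
  linarith

theorem k2_nn {i : ℕ} (hi : i ≤ C.h) : C.lH i ≤ C.bH i := by
  have h := hC.cb08_k2.min (Nat.zero_le i) hi le_rfl (r := 0)
    (by show (0 : ℝ) ≤ C.bH 0 - C.lH 0; rw [hC.top0.2.2.1, hC.bH0, sub_zero])
    (by show (0 : ℝ) ≤ C.bH C.h - C.lH C.h; rw [hC.toph.2.2.1, hC.bHh, sub_self])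
  linarith

theorem k2'_nn {i : ℕ} (hi : i ≤ C.h) : C.lK i ≤ C.bK i := by
  have h := hC.cb08_k2'.min (Nat.zero_le i) hi le_rfl (r := 0)
    (by show (0 : ℝ) ≤ C.bK 0 - C.lK 0; rw [hC.top0.1, hC.bK0, sub_zero])
    (by show (0 : ℝ) ≤ C.bK C.h - C.lK C.h; rw [hC.toph.1, hC.bKh, sub_self])
  linarith

theorem k1_mono {i j : ℕ} (hij : i ≤ j) (h2 : i + j ≤ C.h) : C.rK i - C.aK i ≤ C.rK j - C.aK j :=
  hC.cb08_k1.sym (fun _ hi => cb08_k1s hi) hij h2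

theorem k1'_mono {i j : ℕ} (hij : i ≤ j) (h2 : i + j ≤ C.h) : C.rH i - C.aH i ≤ C.rH j - C.aH j :=
  hC.cb08_k1'.sym (fun _ hi => cb08_k1's hi) hij h2

theorem k2_mono {i j : ℕ} (hij : i ≤ j) (h2 : i + j ≤ C.h) : C.bH i - C.lH i ≤ C.bH j - C.lH j :=
  hC.cb08_k2.sym (fun _ hi => cb08_k2s hi) hij h2

theorem k2'_mono {i j : ℕ} (hij : i ≤ j) (h2 : i + j ≤ C.h) : C.bK i - C.lK i ≤ C.bK j - C.lK j :=
  hC.cb08_k2'.sym (fun _ hi => cb08_k2's hi) hij h2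

theorem Psi_min {i j k : ℕ} (hij : i ≤ j) (hjk : j ≤ k) (hk : k ≤ C.h) {r : ℝ}
    (h1 : r ≤ C.rK i - C.lH i) (h2 : r ≤ C.rK k - C.lH k) : r ≤ C.rK j - C.lH j :=
  hC.cb08_Psi.min hij hjk hk h1 h2

theorem Phi_min {i j k : ℕ} (hij : i ≤ j) (hjk : j ≤ k) (hk : k ≤ C.h) {r : ℝ}
    (h1 : r ≤ C.rH i - C.lK i) (h2 : r ≤ C.rH k - C.lK k) : r ≤ C.rH j - C.lK j :=
  hC.cb08_Phi.min hij hjk hk h1 h2

omit hC in
theorem cb08_xr : (C.xr : ℝ) = C.x - ((C.L : ℝ) - C.M) := by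
  unfold Cd.xr
  push_cast
  ring

theorem Psi_h : C.rK C.h - C.lH C.h = (C.L : ℝ) - C.M := by
  rw [hC.toph.2.1, hC.toph.2.2.1, cb08_xr]
  ring

theorem Phi_h : C.rH C.h - C.lK C.h = (C.L : ℝ) - C.M := by
  rw [hC.toph.2.2.2, hC.toph.1, cb08_xr]
  ring

theorem Psi_pos {j : ℕ} (h0 : 0 < j) (hj : j ≤ C.h) : C.lH j < C.rK j := by
  have h := hC.cb08_Psi.chord (Nat.zero_le j) hj le_rfl
  have h1 : C.rK 0 - C.lH 0 = 0 := by rw [hC.top0.2.1, hC.top0.2.2.1, sub_zero]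
  have h2 := hC.Psi_h
  have h3 := hC.cb08_LM
  have h4 := hC.cb08_h
  simp only [h1, h2] at h
  have h5 : (0 : ℝ) < j := by exact_mod_cast h0
  push_cast at h
  have h6 : (0 : ℝ) < (C.h : ℝ) * (C.rK j - C.lH j) := by
    have : (0 : ℝ) < (j : ℝ) * ((C.L : ℝ) - C.M) := mul_pos h5 (by linarith)
    linarith
  have h7 := (pos_iff_pos_of_mul_pos h6).1 h4
  linarith

theorem cb08_m : C.m ≤ C.h := by
  have := hC.hmh
  omega

theorem cb08_Phi_m : C.lK C.m + 1 ≤ C.rH C.m := by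
  have h1 : ((C.d' C.m : ℤ) : ℝ) ≤ C.rH C.m := Int.floor_le _
  have h2 : C.lK C.m ≤ ((C.c C.m : ℤ) : ℝ) := Int.le_ceil _
  rw [hC.dm'] at h1
  rw [hC.cm] at h2
  push_cast at h1
  linarith

theorem Phi_ge {j : ℕ} (h0 : C.m ≤ j) (hj : j ≤ C.h) : C.lK j + 1 ≤ C.rH j := by
  have h := hC.Phi_min h0 hj le_rfl (r := 1) (by linarith [hC.cb08_Phi_m])
    (by rw [hC.Phi_h]; exact hC.cb08_LM)
  linarith

theorem cb08_ba : C.aH C.m + 1 ≤ C.bK C.m := by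
  have h1 : ((C.b' C.m : ℤ) : ℝ) ≤ C.bK C.m := Int.floor_le _
  have h2 : C.aH C.m ≤ ((C.a C.m : ℤ) : ℝ) := Int.le_ceil _
  rw [hC.bm'] at h1
  rw [hC.am] at h2
  push_cast at h1
  linarith

theorem Phi_hm : C.lK (C.h - C.m) + 2 ≤ C.rH (C.h - C.m) := by
  have h1 := hC.cb08_ba
  have h2 := hC.cb08_LM
  unfold Cd.lK Cd.rH
  rw [Nat.sub_sub_self hC.cb08_m, cb08_xr]
  linarith

theorem k1_m : C.rK C.m - C.aK C.m < 1 := by
  have h1 : C.rK C.m < ((C.d C.m : ℤ) : ℝ) + 1 := Int.lt_floor_add_one _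
  have h2 : ((C.a' C.m : ℤ) : ℝ) < C.aK C.m + 1 := Int.ceil_lt_add_one _
  rw [hC.dm] at h1
  rw [hC.am'] at h2
  push_cast at h2
  linarith

theorem k2_m : C.bH C.m - C.lH C.m < 1 := by
  have h1 : C.bH C.m < ((C.b C.m : ℤ) : ℝ) + 1 := Int.lt_floor_add_one _
  have h2 : ((C.c' C.m : ℤ) : ℝ) < C.lH C.m + 1 := Int.ceil_lt_add_one _
  rw [hC.bm] at h1
  rw [hC.cm'] at h2
  push_cast at h2
  linarith

theorem Psi_m : C.rK C.m - C.lH C.m < 1 := by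
  have h1 : C.rK C.m < ((C.d C.m : ℤ) : ℝ) + 1 := Int.lt_floor_add_one _
  have h2 : ((C.c' C.m : ℤ) : ℝ) < C.lH C.m + 1 := Int.ceil_lt_add_one _
  rw [hC.dm] at h1
  rw [hC.cm'] at h2
  push_cast at h2
  linarith

theorem k1'_m : 1 ≤ C.rH C.m - C.aH C.m := by
  have h1 : ((C.d' C.m : ℤ) : ℝ) ≤ C.rH C.m := Int.floor_le _
  have h2 : C.aH C.m ≤ ((C.a C.m : ℤ) : ℝ) := Int.le_ceil _
  rw [hC.dm'] at h1
  rw [hC.am] at h2
  push_cast at h1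
  linarith

theorem k2'_m : 1 ≤ C.bK C.m - C.lK C.m := by
  have h1 : ((C.b' C.m : ℤ) : ℝ) ≤ C.bK C.m := Int.floor_le _
  have h2 : C.lK C.m ≤ ((C.c C.m : ℤ) : ℝ) := Int.le_ceil _
  rw [hC.bm'] at h1
  rw [hC.cm] at h2
  push_cast at h1
  linarith

omit hC in
/-- a convex sequence lies below a concave one with the same end values -/
theorem cb08_conv_conc {h : ℕ} (hh : (0 : ℝ) < h) {f g : ℕ → ℝ} (hf : ConvN h f) (hg : ConcN h g)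
    (h0 : f 0 = 0) (g0 : g 0 = 0) {r : ℝ} (h1 : f h = r) (g1 : g h = r) {i : ℕ} (hi : i ≤ h) :
    f i ≤ g i := by
  have a1 := hf.chord (Nat.zero_le i) hi le_rfl
  have a2 := hg.chord (Nat.zero_le i) hi le_rfl
  rw [h0, h1] at a1
  rw [g0, g1] at a2
  have a3 : ((h : ℝ) - ((0 : ℕ) : ℝ)) * f i ≤ ((h : ℝ) - ((0 : ℕ) : ℝ)) * g i := a1.trans a2
  push_cast at a3
  rw [sub_zero] at a3
  exact le_of_mul_le_mul_left a3 hh

theorem lK_le_bH {i : ℕ} (hi : i ≤ C.h) : C.lK i ≤ C.bH i :=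
  cb08_conv_conc hC.cb08_h hC.lKconv hC.bHconc hC.top0.1 hC.bH0 hC.toph.1 hC.bHh hi

theorem lH_le_bK {i : ℕ} (hi : i ≤ C.h) : C.lH i ≤ C.bK i :=
  cb08_conv_conc hC.cb08_h hC.lHconv hC.bKconc hC.top0.2.2.1 hC.bK0 hC.toph.2.2.1 hC.bKh hi

theorem aH_le_rK {i : ℕ} (hi : i ≤ C.h) : C.aH i ≤ C.rK i :=
  cb08_conv_conc hC.cb08_h hC.aHconv hC.rKconc hC.aH0 hC.top0.2.1 hC.aHh hC.toph.2.1 hi

theorem aK_le_rH {i : ℕ} (hi : i ≤ C.h) : C.aK i ≤ C.rH i :=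
  cb08_conv_conc hC.cb08_h hC.aKconv hC.rHconc hC.aK0 hC.top0.2.2.2 hC.aKh hC.toph.2.2.2 hi

end Cd.Ok

end Pool.Agent.Lib.MP_bb0bab_co
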