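import Pool.Agent.Lib.MP_bb0bab_co.CB08

/-!
# CB09 lengths and digital windows
-/

namespace Pool.Agent.Lib.MP_bb0bab_co

open LaurentPolynomial

namespace Cd.Ok

variable {C : Cd} (hC : C.Ok)

include hC

theorem len_T0 {i : ℕ} (hi : i + C.m ≤ C.h) (h1 : C.b' i = C.b i) :
    C.a i + C.M ≤ C.b i + C.L := by
  have hP : ConcN C.h (fun i => C.bK i - C.aH i) := hC.bKconc.sub hC.aHconv
  have h2 : (1 : ℝ) - ((C.L : ℝ) - C.M) ≤ C.bK (C.h - C.m) - C.aH (C.h - C.m) := by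
    have h3 := hC.cb08_Phi_m
    unfold Cd.lK Cd.rH at h3
    rw [cb08_xr] at h3
    linarith
  have h3 := hP.min (Nat.zero_le i) (by omega : i ≤ C.h - C.m) (Nat.sub_le _ _)
    (r := 1 - ((C.L : ℝ) - C.M))
    (by
      show (1 : ℝ) - ((C.L : ℝ) - C.M) ≤ C.bK 0 - C.aH 0
      rw [hC.bK0, hC.aH0]
      linarith [hC.cb08_LM]) h2
  have h4 : C.bK i < ((C.b' i : ℤ) : ℝ) + 1 := Int.lt_floor_add_one _
  have h5 : ((C.a i : ℤ) : ℝ) < C.aH i + 1 := Int.ceil_lt_add_one _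
  rw [h1] at h4
  have h3' : (1 : ℝ) - ((C.L : ℝ) - C.M) ≤ C.bK i - C.aH i := h3
  have h6 : ((C.a i : ℤ) : ℝ) + (C.M : ℤ) < ((C.b i : ℤ) : ℝ) + (C.L : ℤ) + 1 := by
    push_cast
    linarith
  have h7 : C.a i + (C.M : ℤ) < C.b i + C.L + 1 := by exact_mod_cast h6
  omega

theorem len_T1 {i : ℕ} (hi : i < C.h) (h1 : C.a' i = C.a i + 1) :
    C.a i + C.M ≤ C.b i + C.L := by
  have h2 := hC.Psi_pos (j := C.h - i) (by omega) (Nat.sub_le _ _)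
  unfold Cd.lH Cd.rK at h2
  rw [Nat.sub_sub_self hi.le, cb08_xr] at h2
  have h4 : C.bH i < ((C.b i : ℤ) : ℝ) + 1 := Int.lt_floor_add_one _
  have h5 : ((C.a' i : ℤ) : ℝ) < C.aK i + 1 := Int.ceil_lt_add_one _
  rw [h1] at h5
  have h6 : ((C.a i : ℤ) : ℝ) + (C.M : ℤ) < ((C.b i : ℤ) : ℝ) + (C.L : ℤ) + 1 := by
    push_cast
    push_cast at h5
    linarith
  have h7 : C.a i + (C.M : ℤ) < C.b i + C.L + 1 := by exact_mod_cast h6
  omega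

theorem mu_T0 {j : ℕ} (h0 : C.m ≤ j) (hj : j ≤ C.h) : C.c j ≤ C.d' j := by
  have h2 := hC.Phi_ge h0 hj
  have h4 : C.rH j < ((C.d' j : ℤ) : ℝ) + 1 := Int.lt_floor_add_one _
  have h5 : ((C.c j : ℤ) : ℝ) < C.lK j + 1 := Int.ceil_lt_add_one _
  have h6 : ((C.c j : ℤ) : ℝ) < ((C.d' j : ℤ) : ℝ) + 1 := by linarith
  have h7 : C.c j < C.d' j + 1 := by exact_mod_cast h6
  omega

theorem mu_T1 {j : ℕ} (h0 : 0 < j) (hj : j ≤ C.h) (h1 : C.c' j = C.c j + 1) : C.c j ≤ C.d j := by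
  have h2 := hC.Psi_pos h0 hj
  have h4 : C.rK j < ((C.d j : ℤ) : ℝ) + 1 := Int.lt_floor_add_one _
  have h5 : ((C.c' j : ℤ) : ℝ) < C.lH j + 1 := Int.ceil_lt_add_one _
  rw [h1] at h5
  have h6 : ((C.c j : ℤ) : ℝ) < ((C.d j : ℤ) : ℝ) + 1 := by
    push_cast at h5
    linarith
  have h7 : C.c j < C.d j + 1 := by exact_mod_cast h6
  omega

omit hC in
theorem cb09_ne {L M : ℕ} (hM : 2 ≤ M) {u v : ℝ} (h : -((L : ℝ) - M) ≤ v - u) :
    ⌈u⌉ + 1 ≤ ⌊v⌋ + (L : ℤ) := by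
  have h4 : v < ((⌊v⌋ : ℤ) : ℝ) + 1 := Int.lt_floor_add_one _
  have h5 : ((⌈u⌉ : ℤ) : ℝ) < u + 1 := Int.ceil_lt_add_one _
  have h6 : (2 : ℝ) ≤ M := by exact_mod_cast hM
  have h7 : ((⌈u⌉ : ℤ) : ℝ) + 1 < ((⌊v⌋ : ℤ) : ℝ) + ((L : ℤ) : ℝ) + 1 := by
    push_cast
    linarith
  have h8 : ⌈u⌉ + 1 < ⌊v⌋ + (L : ℤ) + 1 := by exact_mod_cast h7
  omega

theorem ne_H (hM : 2 ≤ C.M) {i : ℕ} (hi : i ≤ C.h) : C.a i + 1 ≤ C.b i + C.L := by
  have hP : ConcN C.h (fun i => C.bH i - C.aH i) := hC.bHconc.sub hC.aHconv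
  have h3 := hP.min (Nat.zero_le i) hi le_rfl (r := - ((C.L : ℝ) - C.M))
    (by
      show - ((C.L : ℝ) - C.M) ≤ C.bH 0 - C.aH 0
      rw [hC.bH0, hC.aH0]
      linarith [hC.cb08_LM])
    (by
      show - ((C.L : ℝ) - C.M) ≤ C.bH C.h - C.aH C.h
      rw [hC.bHh, hC.aHh, cb08_xr]
      linarith)
  exact cb09_ne hM h3

theorem ne_K (hM : 2 ≤ C.M) {i : ℕ} (hi : i ≤ C.h) : C.a' i + 1 ≤ C.b' i + C.L := by
  have hP : ConcN C.h (fun i => C.bK i - C.aK i) := hC.bKconc.sub hC.aKconv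
  have h3 := hP.min (Nat.zero_le i) hi le_rfl (r := - ((C.L : ℝ) - C.M))
    (by
      show - ((C.L : ℝ) - C.M) ≤ C.bK 0 - C.aK 0
      rw [hC.bK0, hC.aK0]
      linarith [hC.cb08_LM])
    (by
      show - ((C.L : ℝ) - C.M) ≤ C.bK C.h - C.aK C.h
      rw [hC.bKh, hC.aKh, cb08_xr]
      linarith)
  exact cb09_ne hM h3

theorem ne_G (hM : 2 ≤ C.M) {i : ℕ} (hi : i ≤ C.h) : C.c i + 1 ≤ C.d i + C.M := by
  have h := hC.ne_K hM (Nat.sub_le C.h i)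
  rw [c_eq, d_eq]
  have e : C.xr = C.x - ((C.L : ℤ) - C.M) := rfl
  rw [e]
  omega

theorem ne_G' (hM : 2 ≤ C.M) {i : ℕ} (hi : i ≤ C.h) : C.c' i + 1 ≤ C.d' i + C.M := by
  have h := hC.ne_H hM (Nat.sub_le C.h i)
  rw [c'_eq, d'_eq]
  have e : C.xr = C.x - ((C.L : ℤ) - C.M) := rfl
  rw [e]
  omega

theorem cb09_aK : (C.q : ℝ) < C.aK C.m := by
  have h2 : ((C.a' C.m : ℤ) : ℝ) < C.aK C.m + 1 := Int.ceil_lt_add_one _
  rw [hC.am'] at h2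
  push_cast at h2
  linarith

theorem cb09_lH : (C.q : ℝ) < C.lH C.m := by
  have h2 : ((C.c' C.m : ℤ) : ℝ) < C.lH C.m + 1 := Int.ceil_lt_add_one _
  rw [hC.cm'] at h2
  push_cast at h2
  linarith

theorem cb09_rK : C.rK C.m < (C.q : ℝ) + 1 := by
  have h1 : C.rK C.m < ((C.d C.m : ℤ) : ℝ) + 1 := Int.lt_floor_add_one _
  rw [hC.dm] at h1
  exact h1

theorem cb09_bH : C.bH C.m < (C.q : ℝ) + 1 := by
  have h1 : C.bH C.m < ((C.b C.m : ℤ) : ℝ) + 1 := Int.lt_floor_add_one _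
  rw [hC.bm] at h1
  exact h1

theorem win_a' {i : ℕ} (hi : i + C.m ≤ C.h) :
    C.a' (i + C.m) = C.a' i + C.q ∨ C.a' (i + C.m) = C.a' i + C.q + 1 := by
  have h1 := hC.aKconv.win (w := C.m) (Nat.zero_le i) hi
  have h2 := hC.aKconv.win (w := C.m) (by omega : i ≤ C.h - C.m) (by have := hC.cb08_m; omega)
  rw [Nat.sub_add_cancel hC.cb08_m, hC.aKh] at h2
  rw [Nat.zero_add, hC.aK0] at h1
  refine ceil_win ?_ ?_
  · linarith [hC.cb09_aK]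
  · have h3 := hC.cb09_rK
    unfold Cd.rK at h3
    linarith

theorem win_b {i : ℕ} (hi : i + C.m ≤ C.h) :
    C.b (i + C.m) = C.b i + C.q ∨ C.b (i + C.m) = C.b i + C.q + 1 := by
  have h1 := hC.bHconc.win (w := C.m) (Nat.zero_le i) hi
  have h2 := hC.bHconc.win (w := C.m) (by omega : i ≤ C.h - C.m) (by have := hC.cb08_m; omega)
  rw [Nat.sub_add_cancel hC.cb08_m, hC.bHh] at h2
  rw [Nat.zero_add, hC.bH0] at h1
  refine floor_win ?_ ?_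
  · have h3 := hC.cb09_lH
    unfold Cd.lH at h3
    linarith
  · linarith [hC.cb09_bH]

theorem win_c' {i : ℕ} (hi : i + C.m ≤ C.h) :
    C.c' (i + C.m) = C.c' i + C.q ∨ C.c' (i + C.m) = C.c' i + C.q + 1 := by
  have h1 := hC.lHconv.win (w := C.m) (Nat.zero_le i) hi
  have h2 := hC.lHconv.win (w := C.m) (by omega : i ≤ C.h - C.m) (by have := hC.cb08_m; omega)
  rw [Nat.sub_add_cancel hC.cb08_m, hC.toph.2.2.1] at h2
  rw [Nat.zero_add, hC.top0.2.2.1] at h1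
  refine ceil_win ?_ ?_
  · linarith [hC.cb09_lH]
  · have h3 := hC.cb09_bH
    have h4 : C.lH (C.h - C.m) = C.xr - C.bH C.m := by
      unfold Cd.lH
      rw [Nat.sub_sub_self hC.cb08_m]
    linarith

theorem win_d {i : ℕ} (hi : i + C.m ≤ C.h) :
    C.d (i + C.m) = C.d i + C.q ∨ C.d (i + C.m) = C.d i + C.q + 1 := by
  have h1 := hC.rKconc.win (w := C.m) (Nat.zero_le i) hi
  have h2 := hC.rKconc.win (w := C.m) (by omega : i ≤ C.h - C.m) (by have := hC.cb08_m; omega)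
  rw [Nat.sub_add_cancel hC.cb08_m, hC.toph.2.1] at h2
  rw [Nat.zero_add, hC.top0.2.1] at h1
  refine floor_win ?_ ?_
  · have h3 := hC.cb09_aK
    have h4 : C.rK (C.h - C.m) = C.x - C.aK C.m := by
      unfold Cd.rK
      rw [Nat.sub_sub_self hC.cb08_m]
    linarith
  · linarith [hC.cb09_rK]

end Cd.Ok

end Pool.Agent.Lib.MP_bb0bab_co
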