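import Pool.Agent.Lib.MP_bb0bab_co.CBDefs

/-!
# CB10 from the germ to the data and from the blocks to the construction

PROOF. `germ_ok`: unfold everything; `xr = xl - (L-M)` (casts: `C.xr : ℤ`, `((xl - (L-M) : ℤ) : ℝ) = xl - (L - M)`); the top words: `⌈(n:ℝ) - r⌉ = n - ⌊r⌋`, `⌊(n:ℝ) - r⌋ = n - ⌈r⌉`, so
`RG' j = rowPoly (xl - (L-M) - ⌊βH (h-j)⌋) (xl - ⌈αH (h-j)⌉ + M - 1)`, which is the second factor in `Germ.ident` (rewrite the two bounds with `ring`-equalities).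
`germ_blocks`: `final_step` below (complete proof in /team-store/BB_Final.lean, copy it) with `hH, hK` from `memH, memK, rowsH, rowsK`: `p ∈ H` has `0 ≤ p.2 ≤ h`, `p.2 = i`, `i = t N + r`
(`Nat.div_add_mod`, `t = i / N < J`), `a ≤ x ≤ b + L - 1`.
-/

namespace Pool.Agent.Lib.MP_bb0bab_co

open LaurentPolynomial

open scoped Pointwise

theorem final_step (N : ℕ) (b b' : ℕ → ℤ) (c : ℤ)
    (hb : ∀ i < N, b' i = c - b (N - 1 - i)) (J : ℕ) (α : ℕ → ℤ) (l : ℕ → ℕ)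
    (H K : Finset (ℤ × ℤ))
    (hH : ∀ p : ℤ × ℤ, p ∈ H ↔ ∃ j < J, ∃ i < N, p.2 = (j : ℤ) * N + i ∧
      α j + b i ≤ p.1 ∧ p.1 < α j + b i + l j)
    (hK : ∀ p : ℤ × ℤ, p ∈ K ↔ ∃ j < J, ∃ i < N, p.2 = (j : ℤ) * N + i ∧
      α j + b' i ≤ p.1 ∧ p.1 < α j + b' i + l j) :
    ∃ A B : Finset (ℤ × ℤ), (A + B).card = A.card * B.card ∧
      (A - B).card = A.card * B.card ∧ H = A + B ∧
      ∃ t : ℤ × ℤ, K = (A - B).image (fun p => p + t) := by
  classical
  let A : Finset (ℤ × ℤ) := (Finset.range J).biUnion fun j =>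
    (Finset.range (l j)).image fun s : ℕ => (α j + (s : ℤ), (j : ℤ) * N)
  let B : Finset (ℤ × ℤ) := (Finset.range N).image fun i : ℕ => (b i, (i : ℤ))
  have hA : ∀ p : ℤ × ℤ, p ∈ A ↔ ∃ j < J, p.2 = (j : ℤ) * N ∧ α j ≤ p.1 ∧ p.1 < α j + l j := by
    intro p
    simp only [A, Finset.mem_biUnion, Finset.mem_range, Finset.mem_image]
    constructor
    · rintro ⟨j, hj, s, hs, rfl⟩
      refine ⟨j, hj, rfl, ?_, ?_⟩
      · show α j ≤ α j + (s : ℤ)
        omega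
      · show α j + (s : ℤ) < α j + l j
        have : (s : ℤ) < l j := by exact_mod_cast hs
        omega
    · rintro ⟨j, hj, h2, h3, h4⟩
      refine ⟨j, hj, (p.1 - α j).toNat, ?_, ?_⟩
      · have : ((p.1 - α j).toNat : ℤ) = p.1 - α j := Int.toNat_of_nonneg (by omega)
        have h5 : ((p.1 - α j).toNat : ℤ) < l j := by omega
        exact_mod_cast h5
      · have : ((p.1 - α j).toNat : ℤ) = p.1 - α j := Int.toNat_of_nonneg (by omega)
        ext
        · show α j + ((p.1 - α j).toNat : ℤ) = p.1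
          omega
        · exact h2.symm
  have hB : ∀ p : ℤ × ℤ, p ∈ B ↔ ∃ i < N, p = (b i, (i : ℤ)) := by
    intro p
    simp only [B, Finset.mem_image, Finset.mem_range]
    constructor
    · rintro ⟨i, hi, rfl⟩; exact ⟨i, hi, rfl⟩
    · rintro ⟨i, hi, rfl⟩; exact ⟨i, hi, rfl⟩
  -- uniqueness of quotient and remainder
  have hdiv : ∀ (j j' i i' : ℕ), i < N → i' < N → (j : ℤ) * N + i = (j' : ℤ) * N + i' →
      j = j' ∧ i = i' := by
    intro j j' i i' hi hi' h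
    have h' : j * N + i = j' * N + i' := by exact_mod_cast h
    have hN : 0 < N := by omega
    have h1 : (j * N + i) / N = j := by
      rw [mul_comm, Nat.mul_add_div hN, Nat.div_eq_of_lt hi, add_zero]
    have h2 : (j' * N + i') / N = j' := by
      rw [mul_comm, Nat.mul_add_div hN, Nat.div_eq_of_lt hi', add_zero]
    have h3 : j = j' := by rw [← h1, ← h2, h']
    subst h3
    exact ⟨rfl, by omega⟩
  refine ⟨A, B, ?_, ?_, ?_, ?_⟩
  · rw [Finset.card_add_iff]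
    rintro ⟨p, q⟩ hpq ⟨p', q'⟩ hpq' h
    obtain ⟨hp, hq⟩ := hpq
    obtain ⟨hp', hq'⟩ := hpq'
    obtain ⟨j, hj, hpj, -, -⟩ := (hA p).1 hp
    obtain ⟨j', hj', hpj', -, -⟩ := (hA p').1 hp'
    obtain ⟨i, hi, rfl⟩ := (hB q).1 hq
    obtain ⟨i', hi', rfl⟩ := (hB q').1 hq'
    have h1 : p.1 + b i = p'.1 + b i' := congrArg Prod.fst h
    have h2 : p.2 + (i : ℤ) = p'.2 + (i' : ℤ) := congrArg Prod.snd h
    rw [hpj, hpj'] at h2
    obtain ⟨rfl, rfl⟩ := hdiv _ _ _ _ hi hi' h2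
    have : p = p' := by
      ext
      · omega
      · rw [hpj, hpj']
    rw [this]
  · rw [show A - B = Finset.image₂ (· - ·) A B from rfl, Finset.card_image₂_iff]
    rintro ⟨p, q⟩ hpq ⟨p', q'⟩ hpq' h
    obtain ⟨hp, hq⟩ := hpq
    obtain ⟨hp', hq'⟩ := hpq'
    obtain ⟨j, hj, hpj, -, -⟩ := (hA p).1 hp
    obtain ⟨j', hj', hpj', -, -⟩ := (hA p').1 hp'
    obtain ⟨i, hi, rfl⟩ := (hB q).1 hq
    obtain ⟨i', hi', rfl⟩ := (hB q').1 hq'
    have h1 : p.1 - b i = p'.1 - b i' := congrArg Prod.fst h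
    have h2 : p.2 - (i : ℤ) = p'.2 - (i' : ℤ) := congrArg Prod.snd h
    rw [hpj, hpj'] at h2
    obtain ⟨rfl, hri⟩ := hdiv j j' (N - 1 - i) (N - 1 - i') (by omega) (by omega) (by
      have e1 : ((N - 1 - i : ℕ) : ℤ) = (N : ℤ) - 1 - i := by omega
      have e2 : ((N - 1 - i' : ℕ) : ℤ) = (N : ℤ) - 1 - i' := by omega
      rw [e1, e2]; linarith)
    have hii : i = i' := by omega
    subst hii
    have : p = p' := by
      ext
      · omega
      · rw [hpj, hpj']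
    rw [this]
  · ext p
    rw [hH, Finset.mem_add]
    constructor
    · rintro ⟨j, hj, i, hi, h2, h3, h4⟩
      refine ⟨(p.1 - b i, (j : ℤ) * N), (hA _).2 ⟨j, hj, rfl, ?_, ?_⟩, (b i, (i : ℤ)),
        (hB _).2 ⟨i, hi, rfl⟩, ?_⟩
      · show α j ≤ p.1 - b i
        omega
      · show p.1 - b i < α j + l j
        omega
      · ext
        · show p.1 - b i + b i = p.1
          omega
        · show (j : ℤ) * N + i = p.2
          rw [h2]
    · rintro ⟨q, hq, r, hr, rfl⟩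
      obtain ⟨j, hj, h2, h3, h4⟩ := (hA q).1 hq
      obtain ⟨i, hi, rfl⟩ := (hB r).1 hr
      refine ⟨j, hj, i, hi, ?_, ?_, ?_⟩
      · show q.2 + (i : ℤ) = _
        rw [h2]
      · show α j + b i ≤ q.1 + b i
        omega
      · show q.1 + b i < α j + b i + l j
        omega
  · refine ⟨(c, (N : ℤ) - 1), ?_⟩
    ext p
    rw [hK, Finset.mem_image]
    constructor
    · rintro ⟨j, hj, i, hi, h2, h3, h4⟩
      have hbi := hb i hi
      refine ⟨(p.1 - c, p.2 - ((N : ℤ) - 1)), ?_, ?_⟩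
      · rw [Finset.mem_sub]
        refine ⟨(p.1 - b' i, (j : ℤ) * N), (hA _).2 ⟨j, hj, rfl, ?_, ?_⟩,
          (b (N - 1 - i), ((N - 1 - i : ℕ) : ℤ)), (hB _).2 ⟨N - 1 - i, by omega, rfl⟩, ?_⟩
        · show α j ≤ p.1 - b' i
          omega
        · show p.1 - b' i < α j + l j
          omega
        · ext
          · show p.1 - b' i - b (N - 1 - i) = p.1 - c
            omega
          · show (j : ℤ) * N - ((N - 1 - i : ℕ) : ℤ) = p.2 - ((N : ℤ) - 1)
            have e1 : ((N - 1 - i : ℕ) : ℤ) = (N : ℤ) - 1 - i := by omega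
            rw [e1, h2]; ring
      · ext
        · show p.1 - c + c = p.1
          omega
        · show p.2 - ((N : ℤ) - 1) + ((N : ℤ) - 1) = p.2
          omega
    · rintro ⟨q, hq, rfl⟩
      rw [Finset.mem_sub] at hq
      obtain ⟨r, hr, s, hs, rfl⟩ := hq
      obtain ⟨j, hj, h2, h3, h4⟩ := (hA r).1 hr
      obtain ⟨i, hi, rfl⟩ := (hB s).1 hs
      have hbi := hb (N - 1 - i) (by omega)
      have e0 : N - 1 - (N - 1 - i) = i := by omega
      rw [e0] at hbi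
      refine ⟨j, hj, N - 1 - i, by omega, ?_, ?_, ?_⟩
      · show r.2 - (i : ℤ) + ((N : ℤ) - 1) = (j : ℤ) * N + ((N - 1 - i : ℕ) : ℤ)
        have e1 : ((N - 1 - i : ℕ) : ℤ) = (N : ℤ) - 1 - i := by omega
        rw [e1, h2]; ring
      · show α j + b' (N - 1 - i) ≤ r.1 - b i + c
        omega
      · show r.1 - b i + c < α j + b' (N - 1 - i) + l j
        omega

theorem germ_ok {H K : Finset (ℤ × ℤ)} {L M h : ℕ} {xl : ℤ} {αH αK βH βK : ℕ → ℝ} {m : ℕ} {q : ℤ}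
    (G : Germ H K L M h xl αH αK βH βK m q) : (Cd.mk L M h m xl q αH αK βH βK).Ok := by
  have hc : ∀ (n : ℤ) (r : ℝ), ⌈(n : ℝ) - r⌉ = n - ⌊r⌋ := by
    intro n r
    rw [sub_eq_add_neg, Int.ceil_intCast_add, Int.ceil_neg]
    ring
  have hf : ∀ (n : ℤ) (r : ℝ), ⌊(n : ℝ) - r⌋ = n - ⌈r⌉ := by
    intro n r
    rw [sub_eq_add_neg, Int.floor_intCast_add, Int.floor_neg]
    ring
  have hxr : (((xl - ((L : ℤ) - (M : ℤ)) : ℤ)) : ℝ) = (xl : ℝ) - ((L : ℝ) - (M : ℝ)) := by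
    push_cast
    ring
  constructor
  case hM => exact G.hM
  case hLM => exact G.hLM
  case hm => exact G.hm
  case hmh => exact G.hmh
  case aH0 => exact G.αH0
  case aK0 => exact G.αK0
  case bH0 => exact G.βH0
  case bK0 => exact G.βK0
  case aHh => exact G.αHh
  case aKh => exact G.αKh
  case bHh => exact G.βHh.trans hxr.symm
  case bKh => exact G.βKh.trans hxr.symm
  case abH => exact G.αβH
  case abK => exact G.αβK
  case aHinc => exact G.αH_inc
  case aKinc => exact G.αK_inc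
  case bHinc => exact G.βH_inc
  case bKinc => exact G.βK_inc
  case aHconv => exact G.αH_conv
  case aKconv => exact G.αK_conv
  case bHconc => exact G.βH_conc
  case bKconc => exact G.βK_conc
  case ident =>
    intro s hs
    have h1 := G.ident s hs
    have e1 : ∀ j, rowPoly (xl + M - 1 - (⌊βH (h - j)⌋ + L - 1)) (xl + M - 1 - ⌈αH (h - j)⌉) =
        (Cd.mk L M h m xl q αH αK βH βK).RG' j := by
      intro j
      change _ = rowPoly ⌈((xl - ((L : ℤ) - (M : ℤ)) : ℤ) : ℝ) - βH (h - j)⌉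
        (⌊(xl : ℝ) - αH (h - j)⌋ + M - 1)
      rw [hc, hf]
      congr 1 <;> ring
    have e2 : ∀ j, rowPoly (xl + M - 1 - (⌊βK (h - j)⌋ + L - 1)) (xl + M - 1 - ⌈αK (h - j)⌉) =
        (Cd.mk L M h m xl q αH αK βH βK).RG j := by
      intro j
      change _ = rowPoly ⌈((xl - ((L : ℤ) - (M : ℤ)) : ℤ) : ℝ) - βK (h - j)⌉
        (⌊(xl : ℝ) - αK (h - j)⌋ + M - 1)
      rw [hc, hf]
      congr 1 <;> ring
    simp only [e1, e2] at h1
    exact h1
  case low =>
    intro i hi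
    have h1 := G.low i hi
    have h2 := G.top i hi
    refine ⟨h1.1.symm, h1.2.symm, ?_, ?_⟩
    · change ⌈((xl - ((L : ℤ) - (M : ℤ)) : ℤ) : ℝ) - βH (h - i)⌉ =
        ⌈((xl - ((L : ℤ) - (M : ℤ)) : ℤ) : ℝ) - βK (h - i)⌉
      rw [hc, hc, h2.2]
    · change ⌊(xl : ℝ) - αH (h - i)⌋ = ⌊(xl : ℝ) - αK (h - i)⌋
      rw [hf, hf, h2.1]
  case am => exact G.lowH.1
  case bm => exact G.lowH.2
  case cm =>
    change ⌈((xl - ((L : ℤ) - (M : ℤ)) : ℤ) : ℝ) - βK (h - m)⌉ = q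
    rw [hc, G.topK.2]
    ring
  case dm =>
    change ⌊(xl : ℝ) - αK (h - m)⌋ = q
    rw [hf, G.topK.1]
    ring
  case am' => exact G.lowK.1
  case bm' => exact G.lowK.2
  case cm' =>
    change ⌈((xl - ((L : ℤ) - (M : ℤ)) : ℤ) : ℝ) - βH (h - m)⌉ = q + 1
    rw [hc, G.topH.2]
    ring
  case dm' =>
    change ⌊(xl : ℝ) - αH (h - m)⌋ = q + 1
    rw [hf, G.topH.1]
    ring

theorem germ_blocks {H K : Finset (ℤ × ℤ)} {L M h : ℕ} {xl : ℤ} {αH αK βH βK : ℕ → ℝ} {m : ℕ} {q : ℤ}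
    (G : Germ H K L M h xl αH αK βH βK m q) (hB : (Cd.mk L M h m xl q αH αK βH βK).Blocks) :
    Arises H K := by
  obtain ⟨N, J, V, V', A, al, len, hJN, hV, hrow⟩ := hB
  have hJN' : h + 1 = J * N := hJN
  have hrow' : ∀ t < J, ∀ i < N,
      ⌈αH (t * N + i)⌉ = al t + V i ∧ ⌊βH (t * N + i)⌋ + (L : ℤ) = al t + V i + len t ∧
      ⌈αK (t * N + i)⌉ = al t + V' i ∧ ⌊βK (t * N + i)⌋ + (L : ℤ) = al t + V' i + len t := hrow
  have hN : 0 < N := by
    rcases Nat.eq_zero_or_pos N with h0 | h0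
    · rw [h0, mul_zero] at hJN'
      omega
    · exact h0
  have key : ∀ (S : Finset (ℤ × ℤ)) (α β : ℕ → ℝ) (W : ℕ → ℤ),
      (∀ p ∈ S, 0 ≤ p.2 ∧ p.2 ≤ h) →
      (∀ (x : ℤ) (i : ℕ), i ≤ h → ((x, (i : ℤ)) ∈ S ↔ ⌈α i⌉ ≤ x ∧ x ≤ ⌊β i⌋ + L - 1)) →
      (∀ t < J, ∀ i < N, ⌈α (t * N + i)⌉ = al t + W i ∧
        ⌊β (t * N + i)⌋ + (L : ℤ) = al t + W i + len t) →
      ∀ p : ℤ × ℤ, p ∈ S ↔ ∃ j < J, ∃ i < N, p.2 = (j : ℤ) * N + i ∧
      al j + W i ≤ p.1 ∧ p.1 < al j + W i + len j := by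
    intro S α β W hrows hmem hW p
    constructor
    · intro hp
      obtain ⟨h1, h2⟩ := hrows p hp
      obtain ⟨n, hn⟩ := Int.eq_ofNat_of_zero_le h1
      have hn' : n ≤ h := by
        rw [hn] at h2
        exact_mod_cast h2
      have hdm := Nat.div_add_mod n N
      have hj : n / N < J := by
        rw [Nat.div_lt_iff_lt_mul hN]
        omega
      have hi : n % N < N := Nat.mod_lt n hN
      have hp' : (p.1, (n : ℤ)) ∈ S := by
        rw [← hn]
        exact hp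
      have h3 := (hmem p.1 n hn').mp hp'
      have h4 := hW (n / N) hj (n % N) hi
      have h5 : n / N * N + n % N = n := by rw [mul_comm]; exact hdm
      rw [h5] at h4
      refine ⟨n / N, hj, n % N, hi, ?_, ?_, ?_⟩
      · rw [hn]
        exact_mod_cast h5.symm
      · rw [← h4.1]
        exact h3.1
      · rw [← h4.2]
        have h6 := h3.2
        omega
    · rintro ⟨j, hj, i, hi, h1, h2, h3⟩
      have h4 := hW j hj i hi
      have hle : j * N + i ≤ h := by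
        have h5 : (j + 1) * N ≤ J * N := Nat.mul_le_mul_right N hj
        rw [add_mul, one_mul] at h5
        omega
      have h6 : p = (p.1, ((j * N + i : ℕ) : ℤ)) := by
        ext
        · rfl
        · rw [h1]
          push_cast
          ring
      rw [h6, hmem p.1 (j * N + i) hle, h4.1]
      refine ⟨h2, ?_⟩
      have h7 := h4.2
      omega
  obtain ⟨A', B', h1, h2, h3, t, h4⟩ := final_step N V V' A hV J al len H K
    (key H αH βH V G.rowsH G.memH fun t ht i hi => ⟨(hrow' t ht i hi).1, (hrow' t ht i hi).2.1⟩)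
    (key K αK βK V' G.rowsK G.memK fun t ht i hi =>
      ⟨(hrow' t ht i hi).2.2.1, (hrow' t ht i hi).2.2.2⟩)
  exact ⟨A', B', h1, h2, h3, t, Or.inl h4⟩

end Pool.Agent.Lib.MP_bb0bab_co
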