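import Pool.Agent.Lib.MP_bb0bab_co.CB07

/-!
# CB11 mirror

PROOF. Words: `⌈(i:ℝ) - r⌉ = i - ⌊r⌋` etc.; `mirror.xr = h - x`, so `mirror.lK j = (h - x) - ((h-j) - aH (h-j)) = j - rH j` for `j ≤ h` (cast of `h - j`), so
`mirror.c j = j - d' j`, `mirror.d j = j - c' j`, `mirror.c' j = j - d j`, `mirror.d' j = j - c j`.
`mirror_ok`: `ident`: `LaurentPolynomial.invert` (ring hom with `T n ↦ T (-n)`): `rowPoly (n - b) (n - a) = T n * invert (rowPoly a b)`; so
`mirror.RH i = T (i+L-1) * invert (RK i)`, `mirror.RG' j = T (j+M-1) * invert (RG j)`, `mirror.RK i = T (i+L-1) * invert (RH i)`, `mirror.RG j = T (j+M-1) * invert (RG' j)`; the identity is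
`T (s+L+M-2) * invert` of the old one (sides exchanged).  Increments: `i - bK i` has increments `1 - (inc of bK)`.  At `m`: `mirror.q = m - 1 - q`, `mirror.a m = m - b' m = m - (q+1)` ok.
Types: `mirror.a' - mirror.a = b' - b` etc.  `Full`: `mirror.a = s - b'`, `mirror.b = s - a'`, `mirror.c = s - d'`, `mirror.d = s - c'`: for a T-like row `mirror.Full s ↔ Full s`.
`mirror_blocks`: from `mirror` blocks with `V, V', A, al, len` put `V₂ i = i - V' i`, `V₂' i = i - V i`, `A₂ = N - 1 - A`, `al₂ t = t N + L - al t - len t`, the same `len`.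
-/

namespace Pool.Agent.Lib.MP_bb0bab_co

open LaurentPolynomial

theorem rowPoly_reflect (n a b : ℤ) :
    rowPoly (n - b) (n - a) = T n * invert (rowPoly a b) := by
  unfold rowPoly
  rw [map_sum, Finset.mul_sum]
  symm
  refine Finset.sum_bij (fun x _ => n - x) ?_ ?_ ?_ ?_
  · intro x hx
    rw [Finset.mem_Icc] at hx ⊢
    constructor <;> omega
  · intro x _ y _ hxy
    have h1 : n - x = n - y := hxy
    omega
  · intro y hy
    rw [Finset.mem_Icc] at hy
    refine ⟨n - y, ?_, ?_⟩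
    · rw [Finset.mem_Icc]
      constructor <;> omega
    · omega
  · intro x _
    rw [invert_T, ← T_add, sub_eq_add_neg]

theorem ceil_nat_sub (n : ℕ) (r : ℝ) : ⌈(n : ℝ) - r⌉ = n - ⌊r⌋ := by
  have h1 := ceil_int_sub (n : ℤ) r
  rwa [Int.cast_natCast] at h1

theorem floor_nat_sub (n : ℕ) (r : ℝ) : ⌊(n : ℝ) - r⌋ = n - ⌈r⌉ := by
  have h1 := floor_int_sub (n : ℤ) r
  rwa [Int.cast_natCast] at h1

theorem IncN.compl {h : ℕ} {f : ℕ → ℝ} (hf : IncN h f) : IncN h (fun i => (i : ℝ) - f i) := by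
  intro i hi
  obtain ⟨h1, h2⟩ := hf i hi
  have h3 : ((i + 1 : ℕ) : ℝ) = (i : ℝ) + 1 := by push_cast; ring
  constructor
  · change (i : ℝ) - f i ≤ ((i + 1 : ℕ) : ℝ) - f (i + 1)
    rw [h3]
    linarith
  · change ((i + 1 : ℕ) : ℝ) - f (i + 1) ≤ (i : ℝ) - f i + 1
    rw [h3]
    linarith

theorem ConcN.compl {h : ℕ} {f : ℕ → ℝ} (hf : ConcN h f) :
    ConvN h (fun i => (i : ℝ) - f i) := by
  intro i hi
  have h1 := hf i hi
  have h3 : ((i + 1 : ℕ) : ℝ) = (i : ℝ) + 1 := by push_cast; ring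
  have h4 : ((i + 2 : ℕ) : ℝ) = (i : ℝ) + 2 := by push_cast; ring
  change ((i + 1 : ℕ) : ℝ) - f (i + 1) - ((i : ℝ) - f i) ≤
    ((i + 2 : ℕ) : ℝ) - f (i + 2) - (((i + 1 : ℕ) : ℝ) - f (i + 1))
  rw [h3, h4]
  linarith

theorem ConvN.compl {h : ℕ} {f : ℕ → ℝ} (hf : ConvN h f) :
    ConcN h (fun i => (i : ℝ) - f i) := by
  intro i hi
  have h1 := hf i hi
  have h3 : ((i + 1 : ℕ) : ℝ) = (i : ℝ) + 1 := by push_cast; ring
  have h4 : ((i + 2 : ℕ) : ℝ) = (i : ℝ) + 2 := by push_cast; ring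
  change ((i + 2 : ℕ) : ℝ) - f (i + 2) - (((i + 1 : ℕ) : ℝ) - f (i + 1)) ≤
    ((i + 1 : ℕ) : ℝ) - f (i + 1) - ((i : ℝ) - f i)
  rw [h3, h4]
  linarith

namespace Cd

variable {C : Cd}

theorem mirror_a (i : ℕ) : C.mirror.a i = i - C.b' i := by
  exact ceil_nat_sub i (C.bK i)

theorem mirror_b (i : ℕ) : C.mirror.b i = i - C.a' i := by
  exact floor_nat_sub i (C.aK i)

theorem mirror_a' (i : ℕ) : C.mirror.a' i = i - C.b i := by
  exact ceil_nat_sub i (C.bH i)

theorem mirror_b' (i : ℕ) : C.mirror.b' i = i - C.a i := by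
  exact floor_nat_sub i (C.aH i)

theorem mirror_x : C.mirror.x = C.h - C.xr := rfl

theorem mirror_xr : C.mirror.xr = C.h - C.x := by
  change (C.h - C.xr) - ((C.L : ℤ) - C.M) = C.h - C.x
  unfold Cd.xr
  ring

theorem mirror_c {j : ℕ} (hj : j ≤ C.h) : C.mirror.c j = j - C.d' j := by
  rw [c_eq, d'_eq, mirror_xr, mirror_b']
  change (C.h : ℤ) - C.x - (((C.h - j : ℕ) : ℤ) - C.a (C.h - j)) = _
  push_cast [hj]
  ring

theorem mirror_d {j : ℕ} (hj : j ≤ C.h) : C.mirror.d j = j - C.c' j := by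
  rw [d_eq, c'_eq, mirror_x, mirror_a']
  change (C.h : ℤ) - C.xr - (((C.h - j : ℕ) : ℤ) - C.b (C.h - j)) = _
  push_cast [hj]
  ring

theorem mirror_c' {j : ℕ} (hj : j ≤ C.h) : C.mirror.c' j = j - C.d j := by
  rw [c'_eq, d_eq, mirror_xr, mirror_b]
  change (C.h : ℤ) - C.x - (((C.h - j : ℕ) : ℤ) - C.a' (C.h - j)) = _
  push_cast [hj]
  ring

theorem mirror_d' {j : ℕ} (hj : j ≤ C.h) : C.mirror.d' j = j - C.c j := by
  rw [d'_eq, c_eq, mirror_x, mirror_a]
  change (C.h : ℤ) - C.xr - (((C.h - j : ℕ) : ℤ) - C.b' (C.h - j)) = _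
  push_cast [hj]
  ring

theorem mirror_RH (i : ℕ) : C.mirror.RH i = T (i + C.L - 1) * invert (C.RK i) := by
  unfold Cd.RH Cd.RK
  rw [← rowPoly_reflect, mirror_a, mirror_b]
  change rowPoly _ ((i : ℤ) - C.a' i + C.L - 1) = _
  congr 1 <;> ring

theorem mirror_RK (i : ℕ) : C.mirror.RK i = T (i + C.L - 1) * invert (C.RH i) := by
  unfold Cd.RH Cd.RK
  rw [← rowPoly_reflect, mirror_a', mirror_b']
  change rowPoly _ ((i : ℤ) - C.a i + C.L - 1) = _
  congr 1 <;> ring

theorem mirror_RG {j : ℕ} (hj : j ≤ C.h) :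
    C.mirror.RG j = T (j + C.M - 1) * invert (C.RG' j) := by
  unfold Cd.RG Cd.RG'
  rw [← rowPoly_reflect, mirror_c hj, mirror_d hj]
  change rowPoly _ ((j : ℤ) - C.c' j + C.M - 1) = _
  congr 1 <;> ring

theorem mirror_RG' {j : ℕ} (hj : j ≤ C.h) :
    C.mirror.RG' j = T (j + C.M - 1) * invert (C.RG j) := by
  unfold Cd.RG Cd.RG'
  rw [← rowPoly_reflect, mirror_c' hj, mirror_d' hj]
  change rowPoly _ ((j : ℤ) - C.c j + C.M - 1) = _
  congr 1 <;> ring

theorem mirror_T0 {s : ℕ} (hs : s ≤ C.h) : C.mirror.T0 s ↔ C.T0 s := by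
  unfold Cd.T0
  rw [mirror_a, mirror_b, mirror_a', mirror_b', mirror_c hs, mirror_d hs, mirror_c' hs,
    mirror_d' hs]
  constructor
  · rintro ⟨h1, h2, h3, h4⟩
    refine ⟨?_, ?_, ?_, ?_⟩ <;> omega
  · rintro ⟨h1, h2, h3, h4⟩
    refine ⟨?_, ?_, ?_, ?_⟩ <;> omega

theorem mirror_T1 {s : ℕ} (hs : s ≤ C.h) : C.mirror.T1 s ↔ C.T1 s := by
  unfold Cd.T1
  rw [mirror_a, mirror_b, mirror_a', mirror_b', mirror_c hs, mirror_d hs, mirror_c' hs,
    mirror_d' hs]
  constructor
  · rintro ⟨h1, h2, h3, h4⟩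
    refine ⟨?_, ?_, ?_, ?_⟩ <;> omega
  · rintro ⟨h1, h2, h3, h4⟩
    refine ⟨?_, ?_, ?_, ?_⟩ <;> omega

theorem mirror_full {s : ℕ} (hs : s ≤ C.h) (ht : C.TL s) : C.mirror.Full s ↔ C.Full s := by
  unfold Cd.Full
  rw [mirror_a, mirror_b, mirror_c hs, mirror_d hs]
  rcases ht with ⟨h1, h2, h3, h4⟩ | ⟨h1, h2, h3, h4⟩
  · constructor
    · rintro ⟨g1, g2, g3⟩
      refine ⟨?_, ?_, ?_⟩ <;> omega
    · rintro ⟨g1, g2, g3⟩
      refine ⟨?_, ?_, ?_⟩ <;> omega
  · constructor
    · rintro ⟨g1, g2, g3⟩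
      refine ⟨?_, ?_, ?_⟩ <;> omega
    · rintro ⟨g1, g2, g3⟩
      refine ⟨?_, ?_, ?_⟩ <;> omega

theorem mirror_ident {s : ℕ} (hs : s ≤ C.h)
    (hi : ∑ i ∈ Finset.range (s + 1), C.RH i * C.RG' (s - i) =
      ∑ i ∈ Finset.range (s + 1), C.RK i * C.RG (s - i)) :
    ∑ i ∈ Finset.range (s + 1), C.mirror.RH i * C.mirror.RG' (s - i) =
      ∑ i ∈ Finset.range (s + 1), C.mirror.RK i * C.mirror.RG (s - i) := by
  have h1 : ∀ i ∈ Finset.range (s + 1), C.mirror.RH i * C.mirror.RG' (s - i) =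
      T (s + C.L + C.M - 2) * invert (C.RK i * C.RG (s - i)) := by
    intro i hi
    rw [Finset.mem_range] at hi
    rw [mirror_RH, mirror_RG' (by omega), map_mul]
    have h2 : (T (s + C.L + C.M - 2) : LaurentPolynomial ℤ) =
        T (i + C.L - 1) * T ((s - i : ℕ) + C.M - 1) := by
      rw [← T_add]
      congr 1
      push_cast [show i ≤ s by omega]
      ring
    rw [h2]
    ring
  have h3 : ∀ i ∈ Finset.range (s + 1), C.mirror.RK i * C.mirror.RG (s - i) =
      T (s + C.L + C.M - 2) * invert (C.RH i * C.RG' (s - i)) := by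
    intro i hi
    rw [Finset.mem_range] at hi
    rw [mirror_RK, mirror_RG (by omega), map_mul]
    have h2 : (T (s + C.L + C.M - 2) : LaurentPolynomial ℤ) =
        T (i + C.L - 1) * T ((s - i : ℕ) + C.M - 1) := by
      rw [← T_add]
      congr 1
      push_cast [show i ≤ s by omega]
      ring
    rw [h2]
    ring
  rw [Finset.sum_congr rfl h1, Finset.sum_congr rfl h3, ← Finset.mul_sum, ← Finset.mul_sum,
    ← map_sum, ← map_sum, hi]

theorem mirror_ok (hC : C.Ok) : C.mirror.Ok := by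
  have hm2 := hC.hmh
  have hmh : C.m ≤ C.h := by omega
  exact
    { hM := hC.hM
      hLM := hC.hLM
      hm := hC.hm
      hmh := hC.hmh
      aH0 := by
        change ((0 : ℕ) : ℝ) - C.bK 0 = 0
        rw [hC.bK0]
        norm_num
      aK0 := by
        change ((0 : ℕ) : ℝ) - C.bH 0 = 0
        rw [hC.bH0]
        norm_num
      bH0 := by
        change ((0 : ℕ) : ℝ) - C.aK 0 = 0
        rw [hC.aK0]
        norm_num
      bK0 := by
        change ((0 : ℕ) : ℝ) - C.aH 0 = 0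
        rw [hC.aH0]
        norm_num
      aHh := by
        rw [mirror_x]
        change (C.h : ℝ) - C.bK C.h = _
        rw [hC.bKh]
        push_cast
        ring
      aKh := by
        rw [mirror_x]
        change (C.h : ℝ) - C.bH C.h = _
        rw [hC.bHh]
        push_cast
        ring
      bHh := by
        rw [mirror_xr]
        change (C.h : ℝ) - C.aK C.h = _
        rw [hC.aKh]
        push_cast
        ring
      bKh := by
        rw [mirror_xr]
        change (C.h : ℝ) - C.aH C.h = _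
        rw [hC.aHh]
        push_cast
        ring
      abH := by
        intro i hi
        have h1 := hC.abK i hi
        change (i : ℝ) - C.bK i ≤ (i : ℝ) - C.aK i + C.L - 1
        linarith
      abK := by
        intro i hi
        have h1 := hC.abH i hi
        change (i : ℝ) - C.bH i ≤ (i : ℝ) - C.aH i + C.L - 1
        linarith
      aHinc := hC.bKinc.compl
      aKinc := hC.bHinc.compl
      bHinc := hC.aKinc.compl
      bKinc := hC.aHinc.compl
      aHconv := hC.bKconc.compl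
      aKconv := hC.bHconc.compl
      bHconc := hC.aKconv.compl
      bKconc := hC.aHconv.compl
      ident := fun s hs => mirror_ident hs (hC.ident s hs)
      low := by
        intro i hi
        have hi' : i < C.m := hi
        exact (mirror_T0 (by omega)).2 (hC.low i hi')
      am := by
        change C.mirror.a C.m = C.m - 1 - C.q
        rw [mirror_a, hC.bm']
        ring
      bm := by
        change C.mirror.b C.m = C.m - 1 - C.q
        rw [mirror_b, hC.am']
        ring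
      cm := by
        change C.mirror.c C.m = C.m - 1 - C.q
        rw [mirror_c hmh, hC.dm']
        ring
      dm := by
        change C.mirror.d C.m = C.m - 1 - C.q
        rw [mirror_d hmh, hC.cm']
        ring
      am' := by
        change C.mirror.a' C.m = C.m - 1 - C.q + 1
        rw [mirror_a', hC.bm]
        ring
      bm' := by
        change C.mirror.b' C.m = C.m - 1 - C.q + 1
        rw [mirror_b', hC.am]
        ring
      cm' := by
        change C.mirror.c' C.m = C.m - 1 - C.q + 1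
        rw [mirror_c' hmh, hC.dm]
        ring
      dm' := by
        change C.mirror.d' C.m = C.m - 1 - C.q + 1
        rw [mirror_d' hmh, hC.cm]
        ring }

theorem mirror_tl {s : ℕ} (hs : s ≤ C.h) : C.mirror.TL s ↔ C.TL s := by
  unfold Cd.TL
  rw [mirror_T0 hs, mirror_T1 hs]

theorem mirror_ev (hC : C.Ok) {N : ℕ} (hE : C.Ev N) : C.mirror.Ev N := by
  have h1 := hC.hmh
  have h2 := hC.hm
  have h3 := hE.hh
  have hN : N ≤ C.h := by omega
  exact
    { pos := hE.pos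
      full := fun i hi => (mirror_full (by omega) (hE.tl i hi)).2 (hE.full i hi)
      tl := fun i hi => (mirror_tl (by omega)).2 (hE.tl i hi)
      t0 := (mirror_T0 hN).2 hE.t0
      nf := fun h => hE.nf ((mirror_full hN (Or.inl hE.t0)).1 h)
      hh := hE.hh
      ne := hE.ne }

theorem mirror_nr {N : ℕ} (h : C.NR N) : C.mirror.NR N := by
  intro s h1 h2 ⟨h3, h4⟩
  have h2' : s ≤ C.h := h2
  have h5 := (mirror_T1 h2').1 h3
  exact h s h1 h2' ⟨h5, (mirror_full h2' (Or.inr h5)).1 h4⟩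

theorem mirror_nr0 {N : ℕ} (h : C.NR0 N) : C.mirror.NR0 N := by
  intro e h1 h2 ⟨h3, h4⟩
  have h1' : N + C.m ≤ e := h1
  have h2' : e + N + C.m ≤ C.h := h2
  have he : e ≤ C.h := by omega
  have h5 := (mirror_T0 he).1 h3
  exact h e h1' h2' ⟨h5, (mirror_full he (Or.inl h5)).1 h4⟩

theorem mirror_blocks (h : C.mirror.Blocks) : C.Blocks := by
  obtain ⟨N, J, V, V', A, al, len, h1, h2, h3⟩ := h
  refine ⟨N, J, fun i => i - V' i, fun i => i - V i, N - 1 - A,
    fun t => t * N + C.L - al t - len t, len, h1, ?_, ?_⟩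
  · intro i hi
    have h4 := h2 (N - 1 - i) (by omega)
    have h5 : N - 1 - (N - 1 - i) = i := by omega
    rw [h5] at h4
    change (i : ℤ) - V i = N - 1 - A - (((N - 1 - i : ℕ) : ℤ) - V' (N - 1 - i))
    rw [h4]
    omega
  · intro t ht i hi
    obtain ⟨g1, g2, g3, g4⟩ := h3 t ht i hi
    rw [mirror_a] at g1
    rw [mirror_b] at g2
    rw [mirror_a'] at g3
    rw [mirror_b'] at g4
    change _ + (C.L : ℤ) = _ at g2
    change _ + (C.L : ℤ) = _ at g4
    push_cast at g1 g2 g3 g4 ⊢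
    refine ⟨?_, ?_, ?_, ?_⟩ <;> linarith

end Cd

end Pool.Agent.Lib.MP_bb0bab_co
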