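import Pool.Agent.Lib.MP_bb0bab_co.CB01
import Pool.Agent.Lib.MP_bb0bab_co.CB07

/-!
# CB12 the convolution identity

PROOF. `conv_id`: both sides are triple sums; they are coefficients of products of power series over
the Laurent polynomials.
`eq_of_van`: in `conv_id` only `i = 0` survives; `RG 0 = br M`, `RH 0 = br L` (words vanish at 0).
-/

namespace Pool.Agent.Lib.MP_bb0bab_co

open LaurentPolynomial

namespace Cd

variable {C : Cd}

theorem RG_zero (hC : C.Ok) : C.RG 0 = br C.M := by
  obtain ⟨-, -, h3, h4, -⟩ := hC.zero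
  rw [RG, h3, h4, br, zero_add]

theorem RH_zero (hC : C.Ok) : C.RH 0 = br C.L := by
  obtain ⟨h1, h2, -⟩ := hC.zero
  rw [RH, h1, h2, br, zero_add]

/-- coefficients of a product of power series -/
theorem cb12_coeff (u v : ℕ → LaurentPolynomial ℤ) (s : ℕ) :
    PowerSeries.coeff s (PowerSeries.mk u * PowerSeries.mk v) =
      ∑ i ∈ Finset.range (s + 1), u i * v (s - i) := by
  rw [PowerSeries.coeff_mul]
  simp only [PowerSeries.coeff_mk]
  exact Finset.Nat.sum_antidiagonal_eq_sum_range_succ (fun i j => u i * v j) s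

theorem cb12_EE (N s : ℕ) : C.EE N s = PowerSeries.coeff s
    (PowerSeries.mk (fun l => if l < N then T (C.a l) else 0) * PowerSeries.mk C.RK -
      PowerSeries.mk (fun l => if l < N then T (C.a' l) else 0) * PowerSeries.mk C.RH) := by
  rw [map_sub, cb12_coeff, cb12_coeff, ← Finset.sum_sub_distrib, EE]
  refine Finset.sum_congr rfl fun l _ => ?_
  by_cases h : l < N
  · simp only [h, if_true]
  · simp only [h, if_false, zero_mul, sub_zero]

theorem cb12_FF (N s : ℕ) : C.FF N s = PowerSeries.coeff s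
    (PowerSeries.mk (fun l => if l < N then T (C.a l) else 0) * PowerSeries.mk C.RG' -
      PowerSeries.mk (fun l => if l < N then T (C.a' l) else 0) * PowerSeries.mk C.RG) := by
  rw [map_sub, cb12_coeff, cb12_coeff, ← Finset.sum_sub_distrib, FF]
  refine Finset.sum_congr rfl fun l _ => ?_
  by_cases h : l < N
  · simp only [h, if_true]
  · simp only [h, if_false, zero_mul, sub_zero]

theorem conv_id (hC : C.Ok) (N : ℕ) {s : ℕ} (hs : s ≤ C.h) :
    ∑ i ∈ Finset.range (s + 1), C.RG i * C.EE N (s - i) =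
    ∑ i ∈ Finset.range (s + 1), C.RH i * C.FF N (s - i) := by
  set A : PowerSeries (LaurentPolynomial ℤ) :=
    PowerSeries.mk (fun l => if l < N then T (C.a l) else 0) with hA
  set A' : PowerSeries (LaurentPolynomial ℤ) :=
    PowerSeries.mk (fun l => if l < N then T (C.a' l) else 0) with hA'
  have e1 : PowerSeries.mk (C.EE N) = A * PowerSeries.mk C.RK - A' * PowerSeries.mk C.RH := by
    ext1 n
    rw [PowerSeries.coeff_mk, cb12_EE]
  have e2 : PowerSeries.mk (C.FF N) = A * PowerSeries.mk C.RG' - A' * PowerSeries.mk C.RG := by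
    ext1 n
    rw [PowerSeries.coeff_mk, cb12_FF]
  rw [← cb12_coeff, ← cb12_coeff, e1, e2, ← sub_eq_zero, ← map_sub]
  have e3 : PowerSeries.mk C.RG * (A * PowerSeries.mk C.RK - A' * PowerSeries.mk C.RH) -
      PowerSeries.mk C.RH * (A * PowerSeries.mk C.RG' - A' * PowerSeries.mk C.RG) =
      A * (PowerSeries.mk C.RK * PowerSeries.mk C.RG - PowerSeries.mk C.RH * PowerSeries.mk C.RG') := by
    ring
  rw [e3, PowerSeries.coeff_mul]
  refine Finset.sum_eq_zero fun p hp => ?_
  have hp' : p.1 + p.2 = s := Finset.HasAntidiagonal.mem_antidiagonal.1 hp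
  rw [map_sub, cb12_coeff, cb12_coeff, hC.ident p.2 (by omega), sub_self, mul_zero]

theorem eq_of_van (hC : C.Ok) {N s : ℕ} (hs : s ≤ C.h) (hv : C.Van N s) :
    br C.M * C.EE N s = br C.L * C.FF N s := by
  have h := conv_id hC N hs
  rw [Finset.sum_range_succ', Finset.sum_range_succ'] at h
  rw [Finset.sum_eq_zero, Finset.sum_eq_zero, zero_add, zero_add, Nat.sub_zero, RG_zero hC,
    RH_zero hC] at h
  · exact h
  · intro i hi
    rw [Finset.mem_range] at hi
    rw [(hv (s - (i + 1)) (by omega)).2, mul_zero]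
  · intro i hi
    rw [Finset.mem_range] at hi
    rw [(hv (s - (i + 1)) (by omega)).1, mul_zero]

end Cd

end Pool.Agent.Lib.MP_bb0bab_co
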