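import Pool.Agent.Lib.MP_bb0bab_co.CB12

/-!
# CB13 evaluation of `EE`, `FF`

Rows: `TL j` gives `RK j = T (tau j) * RH j`, `RG' j = T (tau j) * RG j`; `Copy e j` gives `RH (e+j) = T (a j) * RH e`, `RK (e+j) = T (a' j) * RH e`,
`RG (e+j) = T (a j) * RG e`, `RG' (e+j) = T (a' j) * RG e` (CB01 `T_mul_rowPoly`).  `Full j`, `TL j`: `RH j = T (a j) * br L`, .. i.e. `Copy 0 j`.
-/

namespace Pool.Agent.Lib.MP_bb0bab_co

open LaurentPolynomial

/-- the generic cut sum: `X` and `Y` are `RK`, `RH` or `RG'`, `RG`. -/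
noncomputable def cb13G (a a' : ℕ → ℤ) (X Y : ℕ → LaurentPolynomial ℤ) (N s : ℕ) :
    LaurentPolynomial ℤ :=
  ∑ l ∈ Finset.range (s + 1), if l < N then T (a l) * X (s - l) - T (a' l) * Y (s - l) else 0

theorem cb13_anti {R : Type*} [CommRing R] (f g : ℕ → R) (n : ℕ) :
    ∑ l ∈ Finset.range n, (f l * g (n - 1 - l) - g l * f (n - 1 - l)) = 0 := by
  rw [Finset.sum_sub_distrib, sub_eq_zero]
  rw [← Finset.sum_range_reflect]
  refine Finset.sum_congr rfl fun l hl => ?_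
  rw [Finset.mem_range] at hl
  have h : n - 1 - (n - 1 - l) = l := by omega
  rw [h, mul_comm]

section
variable {a a' : ℕ → ℤ} {X Y : ℕ → LaurentPolynomial ℤ} {N e i : ℕ}

/-- reduction to the sum over `l < N` -/
theorem cb13_cut (s : ℕ) (h : N ≤ s + 1) :
    cb13G a a' X Y N s = ∑ l ∈ Finset.range N, (T (a l) * X (s - l) - T (a' l) * Y (s - l)) := by
  rw [cb13G, ← Finset.sum_filter]
  refine Finset.sum_congr ?_ fun _ _ => rfl
  ext l
  rw [Finset.mem_filter, Finset.mem_range, Finset.mem_range]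
  constructor
  · exact fun h => h.2
  · exact fun h' => ⟨by omega, h'⟩

/-- the terms `i < l < N` -/
theorem cb13_tail (hi : i < N) (he : N ≤ e) {V : LaurentPolynomial ℤ}
    (hV : ∀ j < N, Y (e - N + j) = T (a j) * V ∧ X (e - N + j) = T (a' j) * V) :
    ∑ k ∈ Finset.range (N - (i + 1)), (T (a (i + 1 + k)) * X (e + i - (i + 1 + k)) -
      T (a' (i + 1 + k)) * Y (e + i - (i + 1 + k))) = 0 := by
  have h := cb13_anti (fun k => (T (a (i + 1 + k)) : LaurentPolynomial ℤ))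
    (fun k => T (a' (i + 1 + k))) (N - (i + 1))
  have h2 : ∑ k ∈ Finset.range (N - (i + 1)), (T (a (i + 1 + k)) * X (e + i - (i + 1 + k)) -
      T (a' (i + 1 + k)) * Y (e + i - (i + 1 + k))) =
      (∑ k ∈ Finset.range (N - (i + 1)), ((T (a (i + 1 + k)) : LaurentPolynomial ℤ) *
        T (a' (i + 1 + (N - (i + 1) - 1 - k))) - T (a' (i + 1 + k)) *
          T (a (i + 1 + (N - (i + 1) - 1 - k))))) * V := by
    rw [Finset.sum_mul]
    refine Finset.sum_congr rfl fun k hk => ?_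
    rw [Finset.mem_range] at hk
    have h3 : e + i - (i + 1 + k) = e - N + (i + 1 + (N - (i + 1) - 1 - k)) := by omega
    obtain ⟨h4, h5⟩ := hV (i + 1 + (N - (i + 1) - 1 - k)) (by omega)
    rw [h3, h4, h5]
    ring
  rw [h2, h, zero_mul]

theorem cb13_split (hi : i < N) (he : N ≤ e) {V : LaurentPolynomial ℤ}
    (h0 : a 0 = 0) (h0' : a' 0 = 0)
    (hV : ∀ j < N, Y (e - N + j) = T (a j) * V ∧ X (e - N + j) = T (a' j) * V) :
    cb13G a a' X Y N (e + i) = X (e + i) - Y (e + i) +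
      ∑ l ∈ Finset.range i, (T (a (l + 1)) * X (e + (i - 1 - l)) - T (a' (l + 1)) * Y (e + (i - 1 - l))) := by
  have h1 : N = (i + 1) + (N - (i + 1)) := by omega
  rw [cb13_cut (e + i) (by omega)]
  conv_lhs => rw [h1]
  rw [Finset.sum_range_add, cb13_tail hi he hV, add_zero, Finset.sum_range_succ', h0, h0',
    Nat.sub_zero, T_zero, one_mul, one_mul, add_comm]
  congr 1
  refine Finset.sum_congr rfl fun l hl => ?_
  rw [Finset.mem_range] at hl
  have h3 : e + i - (l + 1) = e + (i - 1 - l) := by omega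
  rw [h3]

theorem cb13_copy (hi : i < N) (he : N ≤ e) {V W : LaurentPolynomial ℤ}
    (h0 : a 0 = 0) (h0' : a' 0 = 0)
    (hV : ∀ j < N, Y (e - N + j) = T (a j) * V ∧ X (e - N + j) = T (a' j) * V)
    (hW : ∀ j < i, Y (e + j) = T (a j) * W ∧ X (e + j) = T (a' j) * W) :
    cb13G a a' X Y N (e + i) = X (e + i) - Y (e + i) - (T (a' i) - T (a i)) * W := by
  rw [cb13_split hi he h0 h0' hV]
  have h := cb13_anti (fun k => (T (a k) : LaurentPolynomial ℤ)) (fun k => T (a' k)) (i + 1)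
  rw [Finset.sum_range_succ'] at h
  simp only [Nat.add_sub_cancel, Nat.sub_zero, h0, h0', T_zero, one_mul] at h
  have h2 : ∑ l ∈ Finset.range i, (T (a (l + 1)) * X (e + (i - 1 - l)) -
      T (a' (l + 1)) * Y (e + (i - 1 - l))) =
      (∑ l ∈ Finset.range i, ((T (a (l + 1)) : LaurentPolynomial ℤ) * T (a' (i - (l + 1))) -
        T (a' (l + 1)) * T (a (i - (l + 1))))) * W := by
    rw [Finset.sum_mul]
    refine Finset.sum_congr rfl fun l hl => ?_
    rw [Finset.mem_range] at hl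
    have h3 : i - 1 - l = i - (l + 1) := by omega
    obtain ⟨h4, h5⟩ := hW (i - (l + 1)) (by omega)
    rw [h3, h4, h5]
    ring
  rw [h2, eq_neg_of_add_eq_zero_left h]
  ring

theorem cb13_T0 {m : ℕ} (hi : i < N) (he : N ≤ e) {V : LaurentPolynomial ℤ}
    (h0 : a 0 = 0) (h0' : a' 0 = 0)
    (hV : ∀ j < N, Y (e - N + j) = T (a j) * V ∧ X (e - N + j) = T (a' j) * V)
    (him : i ≤ m) (hlow : ∀ j < m, a' j = a j)
    (hW : ∀ j < i, X (e + j) = Y (e + j)) :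
    cb13G a a' X Y N (e + i) = X (e + i) - Y (e + i) - (T (a' i) - T (a i)) * Y e := by
  rw [cb13_split hi he h0 h0' hV]
  rcases Nat.eq_zero_or_pos i with h1 | h1
  · subst h1
    rw [h0, h0', Finset.sum_range_zero]
    ring
  · obtain ⟨k, rfl⟩ : ∃ k, i = k + 1 := ⟨i - 1, by omega⟩
    rw [Finset.sum_range_succ, Finset.sum_eq_zero, zero_add]
    · have h2 : k + 1 - 1 - k = 0 := by omega
      have h3 := hW 0 (by omega)
      rw [add_zero] at h3
      rw [h2, add_zero, h3]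
      ring
    · intro l hl
      rw [Finset.mem_range] at hl
      rw [hlow (l + 1) (by omega), hW (k + 1 - 1 - l) (by omega), sub_self]

theorem cb13_full {s : ℕ} {W : LaurentPolynomial ℤ} (hsN : s < N)
    (hW : ∀ j ≤ s, Y j = T (a j) * W ∧ X j = T (a' j) * W) : cb13G a a' X Y N s = 0 := by
  have h := cb13_anti (fun k => (T (a k) : LaurentPolynomial ℤ)) (fun k => T (a' k)) (s + 1)
  simp only [Nat.add_sub_cancel] at h
  rw [cb13G]
  have h2 : ∑ l ∈ Finset.range (s + 1), (if l < N then T (a l) * X (s - l) - T (a' l) * Y (s - l) else 0) =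
      (∑ l ∈ Finset.range (s + 1), ((T (a l) : LaurentPolynomial ℤ) * T (a' (s - l)) -
        T (a' l) * T (a (s - l)))) * W := by
    rw [Finset.sum_mul]
    refine Finset.sum_congr rfl fun l hl => ?_
    rw [Finset.mem_range] at hl
    obtain ⟨h4, h5⟩ := hW (s - l) (by omega)
    rw [if_pos (by omega), h4, h5]
    ring
  rw [h2, h, zero_mul]

theorem cb13_top {s : ℕ} {W : LaurentPolynomial ℤ} (hs : 0 < s)
    (h0 : a 0 = 0) (h0' : a' 0 = 0)
    (hW : ∀ j < s, Y j = T (a j) * W ∧ X j = T (a' j) * W) :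
    cb13G a a' X Y s s = X s - Y s := by
  obtain ⟨k, rfl⟩ : ∃ k, s = k + 1 := ⟨s - 1, by omega⟩
  rw [cb13_cut (k + 1) (by omega), Finset.sum_range_succ', h0, h0', T_zero, one_mul, one_mul,
    Nat.sub_zero]
  have h := cb13_anti (fun j => (T (a (j + 1)) : LaurentPolynomial ℤ)) (fun j => T (a' (j + 1))) k
  have h2 : ∑ l ∈ Finset.range k, (T (a (l + 1)) * X (k + 1 - (l + 1)) -
      T (a' (l + 1)) * Y (k + 1 - (l + 1))) =
      (∑ l ∈ Finset.range k, ((T (a (l + 1)) : LaurentPolynomial ℤ) * T (a' (k - 1 - l + 1)) -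
        T (a' (l + 1)) * T (a (k - 1 - l + 1)))) * W := by
    rw [Finset.sum_mul]
    refine Finset.sum_congr rfl fun l hl => ?_
    rw [Finset.mem_range] at hl
    have h3 : k + 1 - (l + 1) = k - 1 - l + 1 := by omega
    obtain ⟨h4, h5⟩ := hW (k - 1 - l + 1) (by omega)
    rw [h3, h4, h5]
    ring
  rw [h2, h, zero_mul, zero_add]

end

namespace Cd

variable {C : Cd}

theorem cb13_EE (N s : ℕ) : C.EE N s = cb13G C.a C.a' C.RK C.RH N s := rfl

theorem cb13_FF (N s : ℕ) : C.FF N s = cb13G C.a C.a' C.RG' C.RG N s := rfl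

theorem copy_zero (hC : C.Ok) {j : ℕ} (hf : C.Full j) (ht : C.TL j) : C.Copy 0 j := by
  obtain ⟨z1, z2, z3, z4, -⟩ := hC.zero
  obtain ⟨f1, f2, f3⟩ := hf
  rw [Copy, z1, z2, z3, z4, Nat.zero_add]
  rcases ht with ⟨t1, t2, t3, t4⟩ | ⟨t1, t2, t3, t4⟩
  · refine ⟨?_, ?_, ?_, ?_, ?_, ?_, ?_, ?_⟩ <;> omega
  · refine ⟨?_, ?_, ?_, ?_, ?_, ?_, ?_, ?_⟩ <;> omega

theorem copy_rows {e j : ℕ} (h : C.Copy e j) :
    C.RH (e + j) = T (C.a j) * C.RH e ∧ C.RK (e + j) = T (C.a' j) * C.RH e ∧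
    C.RG (e + j) = T (C.a j) * C.RG e ∧ C.RG' (e + j) = T (C.a' j) * C.RG e := by
  obtain ⟨h1, h2, h3, h4, h5, h6, h7, h8⟩ := h
  refine ⟨?_, ?_, ?_, ?_⟩
  · rw [RH, RH, T_mul_rowPoly, h1, h2]
    congr 1 <;> ring
  · rw [RK, RH, T_mul_rowPoly, h5, h6]
    congr 1 <;> ring
  · rw [RG, RG, T_mul_rowPoly, h3, h4]
    congr 1 <;> ring
  · rw [RG', RG, T_mul_rowPoly, h7, h8]
    congr 1 <;> ring

/-- the type of a copy -/
theorem copy_type {e j : ℕ} (h : C.Copy e j) (ht : C.TL j) :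
    C.TL (e + j) ∧ C.tau (e + j) = C.tau j := by
  obtain ⟨h1, h2, h3, h4, h5, h6, h7, h8⟩ := h
  refine ⟨?_, ?_⟩
  · rcases ht with ⟨t1, t2, t3, t4⟩ | ⟨t1, t2, t3, t4⟩
    · left
      refine ⟨?_, ?_, ?_, ?_⟩ <;> omega
    · right
      refine ⟨?_, ?_, ?_, ?_⟩ <;> omega
  · rw [tau, tau]
    omega

theorem EE_copy (hC : C.Ok) {N e i : ℕ} (hP : C.Pre N e) (hi : i < N) (hc : ∀ j < i, C.Copy e j) :
    C.EE N (e + i) = C.RK (e + i) - C.RH (e + i) - (T (C.a' i) - T (C.a i)) * C.RH e ∧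
    C.FF N (e + i) = C.RG' (e + i) - C.RG (e + i) - (T (C.a' i) - T (C.a i)) * C.RG e := by
  obtain ⟨z1, -, -, -, z5, -⟩ := hC.zero
  refine ⟨?_, ?_⟩
  · rw [cb13_EE]
    exact cb13_copy hi hP.le z1 z5
      (fun j hj => ⟨(copy_rows (hP.cop j hj)).1, (copy_rows (hP.cop j hj)).2.1⟩)
      (fun j hj => ⟨(copy_rows (hc j hj)).1, (copy_rows (hc j hj)).2.1⟩)
  · rw [cb13_FF]
    exact cb13_copy hi hP.le z1 z5
      (fun j hj => ⟨(copy_rows (hP.cop j hj)).2.2.1, (copy_rows (hP.cop j hj)).2.2.2⟩)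
      (fun j hj => ⟨(copy_rows (hc j hj)).2.2.1, (copy_rows (hc j hj)).2.2.2⟩)

theorem cb13_t0_rows {j : ℕ} (h : C.T0 j) : C.RK j = C.RH j ∧ C.RG' j = C.RG j := by
  obtain ⟨h1, h2, h3, h4⟩ := h
  exact ⟨by rw [RK, RH, h1, h2], by rw [RG', RG, h3, h4]⟩

theorem EE_T0 (hC : C.Ok) {N e i : ℕ} (hP : C.Pre N e) (hmN : C.m < N) (hi : i ≤ C.m)
    (hc : ∀ j < i, C.T0 (e + j)) :
    C.EE N (e + i) = C.RK (e + i) - C.RH (e + i) - (T (C.a' i) - T (C.a i)) * C.RH e ∧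
    C.FF N (e + i) = C.RG' (e + i) - C.RG (e + i) - (T (C.a' i) - T (C.a i)) * C.RG e := by
  obtain ⟨z1, -, -, -, z5, -⟩ := hC.zero
  have hlow : ∀ j < C.m, C.a' j = C.a j := fun j hj => (hC.low j hj).1
  refine ⟨?_, ?_⟩
  · rw [cb13_EE]
    exact cb13_T0 (by omega) hP.le z1 z5
      (fun j hj => ⟨(copy_rows (hP.cop j hj)).1, (copy_rows (hP.cop j hj)).2.1⟩) hi hlow
      (fun j hj => (cb13_t0_rows (hc j hj)).1)
  · rw [cb13_FF]
    exact cb13_T0 (by omega) hP.le z1 z5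
      (fun j hj => ⟨(copy_rows (hP.cop j hj)).2.2.1, (copy_rows (hP.cop j hj)).2.2.2⟩) hi hlow
      (fun j hj => (cb13_t0_rows (hc j hj)).2)

theorem van_copy (hC : C.Ok) {N e i : ℕ} (hP : C.Pre N e) (hi : i < N) (hc : ∀ j ≤ i, C.Copy e j) :
    C.EE N (e + i) = 0 ∧ C.FF N (e + i) = 0 := by
  obtain ⟨h1, h2⟩ := EE_copy hC hP hi (fun j hj => hc j hj.le)
  obtain ⟨r1, r2, r3, r4⟩ := copy_rows (hc i le_rfl)
  rw [h1, h2, r1, r2, r3, r4]
  constructor <;> ring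

theorem van_T0 (hC : C.Ok) {N e i : ℕ} (hP : C.Pre N e) (hmN : C.m < N) (hi : i < C.m)
    (hc : ∀ j ≤ i, C.T0 (e + j)) : C.EE N (e + i) = 0 ∧ C.FF N (e + i) = 0 := by
  obtain ⟨h1, h2⟩ := EE_T0 hC hP hmN hi.le (fun j hj => hc j hj.le)
  obtain ⟨r1, r2⟩ := cb13_t0_rows (hc i le_rfl)
  rw [h1, h2, r1, r2, (hC.low i hi).1]
  constructor <;> ring

theorem cb13_rows_zero (hC : C.Ok) {j : ℕ} (h : C.Full j ∧ C.TL j) :
    C.RH j = T (C.a j) * C.RH 0 ∧ C.RK j = T (C.a' j) * C.RH 0 ∧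
    C.RG j = T (C.a j) * C.RG 0 ∧ C.RG' j = T (C.a' j) * C.RG 0 := by
  have h1 := copy_rows (copy_zero hC h.1 h.2)
  rw [Nat.zero_add] at h1
  exact h1

theorem van_of_full (hC : C.Ok) {N s : ℕ} (hs : s ≤ N) (hf : ∀ j < s, C.Full j ∧ C.TL j) :
    C.Van N s := by
  intro j hj
  refine ⟨?_, ?_⟩
  · rw [cb13_EE]
    refine cb13_full (W := C.RH 0) (by omega) fun k hk => ?_
    obtain ⟨h1, h2, h3, h4⟩ := cb13_rows_zero hC (hf k (by omega))
    exact ⟨h1, h2⟩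
  · rw [cb13_FF]
    refine cb13_full (W := C.RG 0) (by omega) fun k hk => ?_
    obtain ⟨h1, h2, h3, h4⟩ := cb13_rows_zero hC (hf k (by omega))
    exact ⟨h3, h4⟩

theorem Z_of_full (hC : C.Ok) {s : ℕ} (hs : s ≤ C.h) (hf : ∀ j < s, C.Full j ∧ C.TL j) : C.Z s := by
  obtain ⟨z1, z2, z3, z4, z5, z6, z7, z8⟩ := hC.zero
  rcases Nat.eq_zero_or_pos s with h0 | h0
  · subst h0
    rw [Z, RK, RH, RG', RG, z1, z2, z3, z4, z5, z6, z7, z8, sub_self, sub_self, mul_zero, mul_zero]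
  · have h := eq_of_van hC hs (van_of_full hC le_rfl hf)
    have e1 : C.EE s s = C.RK s - C.RH s := by
      rw [cb13_EE]
      refine cb13_top (W := C.RH 0) h0 z1 z5 fun k hk => ?_
      obtain ⟨h1, h2, h3, h4⟩ := cb13_rows_zero hC (hf k (by omega))
      exact ⟨h1, h2⟩
    have e2 : C.FF s s = C.RG' s - C.RG s := by
      rw [cb13_FF]
      refine cb13_top (W := C.RG 0) h0 z1 z5 fun k hk => ?_
      obtain ⟨h1, h2, h3, h4⟩ := cb13_rows_zero hC (hf k (by omega))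
      exact ⟨h3, h4⟩
    rw [e1, e2] at h
    exact h

theorem pre_event (hC : C.Ok) {N : ℕ} (hE : C.Ev N) : C.Pre N N := by
  refine ⟨le_rfl, fun j hj => ?_, ?_⟩
  · rw [Nat.sub_self]
    exact copy_zero hC (hE.full j hj) (hE.tl j hj)
  · exact van_of_full hC le_rfl (fun j hj => ⟨hE.full j hj, hE.tl j hj⟩)

end Cd

end Pool.Agent.Lib.MP_bb0bab_co
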