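import Pool.Agent.Lib.MP_bb0bab_co.CB12

/-!
# CB14 the equation for `N < m` (remark R1 of helper17)

PROOF. Cut 1: `EE 1 s = RK s - RH s =: D s`, `FF 1 s = RG' s - RG s =: D' s` (only `l = 0`, `T 0 = 1`).  `conv_id` with `N := 1`: `∑_{i ≤ s} RG i D (s-i) = ∑_{i ≤ s} RH i D' (s-i)`.
`D j = D' j = 0` for `j < m` (`Ok.low`).  Rows `i < N` are full: `RG i = T (a i) br M`, `RH i = T (a i) br L`.
`Z_after` by strong induction on `s`, `m ≤ s < m+N`: the terms `1 ≤ i ≤ s - m < N` are `T (a i) (br M D(s-i)) = T (a i) (br L D'(s-i))` by induction; terms `i > s-m` vanish; so `br M D s = br L D' s`.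
`F_after`, `s = m+N`: additionally `i = N`: `RG N * D m` against `RH N * D' m`, where row `m` has the values `q` and `q+1`: `D m = (T 1 - 1) T q br L`, `D' m = (T 1 - 1) T q br M`.  Rearranged this is `F q N (N+m)`.
-/

namespace Pool.Agent.Lib.MP_bb0bab_co

open LaurentPolynomial

namespace Cd

variable {C : Cd}

theorem cb14_EE_one (hC : C.Ok) (s : ℕ) : C.EE 1 s = C.RK s - C.RH s := by
  unfold EE
  rw [Finset.sum_range_succ', Finset.sum_eq_zero]
  · simp [hC.zero]
  · intro i _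
    simp

theorem cb14_FF_one (hC : C.Ok) (s : ℕ) : C.FF 1 s = C.RG' s - C.RG s := by
  unfold FF
  rw [Finset.sum_range_succ', Finset.sum_eq_zero]
  · simp [hC.zero]
  · intro i _
    simp

theorem cb14_conv (hC : C.Ok) {s : ℕ} (hs : s ≤ C.h) :
    ∑ i ∈ Finset.range (s + 1), C.RG i * (C.RK (s - i) - C.RH (s - i)) =
    ∑ i ∈ Finset.range (s + 1), C.RH i * (C.RG' (s - i) - C.RG (s - i)) := by
  have h := conv_id hC 1 hs
  simpa only [cb14_EE_one hC, cb14_FF_one hC] using h

theorem cb14_low (hC : C.Ok) {j : ℕ} (hj : j < C.m) :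
    C.RK j - C.RH j = 0 ∧ C.RG' j - C.RG j = 0 := by
  obtain ⟨h1, h2, h3, h4⟩ := hC.low j hj
  unfold RK RH RG' RG
  rw [h1, h2, h3, h4]
  exact ⟨sub_self _, sub_self _⟩

theorem cb14_full {i : ℕ} (hi : C.Full i) :
    C.RG i = T (C.a i) * br C.M ∧ C.RH i = T (C.a i) * br C.L := by
  obtain ⟨h1, h2, h3⟩ := hi
  unfold RG RH
  rw [h1, h2, h3]
  exact ⟨rowPoly_len _ _, rowPoly_len _ _⟩

/-- the part of the convolution with `i ≥ 1`, away from `N` -/
theorem cb14_term (hC : C.Ok) {N : ℕ} (hE : C.Ev N) {s i : ℕ} (hi : i < N)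
    (hZ : C.m ≤ s - i → C.Z (s - i)) :
    C.RG i * (C.RK (s - i) - C.RH (s - i)) = C.RH i * (C.RG' (s - i) - C.RG (s - i)) := by
  rcases lt_or_ge (s - i) C.m with h | h
  · rw [(cb14_low hC h).1, (cb14_low hC h).2, mul_zero, mul_zero]
  · have hz : br C.M * (C.RK (s - i) - C.RH (s - i)) = br C.L * (C.RG' (s - i) - C.RG (s - i)) :=
      hZ h
    rw [(cb14_full (hE.full i hi)).1, (cb14_full (hE.full i hi)).2, mul_assoc, mul_assoc, hz]

theorem Z_after (hC : C.Ok) {N : ℕ} (hE : C.Ev N) (hNm : N < C.m) {s : ℕ} (h1 : C.m ≤ s)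
    (h2 : s < C.m + N) : C.Z s := by
  induction s using Nat.strong_induction_on with
  | _ s ih =>
    have hmh := hC.hmh
    have hs : s ≤ C.h := by omega
    have h := cb14_conv hC hs
    rw [Finset.sum_range_succ', Finset.sum_range_succ' (fun i => C.RH i * _)] at h
    have h3 : ∑ i ∈ Finset.range s, C.RG (i + 1) * (C.RK (s - (i + 1)) - C.RH (s - (i + 1))) =
        ∑ i ∈ Finset.range s, C.RH (i + 1) * (C.RG' (s - (i + 1)) - C.RG (s - (i + 1))) := by
      refine Finset.sum_congr rfl fun i hi => ?_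
      rw [Finset.mem_range] at hi
      rcases lt_or_ge (i + 1) N with hN | hN
      · exact cb14_term hC hE hN fun hm => ih _ (by omega) hm (by omega)
      · have hlt : s - (i + 1) < C.m := by omega
        rw [(cb14_low hC hlt).1, (cb14_low hC hlt).2, mul_zero, mul_zero]
    rw [h3] at h
    have h4 := add_left_cancel h
    rw [RG_zero hC, RH_zero hC] at h4
    exact h4

theorem F_after (hC : C.Ok) {N : ℕ} (hE : C.Ev N) (hNm : N < C.m) : C.F C.q N (N + C.m) := by
  have hmh := hC.hmh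
  have hN1 := hE.pos
  have hs : N + C.m ≤ C.h := by omega
  have h := cb14_conv hC hs
  rw [Finset.sum_range_succ', Finset.sum_range_succ' (fun i => C.RH i * _)] at h
  have hD : C.RK C.m - C.RH C.m = (T 1 - 1) * (T C.q * br C.L) := by
    unfold RK RH
    rw [hC.am, hC.bm, hC.am', hC.bm', rowPoly_len, rowPoly_len, T_add]
    ring
  have hD' : C.RG' C.m - C.RG C.m = (T 1 - 1) * (T C.q * br C.M) := by
    unfold RG RG'
    rw [hC.cm, hC.dm, hC.cm', hC.dm', rowPoly_len, rowPoly_len, T_add]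
    ring
  have h3 : ∑ i ∈ Finset.range (N + C.m), C.RG (i + 1) *
        (C.RK (N + C.m - (i + 1)) - C.RH (N + C.m - (i + 1))) -
      ∑ i ∈ Finset.range (N + C.m), C.RH (i + 1) *
        (C.RG' (N + C.m - (i + 1)) - C.RG (N + C.m - (i + 1))) =
      C.RG N * (C.RK C.m - C.RH C.m) - C.RH N * (C.RG' C.m - C.RG C.m) := by
    rw [← Finset.sum_sub_distrib, Finset.sum_eq_single_of_mem (N - 1)]
    · have e1 : N - 1 + 1 = N := by omega
      have e2 : N + C.m - N = C.m := by omega
      rw [e1, e2]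
    · rw [Finset.mem_range]; omega
    · intro i hi hne
      rw [Finset.mem_range] at hi
      rw [sub_eq_zero]
      rcases lt_or_ge (i + 1) N with hN | hN
      · exact cb14_term hC hE hN fun hm => Z_after hC hE hNm hm (by omega)
      · have hlt : N + C.m - (i + 1) < C.m := by omega
        rw [(cb14_low hC hlt).1, (cb14_low hC hlt).2, mul_zero, mul_zero]
  rw [hD, hD'] at h3
  rw [RG_zero hC, RH_zero hC, Nat.sub_zero] at h
  unfold F
  linear_combination h - h3

end Cd

end Pool.Agent.Lib.MP_bb0bab_co
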