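import Pool.Agent.Lib.MP_bb0bab_co.CB08

/-!
# CB30 lengths without types (all M)

PROOF. `len_P`: `P i = bK i - aH i` concave, `P 0 = 0`, `P (h-m) = Phi m - (L-M) ≥ 1-(L-M)`, so `P i ≥ 1-(L-M)` on `[0,h-m]`; `bK i < b' i + 1`, `aH i > a i - 1`: `b' i + 1 > a i - 1 + 1 - (L-M)`.
`len_R`: `bH i - aK i = Psi (h-i) - (L-M) > -(L-M)` for `i < h` (`Psi_pos`): `b i + 1 > bH i > aK i - (L-M) > a' i - 1 - (L-M)`.  `mu_Psi`: `d j + 1 > rK j > lH j > c' j - 1`.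
`nn_H`: `abH`: `a i < aH i + 1 ≤ bH i + L < b i + 1 + L`.  `nn_G`, `nn_G'`: reflections (CB07).
-/

namespace Pool.Agent.Lib.MP_bb0bab_co

open LaurentPolynomial

namespace Cd.Ok

variable {C : Cd} (hC : C.Ok)

include hC

theorem len_P {i : ℕ} (hi : i + C.m ≤ C.h) : C.a i + C.M ≤ C.b' i + C.L := by
  have hP : ConcN C.h (fun i => C.bK i - C.aH i) := hC.bKconc.sub hC.aHconv
  have h2 : (1 : ℝ) - ((C.L : ℝ) - C.M) ≤ C.bK (C.h - C.m) - C.aH (C.h - C.m) := by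
    have h3 := hC.cb08_Phi_m
    unfold Cd.lK Cd.rH at h3
    rw [cb08_xr] at h3
    linarith
  have h3 := hP.min (Nat.zero_le i) (by omega : i ≤ C.h - C.m) (Nat.sub_le _ _)
    (r := 1 - ((C.L : ℝ) - C.M))
    (by
      show (1 : ℝ) - ((C.L : ℝ) - C.M) ≤ C.bK 0 - C.aH 0
      rw [hC.bK0, hC.aH0]
      linarith [hC.cb08_LM]) h2
  have h4 : C.bK i < ((C.b' i : ℤ) : ℝ) + 1 := Int.lt_floor_add_one _
  have h5 : ((C.a i : ℤ) : ℝ) < C.aH i + 1 := Int.ceil_lt_add_one _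
  have h3' : (1 : ℝ) - ((C.L : ℝ) - C.M) ≤ C.bK i - C.aH i := h3
  have h6 : ((C.a i : ℤ) : ℝ) + (C.M : ℤ) < ((C.b' i : ℤ) : ℝ) + (C.L : ℤ) + 1 := by
    push_cast
    linarith
  have h7 : C.a i + (C.M : ℤ) < C.b' i + C.L + 1 := by exact_mod_cast h6
  omega

theorem len_R {i : ℕ} (hi : i < C.h) : C.a' i + C.M ≤ C.b i + C.L + 1 := by
  have h2 := hC.Psi_pos (j := C.h - i) (by omega) (Nat.sub_le _ _)
  unfold Cd.lH Cd.rK at h2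
  rw [Nat.sub_sub_self hi.le, cb08_xr] at h2
  have h4 : C.bH i < ((C.b i : ℤ) : ℝ) + 1 := Int.lt_floor_add_one _
  have h5 : ((C.a' i : ℤ) : ℝ) < C.aK i + 1 := Int.ceil_lt_add_one _
  have h6 : ((C.a' i : ℤ) : ℝ) + (C.M : ℤ) < ((C.b i : ℤ) : ℝ) + (C.L : ℤ) + 2 := by
    push_cast
    linarith
  have h7 : C.a' i + (C.M : ℤ) < C.b i + C.L + 2 := by exact_mod_cast h6
  omega

theorem mu_Psi {j : ℕ} (h0 : 0 < j) (hj : j ≤ C.h) : C.c' j ≤ C.d j + 1 := by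
  have h2 := hC.Psi_pos h0 hj
  have h4 : C.rK j < ((C.d j : ℤ) : ℝ) + 1 := Int.lt_floor_add_one _
  have h5 : ((C.c' j : ℤ) : ℝ) < C.lH j + 1 := Int.ceil_lt_add_one _
  have h6 : ((C.c' j : ℤ) : ℝ) < ((C.d j : ℤ) : ℝ) + 2 := by linarith
  have h7 : C.c' j < C.d j + 2 := by exact_mod_cast h6
  omega

theorem nn_H {i : ℕ} (hi : i ≤ C.h) : C.a i ≤ C.b i + C.L := by
  have h2 := hC.abH i hi
  have h4 : C.bH i < ((C.b i : ℤ) : ℝ) + 1 := Int.lt_floor_add_one _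
  have h5 : ((C.a i : ℤ) : ℝ) < C.aH i + 1 := Int.ceil_lt_add_one _
  have h6 : ((C.a i : ℤ) : ℝ) < ((C.b i : ℤ) : ℝ) + (C.L : ℤ) + 1 := by
    push_cast
    linarith
  have h7 : C.a i < C.b i + C.L + 1 := by exact_mod_cast h6
  omega

theorem nn_K {i : ℕ} (hi : i ≤ C.h) : C.a' i ≤ C.b' i + C.L := by
  have h2 := hC.abK i hi
  have h4 : C.bK i < ((C.b' i : ℤ) : ℝ) + 1 := Int.lt_floor_add_one _
  have h5 : ((C.a' i : ℤ) : ℝ) < C.aK i + 1 := Int.ceil_lt_add_one _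
  have h6 : ((C.a' i : ℤ) : ℝ) < ((C.b' i : ℤ) : ℝ) + (C.L : ℤ) + 1 := by
    push_cast
    linarith
  have h7 : C.a' i < C.b' i + C.L + 1 := by exact_mod_cast h6
  omega

theorem nn_G {i : ℕ} (hi : i ≤ C.h) : C.c i ≤ C.d i + C.M := by
  have h := hC.nn_K (Nat.sub_le C.h i)
  rw [c_eq, d_eq]
  have e : C.xr = C.x - ((C.L : ℤ) - C.M) := rfl
  rw [e]
  omega

theorem nn_G' {i : ℕ} (hi : i ≤ C.h) : C.c' i ≤ C.d' i + C.M := by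
  have h := hC.nn_H (Nat.sub_le C.h i)
  rw [c'_eq, d'_eq]
  have e : C.xr = C.x - ((C.L : ℤ) - C.M) := rfl
  rw [e]
  omega

end Cd.Ok

end Pool.Agent.Lib.MP_bb0bab_co
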