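import Pool.Agent.Lib.MP_bb0bab_co.CB02
import Pool.Agent.Lib.MP_bb0bab_co.CB09
import Pool.Agent.Lib.MP_bb0bab_co.CB30

/-!
# CB15 Lemma Z: a free row above a T-like row is of type 0, or full of type 1
-/

namespace Pool.Agent.Lib.MP_bb0bab_co

open LaurentPolynomial

namespace Cd

variable {C : Cd}

theorem cb15_d {x x' y y' t : ℤ} (h : y = x ∨ y = x + 1) (h' : y' = x' ∨ y' = x' + 1)
    (e : x' = x + t) : t - 1 ≤ y' - y ∧ y' - y ≤ t + 1 := by omega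

theorem lemZ_top (hC : C.Ok) {s : ℕ} (hs : s ≤ C.h) (h : C.h < s + C.m) : C.T0 s := by
  obtain ⟨h1, h2, h3, h4⟩ := hC.low (C.h - s) (by omega)
  have e : C.h - (C.h - s) = s := by omega
  have f1 := C.c_eq (C.h - s)
  have f2 := C.d_eq (C.h - s)
  have f3 := C.c'_eq (C.h - s)
  have f4 := C.d'_eq (C.h - s)
  rw [e] at f1 f2 f3 f4
  refine ⟨by linarith, by linarith, ?_, ?_⟩
  · rw [C.c'_eq s, C.c_eq s, h2]
  · rw [C.d'_eq s, C.d_eq s, h1]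

theorem lemZ (hC : C.Ok) {s : ℕ} (hm : C.m < s) (hs : s ≤ C.h)
    (ht : C.T0 (s - 1) ∨ (C.T1 (s - 1) ∧ 2 ≤ C.M)) (hZ : C.Z s) :
    C.T0 s ∨ (C.T1 s ∧ C.Full s) := by
  obtain ⟨i, rfl⟩ : ∃ i, s = i + 1 := ⟨s - 1, by omega⟩
  by_cases htop : C.h < i + 1 + C.m
  · exact Or.inl (lemZ_top hC hs htop)
  have htop' : i + 1 + C.m ≤ C.h := not_lt.1 htop
  have hm1 := hC.hm
  have hi : i < C.h := by omega
  have hi1 : i + 1 < C.h := by omega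
  rw [Nat.add_sub_cancel] at ht
  obtain ⟨t, ht01, e1, e2, e3, e4⟩ : ∃ t : ℤ, (t = 0 ∨ (t = 1 ∧ 2 ≤ C.M)) ∧ C.a' i = C.a i + t ∧
      C.b' i = C.b i + t ∧ C.c' i = C.c i + t ∧ C.d' i = C.d i + t := by
    rcases ht with ⟨h1, h2, h3, h4⟩ | ⟨⟨h1, h2, h3, h4⟩, hM⟩
    · exact ⟨0, Or.inl rfl, by linarith, by linarith, by linarith, by linarith⟩
    · exact ⟨1, Or.inr ⟨rfl, hM⟩, h1, h2, h3, h4⟩
  have n1 := hC.nn_H hs
  have n2 := hC.nn_K hs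
  have n3 := hC.nn_G hs
  have n4 := hC.nn_G' hs
  have hLM := hC.hLM
  have hM1 := hC.hM
  have hMz : (1 : ℤ) ≤ C.M := by exact_mod_cast hM1
  have q1 := hC.len_P htop'
  have q2 := hC.len_R hi1
  have q3 := hC.mu_Psi (Nat.succ_pos i) hs
  have q4 := hC.mu_T0 hm.le hs
  have u1 := cb15_d (hC.a_let hi) (hC.a'_let hi) e1
  have u2 := cb15_d (hC.b_let hi) (hC.b'_let hi) e2
  have v1 := cb15_d (hC.c_let hi) (hC.c'_let hi) e3
  have v2 := cb15_d (hC.d_let hi) (hC.d'_let hi) e4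
  have hl : C.b' (i + 1) - C.b (i + 1) = C.a' (i + 1) - C.a (i + 1) →
      C.a' (i + 1) ≠ C.a (i + 1) → 1 ≤ C.b (i + 1) + C.L - C.a (i + 1) := by
    intro g1 g2
    rcases ht01 with rfl | ⟨_, hM⟩
    · rcases lt_or_gt_of_ne g2 with g3 | g3
      · have g4 : C.a' (i + 1) = C.a (i + 1) - 1 := by omega
        linarith
      · have g4 : C.a' (i + 1) = C.a (i + 1) + 1 := by omega
        linarith
    · have := hC.ne_H hM hs
      linarith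
  have hmm : C.d' (i + 1) - C.d (i + 1) = C.c' (i + 1) - C.c (i + 1) →
      C.c' (i + 1) ≠ C.c (i + 1) → 1 ≤ C.d (i + 1) + C.M - C.c (i + 1) := by
    intro g1 g2
    rcases ht01 with rfl | ⟨_, hM⟩
    · rcases lt_or_gt_of_ne g2 with g3 | g3
      · have g4 : C.c' (i + 1) = C.c (i + 1) - 1 := by omega
        linarith
      · have g4 : C.c' (i + 1) = C.c (i + 1) + 1 := by omega
        linarith
    · have := hC.ne_G hM hs
      linarith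
  have key := z_alg (L := C.L) (M := C.M) hM1 hLM (a := C.a (i + 1)) (b := C.b (i + 1))
    (c := C.c (i + 1)) (d := C.d (i + 1)) (a' := C.a' (i + 1)) (b' := C.b' (i + 1))
    (c' := C.c' (i + 1)) (d' := C.d' (i + 1)) (t := t) ht01 (by linarith) (by linarith)
    (by linarith) (by linarith) hl hmm u1 u2 v1 v2 hZ
  have ca : ((C.a (i + 1) : ℤ) : ℝ) < C.aH (i + 1) + 1 := Int.ceil_lt_add_one _
  have ca' : ((C.a' (i + 1) : ℤ) : ℝ) < C.aK (i + 1) + 1 := Int.ceil_lt_add_one _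
  have cc : ((C.c (i + 1) : ℤ) : ℝ) < C.lK (i + 1) + 1 := Int.ceil_lt_add_one _
  have cc' : ((C.c' (i + 1) : ℤ) : ℝ) < C.lH (i + 1) + 1 := Int.ceil_lt_add_one _
  have fb : C.bH (i + 1) < ((C.b (i + 1) : ℤ) : ℝ) + 1 := Int.lt_floor_add_one _
  have fb' : C.bK (i + 1) < ((C.b' (i + 1) : ℤ) : ℝ) + 1 := Int.lt_floor_add_one _
  have fd : C.rK (i + 1) < ((C.d (i + 1) : ℤ) : ℝ) + 1 := Int.lt_floor_add_one _
  have fd' : C.rH (i + 1) < ((C.d' (i + 1) : ℤ) : ℝ) + 1 := Int.lt_floor_add_one _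
  have k1 := hC.k1_nn hs
  have hPhi := hC.Phi_ge hm.le hs
  have hPsi := hC.Psi_pos (Nat.succ_pos i) hs
  have k3 := hC.lK_le_bH hs
  have k4 := hC.lH_le_bK hs
  have k5 := hC.aH_le_rK hs
  have k6 := hC.aK_le_rH hs
  have hMr : (1 : ℝ) ≤ C.M := by exact_mod_cast hM1
  rcases key with h | ⟨hb, hc, hd, u, hu, h1, h2, h3, h4⟩ | ⟨hd, hc'⟩ | ⟨hL, ha', hb, h⟩ |
    ⟨hL, ha', hb, h⟩
  · exact Or.inl h
  · rcases hu with rfl | rfl | rfl
    · exfalso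
      have r1 : ((C.d' (i + 1) : ℤ) : ℝ) = ((C.a (i + 1) : ℤ) : ℝ) - 1 := by
        rw [h4]; push_cast; ring
      have r2 : ((C.c (i + 1) : ℤ) : ℝ) = ((C.a (i + 1) : ℤ) : ℝ) := by rw [hc]
      linarith
    · exact Or.inr ⟨⟨h1, by omega, by omega, by omega⟩, hb, hc, hd⟩
    · exfalso
      have r1 : ((C.a' (i + 1) : ℤ) : ℝ) = ((C.a (i + 1) : ℤ) : ℝ) + 2 := by
        rw [h1]; push_cast; ring
      have r2 : ((C.d (i + 1) : ℤ) : ℝ) = ((C.a (i + 1) : ℤ) : ℝ) := by rw [hd]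
      linarith
  · exfalso
    have r1 : ((C.d (i + 1) : ℤ) : ℝ) = ((C.c (i + 1) : ℤ) : ℝ) - 1 := by rw [hd]; push_cast; ring
    have r2 : ((C.c' (i + 1) : ℤ) : ℝ) = ((C.c (i + 1) : ℤ) : ℝ) + 2 := by rw [hc']; push_cast; ring
    linarith
  · exfalso
    have rL : (C.L : ℝ) = 2 * C.M := by exact_mod_cast hL
    have r1 : ((C.a' (i + 1) : ℤ) : ℝ) = ((C.a (i + 1) : ℤ) : ℝ) - 1 := by
      rw [ha']; push_cast; ring
    have r2 : ((C.b (i + 1) : ℤ) : ℝ) + C.L = ((C.a' (i + 1) : ℤ) : ℝ) + C.M := by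
      exact_mod_cast hb
    rcases h with ⟨h5, h6⟩ | ⟨h5, h6⟩
    · have r3 : ((C.c (i + 1) : ℤ) : ℝ) = ((C.a' (i + 1) : ℤ) : ℝ) + 1 := by
        rw [h6]; push_cast; ring
      linarith
    · have r3 : ((C.d (i + 1) : ℤ) : ℝ) + C.M = ((C.a' (i + 1) : ℤ) : ℝ) := by
        exact_mod_cast h6
      linarith
  · exfalso
    have rL : (C.L : ℝ) = 2 * C.M := by exact_mod_cast hL
    have r1 : ((C.a' (i + 1) : ℤ) : ℝ) = ((C.a (i + 1) : ℤ) : ℝ) + 1 := by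
      rw [ha']; push_cast; ring
    have r2 : ((C.b' (i + 1) : ℤ) : ℝ) + C.L = ((C.a (i + 1) : ℤ) : ℝ) + C.M := by
      exact_mod_cast hb
    rcases h with ⟨h5, h6⟩ | ⟨h5, h6⟩
    · have r3 : ((C.c' (i + 1) : ℤ) : ℝ) = ((C.a (i + 1) : ℤ) : ℝ) + 1 := by
        rw [h6]; push_cast; ring
      linarith
    · have r3 : ((C.d' (i + 1) : ℤ) : ℝ) + C.M = ((C.a (i + 1) : ℤ) : ℝ) := by
        exact_mod_cast h6
      linarith

end Cd

end Pool.Agent.Lib.MP_bb0bab_co
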