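import Pool.Agent.Lib.MP_bb0bab_co.CB05
import Pool.Agent.Lib.MP_bb0bab_co.CB09

/-!
# CB16 forced row for `N < m` is an exact copy
-/

namespace Pool.Agent.Lib.MP_bb0bab_co

open LaurentPolynomial

namespace Cd

variable {C : Cd}

theorem cb16_d {x x' y y' : ℤ} (h : y = x ∨ y = x + 1) (h' : y' = x' ∨ y' = x' + 1)
    (e : x' = x) : -1 ≤ y' - y ∧ y' - y ≤ 1 := by omega

theorem cb16_q {x y : ℤ} (q : ℤ) (h : y = x ∨ y = x + 1) : y + q = x + q ∨ y + q = x + q + 1 := by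
  omega

theorem cb16_v {x V y : ℤ} (h : y = x ∨ y = x + 1) (e : x = V) : y = V ∨ y = V + 1 := by omega

theorem cb16_w {x' x V y' : ℤ} (h : y' = x' ∨ y' = x' + 1) (e : x' = x + 1) (e2 : x = V) :
    y' = V + 1 ∨ y' = V + 2 := by omega

/-- the forced row equation in the form used by `f_alg` -/
theorem F_eq {v : ℤ} {e s : ℕ} (h1 : C.a e ≤ C.b e + C.L) (h2 : C.c e ≤ C.d e + C.M)
    (hF : C.F v e s) :
    br C.M * (rowPoly (C.a' s) (C.b' s + C.L - 1) - rowPoly (C.a s) (C.b s + C.L - 1) -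
      (T (C.b e + v + C.L) - T (C.a e + v))) =
    br C.L * (rowPoly (C.c' s) (C.d' s + C.M - 1) - rowPoly (C.c s) (C.d s + C.M - 1) -
      (T (C.d e + v + C.M) - T (C.c e + v))) := by
  have r1 : (T 1 - 1) * (T v * C.RH e) =
      (T (C.b e + v + C.L) - T (C.a e + v) : LaurentPolynomial ℤ) := by
    rw [RH, T_mul_rowPoly, sub_one_mul_rowPoly (by omega)]
    congr 2 <;> ring
  have r2 : (T 1 - 1) * (T v * C.RG e) =
      (T (C.d e + v + C.M) - T (C.c e + v) : LaurentPolynomial ℤ) := by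
    rw [RG, T_mul_rowPoly, sub_one_mul_rowPoly (by omega)]
    congr 2 <;> ring
  have h := hF
  unfold F at h
  rw [r1, r2] at h
  exact h

theorem lemF' (hC : C.Ok) (hM : 2 ≤ C.M) {N : ℕ} (hE : C.Ev N) (hNm : N < C.m)
    (h1 : C.T0 (N + C.m - 1) ∨ (C.T1 (N + C.m - 1) ∧ C.Full (N + C.m - 1)))
    (hF : C.F C.q N (N + C.m)) : C.Copy N C.m := by
  have hm := hC.hm
  have hmh := hC.hmh
  have hLM := hC.hLM
  have hN1 := hE.pos
  have hs : N + C.m ≤ C.h := by omega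
  have heh : N ≤ C.h := by omega
  have hi : N + C.m - 1 < C.h := by omega
  have e1 : N + C.m - 1 + 1 = N + C.m := by omega
  have hj : N - 1 < C.h := by omega
  have ej : N - 1 + 1 = N := by omega
  have hlt : N - 1 < N := by omega
  have hem : C.m ≤ N + C.m := by omega
  have hMz : (2 : ℤ) ≤ C.M := by exact_mod_cast hM
  have hLz : (C.M : ℤ) + 1 ≤ C.L := by exact_mod_cast hLM
  have n0 := hC.ne_H hM heh
  have n0' := hC.ne_G hM heh
  have hFe := F_eq (C := C) (by linarith) (by linarith) hF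
  have hmus := hC.mu_T0 hem hs
  have n1 := hC.ne_H hM hs
  have n2 := hC.ne_K hM hs
  have n3 := hC.ne_G hM hs
  have n4 := hC.ne_G' hM hs
  have am := hC.am
  have am' := hC.am'
  obtain ⟨z1, z2, z3, z4⟩ := hE.t0
  -- row `N - 1` is full
  obtain ⟨g1, g2, g3⟩ := hE.full (N - 1) hlt
  have ma := hC.a_let hj
  have mb := hC.b_let hj
  have mc := hC.c_let hj
  have md := hC.d_let hj
  rw [ej] at ma mb mc md
  have mb' := cb16_v mb g1
  have mc' := cb16_v mc g2
  have md' := cb16_v md g3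
  have wa := hC.win_a' hs
  have wc := hC.win_c' hs
  rw [z1] at wa
  rw [z3] at wc
  have hnf' : ¬ (C.a N + C.q = C.b N + C.q ∧ C.a N + C.q = C.c N + C.q ∧
      C.a N + C.q = C.d N + C.q) := by
    rintro ⟨f1, f2, f3⟩
    exact hE.nf ⟨by linarith, by linarith, by linarith⟩
  have fin : (C.a (N + C.m) = C.a N + C.q ∧ C.b (N + C.m) = C.b N + C.q ∧
      C.c (N + C.m) = C.c N + C.q ∧ C.d (N + C.m) = C.d N + C.q ∧
      C.a' (N + C.m) = C.a N + C.q + 1 ∧ C.b' (N + C.m) = C.b N + C.q + 1 ∧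
      C.c' (N + C.m) = C.c N + C.q + 1 ∧ C.d' (N + C.m) = C.d N + C.q + 1) → C.Copy N C.m := by
    rintro ⟨r1, r2, r3, r4, r5, r6, r7, r8⟩
    exact ⟨by rw [am]; exact r1, by rw [am]; exact r2, by rw [am]; exact r3, by rw [am]; exact r4,
      by rw [am', r5, add_assoc], by rw [am', r6, add_assoc], by rw [am', r7, add_assoc],
      by rw [am', r8, add_assoc]⟩
  rcases h1 with ⟨y1, y2, y3, y4⟩ | ⟨⟨y1, y2, y3, y4⟩, ⟨x1, x2, x3⟩⟩
  · have u1 := cb16_d (hC.a_let hi) (hC.a'_let hi) y1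
    have u2 := cb16_d (hC.b_let hi) (hC.b'_let hi) y2
    have v1 := cb16_d (hC.c_let hi) (hC.c'_let hi) y3
    have v2 := cb16_d (hC.d_let hi) (hC.d'_let hi) y4
    rw [e1] at u1 u2 v1 v2
    have k1 : C.a (N - 1) ≤ C.b N := by rcases mb' with h | h <;> linarith
    have k2 : C.a N ≤ C.a (N - 1) + 1 := by rcases ma with h | h <;> linarith
    have k3 : C.a (N - 1) ≤ C.d N := by rcases md' with h | h <;> linarith
    have k4 : C.c N ≤ C.a (N - 1) + 1 := by rcases mc' with h | h <;> linarith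
    exact fin (f_alg (L := C.L) (M := C.M) hM hLM
      (p1 := C.a N + C.q) (p2 := C.b N + C.q) (p3 := C.c N + C.q) (p4 := C.d N + C.q)
      (a := C.a (N + C.m)) (b := C.b (N + C.m)) (c := C.c (N + C.m)) (d := C.d (N + C.m))
      (a' := C.a' (N + C.m)) (b' := C.b' (N + C.m)) (c' := C.c' (N + C.m)) (d' := C.d' (N + C.m))
      wa (hC.win_b hs) wc (hC.win_d hs)
      (by linarith) (by linarith) (by linarith) (by linarith)
      u1 u2 v1 v2 (by linarith) (by linarith) (fun _ hd => by linarith) hnf' hFe)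
  · have w1 := cb16_v (hC.a_let hi) rfl
    have w2 := cb16_v (hC.b_let hi) x1
    have w3 := cb16_v (hC.c_let hi) x2
    have w4 := cb16_v (hC.d_let hi) x3
    have t1 := cb16_w (hC.a'_let hi) y1 rfl
    have t2 := cb16_w (hC.b'_let hi) y2 x1
    have t3 := cb16_w (hC.c'_let hi) y3 x2
    have t4 := cb16_w (hC.d'_let hi) y4 x3
    rw [e1] at w1 w2 w3 w4 t1 t2 t3 t4
    exact fin (f2_alg (L := C.L) (M := C.M) hM hLM (A := C.a (N - 1) + C.q)
      (V := C.a (N + C.m - 1))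
      (p1 := C.a N + C.q) (p2 := C.b N + C.q) (p3 := C.c N + C.q) (p4 := C.d N + C.q)
      (a := C.a (N + C.m)) (b := C.b (N + C.m)) (c := C.c (N + C.m)) (d := C.d (N + C.m))
      (a' := C.a' (N + C.m)) (b' := C.b' (N + C.m)) (c' := C.c' (N + C.m)) (d' := C.d' (N + C.m))
      (cb16_q _ ma) (cb16_q _ mb') (cb16_q _ mc') (cb16_q _ md')
      wa (hC.win_b hs) wc (hC.win_d hs) w1 w2 w3 w4 t1 t2 t3 t4 hnf' hFe)

end Cd

end Pool.Agent.Lib.MP_bb0bab_co
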