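import Pool.Agent.Lib.MP_bb0bab_co.CB13
import Pool.Agent.Lib.MP_bb0bab_co.CB15

/-!
# CB17 the event
-/

namespace Pool.Agent.Lib.MP_bb0bab_co

open LaurentPolynomial

namespace Cd

variable {C : Cd}

theorem ze_M2 (hC : C.Ok) (hM : 2 ≤ C.M) : C.ZE :=
  fun _ hm hs _ ht hZ => lemZ hC hm hs (Or.inr ⟨ht, hM⟩) hZ

theorem cb17_not_full (hC : C.Ok) : ¬ C.Full C.h := by
  rintro ⟨h1, -⟩
  have h2 : C.a C.h = C.x := by
    unfold Cd.a
    rw [hC.aHh, Int.ceil_intCast]
  have h3 : C.b C.h = C.xr := by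
    unfold Cd.b
    rw [hC.bHh, Int.floor_intCast]
  rw [h2, h3] at h1
  have h4 := hC.hLM
  unfold Cd.xr at h1
  omega

theorem exists_event (hC : C.Ok) (hZE : C.ZE) : ∃ N, C.Ev N := by
  classical
  have hex : ∃ n, ¬ C.Full n := ⟨C.h, cb17_not_full hC⟩
  obtain ⟨N, hN, hmin⟩ : ∃ N, ¬ C.Full N ∧ ∀ i < N, C.Full i :=
    ⟨Nat.find hex, Nat.find_spec hex, fun i hi => not_not.mp (Nat.find_min hex hi)⟩
  have hNh : N ≤ C.h := by
    by_contra hcon
    exact cb17_not_full hC (hmin C.h (by omega))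
  have hN1 : 1 ≤ N := by
    rcases Nat.eq_zero_or_pos N with h0 | h0
    · exfalso
      apply hN
      rw [h0]
      obtain ⟨h1, h2, h3, h4, -⟩ := hC.zero
      exact ⟨by rw [h1, h2], by rw [h1, h3], by rw [h1, h4]⟩
    · exact h0
  have hT1m : C.T1 C.m := ⟨by rw [hC.am', hC.am], by rw [hC.bm', hC.bm], by rw [hC.cm', hC.cm],
    by rw [hC.dm', hC.dm]⟩
  have hFm : C.Full C.m := ⟨by rw [hC.bm, hC.am], by rw [hC.cm, hC.am], by rw [hC.dm, hC.am]⟩
  have hNm : N ≠ C.m := fun h => hN (h ▸ hFm)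
  have key : ∀ s, s ≤ N → C.m < s → (∀ j < s, C.TL j) → C.T0 s ∨ (C.T1 s ∧ C.Full s) := by
    intro s hs hm htl
    have hf : ∀ j < s, C.Full j ∧ C.TL j := fun j hj => ⟨hmin j (by omega), htl j hj⟩
    have hZ := Z_of_full hC (by omega) hf
    rcases htl (s - 1) (by omega) with h | h
    · exact lemZ hC hm (by omega) (Or.inl h) hZ
    · exact hZE s hm (by omega) hf h hZ
  have htl : ∀ s, s ≤ N → C.TL s := by
    intro s
    induction s using Nat.strong_induction_on with
    | _ s ih =>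
      intro hs
      rcases lt_trichotomy s C.m with h | h | h
      · exact Or.inl (hC.low s h)
      · rw [h]
        exact Or.inr hT1m
      · rcases key s hs h (fun j hj => ih j hj (by omega)) with h1 | ⟨h1, -⟩
        · exact Or.inl h1
        · exact Or.inr h1
  refine ⟨N, hN1, hmin, fun i hi => htl i hi.le, ?_, hN, ?_, hNm⟩
  · rcases lt_trichotomy N C.m with h | h | h
    · exact hC.low N h
    · exact absurd h hNm
    · rcases key N le_rfl h (fun j hj => htl j hj.le) with h1 | ⟨-, h1⟩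
      · exact h1
      · exact absurd h1 hN
  · by_contra hcon
    have h1 := hmin (C.h - (N - 1)) (by omega)
    have h2 := hmin (N - 1) (by omega)
    have h3 := htl (N - 1) (by omega)
    have h4 := C.d'_eq (N - 1)
    have h5 := C.c'_eq (N - 1)
    have h6 : C.c' (N - 1) = C.d' (N - 1) := by
      obtain ⟨g1, g2, g3⟩ := h2
      rcases h3 with ⟨-, -, g4, g5⟩ | ⟨-, -, g4, g5⟩
      · rw [g4, g5, g2, g3]
      · rw [g4, g5, g2, g3]
    rw [h4, h5, h1.1] at h6
    have h7 := hC.hLM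
    unfold Cd.xr at h6
    omega

end Cd

end Pool.Agent.Lib.MP_bb0bab_co
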