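import Pool.Agent.Lib.MP_bb0bab_co.CB14
import Pool.Agent.Lib.MP_bb0bab_co.CB15
import Pool.Agent.Lib.MP_bb0bab_co.CB16

/-!
# CB18 `N < m` is impossible

Rows `m < s < m+N` are `Z` rows (`Z_after`), so each is T0 or (T1 and full).  `F_after`, `lemF'` give `Copy N m`,
and the cross functions then force the four words to agree at `N`.
-/

namespace Pool.Agent.Lib.MP_bb0bab_co

open LaurentPolynomial

namespace Cd

variable {C : Cd}

theorem impossible_lt (hC : C.Ok) (hM : 2 ≤ C.M) {N : ℕ} (hE : C.Ev N) (hNm : N < C.m) : False := by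
  have hmh := hC.hmh
  have hm := hC.hm
  have hpos := hE.pos
  have hLM := hC.hLM
  -- the rows `m, ..., m + N - 1`
  have key : ∀ k, k < N → C.T0 (C.m + k) ∨ (C.T1 (C.m + k) ∧ C.Full (C.m + k)) := by
    intro k
    induction k with
    | zero =>
      intro _
      right
      have h1 := hC.am
      have h2 := hC.bm
      have h3 := hC.cm
      have h4 := hC.dm
      have h1' := hC.am'
      have h2' := hC.bm'
      have h3' := hC.cm'
      have h4' := hC.dm'
      rw [Nat.add_zero]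
      refine ⟨⟨?_, ?_, ?_, ?_⟩, ?_, ?_, ?_⟩ <;> omega
    | succ k ih =>
      intro hk
      have ih' := ih (by omega)
      have ht : C.TL (C.m + (k + 1) - 1) := by
        have e : C.m + (k + 1) - 1 = C.m + k := by omega
        rw [e]
        rcases ih' with h | h
        · exact Or.inl h
        · exact Or.inr h.1
      exact lemZ hC (by omega) (by omega) (ht.imp id (fun h => ⟨h, hM⟩)) (Z_after hC hE hNm (by omega) (by omega))
  have h1 := key (N - 1) (by omega)
  have e1 : C.m + (N - 1) = N + C.m - 1 := by omega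
  rw [e1] at h1
  obtain ⟨-, cb, -, cd, ca', -, cc', -⟩ := lemF' hC hM hE hNm h1 (F_after hC hE hNm)
  rw [hC.am] at cb cd
  rw [hC.am'] at ca' cc'
  obtain ⟨ta, -, tc, -⟩ := hE.t0
  have hs : N + C.m ≤ C.h := by omega
  -- at the row `N + m`
  have r1 : C.rK (N + C.m) < (C.d (N + C.m) : ℝ) + 1 := Int.lt_floor_add_one _
  have r2 : (C.a' (N + C.m) : ℝ) < C.aK (N + C.m) + 1 := Int.ceil_lt_add_one _
  have r3 : C.bH (N + C.m) < (C.b (N + C.m) : ℝ) + 1 := Int.lt_floor_add_one _
  have r4 : (C.c' (N + C.m) : ℝ) < C.lH (N + C.m) + 1 := Int.ceil_lt_add_one _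
  have n1 := hC.k1_nn hs
  have n2 := hC.k2_nn hs
  have n3 := hC.Psi_pos (j := N + C.m) (by omega) hs
  have m1 : C.a' (N + C.m) < C.d (N + C.m) + 2 := by
    have : (C.a' (N + C.m) : ℝ) < (C.d (N + C.m) : ℝ) + 2 := by linarith
    exact_mod_cast this
  have m2 : C.c' (N + C.m) < C.b (N + C.m) + 2 := by
    have : (C.c' (N + C.m) : ℝ) < (C.b (N + C.m) : ℝ) + 2 := by linarith
    exact_mod_cast this
  have m3 : C.c' (N + C.m) < C.d (N + C.m) + 2 := by
    have : (C.c' (N + C.m) : ℝ) < (C.d (N + C.m) : ℝ) + 2 := by linarith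
    exact_mod_cast this
  -- at the row `N`
  have s1 : (C.d N : ℝ) ≤ C.rK N := Int.floor_le _
  have s2 : C.aK N ≤ (C.a' N : ℝ) := Int.le_ceil _
  have s3 : (C.b N : ℝ) ≤ C.bH N := Int.floor_le _
  have s4 : C.lH N ≤ (C.c' N : ℝ) := Int.le_ceil _
  have t1 := hC.k1_mono (i := N) (j := C.m) hNm.le hs
  have t2 := hC.k2_mono (i := N) (j := C.m) hNm.le hs
  have t3 := hC.k1_m
  have t4 := hC.k2_m
  have t5 := hC.Psi_m
  have u1 : C.d N < C.a' N + 1 := by
    have : (C.d N : ℝ) < (C.a' N : ℝ) + 1 := by linarith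
    exact_mod_cast this
  have u2 : C.b N < C.c' N + 1 := by
    have : (C.b N : ℝ) < (C.c' N : ℝ) + 1 := by linarith
    exact_mod_cast this
  have u3 : C.d N < C.c' N + 1 := by
    by_contra hcon
    have h5 : C.c' N + 1 ≤ C.d N := not_lt.1 hcon
    have h6 : (C.c' N : ℝ) + 1 ≤ (C.d N : ℝ) := by exact_mod_cast h5
    have h7 : (1 : ℝ) ≤ C.rK N - C.lH N := by linarith
    have h8 : (1 : ℝ) ≤ C.rK C.h - C.lH C.h := by
      rw [hC.Psi_h]
      have h9 : (C.M : ℝ) + 1 ≤ (C.L : ℝ) := by exact_mod_cast hLM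
      linarith
    have h10 := hC.Psi_min (i := N) (j := C.m) (k := C.h) hNm.le (by omega) le_rfl h7 h8
    linarith
  exact hE.nf ⟨by omega, by omega, by omega⟩

end Cd

end Pool.Agent.Lib.MP_bb0bab_co
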