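import Pool.Agent.Lib.MP_bb0bab_co.CB08

/-!
# CB19 shapes, NR, NR0

PROOF. `shape`: `m < N`, `N + m ≤ 2N - 1 ≤ h`.  `k1' N ≥ k1' m ≥ 1` (`k1'_mono`): `rH N < d' N + 1 = d N + 1`, `aH N > a N - 1`: `d N ≥ a N`.  `k2' N ≥ 1`: `bK N < b N + 1`, `lK N > c N - 1`: `b N ≥ c N`.  `Phi_ge N`: `rH N < d N + 1`, `lK N > c N - 1`: `d N ≥ c N`.
Row `N-1` is full with value `A`, letters 0/1, so the four words at `N` are in `{A,A+1}` (unprimed words; `N ≤ h`).  Not all equal.  `d = A`: `a = c = A`, so `b = A+1`: second.  `d = A+1`: `a = A` first; `a = A+1`, `c = A`: third; `c = A+1` forces `b = A+1`: full, no.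
`nr`: let `s > N` be T1 and full with value `V`: `aK > V`, `rK < V+1`, `lH > V`, `bH < V+1` at `s`.  If `s > h - N`: `h - s < N` is full and T-like, but `d' (h-s) = x - a s`, `c' (h-s) = xr - b s` (as in CB17): contradiction.  `s ≤ h-N`:
first shape: `k1 N = rK N - aK N ≥ d N - a' N = d N - a N = 1`, `k1_mono` (`N ≤ s`, `N + s ≤ h`): `k1 s ≥ 1` but `< 1`.  Second: `k2 N ≥ b N - c' N = 1`.  Third: `Psi N ≥ d N - c' N = 1`, `Psi h ≥ 1`, `Psi_min`.
`nr0`: let `e` be T0 and full with value `V`, `N+m ≤ e ≤ h-N-m`: `rH < V+1`, `aH > V-1`, `bK < V+1`, `lK > V-1` at `e`.  First shape: `k1' (N+m) = rH - aH ≥ d' - a = (d N + q + 1) - (a N + q) = 2` (`Copy N m`), `k1'_mono` (`N+m ≤ e`, `N+m+e ≤ h`): `k1' e ≥ 2`, but `< 2`.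
Second: `k2' (N+m) ≥ b' - c = 2`.  Third: `Phi (N+m) ≥ d' - c = 2`, `Phi (h-m) ≥ 2` (`Phi_hm`), `Phi_min` (`N+m ≤ e ≤ h-m`).
-/

namespace Pool.Agent.Lib.MP_bb0bab_co

open LaurentPolynomial

namespace Cd

variable {C : Cd}

theorem cb19_a (i : ℕ) : C.aH i ≤ C.a i ∧ (C.a i : ℝ) - 1 < C.aH i :=
  ⟨Int.le_ceil _, by have := Int.ceil_lt_add_one (C.aH i); unfold a; linarith⟩

theorem cb19_a' (i : ℕ) : C.aK i ≤ C.a' i ∧ (C.a' i : ℝ) - 1 < C.aK i :=
  ⟨Int.le_ceil _, by have := Int.ceil_lt_add_one (C.aK i); unfold a'; linarith⟩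

theorem cb19_c (i : ℕ) : C.lK i ≤ C.c i ∧ (C.c i : ℝ) - 1 < C.lK i :=
  ⟨Int.le_ceil _, by have := Int.ceil_lt_add_one (C.lK i); unfold c; linarith⟩

theorem cb19_c' (i : ℕ) : C.lH i ≤ C.c' i ∧ (C.c' i : ℝ) - 1 < C.lH i :=
  ⟨Int.le_ceil _, by have := Int.ceil_lt_add_one (C.lH i); unfold c'; linarith⟩

theorem cb19_b (i : ℕ) : (C.b i : ℝ) ≤ C.bH i ∧ C.bH i < C.b i + 1 :=
  ⟨Int.floor_le _, Int.lt_floor_add_one _⟩

theorem cb19_b' (i : ℕ) : (C.b' i : ℝ) ≤ C.bK i ∧ C.bK i < C.b' i + 1 :=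
  ⟨Int.floor_le _, Int.lt_floor_add_one _⟩

theorem cb19_d (i : ℕ) : (C.d i : ℝ) ≤ C.rK i ∧ C.rK i < C.d i + 1 :=
  ⟨Int.floor_le _, Int.lt_floor_add_one _⟩

theorem cb19_d' (i : ℕ) : (C.d' i : ℝ) ≤ C.rH i ∧ C.rH i < C.d' i + 1 :=
  ⟨Int.floor_le _, Int.lt_floor_add_one _⟩

theorem shape (hC : C.Ok) {N : ℕ} (hE : C.Ev N) (hmN : C.m < N) : C.Shape N := by
  have hm1 := hC.hm
  have hh := hE.hh
  have hNh : C.m + N ≤ C.h := by omega
  have h1 : C.a N ≤ C.d N := by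
    have e1 := hC.k1'_mono hmN.le hNh
    have e2 := hC.k1'_m
    have e3 := (cb19_d' (C := C) N).2
    have e4 := (cb19_a (C := C) N).2
    rw [hE.t0.2.2.2] at e3
    have : (C.a N : ℝ) < C.d N + 1 := by linarith
    exact_mod_cast Int.lt_add_one_iff.1 (by exact_mod_cast this)
  have h2 : C.c N ≤ C.b N := by
    have e1 := hC.k2'_mono hmN.le hNh
    have e2 := hC.k2'_m
    have e3 := (cb19_b' (C := C) N).2
    have e4 := (cb19_c (C := C) N).2
    rw [hE.t0.2.1] at e3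
    have : (C.c N : ℝ) < C.b N + 1 := by linarith
    exact_mod_cast Int.lt_add_one_iff.1 (by exact_mod_cast this)
  have h3 : C.c N ≤ C.d N := by
    have e1 := hC.Phi_ge hmN.le (by omega : N ≤ C.h)
    have e3 := (cb19_d' (C := C) N).2
    have e4 := (cb19_c (C := C) N).2
    rw [hE.t0.2.2.2] at e3
    have : (C.c N : ℝ) < C.d N + 1 := by linarith
    exact_mod_cast Int.lt_add_one_iff.1 (by exact_mod_cast this)
  have hN1 : N - 1 < C.h := by omega
  have hNN : N - 1 + 1 = N := by omega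
  have la := hC.a_let hN1
  have lb := hC.b_let hN1
  have lc := hC.c_let hN1
  have ld := hC.d_let hN1
  rw [hNN] at la lb lc ld
  obtain ⟨f1, f2, f3⟩ := hE.full (N - 1) (by omega)
  have hnf := hE.nf
  unfold Full at hnf
  unfold Shape
  rw [f1] at lb
  rw [f2] at lc
  rw [f3] at ld
  omega

theorem nr (hC : C.Ok) {N : ℕ} (hE : C.Ev N) (hmN : C.m < N) (hS : C.Shape N) : C.NR N := by
  rintro s hNs hsh ⟨⟨t1, t2, t3, t4⟩, ⟨f1, f2, f3⟩⟩
  have hLM : (C.M : ℤ) < C.L := by exact_mod_cast hC.hLM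
  have hLM' : (C.M : ℝ) + 1 ≤ C.L := by exact_mod_cast hC.hLM
  rcases lt_or_ge C.h (N + s) with hlt | hge
  · have hj : C.h - s < N := by omega
    have e1 := d'_eq (C := C) (C.h - s)
    have e2 := c'_eq (C := C) (C.h - s)
    have e3 : C.h - (C.h - s) = s := by omega
    rw [e3] at e1 e2
    obtain ⟨g1, g2, g3⟩ := hE.full _ hj
    have hxr : C.xr = C.x - (C.L - C.M) := rfl
    rcases hE.tl _ hj with ⟨_, _, u3, u4⟩ | ⟨_, _, u3, u4⟩ <;> omega
  · have r1 := (cb19_a' (C := C) s).2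
    have r2 := (cb19_d (C := C) s).2
    have r3 := (cb19_c' (C := C) s).2
    have r4 := (cb19_b (C := C) s).2
    rw [t1] at r1
    rw [f3] at r2
    rw [t3, f2] at r3
    rw [f1] at r4
    push_cast at r1 r2 r3 r4
    have n1 := (cb19_d (C := C) N).1
    have n2 := (cb19_a' (C := C) N).1
    have n3 := (cb19_b (C := C) N).1
    have n4 := (cb19_c' (C := C) N).1
    rw [hE.t0.1] at n2
    rw [hE.t0.2.2.1] at n4
    rcases hS with ⟨s1, s2⟩ | ⟨s1, s2⟩ | ⟨s1, s2⟩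
    · have e := hC.k1_mono hNs.le hge
      rw [s2] at n1
      rw [s1] at n2
      push_cast at n1 n2
      linarith
    · have e := hC.k2_mono hNs.le hge
      rw [s2] at n3
      rw [s1] at n4
      push_cast at n3 n4
      linarith
    · rw [s2] at n1
      rw [s1] at n4
      push_cast at n1 n4
      have e := hC.Psi_min hNs.le hsh le_rfl (r := 1) (by linarith)
        (by rw [hC.Psi_h]; linarith)
      linarith

theorem nr0 (hC : C.Ok) {N : ℕ} (hE : C.Ev N) (hmN : C.m < N) (hS : C.Shape N)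
    (hc : C.Copy N C.m) : C.NR0 N := by
  rintro e h1 h2 ⟨⟨t1, t2, t3, t4⟩, ⟨f1, f2, f3⟩⟩
  obtain ⟨c1, c2, c3, c4, c5, c6, c7, c8⟩ := hc
  rw [hC.am] at c1 c2 c3 c4
  rw [hC.am'] at c5 c6 c7 c8
  have r1 := (cb19_d' (C := C) e).2
  have r2 := (cb19_a (C := C) e).2
  have r3 := (cb19_b' (C := C) e).2
  have r4 := (cb19_c (C := C) e).2
  rw [t4, f3] at r1
  rw [t2, f1] at r3
  rw [f2] at r4
  have n1 := (cb19_d' (C := C) (N + C.m)).1
  have n2 := (cb19_a (C := C) (N + C.m)).1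
  have n3 := (cb19_b' (C := C) (N + C.m)).1
  have n4 := (cb19_c (C := C) (N + C.m)).1
  rw [c8] at n1
  rw [c1] at n2
  rw [c6] at n3
  rw [c3] at n4
  rcases hS with ⟨s1, s2⟩ | ⟨s1, s2⟩ | ⟨s1, s2⟩
  · have e1 := hC.k1'_mono h1 (by omega)
    rw [s2] at n1
    rw [s1] at n2
    push_cast at n1 n2
    linarith
  · have e1 := hC.k2'_mono h1 (by omega)
    rw [s2] at n3
    rw [s1] at n4
    push_cast at n3 n4
    linarith
  · rw [s2] at n1
    rw [s1] at n4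
    push_cast at n1 n4
    have e1 := hC.Phi_min h1 (by omega : e ≤ C.h - C.m) (by omega) (r := 2) (by linarith)
      (by have := hC.Phi_hm; linarith)
    linarith

end Cd

end Pool.Agent.Lib.MP_bb0bab_co
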