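import Pool.Agent.Lib.MP_bb0bab_co.CB01

/-!
# CB29 the four monomial lemma
-/

namespace Pool.Agent.Lib.MP_bb0bab_co

open LaurentPolynomial

theorem CB29_coeff (n : ℕ) (a k : ℤ) :
    (((n : LaurentPolynomial ℤ) * T a).coeff k) = if a = k then (n : ℤ) else 0 := by
  induction n with
  | zero => simp
  | succ n ih =>
    rw [Nat.cast_succ, add_mul, one_mul, AddMonoidAlgebra.coeff_add, Finsupp.add_apply, ih, T_apply]
    by_cases h : a = k
    · rw [if_pos h, if_pos h, if_pos h]
      push_cast
      ring
    · rw [if_neg h, if_neg h, if_neg h, add_zero]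

theorem mono4 {L M : ℕ} (hM : 1 ≤ M) (hLM : M < L) {a b c d : ℤ} {n1 n2 n3 n4 : ℕ}
    (h1 : a < b + L) (h2 : c < d + M) (hnf : ¬ (b = a ∧ c = a ∧ d = a))
    (heq : br M * ((n1 : LaurentPolynomial ℤ) * T a - (n2 : LaurentPolynomial ℤ) * T (b + L)) =
      br L * ((n3 : LaurentPolynomial ℤ) * T c - (n4 : LaurentPolynomial ℤ) * T (d + M))) :
    n1 = 0 ∧ n2 = 0 ∧ n3 = 0 ∧ n4 = 0 := by
  have hbr : ∀ N : ℕ, (T 1 - 1) * br (N : ℤ) = T (N : ℤ) - 1 := by
    intro N
    unfold br
    rw [sub_one_mul_rowPoly (by omega)]
    rw [show ((N : ℤ) - 1 + 1) = N by ring, T_zero]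
  have hT : ∀ x y : ℤ, (T x : LaurentPolynomial ℤ) * T y = T (x + y) := fun x y => (T_add x y).symm
  have h3 : (n1 : LaurentPolynomial ℤ) * T (a + M) + (n2 : LaurentPolynomial ℤ) * T (b + L) +
      (n3 : LaurentPolynomial ℤ) * T c + (n4 : LaurentPolynomial ℤ) * T (d + M + L) =
      (n1 : LaurentPolynomial ℤ) * T a + (n2 : LaurentPolynomial ℤ) * T (b + L + M) +
      (n3 : LaurentPolynomial ℤ) * T (c + L) + (n4 : LaurentPolynomial ℤ) * T (d + M) := by
    have h4 := congrArg (fun p => (T 1 - 1) * p) heq
    change (T 1 - 1) * _ = (T 1 - 1) * _ at h4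
    rw [← mul_assoc, ← mul_assoc, hbr, hbr] at h4
    rw [← hT a M, ← hT (b + L) M, ← hT c L, ← hT (d + M) L]
    linear_combination h4
  have E : ∀ k : ℤ, (if a + M = k then (n1 : ℤ) else 0) + (if b + L = k then (n2 : ℤ) else 0) +
      (if c = k then (n3 : ℤ) else 0) + (if d + M + L = k then (n4 : ℤ) else 0) =
      (if a = k then (n1 : ℤ) else 0) + (if b + L + M = k then (n2 : ℤ) else 0) +
      (if c + L = k then (n3 : ℤ) else 0) + (if d + M = k then (n4 : ℤ) else 0) := by
    intro k
    have h5 := congrArg (fun f : LaurentPolynomial ℤ => f.coeff k) h3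
    simp only [AddMonoidAlgebra.coeff_add, Finsupp.add_apply, CB29_coeff] at h5
    exact h5
  have hA : (n1 = 0 ∧ n3 = 0) ∨ (a = c ∧ n1 = n3 ∧ 0 < n1) := by
    rcases lt_trichotomy a c with h | h | h
    · have e1 := E a
      rw [if_neg (by omega), if_neg (by omega), if_neg (by omega), if_neg (by omega), if_pos rfl,
        if_neg (by omega), if_neg (by omega), if_neg (by omega)] at e1
      obtain rfl : n1 = 0 := by omega
      have e2 := E c
      have e3 := E (b + L)
      simp only [Nat.cast_zero, ite_self, zero_add, if_true] at e2 e3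
      rw [if_neg (show ¬ d + M + L = c by omega),
        if_neg (show ¬ c + L = c by omega), if_neg (show ¬ d + M = c by omega)] at e2
      rw [if_neg (show ¬ b + L + M = b + L by omega)] at e3
      by_cases h5 : b + L + M = c
      · rw [if_neg (show ¬ b + L = c by omega), if_pos h5] at e2
        rw [if_neg (show ¬ c + L = b + L by omega), if_neg (show ¬ d + M = b + L by omega)] at e3
        split_ifs at e3 <;> omega
      · rw [if_neg h5] at e2
        split_ifs at e2 <;> omega
    · subst h
      have e1 := E a
      rw [if_neg (by omega), if_neg (by omega), if_pos rfl, if_neg (by omega), if_pos rfl,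
        if_neg (by omega), if_neg (by omega), if_neg (by omega)] at e1
      omega
    · have e1 := E c
      rw [if_neg (by omega), if_neg (by omega), if_pos rfl, if_neg (by omega), if_neg (by omega),
        if_neg (by omega), if_neg (by omega), if_neg (by omega)] at e1
      obtain rfl : n3 = 0 := by omega
      have e2 := E a
      have e3 := E (d + M)
      simp only [Nat.cast_zero, ite_self, add_zero, if_true] at e2 e3
      rw [if_neg (show ¬ a + M = a by omega), if_neg (show ¬ b + L = a by omega),
        if_neg (show ¬ b + L + M = a by omega)] at e2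
      rw [if_neg (show ¬ d + M + L = d + M by omega)] at e3
      by_cases h5 : d + M + L = a
      · rw [if_neg (show ¬ a + M = d + M by omega), if_neg (show ¬ b + L = d + M by omega),
          if_neg (show ¬ a = d + M by omega), if_neg (show ¬ b + L + M = d + M by omega)] at e3
        rw [if_pos h5] at e2
        split_ifs at e2 <;> omega
      · rw [if_neg h5] at e2
        split_ifs at e2 <;> omega
  have hB : (n2 = 0 ∧ n4 = 0) ∨ (b = d ∧ n2 = n4 ∧ 0 < n2) := by
    rcases lt_trichotomy b d with h | h | h
    · have e1 := E (d + M + L)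
      rw [if_pos rfl, if_neg (show ¬ a + M = d + M + L by omega),
        if_neg (show ¬ b + L = d + M + L by omega), if_neg (show ¬ c = d + M + L by omega),
        if_neg (show ¬ a = d + M + L by omega), if_neg (show ¬ b + L + M = d + M + L by omega),
        if_neg (show ¬ c + L = d + M + L by omega), if_neg (show ¬ d + M = d + M + L by omega)] at e1
      have e2 := E (b + L + M)
      rw [if_pos rfl, if_neg (show ¬ a + M = b + L + M by omega),
        if_neg (show ¬ b + L = b + L + M by omega), if_neg (show ¬ a = b + L + M by omega)] at e2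
      rcases hA with ⟨u1, u2⟩ | ⟨u1, u2, u3⟩
      · subst u1
        subst u2
        simp only [Nat.cast_zero, ite_self, zero_add, add_zero] at e2
        split_ifs at e2 <;> omega
      · rw [if_neg (show ¬ c = b + L + M by omega)] at e2
        split_ifs at e2 <;> omega
    · subst h
      have e1 := E (b + L + M)
      rw [if_pos rfl, if_neg (show ¬ a + M = b + L + M by omega),
        if_neg (show ¬ b + L = b + L + M by omega), if_neg (show ¬ c = b + L + M by omega),
        if_neg (show ¬ a = b + L + M by omega), if_pos (show b + M + L = b + L + M by omega),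
        if_neg (show ¬ c + L = b + L + M by omega), if_neg (show ¬ b + M = b + L + M by omega)] at e1
      omega
    · have e1 := E (b + L + M)
      rw [if_pos rfl, if_neg (show ¬ a + M = b + L + M by omega),
        if_neg (show ¬ b + L = b + L + M by omega), if_neg (show ¬ c = b + L + M by omega),
        if_neg (show ¬ a = b + L + M by omega), if_neg (show ¬ d + M + L = b + L + M by omega),
        if_neg (show ¬ c + L = b + L + M by omega), if_neg (show ¬ d + M = b + L + M by omega)] at e1
      have e2 := E (d + M + L)
      rw [if_pos rfl, if_neg (show ¬ c = d + M + L by omega),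
        if_neg (show ¬ c + L = d + M + L by omega), if_neg (show ¬ d + M = d + M + L by omega),
        if_neg (show ¬ b + L + M = d + M + L by omega)] at e2
      split_ifs at e2 <;> omega
  rcases hA with ⟨u1, u2⟩ | ⟨u1, u2, u3⟩
  · rcases hB with ⟨v1, v2⟩ | ⟨v1, v2, v3⟩
    · exact ⟨u1, v1, u2, v2⟩
    · exfalso
      subst v1
      have e := E (b + L)
      rw [if_pos rfl, if_neg (show ¬ b + M + L = b + L by omega),
        if_neg (show ¬ b + M = b + L by omega), if_neg (show ¬ b + L + M = b + L by omega)] at e
      split_ifs at e <;> omega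
  · exfalso
    subst u1
    rcases hB with ⟨v1, v2⟩ | ⟨v1, v2, v3⟩
    · have e := E (a + M)
      rw [if_pos rfl, if_neg (show ¬ a = a + M by omega),
        if_neg (show ¬ a + L = a + M by omega)] at e
      split_ifs at e <;> omega
    · subst v1
      have e := E (a + M)
      rw [if_pos rfl, if_neg (show ¬ a = a + M by omega),
        if_neg (show ¬ a + L = a + M by omega), if_neg (show ¬ b + M + L = a + M by omega),
        if_neg (show ¬ b + L + M = a + M by omega), if_neg (show ¬ b + M = a + M by omega)] at e
      split_ifs at e <;> omega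

end Pool.Agent.Lib.MP_bb0bab_co
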