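import Pool.Agent.Lib.MP_bb0bab_co.CB08

/-!
# CB31 Lemma HW (helper19)

PROOF. `J := (N + m - 1) / m`, so `N ≤ J m ≤ N + m - 1`; row `J m = N + (J m - N)` is T0 by `hT`.
All `m`-windows of `aK, bH, rK, lH` are in the open interval `(q,q+1)` (first and last windows, as in CB09: `aK m > q`, `rK m < q+1`, `bH m < q+1`, `lH m > q`).  Hence (sum of `J` windows) `J q < aK (J m) < J (q+1)`, same for `bH (J m), rK (J m), lH (J m)` (for `rK (J m) = aK h - aK (h - J m)`).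
`aH` window `[i,i+m]` `> q+1`: all later windows too (`ConvN.win`), in particular the last `J` ones (`i ≤ h - J m`): `rH (J m) = aH h - aH (h - J m) > J (q+1)`, so `d' (J m) ≥ J (q+1) > d (J m)` (`rK (J m) < J (q+1)`): contradiction to T0.
`aH` window `< q`: all earlier ones too, in particular the first `J` ones (`(J-1) m ≤ N - 1 ≤ i`): `aH (J m) < J q < aK (J m)`: `a (J m) ≤ J q < a' (J m)`: contradiction.
`bK` window `> q+1` (concave: all earlier ones too): `bK (J m) > J (q+1) > bH (J m)`: `b' ≥ J(q+1) > b`.  `bK` window `< q` (later ones too): `lK (J m) < J q < lH (J m)`: `c ≤ J q < c'`.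
`rH, lK`: the windows `[i,i+m]` of `rH` are the windows `[h-i-m, h-i]` of `aH` (the range is symmetric); `lK`: of `bK`.
`hw_dig`: `⌈u + δ⌉ - ⌈u⌉ ∈ {q,q+1}` for `δ ∈ [q,q+1]`, same for floors.
-/

namespace Pool.Agent.Lib.MP_bb0bab_co

open LaurentPolynomial

/-- the sum of `J` consecutive windows, upper bound -/
theorem cb31_sum_lt {f : ℕ → ℝ} {m s : ℕ} {r : ℝ} (J : ℕ)
    (h : ∀ k < J + 1, f (s + k * m + m) - f (s + k * m) < r) :
    f (s + (J + 1) * m) - f s < (J + 1 : ℕ) * r := by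
  induction J with
  | zero =>
    have h1 := h 0 (by omega)
    simp only [Nat.zero_mul, Nat.add_zero, Nat.zero_add, Nat.cast_one, one_mul] at h1 ⊢
    exact h1
  | succ J ih =>
    have h1 := ih fun k hk => h k (by omega)
    have h2 := h (J + 1) (by omega)
    have h3 : s + (J + 1 + 1) * m = s + (J + 1) * m + m := by ring
    rw [h3]
    push_cast at h1 ⊢
    linarith

theorem cb31_sum_gt {f : ℕ → ℝ} {m s : ℕ} {r : ℝ} (J : ℕ)
    (h : ∀ k < J + 1, r < f (s + k * m + m) - f (s + k * m)) :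
    (J + 1 : ℕ) * r < f (s + (J + 1) * m) - f s := by
  have h1 := cb31_sum_lt (f := fun i => - f i) (m := m) (s := s) (r := -r) J
    (fun k hk => by
      have h2 := h k hk
      change -f (s + k * m + m) - -f (s + k * m) < -r
      linarith)
  have h3 : -f (s + (J + 1) * m) - -f s < (J + 1 : ℕ) * -r := h1
  linarith

theorem cb31_ceil {u v : ℝ} {q : ℤ} (h1 : (q : ℝ) ≤ v - u) (h2 : v - u ≤ q + 1) :
    ⌈v⌉ = ⌈u⌉ + q ∨ ⌈v⌉ = ⌈u⌉ + q + 1 := by
  have h3 : ⌈u⌉ + q ≤ ⌈v⌉ := by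
    rw [← Int.ceil_add_intCast]
    exact Int.ceil_le_ceil (by linarith)
  have h4 : ⌈v⌉ ≤ ⌈u⌉ + (q + 1) := by
    rw [← Int.ceil_add_intCast]
    exact Int.ceil_le_ceil (by push_cast; linarith)
  omega

theorem cb31_floor {u v : ℝ} {q : ℤ} (h1 : (q : ℝ) ≤ v - u) (h2 : v - u ≤ q + 1) :
    ⌊v⌋ = ⌊u⌋ + q ∨ ⌊v⌋ = ⌊u⌋ + q + 1 := by
  have h3 : ⌊u⌋ + q ≤ ⌊v⌋ := by
    rw [← Int.floor_add_intCast]
    exact Int.floor_le_floor (by linarith)
  have h4 : ⌊v⌋ ≤ ⌊u⌋ + (q + 1) := by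
    rw [← Int.floor_add_intCast]
    exact Int.floor_le_floor (by push_cast; linarith)
  omega

namespace Cd

variable {C : Cd}

section
variable (hC : C.Ok)
include hC

theorem cb31_qaK : (C.q : ℝ) < C.aK C.m := by
  have h2 : ((C.a' C.m : ℤ) : ℝ) < C.aK C.m + 1 := Int.ceil_lt_add_one _
  rw [hC.am'] at h2
  push_cast at h2
  linarith

theorem cb31_qlH : (C.q : ℝ) < C.lH C.m := by
  have h2 : ((C.c' C.m : ℤ) : ℝ) < C.lH C.m + 1 := Int.ceil_lt_add_one _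
  rw [hC.cm'] at h2
  push_cast at h2
  linarith

theorem cb31_rKq : C.rK C.m < (C.q : ℝ) + 1 := by
  have h1 : C.rK C.m < ((C.d C.m : ℤ) : ℝ) + 1 := Int.lt_floor_add_one _
  rw [hC.dm] at h1
  exact h1

theorem cb31_bHq : C.bH C.m < (C.q : ℝ) + 1 := by
  have h1 : C.bH C.m < ((C.b C.m : ℤ) : ℝ) + 1 := Int.lt_floor_add_one _
  rw [hC.bm] at h1
  exact h1

/-- all `m`-windows of `aK` are in `(q, q+1)` -/
theorem cb31_aK {i : ℕ} (hi : i + C.m ≤ C.h) :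
    (C.q : ℝ) < C.aK (i + C.m) - C.aK i ∧ C.aK (i + C.m) - C.aK i < C.q + 1 := by
  have h1 := hC.aKconv.win (w := C.m) (Nat.zero_le i) hi
  have h2 := hC.aKconv.win (w := C.m) (by omega : i ≤ C.h - C.m) (by have := hC.cb08_m; omega)
  rw [Nat.sub_add_cancel hC.cb08_m, hC.aKh] at h2
  rw [Nat.zero_add, hC.aK0] at h1
  constructor
  · linarith [cb31_qaK hC]
  · have h3 := cb31_rKq hC
    unfold Cd.rK at h3
    linarith

theorem cb31_bH {i : ℕ} (hi : i + C.m ≤ C.h) :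
    (C.q : ℝ) < C.bH (i + C.m) - C.bH i ∧ C.bH (i + C.m) - C.bH i < C.q + 1 := by
  have h1 := hC.bHconc.win (w := C.m) (Nat.zero_le i) hi
  have h2 := hC.bHconc.win (w := C.m) (by omega : i ≤ C.h - C.m) (by have := hC.cb08_m; omega)
  rw [Nat.sub_add_cancel hC.cb08_m, hC.bHh] at h2
  rw [Nat.zero_add, hC.bH0] at h1
  constructor
  · have h3 := cb31_qlH hC
    unfold Cd.lH at h3
    linarith
  · linarith [cb31_bHq hC]

/-- values at multiples of `m` -/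
theorem cb31_val {J : ℕ} (hJ : 0 < J) (hJh : J * C.m ≤ C.h) :
    (J : ℝ) * C.q < C.aK (J * C.m) ∧ C.bH (J * C.m) < J * (C.q + 1) ∧
    C.rK (J * C.m) < J * (C.q + 1) ∧ (J : ℝ) * C.q < C.lH (J * C.m) := by
  obtain ⟨j, rfl⟩ : ∃ j, J = j + 1 := ⟨J - 1, by omega⟩
  have hb : ∀ s : ℕ, s + (j + 1) * C.m ≤ C.h → ∀ k < j + 1, s + k * C.m + C.m ≤ C.h := by
    intro s hs k hk
    have h1 : (k + 1) * C.m ≤ (j + 1) * C.m := Nat.mul_le_mul_right _ (by omega)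
    have h2 : (k + 1) * C.m = k * C.m + C.m := by ring
    omega
  refine ⟨?_, ?_, ?_, ?_⟩
  · have h1 := cb31_sum_gt (f := C.aK) (m := C.m) (s := 0) (r := C.q) j
      (fun k hk => (cb31_aK hC (hb 0 (by omega) k hk)).1)
    rw [Nat.zero_add, hC.aK0, sub_zero] at h1
    exact h1
  · have h1 := cb31_sum_lt (f := C.bH) (m := C.m) (s := 0) (r := C.q + 1) j
      (fun k hk => (cb31_bH hC (hb 0 (by omega) k hk)).2)
    rw [Nat.zero_add, hC.bH0, sub_zero] at h1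
    exact h1
  · have h1 := cb31_sum_lt (f := C.aK) (m := C.m) (s := C.h - (j + 1) * C.m) (r := C.q + 1) j
      (fun k hk => (cb31_aK hC (hb _ (by omega) k hk)).2)
    rw [Nat.sub_add_cancel hJh, hC.aKh] at h1
    exact h1
  · have h1 := cb31_sum_gt (f := C.bH) (m := C.m) (s := C.h - (j + 1) * C.m) (r := C.q) j
      (fun k hk => (cb31_bH hC (hb _ (by omega) k hk)).1)
    rw [Nat.sub_add_cancel hJh, hC.bHh] at h1
    exact h1

/-- the row `J m` -/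
theorem cb31_J {N : ℕ} (hE : C.Ev N) (hmN : C.m < N) (hT : ∀ i < C.m, C.T0 (N + i)) :
    ∃ J : ℕ, 0 < J ∧ N ≤ J * C.m ∧ J * C.m + 1 ≤ N + C.m ∧ C.T0 (J * C.m) ∧ J * C.m ≤ C.h := by
  have hm := hC.hm
  have h1 := Nat.div_add_mod (N + C.m - 1) C.m
  have h2 := Nat.mod_lt (N + C.m - 1) hm
  have h3 : (N + C.m - 1) / C.m * C.m = C.m * ((N + C.m - 1) / C.m) := mul_comm _ _
  have h4 : N ≤ (N + C.m - 1) / C.m * C.m := by
    rw [h3]
    omega
  have h5 : (N + C.m - 1) / C.m * C.m + 1 ≤ N + C.m := by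
    rw [h3]
    omega
  have hh := hE.hh
  refine ⟨(N + C.m - 1) / C.m, ?_, h4, h5, ?_, by omega⟩
  · rcases Nat.eq_zero_or_pos ((N + C.m - 1) / C.m) with h6 | h6
    · rw [h6, Nat.zero_mul] at h4
      omega
    · exact h6
  · have h6 := hT ((N + C.m - 1) / C.m * C.m - N) (by omega)
    rwa [Nat.add_sub_cancel' h4] at h6

theorem cb31_aHbK {N : ℕ} (hE : C.Ev N) (hmN : C.m < N) (hT : ∀ i < C.m, C.T0 (N + i))
    {i : ℕ} (h1 : N ≤ i + 1) (h2 : i + C.m + N ≤ C.h + 1) :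
    ((C.q : ℝ) ≤ C.aH (i + C.m) - C.aH i ∧ C.aH (i + C.m) - C.aH i ≤ C.q + 1) ∧
    ((C.q : ℝ) ≤ C.bK (i + C.m) - C.bK i ∧ C.bK (i + C.m) - C.bK i ≤ C.q + 1) := by
  obtain ⟨J, hJ0, hJ1, hJ2, ⟨t1, t2, t3, t4⟩, hJh⟩ := cb31_J hC hE hmN hT
  obtain ⟨v1, v2, v3, v4⟩ := cb31_val hC hJ0 hJh
  obtain ⟨j, rfl⟩ : ∃ j, J = j + 1 := ⟨J - 1, by omega⟩
  have e1 : (j + 1) * C.m = j * C.m + C.m := by ring
  have hk : ∀ k < j + 1, k * C.m ≤ j * C.m := fun k hk => Nat.mul_le_mul_right _ (by omega)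
  have f1 : ((C.a ((j + 1) * C.m) : ℤ) : ℝ) < C.aH ((j + 1) * C.m) + 1 := Int.ceil_lt_add_one _
  have f2 : C.aK ((j + 1) * C.m) ≤ ((C.a' ((j + 1) * C.m) : ℤ) : ℝ) := Int.le_ceil _
  refine ⟨⟨?_, ?_⟩, ⟨?_, ?_⟩⟩
  · by_contra hcon
    rw [not_le] at hcon
    have h3 := cb31_sum_lt (f := C.aH) (m := C.m) (s := 0) (r := C.q) j
      (fun k hk' => lt_of_le_of_lt
        (hC.aHconv.win (w := C.m) (by have := hk k hk'; omega) (by have := hC.cb08_m; omega)) hcon)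
    rw [Nat.zero_add, hC.aH0, sub_zero] at h3
    have g1 : C.a ((j + 1) * C.m) ≤ ((j + 1 : ℕ) : ℤ) * C.q := by
      apply Int.ceil_le.2
      push_cast at h3 ⊢
      linarith
    have g2 : ((j + 1 : ℕ) : ℤ) * C.q < C.a' ((j + 1) * C.m) := by
      apply Int.lt_ceil.2
      push_cast at v1 ⊢
      linarith
    omega
  · by_contra hcon
    rw [not_le] at hcon
    have h3 := cb31_sum_gt (f := C.aH) (m := C.m) (s := C.h - (j + 1) * C.m) (r := C.q + 1) j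
      (fun k hk' => lt_of_lt_of_le hcon
        (hC.aHconv.win (w := C.m) (by omega) (by have := hk k hk'; omega)))
    rw [Nat.sub_add_cancel hJh, hC.aHh] at h3
    have h4 : ((j + 1 : ℕ) : ℝ) * (C.q + 1) < C.rH ((j + 1) * C.m) := h3
    have g1 : ((j + 1 : ℕ) : ℤ) * (C.q + 1) ≤ C.d' ((j + 1) * C.m) := by
      apply Int.le_floor.2
      push_cast at h4 ⊢
      linarith
    have g2 : C.d ((j + 1) * C.m) < ((j + 1 : ℕ) : ℤ) * (C.q + 1) := by
      apply Int.floor_lt.2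
      push_cast at v3 ⊢
      linarith
    omega
  · by_contra hcon
    rw [not_le] at hcon
    have h3 := cb31_sum_lt (f := C.bK) (m := C.m) (s := C.h - (j + 1) * C.m) (r := C.q) j
      (fun k hk' => lt_of_le_of_lt
        (hC.bKconc.win (w := C.m) (by omega) (by have := hk k hk'; omega)) hcon)
    rw [Nat.sub_add_cancel hJh, hC.bKh] at h3
    have h4 : C.lK ((j + 1) * C.m) < ((j + 1 : ℕ) : ℝ) * C.q := h3
    have g1 : C.c ((j + 1) * C.m) ≤ ((j + 1 : ℕ) : ℤ) * C.q := by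
      apply Int.ceil_le.2
      push_cast at h4 ⊢
      linarith
    have g2 : ((j + 1 : ℕ) : ℤ) * C.q < C.c' ((j + 1) * C.m) := by
      apply Int.lt_ceil.2
      push_cast at v4 ⊢
      linarith
    omega
  · by_contra hcon
    rw [not_le] at hcon
    have h3 := cb31_sum_gt (f := C.bK) (m := C.m) (s := 0) (r := C.q + 1) j
      (fun k hk' => lt_of_lt_of_le hcon
        (hC.bKconc.win (w := C.m) (by have := hk k hk'; omega) (by have := hC.cb08_m; omega)))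
    rw [Nat.zero_add, hC.bK0, sub_zero] at h3
    have g1 : ((j + 1 : ℕ) : ℤ) * (C.q + 1) ≤ C.b' ((j + 1) * C.m) := by
      apply Int.le_floor.2
      push_cast at h3 ⊢
      linarith
    have g2 : C.b ((j + 1) * C.m) < ((j + 1 : ℕ) : ℤ) * (C.q + 1) := by
      apply Int.floor_lt.2
      push_cast at v2 ⊢
      linarith
    omega

end

theorem hw (hC : C.Ok) {N : ℕ} (hE : C.Ev N) (hmN : C.m < N) (hT : ∀ i < C.m, C.T0 (N + i))
    {i : ℕ} (h1 : N ≤ i + 1) (h2 : i + C.m + N ≤ C.h + 1) :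
    ((C.q : ℝ) ≤ C.aH (i + C.m) - C.aH i ∧ C.aH (i + C.m) - C.aH i ≤ C.q + 1) ∧
    ((C.q : ℝ) ≤ C.bK (i + C.m) - C.bK i ∧ C.bK (i + C.m) - C.bK i ≤ C.q + 1) ∧
    ((C.q : ℝ) ≤ C.rH (i + C.m) - C.rH i ∧ C.rH (i + C.m) - C.rH i ≤ C.q + 1) ∧
    ((C.q : ℝ) ≤ C.lK (i + C.m) - C.lK i ∧ C.lK (i + C.m) - C.lK i ≤ C.q + 1) := by
  obtain ⟨h3, h4⟩ := cb31_aHbK hC hE hmN hT h1 h2
  obtain ⟨h5, h6⟩ := cb31_aHbK hC hE hmN hT (i := C.h - (i + C.m)) (by omega) (by omega)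
  have e1 : C.h - (i + C.m) + C.m = C.h - i := by omega
  rw [e1] at h5 h6
  refine ⟨h3, h4, ?_, ?_⟩
  · unfold Cd.rH
    rw [sub_sub_sub_cancel_left]
    exact h5
  · unfold Cd.lK
    rw [sub_sub_sub_cancel_left]
    exact h6

theorem hw_dig (hC : C.Ok) {N : ℕ} (hE : C.Ev N) (hmN : C.m < N) (hT : ∀ i < C.m, C.T0 (N + i))
    {i : ℕ} (h1 : N ≤ i + 1) (h2 : i + C.m + N ≤ C.h + 1) :
    (C.a (i + C.m) = C.a i + C.q ∨ C.a (i + C.m) = C.a i + C.q + 1) ∧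
    (C.b' (i + C.m) = C.b' i + C.q ∨ C.b' (i + C.m) = C.b' i + C.q + 1) ∧
    (C.c (i + C.m) = C.c i + C.q ∨ C.c (i + C.m) = C.c i + C.q + 1) ∧
    (C.d' (i + C.m) = C.d' i + C.q ∨ C.d' (i + C.m) = C.d' i + C.q + 1) := by
  obtain ⟨h3, h4, h5, h6⟩ := hw hC hE hmN hT h1 h2
  exact ⟨cb31_ceil h3.1 h3.2, cb31_floor h4.1 h4.2, cb31_ceil h6.1 h6.2, cb31_floor h5.1 h5.2⟩

end Cd

end Pool.Agent.Lib.MP_bb0bab_co
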