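import Pool.Agent.Lib.MP_bb0bab_co.CB09
import Pool.Agent.Lib.MP_bb0bab_co.CB29
import Pool.Agent.Lib.MP_bb0bab_co.CB31

/-!
# CB32 forced rows for `m < N`, all `L > M ≥ 1`

PROOF. `lemF`: `s = e+m`.  By CB09 `win_a', win_b, win_c', win_d` and CB31 `hw_dig` (window `[e,s]`) and T0 at `e`: `a s = a+q+ε1`, `a' s = a+q+ε1'`, `b s = b+q+ε2`, `b' s = b+q+ε2'`, .. with all `ε ∈ {0,1}`, `a,b,c,d` the words at `e`.  Put `n_i = 1 - (ε_i' - ε_i) ∈ {0,1,2}`.
`(x-1) D_s = x^(b' s+L) - x^(a' s) - x^(b s+L) + x^(a s)` (lengths `≥ 0`), `x^ε' - x^ε = (x-1)(ε'-ε)` for bits; so, after cancelling `x-1` (CB01 `sub_one_cancel`) and `x^q`, `hF` becomes `br M (n1 x^a - n2 x^(b+L)) = br L (n3 x^c - n4 x^(d+M))`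
(`(T 1 - 1) * (T q * RH e) = T (b+q+L) - T (a+q)`).  `lam_e ≥ M ≥ 1` (`len_T0`, `e + m ≤ h`), `mu_e ≥ M ≥ 1` (`mu_T0`, `e ≥ N > m`, `d' e = d e`).  `mono4`: all `n_i = 0`: `ε = 0, ε' = 1`: `Copy e m` (`a m = q`, `a' m = q+1`).
`lemF_short`: `s = N+m ≤ h` (`2N ≤ h+1`, `m < N`), `j = h - s < N` is a full T-like row with value `V = a j`, type `τ`.  Reflection (CB07): `a s = x - d' j = x - V - τ`, `b s = xr - V - τ`, `a' s = x - V`, `b' s = xr - V`, `c s = xr - V - τ`, `d s = x - V - τ`, `c' s = xr - V`, `d' s = x - V`: so `lam_s = M`, `mu_s = L`.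
`τ = 0`: `D_s = D'_s = 0`: `br M * (T q * RH N) = br L * (T q * RG N)` (cancel `x-1`): `alg2` (after multiplying by `(x-1)²`): `lam_N = L`, `mu_N = M`, `a = c`: full, contradiction.  `τ = 1`: `D_s = (x-1) x^(a s) [M]`, `D'_s = (x-1) x^(c s) [L]`; cancel `x-1`:
`[M](x^(a s)[M] - x^q H_N) = [L](x^(c s)[L] - x^q G_N)`.  Masses: `M (M - lam_N) = L (L - mu_N)`; row `N-1` is full and letters are 0/1, so `lam_N ≥ L-1 ≥ M`, `mu_N ≤ M+1 ≤ L`: both sides are 0: `lam_N = M`, `mu_N = L`.  So `[M]²(x^(a s) - x^(q+a)) = [L]²(x^(c s) - x^(q+c))`;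
if `a s ≠ q + a` then also `c s ≠ q + c` and multiplying by `(x-1)²`: `(x^M-1)²(x^δ-1) ~ (x^L-1)²(x^δ'-1)`: `alg3`: `{M,M,δ} = {L,L,δ'}`, impossible for `M < L`.  So `a s = q + a N`, `c s = q + c N`, and with the lengths `b s = b N + q`, `d s = d N + q`, primed one more: `Copy N m`.
-/

namespace Pool.Agent.Lib.MP_bb0bab_co

open LaurentPolynomial


/-- evaluation at `2` -/
theorem cb32_ev : ∃ f : LaurentPolynomial ℤ →+* ℚ, ∀ n : ℤ, f (T n) = (2 : ℚ) ^ n := by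
  refine ⟨LaurentPolynomial.eval₂ (Int.castRingHom ℚ) (Units.mk0 (2 : ℚ) two_ne_zero), fun n => ?_⟩
  rw [eval₂_T]
  simp

/-- evaluation at `1` -/
theorem cb32_ev1 : ∃ f : LaurentPolynomial ℤ →+* ℤ, ∀ n : ℤ, f (T n) = 1 := by
  refine ⟨LaurentPolynomial.eval₂ (RingHom.id ℤ) 1, fun n => ?_⟩
  rw [eval₂_T]
  simp

theorem cb32_lt {L M : ℕ} (hM : 1 ≤ M) (hLM : M < L) {u v r w : ℤ} (huv : v < u)
    (h : ((T M - 1) ^ 2 * (T u - T v) : LaurentPolynomial ℤ) = (T L - 1) ^ 2 * (T r - T w)) :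
    False := by
  obtain ⟨f, hf⟩ := cb32_ev
  have h2 := congrArg f h
  simp only [map_mul, map_pow, map_sub, map_one, hf] at h2
  have hm : (0 : ℚ) < (2 : ℚ) ^ (M : ℤ) - 1 := by
    have : (1 : ℚ) < (2 : ℚ) ^ (M : ℤ) := one_lt_zpow₀ (by norm_num) (by exact_mod_cast hM)
    linarith
  have hl : (0 : ℚ) < (2 : ℚ) ^ (L : ℤ) - 1 := by
    have : (1 : ℚ) < (2 : ℚ) ^ (L : ℤ) := one_lt_zpow₀ (by norm_num) (by omega)
    linarith
  have h3 : (0 : ℚ) < (2 : ℚ) ^ u - 2 ^ v := by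
    have := zpow_lt_zpow_right₀ (a := (2 : ℚ)) (by norm_num) huv
    linarith
  have h4 : (0 : ℚ) < (2 : ℚ) ^ r - 2 ^ w := by
    have h5 : 0 < ((2 : ℚ) ^ (L : ℤ) - 1) ^ 2 * ((2 : ℚ) ^ r - 2 ^ w) := by
      rw [← h2]
      positivity
    exact pos_of_mul_pos_right h5 (by positivity)
  have hwr : w < r := by
    by_contra hc
    have := zpow_le_zpow_right₀ (a := (2 : ℚ)) (by norm_num) (not_lt.1 hc)
    linarith
  obtain ⟨n, hn⟩ : ∃ n : ℕ, u = v + n := ⟨(u - v).toNat, by omega⟩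
  obtain ⟨k, hk⟩ : ∃ k : ℕ, r = w + k := ⟨(r - w).toNat, by omega⟩
  have h6 : (T v : LaurentPolynomial ℤ) * ((T M - 1) * (T M - 1) * (T n - 1)) =
      T w * ((T L - 1) * (T L - 1) * (T k - 1)) := by
    rw [hn, hk, T_add, T_add] at h
    linear_combination h
  obtain ⟨_, h7⟩ := alg3 (by omega) (by omega) (by omega) (by omega) (by omega) (by omega) h6
  have h8 := congrArg (Multiset.count M) h7
  have h9 := congrArg (Multiset.count L) h7
  simp only [Multiset.insert_eq_cons, Multiset.count_cons, Multiset.count_singleton] at h8 h9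
  split_ifs at h8 h9 <;> omega

theorem cb32_eq {L M : ℕ} (hM : 1 ≤ M) (hLM : M < L) {u v r w : ℤ}
    (h : ((T M - 1) ^ 2 * (T u - T v) : LaurentPolynomial ℤ) = (T L - 1) ^ 2 * (T r - T w)) :
    u = v ∧ r = w := by
  have h1 : u = v := by
    rcases lt_trichotomy u v with h1 | h1 | h1
    · exact (cb32_lt hM hLM h1 (r := w) (w := r) (by linear_combination -h)).elim
    · exact h1
    · exact (cb32_lt hM hLM h1 h).elim
  refine ⟨h1, ?_⟩
  obtain ⟨f, hf⟩ := cb32_ev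
  have h2 := congrArg f h
  simp only [map_mul, map_pow, map_sub, map_one, hf] at h2
  have hl : (0 : ℚ) < (2 : ℚ) ^ (L : ℤ) - 1 := by
    have : (1 : ℚ) < (2 : ℚ) ^ (L : ℤ) := one_lt_zpow₀ (by norm_num) (by omega)
    linarith
  rw [h1, sub_self, mul_zero, eq_comm, mul_eq_zero] at h2
  rcases h2 with h2 | h2
  · exact absurd h2 (by positivity)
  · exact zpow_right_injective₀ (a := (2 : ℚ)) (by norm_num) (by norm_num) (sub_eq_zero.1 h2)

/-- the bracket of a forced row -/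
theorem cb32_br {A A' B B' α β K : ℤ} (hA : A = α ∨ A = α + 1) (hA' : A' = α ∨ A' = α + 1)
    (hB : B = β ∨ B = β + 1) (hB' : B' = β ∨ B' = β + 1) (h1 : A ≤ B + K) (h2 : A' ≤ B' + K)
    (h3 : α ≤ β + K) : ∃ n1 n2 : ℕ,
      rowPoly A' (B' + K - 1) - rowPoly A (B + K - 1) - (T 1 - 1) * rowPoly α (β + K - 1) =
        (n1 : LaurentPolynomial ℤ) * T α - (n2 : LaurentPolynomial ℤ) * T (β + K) ∧
      (n1 = 0 → A = α ∧ A' = α + 1) ∧ (n2 = 0 → B = β ∧ B' = β + 1) := by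
  have e1 := sub_one_mul_rowPoly (a := A) (b := B + K - 1) (by omega)
  have e2 := sub_one_mul_rowPoly (a := A') (b := B' + K - 1) (by omega)
  have e3 := sub_one_mul_rowPoly (a := α) (b := β + K - 1) (by omega)
  rw [sub_add_cancel] at e1 e2 e3
  have key : ∃ n1 n2 : ℕ, ((T (B' + K) - T A') - (T (B + K) - T A) -
        (T 1 - 1) * (T (β + K) - T α) : LaurentPolynomial ℤ) =
        (T 1 - 1) * ((n1 : LaurentPolynomial ℤ) * T α - (n2 : LaurentPolynomial ℤ) * T (β + K)) ∧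
      (n1 = 0 → A = α ∧ A' = α + 1) ∧ (n2 = 0 → B = β ∧ B' = β + 1) := by
    have t1 : (T (α + 1) : LaurentPolynomial ℤ) = T α * T 1 := T_add _ _
    have t2 : (T (β + 1 + K) : LaurentPolynomial ℤ) = T (β + K) * T 1 := by
      rw [← T_add]
      congr 1
      ring
    rcases hA with rfl | rfl <;> rcases hA' with rfl | rfl <;> rcases hB with rfl | rfl <;>
      rcases hB' with rfl | rfl
    · exact ⟨1, 1, by push_cast; ring, by simp, by simp⟩
    · exact ⟨1, 0, by rw [t2]; push_cast; ring, by simp, by simp⟩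
    · exact ⟨1, 2, by rw [t2]; push_cast; ring, by simp, by simp⟩
    · exact ⟨1, 1, by push_cast; ring, by simp, by simp⟩
    · exact ⟨0, 1, by rw [t1]; push_cast; ring, by simp, by simp⟩
    · exact ⟨0, 0, by rw [t1, t2]; push_cast; ring, by simp, by simp⟩
    · exact ⟨0, 2, by rw [t1, t2]; push_cast; ring, by simp, by simp⟩
    · exact ⟨0, 1, by rw [t1]; push_cast; ring, by simp, by simp⟩
    · exact ⟨2, 1, by rw [t1]; push_cast; ring, by simp, by simp⟩
    · exact ⟨2, 0, by rw [t1, t2]; push_cast; ring, by simp, by simp⟩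
    · exact ⟨2, 2, by rw [t1, t2]; push_cast; ring, by simp, by simp⟩
    · exact ⟨2, 1, by rw [t1]; push_cast; ring, by simp, by simp⟩
    · exact ⟨1, 1, by push_cast; ring, by simp, by simp⟩
    · exact ⟨1, 0, by rw [t2]; push_cast; ring, by simp, by simp⟩
    · exact ⟨1, 2, by rw [t2]; push_cast; ring, by simp, by simp⟩
    · exact ⟨1, 1, by push_cast; ring, by simp, by simp⟩
  obtain ⟨n1, n2, h, h'⟩ := key
  refine ⟨n1, n2, ?_, h'⟩
  apply sub_one_cancel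
  rw [← h, mul_sub, mul_sub, e1, e2, ← e3]

namespace Cd

variable {C : Cd}

theorem cb32_H (hC : C.Ok) {i : ℕ} (hi : i ≤ C.h) : C.a i ≤ C.b i + C.L := by
  have h1 := hC.abH i hi
  have h2 := Int.ceil_lt_add_one (C.aH i)
  have h3 := Int.lt_floor_add_one (C.bH i)
  have h4 : (C.a i : ℝ) < C.b i + C.L + 1 := by
    unfold Cd.a Cd.b
    linarith
  have h5 : C.a i < C.b i + C.L + 1 := by exact_mod_cast h4
  omega

theorem cb32_K (hC : C.Ok) {i : ℕ} (hi : i ≤ C.h) : C.a' i ≤ C.b' i + C.L := by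
  have h1 := hC.abK i hi
  have h2 := Int.ceil_lt_add_one (C.aK i)
  have h3 := Int.lt_floor_add_one (C.bK i)
  have h4 : (C.a' i : ℝ) < C.b' i + C.L + 1 := by
    unfold Cd.a' Cd.b'
    linarith
  have h5 : C.a' i < C.b' i + C.L + 1 := by exact_mod_cast h4
  omega

theorem cb32_G (hC : C.Ok) {i : ℕ} (hi : i ≤ C.h) : C.c i ≤ C.d i + C.M := by
  have h1 := cb32_K hC (i := C.h - i) (Nat.sub_le _ _)
  rw [C.c_eq, C.d_eq]
  unfold Cd.xr
  omega

theorem cb32_G' (hC : C.Ok) {i : ℕ} (hi : i ≤ C.h) : C.c' i ≤ C.d' i + C.M := by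
  have h1 := cb32_H hC (i := C.h - i) (Nat.sub_le _ _)
  rw [C.c'_eq, C.d'_eq]
  unfold Cd.xr
  omega

theorem lemF (hC : C.Ok) {N e : ℕ} (hE : C.Ev N) (hmN : C.m < N) (hT : ∀ i < C.m, C.T0 (N + i))
    (he : N ≤ e) (hs : e + C.m + N ≤ C.h + 1) (h0 : C.T0 e) (hnf : ¬ C.Full e)
    (hF : C.F C.q e (e + C.m)) : C.Copy e C.m := by
  have hN1 := hE.pos
  have hM := hC.hM
  have hLM := hC.hLM
  have hem : e + C.m ≤ C.h := by omega
  obtain ⟨w1, w2, w3, w4⟩ := hw_dig hC hE hmN hT (i := e) (by omega) (by omega)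
  have w5 := hC.win_a' (i := e) hem
  have w6 := hC.win_b (i := e) hem
  have w7 := hC.win_c' (i := e) hem
  have w8 := hC.win_d (i := e) hem
  obtain ⟨t1, t2, t3, t4⟩ := h0
  rw [t2] at w2
  rw [t4] at w4
  rw [t1] at w5
  rw [t3] at w7
  have l1 := hC.len_T0 hem t2
  have l2 := hC.mu_T0 (j := e) (by omega) (by omega)
  rw [t4] at l2
  have n1 := cb32_H hC (i := e + C.m) hem
  have n2 := cb32_K hC (i := e + C.m) hem
  have n3 := cb32_G hC (i := e + C.m) hem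
  have n4 := cb32_G' hC (i := e + C.m) hem
  obtain ⟨k1, k2, hk, hk1, hk2⟩ := cb32_br (K := C.L) w1 w5 w6 w2 n1 n2 (by omega)
  obtain ⟨k3, k4, hl, hk3, hk4⟩ := cb32_br (K := C.M) w3 w7 w8 w4 n3 n4 (by omega)
  unfold Cd.F Cd.RK Cd.RH Cd.RG Cd.RG' at hF
  rw [T_mul_rowPoly, T_mul_rowPoly,
    show C.q + C.a e = C.a e + C.q by ring, show C.q + (C.b e + C.L - 1) = C.b e + C.q + C.L - 1 by ring,
    show C.q + C.c e = C.c e + C.q by ring, show C.q + (C.d e + C.M - 1) = C.d e + C.q + C.M - 1 by ring,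
    hk, hl] at hF
  obtain ⟨z1, z2, z3, z4⟩ := mono4 hM hLM (a := C.a e + C.q) (b := C.b e + C.q) (c := C.c e + C.q)
    (d := C.d e + C.q) (by omega) (by omega)
    (fun hh => hnf ⟨by omega, by omega, by omega⟩) hF
  have c1 := hk1 z1
  have c2 := hk2 z2
  have c3 := hk3 z3
  have c4 := hk4 z4
  have am := hC.am
  have am' := hC.am'
  refine ⟨?_, ?_, ?_, ?_, ?_, ?_, ?_, ?_⟩ <;> omega

theorem lemF_short (hC : C.Ok) {N : ℕ} (hE : C.Ev N) (hmN : C.m < N)
    (hs : C.h + 1 < N + C.m + N) (hF : C.F C.q N (N + C.m)) : C.Copy N C.m := by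
  have hN1 := hE.pos
  have hM := hC.hM
  have hLM := hC.hLM
  have hh := hE.hh
  have hNm : N + C.m ≤ C.h := by omega
  -- the mirror row
  have hj : C.h - (N + C.m) < N := by omega
  obtain ⟨f1, f2, f3⟩ := hE.full _ hj
  have htl := hE.tl _ hj
  have g1 := C.c_eq (C.h - (N + C.m))
  have g2 := C.d_eq (C.h - (N + C.m))
  have g3 := C.c'_eq (C.h - (N + C.m))
  have g4 := C.d'_eq (C.h - (N + C.m))
  have g5 := C.c_eq (N + C.m)
  have g6 := C.d_eq (N + C.m)
  have g7 := C.c'_eq (N + C.m)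
  have g8 := C.d'_eq (N + C.m)
  rw [Nat.sub_sub_self hNm] at g1 g2 g3 g4
  obtain ⟨t1, t2, t3, t4⟩ := hE.t0
  have l1 := hC.len_T0 hNm t2
  have l2 := hC.mu_T0 (j := N) (by omega) (by omega)
  rw [t4] at l2
  have hxr : C.xr = C.x - (C.L - C.M) := rfl
  have am := hC.am
  have am' := hC.am'
  -- lengths
  obtain ⟨lam, hlam⟩ : ∃ lam : ℕ, C.b N + C.L = C.a N + lam :=
    ⟨(C.b N + C.L - C.a N).toNat, by omega⟩
  obtain ⟨mu, hmu⟩ : ∃ mu : ℕ, C.d N + C.M = C.c N + mu :=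
    ⟨(C.d N + C.M - C.c N).toNat, by omega⟩
  have hlam1 : C.M ≤ lam := by omega
  have hmu1 : C.M ≤ mu := by omega
  have rH : C.RH N = T (C.a N) * br lam := by
    rw [← rowPoly_len, ← hlam]
    rfl
  have rG : C.RG N = T (C.c N) * br mu := by
    rw [← rowPoly_len, ← hmu]
    rfl
  have bL : (T 1 - 1) * br (C.L : ℤ) = T (C.L : ℤ) - 1 := by
    unfold br
    rw [sub_one_mul_rowPoly (by omega), sub_add_cancel, T_zero]
  have bM : (T 1 - 1) * br (C.M : ℤ) = T (C.M : ℤ) - 1 := by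
    unfold br
    rw [sub_one_mul_rowPoly (by omega), sub_add_cancel, T_zero]
  have blam : (T 1 - 1) * br (lam : ℤ) = T (lam : ℤ) - 1 := by
    unfold br
    rw [sub_one_mul_rowPoly (by omega), sub_add_cancel, T_zero]
  have bmu : (T 1 - 1) * br (mu : ℤ) = T (mu : ℤ) - 1 := by
    unfold br
    rw [sub_one_mul_rowPoly (by omega), sub_add_cancel, T_zero]
  -- the row `N + m`
  rcases htl with ht | ht
  · exfalso
    obtain ⟨u1, u2, u3, u4⟩ := ht
    have hKH : C.RK (N + C.m) = C.RH (N + C.m) := by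
      unfold Cd.RK Cd.RH
      rw [show C.a' (N + C.m) = C.a (N + C.m) by omega, show C.b' (N + C.m) = C.b (N + C.m) by omega]
    have hGG : C.RG' (N + C.m) = C.RG (N + C.m) := by
      unfold Cd.RG' Cd.RG
      rw [show C.c' (N + C.m) = C.c (N + C.m) by omega, show C.d' (N + C.m) = C.d (N + C.m) by omega]
    unfold Cd.F at hF
    rw [hKH, hGG, rH, rG, sub_self, sub_self, zero_sub, zero_sub] at hF
    have e1 : (T 1 - 1) * (T C.q * (br (C.M : ℤ) * (T (C.a N) * br lam))) =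
        (T 1 - 1) * (T C.q * (br (C.L : ℤ) * (T (C.c N) * br mu))) := by
      linear_combination -hF
    have e2 := sub_one_cancel e1
    have e3 : (T (C.q + C.a N) : LaurentPolynomial ℤ) * ((T (C.M : ℤ) - 1) * (T (lam : ℤ) - 1)) =
        T (C.q + C.c N) * ((T (C.L : ℤ) - 1) * (T (mu : ℤ) - 1)) := by
      rw [← bL, ← bM, ← blam, ← bmu, T_add, T_add]
      linear_combination (T 1 - 1) ^ 2 * e2
    obtain ⟨e4, e5⟩ := alg2 (by omega) (by omega) (by omega) (by omega) e3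
    rcases e5 with e5 | e5
    · omega
    · exact hE.nf ⟨by omega, by omega, by omega⟩
  · obtain ⟨u1, u2, u3, u4⟩ := ht
    -- names
    obtain ⟨p, hp⟩ : ∃ p : ℤ, p = C.a (N + C.m) := ⟨_, rfl⟩
    obtain ⟨r, hr⟩ : ∃ r : ℤ, r = C.c (N + C.m) := ⟨_, rfl⟩
    have hRH : C.RH (N + C.m) = T p * br (C.M : ℤ) := by
      rw [← rowPoly_len]
      unfold Cd.RH
      congr 1 <;> omega
    have hRK : C.RK (N + C.m) = T (p + 1) * br (C.M : ℤ) := by
      rw [← rowPoly_len]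
      unfold Cd.RK
      congr 1 <;> omega
    have hRG : C.RG (N + C.m) = T r * br (C.L : ℤ) := by
      rw [← rowPoly_len]
      unfold Cd.RG
      congr 1 <;> omega
    have hRG' : C.RG' (N + C.m) = T (r + 1) * br (C.L : ℤ) := by
      rw [← rowPoly_len]
      unfold Cd.RG'
      congr 1 <;> omega
    unfold Cd.F at hF
    rw [hRH, hRK, hRG, hRG', rH, rG, T_add, T_add] at hF
    have e1 : (T 1 - 1) * (br (C.M : ℤ) * (T p * br (C.M : ℤ) - T C.q * (T (C.a N) * br lam))) =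
        (T 1 - 1) * (br (C.L : ℤ) * (T r * br (C.L : ℤ) - T C.q * (T (C.c N) * br mu))) := by
      linear_combination hF
    have e2 := sub_one_cancel e1
    -- masses
    obtain ⟨f, hf⟩ := cb32_ev1
    have hbr : ∀ n : ℕ, f (br (n : ℤ)) = n := by
      intro n
      unfold br
      rw [eval_rowPoly f (hf 1)]
      congr 1
      omega
    have e3 := congrArg f e2
    simp only [map_mul, map_sub, hbr, hf, one_mul] at e3
    -- the previous row
    obtain ⟨v1, v2, v3⟩ := hE.full (N - 1) (by omega)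
    have d1 := hC.d_mono (i := N - 1) (j := N) (by omega) (by omega)
    have d2 := hC.c_mono (i := N - 1) (j := N) (by omega) (by omega)
    have hmuL : (mu : ℤ) ≤ C.L := by
      have : ((N - 1 : ℕ) : ℤ) = N - 1 := by omega
      omega
    have k1 : (C.M : ℤ) * (C.M - lam) ≤ 0 :=
      mul_nonpos_of_nonneg_of_nonpos (by omega) (by omega)
    have k2 : (0 : ℤ) ≤ (C.L : ℤ) * (C.L - mu) := mul_nonneg (by omega) (by omega)
    have k3 : (C.M : ℤ) * (C.M - lam) = 0 := by linarith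
    have k4 : (C.L : ℤ) * (C.L - mu) = 0 := by linarith
    have k5 : (lam : ℤ) = C.M := by
      rcases mul_eq_zero.1 k3 with h | h <;> omega
    have k6 : (mu : ℤ) = C.L := by
      rcases mul_eq_zero.1 k4 with h | h <;> omega
    rw [k5, k6] at e2
    have e4 : ((T (C.M : ℤ) - 1) ^ 2 * (T p - T (C.q + C.a N)) : LaurentPolynomial ℤ) =
        (T (C.L : ℤ) - 1) ^ 2 * (T r - T (C.q + C.c N)) := by
      rw [← bL, ← bM, T_add, T_add]
      linear_combination (T 1 - 1) ^ 2 * e2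
    obtain ⟨e5, e6⟩ := cb32_eq hM hLM e4
    refine ⟨?_, ?_, ?_, ?_, ?_, ?_, ?_, ?_⟩ <;> omega

end Cd

end Pool.Agent.Lib.MP_bb0bab_co
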