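import Pool.Agent.Lib.MP_bb0bab_co.CB13
import Pool.Agent.Lib.MP_bb0bab_co.CB15
import Pool.Agent.Lib.MP_bb0bab_co.CB32

/-!
# CB20 the first rows of a block (all M)
-/

namespace Pool.Agent.Lib.MP_bb0bab_co

open LaurentPolynomial

namespace Cd

variable {C : Cd}

theorem cb20_van (hC : C.Ok) {N e i : ℕ} (hmN : C.m < N) (hP : C.Pre N e) (hi : i ≤ C.m)
    (hc : ∀ j < i, C.T0 (e + j)) : C.Van N (e + i) := by
  intro j hj
  by_cases hje : j < e
  · exact hP.van j hje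
  · obtain ⟨k, rfl⟩ := Nat.exists_eq_add_of_le (not_lt.mp hje)
    exact van_T0 hC hP hmN (by omega) (fun j hj' => hc j (by omega))

theorem rows_T0 (hC : C.Ok) {N e : ℕ} (hE : C.Ev N) (hmN : C.m < N) (hNR : C.NR N)
    (hP : C.Pre N e) (hl : e = N ∨ C.T0 (N - 1)) : ∀ i < C.m, e + i ≤ C.h → C.T0 (e + i) := by
  intro i
  induction i using Nat.strong_induction_on with
  | _ i ih =>
    intro hi hs
    have hc : ∀ j < i, C.T0 (e + j) := fun j hj => ih j hj (by omega) (by omega)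
    by_cases hN : e + i = N
    · rw [hN]
      exact hE.t0
    have hle := hP.le
    have hv := cb20_van hC hmN hP hi.le hc
    have h1 := eq_of_van hC hs hv
    obtain ⟨h2, h3⟩ := EE_T0 hC hP hmN hi.le hc
    have h4 : C.a' i = C.a i := (hC.low i hi).1
    rw [h4, sub_self, zero_mul, sub_zero] at h2 h3
    rw [h2, h3] at h1
    have ht : C.T0 (e + i - 1) := by
      rcases Nat.eq_zero_or_pos i with h0 | h0
      · have hT := hl.resolve_left (by omega)
        obtain ⟨c1, c2, c3, c4, c5, c6, c7, c8⟩ := hP.cop (N - 1) (by omega)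
        obtain ⟨t1, -, -, -⟩ := hT
        have h6 : e - N + (N - 1) = e + i - 1 := by omega
        rw [h6] at c1 c2 c3 c4 c5 c6 c7 c8
        exact ⟨by rw [c5, c1, t1], by rw [c6, c2, t1], by rw [c7, c3, t1], by rw [c8, c4, t1]⟩
      · have h5 := hc (i - 1) (by omega)
        have h6 : e + (i - 1) = e + i - 1 := by omega
        rwa [h6] at h5
    rcases lemZ hC (by omega) hs (Or.inl ht) h1 with h5 | h5
    · exact h5
    · exact absurd h5 (hNR _ (by omega) hs)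

theorem cb20_F (hC : C.Ok) {N e : ℕ} (hE : C.Ev N) (hmN : C.m < N)
    (hNR : C.NR N) (hP : C.Pre N e) (hl : e = N ∨ C.T0 (N - 1)) (hs : e + C.m ≤ C.h) :
    C.T0 e ∧ C.F C.q e (e + C.m) := by
  have hm := hC.hm
  have hr := rows_T0 hC hE hmN hNR hP hl
  have hc : ∀ j < C.m, C.T0 (e + j) := fun j hj => hr j hj (by omega)
  have h1 := eq_of_van hC hs (cb20_van hC hmN hP le_rfl hc)
  obtain ⟨h2, h3⟩ := EE_T0 hC hP hmN le_rfl hc
  have h4 : (T (C.a' C.m) - T (C.a C.m) : LaurentPolynomial ℤ) = (T 1 - 1) * T C.q := by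
    rw [hC.am', hC.am, sub_mul, one_mul, ← T_add, add_comm]
  rw [h4, mul_assoc] at h2 h3
  rw [h2, h3] at h1
  exact ⟨hr 0 (by omega) (by omega), h1⟩

theorem cb20_hT (hC : C.Ok) {N : ℕ} (hE : C.Ev N) (hmN : C.m < N) (hNR : C.NR N) :
    ∀ i < C.m, C.T0 (N + i) := by
  intro i hi
  have hh := hE.hh
  exact rows_T0 hC hE hmN hNR (pre_event hC hE) (Or.inl rfl) i hi (by omega)

theorem forced_copy (hC : C.Ok) {N e : ℕ} (hE : C.Ev N) (hmN : C.m < N)
    (hNR : C.NR N) (hP : C.Pre N e) (hl : e = N ∨ C.T0 (N - 1)) (hs : e + C.m + N ≤ C.h + 1)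
    (hnf : ¬ C.Full e) : C.Copy e C.m := by
  obtain ⟨h0, hF⟩ := cb20_F hC hE hmN hNR hP hl (by omega)
  exact lemF hC hE hmN (cb20_hT hC hE hmN hNR) hP.le hs h0 hnf hF

theorem forced_copyN (hC : C.Ok) {N : ℕ} (hE : C.Ev N) (hmN : C.m < N)
    (hNR : C.NR N) : C.Copy N C.m := by
  have hh := hE.hh
  by_cases hs : N + C.m + N ≤ C.h + 1
  · exact forced_copy hC hE hmN hNR (pre_event hC hE) (Or.inl rfl) hs hE.nf
  · obtain ⟨-, hF⟩ := cb20_F hC hE hmN hNR (pre_event hC hE) (Or.inl rfl) (by omega)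
    exact lemF_short hC hE hmN (by omega) hF

end Cd

end Pool.Agent.Lib.MP_bb0bab_co
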