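import Pool.Agent.Lib.MP_bb0bab_co.CB06

/-!
# CB21 the pair lemma

`f, f'` convex (left chains), `g, g'` concave (right chains), all 0 at 0; rows `i < N` have
`⌈f i⌉ = ⌊g i⌋ = V i`, `⌈f' i⌉ = ⌊g' i⌋ = V' i`.
-/

namespace Pool.Agent.Lib.MP_bb0bab_co

open LaurentPolynomial

/-- step (c): `z` or `N - z` satisfies `ZS` -/
theorem ZS_or {N : ℕ} {A : ℤ} {y : ℕ} (hyN : y ≤ N) (hN : 0 < N) :
    ZS N A y ∨ ZS N A (N - y) := by
  have hN' : (0 : ℤ) < N := by exact_mod_cast hN
  obtain ⟨r, k, hr0, hrN, hk⟩ : ∃ r k : ℤ, 0 ≤ r ∧ r < N ∧ N * k = y * A + r := by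
    refine ⟨(-(y * A)) % N, -((-(y * A)) / N), Int.emod_nonneg _ hN'.ne', Int.emod_lt_of_pos _ hN',
      ?_⟩
    have := Int.mul_ediv_add_emod (-(y * A)) N
    linarith
  by_cases h : r ≤ y
  · left
    exact ⟨k, by linarith, by linarith⟩
  · right
    refine ⟨A + 1 - k, ?_, ?_⟩
    · rw [Nat.cast_sub hyN]
      linarith
    · rw [Nat.cast_sub hyN]
      push Not at h
      linarith

/-- step (a) for one pair of chains: bounds at `z` from the chord `0, N` -/
theorem pl_upper {N m : ℕ} {A w B : ℤ} {f : ℕ → ℝ} (hN : 0 < N) (cf : ConvN (N + m) f)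
    {s z : ℕ} (hs : s ≤ m) (hz : z ≤ N) (h0 : f s ≤ B) (h1 : f (s + N) ≤ A + B)
    (hw : (z : ℤ) * A ≤ N * w) : f (s + z) ≤ B + w := by
  have h2 := cf.chord (i := s) (j := s + z) (k := s + N) (by omega) (by omega) (by omega)
  push_cast at h2
  have h3 : (0 : ℝ) ≤ z := Nat.cast_nonneg z
  have h4 : (z : ℝ) ≤ N := by exact_mod_cast hz
  have h5 : (z : ℝ) * A ≤ N * w := by exact_mod_cast hw
  have h6 : (0 : ℝ) < N := by exact_mod_cast hN
  have h7 : (N : ℝ) * f (s + z) ≤ N * (B + w) := by
    nlinarith [mul_le_mul_of_nonneg_left h0 (sub_nonneg.2 h4), mul_le_mul_of_nonneg_left h1 h3]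
  exact le_of_mul_le_mul_left h7 h6

theorem pl_lower {N m : ℕ} {A w B : ℤ} {g : ℕ → ℝ} (hN : 0 < N) (cg : ConcN (N + m) g)
    {s z : ℕ} (hs : s ≤ m) (hz : z ≤ N) (h0 : B ≤ g s) (h1 : (A : ℝ) + B ≤ g (s + N))
    (hw : N * w ≤ (z : ℤ) * A) : (B : ℝ) + w ≤ g (s + z) := by
  have h2 := cg.chord (i := s) (j := s + z) (k := s + N) (by omega) (by omega) (by omega)
  push_cast at h2
  have h3 : (0 : ℝ) ≤ z := Nat.cast_nonneg z
  have h4 : (z : ℝ) ≤ N := by exact_mod_cast hz
  have h5 : (N : ℝ) * w ≤ z * A := by exact_mod_cast hw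
  have h6 : (0 : ℝ) < N := by exact_mod_cast hN
  have h7 : (N : ℝ) * (B + w) ≤ N * g (s + z) := by
    nlinarith [mul_le_mul_of_nonneg_left h0 (sub_nonneg.2 h4), mul_le_mul_of_nonneg_left h1 h3]
  exact le_of_mul_le_mul_left h7 h6

theorem pair_lemma {N m : ℕ} {q A : ℤ} {f f' g g' : ℕ → ℝ} {V V' : ℕ → ℤ}
    (hm : 1 ≤ m) (hmN : m < N) (hA0 : 0 ≤ A) (hAN : A < N)
    (f0 : f 0 = 0) (f0' : f' 0 = 0) (g0 : g 0 = 0) (g0' : g' 0 = 0)
    (cf : ConvN (N + m) f) (cf' : ConvN (N + m) f') (cg : ConcN (N + m) g) (cg' : ConcN (N + m) g')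
    (hf : ∀ i < N, ⌈f i⌉ = V i) (hf' : ∀ i < N, ⌈f' i⌉ = V' i)
    (hg : ∀ i < N, ⌊g i⌋ = V i) (hg' : ∀ i < N, ⌊g' i⌋ = V' i)
    (hV : ∀ i < N, V' i = V i ∨ V' i = V i + 1) (hlow : ∀ i < m, V' i = V i)
    (hVm : V m = q) (hVm' : V' m = q + 1)
    (fN : f N ≤ A) (fN' : f' N ≤ A) (gN : (A : ℝ) + 1 ≤ g N) (gN' : (A : ℝ) + 1 ≤ g' N)
    (fNm : f (N + m) ≤ A + q) (gNm' : (A : ℝ) + q + 2 ≤ g' (N + m)) :
    NTH N (N - m) A ∧
    ∀ i, 0 < i → i < N → (V' i = V i + 1 ↔ m ≤ i ∧ ZS N A (N - i)) := by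
  have hN : 0 < N := by omega
  have hNr : (0 : ℝ) < N := by exact_mod_cast hN
  -- (a)
  have ha : ∀ z, z < N → ZS N A z → V' z = V z := by
    intro z hz hZ
    obtain ⟨w, hw1, hw2⟩ := hZ
    have u1 := pl_upper (B := 0) (A := A) (w := w) hN cf (s := 0) (z := z) (by omega) (by omega)
      (by rw [f0]; simp) (by rw [zero_add]; push_cast; linarith) hw1
    have u2 := pl_upper (B := 0) (A := A) (w := w) hN cf' (s := 0) (z := z) (by omega) (by omega)
      (by rw [f0']; simp) (by rw [zero_add]; push_cast; linarith) hw1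
    have l1 := pl_lower (B := 0) (A := A + 1) (w := w) hN cg (s := 0) (z := z) (by omega) (by omega)
      (by rw [g0]; simp) (by rw [zero_add]; push_cast; linarith) hw2
    have l2 := pl_lower (B := 0) (A := A + 1) (w := w) hN cg' (s := 0) (z := z) (by omega) (by omega)
      (by rw [g0']; simp) (by rw [zero_add]; push_cast; linarith) hw2
    rw [zero_add] at u1 u2 l1 l2
    have e1 : V z ≤ w := by
      rw [← hf z hz]
      apply Int.ceil_le.2
      push_cast at u1
      linarith
    have e2 : V' z ≤ w := by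
      rw [← hf' z hz]
      apply Int.ceil_le.2
      push_cast at u2
      linarith
    have e3 : w ≤ V z := by
      rw [← hg z hz]
      apply Int.le_floor.2
      push_cast at l1
      linarith
    have e4 : w ≤ V' z := by
      rw [← hg' z hz]
      apply Int.le_floor.2
      push_cast at l2
      linarith
    omega
  have fm : f m ≤ q := by
    have := Int.le_ceil (f m)
    rw [hf m hmN, hVm] at this
    exact this
  have gm' : ((q + 1 : ℤ) : ℝ) ≤ g' m := by
    have := Int.floor_le (g' m)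
    rw [hg' m hmN, hVm'] at this
    exact this
  -- (b)
  have hb : ∀ z, m + z < N → ZS N A z → V' (m + z) = V (m + z) + 1 := by
    intro z hz hZ
    obtain ⟨w, hw1, hw2⟩ := hZ
    have u1 := pl_upper (B := q) (A := A) (w := w) hN cf (s := m) (z := z) le_rfl (by omega)
      fm (by rw [add_comm m N]; exact fNm) hw1
    have l1 := pl_lower (B := q + 1) (A := A + 1) (w := w) hN cg' (s := m) (z := z) le_rfl (by omega)
      gm' (by rw [add_comm m N]; push_cast; linarith) hw2
    have e1 : V (m + z) ≤ q + w := by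
      rw [← hf _ hz]
      apply Int.ceil_le.2
      push_cast
      exact u1
    have e2 : q + 1 + w ≤ V' (m + z) := by
      rw [← hg' _ hz]
      apply Int.le_floor.2
      push_cast at l1 ⊢
      exact l1
    have := hV _ hz
    omega
  have hz0 : ZS N A 0 := ⟨0, by simp, by simp⟩
  have hb' : ∀ z, m + z < N → ZS N A z → ¬ ZS N A (m + z) := by
    intro z hz hZ hZ'
    have h1 := ha _ hz hZ'
    have h2 := hb z hz hZ
    omega
  have hc : ∀ z, z < N - m → ZS N A z → ZS N A (N - m - z) := by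
    intro z hz hZ
    have h1 := hb' z (by omega) hZ
    rcases ZS_or (N := N) (A := A) (y := m + z) (by omega) hN with h2 | h2
    · exact absurd h2 h1
    · rwa [show N - (m + z) = N - m - z by omega] at h2
  have hT1 : ∀ j, 0 < j → j ≤ N - m → ZS N A j → V' (N - j) = V (N - j) + 1 := by
    intro j hj0 hj hZ
    have h1 : ZS N A (N - m - j) := by
      rcases Nat.eq_or_lt_of_le hj with h | h
      · rw [h, Nat.sub_self]
        exact hz0
      · exact hc j h hZ
    have h2 := hb (N - m - j) (by omega) h1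
    rwa [show m + (N - m - j) = N - j by omega] at h2
  have hlast : ∀ i, 0 < i → i < N → (V' i = V i + 1 ↔ m ≤ i ∧ ZS N A (N - i)) := by
    intro i hi0 hi
    constructor
    · intro h
      have h1 : m ≤ i := by
        by_contra hlt
        have := hlow i (by omega)
        omega
      refine ⟨h1, ?_⟩
      rcases ZS_or (N := N) (A := A) (y := i) hi.le hN with h2 | h2
      · have := ha i hi h2
        omega
      · exact h2
    · rintro ⟨h1, h2⟩
      have h3 := hT1 (N - i) (by omega) (by omega) h2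
      rwa [show N - (N - i) = i by omega] at h3
  refine ⟨⟨by omega, by omega, hA0, hAN, ?_, ?_, ?_, ?_⟩, hlast⟩
  · have := hc 0 (by omega) hz0
    rwa [Nat.sub_zero] at this
  · intro j _ hj hZ
    exact hc j hj hZ
  · intro j k hj0 hj hZ hk0 hkj
    have hT := hT1 j hj0 hj hZ
    have hi : N - j < N := by omega
    have hji : (N - j) + j = N := by omega
    -- `w`
    obtain ⟨w, hw⟩ : ∃ w : ℤ, w = A - V (N - j) := ⟨_, rfl⟩
    have e1 : (A : ℝ) - w < f' (N - j) := by
      have h1 := Int.ceil_lt_add_one (f' (N - j))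
      rw [hf' _ hi, hT] at h1
      push_cast at h1
      rw [hw]
      push_cast
      linarith
    have e2 : g (N - j) < (A : ℝ) - w + 1 := by
      have h1 := Int.lt_floor_add_one (g (N - j))
      rw [hg _ hi] at h1
      rw [hw]
      push_cast
      linarith
    have hwin' : ∀ x, x + j < N → V' (x + j) ≤ V' x + w := by
      intro x hx
      have h1 := cf'.win (i := x) (j := N - j) (w := j) (by omega) (by omega)
      rw [hji] at h1
      rw [← hf' _ hx, ← hf' x (by omega), ← Int.ceil_add_intCast]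
      apply Int.ceil_le_ceil
      linarith
    have hwin : ∀ x, x + j < N → V x + w ≤ V (x + j) := by
      intro x hx
      have h1 := cg.win (i := x) (j := N - j) (w := j) (by omega) (by omega)
      rw [hji] at h1
      rw [← hg _ hx, ← hg x (by omega), ← Int.floor_add_intCast]
      apply Int.floor_le_floor
      linarith
    have hind : ∀ k, 0 < k → k * j < N → A - k * w + 1 ≤ V' (N - k * j) ∧
        V (N - k * j) ≤ A - k * w := by
      intro k hk
      induction k, hk using Nat.le_induction with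
      | base =>
        intro _
        rw [show Nat.succ 0 = 1 from rfl, one_mul, Nat.cast_one, one_mul, hT, hw]
        omega
      | succ k hk ih =>
        intro hkN
        have e3 : (k + 1) * j = k * j + j := by ring
        have hkj : 0 < k * j := Nat.mul_pos hk hj0
        obtain ⟨i1, i2⟩ := ih (by omega)
        have h1 := hwin' (N - (k + 1) * j) (by omega)
        have h2 := hwin (N - (k + 1) * j) (by omega)
        rw [show N - (k + 1) * j + j = N - k * j by omega] at h1 h2
        push_cast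
        constructor <;> linarith
    obtain ⟨i1, i2⟩ := hind k hk0 hkj
    have hkj0 : 0 < k * j := Nat.mul_pos hk0 hj0
    have h3 : V' (N - k * j) = V (N - k * j) + 1 := by
      have := hV (N - k * j) (by omega)
      omega
    obtain ⟨h4, h5⟩ := (hlast (N - k * j) (by omega) (by omega)).1 h3
    rw [show N - (N - k * j) = k * j by omega] at h5
    exact ⟨by omega, h5⟩
  · intro j hj0 hj hZ hZ'
    have h1 := hT1 j hj0 hj hZ
    have h2 := ha (N - j) (by omega) hZ'
    omega

end Pool.Agent.Lib.MP_bb0bab_co
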