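import Pool.Agent.Lib.MP_bb0bab_co.CBDefs

/-!
# CB22 number theory lemma

`f y = (-A y) mod N ∈ [0,N)`; for `0 < y < N`: `ZS N A y ↔ f y ≤ y`.  `m = N - t`.
The structure of the set of heights comes from the hypotheses alone; `A` is found with the inverse
`c` of `A` modulo `N`: `c ≤ k` and, for the least multiple `j c > k` of `c`, the height `N - j c` is
not in the set, so `j (c + 1) ≥ N + 1`, which forces `c = 1` or `c = k`.
-/

namespace Pool.Agent.Lib.MP_bb0bab_co

open LaurentPolynomial

theorem nt_zs_or {N : ℕ} (A : ℤ) {y : ℕ} (hy : y < N) : ZS N A y ∨ ZS N A (N - y) := by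
  have hN : (0 : ℤ) < N := by
    have : 0 < N := by omega
    exact_mod_cast this
  obtain ⟨w, r, hw, hr0, hrN⟩ : ∃ w r : ℤ, (N : ℤ) * w = y * A + r ∧ 0 ≤ r ∧ r < N := by
    refine ⟨-((-((y : ℤ) * A)) / N), (-((y : ℤ) * A)) % N, ?_, Int.emod_nonneg _ hN.ne',
      Int.emod_lt_of_pos _ hN⟩
    have h := Int.mul_ediv_add_emod (-((y : ℤ) * A)) N
    linarith
  by_cases hry : r ≤ y
  · left
    refine ⟨w, by linarith, ?_⟩
    have e : (y : ℤ) * (A + 1) = y * A + y := by ring
    rw [e]
    linarith
  · right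
    push Not at hry
    refine ⟨A + 1 - w, ?_, ?_⟩
    · rw [Nat.cast_sub hy.le]
      have e1 : ((N : ℤ) - y) * A = N * A - y * A := by ring
      have e2 : (N : ℤ) * (A + 1 - w) = N * A + N - N * w := by ring
      rw [e1, e2]
      linarith
    · rw [Nat.cast_sub hy.le]
      have e1 : ((N : ℤ) - y) * (A + 1) = N * A + N - y * A - y := by ring
      have e2 : (N : ℤ) * (A + 1 - w) = N * A + N - N * w := by ring
      rw [e1, e2]
      linarith

/-- the value of `A` when no height `1..k` is in the set, `N = 2k+1` -/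
theorem nt_findA {k : ℕ} (hk : 1 ≤ k) {A : ℤ} (A0 : 0 ≤ A) (AN : A < (2 * k + 1 : ℕ))
    (hz : ∀ y, 0 < y → y ≤ k → ¬ ZS (2 * k + 1) A y) : A = 1 ∨ A = 2 * k - 1 := by
  obtain ⟨a, rfl⟩ := Int.eq_ofNat_of_zero_le A0
  have haN : a < 2 * k + 1 := by exact_mod_cast AN
  -- `a` is prime to `N`
  have hcop : Nat.Coprime a (2 * k + 1) := by
    by_contra hnc
    have hd : 2 ≤ Nat.gcd a (2 * k + 1) := by
      have h0 : 0 < Nat.gcd a (2 * k + 1) := Nat.gcd_pos_of_pos_right _ (by omega)
      have h1 : Nat.gcd a (2 * k + 1) ≠ 1 := hnc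
      omega
    obtain ⟨a', ha'⟩ := Nat.gcd_dvd_left a (2 * k + 1)
    obtain ⟨y, hy⟩ := Nat.gcd_dvd_right a (2 * k + 1)
    set d := Nat.gcd a (2 * k + 1) with hdd
    have hy0 : 0 < y := by
      rcases Nat.eq_zero_or_pos y with h | h
      · rw [h, mul_zero] at hy
        omega
      · exact h
    have hyk : y ≤ k := by
      have : 2 * y ≤ d * y := Nat.mul_le_mul_right y hd
      omega
    refine hz y hy0 hyk ⟨(a' : ℤ), ?_, ?_⟩
    · have : (((2 * k + 1 : ℕ) : ℤ)) * (a' : ℤ) = (y : ℤ) * (a : ℤ) := by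
        rw [hy, ha']
        push_cast
        ring
      rw [this]
    · have : (((2 * k + 1 : ℕ) : ℤ)) * (a' : ℤ) = (y : ℤ) * (a : ℤ) := by
        rw [hy, ha']
        push_cast
        ring
      rw [this]
      have hy0' : (0 : ℤ) ≤ y := by positivity
      nlinarith
  -- the inverse
  obtain ⟨c, hc1, hcN, q, hq⟩ : ∃ c : ℕ, 1 ≤ c ∧ c < 2 * k + 1 ∧ ∃ q : ℤ,
      (c : ℤ) * a = 1 + (2 * k + 1 : ℕ) * q := by
    obtain ⟨c, hcN, hc⟩ := Nat.exists_mul_mod_eq_one_of_coprime hcop (by omega)
    refine ⟨c, ?_, hcN, ?_⟩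
    · rcases Nat.eq_zero_or_pos c with h | h
      · rw [h, mul_zero, Nat.zero_mod] at hc
        omega
      · exact h
    · obtain ⟨Q, hQ⟩ : ∃ Q, a * c = (2 * k + 1) * Q + 1 :=
        ⟨a * c / (2 * k + 1), by have h := Nat.div_add_mod (a * c) (2 * k + 1); omega⟩
      refine ⟨(Q : ℤ), ?_⟩
      have h' : (c : ℤ) * a = ((a * c : ℕ) : ℤ) := by push_cast; ring
      rw [h', hQ]
      push_cast
      ring
  -- `N - j c` is in the set if `j ≤ N - j c`
  have key : ∀ j : ℕ, 0 < j → j * c < 2 * k + 1 → j ≤ 2 * k + 1 - j * c →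
      ZS (2 * k + 1) a (2 * k + 1 - j * c) := by
    intro j hj0 hj1 hj2
    have hj2' : (j : ℤ) + j * c ≤ 2 * k + 1 := by
      have : j + j * c ≤ 2 * k + 1 := by omega
      exact_mod_cast this
    have hcast : ((2 * k + 1 - j * c : ℕ) : ℤ) = (2 * k + 1 : ℕ) - (j : ℤ) * c := by
      rw [Nat.cast_sub hj1.le]
      push_cast
      ring
    have hval : (((2 * k + 1 : ℕ) : ℤ)) * (a - j * q) =
        ((2 * k + 1 : ℕ) - (j : ℤ) * c) * a + j := by
      have : (j : ℤ) * c * a = j * (1 + (2 * k + 1 : ℕ) * q) := by rw [← hq]; ring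
      linear_combination this
    refine ⟨a - j * q, ?_, ?_⟩
    · rw [hcast, hval]
      have : (0 : ℤ) ≤ j := by positivity
      linarith
    · rw [hcast, hval]
      have e : ((2 * k + 1 : ℕ) - (j : ℤ) * c) * ((a : ℤ) + 1) =
          ((2 * k + 1 : ℕ) - (j : ℤ) * c) * a + ((2 * k + 1 : ℕ) - (j : ℤ) * c) := by ring
      rw [e]
      push_cast
      linarith
  have hck : c ≤ k := by
    by_contra hcon
    push Not at hcon
    refine hz (2 * k + 1 - 1 * c) (by omega) (by omega) (key 1 one_pos (by omega) (by omega))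
  -- the least multiple above `k`
  have hu1 : k / c * c ≤ k := Nat.div_mul_le_self k c
  have hu2 : k < (k / c + 1) * c := by
    have := Nat.lt_mul_div_succ k (by omega : 0 < c)
    rw [Nat.mul_comm] at this
    exact this
  have hupos : 1 ≤ k / c := Nat.div_pos hck (by omega)
  obtain ⟨u, hu⟩ : ∃ u, u = k / c := ⟨_, rfl⟩
  rw [← hu] at hu1 hu2 hupos
  have e3 : (u + 1) * c = u * c + c := by ring
  have hlt : (u + 1) * c < 2 * k + 1 := by omega
  have hgt : 2 * k + 1 - (u + 1) * c < u + 1 := by
    by_contra hcon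
    push Not at hcon
    exact hz _ (by omega) (by omega) (key (u + 1) (by omega) hlt hcon)
  have hsum : k + 1 ≤ u + c := by omega
  have hprod : u = 1 ∨ c = 1 := by
    by_contra hcon
    push Not at hcon
    obtain ⟨h1, h2⟩ := hcon
    obtain ⟨u', rfl⟩ : ∃ u', u = u' + 2 := ⟨u - 2, by omega⟩
    obtain ⟨c', rfl⟩ : ∃ c', c = c' + 2 := ⟨c - 2, by omega⟩
    have : (u' + 2) * (c' + 2) = u' * c' + 2 * u' + 2 * c' + 4 := by ring
    omega
  have hN3 : (3 : ℤ) ≤ (2 * k + 1 : ℕ) := by
    have : 3 ≤ 2 * k + 1 := by omega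
    exact_mod_cast this
  have haN' : (a : ℤ) < (2 * k + 1 : ℕ) := by exact_mod_cast haN
  have ha0 : (0 : ℤ) ≤ a := by positivity
  rcases hprod with h | h
  · -- `c = k`
    have hck' : c = k := by omega
    right
    subst hck'
    -- `a + 2` is a multiple of `N`
    have hdiv : (((2 * c + 1 : ℕ) : ℤ)) ∣ (a : ℤ) + 2 := by
      refine ⟨(a : ℤ) - 2 * q, ?_⟩
      push_cast at hq ⊢
      linear_combination (-2 : ℤ) * hq
    obtain ⟨w, hw⟩ := hdiv
    have hw1 : w = 1 := by
      have h1 : 0 < w := by
        by_contra hcon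
        push Not at hcon
        nlinarith
      have h2 : w < 2 := by
        by_contra hcon
        push Not at hcon
        nlinarith
      omega
    rw [hw1] at hw
    push_cast at hw ⊢
    linarith
  · left
    subst h
    have hdiv : (((2 * k + 1 : ℕ) : ℤ)) ∣ (a : ℤ) - 1 := ⟨q, by push_cast at hq ⊢; linarith⟩
    obtain ⟨w, hw⟩ := hdiv
    have hw1 : w = 0 := by
      have h1 : -1 < w := by
        by_contra hcon
        push Not at hcon
        nlinarith
      have h2 : w < 1 := by
        by_contra hcon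
        push Not at hcon
        nlinarith
      omega
    rw [hw1] at hw
    linarith

theorem nt_lemma {N t : ℕ} {A : ℤ} (h : NTH N t A) :
    ∃ k : ℕ, 1 ≤ k ∧ N = 2 * k + 1 ∧
      ((A = 1 ∧ t = k + 1 ∧ ∀ j, 0 < j → j ≤ t → (ZS N A j ↔ j = k + 1)) ∨
       (A = k ∧ t = 2 * k ∧ ∀ j, 0 < j → j ≤ t → (ZS N A j ↔ Even j)) ∨
       (A = 2 * k - 1 ∧ t = k + 1 ∧ ∀ j, 0 < j → j ≤ t → (ZS N A j ↔ j = k + 1))) := by
  obtain ⟨t1, tN, A0, AN, zt, sym, mul, no⟩ := h
  obtain ⟨m, hm⟩ : ∃ m, N = t + m := ⟨N - t, by omega⟩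
  have hm1 : 1 ≤ m := by omega
  -- every element of `J` is at least `m`
  have step1 : ∀ j, 0 < j → j ≤ t → ZS N A j → m ≤ j := by
    intro j hj0 hjt hj
    have h1 : (N - 1) / j * j ≤ N - 1 := Nat.div_mul_le_self _ _
    have h2 : N - 1 < j * ((N - 1) / j + 1) := Nat.lt_mul_div_succ _ hj0
    have h3 : 0 < (N - 1) / j := Nat.div_pos (by omega) hj0
    have h4 := (mul j ((N - 1) / j) hj0 hjt hj h3 (by omega)).1
    have h5 : j * ((N - 1) / j + 1) = (N - 1) / j * j + j := by ring
    omega
  have hzm : ¬ ZS N A m := by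
    have := no t t1 le_rfl zt
    have e : N - t = m := by omega
    rwa [e] at this
  have hmt : m < t := by
    have h1 : m ≤ t := step1 t t1 le_rfl zt
    rcases Nat.lt_or_ge m t with h2 | h2
    · exact h2
    · exact absurd zt (by rw [show t = m by omega]; exact hzm)
  have hsmall : ∀ y, 0 < y → y ≤ m → ¬ ZS N A y := by
    intro y hy0 hym hy
    rcases Nat.lt_or_ge y m with h1 | h1
    · have := step1 y hy0 (by omega) hy
      omega
    · exact hzm (by rw [show m = y by omega]; exact hy)
  have star : ∀ y, 0 < y → y < t → (ZS N A y ↔ ¬ ZS N A (m + y)) := by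
    intro y hy0 hyt
    constructor
    · intro hy
      have h1 := no (t - y) (by omega) (by omega) (sym y hy0 hyt hy)
      have e : N - (t - y) = m + y := by omega
      rwa [e] at h1
    · intro hy
      have h1 : ZS N A (t - y) := by
        rcases nt_zs_or A (y := m + y) (by omega : m + y < N) with h2 | h2
        · exact absurd h2 hy
        · have e : N - (m + y) = t - y := by omega
          rwa [e] at h2
      have h2 := sym (t - y) (by omega) (by omega) h1
      have e : t - (t - y) = y := by omega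
      rwa [e] at h2
  have hbig : ∀ y, 0 < y → y ≤ m → y < t → ZS N A (m + y) := by
    intro y hy0 hym hyt
    by_contra hcon
    exact hsmall y hy0 hym ((star y hy0 hyt).2 hcon)
  rcases Nat.lt_or_ge m 2 with hm2 | hm2
  · -- `m = 1`
    have hm' : m = 1 := by omega
    subst hm'
    have hev : ∀ y, 0 < y → y ≤ t → (ZS N A y ↔ Even y) := by
      intro y
      induction y with
      | zero => intro h0; omega
      | succ y ih =>
        intro _ hyt
        rcases Nat.eq_zero_or_pos y with h0 | h0
        · subst h0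
          have h1 := hsmall 1 one_pos le_rfl
          constructor
          · intro h; exact absurd h h1
          · intro h
            exact absurd h (by decide)
        · have h1 := star y h0 (by omega)
          rw [ih h0 (by omega), Nat.add_comm 1 y] at h1
          rw [Nat.even_add_one]
          tauto
    have hte : Even t := (hev t t1 le_rfl).1 zt
    obtain ⟨k, hk⟩ := hte
    have hk1 : 1 ≤ k := by omega
    refine ⟨k, hk1, by omega, Or.inr (Or.inl ⟨?_, by omega, hev⟩)⟩
    have hz2 : ZS N A 2 := (hev 2 two_pos (by omega)).2 (by decide)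
    have hn2 := no 2 two_pos (by omega) hz2
    obtain ⟨w, hw1, hw2⟩ := hz2
    have hNk : (N : ℤ) = 2 * k + 1 := by
      rw [hm, hk]
      push_cast
      ring
    have hN2 : ((N - 2 : ℕ) : ℤ) = N - 2 := by
      rw [Nat.cast_sub (by omega : 2 ≤ N)]
      rfl
    have hNge : (3 : ℤ) ≤ N := by
      have : 3 ≤ N := by omega
      exact_mod_cast this
    push_cast at hw1 hw2
    have hcases : (N : ℤ) * w = 2 * A ∨ (N : ℤ) * w = 2 * A + 1 ∨ (N : ℤ) * w = 2 * A + 2 := by
      omega
    rcases hcases with h1 | h1 | h1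
    · exfalso
      apply hn2
      refine ⟨A - w, ?_, ?_⟩
      · rw [hN2]
        have e1 : ((N : ℤ) - 2) * A = N * A - 2 * A := by ring
        have e2 : (N : ℤ) * (A - w) = N * A - N * w := by ring
        rw [e1, e2]
        linarith
      · rw [hN2]
        have e1 : ((N : ℤ) - 2) * (A + 1) = N * A + N - 2 * A - 2 := by ring
        have e2 : (N : ℤ) * (A - w) = N * A - N * w := by ring
        rw [e1, e2]
        linarith
    · have hw : w = 1 := by
        have h2 : 0 < w := by
          by_contra hcon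
          push Not at hcon
          nlinarith
        have h3 : w < 2 := by
          by_contra hcon
          push Not at hcon
          nlinarith
        omega
      rw [hw] at h1
      linarith
    · exfalso
      apply hn2
      refine ⟨A + 1 - w, ?_, ?_⟩
      · rw [hN2]
        have e1 : ((N : ℤ) - 2) * A = N * A - 2 * A := by ring
        have e2 : (N : ℤ) * (A + 1 - w) = N * A + N - N * w := by ring
        rw [e1, e2]
        linarith
      · rw [hN2]
        have e1 : ((N : ℤ) - 2) * (A + 1) = N * A + N - 2 * A - 2 := by ring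
        have e2 : (N : ℤ) * (A + 1 - w) = N * A + N - N * w := by ring
        rw [e1, e2]
        linarith
  · -- `m ≥ 2`
    have hzm1 : ZS N A (m + 1) := hbig 1 one_pos (by omega) (by omega)
    have hN1 : N ≤ 2 * m + 2 := by
      by_contra hcon
      push Not at hcon
      have h1 := mul (m + 1) 2 (by omega) (by omega) hzm1 two_pos (by omega)
      have h2 : ZS N A (m + 2) := hbig 2 two_pos hm2 (by omega)
      have h3 := (star (m + 2) (by omega) (by omega)).1 h2
      apply h3
      have e : m + (m + 2) = 2 * (m + 1) := by ring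
      rw [e]
      exact h1.2
    have hN2 : N ≠ 2 * m + 2 := by
      intro hN
      have h1 := no (m + 1) (by omega) (by omega) hzm1
      apply h1
      have e : N - (m + 1) = m + 1 := by omega
      rw [e]
      exact hzm1
    have hNe : N = 2 * m + 1 := by omega
    have hte : t = m + 1 := by omega
    have hJ : ∀ j, 0 < j → j ≤ t → (ZS N A j ↔ j = m + 1) := by
      intro j hj0 hjt
      constructor
      · intro hj
        by_contra hne
        exact hsmall j hj0 (by omega) hj
      · intro hj
        rw [hj]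
        exact hzm1
    have hA := nt_findA (k := m) (by omega) A0 (by rw [← hNe]; exact AN)
      (by rw [← hNe]; exact hsmall)
    refine ⟨m, by omega, hNe, ?_⟩
    rcases hA with hA | hA
    · left
      exact ⟨hA, hte, hJ⟩
    · right
      right
      exact ⟨hA, hte, hJ⟩

end Pool.Agent.Lib.MP_bb0bab_co
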