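import Pool.Agent.Lib.MP_bb0bab_co.CB07
import Pool.Agent.Lib.MP_bb0bab_co.CB11
import Pool.Agent.Lib.MP_bb0bab_co.CB21
import Pool.Agent.Lib.MP_bb0bab_co.CB22

/-!
# CB23 the type of the first block
-/

namespace Pool.Agent.Lib.MP_bb0bab_co

open LaurentPolynomial

theorem ConvN.mono_h {h h' : ℕ} {f : ℕ → ℝ} (hf : ConvN h f) (hh : h' ≤ h) : ConvN h' f :=
  fun i hi => hf i (le_trans hi hh)

theorem ConcN.mono_h {h h' : ℕ} {f : ℕ → ℝ} (hf : ConcN h f) (hh : h' ≤ h) : ConcN h' f :=
  fun i hi => hf i (le_trans hi hh)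

namespace Cd

variable {C : Cd}

theorem full_words {i : ℕ} (hf : C.Full i) (ht : C.TL i) :
    C.b i = C.a i ∧ C.c i = C.a i ∧ C.d i = C.a i ∧
    C.b' i = C.a' i ∧ C.c' i = C.a' i ∧ C.d' i = C.a' i ∧
    (C.a' i = C.a i ∨ C.a' i = C.a i + 1) := by
  obtain ⟨h1, h2, h3⟩ := hf
  rcases ht with ⟨t1, t2, t3, t4⟩ | ⟨t1, t2, t3, t4⟩
  · refine ⟨h1, h2, h3, ?_, ?_, ?_, Or.inl t1⟩ <;> omega
  · refine ⟨h1, h2, h3, ?_, ?_, ?_, Or.inr t1⟩ <;> omega

theorem nth_of_event (hC : C.Ok) {N : ℕ} (hE : C.Ev N) (hmN : C.m < N) (hS : C.Shape N)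
    (hc : C.Copy N C.m) :
    NTH N (N - C.m) (C.a (N - 1)) ∧
    ∀ i, 0 < i → i < N → (C.a' i = C.a i + 1 ↔ C.m ≤ i ∧ ZS N (C.a (N - 1)) (N - i)) := by
  have hw : ∀ i < N, _ := fun i hi => full_words (hE.full i hi) (hE.tl i hi)
  have hm1 := hC.hm
  have hh := hE.hh
  have hNm : N + C.m ≤ C.h := by omega
  have hz := hC.zero
  have hA0 : 0 ≤ C.a (N - 1) := by
    have := (hC.a_mono (Nat.zero_le (N - 1)) (by omega)).1
    rw [hz.1] at this
    exact this
  have hAN : C.a (N - 1) < N := by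
    have := (hC.a_mono (Nat.zero_le (N - 1)) (by omega)).2
    rw [hz.1] at this
    have h2 : ((N - 1 : ℕ) : ℤ) = (N : ℤ) - 1 := by
      have := hE.pos
      omega
    rw [h2] at this
    push_cast at this
    linarith
  obtain ⟨t1, t2, t3, t4⟩ := hE.t0
  obtain ⟨c1, c2, c3, c4, c5, c6, c7, c8⟩ := hc
  have htop := hC.top0
  have hV : ∀ i < N, C.a' i = C.a i ∨ C.a' i = C.a i + 1 := fun i hi => (hw i hi).2.2.2.2.2.2
  have hlow : ∀ i < C.m, C.a' i = C.a i := fun i hi => (hC.low i hi).1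
  have am := hC.am
  have am' := hC.am'
  rcases hS with ⟨s1, s2⟩ | ⟨s1, s2⟩ | ⟨s1, s2⟩
  · refine pair_lemma (f := C.aH) (f' := C.aK) (g := C.rK) (g' := C.rH) hm1 hmN hA0 hAN
      hC.aH0 hC.aK0 htop.2.1 htop.2.2.2 (hC.aHconv.mono_h hNm) (hC.aKconv.mono_h hNm)
      (hC.rKconc.mono_h hNm) (hC.rHconc.mono_h hNm) (fun i _ => rfl) (fun i _ => rfl)
      (fun i hi => (hw i hi).2.2.1) (fun i hi => (hw i hi).2.2.2.2.2.1) hV hlow am am' ?_ ?_ ?_ ?_ ?_ ?_
    · rw [← s1]; exact Int.le_ceil _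
    · rw [← s1, ← t1]; exact Int.le_ceil _
    · have h1 : ((C.a (N - 1) : ℤ) : ℝ) + 1 = ((C.d N : ℤ) : ℝ) := by rw [s2]; push_cast; rfl
      rw [h1]; exact Int.floor_le _
    · have h1 : ((C.a (N - 1) : ℤ) : ℝ) + 1 = ((C.d' N : ℤ) : ℝ) := by rw [t4, s2]; push_cast; rfl
      rw [h1]; exact Int.floor_le _
    · have h1 : ((C.a (N - 1) : ℤ) : ℝ) + C.q = ((C.a (N + C.m) : ℤ) : ℝ) := by
        rw [c1, s1, am]; push_cast; rfl
      rw [h1]; exact Int.le_ceil _
    · have h1 : ((C.a (N - 1) : ℤ) : ℝ) + C.q + 2 = ((C.d' (N + C.m) : ℤ) : ℝ) := by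
        rw [c8, s2, am']; push_cast; ring
      rw [h1]; exact Int.floor_le _
  · refine pair_lemma (f := C.lK) (f' := C.lH) (g := C.bH) (g' := C.bK) hm1 hmN hA0 hAN
      htop.1 htop.2.2.1 hC.bH0 hC.bK0 (hC.lKconv.mono_h hNm) (hC.lHconv.mono_h hNm)
      (hC.bHconc.mono_h hNm) (hC.bKconc.mono_h hNm) (fun i hi => (hw i hi).2.1)
      (fun i hi => (hw i hi).2.2.2.2.1)
      (fun i hi => (hw i hi).1) (fun i hi => (hw i hi).2.2.2.1) hV hlow am am' ?_ ?_ ?_ ?_ ?_ ?_
    · rw [← s1]; exact Int.le_ceil _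
    · rw [← s1, ← t3]; exact Int.le_ceil _
    · have h1 : ((C.a (N - 1) : ℤ) : ℝ) + 1 = ((C.b N : ℤ) : ℝ) := by rw [s2]; push_cast; rfl
      rw [h1]; exact Int.floor_le _
    · have h1 : ((C.a (N - 1) : ℤ) : ℝ) + 1 = ((C.b' N : ℤ) : ℝ) := by rw [t2, s2]; push_cast; rfl
      rw [h1]; exact Int.floor_le _
    · have h1 : ((C.a (N - 1) : ℤ) : ℝ) + C.q = ((C.c (N + C.m) : ℤ) : ℝ) := by
        rw [c3, s1, am]; push_cast; rfl
      rw [h1]; exact Int.le_ceil _
    · have h1 : ((C.a (N - 1) : ℤ) : ℝ) + C.q + 2 = ((C.b' (N + C.m) : ℤ) : ℝ) := by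
        rw [c6, s2, am']; push_cast; ring
      rw [h1]; exact Int.floor_le _
  · refine pair_lemma (f := C.lK) (f' := C.lH) (g := C.rK) (g' := C.rH) hm1 hmN hA0 hAN
      htop.1 htop.2.2.1 htop.2.1 htop.2.2.2 (hC.lKconv.mono_h hNm) (hC.lHconv.mono_h hNm)
      (hC.rKconc.mono_h hNm) (hC.rHconc.mono_h hNm) (fun i hi => (hw i hi).2.1)
      (fun i hi => (hw i hi).2.2.2.2.1)
      (fun i hi => (hw i hi).2.2.1) (fun i hi => (hw i hi).2.2.2.2.2.1) hV hlow am am' ?_ ?_ ?_ ?_ ?_ ?_
    · rw [← s1]; exact Int.le_ceil _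
    · rw [← s1, ← t3]; exact Int.le_ceil _
    · have h1 : ((C.a (N - 1) : ℤ) : ℝ) + 1 = ((C.d N : ℤ) : ℝ) := by rw [s2]; push_cast; rfl
      rw [h1]; exact Int.floor_le _
    · have h1 : ((C.a (N - 1) : ℤ) : ℝ) + 1 = ((C.d' N : ℤ) : ℝ) := by rw [t4, s2]; push_cast; rfl
      rw [h1]; exact Int.floor_le _
    · have h1 : ((C.a (N - 1) : ℤ) : ℝ) + C.q = ((C.c (N + C.m) : ℤ) : ℝ) := by
        rw [c3, s1, am]; push_cast; rfl
      rw [h1]; exact Int.le_ceil _
    · have h1 : ((C.a (N - 1) : ℤ) : ℝ) + C.q + 2 = ((C.d' (N + C.m) : ℤ) : ℝ) := by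
        rw [c8, s2, am']; push_cast; ring
      rw [h1]; exact Int.floor_le _

theorem type_one {N : ℕ} (hNk : N = 2 * 1 + 1) (hmk : C.m = 1) (hq : C.q = 0) (h0 : C.a 0 = 0)
    (h1 : C.a 1 = 0) (h2 : C.a 2 = 1) (h0' : C.a' 0 = 0) (h1' : C.a' 1 = 1) (h2' : C.a' 2 = 1) :
    (∃ k, C.TypeK N k) ∨ (∃ k, C.TypeO N k) ∨ (∃ k, C.mirror.TypeK N k) := by
  right; left
  refine ⟨1, le_refl 1, hNk, hmk, hq, ?_, ?_⟩
  · intro l hl
    rcases Nat.le_one_iff_eq_zero_or_eq_one.1 hl with h | h
    · subst h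
      exact ⟨by simpa using h0, by simpa using h0'⟩
    · subst h
      exact ⟨by simpa using h2, by simpa using h2'⟩
  · intro l hl
    have h : l = 0 := by omega
    subst h
    exact ⟨by simpa using h1, by simpa using h1'⟩

theorem type_of_event (hC : C.Ok) {N : ℕ} (hE : C.Ev N) (hmN : C.m < N) (hS : C.Shape N)
    (hc : C.Copy N C.m) :
    (∃ k, C.TypeK N k) ∨ (∃ k, C.TypeO N k) ∨ (∃ k, C.mirror.TypeK N k) := by
  obtain ⟨hN, hT⟩ := nth_of_event hC hE hmN hS hc
  have hw : ∀ i < N, _ := fun i hi => full_words (hE.full i hi) (hE.tl i hi)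
  have hm1 := hC.hm
  have hh := hE.hh
  have hz := hC.zero
  have am := hC.am
  have am' := hC.am'
  have hlow : ∀ i < C.m, C.a' i = C.a i := fun i hi => (hC.low i hi).1
  have ha : ∀ i j, i ≤ j → j < N → C.a i ≤ C.a j ∧ C.a j ≤ C.a i + ((j : ℤ) - i) :=
    fun i j hij hj => hC.a_mono hij (by omega)
  have ha' : ∀ i j, i ≤ j → j < N → C.a' i ≤ C.a' j ∧ C.a' j ≤ C.a' i + ((j : ℤ) - i) :=
    fun i j hij hj => hC.a'_mono hij (by omega)
  have hnot : ∀ i < N, ¬ (C.a' i = C.a i + 1) → C.a' i = C.a i := by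
    intro i hi h1
    rcases (hw i hi).2.2.2.2.2.2 with h2 | h2
    · exact h2
    · exact absurd h2 h1
  obtain ⟨k, hk, hNk, hcase⟩ := nt_lemma hN
  have hN1 : N - 1 = 2 * k := by omega
  rcases hcase with ⟨hA, ht, hz'⟩ | ⟨hA, ht, hz'⟩ | ⟨hA, ht, hz'⟩
  · -- type K
    have hmk : C.m = k := by omega
    have hone : ∀ i < N, i ≠ k → C.a' i = C.a i := by
      intro i hi hik
      by_cases h0 : i = 0
      · exact hlow i (by omega)
      · apply hnot i hi
        intro h1
        obtain ⟨h2, h3⟩ := (hT i (by omega) hi).1 h1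
        have h4 := (hz' (N - i) (by omega) (by omega)).1 h3
        omega
    rw [hmk] at am am'
    rw [hN1] at hA
    have h2k : C.a' (2 * k) = 1 := by rw [hone (2 * k) (by omega) (by omega)]; exact hA
    have hq : C.q = 0 := by
      have h1 := (ha' k (2 * k) (by omega) (by omega)).1
      have h2 := (ha 0 k (by omega) (by omega)).1
      rw [am', h2k] at h1
      rw [hz.1, am] at h2
      omega
    have hv0 : ∀ i ≤ k, C.a i = 0 := by
      intro i hi
      have h1 := (ha i k hi (by omega)).1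
      have h2 := (ha 0 i (by omega) (by omega)).1
      rw [am, hq] at h1
      rw [hz.1] at h2
      omega
    have hv1 : ∀ i, k < i → i < N → C.a i = 1 := by
      intro i hi hiN
      have h1 := (ha' k i (by omega) hiN).1
      have h2 := (ha i (2 * k) (by omega) (by omega)).1
      rw [am', hq, hone i hiN (by omega)] at h1
      rw [hA] at h2
      omega
    by_cases hk1 : k = 1
    · subst hk1
      refine type_one hNk hmk hq (hv0 0 (by omega)) (hv0 1 (by omega)) (hv1 2 (by omega) (by omega))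
        (by rw [hone 0 (by omega) (by omega)]; exact hv0 0 (by omega)) (by rw [am', hq]; rfl)
        (by rw [hone 2 (by omega) (by omega)]; exact hv1 2 (by omega) (by omega))
    left
    refine ⟨k, by omega, hNk, hmk, hq, hv0, hv1, ?_, ?_⟩
    · intro i hi
      rw [hone i (by omega) (by omega)]
      exact hv0 i (by omega)
    · intro i hi hiN
      by_cases hik : i = k
      · rw [hik, am', hq]; rfl
      · rw [hone i hiN hik]
        exact hv1 i (by omega) hiN
  · -- type O
    right; left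
    have hmk : C.m = 1 := by omega
    have hodd : ∀ l < k, C.a' (2 * l + 1) = C.a (2 * l + 1) + 1 := by
      intro l hl
      apply (hT (2 * l + 1) (by omega) (by omega)).2
      refine ⟨by omega, ?_⟩
      apply (hz' _ (by omega) (by omega)).2
      rw [Nat.even_iff]; omega
    have heven : ∀ l ≤ k, C.a' (2 * l) = C.a (2 * l) := by
      intro l hl
      by_cases h0 : l = 0
      · exact hlow _ (by omega)
      · apply hnot _ (by omega)
        intro h1
        obtain ⟨h2, h3⟩ := (hT _ (by omega) (by omega)).1 h1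
        have h4 := (hz' _ (by omega) (by omega)).1 h3
        rw [Nat.even_iff] at h4; omega
    rw [hmk] at am am'
    rw [hN1] at hA
    have hstep : ∀ l < k, C.a (2 * l) ≤ C.a (2 * l + 1) ∧ C.a (2 * l + 1) + 1 ≤ C.a (2 * (l + 1)) := by
      intro l hl
      refine ⟨(ha _ _ (by omega) (by omega)).1, ?_⟩
      have h1 := (ha' (2 * l + 1) (2 * (l + 1)) (by omega) (by omega)).1
      rw [hodd l hl, heven (l + 1) (by omega)] at h1
      exact h1
    have hge : ∀ l ≤ k, (l : ℤ) ≤ C.a (2 * l) := by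
      intro l
      induction l with
      | zero =>
        intro _
        have : C.a (2 * 0) = 0 := hz.1
        rw [this]; simp
      | succ l ih =>
        intro hl
        have h1 := ih (by omega)
        have h2 := hstep l (by omega)
        push_cast
        omega
    have hle : ∀ l' l : ℕ, l + l' = k → C.a (2 * l) ≤ (l : ℤ) := by
      intro l'
      induction l' with
      | zero =>
        intro l hl
        have : l = k := by omega
        rw [this]
        exact hA.le
      | succ l' ih =>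
        intro l hl
        have h1 := ih (l + 1) (by omega)
        have h2 := hstep l (by omega)
        push_cast at h1
        omega
    have hv : ∀ l ≤ k, C.a (2 * l) = l := fun l hl =>
      le_antisymm (hle (k - l) l (by omega)) (hge l hl)
    have hvo : ∀ l < k, C.a (2 * l + 1) = l := by
      intro l hl
      have h1 := hstep l hl
      have h2 := hv l (by omega)
      have h3 := hv (l + 1) (by omega)
      push_cast at h3
      omega
    refine ⟨k, hk, hNk, hmk, ?_, ?_, ?_⟩
    · have := hvo 0 (by omega)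
      have h2 : C.a (2 * 0 + 1) = C.q := am
      rw [h2] at this
      exact_mod_cast this
    · intro l hl
      exact ⟨hv l hl, by rw [heven l hl]; exact hv l hl⟩
    · intro l hl
      exact ⟨hvo l hl, by rw [hodd l hl, hvo l hl]⟩
  · -- mirror of type K
    have hmk : C.m = k := by omega
    have hone : ∀ i < N, i ≠ k → C.a' i = C.a i := by
      intro i hi hik
      by_cases h0 : i = 0
      · exact hlow i (by omega)
      · apply hnot i hi
        intro h1
        obtain ⟨h2, h3⟩ := (hT i (by omega) hi).1 h1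
        have h4 := (hz' (N - i) (by omega) (by omega)).1 h3
        omega
    rw [hmk] at am am'
    rw [hN1] at hA
    have hk1 : C.a (k + 1) ≤ C.q + 1 := by
      have h1 := (ha k (k + 1) (by omega) (by omega)).2
      rw [am] at h1
      push_cast at h1
      omega
    have hk2 : C.a (2 * k) ≤ C.a (k + 1) + (k - 1) := by
      have h1 := (ha (k + 1) (2 * k) (by omega) (by omega)).2
      push_cast at h1
      omega
    have hk3 : C.a' k ≤ k := by
      have h1 := (ha' 0 k (by omega) (by omega)).2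
      rw [hz.2.2.2.2.1] at h1
      push_cast at h1
      omega
    have hq : C.q = k - 1 := by
      rw [am'] at hk3
      omega
    have hw0 : ∀ i ≤ k, C.a' i = i := by
      intro i hi
      have h1 := (ha' 0 i (by omega) (by omega)).2
      have h2 := (ha' i k hi (by omega)).2
      rw [hz.2.2.2.2.1] at h1
      rw [am', hq] at h2
      push_cast at h1
      omega
    have hv0 : ∀ i < k, C.a i = i := by
      intro i hi
      rw [← hone i (by omega) (by omega)]
      exact hw0 i (by omega)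
    have hv1 : ∀ i, k < i → i < N → C.a i = i - 1 := by
      intro i hi hiN
      have h1 := (ha (k + 1) i (by omega) hiN).2
      have h2 := (ha i (2 * k) (by omega) (by omega)).2
      push_cast at h1 h2
      rw [hA] at h2
      omega
    by_cases hk1 : k = 1
    · subst hk1
      have h11 : C.a 1 = 0 := by rw [am, hq]; norm_num
      have h12 : C.a 2 = 1 := by rw [hv1 2 (by omega) (by omega)]; norm_num
      refine type_one hNk hmk (by rw [hq]; norm_num) hz.1 h11 h12
        hz.2.2.2.2.1 (by rw [am', hq]; norm_num) (by rw [hone 2 (by omega) (by omega)]; exact h12)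
    right; right
    refine ⟨k, by omega, hNk, hmk, ?_, ?_, ?_, ?_, ?_⟩
    · change (C.m : ℤ) - 1 - C.q = 0
      rw [hmk, hq]; ring
    · intro i hi
      rw [mirror_a, (hw i (by omega)).2.2.2.1, hw0 i hi]
      ring
    · intro i hi hiN
      rw [mirror_a, (hw i hiN).2.2.2.1, hone i hiN (by omega), hv1 i hi hiN]
      ring
    · intro i hi
      rw [mirror_a', (hw i (by omega)).1, hv0 i hi]
      ring
    · intro i hi hiN
      rw [mirror_a', (hw i hiN).1]
      by_cases hik : i = k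
      · rw [hik, am, hq]; ring
      · rw [hv1 i (by omega) hiN]
        ring

end Cd

end Pool.Agent.Lib.MP_bb0bab_co
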