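import Pool.Agent.Lib.MP_bb0bab_co.CB20
import Pool.Agent.Lib.MP_bb0bab_co.CB29
import Pool.Agent.Lib.MP_bb0bab_co.CB31

/-!
# CB24 one block, type K: `V = 0^(k+1) 1^k`, `V' = 0^k 1^(k+1)`, `m = k ≥ 2`, `q = 0`, `N = 2k+1` (all `L > M ≥ 1`)

Also the lemmas which are shared with CB25: `van_ext`, `Z_of_copy`.
-/

namespace Pool.Agent.Lib.MP_bb0bab_co

open LaurentPolynomial

theorem bit_down (a : ℤ) (n : ℕ) (hn : n ≤ 1) :
    (T (a + 1) - T (a + 1 - n) : LaurentPolynomial ℤ) = (T 1 - 1) * ((n : LaurentPolynomial ℤ) * T a) := by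
  have : n = 0 ∨ n = 1 := by omega
  rcases this with rfl | rfl
  · simp
  · push_cast
    rw [show a + 1 - 1 = a by ring, T_add]
    ring

theorem bit_up (a : ℤ) (n : ℕ) (hn : n ≤ 1) :
    (T (a + n) - T a : LaurentPolynomial ℤ) = (T 1 - 1) * ((n : LaurentPolynomial ℤ) * T a) := by
  have : n = 0 ∨ n = 1 := by omega
  rcases this with rfl | rfl
  · simp
  · push_cast
    rw [T_add]
    ring

/-- free row whose words differ from the base by bits -/
theorem mono_rows {L M : ℕ} (hM : 1 ≤ M) (hLM : M < L) {a b c d a1 b1 c1 d1 a2 b2 c2 d2 w : ℤ}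
    {n1 n2 n3 n4 : ℕ} (h1 : a < b + L) (h2 : c < d + M) (hnf : ¬ (b = a ∧ c = a ∧ d = a))
    (l1 : a1 ≤ b1 + L) (l2 : a2 ≤ b2 + L) (l3 : c1 ≤ d1 + M) (l4 : c2 ≤ d2 + M)
    (ha : (T a2 - T a1 : LaurentPolynomial ℤ) = (T 1 - 1) * ((n1 : LaurentPolynomial ℤ) * T (w + a)))
    (hb : (T (b2 + L) - T (b1 + L) : LaurentPolynomial ℤ) =
      (T 1 - 1) * ((n2 : LaurentPolynomial ℤ) * T (w + (b + L))))
    (hc : (T c2 - T c1 : LaurentPolynomial ℤ) = (T 1 - 1) * ((n3 : LaurentPolynomial ℤ) * T (w + c)))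
    (hd : (T (d2 + M) - T (d1 + M) : LaurentPolynomial ℤ) =
      (T 1 - 1) * ((n4 : LaurentPolynomial ℤ) * T (w + (d + M))))
    (heq : br M * (rowPoly a2 (b2 + L - 1) - rowPoly a1 (b1 + L - 1)) =
      br L * (rowPoly c2 (d2 + M - 1) - rowPoly c1 (d1 + M - 1))) :
    n1 = 0 ∧ n2 = 0 ∧ n3 = 0 ∧ n4 = 0 := by
  apply mono4 hM hLM h1 h2 hnf
  have k1 : (T 1 - 1 : LaurentPolynomial ℤ) * rowPoly a2 (b2 + L - 1) = T (b2 + L) - T a2 := by
    rw [sub_one_mul_rowPoly (by omega)]; congr 2; ring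
  have k2 : (T 1 - 1 : LaurentPolynomial ℤ) * rowPoly a1 (b1 + L - 1) = T (b1 + L) - T a1 := by
    rw [sub_one_mul_rowPoly (by omega)]; congr 2; ring
  have k3 : (T 1 - 1 : LaurentPolynomial ℤ) * rowPoly c2 (d2 + M - 1) = T (d2 + M) - T c2 := by
    rw [sub_one_mul_rowPoly (by omega)]; congr 2; ring
  have k4 : (T 1 - 1 : LaurentPolynomial ℤ) * rowPoly c1 (d1 + M - 1) = T (d1 + M) - T c1 := by
    rw [sub_one_mul_rowPoly (by omega)]; congr 2; ring
  have hw : (T w : LaurentPolynomial ℤ) ≠ 0 := (isUnit_T w).ne_zero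
  apply mul_left_cancel₀ hw
  apply sub_one_cancel
  have e1 : (T (w + a) : LaurentPolynomial ℤ) = T w * T a := T_add _ _
  have e2 : (T (w + (b + L)) : LaurentPolynomial ℤ) = T w * T (b + L) := T_add _ _
  have e3 : (T (w + c) : LaurentPolynomial ℤ) = T w * T c := T_add _ _
  have e4 : (T (w + (d + M)) : LaurentPolynomial ℤ) = T w * T (d + M) := T_add _ _
  rw [e1] at ha
  rw [e2] at hb
  rw [e3] at hc
  rw [e4] at hd
  have h3 := congrArg (fun p => (T 1 - 1 : LaurentPolynomial ℤ) * p) heq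
  linear_combination (-1 : LaurentPolynomial ℤ) * h3 + br M * k1 - br M * k2 - br L * k3 + br L * k4
    - br M * ha + br M * hb + br L * hc - br L * hd

namespace Cd

variable {C : Cd}

theorem T0_of_tau {s : ℕ} (h : C.TL s) (ht : C.tau s = 0) : C.T0 s := by
  rcases h with h | h
  · exact h
  · have h1 : C.a' s - C.a s = 0 := ht
    have h2 := h.1
    omega

theorem van_ext (hC : C.Ok) {N e i : ℕ} (hP : C.Pre N e) (hi : i ≤ N) (hc : ∀ j < i, C.Copy e j) :
    C.Van N (e + i) := by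
  intro j hj
  rcases Nat.lt_or_ge j e with h | h
  · exact hP.van j h
  · obtain ⟨l, rfl⟩ := Nat.exists_eq_add_of_le h
    exact van_copy hC hP (by omega) (fun l' hl' => hc l' (by omega))

/-- a row without correction satisfies the free equation -/
theorem Z_of_copy (hC : C.Ok) {N e i : ℕ} (hP : C.Pre N e) (hi : i < N) (hs : e + i ≤ C.h)
    (hc : ∀ j < i, C.Copy e j) (ha : C.a' i = C.a i) : C.Z (e + i) := by
  have h1 := eq_of_van hC hs (van_ext hC hP hi.le hc)
  obtain ⟨h2, h3⟩ := EE_copy hC hP hi hc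
  rw [h2, h3, ha, sub_self, zero_mul, zero_mul, sub_zero, sub_zero] at h1
  exact h1

theorem kk_le {x y z v : ℤ} (hx : x = y + 0 ∨ x = y + 0 + 1) (hy : y = v) (hz : z = v)
    (hzx : z ≤ x) : ∃ n : ℕ, n ≤ 1 ∧ x = v + 1 - n := by
  rcases hx with h | h
  · exact ⟨1, le_rfl, by push_cast; omega⟩
  · exact ⟨0, by norm_num, by push_cast; omega⟩

theorem kk_up {x y v : ℤ} (hx : x = y + 0 ∨ x = y + 0 + 1) (hy : y = v + 1) :
    ∃ n : ℕ, n ≤ 1 ∧ x = v + 1 + n := by
  rcases hx with h | h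
  · exact ⟨0, by norm_num, by push_cast; omega⟩
  · exact ⟨1, le_rfl, by push_cast; omega⟩

theorem kk_eq {x y z v : ℤ} (hx : x = y + 0 ∨ x = y + 0 + 1) (hy : y = v) (hz : z = v + 1)
    (hzx : z ≤ x) : x = v + 1 := by omega

/-- rows of a block of type K, away from the top -/
theorem copyK (hC : C.Ok) {N k e : ℕ} (hE : C.Ev N) (hK : C.TypeK N k)
    (hNR : C.NR N) (hP : C.Pre N e) (hl : e = N ∨ C.T0 (N - 1)) (hnf : ¬ C.Full e)
    (hbig : e + k + N ≤ C.h) : ∀ i < N, e + i + N ≤ C.h + 1 → C.Copy e i := by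
  have hN := hK.hN
  have hm := hK.hm
  have hq := hK.hq
  have hk2 := hK.hk
  have hmN : C.m < N := by omega
  have hle := hP.le
  have hT := cb20_hT hC hE hmN hNR
  have hT0 : ∀ i < k, C.T0 (e + i) := fun i hi =>
    rows_T0 hC hE hmN hNR hP hl i (by omega) (by omega)
  have hck : C.Copy e k := by
    have := forced_copy hC hE hmN hNR hP hl (by omega) hnf
    rwa [hm] at this
  have vk := hK.v0 k le_rfl
  have wk := hK.w1 k le_rfl (by omega)
  have hck' := hck
  rw [Copy, vk, wk] at hck'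
  obtain ⟨ka, kb, kc, kd, ka', kb', kc', kd'⟩ := hck'
  -- rows up to `k`
  have hc1 : ∀ i ≤ k, C.Copy e i := by
    intro i hi
    rcases Nat.eq_or_lt_of_le hi with rfl | hlt
    · exact hck
    · obtain ⟨t1, t2, t3, t4⟩ := hT0 i hlt
      have m1 := (hC.a_mono (i := e) (j := e + i) (by omega) (by omega)).1
      have m2 := (hC.a_mono (i := e + i) (j := e + k) (by omega) (by omega)).1
      have n1 := (hC.b_mono (i := e) (j := e + i) (by omega) (by omega)).1
      have n2 := (hC.b_mono (i := e + i) (j := e + k) (by omega) (by omega)).1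
      have o1 := (hC.c_mono (i := e) (j := e + i) (by omega) (by omega)).1
      have o2 := (hC.c_mono (i := e + i) (j := e + k) (by omega) (by omega)).1
      have p1 := (hC.d_mono (i := e) (j := e + i) (by omega) (by omega)).1
      have p2 := (hC.d_mono (i := e + i) (j := e + k) (by omega) (by omega)).1
      rw [Copy, hK.v0 i hi, hK.w0 i hlt, t1, t2, t3, t4]
      refine ⟨?_, ?_, ?_, ?_, ?_, ?_, ?_, ?_⟩ <;> linarith
  -- base row
  have h0e := hT0 0 (by omega)
  rw [add_zero] at h0e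
  have hab : C.a e < C.b e + C.L := by
    have h1 := hC.len_T0 (i := e) (by omega) h0e.2.1
    have h2 := hC.hM
    omega
  have hcd : C.c e < C.d e + C.M := by
    have h1 := hC.mu_T0 (j := e) (by omega) (by omega)
    have h2 := hC.hM
    rw [h0e.2.2.2] at h1
    omega
  -- rows above `k`
  have key : ∀ i, k < i → i < N → e + i + N ≤ C.h + 1 → (∀ j < i, C.Copy e j) → C.Copy e i := by
    intro i hki hiN hs hc
    have hsh : e + i ≤ C.h := by omega
    have vi := hK.v1 i hki hiN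
    have wi := hK.w1 i hki.le hiN
    have hZ := Z_of_copy hC hP hiN hsh hc (by rw [vi, wi])
    have e2 : e + (i - k) + C.m = e + i := by omega
    obtain ⟨x1, x2, x3, x4⟩ := hw_dig hC hE hmN hT (i := e + (i - k)) (by omega) (by omega)
    have x5 := hC.win_a' (i := e + (i - k)) (by omega)
    have x6 := hC.win_b (i := e + (i - k)) (by omega)
    have x7 := hC.win_c' (i := e + (i - k)) (by omega)
    have x8 := hC.win_d (i := e + (i - k)) (by omega)
    rw [e2, hq] at x1 x2 x3 x4 x5 x6 x7 x8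
    have hwc := hc1 (i - k) (by omega)
    rw [Copy, hK.v0 (i - k) (by omega)] at hwc
    obtain ⟨wa, wb, wc, wd, wa', wb', wc', wd'⟩ := hwc
    rw [add_zero] at wa wb wc wd ka kb kc kd
    have nH := hC.nn_H hsh
    have nK := hC.nn_K hsh
    have nG := hC.nn_G hsh
    have nG' := hC.nn_G' hsh
    rw [Copy, vi, wi]
    rcases Nat.lt_or_ge i (2 * k) with h2k | h2k
    · -- `i < 2k`: the primed words are exact
      rw [hK.w0 (i - k) (by omega), add_zero] at wa' wb' wc' wd'
      have y1 := kk_eq x5 wa' ka' (hC.a'_mono (i := e + k) (j := e + i) (by omega) hsh).1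
      have y2 := kk_eq x2 wb' kb' (hC.b'_mono (i := e + k) (j := e + i) (by omega) hsh).1
      have y3 := kk_eq x7 wc' kc' (hC.c'_mono (i := e + k) (j := e + i) (by omega) hsh).1
      have y4 := kk_eq x4 wd' kd' (hC.d'_mono (i := e + k) (j := e + i) (by omega) hsh).1
      rcases Nat.eq_or_lt_of_le (Nat.succ_le_of_lt hki) with he | hlt
      · -- `i = k + 1`
        obtain ⟨n1, hn1, z1⟩ := kk_le x1 wa ka (hC.a_mono (i := e + k) (j := e + i) (by omega) hsh).1
        obtain ⟨n2, hn2, z2⟩ := kk_le x6 wb kb (hC.b_mono (i := e + k) (j := e + i) (by omega) hsh).1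
        obtain ⟨n3, hn3, z3⟩ := kk_le x3 wc kc (hC.c_mono (i := e + k) (j := e + i) (by omega) hsh).1
        obtain ⟨n4, hn4, z4⟩ := kk_le x8 wd kd (hC.d_mono (i := e + k) (j := e + i) (by omega) hsh).1
        have hz := mono_rows (w := 0) hC.hM hC.hLM hab hcd hnf nH nK nG nG'
          (n1 := n1) (n2 := n2) (n3 := n3) (n4 := n4)
          (by rw [y1, z1, zero_add]; exact bit_down _ _ hn1)
          (by
            rw [y2, z2, zero_add, show C.b e + 1 + (C.L : ℤ) = C.b e + C.L + 1 by ring,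
              show C.b e + 1 - (n2 : ℤ) + C.L = C.b e + C.L + 1 - n2 by ring]
            exact bit_down _ _ hn2)
          (by rw [y3, z3, zero_add]; exact bit_down _ _ hn3)
          (by
            rw [y4, z4, zero_add, show C.d e + 1 + (C.M : ℤ) = C.d e + C.M + 1 by ring,
              show C.d e + 1 - (n4 : ℤ) + C.M = C.d e + C.M + 1 - n4 by ring]
            exact bit_down _ _ hn4) hZ
        obtain ⟨rfl, rfl, rfl, rfl⟩ := hz
        push_cast at z1 z2 z3 z4
        refine ⟨?_, ?_, ?_, ?_, y1, y2, y3, y4⟩ <;> linarith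
      · -- `k + 2 ≤ i`
        have hk1c := hc (k + 1) (by omega)
        rw [Copy, hK.v1 (k + 1) (by omega) (by omega)] at hk1c
        obtain ⟨ja, jb, jc, jd, -, -, -, -⟩ := hk1c
        exact ⟨kk_eq x1 wa ja (hC.a_mono (i := e + (k + 1)) (j := e + i) (by omega) hsh).1,
          kk_eq x6 wb jb (hC.b_mono (i := e + (k + 1)) (j := e + i) (by omega) hsh).1,
          kk_eq x3 wc jc (hC.c_mono (i := e + (k + 1)) (j := e + i) (by omega) hsh).1,
          kk_eq x8 wd jd (hC.d_mono (i := e + (k + 1)) (j := e + i) (by omega) hsh).1,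
          y1, y2, y3, y4⟩
    · -- `i = 2k`: the unprimed words are exact
      have e3 : i = 2 * k := by omega
      have e4 : i - k = k := by omega
      have hk1c := hc (k + 1) (by omega)
      rw [Copy, hK.v1 (k + 1) (by omega) (by omega)] at hk1c
      obtain ⟨ja, jb, jc, jd, -, -, -, -⟩ := hk1c
      have y1 := kk_eq x1 wa ja (hC.a_mono (i := e + (k + 1)) (j := e + i) (by omega) hsh).1
      have y2 := kk_eq x6 wb jb (hC.b_mono (i := e + (k + 1)) (j := e + i) (by omega) hsh).1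
      have y3 := kk_eq x3 wc jc (hC.c_mono (i := e + (k + 1)) (j := e + i) (by omega) hsh).1
      have y4 := kk_eq x8 wd jd (hC.d_mono (i := e + (k + 1)) (j := e + i) (by omega) hsh).1
      rw [e4, wk] at wa' wb' wc' wd'
      rw [e4] at x2 x4 x5 x7
      obtain ⟨n1, hn1, z1⟩ := kk_up x5 wa'
      obtain ⟨n2, hn2, z2⟩ := kk_up x2 wb'
      obtain ⟨n3, hn3, z3⟩ := kk_up x7 wc'
      obtain ⟨n4, hn4, z4⟩ := kk_up x4 wd'
      have hz := mono_rows (w := 1) hC.hM hC.hLM hab hcd hnf nH nK nG nG'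
        (n1 := n1) (n2 := n2) (n3 := n3) (n4 := n4)
        (by rw [y1, z1, add_comm 1]; exact bit_up _ _ hn1)
        (by
          rw [y2, z2, show C.b e + 1 + (n2 : ℤ) + C.L = 1 + (C.b e + C.L) + n2 by ring,
            show C.b e + 1 + (C.L : ℤ) = 1 + (C.b e + C.L) by ring]
          exact bit_up _ _ hn2)
        (by rw [y3, z3, add_comm 1]; exact bit_up _ _ hn3)
        (by
          rw [y4, z4, show C.d e + 1 + (n4 : ℤ) + C.M = 1 + (C.d e + C.M) + n4 by ring,
            show C.d e + 1 + (C.M : ℤ) = 1 + (C.d e + C.M) by ring]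
          exact bit_up _ _ hn4) hZ
      obtain ⟨rfl, rfl, rfl, rfl⟩ := hz
      push_cast at z1 z2 z3 z4
      refine ⟨y1, y2, y3, y4, ?_, ?_, ?_, ?_⟩ <;> linarith
  intro i
  induction i using Nat.strong_induction_on with
  | _ i ih =>
    intro hiN hs
    rcases Nat.lt_or_ge k i with h | h
    · exact key i h hiN hs (fun j hj => ih j hj (by omega) (by omega))
    · exact hc1 i h

theorem stepK (hC : C.Ok) {N k e : ℕ} (hE : C.Ev N) (hK : C.TypeK N k)
    (hNR : C.NR N) (hP : C.Pre N e) (hnf : e + k + N ≤ C.h → ¬ C.Full e) :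
    (∀ i < N, e + i + N ≤ C.h → C.TL (e + i) ∧ C.tau (e + i) = C.tau i) ∧
    (e + 2 * N ≤ C.h + 1 → ∀ i < N, C.Copy e i) := by
  have hN := hK.hN
  have hm := hK.hm
  have hk2 := hK.hk
  have hmN : C.m < N := by omega
  have hle := hP.le
  have hl : e = N ∨ C.T0 (N - 1) := by
    right
    apply T0_of_tau (hE.tl (N - 1) (by omega))
    rw [tau, hK.v1 (N - 1) (by omega) (by omega), hK.w1 (N - 1) (by omega) (by omega), sub_self]
  constructor
  · intro i hiN hs
    by_cases hbig : e + k + N ≤ C.h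
    · exact copy_type (copyK hC hE hK hNR hP hl (hnf hbig) hbig i hiN (by omega)) (hE.tl i hiN)
    · have h1 := rows_T0 hC hE hmN hNR hP hl i (by omega) (by omega)
      refine ⟨Or.inl h1, ?_⟩
      rw [tau, tau, h1.1, (hC.low i (by omega)).1, sub_self, sub_self]
  · intro h2 i hiN
    have hbig : e + k + N ≤ C.h := by omega
    exact copyK hC hE hK hNR hP hl (hnf hbig) hbig i hiN (by omega)

end Cd

end Pool.Agent.Lib.MP_bb0bab_co
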