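import Pool.Agent.Lib.MP_bb0bab_co.CB24

/-!
# CB25 one block, type O: `V = 0 0 1 1 .. k`, `V' = 0 1 1 2 2 .. k k`, `m = 1`, `q = 0`, `N = 2k+1` (all `L > M ≥ 1`)
-/

namespace Pool.Agent.Lib.MP_bb0bab_co

open LaurentPolynomial

namespace Cd

variable {C : Cd}

theorem stepO_aux {x p p' y y' z : ℤ} (h1 : y = p ∨ y = p + 1) (h2 : y' = p' ∨ y' = p' + 1)
    (ht : y' = y) (hp : p = x + z) (hp' : p' = x + (z + 1)) : y = x + (z + 1) := by omega

theorem zb_M2 (hC : C.Ok) (hM : 2 ≤ C.M) {N k : ℕ} (hO : C.TypeO N k) : C.ZB N := by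
  intro t i ht _ _ _ _ _ hi2 _ hT1 hr hZ
  have hm := hO.hm
  have hN := hO.hN
  have hk := hO.hk
  have htN : N ≤ t * N := Nat.le_mul_of_pos_left N ht
  exact lemZ hC (by omega) (by omega) (Or.inr ⟨hT1, hM⟩) hZ

theorem stepO (hC : C.Ok) {N k t : ℕ} (hE : C.Ev N) (hO : C.TypeO N k) (hNR : C.NR N)
    (hZB : C.ZB N) (ht : 1 ≤ t) (hP : C.Pre N (t * N))
    (hcop : ∀ r j, j < N → r < t → C.Copy (r * N) j) (hTL : ∀ j < t * N, C.TL j)
    (hnf : ¬ C.Full (t * N)) :
    ∀ i < N, t * N + i + N ≤ C.h + 1 → C.Copy (t * N) i := by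
  have hN := hO.hN
  have hm := hO.hm
  have hq := hO.hq
  have hk1 := hO.hk
  have hmN : C.m < N := by omega
  have hle := hP.le
  have hT := cb20_hT hC hE hmN hNR
  have hl : t * N = N ∨ C.T0 (N - 1) := by
    right
    apply T0_of_tau (hE.tl (N - 1) (by omega))
    obtain ⟨h1, h2⟩ := hO.ve k le_rfl
    rw [tau, show N - 1 = 2 * k by omega, h1, h2, sub_self]
  intro i
  induction i using Nat.strong_induction_on with
  | _ i ih =>
    intro hiN hs
    have hsh : t * N + i ≤ C.h := by omega
    have hc : ∀ j < i, C.Copy (t * N) j := fun j hj => ih j hj (by omega) (by omega)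
    rcases Nat.eq_zero_or_pos i with rfl | hi0
    · obtain ⟨t1, t2, t3, t4⟩ := rows_T0 hC hE hmN hNR hP hl 0 (by omega) hsh
      obtain ⟨z1, z2⟩ := hO.ve 0 (Nat.zero_le _)
      rw [mul_zero] at z1 z2
      rw [Copy, t1, t2, t3, t4, z1, z2]
      simp
    · rcases Nat.even_or_odd' i with ⟨l, hl' | hl'⟩
      · -- even
        obtain ⟨l, rfl⟩ : ∃ l', l = l' + 1 := ⟨l - 1, by omega⟩
        have e1 : i = 2 * (l + 1) := hl'
        obtain ⟨v1, v2⟩ := hO.ve (l + 1) (by omega)
        obtain ⟨w1, w2⟩ := hO.vo l (by omega)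
        rw [← e1] at v1 v2
        have hZ := Z_of_copy hC hP hiN hsh hc (by rw [v1, v2])
        have hj := hc (2 * l + 1) (by omega)
        have e2 : t * N + (2 * l + 1) + 1 = t * N + i := by omega
        have e3 : t * N + (2 * l + 1) = t * N + i - 1 := by omega
        have hT1 : C.T1 (t * N + i - 1) := by
          obtain ⟨g1, g2⟩ := copy_type hj (hE.tl (2 * l + 1) (by omega))
          rw [e3] at g1 g2
          rcases g1 with g1 | g1
          · exfalso
            have g3 := g1.1
            rw [tau, tau, w1, w2, g3] at g2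
            linarith
          · exact g1
        have hTLs : ∀ j < t * N + i, C.TL j := by
          intro j hj
          rcases Nat.lt_or_ge j (t * N) with h | h
          · exact hTL j h
          · obtain ⟨r, rfl⟩ := Nat.exists_eq_add_of_le h
            exact (copy_type (hc r (by omega)) (hE.tl r (by omega))).1
        have hz := hZB t i ht hP hcop hTLs hnf hc (by omega) hiN hT1 hs hZ
        have hT0' : C.T0 (t * N + i) := by
          rcases hz with h | h
          · exact h
          · exact absurd h (hNR _ (by omega) hsh)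
        obtain ⟨t1, t2, t3, t4⟩ := hT0'
        rw [Copy, w1, w2] at hj
        obtain ⟨c1, c2, c3, c4, c5, c6, c7, c8⟩ := hj
        have hl' : t * N + (2 * l + 1) < C.h := by omega
        have a1 := hC.a_let hl'
        have b1 := hC.b_let hl'
        have d1 := hC.c_let hl'
        have d2 := hC.d_let hl'
        have a2 := hC.a'_let hl'
        have b2 := hC.b'_let hl'
        have d3 := hC.c'_let hl'
        have d4 := hC.d'_let hl'
        rw [e2] at a1 b1 d1 d2 a2 b2 d3 d4
        have q1 := stepO_aux a1 a2 t1 c1 c5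
        have q2 := stepO_aux b1 b2 t2 c2 c6
        have q3 := stepO_aux d1 d3 t3 c3 c7
        have q4 := stepO_aux d2 d4 t4 c4 c8
        rw [Copy, v1, v2, t1, t2, t3, t4, q1, q2, q3, q4]
        push_cast
        exact ⟨rfl, rfl, rfl, rfl, rfl, rfl, rfl, rfl⟩
      · -- odd
        have e1 : i = 2 * l + 1 := hl'
        obtain ⟨v1, v2⟩ := hO.ve l (by omega)
        obtain ⟨w1, w2⟩ := hO.vo l (by omega)
        rw [← e1] at w1 w2
        obtain ⟨x1, x2⟩ := hO.vo 0 (by omega)
        rw [mul_zero, zero_add] at x1 x2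
        rw [Nat.cast_zero] at x1
        rw [Nat.cast_zero, zero_add] at x2
        have hj := hc (2 * l) (by omega)
        have ht0 : C.T0 (t * N + 2 * l) := by
          obtain ⟨h1, h2⟩ := copy_type hj (hE.tl (2 * l) (by omega))
          apply T0_of_tau h1
          rw [h2, tau, v1, v2, sub_self]
        obtain ⟨r1, -, r3, -⟩ := copy_rows hj
        rw [v1] at r1 r3
        have hj' := hj
        rw [Copy, v1, v2] at hj'
        obtain ⟨c1, c2, c3, c4, c5, c6, c7, c8⟩ := hj'
        have hnf' : ¬ C.Full (t * N + 2 * l) := by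
          intro hf
          apply hnf
          obtain ⟨f1, f2, f3⟩ := hf
          exact ⟨by linarith, by linarith, by linarith⟩
        have h1 := eq_of_van hC hsh (van_ext hC hP hiN.le hc)
        obtain ⟨h2, h3⟩ := EE_copy hC hP hiN hc
        have h4 : (T (C.a' i) - T (C.a i) : LaurentPolynomial ℤ) = (T 1 - 1) * T (l : ℤ) := by
          rw [w1, w2, sub_mul, one_mul, ← T_add, add_comm]
        rw [h2, h3, h4, mul_assoc, mul_assoc, ← r1, ← r3] at h1
        have hF : C.F C.q (t * N + 2 * l) (t * N + 2 * l + C.m) := by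
          rw [F, hq, hm, T_zero, one_mul, one_mul, show t * N + 2 * l + 1 = t * N + i by omega]
          exact h1
        have hcop' := lemF hC hE hmN hT (e := t * N + 2 * l) (by omega) (by omega) ht0 hnf' hF
        rw [hm, Copy, x1, x2, show t * N + 2 * l + 1 = t * N + i by omega, c1, c2, c3, c4] at hcop'
        obtain ⟨y1, y2, y3, y4, y5, y6, y7, y8⟩ := hcop'
        rw [Copy, w1, w2]
        refine ⟨?_, ?_, ?_, ?_, ?_, ?_, ?_, ?_⟩ <;> linarith

end Cd

end Pool.Agent.Lib.MP_bb0bab_co
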