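import Pool.Agent.Lib.MP_bb0bab_co.CB24
import Pool.Agent.Lib.MP_bb0bab_co.CB25

/-!
# CB26 all blocks (all M)
-/

namespace Pool.Agent.Lib.MP_bb0bab_co

open LaurentPolynomial

namespace Cd

variable {C : Cd}

/-- everything that is known below the block `t` -/
def cb26_St (C : Cd) (N t : ℕ) : Prop :=
  C.Pre N (t * N) ∧ (∀ r j, j < N → r < t → C.Copy (r * N) j) ∧ ∀ j < t * N, C.TL j

/-- the result of a block step -/
def cb26_Step (C : Cd) (N : ℕ) : Prop :=
  ∀ t, 1 ≤ t → cb26_St C N t → (t * N + C.m + N ≤ C.h → ¬ C.Full (t * N)) →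
    (∀ i < N, t * N + i + N ≤ C.h → C.TL (t * N + i) ∧ C.tau (t * N + i) = C.tau i) ∧
    (t * N + 2 * N ≤ C.h + 1 → ∀ i < N, C.Copy (t * N) i)

theorem cb26_nf (hC : C.Ok) {N : ℕ} (hE : C.Ev N) (hmN : C.m < N)
    (hNR : C.NR N) (hNR0 : C.NR0 N) (hl : C.T0 (N - 1)) {t : ℕ} (ht : 1 ≤ t)
    (hP : C.Pre N (t * N)) (hs : t * N + C.m + N ≤ C.h) : ¬ C.Full (t * N) := by
  have hm := hC.hm
  rcases Nat.eq_or_lt_of_le ht with rfl | h2
  · rw [one_mul]
    exact hE.nf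
  · intro hf
    have h3 : 2 * N ≤ t * N := Nat.mul_le_mul_right N h2
    refine hNR0 (t * N) (by omega) (by omega) ⟨?_, hf⟩
    exact rows_T0 hC hE hmN hNR hP (Or.inr hl) 0 (by omega) (by omega)

theorem cb26_pre (hC : C.Ok) {N : ℕ} (hE : C.Ev N) (hmN : C.m < N)
    (hNR : C.NR N) (hNR0 : C.NR0 N) (hl : C.T0 (N - 1)) (hB : cb26_Step C N) :
    ∀ t, 1 ≤ t → (t + 1) * N ≤ C.h + 1 → cb26_St C N t := by
  intro t ht
  induction t, ht using Nat.le_induction with
  | base =>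
    intro _
    unfold cb26_St
    rw [one_mul]
    refine ⟨pre_event hC hE, ?_, hE.tl⟩
    intro r j hj hr
    have hr0 : r = 0 := by omega
    rw [hr0, zero_mul]
    exact copy_zero hC (hE.full j hj) (hE.tl j hj)
  | succ t ht ih =>
    intro hs
    have e1 : (t + 1 + 1) * N = t * N + N + N := by ring
    have e2 : (t + 1) * N = t * N + N := by ring
    rw [e1] at hs
    have hSt := ih (by rw [e2]; omega)
    have hSt' := hSt
    obtain ⟨hP, hR, hTL⟩ := hSt'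
    have hnf := cb26_nf hC hE hmN hNR hNR0 hl ht hP
    have hcop := (hB t ht hSt hnf).2 (by omega)
    refine ⟨⟨by rw [e2]; omega, ?_, ?_⟩, ?_, ?_⟩
    · intro j hj
      have e3 : (t + 1) * N - N = t * N := by rw [e2]; omega
      rw [e3]
      exact hcop j hj
    · intro j hj
      rw [e2] at hj
      by_cases hje : j < t * N
      · exact hP.van j hje
      · obtain ⟨k, rfl⟩ := Nat.exists_eq_add_of_le (not_lt.mp hje)
        exact van_copy hC hP (by omega) (fun j hj' => hcop j (by omega))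
    · intro r j hj hr
      rcases Nat.lt_succ_iff_lt_or_eq.mp hr with h | h
      · exact hR r j hj h
      · rw [h]
        exact hcop j hj
    · intro j hj
      rw [e2] at hj
      by_cases hje : j < t * N
      · exact hTL j hje
      · obtain ⟨k, rfl⟩ := Nat.exists_eq_add_of_le (not_lt.mp hje)
        exact (copy_type (hcop k (by omega)) (hE.tl k (by omega))).1

theorem cb26_tau {s : ℕ} (h : C.T0 s) : C.tau s = 0 := by
  unfold Cd.tau
  rw [h.1, sub_self]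

theorem cb26_claim (hC : C.Ok) {N : ℕ} (hE : C.Ev N) (hmN : C.m < N)
    (hNR : C.NR N) (hNR0 : C.NR0 N) (hl : C.T0 (N - 1)) (hB : cb26_Step C N) :
    (∀ t i, i < N → (t + 2) * N ≤ C.h + 1 → C.Copy (t * N) i) ∧
    (∀ t i, i < N → t * N + i + N ≤ C.h → C.TL (t * N + i) ∧ C.tau (t * N + i) = C.tau i) := by
  constructor
  · intro t i hi hs
    have e1 : (t + 2) * N = t * N + N + N := by ring
    have e2 : (t + 1) * N = t * N + N := by ring
    rw [e1] at hs
    rcases Nat.eq_zero_or_pos t with rfl | ht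
    · rw [zero_mul]
      exact copy_zero hC (hE.full i hi) (hE.tl i hi)
    · have hSt := cb26_pre hC hE hmN hNR hNR0 hl hB t ht (by rw [e2]; omega)
      have hnf := cb26_nf hC hE hmN hNR hNR0 hl ht hSt.1
      exact (hB t ht hSt hnf).2 (by omega) i hi
  · intro t i hi hs
    have e2 : (t + 1) * N = t * N + N := by ring
    rcases Nat.eq_zero_or_pos t with rfl | ht
    · rw [zero_mul, zero_add]
      exact ⟨hE.tl i hi, rfl⟩
    · have hSt := cb26_pre hC hE hmN hNR hNR0 hl hB t ht (by rw [e2]; omega)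
      have hnf := cb26_nf hC hE hmN hNR hNR0 hl ht hSt.1
      exact (hB t ht hSt hnf).1 i hi hs

theorem cb26_T0 {s : ℕ} (h : C.TL s) (h1 : C.a' s = C.a s) : C.T0 s := by
  rcases h with h | h
  · exact h
  · have h2 := h.1
    omega

theorem cb26_lK {N k : ℕ} (hE : C.Ev N) (hK : C.TypeK N k) : C.T0 (N - 1) := by
  have h2 := hK.hN
  have h3 := hK.hk
  refine cb26_T0 (hE.tl _ (by omega)) ?_
  rw [hK.w1 (N - 1) (by omega) (by omega), hK.v1 (N - 1) (by omega) (by omega)]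

theorem cb26_lO {N k : ℕ} (hE : C.Ev N) (hO : C.TypeO N k) : C.T0 (N - 1) := by
  have h2 := hO.hN
  have h3 := hO.hk
  have h4 : N - 1 = 2 * k := by omega
  obtain ⟨h5, h6⟩ := hO.ve k le_rfl
  refine cb26_T0 (hE.tl _ (by omega)) ?_
  rw [h4, h5, h6]

theorem cb26_step_K (hC : C.Ok) {N k : ℕ} (hE : C.Ev N) (hK : C.TypeK N k)
    (hNR : C.NR N) : cb26_Step C N := by
  intro t _ hSt hnf
  have h1 := hK.hm
  exact stepK hC hE hK hNR hSt.1 (fun h => hnf (by omega))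

theorem cb26_step_O (hC : C.Ok) {N k : ℕ} (hE : C.Ev N) (hO : C.TypeO N k)
    (hNR : C.NR N) (hZB : C.ZB N) : cb26_Step C N := by
  intro t ht hSt hnf
  have h1 := hO.hm
  have h2 := hO.hN
  have h3 := hO.hk
  by_cases hs : t * N + C.m + N ≤ C.h
  · have h4 := stepO hC hE hO hNR hZB ht hSt.1 hSt.2.1 hSt.2.2 (hnf hs)
    exact ⟨fun i hi h5 => copy_type (h4 i hi (by omega)) (hE.tl i hi),
      fun h5 i hi => h4 i hi (by omega)⟩
  · refine ⟨fun i hi h5 => ?_, fun h5 => by omega⟩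
    have h6 := rows_T0 hC hE (by omega) hNR hSt.1 (Or.inr (cb26_lO hE hO)) i (by omega) (by omega)
    refine ⟨Or.inl h6, ?_⟩
    rw [cb26_tau h6, cb26_tau (hC.low i (by omega))]

theorem claimK (hC : C.Ok) {N k : ℕ} (hE : C.Ev N) (hK : C.TypeK N k)
    (hNR : C.NR N) (hNR0 : C.NR0 N) :
    (∀ t i, i < N → (t + 2) * N ≤ C.h + 1 → C.Copy (t * N) i) ∧
    (∀ t i, i < N → t * N + i + N ≤ C.h → C.TL (t * N + i) ∧ C.tau (t * N + i) = C.tau i) ∧
    C.T1 (N + k) := by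
  have h1 := hK.hm
  have h2 := hK.hN
  have h3 := hK.hk
  obtain ⟨g1, g2⟩ := cb26_claim hC hE (by omega) hNR hNR0 (cb26_lK hE hK)
    (cb26_step_K hC hE hK hNR)
  refine ⟨g1, g2, ?_⟩
  obtain ⟨c1, c2, c3, c4, c5, c6, c7, c8⟩ := forced_copyN hC hE (by omega) hNR
  rw [h1] at c1 c2 c3 c4 c5 c6 c7 c8
  have e1 : C.a' k = C.a k + 1 := by rw [← h1, hC.am', hC.am]
  rw [e1] at c5 c6 c7 c8
  exact ⟨by rw [c5, c1]; ring, by rw [c6, c2]; ring, by rw [c7, c3]; ring, by rw [c8, c4]; ring⟩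

theorem claimO (hC : C.Ok) {N k : ℕ} (hE : C.Ev N) (hO : C.TypeO N k)
    (hNR : C.NR N) (hNR0 : C.NR0 N) (hZB : C.ZB N) :
    (∀ t i, i < N → (t + 2) * N ≤ C.h + 1 → C.Copy (t * N) i) ∧
    (∀ t i, i < N → t * N + i + N ≤ C.h → C.TL (t * N + i) ∧ C.tau (t * N + i) = C.tau i) ∧
    (∀ i < N, N + i + N ≤ C.h + 1 → C.TL (N + i) ∧ C.tau (N + i) = C.tau i) := by
  have h1 := hO.hm
  have h2 := hO.hN
  have h3 := hO.hk
  have hl := cb26_lO hE hO
  have hB := cb26_step_O hC hE hO hNR hZB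
  obtain ⟨g1, g2⟩ := cb26_claim hC hE (by omega) hNR hNR0 hl hB
  refine ⟨g1, g2, ?_⟩
  intro i hi hs
  have hh := hE.hh
  obtain ⟨hP, hR, hTL⟩ := cb26_pre hC hE (by omega) hNR hNR0 hl hB 1 le_rfl (by omega)
  have hnf : ¬ C.Full (1 * N) := by
    rw [one_mul]
    exact hE.nf
  have h4 := stepO hC hE hO hNR hZB le_rfl hP hR hTL hnf i hi (by omega)
  rw [one_mul] at h4
  exact copy_type h4 (hE.tl i hi)

end Cd

end Pool.Agent.Lib.MP_bb0bab_co
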