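import Pool.Agent.Lib.MP_bb0bab_co.CB07

/-!
# CB27 alignment and the block structure

PROOF. Types seen from the other end: `d' (h-i) - d (h-i) = (x - a i) - (x - a' i) = a' i - a i` (CB07, `i ≤ h`), so if row `h-i` is T-like, `tau (h-i) = tau i`.
`dvdK`: row `N+k ≤ h` is T1, so `tau (h-N-k) = 1`; write `h-N-k = t N + i`, `i < N` (it satisfies `t N + i + N ≤ h`): `tau i = 1`, so `i = k` (TypeK: `tau i = 1 ↔ i = k`); so `h + 1 = t N + k + N + k + 1 = (t+2) N`.
(`N + k ≤ h` because `2N ≤ h+1`.)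
`dvdO`: `h = Q N + r`, `r ≤ 2k`, `Q ≥ 1`.  If `Q = 1` then `r = 2k` (`2N ≤ h+1`), done.  `Q ≥ 2`: row `N` (type 0: `a 0 = a' 0`) is the row `h - (h-N)`, `h - N = (Q-1) N + r`: `tau r = 0`, so `r` is even (TypeO: odd rows have `tau = 1`).  If `r < 2k`: row `N + (r+1)` has `tau = 1` (`r+1` odd, `< 2k`), its opposite
`h - N - r - 1 = (Q-2) N + 2k` has type `tau (2k) = 0`: contradiction.  So `r = 2k`.
`blocks_of_copies`: `h+1 = J N`, `J ≥ 2`.  `V = a`, `V' = a'`; `t ≤ J-2`: `al t = a (t N)`, `len t = (b (t N) + L - a (t N)).toNat` (nonneg.: `aH ≤ bH + L - 1` gives `a ≤ b + L`), by `Copy`.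
`t = J-1`: row `t N + i` is the reflection of the top row `j = N-1-i < N`, full and T-like: `a (t N + i) = x - d' j = x - a' j = x - A + a i` (as `a' (N-1-i) = A - a i`), `b = xr - c' j = xr - a' j = xr - A + a i`, `a' = x - d j = x - a j = x - A + a' i`, `b' = xr - A + a' i`: `al t = x - A`, `len t = M`.
-/

namespace Pool.Agent.Lib.MP_bb0bab_co

open LaurentPolynomial

namespace Cd

variable {C : Cd}

/-- types seen from the other end -/
theorem tau_rev {i : ℕ} (hi : i ≤ C.h) (h : C.TL (C.h - i)) : C.tau (C.h - i) = C.tau i := by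
  have h1 := C.d_eq (C.h - i)
  have h2 := C.d'_eq (C.h - i)
  rw [Nat.sub_sub_self hi] at h1 h2
  unfold Cd.tau
  rcases h with h | h
  · obtain ⟨ha, -, -, hd⟩ := h
    omega
  · obtain ⟨ha, -, -, hd⟩ := h
    omega

theorem dvdK (_hC : C.Ok) {N k : ℕ} (hE : C.Ev N) (hK : C.TypeK N k)
    (h1 : ∀ t i, i < N → t * N + i + N ≤ C.h → C.TL (t * N + i) ∧ C.tau (t * N + i) = C.tau i)
    (h2 : C.T1 (N + k)) : N ∣ C.h + 1 := by
  have hN := hK.hN
  have hh := hE.hh
  have hk := hK.hk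
  have hle : N + k ≤ C.h := by omega
  set j := C.h - (N + k) with hj
  have hdm := Nat.div_add_mod j N
  have hlt := Nat.mod_lt j hE.pos
  have hj2 : (j / N) * N + j % N = j := by rw [mul_comm]; exact hdm
  obtain ⟨hTL, htau⟩ := h1 (j / N) (j % N) hlt (by rw [hj2]; omega)
  rw [hj2] at hTL htau
  rw [hj] at hTL htau
  rw [tau_rev hle hTL] at htau
  have h3 : C.tau (N + k) = 1 := by
    unfold Cd.tau
    obtain ⟨ha, -⟩ := h2
    omega
  rw [h3] at htau
  -- so the remainder is k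
  have h4 : j % N = k := by
    unfold Cd.tau at htau
    rw [← hj] at htau
    rcases lt_trichotomy (j % N) k with h5 | h5 | h5
    · rw [hK.v0 _ h5.le, hK.w0 _ h5] at htau
      omega
    · exact h5
    · rw [hK.v1 _ h5 hlt, hK.w1 _ h5.le hlt] at htau
      omega
  refine ⟨j / N + 2, ?_⟩
  rw [mul_add]
  have h5 : N * (j / N) + k = j := by rw [← h4]; exact hdm
  omega

theorem dvdO (_hC : C.Ok) {N k : ℕ} (hE : C.Ev N) (hO : C.TypeO N k)
    (h1 : ∀ t i, i < N → t * N + i + N ≤ C.h → C.TL (t * N + i) ∧ C.tau (t * N + i) = C.tau i)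
    (h2 : ∀ i < N, N + i + N ≤ C.h + 1 → C.TL (N + i) ∧ C.tau (N + i) = C.tau i) : N ∣ C.h + 1 := by
  have hN := hO.hN
  have hh := hE.hh
  have hk := hO.hk
  have tev : ∀ l, l ≤ k → C.tau (2 * l) = 0 := by
    intro l hl
    obtain ⟨h3, h4⟩ := hO.ve l hl
    unfold Cd.tau
    omega
  have tod : ∀ l, l < k → C.tau (2 * l + 1) = 1 := by
    intro l hl
    obtain ⟨h3, h4⟩ := hO.vo l hl
    unfold Cd.tau
    omega
  have hdm := Nat.div_add_mod C.h N
  have hlt := Nat.mod_lt C.h hE.pos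
  generalize C.h / N = Q at hdm
  generalize C.h % N = r at hdm hlt
  -- it is enough to show r = 2k
  suffices hrk : r = 2 * k by
    refine ⟨Q + 1, ?_⟩
    rw [mul_add]
    omega
  have hQ1 : 1 ≤ Q := by
    by_contra h0
    have : Q = 0 := by omega
    rw [this] at hdm
    omega
  rcases Nat.lt_or_ge Q 2 with hQ2 | hQ2
  · have : Q = 1 := by omega
    rw [this] at hdm
    omega
  · obtain ⟨Q', hQ'⟩ : ∃ Q', Q = Q' + 2 := ⟨Q - 2, by omega⟩
    rw [hQ', mul_add] at hdm
    have h3 : C.tau r = 0 := by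
      obtain ⟨hTL, htau⟩ := h1 (Q' + 1) r hlt (by
        rw [add_mul, mul_comm Q' N]; omega)
      have h4 : (Q' + 1) * N + r = C.h - N := by
        rw [add_mul, mul_comm Q' N]; omega
      rw [h4] at hTL htau
      rw [tau_rev (by omega) hTL] at htau
      rw [← htau]
      obtain ⟨-, h5⟩ := h2 0 hE.pos (by omega)
      rw [add_zero] at h5
      rw [h5]
      exact tev 0 (Nat.zero_le _)
    have h4 : ∃ l, r = 2 * l := by
      rcases Nat.even_or_odd' r with ⟨l, hl | hl⟩
      · exact ⟨l, hl⟩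
      · exfalso
        rw [hl, tod l (by omega)] at h3
        omega
    obtain ⟨l, hl⟩ := h4
    by_contra hne
    have hlk : l < k := by omega
    obtain ⟨h5, h6⟩ := h2 (2 * l + 1) (by omega) (by omega)
    rw [tod l hlk] at h6
    obtain ⟨h7, h8⟩ := h1 Q' (2 * k) (by omega) (by
      rw [mul_comm Q' N]; omega)
    have h9 : Q' * N + 2 * k = C.h - (N + (2 * l + 1)) := by
      rw [mul_comm Q' N]; omega
    rw [h9] at h7 h8
    rw [tau_rev (by omega) h7, h6, tev k le_rfl] at h8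
    omega

theorem symK {N k : ℕ} (hK : C.TypeK N k) : ∀ i < N, C.a' i = 1 - C.a (N - 1 - i) := by
  intro i hi
  have hN := hK.hN
  rcases Nat.lt_or_ge i k with h | h
  · rw [hK.w0 i h, hK.v1 (N - 1 - i) (by omega) (by omega)]
    norm_num
  · rw [hK.w1 i h hi, hK.v0 (N - 1 - i) (by omega)]
    norm_num

theorem symO {N k : ℕ} (hO : C.TypeO N k) : ∀ i < N, C.a' i = k - C.a (N - 1 - i) := by
  intro i hi
  have hN := hO.hN
  rcases Nat.even_or_odd' i with ⟨l, hl | hl⟩
  · have h1 := (hO.ve l (by omega)).2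
    have h2 := (hO.ve (k - l) (by omega)).1
    have h3 : N - 1 - i = 2 * (k - l) := by omega
    rw [h3, hl, h1, h2]
    push_cast [show l ≤ k by omega]
    ring
  · have h1 := (hO.vo l (by omega)).2
    have h2 := (hO.vo (k - l - 1) (by omega)).1
    have h3 : N - 1 - i = 2 * (k - l - 1) + 1 := by omega
    rw [h3, hl, h1, h2]
    have h4 : ((k - l - 1 : ℕ) : ℤ) = (k : ℤ) - l - 1 := by omega
    rw [h4]
    ring

theorem blocks_of_copies (hC : C.Ok) {N : ℕ} (hE : C.Ev N) {A : ℤ}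
    (hsym : ∀ i < N, C.a' i = A - C.a (N - 1 - i)) (hd : N ∣ C.h + 1)
    (hcop : ∀ t i, i < N → (t + 2) * N ≤ C.h + 1 → C.Copy (t * N) i) : C.Blocks := by
  obtain ⟨J, hJ⟩ := hd
  have hpos := hE.pos
  have hh := hE.hh
  have hxr : C.xr = C.x - (C.L - C.M) := rfl
  have hnn : ∀ i ≤ C.h, C.a i ≤ C.b i + C.L := by
    intro i hi
    have h1 := hC.abH i hi
    unfold Cd.a Cd.b
    rw [Int.ceil_le]
    have h2 := Int.lt_floor_add_one (C.bH i)
    push_cast
    linarith
  have hJ2 : 2 ≤ J := by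
    by_contra h
    have h1 : J ≤ 1 := by omega
    have h2 : N * J ≤ N * 1 := Nat.mul_le_mul_left N h1
    omega
  refine ⟨N, J, C.a, C.a', A, fun t => if t + 1 = J then C.x - A else C.a (t * N),
    fun t => if t + 1 = J then C.M else (C.b (t * N) + C.L - C.a (t * N)).toNat,
    by rw [hJ, mul_comm], hsym, ?_⟩
  intro t ht i hi
  by_cases htJ : t + 1 = J
  · -- the last block, seen from the top
    simp only [htJ, if_true]
    have hlt : N - 1 - i < N := by omega
    have hrow : t * N + i = C.h - (N - 1 - i) := by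
      have h1 : C.h + 1 = t * N + N := by
        rw [hJ, ← htJ, mul_add, mul_comm N t, mul_one]
      omega
    have hf := hE.full _ hlt
    obtain ⟨hf1, hf2, hf3⟩ := hf
    have h1 := hsym i hi
    have h2 := hsym (N - 1 - i) hlt
    have h3 : N - 1 - (N - 1 - i) = i := by omega
    rw [h3] at h2
    have e1 := C.d'_eq (N - 1 - i)
    have e2 := C.d_eq (N - 1 - i)
    have e3 := C.c'_eq (N - 1 - i)
    have e4 := C.c_eq (N - 1 - i)
    rw [← hrow] at e1 e2 e3 e4
    rcases hE.tl _ hlt with hT | hT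
    · obtain ⟨t1, t2, t3, t4⟩ := hT
      refine ⟨?_, ?_, ?_, ?_⟩ <;> omega
    · obtain ⟨t1, t2, t3, t4⟩ := hT
      refine ⟨?_, ?_, ?_, ?_⟩ <;> omega
  · simp only [htJ, if_false]
    have htJ' : t + 2 ≤ J := by omega
    have h1 : (t + 2) * N ≤ C.h + 1 := by
      rw [hJ, mul_comm N J]
      exact Nat.mul_le_mul_right N htJ'
    obtain ⟨c1, c2, c3, c4, c5, c6, c7, c8⟩ := hcop t i hi h1
    have h2 : C.a (t * N) ≤ C.b (t * N) + C.L := by
      apply hnn
      have h3 : (t + 2) * N = t * N + 2 * N := by ring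
      omega
    have h3 : ((C.b (t * N) + C.L - C.a (t * N)).toNat : ℤ) = C.b (t * N) + C.L - C.a (t * N) :=
      Int.toNat_of_nonneg (by omega)
    rw [h3]
    refine ⟨?_, ?_, ?_, ?_⟩ <;> omega

end Cd

end Pool.Agent.Lib.MP_bb0bab_co
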