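import Pool.Agent.Lib.MP_bb0bab_co.CB10
import Pool.Agent.Lib.MP_bb0bab_co.CB11
import Pool.Agent.Lib.MP_bb0bab_co.CB17
import Pool.Agent.Lib.MP_bb0bab_co.CB18
import Pool.Agent.Lib.MP_bb0bab_co.CB19
import Pool.Agent.Lib.MP_bb0bab_co.CB23
import Pool.Agent.Lib.MP_bb0bab_co.CB26
import Pool.Agent.Lib.MP_bb0bab_co.CB27

/-!
# CB28 assembly
-/

namespace Pool.Agent.Lib.MP_bb0bab_co

open LaurentPolynomial

namespace Cd

variable {C : Cd}

theorem blocks_typeK (hC : C.Ok) {N k : ℕ} (hE : C.Ev N) (hK : C.TypeK N k)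
    (hNR : C.NR N) (hNR0 : C.NR0 N) : C.Blocks := by
  obtain ⟨h1, h2, h3⟩ := claimK hC hE hK hNR hNR0
  exact blocks_of_copies hC hE (symK hK) (dvdK hC hE hK h2 h3) h1

theorem blocks_typeO (hC : C.Ok) {N k : ℕ} (hE : C.Ev N) (hO : C.TypeO N k)
    (hNR : C.NR N) (hNR0 : C.NR0 N) (hZB : C.ZB N) : C.Blocks := by
  obtain ⟨h1, h2, h3⟩ := claimO hC hE hO hNR hNR0 hZB
  exact blocks_of_copies hC hE (symO hO) (dvdO hC hE hO h2 h3) h1

/-- `m < N`: the block structure, for all `L > M ≥ 1` -/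
theorem blocks_gt (hC : C.Ok) {N : ℕ} (hE : C.Ev N) (hmN : C.m < N)
    (hZB : ∀ k, C.TypeO N k → C.ZB N) : C.Blocks := by
  have hS := shape hC hE hmN
  have hNR := nr hC hE hmN hS
  have hcop := forced_copyN hC hE hmN hNR
  have hNR0 := nr0 hC hE hmN hS hcop
  rcases type_of_event hC hE hmN hS hcop with ⟨k, hK⟩ | ⟨k, hO⟩ | ⟨k, hK⟩
  · exact blocks_typeK hC hE hK hNR hNR0
  · exact blocks_typeO hC hE hO hNR hNR0 (hZB k hO)
  · exact mirror_blocks (blocks_typeK (mirror_ok hC) (mirror_ev hC hE) hK (mirror_nr hNR)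
      (mirror_nr0 hNR0))

/-- reduction of the whole combinatorial part to the three exceptional statements -/
theorem blocks_of (hC : C.Ok) (hZE : C.ZE) (hlt : ∀ N, C.Ev N → N < C.m → False)
    (hZB : ∀ N k, C.Ev N → C.m < N → C.TypeO N k → C.ZB N) : C.Blocks := by
  obtain ⟨N, hE⟩ := exists_event hC hZE
  rcases Nat.lt_trichotomy N C.m with h | h | hmN
  · exact (hlt N hE h).elim
  · exact (hE.ne h).elim
  · exact blocks_gt hC hE hmN (fun k hO => hZB N k hE hmN hO)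

theorem blocks_M2 (hC : C.Ok) (hM : 2 ≤ C.M) : C.Blocks :=
  blocks_of hC (ze_M2 hC hM) (fun _ hE h => impossible_lt hC hM hE h)
    (fun _ _ _ _ hO => zb_M2 hC hM hO)

end Cd

/-- the combinatorial part for `M ≥ 2` -/
theorem germ_arises_M2 {H K : Finset (ℤ × ℤ)} {L M h : ℕ} {xl : ℤ} {αH αK βH βK : ℕ → ℝ} {m : ℕ}
    {q : ℤ} (G : Germ H K L M h xl αH αK βH βK m q) (hM : 2 ≤ M) : Arises H K :=
  germ_blocks G (Cd.blocks_M2 (germ_ok G) hM)

end Pool.Agent.Lib.MP_bb0bab_co
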