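import Pool.Agent.Lib.MP_bb0bab_co.CB01

/-!
# CB33 the equation of a free row above a row of type 1, `M = 1`

All solutions: T0, full T1, E2 (`H = x^a[L]`, `K = x^(a+2)[L]`, `G = x^a[2]`, `G' = x^(a+1)[2]`), and for `L = 2` the three
families E3, X1, X2.
-/

namespace Pool.Agent.Lib.MP_bb0bab_co

open LaurentPolynomial

namespace Z1

theorem T_sub_one_ne {n : ℕ} (hn : 0 < n) : (T (n : ℤ) - 1 : LaurentPolynomial ℤ) ≠ 0 := by
  intro h
  have h1 : (T (n : ℤ) : LaurentPolynomial ℤ) = T 0 := by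
    rw [T_zero]; exact sub_eq_zero.mp h
  have h2 := congrArg (fun p : LaurentPolynomial ℤ => p.coeff 0) h1
  simp only [T_apply] at h2
  rw [if_neg (by omega), if_pos trivial] at h2
  exact zero_ne_one h2

theorem br_mul (n : ℕ) : (T 1 - 1) * br n = (T (n : ℤ) - 1 : LaurentPolynomial ℤ) := by
  unfold br
  rw [sub_one_mul_rowPoly (by omega)]
  rw [show (n : ℤ) - 1 + 1 = n by ring, T_zero]

theorem mass {L : ℕ} {a b c d a' b' c' d' : ℤ}
    (h1 : 0 ≤ b + L - a) (h2 : 0 ≤ b' + L - a') (h3 : 0 ≤ d + 1 - c) (h4 : 0 ≤ d' + 1 - c')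
    (heq : rowPoly a' (b' + L - 1) - rowPoly a (b + L - 1) =
      br L * (rowPoly c' d' - rowPoly c d)) :
    ((b' - a') - (b - a)) = L * ((d' - c') - (d - c)) := by
  set f : LaurentPolynomial ℤ →+* ℤ := LaurentPolynomial.eval₂ (Int.castRingHom ℤ) (1 : ℤˣ) with hf
  have hf1 : f (T 1) = 1 := by rw [hf, LaurentPolynomial.eval₂_T]; simp
  have h := congrArg f heq
  unfold br at h
  simp only [map_mul, map_sub, eval_rowPoly f hf1] at h
  have e2 : (((L : ℤ) - 1 + 1 - 0).toNat : ℤ) = L := by omega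
  have e3 : ((b' + L - 1 + 1 - a').toNat : ℤ) = b' + L - a' := by omega
  have e4 : ((b + L - 1 + 1 - a).toNat : ℤ) = b + L - a := by omega
  have e5 : ((d' + 1 - c').toNat : ℤ) = d' + 1 - c' := by omega
  have e6 : ((d + 1 - c).toNat : ℤ) = d + 1 - c := by omega
  rw [e2, e3, e4, e5, e6] at h
  linarith

theorem mul {L : ℕ} {a b c d a' b' c' d' : ℤ}
    (h1 : 0 ≤ b + L - a) (h2 : 0 ≤ b' + L - a') (h3 : 0 ≤ d + 1 - c) (h4 : 0 ≤ d' + 1 - c')
    (heq : rowPoly a' (b' + L - 1) - rowPoly a (b + L - 1) =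
      br L * (rowPoly c' d' - rowPoly c d)) :
    (T 1 - 1 : LaurentPolynomial ℤ) * ((T (b' + L) - T a') - (T (b + L) - T a)) =
      (T (L : ℤ) - 1) * ((T (d' + 1) - T c') - (T (d + 1) - T c)) := by
  have k1 : (T 1 - 1 : LaurentPolynomial ℤ) * rowPoly a' (b' + L - 1) = T (b' + L) - T a' := by
    rw [sub_one_mul_rowPoly (by omega)]; congr 2; ring
  have k2 : (T 1 - 1 : LaurentPolynomial ℤ) * rowPoly a (b + L - 1) = T (b + L) - T a := by
    rw [sub_one_mul_rowPoly (by omega)]; congr 2; ring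
  have k3 : (T 1 - 1 : LaurentPolynomial ℤ) * rowPoly c' d' = T (d' + 1) - T c' := by
    rw [sub_one_mul_rowPoly (by omega)]
  have k4 : (T 1 - 1 : LaurentPolynomial ℤ) * rowPoly c d = T (d + 1) - T c := by
    rw [sub_one_mul_rowPoly (by omega)]
  rw [← k1, ← k2, ← k3, ← k4, ← br_mul L]
  linear_combination (T 1 - 1 : LaurentPolynomial ℤ) ^ 2 * heq

/-- coefficients for `L = 2` -/
theorem key {a b c d a' b' c' d' : ℤ}
    (h : (T 1 - 1 : LaurentPolynomial ℤ) * ((T (b' + (2 : ℕ)) - T a') - (T (b + (2 : ℕ)) - T a)) =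
      (T ((2 : ℕ) : ℤ) - 1) * ((T (d' + 1) - T c') - (T (d + 1) - T c))) (n : ℤ) :
    ((if b' + 2 = n then 1 else 0) - (if a' = n then 1 else 0) -
      ((if b + 2 = n then 1 else 0) - (if a = n then 1 else 0)) : ℤ) =
    ((if d' + 2 = n then 1 else 0) - (if c' + 1 = n then 1 else 0) -
      ((if d + 2 = n then 1 else 0) - (if c + 1 = n then 1 else 0))) +
    ((if d' + 1 = n then 1 else 0) - (if c' = n then 1 else 0) -
      ((if d + 1 = n then 1 else 0) - (if c = n then 1 else 0))) := by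
  have e0 : (T ((2 : ℕ) : ℤ) : LaurentPolynomial ℤ) = T 1 * T 1 := by
    rw [← T_add]; norm_num
  have h1 : ((T (b' + (2 : ℕ)) - T a') - (T (b + (2 : ℕ)) - T a) : LaurentPolynomial ℤ) =
      (T 1 + 1) * ((T (d' + 1) - T c') - (T (d + 1) - T c)) := by
    apply mul_left_cancel₀ (T_sub_one_ne (show 0 < 1 by omega))
    push_cast
    rw [e0] at h
    linear_combination h
  have e1 : ∀ k : ℤ, (T 1 * T k : LaurentPolynomial ℤ) = T (k + 1) := by
    intro k; rw [← T_add, add_comm]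
  have h2 : ((T (b' + (2 : ℕ)) - T a') - (T (b + (2 : ℕ)) - T a) : LaurentPolynomial ℤ) =
      ((T (d' + 1 + 1) - T (c' + 1)) - (T (d + 1 + 1) - T (c + 1))) +
      ((T (d' + 1) - T c') - (T (d + 1) - T c)) := by
    rw [h1, add_mul, one_mul, mul_sub, mul_sub, mul_sub, e1, e1, e1, e1]
  have h3 := congrArg (fun p : LaurentPolynomial ℤ => p.coeff n) h2
  simp only [AddMonoidAlgebra.coeff_sub, AddMonoidAlgebra.coeff_add, Finsupp.sub_apply,
    Finsupp.add_apply, T_apply] at h3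
  have r1 : ∀ k : ℤ, k + 1 + 1 = k + 2 := by intro k; ring
  rw [r1, r1] at h3
  push_cast at h3
  exact h3

/-- equal lengths -/
theorem caseB {L : ℕ} (hL : 2 ≤ L) {a b c d : ℤ} {u v : ℕ} (hu : u ≤ 2) (hv : v ≤ 2)
    (h1 : (u : ℤ) ≤ b + L - a) (h3 : (v : ℤ) ≤ d + 1 - c)
    (h : (T 1 - 1 : LaurentPolynomial ℤ) * ((T (b + u + L) - T (a + u)) - (T (b + L) - T a)) =
      (T (L : ℤ) - 1) * ((T (d + v + 1) - T (c + v)) - (T (d + 1) - T c))) :
    (u = 0 ∧ v = 0) ∨ (u = 1 ∧ v = 1 ∧ b = a ∧ c = a ∧ d = a) ∨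
    (u = 2 ∧ v = 1 ∧ b = a ∧ c = a ∧ d = a + 1) ∨
    (L = 2 ∧ u = 2 ∧ v = 1 ∧ c = a ∧ d = b + 1) := by
  obtain ⟨lam, hlam⟩ := Int.eq_ofNat_of_zero_le (show 0 ≤ b + L - a by omega)
  obtain ⟨mu, hmu⟩ := Int.eq_ofNat_of_zero_le (show 0 ≤ d + 1 - c by omega)
  have hb : b + L = a + lam := by omega
  have hd : d + 1 = c + mu := by omega
  have h' : (T a : LaurentPolynomial ℤ) * ((T ((1 : ℕ) : ℤ) - 1) * (T u - 1) * (T lam - 1)) =
      T c * ((T L - 1) * (T v - 1) * (T mu - 1)) := by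
    rw [show b + u + L = a + lam + u by omega, show d + v + 1 = c + mu + v by omega, hb, hd] at h
    simp only [T_add] at h
    push_cast
    linear_combination h
  have hTu : ∀ n : ℤ, (T n : LaurentPolynomial ℤ) ≠ 0 := fun n => (isUnit_T n).ne_zero
  have hT1 := T_sub_one_ne (show 0 < 1 by omega)
  have hTL := T_sub_one_ne (show 0 < L by omega)
  by_cases hu0 : u = 0
  · left
    refine ⟨hu0, ?_⟩
    by_contra hv0
    have hv1 : 0 < v := by omega
    have hmu0 : 0 < mu := by omega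
    rw [hu0] at h'
    simp only [Nat.cast_zero, T_zero, sub_self, mul_zero, zero_mul] at h'
    exact (mul_ne_zero (hTu c) (mul_ne_zero (mul_ne_zero hTL (T_sub_one_ne hv1))
      (T_sub_one_ne hmu0))) h'.symm
  have hlam0 : 0 < lam := by omega
  have hu1 : 0 < u := by omega
  by_cases hv0 : v = 0
  · exfalso
    rw [hv0] at h'
    simp only [Nat.cast_zero, T_zero, sub_self, mul_zero, zero_mul] at h'
    exact (mul_ne_zero (hTu a) (mul_ne_zero (mul_ne_zero hT1 (T_sub_one_ne hu1))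
      (T_sub_one_ne hlam0))) h'
  have hv1 : 0 < v := by omega
  have hmu0 : 0 < mu := by omega
  obtain ⟨g1, g2⟩ := alg3 (show 0 < 1 by omega) hu1 hlam0 (show 0 < L by omega) hv1 hmu0 h'
  have g3 : L ∈ ({1, u, lam} : Multiset ℕ) := by rw [g2]; simp
  simp only [Multiset.insert_eq_cons, Multiset.mem_cons, Multiset.mem_singleton] at g3
  have g4 : L = lam ∨ (L = u ∧ L ≠ lam) := by omega
  rcases g4 with g4 | ⟨g4, g5⟩
  · have h5 : (T a : LaurentPolynomial ℤ) * ((T ((1 : ℕ) : ℤ) - 1) * (T u - 1)) =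
        T c * ((T v - 1) * (T mu - 1)) := by
      apply mul_left_cancel₀ hTL
      rw [← g4] at h'
      linear_combination h'
    have h6 := (alg2 (show 0 < 1 by omega) hu1 hv1 hmu0 h5).2
    omega
  · have h5 : (T a : LaurentPolynomial ℤ) * ((T ((1 : ℕ) : ℤ) - 1) * (T lam - 1)) =
        T c * ((T v - 1) * (T mu - 1)) := by
      apply mul_left_cancel₀ hTL
      rw [← g4] at h'
      linear_combination h'
    have h6 := (alg2 (show 0 < 1 by omega) hlam0 hv1 hmu0 h5).2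
    omega

end Z1

theorem z1_alg {L : ℕ} (hL : 2 ≤ L) {a b c d a' b' c' d' : ℤ}
    (h1 : a' ≤ b + L) (h2 : a + 1 ≤ b' + L) (h3 : c' ≤ d + 1) (h4 : c ≤ d')
    (k1 : a ≤ b + L) (k2 : a' ≤ b' + L) (k3 : c ≤ d + 1) (k4 : c' ≤ d' + 1)
    (u1 : 0 ≤ a' - a ∧ a' - a ≤ 2) (u2 : 0 ≤ b' - b ∧ b' - b ≤ 2)
    (v1 : 0 ≤ c' - c ∧ c' - c ≤ 2) (v2 : 0 ≤ d' - d ∧ d' - d ≤ 2)
    (heq : rowPoly a' (b' + L - 1) - rowPoly a (b + L - 1) =
      br L * (rowPoly c' d' - rowPoly c d)) :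
    (a' = a ∧ b' = b ∧ c' = c ∧ d' = d) ∨
    (b = a ∧ c = a ∧ d = a ∧ a' = a + 1 ∧ b' = a + 1 ∧ c' = a + 1 ∧ d' = a + 1) ∨
    (b = a ∧ c = a ∧ d = a + 1 ∧ a' = a + 2 ∧ b' = a + 2 ∧ c' = a + 1 ∧ d' = a + 2) ∨
    (L = 2 ∧ c = a ∧ d = b + 1 ∧ a' = a + 2 ∧ b' = b + 2 ∧ c' = a + 1 ∧ d' = b + 2) ∨
    (L = 2 ∧ a' = a ∧ b' = b + 2 ∧ c' = c ∧ d = b + 1 ∧ d' = b + 2) ∨
    (L = 2 ∧ b' = b ∧ a' = a + 2 ∧ d' = d ∧ c = a ∧ c' = a + 1) := by
  have hmass := Z1.mass (by omega) (by omega) (by omega) (by omega) heq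
  have hmul := Z1.mul (by omega) (by omega) (by omega) (by omega) heq
  obtain ⟨δ, hδ⟩ : ∃ δ : ℤ, δ = (b' - a') - (b - a) := ⟨_, rfl⟩
  obtain ⟨ε, hε⟩ : ∃ ε : ℤ, ε = (d' - c') - (d - c) := ⟨_, rfl⟩
  rw [← hδ, ← hε] at hmass
  have hδ2 : -2 ≤ δ ∧ δ ≤ 2 := by omega
  have hε2 : -2 ≤ ε ∧ ε ≤ 2 := by omega
  have hcase : (δ = 0 ∧ ε = 0) ∨ (δ = 2 ∧ ε = 1 ∧ L = 2) ∨ (δ = -2 ∧ ε = -1 ∧ L = 2) := by
    have e1 : δ = -2 ∨ δ = -1 ∨ δ = 0 ∨ δ = 1 ∨ δ = 2 := by omega
    have e2 : ε = -2 ∨ ε = -1 ∨ ε = 0 ∨ ε = 1 ∨ ε = 2 := by omega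
    rcases e1 with rfl | rfl | rfl | rfl | rfl <;> rcases e2 with rfl | rfl | rfl | rfl | rfl <;>
      omega
  rcases hcase with ⟨h0, h0'⟩ | ⟨h0, h0', hL2⟩ | ⟨h0, h0', hL2⟩
  · obtain ⟨u, hu⟩ := Int.eq_ofNat_of_zero_le u1.1
    obtain ⟨v, hv⟩ := Int.eq_ofNat_of_zero_le v1.1
    have ha' : a' = a + u := by omega
    have hb' : b' = b + u := by omega
    have hc' : c' = c + v := by omega
    have hd' : d' = d + v := by omega
    rw [ha', hb', hc', hd'] at hmul
    rcases Z1.caseB hL (by omega) (by omega) (by omega) (by omega) hmul with r | r | r | r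
    · left; omega
    · right; left; omega
    · right; right; left; omega
    · right; right; right; left; omega
  · subst hL2
    have hk := Z1.key hmul
    have hu : a' = a ∧ b' = b + 2 := by omega
    obtain ⟨rfl, rfl⟩ := hu
    have hv : (c' = c ∧ d' = d + 1) ∨ (c' = c + 1 ∧ d' = d + 2) := by omega
    rcases hv with ⟨rfl, rfl⟩ | ⟨rfl, rfl⟩
    · have e1 := hk (b + 4)
      right; right; right; right; left
      omega
    · exfalso
      have f1 : b = d := by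
        have e1 := hk (d + 4)
        rw [if_neg (show ¬ c + 1 + 1 = d + 4 by omega), if_neg (show ¬ d + 2 = d + 4 by omega),
          if_neg (show ¬ c + 1 = d + 4 by omega), if_neg (show ¬ d + 2 + 1 = d + 4 by omega),
          if_neg (show ¬ d + 1 = d + 4 by omega), if_neg (show ¬ c = d + 4 by omega),
          if_pos (show d + 2 + 2 = d + 4 by omega)] at e1
        omega
      have f2 : b + 4 = d + 3 := by
        have e2 := hk (d + 3)
        rw [if_neg (show ¬ c + 1 + 1 = d + 3 by omega), if_neg (show ¬ d + 2 = d + 3 by omega),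
          if_neg (show ¬ c + 1 = d + 3 by omega), if_pos (show d + 2 + 1 = d + 3 by omega),
          if_neg (show ¬ d + 1 = d + 3 by omega), if_neg (show ¬ c = d + 3 by omega),
          if_neg (show ¬ d + 2 + 2 = d + 3 by omega)] at e2
        omega
      omega
  · subst hL2
    have hk := Z1.key hmul
    have hu : a' = a + 2 ∧ b' = b := by omega
    obtain ⟨rfl, rfl⟩ := hu
    have hv : (c' = c + 1 ∧ d' = d) ∨ (c' = c + 2 ∧ d' = d + 1) := by omega
    rcases hv with ⟨rfl, rfl⟩ | ⟨rfl, rfl⟩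
    · have e1 := hk a
      right; right; right; right; right
      omega
    · exfalso
      have f1 : a = c := by
        have e1 := hk c
        rw [if_neg (show ¬ d + 1 + 2 = c by omega), if_neg (show ¬ c + 2 + 1 = c by omega),
          if_neg (show ¬ d + 2 = c by omega), if_neg (show ¬ c + 1 = c by omega),
          if_neg (show ¬ d + 1 + 1 = c by omega), if_neg (show ¬ c + 2 = c by omega),
          if_neg (show ¬ d + 1 = c by omega), if_pos (show c = c by omega)] at e1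
        omega
      have f2 : a = c + 1 := by
        have e1 := hk (c + 1)
        rw [if_neg (show ¬ d + 1 + 2 = c + 1 by omega), if_neg (show ¬ c + 2 + 1 = c + 1 by omega),
          if_neg (show ¬ d + 2 = c + 1 by omega), if_pos (show c + 1 = c + 1 by omega),
          if_neg (show ¬ d + 1 + 1 = c + 1 by omega), if_neg (show ¬ c + 2 = c + 1 by omega),
          if_neg (show ¬ d + 1 = c + 1 by omega), if_neg (show ¬ c = c + 1 by omega)] at e1
        omega
      omega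

end Pool.Agent.Lib.MP_bb0bab_co
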