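import Pool.Agent.Lib.MP_bb0bab_co.CB33

/-!
# CB34 the row above E2 (`M = 1`, `m = 1`, `L ≥ 3`)

`D_{s+1} + x^(w+1)(x-1)[L] = [L] D'_{s+1}`; the only solution has `a' = w + 3`, `d = w + 1`.
-/

namespace Pool.Agent.Lib.MP_bb0bab_co

open LaurentPolynomial

namespace Z1

theorem coeff_rowPoly (a b n : ℤ) :
    (rowPoly a b).coeff n = if a ≤ n ∧ n ≤ b then 1 else 0 := by
  unfold rowPoly
  rw [AddMonoidAlgebra.coeff_sum, Finset.sum_apply']
  simp only [T_apply]
  by_cases h : a ≤ n ∧ n ≤ b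
  · rw [if_pos h, Finset.sum_ite_eq', if_pos (Finset.mem_Icc.2 h)]
  · rw [if_neg h, Finset.sum_ite_eq', if_neg (fun h' => h (Finset.mem_Icc.1 h'))]

theorem coeff_T_mul (k n : ℤ) (P : LaurentPolynomial ℤ) : (T k * P).coeff n = P.coeff (n - k) := by
  have h := AddMonoidAlgebra.coeff_single_mul_apply P (1 : ℤ) k n
  rw [one_mul, show -k + n = n - k by ring] at h
  exact h

theorem br_ne {L : ℕ} (hL : 1 ≤ L) : br L ≠ 0 := by
  intro h
  have h1 := br_mul L
  rw [h, mul_zero] at h1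
  exact T_sub_one_ne hL h1.symm

/-- equal left ends -/
theorem e2_eq {w a a' c d c' d' : ℤ}
    (ha : a = w ∨ a = w + 1) (ha' : a' = w + 2 ∨ a' = w + 3)
    (hc : c = w ∨ c = w + 1) (hd : d = w + 1 ∨ d = w + 2)
    (hc' : c' = w + 1 ∨ c' = w + 2) (hd' : d' = w + 2 ∨ d' = w + 3)
    (h : (T a' - T a + (T (w + 2) - T (w + 1)) : LaurentPolynomial ℤ) =
      rowPoly c' d' - rowPoly c d) : a' = w + 3 ∧ d = w + 1 := by
  have hk : ∀ n : ℤ, ((if a' = n then 1 else 0) - (if a = n then 1 else 0) +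
      ((if w + 2 = n then 1 else 0) - (if w + 1 = n then 1 else 0)) : ℤ) =
      (if c' ≤ n ∧ n ≤ d' then 1 else 0) - (if c ≤ n ∧ n ≤ d then 1 else 0) := by
    intro n
    have h3 := congrArg (fun p : LaurentPolynomial ℤ => p.coeff n) h
    simp only [AddMonoidAlgebra.coeff_sub, AddMonoidAlgebra.coeff_add, Finsupp.sub_apply,
      Finsupp.add_apply, T_apply, coeff_rowPoly] at h3
    exact h3
  have h1 := hk (w + 1)
  have h2 := hk (w + 2)
  rw [if_neg (show ¬ w + 2 = w + 1 by omega), if_pos (show w + 1 = w + 1 from rfl),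
    if_neg (show ¬ a' = w + 1 by omega)] at h1
  rw [if_pos (show w + 2 = w + 2 from rfl), if_neg (show ¬ w + 1 = w + 2 by omega),
    if_neg (show ¬ a = w + 2 by omega)] at h2
  have g1 : a ≠ w + 1 := by
    intro h0
    rw [if_pos h0] at h1
    split_ifs at h1 <;> omega
  have g2 : a' ≠ w + 2 := by
    intro h0
    rw [if_pos h0] at h2
    split_ifs at h2 <;> omega
  rw [if_neg g2] at h2
  refine ⟨by omega, ?_⟩
  split_ifs at h2 <;> omega

/-- different left and right shifts are impossible -/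
theorem e2_ne {L : ℕ} (hL : 3 ≤ L) {w a b c d c' d' : ℤ}
    (ha : a = w ∨ a = w + 1) (hb : b = w ∨ b = w + 1) (hab : a ≠ b)
    (hc : c = w ∨ c = w + 1) (hd : d = w + 1 ∨ d = w + 2)
    (hc' : c' = w + 1 ∨ c' = w + 2) (hd' : d' = w + 2 ∨ d' = w + 3)
    (h : ((T (b + 2 + L) - T (a + 2)) - (T (b + L) - T a) : LaurentPolynomial ℤ) =
      (T (L : ℤ) - 1) * (rowPoly c' d' - rowPoly c d - (T (w + 2) - T (w + 1)))) : False := by
  obtain ⟨X, hX⟩ : ∃ X : LaurentPolynomial ℤ,
    X = rowPoly c' d' - rowPoly c d - (T (w + 2) - T (w + 1)) := ⟨_, rfl⟩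
  rw [← hX, sub_mul, one_mul] at h
  have hXc : ∀ n : ℤ, X.coeff n = ((if c' ≤ n ∧ n ≤ d' then 1 else 0) -
      (if c ≤ n ∧ n ≤ d then 1 else 0) -
      ((if w + 2 = n then 1 else 0) - (if w + 1 = n then 1 else 0)) : ℤ) := by
    intro n
    rw [hX]
    simp only [AddMonoidAlgebra.coeff_sub, Finsupp.sub_apply, T_apply, coeff_rowPoly]
  have hk : ∀ n : ℤ, (((if b + 2 + L = n then 1 else 0) - (if a + 2 = n then 1 else 0)) -
      ((if b + L = n then 1 else 0) - (if a = n then 1 else 0)) : ℤ) =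
      X.coeff (n - L) - X.coeff n := by
    intro n
    have h3 := congrArg (fun p : LaurentPolynomial ℤ => p.coeff n) h
    simp only [AddMonoidAlgebra.coeff_sub, Finsupp.sub_apply, T_apply, coeff_T_mul] at h3
    exact h3
  have z0 : ∀ n : ℤ, n < w → X.coeff n = 0 := by
    intro n hn
    rw [hXc, if_neg (by omega), if_neg (by omega), if_neg (by omega), if_neg (by omega)]
    norm_num
  have z1 : ∀ n : ℤ, w + 3 < n → X.coeff n = 0 := by
    intro n hn
    rw [hXc, if_neg (by omega), if_neg (by omega), if_neg (by omega), if_neg (by omega)]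
    norm_num
  have z2 : X.coeff (w + 3) ≤ 1 := by
    rw [hXc, if_neg (show ¬ w + 2 = w + 3 by omega), if_neg (show ¬ w + 1 = w + 3 by omega)]
    split_ifs <;> norm_num
  have k1 := hk b
  rw [z0 (b - L) (by omega), if_neg (show ¬ b + 2 + L = b by omega),
    if_neg (show ¬ a + 2 = b by omega), if_neg (show ¬ b + L = b by omega),
    if_neg (show ¬ a = b from hab)] at k1
  have k2 := hk (b + L)
  rw [show b + (L : ℤ) - L = b by ring, if_neg (show ¬ b + 2 + L = b + L by omega),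
    if_pos (show b + (L : ℤ) = b + L from rfl), if_neg (show ¬ a = b + L by omega)] at k2
  by_cases h5 : b + (L : ℤ) = w + 3
  · rw [h5, if_pos (show a + 2 = w + 3 by omega)] at k2
    omega
  · rw [z1 (b + L) (by omega)] at k2
    split_ifs at k2 <;> omega

end Z1

theorem e2_alg {L : ℕ} (hL : 3 ≤ L) {w a b c d a' b' c' d' : ℤ}
    (ha : a = w ∨ a = w + 1) (hb : b = w ∨ b = w + 1)
    (ha' : a' = w + 2 ∨ a' = w + 3) (hb' : b' = w + 2 ∨ b' = w + 3)
    (hc : c = w ∨ c = w + 1) (hd : d = w + 1 ∨ d = w + 2)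
    (hc' : c' = w + 1 ∨ c' = w + 2) (hd' : d' = w + 2 ∨ d' = w + 3)
    (heq : rowPoly a' (b' + L - 1) - rowPoly a (b + L - 1) +
      (T (w + 2) - T (w + 1)) * br L = br L * (rowPoly c' d' - rowPoly c d)) :
    a' = w + 3 ∧ d = w + 1 := by
  have hmass : ((b' - a') - (b - a)) = L * ((d' - c') - (d - c)) := by
    set f : LaurentPolynomial ℤ →+* ℤ := LaurentPolynomial.eval₂ (Int.castRingHom ℤ) (1 : ℤˣ) with hf
    have hfn : ∀ n : ℤ, f (T n) = 1 := by intro n; rw [hf, LaurentPolynomial.eval₂_T]; simp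
    have h := congrArg f heq
    unfold br at h
    simp only [map_mul, map_sub, map_add, eval_rowPoly f (hfn 1), hfn, sub_self, zero_mul,
      add_zero] at h
    have e2 : (((L : ℤ) - 1 + 1 - 0).toNat : ℤ) = L := by omega
    have e3 : ((b' + L - 1 + 1 - a').toNat : ℤ) = b' + L - a' := by omega
    have e4 : ((b + L - 1 + 1 - a).toNat : ℤ) = b + L - a := by omega
    have e5 : ((d' + 1 - c').toNat : ℤ) = d' + 1 - c' := by omega
    have e6 : ((d + 1 - c).toNat : ℤ) = d + 1 - c := by omega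
    rw [e2, e3, e4, e5, e6] at h
    linarith
  have h0 : b' - a' = b - a := by
    obtain ⟨ε, hε⟩ : ∃ ε : ℤ, ε = (d' - c') - (d - c) := ⟨_, rfl⟩
    rw [← hε] at hmass
    have : ε = 0 := by
      by_contra hne
      rcases lt_or_gt_of_ne hne with h1 | h1
      · have : (L : ℤ) * ε ≤ -3 := by nlinarith
        omega
      · have : 3 ≤ (L : ℤ) * ε := by nlinarith
        omega
    rw [this, mul_zero] at hmass
    omega
  have k1 : (T 1 - 1 : LaurentPolynomial ℤ) * rowPoly a' (b' + L - 1) = T (b' + L) - T a' := by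
    rw [sub_one_mul_rowPoly (by omega)]; congr 2; ring
  have k2 : (T 1 - 1 : LaurentPolynomial ℤ) * rowPoly a (b + L - 1) = T (b + L) - T a := by
    rw [sub_one_mul_rowPoly (by omega)]; congr 2; ring
  have k3 : ((T (b' + L) - T a') - (T (b + L) - T a) : LaurentPolynomial ℤ) =
      (T (L : ℤ) - 1) * (rowPoly c' d' - rowPoly c d - (T (w + 2) - T (w + 1))) := by
    rw [← k1, ← k2, ← Z1.br_mul L]
    linear_combination (T 1 - 1 : LaurentPolynomial ℤ) * heq
  by_cases hab : a = b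
  · have hab' : a' = b' := by omega
    subst hab hab'
    apply Z1.e2_eq ha ha' hc hd hc' hd'
    have k4 : (T a' - T a : LaurentPolynomial ℤ) =
        rowPoly c' d' - rowPoly c d - (T (w + 2) - T (w + 1)) := by
      apply mul_left_cancel₀ (Z1.T_sub_one_ne (show 0 < L by omega))
      rw [← k3, T_add, T_add]
      ring
    rw [k4]
    ring
  · exfalso
    have e1 : a' = a + 2 := by omega
    have e2 : b' = b + 2 := by omega
    rw [e1, e2] at k3
    exact Z1.e2_ne hL ha hb hab hc hd hc' hd' k3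

end Pool.Agent.Lib.MP_bb0bab_co
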