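import Pool.Agent.Lib.MP_bb0bab_co.CB09
import Pool.Agent.Lib.MP_bb0bab_co.CB13
import Pool.Agent.Lib.MP_bb0bab_co.CB30
import Pool.Agent.Lib.MP_bb0bab_co.CB34

/-!
# CB35 rows above a row of type 1 before the event, `M = 1`

`z1_row`: the list of solutions of the equation of a free row above a row of type 1 (`M = 1`, `L ≥ 2`), in terms of the
words.  `ze_M1`: `ZE` for `M = 1`, `L ≥ 3` (section 9.2 (i) of the text).
-/

namespace Pool.Agent.Lib.MP_bb0bab_co

open LaurentPolynomial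

namespace Cd

variable {C : Cd}

/-- near the top all rows are of type 0 -/
theorem t0_of_top (hC : C.Ok) {s : ℕ} (hs : s ≤ C.h) (h : C.h < s + C.m) : C.T0 s := by
  obtain ⟨h1, h2, h3, h4⟩ := hC.low (C.h - s) (by omega)
  have e : C.h - (C.h - s) = s := by omega
  have a1 := c_eq (C := C) (C.h - s)
  have a2 := d_eq (C := C) (C.h - s)
  have a3 := c'_eq (C := C) (C.h - s)
  have a4 := d'_eq (C := C) (C.h - s)
  rw [e] at a1 a2 a3 a4
  have b1 := c_eq (C := C) s
  have b2 := d_eq (C := C) s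
  have b3 := c'_eq (C := C) s
  have b4 := d'_eq (C := C) s
  refine ⟨?_, ?_, ?_, ?_⟩ <;> omega

/-- the local solutions above a row of type 1, `M = 1` -/
theorem z1_row (hC : C.Ok) (hM : C.M = 1) {s : ℕ} (hms : C.m < s) (hs : s ≤ C.h)
    (hT1 : C.T1 (s - 1)) (hZ : C.Z s) :
    C.T0 s ∨ (C.T1 s ∧ C.Full s) ∨
    (C.b s = C.a s ∧ C.c s = C.a s ∧ C.d s = C.a s + 1 ∧
      C.a' s = C.a s + 2 ∧ C.b' s = C.a s + 2 ∧ C.c' s = C.a s + 1 ∧ C.d' s = C.a s + 2) ∨
    (C.L = 2 ∧ C.c s = C.a s ∧ C.d s = C.b s + 1 ∧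
      C.a' s = C.a s + 2 ∧ C.b' s = C.b s + 2 ∧ C.c' s = C.a s + 1 ∧ C.d' s = C.b s + 2) ∨
    (C.L = 2 ∧ C.a' s = C.a s ∧ C.b' s = C.b s + 2 ∧ C.c' s = C.c s ∧ C.d s = C.b s + 1 ∧
      C.d' s = C.b s + 2) ∨
    (C.L = 2 ∧ C.b' s = C.b s ∧ C.a' s = C.a s + 2 ∧ C.d' s = C.d s ∧ C.c s = C.a s ∧
      C.c' s = C.a s + 1) := by
  by_cases htop : C.h < s + C.m
  · exact Or.inl (t0_of_top hC hs htop)
  have hL : 2 ≤ C.L := by have := hC.hLM; omega
  have hm1 := hC.hm
  obtain ⟨t1, t2, t3, t4⟩ := hT1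
  have l1 := hC.a_let (i := s - 1) (by omega)
  have l2 := hC.b_let (i := s - 1) (by omega)
  have l3 := hC.c_let (i := s - 1) (by omega)
  have l4 := hC.d_let (i := s - 1) (by omega)
  have l5 := hC.a'_let (i := s - 1) (by omega)
  have l6 := hC.b'_let (i := s - 1) (by omega)
  have l7 := hC.c'_let (i := s - 1) (by omega)
  have l8 := hC.d'_let (i := s - 1) (by omega)
  rw [show s - 1 + 1 = s by omega] at l1 l2 l3 l4 l5 l6 l7 l8
  have p1 := hC.len_P (i := s) (by omega)
  have p2 := hC.len_R (i := s) (by omega)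
  have p3 := hC.mu_Psi (j := s) (by omega) hs
  have p4 := hC.mu_T0 (j := s) (by omega) hs
  have n1 := hC.nn_H hs
  have n2 := hC.nn_K hs
  have n3 := hC.nn_G hs
  have n4 := hC.nn_G' hs
  rw [Z, RK, RH, RG', RG, hM] at hZ
  rw [hM] at p1 p2 n3 n4
  push_cast at p1 p2 n3 n4 hZ
  have hb1 : br 1 = 1 := by
    have := rowPoly_len 0 1
    unfold br
    unfold rowPoly
    norm_num
  rw [hb1, one_mul, show C.d' s + 1 - 1 = C.d' s by ring, show C.d s + 1 - 1 = C.d s by ring] at hZ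
  have key := z1_alg hL (a := C.a s) (b := C.b s) (c := C.c s) (d := C.d s) (a' := C.a' s)
    (b' := C.b' s) (c' := C.c' s) (d' := C.d' s) (by omega) (by omega) (by omega) (by omega)
    (by omega) (by omega) (by omega) (by omega) (by omega) (by omega) (by omega) (by omega) hZ
  rcases key with r | r | r | r | r | r
  · exact Or.inl r
  · refine Or.inr (Or.inl ⟨⟨?_, ?_, ?_, ?_⟩, ⟨?_, ?_, ?_⟩⟩) <;> omega
  · exact Or.inr (Or.inr (Or.inl r))
  · exact Or.inr (Or.inr (Or.inr (Or.inl r)))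
  · exact Or.inr (Or.inr (Or.inr (Or.inr (Or.inl r))))
  · exact Or.inr (Or.inr (Or.inr (Or.inr (Or.inr r))))

/-- E2 above full rows: `aK 1 > 0`, `bH 1 < 1` -/
theorem e2_first (hC : C.Ok) {s : ℕ} (hms : C.m < s) (hs : s ≤ C.h)
    (hF : C.Full (s - 1)) (hT1 : C.T1 (s - 1)) (e1 : C.b s = C.a s) (e2 : C.a' s = C.a s + 2) :
    0 < C.aK 1 ∧ C.bH 1 < 1 := by
  have hm1 := hC.hm
  obtain ⟨t1, t2, t3, t4⟩ := hT1
  obtain ⟨f1, f2, f3⟩ := hF
  have l1 := hC.a_let (i := s - 1) (by omega)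
  have l5 := hC.a'_let (i := s - 1) (by omega)
  rw [show s - 1 + 1 = s by omega] at l1 l5
  have hV : C.a (s - 1) = C.a s := by omega
  constructor
  · have h1 := hC.aKconv.win (i := 1) (j := C.h - (s - 1)) (w := s - 1) (by omega) (by omega)
    rw [show C.h - (s - 1) + (s - 1) = C.h by omega, show 1 + (s - 1) = s by omega] at h1
    have h2 : (C.rK (s - 1) : ℝ) < C.d (s - 1) + 1 := Int.lt_floor_add_one _
    have h3 : (C.a' s : ℝ) - 1 < C.aK s := by
      have := Int.ceil_lt_add_one (C.aK s)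
      have h4 : (C.a' s : ℝ) = ⌈C.aK s⌉ := rfl
      rw [h4]; linarith
    have h5 : C.rK (s - 1) = C.x - C.aK (C.h - (s - 1)) := rfl
    rw [hC.aKh] at h1
    have h6 : (C.d (s - 1) : ℝ) = C.a s := by rw [f3, hV]
    have h7 : (C.a' s : ℝ) = C.a s + 2 := by rw [e2]; push_cast; ring
    rw [h5, h6] at h2
    rw [h7] at h3
    linarith
  · have h1 := hC.bHconc.win (i := 1) (j := C.h - (s - 1)) (w := s - 1) (by omega) (by omega)
    rw [show C.h - (s - 1) + (s - 1) = C.h by omega, show 1 + (s - 1) = s by omega] at h1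
    have h2 : (C.c' (s - 1) : ℝ) - 1 < C.lH (s - 1) := by
      have := Int.ceil_lt_add_one (C.lH (s - 1))
      have h4 : (C.c' (s - 1) : ℝ) = ⌈C.lH (s - 1)⌉ := rfl
      rw [h4]; linarith
    have h3 : C.bH s < C.b s + 1 := Int.lt_floor_add_one _
    have h5 : C.lH (s - 1) = C.xr - C.bH (C.h - (s - 1)) := rfl
    rw [hC.bHh] at h1
    have h6 : (C.c' (s - 1) : ℝ) = C.a s + 1 := by
      have : C.c' (s - 1) = C.a s + 1 := by omega
      rw [this]; push_cast; ring
    have h7 : (C.b s : ℝ) = C.a s := by rw [e1]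
    rw [h5, h6] at h2
    rw [h7] at h3
    linarith

/-- `E_{s+1}`, `F_{s+1}` with cut `s`, rows below `s` full -/
theorem EE_succ (hC : C.Ok) {s : ℕ} (hs2 : 2 ≤ s) (hf : ∀ j < s, C.Full j ∧ C.TL j) :
    C.EE s (s + 1) = C.RK (s + 1) - C.RH (s + 1) + (T (C.a 1) * C.RK s - T (C.a' 1) * C.RH s) ∧
    C.FF s (s + 1) = C.RG' (s + 1) - C.RG (s + 1) +
      (T (C.a 1) * C.RG' s - T (C.a' 1) * C.RG s) := by
  obtain ⟨z1, z2, z3, z4, z5, z6, z7, z8⟩ := hC.zero
  constructor
  · rw [cb13_EE, cb13_split (i := 1) (by omega) le_rfl z1 z5 (V := C.RH 0)]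
    · simp
    · intro j hj
      obtain ⟨h1, h2, h3, h4⟩ := cb13_rows_zero hC (hf j hj)
      rw [Nat.sub_self, Nat.zero_add]
      exact ⟨h1, h2⟩
  · rw [cb13_FF, cb13_split (i := 1) (by omega) le_rfl z1 z5 (V := C.RG 0)]
    · simp
    · intro j hj
      obtain ⟨h1, h2, h3, h4⟩ := cb13_rows_zero hC (hf j hj)
      rw [Nat.sub_self, Nat.zero_add]
      exact ⟨h3, h4⟩

/-- the equation of row `s + 1` with cut `s` -/
theorem eq_succ (hC : C.Ok) {s : ℕ} (hs2 : 2 ≤ s) (hs : s + 1 ≤ C.h)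
    (hf : ∀ j < s, C.Full j ∧ C.TL j) :
    br C.M * C.EE s (s + 1) = br C.L * C.FF s (s + 1) := by
  obtain ⟨z1, z2, z3, z4, z5, z6, z7, z8⟩ := hC.zero
  have hv := van_of_full hC le_rfl hf
  have h := conv_id hC s hs
  have hz := Z_of_full hC (by omega : s ≤ C.h) hf
  have e1 : C.EE s s = C.RK s - C.RH s := by
    rw [cb13_EE]
    refine cb13_top (W := C.RH 0) (by omega) z1 z5 fun k hk => ?_
    obtain ⟨h1, h2, h3, h4⟩ := cb13_rows_zero hC (hf k (by omega))
    exact ⟨h1, h2⟩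
  have e2 : C.FF s s = C.RG' s - C.RG s := by
    rw [cb13_FF]
    refine cb13_top (W := C.RG 0) (by omega) z1 z5 fun k hk => ?_
    obtain ⟨h1, h2, h3, h4⟩ := cb13_rows_zero hC (hf k (by omega))
    exact ⟨h3, h4⟩
  obtain ⟨r1, r2, r3, r4⟩ := cb13_rows_zero hC (hf 1 (by omega))
  rw [show s + 1 + 1 = 2 + s by omega, Finset.sum_range_add, Finset.sum_range_add,
    Finset.sum_eq_zero (s := Finset.range s), Finset.sum_eq_zero (s := Finset.range s)] at h
  · simp only [Finset.sum_range_succ, Finset.sum_range_zero, Nat.sub_zero,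
      show s + 1 - 1 = s by omega, e1, e2, r1, r3, RG_zero hC, RH_zero hC] at h
    rw [Z] at hz
    linear_combination h - T (C.a 1) * hz
  · intro i hi
    rw [Finset.mem_range] at hi
    rw [(hv (s + 1 - (2 + i)) (by omega)).2, mul_zero]
  · intro i hi
    rw [Finset.mem_range] at hi
    rw [(hv (s + 1 - (2 + i)) (by omega)).1, mul_zero]

theorem shift1 {p r w k : ℤ} (h : p = r ∨ p = r + 1) (hr : r = w + k) :
    p = w + k ∨ p = w + (k + 1) := by omega

/-- `ZE` for `M = 1`, `L ≥ 3` -/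
theorem ze_M1 (hC : C.Ok) (hM : C.M = 1) (hL : 3 ≤ C.L) : C.ZE := by
  intro s hms hs hf hT1 hZ
  have hm1 := hC.hm
  rcases z1_row hC hM hms hs hT1 hZ with r | r | r | r | r | r
  · exact Or.inl r
  · exact Or.inr r
  · exfalso
    obtain ⟨r1, r2, r3, r4, r5, r6, r7⟩ := r
    obtain ⟨g1, g2⟩ := e2_first hC hms hs (hf (s - 1) (by omega)).1 hT1 r1 r4
    have g3 : 1 ≤ C.a' 1 := Int.one_le_ceil_iff.2 g1
    have g4 : C.b 1 ≤ 0 := by
      have : C.b 1 < 1 := Int.floor_lt.2 (by exact_mod_cast g2)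
      omega
    obtain ⟨f1, f2, f3⟩ := (hf 1 (by omega)).1
    by_cases hm : C.m = 1
    · -- `m = 1`
      have q1 : C.a 1 = C.q := by have := hC.am; rw [hm] at this; exact this
      have q2 : C.a' 1 = C.q + 1 := by have := hC.am'; rw [hm] at this; exact this
      have hsh : s < C.h := by
        rcases Nat.lt_or_ge s C.h with h | h
        · exact h
        · exfalso
          have : s = C.h := by omega
          have hz := t0_of_top hC hs (by omega)
          have := hz.1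
          omega
      have hz0 := hC.a_mono (i := 0) (j := 1) (by omega) (by omega)
      obtain ⟨z1, z2, z3, z4, z5, z6, z7, z8⟩ := hC.zero
      have hq : C.q = 0 := by omega
      obtain ⟨t1, t2, t3, t4⟩ := hT1
      have heq := eq_succ hC (by omega) (by omega : s + 1 ≤ C.h) hf
      obtain ⟨E1, E2⟩ := EE_succ hC (by omega) hf
      rw [E1, E2, q1, q2, hq] at heq
      have rK : C.RK s = T 2 * C.RH s := by
        rw [RK, RH, T_mul_rowPoly, r1, r4, r5]
        congr 1 <;> ring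
      have rG : C.RG' s = T 1 * C.RG s := by
        rw [RG', RG, T_mul_rowPoly, r2, r3, r6, r7]
        congr 1 <;> ring
      have rH : C.RH s = T (C.a s) * br C.L := by
        rw [RH, r1, ← rowPoly_len]
      have hb1 : br 1 = 1 := by
        unfold br
        unfold rowPoly
        norm_num
      have hM' : ((C.M : ℕ) : ℤ) = 1 := by rw [hM]; norm_num
      have l1 := hC.a_let hsh
      have l2 := hC.b_let hsh
      have l3 := hC.c_let hsh
      have l4 := shift1 (hC.d_let hsh) r3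
      have l5 := shift1 (hC.a'_let hsh) r4
      have l6 := shift1 (hC.b'_let hsh) r5
      have l7 := shift1 (hC.c'_let hsh) r6
      have l8 := shift1 (hC.d'_let hsh) r7
      rw [r1] at l2
      rw [r2] at l3
      norm_num at l4 l5 l6 l7 l8
      have key := e2_alg hL l1 l2 l5 l6 l3 l4 l7 l8 (by
          rw [hM', hb1, one_mul, rK, rG, rH] at heq
          have e1 : C.RG' (s + 1) = rowPoly (C.c' (s + 1)) (C.d' (s + 1)) := by
            rw [RG', hM]; congr 1; push_cast; ring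
          have e2 : C.RG (s + 1) = rowPoly (C.c (s + 1)) (C.d (s + 1)) := by
            rw [RG, hM]; congr 1; push_cast; ring
          rw [e1, e2] at heq
          have e3 : (T (C.a s + 2) : LaurentPolynomial ℤ) = T (C.a s) * T 2 := by rw [T_add]
          have e4 : (T (C.a s + 1) : LaurentPolynomial ℤ) = T (C.a s) * T 1 := by rw [T_add]
          rw [e3, e4]
          have e5 : C.RK (s + 1) = rowPoly (C.a' (s + 1)) (C.b' (s + 1) + C.L - 1) := rfl
          have e6 : C.RH (s + 1) = rowPoly (C.a (s + 1)) (C.b (s + 1) + C.L - 1) := rfl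
          rw [← e5, ← e6]
          simp only [zero_add, T_zero, one_mul] at heq
          linear_combination heq)
      obtain ⟨k1, k2⟩ := key
      have h1 := hC.k1_nn (i := s + 1) (by omega)
      have h2 : (C.rK (s + 1) : ℝ) < C.d (s + 1) + 1 := Int.lt_floor_add_one _
      have h3 : (C.a' (s + 1) : ℝ) - 1 < C.aK (s + 1) := by
        have := Int.ceil_lt_add_one (C.aK (s + 1))
        have h4 : (C.a' (s + 1) : ℝ) = ⌈C.aK (s + 1)⌉ := rfl
        rw [h4]; linarith
      rw [k1] at h3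
      rw [k2] at h2
      push_cast at h2 h3
      linarith
    · have h0 := (hC.low 1 (by omega)).1
      omega
  · omega
  · omega
  · omega

end Cd

end Pool.Agent.Lib.MP_bb0bab_co
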