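import Pool.Agent.Lib.MP_bb0bab_co.CB35

/-!
# CB36 `ZB` for `M = 1`, `L ≥ 3` (section 9.2 (ii) of the text)
-/

namespace Pool.Agent.Lib.MP_bb0bab_co

open LaurentPolynomial

namespace Cd

variable {C : Cd}

/-- E2 in the lower half forces the row two below to be full -/
theorem e2_block (hC : C.Ok) {s : ℕ} (hms : C.m + 2 ≤ s) (hs : 2 * s ≤ C.h)
    (h0 : C.T0 (s - 2)) (a1 : C.a (s - 2) = C.a s) (b1 : C.b (s - 2) = C.a s)
    (r1 : C.b s = C.a s) (r3 : C.d s = C.a s + 1) (r4 : C.a' s = C.a s + 2)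
    (r6 : C.c' s = C.a s + 1) : C.c (s - 2) = C.a s ∧ C.d (s - 2) = C.a s := by
  obtain ⟨t1, t2, t3, t4⟩ := h0
  have e1 : s - 2 + 2 = s := by omega
  have e2 : C.h - s + 2 = C.h - (s - 2) := by omega
  have w1 := hC.aKconv.win (i := s - 2) (j := C.h - s) (w := 2) (by omega) (by omega)
  have w2 := hC.bHconc.win (i := s - 2) (j := C.h - s) (w := 2) (by omega) (by omega)
  rw [e1, e2] at w1 w2
  have k1 : (C.a' s : ℝ) - 1 < C.aK s := by
    have := Int.ceil_lt_add_one (C.aK s)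
    have h4 : (C.a' s : ℝ) = ⌈C.aK s⌉ := rfl
    rw [h4]; linarith
  have k2 : C.aK (s - 2) ≤ C.a' (s - 2) := Int.le_ceil _
  have k3 : C.rK s < C.d s + 1 := Int.lt_floor_add_one _
  have k4 : (C.d (s - 2) : ℝ) ≤ C.rK (s - 2) := Int.floor_le _
  have k5 : C.bH s < C.b s + 1 := Int.lt_floor_add_one _
  have k6 : (C.b (s - 2) : ℝ) ≤ C.bH (s - 2) := Int.floor_le _
  have k7 : (C.c' s : ℝ) - 1 < C.lH s := by
    have := Int.ceil_lt_add_one (C.lH s)
    have h4 : (C.c' s : ℝ) = ⌈C.lH s⌉ := rfl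
    rw [h4]; linarith
  have k8 : C.lH (s - 2) ≤ C.c' (s - 2) := Int.le_ceil _
  have d1 : C.rK s = C.x - C.aK (C.h - s) := rfl
  have d2 : C.rK (s - 2) = C.x - C.aK (C.h - (s - 2)) := rfl
  have d3 : C.lH s = C.xr - C.bH (C.h - s) := rfl
  have d4 : C.lH (s - 2) = C.xr - C.bH (C.h - (s - 2)) := rfl
  have c1 : (C.a' (s - 2) : ℝ) = C.a s := by rw [t1, a1]
  have c2 : (C.b (s - 2) : ℝ) = C.a s := by rw [b1]
  rw [r4] at k1
  rw [r3] at k3
  rw [r1] at k5
  rw [r6] at k7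
  push_cast at k1 k3 k5 k7
  have f1 : (C.d (s - 2) : ℝ) < C.a s + 1 := by linarith
  have f2 : (C.a s : ℝ) - 1 < C.c' (s - 2) := by linarith
  have f1' : C.d (s - 2) < C.a s + 1 := by exact_mod_cast f1
  have f2' : C.a s - 1 < C.c' (s - 2) := by exact_mod_cast f2
  have f3 := hC.mu_T0 (j := s - 2) (by omega) (by omega)
  omega

/-- `ZB` for `M = 1`, `L ≥ 3` -/
theorem zb_M1 (hC : C.Ok) (hM : C.M = 1) (hL : 3 ≤ C.L) {N k : ℕ} (hO : C.TypeO N k) :
    C.ZB N := by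
  intro t i ht hP hcop hTL hnf hc hi2 hiN hT1 hr hZ
  have hm := hO.hm
  have hN := hO.hN
  have hk := hO.hk
  have htN : N ≤ t * N := Nat.le_mul_of_pos_left N ht
  obtain ⟨s, hs⟩ : ∃ s, s = t * N + i := ⟨_, rfl⟩
  rw [← hs] at hT1 hr hZ ⊢
  have es : s - 1 + 1 = s := by omega
  have es1 : s - 1 < C.h := by omega
  have es2 : C.m + 2 ≤ s := by omega
  have es3 : s ≤ C.h := by omega
  rcases z1_row hC hM (by omega) (by omega) hT1 hZ with r | r | r | r | r | r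
  · exact Or.inl r
  · exact Or.inr r
  · exfalso
    obtain ⟨r1, r2, r3, r4, r5, r6, r7⟩ := r
    -- parity
    have hc1 := hc (i - 1) (by omega)
    have hc2 := hc (i - 2) (by omega)
    have e1 : t * N + (i - 1) = s - 1 := by omega
    have e2 : t * N + (i - 2) = s - 2 := by omega
    unfold Cd.Copy at hc1 hc2
    rw [e1] at hc1
    rw [e2] at hc2
    obtain ⟨p1, p2, p3, p4, p5, p6, p7, p8⟩ := hc1
    obtain ⟨q1, q2, q3, q4, q5, q6, q7, q8⟩ := hc2
    obtain ⟨t1, t2, t3, t4⟩ := hT1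
    have hodd : ∃ l, i - 1 = 2 * l + 1 ∧ l < k := by
      rcases Nat.even_or_odd' (i - 1) with ⟨l, hl | hl⟩
      · exfalso
        obtain ⟨g1, g2⟩ := hO.ve l (by omega)
        rw [hl] at p1 p5
        omega
      · exact ⟨l, hl, by omega⟩
    obtain ⟨l, hl, hlk⟩ := hodd
    have hl2 : i - 2 = 2 * l := by omega
    obtain ⟨g1, g2⟩ := hO.ve l (by omega)
    obtain ⟨g3, g4⟩ := hO.vo l hlk
    rw [hl] at p1 p2 p3 p4 p5 p6 p7 p8
    rw [hl2] at q1 q2 q3 q4 q5 q6 q7 q8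
    rw [g3] at p1 p2 p3 p4
    rw [g4] at p5 p6 p7 p8
    rw [g1] at q1 q2 q3 q4
    rw [g2] at q5 q6 q7 q8
    have l1 := hC.a_let es1
    have l2 := hC.b_let es1
    have l5 := hC.a'_let es1
    have l6 := hC.b'_let es1
    rw [es] at l1 l2 l5 l6
    have v1 : C.a (s - 2) = C.a s := by
      rw [q1, ← p1]
      rcases l1 with h | h <;> rcases l5 with h' | h' <;> linarith
    have v2 : C.b (s - 2) = C.a s := by
      rw [q2, ← p2]
      rcases l2 with h | h <;> rcases l6 with h' | h' <;> linarith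
    have hT0 : C.T0 (s - 2) := ⟨by rw [q5, q1], by rw [q6, q2], by rw [q7, q3], by rw [q8, q4]⟩
    -- lower half
    have hhalf : 2 * s ≤ C.h := by
      by_contra hcon
      have h1 := hTL (C.h - s) (by clear l1 l2 l5 l6 hT0; omega)
      have d1 := d_eq (C := C) (C.h - s)
      have d2 := d'_eq (C := C) (C.h - s)
      rw [Nat.sub_sub_self es3] at d1 d2
      rcases h1 with ⟨-, -, -, h2⟩ | ⟨-, -, -, h2⟩ <;> rw [d1, d2] at h2 <;> linarith
    obtain ⟨f1, f2⟩ := e2_block hC es2 hhalf hT0 v1 v2 r1 r3 r4 r6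
    apply hnf
    refine ⟨?_, ?_, ?_⟩
    · linarith
    · linarith
    · linarith
  · omega
  · omega
  · omega

end Cd

end Pool.Agent.Lib.MP_bb0bab_co
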