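import Pool.Agent.Lib.MP_bb0bab_co.Defs

/-!
# MP_bb0bab_co: definitions of the combinatorial part

`Cd` packs the data of a `Germ` (without the two finite sets), `Cd.Ok` its properties.
Everything at integer heights / indices `0 ≤ i ≤ h` only.  Words:
`a, b` (row `i` of `H` is `[a i, b i + L - 1]`), `a', b'` (row `i` of `K`), and, read from the top,
`c, d` (row `j` of `G = K⁻` is `[c j, d j + M - 1]`), `c', d'` (row `j` of `G' = H⁻`).
-/

namespace Pool.Agent.Lib.MP_bb0bab_co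

open LaurentPolynomial

/-- `[n] = 1 + x + ... + x^(n-1)` -/
noncomputable def br (n : ℤ) : LaurentPolynomial ℤ := rowPoly 0 (n - 1)

/-- convex on `0..h` (second differences) -/
def ConvN (h : ℕ) (f : ℕ → ℝ) : Prop :=
  ∀ i, i + 2 ≤ h → f (i + 1) - f i ≤ f (i + 2) - f (i + 1)

/-- concave on `0..h` -/
def ConcN (h : ℕ) (f : ℕ → ℝ) : Prop :=
  ∀ i, i + 2 ≤ h → f (i + 2) - f (i + 1) ≤ f (i + 1) - f i

/-- increments in `[0,1]` on `0..h` -/
def IncN (h : ℕ) (f : ℕ → ℝ) : Prop :=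
  ∀ i < h, f i ≤ f (i + 1) ∧ f (i + 1) ≤ f i + 1

/-- number theory of the first block: some integer lies in `[z A / N, z (A+1) / N]` -/
def ZS (N : ℕ) (A : ℤ) (z : ℕ) : Prop := ∃ w : ℤ, (z : ℤ) * A ≤ N * w ∧ N * w ≤ z * (A + 1)

/-- hypotheses of the number theory lemma, `t = N - m` -/
structure NTH (N t : ℕ) (A : ℤ) : Prop where
  t1 : 1 ≤ t
  tN : t < N
  A0 : 0 ≤ A
  AN : A < N
  zt : ZS N A t
  sym : ∀ j, 0 < j → j < t → ZS N A j → ZS N A (t - j)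
  mul : ∀ j k, 0 < j → j ≤ t → ZS N A j → 0 < k → k * j < N → k * j ≤ t ∧ ZS N A (k * j)
  no : ∀ j, 0 < j → j ≤ t → ZS N A j → ¬ ZS N A (N - j)

/-- the data -/
structure Cd where
  L : ℕ
  M : ℕ
  h : ℕ
  m : ℕ
  x : ℤ
  q : ℤ
  aH : ℕ → ℝ
  aK : ℕ → ℝ
  bH : ℕ → ℝ
  bK : ℕ → ℝ

namespace Cd

variable (C : Cd)

/-- value of the right chains at height `h` -/
def xr : ℤ := C.x - (C.L - C.M)

/-- left chain of `G = K⁻` (convex) -/
noncomputable def lK (j : ℕ) : ℝ := C.xr - C.bK (C.h - j)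
/-- right chain of `G = K⁻` (concave) -/
noncomputable def rK (j : ℕ) : ℝ := C.x - C.aK (C.h - j)
/-- left chain of `G' = H⁻` (convex) -/
noncomputable def lH (j : ℕ) : ℝ := C.xr - C.bH (C.h - j)
/-- right chain of `G' = H⁻` (concave) -/
noncomputable def rH (j : ℕ) : ℝ := C.x - C.aH (C.h - j)

noncomputable def a (i : ℕ) : ℤ := ⌈C.aH i⌉
noncomputable def b (i : ℕ) : ℤ := ⌊C.bH i⌋
noncomputable def a' (i : ℕ) : ℤ := ⌈C.aK i⌉
noncomputable def b' (i : ℕ) : ℤ := ⌊C.bK i⌋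
noncomputable def c (j : ℕ) : ℤ := ⌈C.lK j⌉
noncomputable def d (j : ℕ) : ℤ := ⌊C.rK j⌋
noncomputable def c' (j : ℕ) : ℤ := ⌈C.lH j⌉
noncomputable def d' (j : ℕ) : ℤ := ⌊C.rH j⌋

/-- row of `H` -/
noncomputable def RH (i : ℕ) : LaurentPolynomial ℤ := rowPoly (C.a i) (C.b i + C.L - 1)
/-- row of `K` -/
noncomputable def RK (i : ℕ) : LaurentPolynomial ℤ := rowPoly (C.a' i) (C.b' i + C.L - 1)
/-- row of `G = K⁻` -/
noncomputable def RG (j : ℕ) : LaurentPolynomial ℤ := rowPoly (C.c j) (C.d j + C.M - 1)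
/-- row of `G' = H⁻` -/
noncomputable def RG' (j : ℕ) : LaurentPolynomial ℤ := rowPoly (C.c' j) (C.d' j + C.M - 1)

/-- row `s` is of type 0, both ends -/
def T0 (s : ℕ) : Prop := C.a' s = C.a s ∧ C.b' s = C.b s ∧ C.c' s = C.c s ∧ C.d' s = C.d s
/-- row `s` is of type 1, both ends -/
def T1 (s : ℕ) : Prop :=
  C.a' s = C.a s + 1 ∧ C.b' s = C.b s + 1 ∧ C.c' s = C.c s + 1 ∧ C.d' s = C.d s + 1
/-- T-like -/
def TL (s : ℕ) : Prop := C.T0 s ∨ C.T1 s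
/-- the type of a T-like row -/
noncomputable def tau (s : ℕ) : ℤ := C.a' s - C.a s
/-- the four unprimed words agree at `s` -/
def Full (s : ℕ) : Prop := C.b s = C.a s ∧ C.c s = C.a s ∧ C.d s = C.a s
/-- row `e + i` is the copy of the full row `i` on top of row `e` (of type 0) -/
def Copy (e i : ℕ) : Prop :=
  C.a (e + i) = C.a e + C.a i ∧ C.b (e + i) = C.b e + C.a i ∧
  C.c (e + i) = C.c e + C.a i ∧ C.d (e + i) = C.d e + C.a i ∧
  C.a' (e + i) = C.a e + C.a' i ∧ C.b' (e + i) = C.b e + C.a' i ∧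
  C.c' (e + i) = C.c e + C.a' i ∧ C.d' (e + i) = C.d e + C.a' i

/-- the properties -/
structure Ok : Prop where
  hM : 1 ≤ C.M
  hLM : C.M < C.L
  hm : 1 ≤ C.m
  hmh : 2 * C.m ≤ C.h
  aH0 : C.aH 0 = 0
  aK0 : C.aK 0 = 0
  bH0 : C.bH 0 = 0
  bK0 : C.bK 0 = 0
  aHh : C.aH C.h = C.x
  aKh : C.aK C.h = C.x
  bHh : C.bH C.h = C.xr
  bKh : C.bK C.h = C.xr
  abH : ∀ i ≤ C.h, C.aH i ≤ C.bH i + C.L - 1
  abK : ∀ i ≤ C.h, C.aK i ≤ C.bK i + C.L - 1
  aHinc : IncN C.h C.aH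
  aKinc : IncN C.h C.aK
  bHinc : IncN C.h C.bH
  bKinc : IncN C.h C.bK
  aHconv : ConvN C.h C.aH
  aKconv : ConvN C.h C.aK
  bHconc : ConcN C.h C.bH
  bKconc : ConcN C.h C.bK
  ident : ∀ s : ℕ, s ≤ C.h →
    ∑ i ∈ Finset.range (s + 1), C.RH i * C.RG' (s - i) =
    ∑ i ∈ Finset.range (s + 1), C.RK i * C.RG (s - i)
  low : ∀ i < C.m, C.T0 i
  am : C.a C.m = C.q
  bm : C.b C.m = C.q
  cm : C.c C.m = C.q
  dm : C.d C.m = C.q
  am' : C.a' C.m = C.q + 1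
  bm' : C.b' C.m = C.q + 1
  cm' : C.c' C.m = C.q + 1
  dm' : C.d' C.m = C.q + 1

/-- equation of a free row: `[M] D_s = [L] D'_s` -/
def Z (s : ℕ) : Prop := br C.M * (C.RK s - C.RH s) = br C.L * (C.RG' s - C.RG s)

/-- equation of a forced row over the row `e`:
`[M] (D_s - (x-1) x^v H_e) = [L] (D'_s - (x-1) x^v G_e)` -/
def F (v : ℤ) (e s : ℕ) : Prop :=
  br C.M * (C.RK s - C.RH s - (T 1 - 1) * (T v * C.RH e)) =
  br C.L * (C.RG' s - C.RG s - (T 1 - 1) * (T v * C.RG e))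

/-- `E_s` with cut `N` -/
noncomputable def EE (N s : ℕ) : LaurentPolynomial ℤ :=
  ∑ l ∈ Finset.range (s + 1), if l < N then
    T (C.a l) * C.RK (s - l) - T (C.a' l) * C.RH (s - l) else 0

/-- `F_s` with cut `N` -/
noncomputable def FF (N s : ℕ) : LaurentPolynomial ℤ :=
  ∑ l ∈ Finset.range (s + 1), if l < N then
    T (C.a l) * C.RG' (s - l) - T (C.a' l) * C.RG (s - l) else 0

/-- `E_j = F_j = 0` for `j < s` -/
def Van (N s : ℕ) : Prop := ∀ j < s, C.EE N j = 0 ∧ C.FF N j = 0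

/-- the event `N`: the rows below `N` are T-like and full, row `N` is of type 0 and not full -/
structure Ev (N : ℕ) : Prop where
  pos : 1 ≤ N
  full : ∀ i < N, C.Full i
  tl : ∀ i < N, C.TL i
  t0 : C.T0 N
  nf : ¬ C.Full N
  hh : 2 * N ≤ C.h + 1
  ne : N ≠ C.m

/-- the block below row `e` is a copy of the first block, and everything vanishes below `e` -/
structure Pre (N e : ℕ) : Prop where
  le : N ≤ e
  cop : ∀ j < N, C.Copy (e - N) j
  van : C.Van N e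

/-- no full row of type 1 after the event -/
def NR (N : ℕ) : Prop := ∀ s, N < s → s ≤ C.h → ¬ (C.T1 s ∧ C.Full s)

/-- no full row of type 0 later -/
def NR0 (N : ℕ) : Prop := ∀ e, N + C.m ≤ e → e + N + C.m ≤ C.h → ¬ (C.T0 e ∧ C.Full e)

/-- the three shapes of the event for `m < N` -/
def Shape (N : ℕ) : Prop :=
  (C.a N = C.a (N - 1) ∧ C.d N = C.a (N - 1) + 1) ∨
  (C.c N = C.a (N - 1) ∧ C.b N = C.a (N - 1) + 1) ∨
  (C.c N = C.a (N - 1) ∧ C.d N = C.a (N - 1) + 1)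

/-- first block of type k: `V = 0^(k+1) 1^k`, `V' = 0^k 1^(k+1)`, `k ≥ 2` (`k = 1` is `TypeO`) -/
structure TypeK (N k : ℕ) : Prop where
  hk : 2 ≤ k
  hN : N = 2 * k + 1
  hm : C.m = k
  hq : C.q = 0
  v0 : ∀ i ≤ k, C.a i = 0
  v1 : ∀ i, k < i → i < N → C.a i = 1
  w0 : ∀ i < k, C.a' i = 0
  w1 : ∀ i, k ≤ i → i < N → C.a' i = 1

/-- first block of type `(01)^k` : `V = 0 0 1 1 .. k`, `V' = 0 1 1 2 2 .. k k` -/
structure TypeO (N k : ℕ) : Prop where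
  hk : 1 ≤ k
  hN : N = 2 * k + 1
  hm : C.m = 1
  hq : C.q = 0
  ve : ∀ l : ℕ, l ≤ k → C.a (2 * l) = l ∧ C.a' (2 * l) = l
  vo : ∀ l : ℕ, l < k → C.a (2 * l + 1) = l ∧ C.a' (2 * l + 1) = l + 1

/-- free rows above a row of type 1, before the event (true for `M ≥ 2` by Lemma Z) -/
def ZE : Prop := ∀ s, C.m < s → s ≤ C.h → (∀ j < s, C.Full j ∧ C.TL j) → C.T1 (s - 1) → C.Z s →
  C.T0 s ∨ (C.T1 s ∧ C.Full s)

/-- free rows above a row of type 1 in a block of type O (true for `M ≥ 2` by Lemma Z) -/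
def ZB (N : ℕ) : Prop := ∀ t i, 1 ≤ t → C.Pre N (t * N) →
  (∀ r j, j < N → r < t → C.Copy (r * N) j) → (∀ j < t * N + i, C.TL j) → ¬ C.Full (t * N) →
  (∀ j < i, C.Copy (t * N) j) → 2 ≤ i → i < N → C.T1 (t * N + i - 1) →
  t * N + i + N ≤ C.h + 1 → C.Z (t * N + i) →
  C.T0 (t * N + i) ∨ (C.T1 (t * N + i) ∧ C.Full (t * N + i))

/-- the reflection `(x,y) ↦ (y - x + L - 1, y)` exchanges left and right, and the names `H`, `K` -/
noncomputable def mirror : Cd where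
  L := C.L
  M := C.M
  h := C.h
  m := C.m
  x := C.h - C.xr
  q := C.m - 1 - C.q
  aH := fun i => i - C.bK i
  aK := fun i => i - C.bH i
  bH := fun i => i - C.aK i
  bK := fun i => i - C.aH i

/-- the block structure (input of `final_step`) -/
def Blocks : Prop :=
  ∃ (N J : ℕ) (V V' : ℕ → ℤ) (A : ℤ) (al : ℕ → ℤ) (len : ℕ → ℕ),
    C.h + 1 = J * N ∧ (∀ i < N, V' i = A - V (N - 1 - i)) ∧
    ∀ t < J, ∀ i < N,
      C.a (t * N + i) = al t + V i ∧ C.b (t * N + i) + C.L = al t + V i + len t ∧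
      C.a' (t * N + i) = al t + V' i ∧ C.b' (t * N + i) + C.L = al t + V' i + len t

end Cd

end Pool.Agent.Lib.MP_bb0bab_co
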