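import Pool.Agent.Lib.MP_bb0bab_co.CBDefs

/-!
# MP_bb0bab_co, section 10 (M = 1, N < m, empty top row N): definitions

Text: /team-store/BB_SEC10.md.
-/

namespace Pool.Agent.Lib.MP_bb0bab_co

open LaurentPolynomial

/-- `[n]` for all integers `n`: `(x - 1) [n] = x^n - 1` -/
noncomputable def brz (n : ℤ) : LaurentPolynomial ℤ :=
  if 0 ≤ n then rowPoly 0 (n - 1) else - rowPoly n (-1)

/-- evaluation at `x = 1` -/
noncomputable def ev1 : LaurentPolynomial ℤ →+* ℤ :=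
  LaurentPolynomial.eval₂ (RingHom.id ℤ) 1

namespace Cd

variable (C : Cd)

/-- length of row `i` of `H` -/
noncomputable def lam (i : ℕ) : ℤ := C.b i + C.L - C.a i
/-- length of row `j` of `G` -/
noncomputable def mu (j : ℕ) : ℤ := C.d j + C.M - C.c j

/-- `D_s = K_s - H_s` -/
noncomputable def DH (s : ℕ) : LaurentPolynomial ℤ := C.RK s - C.RH s
/-- `D'_s = G'_s - G_s` -/
noncomputable def DG (s : ℕ) : LaurentPolynomial ℤ := C.RG' s - C.RG s
/-- `X_s = D_s - [L] D'_s` -/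
noncomputable def XX (s : ℕ) : LaurentPolynomial ℤ := C.DH s - br C.L * C.DG s
/-- `κ_i = H_i - [L] G_i` -/
noncomputable def kap (i : ℕ) : LaurentPolynomial ℤ := C.RH i - br C.L * C.RG i
/-- `P = (x - 1) x^q` -/
noncomputable def PP : LaurentPolynomial ℤ := (T 1 - 1) * T C.q
/-- `ε_i = D'_{m+i} - P G_i` -/
noncomputable def eps (i : ℕ) : LaurentPolynomial ℤ := C.DG (C.m + i) - C.PP * C.RG i

/-- row `m + i` is regular: bottom a T1 copy of row `i`; top: T1 copy if `G_i` is nonempty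
(`c i = d i`), T0 with the single point `q + c i` if `G_i` is empty (`c i = d i + 1`) -/
structure Reg (i : ℕ) : Prop where
  ha : C.a (C.m + i) = C.q + C.a i
  hb : C.b (C.m + i) = C.q + C.b i
  hc : C.c (C.m + i) = C.q + C.c i
  hd : C.d (C.m + i) = C.q + C.c i
  ha' : C.a' (C.m + i) = C.q + C.a i + 1
  hb' : C.b' (C.m + i) = C.q + C.b i + 1
  hc' : C.c' (C.m + i) = C.q + C.d i + 1
  hd' : C.d' (C.m + i) = C.q + C.d i + 1

/-- standing hypotheses of section 10 (for all `L ≥ 2`) -/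
structure S10 (N : ℕ) : Prop where
  ok : C.Ok
  M1 : C.M = 1
  ev : C.Ev N
  Nm : N < C.m
  emp : C.c N = C.d N + 1

/-- `J` is the first resonance, or `m` if there is none -/
structure IsJ (J : ℕ) : Prop where
  pos : 1 ≤ J
  le : J ≤ C.m
  reg : ∀ i < J, C.Reg i
  res : J < C.m → C.T0 (C.m + J) ∧ C.Full J

/-- `N ≥ 2`, `V_1 = 0`: the rows up to `m + N` (output of SX08 for `L ≥ 3`, input of SX09-SX11) -/
structure S102 (N : ℕ) : Prop where
  s : C.S10 N
  N2 : 2 ≤ N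
  h1 : C.a 1 = 0
  exJ : ∃ J, C.IsJ J
  zrow : ∀ j < N, C.T0 (C.m + j) ∨
    (C.T1 (C.m + j) ∧ C.Full (C.m + j) ∧ C.a (C.m + j) = C.q + C.a j)
  rowN : C.Reg N
  hh : 2 * C.m + N + 1 ≤ C.h

/-- output of the row `m + N + 1` -/
def Step4 (N : ℕ) : Prop :=
  C.a (C.m + N + 1) = C.q + C.a N + 1 ∧ C.a' (C.m + N + 1) = C.q + C.a N + 1 ∧
  C.b (C.m + N + 1) = C.q + C.a (N - 1) + 2 ∧
  (C.a N = C.a (N - 1) ∨
    (C.a N = C.a (N - 1) + 1 ∧ C.d (C.m + N + 1) = C.q + C.a (N - 1) + 1))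

end Cd

end Pool.Agent.Lib.MP_bb0bab_co
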