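import Pool.Agent.Lib.MP_bb0bab_co.CB08
import Pool.Agent.Lib.MP_bb0bab_co.SXDefs

/-!
# SX01 comparison of slopes and windows (10.0: (W), (S), (C0a), (C0b), (BT))
-/

namespace Pool.Agent.Lib.MP_bb0bab_co

open LaurentPolynomial

theorem ConvN.slope {h : ℕ} {f : ℕ → ℝ} (hf : ConvN h f) {i i' j j' : ℕ} (h1 : i ≤ i')
    (h2 : j ≤ j') (h3 : i ≤ j) (h4 : i' ≤ j') (h5 : j' ≤ h) :
    (f i' - f i) * ((j' : ℝ) - j) ≤ (f j' - f j) * ((i' : ℝ) - i) := by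
  have c1 := hf.chord h1 h4 h5
  have c2 := hf.chord h3 h2 h5
  have hi1 : (i : ℝ) ≤ i' := by exact_mod_cast h1
  have hj1 : (j : ℝ) ≤ j' := by exact_mod_cast h2
  have hij : (i : ℝ) ≤ j := by exact_mod_cast h3
  rcases Nat.eq_or_lt_of_le (h3.trans h2) with he | hlt
  · have e1 : i' = i := by omega
    have e2 : j = i := by omega
    have e3 : j' = i := by omega
    rw [e1, e2, e3]
  · have hp : (0 : ℝ) < (j' : ℝ) - i := by
      have : (i : ℝ) < j' := by exact_mod_cast hlt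
      linarith
    have s1 : (f i' - f i) * ((j' : ℝ) - i) ≤ ((i' : ℝ) - i) * (f j' - f i) := by linarith
    have s2 : (f j' - f i) * ((j' : ℝ) - j) ≤ (f j' - f j) * ((j' : ℝ) - i) := by linarith
    have a1 := mul_le_mul_of_nonneg_right s1 (sub_nonneg.2 hj1)
    have a2 := mul_le_mul_of_nonneg_left s2 (sub_nonneg.2 hi1)
    have a3 : ((j' : ℝ) - i) * ((f i' - f i) * ((j' : ℝ) - j)) ≤
        ((j' : ℝ) - i) * ((f j' - f j) * ((i' : ℝ) - i)) := by linarith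
    exact le_of_mul_le_mul_left a3 hp

theorem ConcN.slope {h : ℕ} {f : ℕ → ℝ} (hf : ConcN h f) {i i' j j' : ℕ} (h1 : i ≤ i')
    (h2 : j ≤ j') (h3 : i ≤ j) (h4 : i' ≤ j') (h5 : j' ≤ h) :
    (f j' - f j) * ((i' : ℝ) - i) ≤ (f i' - f i) * ((j' : ℝ) - j) := by
  have := hf.neg.slope h1 h2 h3 h4 h5
  linarith

namespace Cd.Ok

variable {C : Cd} (hC : C.Ok)

include hC

theorem W_a' {i k l : ℕ} (h : i + k + l ≤ C.h) :
    C.aK (i + l) - C.aK i ≤ C.rK (k + l) - C.rK k := by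
  have h1 := hC.aKconv.win (w := l) (by omega : i ≤ C.h - (k + l)) (by omega)
  have e : C.h - (k + l) + l = C.h - k := by omega
  rw [e] at h1
  unfold Cd.rK
  linarith

theorem W_a {i k l : ℕ} (h : i + k + l ≤ C.h) :
    C.aH (i + l) - C.aH i ≤ C.rH (k + l) - C.rH k := by
  have h1 := hC.aHconv.win (w := l) (by omega : i ≤ C.h - (k + l)) (by omega)
  have e : C.h - (k + l) + l = C.h - k := by omega
  rw [e] at h1
  unfold Cd.rH
  linarith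

theorem W_b {i k l : ℕ} (h : i + k + l ≤ C.h) :
    C.lH (k + l) - C.lH k ≤ C.bH (i + l) - C.bH i := by
  have h1 := hC.bHconc.win (w := l) (by omega : i ≤ C.h - (k + l)) (by omega)
  have e : C.h - (k + l) + l = C.h - k := by omega
  rw [e] at h1
  unfold Cd.lH
  linarith

theorem W_b' {i k l : ℕ} (h : i + k + l ≤ C.h) :
    C.lK (k + l) - C.lK k ≤ C.bK (i + l) - C.bK i := by
  have h1 := hC.bKconc.win (w := l) (by omega : i ≤ C.h - (k + l)) (by omega)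
  have e : C.h - (k + l) + l = C.h - k := by omega
  rw [e] at h1
  unfold Cd.lK
  linarith

theorem S_a' {i i' k k' : ℕ} (h1 : i ≤ i') (h2 : k ≤ k') (h3 : i + k' ≤ C.h) (h4 : i' + k ≤ C.h) :
    (C.aK i' - C.aK i) * ((k' : ℝ) - k) ≤ (C.rK k' - C.rK k) * ((i' : ℝ) - i) := by
  have h5 := hC.aKconv.slope h1 (by omega : C.h - k' ≤ C.h - k) (by omega : i ≤ C.h - k')
    (by omega : i' ≤ C.h - k) (Nat.sub_le _ _)
  rw [Nat.cast_sub (by omega), Nat.cast_sub (by omega)] at h5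
  unfold Cd.rK
  linarith

theorem S_a {i i' k k' : ℕ} (h1 : i ≤ i') (h2 : k ≤ k') (h3 : i + k' ≤ C.h) (h4 : i' + k ≤ C.h) :
    (C.aH i' - C.aH i) * ((k' : ℝ) - k) ≤ (C.rH k' - C.rH k) * ((i' : ℝ) - i) := by
  have h5 := hC.aHconv.slope h1 (by omega : C.h - k' ≤ C.h - k) (by omega : i ≤ C.h - k')
    (by omega : i' ≤ C.h - k) (Nat.sub_le _ _)
  rw [Nat.cast_sub (by omega), Nat.cast_sub (by omega)] at h5
  unfold Cd.rH
  linarith

theorem S_b {i i' k k' : ℕ} (h1 : i ≤ i') (h2 : k ≤ k') (h3 : i + k' ≤ C.h) (h4 : i' + k ≤ C.h) :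
    (C.lH k' - C.lH k) * ((i' : ℝ) - i) ≤ (C.bH i' - C.bH i) * ((k' : ℝ) - k) := by
  have h5 := hC.bHconc.slope h1 (by omega : C.h - k' ≤ C.h - k) (by omega : i ≤ C.h - k')
    (by omega : i' ≤ C.h - k) (Nat.sub_le _ _)
  rw [Nat.cast_sub (by omega), Nat.cast_sub (by omega)] at h5
  unfold Cd.lH
  linarith

theorem S_b' {i i' k k' : ℕ} (h1 : i ≤ i') (h2 : k ≤ k') (h3 : i + k' ≤ C.h) (h4 : i' + k ≤ C.h) :
    (C.lK k' - C.lK k) * ((i' : ℝ) - i) ≤ (C.bK i' - C.bK i) * ((k' : ℝ) - k) := by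
  have h5 := hC.bKconc.slope h1 (by omega : C.h - k' ≤ C.h - k) (by omega : i ≤ C.h - k')
    (by omega : i' ≤ C.h - k) (Nat.sub_le _ _)
  rw [Nat.cast_sub (by omega), Nat.cast_sub (by omega)] at h5
  unfold Cd.lK
  linarith

/-- bottom row `s` is T1, bottom row `j` is T0 -/
theorem C0a {j s k t : ℕ} (hs : C.a' s = C.a s + 1) (hj : C.a' j = C.a j) (hjs : j ≤ s)
    (hk : k + s = j + t) (ht : j + t ≤ C.h) : C.d k + C.a s ≤ C.a j + C.d t := by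
  have h1 := hC.W_a' (i := j) (k := k) (l := s - j) (by omega)
  rw [show j + (s - j) = s by omega, show k + (s - j) = t by omega] at h1
  have h2 : ((C.a' s : ℤ) : ℝ) < C.aK s + 1 := Int.ceil_lt_add_one _
  have h3 : C.aK j ≤ ((C.a' j : ℤ) : ℝ) := Int.le_ceil _
  have h4 : C.rK t < ((C.d t : ℤ) : ℝ) + 1 := Int.lt_floor_add_one _
  have h5 : ((C.d k : ℤ) : ℝ) ≤ C.rK k := Int.floor_le _
  rw [hs] at h2
  rw [hj] at h3
  push_cast at h2
  have h6 : ((C.d k : ℤ) : ℝ) + ((C.a s : ℤ) : ℝ) < ((C.a j : ℤ) : ℝ) + ((C.d t : ℤ) : ℝ) + 1 := by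
    linarith
  have h7 : C.d k + C.a s < C.a j + C.d t + 1 := by exact_mod_cast h6
  omega

/-- top row `t` is T1 -/
theorem C0b {j s k t : ℕ} (ht : C.c' t = C.c t + 1) (hjs : j ≤ s)
    (hk : k + s = j + t) (hh : j + t ≤ C.h) : C.b j + C.c t ≤ C.b s + C.c' k := by
  have h1 := hC.W_b (i := j) (k := k) (l := s - j) (by omega)
  rw [show j + (s - j) = s by omega, show k + (s - j) = t by omega] at h1
  have h2 : ((C.c' t : ℤ) : ℝ) < C.lH t + 1 := Int.ceil_lt_add_one _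
  have h3 : C.lH k ≤ ((C.c' k : ℤ) : ℝ) := Int.le_ceil _
  have h4 : C.bH s < ((C.b s : ℤ) : ℝ) + 1 := Int.lt_floor_add_one _
  have h5 : ((C.b j : ℤ) : ℝ) ≤ C.bH j := Int.floor_le _
  rw [ht] at h2
  push_cast at h2
  have h6 : ((C.b j : ℤ) : ℝ) + ((C.c t : ℤ) : ℝ) < ((C.b s : ℤ) : ℝ) + ((C.c' k : ℤ) : ℝ) + 1 := by
    linarith
  have h7 : C.b j + C.c t < C.b s + C.c' k + 1 := by exact_mod_cast h6
  omega

theorem BT {s : ℕ} (h1 : C.m ≤ s) (h2 : s + C.m ≤ C.h) (hb : C.b' s = C.b s) (hd : C.d' s = C.d s) :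
    C.a s ≤ C.d s ∧ C.c s ≤ C.b s := by
  have w1 := hC.W_a (i := C.m) (k := C.m) (l := s - C.m) (by omega)
  have w2 := hC.W_b' (i := C.m) (k := C.m) (l := s - C.m) (by omega)
  rw [show C.m + (s - C.m) = s by omega] at w1 w2
  have a1 : ((C.a s : ℤ) : ℝ) < C.aH s + 1 := Int.ceil_lt_add_one _
  have a2 : C.aH C.m ≤ ((C.a C.m : ℤ) : ℝ) := Int.le_ceil _
  have a3 : C.rH s < ((C.d' s : ℤ) : ℝ) + 1 := Int.lt_floor_add_one _
  have a4 : ((C.d' C.m : ℤ) : ℝ) ≤ C.rH C.m := Int.floor_le _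
  have b1 : ((C.c s : ℤ) : ℝ) < C.lK s + 1 := Int.ceil_lt_add_one _
  have b2 : C.lK C.m ≤ ((C.c C.m : ℤ) : ℝ) := Int.le_ceil _
  have b3 : C.bK s < ((C.b' s : ℤ) : ℝ) + 1 := Int.lt_floor_add_one _
  have b4 : ((C.b' C.m : ℤ) : ℝ) ≤ C.bK C.m := Int.floor_le _
  rw [hC.am] at a2
  rw [hC.dm'] at a4
  rw [hC.cm] at b2
  rw [hC.bm'] at b4
  rw [hd] at a3
  rw [hb] at b3
  push_cast at a4 b4
  have c1 : ((C.a s : ℤ) : ℝ) < ((C.d s : ℤ) : ℝ) + 1 := by linarith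
  have c2 : ((C.c s : ℤ) : ℝ) < ((C.b s : ℤ) : ℝ) + 1 := by linarith
  have d1 : C.a s < C.d s + 1 := by exact_mod_cast c1
  have d2 : C.c s < C.b s + 1 := by exact_mod_cast c2
  constructor <;> omega

end Cd.Ok

end Pool.Agent.Lib.MP_bb0bab_co
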