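import Pool.Agent.Lib.MP_bb0bab_co.CB09
import Pool.Agent.Lib.MP_bb0bab_co.SXDefs

/-!
# SX02 lengths, (0.1), (0.2), (0.4)

PROOF. `lam_nn`: `aH i ≤ bH i + L - 1` (`abH`), `a i < aH i + 1`, `bH i < b i + 1`.  `mu_nn`: the same at height `h - j` for `K` (`lK j ≤ rK j + M - 1` is `abK (h-j)`), etc.
`lo`: `k1 j ≤ k1 m < 1` gives `d j ≤ rK j < aK j + 1 ≤ a' j + 1 = a j + 1`; `k2 j ≤ k2 m < 1` gives `b j ≤ bH j < lH j + 1 ≤ c' j + 1 = c j + 1`;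
`Psi j < 1`: otherwise `Psi_min` between `j` and `h` (`Psi h = L - M ≥ 1`) gives `Psi m ≥ 1`, against `Psi_m`; so `d j ≤ rK j < lH j + 1 ≤ c' j + 1`.
`up`: `aH j ≤ (j/m) aH m ≤ q j / m` (`ConvN.chord` with `0 ≤ j ≤ m`, `aH 0 = 0`, `aH m ≤ a m = q`), so `a j ≤ z`; `lK j ≤ (j/m) lK m ≤ q j/m`, so `c j ≤ z`; `b j ≤ c j`, `d j ≤ a j`.
`dn`: `bK j ≥ (j/m)(q+1)` (`b' m = q+1`), `b j = b' j ≥ w`; `rH j ≥ (j/m)(q+1)`, `d j = d' j ≥ w`; `c j ≥ b j`, `a j ≥ d j`.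
`near`: `w = q * j / m` (Int division): `m w ≤ q j ≤ (q+1) j` and `q j ≤ m (w+1)`.
`refl_len`: `c'_eq`, `d'_eq`: `d' (h-y) = x - a y`, `c' (h-y) = xr - b y`, `x - xr = L - M`.
`no_overlap`: if `h ≤ 2y` then `h - y ≤ y` and `lam y` is the length of `G'` at `h - y`.
`top13`: `mu_T0`: `c s ≤ d' s = d s - 1`.
-/

namespace Pool.Agent.Lib.MP_bb0bab_co

open LaurentPolynomial

theorem sx_len {u v : ℝ} {L : ℕ} (h : u ≤ v + L - 1) : ⌈u⌉ ≤ ⌊v⌋ + (L : ℤ) := by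
  have h4 : v < ((⌊v⌋ : ℤ) : ℝ) + 1 := Int.lt_floor_add_one _
  rw [Int.ceil_le]
  push_cast
  linarith

theorem sx_fc {u v : ℝ} (h : u < v + 1) : ⌊u⌋ ≤ ⌈v⌉ := by
  have h1 : ((⌊u⌋ : ℤ) : ℝ) ≤ u := Int.floor_le u
  have h2 : v ≤ ((⌈v⌉ : ℤ) : ℝ) := Int.le_ceil v
  have h3 : ((⌊u⌋ : ℤ) : ℝ) < ((⌈v⌉ : ℤ) : ℝ) + 1 := by linarith
  have h4 : ⌊u⌋ < ⌈v⌉ + 1 := by exact_mod_cast h3
  omega

theorem sx_up {h m j : ℕ} {f : ℕ → ℝ} (hf : ConvN h f) (h0 : f 0 = 0) (hm : 0 < m) (hmh : m ≤ h)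
    (hj : j ≤ m) {q z : ℤ} (hq : f m ≤ q) (hz : q * j ≤ m * z) : ⌈f j⌉ ≤ z := by
  rw [Int.ceil_le]
  have h1 := hf.chord (Nat.zero_le j) hj hmh
  rw [h0] at h1
  have h2 : (j : ℝ) * f m ≤ j * q := mul_le_mul_of_nonneg_left hq (Nat.cast_nonneg j)
  have h3 : (q : ℝ) * j ≤ m * z := by exact_mod_cast hz
  have h4 : (m : ℝ) * f j ≤ m * z := by
    push_cast at h1
    linarith
  have h5 : (0 : ℝ) < m := by exact_mod_cast hm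
  exact le_of_mul_le_mul_left h4 h5

theorem sx_dn {h m j : ℕ} {f : ℕ → ℝ} (hf : ConcN h f) (h0 : f 0 = 0) (hm : 0 < m) (hmh : m ≤ h)
    (hj : j ≤ m) {q w : ℤ} (hq : ((q : ℤ) : ℝ) ≤ f m) (hw : m * w ≤ q * j) : w ≤ ⌊f j⌋ := by
  rw [Int.le_floor]
  have h1 := hf.chord (Nat.zero_le j) hj hmh
  rw [h0] at h1
  have h2 : (j : ℝ) * q ≤ j * f m := mul_le_mul_of_nonneg_left hq (Nat.cast_nonneg j)
  have h3 : (m : ℝ) * w ≤ q * j := by exact_mod_cast hw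
  have h4 : (m : ℝ) * w ≤ m * f j := by
    push_cast at h1
    linarith
  have h5 : (0 : ℝ) < m := by exact_mod_cast hm
  exact le_of_mul_le_mul_left h4 h5

namespace Cd.Ok

variable {C : Cd} (hC : C.Ok)

include hC

theorem lam_nn {i : ℕ} (hi : i ≤ C.h) : 0 ≤ C.lam i := by
  have h1 := sx_len (hC.abH i hi)
  unfold Cd.lam Cd.a Cd.b
  omega

theorem lam'_nn {i : ℕ} (hi : i ≤ C.h) : 0 ≤ C.b' i + C.L - C.a' i := by
  have h1 := sx_len (hC.abK i hi)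
  unfold Cd.a' Cd.b'
  omega

theorem mu_nn {j : ℕ} (hj : j ≤ C.h) : 0 ≤ C.mu j := by
  have h1 := hC.lam'_nn (Nat.sub_le C.h j)
  have e : C.xr = C.x - ((C.L : ℤ) - C.M) := rfl
  unfold Cd.mu
  rw [c_eq, d_eq, e]
  omega

theorem mu'_nn {j : ℕ} (hj : j ≤ C.h) : 0 ≤ C.d' j + C.M - C.c' j := by
  have h1 := hC.lam_nn (Nat.sub_le C.h j)
  have e : C.xr = C.x - ((C.L : ℤ) - C.M) := rfl
  unfold Cd.lam at h1
  rw [c'_eq, d'_eq, e]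
  omega

/-- (0.1) -/
theorem lo {j : ℕ} (hj : j < C.m) : C.b j ≤ C.c j ∧ C.d j ≤ C.a j ∧ C.d j ≤ C.c j := by
  obtain ⟨t1, t2, t3, t4⟩ := hC.low j hj
  have hmh := hC.hmh
  have h1 := hC.k1_mono hj.le (by omega)
  have h2 := hC.k2_mono hj.le (by omega)
  have h3 := hC.k1_m
  have h4 := hC.k2_m
  refine ⟨?_, ?_, ?_⟩
  · rw [← t3]
    exact sx_fc (by linarith)
  · rw [← t1]
    exact sx_fc (by linarith)
  · rw [← t3]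
    apply sx_fc
    by_contra hcon
    have h5 : (1 : ℝ) ≤ C.rK j - C.lH j := by linarith [not_lt.1 hcon]
    have h6 := hC.Psi_min hj.le hC.cb08_m le_rfl h5 (by rw [hC.Psi_h]; exact hC.cb08_LM)
    linarith [hC.Psi_m]

/-- (0.2) upper bound -/
theorem up {j : ℕ} (hj : j < C.m) {z : ℤ} (hz : C.q * j ≤ C.m * z) :
    C.a j ≤ z ∧ C.b j ≤ z ∧ C.c j ≤ z ∧ C.d j ≤ z := by
  obtain ⟨l1, l2, l3⟩ := hC.lo hj
  have h1 : C.a j ≤ z := by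
    refine sx_up hC.aHconv hC.aH0 hC.hm hC.cb08_m hj.le ?_ hz
    rw [← hC.am]
    exact Int.le_ceil _
  have h2 : C.c j ≤ z := by
    refine sx_up hC.lKconv hC.top0.1 hC.hm hC.cb08_m hj.le ?_ hz
    rw [← hC.cm]
    exact Int.le_ceil _
  exact ⟨h1, l1.trans h2, h2, l2.trans h1⟩

/-- (0.2) lower bound -/
theorem dn {j : ℕ} (hj : j < C.m) {w : ℤ} (hw : C.m * w ≤ (C.q + 1) * j) :
    w ≤ C.a j ∧ w ≤ C.b j ∧ w ≤ C.c j ∧ w ≤ C.d j := by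
  obtain ⟨t1, t2, t3, t4⟩ := hC.low j hj
  obtain ⟨l1, l2, l3⟩ := hC.lo hj
  have h1 : w ≤ C.b j := by
    rw [← t2]
    refine sx_dn hC.bKconc hC.bK0 hC.hm hC.cb08_m hj.le ?_ hw
    rw [← hC.bm']
    exact Int.floor_le _
  have h2 : w ≤ C.d j := by
    rw [← t4]
    refine sx_dn hC.rHconc hC.top0.2.2.2 hC.hm hC.cb08_m hj.le ?_ hw
    rw [← hC.dm']
    exact Int.floor_le _
  exact ⟨h2.trans l2, h1, h1.trans l1, h2⟩

/-- (0.2) full rows -/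
theorem full_val {j : ℕ} (hj : j < C.m) {z : ℤ} (h1 : C.q * j ≤ C.m * z)
    (h2 : C.m * z ≤ (C.q + 1) * j) : C.a j = z ∧ C.b j = z ∧ C.c j = z ∧ C.d j = z := by
  obtain ⟨u1, u2, u3, u4⟩ := hC.up hj h1
  obtain ⟨v1, v2, v3, v4⟩ := hC.dn hj h2
  exact ⟨le_antisymm u1 v1, le_antisymm u2 v2, le_antisymm u3 v3, le_antisymm u4 v4⟩

/-- (0.3) row `m - k` is full with value `q` if `k (q+1) ≤ m` -/
theorem full_q {k : ℕ} (hk : 1 ≤ k) (hkm : k ≤ C.m) (hq : k * (C.q + 1) ≤ C.m) :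
    C.a (C.m - k) = C.q ∧ C.b (C.m - k) = C.q ∧ C.c (C.m - k) = C.q ∧ C.d (C.m - k) = C.q := by
  have hq0 : 0 ≤ C.q := by
    have h1 := (hC.a_mono (Nat.zero_le C.m) hC.cb08_m).1
    rw [hC.zero.1, hC.am] at h1
    exact h1
  apply hC.full_val (by omega)
  · push_cast [hkm]
    nlinarith [Nat.cast_nonneg (α := ℤ) k]
  · push_cast [hkm]
    nlinarith

theorem near {j : ℕ} (hj : j < C.m) : ∃ w : ℤ, w ≤ C.a j ∧ C.a j ≤ w + 1 ∧ w ≤ C.b j ∧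
    C.b j ≤ w + 1 ∧ w ≤ C.c j ∧ C.c j ≤ w + 1 ∧ w ≤ C.d j ∧ C.d j ≤ w + 1 := by
  have hm : (0 : ℤ) < C.m := by exact_mod_cast hC.hm
  have h1 := Int.emod_add_mul_ediv (C.q * j) C.m
  have h2 := Int.emod_nonneg (C.q * j) hm.ne'
  have h3 := Int.emod_lt_of_pos (C.q * j) hm
  obtain ⟨u1, u2, u3, u4⟩ := hC.up hj (z := C.q * j / C.m + 1) (by rw [mul_add]; linarith)
  obtain ⟨v1, v2, v3, v4⟩ := hC.dn hj (w := C.q * j / C.m) (by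
    have : (0 : ℤ) ≤ j := Nat.cast_nonneg j
    rw [add_mul]; linarith)
  exact ⟨_, v1, u1, v2, u2, v3, u3, v4, u4⟩

theorem lam_near {j : ℕ} (hj : j < C.m) : (C.L : ℤ) - 1 ≤ C.lam j ∧ C.lam j ≤ C.L + 1 := by
  obtain ⟨w, h⟩ := hC.near hj
  unfold Cd.lam
  omega

theorem mu_le {j : ℕ} (hj : j < C.m) : C.mu j ≤ C.M := by
  obtain ⟨l1, l2, l3⟩ := hC.lo hj
  unfold Cd.mu
  omega

theorem refl_len {y : ℕ} (hy : y ≤ C.h) :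
    C.lam y = C.d' (C.h - y) + C.M - C.c' (C.h - y) := by
  have e : C.xr = C.x - ((C.L : ℤ) - C.M) := rfl
  unfold Cd.lam
  rw [c'_eq, d'_eq, Nat.sub_sub_self hy, e]
  ring

/-- (0.4) -/
theorem no_overlap {y : ℕ} (hy : y ≤ C.h) (h1 : ∀ j ≤ y, C.d' j + C.M - C.c' j < C.lam y) :
    2 * y + 1 ≤ C.h := by
  by_contra hcon
  have h2 := h1 (C.h - y) (by omega)
  rw [hC.refl_len hy] at h2
  exact lt_irrefl _ h2

/-- (0.4), version with the rows below `z` only -/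
theorem no_overlap' {y z : ℕ} (hy : y ≤ C.h) (h1 : ∀ j < z, C.d' j + C.M - C.c' j < C.lam y) :
    y + z ≤ C.h := by
  by_contra hcon
  have h2 := h1 (C.h - y) (by omega)
  rw [hC.refl_len hy] at h2
  exact lt_irrefl _ h2

/-- (1.3) -/
theorem top13 {s : ℕ} (h1 : C.m ≤ s) (h2 : s ≤ C.h) (hd : C.d' s = C.d s - 1) :
    C.M + 1 ≤ C.mu s := by
  have h3 := hC.mu_T0 h1 h2
  unfold Cd.mu
  omega

end Cd.Ok

end Pool.Agent.Lib.MP_bb0bab_co
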