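import Pool.Agent.Lib.MP_bb0bab_co.FE24
import Pool.Agent.Lib.MP_bb0bab_co.SX01
import Pool.Agent.Lib.MP_bb0bab_co.SX02

/-!
# CBX: Lemma X (edges) at the level of `Cd`

`Cd.LemX` is a property of the data (proved for germs in `germ_lemX`); consequences:
`lemX_slopes` (only `aK (m+1) > (m+1)/2`, `bH (m+1) < (m+1)/2` and rows below `m`), `lemX_tri`
(`m = 1`, `a'₂ = 2`, `b₂ = 0`), `lemX_shrink` (row `m+1`: `a = q+1`, `a' = q+2`, `b = q`; any `L > M`).
-/

namespace Pool.Agent.Lib.MP_bb0bab_co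

/-- conclusion of Lemma X -/
def Cd.LemX (C : Cd) : Prop :=
  ∀ p : ℕ, C.m = 2 * p + 1 → C.q = p →
    (∀ i ≤ C.h, (i : ℤ) ≤ 2 * C.a' i) → (∀ i ≤ C.h, C.m ≤ i → (i : ℤ) < 2 * C.a' i) →
    (∀ i ≤ C.h, 2 * C.b i ≤ i) → (∀ i < C.m, C.a' i = C.a i) → False

theorem germ_lemX {H K : Finset (ℤ × ℤ)} {L M h : ℕ} {xl : ℤ} {αH αK βH βK : ℕ → ℝ} {m : ℕ} {q : ℤ}
    (G : Germ H K L M h xl αH αK βH βK m q) : (Cd.mk L M h m xl q αH αK βH βK).LemX := by
  intro p h1 h2 h3 h4 h5 _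
  have h1' : m = 2 * p + 1 := h1
  have h2' : q = p := h2
  exact lemX G (by rw [h1', h2']; push_cast; ring) h3 h4 h5

namespace Cd.Ok

variable {C : Cd} (hC : C.Ok) (hX : C.LemX)

include hC hX

/-- Lemma X with real slopes at row `m+1` -/
theorem lemX_slopes {p : ℕ} (hm : C.m = 2 * p + 1) (hq : C.q = p) (_hh : C.m + 1 ≤ C.h)
    (ha : (p : ℝ) + 1 < C.aK (C.m + 1)) (hb : C.bH (C.m + 1) < (p : ℝ) + 1)
    (h1 : ∀ i < C.m, (i : ℤ) ≤ 2 * C.a' i) (h2 : ∀ i < C.m, 2 * C.b i ≤ i) : False := by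
  have hmR : (C.m : ℝ) = 2 * p + 1 := by rw [hm]; push_cast; ring
  have ha2 : ∀ i ≤ C.h, C.m + 1 ≤ i → (i : ℤ) < 2 * C.a' i := by
    intro i hi hmi
    have c := hC.aKconv.chord (Nat.zero_le (C.m + 1)) hmi hi
    rw [hC.aK0] at c
    push_cast at c
    have hi0 : (0 : ℝ) < i := by
      have : 0 < i := by omega
      exact_mod_cast this
    have c1 : (i : ℝ) * (p + 1) < (i : ℝ) * C.aK (C.m + 1) := mul_lt_mul_of_pos_left ha hi0
    have c2 : (2 * (p : ℝ) + 2) * C.aK i > (i : ℝ) * (p + 1) := by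
      rw [hmR] at c
      linarith
    have hp0 : (0 : ℝ) < (p : ℝ) + 1 := by positivity
    have c3 : (i : ℝ) < 2 * C.aK i := by
      by_contra hcon
      have := mul_le_mul_of_nonneg_left (not_lt.1 hcon) hp0.le
      linarith
    have c4 : C.aK i ≤ ((C.a' i : ℤ) : ℝ) := Int.le_ceil _
    have c5 : (i : ℝ) < 2 * ((C.a' i : ℤ) : ℝ) := by linarith
    exact_mod_cast c5
  have hb2 : ∀ i ≤ C.h, C.m + 1 ≤ i → 2 * C.b i ≤ i := by
    intro i hi hmi
    have c := hC.bHconc.chord (Nat.zero_le (C.m + 1)) hmi hi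
    rw [hC.bH0] at c
    push_cast at c
    have hi0 : (0 : ℝ) < i := by
      have : 0 < i := by omega
      exact_mod_cast this
    have c1 : (i : ℝ) * C.bH (C.m + 1) < (i : ℝ) * (p + 1) := mul_lt_mul_of_pos_left hb hi0
    have c2 : (2 * (p : ℝ) + 2) * C.bH i < (i : ℝ) * (p + 1) := by
      rw [hmR] at c
      linarith
    have hp0 : (0 : ℝ) < (p : ℝ) + 1 := by positivity
    have c3 : 2 * C.bH i < (i : ℝ) := by
      by_contra hcon
      have := mul_le_mul_of_nonneg_left (not_lt.1 hcon) hp0.le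
      linarith
    have c4 : ((C.b i : ℤ) : ℝ) ≤ C.bH i := Int.floor_le _
    have c5 : 2 * ((C.b i : ℤ) : ℝ) ≤ (i : ℝ) := by linarith
    exact_mod_cast c5
  have hmZ : (C.m : ℤ) = 2 * p + 1 := by exact_mod_cast hm
  refine hX p hm hq ?_ ?_ ?_ ?_
  · intro i hi
    rcases lt_trichotomy i C.m with hlt | heq | hgt
    · exact h1 i hlt
    · rw [heq, hC.am', hq, hmZ]; omega
    · exact (ha2 i hi hgt).le
  · intro i hi hmi
    rcases hmi.lt_or_eq with hlt | heq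
    · exact ha2 i hi hlt
    · rw [← heq, hC.am', hq, hmZ]; omega
  · intro i hi
    rcases lt_trichotomy i C.m with hlt | heq | hgt
    · exact h2 i hlt
    · rw [heq, hC.bm, hq, hmZ]; omega
    · exact hb2 i hi hgt
  · intro i hi
    exact (hC.low i hi).1

/-- the triangle of `(2,1)`: `m = 1`, `a'₂ = 2`, `b₂ = 0` -/
theorem lemX_tri (hm : C.m = 1) (hq : C.q = 0) (h2 : 2 ≤ C.h) (ha : C.a' 2 = 2) (hb : C.b 2 = 0) :
    False := by
  have a1 : (C.a' 2 : ℝ) < C.aK 2 + 1 := Int.ceil_lt_add_one _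
  have b1 : C.bH 2 < (C.b 2 : ℝ) + 1 := Int.lt_floor_add_one _
  rw [ha] at a1
  rw [hb] at b1
  refine hC.lemX_slopes hX (p := 0) (by omega) (by rw [hq]; rfl) (by omega) ?_ ?_ ?_ ?_
  · rw [hm]; push_cast at a1 ⊢; norm_num; linarith
  · rw [hm]; push_cast at b1 ⊢; norm_num; linarith
  · intro i hi
    have : i = 0 := by omega
    rw [this, hC.zero.2.2.2.2.1]; simp
  · intro i hi
    have : i = 0 := by omega
    rw [this, hC.zero.2.1]; simp

/-- the shrink case: bottom row `m+1` is a T1 row with `a = q+1`, `b = q` -/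
theorem lemX_shrink (hh : C.m + 1 ≤ C.h) (h1 : C.a (C.m + 1) = C.q + 1)
    (h2 : C.a' (C.m + 1) = C.q + 2) (h3 : C.b (C.m + 1) = C.q) : False := by
  have hm := hC.hm
  have hmh := hC.hmh
  have hLM := hC.hLM
  have hq0 : 0 ≤ C.q := by
    have h1 := (hC.a_mono (Nat.zero_le C.m) hC.cb08_m).1
    rw [hC.zero.1, hC.am] at h1
    exact h1
  have hqm : C.q + 1 ≤ C.m := by
    have h1 := (hC.a'_mono (Nat.zero_le C.m) hC.cb08_m).2
    rw [hC.zero.2.2.2.2.1, hC.am'] at h1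
    push_cast at h1
    linarith
  -- `h ≠ 2m`
  have hh2 : 2 * C.m + 1 ≤ C.h := by
    by_contra hcon
    have e : C.h - C.m = C.m := by omega
    have e1 := Cd.c'_eq (C := C) C.m
    have e2 := Cd.d'_eq (C := C) C.m
    rw [e, hC.cm', hC.bm] at e1
    rw [e, hC.dm', hC.am] at e2
    unfold Cd.xr at e1
    omega
  have r1 : (C.a' (C.m + 1) : ℝ) < C.aK (C.m + 1) + 1 := Int.ceil_lt_add_one _
  have r2 : C.bH (C.m + 1) < (C.b (C.m + 1) : ℝ) + 1 := Int.lt_floor_add_one _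
  rw [h2] at r1
  rw [h3] at r2
  push_cast at r1
  obtain ⟨f1, f2, f3, f4⟩ := hC.full_q (k := 1) le_rfl hm (by push_cast; linarith)
  have r3 : C.aK (C.m - 1) ≤ (C.a' (C.m - 1) : ℝ) := Int.le_ceil _
  have r4 : (C.b (C.m - 1) : ℝ) ≤ C.bH (C.m - 1) := Int.floor_le _
  rw [(hC.low (C.m - 1) (by omega)).1, f1] at r3
  rw [f2] at r4
  have s1 := hC.S_a' (i := C.m - 1) (i' := C.m + 1) (k := 0) (k' := C.m) (by omega) (by omega)
    (by omega) (by omega)
  have s2 := hC.S_b (i := C.m - 1) (i' := C.m + 1) (k := 0) (k' := C.m) (by omega) (by omega)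
    (by omega) (by omega)
  rw [hC.top0.2.1, Nat.cast_sub hm] at s1
  rw [hC.top0.2.2.1, Nat.cast_sub hm] at s2
  push_cast at s1 s2
  have t1 : C.rK C.m < (C.d C.m : ℝ) + 1 := Int.lt_floor_add_one _
  have t2 : (C.c' C.m : ℝ) < C.lH C.m + 1 := Int.ceil_lt_add_one _
  rw [hC.dm] at t1
  rw [hC.cm'] at t2
  push_cast at t2
  have hm0 : (0 : ℝ) < C.m := by exact_mod_cast hm
  have u1 : (C.m : ℝ) < 2 * (C.q + 1) := by
    have : (1 : ℝ) * C.m < (C.aK (C.m + 1) - C.aK (C.m - 1)) * C.m := by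
      apply mul_lt_mul_of_pos_right _ hm0
      linarith
    linarith
  have u2 : 2 * (C.q : ℝ) < C.m := by
    have : (C.bH (C.m + 1) - C.bH (C.m - 1)) * C.m < 1 * C.m := by
      apply mul_lt_mul_of_pos_right _ hm0
      linarith
    linarith
  have u3 : (C.m : ℤ) < 2 * (C.q + 1) := by exact_mod_cast u1
  have u4 : 2 * C.q < (C.m : ℤ) := by exact_mod_cast u2
  obtain ⟨p, hp⟩ := Int.eq_ofNat_of_zero_le hq0
  have hmp : C.m = 2 * p + 1 := by omega
  have heven : ∀ t : ℕ, 2 * t < C.m → C.a (2 * t) = t ∧ C.b (2 * t) = t ∧ C.c (2 * t) = t ∧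
      C.d (2 * t) = t := by
    intro t ht
    apply hC.full_val ht
    · rw [hp, hmp]; push_cast; nlinarith [Nat.cast_nonneg (α := ℤ) t]
    · rw [hp, hmp]; push_cast; nlinarith [Nat.cast_nonneg (α := ℤ) t]
  have hodd : ∀ t : ℕ, 2 * t + 1 < C.m → (t : ℤ) + 1 ≤ C.a (2 * t + 1) ∧ C.b (2 * t + 1) ≤ t := by
    intro t ht
    obtain ⟨e1, e2, e3, e4⟩ := heven t (by omega)
    constructor
    · have h5 := hC.C0a (j := 2 * t + 1) (s := C.m + 1) (k := 2 * t) (t := C.m) (by rw [h2, h1]; ring)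
        (hC.low _ ht).1 (by omega) (by omega) (by omega)
      rw [e4, h1, hC.dm] at h5
      omega
    · have h5 := hC.C0b (j := 2 * t + 1) (s := C.m + 1) (k := 2 * t) (t := C.m)
        (by rw [hC.cm', hC.cm]) (by omega) (by omega) (by omega)
      rw [(hC.low (2 * t) (by omega)).2.2.1, e3, h3, hC.cm] at h5
      omega
  refine hC.lemX_slopes hX hmp hp hh ?_ ?_ ?_ ?_
  · rw [hp] at r1; push_cast at r1; linarith
  · rw [hp] at r2; push_cast at r2; linarith
  · intro i hi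
    rw [(hC.low i hi).1]
    rcases Nat.even_or_odd' i with ⟨t, rfl | rfl⟩
    · rw [(heven t hi).1]; push_cast; exact le_refl _
    · have := (hodd t hi).1
      push_cast
      omega
  · intro i hi
    rcases Nat.even_or_odd' i with ⟨t, rfl | rfl⟩
    · rw [(heven t hi).2.1]; push_cast; exact le_refl _
    · have := (hodd t hi).2
      push_cast
      omega

end Cd.Ok

end Pool.Agent.Lib.MP_bb0bab_co
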