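import Pool.Agent.Lib.MP_bb0bab_co.FE13b

/-!
# CX1 the explicit family (for the companion theorem), and its invariance

`w1 = (-k-1, 1)`, `w2 = (k, 1)`, `Bk k = {0..k} × {0} ∪ {0..k-1} × {1}`; the sets `A` of the family
are the hexagons `{i w1 + j w2 : p1 ≤ i ≤ q1, p2 ≤ j ≤ q2, p3 ≤ i - j ≤ q3}`.
-/

open scoped Pointwise

namespace Pool.Agent.Lib.MP_bb0bab_co

/-- the set `{0..k} × {0} ∪ {0..k-1} × {1}` -/
noncomputable def Bk (k : ℕ) : Finset (ℤ × ℤ) :=
  Finset.Icc (0 : ℤ) k ×ˢ {0} ∪ Finset.Icc (0 : ℤ) (k - 1) ×ˢ {1}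

theorem mem_Bk {k : ℕ} {p : ℤ × ℤ} :
    p ∈ Bk k ↔ (0 ≤ p.1 ∧ p.1 ≤ k ∧ p.2 = 0) ∨ (0 ≤ p.1 ∧ p.1 ≤ k - 1 ∧ p.2 = 1) := by
  simp only [Bk, Finset.mem_union, Finset.mem_product, Finset.mem_Icc, Finset.mem_singleton]
  constructor
  · rintro (⟨⟨h1, h2⟩, h3⟩ | ⟨⟨h1, h2⟩, h3⟩)
    · exact Or.inl ⟨h1, h2, h3⟩
    · exact Or.inr ⟨h1, h2, h3⟩
  · rintro (⟨h1, h2, h3⟩ | ⟨h1, h2, h3⟩)
    · exact Or.inl ⟨⟨h1, h2⟩, h3⟩
    · exact Or.inr ⟨⟨h1, h2⟩, h3⟩

/-- `A` is a hexagon (possibly degenerate) in the lattice spanned by `w1, w2`, with edges parallel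
to `w1`, `w2`, `w1 + w2` -/
def IsHex (k : ℕ) (A : Finset (ℤ × ℤ)) : Prop :=
  ∃ p1 q1 p2 q2 p3 q3 : ℤ, ∀ z : ℤ × ℤ, z ∈ A ↔ ∃ i j : ℤ,
    z = (i * (-k - 1) + j * k, i + j) ∧
      p1 ≤ i ∧ i ≤ q1 ∧ p2 ≤ j ∧ j ≤ q2 ∧ p3 ≤ i - j ∧ i - j ≤ q3

/-- the pair belongs to the explicit family, up to a linear automorphism, translations and a
reflection of the second set -/
def Fam (H K : Finset (ℤ × ℤ)) : Prop :=
  ∃ k : ℕ, 1 ≤ k ∧ ∃ a b c d : ℤ, (a * d - b * c = 1 ∨ a * d - b * c = -1) ∧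
    ∃ (A : Finset (ℤ × ℤ)) (s t : ℤ × ℤ), IsHex k A ∧
      H.image (lin a b c d) = A + Bk k + {s} ∧
      (K.image (lin a b c d) = A - Bk k + {t} ∨ K.image (lin a b c d) = Bk k - A + {t})

theorem IsHex.neg {k : ℕ} {A : Finset (ℤ × ℤ)} (h : IsHex k A) : IsHex k (-A) := by
  obtain ⟨p1, q1, p2, q2, p3, q3, hA⟩ := h
  refine ⟨-q1, -p1, -q2, -p2, -q3, -p3, fun z => ?_⟩
  rw [Finset.mem_neg']
  rw [hA]
  constructor
  · rintro ⟨i, j, h1, h2⟩
    refine ⟨-i, -j, ?_, by omega⟩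
    rw [← neg_neg z, h1]
    ext
    · simp only [Prod.fst_neg]
      ring
    · simp only [Prod.snd_neg]
      ring
  · rintro ⟨i, j, h1, h2⟩
    refine ⟨-i, -j, ?_, by omega⟩
    rw [h1]
    ext
    · simp only [Prod.fst_neg]
      ring
    · simp only [Prod.snd_neg]
      ring

/-- the reflection `(x,y) ↦ (x + y, -y)` -/
theorem IsHex.refl {k : ℕ} {A : Finset (ℤ × ℤ)} (h : IsHex k A) :
    IsHex k (A.image (lin 1 1 0 (-1))) := by
  obtain ⟨p1, q1, p2, q2, p3, q3, hA⟩ := h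
  refine ⟨-q2, -p2, -q1, -p1, p3, q3, fun z => ?_⟩
  rw [Finset.mem_image]
  constructor
  · rintro ⟨y, hy, rfl⟩
    obtain ⟨i, j, h1, h2⟩ := (hA y).1 hy
    refine ⟨-j, -i, ?_, by omega⟩
    rw [h1]
    ext
    · simp only [lin]
      ring
    · simp only [lin]
      ring
  · rintro ⟨i, j, h1, h2⟩
    refine ⟨(-j * (-k - 1) + -i * k, -j + -i), (hA _).2 ⟨-j, -i, rfl, by omega⟩, ?_⟩
    rw [h1]
    ext
    · simp only [lin]
      ring
    · simp only [lin]
      ring

theorem refl_Bk (k : ℕ) : (Bk k).image (lin 1 1 0 (-1)) = -(Bk k) + {((k : ℤ), 0)} := by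
  ext z
  rw [Finset.mem_image, ← image_add_eq, Finset.mem_image]
  constructor
  · rintro ⟨y, hy, rfl⟩
    rw [mem_Bk] at hy
    refine ⟨lin 1 1 0 (-1) y - ((k : ℤ), 0), ?_, by rw [sub_add_cancel]⟩
    rw [Finset.mem_neg', mem_Bk]
    rcases hy with ⟨h1, h2, h3⟩ | ⟨h1, h2, h3⟩
    · left
      simp only [lin, neg_sub, Prod.fst_sub, Prod.snd_sub]
      omega
    · right
      simp only [lin, neg_sub, Prod.fst_sub, Prod.snd_sub]
      omega
  · rintro ⟨y, hy, rfl⟩
    rw [Finset.mem_neg', mem_Bk] at hy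
    simp only [Prod.fst_neg, Prod.snd_neg] at hy
    refine ⟨(y.1 + y.2 + k, -y.2), ?_, ?_⟩
    · rw [mem_Bk]
      simp only
      rcases hy with ⟨h1, h2, h3⟩ | ⟨h1, h2, h3⟩
      · left
        omega
      · right
        omega
    · ext
      · simp only [lin, Prod.fst_add]
        ring
      · simp only [lin, Prod.snd_add]
        ring

theorem image_lin_lin (S : Finset (ℤ × ℤ)) (a b c d a' b' c' d' : ℤ) :
    (S.image (lin a b c d)).image (lin a' b' c' d') =
      S.image (lin (a' * a + b' * c) (a' * b + b' * d) (c' * a + d' * c) (c' * b + d' * d)) := by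
  rw [Finset.image_image]
  refine Finset.image_congr fun p _ => ?_
  ext
  · simp only [lin, Function.comp_apply]
    ring
  · simp only [lin, Function.comp_apply]
    ring

theorem image_lin_add (a b c d : ℤ) (A B : Finset (ℤ × ℤ)) :
    (A + B).image (lin a b c d) = A.image (lin a b c d) + B.image (lin a b c d) :=
  image_hom_add (linHom a b c d) A B

theorem image_lin_sub (a b c d : ℤ) (A B : Finset (ℤ × ℤ)) :
    (A - B).image (lin a b c d) = A.image (lin a b c d) - B.image (lin a b c d) :=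
  image_hom_sub (linHom a b c d) A B

theorem image_lin_neg (a b c d : ℤ) (A : Finset (ℤ × ℤ)) :
    (-A).image (lin a b c d) = -(A.image (lin a b c d)) :=
  image_hom_neg (linHom a b c d) A

theorem det_comp {a b c d a' b' c' d' : ℤ} (h : a * d - b * c = 1 ∨ a * d - b * c = -1)
    (h' : a' * d' - b' * c' = 1 ∨ a' * d' - b' * c' = -1) :
    (a' * a + b' * c) * (c' * b + d' * d) - (a' * b + b' * d) * (c' * a + d' * c) = 1 ∨
    (a' * a + b' * c) * (c' * b + d' * d) - (a' * b + b' * d) * (c' * a + d' * c) = -1 := by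
  have e : (a' * a + b' * c) * (c' * b + d' * d) - (a' * b + b' * d) * (c' * a + d' * c) =
      (a' * d' - b' * c') * (a * d - b * c) := by ring
  rw [e]
  rcases h with h | h <;> rcases h' with h' | h' <;> rw [h, h'] <;> norm_num

theorem fam_lin {H K : Finset (ℤ × ℤ)} (a b c d : ℤ)
    (hdet : a * d - b * c = 1 ∨ a * d - b * c = -1)
    (h : Fam (H.image (lin a b c d)) (K.image (lin a b c d))) : Fam H K := by
  obtain ⟨k, hk, a', b', c', d', hdet', A, s, t, hA, h1, h2⟩ := h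
  rw [image_lin_lin] at h1 h2
  exact ⟨k, hk, _, _, _, _, det_comp hdet hdet', A, s, t, hA, h1, h2⟩

theorem fam_translate {H K : Finset (ℤ × ℤ)} (s t : ℤ × ℤ)
    (h : Fam (H.image (fun p => p + s)) (K.image (fun p => p + t))) : Fam H K := by
  rw [image_add_eq, image_add_eq] at h
  obtain ⟨k, hk, a, b, c, d, hdet, A, u, v, hA, h1, h2⟩ := h
  rw [image_lin_add, Finset.image_singleton] at h1 h2
  refine ⟨k, hk, a, b, c, d, hdet, A, u + -lin a b c d s, v + -lin a b c d t, hA, ?_, ?_⟩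
  · rw [← add_cancel_single (H.image _) (lin a b c d s), h1, add_assoc,
      Finset.singleton_add_singleton]
  · rcases h2 with h2 | h2
    · left
      rw [← add_cancel_single (K.image _) (lin a b c d t), h2, add_assoc,
        Finset.singleton_add_singleton]
    · right
      rw [← add_cancel_single (K.image _) (lin a b c d t), h2, add_assoc,
        Finset.singleton_add_singleton]

theorem fam_neg_right {H K : Finset (ℤ × ℤ)}
    (h : Fam H (K.image (fun p => -p))) : Fam H K := by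
  rw [image_neg_eq] at h
  obtain ⟨k, hk, a, b, c, d, hdet, A, u, v, hA, h1, h2⟩ := h
  rw [image_lin_neg] at h2
  refine ⟨k, hk, a, b, c, d, hdet, A, u, -v, hA, h1, ?_⟩
  rcases h2 with h2 | h2
  · right
    rw [← neg_neg (K.image _), h2, neg_add, neg_single, neg_sub]
  · left
    rw [← neg_neg (K.image _), h2, neg_add, neg_single, neg_sub]

theorem fam_symm {H K : Finset (ℤ × ℤ)} (h : Fam H K) : Fam K H := by
  obtain ⟨k, hk, a, b, c, d, hdet, A, u, v, hA, h1, h2⟩ := h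
  rcases h2 with h2 | h2
  · refine ⟨k, hk, _, _, _, _, det_comp hdet (a' := 1) (b' := 1) (c' := 0) (d' := -1)
      (Or.inr (by norm_num)), A.image (lin 1 1 0 (-1)), -((k : ℤ), 0) + lin 1 1 0 (-1) v,
      ((k : ℤ), 0) + lin 1 1 0 (-1) u, hA.refl, ?_, Or.inl ?_⟩
    · rw [← image_lin_lin, h2, image_lin_add, image_lin_sub, refl_Bk, Finset.image_singleton,
        sub_eq_add_neg, neg_add, neg_neg, neg_single, ← add_assoc, add_assoc,
        Finset.singleton_add_singleton]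
    · rw [← image_lin_lin, h1, image_lin_add, image_lin_add, refl_Bk, Finset.image_singleton,
        sub_eq_add_neg, ← add_assoc, add_assoc, Finset.singleton_add_singleton]
  · refine ⟨k, hk, a, b, c, d, hdet, -A, v, u, hA.neg, ?_, Or.inr ?_⟩
    · rw [h2, sub_eq_add_neg, add_comm (Bk k)]
    · rw [h1, sub_neg_eq_add, add_comm (Bk k)]

/-- a decomposition gives the family as soon as one linear automorphism brings both parts to the
standard form -/
theorem fam_of {H K A B : Finset (ℤ × ℤ)} {k : ℕ} (hk : 1 ≤ k) {a b c d : ℤ}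
    (hdet : a * d - b * c = 1 ∨ a * d - b * c = -1) {s t u : ℤ × ℤ}
    (hA : IsHex k (A.image (lin a b c d))) (hB : B.image (lin a b c d) = Bk k + {u})
    (hH : H = A + B + {s}) (hK : K = A - B + {t}) : Fam H K := by
  refine ⟨k, hk, a, b, c, d, hdet, A.image (lin a b c d), u + lin a b c d s,
    -u + lin a b c d t, hA, ?_, Or.inl ?_⟩
  · rw [hH, image_lin_add, image_lin_add, hB, Finset.image_singleton, ← add_assoc, add_assoc,
      Finset.singleton_add_singleton]
  · rw [hK, image_lin_add, image_lin_sub, hB, Finset.image_singleton, sub_eq_add_neg, neg_add,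
      neg_single, ← add_assoc, add_assoc, Finset.singleton_add_singleton, sub_eq_add_neg]

end Pool.Agent.Lib.MP_bb0bab_co
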