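import Pool.Agent.Lib.MP_bb0bab_co.FE17

/-!
# FE19b the nested first discrepancy is impossible (total displacement)

PROOF. `L = 2M`, `p = a`.  Data: `⌈lft K m⌉ = p + 1`, so `lft K m > p`; `⌊rgt K m⌋ = p + M - 1`, so
`rgt K m < p + M`.  Boundary values (`bdry_bot`, `bdry_top`): `lft S 0 = 0`, `rgt S 0 = L - 1`, `lft S h = xh`,
`rgt S h = xh + M - 1` for `S = H, K`.
First alternative (`c' = p`, `c = p+1`, where `c = xh + M - 1 - ⌊rgt H (h-m)⌋`): `⌊rgt H (h-m)⌋ = xh + M - 2 - p`, so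
`rgt H (h-m) < xh + M - 1 - p`, i.e. `rgt H h - rgt H (h-m) > p`.  Concavity of `rgt H` (slope over the last `m` rows is at
most the slope over `[0,h]`): `rgt H h - rgt H 0 ≥ (h/m)(rgt H h - rgt H (h-m)) > (h/m) p`.  Concavity of `rgt K`:
`rgt K h - rgt K 0 ≤ (h/m)(rgt K m - rgt K 0) < (h/m)(p + M - (L-1)) = (h/m)(p - M + 1) ≤ (h/m) p`.  Both total
displacements are `xh + M - 1 - (L-1)`: contradiction.
Second alternative (`d' = p`, `d = p - 1`, `d = xh + M - 1 - ⌈lft H (h-m)⌉`): `⌈lft H (h-m)⌉ = xh + M - p`, so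
`lft H (h-m) > xh + M - p - 1`, `lft H h - lft H (h-m) < p + 1 - M ≤ p`.  Convexity of `lft H`:
`lft H h - lft H 0 ≤ (h/m)(lft H h - lft H (h-m)) < (h/m) p`; convexity of `lft K`: `lft K h - lft K 0 ≥ (h/m) lft K m > (h/m) p`.
Both totals are `xh`: contradiction.
The convexity facts: `ConvexOn.slope_mono_adjacent`/`ConvexOn.secant_mono`, or directly from the definition:
`m = (m/h) h + (1 - m/h) 0` gives `lft K m ≤ (m/h) lft K h`, and `h - m = (m/h) 0 + (1-m/h) h` gives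
`lft H (h-m) ≤ (1 - m/h) lft H h`; `rgt` with `≥`.
-/

open scoped Pointwise

namespace Pool.Agent.Lib.MP_bb0bab_co

variable {H K : Finset (ℤ × ℤ)} {L M h : ℕ} {xh : ℤ}

theorem not_nested (P : StripPair H K L M h xh) (hL2 : L = 2 * M) (m : ℕ) (hm : 1 ≤ m)
    (hmh : m ≤ h) (p : ℤ) (hK1 : ⌈lft K m⌉ = p + 1) (hK2 : ⌊rgt K m⌋ = p + M - 1)
    (htop : ⌊rgt H ((h - m : ℕ) : ℝ)⌋ = xh + M - 2 - p ∨ ⌈lft H ((h - m : ℕ) : ℝ)⌉ = xh + M - p) :
    False := by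
  have hm0 : (0 : ℝ) < m := by exact_mod_cast hm
  have hh0 : (0 : ℝ) < h := by exact_mod_cast (le_trans hm hmh)
  have hmh' : (m : ℝ) ≤ h := by exact_mod_cast hmh
  have hM0 : (1 : ℝ) ≤ M := by exact_mod_cast P.hM
  have hLr : (L : ℝ) = 2 * M := by rw [hL2]; push_cast; ring
  have hH0 : ∃ x : ℤ, (x, 0) ∈ H := ⟨0, (P.botH 0).2 ⟨le_refl _, by have := P.hL; exact_mod_cast this⟩⟩
  have hK0 : ∃ x : ℤ, (x, 0) ∈ K := ⟨0, (P.botK 0).2 ⟨le_refl _, by have := P.hL; exact_mod_cast this⟩⟩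
  have hHh : ∃ x : ℤ, (x, (h : ℤ)) ∈ H :=
    ⟨xh, (P.topH xh).2 ⟨le_refl _, by have := P.hM; have : (1 : ℤ) ≤ M := by exact_mod_cast this
                                      linarith⟩⟩
  have hKh : ∃ x : ℤ, (x, (h : ℤ)) ∈ K :=
    ⟨xh, (P.topK xh).2 ⟨le_refl _, by have := P.hM; have : (1 : ℤ) ≤ M := by exact_mod_cast this
                                      linarith⟩⟩
  have bH := bdry_bot P.hL P.rowsH P.botH hHh
  have bK := bdry_bot P.hL P.rowsK P.botK hKh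
  have tH := bdry_top P.hM P.rowsH hH0 P.topH
  have tK := bdry_top P.hM P.rowsK hK0 P.topK
  have z0 : (0 : ℝ) ∈ Set.Icc (0 : ℝ) h := ⟨le_refl _, hh0.le⟩
  have zh : (h : ℝ) ∈ Set.Icc (0 : ℝ) h := ⟨hh0.le, le_refl _⟩
  have w1 : (0 : ℝ) ≤ m / h := by positivity
  have w2 : (0 : ℝ) ≤ 1 - m / h := by
    rw [sub_nonneg, div_le_one hh0]; exact hmh'
  have em : (1 - (m : ℝ) / h) • (0 : ℝ) + ((m : ℝ) / h) • (h : ℝ) = m := by
    simp only [smul_eq_mul]; field_simp; ring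
  have ehm : ((m : ℝ) / h) • (0 : ℝ) + (1 - (m : ℝ) / h) • (h : ℝ) = ((h - m : ℕ) : ℝ) := by
    rw [Nat.cast_sub hmh]
    simp only [smul_eq_mul]; field_simp; ring
  -- convexity and concavity
  have cK1 := (lft_convexOn P.rowsK hK0 hKh).2 z0 zh w2 w1 (by ring)
  have cK2 := (rgt_concaveOn P.rowsK hK0 hKh).2 z0 zh w2 w1 (by ring)
  have cH1 := (lft_convexOn P.rowsH hH0 hHh).2 z0 zh w1 w2 (by ring)
  have cH2 := (rgt_concaveOn P.rowsH hH0 hHh).2 z0 zh w1 w2 (by ring)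
  rw [em] at cK1 cK2
  rw [ehm] at cH1 cH2
  rw [bK.1, tK.1] at cK1
  rw [bK.2, tK.2] at cK2
  rw [bH.1, tH.1] at cH1
  rw [bH.2, tH.2] at cH2
  simp only [smul_eq_mul] at cK1 cK2 cH1 cH2
  have r1 : (p : ℝ) < lft K m := by
    have := Int.lt_ceil.1 (show p < ⌈lft K m⌉ by rw [hK1]; exact lt_add_one p)
    exact this
  have r2 : rgt K m < p + M := by
    have := Int.floor_lt.1 (show ⌊rgt K m⌋ < p + M by rw [hK2]; exact sub_one_lt _)
    push_cast at this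
    exact this
  obtain ⟨w, hw⟩ : ∃ w : ℝ, w = m / h := ⟨_, rfl⟩
  rw [← hw] at cK1 cK2 cH1 cH2 w1 w2
  rcases htop with htop | htop
  · have r3 : rgt H ((h - m : ℕ) : ℝ) < xh + M - 1 - p := by
      have := Int.floor_lt.1 (show ⌊rgt H ((h - m : ℕ) : ℝ)⌋ < xh + M - 1 - p by rw [htop]; linarith)
      push_cast at this
      exact this
    nlinarith
  · have r3 : (xh : ℝ) + M - p - 1 < lft H ((h - m : ℕ) : ℝ) := by
      have := Int.lt_ceil.1 (show xh + M - p - 1 < ⌈lft H ((h - m : ℕ) : ℝ)⌉ by rw [htop]; linarith)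
      push_cast at this
      exact this
    nlinarith

end Pool.Agent.Lib.MP_bb0bab_co
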