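import Pool.Agent.Lib.MP_bb0bab_co.FE19a
import Pool.Agent.Lib.MP_bb0bab_co.FE19b

/-!
# FE19c first discrepancy (FIRST)
-/

open scoped Pointwise

namespace Pool.Agent.Lib.MP_bb0bab_co

theorem first_disc {H K : Finset (ℤ × ℤ)} {L M h : ℕ} {xh : ℤ} (P : NormPair H K L M h xh) :
    ∃ (m : ℕ) (q : ℤ), FirstDisc H K L M h xh m q ∨ FirstDisc K H L M h xh m q := by
  classical
  have S := P.strip
  have hM := P.hM
  have hLM := P.hLM
  have hL : 1 ≤ L := by omega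
  have hH0 : ∃ x : ℤ, (x, 0) ∈ H := ⟨0, (P.botH 0).2 ⟨le_rfl, by omega⟩⟩
  have hK0 : ∃ x : ℤ, (x, 0) ∈ K := ⟨0, (P.botK 0).2 ⟨le_rfl, by omega⟩⟩
  have hHh : ∃ x : ℤ, (x, (h : ℤ)) ∈ H := ⟨xh, (P.topH xh).2 ⟨le_rfl, by omega⟩⟩
  have hKh : ∃ x : ℤ, (x, (h : ℤ)) ∈ K := ⟨xh, (P.topK xh).2 ⟨le_rfl, by omega⟩⟩
  obtain ⟨bH, bH'⟩ := bdry_bot hL P.rowsH P.botH hHh
  obtain ⟨bK, bK'⟩ := bdry_bot hL P.rowsK P.botK hKh
  obtain ⟨tH, tH'⟩ := bdry_top hM P.rowsH hH0 P.topH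
  obtain ⟨tK, tK'⟩ := bdry_top hM P.rowsK hK0 P.topK
  have cL : ⌊((L : ℝ) - 1)⌋ = (L : ℤ) - 1 := by
    have : ((L : ℝ) - 1) = (((L : ℤ) - 1 : ℤ) : ℝ) := by push_cast; ring
    rw [this, Int.floor_intCast]
  have cM : ⌊((xh : ℝ) + M - 1)⌋ = xh + (M : ℤ) - 1 := by
    have : ((xh : ℝ) + M - 1) = ((xh + (M : ℤ) - 1 : ℤ) : ℝ) := by push_cast; ring
    rw [this, Int.floor_intCast]
  set good : ℕ → Prop := fun j =>
    (⌈lft H (j : ℝ)⌉ = ⌈lft K (j : ℝ)⌉ ∧ ⌊rgt H (j : ℝ)⌋ = ⌊rgt K (j : ℝ)⌋) ∧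
    (⌈lft H ((h - j : ℕ) : ℝ)⌉ = ⌈lft K ((h - j : ℕ) : ℝ)⌉ ∧
      ⌊rgt H ((h - j : ℕ) : ℝ)⌋ = ⌊rgt K ((h - j : ℕ) : ℝ)⌋) with hgood
  have hex : ∃ j, j ≤ h ∧ ¬ good j := by
    by_contra hcon
    push Not at hcon
    apply P.hne
    ext ⟨x, i⟩
    constructor
    · intro hp
      obtain ⟨hi0, hih⟩ := P.rowsH _ hp
      obtain ⟨n, rfl⟩ := Int.eq_ofNat_of_zero_le hi0
      have hih' : (n : ℤ) ≤ (h : ℤ) := hih
      have hn : n ≤ h := by exact_mod_cast hih'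
      rw [mem_iff_row P.convH P.rowsH hH0 hHh n hn] at hp
      rw [mem_iff_row P.convK P.rowsK hK0 hKh n hn, ← (hcon n hn).1.1, ← (hcon n hn).1.2]
      exact hp
    · intro hp
      obtain ⟨hi0, hih⟩ := P.rowsK _ hp
      obtain ⟨n, rfl⟩ := Int.eq_ofNat_of_zero_le hi0
      have hih' : (n : ℤ) ≤ (h : ℤ) := hih
      have hn : n ≤ h := by exact_mod_cast hih'
      rw [mem_iff_row P.convK P.rowsK hK0 hKh n hn] at hp
      rw [mem_iff_row P.convH P.rowsH hH0 hHh n hn, (hcon n hn).1.1, (hcon n hn).1.2]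
      exact hp
  obtain ⟨hmh, hbad⟩ := Nat.find_spec hex
  have hmin : ∀ i, i < Nat.find hex → good i := by
    intro i hi
    by_contra hcon
    exact Nat.find_min hex hi ⟨by omega, hcon⟩
  generalize Nat.find hex = m at hmh hbad hmin
  have g0 : good 0 := by
    refine ⟨?_, ?_⟩
    · rw [Nat.cast_zero, bH, bK, bH', bK']
      exact ⟨rfl, rfl⟩
    · rw [Nat.sub_zero, tH, tK, tH', tK']
      exact ⟨rfl, rfl⟩
  have hm : 1 ≤ m := by
    rcases Nat.eq_zero_or_pos m with h0 | h0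
    · exact absurd (h0 ▸ g0) hbad
    · exact h0
  have h2m : 2 * m ≤ h := by
    by_contra hcon
    have hg := hmin (h - m) (by omega)
    apply hbad
    have e : h - (h - m) = m := by omega
    rw [hgood] at hg ⊢
    simp only [e] at hg ⊢
    exact ⟨hg.2, hg.1⟩
  obtain ⟨l1, l2⟩ := letters S m hm hmh (fun i hi => (hmin i hi).1)
  obtain ⟨l3, l4⟩ := letters_top S m hm hmh (fun i hi => (hmin i hi).2)
  obtain ⟨r1, r2⟩ := row_le S m hmh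
  obtain ⟨r3, r4⟩ := row_le S (h - m) (by omega)
  have e1 := empty_rows S m hmh
  have e2 := empty_rows S (h - m) (by omega)
  have rid := row_identity P.convH P.convK P.hcov P.rowsH P.rowsK hH0 hHh hK0 hKh
    (xh + M - 1) m hmh
  have hid : rowPoly 0 (M - 1) * (rowPoly ⌈lft H (m : ℝ)⌉ ⌊rgt H (m : ℝ)⌋ -
      rowPoly ⌈lft K (m : ℝ)⌉ ⌊rgt K (m : ℝ)⌋) =
      rowPoly 0 (L - 1) *
        (rowPoly (xh + M - 1 - ⌊rgt K ((h - m : ℕ) : ℝ)⌋) (xh + M - 1 - ⌈lft K ((h - m : ℕ) : ℝ)⌉) -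
        rowPoly (xh + M - 1 - ⌊rgt H ((h - m : ℕ) : ℝ)⌋)
          (xh + M - 1 - ⌈lft H ((h - m : ℕ) : ℝ)⌉)) := by
    obtain ⟨k, rfl⟩ : ∃ k, m = k + 1 := ⟨m - 1, by omega⟩
    rw [Finset.sum_range_succ, Finset.sum_range_succ', Finset.sum_range_succ,
      Finset.sum_range_succ' (n := k)] at rid
    have hmid : ∑ i ∈ Finset.range k, rowPoly ⌈lft H ((i + 1 : ℕ) : ℝ)⌉ ⌊rgt H ((i + 1 : ℕ) : ℝ)⌋ *
        rowPoly (xh + M - 1 - ⌊rgt H ((h - (k + 1 - (i + 1)) : ℕ) : ℝ)⌋)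
          (xh + M - 1 - ⌈lft H ((h - (k + 1 - (i + 1)) : ℕ) : ℝ)⌉) =
        ∑ i ∈ Finset.range k, rowPoly ⌈lft K ((i + 1 : ℕ) : ℝ)⌉ ⌊rgt K ((i + 1 : ℕ) : ℝ)⌋ *
        rowPoly (xh + M - 1 - ⌊rgt K ((h - (k + 1 - (i + 1)) : ℕ) : ℝ)⌋)
          (xh + M - 1 - ⌈lft K ((h - (k + 1 - (i + 1)) : ℕ) : ℝ)⌉) := by
      refine Finset.sum_congr rfl fun i hi => ?_
      rw [Finset.mem_range] at hi
      have g1 := (hmin (i + 1) (by omega)).1
      have g2 := (hmin (k + 1 - (i + 1)) (by omega)).2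
      rw [g1.1, g1.2, g2.1, g2.2]
    rw [hmid] at rid
    have e3 : h - (k + 1 - (k + 1)) = h := by omega
    rw [e3, Nat.sub_zero, Nat.cast_zero, bH, bK, bH', bK', tH, tK, tH', tK', Int.ceil_zero,
      cL, cM, Int.ceil_intCast] at rid
    have e4 : xh + (M : ℤ) - 1 - (xh + (M : ℤ) - 1) = 0 := by ring
    have e5 : xh + (M : ℤ) - 1 - xh = (M : ℤ) - 1 := by ring
    rw [e4, e5] at rid
    linear_combination rid
  set aH := ⌈lft H (m : ℝ)⌉ with haH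
  set bbH := ⌊rgt H (m : ℝ)⌋ with hbH
  set aK := ⌈lft K (m : ℝ)⌉ with haK
  set bbK := ⌊rgt K (m : ℝ)⌋ with hbK
  set cH := ⌈lft H ((h - m : ℕ) : ℝ)⌉ with hcH
  set dH := ⌊rgt H ((h - m : ℕ) : ℝ)⌋ with hdH
  set cK := ⌈lft K ((h - m : ℕ) : ℝ)⌉ with hcK
  set dK := ⌊rgt K ((h - m : ℕ) : ℝ)⌋ with hdK
  rw [abs_le] at l1 l2 l3 l4
  have alg := rows_alg L M hM hLM aH bbH aK bbK (xh + M - 1 - dH) (xh + M - 1 - cH)
    (xh + M - 1 - dK) (xh + M - 1 - cK) r1 r2 (by omega) (by omega)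
    (by rw [abs_le]; omega) (by rw [abs_le]; omega) (by rw [abs_le]; omega)
    (by rw [abs_le]; omega) (fun x y => e1 (by omega) (by omega))
    (fun x y => by
      have := e2 (by omega) (by omega)
      omega) hid
  rcases alg with alg | alg | alg | alg | alg
  · exfalso
    apply hbad
    exact ⟨⟨alg.1, alg.2.1⟩, ⟨by omega, by omega⟩⟩
  · refine ⟨m, aH, Or.inl ⟨hm, h2m, fun i hi => (hmin i hi).1, fun i hi => (hmin i hi).2, ?_, ?_,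
      ?_, ?_⟩⟩
    · exact ⟨rfl, alg.2.2.1⟩
    · exact ⟨alg.1, by omega⟩
    · exact ⟨by omega, by omega⟩
    · exact ⟨by omega, by omega⟩
  · refine ⟨m, aK, Or.inr ⟨hm, h2m, fun i hi => ?_, fun i hi => ?_, ?_, ?_,
      ?_, ?_⟩⟩
    · have := (hmin i hi).1
      exact ⟨this.1.symm, this.2.symm⟩
    · have := (hmin i hi).2
      exact ⟨this.1.symm, this.2.symm⟩
    · exact ⟨rfl, alg.2.2.1⟩
    · exact ⟨alg.1, by omega⟩
    · exact ⟨by omega, by omega⟩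
    · exact ⟨by omega, by omega⟩
  · exfalso
    obtain ⟨a1, a2, a3, a4, a5⟩ := alg
    refine not_nested S (by omega) m hm hmh aH a3 (by omega) ?_
    rcases a5 with a5 | a5
    · left
      omega
    · right
      omega
  · exfalso
    obtain ⟨a1, a2, a3, a4, a5⟩ := alg
    refine not_nested S.symm (by omega) m hm hmh aK a3 (by omega) ?_
    rcases a5 with a5 | a5
    · left
      omega
    · right
      omega

end Pool.Agent.Lib.MP_bb0bab_co
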