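import Pool.Agent.Lib.MP_bb0bab_co.FE17

/-!
# FE20 all slopes are in [0,1] (strip)

PROOF. STEP 1 `q < m` (`disc_lt`, for any strip pair with `⌈lft H m⌉ ≤ q`, `⌈lft K m⌉ = q+1`): `lft H m ≤ q < lft K m`, and
`(q, m) ∈ hull H` because `lft H m ≤ q < lft K m ≤ m xh/h ≤ rgt H m` (`common_point`).  `strip_line` with `x = q`, `y₀ = m`,
`y = 0`: `q - σ m < lft K 0 = 0`, `σ < 1`, so `q < m`.
STEP 2 `0 ≤ q`: apply STEP 1 to the flipped and exchanged pair `(flip K, flip H)` (`P.flipped.symm`): `⌈lft (flip K) m⌉ =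
m + L - 1 - ⌊rgt K m⌋ = m - 1 - q`, `⌈lft (flip H) m⌉ = m + L - 1 - ⌊rgt H m⌋ = m - q`; so `m - 1 - q < m`.
STEP 3 (`no_dip`, pure convexity).  Let `f` be convex on `[0,h]`, `f 0 = 0`, `0 ≤ q` , `f m > q`, `f h - f (h-m) < q + 1`,
`1 ≤ m`, `2m ≤ h`.  Then `f y > -1` for all `y ∈ [0,h]`.  Suppose `f y₁ ≤ -1`.  If `y₁ ≥ m`: `m ∈ [0,y₁]`, `f m ≤ max (f 0) (f y₁) = 0 ≤ q`,
contradiction.  If `y₁ < m`: slopes of the convex `f`: `(f m - f y₁)/(m - y₁) ≤ (f h - f (h-m))/m < (q+1)/m` (as `m ≤ h - m`), so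
`f m < -1 + (m - y₁)(q+1)/m ≤ -1 + q + 1 = q`, contradiction.
STEP 4.  `f = lft K` satisfies the hypotheses (`⌈lft K m⌉ = q+1`; `⌈lft K (h-m)⌉ = xh - q` gives `lft K (h-m) > xh - q - 1`,
so `lft K h - lft K (h-m) < q + 1`).  So no point of `K` has first coordinate `≤ -1` (`(x,i) ∈ K` gives `lft K i ≤ x`);
`(0,0) ∈ K`; so `supp K (-1,0) = 0`, and `supp H (-1,0) = 0` (`supp_eq_pos`), and `supp S (1,0) = xh + M - 1` for both (third
part of `supp_eq_pos` for `P` and for `P.symm`, with `q = 1`, `p = 0`).  Hence (`hull_le_supp`) for `S = H, K`, `y ∈ [0,h]`: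
`lft S y ≥ 0 = lft S 0`, `rgt S y ≤ xh + M - 1 = rgt S h`.  A convex function on `[0,h]` with minimum at `0` is nondecreasing;
a concave function with maximum at `h` is nondecreasing.
STEP 5.  The same for the flipped pair: `(flip K, flip H)` with `q' = m - 1 - q ≥ 0` and `f = lft (flip H) = y + (L-1) - rgt H y`:
`f 0 = 0`, `f m = m + L - 1 - rgt H m > m + L - 1 - (q + L) = q'` (`⌊rgt H m⌋ = q + L - 1`), `f h - f (h-m) = m - (rgt H h - rgt H
(h-m)) < m - q = q' + 1` (`⌊rgt H (h-m)⌋ = xh+M-2-q`, so `rgt H (h-m) < xh + M - 1 - q`).  So by STEP 3 `y + (L-1) - rgt H y > -1` on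
`[0,h]`: no point of `H` has `x - y ≥ L` (integers), so `supp H (1,-1) = L - 1` (attained at `(L-1,0)`), `supp K (1,-1) = L - 1`
and `supp S (-1,1) = h - xh` (`supp_eq_neg 1 1`, third part, for `P` and `P.symm`).  Hence `rgt S y - y ≤ L - 1 = rgt S 0 - 0` and
`lft S y - y ≥ xh - h = lft S h - h`.  The concave function `rgt S y - y` has its maximum at `0`, so it is nonincreasing; the
convex function `lft S y - y` has its minimum at `h`, so it is nonincreasing.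
STEP 4 and STEP 5 together: increments of all four functions are in `[0,1]`.
-/

open scoped Pointwise

namespace Pool.Agent.Lib.MP_bb0bab_co

variable {H K : Finset (ℤ × ℤ)} {L M h : ℕ} {xh : ℤ}

theorem StripPair.exH0 (P : StripPair H K L M h xh) : ∃ x : ℤ, (x, 0) ∈ H :=
  ⟨0, (P.botH 0).2 ⟨le_rfl, by exact_mod_cast P.hL⟩⟩

theorem StripPair.exHh (P : StripPair H K L M h xh) : ∃ x : ℤ, (x, (h : ℤ)) ∈ H :=
  ⟨xh, (P.topH xh).2 ⟨le_rfl, by have := P.hM; omega⟩⟩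

theorem StripPair.exK0 (P : StripPair H K L M h xh) : ∃ x : ℤ, (x, 0) ∈ K :=
  ⟨0, (P.botK 0).2 ⟨le_rfl, by exact_mod_cast P.hL⟩⟩

theorem StripPair.exKh (P : StripPair H K L M h xh) : ∃ x : ℤ, (x, (h : ℤ)) ∈ K :=
  ⟨xh, (P.topK xh).2 ⟨le_rfl, by have := P.hM; omega⟩⟩

theorem disc_lt (P : StripPair H K L M h xh) (m : ℕ) (hm : 1 ≤ m) (hmh : m ≤ h) (q : ℤ)
    (hH : ⌈lft H m⌉ ≤ q) (hK : q < ⌈lft K m⌉) : q < m := by
  have h1 : lft H m ≤ q := Int.ceil_le.1 hH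
  have h2 : (q : ℝ) < lft K m := Int.lt_ceil.1 hK
  have hm0 : (0 : ℝ) ≤ m := Nat.cast_nonneg m
  have hmh' : (m : ℝ) ≤ h := by exact_mod_cast hmh
  obtain ⟨_, c2, c3, _⟩ := P.common_point hm0 hmh'
  have hmem : ((q : ℝ), (m : ℝ)) ∈ hull H :=
    (mem_hull_iff P.rowsH P.exH0 P.exHh hm0 hmh' (q : ℝ)).2 ⟨h1, by linarith⟩
  obtain ⟨σ, _, hσ1, hσ⟩ := strip_line P hm0 hmh' hmem h2
  have h3 := hσ 0 le_rfl (by positivity)
  rw [(bdry_bot P.hL P.rowsK P.botK P.exKh).1] at h3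
  have hm1 : (1 : ℝ) ≤ m := by exact_mod_cast hm
  have h4 : (q : ℝ) < m := by nlinarith
  exact_mod_cast h4

theorem no_dip (f : ℝ → ℝ) (h m : ℕ) (q : ℤ) (hf : ConvexOn ℝ (Set.Icc 0 (h : ℝ)) f)
    (f0 : f 0 = 0) (hq : 0 ≤ q) (hm : 1 ≤ m) (hmh : 2 * m ≤ h) (h1 : (q : ℝ) < f m)
    (h2 : f h - f ((h - m : ℕ) : ℝ) < q + 1) (y : ℝ) (hy0 : 0 ≤ y) (hyh : y ≤ h) :
    -1 < f y := by
  by_contra hcon
  have hcon' : f y ≤ -1 := le_of_not_gt hcon
  have hq' : (0 : ℝ) ≤ q := by exact_mod_cast hq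
  have hm1 : (1 : ℝ) ≤ m := by exact_mod_cast hm
  have h2m : 2 * (m : ℝ) ≤ h := by exact_mod_cast hmh
  have hcast : ((h - m : ℕ) : ℝ) = (h : ℝ) - m := by
    rw [Nat.cast_sub (by omega)]
  rw [hcast] at h2
  by_cases hmy : (m : ℝ) ≤ y
  · have := hf.le_max_of_mem_Icc (x := 0) (y := y) (z := m) ⟨le_rfl, by linarith⟩
      ⟨hy0, hyh⟩ ⟨by linarith, hmy⟩
    rw [f0, max_eq_left (by linarith)] at this
    linarith
  · have hmy' : y < m := lt_of_not_ge hmy
    -- slopes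
    have hs : (f m - f y) / (m - y) ≤ (f h - f (h - m)) / m := by
      have e2 : (f h - f (h - m)) / ((h : ℝ) - (h - m)) = (f h - f (h - m)) / m := by
        congr 1
        ring
      by_cases hmm : (m : ℝ) = h - m
      · have s1 := hf.slope_mono_adjacent (x := y) (y := m) (z := h) ⟨hy0, hyh⟩
          ⟨by positivity, le_rfl⟩ hmy' (by linarith)
        have e3 : (h : ℝ) - m = m := by linarith
        have e4 : f (h - m) = f m := by rw [e3]
        rw [e4]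
        rw [e3] at s1
        exact s1
      · have hlt : (m : ℝ) < h - m := lt_of_le_of_ne (by linarith) hmm
        have s1 := hf.slope_mono_adjacent (x := y) (y := m) (z := h - m) ⟨hy0, hyh⟩
          ⟨by linarith, by linarith⟩ hmy' hlt
        have s2 := hf.slope_mono_adjacent (x := m) (y := h - m) (z := h) ⟨by linarith, by linarith⟩
          ⟨by positivity, le_rfl⟩ hlt (by linarith)
        rw [e2] at s2
        exact le_trans s1 s2
    have hpos : (0 : ℝ) < m - y := by linarith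
    rw [div_le_iff₀ hpos] at hs
    have hD : (f h - f (h - m)) / m * (m - y) < q + 1 := by
      have hmpos : (0 : ℝ) < m := by linarith
      have e : (f h - f (h - m)) / m * (m - y) = (f h - f (h - m)) * ((m - y) / m) := by
        field_simp
      rw [e]
      have ht0 : 0 < ((m : ℝ) - y) / m := div_pos hpos hmpos
      have ht1 : ((m : ℝ) - y) / m ≤ 1 := by
        rw [div_le_one hmpos]
        linarith
      calc (f h - f (h - m)) * ((m - y) / m) < (q + 1) * ((m - y) / m) :=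
            mul_lt_mul_of_pos_right h2 ht0
        _ ≤ (q + 1) * 1 := mul_le_mul_of_nonneg_left ht1 (by linarith)
        _ = q + 1 := mul_one _
    linarith

/-- a convex function with minimum at the left end is nondecreasing -/
theorem mono_of_min {f : ℝ → ℝ} {b : ℝ} (hf : ConvexOn ℝ (Set.Icc 0 b) f)
    (hmin : ∀ y, 0 ≤ y → y ≤ b → f 0 ≤ f y) {y y' : ℝ} (h0 : 0 ≤ y) (hyy : y ≤ y')
    (hb : y' ≤ b) : f y ≤ f y' := by
  have := hf.le_max_of_mem_Icc (x := 0) (y := y') (z := y) ⟨le_rfl, by linarith⟩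
    ⟨by linarith, hb⟩ ⟨h0, hyy⟩
  rwa [max_eq_right (hmin y' (by linarith) hb)] at this

/-- a convex function with minimum at the right end is nonincreasing -/
theorem anti_of_min {f : ℝ → ℝ} {b : ℝ} (hf : ConvexOn ℝ (Set.Icc 0 b) f)
    (hmin : ∀ y, 0 ≤ y → y ≤ b → f b ≤ f y) {y y' : ℝ} (h0 : 0 ≤ y) (hyy : y ≤ y')
    (hb : y' ≤ b) : f y' ≤ f y := by
  have := hf.le_max_of_mem_Icc (x := y) (y := b) (z := y') ⟨h0, by linarith⟩
    ⟨by linarith, le_rfl⟩ ⟨hyy, hb⟩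
  rwa [max_eq_left (hmin y h0 (by linarith))] at this

/-- increments of both boundary functions are nonnegative -/
theorem incr_nonneg {S : Finset (ℤ × ℤ)} {L M h : ℕ} {xh : ℤ}
    (hrows : ∀ p ∈ S, 0 ≤ p.2 ∧ p.2 ≤ h)
    (h0 : ∃ x : ℤ, (x, 0) ∈ S) (hh : ∃ x : ℤ, (x, (h : ℤ)) ∈ S)
    (hb0 : lft S 0 = 0 ∧ rgt S 0 = L - 1) (hbh : lft S h = xh ∧ rgt S h = xh + M - 1)
    (s1 : supp S (-1, 0) = 0) (s2 : supp S (1, 0) = xh + M - 1)
    {y y' : ℝ} (hy0 : 0 ≤ y) (hyy : y ≤ y') (hyh : y' ≤ h) :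
    lft S y ≤ lft S y' ∧ rgt S y ≤ rgt S y' := by
  constructor
  · refine mono_of_min (lft_convexOn hrows h0 hh) ?_ hy0 hyy hyh
    intro z hz0 hzh
    have hle := lft_le_rgt hrows h0 hh hz0 hzh
    have hmem := (mem_hull_iff hrows h0 hh hz0 hzh (lft S z)).2 ⟨le_rfl, hle⟩
    have := hull_le_supp hmem (-1, 0)
    rw [s1] at this
    push_cast at this
    rw [hb0.1]
    linarith
  · have hcv : ConvexOn ℝ (Set.Icc 0 (h : ℝ)) (fun z => - rgt S z) :=
      (rgt_concaveOn hrows h0 hh).neg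
    have := anti_of_min hcv (y := y) (y' := y') ?_ hy0 hyy hyh
    · simpa using this
    intro z hz0 hzh
    have hle := lft_le_rgt hrows h0 hh hz0 hzh
    have hmem := (mem_hull_iff hrows h0 hh hz0 hzh (rgt S z)).2 ⟨hle, le_rfl⟩
    have := hull_le_supp hmem (1, 0)
    rw [s2] at this
    push_cast at this
    rw [hbh.2]
    linarith

/-- increments of both boundary functions are at most one per unit of height -/
theorem incr_le_one {S : Finset (ℤ × ℤ)} {L M h : ℕ} {xh : ℤ}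
    (hrows : ∀ p ∈ S, 0 ≤ p.2 ∧ p.2 ≤ h)
    (h0 : ∃ x : ℤ, (x, 0) ∈ S) (hh : ∃ x : ℤ, (x, (h : ℤ)) ∈ S)
    (hb0 : lft S 0 = 0 ∧ rgt S 0 = L - 1) (hbh : lft S h = xh ∧ rgt S h = xh + M - 1)
    (s1 : supp S (1, -1) = L - 1) (s2 : supp S (-1, 1) = h - xh)
    {y y' : ℝ} (hy0 : 0 ≤ y) (hyy : y ≤ y') (hyh : y' ≤ h) :
    lft S y' ≤ lft S y + (y' - y) ∧ rgt S y' ≤ rgt S y + (y' - y) := by
  have hid : ConvexOn ℝ (Set.Icc 0 (h : ℝ)) (fun z : ℝ => z) :=
    convexOn_id (convex_Icc 0 (h : ℝ))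
  have hidn : ConvexOn ℝ (Set.Icc 0 (h : ℝ)) (fun z : ℝ => -z) :=
    (concaveOn_id (convex_Icc 0 (h : ℝ))).neg
  constructor
  · have hcv : ConvexOn ℝ (Set.Icc 0 (h : ℝ)) (fun z => lft S z + -z) :=
      (lft_convexOn hrows h0 hh).add hidn
    have := anti_of_min hcv (y := y) (y' := y') ?_ hy0 hyy hyh
    · linarith
    intro z hz0 hzh
    have hle := lft_le_rgt hrows h0 hh hz0 hzh
    have hmem := (mem_hull_iff hrows h0 hh hz0 hzh (lft S z)).2 ⟨le_rfl, hle⟩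
    have := hull_le_supp hmem (-1, 1)
    rw [s2] at this
    push_cast at this
    simp only [hbh.1]
    linarith
  · have hcv : ConvexOn ℝ (Set.Icc 0 (h : ℝ)) (fun z => - rgt S z + z) :=
      (rgt_concaveOn hrows h0 hh).neg.add hid
    have := mono_of_min hcv (y := y) (y' := y') ?_ hy0 hyy hyh
    · linarith
    intro z hz0 hzh
    have hle := lft_le_rgt hrows h0 hh hz0 hzh
    have hmem := (mem_hull_iff hrows h0 hh hz0 hzh (rgt S z)).2 ⟨hle, le_rfl⟩
    have := hull_le_supp hmem (1, -1)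
    rw [s1] at this
    push_cast at this
    simp only [hb0.2]
    linarith

theorem slopes (P : NormPair H K L M h xh) (P' : NormPair K H L M h xh) {m : ℕ} {q : ℤ}
    (D : FirstDisc H K L M h xh m q) :
    0 ≤ q ∧ q < m ∧ ∀ y y' : ℝ, 0 ≤ y → y ≤ y' → y' ≤ h →
      (lft H y ≤ lft H y' ∧ lft H y' ≤ lft H y + (y' - y)) ∧
      (lft K y ≤ lft K y' ∧ lft K y' ≤ lft K y + (y' - y)) ∧
      (rgt H y ≤ rgt H y' ∧ rgt H y' ≤ rgt H y + (y' - y)) ∧
      (rgt K y ≤ rgt K y' ∧ rgt K y' ≤ rgt K y + (y' - y)) := by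
  have Q := P.strip
  have hm := D.hm
  have hmh := D.hmh
  have hmh' : m ≤ h := by omega
  have hmR : (m : ℝ) ≤ h := by exact_mod_cast hmh'
  have hm0 : (0 : ℝ) ≤ m := Nat.cast_nonneg m
  have hcast : ((h - m : ℕ) : ℝ) = (h : ℝ) - m := by
    rw [Nat.cast_sub hmh']
  have hhm0 : (0 : ℝ) ≤ h - m := by linarith
  have hhmh : (h : ℝ) - m ≤ h := by linarith
  have hh0 : (0 : ℝ) ≤ h := Nat.cast_nonneg h
  have bH0 := bdry_bot Q.hL Q.rowsH Q.botH Q.exHh
  have bK0 := bdry_bot Q.hL Q.rowsK Q.botK Q.exKh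
  have bHh := bdry_top Q.hM Q.rowsH Q.exH0 Q.topH
  have bKh := bdry_top Q.hM Q.rowsK Q.exK0 Q.topK
  -- inequalities from the discrepancy
  have dH1 : lft H m ≤ q := by
    have := Int.le_ceil (lft H m)
    rw [D.lowH.1] at this
    exact this
  have dH2 : rgt H m < q + L := by
    have := Int.lt_floor_add_one (rgt H m)
    rw [D.lowH.2] at this
    push_cast at this
    linarith
  have dK1 : (q : ℝ) < lft K m := by
    apply Int.lt_ceil.1
    rw [D.lowK.1]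
    omega
  have dK2 : (q : ℝ) + L ≤ rgt K m := by
    have := Int.floor_le (rgt K m)
    rw [D.lowK.2] at this
    push_cast at this
    linarith
  have dK3 : (xh : ℝ) - q - 1 < lft K (h - m) := by
    have h1 : xh - q - 1 < ⌈lft K ((h - m : ℕ) : ℝ)⌉ := by
      rw [D.topK.1]
      omega
    have := Int.lt_ceil.1 h1
    rw [hcast] at this
    push_cast at this
    exact this
  have dH3 : rgt H (h - m) < xh + M - 1 - q := by
    have := Int.lt_floor_add_one (rgt H ((h - m : ℕ) : ℝ))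
    rw [D.topH.2, hcast] at this
    push_cast at this
    linarith
  -- step 1
  have hqm : q < m := by
    refine disc_lt Q m hm hmh' q ?_ ?_
    · rw [D.lowH.1]
    · rw [D.lowK.1]
      omega
  -- step 2
  have F := Q.symm.flipped
  have flH : ∀ {z : ℝ}, 0 ≤ z → z ≤ h → lft (H.image (flip L)) z = z + (L - 1) - rgt H z :=
    fun hz0 hzh => (lft_flip L Q.rowsH Q.exH0 Q.exHh hz0 hzh).1
  have flK : ∀ {z : ℝ}, 0 ≤ z → z ≤ h → lft (K.image (flip L)) z = z + (L - 1) - rgt K z :=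
    fun hz0 hzh => (lft_flip L Q.rowsK Q.exK0 Q.exKh hz0 hzh).1
  have hq0 : 0 ≤ q := by
    have h1 : ((m : ℤ) - 1 - q) < m := by
      refine disc_lt F m hm hmh' _ ?_ ?_
      · rw [Int.ceil_le, flK hm0 hmR]
        push_cast
        linarith
      · rw [Int.lt_ceil, flH hm0 hmR]
        push_cast
        linarith
    omega
  refine ⟨hq0, hqm, ?_⟩
  -- step 3, 4
  have hdipK : ∀ y : ℝ, 0 ≤ y → y ≤ h → -1 < lft K y := by
    intro y hy0 hyh
    refine no_dip (lft K) h m q (lft_convexOn Q.rowsK Q.exK0 Q.exKh) bK0.1 hq0 hm hmh dK1 ?_ y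
      hy0 hyh
    rw [bKh.1, hcast]
    linarith
  have sK1 : supp K (-1, 0) = 0 := by
    have h00 : ((0 : ℤ), (0 : ℤ)) ∈ K := (P.botK 0).2 ⟨le_rfl, by have := P.hM; have := P.hLM; omega⟩
    have : supp K (-1, 0) = ev (-1, 0) (0, 0) := by
      refine supp_eq_of h00 _ ?_
      intro p hp
      have hr := P.rowsK p hp
      have hmem := mem_hull_of_mem hp
      have hy0 : (0 : ℝ) ≤ (p.2 : ℝ) := by exact_mod_cast hr.1
      have hyh : (p.2 : ℝ) ≤ h := by exact_mod_cast hr.2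
      have h1 := ((mem_hull_iff Q.rowsK Q.exK0 Q.exKh hy0 hyh _).1 hmem).1
      have h2 := hdipK _ hy0 hyh
      have h3 : (-1 : ℝ) < (p.1 : ℝ) := by linarith
      have h4 : -1 < p.1 := by exact_mod_cast h3
      simp only [ev]
      omega
    rw [this]
    simp [ev]
  have e10 := P.supp_eq_pos 1 0 (by norm_num) le_rfl
  simp only [neg_zero] at e10
  have sH1 : supp H (-1, 0) = 0 := by rw [e10.2.1, sK1]
  have sH2 : supp H (1, 0) = xh + M - 1 := by
    have := e10.2.2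
    rw [sH1] at this
    linarith
  have sK2 : supp K (1, 0) = xh + M - 1 := by rw [← e10.1, sH2]
  -- step 5
  have hdipH : ∀ y : ℝ, 0 ≤ y → y ≤ h → -1 < lft (H.image (flip L)) y := by
    intro y hy0 hyh
    refine no_dip (lft (H.image (flip L))) h m (m - 1 - q)
      (lft_convexOn F.rowsK F.exK0 F.exKh) ?_ (by omega) hm hmh ?_ ?_ y hy0 hyh
    · rw [flH le_rfl hh0, bH0.2]
      ring
    · rw [flH hm0 hmR]
      push_cast
      linarith
    · rw [hcast, flH hh0 le_rfl, flH hhm0 hhmh, bHh.2]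
      push_cast
      linarith
  have sH3 : supp H (1, -1) = L - 1 := by
    have h00 : (((L : ℤ) - 1), (0 : ℤ)) ∈ H :=
      (P.botH _).2 ⟨by have := P.hM; have := P.hLM; omega, by omega⟩
    have : supp H (1, -1) = ev (1, -1) ((L : ℤ) - 1, 0) := by
      refine supp_eq_of h00 _ ?_
      intro p hp
      have hr := P.rowsH p hp
      have hmem := mem_hull_of_mem hp
      have hy0 : (0 : ℝ) ≤ (p.2 : ℝ) := by exact_mod_cast hr.1
      have hyh : (p.2 : ℝ) ≤ h := by exact_mod_cast hr.2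
      have h1 := ((mem_hull_iff Q.rowsH Q.exH0 Q.exHh hy0 hyh _).1 hmem).2
      have h2 := hdipH _ hy0 hyh
      rw [flH hy0 hyh] at h2
      have h3 : (p.1 : ℝ) < (p.2 : ℝ) + L := by linarith
      have h4 : p.1 < p.2 + L := by exact_mod_cast h3
      simp only [ev]
      omega
    rw [this]
    simp [ev]
  have e11 := P.supp_eq_neg 1 1 (by norm_num) le_rfl
  have sH4 : supp H (-1, 1) = h - xh := by
    have := e11.2.2
    rw [sH3] at this
    linarith
  have sK3 : supp K (1, -1) = L - 1 := by rw [← e11.1, sH3]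
  have sK4 : supp K (-1, 1) = h - xh := by rw [← e11.2.1, sH4]
  intro y y' hy0 hyy hyh
  have iH := incr_nonneg (L := L) (M := M) (xh := xh) Q.rowsH Q.exH0 Q.exHh bH0 bHh sH1 sH2
    hy0 hyy hyh
  have iK := incr_nonneg (L := L) (M := M) (xh := xh) Q.rowsK Q.exK0 Q.exKh bK0 bKh sK1 sK2
    hy0 hyy hyh
  have jH := incr_le_one (L := L) (M := M) (xh := xh) Q.rowsH Q.exH0 Q.exHh bH0 bHh sH3 sH4
    hy0 hyy hyh
  have jK := incr_le_one (L := L) (M := M) (xh := xh) Q.rowsK Q.exK0 Q.exKh bK0 bKh sK3 sK4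
    hy0 hyy hyh
  exact ⟨⟨iH.1, jH.1⟩, ⟨iK.1, jK.1⟩, ⟨iH.2, jH.2⟩, ⟨iK.2, jK.2⟩⟩

end Pool.Agent.Lib.MP_bb0bab_co
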