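import Pool.Agent.Lib.MP_bb0bab_co.FE13b
import Pool.Agent.Lib.MP_bb0bab_co.FE19c
import Pool.Agent.Lib.MP_bb0bab_co.FE20

/-!
# FE21 output of the front end: the structure `Germ`
-/

open scoped Pointwise

namespace Pool.Agent.Lib.MP_bb0bab_co

theorem conv_step {f : ℝ → ℝ} {h : ℕ} (hf : ConvexOn ℝ (Set.Icc 0 (h : ℝ)) f) (i : ℕ)
    (hi : i + 2 ≤ h) : f ((i + 1 : ℕ) : ℝ) - f (i : ℝ) ≤ f ((i + 2 : ℕ) : ℝ) - f ((i + 1 : ℕ) : ℝ) := by
  have h1 : (i : ℝ) ∈ Set.Icc 0 (h : ℝ) := by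
    constructor
    · positivity
    · exact_mod_cast (by omega : i ≤ h)
  have h2 : ((i + 2 : ℕ) : ℝ) ∈ Set.Icc 0 (h : ℝ) := by
    constructor
    · positivity
    · exact_mod_cast hi
  have := hf.2 h1 h2 (by norm_num : (0 : ℝ) ≤ 1 / 2) (by norm_num : (0 : ℝ) ≤ 1 / 2) (by norm_num)
  have e : (1 / 2 : ℝ) • (i : ℝ) + (1 / 2 : ℝ) • ((i + 2 : ℕ) : ℝ) = ((i + 1 : ℕ) : ℝ) := by
    simp only [smul_eq_mul]
    push_cast
    ring
  rw [e] at this
  simp only [smul_eq_mul] at this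
  linarith

theorem conc_step {f : ℝ → ℝ} {h : ℕ} (hf : ConcaveOn ℝ (Set.Icc 0 (h : ℝ)) f) (i : ℕ)
    (hi : i + 2 ≤ h) : f ((i + 2 : ℕ) : ℝ) - f ((i + 1 : ℕ) : ℝ) ≤ f ((i + 1 : ℕ) : ℝ) - f (i : ℝ) := by
  have h1 : (i : ℝ) ∈ Set.Icc 0 (h : ℝ) := by
    constructor
    · positivity
    · exact_mod_cast (by omega : i ≤ h)
  have h2 : ((i + 2 : ℕ) : ℝ) ∈ Set.Icc 0 (h : ℝ) := by
    constructor
    · positivity
    · exact_mod_cast hi
  have := hf.2 h1 h2 (by norm_num : (0 : ℝ) ≤ 1 / 2) (by norm_num : (0 : ℝ) ≤ 1 / 2) (by norm_num)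
  have e : (1 / 2 : ℝ) • (i : ℝ) + (1 / 2 : ℝ) • ((i + 2 : ℕ) : ℝ) = ((i + 1 : ℕ) : ℝ) := by
    simp only [smul_eq_mul]
    push_cast
    ring
  rw [e] at this
  simp only [smul_eq_mul] at this
  linarith

theorem germ_of_disc {H K : Finset (ℤ × ℤ)} {L M h : ℕ} {xh : ℤ} (P : NormPair H K L M h xh)
    {m : ℕ} {q : ℤ} (D : FirstDisc H K L M h xh m q) :
    Germ H K L M h xh (fun i => lft H i) (fun i => lft K i) (fun i => rgt H i - (L - 1))
      (fun i => rgt K i - (L - 1)) m q := by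
  have P' : NormPair K H L M h xh := P.symm
  have hM := P.hM
  have hLM := P.hLM
  have hL : 1 ≤ L := by omega
  have hH0 : ∃ x : ℤ, (x, 0) ∈ H := ⟨0, (P.botH 0).2 ⟨le_rfl, by omega⟩⟩
  have hK0 : ∃ x : ℤ, (x, 0) ∈ K := ⟨0, (P.botK 0).2 ⟨le_rfl, by omega⟩⟩
  have hHh : ∃ x : ℤ, (x, (h : ℤ)) ∈ H := ⟨xh, (P.topH xh).2 ⟨le_rfl, by omega⟩⟩
  have hKh : ∃ x : ℤ, (x, (h : ℤ)) ∈ K := ⟨xh, (P.topK xh).2 ⟨le_rfl, by omega⟩⟩
  obtain ⟨bH, bH'⟩ := bdry_bot hL P.rowsH P.botH hHh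
  obtain ⟨bK, bK'⟩ := bdry_bot hL P.rowsK P.botK hKh
  obtain ⟨tH, tH'⟩ := bdry_top hM P.rowsH hH0 P.topH
  obtain ⟨tK, tK'⟩ := bdry_top hM P.rowsK hK0 P.topK
  have fl : ∀ r : ℝ, ⌊r - ((L : ℝ) - 1)⌋ = ⌊r⌋ - ((L : ℤ) - 1) := by
    intro r
    have e : r - ((L : ℝ) - 1) = r - (((L : ℤ) - 1 : ℤ) : ℝ) := by push_cast; ring
    rw [e, Int.floor_sub_intCast]
  have fl' : ∀ r : ℝ, ⌊r - ((L : ℝ) - 1)⌋ + (L : ℤ) - 1 = ⌊r⌋ := by
    intro r
    rw [fl]
    ring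
  obtain ⟨-, -, sl⟩ := slopes P P' D
  have sl' : ∀ i : ℕ, i < h →
      (lft H (i : ℝ) ≤ lft H ((i + 1 : ℕ) : ℝ) ∧ lft H ((i + 1 : ℕ) : ℝ) ≤ lft H (i : ℝ) + 1) ∧
      (lft K (i : ℝ) ≤ lft K ((i + 1 : ℕ) : ℝ) ∧ lft K ((i + 1 : ℕ) : ℝ) ≤ lft K (i : ℝ) + 1) ∧
      (rgt H (i : ℝ) ≤ rgt H ((i + 1 : ℕ) : ℝ) ∧ rgt H ((i + 1 : ℕ) : ℝ) ≤ rgt H (i : ℝ) + 1) ∧
      (rgt K (i : ℝ) ≤ rgt K ((i + 1 : ℕ) : ℝ) ∧ rgt K ((i + 1 : ℕ) : ℝ) ≤ rgt K (i : ℝ) + 1) := by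
    intro i hi
    have := sl (i : ℝ) ((i + 1 : ℕ) : ℝ) (by positivity) (by push_cast; linarith)
      (by exact_mod_cast (by omega : i + 1 ≤ h))
    have e : ((i + 1 : ℕ) : ℝ) - (i : ℝ) = 1 := by push_cast; ring
    rw [e] at this
    exact this
  have cH := lft_convexOn P.rowsH hH0 hHh
  have cK := lft_convexOn P.rowsK hK0 hKh
  have dH := rgt_concaveOn P.rowsH hH0 hHh
  have dK := rgt_concaveOn P.rowsK hK0 hKh
  refine {
    convH := P.convH
    convK := P.convK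
    hcov := P.hcov
    hM := hM
    hLM := hLM
    hm := D.hm
    hmh := D.hmh
    rowsH := P.rowsH
    rowsK := P.rowsK
    memH := ?_
    memK := ?_
    αH0 := ?_
    αK0 := ?_
    βH0 := ?_
    βK0 := ?_
    αHh := tH
    αKh := tK
    βHh := ?_
    βKh := ?_
    αβH := ?_
    αβK := ?_
    αH_inc := fun i hi => (sl' i hi).1
    αK_inc := fun i hi => (sl' i hi).2.1
    βH_inc := ?_
    βK_inc := ?_
    αH_conv := fun i hi => conv_step cH i hi
    αK_conv := fun i hi => conv_step cK i hi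
    βH_conc := ?_
    βK_conc := ?_
    ident := ?_
    low := ?_
    top := ?_
    lowH := ?_
    lowK := ?_
    topK := ?_
    topH := ?_ }
  · intro x i hi
    simp only [fl']
    exact mem_iff_row P.convH P.rowsH hH0 hHh i hi x
  · intro x i hi
    simp only [fl']
    exact mem_iff_row P.convK P.rowsK hK0 hKh i hi x
  · simp only [Nat.cast_zero]
    exact bH
  · simp only [Nat.cast_zero]
    exact bK
  · simp only [Nat.cast_zero]
    rw [bH']
    ring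
  · simp only [Nat.cast_zero]
    rw [bK']
    ring
  · rw [tH']
    ring
  · rw [tK']
    ring
  · intro i hi
    have := lft_le_rgt P.rowsH hH0 hHh (y := (i : ℝ)) (by positivity) (by exact_mod_cast hi)
    linarith
  · intro i hi
    have := lft_le_rgt P.rowsK hK0 hKh (y := (i : ℝ)) (by positivity) (by exact_mod_cast hi)
    linarith
  · intro i hi
    have := (sl' i hi).2.2.1
    constructor
    · linarith [this.1]
    · linarith [this.2]
  · intro i hi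
    have := (sl' i hi).2.2.2
    constructor
    · linarith [this.1]
    · linarith [this.2]
  · intro i hi
    have := conc_step dH i hi
    linarith
  · intro i hi
    have := conc_step dK i hi
    linarith
  · intro s hs
    simp only [fl']
    exact row_identity P.convH P.convK P.hcov P.rowsH P.rowsK hH0 hHh hK0 hKh (xh + M - 1) s hs
  · intro i hi
    simp only [fl]
    have := D.low i hi
    exact ⟨this.1, by rw [this.2]⟩
  · intro i hi
    simp only [fl]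
    have := D.top i hi
    exact ⟨this.1, by rw [this.2]⟩
  · simp only [fl]
    have := D.lowH
    exact ⟨this.1, by rw [this.2]; ring⟩
  · simp only [fl]
    have := D.lowK
    exact ⟨this.1, by rw [this.2]; ring⟩
  · simp only [fl]
    have := D.topK
    exact ⟨this.1, by rw [this.2]; ring⟩
  · simp only [fl]
    have := D.topH
    exact ⟨this.1, by rw [this.2]; ring⟩

/-- MAIN THEOREM of the front end: it is enough to treat germs -/
theorem front_end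
    (hgerm : ∀ (H K : Finset (ℤ × ℤ)) (L M h : ℕ) (xl : ℤ) (αH αK βH βK : ℕ → ℝ) (m : ℕ) (q : ℤ),
      Germ H K L M h xl αH αK βH βK m q → Arises H K)
    {H K : Finset (ℤ × ℤ)} (hH : H.Nonempty) (hK : K.Nonempty) (cH : LConv H) (cK : LConv K)
    (hc : ∀ x, cov H x = cov K x) (hnt : ¬ Trivial H K) : Arises H K := by
  obtain ⟨H', K', L, M, h, xh, P, hP⟩ := exists_norm hH hK cH cK hc hnt
  apply hP
  obtain ⟨m, q, D | D⟩ := first_disc P
  · exact hgerm _ _ _ _ _ _ _ _ _ _ _ _ (germ_of_disc P D)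
  · exact arises_symm (hgerm _ _ _ _ _ _ _ _ _ _ _ _ (germ_of_disc P.symm D))

end Pool.Agent.Lib.MP_bb0bab_co
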