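import Pool.Agent.Lib.MP_bb0bab_co.CX1
import Pool.Agent.Lib.MP_bb0bab_co.FE21

/-!
# CX2 the front end for the explicit family (same proof as FE13b and FE21)
-/

open scoped Pointwise

namespace Pool.Agent.Lib.MP_bb0bab_co

theorem exists_norm_fam {H K : Finset (ℤ × ℤ)} (hH : H.Nonempty) (hK : K.Nonempty)
    (cH : LConv H) (cK : LConv K) (hc : ∀ x, cov H x = cov K x) (hnt : ¬ Trivial H K) :
    ∃ (H' K' : Finset (ℤ × ℤ)) (L M h : ℕ) (xh : ℤ), NormPair H' K' L M h xh ∧
      (Fam H' K' → Fam H K) := by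
  classical
  obtain ⟨B, hB⟩ := edge_bound hH cH
  obtain ⟨a, b, c, d, hdet, hcd, hear⟩ := ear_lemma {g | Prim g ∧ edge H g ≠ edge H (-g)} (by
      rintro g ⟨h1, h2⟩
      refine ⟨h1, FE13b_prim_neg h1, ?_⟩
      rw [neg_neg]
      exact h2.symm) (by
      by_contra hcon
      rw [Set.not_nonempty_iff_eq_empty] at hcon
      have hs : ∀ g, Prim g → edge H g = edge H (-g) := by
        intro g hg
        by_contra h
        have : g ∈ ({g | Prim g ∧ edge H g ≠ edge H (-g)} : Set (ℤ × ℤ)) := ⟨hg, h⟩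
        rw [hcon] at this
        exact this
      obtain ⟨t, ht⟩ := translate_of_symmetric hH hK cH cK hc hs
      refine hnt ⟨-t, Or.inl ?_⟩
      rw [ht, Finset.image_image]
      conv_lhs => rw [← Finset.image_id (s := K)]
      refine Finset.image_congr fun p _ => ?_
      simp) B (by
      rintro g ⟨h1, h2⟩
      have h3 := (face_eq hH cH h1).1
      have h4 := (face_eq hH cH (FE13b_prim_neg h1)).1
      rcases lt_or_ge (edge H g) 1 with h5 | h5
      · have h6 : 1 ≤ edge H (-g) := by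
          rcases lt_or_ge (edge H (-g)) 1 with h6 | h6
          · exfalso; apply h2; omega
          · exact h6
        have h7 := hB (-g) (FE13b_prim_neg h1) h6
        simpa using h7
      · exact hB g h1 h5)
  -- choose the sign
  obtain ⟨a', b', c', d', hdet', hlt, hsym⟩ : ∃ a' b' c' d' : ℤ, a' * d' - b' * c' = 1 ∧
      edge (H.image (lin a' b' c' d')) (0, 1) < edge (H.image (lin a' b' c' d')) (0, -1) ∧
      ∀ q p : ℤ, 0 < q → Prim (q, p) → (0 < p ∨ p < -q) →
        edge (H.image (lin a' b' c' d')) (q, p) = edge (H.image (lin a' b' c' d')) (-q, -p) := by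
    have hs : ∀ q p : ℤ, 0 < q → Prim (q, p) → (0 < p ∨ p < -q) →
        edge H (a * q + c * p, b * q + d * p) = edge H (-(a * q + c * p, b * q + d * p)) := by
      intro q p hq hqp hor
      by_contra hcon
      have h1 := hear q p hq ⟨FE13b_prim_lin hdet hqp, hcon⟩
      rcases hor with h | h <;> omega
    obtain ⟨-, hne⟩ := hcd
    rcases lt_or_gt_of_ne hne with h | h
    · refine ⟨a, b, c, d, hdet, ?_, ?_⟩
      · rw [edge_lin hH a b c d (Or.inl hdet), edge_lin hH a b c d (Or.inl hdet)]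
        simpa using h
      · intro q p hq hqp hor
        rw [edge_lin hH a b c d (Or.inl hdet), edge_lin hH a b c d (Or.inl hdet)]
        have e1 : ((a * (q, p).1 + c * (q, p).2, b * (q, p).1 + d * (q, p).2) : ℤ × ℤ) =
            (a * q + c * p, b * q + d * p) := rfl
        have e2 : ((a * (-q, -p).1 + c * (-q, -p).2, b * (-q, -p).1 + d * (-q, -p).2) : ℤ × ℤ) =
            -(a * q + c * p, b * q + d * p) := Prod.ext (by simp; ring) (by simp; ring)
        rw [e1, e2]
        exact hs q p hq hqp hor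
    · have hdet2 : (-a) * (-d) - (-b) * (-c) = 1 := by linarith
      refine ⟨-a, -b, -c, -d, hdet2, ?_, ?_⟩
      · rw [edge_lin hH _ _ _ _ (Or.inl hdet2), edge_lin hH _ _ _ _ (Or.inl hdet2)]
        simpa using h
      · intro q p hq hqp hor
        rw [edge_lin hH _ _ _ _ (Or.inl hdet2), edge_lin hH _ _ _ _ (Or.inl hdet2)]
        have e1 : ((-a * (q, p).1 + -c * (q, p).2, -b * (q, p).1 + -d * (q, p).2) : ℤ × ℤ) =
            -(a * q + c * p, b * q + d * p) := Prod.ext (by simp; ring) (by simp; ring)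
        have e2 : ((-a * (-q, -p).1 + -c * (-q, -p).2, -b * (-q, -p).1 + -d * (-q, -p).2) : ℤ × ℤ) =
            (a * q + c * p, b * q + d * p) := Prod.ext (by simp) (by simp)
        rw [e1, e2]
        exact (hs q p hq hqp hor).symm
  have hcov : ∀ y, cov (H.image (lin a' b' c' d')) y = cov (K.image (lin a' b' c' d')) y := by
    intro y
    have hy : y = lin a' b' c' d' (d' * y.1 - b' * y.2, a' * y.2 - c' * y.1) := by
      refine Prod.ext ?_ ?_
      · simp only [lin]
        linear_combination (-y.1) * hdet'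
      · simp only [lin]
        linear_combination (-y.2) * hdet'
    rw [hy, cov_lin _ _ _ _ (Or.inl hdet'), cov_lin _ _ _ _ (Or.inl hdet'), hc]
  have nH := hH.image (lin a' b' c' d')
  have nK := hK.image (lin a' b' c' d')
  have cH' := lconv_lin cH a' b' c' d' (Or.inl hdet')
  have cK' := lconv_lin cK a' b' c' d' (Or.inl hdet')
  have hnt' : ¬ Trivial (H.image (lin a' b' c' d')) (K.image (lin a' b' c' d')) :=
    fun h => hnt (trivial_lin a' b' c' d' (Or.inl hdet') h)
  have hback : Fam (H.image (lin a' b' c' d')) (K.image (lin a' b' c' d')) → Fam H K :=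
    fun h => fam_lin a' b' c' d' (Or.inl hdet') h
  generalize H.image (lin a' b' c' d') = H₂ at *
  generalize K.image (lin a' b' c' d') = K₂ at *
  have hneg : -((0 : ℤ), (1 : ℤ)) = (0, -1) := rfl
  have hneg' : -((0 : ℤ), (-1 : ℤ)) = (0, 1) := rfl
  rcases edge_pair nH nK cH' cK' hcov FE13a_p2 with ⟨h1, h2⟩ | ⟨h1, h2⟩
  · rw [hneg] at h2
    obtain ⟨s, t, L, M, h, xh, P⟩ := norm_translate nH nK cH' cK' hcov h2 h1 hlt hsym hnt'
    exact ⟨_, _, L, M, h, xh, P, fun h => hback (fam_translate s t h)⟩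
  · rw [hneg] at h1 h2
    have cK3 : LConv (K₂.image (fun p => -p)) := by
      rw [FE13b_neg_image]
      exact lconv_lin cK' _ _ _ _ (by norm_num)
    obtain ⟨s, t, L, M, h, xh, P⟩ := norm_translate nH (nK.image _) cH' cK3
      (fun x => by rw [cov_neg, hcov]) (by rw [FE13b_edge_neg nK, hneg', h2])
      (by rw [FE13b_edge_neg nK, hneg, h1]) hlt hsym (fun h => hnt' (trivial_neg_right h))
    exact ⟨_, _, L, M, h, xh, P, fun h => hback (fam_neg_right (fam_translate s t h))⟩

theorem front_end_fam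
    (hgerm : ∀ (H K : Finset (ℤ × ℤ)) (L M h : ℕ) (xl : ℤ) (αH αK βH βK : ℕ → ℝ) (m : ℕ) (q : ℤ),
      Germ H K L M h xl αH αK βH βK m q → Fam H K)
    {H K : Finset (ℤ × ℤ)} (hH : H.Nonempty) (hK : K.Nonempty) (cH : LConv H) (cK : LConv K)
    (hc : ∀ x, cov H x = cov K x) (hnt : ¬ Trivial H K) : Fam H K := by
  obtain ⟨H', K', L, M, h, xh, P, hP⟩ := exists_norm_fam hH hK cH cK hc hnt
  apply hP
  obtain ⟨m, q, D | D⟩ := first_disc P
  · exact hgerm _ _ _ _ _ _ _ _ _ _ _ _ (germ_of_disc P D)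
  · exact fam_symm (hgerm _ _ _ _ _ _ _ _ _ _ _ _ (germ_of_disc P.symm D))

end Pool.Agent.Lib.MP_bb0bab_co
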