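import Pool.Agent.Lib.MP_bb0bab_co.FIN

/-!
# CX3 the explicit form of the blocks

The blocks of `FIN` with the explicit word of the first block and the increments of the positions
of the blocks.
-/

namespace Pool.Agent.Lib.MP_bb0bab_co

open LaurentPolynomial

theorem win2_lo {h : ℕ} {f : ℕ → ℝ} (hf : ConvN h f) {i j : ℕ} (hij : i ≤ j) (n : ℕ)
    (hn : j + 2 * n ≤ h) : (n : ℝ) * (f (i + 2) - f i) ≤ f (j + 2 * n) - f j := by
  induction n with
  | zero => simp
  | succ n ih =>
    have h1 := ih (by omega)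
    have h2 := hf.win (i := i) (j := j + 2 * n) (w := 2) (by omega) (by omega)
    have e : j + 2 * (n + 1) = j + 2 * n + 2 := by ring
    rw [e]
    push_cast
    linarith

theorem win2_hi {h : ℕ} {f : ℕ → ℝ} (hf : ConvN h f) {i j : ℕ} (hj : j + 2 ≤ h) (n : ℕ)
    (hn : i + 2 * n ≤ j + 2) : f (i + 2 * n) - f i ≤ (n : ℝ) * (f (j + 2) - f j) := by
  induction n with
  | zero => simp
  | succ n ih =>
    have h1 := ih (by omega)
    have h2 := hf.win (i := i + 2 * n) (j := j) (w := 2) (by omega) (by omega)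
    have e : i + 2 * (n + 1) = i + 2 * n + 2 := by ring
    rw [e]
    push_cast
    linarith

theorem IncN.mono_add {h : ℕ} {f : ℕ → ℝ} (hf : IncN h f) (i n : ℕ) (hn : i + n ≤ h) :
    f i ≤ f (i + n) := by
  induction n with
  | zero => simp
  | succ n ih =>
    have h1 := ih (by omega)
    have h2 := (hf (i + n) (by omega)).1
    have e : i + (n + 1) = i + n + 1 := by ring
    rw [e]
    linarith

/-- the rows come in `J ≥ 2` blocks of `N` rows -/
structure RowsJ (C : Cd) (N J : ℕ) (V V' : ℕ → ℤ) (al rh : ℕ → ℤ) : Prop where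
  two : 2 ≤ J
  hJ : C.h + 1 = J * N
  row : ∀ t < J, ∀ i < N,
    C.a (t * N + i) = al t + V i ∧ C.b (t * N + i) + C.L = rh t + V i ∧
    C.a' (t * N + i) = al t + V' i ∧ C.b' (t * N + i) + C.L = rh t + V' i

/-- the increments of the positions of the blocks -/
structure Incr (J : ℕ) (v : ℤ) (al rh : ℕ → ℤ) : Prop where
  il : ∀ t, t + 1 < J → al (t + 1) = al t + v ∨ al (t + 1) = al t + v + 1
  ir : ∀ t, t + 1 < J → rh (t + 1) = rh t + v ∨ rh (t + 1) = rh t + v + 1
  ml : ∀ t, t + 2 < J → al (t + 1) = al t + v + 1 → al (t + 2) = al (t + 1) + v + 1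
  mr : ∀ t, t + 2 < J → rh (t + 1) = rh t + v → rh (t + 2) = rh (t + 1) + v

/-- the word of the first block of `H` -/
def Shp (k : ℕ) (V : ℕ → ℤ) (v : ℤ) : Prop :=
  (v = 1 ∧ (∀ i ≤ k, V i = 0) ∧ ∀ i, k < i → i < 2 * k + 1 → V i = 1) ∨
  (v = k ∧ (∀ l ≤ k, V (2 * l) = l) ∧ ∀ l < k, V (2 * l + 1) = l) ∨
  (v = 2 * k - 1 ∧ (∀ i < k, V i = i) ∧ ∀ i, k ≤ i → i < 2 * k + 1 → V i = i - 1)

namespace Cd

variable {C : Cd}

/-- the explicit form of the block structure -/
def HexR (C : Cd) : Prop :=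
  ∃ (k J : ℕ) (V V' al rh : ℕ → ℤ) (v A : ℤ), 1 ≤ k ∧ RowsJ C (2 * k + 1) J V V' al rh ∧
    Incr J v al rh ∧ Shp k V v ∧ ∀ i < 2 * k + 1, V' i = A - V (2 * k + 1 - 1 - i)

theorem rows_of_copies {N : ℕ} (hE : C.Ev N) {A : ℤ}
    (hsym : ∀ i < N, C.a' i = A - C.a (N - 1 - i)) (hd : N ∣ C.h + 1)
    (hcop : ∀ t i, i < N → (t + 2) * N ≤ C.h + 1 → C.Copy (t * N) i) :
    ∃ (J : ℕ) (al rh : ℕ → ℤ), RowsJ C N J C.a C.a' al rh := by
  obtain ⟨J, hJ⟩ := hd
  have hpos := hE.pos
  have hh := hE.hh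
  have hxr : C.xr = C.x - (C.L - C.M) := rfl
  have hJ2 : 2 ≤ J := by
    by_contra h
    have h1 : J ≤ 1 := by omega
    have h2 : N * J ≤ N * 1 := Nat.mul_le_mul_left N h1
    omega
  refine ⟨J, fun t => if t + 1 = J then C.x - A else C.a (t * N),
    fun t => if t + 1 = J then C.x - A + C.M else C.b (t * N) + C.L, hJ2,
    by rw [hJ, mul_comm], ?_⟩
  intro t ht i hi
  by_cases htJ : t + 1 = J
  · simp only [htJ, if_true]
    have hlt : N - 1 - i < N := by omega
    have hrow : t * N + i = C.h - (N - 1 - i) := by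
      have h1 : C.h + 1 = t * N + N := by
        rw [hJ, ← htJ, mul_add, mul_comm N t, mul_one]
      omega
    have hf := hE.full _ hlt
    obtain ⟨hf1, hf2, hf3⟩ := hf
    have h1 := hsym i hi
    have h2 := hsym (N - 1 - i) hlt
    have h3 : N - 1 - (N - 1 - i) = i := by omega
    rw [h3] at h2
    have e1 := C.d'_eq (N - 1 - i)
    have e2 := C.d_eq (N - 1 - i)
    have e3 := C.c'_eq (N - 1 - i)
    have e4 := C.c_eq (N - 1 - i)
    rw [← hrow] at e1 e2 e3 e4
    rcases hE.tl _ hlt with hT | hT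
    · obtain ⟨t1, t2, t3, t4⟩ := hT
      refine ⟨?_, ?_, ?_, ?_⟩ <;> omega
    · obtain ⟨t1, t2, t3, t4⟩ := hT
      refine ⟨?_, ?_, ?_, ?_⟩ <;> omega
  · simp only [htJ, if_false]
    have htJ' : t + 2 ≤ J := by omega
    have h1 : (t + 2) * N ≤ C.h + 1 := by
      rw [hJ, mul_comm N J]
      exact Nat.mul_le_mul_right N htJ'
    obtain ⟨c1, c2, c3, c4, c5, c6, c7, c8⟩ := hcop t i hi h1
    refine ⟨?_, ?_, ?_, ?_⟩ <;> omega

section

variable {N J : ℕ} {al rh : ℕ → ℤ}

theorem row_lt (R : RowsJ C N J C.a C.a' al rh) {t i : ℕ} (ht : t < J) (hi : i < N) :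
    t * N + i ≤ C.h := by
  have h1 := R.hJ
  have h2 : (t + 1) * N ≤ J * N := Nat.mul_le_mul_right N ht
  have h3 : (t + 1) * N = t * N + N := by ring
  omega

theorem incr_left (hC : C.Ok) (R : RowsJ C N J C.a C.a' al rh) (hN : 0 < N) {v : ℤ}
    (hv : C.a (N - 1) = v) (t : ℕ) (ht : t + 1 < J) :
    al (t + 1) = al t + v ∨ al (t + 1) = al t + v + 1 := by
  have h1 := (R.row t (by omega) (N - 1) (by omega)).1
  have h2 := (R.row (t + 1) ht 0 hN).1
  have h3 : t * N + (N - 1) + 1 = (t + 1) * N + 0 := by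
    have : (t + 1) * N = t * N + N := by ring
    omega
  have h4 : t * N + (N - 1) < C.h := by
    have := row_lt R ht hN
    omega
  have h5 := hC.a_let h4
  have h6 : C.a 0 = 0 := by
    have : C.a 0 = ⌈C.aH 0⌉ := rfl
    rw [this, hC.aH0, Int.ceil_zero]
  rw [h3, h1, h2, h6, hv] at h5
  omega

theorem incr_right (hC : C.Ok) (R : RowsJ C N J C.a C.a' al rh) (hN : 0 < N) {v : ℤ}
    (hv : C.a (N - 1) = v) (t : ℕ) (ht : t + 1 < J) :
    rh (t + 1) = rh t + v ∨ rh (t + 1) = rh t + v + 1 := by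
  have h1 := (R.row t (by omega) (N - 1) (by omega)).2.1
  have h2 := (R.row (t + 1) ht 0 hN).2.1
  have h3 : t * N + (N - 1) + 1 = (t + 1) * N + 0 := by
    have : (t + 1) * N = t * N + N := by ring
    omega
  have h4 : t * N + (N - 1) < C.h := by
    have := row_lt R ht hN
    omega
  have h5 := hC.b_let h4
  have h6 : C.a 0 = 0 := by
    have : C.a 0 = ⌈C.aH 0⌉ := rfl
    rw [this, hC.aH0, Int.ceil_zero]
  rw [h3] at h5
  omega

theorem cx_aK_le (s : ℕ) : C.aK s ≤ C.a' s := Int.le_ceil _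

theorem cx_lt_aK (s : ℕ) : (C.a' s : ℝ) - 1 < C.aK s := by
  have h1 := Int.ceil_lt_add_one (C.aK s)
  have h2 : (C.a' s : ℝ) = ⌈C.aK s⌉ := rfl
  rw [h2]
  linarith

theorem cx_le_bH (s : ℕ) : (C.b s : ℝ) ≤ C.bH s := Int.floor_le _

theorem cx_bH_lt (s : ℕ) : C.bH s < C.b s + 1 := Int.lt_floor_add_one _

theorem ml_K (hC : C.Ok) {k : ℕ} (hK : C.TypeK N k) (R : RowsJ C N J C.a C.a' al rh)
    (t : ℕ) (ht : t + 2 < J) (h1 : al (t + 1) = al t + 1 + 1) :
    al (t + 2) = al (t + 1) + 1 + 1 := by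
  have hN := hK.hN
  have hk := hK.hk
  have hv : C.a (N - 1) = 1 := hK.v1 _ (by omega) (by omega)
  rcases incr_left hC R (by omega) hv (t + 1) ht with h2 | h2
  · exfalso
    have h2' : al (t + 2) = al (t + 1) + 1 := h2
    have r1 := (R.row t (by omega) (2 * k) (by omega)).2.2.1
    have r2 := (R.row (t + 1) (by omega) k (by omega)).2.2.1
    have r3 := (R.row (t + 2) ht (k - 1) (by omega)).2.2.1
    rw [hK.w1 (2 * k) (by omega) (by omega)] at r1
    rw [hK.w1 k le_rfl (by omega)] at r2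
    rw [hK.w0 (k - 1) (by omega)] at r3
    have m1 : (t + 1) * N = t * N + N := by ring
    have m2 : (t + 2) * N = t * N + 2 * N := by ring
    have e1 : (t + 1) * N + k = t * N + 2 * k + (k + 1) := by omega
    have e2 : (t + 2) * N + (k - 1) = (t + 1) * N + k + (k + 1) + (k - 1) := by omega
    have b3 : (t + 2) * N + (k - 1) ≤ C.h := row_lt R ht (by omega)
    have w := hC.aKconv.win (i := t * N + 2 * k) (j := (t + 1) * N + k) (w := k + 1)
      (by omega) (by omega)
    have g := hC.aKinc.mono_add ((t + 1) * N + k + (k + 1)) (k - 1) (by omega)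
    rw [← e2] at g
    rw [← e1] at w
    have u1 := C.cx_aK_le (t * N + 2 * k)
    have u2 := C.cx_lt_aK ((t + 1) * N + k)
    have u3 := C.cx_aK_le ((t + 2) * N + (k - 1))
    rw [r1] at u1
    rw [r2, h1] at u2
    rw [r3, h2', h1] at u3
    push_cast at u1 u2 u3
    linarith
  · exact h2

theorem mr_K (hC : C.Ok) {k : ℕ} (hK : C.TypeK N k) (R : RowsJ C N J C.a C.a' al rh)
    (t : ℕ) (ht : t + 2 < J) (h1 : rh (t + 1) = rh t + 1) :
    rh (t + 2) = rh (t + 1) + 1 := by
  have hN := hK.hN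
  have hk := hK.hk
  have hv : C.a (N - 1) = 1 := hK.v1 _ (by omega) (by omega)
  rcases incr_right hC R (by omega) hv (t + 1) ht with h2 | h2
  · exact h2
  · exfalso
    have h2' : rh (t + 2) = rh (t + 1) + 1 + 1 := h2
    have r1 := (R.row t (by omega) (k + 1) (by omega)).2.1
    have r2 := (R.row (t + 1) (by omega) k (by omega)).2.1
    have r3 := (R.row (t + 2) ht 0 (by omega)).2.1
    rw [hK.v1 (k + 1) (by omega) (by omega)] at r1
    rw [hK.v0 k le_rfl] at r2
    rw [hK.v0 0 (by omega)] at r3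
    have m1 : (t + 1) * N = t * N + N := by ring
    have m2 : (t + 2) * N = t * N + 2 * N := by ring
    have e1 : (t + 1) * N + k = t * N + (k + 1) + (k + 1) + (k - 1) := by omega
    have e2 : (t + 2) * N + 0 = (t + 1) * N + k + (k + 1) := by omega
    have b3 : (t + 2) * N + 0 ≤ C.h := row_lt R ht (by omega)
    have w := hC.bHconc.win (i := t * N + (k + 1)) (j := (t + 1) * N + k) (w := k + 1)
      (by omega) (by omega)
    have g := hC.bHinc.mono_add (t * N + (k + 1) + (k + 1)) (k - 1) (by omega)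
    rw [← e1] at g
    rw [← e2] at w
    have u1 := C.cx_le_bH (t * N + (k + 1))
    have u2 := C.cx_bH_lt ((t + 1) * N + k)
    have u3 := C.cx_le_bH ((t + 2) * N + 0)
    have q1 : C.b (t * N + (k + 1)) = rh t + 1 - C.L := by omega
    have q2 : C.b ((t + 1) * N + k) = rh t + 1 - C.L := by omega
    have q3 : C.b ((t + 2) * N + 0) = rh t + 3 - C.L := by omega
    rw [q1] at u1
    rw [q2] at u2
    rw [q3] at u3
    push_cast at u1 u2 u3
    linarith

theorem ml_O (hC : C.Ok) {k : ℕ} (hO : C.TypeO N k) (R : RowsJ C N J C.a C.a' al rh)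
    (t : ℕ) (ht : t + 2 < J) (h1 : al (t + 1) = al t + k + 1) :
    al (t + 2) = al (t + 1) + k + 1 := by
  have hN := hO.hN
  have hk := hO.hk
  have hN1 : N - 1 = 2 * k := by omega
  have hv : C.a (N - 1) = k := by rw [hN1]; exact (hO.ve k le_rfl).1
  rcases incr_left hC R (by omega) hv (t + 1) ht with h2 | h2
  · exfalso
    have h2' : al (t + 2) = al (t + 1) + k := h2
    have r1 := (R.row t (by omega) (2 * k) (by omega)).2.2.1
    have r2 := (R.row (t + 1) (by omega) 1 (by omega)).2.2.1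
    have r3 := (R.row (t + 2) ht 0 (by omega)).2.2.1
    have v1 : C.a' (2 * k) = k := (hO.ve k le_rfl).2
    have v2 : C.a' 1 = 1 := by
      have := (hO.vo 0 (by omega)).2
      simpa using this
    have v3 : C.a' 0 = 0 := by
      have := (hO.ve 0 (by omega)).2
      simpa using this
    rw [v1] at r1
    rw [v2] at r2
    rw [v3] at r3
    have m1 : (t + 1) * N = t * N + N := by ring
    have m2 : (t + 2) * N = t * N + 2 * N := by ring
    have e1 : (t + 1) * N + 1 = t * N + 2 * k + 2 := by omega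
    have e2 : (t + 2) * N + 0 = (t + 1) * N + 1 + 2 * k := by omega
    have b3 : (t + 2) * N + 0 ≤ C.h := row_lt R ht (by omega)
    have w := win2_lo hC.aKconv (i := t * N + 2 * k) (j := (t + 1) * N + 1) (by omega) k
      (by omega)
    rw [← e1, ← e2] at w
    have u1 := C.cx_aK_le (t * N + 2 * k)
    have u2 := C.cx_lt_aK ((t + 1) * N + 1)
    have u3 := C.cx_aK_le ((t + 2) * N + 0)
    rw [r1] at u1
    rw [r2, h1] at u2
    rw [r3, h2', h1] at u3
    push_cast at u1 u2 u3
    have hkr : (1 : ℝ) ≤ k := by exact_mod_cast hk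
    have d : 1 < C.aK ((t + 1) * N + 1) - C.aK (t * N + 2 * k) := by linarith
    have d2 : (k : ℝ) * 1 ≤ (k : ℝ) * (C.aK ((t + 1) * N + 1) - C.aK (t * N + 2 * k)) :=
      mul_le_mul_of_nonneg_left d.le (by linarith)
    linarith
  · exact h2

theorem mr_O (hC : C.Ok) {k : ℕ} (hO : C.TypeO N k) (R : RowsJ C N J C.a C.a' al rh)
    (t : ℕ) (ht : t + 2 < J) (h1 : rh (t + 1) = rh t + k) :
    rh (t + 2) = rh (t + 1) + k := by
  have hN := hO.hN
  have hk := hO.hk
  have hN1 : N - 1 = 2 * k := by omega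
  have hv : C.a (N - 1) = k := by rw [hN1]; exact (hO.ve k le_rfl).1
  rcases incr_right hC R (by omega) hv (t + 1) ht with h2 | h2
  · exact h2
  · exfalso
    have h2' : rh (t + 2) = rh (t + 1) + k + 1 := h2
    have r1 := (R.row t (by omega) 0 (by omega)).2.1
    have r2 := (R.row (t + 1) (by omega) 1 (by omega)).2.1
    have r3 := (R.row (t + 2) ht 0 (by omega)).2.1
    have v0 : C.a 0 = 0 := by
      have := (hO.ve 0 (by omega)).1
      simpa using this
    have v1 : C.a 1 = 0 := by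
      have := (hO.vo 0 (by omega)).1
      simpa using this
    rw [v0] at r1 r3
    rw [v1] at r2
    have m1 : (t + 1) * N = t * N + N := by ring
    have m2 : (t + 2) * N = t * N + 2 * N := by ring
    have e1 : (t + 1) * N + 1 = t * N + 0 + 2 * (k + 1) := by omega
    have e2 : (t + 2) * N + 0 = (t + 1) * N + 1 + 2 * k := by omega
    have b3 : (t + 2) * N + 0 ≤ C.h := row_lt R ht (by omega)
    have w1 := win2_lo hC.bHconc.neg (i := (t + 1) * N + 1) (j := (t + 1) * N + 1) le_rfl k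
      (by omega)
    have w2 := win2_hi hC.bHconc.neg (i := t * N + 0) (j := (t + 1) * N + 1) (by omega) (k + 1)
      (by omega)
    rw [← e2] at w1
    rw [← e1] at w2
    have u1 := C.cx_le_bH (t * N + 0)
    have u2 := C.cx_bH_lt ((t + 1) * N + 1)
    have u3 := C.cx_le_bH ((t + 2) * N + 0)
    have q1 : C.b (t * N + 0) = rh t - C.L := by omega
    have q2 : C.b ((t + 1) * N + 1) = rh t + k - C.L := by omega
    have q3 : C.b ((t + 2) * N + 0) = rh t + 2 * k + 1 - C.L := by omega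
    rw [q1] at u1
    rw [q2] at u2
    rw [q3] at u3
    push_cast at u1 u2 u3 w2
    have hkr : (1 : ℝ) ≤ k := by exact_mod_cast hk
    -- the slope at the middle point
    set D := -C.bH ((t + 1) * N + 1 + 2) - -C.bH ((t + 1) * N + 1) with hD
    have d1 : (k : ℝ) * D < -k := by linarith
    have d2 : D < -1 := by
      by_contra hcon
      have h3 : -1 ≤ D := by linarith
      have h4 : (k : ℝ) * (-1) ≤ (k : ℝ) * D := mul_le_mul_of_nonneg_left h3 (by linarith)
      linarith
    have d3 : ((k : ℝ) + 1) * D ≤ ((k : ℝ) + 1) * (-1) :=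
      mul_le_mul_of_nonneg_left d2.le (by linarith)
    linarith

end

theorem hexr_typeK (hC : C.Ok) {N k : ℕ} (hE : C.Ev N) (hK : C.TypeK N k)
    (hNR : C.NR N) (hNR0 : C.NR0 N) :
    ∃ (J : ℕ) (al rh : ℕ → ℤ), RowsJ C N J C.a C.a' al rh ∧ Incr J 1 al rh := by
  obtain ⟨h1, h2, h3⟩ := claimK hC hE hK hNR hNR0
  obtain ⟨J, al, rh, R⟩ := rows_of_copies hE (symK hK) (dvdK hC hE hK h2 h3) h1
  have hN := hK.hN
  have hk := hK.hk
  have hv : C.a (N - 1) = 1 := hK.v1 _ (by omega) (by omega)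
  exact ⟨J, al, rh, R, incr_left hC R (by omega) hv, incr_right hC R (by omega) hv,
    ml_K hC hK R, mr_K hC hK R⟩

theorem hexr_typeO (hC : C.Ok) {N k : ℕ} (hE : C.Ev N) (hO : C.TypeO N k)
    (hNR : C.NR N) (hNR0 : C.NR0 N) (hZB : C.ZB N) :
    ∃ (J : ℕ) (al rh : ℕ → ℤ), RowsJ C N J C.a C.a' al rh ∧ Incr J k al rh := by
  obtain ⟨h1, h2, h3⟩ := claimO hC hE hO hNR hNR0 hZB
  obtain ⟨J, al, rh, R⟩ := rows_of_copies hE (symO hO) (dvdO hC hE hO h2 h3) h1
  have hN := hO.hN
  have hk := hO.hk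
  have hN1 : N - 1 = 2 * k := by omega
  have hv : C.a (N - 1) = k := by rw [hN1]; exact (hO.ve k le_rfl).1
  exact ⟨J, al, rh, R, incr_left hC R (by omega) hv, incr_right hC R (by omega) hv,
    ml_O hC hO R, mr_O hC hO R⟩

theorem hexr_gt (hC : C.Ok) {N : ℕ} (hE : C.Ev N) (hmN : C.m < N)
    (hZB : ∀ k, C.TypeO N k → C.ZB N) : C.HexR := by
  have hS := shape hC hE hmN
  have hNR := nr hC hE hmN hS
  have hcop := forced_copyN hC hE hmN hNR
  have hNR0 := nr0 hC hE hmN hS hcop
  rcases type_of_event hC hE hmN hS hcop with ⟨k, hK⟩ | ⟨k, hO⟩ | ⟨k, hK⟩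
  · obtain ⟨J, al, rh, R, I⟩ := hexr_typeK hC hE hK hNR hNR0
    have hN := hK.hN
    subst hN
    have hk := hK.hk
    exact ⟨k, J, C.a, C.a', al, rh, 1, 1, by omega, R, I, Or.inl ⟨rfl, hK.v0, hK.v1⟩, symK hK⟩
  · obtain ⟨J, al, rh, R, I⟩ := hexr_typeO hC hE hO hNR hNR0 (hZB k hO)
    have hN := hO.hN
    subst hN
    exact ⟨k, J, C.a, C.a', al, rh, k, k, hO.hk, R, I,
      Or.inr (Or.inl ⟨rfl, fun l hl => (hO.ve l hl).1, fun l hl => (hO.vo l hl).1⟩), symO hO⟩
  · obtain ⟨J, al, rh, R, I⟩ := hexr_typeK (mirror_ok hC) (mirror_ev hC hE) hK (mirror_nr hNR)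
      (mirror_nr0 hNR0)
    have hN := hK.hN
    subst hN
    have hk := hK.hk
    refine ⟨k, J, fun i => i - C.mirror.a' i, fun i => i - C.mirror.a i,
      fun t => t * ((2 * k + 1 : ℕ) : ℤ) + C.L - rh t,
      fun t => t * ((2 * k + 1 : ℕ) : ℤ) + C.L - al t, 2 * k - 1, 2 * k - 1,
      by omega, ?_, ?_, ?_, ?_⟩
    · refine ⟨R.two, R.hJ, ?_⟩
      intro t ht i hi
      obtain ⟨g1, g2, g3, g4⟩ := R.row t ht i hi
      rw [mirror_a] at g1
      rw [mirror_b] at g2
      rw [mirror_a'] at g3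
      rw [mirror_b'] at g4
      change _ + (C.L : ℤ) = _ at g2
      change _ + (C.L : ℤ) = _ at g4
      push_cast at g1 g2 g3 g4 ⊢
      refine ⟨?_, ?_, ?_, ?_⟩ <;> linarith
    · refine ⟨?_, ?_, ?_, ?_⟩
      · intro t ht
        have := I.ir t ht
        push_cast
        rcases this with h | h
        · right
          rw [h]
          ring
        · left
          rw [h]
          ring
      · intro t ht
        have := I.il t ht
        push_cast
        rcases this with h | h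
        · right
          rw [h]
          ring
        · left
          rw [h]
          ring
      · intro t ht h
        have h1 : rh (t + 1) = rh t + 1 := by
          push_cast at h
          linarith
        have h2 := I.mr t ht h1
        push_cast
        rw [h2, h1]
        ring
      · intro t ht h
        have h1 : al (t + 1) = al t + 1 + 1 := by
          push_cast at h
          linarith
        have h2 := I.ml t ht h1
        push_cast
        rw [h2, h1]
        ring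
    · right
      right
      refine ⟨rfl, ?_, ?_⟩
      · intro i hi
        change (i : ℤ) - C.mirror.a' i = i
        rw [hK.w0 i hi]
        ring
      · intro i hi hi'
        change (i : ℤ) - C.mirror.a' i = i - 1
        rw [hK.w1 i hi hi']
    · intro i hi
      have h1 := symK hK (2 * k + 1 - 1 - i) (by omega)
      have h2 : 2 * k + 1 - 1 - (2 * k + 1 - 1 - i) = i := by omega
      rw [h2] at h1
      change (i : ℤ) - C.mirror.a i =
        2 * k - 1 - (((2 * k + 1 - 1 - i : ℕ) : ℤ) - C.mirror.a' (2 * k + 1 - 1 - i))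
      rw [h1]
      omega

theorem hexr_of (hC : C.Ok) (hZE : C.ZE) (hlt : ∀ N, C.Ev N → N < C.m → False)
    (hZB : ∀ N k, C.Ev N → C.m < N → C.TypeO N k → C.ZB N) : C.HexR := by
  obtain ⟨N, hE⟩ := exists_event hC hZE
  rcases Nat.lt_trichotomy N C.m with h | h | hmN
  · exact (hlt N hE h).elim
  · exact (hE.ne h).elim
  · exact hexr_gt hC hE hmN (fun k hO => hZB N k hE hmN hO)

theorem hexr_M2 (hC : C.Ok) (hM : 2 ≤ C.M) : C.HexR :=
  hexr_of hC (ze_M2 hC hM) (fun _ hE h => impossible_lt hC hM hE h)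
    (fun _ _ _ _ hO => zb_M2 hC hM hO)

theorem hexr_all (hC : C.Ok) (hX : C.LemX) : C.HexR := by
  by_cases hM : 2 ≤ C.M
  · exact hexr_M2 hC hM
  have hM1 : C.M = 1 := by
    have := hC.hM
    omega
  have hlt : ∀ N, C.Ev N → N < C.m → False :=
    fun N hE h => impossible_lt_M1 hC hM1 hX hE h
  by_cases hL : 3 ≤ C.L
  · exact hexr_of hC (ze_M1 hC hM1 hL) hlt (fun N k hE hmN hO => zb_M1 hC hM1 hL hO)
  · have hL2 : C.L = 2 := by
      have := hC.hLM
      omega
    exact hexr_of hC (ze_21 hC hL2 hM1 hX) hlt (fun N k _ _ hO => zb_21 hC hL2 hM1 hO)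

end Cd

end Pool.Agent.Lib.MP_bb0bab_co
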