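import Pool.Agent.Lib.MP_bb0bab_co.CX2
import Pool.Agent.Lib.MP_bb0bab_co.CX3

/-!
# CX4 every germ belongs to the explicit family
-/

open scoped Pointwise

namespace Pool.Agent.Lib.MP_bb0bab_co

theorem chain_lo {f : ℕ → ℤ} {v : ℤ} {J : ℕ}
    (inc : ∀ t, t + 1 < J → f (t + 1) = f t + v ∨ f (t + 1) = f t + v + 1) (t : ℕ) (ht : t < J) :
    f 0 + v * t ≤ f t := by
  induction t with
  | zero => simp
  | succ t ih =>
    have h1 := ih (by omega)
    have h2 := inc t ht
    push_cast
    rcases h2 with h | h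
    · rw [h]
      linarith
    · rw [h]
      linarith

theorem chain_hi {f : ℕ → ℤ} {v : ℤ} {J : ℕ}
    (inc : ∀ t, t + 1 < J → f (t + 1) = f t + v ∨ f (t + 1) = f t + v + 1) (t d : ℕ)
    (ht : t + d < J) : f (t + d) ≤ f t + (v + 1) * d := by
  induction d with
  | zero => simp
  | succ d ih =>
    have h1 := ih (by omega)
    have h2 := inc (t + d) (by omega)
    have e : t + (d + 1) = t + d + 1 := by ring
    rw [e]
    push_cast
    rcases h2 with h | h
    · rw [h]
      linarith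
    · rw [h]
      linarith

theorem chain_tail {f : ℕ → ℤ} {v : ℤ} {J : ℕ}
    (mon : ∀ t, t + 2 < J → f (t + 1) = f t + v + 1 → f (t + 2) = f (t + 1) + v + 1) (t : ℕ)
    (h : f (t + 1) = f t + v + 1) (d : ℕ) (hd : t + 1 + d < J) :
    f (t + 1 + d) = f (t + d) + v + 1 ∧ f (t + 1 + d) = f (t + 1) + (v + 1) * d := by
  induction d with
  | zero => simpa using h
  | succ d ih =>
    obtain ⟨h1, h2⟩ := ih (by omega)
    have e1 : t + d + 1 = t + 1 + d := by ring
    have e2 : t + d + 2 = t + 1 + (d + 1) := by ring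
    have e3 : t + (d + 1) = t + 1 + d := by ring
    have h3 := mon (t + d) (by omega) (by rw [e1]; exact h1)
    rw [e1, e2] at h3
    rw [e3]
    refine ⟨h3, ?_⟩
    rw [h3, h2]
    push_cast
    ring

theorem chain_alt {f : ℕ → ℤ} {v : ℤ} {J : ℕ}
    (inc : ∀ t, t + 1 < J → f (t + 1) = f t + v ∨ f (t + 1) = f t + v + 1)
    (mon : ∀ t, t + 2 < J → f (t + 1) = f t + v + 1 → f (t + 2) = f (t + 1) + v + 1) (t : ℕ)
    (ht : t < J) :
    f t = f 0 + v * t ∨ ∀ d, t + d < J → f (t + d) = f t + (v + 1) * d := by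
  induction t with
  | zero => left; simp
  | succ t ih =>
    rcases ih (by omega) with h | h
    · rcases inc t ht with h1 | h1
      · left
        rw [h1, h]
        push_cast
        ring
      · right
        intro d hd
        exact (chain_tail mon t h1 d hd).2
    · right
      intro d hd
      have h1 := h (1 + d) (by omega)
      have h2 := h 1 (by omega)
      have e : t + (1 + d) = t + 1 + d := by ring
      rw [e] at h1
      rw [h1, h2]
      push_cast
      ring

theorem chain_iff {f : ℕ → ℤ} {v : ℤ} {J : ℕ}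
    (inc : ∀ t, t + 1 < J → f (t + 1) = f t + v ∨ f (t + 1) = f t + v + 1)
    (mon : ∀ t, t + 2 < J → f (t + 1) = f t + v + 1 → f (t + 2) = f (t + 1) + v + 1) (t : ℕ)
    (ht : t < J) (x : ℤ) :
    f t ≤ x ↔ f 0 + v * t ≤ x ∧ f (J - 1) ≤ x + (v + 1) * (J - 1 - t) := by
  have hJ : t + (J - 1 - t) = J - 1 := by omega
  have hc : ((J - 1 - t : ℕ) : ℤ) = (J : ℤ) - 1 - t := by omega
  constructor
  · intro h
    have h1 := chain_lo inc t ht
    have h2 := chain_hi inc t (J - 1 - t) (by omega)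
    rw [hJ, hc] at h2
    exact ⟨by linarith, by linarith⟩
  · rintro ⟨h1, h2⟩
    rcases chain_alt inc mon t ht with h | h
    · rw [h]
      exact h1
    · have h3 := h (J - 1 - t) (by omega)
      rw [hJ, hc] at h3
      linarith

/-- the set of the positions of the blocks, as a hexagon -/
theorem hexA_mem {J N : ℕ} {v : ℤ} {al rh : ℕ → ℤ} (I : Incr J v al rh) (p : ℤ × ℤ) :
    (∃ t < J, p.2 = (t : ℤ) * N ∧ al t ≤ p.1 ∧ p.1 < rh t) ↔
    ∃ t : ℤ, p.2 = t * N ∧ 0 ≤ t ∧ t ≤ (J : ℤ) - 1 ∧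
      al 0 ≤ p.1 - v * t ∧ p.1 - v * t ≤ rh (J - 1) - v * (J - 1) - 1 ∧
      al (J - 1) - (v + 1) * (J - 1) ≤ p.1 - (v + 1) * t ∧ p.1 - (v + 1) * t ≤ rh 0 - 1 := by
  have key : ∀ t < J, (al t ≤ p.1 ∧ p.1 < rh t) ↔
      (al 0 ≤ p.1 - v * t ∧ p.1 - v * t ≤ rh (J - 1) - v * (J - 1) - 1 ∧
      al (J - 1) - (v + 1) * (J - 1) ≤ p.1 - (v + 1) * t ∧ p.1 - (v + 1) * t ≤ rh 0 - 1) := by
    intro t ht
    have h1 := chain_iff I.il I.ml t ht p.1
    have h2 := chain_iff (f := fun t => - rh t) (v := -v - 1) (J := J) (fun t ht => by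
      rcases I.ir t ht with h | h
      · right
        rw [h]
        ring
      · left
        rw [h]
        ring) (fun t ht h => by
      have h3 : rh (t + 1) = rh t + v := by linarith
      have h4 := I.mr t ht h3
      rw [h4]
      ring) t ht (-p.1 - 1)
    have h3 : p.1 < rh t ↔ -rh t ≤ -p.1 - 1 := by
      constructor <;> intro h <;> linarith
    rw [h3, h1]
    rw [h2]
    constructor
    · rintro ⟨⟨g1, g2⟩, g3, g4⟩
      refine ⟨?_, ?_, ?_, ?_⟩ <;> linarith
    · rintro ⟨g1, g2, g3, g4⟩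
      refine ⟨⟨?_, ?_⟩, ?_, ?_⟩ <;> linarith
  constructor
  · rintro ⟨t, ht, h1, h2⟩
    exact ⟨t, h1, by omega, by omega, (key t ht).1 h2⟩
  · rintro ⟨t, h1, h2, h3, h4⟩
    obtain ⟨n, rfl⟩ := Int.eq_ofNat_of_zero_le h2
    have hn : n < J := by omega
    exact ⟨n, hn, h1, (key n hn).2 h4⟩

theorem final_sum {N : ℕ} {b b' : ℕ → ℤ} {c : ℤ}
    (hb : ∀ i < N, b' i = c - b (N - 1 - i)) {J : ℕ} {al rh : ℕ → ℤ}
    {H K A B : Finset (ℤ × ℤ)}
    (hH : ∀ p : ℤ × ℤ, p ∈ H ↔ ∃ j < J, ∃ i < N, p.2 = (j : ℤ) * N + i ∧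
      al j + b i ≤ p.1 ∧ p.1 < rh j + b i)
    (hK : ∀ p : ℤ × ℤ, p ∈ K ↔ ∃ j < J, ∃ i < N, p.2 = (j : ℤ) * N + i ∧
      al j + b' i ≤ p.1 ∧ p.1 < rh j + b' i)
    (hA : ∀ p : ℤ × ℤ, p ∈ A ↔ ∃ j < J, p.2 = (j : ℤ) * N ∧ al j ≤ p.1 ∧ p.1 < rh j)
    (hB : ∀ p : ℤ × ℤ, p ∈ B ↔ ∃ i < N, p = (b i, (i : ℤ))) :
    H = A + B + {0} ∧ K = A - B + {(c, (N : ℤ) - 1)} := by
  classical
  constructor
  · rw [Finset.singleton_zero, add_zero]
    ext p
    rw [hH, Finset.mem_add]
    constructor
    · rintro ⟨j, hj, i, hi, h2, h3, h4⟩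
      refine ⟨(p.1 - b i, (j : ℤ) * N), (hA _).2 ⟨j, hj, rfl, ?_, ?_⟩, (b i, (i : ℤ)),
        (hB _).2 ⟨i, hi, rfl⟩, ?_⟩
      · show al j ≤ p.1 - b i
        omega
      · show p.1 - b i < rh j
        omega
      · ext
        · show p.1 - b i + b i = p.1
          omega
        · show (j : ℤ) * N + i = p.2
          rw [h2]
    · rintro ⟨q, hq, r, hr, rfl⟩
      obtain ⟨j, hj, h2, h3, h4⟩ := (hA q).1 hq
      obtain ⟨i, hi, rfl⟩ := (hB r).1 hr
      refine ⟨j, hj, i, hi, ?_, ?_, ?_⟩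
      · show q.2 + (i : ℤ) = _
        rw [h2]
      · show al j + b i ≤ q.1 + b i
        omega
      · show q.1 + b i < rh j + b i
        omega
  · rw [← image_add_eq]
    ext p
    rw [hK, Finset.mem_image]
    constructor
    · rintro ⟨j, hj, i, hi, h2, h3, h4⟩
      have hbi := hb i hi
      refine ⟨(p.1 - c, p.2 - ((N : ℤ) - 1)), ?_, ?_⟩
      · rw [Finset.mem_sub]
        refine ⟨(p.1 - b' i, (j : ℤ) * N), (hA _).2 ⟨j, hj, rfl, ?_, ?_⟩,
          (b (N - 1 - i), ((N - 1 - i : ℕ) : ℤ)), (hB _).2 ⟨N - 1 - i, by omega, rfl⟩, ?_⟩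
        · show al j ≤ p.1 - b' i
          omega
        · show p.1 - b' i < rh j
          omega
        · ext
          · show p.1 - b' i - b (N - 1 - i) = p.1 - c
            omega
          · show (j : ℤ) * N - ((N - 1 - i : ℕ) : ℤ) = p.2 - ((N : ℤ) - 1)
            have e1 : ((N - 1 - i : ℕ) : ℤ) = (N : ℤ) - 1 - i := by omega
            rw [e1, h2]; ring
      · ext
        · show p.1 - c + c = p.1
          omega
        · show p.2 - ((N : ℤ) - 1) + ((N : ℤ) - 1) = p.2
          omega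
    · rintro ⟨q, hq, rfl⟩
      rw [Finset.mem_sub] at hq
      obtain ⟨r, hr, s, hs, rfl⟩ := hq
      obtain ⟨j, hj, h2, h3, h4⟩ := (hA r).1 hr
      obtain ⟨i, hi, rfl⟩ := (hB s).1 hs
      have hbi := hb (N - 1 - i) (by omega)
      have e0 : N - 1 - (N - 1 - i) = i := by omega
      rw [e0] at hbi
      refine ⟨j, hj, N - 1 - i, by omega, ?_, ?_, ?_⟩
      · show r.2 - (i : ℤ) + ((N : ℤ) - 1) = (j : ℤ) * N + ((N - 1 - i : ℕ) : ℤ)
        have e1 : ((N - 1 - i : ℕ) : ℤ) = (N : ℤ) - 1 - i := by omega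
        rw [e1, h2]; ring
      · show al j + b' (N - 1 - i) ≤ r.1 - b i + c
        omega
      · show r.1 - b i + c < rh j + b' (N - 1 - i)
        omega

theorem mem_Bk_add {k : ℕ} {u z : ℤ × ℤ} : z ∈ Bk k + {u} ↔ z - u ∈ Bk k := by
  rw [← image_add_eq, Finset.mem_image]
  constructor
  · rintro ⟨y, hy, rfl⟩
    rwa [add_sub_cancel_right]
  · intro h
    exact ⟨z - u, h, sub_add_cancel z u⟩

/-- the three shapes -/
theorem fam_of_shape {k J : ℕ} (hk : 1 ≤ k) {V : ℕ → ℤ} {al rh : ℕ → ℤ} {v : ℤ}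
    (I : Incr J v al rh) (hS : Shp k V v) {H K A B : Finset (ℤ × ℤ)} {t : ℤ × ℤ}
    (hA : ∀ p : ℤ × ℤ, p ∈ A ↔ ∃ j < J, p.2 = (j : ℤ) * (2 * k + 1 : ℕ) ∧ al j ≤ p.1 ∧ p.1 < rh j)
    (hB : ∀ p : ℤ × ℤ, p ∈ B ↔ ∃ i < 2 * k + 1, p = (V i, (i : ℤ)))
    (hH : H = A + B + {0}) (hK : K = A - B + {t}) : Fam H K := by
  have hA' : ∀ p : ℤ × ℤ, p ∈ A ↔ ∃ t : ℤ, p.2 = t * (2 * k + 1 : ℕ) ∧ 0 ≤ t ∧ t ≤ (J : ℤ) - 1 ∧
      al 0 ≤ p.1 - v * t ∧ p.1 - v * t ≤ rh (J - 1) - v * (J - 1) - 1 ∧
      al (J - 1) - (v + 1) * (J - 1) ≤ p.1 - (v + 1) * t ∧ p.1 - (v + 1) * t ≤ rh 0 - 1 :=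
    fun p => (hA p).trans (hexA_mem I p)
  rcases hS with ⟨rfl, v0, v1⟩ | ⟨rfl, v0, v1⟩ | ⟨rfl, v0, v1⟩
  · -- `0^(k+1) 1^k`
    refine fam_of hk (a := -(k + 1)) (b := 1) (c := 1) (d := 0) (u := 0) (Or.inr (by ring)) ?_ ?_
      hH hK
    · refine ⟨al 0, rh (J - 1) - 1 * (J - 1) - 1, 0, J - 1, al (J - 1) - (1 + 1) * (J - 1),
        rh 0 - 1, fun z => ?_⟩
      rw [Finset.mem_image]
      constructor
      · rintro ⟨p, hp, rfl⟩
        obtain ⟨n, h1, h2, h3, h4, h5, h6, h7⟩ := (hA' p).1 hp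
        refine ⟨p.1 - n, n, ?_, by linarith, by linarith, h2, h3, by linarith, by linarith⟩
        ext
        · simp only [lin]
          rw [h1]
          push_cast
          ring
        · simp only [lin]
          ring
      · rintro ⟨i, j, rfl, h4, h5, h2, h3, h6, h7⟩
        refine ⟨(i + j, j * (2 * k + 1 : ℕ)), (hA' _).2 ⟨j, rfl, h2, h3, ?_, ?_, ?_, ?_⟩, ?_⟩
        · show al 0 ≤ i + j - 1 * j
          linarith
        · show i + j - 1 * j ≤ _
          linarith
        · show _ ≤ i + j - (1 + 1) * j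
          linarith
        · show i + j - (1 + 1) * j ≤ _
          linarith
        · ext
          · simp only [lin]
            push_cast
            ring
          · simp only [lin]
            ring
    · ext z
      rw [Finset.mem_image, mem_Bk_add, sub_zero, mem_Bk]
      constructor
      · rintro ⟨p, hp, rfl⟩
        obtain ⟨i, hi, rfl⟩ := (hB p).1 hp
        rcases Nat.lt_or_ge k i with h | h
        · right
          simp only [lin]
          rw [v1 i h hi]
          refine ⟨?_, ?_, ?_⟩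
          · omega
          · omega
          · ring
        · left
          simp only [lin]
          rw [v0 i h]
          refine ⟨?_, ?_, ?_⟩
          · omega
          · omega
          · ring
      · rintro (⟨h1, h2, h3⟩ | ⟨h1, h2, h3⟩)
        · obtain ⟨n, hn⟩ := Int.eq_ofNat_of_zero_le h1
          refine ⟨(V n, (n : ℤ)), (hB _).2 ⟨n, by omega, rfl⟩, ?_⟩
          ext
          · simp only [lin]
            rw [v0 n (by omega), hn]
            ring
          · simp only [lin]
            rw [v0 n (by omega), h3]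
            ring
        · obtain ⟨n, hn⟩ := Int.eq_ofNat_of_zero_le h1
          refine ⟨(V (n + k + 1), ((n + k + 1 : ℕ) : ℤ)), (hB _).2 ⟨n + k + 1, by omega, rfl⟩, ?_⟩
          ext
          · simp only [lin]
            rw [v1 (n + k + 1) (by omega) (by omega), hn]
            push_cast
            ring
          · simp only [lin]
            rw [v1 (n + k + 1) (by omega) (by omega), h3]
            ring
  · -- `0 0 1 1 2 2 .. k`
    refine fam_of hk (a := 1) (b := 0) (c := -2) (d := 1) (u := 0) (Or.inl (by ring)) ?_ ?_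
      hH hK
    · refine ⟨-(rh (J - 1) - k * (J - 1) - 1), -(al 0), -(rh 0 - 1),
        -(al (J - 1) - (k + 1) * (J - 1)), -((J : ℤ) - 1), 0, fun z => ?_⟩
      rw [Finset.mem_image]
      constructor
      · rintro ⟨p, hp, rfl⟩
        obtain ⟨n, h1, h2, h3, h4, h5, h6, h7⟩ := (hA' p).1 hp
        refine ⟨k * n - p.1, (k + 1) * n - p.1, ?_, by linarith, by linarith, by linarith,
          by linarith, by linarith, by linarith⟩
        ext
        · simp only [lin]
          ring
        · simp only [lin]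
          rw [h1]
          push_cast
          ring
      · rintro ⟨i, j, rfl, h4, h5, h2, h3, h6, h7⟩
        refine ⟨(k * (j - i) - i, (j - i) * (2 * k + 1 : ℕ)),
          (hA' _).2 ⟨j - i, rfl, by linarith, by linarith, ?_, ?_, ?_, ?_⟩, ?_⟩
        · show al 0 ≤ k * (j - i) - i - k * (j - i)
          linarith
        · show k * (j - i) - i - k * (j - i) ≤ _
          linarith
        · show _ ≤ k * (j - i) - i - (k + 1) * (j - i)
          linarith
        · show k * (j - i) - i - (k + 1) * (j - i) ≤ _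
          linarith
        · ext
          · simp only [lin]
            ring
          · simp only [lin]
            push_cast
            ring
    · ext z
      rw [Finset.mem_image, mem_Bk_add, sub_zero, mem_Bk]
      constructor
      · rintro ⟨p, hp, rfl⟩
        obtain ⟨i, hi, rfl⟩ := (hB p).1 hp
        rcases Nat.even_or_odd' i with ⟨l, hl | hl⟩
        · left
          simp only [lin]
          rw [hl, v0 l (by omega)]
          push_cast
          refine ⟨?_, ?_, ?_⟩
          · omega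
          · omega
          · ring
        · right
          simp only [lin]
          rw [hl, v1 l (by omega)]
          push_cast
          refine ⟨?_, ?_, ?_⟩
          · omega
          · omega
          · ring
      · rintro (⟨h1, h2, h3⟩ | ⟨h1, h2, h3⟩)
        · obtain ⟨n, hn⟩ := Int.eq_ofNat_of_zero_le h1
          refine ⟨(V (2 * n), ((2 * n : ℕ) : ℤ)), (hB _).2 ⟨2 * n, by omega, rfl⟩, ?_⟩
          ext
          · simp only [lin]
            rw [v0 n (by omega), hn]
            push_cast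
            ring
          · simp only [lin]
            rw [v0 n (by omega), h3]
            push_cast
            ring
        · obtain ⟨n, hn⟩ := Int.eq_ofNat_of_zero_le h1
          refine ⟨(V (2 * n + 1), ((2 * n + 1 : ℕ) : ℤ)),
            (hB _).2 ⟨2 * n + 1, by omega, rfl⟩, ?_⟩
          ext
          · simp only [lin]
            rw [v1 n (by omega), hn]
            push_cast
            ring
          · simp only [lin]
            rw [v1 n (by omega), h3]
            push_cast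
            ring
  · -- `0 1 .. (k-1) (k-1) .. (2k-1)`
    refine fam_of hk (a := k) (b := -(k - 1)) (c := 1) (d := -1) (u := (0, -1))
      (Or.inr (by ring)) ?_ ?_ hH hK
    · refine ⟨-((J : ℤ) - 1), 0, al (J - 1) - (2 * k - 1 + 1) * (J - 1), rh 0 - 1,
        -(rh (J - 1) - (2 * k - 1) * (J - 1) - 1), -(al 0), fun z => ?_⟩
      rw [Finset.mem_image]
      constructor
      · rintro ⟨p, hp, rfl⟩
        obtain ⟨n, h1, h2, h3, h4, h5, h6, h7⟩ := (hA' p).1 hp
        refine ⟨-n, p.1 - 2 * k * n, ?_, by linarith, by linarith, by linarith, by linarith,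
          by linarith, by linarith⟩
        ext
        · simp only [lin]
          rw [h1]
          push_cast
          ring
        · simp only [lin]
          rw [h1]
          push_cast
          ring
      · rintro ⟨i, j, rfl, h4, h5, h2, h3, h6, h7⟩
        refine ⟨(j - 2 * k * i, (-i) * (2 * k + 1 : ℕ)),
          (hA' _).2 ⟨-i, rfl, by linarith, by linarith, ?_, ?_, ?_, ?_⟩, ?_⟩
        · show al 0 ≤ j - 2 * k * i - (2 * k - 1) * (-i)
          linarith
        · show j - 2 * k * i - (2 * k - 1) * (-i) ≤ _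
          linarith
        · show _ ≤ j - 2 * k * i - (2 * k - 1 + 1) * (-i)
          linarith
        · show j - 2 * k * i - (2 * k - 1 + 1) * (-i) ≤ _
          linarith
        · ext
          · simp only [lin]
            push_cast
            ring
          · simp only [lin]
            push_cast
            ring
    · ext z
      rw [Finset.mem_image, mem_Bk_add, mem_Bk]
      simp only [Prod.fst_sub, Prod.snd_sub, sub_zero, sub_neg_eq_add]
      constructor
      · rintro ⟨p, hp, rfl⟩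
        obtain ⟨i, hi, rfl⟩ := (hB p).1 hp
        rcases Nat.lt_or_ge i k with h | h
        · right
          simp only [lin]
          rw [v0 i h]
          have e : (k : ℤ) * i + -(k - 1) * i = i := by ring
          rw [e]
          refine ⟨?_, ?_, ?_⟩
          · omega
          · omega
          · ring
        · left
          simp only [lin]
          rw [v1 i h hi]
          have e : (k : ℤ) * (i - 1) + -(k - 1) * i = i - k := by ring
          rw [e]
          refine ⟨?_, ?_, ?_⟩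
          · omega
          · omega
          · ring
      · rintro (⟨h1, h2, h3⟩ | ⟨h1, h2, h3⟩)
        · obtain ⟨n, hn⟩ := Int.eq_ofNat_of_zero_le h1
          refine ⟨(V (n + k), ((n + k : ℕ) : ℤ)), (hB _).2 ⟨n + k, by omega, rfl⟩, ?_⟩
          ext
          · simp only [lin]
            rw [v1 (n + k) (by omega) (by omega), hn]
            push_cast
            ring
          · simp only [lin]
            rw [v1 (n + k) (by omega) (by omega)]
            push_cast
            linarith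
        · obtain ⟨n, hn⟩ := Int.eq_ofNat_of_zero_le h1
          refine ⟨(V n, (n : ℤ)), (hB _).2 ⟨n, by omega, rfl⟩, ?_⟩
          ext
          · simp only [lin]
            rw [v0 n (by omega), hn]
            ring
          · simp only [lin]
            rw [v0 n (by omega)]
            linarith

theorem germ_fam {H K : Finset (ℤ × ℤ)} {L M h : ℕ} {xl : ℤ} {αH αK βH βK : ℕ → ℝ} {m : ℕ}
    {q : ℤ} (G : Germ H K L M h xl αH αK βH βK m q) : Fam H K := by
  classical
  have hB : (Cd.mk L M h m xl q αH αK βH βK).HexR :=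
    Cd.hexr_all (germ_ok G) (germ_lemX G)
  obtain ⟨k, J, V, V', al, rh, v, A, hk, R, I, hS, hV⟩ := hB
  have hJN : h + 1 = J * (2 * k + 1) := R.hJ
  have hrow : ∀ t < J, ∀ i < 2 * k + 1,
      ⌈αH (t * (2 * k + 1) + i)⌉ = al t + V i ∧
      ⌊βH (t * (2 * k + 1) + i)⌋ + (L : ℤ) = rh t + V i ∧
      ⌈αK (t * (2 * k + 1) + i)⌉ = al t + V' i ∧
      ⌊βK (t * (2 * k + 1) + i)⌋ + (L : ℤ) = rh t + V' i := R.row
  obtain ⟨N, hNk⟩ : ∃ N, N = 2 * k + 1 := ⟨_, rfl⟩
  have hN : 0 < N := by omega
  rw [← hNk] at hJN hrow hV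
  have key : ∀ (S : Finset (ℤ × ℤ)) (α β : ℕ → ℝ) (W : ℕ → ℤ),
      (∀ p ∈ S, 0 ≤ p.2 ∧ p.2 ≤ h) →
      (∀ (x : ℤ) (i : ℕ), i ≤ h → ((x, (i : ℤ)) ∈ S ↔ ⌈α i⌉ ≤ x ∧ x ≤ ⌊β i⌋ + L - 1)) →
      (∀ t < J, ∀ i < N, ⌈α (t * N + i)⌉ = al t + W i ∧
        ⌊β (t * N + i)⌋ + (L : ℤ) = rh t + W i) →
      ∀ p : ℤ × ℤ, p ∈ S ↔ ∃ j < J, ∃ i < N, p.2 = (j : ℤ) * N + i ∧
      al j + W i ≤ p.1 ∧ p.1 < rh j + W i := by
    intro S α β W hrows hmem hW p
    constructor
    · intro hp
      obtain ⟨h1, h2⟩ := hrows p hp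
      obtain ⟨n, hn⟩ := Int.eq_ofNat_of_zero_le h1
      have hn' : n ≤ h := by
        rw [hn] at h2
        exact_mod_cast h2
      have hdm := Nat.div_add_mod n N
      have hj : n / N < J := by
        rw [Nat.div_lt_iff_lt_mul hN]
        omega
      have hi : n % N < N := Nat.mod_lt n hN
      have hp' : (p.1, (n : ℤ)) ∈ S := by
        rw [← hn]
        exact hp
      have h3 := (hmem p.1 n hn').mp hp'
      have h4 := hW (n / N) hj (n % N) hi
      have h5 : n / N * N + n % N = n := by rw [mul_comm]; exact hdm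
      rw [h5] at h4
      refine ⟨n / N, hj, n % N, hi, ?_, ?_, ?_⟩
      · rw [hn]
        exact_mod_cast h5.symm
      · rw [← h4.1]
        exact h3.1
      · rw [← h4.2]
        have h6 := h3.2
        omega
    · rintro ⟨j, hj, i, hi, h1, h2, h3⟩
      have h4 := hW j hj i hi
      have hle : j * N + i ≤ h := by
        have h5 : (j + 1) * N ≤ J * N := Nat.mul_le_mul_right N hj
        rw [add_mul, one_mul] at h5
        omega
      have h6 : p = (p.1, ((j * N + i : ℕ) : ℤ)) := by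
        ext
        · rfl
        · rw [h1]
          push_cast
          ring
      rw [h6, hmem p.1 (j * N + i) hle, h4.1]
      refine ⟨h2, ?_⟩
      have h7 := h4.2
      omega
  obtain ⟨A0, hA0⟩ : ∃ A0 : Finset (ℤ × ℤ), ∀ p : ℤ × ℤ, p ∈ A0 ↔
      ∃ j < J, p.2 = (j : ℤ) * N ∧ al j ≤ p.1 ∧ p.1 < rh j := by
    refine ⟨(Finset.range J).biUnion fun j =>
      (Finset.Ico (al j) (rh j)).image fun x : ℤ => (x, (j : ℤ) * N), fun p => ?_⟩
    simp only [Finset.mem_biUnion, Finset.mem_range, Finset.mem_image, Finset.mem_Ico]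
    constructor
    · rintro ⟨j, hj, x, ⟨h1, h2⟩, rfl⟩
      exact ⟨j, hj, rfl, h1, h2⟩
    · rintro ⟨j, hj, h1, h2, h3⟩
      exact ⟨j, hj, p.1, ⟨h2, h3⟩, Prod.ext rfl h1.symm⟩
  obtain ⟨B0, hB0⟩ : ∃ B0 : Finset (ℤ × ℤ), ∀ p : ℤ × ℤ, p ∈ B0 ↔
      ∃ i < N, p = (V i, (i : ℤ)) := by
    refine ⟨(Finset.range N).image fun i : ℕ => (V i, (i : ℤ)), fun p => ?_⟩
    simp only [Finset.mem_image, Finset.mem_range]
    constructor
    · rintro ⟨i, hi, rfl⟩; exact ⟨i, hi, rfl⟩
    · rintro ⟨i, hi, rfl⟩; exact ⟨i, hi, rfl⟩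
  obtain ⟨h1, h2⟩ := final_sum hV
    (key H αH βH V G.rowsH G.memH fun t ht i hi => ⟨(hrow t ht i hi).1, (hrow t ht i hi).2.1⟩)
    (key K αK βK V' G.rowsK G.memK fun t ht i hi =>
      ⟨(hrow t ht i hi).2.2.1, (hrow t ht i hi).2.2.2⟩) hA0 hB0
  subst hNk
  exact fam_of_shape hk I hS hA0 hB0 h1 h2

/-- every non-trivially homometric pair of convex lattice sets belongs to the explicit family -/
theorem homometric_fam {H K : Finset (ℤ × ℤ)} (hH : H.Nonempty) (hK : K.Nonempty)
    (cH : LConv H) (cK : LConv K) (hc : ∀ x, cov H x = cov K x) (hnt : ¬ Trivial H K) :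
    Fam H K :=
  front_end_fam (fun _ _ _ _ _ _ _ _ _ _ _ _ G => germ_fam G) hH hK cH cK hc hnt

end Pool.Agent.Lib.MP_bb0bab_co
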