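import Mathlib

/-!
# MP_bb0bab_co: homometric pairs of planar convex lattice sets, definitions

Front end (geometry): support function, faces, boundary functions; the output is the structure
`Germ`, which is all that the combinatorial part uses.
-/

open scoped Pointwise

namespace Pool.Agent.Lib.MP_bb0bab_co

/-- `S` is lattice convex (literally the condition of the frozen statement). -/
def LConv (S : Finset (ℤ × ℤ)) : Prop :=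
  ∀ p : ℤ × ℤ, ((p.1 : ℝ), (p.2 : ℝ)) ∈
    convexHull ℝ ((fun q : ℤ × ℤ => ((q.1 : ℝ), (q.2 : ℝ))) '' (S : Set (ℤ × ℤ))) → p ∈ S

/-- the real convex hull of a lattice set -/
def hull (S : Finset (ℤ × ℤ)) : Set (ℝ × ℝ) :=
  convexHull ℝ ((fun q : ℤ × ℤ => ((q.1 : ℝ), (q.2 : ℝ))) '' (S : Set (ℤ × ℤ)))

/-- the covariogram -/
def cov (S : Finset (ℤ × ℤ)) (x : ℤ × ℤ) : ℕ := (S.filter (fun p => p - x ∈ S)).card

/-- the functional with coefficient vector `g` -/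
def ev (g p : ℤ × ℤ) : ℤ := g.1 * p.1 + g.2 * p.2

/-- support function (the maximum of `ev g` on `S`; only used for nonempty `S`) -/
noncomputable def supp (S : Finset (ℤ × ℤ)) (g : ℤ × ℤ) : ℤ :=
  sSup (ev g '' (S : Set (ℤ × ℤ)))

/-- the face of `S` in direction `g` -/
noncomputable def face (S : Finset (ℤ × ℤ)) (g : ℤ × ℤ) : Finset (ℤ × ℤ) :=
  S.filter (fun p => ev g p = supp S g)

/-- number of lattice steps of the face in direction `g` (for primitive `g`: the edge length) -/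
noncomputable def edge (S : Finset (ℤ × ℤ)) (g : ℤ × ℤ) : ℤ := ((face S g).card : ℤ) - 1

/-- primitive vectors -/
def Prim (g : ℤ × ℤ) : Prop := Int.gcd g.1 g.2 = 1

/-- determinant -/
def det2 (g g' : ℤ × ℤ) : ℤ := g.1 * g'.2 - g.2 * g'.1

/-- the pair is obtained by the construction (inner part of the frozen statement) -/
def Arises (K L : Finset (ℤ × ℤ)) : Prop :=
  ∃ A B : Finset (ℤ × ℤ),
    (A + B).card = A.card * B.card ∧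
    (A - B).card = A.card * B.card ∧
    K = A + B ∧
    ∃ t : ℤ × ℤ,
      L = (A - B).image (fun p => p + t) ∨ L = (A - B).image (fun p => -p + t)

/-- `L` is a translate of `±K` -/
def Trivial (K L : Finset (ℤ × ℤ)) : Prop :=
  ∃ t : ℤ × ℤ, L = K.image (fun p => p + t) ∨ L = K.image (fun p => -p + t)

/-- the linear map with matrix `(a b; c d)` -/
def lin (a b c d : ℤ) (p : ℤ × ℤ) : ℤ × ℤ := (a * p.1 + b * p.2, c * p.1 + d * p.2)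

/-! ### normalised pairs -/

/-- the normal form reached by the geometric front end: bottom row `[0, L-1]` and top row
`[xh, xh+M-1]` for both sets, `L > M`, all asymmetric directions have slopes in `[0,1]` -/
structure NormPair (H K : Finset (ℤ × ℤ)) (L M h : ℕ) (xh : ℤ) : Prop where
  convH : LConv H
  convK : LConv K
  hM : 1 ≤ M
  hLM : M < L
  hh : 1 ≤ h
  rowsH : ∀ p ∈ H, 0 ≤ p.2 ∧ p.2 ≤ h
  rowsK : ∀ p ∈ K, 0 ≤ p.2 ∧ p.2 ≤ h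
  botH : ∀ x : ℤ, (x, 0) ∈ H ↔ 0 ≤ x ∧ x < L
  botK : ∀ x : ℤ, (x, 0) ∈ K ↔ 0 ≤ x ∧ x < L
  topH : ∀ x : ℤ, (x, (h : ℤ)) ∈ H ↔ xh ≤ x ∧ x < xh + M
  topK : ∀ x : ℤ, (x, (h : ℤ)) ∈ K ↔ xh ≤ x ∧ x < xh + M
  hcov : ∀ x, cov H x = cov K x
  /-- directions with slope outside `[0,1]` are symmetric -/
  hsym : ∀ q p : ℤ, 0 < q → Prim (q, p) → (0 < p ∨ p < -q) → edge H (q, p) = edge H (-q, -p)
  hne : H ≠ K

/-- what the letters lemma uses: common bottom and top rows, and support functions which agree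
outside the open strip of slopes `(0,1)`.  Symmetric in `H`, `K`, and under `flip` and `turn`. -/
structure StripPair (H K : Finset (ℤ × ℤ)) (L M h : ℕ) (xh : ℤ) : Prop where
  convH : LConv H
  convK : LConv K
  hL : 1 ≤ L
  hM : 1 ≤ M
  hh : 1 ≤ h
  rowsH : ∀ p ∈ H, 0 ≤ p.2 ∧ p.2 ≤ h
  rowsK : ∀ p ∈ K, 0 ≤ p.2 ∧ p.2 ≤ h
  botH : ∀ x : ℤ, (x, 0) ∈ H ↔ 0 ≤ x ∧ x < L
  botK : ∀ x : ℤ, (x, 0) ∈ K ↔ 0 ≤ x ∧ x < L
  topH : ∀ x : ℤ, (x, (h : ℤ)) ∈ H ↔ xh ≤ x ∧ x < xh + M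
  topK : ∀ x : ℤ, (x, (h : ℤ)) ∈ K ↔ xh ≤ x ∧ x < xh + M
  eqp : ∀ q p : ℤ, 0 ≤ q → 0 ≤ p →
    supp H (q, p) = supp K (q, p) ∧ supp H (-q, -p) = supp K (-q, -p)
  eqn : ∀ q p : ℤ, 0 ≤ q → q ≤ p →
    supp H (q, -p) = supp K (q, -p) ∧ supp H (-q, p) = supp K (-q, p)

/-! ### boundary functions -/

/-- left boundary of the real hull at height `y` -/
noncomputable def lft (S : Finset (ℤ × ℤ)) (y : ℝ) : ℝ := sInf {x : ℝ | (x, y) ∈ hull S}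

/-- right boundary of the real hull at height `y` -/
noncomputable def rgt (S : Finset (ℤ × ℤ)) (y : ℝ) : ℝ := sSup {x : ℝ | (x, y) ∈ hull S}

/-- reflection `(x,y) ↦ (y - x + (L-1), y)`, exchanges left and right boundary -/
def flip (L : ℕ) (p : ℤ × ℤ) : ℤ × ℤ := (p.2 - p.1 + (L - 1), p.2)

/-- point reflection `(x,y) ↦ (xh + M - 1 - x, h - y)`, exchanges bottom and top -/
def turn (M h : ℕ) (xh : ℤ) (p : ℤ × ℤ) : ℤ × ℤ := (xh + M - 1 - p.1, h - p.2)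

/-- generating function of the integer interval `[a,b]` -/
noncomputable def rowPoly (a b : ℤ) : LaurentPolynomial ℤ :=
  ∑ x ∈ Finset.Icc a b, LaurentPolynomial.T x

/-! ### output of the front end -/

/-- first discrepancy of type `+` at `m` (with integer `q`): in terms of the real boundaries -/
structure FirstDisc (H K : Finset (ℤ × ℤ)) (L M h : ℕ) (xh : ℤ) (m : ℕ) (q : ℤ) : Prop where
  hm : 1 ≤ m
  hmh : 2 * m ≤ h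
  low : ∀ i : ℕ, i < m → ⌈lft H i⌉ = ⌈lft K i⌉ ∧ ⌊rgt H i⌋ = ⌊rgt K i⌋
  top : ∀ i : ℕ, i < m → ⌈lft H ((h - i : ℕ) : ℝ)⌉ = ⌈lft K ((h - i : ℕ) : ℝ)⌉ ∧
    ⌊rgt H ((h - i : ℕ) : ℝ)⌋ = ⌊rgt K ((h - i : ℕ) : ℝ)⌋
  lowH : ⌈lft H m⌉ = q ∧ ⌊rgt H m⌋ = q + L - 1
  lowK : ⌈lft K m⌉ = q + 1 ∧ ⌊rgt K m⌋ = q + L
  topK : ⌈lft K ((h - m : ℕ) : ℝ)⌉ = xh - q ∧ ⌊rgt K ((h - m : ℕ) : ℝ)⌋ = xh + M - 1 - q
  topH : ⌈lft H ((h - m : ℕ) : ℝ)⌉ = xh - q - 1 ∧ ⌊rgt H ((h - m : ℕ) : ℝ)⌋ = xh + M - 2 - q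

/-- Output of the front end, input of the combinatorial part.  `αH, αK` are the left boundaries at
integer heights, `βH, βK` the right boundaries minus `L-1`; row `i` of `H` is
`[⌈αH i⌉, ⌊βH i⌋ + L - 1]`.  The reversed rows are
`H⁻_j = [xl + M - 1 - (⌊βH (h-j)⌋ + L - 1), xl + M - 1 - ⌈αH (h-j)⌉]`. -/
structure Germ (H K : Finset (ℤ × ℤ)) (L M h : ℕ) (xl : ℤ) (αH αK βH βK : ℕ → ℝ)
    (m : ℕ) (q : ℤ) : Prop where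
  convH : LConv H
  convK : LConv K
  hcov : ∀ x, cov H x = cov K x
  hM : 1 ≤ M
  hLM : M < L
  hm : 1 ≤ m
  hmh : 2 * m ≤ h
  rowsH : ∀ p ∈ H, 0 ≤ p.2 ∧ p.2 ≤ h
  rowsK : ∀ p ∈ K, 0 ≤ p.2 ∧ p.2 ≤ h
  memH : ∀ (x : ℤ) (i : ℕ), i ≤ h → ((x, (i : ℤ)) ∈ H ↔ ⌈αH i⌉ ≤ x ∧ x ≤ ⌊βH i⌋ + L - 1)
  memK : ∀ (x : ℤ) (i : ℕ), i ≤ h → ((x, (i : ℤ)) ∈ K ↔ ⌈αK i⌉ ≤ x ∧ x ≤ ⌊βK i⌋ + L - 1)
  αH0 : αH 0 = 0
  αK0 : αK 0 = 0
  βH0 : βH 0 = 0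
  βK0 : βK 0 = 0
  αHh : αH h = xl
  αKh : αK h = xl
  βHh : βH h = xl - (L - M)
  βKh : βK h = xl - (L - M)
  αβH : ∀ i ≤ h, αH i ≤ βH i + L - 1
  αβK : ∀ i ≤ h, αK i ≤ βK i + L - 1
  αH_inc : ∀ i < h, αH i ≤ αH (i + 1) ∧ αH (i + 1) ≤ αH i + 1
  αK_inc : ∀ i < h, αK i ≤ αK (i + 1) ∧ αK (i + 1) ≤ αK i + 1
  βH_inc : ∀ i < h, βH i ≤ βH (i + 1) ∧ βH (i + 1) ≤ βH i + 1
  βK_inc : ∀ i < h, βK i ≤ βK (i + 1) ∧ βK (i + 1) ≤ βK i + 1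
  αH_conv : ∀ i, i + 2 ≤ h → αH (i + 1) - αH i ≤ αH (i + 2) - αH (i + 1)
  αK_conv : ∀ i, i + 2 ≤ h → αK (i + 1) - αK i ≤ αK (i + 2) - αK (i + 1)
  βH_conc : ∀ i, i + 2 ≤ h → βH (i + 2) - βH (i + 1) ≤ βH (i + 1) - βH i
  βK_conc : ∀ i, i + 2 ≤ h → βK (i + 2) - βK (i + 1) ≤ βK (i + 1) - βK i
  /-- identity of the rows, for every `s ≤ h` -/
  ident : ∀ s : ℕ, s ≤ h →
    ∑ i ∈ Finset.range (s + 1), rowPoly ⌈αH i⌉ (⌊βH i⌋ + L - 1) *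
      rowPoly (xl + M - 1 - (⌊βH (h - (s - i))⌋ + L - 1)) (xl + M - 1 - ⌈αH (h - (s - i))⌉) =
    ∑ i ∈ Finset.range (s + 1), rowPoly ⌈αK i⌉ (⌊βK i⌋ + L - 1) *
      rowPoly (xl + M - 1 - (⌊βK (h - (s - i))⌋ + L - 1)) (xl + M - 1 - ⌈αK (h - (s - i))⌉)
  low : ∀ i < m, ⌈αH i⌉ = ⌈αK i⌉ ∧ ⌊βH i⌋ = ⌊βK i⌋
  top : ∀ i < m, ⌈αH (h - i)⌉ = ⌈αK (h - i)⌉ ∧ ⌊βH (h - i)⌋ = ⌊βK (h - i)⌋
  lowH : ⌈αH m⌉ = q ∧ ⌊βH m⌋ = q
  lowK : ⌈αK m⌉ = q + 1 ∧ ⌊βK m⌋ = q + 1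
  topK : ⌈αK (h - m)⌉ = xl - q ∧ ⌊βK (h - m)⌋ = xl - (L - M) - q
  topH : ⌈αH (h - m)⌉ = xl - q - 1 ∧ ⌊βH (h - m)⌋ = xl - (L - M) - q - 1

end Pool.Agent.Lib.MP_bb0bab_co
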