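import Pool.Agent.Lib.MP_bb0bab_co.Defs

/-!
# FE01 support function (SUP)
-/

open scoped Pointwise

namespace Pool.Agent.Lib.MP_bb0bab_co

theorem supp_eq_of {S : Finset (ℤ × ℤ)} {p : ℤ × ℤ} (hp : p ∈ S) (g : ℤ × ℤ)
    (h : ∀ q ∈ S, ev g q ≤ ev g p) : supp S g = ev g p := by
  unfold supp
  apply IsGreatest.csSup_eq
  refine ⟨⟨p, by exact_mod_cast hp, rfl⟩, ?_⟩
  rintro _ ⟨q, hq, rfl⟩
  exact h q (by exact_mod_cast hq)

theorem exists_supp {S : Finset (ℤ × ℤ)} (hS : S.Nonempty) (g : ℤ × ℤ) :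
    ∃ p ∈ S, ev g p = supp S g := by
  obtain ⟨p, hp, hmax⟩ := Finset.exists_max_image S (ev g) hS
  exact ⟨p, hp, (supp_eq_of hp g hmax).symm⟩

theorem ev_le_supp {S : Finset (ℤ × ℤ)} {p : ℤ × ℤ} (hp : p ∈ S) (g : ℤ × ℤ) :
    ev g p ≤ supp S g := by
  obtain ⟨q, hq, hmax⟩ := Finset.exists_max_image S (ev g) ⟨p, hp⟩
  rw [supp_eq_of hq g hmax]
  exact hmax p hp

theorem supp_smul {S : Finset (ℤ × ℤ)} (hS : S.Nonempty) (g : ℤ × ℤ) (k : ℕ) :
    supp S ((k : ℤ) * g.1, (k : ℤ) * g.2) = k * supp S g := by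
  obtain ⟨p, hp, hpm⟩ := exists_supp hS g
  have e : ∀ q : ℤ × ℤ, ev ((k : ℤ) * g.1, (k : ℤ) * g.2) q = (k : ℤ) * ev g q := by
    intro q
    simp only [ev]
    ring
  rw [supp_eq_of hp, e, hpm]
  intro q hq
  rw [e, e, hpm]
  exact mul_le_mul_of_nonneg_left (ev_le_supp hq g) (by positivity)

theorem supp_lin {S : Finset (ℤ × ℤ)} (hS : S.Nonempty) (a b c d : ℤ) (g : ℤ × ℤ) :
    supp (S.image (lin a b c d)) g = supp S (a * g.1 + c * g.2, b * g.1 + d * g.2) := by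
  obtain ⟨p, hp, hpm⟩ := exists_supp hS (a * g.1 + c * g.2, b * g.1 + d * g.2)
  have e : ∀ q : ℤ × ℤ, ev g (lin a b c d q) = ev (a * g.1 + c * g.2, b * g.1 + d * g.2) q := by
    intro q
    simp only [ev, lin]
    ring
  rw [supp_eq_of (Finset.mem_image_of_mem (lin a b c d) hp), e, hpm]
  intro q hq
  obtain ⟨q', hq', rfl⟩ := Finset.mem_image.1 hq
  rw [e, e, hpm]
  exact ev_le_supp hq' _

theorem supp_translate {S : Finset (ℤ × ℤ)} (hS : S.Nonempty) (t g : ℤ × ℤ) :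
    supp (S.image (fun p => p + t)) g = supp S g + ev g t := by
  obtain ⟨p, hp, hpm⟩ := exists_supp hS g
  have e : ∀ q : ℤ × ℤ, ev g (q + t) = ev g q + ev g t := by
    intro q
    simp only [ev, Prod.fst_add, Prod.snd_add]
    ring
  rw [supp_eq_of (Finset.mem_image_of_mem (fun p => p + t) hp), e, hpm]
  intro q hq
  obtain ⟨q', hq', rfl⟩ := Finset.mem_image.1 hq
  rw [e, e, hpm]
  exact add_le_add (ev_le_supp hq' _) le_rfl

theorem supp_add_le {S : Finset (ℤ × ℤ)} (hS : S.Nonempty) (g g' : ℤ × ℤ) :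
    supp S (g + g') ≤ supp S g + supp S g' := by
  obtain ⟨p, hp, hpm⟩ := exists_supp hS (g + g')
  have e : ev (g + g') p = ev g p + ev g' p := by
    simp only [ev, Prod.fst_add, Prod.snd_add]
    ring
  rw [← hpm, e]
  exact add_le_add (ev_le_supp hp _) (ev_le_supp hp _)

/-- points of the real hull satisfy the support inequalities -/
theorem hull_le_supp {S : Finset (ℤ × ℤ)} {x y : ℝ} (h : (x, y) ∈ hull S) (g : ℤ × ℤ) :
    (g.1 : ℝ) * x + (g.2 : ℝ) * y ≤ supp S g := by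
  have hc : Convex ℝ {z : ℝ × ℝ | (g.1 : ℝ) * z.1 + (g.2 : ℝ) * z.2 ≤ supp S g} := by
    intro z hz w hw a b ha hb hab
    simp only [Set.mem_setOf_eq, Prod.fst_add, Prod.snd_add, Prod.smul_fst, Prod.smul_snd,
      smul_eq_mul] at *
    have hb' : b = 1 - a := by linarith
    subst hb'
    nlinarith [mul_le_mul_of_nonneg_left hz ha, mul_le_mul_of_nonneg_left hw hb]
  have hsub : (fun q : ℤ × ℤ => ((q.1 : ℝ), (q.2 : ℝ))) '' (S : Set (ℤ × ℤ)) ⊆
      {z : ℝ × ℝ | (g.1 : ℝ) * z.1 + (g.2 : ℝ) * z.2 ≤ supp S g} := by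
    rintro _ ⟨q, hq, rfl⟩
    have := ev_le_supp (S := S) (p := q) (by exact_mod_cast hq) g
    simp only [ev] at this
    simp only [Set.mem_setOf_eq]
    exact_mod_cast this
  exact convexHull_min hsub hc h

end Pool.Agent.Lib.MP_bb0bab_co
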