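import Pool.Agent.Lib.MP_bb0bab_co.FE01

/-!
# FE02 separation by integer functionals (SEP)

PROOFS. `hull_sep`.  `hull S` is convex and compact (`Set.Finite.isCompact_convexHull`), so closed, and
`z = (x,y)` is outside: `geometric_hahn_banach_closed_point` gives a continuous linear `f : ℝ × ℝ →L[ℝ] ℝ`
and `u` with `f a < u < f z` for all `a` in the hull; write `f (a,b) = v₁ a + v₂ b`, `v₁ = f (1,0)`,
`v₂ = f (0,1)`.  So for every `p ∈ S`: `v₁ (x - p.1) + v₂ (y - p.2) > 0`: finitely many strict inequalities,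
all continuous in `v`.  Let `δ > 0` be the minimum of these numbers over `p ∈ S` and `R` a bound for all
`|x - p.1|, |y - p.2|`.  Choose a natural `n ≥ 1` with `2 R / n < δ`... explicitly: put
`g = (⌊n v₁⌋, ⌊n v₂⌋)`; then `g.1 (x - p.1) + g.2 (y - p.2) ≥ n δ - 2 R > 0` for every `p` as soon as
`n > 2R/δ`.  Taking `p` the maximiser of `ev g` (`exists_supp`) gives the claim.
(Alternative: density of `ℚ × ℚ` in `ℝ × ℝ` for the open set of good `v` (finite intersection of open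
sets), then clear denominators.)
`supp_determines`: by symmetry it is enough that `H ⊆ K`.  If `p ∈ H`, `p ∉ K`, then `(p.1,p.2) ∉ hull K`
by `cK` (unfold `hull`), so `hull_sep` gives `g` with `supp K g < ev g p ≤ supp H g = supp K g` (cast to
integers), contradiction.
-/

open scoped Pointwise

namespace Pool.Agent.Lib.MP_bb0bab_co

/-- a real point outside the hull is separated strictly by an integer functional -/
theorem hull_sep {S : Finset (ℤ × ℤ)} (hS : S.Nonempty) {x y : ℝ} (h : (x, y) ∉ hull S) :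
    ∃ g : ℤ × ℤ, (supp S g : ℝ) < (g.1 : ℝ) * x + (g.2 : ℝ) * y := by
  have hconv : Convex ℝ (hull S) := convex_convexHull ℝ _
  have hfin : ((fun q : ℤ × ℤ => ((q.1 : ℝ), (q.2 : ℝ))) '' (S : Set (ℤ × ℤ))).Finite :=
    S.finite_toSet.image _
  have hcl : IsClosed (hull S) := (hfin.isCompact_convexHull (𝕜 := ℝ)).isClosed
  obtain ⟨f, u, hf1, hf2⟩ := geometric_hahn_banach_closed_point hconv hcl h
  have hf : ∀ a b : ℝ, f (a, b) = a * f (1, 0) + b * f (0, 1) := by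
    intro a b
    have e : ((a, b) : ℝ × ℝ) = a • ((1 : ℝ), (0 : ℝ)) + b • ((0 : ℝ), (1 : ℝ)) := by
      ext <;> simp
    rw [e, map_add, map_smul, map_smul, smul_eq_mul, smul_eq_mul]
  obtain ⟨v₁, hv₁⟩ : ∃ v, v = f (1, 0) := ⟨_, rfl⟩
  obtain ⟨v₂, hv₂⟩ : ∃ v, v = f (0, 1) := ⟨_, rfl⟩
  have hpos : ∀ p ∈ S, 0 < v₁ * (x - p.1) + v₂ * (y - p.2) := by
    intro p hp
    have h1 : f ((p.1 : ℝ), (p.2 : ℝ)) < u :=
      hf1 _ (subset_convexHull ℝ _ ⟨p, hp, rfl⟩)
    rw [hf] at h1 hf2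
    rw [hv₁, hv₂]
    nlinarith
  obtain ⟨p₀, hp₀, hmin⟩ := Finset.exists_min_image S
    (fun p : ℤ × ℤ => v₁ * (x - p.1) + v₂ * (y - p.2)) hS
  obtain ⟨p₁, hp₁, hmax⟩ := Finset.exists_max_image S
    (fun p : ℤ × ℤ => |x - p.1| + |y - p.2|) hS
  set δ := v₁ * (x - p₀.1) + v₂ * (y - p₀.2) with hδ
  set R := |x - p₁.1| + |y - p₁.2| with hR
  have δpos : 0 < δ := hpos p₀ hp₀
  obtain ⟨n, hn⟩ := exists_nat_gt (R / δ)
  have hn' : R < n * δ := by rwa [div_lt_iff₀ δpos] at hn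
  refine ⟨(⌊n * v₁⌋, ⌊n * v₂⌋), ?_⟩
  obtain ⟨p, hp, hpm⟩ := exists_supp hS (⌊n * v₁⌋, ⌊n * v₂⌋)
  rw [← hpm]
  simp only [ev]
  push_cast
  have h1 := hmin p hp
  have h2 := hmax p hp
  have a1 := Int.floor_le (n * v₁)
  have a2 := Int.lt_floor_add_one (n * v₁)
  have b1 := Int.floor_le (n * v₂)
  have b2 := Int.lt_floor_add_one (n * v₂)
  have key : ∀ w r z : ℝ, r ≤ w → w < r + 1 → w * z - |z| ≤ r * z := by
    intro w r z h1 h2
    rcases le_total 0 z with hz | hz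
    · rw [abs_of_nonneg hz]; nlinarith
    · rw [abs_of_nonpos hz]; nlinarith
  have k1 := key (n * v₁) ⌊n * v₁⌋ (x - p.1) a1 a2
  have k2 := key (n * v₂) ⌊n * v₂⌋ (y - p.2) b1 b2
  have k3 : (n : ℝ) * δ ≤ n * (v₁ * (x - p.1) + v₂ * (y - p.2)) :=
    mul_le_mul_of_nonneg_left h1 (Nat.cast_nonneg n)
  nlinarith

private theorem supp_determines_le {H K : Finset (ℤ × ℤ)} (hK : K.Nonempty)
    (cK : LConv K) (h : ∀ g, supp H g = supp K g) : H ⊆ K := by
  intro p hp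
  by_contra hpk
  have h1 : ((p.1 : ℝ), (p.2 : ℝ)) ∉ hull K := fun hh => hpk (cK p hh)
  obtain ⟨g, hg⟩ := hull_sep hK h1
  have h2 := ev_le_supp hp g
  rw [h g] at h2
  simp only [ev] at h2
  have h3 : (g.1 : ℝ) * p.1 + (g.2 : ℝ) * p.2 ≤ supp K g := by exact_mod_cast h2
  linarith

theorem supp_determines {H K : Finset (ℤ × ℤ)} (hH : H.Nonempty) (hK : K.Nonempty)
    (cH : LConv H) (cK : LConv K) (h : ∀ g, supp H g = supp K g) : H = K :=
  Finset.Subset.antisymm (supp_determines_le hK cK h)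
    (supp_determines_le hH cH (fun g => (h g).symm))

end Pool.Agent.Lib.MP_bb0bab_co
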