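import Pool.Agent.Lib.MP_bb0bab_co.FE01

/-!
# FE03 the covariogram determines the widths (WID)

PROOF. For nonempty `S` put `w_S = supp S g + supp S (-g)`.  (i) `cov S x ≠ 0` iff there is `p ∈ S` with
`p - x ∈ S`, and then `ev g x = ev g p - ev g (p - x) ≤ supp S g + supp S (-g)` (use
`ev (-g) q = - ev g q`, `ev_le_supp`).  (ii) With `p`, `q` maximisers of `g` and of `-g`, `x = p - q` has
`cov S x ≠ 0` and `ev g x = w_S`.  Apply (ii) to `H` and (i) to `K` and vice versa.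
-/

open scoped Pointwise

namespace Pool.Agent.Lib.MP_bb0bab_co

theorem cov_pos_iff (S : Finset (ℤ × ℤ)) (x : ℤ × ℤ) :
    0 < cov S x ↔ ∃ p ∈ S, p - x ∈ S := by
  unfold cov
  rw [Finset.card_pos]
  constructor
  · rintro ⟨p, hp⟩
    rw [Finset.mem_filter] at hp
    exact ⟨p, hp.1, hp.2⟩
  · rintro ⟨p, hp, hpx⟩
    exact ⟨p, Finset.mem_filter.2 ⟨hp, hpx⟩⟩

private theorem cov_width_le {H K : Finset (ℤ × ℤ)} (hH : H.Nonempty)
    (hc : ∀ x, cov H x = cov K x) (g : ℤ × ℤ) :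
    supp H g + supp H (-g) ≤ supp K g + supp K (-g) := by
  obtain ⟨p, hp, hpg⟩ := exists_supp hH g
  obtain ⟨q, hq, hqg⟩ := exists_supp hH (-g)
  have h1 : 0 < cov H (p - q) := (cov_pos_iff H (p - q)).2 ⟨p, hp, by simpa using hq⟩
  rw [hc] at h1
  obtain ⟨r, hr, hr2⟩ := (cov_pos_iff K (p - q)).1 h1
  have h2 := ev_le_supp hr g
  have h3 := ev_le_supp hr2 (-g)
  have e1 : ev (-g) (r - (p - q)) = - ev g r + ev g p + ev (-g) q := by
    simp only [ev, Prod.fst_neg, Prod.snd_neg, Prod.fst_sub, Prod.snd_sub]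
    ring
  rw [← hpg, ← hqg]
  linarith

theorem cov_width {H K : Finset (ℤ × ℤ)} (hH : H.Nonempty) (hK : K.Nonempty)
    (hc : ∀ x, cov H x = cov K x) (g : ℤ × ℤ) :
    supp H g + supp H (-g) = supp K g + supp K (-g) :=
  le_antisymm (cov_width_le hH hc g) (cov_width_le hK (fun x => (hc x).symm) g)

end Pool.Agent.Lib.MP_bb0bab_co
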