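import Pool.Agent.Lib.MP_bb0bab_co.FE01

/-!
# FE04 faces are lattice segments (FACE)
-/

open scoped Pointwise

namespace Pool.Agent.Lib.MP_bb0bab_co

/-- a lattice point which is a rational convex combination of two points of `S` is in `S` -/
theorem LConv.between {S : Finset (ℤ × ℤ)} (cS : LConv S) {P Q R : ℤ × ℤ} (hP : P ∈ S)
    (hQ : Q ∈ S) {n k : ℤ} (hn : 0 < n) (hk0 : 0 ≤ k) (hkn : k ≤ n)
    (h1 : n * R.1 = (n - k) * P.1 + k * Q.1) (h2 : n * R.2 = (n - k) * P.2 + k * Q.2) : R ∈ S := by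
  apply cS R
  have hPm : (((P.1 : ℝ), (P.2 : ℝ)) : ℝ × ℝ) ∈
      convexHull ℝ ((fun q : ℤ × ℤ => ((q.1 : ℝ), (q.2 : ℝ))) '' (S : Set (ℤ × ℤ))) :=
    subset_convexHull ℝ _ ⟨P, by exact_mod_cast hP, rfl⟩
  have hQm : (((Q.1 : ℝ), (Q.2 : ℝ)) : ℝ × ℝ) ∈
      convexHull ℝ ((fun q : ℤ × ℤ => ((q.1 : ℝ), (q.2 : ℝ))) '' (S : Set (ℤ × ℤ))) :=
    subset_convexHull ℝ _ ⟨Q, by exact_mod_cast hQ, rfl⟩
  have hnR : (0 : ℝ) < (n : ℝ) := by exact_mod_cast hn
  have ha : (0 : ℝ) ≤ ((n : ℝ) - k) / n := by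
    apply div_nonneg _ hnR.le
    have : (k : ℝ) ≤ n := by exact_mod_cast hkn
    linarith
  have hb : (0 : ℝ) ≤ (k : ℝ) / n := div_nonneg (by exact_mod_cast hk0) hnR.le
  have hab : ((n : ℝ) - k) / n + (k : ℝ) / n = 1 := by
    field_simp
    ring
  have := (convex_convexHull ℝ ((fun q : ℤ × ℤ => ((q.1 : ℝ), (q.2 : ℝ))) ''
    (S : Set (ℤ × ℤ)))) hPm hQm ha hb hab
  have e1 : (n : ℝ) * R.1 = ((n : ℝ) - k) * P.1 + k * Q.1 := by exact_mod_cast h1
  have e2 : (n : ℝ) * R.2 = ((n : ℝ) - k) * P.2 + k * Q.2 := by exact_mod_cast h2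
  have heq : (((n : ℝ) - k) / n) • (((P.1 : ℝ), (P.2 : ℝ)) : ℝ × ℝ) +
      ((k : ℝ) / n) • (((Q.1 : ℝ), (Q.2 : ℝ)) : ℝ × ℝ) = ((R.1 : ℝ), (R.2 : ℝ)) := by
    ext
    · simp only [Prod.fst_add, Prod.smul_fst, smul_eq_mul]
      field_simp
      linarith
    · simp only [Prod.snd_add, Prod.smul_snd, smul_eq_mul]
      field_simp
      linarith
  rw [heq] at this
  exact this

theorem face_eq {S : Finset (ℤ × ℤ)} (hS : S.Nonempty) (cS : LConv S) {g : ℤ × ℤ} (hg : Prim g) :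
    0 ≤ edge S g ∧ ∃ s : ℤ × ℤ, ∀ p : ℤ × ℤ, p ∈ face S g ↔
      ∃ t : ℤ, 0 ≤ t ∧ t ≤ edge S g ∧ p = (s.1 - t * g.2, s.2 + t * g.1) := by
  obtain ⟨u, v, huv⟩ : ∃ u v : ℤ, u * g.1 + v * g.2 = 1 := by
    have h := Int.gcd_eq_gcd_ab g.1 g.2
    unfold Prim at hg
    rw [hg] at h
    refine ⟨Int.gcdA g.1 g.2, Int.gcdB g.1 g.2, ?_⟩
    push_cast at h
    linarith
  set c := supp S g with hc
  set F := face S g with hF
  -- the parameter
  let T : ℤ × ℤ → ℤ := fun p => u * p.2 - v * p.1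
  let P : ℤ → ℤ × ℤ := fun t => (c * u - t * g.2, c * v + t * g.1)
  have hPT : ∀ p : ℤ × ℤ, ev g p = c → P (T p) = p := by
    intro p hp
    simp only [ev] at hp
    have h1 : c * u - (u * p.2 - v * p.1) * g.2 = p.1 := by
      rw [← hp]
      linear_combination p.1 * huv
    have h2 : c * v + (u * p.2 - v * p.1) * g.1 = p.2 := by
      rw [← hp]
      linear_combination p.2 * huv
    exact Prod.ext h1 h2
  have hTP : ∀ t, T (P t) = t := by
    intro t
    simp only [T, P]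
    linear_combination t * huv
  have hevP : ∀ t, ev g (P t) = c := by
    intro t
    simp only [ev, P]
    linear_combination c * huv
  have hmemF : ∀ p, p ∈ F ↔ p ∈ S ∧ ev g p = c := by
    intro p
    simp only [hF, face, Finset.mem_filter, hc]
  have hFne : F.Nonempty := by
    obtain ⟨p, hp, he⟩ := exists_supp hS g
    exact ⟨p, (hmemF p).2 ⟨hp, he⟩⟩
  have hinj : Set.InjOn T (F : Set (ℤ × ℤ)) := by
    intro p hp q hq hpq
    have hp' := ((hmemF p).1 (by exact_mod_cast hp)).2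
    have hq' := ((hmemF q).1 (by exact_mod_cast hq)).2
    rw [← hPT p hp', ← hPT q hq', hpq]
  set Ts := F.image T with hTs
  have hTsne : Ts.Nonempty := hFne.image T
  set t0 := Ts.min' hTsne with ht0
  set t1 := Ts.max' hTsne with ht1
  have hle : t0 ≤ t1 := Finset.min'_le _ _ (Finset.max'_mem _ _)
  have hPmem : ∀ t ∈ Ts, P t ∈ S := by
    intro t ht
    obtain ⟨p, hp, rfl⟩ := Finset.mem_image.1 ht
    have := (hmemF p).1 hp
    rw [hPT p this.2]
    exact this.1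
  have hIcc : Ts = Finset.Icc t0 t1 := by
    ext t
    rw [Finset.mem_Icc]
    constructor
    · intro ht
      exact ⟨Finset.min'_le _ _ ht, Finset.le_max' _ _ ht⟩
    · rintro ⟨h0, h1⟩
      have hPS : P t ∈ S := by
        rcases eq_or_lt_of_le hle with he | hlt
        · have : t = t0 := by omega
          rw [this]
          exact hPmem _ (Finset.min'_mem _ _)
        · refine cS.between (hPmem t0 (Finset.min'_mem _ _)) (hPmem t1 (Finset.max'_mem _ _))
            (n := t1 - t0) (k := t - t0) (by omega) (by omega) (by omega) ?_ ?_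
          · simp only [P]
            ring
          · simp only [P]
            ring
      have : P t ∈ F := (hmemF _).2 ⟨hPS, hevP t⟩
      have := Finset.mem_image_of_mem T this
      rwa [hTP t] at this
  have hcard : (F.card : ℤ) = t1 - t0 + 1 := by
    have h1 : Ts.card = F.card := Finset.card_image_of_injOn hinj
    have h2 : Ts.card = (t1 + 1 - t0).toNat := by
      rw [hIcc, Int.card_Icc]
    omega
  have hedge : edge S g = t1 - t0 := by
    simp only [edge]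
    rw [← hF]
    omega
  refine ⟨by omega, P t0, ?_⟩
  intro p
  rw [hedge]
  constructor
  · intro hp
    have hT : T p ∈ Ts := Finset.mem_image_of_mem T hp
    rw [hIcc, Finset.mem_Icc] at hT
    refine ⟨T p - t0, by omega, by omega, ?_⟩
    have := hPT p ((hmemF p).1 hp).2
    conv_lhs => rw [← this]
    simp only [P]
    ext
    · simp only []
      ring
    · simp only []
      ring
  · rintro ⟨t, ht0', ht1', rfl⟩
    have hmem : t0 + t ∈ Ts := by
      rw [hIcc, Finset.mem_Icc]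
      omega
    have hpt : ((P t0).1 - t * g.2, (P t0).2 + t * g.1) = P (t0 + t) := by
      simp only [P]
      ext
      · simp only []
        ring
      · simp only []
        ring
    rw [hpt]
    exact (hmemF _).2 ⟨hPmem _ hmem, hevP _⟩

theorem edge_bound {S : Finset (ℤ × ℤ)} (hS : S.Nonempty) (cS : LConv S) :
    ∃ B : ℤ, ∀ g, Prim g → 1 ≤ edge S g → |g.1| ≤ B ∧ |g.2| ≤ B := by
  obtain ⟨A, hA⟩ : ∃ A : ℤ, ∀ p ∈ S, |p.1| ≤ A ∧ |p.2| ≤ A := by
    obtain ⟨p, hp, hm⟩ := Finset.exists_max_image S (fun p => max |p.1| |p.2|) hS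
    refine ⟨max |p.1| |p.2|, fun q hq => ?_⟩
    have := hm q hq
    exact ⟨le_trans (le_max_left _ _) this, le_trans (le_max_right _ _) this⟩
  refine ⟨2 * A, fun g hg h1 => ?_⟩
  obtain ⟨h0, s, hs⟩ := face_eq hS cS hg
  have hs0 : ((s.1 - 0 * g.2, s.2 + 0 * g.1) : ℤ × ℤ) ∈ S :=
    (Finset.mem_filter.1 ((hs _).2 ⟨0, le_rfl, h0, rfl⟩)).1
  have hs1 : ((s.1 - 1 * g.2, s.2 + 1 * g.1) : ℤ × ℤ) ∈ S :=
    (Finset.mem_filter.1 ((hs _).2 ⟨1, by norm_num, h1, rfl⟩)).1
  have a0 := hA _ hs0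
  have a1 := hA _ hs1
  simp only [abs_le] at *
  constructor <;> constructor <;> linarith [a0.1.1, a0.1.2, a0.2.1, a0.2.2, a1.1.1, a1.1.2, a1.2.1, a1.2.2]

end Pool.Agent.Lib.MP_bb0bab_co
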