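import Pool.Agent.Lib.MP_bb0bab_co.FE03
import Pool.Agent.Lib.MP_bb0bab_co.FE04

/-!
# FE05 the two opposite edge lengths are determined up to order (PAIR)
-/

open scoped Pointwise

namespace Pool.Agent.Lib.MP_bb0bab_co

theorem ev_neg_left (g p : ℤ × ℤ) : ev (-g) p = - ev g p := by
  simp only [ev, Prod.fst_neg, Prod.snd_neg]
  ring

theorem prim_neg {g : ℤ × ℤ} (hg : Prim g) : Prim (-g) := by
  unfold Prim at *
  simpa [Prod.fst_neg, Prod.snd_neg, Int.gcd_neg, Int.neg_gcd] using hg

/-- kernel of a primitive functional -/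
theorem prim_kernel {g : ℤ × ℤ} (hg : Prim g) {x : ℤ × ℤ} (hx : ev g x = 0) :
    ∃ k : ℤ, x = (-(k * g.2), k * g.1) := by
  obtain ⟨u, v, huv⟩ : ∃ u v : ℤ, u * g.1 + v * g.2 = 1 := by
    have h := Int.gcd_eq_gcd_ab g.1 g.2
    unfold Prim at hg
    rw [hg] at h
    refine ⟨Int.gcdA g.1 g.2, Int.gcdB g.1 g.2, ?_⟩
    push_cast at h
    linarith
  simp only [ev] at hx
  refine ⟨u * x.2 - v * x.1, ?_⟩
  refine Prod.ext ?_ ?_
  · show x.1 = -((u * x.2 - v * x.1) * g.2)
    linear_combination (-x.1) * huv + u * hx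
  · show x.2 = (u * x.2 - v * x.1) * g.1
    linear_combination (-x.2) * huv + v * hx

theorem step_inj {g : ℤ × ℤ} (hg : Prim g) {i j : ℤ} (h1 : i * g.2 = j * g.2)
    (h2 : i * g.1 = j * g.1) : i = j := by
  obtain ⟨u, v, huv⟩ : ∃ u v : ℤ, u * g.1 + v * g.2 = 1 := by
    have h := Int.gcd_eq_gcd_ab g.1 g.2
    unfold Prim at hg
    rw [hg] at h
    refine ⟨Int.gcdA g.1 g.2, Int.gcdB g.1 g.2, ?_⟩
    push_cast at h
    linarith
  linear_combination (j - i) * huv + u * h2 + v * h1

/-- the covariogram on the line of extreme differences -/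
theorem cov_trapezoid {S : Finset (ℤ × ℤ)} (hS : S.Nonempty) (cS : LConv S) {g : ℤ × ℤ}
    (hg : Prim g) :
    ∃ c : ℤ × ℤ, ev g c = supp S g + supp S (-g) ∧ ∀ k : ℤ,
      (cov S (c.1 - k * g.2, c.2 + k * g.1) : ℤ) =
        max 0 (min (edge S g) (k + edge S (-g)) - max 0 k + 1) := by
  obtain ⟨he, s, hs⟩ := face_eq hS cS hg
  obtain ⟨he', s'', hs''⟩ := face_eq hS cS (prim_neg hg)
  set e := edge S g with hedef
  set e' := edge S (-g) with hedef'
  obtain ⟨s', hs'⟩ : ∃ s' : ℤ × ℤ, ∀ p : ℤ × ℤ, p ∈ face S (-g) ↔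
      ∃ t : ℤ, 0 ≤ t ∧ t ≤ e' ∧ p = (s'.1 - t * g.2, s'.2 + t * g.1) := by
    refine ⟨(s''.1 + e' * g.2, s''.2 - e' * g.1), fun p => ?_⟩
    rw [hs'']
    constructor
    · rintro ⟨t, h0, h1, rfl⟩
      refine ⟨e' - t, by omega, by omega, ?_⟩
      simp only [Prod.fst_neg, Prod.snd_neg]
      refine Prod.ext ?_ ?_
      · simp only []
        ring
      · simp only []
        ring
    · rintro ⟨t, h0, h1, rfl⟩
      refine ⟨e' - t, by omega, by omega, ?_⟩
      simp only [Prod.fst_neg, Prod.snd_neg]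
      refine Prod.ext ?_ ?_
      · simp only []
        ring
      · simp only []
        ring
  have hsmem : s ∈ face S g := (hs s).2 ⟨0, le_rfl, he, by simp⟩
  have hs'mem : s' ∈ face S (-g) := (hs' s').2 ⟨0, le_rfl, he', by simp⟩
  have hsS := Finset.mem_filter.1 hsmem
  have hs'S := Finset.mem_filter.1 hs'mem
  have ec : ev g (s - s') = supp S g + supp S (-g) := by
    have h1 := hsS.2
    have h2 := hs'S.2
    rw [ev_neg_left] at h2
    have h3 : ev g (s - s') = ev g s - ev g s' := by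
      simp only [ev, Prod.fst_sub, Prod.snd_sub]
      ring
    rw [h3]
    linarith
  refine ⟨s - s', ec, fun k => ?_⟩
  set x : ℤ × ℤ := ((s - s').1 - k * g.2, (s - s').2 + k * g.1) with hx
  have hevx : ev g x = supp S g + supp S (-g) := by
    rw [← ec]
    simp only [hx, ev]
    ring
  have hset : S.filter (fun p => p - x ∈ S) =
      (Finset.Icc (max 0 k) (min e (k + e'))).image
        (fun i : ℤ => ((s.1 - i * g.2, s.2 + i * g.1) : ℤ × ℤ)) := by
    ext p
    rw [Finset.mem_filter, Finset.mem_image]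
    constructor
    · rintro ⟨hp, hpx⟩
      have h1 := ev_le_supp hp g
      have h2 := ev_le_supp hpx (-g)
      rw [ev_neg_left] at h2
      have h3 : ev g (p - x) = ev g p - ev g x := by
        simp only [ev, Prod.fst_sub, Prod.snd_sub]
        ring
      rw [h3, hevx] at h2
      have hp1 : p ∈ face S g := Finset.mem_filter.2 ⟨hp, by linarith⟩
      have hp2 : p - x ∈ face S (-g) := by
        refine Finset.mem_filter.2 ⟨hpx, ?_⟩
        rw [ev_neg_left, h3, hevx]
        linarith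
      obtain ⟨i, hi0, hi1, hpi⟩ := (hs p).1 hp1
      obtain ⟨j, hj0, hj1, hpj⟩ := (hs' _).1 hp2
      have hij : j = i - k := by
        rw [hpi] at hpj
        have q1 := congrArg Prod.fst hpj
        have q2 := congrArg Prod.snd hpj
        simp only [hx, Prod.fst_sub, Prod.snd_sub] at q1 q2
        apply step_inj hg
        · linear_combination q1
        · linear_combination -q2
      refine ⟨i, ?_, hpi.symm⟩
      rw [Finset.mem_Icc]
      omega
    · rintro ⟨i, hi, rfl⟩
      rw [Finset.mem_Icc] at hi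
      have hp1 : ((s.1 - i * g.2, s.2 + i * g.1) : ℤ × ℤ) ∈ face S g :=
        (hs _).2 ⟨i, by omega, by omega, rfl⟩
      have hp2 : ((s.1 - i * g.2, s.2 + i * g.1) : ℤ × ℤ) - x ∈ face S (-g) := by
        refine (hs' _).2 ⟨i - k, by omega, by omega, ?_⟩
        refine Prod.ext ?_ ?_
        · simp only [hx, Prod.fst_sub]
          ring
        · simp only [hx, Prod.snd_sub]
          ring
      exact ⟨(Finset.mem_filter.1 hp1).1, (Finset.mem_filter.1 hp2).1⟩
  have hinj : Function.Injective (fun i : ℤ => ((s.1 - i * g.2, s.2 + i * g.1) : ℤ × ℤ)) := by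
    intro i j hij
    have q1 := congrArg Prod.fst hij
    have q2 := congrArg Prod.snd hij
    simp only at q1 q2
    apply step_inj hg
    · linarith
    · linarith
  have hcard : cov S x = (min e (k + e') + 1 - max 0 k).toNat := by
    rw [cov, hset, Finset.card_image_of_injective _ hinj, Int.card_Icc]
  rw [hcard]
  omega

theorem trap_pos {a a' k : ℤ} (h : 0 < max 0 (min a (k + a') - max 0 k + 1)) :
    -a' ≤ k ∧ k ≤ a := by
  omega

theorem trap_le {a a' k : ℤ} (ha : 0 ≤ a) (ha' : 0 ≤ a') :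
    max 0 (min a (k + a') - max 0 k + 1) ≤ min a a' + 1 := by
  omega

theorem trap_zero {a a' : ℤ} (ha : 0 ≤ a) (ha' : 0 ≤ a') :
    max 0 (min a (0 + a') - max 0 0 + 1) = min a a' + 1 := by
  omega

theorem trap_right {a a' : ℤ} (ha : 0 ≤ a) (ha' : 0 ≤ a') :
    max 0 (min a (a + a') - max 0 a + 1) = 1 := by
  omega

theorem trap_left {a a' : ℤ} (ha : 0 ≤ a) (ha' : 0 ≤ a') :
    max 0 (min a (-a' + a') - max 0 (-a') + 1) = 1 := by
  omega

theorem edge_pair {H K : Finset (ℤ × ℤ)} (hH : H.Nonempty) (hK : K.Nonempty)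
    (cH : LConv H) (cK : LConv K) (hc : ∀ x, cov H x = cov K x) {g : ℤ × ℤ} (hg : Prim g) :
    (edge H g = edge K g ∧ edge H (-g) = edge K (-g)) ∨
      (edge H g = edge K (-g) ∧ edge H (-g) = edge K g) := by
  obtain ⟨c, hc1, hcH⟩ := cov_trapezoid hH cH hg
  obtain ⟨d, hd1, hdK⟩ := cov_trapezoid hK cK hg
  have hw := cov_width hH hK hc g
  obtain ⟨m, hm⟩ := prim_kernel hg (x := d - c) (by
    have : ev g (d - c) = ev g d - ev g c := by
      simp only [ev, Prod.fst_sub, Prod.snd_sub]
      ring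
    rw [this, hc1, hd1]
    linarith)
  have hm1 := congrArg Prod.fst hm
  have hm2 := congrArg Prod.snd hm
  simp only [Prod.fst_sub, Prod.snd_sub] at hm1 hm2
  have key : ∀ k : ℤ, max 0 (min (edge H g) (k + edge H (-g)) - max 0 k + 1) =
      max 0 (min (edge K g) ((k - m) + edge K (-g)) - max 0 (k - m) + 1) := by
    intro k
    rw [← hcH k, ← hdK (k - m), hc]
    have : ((c.1 - k * g.2, c.2 + k * g.1) : ℤ × ℤ) =
        (d.1 - (k - m) * g.2, d.2 + (k - m) * g.1) := by
      refine Prod.ext ?_ ?_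
      · simp only []
        linear_combination -hm1
      · simp only []
        linear_combination -hm2
    rw [this]
  have e1 := (face_eq hH cH hg).1
  have e2 := (face_eq hH cH (prim_neg hg)).1
  have e3 := (face_eq hK cK hg).1
  have e4 := (face_eq hK cK (prim_neg hg)).1
  have k1 := key (edge H g)
  rw [trap_right e1 e2] at k1
  have r1 := trap_pos (k1 ▸ (by norm_num : (0 : ℤ) < 1))
  have k3 := key (-edge H (-g))
  rw [trap_left e1 e2] at k3
  have r3 := trap_pos (k3 ▸ (by norm_num : (0 : ℤ) < 1))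
  have k5 := key 0
  rw [trap_zero e1 e2] at k5
  have r5 := k5.trans_le (trap_le e3 e4)
  have k6 := key (m + edge K g)
  rw [show m + edge K g - m = edge K g by ring, trap_right e3 e4] at k6
  have r6 := trap_pos (k6 ▸ (by norm_num : (0 : ℤ) < 1))
  have k7 := key (m + (-edge K (-g)))
  rw [show m + (-edge K (-g)) - m = -edge K (-g) by ring, trap_left e3 e4] at k7
  have r7 := trap_pos (k7 ▸ (by norm_num : (0 : ℤ) < 1))
  have k8 := key m
  rw [sub_self, trap_zero e3 e4] at k8
  have r8 := k8.symm.trans_le (trap_le e1 e2)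
  clear k1 k3 k5 k6 k7 k8 key hcH hdK
  omega

end Pool.Agent.Lib.MP_bb0bab_co
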