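import Pool.Agent.Lib.MP_bb0bab_co.FE04

/-!
# FE06 second difference of the support function (SD)

PROOF. Put `g = g₁ + g₂`; `g` is primitive since `det2 g₁ g = det2 g₁ g₂ = ±1`
(`Int.isCoprime_iff_gcd_eq_one`, Bezout from the determinant).  `face S g = {s + t (-g.2, g.1) : 0 ≤ t ≤ e}`
by `face_eq`, `e = edge S g`.  On the face `ev g = supp S g`, and
`ev g₁ (s + t(-g.2, g.1)) = ev g₁ s - t det2 g₁ g`... (check: `g₁.1 (-g.2) + g₁.2 g.1 = - det2 g₁ g = ∓1`), so on the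
face `ev g₁` takes exactly the values of an interval of length `e`; let `a ≤ a + e` be its minimum and maximum;
there are `p₋, p₊` in the face with `ev g₁ p₋ = a`, `ev g₁ p₊ = a + e`.
Let `N₀` be a natural number `≥ |ev g₁ p - ev g₁ p'| + |ev g₂ p - ev g₂ p'|` for all `p, p' ∈ S`.  For `N ≥ N₀`:
`supp S (g₁ + N g) = N supp S g + a + e`: `p₊` attains the value (`ev (g₁ + N g) p₊ = a + e + N supp S g`), and
for `p ∈ S`: if `p ∈ face S g` then `ev g₁ p ≤ a + e`; otherwise `ev g p ≤ supp S g - 1`, so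
`ev (g₁ + N g) p ≤ ev g₁ p + N supp S g - N ≤ ev g₁ p₊ + N supp S g`.  (`supp_eq_of`.)
In the same way `supp S (g₂ + N g) = N supp S g + max_face ev g₂` and on the face
`ev g₂ = supp S g - ev g₁`, so `max_face ev g₂ = supp S g - a`, attained at `p₋`.
Sum: `2 N supp S g + supp S g + e`.
-/

open scoped Pointwise

namespace Pool.Agent.Lib.MP_bb0bab_co

theorem prim_add_of_det {g₁ g₂ : ℤ × ℤ} (hdet : det2 g₁ g₂ = 1 ∨ det2 g₁ g₂ = -1) :
    Prim (g₁ + g₂) := by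
  unfold Prim
  rw [← Int.isCoprime_iff_gcd_eq_one]
  simp only [det2] at hdet
  rcases hdet with h | h
  · exact ⟨-g₁.2, g₁.1, by simp only [Prod.fst_add, Prod.snd_add]; linear_combination h⟩
  · exact ⟨g₁.2, -g₁.1, by simp only [Prod.fst_add, Prod.snd_add]; linear_combination -h⟩

/-- for large `N` the maximum of `g₁ + N g` is taken on the face of `g` -/
private theorem supp_far {S : Finset (ℤ × ℤ)} (g g₁ : ℤ × ℤ) {p : ℤ × ℤ}
    (hp : p ∈ face S g) (hmax : ∀ q ∈ face S g, ev g₁ q ≤ ev g₁ p) (N : ℤ) (hN0 : 0 ≤ N)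
    (hN : ∀ q ∈ S, ev g₁ q - ev g₁ p ≤ N) :
    supp S (g₁.1 + N * g.1, g₁.2 + N * g.2) = ev g₁ p + N * supp S g := by
  have hpS : p ∈ S := (Finset.mem_filter.1 hp).1
  have hpg : ev g p = supp S g := (Finset.mem_filter.1 hp).2
  have e : ∀ q : ℤ × ℤ, ev (g₁.1 + N * g.1, g₁.2 + N * g.2) q = ev g₁ q + N * ev g q := by
    intro q
    simp only [ev]
    ring
  rw [supp_eq_of hpS, e, hpg]
  intro q hq
  rw [e, e, hpg]
  by_cases hqf : ev g q = supp S g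
  · have := hmax q (Finset.mem_filter.2 ⟨hq, hqf⟩)
    rw [hqf]
    linarith
  · have h1 : ev g q ≤ supp S g - 1 := by
      have := ev_le_supp hq g
      omega
    have h2 := hN q hq
    nlinarith

theorem second_diff {S : Finset (ℤ × ℤ)} (hS : S.Nonempty) (cS : LConv S) (g₁ g₂ : ℤ × ℤ)
    (hdet : det2 g₁ g₂ = 1 ∨ det2 g₁ g₂ = -1) :
    ∃ N₀ : ℕ, ∀ N : ℕ, N₀ ≤ N →
      supp S (g₁.1 + N * (g₁.1 + g₂.1), g₁.2 + N * (g₁.2 + g₂.2)) +
        supp S (g₂.1 + N * (g₁.1 + g₂.1), g₂.2 + N * (g₁.2 + g₂.2)) =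
      (2 * N + 1) * supp S (g₁ + g₂) + edge S (g₁ + g₂) := by
  have hprim := prim_add_of_det hdet
  obtain ⟨he, s, hs⟩ := face_eq hS cS hprim
  obtain ⟨e, hee⟩ : ∃ e, e = edge S (g₁ + g₂) := ⟨_, rfl⟩
  rw [← hee] at he hs ⊢
  -- the two ends of the face
  have hp0 : (s.1, s.2) ∈ face S (g₁ + g₂) := (hs _).2 ⟨0, le_refl _, he, by ext <;> simp⟩
  have hp1 : (s.1 - e * (g₁ + g₂).2, s.2 + e * (g₁ + g₂).1) ∈ face S (g₁ + g₂) :=
    (hs _).2 ⟨e, he, le_refl _, rfl⟩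
  have ev1 : ∀ t : ℤ, ev g₁ (s.1 - t * (g₁ + g₂).2, s.2 + t * (g₁ + g₂).1) =
      ev g₁ s - t * det2 g₁ g₂ := by
    intro t
    simp only [ev, det2, Prod.fst_add, Prod.snd_add]
    ring
  have ev2 : ∀ t : ℤ, ev g₂ (s.1 - t * (g₁ + g₂).2, s.2 + t * (g₁ + g₂).1) =
      ev g₂ s + t * det2 g₁ g₂ := by
    intro t
    simp only [ev, det2, Prod.fst_add, Prod.snd_add]
    ring
  have hsupp : ev g₁ s + ev g₂ s = supp S (g₁ + g₂) := by
    have := (Finset.mem_filter.1 hp0).2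
    rw [← this]
    simp only [ev, Prod.fst_add, Prod.snd_add]
    ring
  -- large N
  obtain ⟨a₁, ha₁, hma₁⟩ := Finset.exists_max_image S (ev g₁) hS
  obtain ⟨b₁, hb₁, hmb₁⟩ := Finset.exists_min_image S (ev g₁) hS
  obtain ⟨a₂, ha₂, hma₂⟩ := Finset.exists_max_image S (ev g₂) hS
  obtain ⟨b₂, hb₂, hmb₂⟩ := Finset.exists_min_image S (ev g₂) hS
  refine ⟨(ev g₁ a₁ - ev g₁ b₁ + (ev g₂ a₂ - ev g₂ b₂)).toNat, fun N hN => ?_⟩
  have hN' : ev g₁ a₁ - ev g₁ b₁ + (ev g₂ a₂ - ev g₂ b₂) ≤ N := by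
    have := Int.toNat_le.1 hN
    exact this
  have d1 : 0 ≤ ev g₁ a₁ - ev g₁ b₁ := by have := hma₁ b₁ hb₁; linarith
  have d2 : 0 ≤ ev g₂ a₂ - ev g₂ b₂ := by have := hma₂ b₂ hb₂; linarith
  have n1 : ∀ p ∈ S, ∀ q ∈ S, ev g₁ q - ev g₁ p ≤ N := by
    intro p hp q hq
    have := hma₁ q hq
    have := hmb₁ p hp
    linarith
  have n2 : ∀ p ∈ S, ∀ q ∈ S, ev g₂ q - ev g₂ p ≤ N := by
    intro p hp q hq
    have := hma₂ q hq
    have := hmb₂ p hp
    linarith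
  have hin : ∀ q, q ∈ face S (g₁ + g₂) → q ∈ S := fun q hq => (Finset.mem_filter.1 hq).1
  have key := @supp_far S (g₁ + g₂) g₁
  have key2 := @supp_far S (g₁ + g₂) g₂
  simp only [Prod.fst_add, Prod.snd_add] at key key2
  rcases hdet with h | h
  · rw [h] at ev1 ev2
    rw [key (p := (s.1, s.2)) hp0 ?_ N (Int.natCast_nonneg N) (fun q hq => n1 _ (hin _ hp0) q hq),
      key2 hp1 ?_ N (Int.natCast_nonneg N) (fun q hq => n2 _ (hin _ hp1) q hq)]
    · rw [ev2]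
      linear_combination hsupp
    · intro q hq
      obtain ⟨t, ht0, hte, rfl⟩ := (hs q).1 hq
      rw [ev2, ev2]
      linarith
    · intro q hq
      obtain ⟨t, ht0, hte, rfl⟩ := (hs q).1 hq
      rw [ev1]
      show _ ≤ ev g₁ s
      linarith
  · rw [h] at ev1 ev2
    rw [key hp1 ?_ N (Int.natCast_nonneg N) (fun q hq => n1 _ (hin _ hp1) q hq),
      key2 (p := (s.1, s.2)) hp0 ?_ N (Int.natCast_nonneg N) (fun q hq => n2 _ (hin _ hp0) q hq)]
    · rw [ev1]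
      linear_combination hsupp
    · intro q hq
      obtain ⟨t, ht0, hte, rfl⟩ := (hs q).1 hq
      rw [ev2]
      show _ ≤ ev g₂ s
      linarith
    · intro q hq
      obtain ⟨t, ht0, hte, rfl⟩ := (hs q).1 hq
      rw [ev1, ev1]
      linarith

end Pool.Agent.Lib.MP_bb0bab_co
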