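import Pool.Agent.Lib.MP_bb0bab_co.FE01

/-!
# FE07 additivity on deep cones (DEEP)

PROOF. `≤` is `supp_add_le`.  Let `p` be a maximiser of `g₁ + g₂` on `S`.  If `p` is a maximiser of `g₁` and
of `g₂`, then `supp S (g₁+g₂) = ev g₁ p + ev g₂ p = supp S g₁ + supp S g₂`.  Otherwise, by symmetry of the
statement (`det2 g₂ g₁ = - det2 g₁ g₂`), there is `q ∈ S` with `ev g₁ q > ev g₁ p`.  Put `u = q - p`,
`s = ev g₁ u ≥ 1`, and `ev (g₁+g₂) u ≤ 0`, so `ev g₂ u = -t` with `t ≥ s ≥ 1`.  Cramer, with `D = det2 g₁ g₂ = ±1`: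
`D u.1 = g₂.2 s + g₁.2 t`, `D u.2 = -(g₂.1 s + g₁.1 t)` (linear_combination), so
`|u.1| + |u.2| = s (g₂.1 + g₂.2) + t (g₁.1 + g₁.2) ≥ g₁.1 + g₁.2 + g₂.1 + g₂.2 > B`, contradicting `hB q p`.
-/

open scoped Pointwise

namespace Pool.Agent.Lib.MP_bb0bab_co

private theorem deep_aux {S : Finset (ℤ × ℤ)} (B : ℤ)
    (hB : ∀ p ∈ S, ∀ q ∈ S, |p.1 - q.1| + |p.2 - q.2| ≤ B) (g₁ g₂ : ℤ × ℤ)
    (h11 : 0 ≤ g₁.1) (h12 : 0 ≤ g₁.2) (h21 : 0 ≤ g₂.1) (h22 : 0 ≤ g₂.2)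
    (hdet : det2 g₁ g₂ = 1 ∨ det2 g₁ g₂ = -1) (hs : B < g₁.1 + g₁.2 + g₂.1 + g₂.2)
    {p : ℤ × ℤ} (hp : p ∈ S) (hmax : ∀ q ∈ S, ev (g₁ + g₂) q ≤ ev (g₁ + g₂) p) :
    ∀ q ∈ S, ev g₁ q ≤ ev g₁ p := by
  intro q hq
  by_contra hlt
  rw [not_le] at hlt
  have hm := hmax q hq
  have hb := hB q hq p hp
  obtain ⟨a, b⟩ := g₁
  obtain ⟨c, d⟩ := g₂
  obtain ⟨x, y⟩ := p
  obtain ⟨x', y'⟩ := q
  simp only [ev, det2, Prod.fst_add, Prod.snd_add] at *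
  obtain ⟨s, hs'⟩ : ∃ s, s = a * (x' - x) + b * (y' - y) := ⟨_, rfl⟩
  obtain ⟨t, ht'⟩ : ∃ t, t = -(c * (x' - x) + d * (y' - y)) := ⟨_, rfl⟩
  have s1 : 1 ≤ s := by rw [hs']; linarith
  have t1 : s ≤ t := by rw [hs', ht']; linarith
  have e1 : (a * d - b * c) * (x' - x) = d * s + b * t := by rw [hs', ht']; ring
  have e2 : (a * d - b * c) * (y' - y) = -(c * s + a * t) := by rw [hs', ht']; ring
  have p1 : d + b ≤ d * s + b * t := by nlinarith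
  have p2 : c + a ≤ c * s + a * t := by nlinarith
  rcases hdet with h | h
  · rw [h] at e1 e2
    have a1 : d + b ≤ |x' - x| := by
      have := le_abs_self (x' - x)
      linarith
    have a2 : c + a ≤ |y' - y| := by
      have := neg_le_abs (y' - y)
      linarith
    linarith
  · rw [h] at e1 e2
    have a1 : d + b ≤ |x' - x| := by
      have := neg_le_abs (x' - x)
      linarith
    have a2 : c + a ≤ |y' - y| := by
      have := le_abs_self (y' - y)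
      linarith
    linarith

theorem deep_cone {S : Finset (ℤ × ℤ)} (hS : S.Nonempty) (B : ℤ)
    (hB : ∀ p ∈ S, ∀ q ∈ S, |p.1 - q.1| + |p.2 - q.2| ≤ B) (g₁ g₂ : ℤ × ℤ)
    (h11 : 0 ≤ g₁.1) (h12 : 0 ≤ g₁.2) (h21 : 0 ≤ g₂.1) (h22 : 0 ≤ g₂.2)
    (hdet : det2 g₁ g₂ = 1 ∨ det2 g₁ g₂ = -1) (hs : B < g₁.1 + g₁.2 + g₂.1 + g₂.2) :
    supp S (g₁ + g₂) = supp S g₁ + supp S g₂ := by
  obtain ⟨p, hp, hpg⟩ := exists_supp hS (g₁ + g₂)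
  have hmax : ∀ q ∈ S, ev (g₁ + g₂) q ≤ ev (g₁ + g₂) p := fun q hq => by
    rw [hpg]; exact ev_le_supp hq _
  have h1 := deep_aux B hB g₁ g₂ h11 h12 h21 h22 hdet hs hp hmax
  have hdet' : det2 g₂ g₁ = 1 ∨ det2 g₂ g₁ = -1 := by
    have : det2 g₂ g₁ = - det2 g₁ g₂ := by simp only [det2]; ring
    rw [this]
    rcases hdet with h | h
    · right; rw [h]
    · left; rw [h]; norm_num
  have hmax' : ∀ q ∈ S, ev (g₂ + g₁) q ≤ ev (g₂ + g₁) p := by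
    rw [add_comm g₂ g₁]; exact hmax
  have h2 := deep_aux B hB g₂ g₁ h21 h22 h11 h12 hdet' (by linarith) hp hmax'
  rw [supp_eq_of hp g₁ h1, supp_eq_of hp g₂ h2, ← hpg]
  simp only [ev, Prod.fst_add, Prod.snd_add]
  ring

end Pool.Agent.Lib.MP_bb0bab_co
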