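import Pool.Agent.Lib.MP_bb0bab_co.Defs

/-!
# FE08 abstract linearity lemma on the positive quadrant (FAREY)

PROOFS. `farey_parents`: for coprime `a, b ≥ 1` (as integers) there are `g₁, g₂` in the closed positive quadrant,
`g₁ + g₂ = (a,b)`, `det2 g₁ g₂ = 1`.  Bezout: choose `x, y` with `x b - y a = 1` and `0 ≤ x`... precisely choose
`0 ≤ y < b` with `y a ≡ -1 (mod b)`, `x = (1 + y a)/b`; then `0 < x` and `x b = 1 + y a ≤ 1 + (b-1) a`, so
`x ≤ a` (as `1 - a ≤ 0`); `g₁ = (x, y)`, `g₂ = (a - x, b - y)`, `det2 g₁ g₂ = x (b - y) - y (a - x) = x b - y a = 1`.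

`farey_linear`.  STEP A.  For every pair `g₁, g₂` in the closed quadrant with `det2 = ±1`:
`F (g₁ + g₂) = F g₁ + F g₂`.  Induction on the natural number `n = (B + 1 - (s(g₁) + s(g₂))).toNat`, where
`s(g) = g.1 + g.2` (strong induction over all pairs).  If `B < s(g₁) + s(g₂)` use `hB`.  Otherwise put
`g = g₁ + g₂`.  `s(g₁), s(g₂) ≥ 1` (nonzero vectors of the quadrant).  For every `k`, the pair
`(g₁ + k g, g)` is in the quadrant, has `det2 (g₁ + k g) g = det2 g₁ g₂ = ±1` and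
`s(g₁ + k g) + s(g) ≥ s(g₁) + s(g) > s(g₁) + s(g₂)`; by the induction hypothesis
`F (g₁ + (k+1) g) = F (g₁ + k g) + F g`; hence (induction on `N`) `F (g₁ + N g) = F g₁ + N F g`, and in the same
way `F (g₂ + N g) = F g₂ + N F g`.  With `N = N₀` of `h2`: `F g₁ + F g₂ + 2 N F g = (2 N + 1) F g`.

STEP B.  For coprime `a, b ∈ ℕ` the formula holds: strong induction on `a + b`.  If `b = 0` then `a = 1`; if
`a = 0` then `b = 1` (`F (1,0) = 1 F (1,0) + 0 F (0,1)`).  Otherwise `farey_parents`: the parents have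
`det2 = 1`, so they are primitive with smaller coordinate sum (each has `s ≥ 1`); apply the induction hypothesis
to both and STEP A.
STEP C.  General `(a, b)`: `(0,0)` by `hH _ 0`; otherwise divide by the gcd `k` and use `hH`.
-/

open scoped Pointwise

namespace Pool.Agent.Lib.MP_bb0bab_co

theorem farey_parents (a b : ℤ) (ha : 1 ≤ a) (hb : 1 ≤ b) (hab : Prim (a, b)) :
    ∃ g₁ g₂ : ℤ × ℤ, 0 ≤ g₁.1 ∧ 0 ≤ g₁.2 ∧ 0 ≤ g₂.1 ∧ 0 ≤ g₂.2 ∧ g₁ + g₂ = (a, b) ∧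
      det2 g₁ g₂ = 1 := by
  have hgcd : ((Int.gcd a b : ℕ) : ℤ) = 1 := by
    have : Int.gcd a b = 1 := hab
    rw [this]; rfl
  have hbez := Int.gcd_eq_gcd_ab a b
  rw [hgcd] at hbez
  set u := Int.gcdA a b
  set w := Int.gcdB a b
  set y := (-u) % b with hy
  set k := -((-u) / b) with hk
  have h1 : y = -u + b * k := by
    have := Int.emod_add_mul_ediv (-u) b
    rw [hy, hk]; linarith
  have hy0 : 0 ≤ y := Int.emod_nonneg _ (by omega)
  have hyb : y < b := Int.emod_lt_of_pos _ (by omega)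
  set x := w + k * a with hx
  have hxb : x * b = 1 + y * a := by
    rw [hx, h1]; linarith
  have hx1 : 1 ≤ x := by
    by_contra hcon
    have : x ≤ 0 := by omega
    nlinarith [mul_nonneg hy0 (by omega : (0 : ℤ) ≤ a)]
  have hxa : x ≤ a := by
    by_contra hcon
    have h2 : a + 1 ≤ x := by omega
    nlinarith [mul_nonneg (by omega : (0 : ℤ) ≤ b - 1 - y) (by omega : (0 : ℤ) ≤ a)]
  refine ⟨(x, y), (a - x, b - y), by change 0 ≤ x; omega, hy0, by change 0 ≤ a - x; omega,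
    by change 0 ≤ b - y; omega, ?_, ?_⟩
  · ext
    · change x + (a - x) = a; ring
    · change y + (b - y) = b; ring
  · change x * (b - y) - y * (a - x) = 1
    linarith

theorem farey_sum_pos {g₁ g₂ : ℤ × ℤ} (h1 : 0 ≤ g₁.1) (h2 : 0 ≤ g₁.2)
    (hd : det2 g₁ g₂ = 1 ∨ det2 g₁ g₂ = -1) : 1 ≤ g₁.1 + g₁.2 := by
  by_contra hcon
  have e1 : g₁.1 = 0 := by omega
  have e2 : g₁.2 = 0 := by omega
  unfold det2 at hd
  rw [e1, e2] at hd
  simp at hd

theorem farey_stepA (F : ℤ × ℤ → ℤ) (B : ℤ)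
    (hB : ∀ g₁ g₂ : ℤ × ℤ, 0 ≤ g₁.1 → 0 ≤ g₁.2 → 0 ≤ g₂.1 → 0 ≤ g₂.2 →
      (det2 g₁ g₂ = 1 ∨ det2 g₁ g₂ = -1) → B < g₁.1 + g₁.2 + g₂.1 + g₂.2 →
      F (g₁ + g₂) = F g₁ + F g₂)
    (h2 : ∀ g₁ g₂ : ℤ × ℤ, 0 ≤ g₁.1 → 0 ≤ g₁.2 → 0 ≤ g₂.1 → 0 ≤ g₂.2 →
      (det2 g₁ g₂ = 1 ∨ det2 g₁ g₂ = -1) →
      ∃ N₀ : ℕ, ∀ N : ℕ, N₀ ≤ N →
        F (g₁.1 + N * (g₁.1 + g₂.1), g₁.2 + N * (g₁.2 + g₂.2)) +
          F (g₂.1 + N * (g₁.1 + g₂.1), g₂.2 + N * (g₁.2 + g₂.2)) =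
        (2 * N + 1) * F (g₁ + g₂)) :
    ∀ (n : ℕ) (g₁ g₂ : ℤ × ℤ), 0 ≤ g₁.1 → 0 ≤ g₁.2 → 0 ≤ g₂.1 → 0 ≤ g₂.2 →
      (det2 g₁ g₂ = 1 ∨ det2 g₁ g₂ = -1) → B + 1 - (g₁.1 + g₁.2 + g₂.1 + g₂.2) ≤ n →
      F (g₁ + g₂) = F g₁ + F g₂ := by
  intro n
  induction n with
  | zero =>
    intro g₁ g₂ a1 a2 b1 b2 hd hn
    exact hB g₁ g₂ a1 a2 b1 b2 hd (by push_cast at hn; omega)
  | succ n ih =>
    intro g₁ g₂ a1 a2 b1 b2 hd hn
    push_cast at hn
    have hdet' : det2 g₂ g₁ = - det2 g₁ g₂ := by unfold det2; ring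
    have hd' : det2 g₂ g₁ = 1 ∨ det2 g₂ g₁ = -1 := by
      rw [hdet']; rcases hd with h | h <;> rw [h] <;> simp
    have s1 := farey_sum_pos a1 a2 hd
    have s2 := farey_sum_pos b1 b2 hd'
    have key : ∀ u : ℤ × ℤ, 0 ≤ u.1 → 0 ≤ u.2 → (det2 u (g₁ + g₂) = 1 ∨ det2 u (g₁ + g₂) = -1) →
        ∀ N : ℕ, F (u.1 + N * (g₁.1 + g₂.1), u.2 + N * (g₁.2 + g₂.2)) = F u + N * F (g₁ + g₂) := by
      intro u u1 u2 hu N
      have s3 := farey_sum_pos u1 u2 hu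
      induction N with
      | zero => simp
      | succ N ihN =>
        have n1 : 0 ≤ (N : ℤ) * (g₁.1 + g₂.1) := mul_nonneg (by positivity) (by omega)
        have n2 : 0 ≤ (N : ℤ) * (g₁.2 + g₂.2) := mul_nonneg (by positivity) (by omega)
        have h3 := ih (u.1 + N * (g₁.1 + g₂.1), u.2 + N * (g₁.2 + g₂.2)) (g₁ + g₂)
          (by change 0 ≤ u.1 + N * (g₁.1 + g₂.1); omega)
          (by change 0 ≤ u.2 + N * (g₁.2 + g₂.2); omega)
          (by change 0 ≤ g₁.1 + g₂.1; omega) (by change 0 ≤ g₁.2 + g₂.2; omega)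
          (by
            have : det2 (u.1 + N * (g₁.1 + g₂.1), u.2 + N * (g₁.2 + g₂.2)) (g₁ + g₂) =
                det2 u (g₁ + g₂) := by
              unfold det2
              simp only [Prod.fst_add, Prod.snd_add]
              ring
            rw [this]; exact hu)
          (by
            simp only [Prod.fst_add, Prod.snd_add]
            omega)
        have e : ((u.1 + N * (g₁.1 + g₂.1), u.2 + N * (g₁.2 + g₂.2)) : ℤ × ℤ) + (g₁ + g₂) =
            (u.1 + ((N + 1 : ℕ) : ℤ) * (g₁.1 + g₂.1), u.2 + ((N + 1 : ℕ) : ℤ) * (g₁.2 + g₂.2)) := by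
          ext
          · simp only [Prod.fst_add]; push_cast; ring
          · simp only [Prod.snd_add]; push_cast; ring
        rw [← e, h3, ihN]
        push_cast
        ring
    obtain ⟨N, hN⟩ := h2 g₁ g₂ a1 a2 b1 b2 hd
    have h3 := hN N le_rfl
    rw [key g₁ a1 a2 (by
        have : det2 g₁ (g₁ + g₂) = det2 g₁ g₂ := by
          unfold det2; simp only [Prod.fst_add, Prod.snd_add]; ring
        rw [this]; exact hd),
      key g₂ b1 b2 (by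
        have : det2 g₂ (g₁ + g₂) = det2 g₂ g₁ := by
          unfold det2; simp only [Prod.fst_add, Prod.snd_add]; ring
        rw [this]; exact hd')] at h3
    linarith

theorem farey_linear (F : ℤ × ℤ → ℤ) (B : ℤ)
    (hH : ∀ (g : ℤ × ℤ) (k : ℕ), F ((k : ℤ) * g.1, (k : ℤ) * g.2) = k * F g)
    (hB : ∀ g₁ g₂ : ℤ × ℤ, 0 ≤ g₁.1 → 0 ≤ g₁.2 → 0 ≤ g₂.1 → 0 ≤ g₂.2 →
      (det2 g₁ g₂ = 1 ∨ det2 g₁ g₂ = -1) → B < g₁.1 + g₁.2 + g₂.1 + g₂.2 →
      F (g₁ + g₂) = F g₁ + F g₂)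
    (h2 : ∀ g₁ g₂ : ℤ × ℤ, 0 ≤ g₁.1 → 0 ≤ g₁.2 → 0 ≤ g₂.1 → 0 ≤ g₂.2 →
      (det2 g₁ g₂ = 1 ∨ det2 g₁ g₂ = -1) →
      ∃ N₀ : ℕ, ∀ N : ℕ, N₀ ≤ N →
        F (g₁.1 + N * (g₁.1 + g₂.1), g₁.2 + N * (g₁.2 + g₂.2)) +
          F (g₂.1 + N * (g₁.1 + g₂.1), g₂.2 + N * (g₁.2 + g₂.2)) =
        (2 * N + 1) * F (g₁ + g₂))
    (a b : ℕ) : F ((a : ℤ), (b : ℤ)) = a * F (1, 0) + b * F (0, 1) := by
  have hA : ∀ g₁ g₂ : ℤ × ℤ, 0 ≤ g₁.1 → 0 ≤ g₁.2 → 0 ≤ g₂.1 → 0 ≤ g₂.2 →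
      (det2 g₁ g₂ = 1 ∨ det2 g₁ g₂ = -1) → F (g₁ + g₂) = F g₁ + F g₂ := by
    intro g₁ g₂ a1 a2 b1 b2 hd
    exact farey_stepA F B hB h2 (B + 1 - (g₁.1 + g₁.2 + g₂.1 + g₂.2)).toNat g₁ g₂ a1 a2 b1 b2 hd
      (Int.self_le_toNat _)
  -- coprime case
  have hcop : ∀ n : ℕ, ∀ a b : ℕ, a + b ≤ n → Nat.Coprime a b →
      F ((a : ℤ), (b : ℤ)) = a * F (1, 0) + b * F (0, 1) := by
    intro n
    induction n with
    | zero =>
      intro a b hn hab
      have ha : a = 0 := by omega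
      have hb : b = 0 := by omega
      subst ha; subst hb
      simp at hab
    | succ n ih =>
      intro a b hn hab
      rcases Nat.eq_zero_or_pos a with rfl | ha
      · have : b = 1 := by simpa using hab
        subst this
        simp
      rcases Nat.eq_zero_or_pos b with rfl | hb
      · have : a = 1 := by simpa using hab
        subst this
        simp
      obtain ⟨g₁, g₂, a1, a2, b1, b2, hsum, hdet⟩ := farey_parents a b (by omega) (by omega)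
        (by change Int.gcd (a : ℤ) (b : ℤ) = 1; rw [Int.gcd_natCast_natCast]; exact hab)
      have hdet' : det2 g₂ g₁ = -1 := by
        have : det2 g₂ g₁ = - det2 g₁ g₂ := by unfold det2; ring
        rw [this, hdet]
      have s1 := farey_sum_pos a1 a2 (Or.inl hdet)
      have s2 := farey_sum_pos b1 b2 (Or.inr hdet')
      obtain ⟨x₁, y₁⟩ := g₁
      obtain ⟨x₂, y₂⟩ := g₂
      simp only at a1 a2 b1 b2 s1 s2
      lift x₁ to ℕ using a1
      lift y₁ to ℕ using a2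
      lift x₂ to ℕ using b1
      lift y₂ to ℕ using b2
      have e1 : (x₁ : ℤ) + x₂ = a := congrArg Prod.fst hsum
      have e2 : (y₁ : ℤ) + y₂ = b := congrArg Prod.snd hsum
      have hd : (x₁ : ℤ) * y₂ - y₁ * x₂ = 1 := hdet
      have c1 : Nat.Coprime x₁ y₁ := by
        rw [← Nat.isCoprime_iff_coprime]
        exact ⟨y₂, -x₂, by linarith⟩
      have c2 : Nat.Coprime x₂ y₂ := by
        rw [← Nat.isCoprime_iff_coprime]
        exact ⟨-y₁, x₁, by linarith⟩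
      have h3 := hA (x₁, y₁) (x₂, y₂) (by positivity) (by positivity) (by positivity) (by positivity)
        (Or.inl hdet)
      rw [hsum] at h3
      rw [h3, ih x₁ y₁ (by omega) c1, ih x₂ y₂ (by omega) c2, ← e1, ← e2]
      ring
  -- general case
  rcases Nat.eq_zero_or_pos (Nat.gcd a b) with h0 | h0
  · have ha := Nat.eq_zero_of_gcd_eq_zero_left h0
    have hb := Nat.eq_zero_of_gcd_eq_zero_right h0
    subst ha; subst hb
    have := hH (0, 0) 0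
    simpa using this
  · obtain ⟨k, a', b', hk, hcop', ha, hb⟩ := Nat.exists_coprime' h0
    have h3 := hH ((a' : ℤ), (b' : ℤ)) k
    have h4 := hcop _ a' b' le_rfl hcop'
    subst ha; subst hb
    push_cast
    have e : (((a' : ℤ) * k, (b' : ℤ) * k) : ℤ × ℤ) = ((k : ℤ) * (a' : ℤ), (k : ℤ) * (b' : ℤ)) := by
      rw [mul_comm, mul_comm (b' : ℤ)]
    rw [e, h3, h4]
    ring

end Pool.Agent.Lib.MP_bb0bab_co
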