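import Pool.Agent.Lib.MP_bb0bab_co.FE06
import Pool.Agent.Lib.MP_bb0bab_co.FE07
import Pool.Agent.Lib.MP_bb0bab_co.FE08

/-!
# FE09 the two applications of the linearity lemma on the positive quadrant (LINQ)
-/

open scoped Pointwise

namespace Pool.Agent.Lib.MP_bb0bab_co

theorem exists_diam (S : Finset (ℤ × ℤ)) :
    ∃ B : ℤ, ∀ p ∈ S, ∀ q ∈ S, |p.1 - q.1| + |p.2 - q.2| ≤ B := by
  rcases S.eq_empty_or_nonempty with rfl | hS
  · exact ⟨0, fun p hp => absurd hp (Finset.notMem_empty p)⟩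
  · obtain ⟨r, hr, hm⟩ := Finset.exists_max_image (S ×ˢ S)
      (fun z => |z.1.1 - z.2.1| + |z.1.2 - z.2.2|) (hS.product hS)
    refine ⟨|r.1.1 - r.2.1| + |r.1.2 - r.2.2|, fun p hp q hq => ?_⟩
    exact hm (p, q) (Finset.mk_mem_product hp hq)

theorem quadrant_sum_pos {g₁ g₂ : ℤ × ℤ} (h11 : 0 ≤ g₁.1) (h12 : 0 ≤ g₁.2) (h21 : 0 ≤ g₂.1)
    (h22 : 0 ≤ g₂.2) (hdet : det2 g₁ g₂ = 1 ∨ det2 g₁ g₂ = -1) :
    0 < (g₁ + g₂).1 ∧ 0 < (g₁ + g₂).2 := by
  simp only [det2] at hdet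
  simp only [Prod.fst_add, Prod.snd_add]
  constructor
  · by_contra hcon
    have a1 : g₁.1 = 0 := by omega
    have a2 : g₂.1 = 0 := by omega
    rw [a1, a2] at hdet
    simp at hdet
  · by_contra hcon
    have a1 : g₁.2 = 0 := by omega
    have a2 : g₂.2 = 0 := by omega
    rw [a1, a2] at hdet
    simp at hdet

/-- the support function of the point reflection -/
theorem supp_neg_image {S : Finset (ℤ × ℤ)} (hS : S.Nonempty) (g : ℤ × ℤ) :
    supp (S.image (lin (-1) 0 0 (-1))) g = supp S (-g) := by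
  rw [supp_lin hS]
  congr 1
  ext
  · simp
  · simp

/-- if all directions with normal in the open positive quadrant are symmetric, then
`supp S g - supp S (-g)` is linear on the closed quadrant -/
theorem asym_linear {S : Finset (ℤ × ℤ)} (hS : S.Nonempty) (cS : LConv S)
    (hsym : ∀ g : ℤ × ℤ, 0 < g.1 → 0 < g.2 → Prim g → edge S g = edge S (-g)) (a b : ℕ) :
    supp S ((a : ℤ), (b : ℤ)) - supp S (-(a : ℤ), -(b : ℤ)) =
      a * (supp S (1, 0) - supp S (-1, 0)) + b * (supp S (0, 1) - supp S (0, -1)) := by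
  obtain ⟨B, hB⟩ := exists_diam S
  have hneg : ∀ g : ℤ × ℤ, -g = (-g.1, -g.2) := fun g => rfl
  have key := farey_linear (fun g => supp S g - supp S (-g)) B ?_ ?_ ?_ a b
  · simp only [hneg, neg_zero] at key
    exact key
  · intro g k
    have h1 := supp_smul hS g k
    have h2 := supp_smul hS (-g) k
    have e : -(((k : ℤ) * g.1, (k : ℤ) * g.2) : ℤ × ℤ) = ((k : ℤ) * (-g).1, (k : ℤ) * (-g).2) := by
      refine Prod.ext ?_ ?_
      · simp
      · simp
    show supp S ((k : ℤ) * g.1, (k : ℤ) * g.2) - supp S (-((k : ℤ) * g.1, (k : ℤ) * g.2)) = _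
    rw [e, h1, h2]
    ring
  · intro g₁ g₂ h11 h12 h21 h22 hdet hs
    have h1 := deep_cone hS B hB g₁ g₂ h11 h12 h21 h22 hdet hs
    have h2 := deep_cone (S := S.image (lin (-1) 0 0 (-1))) (hS.image _) B ?_ g₁ g₂ h11 h12 h21 h22
      hdet hs
    · rw [supp_neg_image hS, supp_neg_image hS, supp_neg_image hS] at h2
      show supp S (g₁ + g₂) - supp S (-(g₁ + g₂)) = _
      rw [h1, h2]
      ring
    · intro p hp q hq
      obtain ⟨p', hp', rfl⟩ := Finset.mem_image.1 hp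
      obtain ⟨q', hq', rfl⟩ := Finset.mem_image.1 hq
      have := hB q' hq' p' hp'
      have e1 : (lin (-1) 0 0 (-1) p').1 - (lin (-1) 0 0 (-1) q').1 = q'.1 - p'.1 := by
        simp only [lin]
        ring
      have e2 : (lin (-1) 0 0 (-1) p').2 - (lin (-1) 0 0 (-1) q').2 = q'.2 - p'.2 := by
        simp only [lin]
        ring
      rw [e1, e2]
      exact this
  · intro g₁ g₂ h11 h12 h21 h22 hdet
    have hdet' : det2 (-g₁) (-g₂) = 1 ∨ det2 (-g₁) (-g₂) = -1 := by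
      have : det2 (-g₁) (-g₂) = det2 g₁ g₂ := by
        simp only [det2, Prod.fst_neg, Prod.snd_neg]
        ring
      rw [this]
      exact hdet
    obtain ⟨N₁, hN₁⟩ := second_diff hS cS g₁ g₂ hdet
    obtain ⟨N₂, hN₂⟩ := second_diff hS cS (-g₁) (-g₂) hdet'
    have hp := quadrant_sum_pos h11 h12 h21 h22 hdet
    have he := hsym (g₁ + g₂) hp.1 hp.2 (prim_add_of_det hdet)
    refine ⟨max N₁ N₂, fun N hN => ?_⟩
    have a1 := hN₁ N (le_trans (le_max_left _ _) hN)
    have a2 := hN₂ N (le_trans (le_max_right _ _) hN)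
    have e1 : -((g₁.1 + N * (g₁.1 + g₂.1), g₁.2 + N * (g₁.2 + g₂.2)) : ℤ × ℤ) =
        ((-g₁).1 + N * ((-g₁).1 + (-g₂).1), (-g₁).2 + N * ((-g₁).2 + (-g₂).2)) := by
      refine Prod.ext ?_ ?_
      · simp only [Prod.fst_neg]
        ring
      · simp only [Prod.snd_neg]
        ring
    have e2 : -((g₂.1 + N * (g₁.1 + g₂.1), g₂.2 + N * (g₁.2 + g₂.2)) : ℤ × ℤ) =
        ((-g₂).1 + N * ((-g₁).1 + (-g₂).1), (-g₂).2 + N * ((-g₁).2 + (-g₂).2)) := by
      refine Prod.ext ?_ ?_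
      · simp only [Prod.fst_neg]
        ring
      · simp only [Prod.snd_neg]
        ring
    have e3 : -(g₁ + g₂) = -g₁ + -g₂ := by abel
    beta_reduce
    rw [e1, e2]
    rw [e3] at he ⊢
    rw [← he] at a2
    linarith

/-- if the edges of `H` and `K` with normal in the open positive quadrant agree, then
`supp H g - supp K g` is linear on the closed quadrant -/
theorem diff_linear {H K : Finset (ℤ × ℤ)} (hH : H.Nonempty) (hK : K.Nonempty)
    (cH : LConv H) (cK : LConv K)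
    (he : ∀ g : ℤ × ℤ, 0 < g.1 → 0 < g.2 → Prim g → edge H g = edge K g) (a b : ℕ) :
    supp H ((a : ℤ), (b : ℤ)) - supp K ((a : ℤ), (b : ℤ)) =
      a * (supp H (1, 0) - supp K (1, 0)) + b * (supp H (0, 1) - supp K (0, 1)) := by
  obtain ⟨B₁, hB₁⟩ := exists_diam H
  obtain ⟨B₂, hB₂⟩ := exists_diam K
  refine farey_linear (fun g => supp H g - supp K g) (max B₁ B₂) ?_ ?_ ?_ a b
  · intro g k
    have h1 := supp_smul hH g k
    have h2 := supp_smul hK g k
    beta_reduce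
    rw [h1, h2]
    ring
  · intro g₁ g₂ h11 h12 h21 h22 hdet hs
    have h1 := deep_cone hH B₁ hB₁ g₁ g₂ h11 h12 h21 h22 hdet
      (lt_of_le_of_lt (le_max_left _ _) hs)
    have h2 := deep_cone hK B₂ hB₂ g₁ g₂ h11 h12 h21 h22 hdet
      (lt_of_le_of_lt (le_max_right _ _) hs)
    beta_reduce
    rw [h1, h2]
    ring
  · intro g₁ g₂ h11 h12 h21 h22 hdet
    obtain ⟨N₁, hN₁⟩ := second_diff hH cH g₁ g₂ hdet
    obtain ⟨N₂, hN₂⟩ := second_diff hK cK g₁ g₂ hdet
    have hp := quadrant_sum_pos h11 h12 h21 h22 hdet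
    have he' := he (g₁ + g₂) hp.1 hp.2 (prim_add_of_det hdet)
    refine ⟨max N₁ N₂, fun N hN => ?_⟩
    have a1 := hN₁ N (le_trans (le_max_left _ _) hN)
    have a2 := hN₂ N (le_trans (le_max_right _ _) hN)
    beta_reduce
    rw [he'] at a1
    linarith

end Pool.Agent.Lib.MP_bb0bab_co
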