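import Pool.Agent.Lib.MP_bb0bab_co.FE01

/-!
# FE10a unimodular images: convexity, edges, covariogram (IMG)
-/

open scoped Pointwise

namespace Pool.Agent.Lib.MP_bb0bab_co

theorem lin_injective (a b c d : ℤ) (hdet : a * d - b * c = 1 ∨ a * d - b * c = -1) :
    Function.Injective (lin a b c d) := by
  intro p q h
  simp only [lin, Prod.mk.injEq] at h
  obtain ⟨h1, h2⟩ := h
  have e1 : (a * d - b * c) * (p.1 - q.1) = 0 := by linear_combination d * h1 - b * h2
  have e2 : (a * d - b * c) * (p.2 - q.2) = 0 := by linear_combination a * h2 - c * h1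
  rcases hdet with h | h <;> rw [h] at e1 e2 <;> ext <;> linarith

/-- the real extension of `lin` -/
noncomputable def linR (a b c d : ℤ) : ℝ × ℝ →ₗ[ℝ] ℝ × ℝ where
  toFun z := ((a : ℝ) * z.1 + b * z.2, (c : ℝ) * z.1 + d * z.2)
  map_add' x y := by ext <;> simp <;> ring
  map_smul' r x := by ext <;> simp <;> ring

theorem linR_apply (a b c d : ℤ) (z : ℝ × ℝ) :
    linR a b c d z = ((a : ℝ) * z.1 + b * z.2, (c : ℝ) * z.1 + d * z.2) := rfl

theorem lconv_lin {S : Finset (ℤ × ℤ)} (cS : LConv S) (a b c d : ℤ)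
    (hdet : a * d - b * c = 1 ∨ a * d - b * c = -1) : LConv (S.image (lin a b c d)) := by
  intro p hp
  have himg : (fun q : ℤ × ℤ => ((q.1 : ℝ), (q.2 : ℝ))) ''
      ((S.image (lin a b c d) : Finset (ℤ × ℤ)) : Set (ℤ × ℤ)) =
      linR a b c d '' ((fun q : ℤ × ℤ => ((q.1 : ℝ), (q.2 : ℝ))) '' (S : Set (ℤ × ℤ))) := by
    rw [Finset.coe_image, Set.image_image, Set.image_image]
    refine Set.image_congr fun q _ => ?_
    simp [lin, linR_apply]
  rw [himg, ← LinearMap.image_convexHull] at hp
  obtain ⟨z, hz, hzp⟩ := hp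
  rw [linR_apply, Prod.mk.injEq] at hzp
  obtain ⟨h1, h2⟩ := hzp
  have e1 : ((a : ℝ) * d - b * c) * z.1 = d * p.1 - b * p.2 := by
    linear_combination (d : ℝ) * h1 - (b : ℝ) * h2
  have e2 : ((a : ℝ) * d - b * c) * z.2 = a * p.2 - c * p.1 := by
    linear_combination (a : ℝ) * h2 - (c : ℝ) * h1
  rw [Finset.mem_image]
  rcases hdet with h | h
  · have hr : (a : ℝ) * d - b * c = 1 := by exact_mod_cast h
    rw [hr] at e1 e2
    refine ⟨(d * p.1 - b * p.2, a * p.2 - c * p.1), cS _ ?_, ?_⟩
    · have : ((((d * p.1 - b * p.2, a * p.2 - c * p.1) : ℤ × ℤ).1 : ℝ),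
          (((d * p.1 - b * p.2, a * p.2 - c * p.1) : ℤ × ℤ).2 : ℝ)) = z := by
        ext
        · push_cast
          linarith
        · push_cast
          linarith
      rw [this]
      exact hz
    · ext
      · simp only [lin]
        linear_combination p.1 * h
      · simp only [lin]
        linear_combination p.2 * h
  · have hr : (a : ℝ) * d - b * c = -1 := by exact_mod_cast h
    rw [hr] at e1 e2
    refine ⟨(-(d * p.1 - b * p.2), -(a * p.2 - c * p.1)), cS _ ?_, ?_⟩
    · have : ((((-(d * p.1 - b * p.2), -(a * p.2 - c * p.1)) : ℤ × ℤ).1 : ℝ),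
          (((-(d * p.1 - b * p.2), -(a * p.2 - c * p.1)) : ℤ × ℤ).2 : ℝ)) = z := by
        ext
        · push_cast
          linarith
        · push_cast
          linarith
      rw [this]
      exact hz
    · ext
      · simp only [lin]
        linear_combination (-p.1) * h
      · simp only [lin]
        linear_combination (-p.2) * h

theorem lconv_translate {S : Finset (ℤ × ℤ)} (cS : LConv S) (t : ℤ × ℤ) :
    LConv (S.image (fun p => p + t)) := by
  intro p hp
  have himg : (fun q : ℤ × ℤ => ((q.1 : ℝ), (q.2 : ℝ))) ''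
      ((S.image (fun p => p + t) : Finset (ℤ × ℤ)) : Set (ℤ × ℤ)) =
      (((t.1 : ℝ), (t.2 : ℝ)) : ℝ × ℝ) +ᵥ
        ((fun q : ℤ × ℤ => ((q.1 : ℝ), (q.2 : ℝ))) '' (S : Set (ℤ × ℤ))) := by
    rw [Finset.coe_image, Set.image_image, ← Set.image_vadd, Set.image_image]
    refine Set.image_congr fun q _ => ?_
    ext
    · simp [add_comm]
    · simp [add_comm]
  rw [himg, convexHull_vadd] at hp
  obtain ⟨z, hz, hzp⟩ := hp
  rw [Finset.mem_image]
  refine ⟨p - t, cS _ ?_, by simp⟩
  have : (((p - t).1 : ℝ), ((p - t).2 : ℝ)) = z := by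
    have h1 := congrArg Prod.fst hzp
    have h2 := congrArg Prod.snd hzp
    simp only [vadd_eq_add, Prod.fst_add, Prod.snd_add] at h1 h2
    ext
    · simp only [Prod.fst_sub]
      push_cast
      linarith
    · simp only [Prod.snd_sub]
      push_cast
      linarith
  rw [this]
  exact hz

theorem edge_lin {S : Finset (ℤ × ℤ)} (hS : S.Nonempty) (a b c d : ℤ)
    (hdet : a * d - b * c = 1 ∨ a * d - b * c = -1) (g : ℤ × ℤ) :
    edge (S.image (lin a b c d)) g = edge S (a * g.1 + c * g.2, b * g.1 + d * g.2) := by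
  have e : ∀ q : ℤ × ℤ, ev g (lin a b c d q) = ev (a * g.1 + c * g.2, b * g.1 + d * g.2) q := by
    intro q
    simp only [ev, lin]
    ring
  have hf : face (S.image (lin a b c d)) g =
      (face S (a * g.1 + c * g.2, b * g.1 + d * g.2)).image (lin a b c d) := by
    unfold face
    rw [Finset.filter_image, supp_lin hS]
    congr 1
    refine Finset.filter_congr fun q _ => ?_
    rw [e]
  unfold edge
  rw [hf, Finset.card_image_of_injective _ (lin_injective a b c d hdet)]

theorem edge_translate {S : Finset (ℤ × ℤ)} (hS : S.Nonempty) (t g : ℤ × ℤ) :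
    edge (S.image (fun p => p + t)) g = edge S g := by
  have e : ∀ q : ℤ × ℤ, ev g (q + t) = ev g q + ev g t := by
    intro q
    simp only [ev, Prod.fst_add, Prod.snd_add]
    ring
  have hf : face (S.image (fun p => p + t)) g = (face S g).image (fun p => p + t) := by
    unfold face
    rw [Finset.filter_image, supp_translate hS]
    congr 1
    refine Finset.filter_congr fun q _ => ?_
    rw [e]
    constructor
    · intro h
      linarith
    · intro h
      linarith
  unfold edge
  rw [hf, Finset.card_image_of_injective _ (add_left_injective t)]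

theorem cov_lin {S : Finset (ℤ × ℤ)} (a b c d : ℤ)
    (hdet : a * d - b * c = 1 ∨ a * d - b * c = -1) (x : ℤ × ℤ) :
    cov (S.image (lin a b c d)) (lin a b c d x) = cov S x := by
  have hinj := lin_injective a b c d hdet
  have e : ∀ q : ℤ × ℤ, lin a b c d q - lin a b c d x = lin a b c d (q - x) := by
    intro q
    ext
    · simp only [lin, Prod.fst_sub, Prod.snd_sub]
      ring
    · simp only [lin, Prod.fst_sub, Prod.snd_sub]
      ring
  unfold cov
  rw [Finset.filter_image, Finset.card_image_of_injective _ hinj]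
  congr 1
  refine Finset.filter_congr fun q _ => ?_
  rw [e, Finset.mem_image]
  constructor
  · rintro ⟨r, hr, hrq⟩
    rwa [← hinj hrq]
  · intro h
    exact ⟨_, h, rfl⟩

theorem cov_translate {S : Finset (ℤ × ℤ)} (t x : ℤ × ℤ) :
    cov (S.image (fun p => p + t)) x = cov S x := by
  unfold cov
  rw [Finset.filter_image, Finset.card_image_of_injective _ (add_left_injective t)]
  congr 1
  refine Finset.filter_congr fun q _ => ?_
  rw [Finset.mem_image]
  constructor
  · rintro ⟨r, hr, hrq⟩
    have : r = q - x := by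
      have h := hrq
      rw [← sub_eq_zero] at h ⊢
      rw [← h]
      abel
    rwa [← this]
  · intro h
    exact ⟨_, h, by abel⟩

theorem cov_neg {S : Finset (ℤ × ℤ)} (x : ℤ × ℤ) :
    cov (S.image (fun p => -p)) x = cov S x := by
  unfold cov
  have h : (S.image (fun p => -p)).filter (fun p => p - x ∈ S.image (fun p => -p)) =
      (S.filter (fun p => p - x ∈ S)).image (fun r => x - r) := by
    ext p
    simp only [Finset.mem_filter, Finset.mem_image]
    constructor
    · rintro ⟨⟨r, hr, rfl⟩, ⟨s, hs, hse⟩⟩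
      refine ⟨s, ⟨hs, ?_⟩, ?_⟩
      · have : s - x = r := by
          rw [← sub_eq_zero] at hse ⊢
          rw [← neg_eq_zero, ← hse]
          abel
        rwa [this]
      · rw [← sub_eq_zero] at hse ⊢
        rw [← hse]
        abel
    · rintro ⟨r, ⟨hr, hrx⟩, rfl⟩
      exact ⟨⟨_, hrx, by abel⟩, ⟨r, hr, by abel⟩⟩
  rw [h, Finset.card_image_of_injective]
  intro p q hpq
  exact sub_right_injective hpq

end Pool.Agent.Lib.MP_bb0bab_co
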