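import Pool.Agent.Lib.MP_bb0bab_co.Defs

/-!
# FE10b the relations `Arises` and `Trivial` under unimodular maps (IMG, second half)
-/

open scoped Pointwise

namespace Pool.Agent.Lib.MP_bb0bab_co

theorem image_add_eq (S : Finset (ℤ × ℤ)) (t : ℤ × ℤ) :
    S.image (fun p => p + t) = S + {t} := (Finset.add_singleton _).symm

theorem image_neg_eq (S : Finset (ℤ × ℤ)) : S.image (fun p => -p) = -S :=
  Finset.image_neg_eq_neg S

theorem image_neg_add_eq (S : Finset (ℤ × ℤ)) (t : ℤ × ℤ) :
    S.image (fun p => -p + t) = -S + {t} := by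
  rw [← image_add_eq, ← image_neg_eq, Finset.image_image]
  rfl

theorem add_cancel_single (S : Finset (ℤ × ℤ)) (t : ℤ × ℤ) : S + {t} + {-t} = S := by
  rw [add_assoc, Finset.singleton_add_singleton, add_neg_cancel, Finset.singleton_zero, add_zero]

theorem neg_single (t : ℤ × ℤ) : -({t} : Finset (ℤ × ℤ)) = {-t} := Finset.neg_singleton t

theorem arises_iff (K L : Finset (ℤ × ℤ)) : Arises K L ↔
    ∃ A B : Finset (ℤ × ℤ), (A + B).card = A.card * B.card ∧ (A - B).card = A.card * B.card ∧
      K = A + B ∧ ∃ t : ℤ × ℤ, L = A - B + {t} ∨ L = -(A - B) + {t} := by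
  unfold Arises
  simp only [image_add_eq, image_neg_add_eq]

theorem trivial_iff (K L : Finset (ℤ × ℤ)) : Trivial K L ↔
    ∃ t : ℤ × ℤ, L = K + {t} ∨ L = -K + {t} := by
  unfold Trivial
  simp only [image_add_eq, image_neg_add_eq]

/-- `lin` as a homomorphism -/
def linHom (a b c d : ℤ) : ℤ × ℤ →+ ℤ × ℤ where
  toFun := lin a b c d
  map_zero' := by simp [lin]
  map_add' p q := by
    ext
    · simp only [lin, Prod.fst_add, Prod.snd_add]
      ring
    · simp only [lin, Prod.fst_add, Prod.snd_add]
      ring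

theorem linHom_apply (a b c d : ℤ) (p : ℤ × ℤ) : linHom a b c d p = lin a b c d p := rfl

theorem exists_linInv (a b c d : ℤ) (hdet : a * d - b * c = 1 ∨ a * d - b * c = -1) :
    ∃ ψ : ℤ × ℤ →+ ℤ × ℤ, (∀ p, ψ (lin a b c d p) = p) ∧ Function.Injective ψ := by
  have key : ∃ ψ : ℤ × ℤ →+ ℤ × ℤ, (∀ p, ψ (lin a b c d p) = p) ∧
      (∀ p, lin a b c d (ψ p) = p) := by
    rcases hdet with h | h
    · refine ⟨linHom d (-b) (-c) a, fun p => ?_, fun p => ?_⟩
      · ext
        · simp only [linHom_apply, lin]
          linear_combination p.1 * h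
        · simp only [linHom_apply, lin]
          linear_combination p.2 * h
      · ext
        · simp only [linHom_apply, lin]
          linear_combination p.1 * h
        · simp only [linHom_apply, lin]
          linear_combination p.2 * h
    · refine ⟨linHom (-d) b c (-a), fun p => ?_, fun p => ?_⟩
      · ext
        · simp only [linHom_apply, lin]
          linear_combination (-p.1) * h
        · simp only [linHom_apply, lin]
          linear_combination (-p.2) * h
      · ext
        · simp only [linHom_apply, lin]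
          linear_combination (-p.1) * h
        · simp only [linHom_apply, lin]
          linear_combination (-p.2) * h
  obtain ⟨ψ, h1, h2⟩ := key
  refine ⟨ψ, h1, fun p q hpq => ?_⟩
  rw [← h2 p, hpq, h2 q]

theorem image_inv {a b c d : ℤ} {ψ : ℤ × ℤ →+ ℤ × ℤ} (hψ : ∀ p, ψ (lin a b c d p) = p)
    (S : Finset (ℤ × ℤ)) : (S.image (lin a b c d)).image ψ = S := by
  rw [Finset.image_image]
  conv_rhs => rw [← Finset.image_id (s := S)]
  exact Finset.image_congr fun p _ => hψ p

theorem image_hom_add (ψ : ℤ × ℤ →+ ℤ × ℤ) (A B : Finset (ℤ × ℤ)) :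
    (A + B).image ψ = A.image ψ + B.image ψ := Finset.image_add ψ

theorem image_hom_neg (ψ : ℤ × ℤ →+ ℤ × ℤ) (A : Finset (ℤ × ℤ)) :
    (-A).image ψ = -(A.image ψ) := by
  rw [← image_neg_eq, ← image_neg_eq, Finset.image_image, Finset.image_image]
  exact Finset.image_congr fun p _ => map_neg ψ p

theorem image_hom_sub (ψ : ℤ × ℤ →+ ℤ × ℤ) (A B : Finset (ℤ × ℤ)) :
    (A - B).image ψ = A.image ψ - B.image ψ := by
  rw [sub_eq_add_neg, image_hom_add, image_hom_neg, ← sub_eq_add_neg]

theorem arises_lin {H K : Finset (ℤ × ℤ)} (a b c d : ℤ)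
    (hdet : a * d - b * c = 1 ∨ a * d - b * c = -1)
    (h : Arises (H.image (lin a b c d)) (K.image (lin a b c d))) : Arises H K := by
  rw [arises_iff] at h ⊢
  obtain ⟨ψ, hψ, hinj⟩ := exists_linInv a b c d hdet
  obtain ⟨A, B, h1, h2, h3, t, h4⟩ := h
  refine ⟨A.image ψ, B.image ψ, ?_, ?_, ?_, ψ t, ?_⟩
  · rw [← image_hom_add, Finset.card_image_of_injective _ hinj,
      Finset.card_image_of_injective _ hinj, Finset.card_image_of_injective _ hinj, h1]
  · rw [← image_hom_sub, Finset.card_image_of_injective _ hinj,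
      Finset.card_image_of_injective _ hinj, Finset.card_image_of_injective _ hinj, h2]
  · rw [← image_hom_add, ← h3, image_inv hψ]
  · rcases h4 with h4 | h4
    · left
      rw [← image_inv hψ K, h4, image_hom_add, image_hom_sub, Finset.image_singleton]
    · right
      rw [← image_inv hψ K, h4, image_hom_add, image_hom_neg, image_hom_sub,
        Finset.image_singleton]

theorem arises_translate {H K : Finset (ℤ × ℤ)} (s t : ℤ × ℤ)
    (h : Arises (H.image (fun p => p + s)) (K.image (fun p => p + t))) : Arises H K := by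
  rw [arises_iff, image_add_eq, image_add_eq] at h
  rw [arises_iff]
  obtain ⟨A, B, h1, h2, h3, u, h4⟩ := h
  have e1 : A + {-s} + B = (A + B) + {-s} := add_right_comm _ _ _
  have e2 : A + {-s} - B = (A - B) + {-s} := by
    rw [sub_eq_add_neg, sub_eq_add_neg]
    exact add_right_comm _ _ _
  refine ⟨A + {-s}, B, ?_, ?_, ?_, ?_⟩
  · rw [e1, Finset.card_add_singleton, Finset.card_add_singleton, h1]
  · rw [e2, Finset.card_add_singleton, Finset.card_add_singleton, h2]
  · rw [e1, ← h3, add_cancel_single]
  · rcases h4 with h4 | h4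
    · refine ⟨s + u - t, Or.inl ?_⟩
      rw [e2, ← add_cancel_single K t, h4, add_assoc, add_assoc (A - B),
        Finset.singleton_add_singleton, Finset.singleton_add_singleton]
      congr 2
      abel
    · refine ⟨-s + u - t, Or.inr ?_⟩
      rw [e2, neg_add, neg_single, ← add_cancel_single K t, h4, add_assoc, add_assoc (-(A - B)),
        Finset.singleton_add_singleton, Finset.singleton_add_singleton]
      congr 2
      abel

theorem arises_neg_right {H K : Finset (ℤ × ℤ)}
    (h : Arises H (K.image (fun p => -p))) : Arises H K := by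
  rw [arises_iff, image_neg_eq] at h
  rw [arises_iff]
  obtain ⟨A, B, h1, h2, h3, u, h4⟩ := h
  refine ⟨A, B, h1, h2, h3, -u, ?_⟩
  rcases h4 with h4 | h4
  · right
    rw [← neg_neg K, h4, neg_add, neg_single]
  · left
    rw [← neg_neg K, h4, neg_add, neg_single, neg_neg]

theorem arises_symm {H K : Finset (ℤ × ℤ)} (h : Arises H K) : Arises K H := by
  rw [arises_iff] at h ⊢
  obtain ⟨A, B, h1, h2, h3, u, h4⟩ := h
  rcases h4 with h4 | h4
  · have e1 : A + {u} + -B = (A - B) + {u} := by
      rw [sub_eq_add_neg]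
      exact add_right_comm _ _ _
    have e2 : A + {u} - -B = (A + B) + {u} := by
      rw [sub_neg_eq_add]
      exact add_right_comm _ _ _
    refine ⟨A + {u}, -B, ?_, ?_, ?_, -u, Or.inl ?_⟩
    · rw [e1, Finset.card_add_singleton, Finset.card_add_singleton, Finset.card_neg, h2]
    · rw [e2, Finset.card_add_singleton, Finset.card_add_singleton, Finset.card_neg, h1]
    · rw [e1, h4]
    · rw [e2, add_cancel_single, h3]
  · have e1 : -A + {u} + B = -(A - B) + {u} := by
      rw [sub_eq_add_neg, neg_add, neg_neg]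
      exact add_right_comm _ _ _
    have e2 : -A + {u} - B = -(A + B) + {u} := by
      rw [sub_eq_add_neg, neg_add]
      exact add_right_comm _ _ _
    refine ⟨-A + {u}, B, ?_, ?_, ?_, u, Or.inr ?_⟩
    · rw [e1, Finset.card_add_singleton, Finset.card_add_singleton, Finset.card_neg,
        Finset.card_neg, h2]
    · rw [e2, Finset.card_add_singleton, Finset.card_add_singleton, Finset.card_neg,
        Finset.card_neg, h1]
    · rw [e1, h4]
    · rw [e2, neg_add, neg_neg, neg_single]
      have := add_cancel_single (A + B) (-u)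
      rw [neg_neg] at this
      rw [this, h3]

theorem trivial_lin {H K : Finset (ℤ × ℤ)} (a b c d : ℤ)
    (hdet : a * d - b * c = 1 ∨ a * d - b * c = -1)
    (h : Trivial (H.image (lin a b c d)) (K.image (lin a b c d))) : Trivial H K := by
  rw [trivial_iff] at h ⊢
  obtain ⟨ψ, hψ, -⟩ := exists_linInv a b c d hdet
  obtain ⟨t, h | h⟩ := h
  · refine ⟨ψ t, Or.inl ?_⟩
    rw [← image_inv hψ K, h, image_hom_add, image_inv hψ, Finset.image_singleton]
  · refine ⟨ψ t, Or.inr ?_⟩
    rw [← image_inv hψ K, h, image_hom_add, image_hom_neg, image_inv hψ, Finset.image_singleton]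

theorem trivial_translate {H K : Finset (ℤ × ℤ)} (s t : ℤ × ℤ)
    (h : Trivial (H.image (fun p => p + s)) (K.image (fun p => p + t))) : Trivial H K := by
  rw [trivial_iff, image_add_eq, image_add_eq] at h
  rw [trivial_iff]
  obtain ⟨u, h | h⟩ := h
  · refine ⟨s + u - t, Or.inl ?_⟩
    rw [← add_cancel_single K t, h, add_assoc, add_assoc H,
      Finset.singleton_add_singleton, Finset.singleton_add_singleton]
    congr 2
    abel
  · refine ⟨-s + u - t, Or.inr ?_⟩
    rw [← add_cancel_single K t, h, neg_add, neg_single, add_assoc, add_assoc (-H),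
      Finset.singleton_add_singleton, Finset.singleton_add_singleton]
    congr 2
    abel

theorem trivial_neg_right {H K : Finset (ℤ × ℤ)}
    (h : Trivial H (K.image (fun p => -p))) : Trivial H K := by
  rw [trivial_iff, image_neg_eq] at h
  rw [trivial_iff]
  obtain ⟨u, h | h⟩ := h
  · refine ⟨-u, Or.inr ?_⟩
    rw [← neg_neg K, h, neg_add, neg_single]
  · refine ⟨-u, Or.inl ?_⟩
    rw [← neg_neg K, h, neg_add, neg_single, neg_neg]

theorem trivial_refl (H : Finset (ℤ × ℤ)) : Trivial H H := by
  rw [trivial_iff]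
  exact ⟨0, Or.inl (by rw [Finset.singleton_zero, add_zero])⟩

end Pool.Agent.Lib.MP_bb0bab_co
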