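import Pool.Agent.Lib.MP_bb0bab_co.FE02
import Pool.Agent.Lib.MP_bb0bab_co.FE05
import Pool.Agent.Lib.MP_bb0bab_co.FE09
import Pool.Agent.Lib.MP_bb0bab_co.FE10a

/-!
# FE11 a pair all of whose directions are symmetric is a pair of translates (NOAS)
-/

open scoped Pointwise

namespace Pool.Agent.Lib.MP_bb0bab_co

theorem edge_eq_of_symmetric {H K : Finset (ℤ × ℤ)} (hH : H.Nonempty) (hK : K.Nonempty)
    (cH : LConv H) (cK : LConv K) (hc : ∀ x, cov H x = cov K x) {g : ℤ × ℤ} (hg : Prim g)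
    (hs : edge H g = edge H (-g)) : edge H g = edge K g := by
  rcases edge_pair hH hK cH cK hc hg with h | h
  · exact h.1
  · rw [hs]
    exact h.2

theorem diff_linear_neg {H K : Finset (ℤ × ℤ)} (hH : H.Nonempty) (hK : K.Nonempty)
    (cH : LConv H) (cK : LConv K) (he : ∀ g : ℤ × ℤ, Prim g → edge H g = edge K g) (a b : ℕ) :
    supp H (-(a : ℤ), (b : ℤ)) - supp K (-(a : ℤ), (b : ℤ)) =
      a * (supp H (-1, 0) - supp K (-1, 0)) + b * (supp H (0, 1) - supp K (0, 1)) := by
  have hdet : (-1 : ℤ) * 1 - 0 * 0 = 1 ∨ (-1 : ℤ) * 1 - 0 * 0 = -1 := by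
    right
    norm_num
  have key := diff_linear (H := H.image (lin (-1) 0 0 1)) (K := K.image (lin (-1) 0 0 1))
    (hH.image _) (hK.image _) (lconv_lin cH _ _ _ _ hdet) (lconv_lin cK _ _ _ _ hdet) ?_ a b
  · rw [supp_lin hH, supp_lin hH, supp_lin hH, supp_lin hK, supp_lin hK, supp_lin hK] at key
    simp only [neg_mul, one_mul, zero_mul, add_zero, zero_add, mul_one, mul_zero, neg_zero] at key
    exact key
  · intro g h1 h2 hg
    rw [edge_lin hH _ _ _ _ hdet, edge_lin hK _ _ _ _ hdet]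
    apply he
    unfold Prim at *
    simp only [neg_mul, one_mul, zero_mul, add_zero, zero_add]
    rw [Int.neg_gcd]
    exact hg

theorem translate_of_symmetric {H K : Finset (ℤ × ℤ)} (hH : H.Nonempty) (hK : K.Nonempty)
    (cH : LConv H) (cK : LConv K) (hc : ∀ x, cov H x = cov K x)
    (hsym : ∀ g, Prim g → edge H g = edge H (-g)) :
    ∃ t : ℤ × ℤ, H = K.image (fun p => p + t) := by
  have he : ∀ g : ℤ × ℤ, Prim g → edge H g = edge K g := fun g hg =>
    edge_eq_of_symmetric hH hK cH cK hc hg (hsym g hg)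
  have hodd : ∀ g : ℤ × ℤ, supp H (-g) - supp K (-g) = -(supp H g - supp K g) := by
    intro g
    have := cov_width hH hK hc g
    linarith
  have hpp : ∀ a b : ℕ, supp H ((a : ℤ), (b : ℤ)) - supp K ((a : ℤ), (b : ℤ)) =
      a * (supp H (1, 0) - supp K (1, 0)) + b * (supp H (0, 1) - supp K (0, 1)) :=
    diff_linear hH hK cH cK (fun g _ _ hg => he g hg)
  have hnp : ∀ a b : ℕ, supp H (-(a : ℤ), (b : ℤ)) - supp K (-(a : ℤ), (b : ℤ)) =
      -(a * (supp H (1, 0) - supp K (1, 0))) + b * (supp H (0, 1) - supp K (0, 1)) := by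
    intro a b
    rw [diff_linear_neg hH hK cH cK he a b]
    have h1 := hodd (1, 0)
    have h2 : (-((1 : ℤ), (0 : ℤ)) : ℤ × ℤ) = (-1, 0) := by simp
    rw [h2] at h1
    rw [h1]
    ring
  set t1 := supp H (1, 0) - supp K (1, 0) with ht1
  set t2 := supp H (0, 1) - supp K (0, 1) with ht2
  have hall : ∀ g : ℤ × ℤ, supp H g - supp K g = g.1 * t1 + g.2 * t2 := by
    rintro ⟨x, y⟩
    rcases le_total 0 y with hy | hy
    · obtain ⟨b, rfl⟩ := Int.eq_ofNat_of_zero_le hy
      rcases le_total 0 x with hx | hx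
      · obtain ⟨a, rfl⟩ := Int.eq_ofNat_of_zero_le hx
        exact hpp a b
      · obtain ⟨a, ha⟩ := Int.eq_ofNat_of_zero_le (neg_nonneg.2 hx)
        have : x = -(a : ℤ) := by omega
        subst this
        rw [hnp a b]
        show _ = -(a : ℤ) * t1 + (b : ℤ) * t2
        ring
    · obtain ⟨b, hb⟩ := Int.eq_ofNat_of_zero_le (neg_nonneg.2 hy)
      have hyb : y = -(b : ℤ) := by omega
      subst hyb
      rcases le_total 0 x with hx | hx
      · obtain ⟨a, rfl⟩ := Int.eq_ofNat_of_zero_le hx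
        have h1 := hodd (-(a : ℤ), (b : ℤ))
        have h2 : (-((-(a : ℤ)), (b : ℤ)) : ℤ × ℤ) = ((a : ℤ), -(b : ℤ)) := by simp
        rw [h2, hnp a b] at h1
        rw [h1]
        show _ = (a : ℤ) * t1 + -(b : ℤ) * t2
        ring
      · obtain ⟨a, ha⟩ := Int.eq_ofNat_of_zero_le (neg_nonneg.2 hx)
        have hxa : x = -(a : ℤ) := by omega
        subst hxa
        have h1 := hodd ((a : ℤ), (b : ℤ))
        have h2 : (-((a : ℤ), (b : ℤ)) : ℤ × ℤ) = (-(a : ℤ), -(b : ℤ)) := by simp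
        rw [h2, hpp a b] at h1
        rw [h1]
        show _ = -(a : ℤ) * t1 + -(b : ℤ) * t2
        ring
  refine ⟨(t1, t2), ?_⟩
  apply supp_determines hH (hK.image _) cH (lconv_translate cK _)
  intro g
  rw [supp_translate hK]
  have := hall g
  simp only [ev]
  linarith

end Pool.Agent.Lib.MP_bb0bab_co
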