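import Pool.Agent.Lib.MP_bb0bab_co.FE08

/-!
# FE12 ear lemma (EAR)

PROOF. Let `T = max B 0 + 1` and use the basis `e₁ = (-1, -T-1)`, `e₂ = (1, T)` (`det2 e₁ e₂ = -T + (T+1) = 1`).
A vector `g = x e₁ + y e₂` has `g.1 = y - x`, `g.2 = T y - (T+1) x`, i.e. `x = T g.1 - g.2`, `y = (T+1) g.1 - g.2`.
If `g ∈ A`: `|g.2| ≤ B < T`, `|g.1| ≤ B`; if `g.1 ≥ 1` then `x ≥ T - B > 0`, `y > 0`; if `g.1 ≤ -1` then `x, y < 0`; if
`g.1 = 0` then `g.2 = ±1` (primitive) and `x = y = ∓1`.  So up to sign every element of `A` has both coordinates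
`≥ 1`.  `A` is finite and symmetric, so there is `n ∈ A` with coordinates `x, y ≥ 1` and `x + y` maximal among the
elements of `A` with positive coordinates (use `Set.Finite`/well foundedness: the sums are bounded by
`(2T+1) B + 2 B`...).  `(x,y)` is primitive because `n` is (the basis is unimodular).  By `farey_parents` there are
`(x₁,y₁), (x₂,y₂)` in the closed quadrant with sum `(x,y)` and determinant `1`; let
`n₁ = x₁ e₁ + y₁ e₂`, `n₂ = x₂ e₁ + y₂ e₂`: `n = n₁ + n₂`, `det2 n₁ n₂ = 1`.  Put `(a,b) = n₁`, `(c,d) = n`: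
`a d - b c = det2 n₁ n = det2 n₁ n₂ = 1` and `(c,d) ∈ A`.
Let `0 < q`, `g = q n₁ + p n ∈ A`: `g = u n₁ + v n₂`, `u = q + p`, `v = p`, `u > v`.  CLAIM `v ≤ 0 ≤ u`.
(i) If `v ≥ 1` then `u ≥ 2`; `g` has coordinates `u (x₁,y₁) + v (x₂,y₂)` in the basis, which are `≥` those of `n`
(so positive), with sum `u (x₁+y₁) + v (x₂+y₂) > (x₁+y₁) + (x₂+y₂)`, since `x₁ + y₁ ≥ 1`: contradicts maximality.
(ii) If `u ≤ -1` then `v ≤ -2`; `-g ∈ A` has coordinates `|u| (x₁,y₁) + |v| (x₂,y₂)`, sum larger than that of `n`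
since `x₂ + y₂ ≥ 1`: contradiction.  So `v ≤ 0` and `u ≥ 0`: `p ≤ 0`, `-q ≤ p`.
-/

open scoped Pointwise

namespace Pool.Agent.Lib.MP_bb0bab_co

theorem ear_lemma (A : Set (ℤ × ℤ)) (hA : ∀ g ∈ A, Prim g ∧ -g ∈ A) (hne : A.Nonempty) (B : ℤ)
    (hB : ∀ g ∈ A, |g.1| ≤ B ∧ |g.2| ≤ B) :
    ∃ a b c d : ℤ, a * d - b * c = 1 ∧ (c, d) ∈ A ∧
      ∀ q p : ℤ, 0 < q → (a * q + c * p, b * q + d * p) ∈ A → -q ≤ p ∧ p ≤ 0 := by
  classical
  set T := max B 0 + 1 with hT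
  have hT1 : B < T := by rw [hT]; have := le_max_left B 0; omega
  have hT0 : 0 < T := by rw [hT]; have := le_max_right B 0; omega
  -- coordinates: `g = x e₁ + y e₂`, `x = T g.1 - g.2`, `y = (T+1) g.1 - g.2`
  have hcoord : ∀ g ∈ A, (1 ≤ T * g.1 - g.2 ∧ 1 ≤ (T + 1) * g.1 - g.2) ∨
      (1 ≤ T * (-g).1 - (-g).2 ∧ 1 ≤ (T + 1) * (-g).1 - (-g).2) := by
    intro g hg
    obtain ⟨h1, h2⟩ := hB g hg
    rw [abs_le] at h1 h2
    rcases lt_trichotomy g.1 0 with h | h | h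
    · right
      simp only [Prod.fst_neg, Prod.snd_neg]
      constructor <;> nlinarith
    · have hp : Int.gcd g.1 g.2 = 1 := (hA g hg).1
      rw [h, Int.gcd_zero_left] at hp
      have h3 : g.2 = 1 ∨ g.2 = -1 := Int.natAbs_eq_iff.1 hp
      rcases h3 with h3 | h3
      · right
        simp only [Prod.fst_neg, Prod.snd_neg]
        rw [h, h3]; norm_num
      · left
        rw [h, h3]; norm_num
    · left
      constructor <;> nlinarith
  -- a maximal element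
  obtain ⟨n, hn, hnx, hny, hmax⟩ : ∃ n ∈ A, 1 ≤ T * n.1 - n.2 ∧ 1 ≤ (T + 1) * n.1 - n.2 ∧
      ∀ g ∈ A, 1 ≤ T * g.1 - g.2 → 1 ≤ (T + 1) * g.1 - g.2 →
        (T * g.1 - g.2) + ((T + 1) * g.1 - g.2) ≤ (T * n.1 - n.2) + ((T + 1) * n.1 - n.2) := by
    have hfin : {g | g ∈ A ∧ 1 ≤ T * g.1 - g.2 ∧ 1 ≤ (T + 1) * g.1 - g.2}.Finite := by
      refine ((Set.finite_Icc (-B) B).prod (Set.finite_Icc (-B) B)).subset ?_
      rintro g ⟨hg, -⟩
      obtain ⟨h1, h2⟩ := hB g hg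
      exact ⟨abs_le.1 h1, abs_le.1 h2⟩
    have hne' : {g | g ∈ A ∧ 1 ≤ T * g.1 - g.2 ∧ 1 ≤ (T + 1) * g.1 - g.2}.Nonempty := by
      obtain ⟨g, hg⟩ := hne
      rcases hcoord g hg with h | h
      · exact ⟨g, hg, h⟩
      · exact ⟨-g, (hA g hg).2, h⟩
    obtain ⟨n, hn, hmax⟩ := Set.exists_max_image _
      (fun g : ℤ × ℤ => (T * g.1 - g.2) + ((T + 1) * g.1 - g.2)) hfin hne'
    exact ⟨n, hn.1, hn.2.1, hn.2.2, fun g hg h1 h2 => hmax g ⟨hg, h1, h2⟩⟩
  obtain ⟨c, d⟩ := n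
  simp only at hnx hny hmax
  have hprim : Prim (T * c - d, (T + 1) * c - d) := by
    have hp : Int.gcd c d = 1 := (hA _ hn).1
    change Int.gcd (T * c - d) ((T + 1) * c - d) = 1
    rw [← Int.isCoprime_iff_gcd_eq_one] at hp ⊢
    obtain ⟨u, w, huw⟩ := hp
    -- `c = y - x`, `d = T y - (T+1) x`
    refine ⟨-u - w * (T + 1), u + w * T, ?_⟩
    linear_combination huw
  obtain ⟨⟨x₁, y₁⟩, ⟨x₂, y₂⟩, a1, a2, b1, b2, hsum, hdet⟩ := farey_parents _ _ hnx hny hprim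
  have hdet' : det2 (x₂, y₂) (x₁, y₁) = -1 := by
    have : det2 (x₂, y₂) (x₁, y₁) = - det2 (x₁, y₁) (x₂, y₂) := by unfold det2; ring
    rw [this, hdet]
  have s1 := farey_sum_pos a1 a2 (Or.inl hdet)
  have s2 := farey_sum_pos b1 b2 (Or.inr hdet')
  simp only at a1 a2 b1 b2 s1 s2
  have e1 : x₁ + x₂ = T * c - d := congrArg Prod.fst hsum
  have e2 : y₁ + y₂ = (T + 1) * c - d := congrArg Prod.snd hsum
  have hd : x₁ * y₂ - y₁ * x₂ = 1 := hdet
  -- `n₁ = x₁ e₁ + y₁ e₂`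
  refine ⟨y₁ - x₁, T * y₁ - (T + 1) * x₁, c, d, ?_, hn, ?_⟩
  · have hc : c = (y₁ + y₂) - (x₁ + x₂) := by linarith
    have hd' : d = T * (y₁ + y₂) - (T + 1) * (x₁ + x₂) := by rw [e1, e2]; ring
    rw [hc, hd']
    linear_combination hd
  · intro q p hq hg
    set u := q + p with hu
    -- coordinates of `g`
    have g1 : T * ((y₁ - x₁) * q + c * p) - ((T * y₁ - (T + 1) * x₁) * q + d * p) =
        u * x₁ + p * x₂ := by
      rw [hu]; linear_combination (-p) * e1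
    have g2 : (T + 1) * ((y₁ - x₁) * q + c * p) - ((T * y₁ - (T + 1) * x₁) * q + d * p) =
        u * y₁ + p * y₂ := by
      rw [hu]; linear_combination (-p) * e2
    constructor
    · by_contra hcon
      have hu1 : u ≤ -1 := by omega
      have hp2 : p ≤ -2 := by omega
      have hg' := (hA _ hg).2
      have g1' : T * (-((y₁ - x₁) * q + c * p)) - (-((T * y₁ - (T + 1) * x₁) * q + d * p)) =
          (-u) * x₁ + (-p) * x₂ := by linear_combination -g1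
      have g2' : (T + 1) * (-((y₁ - x₁) * q + c * p)) - (-((T * y₁ - (T + 1) * x₁) * q + d * p)) =
          (-u) * y₁ + (-p) * y₂ := by linear_combination -g2
      have h := hmax _ hg'
      simp only [Prod.fst_neg, Prod.snd_neg] at h
      rw [g1', g2', ← e1, ← e2] at h
      have k1 : 0 ≤ (-u - 1) * x₁ := mul_nonneg (by omega) a1
      have k2 : 0 ≤ (-p - 2) * x₂ := mul_nonneg (by omega) b1
      have k3 : 0 ≤ (-u - 1) * y₁ := mul_nonneg (by omega) a2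
      have k4 : 0 ≤ (-p - 2) * y₂ := mul_nonneg (by omega) b2
      have := h (by nlinarith) (by nlinarith)
      nlinarith
    · by_contra hcon
      have hp1 : 1 ≤ p := by omega
      have hu2 : 2 ≤ u := by omega
      have h := hmax _ hg
      simp only at h
      rw [g1, g2, ← e1, ← e2] at h
      have k1 : 0 ≤ (u - 2) * x₁ := mul_nonneg (by omega) a1
      have k2 : 0 ≤ (p - 1) * x₂ := mul_nonneg (by omega) b1
      have k3 : 0 ≤ (u - 2) * y₁ := mul_nonneg (by omega) a2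
      have k4 : 0 ≤ (p - 1) * y₂ := mul_nonneg (by omega) b2
      have := h (by nlinarith) (by nlinarith)
      nlinarith

end Pool.Agent.Lib.MP_bb0bab_co
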