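import Pool.Agent.Lib.MP_bb0bab_co.FE05
import Pool.Agent.Lib.MP_bb0bab_co.FE10a
import Pool.Agent.Lib.MP_bb0bab_co.FE10b

/-!
# FE13a normal form, last step: translations (NORM, first half)

`FE13a_one` normalises one set (bottom row starts at the origin); the covariogram identifies the heights and
the positions of the top rows.
-/

open scoped Pointwise

namespace Pool.Agent.Lib.MP_bb0bab_co

theorem FE13a_mem {S : Finset (ℤ × ℤ)} (s p : ℤ × ℤ) :
    p ∈ S.image (fun p => p + s) ↔ p - s ∈ S := by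
  rw [Finset.mem_image]
  constructor
  · rintro ⟨r, hr, rfl⟩
    rwa [add_sub_cancel_right]
  · intro h
    exact ⟨p - s, h, sub_add_cancel p s⟩

theorem FE13a_p1 : Prim (0, -1) := by unfold Prim; decide

theorem FE13a_p2 : Prim (0, 1) := by unfold Prim; decide

/-- normal position of one set -/
theorem FE13a_one {S : Finset (ℤ × ℤ)} (hS : S.Nonempty) (cS : LConv S) :
    ∃ (s : ℤ × ℤ) (h : ℕ) (xh : ℤ),
      (∀ p ∈ S.image (fun p => p + s), 0 ≤ p.2 ∧ p.2 ≤ h) ∧
      (∀ x : ℤ, (x, (0 : ℤ)) ∈ S.image (fun p => p + s) ↔ 0 ≤ x ∧ x ≤ edge S (0, -1)) ∧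
      (∀ x : ℤ, (x, (h : ℤ)) ∈ S.image (fun p => p + s) ↔ xh ≤ x ∧ x ≤ xh + edge S (0, 1)) ∧
      (h : ℤ) = supp S (0, 1) + supp S (0, -1) := by
  obtain ⟨he, σ, hσ⟩ := face_eq hS cS FE13a_p1
  obtain ⟨he', σ', hσ'⟩ := face_eq hS cS FE13a_p2
  have h1 : σ ∈ face S (0, -1) := (hσ σ).2 ⟨0, le_rfl, he, by simp⟩
  have h2 : σ' ∈ face S (0, 1) := (hσ' σ').2 ⟨0, le_rfl, he', by simp⟩
  unfold face at h1 h2
  rw [Finset.mem_filter] at h1 h2
  obtain ⟨h1, h1'⟩ := h1
  obtain ⟨h2, h2'⟩ := h2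
  have h1'' : -σ.2 = supp S (0, -1) := by rw [← h1']; simp [ev]
  have h2'' : σ'.2 = supp S (0, 1) := by rw [← h2']; simp [ev]
  have hlow : ∀ p ∈ S, σ.2 ≤ p.2 := by
    intro p hp
    have h3 := ev_le_supp hp (0, -1)
    rw [← h1''] at h3
    simp only [ev] at h3
    linarith
  have hup : ∀ p ∈ S, p.2 ≤ σ'.2 := by
    intro p hp
    have h3 := ev_le_supp hp (0, 1)
    rw [← h2''] at h3
    simp only [ev] at h3
    linarith
  have hh : 0 ≤ σ'.2 - σ.2 := by linarith [hlow σ' h2]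
  have hcast : ((σ'.2 - σ.2).toNat : ℤ) = σ'.2 - σ.2 := Int.toNat_of_nonneg hh
  refine ⟨-σ, (σ'.2 - σ.2).toNat, σ'.1 - edge S (0, 1) - σ.1, ?_, ?_, ?_, ?_⟩
  · intro p hp
    rw [FE13a_mem] at hp
    have h3 := hlow _ hp
    have h4 := hup _ hp
    simp only [Prod.snd_sub, Prod.snd_neg] at h3 h4
    rw [hcast]
    constructor <;> linarith
  · intro x
    rw [FE13a_mem]
    have h3 : (x, (0 : ℤ)) - -σ ∈ S ↔ (x, (0 : ℤ)) - -σ ∈ face S (0, -1) := by
      unfold face
      rw [Finset.mem_filter]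
      refine ⟨fun h => ⟨h, ?_⟩, fun h => h.1⟩
      rw [← h1'']
      simp [ev]
    rw [h3, hσ]
    constructor
    · rintro ⟨t, ht0, ht1, ht⟩
      have h4 := congrArg Prod.fst ht
      simp only [Prod.fst_sub, Prod.fst_neg] at h4
      constructor <;> linarith
    · rintro ⟨h4, h5⟩
      exact ⟨x, h4, h5, Prod.ext (by simp; ring) (by simp)⟩
  · intro x
    rw [FE13a_mem, hcast]
    have h3 : (x, σ'.2 - σ.2) - -σ ∈ S ↔ (x, σ'.2 - σ.2) - -σ ∈ face S (0, 1) := by
      unfold face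
      rw [Finset.mem_filter]
      refine ⟨fun h => ⟨h, ?_⟩, fun h => h.1⟩
      rw [← h2'']
      simp [ev]
    rw [h3, hσ']
    constructor
    · rintro ⟨t, ht0, ht1, ht⟩
      have h4 := congrArg Prod.fst ht
      simp only [Prod.fst_sub, Prod.fst_neg] at h4
      constructor <;> linarith
    · rintro ⟨h4, h5⟩
      refine ⟨σ'.1 - σ.1 - x, by linarith, by linarith, Prod.ext ?_ ?_⟩
      · simp only [Prod.fst_sub, Prod.fst_neg]
        ring
      · simp
  · rw [hcast, ← h1'', ← h2'']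
    ring

/-- the differences of points of the top and of the bottom row -/
theorem FE13a_top {S : Finset (ℤ × ℤ)} {h : ℕ} {xh e e' : ℤ} (he : 0 ≤ e) (he' : 0 ≤ e')
    (rows : ∀ p ∈ S, 0 ≤ p.2 ∧ p.2 ≤ h)
    (bot : ∀ x : ℤ, (x, (0 : ℤ)) ∈ S ↔ 0 ≤ x ∧ x ≤ e)
    (top : ∀ x : ℤ, (x, (h : ℤ)) ∈ S ↔ xh ≤ x ∧ x ≤ xh + e') (n : ℤ) :
    0 < cov S (n, (h : ℤ)) ↔ xh - e ≤ n ∧ n ≤ xh + e' := by
  rw [cov_pos_iff]
  constructor
  · rintro ⟨p, hp, hp'⟩
    have h1 := rows p hp
    have h2 := rows _ hp'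
    simp only [Prod.snd_sub] at h2
    have h3 : p.2 = h := by linarith
    have h4 : (p.1, (h : ℤ)) ∈ S := by rw [← h3]; exact hp
    have h5 : (p.1 - n, (0 : ℤ)) ∈ S := by
      have h6 : p - (n, (h : ℤ)) = (p.1 - n, 0) := Prod.ext rfl (by simp [h3])
      rw [← h6]; exact hp'
    rw [top] at h4
    rw [bot] at h5
    constructor <;> linarith
  · rintro ⟨h1, h2⟩
    refine ⟨(max n xh, (h : ℤ)), (top _).2 ⟨le_max_right _ _, max_le h2 (by linarith)⟩, ?_⟩
    have h3 : (max n xh, (h : ℤ)) - (n, (h : ℤ)) = (max n xh - n, 0) := Prod.ext rfl (by simp)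
    rw [h3, bot]
    constructor
    · linarith [le_max_left n xh]
    · rcases le_total n xh with h4 | h4
      · rw [max_eq_right h4]; linarith
      · rw [max_eq_left h4]; linarith

theorem norm_translate {H K : Finset (ℤ × ℤ)} (hH : H.Nonempty) (hK : K.Nonempty)
    (cH : LConv H) (cK : LConv K) (hc : ∀ x, cov H x = cov K x)
    (hb : edge H (0, -1) = edge K (0, -1)) (ht : edge H (0, 1) = edge K (0, 1))
    (hlt : edge H (0, 1) < edge H (0, -1))
    (hsym : ∀ q p : ℤ, 0 < q → Prim (q, p) → (0 < p ∨ p < -q) → edge H (q, p) = edge H (-q, -p))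
    (hnt : ¬ Trivial H K) :
    ∃ (s t : ℤ × ℤ) (L M h : ℕ) (xh : ℤ),
      NormPair (H.image (fun p => p + s)) (K.image (fun p => p + t)) L M h xh := by
  obtain ⟨s, h, xh, rH, bH, tH, wH⟩ := FE13a_one hH cH
  obtain ⟨t, h', xh', rK, bK, tK, wK⟩ := FE13a_one hK cK
  have he0 : 0 ≤ edge H (0, -1) := (face_eq hH cH FE13a_p1).1
  have he1 : 0 ≤ edge H (0, 1) := (face_eq hH cH FE13a_p2).1
  have hw := cov_width hH hK hc (0, 1)
  have hneg : -((0 : ℤ), (1 : ℤ)) = (0, -1) := rfl
  rw [hneg, ← wH, ← wK] at hw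
  have hhh : h' = h := by omega
  subst hhh
  rw [← hb] at bK
  rw [← ht] at tK
  have hcov : ∀ x, cov (H.image (fun p => p + s)) x = cov (K.image (fun p => p + t)) x := by
    intro x
    rw [cov_translate, cov_translate, hc]
  have hxx : xh' = xh := by
    have k1 := FE13a_top he0 he1 rH bH tH
    have k2 := FE13a_top he0 he1 rK bK tK
    have a1 := (k2 (xh - edge H (0, -1))).1 (by
      rw [← hcov]; exact (k1 _).2 ⟨le_rfl, by linarith⟩)
    have a2 := (k1 (xh' - edge H (0, -1))).1 (by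
      rw [hcov]; exact (k2 _).2 ⟨le_rfl, by linarith⟩)
    linarith [a1.1, a2.1]
  subst hxx
  have hL : ((edge H (0, -1) + 1).toNat : ℤ) = edge H (0, -1) + 1 := Int.toNat_of_nonneg (by linarith)
  have hM : ((edge H (0, 1) + 1).toNat : ℤ) = edge H (0, 1) + 1 := Int.toNat_of_nonneg (by linarith)
  refine ⟨s, t, (edge H (0, -1) + 1).toNat, (edge H (0, 1) + 1).toNat, h', xh', ?_⟩
  exact
    { convH := lconv_translate cH s
      convK := lconv_translate cK t
      hM := by omega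
      hLM := by omega
      hh := by
        by_contra hcon
        have h0 : h' = 0 := by omega
        subst h0
        have a1 := (tH 0).1 ((bH 0).2 ⟨le_rfl, he0⟩)
        have a2 := (tH (edge H (0, -1))).1 ((bH _).2 ⟨he0, le_rfl⟩)
        linarith [a1.1, a2.2]
      rowsH := rH
      rowsK := rK
      botH := fun x => by
        rw [bH, hL]
        constructor <;> rintro ⟨h1, h2⟩ <;> constructor <;> linarith
      botK := fun x => by
        rw [bK, hL]
        constructor <;> rintro ⟨h1, h2⟩ <;> constructor <;> linarith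
      topH := fun x => by
        rw [tH, hM]
        constructor <;> rintro ⟨h1, h2⟩ <;> constructor <;> linarith
      topK := fun x => by
        rw [tK, hM]
        constructor <;> rintro ⟨h1, h2⟩ <;> constructor <;> linarith
      hcov := hcov
      hsym := fun q p hq hqp hor => by
        rw [edge_translate hH, edge_translate hH]
        exact hsym q p hq hqp hor
      hne := fun heq => by
        apply hnt
        refine trivial_translate s t ?_
        rw [← heq]
        exact trivial_refl _ }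

end Pool.Agent.Lib.MP_bb0bab_co
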