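import Pool.Agent.Lib.MP_bb0bab_co.FE11
import Pool.Agent.Lib.MP_bb0bab_co.FE12
import Pool.Agent.Lib.MP_bb0bab_co.FE13a

/-!
# FE13b existence of the normal form (NORM)

The ear lemma for the asymmetric directions gives the unimodular map; possibly `-1` for both sets and a point
reflection of the second set; then `norm_translate`.
-/

open scoped Pointwise

namespace Pool.Agent.Lib.MP_bb0bab_co

theorem FE13b_prim_neg {g : ℤ × ℤ} (h : Prim g) : Prim (-g) := by
  unfold Prim at *
  simpa using h

theorem FE13b_neg_image (S : Finset (ℤ × ℤ)) :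
    S.image (fun p => -p) = S.image (lin (-1) 0 0 (-1)) := by
  refine Finset.image_congr fun p _ => ?_
  exact Prod.ext (by simp [lin]) (by simp [lin])

theorem FE13b_edge_neg {S : Finset (ℤ × ℤ)} (hS : S.Nonempty) (g : ℤ × ℤ) :
    edge (S.image (fun p => -p)) g = edge S (-g) := by
  rw [FE13b_neg_image, edge_lin hS (-1) 0 0 (-1) (by norm_num)]
  congr 1
  exact Prod.ext (by simp) (by simp)

theorem FE13b_prim_lin {a b c d q p : ℤ} (hdet : a * d - b * c = 1) (h : Prim (q, p)) :
    Prim (a * q + c * p, b * q + d * p) := by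
  unfold Prim at *
  rw [← Int.isCoprime_iff_gcd_eq_one] at *
  obtain ⟨u, v, huv⟩ := h
  refine ⟨u * d - v * b, v * a - u * c, ?_⟩
  dsimp only at *
  linear_combination huv + (u * q + v * p) * hdet

theorem exists_norm {H K : Finset (ℤ × ℤ)} (hH : H.Nonempty) (hK : K.Nonempty)
    (cH : LConv H) (cK : LConv K) (hc : ∀ x, cov H x = cov K x) (hnt : ¬ Trivial H K) :
    ∃ (H' K' : Finset (ℤ × ℤ)) (L M h : ℕ) (xh : ℤ), NormPair H' K' L M h xh ∧
      (Arises H' K' → Arises H K) := by
  classical
  obtain ⟨B, hB⟩ := edge_bound hH cH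
  obtain ⟨a, b, c, d, hdet, hcd, hear⟩ := ear_lemma {g | Prim g ∧ edge H g ≠ edge H (-g)} (by
      rintro g ⟨h1, h2⟩
      refine ⟨h1, FE13b_prim_neg h1, ?_⟩
      rw [neg_neg]
      exact h2.symm) (by
      by_contra hcon
      rw [Set.not_nonempty_iff_eq_empty] at hcon
      have hs : ∀ g, Prim g → edge H g = edge H (-g) := by
        intro g hg
        by_contra h
        have : g ∈ ({g | Prim g ∧ edge H g ≠ edge H (-g)} : Set (ℤ × ℤ)) := ⟨hg, h⟩
        rw [hcon] at this
        exact this
      obtain ⟨t, ht⟩ := translate_of_symmetric hH hK cH cK hc hs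
      refine hnt ⟨-t, Or.inl ?_⟩
      rw [ht, Finset.image_image]
      conv_lhs => rw [← Finset.image_id (s := K)]
      refine Finset.image_congr fun p _ => ?_
      simp) B (by
      rintro g ⟨h1, h2⟩
      have h3 := (face_eq hH cH h1).1
      have h4 := (face_eq hH cH (FE13b_prim_neg h1)).1
      rcases lt_or_ge (edge H g) 1 with h5 | h5
      · have h6 : 1 ≤ edge H (-g) := by
          rcases lt_or_ge (edge H (-g)) 1 with h6 | h6
          · exfalso; apply h2; omega
          · exact h6
        have h7 := hB (-g) (FE13b_prim_neg h1) h6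
        simpa using h7
      · exact hB g h1 h5)
  -- choose the sign
  obtain ⟨a', b', c', d', hdet', hlt, hsym⟩ : ∃ a' b' c' d' : ℤ, a' * d' - b' * c' = 1 ∧
      edge (H.image (lin a' b' c' d')) (0, 1) < edge (H.image (lin a' b' c' d')) (0, -1) ∧
      ∀ q p : ℤ, 0 < q → Prim (q, p) → (0 < p ∨ p < -q) →
        edge (H.image (lin a' b' c' d')) (q, p) = edge (H.image (lin a' b' c' d')) (-q, -p) := by
    have hs : ∀ q p : ℤ, 0 < q → Prim (q, p) → (0 < p ∨ p < -q) →
        edge H (a * q + c * p, b * q + d * p) = edge H (-(a * q + c * p, b * q + d * p)) := by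
      intro q p hq hqp hor
      by_contra hcon
      have h1 := hear q p hq ⟨FE13b_prim_lin hdet hqp, hcon⟩
      rcases hor with h | h <;> omega
    obtain ⟨-, hne⟩ := hcd
    rcases lt_or_gt_of_ne hne with h | h
    · refine ⟨a, b, c, d, hdet, ?_, ?_⟩
      · rw [edge_lin hH a b c d (Or.inl hdet), edge_lin hH a b c d (Or.inl hdet)]
        simpa using h
      · intro q p hq hqp hor
        rw [edge_lin hH a b c d (Or.inl hdet), edge_lin hH a b c d (Or.inl hdet)]
        convert hs q p hq hqp hor using 2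
        exact Prod.ext (by simp; ring) (by simp; ring)
    · have hdet2 : (-a) * (-d) - (-b) * (-c) = 1 := by linarith
      refine ⟨-a, -b, -c, -d, hdet2, ?_, ?_⟩
      · rw [edge_lin hH _ _ _ _ (Or.inl hdet2), edge_lin hH _ _ _ _ (Or.inl hdet2)]
        simpa using h
      · intro q p hq hqp hor
        rw [edge_lin hH _ _ _ _ (Or.inl hdet2), edge_lin hH _ _ _ _ (Or.inl hdet2)]
        convert (hs q p hq hqp hor).symm using 2
        · exact Prod.ext (by simp; ring) (by simp; ring)
        · exact Prod.ext (by simp) (by simp)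
  have hcov : ∀ y, cov (H.image (lin a' b' c' d')) y = cov (K.image (lin a' b' c' d')) y := by
    intro y
    have hy : y = lin a' b' c' d' (d' * y.1 - b' * y.2, a' * y.2 - c' * y.1) := by
      refine Prod.ext ?_ ?_
      · simp only [lin]
        linear_combination (-y.1) * hdet'
      · simp only [lin]
        linear_combination (-y.2) * hdet'
    rw [hy, cov_lin _ _ _ _ (Or.inl hdet'), cov_lin _ _ _ _ (Or.inl hdet'), hc]
  have nH := hH.image (lin a' b' c' d')
  have nK := hK.image (lin a' b' c' d')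
  have cH' := lconv_lin cH a' b' c' d' (Or.inl hdet')
  have cK' := lconv_lin cK a' b' c' d' (Or.inl hdet')
  have hnt' : ¬ Trivial (H.image (lin a' b' c' d')) (K.image (lin a' b' c' d')) :=
    fun h => hnt (trivial_lin a' b' c' d' (Or.inl hdet') h)
  have hback : Arises (H.image (lin a' b' c' d')) (K.image (lin a' b' c' d')) → Arises H K :=
    fun h => arises_lin a' b' c' d' (Or.inl hdet') h
  generalize H.image (lin a' b' c' d') = H₂ at *
  generalize K.image (lin a' b' c' d') = K₂ at *
  have hneg : -((0 : ℤ), (1 : ℤ)) = (0, -1) := rfl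
  have hneg' : -((0 : ℤ), (-1 : ℤ)) = (0, 1) := rfl
  rcases edge_pair nH nK cH' cK' hcov FE13a_p2 with ⟨h1, h2⟩ | ⟨h1, h2⟩
  · rw [hneg] at h2
    obtain ⟨s, t, L, M, h, xh, P⟩ := norm_translate nH nK cH' cK' hcov h2 h1 hlt hsym hnt'
    exact ⟨_, _, L, M, h, xh, P, fun h => hback (arises_translate s t h)⟩
  · rw [hneg] at h1 h2
    have cK3 : LConv (K₂.image (fun p => -p)) := by
      rw [FE13b_neg_image]
      exact lconv_lin cK' _ _ _ _ (by norm_num)
    obtain ⟨s, t, L, M, h, xh, P⟩ := norm_translate nH (nK.image _) cH' cK3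
      (fun x => by rw [cov_neg, hcov]) (by rw [FE13b_edge_neg nK, hneg', h2])
      (by rw [FE13b_edge_neg nK, hneg, h1]) hlt hsym (fun h => hnt' (trivial_neg_right h))
    exact ⟨_, _, L, M, h, xh, P, fun h => hback (arises_neg_right (arises_translate s t h))⟩

/-- `NormPair` is symmetric in `H`, `K` -/
theorem NormPair.symm {H K : Finset (ℤ × ℤ)} {L M h : ℕ} {xh : ℤ} (P : NormPair H K L M h xh) :
    NormPair K H L M h xh where
  convH := P.convK
  convK := P.convH
  hM := P.hM
  hLM := P.hLM
  hh := P.hh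
  rowsH := P.rowsK
  rowsK := P.rowsH
  botH := P.botK
  botK := P.botH
  topH := P.topK
  topK := P.topH
  hcov := fun x => (P.hcov x).symm
  hsym := by
    intro q p hq hqp hor
    have hL : 1 ≤ L := by have := P.hM; have := P.hLM; omega
    have hHn : H.Nonempty := ⟨(0, 0), (P.botH 0).2 ⟨le_rfl, by omega⟩⟩
    have hKn : K.Nonempty := ⟨(0, 0), (P.botK 0).2 ⟨le_rfl, by omega⟩⟩
    have h1 := P.hsym q p hq hqp hor
    have hneg : -(q, p) = (-q, -p) := rfl
    rcases edge_pair hHn hKn P.convH P.convK P.hcov hqp with ⟨h2, h3⟩ | ⟨h2, h3⟩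
    · rw [hneg] at h3
      rw [← h2, ← h3, h1]
    · rw [hneg] at h2 h3
      rw [← h2, ← h3, h1]
  hne := P.hne.symm

end Pool.Agent.Lib.MP_bb0bab_co
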