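import Pool.Agent.Lib.MP_bb0bab_co.FE05
import Pool.Agent.Lib.MP_bb0bab_co.FE09

/-!
# FE14a support functions agree outside the strip, closed quadrant (OUT)

`FE14a_far`: values of the support function in four steep directions; then the linearity lemmas
`asym_linear` and `diff_linear` on the positive quadrant.
-/

open scoped Pointwise

namespace Pool.Agent.Lib.MP_bb0bab_co

/-- the support function in four steep directions and in direction `(0, ±1)` -/
theorem FE14a_far {S : Finset (ℤ × ℤ)} {L M h : ℕ} {xh : ℤ} (hL : 1 ≤ L) (hM : 1 ≤ M)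
    (rows : ∀ p ∈ S, 0 ≤ p.2 ∧ p.2 ≤ h)
    (bot : ∀ x : ℤ, (x, 0) ∈ S ↔ 0 ≤ x ∧ x < L)
    (top : ∀ x : ℤ, (x, (h : ℤ)) ∈ S ↔ xh ≤ x ∧ x < xh + M) :
    supp S (0, 1) = h ∧ supp S (0, -1) = 0 ∧ ∃ P₀ : ℕ, ∀ P : ℕ, P₀ ≤ P →
      supp S (1, (P : ℤ)) = xh + M - 1 + P * h ∧ supp S (-1, -(P : ℤ)) = 0 ∧
      supp S (1, -(P : ℤ)) = L - 1 ∧ supp S (-1, (P : ℤ)) = -xh + P * h := by
  have h00 : ((0 : ℤ), (0 : ℤ)) ∈ S := (bot 0).2 ⟨le_rfl, by omega⟩
  have hL0 : ((L : ℤ) - 1, (0 : ℤ)) ∈ S := (bot _).2 ⟨by omega, by omega⟩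
  have ht0 : (xh, (h : ℤ)) ∈ S := (top _).2 ⟨le_rfl, by omega⟩
  have ht1 : (xh + M - 1, (h : ℤ)) ∈ S := (top _).2 ⟨by omega, by omega⟩
  obtain ⟨B, hB⟩ := exists_diam S
  have hx : ∀ p ∈ S, ∀ q ∈ S, p.1 ≤ q.1 + B := by
    intro p hp q hq
    have h1 := hB p hp q hq
    have h2 := le_abs_self (p.1 - q.1)
    have h3 := abs_nonneg (p.2 - q.2)
    linarith
  refine ⟨?_, ?_, B.toNat, fun P hP => ?_⟩
  · rw [supp_eq_of ht0]
    · simp [ev]
    · intro q hq
      have := rows q hq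
      simp only [ev]
      linarith
  · rw [supp_eq_of h00]
    · simp [ev]
    · intro q hq
      have := rows q hq
      simp only [ev]
      linarith
  · have hPB : B ≤ P := by
      have := Int.self_le_toNat B
      omega
    have hP0 : (0 : ℤ) ≤ P := by positivity
    refine ⟨?_, ?_, ?_, ?_⟩
    · rw [supp_eq_of ht1]
      · simp [ev]
      · intro q hq
        have h1 := rows q hq
        have h2 := hx q hq _ ht1
        simp only [ev] at h2 ⊢
        rcases eq_or_lt_of_le h1.2 with h3 | h3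
        · have h4 : (q.1, (h : ℤ)) ∈ S := by rw [← h3]; exact hq
          have h5 := (top q.1).1 h4
          rw [h3]
          linarith
        · have h6 : (P : ℤ) * q.2 ≤ P * (h - 1) := mul_le_mul_of_nonneg_left (by linarith) hP0
          linarith
    · rw [supp_eq_of h00]
      · simp [ev]
      · intro q hq
        have h1 := rows q hq
        have h2 := hx _ h00 q hq
        simp only [ev] at h2 ⊢
        rcases eq_or_lt_of_le h1.1 with h3 | h3
        · have h4 : (q.1, (0 : ℤ)) ∈ S := by rw [h3]; exact hq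
          have h5 := (bot q.1).1 h4
          rw [← h3]
          linarith
        · have h6 : (P : ℤ) * 1 ≤ P * q.2 := mul_le_mul_of_nonneg_left (by linarith) hP0
          linarith
    · rw [supp_eq_of hL0]
      · simp [ev]
      · intro q hq
        have h1 := rows q hq
        have h2 := hx q hq _ hL0
        simp only [ev] at h2 ⊢
        rcases eq_or_lt_of_le h1.1 with h3 | h3
        · have h4 : (q.1, (0 : ℤ)) ∈ S := by rw [h3]; exact hq
          have h5 := (bot q.1).1 h4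
          rw [← h3]
          linarith
        · have h6 : (P : ℤ) * 1 ≤ P * q.2 := mul_le_mul_of_nonneg_left (by linarith) hP0
          linarith
    · rw [supp_eq_of ht0]
      · simp [ev]
      · intro q hq
        have h1 := rows q hq
        have h2 := hx _ ht0 q hq
        simp only [ev] at h2 ⊢
        rcases eq_or_lt_of_le h1.2 with h3 | h3
        · have h4 : (q.1, (h : ℤ)) ∈ S := by rw [← h3]; exact hq
          have h5 := (top q.1).1 h4
          rw [h3]
          linarith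
        · have h6 : (P : ℤ) * q.2 ≤ P * (h - 1) := mul_le_mul_of_nonneg_left (by linarith) hP0
          linarith

/-- the edges of a normalised pair in a direction where `H` is symmetric -/
theorem FE14a_edges {H K : Finset (ℤ × ℤ)} (hH : H.Nonempty) (hK : K.Nonempty)
    (cH : LConv H) (cK : LConv K) (hc : ∀ x, cov H x = cov K x) {g : ℤ × ℤ} (hg : Prim g)
    (hs : edge H g = edge H (-g)) :
    edge H g = edge K g ∧ edge K g = edge K (-g) := by
  rcases edge_pair hH hK cH cK hc hg with ⟨h1, h2⟩ | ⟨h1, h2⟩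
  · exact ⟨h1, by rw [← h1, ← h2, hs]⟩
  · exact ⟨by rw [← h2, hs], by rw [← h1, ← h2, hs]⟩

theorem NormPair.supp_eq_pos {H K : Finset (ℤ × ℤ)} {L M h : ℕ} {xh : ℤ}
    (P : NormPair H K L M h xh) (q p : ℤ) (hq : 0 ≤ q) (hp : 0 ≤ p) :
    supp H (q, p) = supp K (q, p) ∧ supp H (-q, -p) = supp K (-q, -p) ∧
      supp H (q, p) - supp H (-q, -p) = q * (xh + M - 1) + p * h := by
  have hL : 1 ≤ L := by have := P.hM; have := P.hLM; omega
  have hHn : H.Nonempty := ⟨(0, 0), (P.botH 0).2 ⟨le_rfl, by omega⟩⟩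
  have hKn : K.Nonempty := ⟨(0, 0), (P.botK 0).2 ⟨le_rfl, by omega⟩⟩
  obtain ⟨h01, h02, PH, hPH⟩ := FE14a_far hL P.hM P.rowsH P.botH P.topH
  obtain ⟨k01, k02, PK, hPK⟩ := FE14a_far hL P.hM P.rowsK P.botK P.topK
  obtain ⟨hH1, hH2, -, -⟩ := hPH (max PH PK) (le_max_left _ _)
  obtain ⟨hK1, hK2, -, -⟩ := hPK (max PH PK) (le_max_right _ _)
  generalize max PH PK = N at *
  have hsH : ∀ g : ℤ × ℤ, 0 < g.1 → 0 < g.2 → Prim g → edge H g = edge H (-g) :=
    fun g h1 h2 hg => P.hsym g.1 g.2 h1 hg (Or.inl h2)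
  have hsK : ∀ g : ℤ × ℤ, 0 < g.1 → 0 < g.2 → Prim g → edge K g = edge K (-g) :=
    fun g h1 h2 hg => (FE14a_edges hHn hKn P.convH P.convK P.hcov hg (hsH g h1 h2 hg)).2
  have heq : ∀ g : ℤ × ℤ, 0 < g.1 → 0 < g.2 → Prim g → edge H g = edge K g :=
    fun g h1 h2 hg => (FE14a_edges hHn hKn P.convH P.convK P.hcov hg (hsH g h1 h2 hg)).1
  have hA := asym_linear hHn P.convH hsH
  have hD := diff_linear hHn hKn P.convH P.convK heq
  have hA1 := hA 1 N
  have hD1 := hD 1 N
  push_cast at hA1 hD1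
  rw [h01, h02, hH1, hH2] at hA1
  rw [h01, k01, hH1, hK1] at hD1
  obtain ⟨a, rfl⟩ := Int.eq_ofNat_of_zero_le hq
  obtain ⟨b, rfl⟩ := Int.eq_ofNat_of_zero_le hp
  have hAab := hA a b
  have hDab := hD a b
  have hw := cov_width hHn hKn P.hcov ((a : ℤ), (b : ℤ))
  have hneg : -((a : ℤ), (b : ℤ)) = (-(a : ℤ), -(b : ℤ)) := rfl
  rw [hneg] at hw
  rw [h01, h02] at hAab
  rw [h01, k01] at hDab
  have e1 : supp H (1, 0) - supp H (-1, 0) = xh + M - 1 := by linarith
  have e2 : supp H (1, 0) - supp K (1, 0) = 0 := by linarith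
  rw [e1] at hAab
  rw [e2] at hDab
  refine ⟨by linarith, by linarith, by rw [hAab]; ring⟩

end Pool.Agent.Lib.MP_bb0bab_co
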