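import Pool.Agent.Lib.MP_bb0bab_co.FE05
import Pool.Agent.Lib.MP_bb0bab_co.FE09
import Pool.Agent.Lib.MP_bb0bab_co.FE10a
import Pool.Agent.Lib.MP_bb0bab_co.FE14a

/-!
# FE14b support functions agree outside the strip, second cone (OUT)

The cone generated by `(1,-1)` and `(0,-1)` is mapped to the positive quadrant by the unimodular map
`lin 1 (-1) 0 (-1)`.
-/

open scoped Pointwise

namespace Pool.Agent.Lib.MP_bb0bab_co

theorem FE14b_prim {a b : ℤ} (h : Prim (a, b)) : Prim (a, -a - b) := by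
  unfold Prim at *
  rw [← Int.isCoprime_iff_gcd_eq_one] at *
  obtain ⟨u, v, huv⟩ := h
  exact ⟨u - v, -v, by dsimp only at *; linarith⟩

theorem NormPair.supp_eq_neg {H K : Finset (ℤ × ℤ)} {L M h : ℕ} {xh : ℤ}
    (P : NormPair H K L M h xh) (q p : ℤ) (hq : 0 ≤ q) (hp : q ≤ p) :
    supp H (q, -p) = supp K (q, -p) ∧ supp H (-q, p) = supp K (-q, p) ∧
      supp H (q, -p) - supp H (-q, p) = q * (xh + L - 1) - p * h := by
  have hL : 1 ≤ L := by have := P.hM; have := P.hLM; omega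
  have hHn : H.Nonempty := ⟨(0, 0), (P.botH 0).2 ⟨le_rfl, by omega⟩⟩
  have hKn : K.Nonempty := ⟨(0, 0), (P.botK 0).2 ⟨le_rfl, by omega⟩⟩
  obtain ⟨h01, h02, PH, hPH⟩ := FE14a_far hL P.hM P.rowsH P.botH P.topH
  obtain ⟨k01, k02, PK, hPK⟩ := FE14a_far hL P.hM P.rowsK P.botK P.topK
  obtain ⟨-, -, hH1, hH2⟩ := hPH (max PH PK + 1) ((le_max_left _ _).trans (Nat.le_succ _))
  obtain ⟨-, -, hK1, hK2⟩ := hPK (max PH PK + 1) ((le_max_right _ _).trans (Nat.le_succ _))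
  generalize max PH PK = N at *
  have hdet : (1 : ℤ) * (-1) - (-1) * 0 = 1 ∨ (1 : ℤ) * (-1) - (-1) * 0 = -1 := by norm_num
  -- the images
  have hsupp : ∀ S : Finset (ℤ × ℤ), S.Nonempty → ∀ x y : ℤ,
      supp (S.image (lin 1 (-1) 0 (-1))) (x, y) = supp S (x, -x - y) := by
    intro S hS x y
    rw [supp_lin hS]
    congr 1
    exact Prod.ext (by simp) (by simp; ring)
  have hedge : ∀ S : Finset (ℤ × ℤ), S.Nonempty → ∀ x y : ℤ,
      edge (S.image (lin 1 (-1) 0 (-1))) (x, y) = edge S (x, -x - y) := by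
    intro S hS x y
    rw [edge_lin hS 1 (-1) 0 (-1) hdet]
    congr 1
    exact Prod.ext (by simp) (by simp; ring)
  have hbas : ∀ g : ℤ × ℤ, 0 < g.1 → 0 < g.2 → Prim g →
      edge H (g.1, -g.1 - g.2) = edge H (-(g.1, -g.1 - g.2)) :=
    fun g h1 h2 hg => P.hsym g.1 (-g.1 - g.2) h1 (FE14b_prim hg) (Or.inr (by linarith))
  have hneg' : ∀ g : ℤ × ℤ, (-g.1, -(-g.1) - (-g.2)) = -(g.1, -g.1 - g.2) := by
    intro g
    exact Prod.ext rfl (by simp; ring)
  have hsH : ∀ g : ℤ × ℤ, 0 < g.1 → 0 < g.2 → Prim g →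
      edge (H.image (lin 1 (-1) 0 (-1))) g = edge (H.image (lin 1 (-1) 0 (-1))) (-g) := by
    intro g h1 h2 hg
    have e1 := hedge H hHn g.1 g.2
    have e2 := hedge H hHn (-g.1) (-g.2)
    rw [hneg'] at e2
    exact e1.trans ((hbas g h1 h2 hg).trans e2.symm)
  have hsK : ∀ g : ℤ × ℤ, 0 < g.1 → 0 < g.2 → Prim g →
      edge (K.image (lin 1 (-1) 0 (-1))) g = edge (K.image (lin 1 (-1) 0 (-1))) (-g) := by
    intro g h1 h2 hg
    have e1 := hedge K hKn g.1 g.2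
    have e2 := hedge K hKn (-g.1) (-g.2)
    rw [hneg'] at e2
    have e3 := (FE14a_edges hHn hKn P.convH P.convK P.hcov (FE14b_prim (a := g.1) (b := g.2) hg)
      (hbas g h1 h2 hg)).2
    exact e1.trans (e3.trans e2.symm)
  have heq : ∀ g : ℤ × ℤ, 0 < g.1 → 0 < g.2 → Prim g →
      edge (H.image (lin 1 (-1) 0 (-1))) g = edge (K.image (lin 1 (-1) 0 (-1))) g := by
    intro g h1 h2 hg
    have e1 := hedge H hHn g.1 g.2
    have e2 := hedge K hKn g.1 g.2
    have e3 := (FE14a_edges hHn hKn P.convH P.convK P.hcov (FE14b_prim (a := g.1) (b := g.2) hg)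
      (hbas g h1 h2 hg)).1
    exact e1.trans (e3.trans e2.symm)
  have cH' := lconv_lin P.convH 1 (-1) 0 (-1) hdet
  have cK' := lconv_lin P.convK 1 (-1) 0 (-1) hdet
  have hA := asym_linear (hHn.image _) cH' hsH
  have hD := diff_linear (hHn.image _) (hKn.image _) cH' cK' heq
  simp only [hsupp H hHn, hsupp K hKn] at hA hD
  have hA1 := hA 1 N
  have hD1 := hD 1 N
  push_cast at hA1 hD1 hH1 hH2 hK1 hK2
  have c1 : (-1 - (N : ℤ)) = -((N : ℤ) + 1) := by ring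
  have c2 : (1 - -(N : ℤ)) = (N : ℤ) + 1 := by ring
  have c3 : ((-1 : ℤ) - 0) = -1 := by ring
  have c4 : (- -1 - (0 : ℤ)) = 1 := by ring
  have c5 : ((-0 : ℤ) - 1) = -1 := by ring
  have c6 : ((-0 : ℤ) - -1) = 1 := by ring
  rw [c1, c2, h01, h02, hH1, hH2] at hA1
  rw [c1, h02, k02, hH1, hK1] at hD1
  obtain ⟨a, rfl⟩ := Int.eq_ofNat_of_zero_le hq
  obtain ⟨b, hb⟩ := Int.eq_ofNat_of_zero_le (sub_nonneg.2 hp)
  have hp' : p = a + b := by linarith
  subst hp'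
  have hAab := hA a b
  have hDab := hD a b
  have hw := cov_width hHn hKn P.hcov ((a : ℤ), -((a : ℤ) + b))
  have hneg : -((a : ℤ), -((a : ℤ) + b)) = (-(a : ℤ), (a : ℤ) + b) := Prod.ext rfl (by simp)
  rw [hneg] at hw
  have d1 : (-(a : ℤ) - b) = -((a : ℤ) + b) := by ring
  have d2 : (- -(a : ℤ) - -(b : ℤ)) = (a : ℤ) + b := by ring
  rw [d1, d2, c3, c4, c5, c6, h01, h02] at hAab
  rw [d1, c3, c5, h02, k02] at hDab
  have e1 : supp H (1, -1) - supp H (-1, 1) = xh + L - 1 - h := by linarith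
  have e2 : supp H (1, -1) - supp K (1, -1) = 0 := by linarith
  rw [e1] at hAab
  rw [e2] at hDab
  refine ⟨by linarith, by linarith, by rw [hAab]; ring⟩

end Pool.Agent.Lib.MP_bb0bab_co
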