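import Pool.Agent.Lib.MP_bb0bab_co.FE01

/-!
# FE15 boundary functions (BDRY)

PROOFS. `hull S` is compact and convex (`Set.Finite.isCompact_convexHull`, `convex_convexHull`), heights in `[0,h]`
(`convexHull_min` for the strip).  For `0 ≤ y ≤ h` the section `{x | (x,y) ∈ hull S}` is nonempty (convex combination
of `(x₀,0)` and `(x₁,h)`), compact (closed in `ℝ`, bounded), convex, so it is `[sInf, sSup]` (`IsCompact.sInf_mem`,
`IsCompact.sSup_mem`, order connected).  Convexity of `lft`: `(lft S y, y)`, `(lft S y', y')` are in the hull, so is their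
convex combination, and `lft` at the combined height is `≤` its abscissa.  `rgt` similarly.
`mem_iff_row`: for an integer point, `(x,i) ∈ S ↔ ((x:ℝ),(i:ℝ)) ∈ hull S` (`subset_convexHull` and `cS`), then
`Int.ceil_le`, `Int.le_floor`.
`bdry_bot`: `(0,0), (L-1,0) ∈ S` give `lft S 0 ≤ 0` and `L - 1 ≤ rgt S 0`.  Conversely let `(x,0) ∈ hull S`.  For a natural
`P` with `P ≥ |p.1| + L` for all `p ∈ S`: `supp S (-1,-P) ≤ 0` (points with `p.2 = 0` have `p.1 ≥ 0`; with `p.2 ≥ 1`: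
`-p.1 - P p.2 ≤ 0`), so `-x ≤ 0` by `hull_le_supp`; and `supp S (1,-P) ≤ L - 1`, so `x ≤ L - 1`.
`bdry_top`: the same with `(-1,P)`, `(1,P)`.
-/

open scoped Pointwise

namespace Pool.Agent.Lib.MP_bb0bab_co

theorem mem_hull_of_mem {S : Finset (ℤ × ℤ)} {p : ℤ × ℤ} (hp : p ∈ S) :
    ((p.1 : ℝ), (p.2 : ℝ)) ∈ hull S :=
  subset_convexHull _ _ ⟨p, hp, rfl⟩

theorem hull_convex (S : Finset (ℤ × ℤ)) : Convex ℝ (hull S) := convex_convexHull _ _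

theorem hull_comb {S : Finset (ℤ × ℤ)} {x y x' y' a b : ℝ} (h : (x, y) ∈ hull S)
    (h' : (x', y') ∈ hull S) (ha : 0 ≤ a) (hb : 0 ≤ b) (hab : a + b = 1) :
    (a * x + b * x', a * y + b * y') ∈ hull S := by
  have := hull_convex S h h' ha hb hab
  simpa only [Prod.smul_mk, Prod.mk_add_mk, smul_eq_mul] using this

theorem hull_isCompact (S : Finset (ℤ × ℤ)) : IsCompact (hull S) :=
  Set.Finite.isCompact_convexHull (𝕜 := ℝ) ((S.finite_toSet).image _)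

theorem hull_height {S : Finset (ℤ × ℤ)} {h : ℕ} (hrows : ∀ p ∈ S, 0 ≤ p.2 ∧ p.2 ≤ h)
    {x y : ℝ} (hx : (x, y) ∈ hull S) : 0 ≤ y ∧ y ≤ h := by
  have hconv : Convex ℝ {z : ℝ × ℝ | 0 ≤ z.2 ∧ z.2 ≤ h} := by
    intro z hz w hw a b ha hb hab
    have h1 := hz.1
    have h2 := hz.2
    have h3 := hw.1
    have h4 := hw.2
    change 0 ≤ a * z.2 + b * w.2 ∧ a * z.2 + b * w.2 ≤ h
    constructor
    · positivity
    · have h5 : a * z.2 ≤ a * h := mul_le_mul_of_nonneg_left h2 ha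
      have h6 : b * w.2 ≤ b * h := mul_le_mul_of_nonneg_left h4 hb
      have h7 : a * (h : ℝ) + b * h = h := by rw [← add_mul, hab, one_mul]
      linarith
  have hsub : hull S ⊆ {z : ℝ × ℝ | 0 ≤ z.2 ∧ z.2 ≤ h} := by
    apply convexHull_min _ hconv
    rintro _ ⟨q, hq, rfl⟩
    have := hrows q hq
    constructor
    · change (0 : ℝ) ≤ (q.2 : ℝ)
      exact_mod_cast this.1
    · change (q.2 : ℝ) ≤ (h : ℝ)
      exact_mod_cast this.2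
  exact hsub hx

theorem section_nonempty {S : Finset (ℤ × ℤ)} {h : ℕ}
    (h0 : ∃ x : ℤ, (x, 0) ∈ S) (hh : ∃ x : ℤ, (x, (h : ℤ)) ∈ S) {y : ℝ} (hy0 : 0 ≤ y)
    (hyh : y ≤ h) : ({x : ℝ | (x, y) ∈ hull S}).Nonempty := by
  obtain ⟨x0, hx0⟩ := h0
  obtain ⟨x1, hx1⟩ := hh
  have e0 := mem_hull_of_mem hx0
  have e1 := mem_hull_of_mem hx1
  rcases Nat.eq_zero_or_pos h with rfl | hpos
  · refine ⟨x0, ?_⟩
    have hy : y = 0 := le_antisymm (by simpa using hyh) hy0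
    rw [hy]
    simpa using e0
  · have hpos' : (0 : ℝ) < h := by exact_mod_cast hpos
    refine ⟨(1 - y / h) * x0 + (y / h) * x1, ?_⟩
    have hb : 0 ≤ y / h := div_nonneg hy0 hpos'.le
    have ha : 0 ≤ 1 - y / h := by
      rw [sub_nonneg, div_le_one hpos']
      exact hyh
    have := hull_comb e0 e1 ha hb (by ring)
    change ((1 - y / h) * (x0 : ℝ) + (y / h) * x1, y) ∈ hull S
    convert this using 2
    push_cast
    field_simp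
    ring

theorem section_eq {S : Finset (ℤ × ℤ)} {h : ℕ}
    (h0 : ∃ x : ℤ, (x, 0) ∈ S) (hh : ∃ x : ℤ, (x, (h : ℤ)) ∈ S) {y : ℝ} (hy0 : 0 ≤ y)
    (hyh : y ≤ h) : {x : ℝ | (x, y) ∈ hull S} = Set.Icc (lft S y) (rgt S y) := by
  have hne := section_nonempty h0 hh hy0 hyh
  have hconv : Convex ℝ {x : ℝ | (x, y) ∈ hull S} := by
    intro x hx x' hx' a b ha hb hab
    have := hull_comb hx hx' ha hb hab
    change (a * x + b * x', y) ∈ hull S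
    have hy : a * y + b * y = y := by rw [← add_mul, hab, one_mul]
    rwa [hy] at this
  have hcont : Continuous (fun x : ℝ => ((x, y) : ℝ × ℝ)) := by fun_prop
  have hcpt : IsCompact {x : ℝ | (x, y) ∈ hull S} := by
    have hclosed : IsClosed {x : ℝ | (x, y) ∈ hull S} :=
      (hull_isCompact S).isClosed.preimage hcont
    have hsub : {x : ℝ | (x, y) ∈ hull S} ⊆ Prod.fst '' (hull S) := fun x hx => ⟨(x, y), hx, rfl⟩
    exact ((hull_isCompact S).image continuous_fst).of_isClosed_subset hclosed hsub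
  exact eq_Icc_of_connected_compact ⟨hne, hconv.isPreconnected⟩ hcpt

theorem mem_hull_iff {S : Finset (ℤ × ℤ)} {h : ℕ} (hrows : ∀ p ∈ S, 0 ≤ p.2 ∧ p.2 ≤ h)
    (h0 : ∃ x : ℤ, (x, 0) ∈ S) (hh : ∃ x : ℤ, (x, (h : ℤ)) ∈ S) {y : ℝ} (hy0 : 0 ≤ y)
    (hyh : y ≤ h) (x : ℝ) : (x, y) ∈ hull S ↔ lft S y ≤ x ∧ x ≤ rgt S y := by
  have h1 := section_eq h0 hh hy0 hyh
  have h2 : x ∈ {x : ℝ | (x, y) ∈ hull S} ↔ x ∈ Set.Icc (lft S y) (rgt S y) := by rw [h1]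
  exact h2

theorem lft_le_rgt {S : Finset (ℤ × ℤ)} {h : ℕ} (hrows : ∀ p ∈ S, 0 ≤ p.2 ∧ p.2 ≤ h)
    (h0 : ∃ x : ℤ, (x, 0) ∈ S) (hh : ∃ x : ℤ, (x, (h : ℤ)) ∈ S) {y : ℝ} (hy0 : 0 ≤ y)
    (hyh : y ≤ h) : lft S y ≤ rgt S y := by
  obtain ⟨x, hx⟩ := section_nonempty h0 hh hy0 hyh
  have h1 := (mem_hull_iff hrows h0 hh hy0 hyh x).mp hx
  exact h1.1.trans h1.2

theorem lft_mem {S : Finset (ℤ × ℤ)} {h : ℕ} (hrows : ∀ p ∈ S, 0 ≤ p.2 ∧ p.2 ≤ h)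
    (h0 : ∃ x : ℤ, (x, 0) ∈ S) (hh : ∃ x : ℤ, (x, (h : ℤ)) ∈ S) {y : ℝ} (hy0 : 0 ≤ y)
    (hyh : y ≤ h) : (lft S y, y) ∈ hull S :=
  (mem_hull_iff hrows h0 hh hy0 hyh _).mpr ⟨le_rfl, lft_le_rgt hrows h0 hh hy0 hyh⟩

theorem rgt_mem {S : Finset (ℤ × ℤ)} {h : ℕ} (hrows : ∀ p ∈ S, 0 ≤ p.2 ∧ p.2 ≤ h)
    (h0 : ∃ x : ℤ, (x, 0) ∈ S) (hh : ∃ x : ℤ, (x, (h : ℤ)) ∈ S) {y : ℝ} (hy0 : 0 ≤ y)
    (hyh : y ≤ h) : (rgt S y, y) ∈ hull S :=
  (mem_hull_iff hrows h0 hh hy0 hyh _).mpr ⟨lft_le_rgt hrows h0 hh hy0 hyh, le_rfl⟩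

theorem lft_convexOn {S : Finset (ℤ × ℤ)} {h : ℕ} (hrows : ∀ p ∈ S, 0 ≤ p.2 ∧ p.2 ≤ h)
    (h0 : ∃ x : ℤ, (x, 0) ∈ S) (hh : ∃ x : ℤ, (x, (h : ℤ)) ∈ S) :
    ConvexOn ℝ (Set.Icc 0 (h : ℝ)) (lft S) := by
  refine ⟨convex_Icc _ _, ?_⟩
  intro y hy y' hy' a b ha hb hab
  have h1 := hull_comb (lft_mem hrows h0 hh hy.1 hy.2) (lft_mem hrows h0 hh hy'.1 hy'.2) ha hb hab
  have h2 := convex_Icc (0 : ℝ) (h : ℝ) hy hy' ha hb hab
  exact ((mem_hull_iff hrows h0 hh h2.1 h2.2 _).mp h1).1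

theorem rgt_concaveOn {S : Finset (ℤ × ℤ)} {h : ℕ} (hrows : ∀ p ∈ S, 0 ≤ p.2 ∧ p.2 ≤ h)
    (h0 : ∃ x : ℤ, (x, 0) ∈ S) (hh : ∃ x : ℤ, (x, (h : ℤ)) ∈ S) :
    ConcaveOn ℝ (Set.Icc 0 (h : ℝ)) (rgt S) := by
  refine ⟨convex_Icc _ _, ?_⟩
  intro y hy y' hy' a b ha hb hab
  have h1 := hull_comb (rgt_mem hrows h0 hh hy.1 hy.2) (rgt_mem hrows h0 hh hy'.1 hy'.2) ha hb hab
  have h2 := convex_Icc (0 : ℝ) (h : ℝ) hy hy' ha hb hab
  exact ((mem_hull_iff hrows h0 hh h2.1 h2.2 _).mp h1).2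

theorem mem_iff_row {S : Finset (ℤ × ℤ)} (cS : LConv S) {h : ℕ}
    (hrows : ∀ p ∈ S, 0 ≤ p.2 ∧ p.2 ≤ h)
    (h0 : ∃ x : ℤ, (x, 0) ∈ S) (hh : ∃ x : ℤ, (x, (h : ℤ)) ∈ S) (i : ℕ) (hi : i ≤ h) (x : ℤ) :
    (x, (i : ℤ)) ∈ S ↔ ⌈lft S (i : ℝ)⌉ ≤ x ∧ x ≤ ⌊rgt S (i : ℝ)⌋ := by
  have hi' : ((i : ℕ) : ℝ) ≤ h := by exact_mod_cast hi
  rw [Int.ceil_le, Int.le_floor, ← mem_hull_iff hrows h0 hh (Nat.cast_nonneg i) hi' (x : ℝ)]
  constructor
  · intro hx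
    have := mem_hull_of_mem hx
    simpa using this
  · intro hx
    apply cS (x, (i : ℤ))
    simpa [hull] using hx

theorem exists_big (S : Finset (ℤ × ℤ)) (c : ℤ) (hc : 0 ≤ c) :
    ∃ P : ℤ, 0 ≤ P ∧ ∀ p ∈ S, |p.1| + c ≤ P := by
  refine ⟨∑ p ∈ S, |p.1| + c, ?_, ?_⟩
  · have : 0 ≤ ∑ p ∈ S, |p.1| := Finset.sum_nonneg (fun p _ => abs_nonneg _)
    linarith
  · intro p hp
    have := Finset.single_le_sum (f := fun p : ℤ × ℤ => |p.1|) (fun q _ => abs_nonneg _) hp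
    linarith

theorem bdry_bot {S : Finset (ℤ × ℤ)} {L h : ℕ} (hL : 1 ≤ L)
    (hrows : ∀ p ∈ S, 0 ≤ p.2 ∧ p.2 ≤ h) (hbot : ∀ x : ℤ, (x, 0) ∈ S ↔ 0 ≤ x ∧ x < L)
    (hh : ∃ x : ℤ, (x, (h : ℤ)) ∈ S) : lft S 0 = 0 ∧ rgt S 0 = L - 1 := by
  have hL' : (1 : ℤ) ≤ L := by exact_mod_cast hL
  have m0 : ((0 : ℤ), (0 : ℤ)) ∈ S := (hbot 0).mpr ⟨le_rfl, by omega⟩
  have m1 : ((L : ℤ) - 1, (0 : ℤ)) ∈ S := (hbot _).mpr ⟨by omega, by omega⟩
  have h0 : ∃ x : ℤ, (x, 0) ∈ S := ⟨0, m0⟩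
  have hSne : S.Nonempty := ⟨_, m0⟩
  have hh0 : (0 : ℝ) ≤ h := Nat.cast_nonneg h
  obtain ⟨P, hP0, hP⟩ := exists_big S L (by omega)
  have e0 := (mem_hull_iff hrows h0 hh le_rfl hh0 _).mp (by
    have := mem_hull_of_mem m0
    simpa using this : ((0 : ℝ), (0 : ℝ)) ∈ hull S)
  have e1 := (mem_hull_iff hrows h0 hh le_rfl hh0 _).mp (by
    have := mem_hull_of_mem m1
    simpa using this : (((L : ℝ) - 1), (0 : ℝ)) ∈ hull S)
  have s1 : supp S (-1, -P) ≤ 0 := by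
    obtain ⟨p, hp, hpe⟩ := exists_supp hSne (-1, -P)
    rw [← hpe]
    have h1 := hrows p hp
    have h2 := hP p hp
    have h3 := neg_abs_le p.1
    unfold ev
    rcases eq_or_lt_of_le h1.1 with h4 | h4
    · have h5 : (p.1, (0 : ℤ)) ∈ S := by rw [h4]; exact hp
      have h6 := ((hbot _).mp h5).1
      simp only
      rw [← h4]
      linarith
    · simp only
      nlinarith
  have s2 : supp S (1, -P) ≤ L - 1 := by
    obtain ⟨p, hp, hpe⟩ := exists_supp hSne (1, -P)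
    rw [← hpe]
    have h1 := hrows p hp
    have h2 := hP p hp
    have h3 := le_abs_self p.1
    unfold ev
    rcases eq_or_lt_of_le h1.1 with h4 | h4
    · have h5 : (p.1, (0 : ℤ)) ∈ S := by rw [h4]; exact hp
      have h6 := ((hbot _).mp h5).2
      simp only
      rw [← h4]
      linarith
    · simp only
      nlinarith
  have s1' : ((supp S (-1, -P) : ℤ) : ℝ) ≤ 0 := by exact_mod_cast s1
  have s2' : ((supp S (1, -P) : ℤ) : ℝ) ≤ L - 1 := by exact_mod_cast s2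
  have t1 := hull_le_supp (lft_mem hrows h0 hh le_rfl hh0) (-1, -P)
  have t2 := hull_le_supp (rgt_mem hrows h0 hh le_rfl hh0) (1, -P)
  push_cast at t1 t2
  constructor
  · apply le_antisymm e0.1
    linarith
  · apply le_antisymm _ e1.2
    linarith

theorem bdry_top {S : Finset (ℤ × ℤ)} {M h : ℕ} {xh : ℤ} (hM : 1 ≤ M)
    (hrows : ∀ p ∈ S, 0 ≤ p.2 ∧ p.2 ≤ h) (h0 : ∃ x : ℤ, (x, 0) ∈ S)
    (htop : ∀ x : ℤ, (x, (h : ℤ)) ∈ S ↔ xh ≤ x ∧ x < xh + M) :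
    lft S h = xh ∧ rgt S h = xh + M - 1 := by
  have hM' : (1 : ℤ) ≤ M := by exact_mod_cast hM
  have m0 : (xh, (h : ℤ)) ∈ S := (htop _).mpr ⟨le_rfl, by omega⟩
  have m1 : (xh + M - 1, (h : ℤ)) ∈ S := (htop _).mpr ⟨by omega, by omega⟩
  have hh : ∃ x : ℤ, (x, (h : ℤ)) ∈ S := ⟨_, m0⟩
  have hSne : S.Nonempty := ⟨_, m0⟩
  have hh0 : (0 : ℝ) ≤ h := Nat.cast_nonneg h
  obtain ⟨P, hP0, hP⟩ := exists_big S (|xh| + M) (by positivity)
  have e0 := (mem_hull_iff hrows h0 hh hh0 le_rfl _).mp (by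
    have := mem_hull_of_mem m0
    simpa using this : ((xh : ℝ), (h : ℝ)) ∈ hull S)
  have e1 := (mem_hull_iff hrows h0 hh hh0 le_rfl _).mp (by
    have := mem_hull_of_mem m1
    simpa using this : (((xh : ℝ) + M - 1), (h : ℝ)) ∈ hull S)
  have s1 : supp S (-1, P) ≤ -xh + P * h := by
    obtain ⟨p, hp, hpe⟩ := exists_supp hSne (-1, P)
    rw [← hpe]
    have h1 := hrows p hp
    have h2 := hP p hp
    have h3 := neg_abs_le p.1
    have h7 := le_abs_self xh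
    unfold ev
    rcases eq_or_lt_of_le h1.2 with h4 | h4
    · have h5 : (p.1, (h : ℤ)) ∈ S := by rw [← h4]; exact hp
      have h6 := ((htop _).mp h5).1
      simp only
      rw [h4]
      linarith
    · simp only
      have h8 : p.2 ≤ h - 1 := by omega
      have h9 : P * p.2 ≤ P * (h - 1) := mul_le_mul_of_nonneg_left h8 hP0
      linarith
  have s2 : supp S (1, P) ≤ xh + M - 1 + P * h := by
    obtain ⟨p, hp, hpe⟩ := exists_supp hSne (1, P)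
    rw [← hpe]
    have h1 := hrows p hp
    have h2 := hP p hp
    have h3 := le_abs_self p.1
    have h7 := neg_abs_le xh
    unfold ev
    rcases eq_or_lt_of_le h1.2 with h4 | h4
    · have h5 : (p.1, (h : ℤ)) ∈ S := by rw [← h4]; exact hp
      have h6 := ((htop _).mp h5).2
      simp only
      rw [h4]
      linarith
    · simp only
      have h8 : p.2 ≤ h - 1 := by omega
      have h9 : P * p.2 ≤ P * (h - 1) := mul_le_mul_of_nonneg_left h8 hP0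
      linarith
  have s1' : ((supp S (-1, P) : ℤ) : ℝ) ≤ -xh + P * h := by exact_mod_cast s1
  have s2' : ((supp S (1, P) : ℤ) : ℝ) ≤ xh + M - 1 + P * h := by exact_mod_cast s2
  have t1 := hull_le_supp (lft_mem hrows h0 hh hh0 le_rfl) (-1, P)
  have t2 := hull_le_supp (rgt_mem hrows h0 hh hh0 le_rfl) (1, P)
  push_cast at t1 t2
  constructor
  · apply le_antisymm e0.1
    linarith
  · apply le_antisymm _ e1.2
    linarith

end Pool.Agent.Lib.MP_bb0bab_co
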