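import Pool.Agent.Lib.MP_bb0bab_co.FE10a
import Pool.Agent.Lib.MP_bb0bab_co.FE14a
import Pool.Agent.Lib.MP_bb0bab_co.FE14b
import Pool.Agent.Lib.MP_bb0bab_co.FE15

/-!
# FE16 strip pairs and their symmetries

PROOFS. `NormPair.strip`: `supp_eq_pos`, `supp_eq_neg`.  `StripPair.symm`: trivial.
`StripPair.flipped`: `flip L = (lin (-1) 1 0 1) then translation by (L-1, 0)`, so `lconv_lin`, `lconv_translate` (or directly), it is
an involution (`flip_flip`), heights are unchanged; bottom: `(x,0) ↦ (L-1-x,0)`; top: `(x,h) ↦ (h - x + L - 1, h)`, `x ∈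
[xh, xh+M-1]` iff the image abscissa is in `[h+L-M-xh, h+L-M-xh + M - 1]`.  Support: `ev (q,p) (flip L z) =
ev (-q, q+p) z + q (L-1)`, so `supp (S.image (flip L)) (q,p) = supp S (-q, q+p) + q (L-1)` (`supp_flip`); `(q,p)` with `q, p ≥ 0`
goes to `(-q, p')` with `p' = q + p ≥ q` (`eqn`), `(-q,-p)` to `(q,-p')`; `(q,-p)` with `0 ≤ q ≤ p` goes to
`(-q, -(p-q))` and `(-q,p)` to `(q, p-q)` (`eqp`).
`StripPair.turned`: `turn` is `p ↦ -p + (xh+M-1, h)`: bottom row of the image: `(x,h) ↦ (xh+M-1-x, 0)`, `[0,M-1]`; top row: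
`(x,0) ↦ (xh+M-1-x, h)`, `[xh+M-L, xh+M-1]`, i.e. new `xh' = xh + M - L` and length `L`.  Support:
`supp (S.image turn) g = supp S (-g) + ev g (xh+M-1,h)`; `eqp`, `eqn` are invariant under `g ↦ -g`.
Boundary functions (for `0 ≤ y ≤ h`): `(x,y) ∈ hull (S.image (flip L)) ↔ (y + (L-1) - x, y) ∈ hull S` (the affine map
commutes with `convexHull`: `AffineMap.image_convexHull`, or two inclusions by `convexHull_min` because `flip` is an
involution), so the section of the image is the reflected section: `lft (flip S) y = y + (L-1) - rgt S y`, `rgt (flip S) y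
= y + (L-1) - lft S y` (use `mem_hull_iff` for both sets, or `csInf`/`csSup` of the image of an interval).  In the same way
`(x,y) ∈ hull (turn S) ↔ (xh+M-1-x, h-y) ∈ hull S`.
`common_point`: `(i xh / h, i)` is the convex combination of `(0,0)` and `(xh,h)`, both in `H` and in `K`.
-/

open scoped Pointwise

namespace Pool.Agent.Lib.MP_bb0bab_co

variable {H K : Finset (ℤ × ℤ)} {L M h : ℕ} {xh : ℤ}

theorem NormPair.strip (P : NormPair H K L M h xh) : StripPair H K L M h xh where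
  convH := P.convH
  convK := P.convK
  hL := by have := P.hM; have := P.hLM; omega
  hM := P.hM
  hh := P.hh
  rowsH := P.rowsH
  rowsK := P.rowsK
  botH := P.botH
  botK := P.botK
  topH := P.topH
  topK := P.topK
  eqp := fun q p hq hp => ⟨(P.supp_eq_pos q p hq hp).1, (P.supp_eq_pos q p hq hp).2.1⟩
  eqn := fun q p hq hp => ⟨(P.supp_eq_neg q p hq hp).1, (P.supp_eq_neg q p hq hp).2.1⟩

theorem StripPair.symm (P : StripPair H K L M h xh) : StripPair K H L M h xh where
  convH := P.convK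
  convK := P.convH
  hL := P.hL
  hM := P.hM
  hh := P.hh
  rowsH := P.rowsK
  rowsK := P.rowsH
  botH := P.botK
  botK := P.botH
  topH := P.topK
  topK := P.topH
  eqp := fun q p hq hp => ⟨(P.eqp q p hq hp).1.symm, (P.eqp q p hq hp).2.symm⟩
  eqn := fun q p hq hp => ⟨(P.eqn q p hq hp).1.symm, (P.eqn q p hq hp).2.symm⟩

theorem flip_flip (L : ℕ) (p : ℤ × ℤ) : flip L (flip L p) = p := by
  unfold flip
  ext
  · simp only
    ring
  · rfl

theorem turn_turn (M h : ℕ) (xh : ℤ) (p : ℤ × ℤ) : turn M h xh (turn M h xh p) = p := by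
  unfold turn
  ext
  · simp only
    ring
  · simp only
    ring

theorem mem_image_inv {f : ℤ × ℤ → ℤ × ℤ} (hf : ∀ p, f (f p) = p) {S : Finset (ℤ × ℤ)}
    {p : ℤ × ℤ} : p ∈ S.image f ↔ f p ∈ S := by
  rw [Finset.mem_image]
  constructor
  · rintro ⟨q, hq, rfl⟩
    rwa [hf]
  · intro h
    exact ⟨f p, h, hf p⟩

theorem image_image_inv {f : ℤ × ℤ → ℤ × ℤ} (hf : ∀ p, f (f p) = p) (S : Finset (ℤ × ℤ)) :
    (S.image f).image f = S := by
  ext p
  rw [mem_image_inv hf, mem_image_inv hf, hf]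

theorem image_flip (L : ℕ) (S : Finset (ℤ × ℤ)) : S.image (flip L) =
    (S.image (lin (-1) 1 0 1)).image (fun p => p + ((L : ℤ) - 1, 0)) := by
  rw [Finset.image_image]
  congr 1
  funext p
  unfold flip lin
  ext
  · simp only [Function.comp_apply, Prod.fst_add]
    ring
  · simp only [Function.comp_apply, Prod.snd_add]
    ring

theorem image_turn (M h : ℕ) (xh : ℤ) (S : Finset (ℤ × ℤ)) : S.image (turn M h xh) =
    (S.image (lin (-1) 0 0 (-1))).image (fun p => p + (xh + M - 1, (h : ℤ))) := by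
  rw [Finset.image_image]
  congr 1
  funext p
  unfold turn lin
  ext
  · simp only [Function.comp_apply, Prod.fst_add]
    ring
  · simp only [Function.comp_apply, Prod.snd_add]
    ring

theorem lconv_flip {S : Finset (ℤ × ℤ)} (cS : LConv S) (L : ℕ) : LConv (S.image (flip L)) := by
  rw [image_flip]
  exact lconv_translate (lconv_lin cS _ _ _ _ (Or.inr (by norm_num))) _

theorem lconv_turn {S : Finset (ℤ × ℤ)} (cS : LConv S) (M h : ℕ) (xh : ℤ) :
    LConv (S.image (turn M h xh)) := by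
  rw [image_turn]
  exact lconv_translate (lconv_lin cS _ _ _ _ (Or.inl (by norm_num))) _

theorem supp_flip {S : Finset (ℤ × ℤ)} (hS : S.Nonempty) (L : ℕ) (q p : ℤ) :
    supp (S.image (flip L)) (q, p) = supp S (-q, q + p) + q * ((L : ℤ) - 1) := by
  rw [image_flip, supp_translate (hS.image _), supp_lin hS]
  congr 2
  · ext
    · simp only
      ring
    · simp only
      ring
  · unfold ev
    simp only
    ring

theorem supp_turn {S : Finset (ℤ × ℤ)} (hS : S.Nonempty) (M h : ℕ) (xh : ℤ) (q p : ℤ) :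
    supp (S.image (turn M h xh)) (q, p) = supp S (-q, -p) + (q * (xh + M - 1) + p * h) := by
  rw [image_turn, supp_translate (hS.image _), supp_lin hS]
  congr 2
  ext
  · simp only
    ring
  · simp only
    ring

theorem StripPair.neH (P : StripPair H K L M h xh) : H.Nonempty :=
  ⟨(0, 0), (P.botH 0).mpr ⟨le_rfl, by have := P.hL; omega⟩⟩

theorem StripPair.neK (P : StripPair H K L M h xh) : K.Nonempty :=
  ⟨(0, 0), (P.botK 0).mpr ⟨le_rfl, by have := P.hL; omega⟩⟩

theorem StripPair.flipped (P : StripPair H K L M h xh) :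
    StripPair (H.image (flip L)) (K.image (flip L)) L M h (h + L - M - xh) where
  convH := lconv_flip P.convH L
  convK := lconv_flip P.convK L
  hL := P.hL
  hM := P.hM
  hh := P.hh
  rowsH := by
    intro p hp
    rw [mem_image_inv (flip_flip L)] at hp
    have h1 := P.rowsH _ hp
    exact h1
  rowsK := by
    intro p hp
    rw [mem_image_inv (flip_flip L)] at hp
    have h1 := P.rowsK _ hp
    exact h1
  botH := by
    intro x
    rw [mem_image_inv (flip_flip L)]
    change ((0 : ℤ) - x + ((L : ℤ) - 1), (0 : ℤ)) ∈ H ↔ _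
    rw [P.botH]
    omega
  botK := by
    intro x
    rw [mem_image_inv (flip_flip L)]
    change ((0 : ℤ) - x + ((L : ℤ) - 1), (0 : ℤ)) ∈ K ↔ _
    rw [P.botK]
    omega
  topH := by
    intro x
    rw [mem_image_inv (flip_flip L)]
    change ((h : ℤ) - x + ((L : ℤ) - 1), (h : ℤ)) ∈ H ↔ _
    rw [P.topH]
    omega
  topK := by
    intro x
    rw [mem_image_inv (flip_flip L)]
    change ((h : ℤ) - x + ((L : ℤ) - 1), (h : ℤ)) ∈ K ↔ _
    rw [P.topK]
    omega
  eqp := by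
    intro q p hq hp
    have h1 := P.eqn q (q + p) hq (by omega)
    rw [supp_flip P.neH, supp_flip P.neK, supp_flip P.neH, supp_flip P.neK, h1.2]
    have e : (-(-q), -q + -p) = (q, -(q + p)) := by
      ext
      · simp
      · simp only
        ring
    rw [e, h1.1]
    exact ⟨rfl, rfl⟩
  eqn := by
    intro q p hq hp
    have h1 := P.eqp q (p - q) hq (by omega)
    rw [supp_flip P.neH, supp_flip P.neK, supp_flip P.neH, supp_flip P.neK]
    have e1 : (-q, q + -p) = (-q, -(p - q)) := by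
      ext
      · rfl
      · simp only
        ring
    have e2 : (-(-q), -q + p) = (q, p - q) := by
      ext
      · simp
      · simp only
        ring
    rw [e1, e2, h1.1, h1.2]
    exact ⟨rfl, rfl⟩

theorem StripPair.turned (P : StripPair H K L M h xh) :
    StripPair (H.image (turn M h xh)) (K.image (turn M h xh)) M L h (xh + M - L) where
  convH := lconv_turn P.convH M h xh
  convK := lconv_turn P.convK M h xh
  hL := P.hM
  hM := P.hL
  hh := P.hh
  rowsH := by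
    intro p hp
    rw [mem_image_inv (turn_turn M h xh)] at hp
    have h1 := P.rowsH _ hp
    change 0 ≤ (h : ℤ) - p.2 ∧ (h : ℤ) - p.2 ≤ h at h1
    omega
  rowsK := by
    intro p hp
    rw [mem_image_inv (turn_turn M h xh)] at hp
    have h1 := P.rowsK _ hp
    change 0 ≤ (h : ℤ) - p.2 ∧ (h : ℤ) - p.2 ≤ h at h1
    omega
  botH := by
    intro x
    rw [mem_image_inv (turn_turn M h xh)]
    change (xh + M - 1 - x, (h : ℤ) - 0) ∈ H ↔ _
    rw [sub_zero, P.topH]
    omega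
  botK := by
    intro x
    rw [mem_image_inv (turn_turn M h xh)]
    change (xh + M - 1 - x, (h : ℤ) - 0) ∈ K ↔ _
    rw [sub_zero, P.topK]
    omega
  topH := by
    intro x
    rw [mem_image_inv (turn_turn M h xh)]
    change (xh + M - 1 - x, (h : ℤ) - h) ∈ H ↔ _
    rw [sub_self, P.botH]
    omega
  topK := by
    intro x
    rw [mem_image_inv (turn_turn M h xh)]
    change (xh + M - 1 - x, (h : ℤ) - h) ∈ K ↔ _
    rw [sub_self, P.botK]
    omega
  eqp := by
    intro q p hq hp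
    have h1 := P.eqp q p hq hp
    rw [supp_turn P.neH, supp_turn P.neK, supp_turn P.neH, supp_turn P.neK, h1.2, neg_neg,
      neg_neg, h1.1]
    exact ⟨rfl, rfl⟩
  eqn := by
    intro q p hq hp
    have h1 := P.eqn q p hq hp
    rw [supp_turn P.neH, supp_turn P.neK, supp_turn P.neH, supp_turn P.neK, neg_neg,
      neg_neg, h1.1, h1.2]
    exact ⟨rfl, rfl⟩

/-- one inclusion for an affine involution given in coordinates -/
theorem hull_image_sub {S : Finset (ℤ × ℤ)} {f : ℤ × ℤ → ℤ × ℤ} {φ : ℝ × ℝ → ℝ × ℝ}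
    (hfφ : ∀ p : ℤ × ℤ, (((f p).1 : ℝ), ((f p).2 : ℝ)) = φ ((p.1 : ℝ), (p.2 : ℝ)))
    (hφ : ∀ (z w : ℝ × ℝ) (a b : ℝ), a + b = 1 →
      φ (a * z.1 + b * w.1, a * z.2 + b * w.2) =
        (a * (φ z).1 + b * (φ w).1, a * (φ z).2 + b * (φ w).2))
    {z : ℝ × ℝ} (hz : z ∈ hull S) : φ z ∈ hull (S.image f) := by
  have hconv : Convex ℝ {z : ℝ × ℝ | φ z ∈ hull (S.image f)} := by
    intro z hz w hw a b ha hb hab
    change φ (a * z.1 + b * w.1, a * z.2 + b * w.2) ∈ hull (S.image f)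
    rw [hφ z w a b hab]
    exact hull_comb hz hw ha hb hab
  have hsub : hull S ⊆ {z : ℝ × ℝ | φ z ∈ hull (S.image f)} := by
    apply convexHull_min _ hconv
    rintro _ ⟨q, hq, rfl⟩
    change φ ((q.1 : ℝ), (q.2 : ℝ)) ∈ hull (S.image f)
    rw [← hfφ]
    exact mem_hull_of_mem (Finset.mem_image_of_mem f hq)
  exact hsub hz

theorem hull_flip {S : Finset (ℤ × ℤ)} (L : ℕ) (x y : ℝ) :
    (x, y) ∈ hull (S.image (flip L)) ↔ (y + (L - 1) - x, y) ∈ hull S := by
  have key : ∀ (S : Finset (ℤ × ℤ)) (z : ℝ × ℝ), z ∈ hull S →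
      (z.2 - z.1 + (L - 1), z.2) ∈ hull (S.image (flip L)) := by
    intro S z hz
    refine hull_image_sub (f := flip L) (φ := fun z : ℝ × ℝ => (z.2 - z.1 + (L - 1), z.2))
      ?_ ?_ hz
    · intro p
      unfold flip
      push_cast
      rfl
    · intro z w a b hab
      ext
      · simp only
        have hb : b = 1 - a := by linarith
        rw [hb]
        ring
      · rfl
  constructor
  · intro h
    have h1 := key _ _ h
    rw [image_image_inv (flip_flip L)] at h1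
    have e : (((x, y) : ℝ × ℝ).2 - ((x, y) : ℝ × ℝ).1 + ((L : ℝ) - 1), ((x, y) : ℝ × ℝ).2) =
        (y + ((L : ℝ) - 1) - x, y) := by
      ext
      · simp only
        ring
      · rfl
    rwa [e] at h1
  · intro h
    have h1 := key _ _ h
    have e : (((y + ((L : ℝ) - 1) - x, y) : ℝ × ℝ).2 - ((y + ((L : ℝ) - 1) - x, y) : ℝ × ℝ).1 +
        ((L : ℝ) - 1), ((y + ((L : ℝ) - 1) - x, y) : ℝ × ℝ).2) = (x, y) := by
      ext
      · simp only
        ring
      · rfl
    rwa [e] at h1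

theorem hull_turn {S : Finset (ℤ × ℤ)} (M h : ℕ) (xh : ℤ) (x y : ℝ) :
    (x, y) ∈ hull (S.image (turn M h xh)) ↔ (xh + M - 1 - x, h - y) ∈ hull S := by
  have key : ∀ (S : Finset (ℤ × ℤ)) (z : ℝ × ℝ), z ∈ hull S →
      ((xh : ℝ) + M - 1 - z.1, (h : ℝ) - z.2) ∈ hull (S.image (turn M h xh)) := by
    intro S z hz
    refine hull_image_sub (f := turn M h xh)
      (φ := fun z : ℝ × ℝ => ((xh : ℝ) + M - 1 - z.1, (h : ℝ) - z.2)) ?_ ?_ hz
    · intro p
      unfold turn
      push_cast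
      rfl
    · intro z w a b hab
      have hb : b = 1 - a := by linarith
      ext
      · simp only
        rw [hb]
        ring
      · simp only
        rw [hb]
        ring
  constructor
  · intro h1
    have h2 := key _ _ h1
    rwa [image_image_inv (turn_turn M h xh)] at h2
  · intro h1
    have h2 := key _ _ h1
    have e : ((xh : ℝ) + M - 1 - (((xh : ℝ) + M - 1 - x, (h : ℝ) - y) : ℝ × ℝ).1,
        (h : ℝ) - (((xh : ℝ) + M - 1 - x, (h : ℝ) - y) : ℝ × ℝ).2) = (x, y) := by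
      ext
      · simp only
        ring
      · simp only
        ring
    rwa [e] at h2

theorem lft_flip {S : Finset (ℤ × ℤ)} {h : ℕ} (L : ℕ) (hrows : ∀ p ∈ S, 0 ≤ p.2 ∧ p.2 ≤ h)
    (h0 : ∃ x : ℤ, (x, 0) ∈ S) (hh : ∃ x : ℤ, (x, (h : ℤ)) ∈ S) {y : ℝ} (hy0 : 0 ≤ y)
    (hyh : y ≤ h) : lft (S.image (flip L)) y = y + (L - 1) - rgt S y ∧
      rgt (S.image (flip L)) y = y + (L - 1) - lft S y := by
  have hset : {x : ℝ | (x, y) ∈ hull (S.image (flip L))} =
      Set.Icc (y + (L - 1) - rgt S y) (y + (L - 1) - lft S y) := by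
    ext x
    change (x, y) ∈ hull (S.image (flip L)) ↔ _
    rw [hull_flip, mem_hull_iff hrows h0 hh hy0 hyh, Set.mem_Icc]
    constructor
    · rintro ⟨h1, h2⟩
      exact ⟨by linarith, by linarith⟩
    · rintro ⟨h1, h2⟩
      exact ⟨by linarith, by linarith⟩
  have hle : y + ((L : ℝ) - 1) - rgt S y ≤ y + (L - 1) - lft S y := by
    have := lft_le_rgt hrows h0 hh hy0 hyh
    linarith
  unfold lft rgt at hset hle ⊢
  rw [hset]
  exact ⟨csInf_Icc hle, csSup_Icc hle⟩

theorem lft_turn {S : Finset (ℤ × ℤ)} {h : ℕ} (M : ℕ) (xh : ℤ)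
    (hrows : ∀ p ∈ S, 0 ≤ p.2 ∧ p.2 ≤ h)
    (h0 : ∃ x : ℤ, (x, 0) ∈ S) (hh : ∃ x : ℤ, (x, (h : ℤ)) ∈ S) {y : ℝ} (hy0 : 0 ≤ y)
    (hyh : y ≤ h) : lft (S.image (turn M h xh)) y = xh + M - 1 - rgt S (h - y) ∧
      rgt (S.image (turn M h xh)) y = xh + M - 1 - lft S (h - y) := by
  have hy0' : (0 : ℝ) ≤ h - y := by linarith
  have hyh' : (h : ℝ) - y ≤ h := by linarith
  have hset : {x : ℝ | (x, y) ∈ hull (S.image (turn M h xh))} =
      Set.Icc (xh + M - 1 - rgt S (h - y)) (xh + M - 1 - lft S (h - y)) := by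
    ext x
    change (x, y) ∈ hull (S.image (turn M h xh)) ↔ _
    rw [hull_turn, mem_hull_iff hrows h0 hh hy0' hyh', Set.mem_Icc]
    constructor
    · rintro ⟨h1, h2⟩
      exact ⟨by linarith, by linarith⟩
    · rintro ⟨h1, h2⟩
      exact ⟨by linarith, by linarith⟩
  have hle : (xh : ℝ) + M - 1 - rgt S (h - y) ≤ xh + M - 1 - lft S (h - y) := by
    have := lft_le_rgt hrows h0 hh hy0' hyh'
    linarith
  unfold lft rgt at hset hle ⊢
  rw [hset]
  exact ⟨csInf_Icc hle, csSup_Icc hle⟩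

theorem common_aux {S : Finset (ℤ × ℤ)} {L M h : ℕ} {xh : ℤ} (hL : 1 ≤ L) (hM : 1 ≤ M)
    (hpos : 1 ≤ h) (hrows : ∀ p ∈ S, 0 ≤ p.2 ∧ p.2 ≤ h)
    (hbot : ∀ x : ℤ, (x, 0) ∈ S ↔ 0 ≤ x ∧ x < L)
    (htop : ∀ x : ℤ, (x, (h : ℤ)) ∈ S ↔ xh ≤ x ∧ x < xh + M) {y : ℝ} (hy0 : 0 ≤ y)
    (hyh : y ≤ h) : lft S y ≤ y * xh / h ∧ y * xh / h ≤ rgt S y := by
  have m0 : ((0 : ℤ), (0 : ℤ)) ∈ S := (hbot 0).mpr ⟨le_rfl, by omega⟩
  have m1 : (xh, (h : ℤ)) ∈ S := (htop _).mpr ⟨le_rfl, by omega⟩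
  rw [← mem_hull_iff hrows ⟨_, m0⟩ ⟨_, m1⟩ hy0 hyh]
  have hpos' : (0 : ℝ) < h := by exact_mod_cast hpos
  have hb : 0 ≤ y / h := div_nonneg hy0 hpos'.le
  have ha : 0 ≤ 1 - y / h := by
    rw [sub_nonneg, div_le_one hpos']
    exact hyh
  have h1 := hull_comb (mem_hull_of_mem m0) (mem_hull_of_mem m1) ha hb (by ring)
  have e : ((1 - y / h) * ((((0 : ℤ), (0 : ℤ)) : ℤ × ℤ).1 : ℝ) + y / h * ((xh : ℤ) : ℝ),
      (1 - y / h) * ((((0 : ℤ), (0 : ℤ)) : ℤ × ℤ).2 : ℝ) + y / h * (((h : ℕ) : ℤ) : ℝ)) =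
      (y * xh / h, y) := by
    ext
    · simp only
      push_cast
      ring
    · simp only
      push_cast
      field_simp
      ring
  rwa [e] at h1

theorem StripPair.common_point (P : StripPair H K L M h xh) {y : ℝ} (hy0 : 0 ≤ y)
    (hyh : y ≤ h) : lft H y ≤ y * xh / h ∧ y * xh / h ≤ rgt H y ∧
      lft K y ≤ y * xh / h ∧ y * xh / h ≤ rgt K y := by
  have h1 := common_aux P.hL P.hM P.hh P.rowsH P.botH P.topH hy0 hyh
  have h2 := common_aux P.hL P.hM P.hh P.rowsK P.botK P.topK hy0 hyh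
  exact ⟨h1.1, h1.2, h2.1, h2.2⟩

end Pool.Agent.Lib.MP_bb0bab_co
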