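import Pool.Agent.Lib.MP_bb0bab_co.FE02
import Pool.Agent.Lib.MP_bb0bab_co.FE16

/-!
# FE17 letters lemma

PROOFS. `strip_line`.  `(x,y₀) ∉ hull K` since `x < lft K y₀` (`mem_hull_iff`).  `hull_sep` gives `g` with
`supp K g < g.1 x + g.2 y₀ ≤ supp H g` (`hull_le_supp`), so `supp H g ≠ supp K g`.  By `eqp`, `eqn` (for `±g`) `g` is not in
the four closed cones, so `g = (q,-p)` or `g = (-q,p)` with integers `0 < p < q` (case distinction on the signs of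
`g.1`, `g.2`).  First case: `(lft K y₀, y₀) ∈ hull K` gives `q lft K y₀ - p y₀ ≤ supp K g < q x - p y₀`, so `lft K y₀ < x`,
contradiction.  Second case: for `y ∈ [0,h]`, `(lft K y, y) ∈ hull K`: `-q lft K y + p y ≤ supp K g < -q x + p y₀`, so
`lft K y > x + (p/q)(y - y₀)`: `σ = p/q ∈ (0,1)`.

`letter_left` (only `⌈lft H i⌉ = ⌈lft K i⌉` for `i < m` is used).  If `lft K m ≤ lft H m` trivial.  Let `lft H m < lft K m` and
`a₀ = ⌈lft H (m-1)⌉ = ⌈lft K (m-1)⌉`.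
(1) `lft K m ≤ lft K (m-1) + 1`: otherwise put `x = max (lft H m) (lft K (m-1) + 1) < lft K m`; `(x,m) ∈ hull H` because
`lft H m ≤ x < lft K m ≤ m xh / h ≤ rgt H m` (`common_point`); `strip_line` with `y₀ = m`, `y = m-1`:
`lft K (m-1) > x - σ > x - 1 ≥ lft K (m-1)`, contradiction.  Hence `⌈lft K m⌉ ≤ a₀ + 1`.
(2) `lft H m > a₀ - 1`: suppose `lft H m ≤ a₀ - 1`; `x = lft H m`, `(x,m) ∈ hull H`; let `σ` be from `strip_line`.  Let `z ∈ K`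
be a maximiser of `ev (-1,0)` (`exists_supp`): `-z.1 = supp K (-1,0) = supp H (-1,0)` (`eqp 1 0`), so `lft H y ≥ z.1` and
`lft K y ≥ z.1` for all `y ∈ [0,h]` (`hull_le_supp`).  With `y₁ = z.2`: `lft K y₁ ≤ z.1 ≤ lft H m = x`, and `strip_line` gives
`x + σ (y₁ - m) < lft K y₁ ≤ x`, so `y₁ < m`.  So `⌈lft K y₁⌉ = z.1` (`lft K y₁ = z.1`), `⌈lft H y₁⌉ = z.1`, `lft H y₁ = z.1`.
Convexity of `lft H` on `[y₁, m] ∋ m - 1`: `lft H (m-1) ≤ max (lft H y₁) (lft H m) = lft H m ≤ a₀ - 1`, but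
`⌈lft H (m-1)⌉ = a₀` means `lft H (m-1) > a₀ - 1`: contradiction.
So `⌈lft H m⌉ ≥ a₀` and `⌈lft K m⌉ ≤ a₀ + 1`.

`letters`: `letter_left` for `(H,K)` and `(K,H)`; for the right ends apply it to `P.flipped` (`lft_flip`:
`⌈lft (flip S) i⌉ = i + L - 1 - ⌊rgt S i⌋`).
`letters_top`: apply `letters` to `P.turned` (`lft_turn`: `⌈lft (turn S) i⌉ = xh + M - 1 - ⌊rgt S (h-i)⌋`,
`⌊rgt (turn S) i⌋ = xh + M - 1 - ⌈lft S (h-i)⌉`).

`empty_rows`: let `t` be the common point; `lft ≤ t ≤ rgt` for both sets.  If row `i` of `H` is empty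
(`⌊rgt H⌋ < ⌈lft H⌉`) then `⌊t⌋ ≤ ⌊rgt H⌋ < ⌈lft H⌉ ≤ ⌈t⌉ ≤ ⌊t⌋ + 1`, so `⌊rgt H⌋ = ⌊t⌋`, `⌈lft H⌉ = ⌊t⌋ + 1`; the same
for `K`.  `row_le`: `⌈lft⌉ ≤ ⌈t⌉ ≤ ⌊t⌋ + 1 ≤ ⌊rgt⌋ + 1`.
-/

open scoped Pointwise

namespace Pool.Agent.Lib.MP_bb0bab_co

variable {H K : Finset (ℤ × ℤ)} {L M h : ℕ} {xh : ℤ}

theorem StripPair.fe17H0 (P : StripPair H K L M h xh) : ∃ x : ℤ, (x, 0) ∈ H :=
  ⟨0, (P.botH 0).2 ⟨le_rfl, by have := P.hL; omega⟩⟩

theorem StripPair.fe17Hh (P : StripPair H K L M h xh) : ∃ x : ℤ, (x, (h : ℤ)) ∈ H :=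
  ⟨xh, (P.topH xh).2 ⟨le_rfl, by have := P.hM; omega⟩⟩

theorem StripPair.fe17K0 (P : StripPair H K L M h xh) : ∃ x : ℤ, (x, 0) ∈ K :=
  P.symm.fe17H0

theorem StripPair.fe17Kh (P : StripPair H K L M h xh) : ∃ x : ℤ, (x, (h : ℤ)) ∈ K :=
  P.symm.fe17Hh

theorem strip_line (P : StripPair H K L M h xh) {x y₀ : ℝ} (hy0 : 0 ≤ y₀) (hyh : y₀ ≤ h)
    (hx : (x, y₀) ∈ hull H) (hlt : x < lft K y₀) :
    ∃ σ : ℝ, 0 < σ ∧ σ < 1 ∧ ∀ y : ℝ, 0 ≤ y → y ≤ h → x + σ * (y - y₀) < lft K y := by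
  have hnot : (x, y₀) ∉ hull K := by
    intro hmem
    have h1 := (mem_hull_iff P.rowsK P.fe17K0 P.fe17Kh hy0 hyh x).1 hmem
    linarith [h1.1]
  have hKne : K.Nonempty := by
    obtain ⟨z, hz⟩ := P.fe17K0
    exact ⟨_, hz⟩
  have hlftK : ∀ y : ℝ, 0 ≤ y → y ≤ h → (lft K y, y) ∈ hull K := by
    intro y h0 h1
    exact (mem_hull_iff P.rowsK P.fe17K0 P.fe17Kh h0 h1 _).2
      ⟨le_rfl, lft_le_rgt P.rowsK P.fe17K0 P.fe17Kh h0 h1⟩
  obtain ⟨⟨g1, g2⟩, hg⟩ := hull_sep hKne hnot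
  have hgH := hull_le_supp hx (g1, g2)
  have hne : supp H (g1, g2) ≠ supp K (g1, g2) := by
    intro he
    rw [he] at hgH
    linarith
  have hK := fun y h0 h1 => hull_le_supp (hlftK y h0 h1) (g1, g2)
  dsimp only at hg hgH hK
  have hcases : (0 < g1 ∧ g2 < 0) ∨ (0 < g2 ∧ g2 < -g1) := by
    rcases le_total 0 g1 with h1 | h1 <;> rcases le_total 0 g2 with h2 | h2
    · exact absurd (P.eqp g1 g2 h1 h2).1 hne
    · by_cases h3 : g1 ≤ -g2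
      · have h4 := (P.eqn g1 (-g2) h1 h3).1
        rw [neg_neg] at h4
        exact absurd h4 hne
      · left
        push Not at h3
        refine ⟨by omega, ?_⟩
        by_contra h5
        have h6 : g2 = 0 := by omega
        apply hne
        have h7 := (P.eqp g1 g2 h1 (by omega)).1
        exact h7
    · by_cases h3 : -g1 ≤ g2
      · have h4 := (P.eqn (-g1) g2 (by omega) h3).2
        rw [neg_neg] at h4
        exact absurd h4 hne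
      · right
        push Not at h3
        refine ⟨?_, by omega⟩
        by_contra h5
        have h6 : g2 = 0 := by omega
        apply hne
        have h7 := (P.eqp (-g1) (-g2) (by omega) (by omega)).2
        rw [neg_neg, neg_neg] at h7
        exact h7
    · have h4 := (P.eqp (-g1) (-g2) (by omega) (by omega)).2
      rw [neg_neg, neg_neg] at h4
      exact absurd h4 hne
  rcases hcases with ⟨h1, h2⟩ | ⟨h1, h2⟩
  · exfalso
    have h3 := hK y₀ hy0 hyh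
    have h4 : (0 : ℝ) < g1 := by exact_mod_cast h1
    nlinarith
  · have h3 : (0 : ℝ) < g2 := by exact_mod_cast h1
    have h4 : (g2 : ℝ) < -g1 := by exact_mod_cast h2
    have h5 : (0 : ℝ) < -g1 := by linarith
    refine ⟨(g2 : ℝ) / (-g1), div_pos h3 h5, (div_lt_one h5).2 h4, fun y h0 h1' => ?_⟩
    have h6 := hK y h0 h1'
    have h7 : (g2 : ℝ) / (-g1) * (y - y₀) = (g2 * (y - y₀)) / (-g1) := by ring
    rw [h7]
    have h8 : (g2 * (y - y₀)) / (-g1 : ℝ) < lft K y - x := by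
      rw [div_lt_iff₀ h5]
      nlinarith
    linarith

theorem letter_left (P : StripPair H K L M h xh) (m : ℕ) (hm : 1 ≤ m) (hmh : m ≤ h)
    (heq : ∀ i : ℕ, i < m → ⌈lft H i⌉ = ⌈lft K i⌉) : ⌈lft K m⌉ ≤ ⌈lft H m⌉ + 1 := by
  rcases le_or_gt (lft K m) (lft H m) with hle | hlt
  · have := Int.ceil_mono hle
    omega
  have hm0 : (0 : ℝ) ≤ m := by positivity
  have hmh' : (m : ℝ) ≤ h := by exact_mod_cast hmh
  have hm1 : (0 : ℝ) ≤ ((m - 1 : ℕ) : ℝ) := by positivity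
  have hm1' : ((m - 1 : ℕ) : ℝ) = (m : ℝ) - 1 := by
    rw [Nat.cast_sub hm]
    simp
  have hm1h : ((m - 1 : ℕ) : ℝ) ≤ h := by rw [hm1']; linarith
  have ha0 := heq (m - 1) (by omega)
  obtain ⟨a0, ha0H⟩ : ∃ a0, a0 = ⌈lft H ((m - 1 : ℕ) : ℝ)⌉ := ⟨_, rfl⟩
  have ha0K : a0 = ⌈lft K ((m - 1 : ℕ) : ℝ)⌉ := by rw [ha0H, ha0]
  have hcm := P.common_point hm0 hmh'
  have hrowH := fun {y : ℝ} (h0 : 0 ≤ y) (h1 : y ≤ h) (x : ℝ) =>
    mem_hull_iff P.rowsH P.fe17H0 P.fe17Hh h0 h1 x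
  have hrowK := fun {y : ℝ} (h0 : 0 ≤ y) (h1 : y ≤ h) (x : ℝ) =>
    mem_hull_iff P.rowsK P.fe17K0 P.fe17Kh h0 h1 x
  -- (1)
  have h1 : lft K m ≤ lft K ((m - 1 : ℕ) : ℝ) + 1 := by
    by_contra hcon
    push Not at hcon
    obtain ⟨x, hx⟩ : ∃ x, x = max (lft H m) (lft K ((m - 1 : ℕ) : ℝ) + 1) := ⟨_, rfl⟩
    have hxlt : x < lft K m := by
      rw [hx]
      exact max_lt hlt hcon
    have hx1 : lft H m ≤ x := by rw [hx]; exact le_max_left _ _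
    have hx2 : lft K ((m - 1 : ℕ) : ℝ) + 1 ≤ x := by rw [hx]; exact le_max_right _ _
    have hxH : (x, (m : ℝ)) ∈ hull H := by
      rw [hrowH hm0 hmh']
      exact ⟨hx1, by linarith [hcm.2.1, hcm.2.2.1]⟩
    obtain ⟨σ, hσ0, hσ1, hσ⟩ := strip_line P hm0 hmh' hxH hxlt
    have h2 := hσ _ hm1 hm1h
    rw [hm1'] at h2 hx2
    nlinarith
  have h1' : ⌈lft K m⌉ ≤ a0 + 1 := by
    rw [Int.ceil_le]
    have h2 : lft K ((m - 1 : ℕ) : ℝ) ≤ a0 := by rw [ha0K]; exact Int.le_ceil _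
    push_cast
    linarith
  -- (2)
  have h2 : ((a0 - 1 : ℤ) : ℝ) < lft H m := by
    by_contra hcon
    push Not at hcon
    push_cast at hcon
    have hHm : (lft H m, (m : ℝ)) ∈ hull H := by
      rw [hrowH hm0 hmh']
      exact ⟨le_rfl, lft_le_rgt P.rowsH P.fe17H0 P.fe17Hh hm0 hmh'⟩
    obtain ⟨σ, hσ0, hσ1, hσ⟩ := strip_line P hm0 hmh' hHm hlt
    have hKne : K.Nonempty := by
      obtain ⟨z, hz⟩ := P.fe17K0
      exact ⟨_, hz⟩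
    obtain ⟨⟨z1, z2⟩, hz, hzs⟩ := exists_supp hKne (-1, 0)
    have hsupp : supp H (-1, 0) = supp K (-1, 0) := by
      have h3 := (P.eqp 1 0 (by norm_num) le_rfl).2
      simpa using h3
    have hev : supp K (-1, 0) = -z1 := by
      rw [← hzs]
      simp [ev]
    have hz2 := P.rowsK _ hz
    dsimp only at hz2
    have hz2' : (0 : ℝ) ≤ (z2 : ℝ) := by exact_mod_cast hz2.1
    have hz2h : (z2 : ℝ) ≤ h := by exact_mod_cast hz2.2
    have hKz : lft K z2 ≤ z1 := by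
      have h3 := mem_hull_of_mem hz
      dsimp only at h3
      exact ((hrowK hz2' hz2h _).1 h3).1
    have hKz' : (z1 : ℝ) ≤ lft K z2 := by
      have h3 : (lft K z2, (z2 : ℝ)) ∈ hull K := (hrowK hz2' hz2h _).2
        ⟨le_rfl, lft_le_rgt P.rowsK P.fe17K0 P.fe17Kh hz2' hz2h⟩
      have h4 := hull_le_supp h3 (-1, 0)
      rw [hev] at h4
      push_cast at h4
      linarith
    have hHge : ∀ y : ℝ, 0 ≤ y → y ≤ h → (z1 : ℝ) ≤ lft H y := by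
      intro y hy0 hyh
      have h3 : (lft H y, y) ∈ hull H := (hrowH hy0 hyh _).2
        ⟨le_rfl, lft_le_rgt P.rowsH P.fe17H0 P.fe17Hh hy0 hyh⟩
      have h4 := hull_le_supp h3 (-1, 0)
      rw [hsupp, hev] at h4
      push_cast at h4
      linarith
    have hzm : z2 < m := by
      have h3 := hσ z2 hz2' hz2h
      have h4 := hHge m hm0 hmh'
      have h5 : σ * ((z2 : ℝ) - m) < 0 := by linarith
      have h6 : (z2 : ℝ) - m < 0 := by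
        by_contra h7
        push Not at h7
        have := mul_nonneg hσ0.le h7
        linarith
      have h7 : (z2 : ℝ) < ((m : ℤ) : ℝ) := by
        push_cast
        linarith
      exact_mod_cast h7
    obtain ⟨i, rfl⟩ := Int.eq_ofNat_of_zero_le hz2.1
    have him : i < m := by exact_mod_cast hzm
    have hceil := heq i him
    have hKi : lft K (i : ℝ) = z1 := by
      have h3 : lft K (((i : ℕ) : ℤ) : ℝ) = z1 := le_antisymm hKz hKz'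
      simpa using h3
    have hHi : lft H (i : ℝ) = z1 := by
      rw [hKi, Int.ceil_intCast] at hceil
      apply le_antisymm
      · rw [← hceil]
        exact Int.le_ceil _
      · exact hHge i (by positivity) (by exact_mod_cast (by omega : i ≤ h))
    have hHm1 : (z1 : ℝ) ≤ lft H m := hHge m hm0 hmh'
    have hconv := lft_convexOn P.rowsH P.fe17H0 P.fe17Hh
    have h3 : lft H ((m - 1 : ℕ) : ℝ) ≤ max (lft H (i : ℝ)) (lft H (m : ℝ)) := by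
      refine hconv.le_max_of_mem_Icc (x := (i : ℝ)) (y := (m : ℝ)) ⟨by positivity, by
        exact_mod_cast (by omega : i ≤ h)⟩ ⟨hm0, hmh'⟩ ⟨?_, ?_⟩
      · exact_mod_cast (by omega : i ≤ m - 1)
      · rw [hm1']
        linarith
    rw [hHi, max_eq_right hHm1] at h3
    have h4 : ((a0 : ℤ) : ℝ) - 1 < lft H ((m - 1 : ℕ) : ℝ) := by
      have h5 := Int.ceil_lt_add_one (lft H ((m - 1 : ℕ) : ℝ))
      rw [← ha0H] at h5
      linarith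
    linarith
  have h2' : a0 ≤ ⌈lft H m⌉ := by
    have h3 := Int.lt_ceil.2 h2
    omega
  omega

theorem fe17_left (P : StripPair H K L M h xh) (m : ℕ) (hm : 1 ≤ m) (hmh : m ≤ h)
    (heq : ∀ i : ℕ, i < m → ⌈lft H i⌉ = ⌈lft K i⌉) : |⌈lft H m⌉ - ⌈lft K m⌉| ≤ 1 := by
  have h1 := letter_left P m hm hmh heq
  have h2 := letter_left P.symm m hm hmh (fun i hi => (heq i hi).symm)
  rw [abs_le]
  constructor <;> omega

theorem fe17_ceil_flip {S : Finset (ℤ × ℤ)} {h : ℕ} (L : ℕ) (hrows : ∀ p ∈ S, 0 ≤ p.2 ∧ p.2 ≤ h)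
    (h0 : ∃ x : ℤ, (x, 0) ∈ S) (hh : ∃ x : ℤ, (x, (h : ℤ)) ∈ S) (i : ℕ) (hi : i ≤ h) :
    ⌈lft (S.image (flip L)) i⌉ = i + (L - 1) - ⌊rgt S i⌋ := by
  rw [(lft_flip L hrows h0 hh (y := (i : ℝ)) (by positivity) (by exact_mod_cast hi)).1]
  have e : (i : ℝ) + (L - 1) - rgt S i = ((i + (L - 1) : ℤ) : ℝ) + -rgt S i := by
    push_cast
    ring
  rw [e, Int.ceil_intCast_add, Int.ceil_neg]
  ring

theorem fe17_turn {S : Finset (ℤ × ℤ)} {h : ℕ} (M : ℕ) (xh : ℤ)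
    (hrows : ∀ p ∈ S, 0 ≤ p.2 ∧ p.2 ≤ h)
    (h0 : ∃ x : ℤ, (x, 0) ∈ S) (hh : ∃ x : ℤ, (x, (h : ℤ)) ∈ S) (i : ℕ) (hi : i ≤ h) :
    ⌈lft (S.image (turn M h xh)) i⌉ = xh + M - 1 - ⌊rgt S ((h - i : ℕ) : ℝ)⌋ ∧
      ⌊rgt (S.image (turn M h xh)) i⌋ = xh + M - 1 - ⌈lft S ((h - i : ℕ) : ℝ)⌉ := by
  obtain ⟨e1, e2⟩ := lft_turn M xh hrows h0 hh (y := (i : ℝ)) (by positivity) (by exact_mod_cast hi)
  have e3 : (h : ℝ) - i = ((h - i : ℕ) : ℝ) := by rw [Nat.cast_sub hi]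
  rw [e3] at e1 e2
  rw [e1, e2]
  constructor
  · have e : (xh : ℝ) + M - 1 - rgt S ((h - i : ℕ) : ℝ) =
        ((xh + M - 1 : ℤ) : ℝ) + -rgt S ((h - i : ℕ) : ℝ) := by
      push_cast
      ring
    rw [e, Int.ceil_intCast_add, Int.ceil_neg]
    ring
  · have e : (xh : ℝ) + M - 1 - lft S ((h - i : ℕ) : ℝ) =
        ((xh + M - 1 : ℤ) : ℝ) + -lft S ((h - i : ℕ) : ℝ) := by
      push_cast
      ring
    rw [e, Int.floor_intCast_add, Int.floor_neg]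
    ring

theorem letters (P : StripPair H K L M h xh) (m : ℕ) (hm : 1 ≤ m) (hmh : m ≤ h)
    (heq : ∀ i : ℕ, i < m → ⌈lft H i⌉ = ⌈lft K i⌉ ∧ ⌊rgt H i⌋ = ⌊rgt K i⌋) :
    |⌈lft H m⌉ - ⌈lft K m⌉| ≤ 1 ∧ |⌊rgt H m⌋ - ⌊rgt K m⌋| ≤ 1 := by
  refine ⟨fe17_left P m hm hmh (fun i hi => (heq i hi).1), ?_⟩
  have hH := fun i hi => fe17_ceil_flip L P.rowsH P.fe17H0 P.fe17Hh i hi
  have hK := fun i hi => fe17_ceil_flip L P.rowsK P.fe17K0 P.fe17Kh i hi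
  have h1 := fe17_left P.flipped m hm hmh (fun i hi => by
    rw [hH i (by omega), hK i (by omega), (heq i hi).2])
  rw [hH m hmh, hK m hmh] at h1
  rw [abs_le] at h1 ⊢
  constructor <;> omega

theorem letters_top (P : StripPair H K L M h xh) (m : ℕ) (hm : 1 ≤ m) (hmh : m ≤ h)
    (heq : ∀ i : ℕ, i < m → ⌈lft H ((h - i : ℕ) : ℝ)⌉ = ⌈lft K ((h - i : ℕ) : ℝ)⌉ ∧
      ⌊rgt H ((h - i : ℕ) : ℝ)⌋ = ⌊rgt K ((h - i : ℕ) : ℝ)⌋) :
    |⌈lft H ((h - m : ℕ) : ℝ)⌉ - ⌈lft K ((h - m : ℕ) : ℝ)⌉| ≤ 1 ∧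
      |⌊rgt H ((h - m : ℕ) : ℝ)⌋ - ⌊rgt K ((h - m : ℕ) : ℝ)⌋| ≤ 1 := by
  have hH := fun i hi => fe17_turn M xh P.rowsH P.fe17H0 P.fe17Hh i hi
  have hK := fun i hi => fe17_turn M xh P.rowsK P.fe17K0 P.fe17Kh i hi
  have h1 := letters P.turned m hm hmh (fun i hi => by
    rw [(hH i (by omega)).1, (hK i (by omega)).1, (hH i (by omega)).2, (hK i (by omega)).2,
      (heq i hi).1, (heq i hi).2]
    exact ⟨rfl, rfl⟩)
  rw [(hH m hmh).1, (hK m hmh).1, (hH m hmh).2, (hK m hmh).2] at h1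
  rw [abs_le, abs_le] at h1 ⊢
  obtain ⟨⟨h2, h3⟩, h4, h5⟩ := h1
  refine ⟨⟨?_, ?_⟩, ?_, ?_⟩ <;> omega

theorem row_le (P : StripPair H K L M h xh) (i : ℕ) (hi : i ≤ h) :
    ⌈lft H i⌉ ≤ ⌊rgt H i⌋ + 1 ∧ ⌈lft K i⌉ ≤ ⌊rgt K i⌋ + 1 := by
  obtain ⟨h1, h2, h3, h4⟩ := P.common_point (y := (i : ℝ)) (by positivity) (by exact_mod_cast hi)
  have e := Int.ceil_le_floor_add_one ((i : ℝ) * xh / h)
  have e1 := Int.ceil_mono h1
  have e2 := Int.floor_mono h2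
  have e3 := Int.ceil_mono h3
  have e4 := Int.floor_mono h4
  constructor <;> omega

theorem empty_rows (P : StripPair H K L M h xh) (i : ℕ) (hi : i ≤ h)
    (hH : ⌊rgt H i⌋ < ⌈lft H i⌉) (hK : ⌊rgt K i⌋ < ⌈lft K i⌉) :
    ⌈lft H i⌉ = ⌈lft K i⌉ ∧ ⌊rgt H i⌋ = ⌊rgt K i⌋ := by
  obtain ⟨h1, h2, h3, h4⟩ := P.common_point (y := (i : ℝ)) (by positivity) (by exact_mod_cast hi)
  have e := Int.ceil_le_floor_add_one ((i : ℝ) * xh / h)
  have e1 := Int.ceil_mono h1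
  have e2 := Int.floor_mono h2
  have e3 := Int.ceil_mono h3
  have e4 := Int.floor_mono h4
  constructor <;> omega

end Pool.Agent.Lib.MP_bb0bab_co
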