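import Pool.Agent.Lib.MP_bb0bab_co.FE18

/-!
# FE19a algebra of the first discrepancy

PROOF. Multiply `hid` by `(1 - T 1)^2` (`one_sub_mul_rowPoly`; `[0,M-1]`, `[0,L-1]` and all four formal intervals satisfy
`a ≤ b + 1`): with `X^n = T n`
`(1 - X^M)(X^a - X^(b+1) - X^a' + X^(b'+1)) = (1 - X^L)(X^c' - X^(d'+1) - X^c + X^(d+1))`.   (*)
Also evaluate `hid` at `X = 1` (coefficient sum, e.g. the ring hom `T n ↦ 1`, or count):
`M ((b - a) - (b' - a')) = L ((d' - c') - (d - c))`.  Put `ε₁ = a' - a`, `ε₂ = b' - b`, `δ₁ = c - c'`, `δ₂ = d - d'`, all in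
`{-1,0,1}`: `M (ε₁ - ε₂) = L (δ₁ - δ₂)`, `|ε₁ - ε₂| ≤ 2`, `0 < M < L`.  So either `ε₁ = ε₂` and `δ₁ = δ₂` (PARALLEL), or
`δ₁ - δ₂ = ±1`, `ε₁ - ε₂ = ±2` (same sign), `L = 2M` (NESTED).
PARALLEL, `ε = ε₁ = ε₂`, `δ = δ₁ = δ₂`.  `λ = b - a + 1 ≥ 0`, `μ = d - c + 1 ≥ 0` (the primed intervals have the same
lengths).  If `λ = 0` then both bottom rows are empty and `hbot` gives `ε = 0`; similarly `μ = 0` gives `δ = 0`.
(*) reads: if `ε = 1`: LHS `= (1 - X^M) (1 - X)(1 - X^λ) X^a`; `ε = -1`: LHS `= -(1-X^M)(1-X)(1-X^λ) X^a'`; `ε = 0`: LHS `= 0`;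
RHS for `δ = 1` (`c = c'+1`): `(1 - X^L)(1-X)(1-X^μ) X^c'`; `δ = -1`: `-(1-X^L)(1-X)(1-X^μ) X^c`; `δ = 0`: `0`.  Nonzero
sides have lowest coefficient `±1`; so `ε = δ`: all equal if `ε = 0`.  If `ε = δ = 1`: cancel `(1 - X)` (or work with the
undivided identity `hid` multiplied once by `1 - X`):
`X^a (1 - X^M)(1 - X^λ) = X^c' (1 - X^L)(1 - X^μ)`, all of `M, λ, L, μ ≥ 1`.  Lowest terms: `a = c'`.  Compare the
coefficients at `M`: left `-1 - [M = λ]`, right `-[M = μ]` (as `M < L < L + μ`); so `μ = M` and `λ ≠ M`.  Coefficient at `L`: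
right `-1` (`μ = M ≠ L`), left `-[L = λ] + [L = M + λ]`; so `λ = L`.  So `b = a + L - 1`, `c' = a`, `d' = a + M - 1`,
`c = a + 1`, `d = a + M`, `a' = a + 1`, `b' = b + 1`.  `ε = δ = -1`: exchange primed and unprimed.
NESTED, `ε₁ - ε₂ = 2`: `a' = a + 1`, `b' = b - 1` (so `b ≥ a + 1`), `δ₁ - δ₂ = 1`: `(δ₁,δ₂) = (1,0)` or `(0,-1)`, i.e.
`(c' = c - 1, d' = d)` or `(c' = c, d' = d + 1)`.  Then `rowPoly a b - rowPoly a' b' = X^a + X^b` and
`rowPoly c' d' - rowPoly c d = X^p`, `p = c'` resp. `p = d'`.  (`hid`) times `1 - X`: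
`(1 - X^M)(X^a + X^b) = (1 - X^(2M)) X^p`.  Coefficient at `a`: left `≥ 1` (`1 + [a=b] - [a = b + M] ...`, note `b > a`, so
`a ≠ b + M`, `a ≠ a + M`), right `[a = p] - [a = p + 2M]`, so `a = p`.  Coefficient at `b`: left `1 - [b = a + M]`, right
`-[b = a + 2M]` (as `b ≠ a`), so `b = a + M`.  `ε₁ - ε₂ = -2`: exchange primed and unprimed.
A convenient device: read off coefficients with `LaurentPolynomial.ext_iff`, `.coeff`, `LaurentPolynomial.T_apply` and `split_ifs; omega`.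
-/

open scoped Pointwise

namespace Pool.Agent.Lib.MP_bb0bab_co

open LaurentPolynomial in
theorem fe19_coeff (a b n : ℤ) : (rowPoly a b).coeff n = if a ≤ n ∧ n ≤ b then 1 else 0 := by
  unfold rowPoly
  rw [AddMonoidAlgebra.coeff_sum, Finsupp.finsetSum_apply]
  simp only [T_apply]
  rw [Finset.sum_ite_eq']
  simp only [Finset.mem_Icc]

open LaurentPolynomial in
theorem fe19_eval (a b : ℤ) (hab : a ≤ b + 1) :
    eval₂ (RingHom.id ℤ) (1 : ℤˣ) (rowPoly a b) = b + 1 - a := by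
  unfold rowPoly
  rw [map_sum]
  simp only [eval₂_T, one_zpow, Units.val_one, Finset.sum_const, Int.card_Icc, nsmul_eq_mul, mul_one]
  omega

open LaurentPolynomial in
/-- the difference of two row polynomials which are shifted by one -/
theorem fe19_diff1 (a b : ℤ) (hab : a ≤ b + 1) :
    rowPoly a b - rowPoly (a + 1) (b + 1) = T a - T (b + 1) := by
  apply LaurentPolynomial.ext
  intro n
  rw [AddMonoidAlgebra.coeff_sub, AddMonoidAlgebra.coeff_sub, Finsupp.sub_apply, Finsupp.sub_apply,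
    fe19_coeff, fe19_coeff, T_apply, T_apply]
  split_ifs <;> omega

open LaurentPolynomial in
theorem fe19_diff2 (a b : ℤ) (hab : a + 1 ≤ b) :
    rowPoly a b - rowPoly (a + 1) (b - 1) = T a + T b := by
  apply LaurentPolynomial.ext
  intro n
  rw [AddMonoidAlgebra.coeff_sub, AddMonoidAlgebra.coeff_add, Finsupp.sub_apply, Finsupp.add_apply,
    fe19_coeff, fe19_coeff, T_apply, T_apply]
  split_ifs <;> omega

open LaurentPolynomial in
theorem fe19_diff3 (c d : ℤ) (hcd : c ≤ d + 1) :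
    rowPoly (c - 1) d - rowPoly c d = T (c - 1) := by
  apply LaurentPolynomial.ext
  intro n
  rw [AddMonoidAlgebra.coeff_sub, Finsupp.sub_apply, fe19_coeff, fe19_coeff, T_apply]
  split_ifs <;> omega

open LaurentPolynomial in
theorem fe19_diff4 (c d : ℤ) (hcd : c ≤ d + 1) :
    rowPoly c (d + 1) - rowPoly c d = T (d + 1) := by
  apply LaurentPolynomial.ext
  intro n
  rw [AddMonoidAlgebra.coeff_sub, Finsupp.sub_apply, fe19_coeff, fe19_coeff, T_apply]
  split_ifs <;> omega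

/-- indicator -/
def fe19_dl (x n : ℤ) : ℤ := if x = n then 1 else 0

theorem fe19_dl_self (x : ℤ) : fe19_dl x x = 1 := if_pos rfl
theorem fe19_dl_ne {x n : ℤ} (h : x ≠ n) : fe19_dl x n = 0 := if_neg h
theorem fe19_dl_cases (x n : ℤ) : (x = n ∧ fe19_dl x n = 1) ∨ (x ≠ n ∧ fe19_dl x n = 0) := by
  by_cases h : x = n
  · exact Or.inl ⟨h, if_pos h⟩
  · exact Or.inr ⟨h, if_neg h⟩

open LaurentPolynomial in
theorem fe19_T (x n : ℤ) : (T x : LaurentPolynomial ℤ).coeff n = fe19_dl x n := T_apply n x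

open LaurentPolynomial in
/-- the reduced identity, coefficientwise -/
theorem fe19_red {L M : ℤ} {x y z w : ℤ} {sx sy sz sw : ℤ}
    (hM : 0 ≤ M) (hL : 0 ≤ L)
    (h : rowPoly 0 (M - 1) * (C sx * T x + C sy * T y) =
      rowPoly 0 (L - 1) * (C sz * T z + C sw * T w)) (n : ℤ) :
    sx * fe19_dl x n + sy * fe19_dl y n - sx * fe19_dl (x + M) n - sy * fe19_dl (y + M) n =
      sz * fe19_dl z n + sw * fe19_dl w n - sz * fe19_dl (z + L) n - sw * fe19_dl (w + L) n := by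
  have h1 := congrArg (fun q => (1 - T 1) * q) h
  rw [← mul_assoc, ← mul_assoc, one_sub_mul_rowPoly (by omega), one_sub_mul_rowPoly (by omega),
    sub_add_cancel, sub_add_cancel, T_zero] at h1
  have e : ∀ (N x y sx sy : ℤ), (1 - T N) * (C sx * T x + C sy * T y : LaurentPolynomial ℤ) =
      sx • T x + sy • T y - sx • T (x + N) - sy • T (y + N) := by
    intro N x y sx sy
    rw [smul_eq_C_mul, smul_eq_C_mul, smul_eq_C_mul, smul_eq_C_mul, T_add, T_add]
    ring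
  rw [e, e] at h1
  have h2 := congrArg (fun q => q.coeff n) h1
  simp only [AddMonoidAlgebra.coeff_sub, AddMonoidAlgebra.coeff_add, AddMonoidAlgebra.coeff_smul,
    Finsupp.sub_apply, Finsupp.add_apply, Finsupp.smul_apply, fe19_T, smul_eq_mul] at h2
  exact h2

/-- parallel shifts in the same direction -/
theorem fe19_P1 {M L a e c f : ℤ} (hM : 1 ≤ M) (hL : M < L) (hae : a < e) (hcf : c < f)
    (h : ∀ n, 1 * fe19_dl a n + -1 * fe19_dl e n - 1 * fe19_dl (a + M) n -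
      -1 * fe19_dl (e + M) n = 1 * fe19_dl c n + -1 * fe19_dl f n - 1 * fe19_dl (c + L) n -
      -1 * fe19_dl (f + L) n) : c = a ∧ e = a + L ∧ f = a + M := by
  have hac : c = a := by
    rcases lt_trichotomy a c with h1 | h1 | h1
    · have h2 := h a
      simp (disch := omega) only [fe19_dl_self, fe19_dl_ne] at h2
      omega
    · exact h1.symm
    · have h2 := h c
      simp (disch := omega) only [fe19_dl_self, fe19_dl_ne] at h2
      omega
  subst hac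
  have h2 := h (c + M)
  simp (disch := omega) only [fe19_dl_self, fe19_dl_ne] at h2
  have h3 : f = c + M := by
    rcases fe19_dl_cases e (c + M) with ⟨_, h3⟩ | ⟨_, h3⟩ <;>
      rcases fe19_dl_cases f (c + M) with ⟨h4, h5⟩ | ⟨_, h5⟩ <;> rw [h3, h5] at h2 <;> omega
  have h4 := h (c + L)
  simp (disch := omega) only [fe19_dl_self, fe19_dl_ne] at h4
  have h5 : e = c + L := by
    rcases fe19_dl_cases e (c + L) with ⟨h5, h6⟩ | ⟨_, h6⟩
    · exact h5
    · rcases fe19_dl_cases (e + M) (c + L) with ⟨h7, h8⟩ | ⟨_, h8⟩ <;> rw [h6, h8] at h4 <;> omega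
  exact ⟨rfl, h5, h3⟩

/-- parallel shifts in opposite directions are impossible -/
theorem fe19_P2 {M L a e c f : ℤ} (hM : 1 ≤ M) (hL : M < L) (hae : a < e) (hcf : c < f)
    (h : ∀ n, 1 * fe19_dl a n + -1 * fe19_dl e n - 1 * fe19_dl (a + M) n -
      -1 * fe19_dl (e + M) n = -1 * fe19_dl c n + 1 * fe19_dl f n - -1 * fe19_dl (c + L) n -
      1 * fe19_dl (f + L) n) : False := by
  rcases lt_trichotomy a c with h1 | h1 | h1
  · have h2 := h a
    simp (disch := omega) only [fe19_dl_self, fe19_dl_ne] at h2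
    omega
  · subst h1
    have h2 := h a
    simp (disch := omega) only [fe19_dl_self, fe19_dl_ne] at h2
    omega
  · have h2 := h c
    simp (disch := omega) only [fe19_dl_self, fe19_dl_ne] at h2
    omega

/-- one side shifted, the other one not -/
theorem fe19_P3 {M L a e z : ℤ} (hM : 1 ≤ M) (hae : a < e)
    (h : ∀ n, 1 * fe19_dl a n + -1 * fe19_dl e n - 1 * fe19_dl (a + M) n -
      -1 * fe19_dl (e + M) n = 0 * fe19_dl z n + 0 * fe19_dl z n - 0 * fe19_dl (z + L) n -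
      0 * fe19_dl (z + L) n) : False := by
  have h2 := h a
  simp (disch := omega) only [fe19_dl_self, fe19_dl_ne] at h2
  omega

/-- nested -/
theorem fe19_P4 {M a b p : ℤ} (hM : 1 ≤ M) (hab : a < b)
    (h : ∀ n, 1 * fe19_dl a n + 1 * fe19_dl b n - 1 * fe19_dl (a + M) n -
      1 * fe19_dl (b + M) n = 1 * fe19_dl p n + 0 * fe19_dl p n - 1 * fe19_dl (p + 2 * M) n -
      0 * fe19_dl (p + 2 * M) n) : p = a ∧ b = a + M := by
  have hpa : p = a := by
    have h2 := h a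
    simp (disch := omega) only [fe19_dl_self, fe19_dl_ne] at h2
    rcases fe19_dl_cases p a with ⟨h3, h4⟩ | ⟨_, h4⟩
    · exact h3
    · rcases fe19_dl_cases (p + 2 * M) a with ⟨h5, h6⟩ | ⟨_, h6⟩ <;> rw [h4, h6] at h2 <;> omega
  subst hpa
  refine ⟨rfl, ?_⟩
  have h2 := h b
  simp (disch := omega) only [fe19_dl_self, fe19_dl_ne] at h2
  rcases fe19_dl_cases (p + M) b with ⟨h3, h4⟩ | ⟨_, h4⟩
  · exact h3.symm
  · rcases fe19_dl_cases (p + 2 * M) b with ⟨h5, h6⟩ | ⟨_, h6⟩ <;> rw [h4, h6] at h2 <;> omega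

open LaurentPolynomial in
theorem fe19_e1 (a b : ℤ) (hab : a ≤ b + 1) :
    rowPoly a b - rowPoly (a + 1) (b + 1) = C 1 * T a + C (-1) * T (b + 1) := by
  rw [fe19_diff1 a b hab]
  simp [sub_eq_add_neg]

open LaurentPolynomial in
theorem fe19_e1' (a b : ℤ) (hab : a ≤ b + 1) :
    rowPoly (a + 1) (b + 1) - rowPoly a b = C (-1) * T a + C 1 * T (b + 1) := by
  have h := fe19_diff1 a b hab
  have h2 : rowPoly (a + 1) (b + 1) - rowPoly a b = -(T a - T (b + 1)) := by rw [← h]; ring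
  rw [h2]
  simp only [map_neg, map_one]
  ring

open LaurentPolynomial in
theorem fe19_e2 (a b : ℤ) (hab : a + 1 ≤ b) :
    rowPoly a b - rowPoly (a + 1) (b - 1) = C 1 * T a + C 1 * T b := by
  rw [fe19_diff2 a b hab]
  simp

open LaurentPolynomial in
theorem fe19_e3 (c d : ℤ) (hcd : c ≤ d + 1) :
    rowPoly (c - 1) d - rowPoly c d = C 1 * T (c - 1) + C 0 * T (c - 1) := by
  rw [fe19_diff3 c d hcd]
  simp

open LaurentPolynomial in
theorem fe19_e4 (c d : ℤ) (hcd : c ≤ d + 1) :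
    rowPoly c (d + 1) - rowPoly c d = C 1 * T (d + 1) + C 0 * T (d + 1) := by
  rw [fe19_diff4 c d hcd]
  simp

open LaurentPolynomial in
theorem fe19_e0 (c d z : ℤ) :
    rowPoly c d - rowPoly c d = C 0 * T z + C 0 * T z := by
  simp

/-- degree count -/
theorem fe19_deg (L M : ℕ) (a b a' b' c d c' d' : ℤ)
    (h1 : a ≤ b + 1) (h2 : a' ≤ b' + 1) (h3 : c ≤ d + 1) (h4 : c' ≤ d' + 1)
    (hid : rowPoly 0 (M - 1) * (rowPoly a b - rowPoly a' b') =
      rowPoly 0 (L - 1) * (rowPoly c' d' - rowPoly c d)) :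
    (M : ℤ) * ((b - a) - (b' - a')) = L * ((d' - c') - (d - c)) := by
  have h := congrArg (LaurentPolynomial.eval₂ (RingHom.id ℤ) (1 : ℤˣ)) hid
  rw [map_mul, map_mul, map_sub, map_sub, fe19_eval _ _ h1, fe19_eval _ _ h2, fe19_eval _ _ h3,
    fe19_eval _ _ h4, fe19_eval _ _ (by omega), fe19_eval _ _ (by omega)] at h
  linarith

/-- the half with `a' = a + 1` -/
theorem fe19_half (L M : ℕ) (hM : 1 ≤ M) (hLM : M < L) (a b a' b' c d c' d' : ℤ)
    (h1 : a ≤ b + 1) (h2 : a' ≤ b' + 1) (h3 : c ≤ d + 1) (h4 : c' ≤ d' + 1)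
    (ha : a' = a + 1) (hb : |b - b'| ≤ 1) (hc : |c - c'| ≤ 1) (hd : |d - d'| ≤ 1)
    (hbot : a = b + 1 → a' = b' + 1 → a = a' ∧ b = b')
    (htop : c = d + 1 → c' = d' + 1 → c = c' ∧ d = d')
    (hid : rowPoly 0 (M - 1) * (rowPoly a b - rowPoly a' b') =
      rowPoly 0 (L - 1) * (rowPoly c' d' - rowPoly c d)) :
    (a' = a + 1 ∧ b' = b + 1 ∧ b = a + L - 1 ∧ c' = a ∧ d' = a + M - 1 ∧ c = a + 1 ∧ d = a + M) ∨
    ((L : ℤ) = 2 * M ∧ b = a + M ∧ a' = a + 1 ∧ b' = b - 1 ∧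
      ((c' = a ∧ c = a + 1 ∧ d = d') ∨ (d' = a ∧ d = a - 1 ∧ c = c'))) := by
  have hdeg := fe19_deg L M a b a' b' c d c' d' h1 h2 h3 h4 hid
  rw [abs_le] at hb hc hd
  subst ha
  have hM' : (1 : ℤ) ≤ M := by exact_mod_cast hM
  have hL' : (M : ℤ) < L := by exact_mod_cast hLM
  obtain ⟨u, hu⟩ : ∃ u, u = (b - a) - (b' - (a + 1)) := ⟨_, rfl⟩
  obtain ⟨v, hv⟩ : ∃ v, v = (d' - c') - (d - c) := ⟨_, rfl⟩
  rw [← hu, ← hv] at hdeg
  have hv2 : v = -2 ∨ v = -1 ∨ v = 0 ∨ v = 1 ∨ v = 2 := by omega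
  have hu2 : u = 0 ∨ u = 1 ∨ u = 2 := by omega
  have huv : (u = 0 ∧ v = 0) ∨ (u = 2 ∧ v = 1 ∧ (L : ℤ) = 2 * M) := by
    rcases hv2 with rfl | rfl | rfl | rfl | rfl <;> rcases hu2 with rfl | rfl | rfl <;> omega
  rcases huv with ⟨hu0, hv0⟩ | ⟨hu0, hv0, hLM2⟩
  · -- parallel
    left
    have hb' : b' = b + 1 := by omega
    subst hb'
    have hab : a < b + 1 := by
      rcases lt_or_eq_of_le h1 with h5 | h5
      · exact h5
      · have := hbot h5 (by omega)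
        omega
    have hδ : (c = c' + 1 ∧ d = d' + 1) ∨ (c = c' ∧ d = d') ∨ (c' = c + 1 ∧ d' = d + 1) := by omega
    rcases hδ with ⟨rfl, rfl⟩ | ⟨rfl, rfl⟩ | ⟨rfl, rfl⟩
    · have hcd : c' < d' + 1 := by
        rcases lt_or_eq_of_le h4 with h5 | h5
        · exact h5
        · have := htop (by omega) h5
          omega
      rw [fe19_e1 a b h1, fe19_e1 c' d' h4] at hid
      obtain ⟨e1, e2, e3⟩ := fe19_P1 hM' hL' hab hcd (fe19_red (by omega) (by omega) hid)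
      omega
    · exfalso
      rw [fe19_e1 a b h1, fe19_e0 c d 0] at hid
      exact fe19_P3 hM' hab (fe19_red (by omega) (by omega) hid)
    · exfalso
      have hcd : c < d + 1 := by
        rcases lt_or_eq_of_le h3 with h5 | h5
        · exact h5
        · have := htop h5 (by omega)
          omega
      rw [fe19_e1 a b h1, fe19_e1' c d h3] at hid
      exact fe19_P2 hM' hL' hab hcd (fe19_red (by omega) (by omega) hid)
  · -- nested
    right
    have hb' : b' = b - 1 := by omega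
    subst hb'
    have hδ : (c' = c - 1 ∧ d = d') ∨ (c = c' ∧ d' = d + 1) := by omega
    rw [hLM2] at hid
    rcases hδ with ⟨rfl, rfl⟩ | ⟨rfl, rfl⟩
    · rw [fe19_e2 a b (by omega), fe19_e3 c d h3] at hid
      obtain ⟨e1, e2⟩ := fe19_P4 hM' (by omega : a < b) (fe19_red (by omega) (by omega) hid)
      refine ⟨hLM2, e2, rfl, rfl, Or.inl ⟨e1, by omega, rfl⟩⟩
    · rw [fe19_e2 a b (by omega), fe19_e4 c d h3] at hid
      obtain ⟨e1, e2⟩ := fe19_P4 hM' (by omega : a < b) (fe19_red (by omega) (by omega) hid)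
      refine ⟨hLM2, e2, rfl, rfl, Or.inr ⟨e1, by omega, rfl⟩⟩

theorem rows_alg (L M : ℕ) (hM : 1 ≤ M) (hLM : M < L) (a b a' b' c d c' d' : ℤ)
    (h1 : a ≤ b + 1) (h2 : a' ≤ b' + 1) (h3 : c ≤ d + 1) (h4 : c' ≤ d' + 1)
    (ha : |a - a'| ≤ 1) (hb : |b - b'| ≤ 1) (hc : |c - c'| ≤ 1) (hd : |d - d'| ≤ 1)
    (hbot : a = b + 1 → a' = b' + 1 → a = a' ∧ b = b')
    (htop : c = d + 1 → c' = d' + 1 → c = c' ∧ d = d')
    (hid : rowPoly 0 (M - 1) * (rowPoly a b - rowPoly a' b') =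
      rowPoly 0 (L - 1) * (rowPoly c' d' - rowPoly c d)) :
    (a = a' ∧ b = b' ∧ c = c' ∧ d = d') ∨
    (a' = a + 1 ∧ b' = b + 1 ∧ b = a + L - 1 ∧ c' = a ∧ d' = a + M - 1 ∧ c = a + 1 ∧ d = a + M) ∨
    (a = a' + 1 ∧ b = b' + 1 ∧ b' = a' + L - 1 ∧ c = a' ∧ d = a' + M - 1 ∧ c' = a' + 1 ∧
      d' = a' + M) ∨
    ((L : ℤ) = 2 * M ∧ b = a + M ∧ a' = a + 1 ∧ b' = b - 1 ∧
      ((c' = a ∧ c = a + 1 ∧ d = d') ∨ (d' = a ∧ d = a - 1 ∧ c = c'))) ∨
    ((L : ℤ) = 2 * M ∧ b' = a' + M ∧ a = a' + 1 ∧ b = b' - 1 ∧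
      ((c = a' ∧ c' = a' + 1 ∧ d' = d) ∨ (d = a' ∧ d' = a' - 1 ∧ c' = c))) := by
  have hid' : rowPoly 0 (M - 1) * (rowPoly a' b' - rowPoly a b) =
      rowPoly 0 (L - 1) * (rowPoly c d - rowPoly c' d') := by
    have h5 := congrArg (fun q => -q) hid
    rw [← neg_sub (rowPoly a b), ← neg_sub (rowPoly c' d'), mul_neg, mul_neg]
    exact h5
  have ha' := ha
  rw [abs_le] at ha'
  have hε : a' = a + 1 ∨ a = a' + 1 ∨ a = a' := by omega
  rcases hε with hε | hε | hε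
  · rcases fe19_half L M hM hLM a b a' b' c d c' d' h1 h2 h3 h4 hε hb hc hd hbot htop hid with h5 | h5
    · exact Or.inr (Or.inl h5)
    · exact Or.inr (Or.inr (Or.inr (Or.inl h5)))
  · rcases fe19_half L M hM hLM a' b' a b c' d' c d h2 h1 h4 h3 hε (by rw [abs_sub_comm]; exact hb)
      (by rw [abs_sub_comm]; exact hc) (by rw [abs_sub_comm]; exact hd)
      (fun h6 h7 => ⟨(hbot h7 h6).1.symm, (hbot h7 h6).2.symm⟩)
      (fun h6 h7 => ⟨(htop h7 h6).1.symm, (htop h7 h6).2.symm⟩) hid' with h5 | h5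
    · exact Or.inr (Or.inr (Or.inl h5))
    · exact Or.inr (Or.inr (Or.inr (Or.inr h5)))
  · left
    have hM' : (1 : ℤ) ≤ M := by exact_mod_cast hM
    have hL' : (M : ℤ) < L := by exact_mod_cast hLM
    have hdeg := fe19_deg L M a b a' b' c d c' d' h1 h2 h3 h4 hid
    rw [abs_le] at hb hc hd
    subst hε
    obtain ⟨u, hu⟩ : ∃ u, u = (b - a) - (b' - a) := ⟨_, rfl⟩
    obtain ⟨v, hv⟩ : ∃ v, v = (d' - c') - (d - c) := ⟨_, rfl⟩
    rw [← hu, ← hv] at hdeg
    have hv2 : v = -2 ∨ v = -1 ∨ v = 0 ∨ v = 1 ∨ v = 2 := by omega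
    have hu2 : u = 0 ∨ u = 1 ∨ u = -1 := by omega
    have huv : u = 0 ∧ v = 0 := by
      rcases hv2 with rfl | rfl | rfl | rfl | rfl <;> rcases hu2 with rfl | rfl | rfl <;> omega
    have hbb : b = b' := by omega
    subst hbb
    have hδ : (c = c' + 1 ∧ d = d' + 1) ∨ (c = c' ∧ d = d') ∨ (c' = c + 1 ∧ d' = d + 1) := by omega
    rcases hδ with ⟨rfl, rfl⟩ | ⟨rfl, rfl⟩ | ⟨rfl, rfl⟩
    · exfalso
      have hcd : c' < d' + 1 := by
        rcases lt_or_eq_of_le h4 with h5 | h5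
        · exact h5
        · have := htop (by omega) h5
          omega
      rw [fe19_e0 a b 0, fe19_e1 c' d' h4] at hid
      have h5 := fe19_P3 (M := L) (L := M) (by omega) hcd (z := 0)
        (fun n => (fe19_red (by omega) (by omega) hid n).symm)
      exact h5
    · exact ⟨rfl, rfl, rfl, rfl⟩
    · exfalso
      have hcd : c < d + 1 := by
        rcases lt_or_eq_of_le h3 with h5 | h5
        · exact h5
        · have := htop h5 (by omega)
          omega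
      rw [fe19_e0 a b 0, fe19_e1 c d h3] at hid'
      have h5 := fe19_P3 (M := L) (L := M) (by omega) hcd (z := 0)
        (fun n => (fe19_red (by omega) (by omega) hid' n).symm)
      exact h5

end Pool.Agent.Lib.MP_bb0bab_co
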