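import Pool.Agent.Lib.MP_bb0bab_co.FE21

/-!
# FE22 reduction of the frozen statement S11086 to germs
-/

open scoped Pointwise

namespace Pool.Agent.Lib.MP_bb0bab_co

theorem frozen_of_germ
    (hgerm : ∀ (H K : Finset (ℤ × ℤ)) (L M h : ℕ) (xl : ℤ) (αH αK βH βK : ℕ → ℝ) (m : ℕ) (q : ℤ),
      Germ H K L M h xl αH αK βH βK m q → Arises H K) :
    ¬ (∃ K L : Finset (ℤ × ℤ),
      K.Nonempty ∧ L.Nonempty ∧
      (∀ p : ℤ × ℤ,
        ((p.1 : ℝ), (p.2 : ℝ)) ∈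
          convexHull ℝ ((fun q : ℤ × ℤ => ((q.1 : ℝ), (q.2 : ℝ))) '' (K : Set (ℤ × ℤ))) →
        p ∈ K) ∧
      (∀ p : ℤ × ℤ,
        ((p.1 : ℝ), (p.2 : ℝ)) ∈
          convexHull ℝ ((fun q : ℤ × ℤ => ((q.1 : ℝ), (q.2 : ℝ))) '' (L : Set (ℤ × ℤ))) →
        p ∈ L) ∧
      (∀ x : ℤ × ℤ,
        (K.filter (fun p => p - x ∈ K)).card = (L.filter (fun p => p - x ∈ L)).card) ∧
      (¬ ∃ t : ℤ × ℤ,
        L = K.image (fun p => p + t) ∨ L = K.image (fun p => -p + t)) ∧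
      (¬ ∃ A B : Finset (ℤ × ℤ),
        (A + B).card = A.card * B.card ∧
        (A - B).card = A.card * B.card ∧
        K = A + B ∧
        ∃ t : ℤ × ℤ,
          L = (A - B).image (fun p => p + t) ∨ L = (A - B).image (fun p => -p + t))) := by
  rintro ⟨K, L, hK, hL, cK, cL, hc, hnt, hna⟩
  exact hna (front_end hgerm hK hL cK cL hc hnt)

end Pool.Agent.Lib.MP_bb0bab_co
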