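import Pool.Agent.Lib.MP_bb0bab_co.FE09
import Pool.Agent.Lib.MP_bb0bab_co.FE10a

/-!
# FE23 Farey convexity

If the edges of `H` are at least as long as those of `K` for all primitive directions in an open
unimodular cone, then `supp H - supp K` is subadditive on all unimodular pairs of the closed cone.
-/

open scoped Pointwise

namespace Pool.Agent.Lib.MP_bb0bab_co

theorem farey_subadd (F : ℤ × ℤ → ℤ) (B : ℤ)
    (hB : ∀ g₁ g₂ : ℤ × ℤ, 0 ≤ g₁.1 → 0 ≤ g₁.2 → 0 ≤ g₂.1 → 0 ≤ g₂.2 →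
      (det2 g₁ g₂ = 1 ∨ det2 g₁ g₂ = -1) → B < g₁.1 + g₁.2 + g₂.1 + g₂.2 →
      F (g₁ + g₂) ≤ F g₁ + F g₂)
    (h2 : ∀ g₁ g₂ : ℤ × ℤ, 0 ≤ g₁.1 → 0 ≤ g₁.2 → 0 ≤ g₂.1 → 0 ≤ g₂.2 →
      (det2 g₁ g₂ = 1 ∨ det2 g₁ g₂ = -1) →
      ∃ N₀ : ℕ, ∀ N : ℕ, N₀ ≤ N →
        (2 * N + 1) * F (g₁ + g₂) ≤ F (g₁.1 + N * (g₁.1 + g₂.1), g₁.2 + N * (g₁.2 + g₂.2)) +
          F (g₂.1 + N * (g₁.1 + g₂.1), g₂.2 + N * (g₁.2 + g₂.2))) :
    ∀ (n : ℕ) (g₁ g₂ : ℤ × ℤ), 0 ≤ g₁.1 → 0 ≤ g₁.2 → 0 ≤ g₂.1 → 0 ≤ g₂.2 →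
      (det2 g₁ g₂ = 1 ∨ det2 g₁ g₂ = -1) → B + 1 - (g₁.1 + g₁.2 + g₂.1 + g₂.2) ≤ n →
      F (g₁ + g₂) ≤ F g₁ + F g₂ := by
  intro n
  induction n with
  | zero =>
    intro g₁ g₂ a1 a2 b1 b2 hd hn
    exact hB g₁ g₂ a1 a2 b1 b2 hd (by push_cast at hn; omega)
  | succ n ih =>
    intro g₁ g₂ a1 a2 b1 b2 hd hn
    push_cast at hn
    have hdet' : det2 g₂ g₁ = - det2 g₁ g₂ := by unfold det2; ring
    have hd' : det2 g₂ g₁ = 1 ∨ det2 g₂ g₁ = -1 := by
      rw [hdet']; rcases hd with h | h <;> rw [h] <;> simp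
    have s1 := farey_sum_pos a1 a2 hd
    have s2 := farey_sum_pos b1 b2 hd'
    have key : ∀ u : ℤ × ℤ, 0 ≤ u.1 → 0 ≤ u.2 → (det2 u (g₁ + g₂) = 1 ∨ det2 u (g₁ + g₂) = -1) →
        ∀ N : ℕ, F (u.1 + N * (g₁.1 + g₂.1), u.2 + N * (g₁.2 + g₂.2)) ≤ F u + N * F (g₁ + g₂) := by
      intro u u1 u2 hu N
      have s3 := farey_sum_pos u1 u2 hu
      induction N with
      | zero => simp
      | succ N ihN =>
        have n1 : 0 ≤ (N : ℤ) * (g₁.1 + g₂.1) := mul_nonneg (by positivity) (by omega)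
        have n2 : 0 ≤ (N : ℤ) * (g₁.2 + g₂.2) := mul_nonneg (by positivity) (by omega)
        have h3 := ih (u.1 + N * (g₁.1 + g₂.1), u.2 + N * (g₁.2 + g₂.2)) (g₁ + g₂)
          (by change 0 ≤ u.1 + N * (g₁.1 + g₂.1); omega)
          (by change 0 ≤ u.2 + N * (g₁.2 + g₂.2); omega)
          (by change 0 ≤ g₁.1 + g₂.1; omega) (by change 0 ≤ g₁.2 + g₂.2; omega)
          (by
            have : det2 (u.1 + N * (g₁.1 + g₂.1), u.2 + N * (g₁.2 + g₂.2)) (g₁ + g₂) =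
                det2 u (g₁ + g₂) := by
              unfold det2
              simp only [Prod.fst_add, Prod.snd_add]
              ring
            rw [this]; exact hu)
          (by
            simp only [Prod.fst_add, Prod.snd_add]
            omega)
        have e : ((u.1 + N * (g₁.1 + g₂.1), u.2 + N * (g₁.2 + g₂.2)) : ℤ × ℤ) + (g₁ + g₂) =
            (u.1 + ((N + 1 : ℕ) : ℤ) * (g₁.1 + g₂.1), u.2 + ((N + 1 : ℕ) : ℤ) * (g₁.2 + g₂.2)) := by
          ext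
          · simp only [Prod.fst_add]; push_cast; ring
          · simp only [Prod.snd_add]; push_cast; ring
        rw [← e]
        refine h3.trans ?_
        push_cast
        linarith
    obtain ⟨N, hN⟩ := h2 g₁ g₂ a1 a2 b1 b2 hd
    have h3 := hN N le_rfl
    have k1 := key g₁ a1 a2 (by
        have : det2 g₁ (g₁ + g₂) = det2 g₁ g₂ := by
          unfold det2; simp only [Prod.fst_add, Prod.snd_add]; ring
        rw [this]; exact hd) N
    have k2 := key g₂ b1 b2 (by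
        have : det2 g₂ (g₁ + g₂) = det2 g₂ g₁ := by
          unfold det2; simp only [Prod.fst_add, Prod.snd_add]; ring
        rw [this]; exact hd') N
    linarith

/-- `supp H - supp K` is subadditive on the closed quadrant if `H` has the longer edges in the
open quadrant -/
theorem diff_subadd_quadrant {H K : Finset (ℤ × ℤ)} (hH : H.Nonempty) (hK : K.Nonempty)
    (cH : LConv H) (cK : LConv K)
    (he : ∀ g : ℤ × ℤ, 0 < g.1 → 0 < g.2 → Prim g → edge K g ≤ edge H g) (g₁ g₂ : ℤ × ℤ)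
    (h11 : 0 ≤ g₁.1) (h12 : 0 ≤ g₁.2) (h21 : 0 ≤ g₂.1) (h22 : 0 ≤ g₂.2)
    (hdet : det2 g₁ g₂ = 1 ∨ det2 g₁ g₂ = -1) :
    supp H (g₁ + g₂) - supp K (g₁ + g₂) ≤
      (supp H g₁ - supp K g₁) + (supp H g₂ - supp K g₂) := by
  obtain ⟨B₁, hB₁⟩ := exists_diam H
  obtain ⟨B₂, hB₂⟩ := exists_diam K
  refine farey_subadd (fun g => supp H g - supp K g) (max B₁ B₂) ?_ ?_
    (max B₁ B₂ + 1 - (g₁.1 + g₁.2 + g₂.1 + g₂.2)).toNat g₁ g₂ h11 h12 h21 h22 hdet
    (Int.self_le_toNat _)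
  · intro g₁ g₂ h11 h12 h21 h22 hdet hs
    have h1 := deep_cone hH B₁ hB₁ g₁ g₂ h11 h12 h21 h22 hdet
      (lt_of_le_of_lt (le_max_left _ _) hs)
    have h2 := deep_cone hK B₂ hB₂ g₁ g₂ h11 h12 h21 h22 hdet
      (lt_of_le_of_lt (le_max_right _ _) hs)
    rw [h1, h2]
    linarith
  · intro g₁ g₂ h11 h12 h21 h22 hdet
    obtain ⟨N₁, hN₁⟩ := second_diff hH cH g₁ g₂ hdet
    obtain ⟨N₂, hN₂⟩ := second_diff hK cK g₁ g₂ hdet
    have hp := quadrant_sum_pos h11 h12 h21 h22 hdet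
    have he' := he (g₁ + g₂) hp.1 hp.2 (prim_add_of_det hdet)
    refine ⟨max N₁ N₂, fun N hN => ?_⟩
    have a1 := hN₁ N (le_trans (le_max_left _ _) hN)
    have a2 := hN₂ N (le_trans (le_max_right _ _) hN)
    linarith

/-- the same on the unimodular cone spanned by `(a,b)` and `(c,d)`; here for the pairs
`(a,b), n (a,b) + (c,d)` -/
theorem diff_subadd_cone {H K : Finset (ℤ × ℤ)} (hH : H.Nonempty) (hK : K.Nonempty)
    (cH : LConv H) (cK : LConv K) (a b c d : ℤ) (hdet : a * d - b * c = 1 ∨ a * d - b * c = -1)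
    (he : ∀ g : ℤ × ℤ, 0 < g.1 → 0 < g.2 → Prim g →
      edge K (a * g.1 + c * g.2, b * g.1 + d * g.2) ≤
        edge H (a * g.1 + c * g.2, b * g.1 + d * g.2)) (n : ℕ) :
    supp H (a * n + c, b * n + d) - supp K (a * n + c, b * n + d) ≤
      n * (supp H (a, b) - supp K (a, b)) + (supp H (c, d) - supp K (c, d)) := by
  have hH' : (H.image (lin a b c d)).Nonempty := hH.image _
  have hK' : (K.image (lin a b c d)).Nonempty := hK.image _
  have cH' := lconv_lin cH a b c d hdet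
  have cK' := lconv_lin cK a b c d hdet
  have he' : ∀ g : ℤ × ℤ, 0 < g.1 → 0 < g.2 → Prim g →
      edge (K.image (lin a b c d)) g ≤ edge (H.image (lin a b c d)) g := by
    intro g h1 h2 h3
    rw [edge_lin hH a b c d hdet, edge_lin hK a b c d hdet]
    exact he g h1 h2 h3
  induction n with
  | zero => simp
  | succ n ih =>
    have h := diff_subadd_quadrant hH' hK' cH' cK' he' (1, 0) ((n : ℤ), 1) (by norm_num)
      (by norm_num) (by positivity) (by norm_num) (by left; simp [det2])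
    simp only [supp_lin hH, supp_lin hK, Prod.mk_add_mk] at h
    have e1 : a * (1 + (n : ℤ)) + c * (0 + 1) = a * ((n + 1 : ℕ) : ℤ) + c := by push_cast; ring
    have e2 : b * (1 + (n : ℤ)) + d * (0 + 1) = b * ((n + 1 : ℕ) : ℤ) + d := by push_cast; ring
    have e3 : a * 1 + c * 0 = a := by ring
    have e4 : b * 1 + d * 0 = b := by ring
    have e5 : a * (n : ℤ) + c * 1 = a * n + c := by ring
    have e6 : b * (n : ℤ) + d * 1 = b * n + d := by ring
    rw [e1, e2, e3, e4, e5, e6] at h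
    push_cast at h ⊢
    linarith

end Pool.Agent.Lib.MP_bb0bab_co
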