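import Pool.Agent.Lib.MP_bb0bab_co.FE23
import Pool.Agent.Lib.MP_bb0bab_co.FE05

/-!
# FE24 Lemma X (edges): no germ with `m = 2q+1` whose left chain of `K` stays right of the line
`y = 2x` and whose right chain of `H` stays left of it
-/

open scoped Pointwise

namespace Pool.Agent.Lib.MP_bb0bab_co

theorem lemX {H K : Finset (ℤ × ℤ)} {L M h : ℕ} {xl : ℤ} {αH αK βH βK : ℕ → ℝ} {m : ℕ} {q : ℤ}
    (G : Germ H K L M h xl αH αK βH βK m q) (hmq : (m : ℤ) = 2 * q + 1)
    (hK1 : ∀ i : ℕ, i ≤ h → (i : ℤ) ≤ 2 * ⌈αK i⌉)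
    (hK2 : ∀ i : ℕ, i ≤ h → m ≤ i → (i : ℤ) < 2 * ⌈αK i⌉)
    (hH1 : ∀ i : ℕ, i ≤ h → 2 * ⌊βH i⌋ ≤ (i : ℤ)) : False := by
  have hM := G.hM
  have hLM := G.hLM
  have hm := G.hm
  have hmh := G.hmh
  -- rows of the points
  have rowH : ∀ p ∈ H, ∃ i : ℕ, i ≤ h ∧ p.2 = i ∧ ⌈αH i⌉ ≤ p.1 ∧ p.1 ≤ ⌊βH i⌋ + L - 1 := by
    intro p hp
    obtain ⟨r1, r2⟩ := G.rowsH p hp
    obtain ⟨i, hi⟩ := Int.eq_ofNat_of_zero_le r1
    have hih : i ≤ h := by omega
    have := (G.memH p.1 i hih).1 (by rw [← hi]; exact hp)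
    exact ⟨i, hih, hi, this.1, this.2⟩
  have rowK : ∀ p ∈ K, ∃ i : ℕ, i ≤ h ∧ p.2 = i ∧ ⌈αK i⌉ ≤ p.1 ∧ p.1 ≤ ⌊βK i⌋ + L - 1 := by
    intro p hp
    obtain ⟨r1, r2⟩ := G.rowsK p hp
    obtain ⟨i, hi⟩ := Int.eq_ofNat_of_zero_le r1
    have hih : i ≤ h := by omega
    have := (G.memK p.1 i hih).1 (by rw [← hi]; exact hp)
    exact ⟨i, hih, hi, this.1, this.2⟩
  have H00 : ((0 : ℤ), (0 : ℤ)) ∈ H := by
    have := (G.memH 0 0 (Nat.zero_le _)).2 ⟨by rw [G.αH0]; simp, by rw [G.βH0]; simp; omega⟩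
    simpa using this
  have K00 : ((0 : ℤ), (0 : ℤ)) ∈ K := by
    have := (G.memK 0 0 (Nat.zero_le _)).2 ⟨by rw [G.αK0]; simp, by rw [G.βK0]; simp; omega⟩
    simpa using this
  have hH : H.Nonempty := ⟨_, H00⟩
  have hK : K.Nonempty := ⟨_, K00⟩
  -- apex points
  have Hap : (xl, (h : ℤ)) ∈ H := by
    refine (G.memH xl h le_rfl).2 ⟨by rw [G.αHh]; simp, ?_⟩
    rw [G.βHh]
    have : ⌊(xl : ℝ) - ((L : ℝ) - M)⌋ = xl - (L - M) := by
      have e : (xl : ℝ) - ((L : ℝ) - M) = ((xl - (L - M) : ℤ) : ℝ) := by push_cast; ring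
      rw [e, Int.floor_intCast]
    rw [this]
    omega
  have Kap : (xl, (h : ℤ)) ∈ K := by
    refine (G.memK xl h le_rfl).2 ⟨by rw [G.αKh]; simp, ?_⟩
    rw [G.βKh]
    have : ⌊(xl : ℝ) - ((L : ℝ) - M)⌋ = xl - (L - M) := by
      have e : (xl : ℝ) - ((L : ℝ) - M) = ((xl - (L - M) : ℤ) : ℝ) := by push_cast; ring
      rw [e, Int.floor_intCast]
    rw [this]
    omega
  -- increments at most one: `xl - h ≤ αH i - i`
  have incH : ∀ k : ℕ, k ≤ h → (xl : ℝ) - k ≤ αH (h - k) := by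
    intro k
    induction k with
    | zero => intro _; rw [Nat.sub_zero, G.αHh]; simp
    | succ k ih =>
      intro hk
      have h1 := ih (by omega)
      have h2 := (G.αH_inc (h - (k + 1)) (by omega)).2
      have e : h - (k + 1) + 1 = h - k := by omega
      rw [e] at h2
      push_cast
      linarith
  have incK : ∀ k : ℕ, k ≤ h → (xl : ℝ) - k ≤ αK (h - k) := by
    intro k
    induction k with
    | zero => intro _; rw [Nat.sub_zero, G.αKh]; simp
    | succ k ih =>
      intro hk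
      have h1 := ih (by omega)
      have h2 := (G.αK_inc (h - (k + 1)) (by omega)).2
      have e : h - (k + 1) + 1 = h - k := by omega
      rw [e] at h2
      push_cast
      linarith
  have monoK : ∀ i : ℕ, i ≤ h → 0 ≤ αK i := by
    intro i
    induction i with
    | zero => intro _; rw [G.αK0]
    | succ i ih =>
      intro hi
      exact (ih (by omega)).trans (G.αK_inc i (by omega)).1
  -- support in direction (-1,1)
  have s1H : supp H (-1, 1) = h - xl := by
    rw [supp_eq_of Hap]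
    · simp only [ev]; ring
    · intro p hp
      obtain ⟨i, hi, hpi, h1, _⟩ := rowH p hp
      have h2 := incH (h - i) (by omega)
      have e : h - (h - i) = i := by omega
      rw [e] at h2
      have h3 : (xl : ℝ) - ((h - i : ℕ) : ℝ) ≤ p.1 := h2.trans ((Int.le_ceil _).trans (by exact_mod_cast h1))
      have h4 : xl - ((h - i : ℕ) : ℤ) ≤ p.1 := by exact_mod_cast h3
      simp only [ev]
      rw [hpi]
      omega
  have s1K : supp K (-1, 1) = h - xl := by
    rw [supp_eq_of Kap]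
    · simp only [ev]; ring
    · intro p hp
      obtain ⟨i, hi, hpi, h1, _⟩ := rowK p hp
      have h2 := incK (h - i) (by omega)
      have e : h - (h - i) = i := by omega
      rw [e] at h2
      have h3 : (xl : ℝ) - ((h - i : ℕ) : ℝ) ≤ p.1 := h2.trans ((Int.le_ceil _).trans (by exact_mod_cast h1))
      have h4 : xl - ((h - i : ℕ) : ℤ) ≤ p.1 := by exact_mod_cast h3
      simp only [ev]
      rw [hpi]
      omega
  -- edges
  have hedge : ∀ g : ℤ × ℤ, 0 < g.1 → 0 < g.2 → Prim g →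
      edge K ((-2) * g.1 + (-1) * g.2, 1 * g.1 + 1 * g.2) ≤
        edge H ((-2) * g.1 + (-1) * g.2, 1 * g.1 + 1 * g.2) := by
    intro g g1 g2 hg
    have hprim : Prim ((-2) * g.1 + (-1) * g.2, 1 * g.1 + 1 * g.2) := by
      unfold Prim at hg ⊢
      rw [← Int.isCoprime_iff_gcd_eq_one] at hg ⊢
      obtain ⟨u, v, huv⟩ := hg
      exact ⟨-u + v, -u + 2 * v, by linear_combination huv⟩
    obtain ⟨he0, s, hs⟩ := face_eq hH G.convH hprim
    rcases edge_pair hH hK G.convH G.convK G.hcov hprim with h1 | h1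
    · rw [h1.1]
    · rw [← h1.2]
      refine le_trans ?_ he0
      -- the right face of `H` is one point
      have hface : face H (-((-2) * g.1 + (-1) * g.2, 1 * g.1 + 1 * g.2)) ⊆ {((L : ℤ) - 1, 0)} := by
        intro p hp
        have hpH := (Finset.mem_filter.1 hp).1
        have hps := (Finset.mem_filter.1 hp).2
        have HL : ((L : ℤ) - 1, (0 : ℤ)) ∈ H := by
          have := (G.memH ((L : ℤ) - 1) 0 (Nat.zero_le _)).2
            ⟨by rw [G.αH0]; simp; omega, by rw [G.βH0]; simp⟩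
          simpa using this
        have h2 := ev_le_supp HL (-((-2) * g.1 + (-1) * g.2, 1 * g.1 + 1 * g.2))
        rw [← hps] at h2
        obtain ⟨i, hi, hpi, h3, h4⟩ := rowH p hpH
        have h5 := hH1 i hi
        simp only [ev, Prod.neg_mk] at h2
        rw [hpi] at h2
        have h6 : (2 * g.1 + g.2) * (p.1 - (L - 1)) ≥ (g.1 + g.2) * i := by linarith
        have h7 : 2 * (p.1 - (L - 1)) ≤ i := by linarith
        have h8 : (2 * g.1 + g.2) * (2 * (p.1 - (L - 1))) ≤ (2 * g.1 + g.2) * i :=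
          mul_le_mul_of_nonneg_left h7 (by linarith)
        have h9 : g.2 * (i : ℤ) ≤ 0 := by linarith
        have h10 : (i : ℤ) = 0 := by
          have hi0 : (0 : ℤ) ≤ i := by positivity
          nlinarith
        have h11 : i = 0 := by exact_mod_cast h10
        subst h11
        rw [G.βH0] at h4
        simp at h4
        have h12 : p.1 = L - 1 := by
          rw [h10] at h6
          have : 0 ≤ p.1 - (L - 1) := by
            by_contra hcon
            have : (2 * g.1 + g.2) * (p.1 - (L - 1)) < 0 := by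
              apply mul_neg_of_pos_of_neg <;> linarith
            linarith
          linarith
        rw [Finset.mem_singleton]
        ext
        · exact h12
        · rw [hpi]; simp
      have hc := Finset.card_le_card hface
      simp only [Finset.card_singleton] at hc
      unfold edge
      omega
  -- Farey convexity
  have hF := diff_subadd_cone hH hK G.convH G.convK (-2) 1 (-1) 1 (by right; norm_num) hedge h
  rw [s1H, s1K] at hF
  have sK : supp K (-2 * (h : ℤ) + -1, 1 * (h : ℤ) + 1) ≤ q := by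
    obtain ⟨p, hp, hpe⟩ := exists_supp hK (-2 * (h : ℤ) + -1, 1 * (h : ℤ) + 1)
    rw [← hpe]
    obtain ⟨i, hi, hpi, h1, _⟩ := rowK p hp
    have h2 := hK1 i hi
    have h0 : 0 ≤ p.1 := by
      have : (0 : ℝ) ≤ p.1 := (monoK i hi).trans ((Int.le_ceil _).trans (by exact_mod_cast h1))
      exact_mod_cast this
    simp only [ev]
    rw [hpi]
    by_cases hc : (i : ℤ) < 2 * p.1
    · have h3 : (h : ℤ) * (2 * p.1 - i) ≥ h * 1 := mul_le_mul_of_nonneg_left (by omega) (by positivity)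
      have : (i : ℤ) ≤ h := by exact_mod_cast hi
      nlinarith [G.hm]
    · have h4 : (i : ℤ) = 2 * p.1 := by omega
      have h5 : ¬ m ≤ i := fun hmi => by have := hK2 i hi hmi; omega
      rw [h4]
      have : (-2 * (h : ℤ) + -1) * p.1 + (1 * h + 1) * (2 * p.1) = p.1 := by ring
      rw [this]
      omega
  have sK2 : 0 ≤ supp K (-2, 1) := by
    have := ev_le_supp K00 (-2, 1)
    simpa [ev] using this
  obtain ⟨p, hp, hpe⟩ := exists_supp hH (-2, 1)
  obtain ⟨i, hi, hpi, h1, _⟩ := rowH p hp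
  have hpe' : -2 * p.1 + i = supp H (-2, 1) := by
    rw [← hpe]; simp only [ev]; rw [hpi]; ring
  have hsH := ev_le_supp hp (-2 * (h : ℤ) + -1, 1 * (h : ℤ) + 1)
  simp only [ev] at hsH
  rw [hpi] at hsH
  -- row m
  have Hm : (q, (m : ℤ)) ∈ H := by
    refine (G.memH q m (by omega)).2 ⟨by rw [G.lowH.1], by rw [G.lowH.2]; omega⟩
  have hδ := ev_le_supp Hm (-2, 1)
  simp only [ev] at hδ
  have hh0 : (0 : ℤ) ≤ h := by positivity
  have key : (h : ℤ) * supp H (-2, 1) + (i - p.1) - q ≤ h * supp H (-2, 1) := by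
    have e1 : (-2 * (h : ℤ) + -1) * p.1 + (1 * h + 1) * i = h * supp H (-2, 1) + (i - p.1) := by
      rw [← hpe']; ring
    rw [e1] at hsH
    have e2 : (h : ℤ) * supp K (-2, 1) ≥ 0 := mul_nonneg hh0 sK2
    nlinarith
  have hi2 : (i : ℤ) < m := by omega
  have hi3 : i < m := by exact_mod_cast hi2
  have h5 := (G.low i hi3).1
  have h6 := hK1 i hi
  omega

end Pool.Agent.Lib.MP_bb0bab_co
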