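import Pool.Agent.Lib.MP_bb0bab_co.SX06

/-!
# SX08 (10.2) N ≥ 2, V_1 = 0: rows m+j, j < N, and row m+N

PROOF. `zrow`, induction on `j`; `j = 0`: row `m` is T1, full, value `q`.  Step: `s = m+j`, `XX s = 0` (`X_lowN`), i.e. `R = 0`, mass `u lam_s = L v mu_s`.
(W m) at `j` (row `j` full, value `V = a j`, T0): `a'_s = q+V+e1`, `b_s = q+V+e2`, so `lam_s = L + e2 - e1 + u`.
Row `s-1` T0 (`t = t' = 0`, `u, v ∈ {-1,0,1}`, `lam_s ≥ L - 2 ≥ 1`): `v = -1`: `mu_s ≥ 2` (`top13`), so `u = -1` and the identity is `H_s = [L] G_s` (cancel `- T (-1)`): `row_mul`: `mu_s = 1`, no.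
  `v = 0`: `u lam_s = 0`, `u = 0`: T0.  `v = 1`: `mu_s ≥ 1` (`mu_T1`), so `u = 1`, `H_s = [L] G_s`, `row_mul`: full T1.
Row `s-1` T1, full with value `W` (`t = t' = 1`, `u, v ∈ {0,1,2}`): `v = 2`: `c_s = d_s = W`, `c'_s = W + 2`: `lH s > W+1 > rK s`, against `Psi_pos`.
  `u = 2`: `a'_s = W+2`, `aK s > W+1`; but `aK s ≤ aK 1 + (rK (s-1) - rK 0)` (`W_a'` with `i = 1`, `k = 0`, `l = s-1`), `aK 1 ≤ a' 1 = a 1 = 0`, `rK (s-1) < d (s-1) + 1 = W+1`.
  `u, v ∈ {0,1}`: `lam_s ≥ L - 1 > 0`: `v = 0` gives `u = 0`: T0; `v = 1`: `mu_s ≥ 1` gives `u = 1`, `H_s = [L] G_s`: full T1.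
Value `W'` of a full T1 row `s`: `W' + 1 = a'_s ≤ q + V + 1`, `W' = b_s ≥ q + V`.
`rowN`: `s = m+N`, `XX s = PP * kap N` (`X_atN`), `kap N = RH N` (`kap_emp`), `R = T q * RH N`, mass `u lam_s - L v mu_s = lam_N`, `lam_N ≥ L-1`; (W m): `lam_s = lam_N+e2-e1+u`, `mu_s = e4-e3+v`
(`c'_s = q+c_N+e3`, `d_s = q+d_N+e4`, `c_N = d_N+1`).  Row `s-1` T1 full: `u = 2`, `v = 2` impossible as above.  Row `s-1` T0: `v = -1`: `mu_s ≤ 0` against `top13`; `u = -1`: mass negative.
So `u, v ∈ {0,1}`: `u = 0`: mass `≤ 0` no (`mu_s ≥ 0`).  `u = 1, v = 1`: `e2-e1+1 = L mu_s`, `mu_s ≥ 1` (`mu_T1`): no.  `u = 1, v = 0`: `mu_s ≥ 1` (`mu_T0`): `e4 = 1, e3 = 0`; `lam_s = lam_N`: `e1 = 1, e2 = 0`: Reg N.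
`hhN`: `no_overlap'` with `y = m+N`, `z = m+1`: `lam y = lam_N ≥ L-1 ≥ 2`; `j < m`: T0, `mu_le`; `j = m`: length 1.  It gives `(m+N)+(m+1) ≤ h`.
-/

namespace Pool.Agent.Lib.MP_bb0bab_co

open LaurentPolynomial

namespace Cd.S10

variable {C : Cd} {N : ℕ} (S : C.S10 N) (hL : 3 ≤ C.L)

include S hL

theorem sx08_mul {s : ℕ} (h1 : 1 ≤ C.lam s) (h2 : 1 ≤ C.mu s)
    (h : C.RH s = br C.L * C.RG s) : C.c s = C.a s ∧ C.d s = C.a s ∧ C.b s = C.a s := by
  have hM := S.M1
  unfold Cd.lam at h1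
  unfold Cd.mu at h2
  unfold Cd.RH Cd.RG at h
  obtain ⟨e1, e2, e3⟩ := row_mul (L := C.L) (by omega) (by omega) (by omega) h
  refine ⟨e1, ?_, ?_⟩ <;> omega

omit S hL in
theorem sx08_zero {s : ℕ} {u v : ℤ}
    (h : brz u * C.RH s - br C.L * (brz v * C.RG s) = 0) (huv : u = v) (hb : brz v ≠ 0) :
    C.RH s = br C.L * C.RG s := by
  rw [huv] at h
  have h2 : brz v * (C.RH s - br C.L * C.RG s) = 0 := by
    rw [← h]
    ring
  rcases mul_eq_zero.1 h2 with h3 | h3
  · exact absurd h3 hb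
  · exact sub_eq_zero.1 h3

omit hL in
/-- above a full T1 row the shifts are at most one -/
theorem sx08_two (hN2 : 2 ≤ N) (h1 : C.a 1 = 0) {s : ℕ} (hs : s + 1 ≤ C.h)
    (hT : C.T1 s) (hf : C.Full s) {u v : ℤ}
    (ha : C.a' (s + 1) = C.a (s + 1) + u) (hc : C.c' (s + 1) = C.c (s + 1) + v)
    (hd : C.d' (s + 1) = C.d (s + 1) + v) : u ≠ 2 ∧ v ≠ 2 := by
  have hC := S.ok
  obtain ⟨ta, tb, tc, td⟩ := hT
  obtain ⟨fb, fc, fd⟩ := hf
  have Nm := S.Nm
  constructor
  · intro hu
    have l1 := hC.a_let (i := s) (by omega)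
    have l2 := hC.a'_let (i := s) (by omega)
    have hv1 : C.a' (s + 1) = C.a s + 2 := by omega
    have w1 := hC.W_a' (i := 1) (k := 0) (l := s) (by omega)
    rw [show 1 + s = s + 1 by omega, Nat.zero_add, hC.top0.2.1] at w1
    have w2 := C.a'_lt (s + 1)
    have w3 := C.aK_le 1
    have w4 := C.rK_lt s
    have t1 := (hC.low 1 (by omega)).1
    rw [hv1] at w2
    rw [t1, h1] at w3
    rw [fd] at w4
    push_cast at w2 w3
    linarith
  · intro hv
    have l1 := hC.c_let (i := s) (by omega)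
    have l2 := hC.c'_let (i := s) (by omega)
    have l3 := hC.d_let (i := s) (by omega)
    have l4 := hC.d'_let (i := s) (by omega)
    have hv1 : C.c' (s + 1) = C.a s + 2 := by omega
    have hv2 : C.d (s + 1) = C.a s := by omega
    have p := hC.Psi_pos (j := s + 1) (by omega) hs
    have w2 := C.c'_lt (s + 1)
    have w3 := C.rK_lt (s + 1)
    rw [hv1] at w2
    rw [hv2] at w3
    push_cast at w2
    linarith

theorem zrow (hN2 : 2 ≤ N) (h1 : C.a 1 = 0) {j : ℕ} (hj : j < N) :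
    C.T0 (C.m + j) ∨ (C.T1 (C.m + j) ∧ C.Full (C.m + j) ∧ C.a (C.m + j) = C.q + C.a j) := by
  have hC := S.ok
  have hM := S.M1
  have hNm := S.Nm
  have hmh := hC.hmh
  induction j with
  | zero =>
    right
    have hz := hC.zero
    have e1 := hC.am
    have e2 := hC.bm
    have e3 := hC.cm
    have e4 := hC.dm
    have e5 := hC.am'
    have e6 := hC.bm'
    have e7 := hC.cm'
    have e8 := hC.dm'
    rw [Nat.add_zero]
    refine ⟨⟨?_, ?_, ?_, ?_⟩, ⟨?_, ?_, ?_⟩, ?_⟩ <;> omega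
  | succ j ih =>
    have ih' := ih (by omega)
    have hX := hC.X_lowN hM S.ev hNm hj
    have hX' : C.XX (C.m + j + 1) = (T 1 - 1) * 0 := by
      rw [mul_zero]
      exact hX
    have hlow := hC.low (j + 1) (by omega)
    have hfull := S.ev.full (j + 1) hj
    obtain ⟨fb, fc, fd⟩ := hfull
    have w1 := hC.win_a' (i := j + 1) (by omega)
    have w2 := hC.win_b (i := j + 1) (by omega)
    rw [show j + 1 + C.m = C.m + j + 1 by omega] at w1 w2
    rw [hlow.1] at w1
    rw [fb] at w2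
    rw [show C.m + (j + 1) = C.m + j + 1 by omega]
    have hs : C.m + j + 1 ≤ C.h := by omega
    have key : ∀ u v : ℤ, -1 ≤ u → u ≤ 1 → 0 ≤ v → v ≤ 1 →
        C.a' (C.m + j + 1) = C.a (C.m + j + 1) + u → C.b' (C.m + j + 1) = C.b (C.m + j + 1) + u →
        C.c' (C.m + j + 1) = C.c (C.m + j + 1) + v → C.d' (C.m + j + 1) = C.d (C.m + j + 1) + v →
        brz u * C.RH (C.m + j + 1) - br C.L * (brz v * C.RG (C.m + j + 1)) = 0 →
        u * C.lam (C.m + j + 1) - C.L * (v * C.mu (C.m + j + 1)) = 0 →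
        C.T0 (C.m + j + 1) ∨ (C.T1 (C.m + j + 1) ∧ C.Full (C.m + j + 1) ∧
          C.a (C.m + j + 1) = C.q + C.a (j + 1)) := by
      intro u v hu1 hu2 hv1 hv2 ea eb ec ed hid hmass
      have hlam : 1 ≤ C.lam (C.m + j + 1) := by
        unfold Cd.lam
        omega
      have hv : v = 0 ∨ v = 1 := by omega
      rcases hv with rfl | rfl
      · left
        have hu : u = 0 := by
          rw [zero_mul, mul_zero, sub_zero] at hmass
          rcases mul_eq_zero.1 hmass with h | h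
          · exact h
          · omega
        subst hu
        refine ⟨?_, ?_, ?_, ?_⟩ <;> omega
      · right
        have hmu : 1 ≤ C.mu (C.m + j + 1) := by
          have := hC.mu_T1 (by omega) hs ec
          unfold Cd.mu
          omega
        have hu : u = 1 := by
          have : u = -1 ∨ u = 0 ∨ u = 1 := by omega
          have hL' : (3 : ℤ) ≤ C.L := by exact_mod_cast hL
          rcases this with rfl | rfl | rfl
          · exfalso
            nlinarith
          · exfalso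
            nlinarith
          · rfl
        subst hu
        have hid' := sx08_zero hid rfl (by rw [brz_one]; exact one_ne_zero)
        obtain ⟨g1, g2, g3⟩ := S.sx08_mul hL hlam hmu hid'
        refine ⟨⟨?_, ?_, ?_, ?_⟩, ⟨?_, ?_, ?_⟩, ?_⟩ <;> omega
    rcases ih' with h0 | ⟨hT1, hF, hval⟩
    · obtain ⟨u, v, b1, b2, b3, b4, ea, eb, ec, ed, hid, hmass⟩ :=
        hC.row_next hM hL (s := C.m + j) hs (t := 0) (t' := 0) (by rw [h0.1, add_zero])
          (by rw [h0.2.1, add_zero]) (by rw [h0.2.2.1, add_zero]) (by rw [h0.2.2.2, add_zero]) hX'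
      rw [map_zero] at hmass
      by_cases hv : v = -1
      · exfalso
        have hmu := hC.top13 (by omega) hs (by omega)
        have hlam : 1 ≤ C.lam (C.m + j + 1) := by
          unfold Cd.lam
          omega
        have hu : u = -1 := by
          have : u = -1 ∨ u = 0 ∨ u = 1 := by omega
          have hL' : (3 : ℤ) ≤ C.L := by exact_mod_cast hL
          rw [hM] at hmu
          push_cast at hmu
          subst hv
          rcases this with rfl | rfl | rfl
          · rfl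
          · exfalso
            nlinarith
          · exfalso
            nlinarith
        have hne : brz (-1) ≠ 0 := by
          intro h
          rw [brz_neg_one, neg_eq_zero] at h
          have h2 : (T (-1) * T 1 : LaurentPolynomial ℤ) = 1 := by
            rw [← T_add, show (-1 : ℤ) + 1 = 0 by norm_num, T_zero]
          rw [h, zero_mul] at h2
          exact zero_ne_one h2
        have hid' := sx08_zero hid (hu.trans hv.symm) (by rw [hv]; exact hne)
        obtain ⟨g1, g2, g3⟩ := S.sx08_mul hL hlam (by omega) hid'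
        unfold Cd.mu at hmu
        omega
      · exact key u v (by omega) (by omega) (by omega) (by omega) ea eb ec ed hid hmass
    · obtain ⟨ta, tb, tc, td⟩ := hT1
      obtain ⟨u, v, b1, b2, b3, b4, ea, eb, ec, ed, hid, hmass⟩ :=
        hC.row_next hM hL (s := C.m + j) hs (t := 1) (t' := 1) ta tb tc td hX'
      rw [map_zero] at hmass
      obtain ⟨n1, n2⟩ := S.sx08_two hN2 h1 hs ⟨ta, tb, tc, td⟩ hF ea ec ed
      exact key u v (by omega) (by omega) (by omega) (by omega) ea eb ec ed hid hmass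

theorem rowN (hN2 : 2 ≤ N) (h1 : C.a 1 = 0) : C.Reg N := by
  have hC := S.ok
  have hM := S.M1
  have hNm := S.Nm
  have hmh := hC.hmh
  have hemp := S.emp
  obtain ⟨k, rfl⟩ : ∃ k, N = k + 1 := ⟨N - 1, by omega⟩
  have hX := hC.X_atN hM S.ev hNm
  have hs : C.m + k + 1 ≤ C.h := by omega
  have hX' : C.XX (C.m + k + 1) = (T 1 - 1) * (T C.q * C.RH (k + 1)) := by
    rw [show C.m + k + 1 = C.m + (k + 1) by omega, hX, hC.kap_emp hM (by omega)]
    unfold Cd.PP
    ring
  have hlow := hC.low (k + 1) (by omega)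
  have w1 := hC.win_a' (i := k + 1) (by omega)
  have w2 := hC.win_b (i := k + 1) (by omega)
  have w3 := hC.win_c' (i := k + 1) (by omega)
  have w4 := hC.win_d (i := k + 1) (by omega)
  rw [show k + 1 + C.m = C.m + k + 1 by omega] at w1 w2 w3 w4
  rw [hlow.1] at w1
  rw [hlow.2.2.1] at w3
  have hev : ev1 (T C.q * C.RH (k + 1)) = C.lam (k + 1) := by
    have hn := hC.lam_nn (i := k + 1) (by omega)
    unfold Cd.lam at hn
    unfold Cd.RH Cd.lam
    rw [map_mul, ev1_T, one_mul, ev1_row (by omega)]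
    ring
  have hlamN := hC.lam_near hNm
  have key : ∀ u v : ℤ, -1 ≤ u → u ≤ 1 → -1 ≤ v → v ≤ 1 →
        C.a' (C.m + k + 1) = C.a (C.m + k + 1) + u → C.b' (C.m + k + 1) = C.b (C.m + k + 1) + u →
        C.c' (C.m + k + 1) = C.c (C.m + k + 1) + v → C.d' (C.m + k + 1) = C.d (C.m + k + 1) + v →
        u * C.lam (C.m + k + 1) - C.L * (v * C.mu (C.m + k + 1)) = C.lam (k + 1) →
        C.Reg (k + 1) := by
    intro u v hu1 hu2 hv1 hv2 ea eb ec ed hmass
    have hlam : C.lam (C.m + k + 1) = C.b (C.m + k + 1) + C.L - C.a (C.m + k + 1) := rfl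
    have hlam2 : C.lam (k + 1) = C.b (k + 1) + C.L - C.a (k + 1) := rfl
    have hmu : C.mu (C.m + k + 1) = C.d (C.m + k + 1) + C.M - C.c (C.m + k + 1) := rfl
    have n1 := hC.lam_nn hs
    have n2 := hC.mu_nn hs
    have hL' : (3 : ℤ) ≤ C.L := by exact_mod_cast hL
    have hv : v = -1 ∨ v = 0 ∨ v = 1 := by omega
    have hu : u = -1 ∨ u = 0 ∨ u = 1 := by omega
    rcases hv with rfl | rfl | rfl
    · exfalso
      have h13 := hC.top13 (by omega) hs (by omega)
      omega
    · have g1 := hC.mu_T0 (by omega) hs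
      rcases hu with rfl | rfl | rfl
      · exfalso
        simp only [zero_mul, mul_zero, sub_zero] at hmass
        omega
      · exfalso
        simp only [zero_mul, mul_zero, sub_zero] at hmass
        omega
      · simp only [zero_mul, mul_zero, sub_zero, one_mul] at hmass
        have r1 : C.a (C.m + (k + 1)) = C.a (C.m + k + 1) := rfl
        refine ⟨?_, ?_, ?_, ?_, ?_, ?_, ?_, ?_⟩ <;> rw [show C.m + (k + 1) = C.m + k + 1 by omega] <;> omega
    · have g1 := hC.mu_T1 (by omega) hs ec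
      exfalso
      have g2 : 1 ≤ C.mu (C.m + k + 1) := by omega
      rcases hu with rfl | rfl | rfl
      · nlinarith
      · nlinarith
      · have g3 : C.lam (C.m + k + 1) ≤ C.lam (k + 1) + 2 := by omega
        nlinarith
  rcases S.zrow hL hN2 h1 (j := k) (by omega) with h0 | ⟨hT1, hF, hval⟩
  · obtain ⟨u, v, b1, b2, b3, b4, ea, eb, ec, ed, hid, hmass⟩ :=
      hC.row_next hM hL (s := C.m + k) hs (t := 0) (t' := 0) (by rw [h0.1, add_zero])
        (by rw [h0.2.1, add_zero]) (by rw [h0.2.2.1, add_zero]) (by rw [h0.2.2.2, add_zero]) hX'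
    rw [hev] at hmass
    exact key u v (by omega) (by omega) (by omega) (by omega) ea eb ec ed hmass
  · obtain ⟨ta, tb, tc, td⟩ := hT1
    obtain ⟨u, v, b1, b2, b3, b4, ea, eb, ec, ed, hid, hmass⟩ :=
      hC.row_next hM hL (s := C.m + k) hs (t := 1) (t' := 1) ta tb tc td hX'
    rw [hev] at hmass
    obtain ⟨n1, n2⟩ := S.sx08_two hN2 h1 hs ⟨ta, tb, tc, td⟩ hF ea ec ed
    exact key u v (by omega) (by omega) (by omega) (by omega) ea eb ec ed hmass

theorem hhN (hN2 : 2 ≤ N) (h1 : C.a 1 = 0) : 2 * C.m + N + 1 ≤ C.h := by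
  have hC := S.ok
  have hM := S.M1
  have hNm := S.Nm
  have hmh := hC.hmh
  have hR := S.rowN hL hN2 h1
  have hlamN := hC.lam_near hNm
  have hlam2 : C.lam N = C.b N + C.L - C.a N := rfl
  have hlam : C.lam (C.m + N) = C.lam N := by
    unfold Cd.lam
    rw [hR.ha, hR.hb]
    ring
  have h := hC.no_overlap' (y := C.m + N) (z := C.m + 1) (by omega) (by
    intro j hj
    rcases Nat.lt_succ_iff_lt_or_eq.1 hj with hj | hj
    · have t := hC.low j hj
      have h3 := hC.mu_le hj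
      unfold Cd.mu at h3
      rw [t.2.2.1, t.2.2.2]
      omega
    · rw [hj, hC.dm', hC.cm']
      omega)
  omega

theorem to102 (hN2 : 2 ≤ N) (h1 : C.a 1 = 0) : C.S102 N where
  s := S
  N2 := hN2
  h1 := h1
  exJ := exists_J S.ok S.M1 hL
  zrow := fun _ hj => S.zrow hL hN2 h1 hj
  rowN := S.rowN hL hN2 h1
  hh := S.hhN hL hN2 h1

end Cd.S10

end Pool.Agent.Lib.MP_bb0bab_co
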