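import Pool.Agent.Lib.MP_bb0bab_co.SX09

/-!
# SX10 (10.2) N ≥ 2, V_1 = 0: STEP 4, equation at row m+N+1
-/

namespace Pool.Agent.Lib.MP_bb0bab_co

open LaurentPolynomial

namespace Cd.S102

variable {C : Cd} {N : ℕ} (S : C.S102 N)

include S

theorem X_next (hm : N + 1 < C.m) :
    C.XX (C.m + N + 1) = (T 1 - 1) * (T C.q * (C.kap (N + 1) - C.RH N)) := by
  have hC := S.s.ok
  have hM := S.s.M1
  have hE := S.s.ev
  have hNm := S.s.Nm
  have hN2 := S.N2
  have hh := S.hh
  have hkap : ∀ i < N, C.kap i = 0 := fun i hi => hC.kap_full hM (hE.full i hi)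
  have hX : ∀ i < N + 1, C.XX (C.m + i) = C.PP * C.kap i := by
    intro i hi
    rcases Nat.lt_succ_iff_lt_or_eq.1 hi with h | rfl
    · rw [hkap i h, mul_zero]
      exact hC.X_lowN hM hE hNm h
    · exact hC.X_atN hM hE hNm
  have h1 := hC.X_step hM (n := N + 1) (by omega) hX
  have e0 : C.eps 0 = 0 := (hC.reg_X hM (i := 0) (by omega) (hC.reg_zero hM)).2
  obtain ⟨t0, ta, -⟩ := S.step1
  have e1 : C.eps 1 = - C.PP := by
    have h2 := (hC.XX_T0 hM t0).2
    have h3 := hC.RG_full hM (hE.full 1 (by omega))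
    rw [S.h1, T_zero] at h3
    unfold Cd.eps
    rw [h2, h3]
    ring
  have hk : C.kap N = C.RH N := hC.kap_emp hM (by have := S.s.emp; omega)
  obtain ⟨N', rfl⟩ : ∃ N', N = N' + 1 := ⟨N - 1, by omega⟩
  rw [Finset.sum_range_succ, Finset.sum_range_succ, Finset.sum_eq_zero] at h1
  · have i1 : N' + 1 + 1 - 1 - (N' + 1) = 0 := by omega
    have i2 : N' + 1 + 1 - 1 - N' = 1 := by omega
    rw [i1, i2, e0, e1, hk] at h1
    have i3 : C.m + (N' + 1 + 1) = C.m + (N' + 1) + 1 := by omega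
    rw [i3] at h1
    rw [h1]
    unfold Cd.PP
    ring
  · intro i hi
    rw [hkap (i + 1) (by have := Finset.mem_range.1 hi; omega), zero_mul]

omit S in
/-- the finite part of `step4`; index `1` for row `N + 1`, words of row `m+N+1` relative to `q` -/
theorem step4_fin {L A aN a1 b1 d1 a b c d a' b' c' d' u v : ℤ} (hL : 3 ≤ L)
    (haN : A ≤ aN ∧ aN ≤ A + 1)
    (ha1 : aN ≤ a1 ∧ a1 ≤ aN + 1) (hb1 : A + 1 ≤ b1 ∧ b1 ≤ A + 2) (hd1 : d1 = A ∨ d1 = A + 1)
    (la : aN ≤ a ∧ a ≤ aN + 1) (lb : A + 1 ≤ b ∧ b ≤ A + 2) (lc : A + 1 ≤ c ∧ c ≤ A + 2)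
    (ld : A + 1 ≤ d ∧ d ≤ A + 2) (la' : aN + 1 ≤ a' ∧ a' ≤ aN + 2)
    (lb' : A + 2 ≤ b' ∧ b' ≤ A + 3) (lc' : A + 1 ≤ c' ∧ c' ≤ A + 2)
    (ld' : A + 1 ≤ d' ∧ d' ≤ A + 2) (wa' : a1 ≤ a' ∧ a' ≤ a1 + 1) (wb : b1 ≤ b ∧ b ≤ b1 + 1)
    (wd : d1 ≤ d ∧ d ≤ d1 + 1) (u0 : 0 ≤ u) (u2 : u ≤ 2) (v1 : -1 ≤ v) (v2 : v ≤ 1)
    (ea : a' = a + u) (eb : b' = b + u) (ec : c' = c + v) (ed : d' = d + v)
    (h13 : d' = d - 1 → 2 ≤ d + 1 - c) (h0a : aN ≤ d1)
    (hmass : u * (b + L - a) - L * (v * (d + 1 - c)) =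
      (b1 + L - a1) - L * (d1 + 1 - (A + 1)) - (A + 1 + L - aN)) :
    a = aN + 1 ∧ a' = aN + 1 ∧ b = A + 2 ∧ (aN = A ∨ (aN = A + 1 ∧ d = A + 1)) := by
  have hv : v ≠ -1 := by
    rintro rfl
    have := h13 (by omega)
    omega
  have hu : u = 0 := by
    have hu3 : u = 0 ∨ u = 1 ∨ u = 2 := by omega
    have hv3 : v = 0 ∨ v = 1 := by omega
    rcases hv3 with rfl | rfl
    · rcases hd1 with h | h
      · rw [h] at hmass
        rcases hu3 with rfl | rfl | rfl
        · rfl
        · exfalso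
          have e : (b + L - a) = (b1 - a1) - (A + 1 - aN) := by linear_combination hmass
          omega
        · exfalso
          have e : 2 * (b + L - a) = (b1 - a1) - (A + 1 - aN) := by linear_combination hmass
          omega
      · rw [h] at hmass
        rcases hu3 with rfl | rfl | rfl
        · rfl
        · exfalso
          have e : (b + L - a) = (b1 - a1) - (A + 1 - aN) - L := by linear_combination hmass
          omega
        · exfalso
          have e : 2 * (b + L - a) = (b1 - a1) - (A + 1 - aN) - L := by linear_combination hmass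
          omega
    · have hc : c = A + 1 := by omega
      have hd : d = A + 1 := by omega
      rw [hc, hd] at hmass
      rcases hd1 with h | h
      · rw [h] at hmass
        rcases hu3 with rfl | rfl | rfl
        · rfl
        · exfalso
          have e : (b + L - a) = (b1 - a1) - (A + 1 - aN) + L := by linear_combination hmass
          omega
        · exfalso
          have e : 2 * (b + L - a) = (b1 - a1) - (A + 1 - aN) + L := by linear_combination hmass
          omega
      · rw [h] at hmass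
        rcases hu3 with rfl | rfl | rfl
        · rfl
        · exfalso
          have e : (b + L - a) = (b1 - a1) - (A + 1 - aN) := by linear_combination hmass
          omega
        · exfalso
          have e : 2 * (b + L - a) = (b1 - a1) - (A + 1 - aN) := by linear_combination hmass
          omega
  subst hu
  refine ⟨by omega, by omega, by omega, ?_⟩
  have hv3 : v = 0 ∨ v = 1 := by omega
  rcases hv3 with rfl | rfl
  · left
    rcases hd1 with h | h
    · omega
    · exfalso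
      rw [h] at hmass
      have e : 0 = (b1 - a1) - (A + 1 - aN) - L := by linear_combination hmass
      omega
  · omega

theorem step4 (hL : 3 ≤ C.L) : C.Step4 N := by
  have hC := S.s.ok
  have hM := S.s.M1
  have hE := S.s.ev
  have hNm := S.s.Nm
  have hN2 := S.N2
  have hh := S.hh
  obtain ⟨hm1, c1⟩ := S.step3
  have s2 := S.step2
  obtain ⟨b1, b2, b3, b4, b5, b6, b7, b8, b9, b10⟩ := S.s.basic
  replace b3 := Ok.sx05_le b3
  replace b4 := Ok.sx05_le b4
  obtain ⟨r1, r2, r3, r4, r5, r6, r7, r8⟩ := S.rowN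
  rw [b1] at r3 r4
  rw [b2] at r7 r8
  rw [s2] at r2 r6
  have hs : C.m + N + 1 ≤ C.h := by omega
  have hs' : C.m + N < C.h := by omega
  obtain ⟨u, v, u1, u2, v1, v2, ea, eb, ec, ed, -, hmass⟩ := hC.row_next hM hL hs (t := 1) (t' := 0)
    (by rw [r1, r5]) (by rw [r2, r6]) (by rw [r3, r7]; ring) (by rw [r4, r8]; ring)
    (S.X_next hm1)
  have ev : ev1 (T C.q * (C.kap (N + 1) - C.RH N)) =
      C.lam (N + 1) - C.L * C.mu (N + 1) - C.lam N := by
    rw [mul_sub, map_sub, hC.sx05_ev hM (by omega), map_mul, ev1_T, hC.ev1_RH hM (by omega), one_mul]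
  rw [ev] at hmass
  have lN : N < C.h := by omega
  have l1 := Ok.sx05_le (hC.a_let lN)
  have l2 := Ok.sx05_le (hC.b_let lN)
  have l3 := Ok.sx05_le (hC.d_let lN)
  have k1 := Ok.sx05_le (hC.a_let hs')
  have k2 := Ok.sx05_le (hC.b_let hs')
  have k3 := Ok.sx05_le (hC.c_let hs')
  have k4 := Ok.sx05_le (hC.d_let hs')
  have k5 := Ok.sx05_le (hC.a'_let hs')
  have k6 := Ok.sx05_le (hC.b'_let hs')
  have k7 := Ok.sx05_le (hC.c'_let hs')
  have k8 := Ok.sx05_le (hC.d'_let hs')
  have w1 := Ok.sx05_le (hC.win_a' (i := N + 1) (by omega))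
  have w2 := Ok.sx05_le (hC.win_b (i := N + 1) (by omega))
  have w3 := Ok.sx05_le (hC.win_d (i := N + 1) (by omega))
  rw [show N + 1 + C.m = C.m + N + 1 by omega] at w1 w2 w3
  have low1 := (hC.low (N + 1) hm1).1
  have lowm := (hC.low (C.m - 1) (by omega)).1
  have h13 := hC.top13 (s := C.m + N + 1) (by omega) hs
  have hq := (hC.full_q (k := 1) le_rfl (by omega) (by push_cast; omega)).1
  have h0a := hC.C0a (j := C.m - 1) (s := C.m + N) (k := 0) (t := N + 1) (by rw [r1, r5]) lowm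
    (by omega) (by omega) (by omega)
  obtain ⟨z1, z2, z3, z4, -⟩ := hC.zero
  rw [r1, hq, z4] at h0a
  rw [low1] at w1
  unfold Cd.lam Cd.mu at hmass
  unfold Cd.mu at h13
  rw [s2, c1, hM] at hmass
  rw [hM] at h13
  rw [s2] at l2
  rw [b2] at l3
  have key := step4_fin (L := C.L) (A := C.a (N - 1)) (aN := C.a N) (a1 := C.a (N + 1))
    (b1 := C.b (N + 1)) (d1 := C.d (N + 1)) (a := C.a (C.m + N + 1) - C.q)
    (b := C.b (C.m + N + 1) - C.q) (c := C.c (C.m + N + 1) - C.q)
    (d := C.d (C.m + N + 1) - C.q) (a' := C.a' (C.m + N + 1) - C.q)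
    (b' := C.b' (C.m + N + 1) - C.q) (c' := C.c' (C.m + N + 1) - C.q)
    (d' := C.d' (C.m + N + 1) - C.q) (u := u) (v := v) (by exact_mod_cast hL) (by omega) l1
    (by omega) (by omega) (by omega) (by omega) (by omega)
    (by omega) (by omega) (by omega) (by omega) (by omega) (by omega) (by omega) (by omega)
    (by omega) (by omega) (by omega) (by omega) (by omega) (by omega) (by omega) (by omega)
    (by omega) (by omega) (by push_cast at hmass; linear_combination hmass)
  obtain ⟨q1, q2, q3, q4⟩ := key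
  exact ⟨by omega, by omega, by omega, by omega⟩

end Cd.S102

end Pool.Agent.Lib.MP_bb0bab_co
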