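import Pool.Agent.Lib.MP_bb0bab_co.CB11
import Pool.Agent.Lib.MP_bb0bab_co.SX08
import Pool.Agent.Lib.MP_bb0bab_co.SX10

/-!
# SX11 (10.2) end of N ≥ 2
-/

namespace Pool.Agent.Lib.MP_bb0bab_co

open LaurentPolynomial

theorem Cd.S102.absurd {C : Cd} {N : ℕ} (S : C.S102 N) (h4 : C.Step4 N) : False := by
  have hC := S.s.ok
  have hN2 := S.N2
  have hNm := S.s.Nm
  have hh := S.hh
  have hmh := hC.hmh
  obtain ⟨b1, b2, b3, b4, b5, b6, b7, b8, b9, b10⟩ := S.s.basic
  have s2 := S.step2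
  obtain ⟨s3, s3'⟩ := S.step3
  obtain ⟨x1, x2, x3, x4⟩ := h4
  obtain ⟨t1, t2, t3, t4⟩ := S.s.ev.t0
  obtain ⟨A, hA⟩ : ∃ A, A = C.a (N - 1) := ⟨_, rfl⟩
  rw [← hA] at b1 b2 b3 b4 b5 b6 b7 b8 s2 s3' x3 x4
  obtain ⟨p, hp⟩ : ∃ p, C.m = N + p := ⟨C.m - N, by omega⟩
  have hp2 : 2 ≤ p := by omega
  have hpR : (0 : ℝ) < (p : ℝ) := by exact_mod_cast (by omega : 0 < p)
  have hNR : (0 : ℝ) < (N : ℝ) + 1 := by positivity
  have hmR : (C.m : ℝ) = N + p := by exact_mod_cast hp
  -- `sig1`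
  have sig1 : (A + 1) * (p : ℤ) < (C.q - A) * (N + 1) := by
    have h1 := hC.bHconc.slope (i := N) (i' := C.m) (j := C.m) (j' := C.m + N + 1) (by omega)
      (by omega) (by omega) (by omega) (by omega)
    push_cast at h1
    rw [hmR] at h1
    have h2 := C.b_le N
    have h3 := C.bH_lt C.m
    have h5 := C.b_le (C.m + N + 1)
    rw [s2] at h2
    rw [hC.bm] at h3
    rw [x3] at h5
    push_cast at h2 h3 h5
    have h6 : ((A : ℝ) + 1) * p < (C.bH (C.m + N + 1) - C.bH C.m) * p :=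
      mul_lt_mul_of_pos_right (by linarith) hpR
    have h7 : (C.bH C.m - C.bH N) * ((N : ℝ) + 1) < ((C.q : ℝ) - A) * (N + 1) :=
      mul_lt_mul_of_pos_right (by linarith) hNR
    have h8 : ((A : ℝ) + 1) * p < ((C.q : ℝ) - A) * (N + 1) := by linarith
    exact_mod_cast h8
  rcases x4 with hc | ⟨hc, hd⟩
  · -- `a N = A`
    have h1 := hC.aKconv.slope (i := N) (i' := C.m) (j := C.m) (j' := C.m + N + 1) (by omega)
      (by omega) (by omega) (by omega) (by omega)
    push_cast at h1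
    rw [hmR] at h1
    have h2 := C.aK_le N
    have h3 := C.a'_lt C.m
    have h5 := C.aK_le (C.m + N + 1)
    rw [t1, hc] at h2
    rw [hC.am'] at h3
    rw [x2, hc] at h5
    push_cast at h2 h3 h5
    have h6 : (C.aK (C.m + N + 1) - C.aK C.m) * p < ((A : ℝ) + 1) * p :=
      mul_lt_mul_of_pos_right (by linarith) hpR
    have h7 : ((C.q : ℝ) - A) * (N + 1) < (C.aK C.m - C.aK N) * ((N : ℝ) + 1) :=
      mul_lt_mul_of_pos_right (by linarith) hNR
    have h8 : ((C.q : ℝ) - A) * (N + 1) < ((A : ℝ) + 1) * p := by linarith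
    have h9 : (C.q - A) * (N + 1) < (A + 1) * (p : ℤ) := by exact_mod_cast h8
    omega
  · -- `a N = A + 1`
    have hR := S.rowN
    have key : ∀ j < C.m, C.d (j + 1) ≤ C.a j := by
      intro j hj
      have h1 := hC.C0a (j := j) (s := C.m + N) (k := j + 1) (t := C.m + N + 1)
        (by rw [hR.ha', hR.ha]) (hC.low j hj).1 (by omega) (by omega) (by omega)
      rw [hR.ha, hc, hd] at h1
      omega
    have hz : ∀ j, j < N → C.a j ≤ 0 := by
      intro j
      induction j with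
      | zero => intro _; rw [hC.zero.1]
      | succ j ih =>
        intro hj
        have h1 := ih (by omega)
        have h2 := key j (by omega)
        have h3 := (S.s.ev.full (j + 1) hj).2.2
        omega
    have hA0 : A = 0 := by
      have := hz (N - 1) (by omega)
      omega
    subst hA0
    rw [zero_add, one_mul] at sig1 b8
    rw [sub_zero] at sig1
    have hmZ : (C.m : ℤ) = N + p := by exact_mod_cast hp
    rw [hmZ] at b8
    have hqN : C.q * N < p := by linarith
    have hq1 : (N : ℤ) ≤ C.q * N := by nlinarith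
    have hpN : N < p := by
      have : (N : ℤ) < p := by linarith
      exact_mod_cast this
    -- the chord
    have h1 := hC.aHconv.chord (i := N - 1) (j := p - 1) (k := C.m) (by omega) (by omega) (by omega)
    have h2 := C.aH_le (N - 1)
    have h3 := C.aH_le C.m
    rw [← hA] at h2
    rw [hC.am] at h3
    have e1 : ((N - 1 : ℕ) : ℝ) = (N : ℝ) - 1 := by push_cast [show 1 ≤ N by omega]; ring
    have e2 : ((p - 1 : ℕ) : ℝ) = (p : ℝ) - 1 := by push_cast [show 1 ≤ p by omega]; ring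
    rw [e1, e2, hmR] at h1
    push_cast at h2
    have hpNR : (0 : ℝ) ≤ (p : ℝ) - N := by
      have : (N : ℝ) < p := by exact_mod_cast hpN
      linarith
    have h5 : ((p : ℝ) + 1) * C.aH (p - 1) ≤ ((p : ℝ) - N) * C.q := by
      have k1 : ((N : ℝ) + 1) * C.aH (N - 1) ≤ 0 := by nlinarith
      have k2 : ((p : ℝ) - N) * C.aH C.m ≤ ((p : ℝ) - N) * C.q :=
        mul_le_mul_of_nonneg_left h3 hpNR
      nlinarith
    have h6 : ((p : ℝ) - N) * C.q ≤ ((p : ℝ) + 1) * ((C.q : ℝ) - 1) := by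
      have k1 : (p : ℤ) + 1 ≤ C.q * (N + 1) := by omega
      have k2 : (p : ℝ) + 1 ≤ C.q * (N + 1) := by exact_mod_cast k1
      nlinarith
    have h7 : C.aH (p - 1) ≤ ((C.q - 1 : ℤ) : ℝ) := by
      push_cast
      have : (0 : ℝ) < (p : ℝ) + 1 := by positivity
      exact le_of_mul_le_mul_left (h5.trans h6) this
    have h8 := C.a_le_of h7
    have h9 := key (p - 1) (by omega)
    rw [show p - 1 + 1 = p by omega] at h9
    have h10 := hC.full_val (j := p) (by omega) (z := C.q) (by rw [hmZ]; nlinarith)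
      (by rw [hmZ]; nlinarith)
    omega

namespace Cd.S10

variable {C : Cd} {N : ℕ} (S : C.S10 N)

include S

theorem mirror_S10 : C.mirror.S10 N := by
  have hC := S.ok
  have hmh := hC.hmh
  have hNm := S.Nm
  obtain ⟨t1, t2, t3, t4⟩ := S.ev.t0
  refine ⟨mirror_ok hC, S.M1, mirror_ev hC S.ev, S.Nm, ?_⟩
  rw [mirror_c (by omega), mirror_d (by omega), t3, t4, S.emp]
  ring

theorem ge2 (hL : 3 ≤ C.L) (hN2 : 2 ≤ N) : False := by
  have hC := S.ok
  have hmh := hC.hmh
  have hNm := S.Nm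
  have h1 := hC.a_let (i := 0) (by omega)
  rw [hC.zero.1, zero_add] at h1
  rcases h1 with h1 | h1
  · have S2 := S.to102 hL hN2 h1
    exact S2.absurd (S2.step4 hL)
  · have S2 := S.mirror_S10.to102 hL hN2 (by
      rw [mirror_a, (hC.low 1 (by omega)).2.1, (S.ev.full 1 (by omega)).1]
      rw [zero_add] at h1
      rw [h1]
      norm_num)
    exact S2.absurd (S2.step4 hL)

end Cd.S10

end Pool.Agent.Lib.MP_bb0bab_co
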