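import Pool.Agent.Lib.MP_bb0bab_co.SX20i

/-!
# SX20j (10.4, L = 2): the row X1 at `2m` is impossible, end
-/

namespace Pool.Agent.Lib.MP_bb0bab_co

open LaurentPolynomial

namespace Cd.P00T

variable {C : Cd} {J p : ℕ} (S : C.P00T J p)

include S

theorem x1_p1 (hb' : C.b' (C.m + C.m + 1) = 2 * p + 3) : p = 1 := by
  have hC := S.s.ok
  have h4m := S.h4m
  have hm := S.m
  have hp1 := S.p1
  have hmh := hC.hmh
  obtain ⟨t, rfl⟩ : ∃ t, p = t + 1 := ⟨p - 1, by omega⟩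
  have hr := S.isJ.reg (2 * t + 1) (by omega)
  have ho := S.odd_row (t := t) (by omega)
  have h1 := hC.bKconc.chord (i := 0) (j := C.m + (2 * t + 1)) (k := C.m + C.m + 1) (by omega)
    (by omega) (by omega)
  rw [hC.bK0] at h1
  have h2 : (C.b' (C.m + C.m + 1) : ℝ) ≤ C.bK (C.m + C.m + 1) := C.b'_le _
  have h3 : C.bK (C.m + (2 * t + 1)) < C.b' (C.m + (2 * t + 1)) + 1 := C.bK_lt _
  rw [hb'] at h2
  rw [hr.hb', ho.2.1, S.q] at h3
  have hmR : (C.m : ℝ) = 2 * (t + 1) + 1 := by rw [hm]; push_cast; ring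
  push_cast at h1 h2 h3
  rw [hmR] at h1
  have htR : (0 : ℝ) ≤ t := by positivity
  generalize C.bK (C.m + C.m + 1) = X at h1 h2
  generalize C.bK (C.m + (2 * t + 1)) = Y at h1 h3
  have h4 : ((2 : ℝ) * (t + 1) + 1 + (2 * t + 1)) * (2 * (t + 1) + 3) ≤
      (2 * (t + 1) + 1 + (2 * t + 1)) * X :=
    mul_le_mul_of_nonneg_left (by linarith) (by positivity)
  have h5 : ((2 : ℝ) * (t + 1) + 1 + (2 * (t + 1) + 1) + 1) * Y <
      (2 * (t + 1) + 1 + (2 * (t + 1) + 1) + 1) * (t + 1 + t + 1 + 1) :=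
    mul_lt_mul_of_pos_left (by linarith) (by positivity)
  have h6 : (t : ℝ) < 1 := by nlinarith
  have h7 : t < 1 := by exact_mod_cast h6
  omega

theorem x1_false (hL : C.L = 2) (h1 : C.a (C.m + C.m) = 2 * p + 1) (h2 : C.b (C.m + C.m) = 2 * p)
    (h3 : C.c (C.m + C.m) = 2 * p + 1) (h4 : C.d (C.m + C.m) = 2 * p + 1)
    (h5 : C.a' (C.m + C.m) = 2 * p + 1) (h6 : C.b' (C.m + C.m) = 2 * p + 2)
    (h7 : C.c' (C.m + C.m) = 2 * p + 1) (h8 : C.d' (C.m + C.m) = 2 * p + 2) : False := by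
  have hC := S.s.ok
  have hM := S.s.M1
  have h4m := S.h4m
  have hmh := hC.hmh
  obtain ⟨k1, k2, k3, k4, k5, k6, k7, k8⟩ := S.x1_next hL h1 h2 h3 h4 h5 h6 h7 h8
  have hp := S.x1_p1 k4
  subst hp
  have hm : C.m = 3 := S.m
  have hX7 := S.XX_2m1 hL (S.DG_2m h3 h4 h7 h8)
  have hX6 := IsJ.X_2m hC hM S.isJ
  obtain ⟨r4X, r4D⟩ := hC.reg_X hM (by omega) S.s.r1
  obtain ⟨r5X, r5D⟩ := hC.reg_X hM (by omega) S.r2
  have r0 := S.isJ.reg 0 (by omega)
  obtain ⟨r3X, r3D⟩ := hC.reg_X hM (by omega) r0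
  have e2 := S.even_row (t := 1) (by omega)
  have e6 : C.m + C.m = 6 := by omega
  have e7 : C.m + C.m + 1 = 7 := by omega
  have e4 : C.m + 1 = 4 := by omega
  have e5 : C.m + 2 = 5 := by omega
  have e3 : C.m + 0 = 3 := by omega
  unfold Cd.eps at r4D
  rw [e7] at k1 k2 k3 k4 k5 k6 k7 k8 hX7
  rw [e6] at hX6
  rw [e4] at r4X r4D
  rw [e5] at r5X
  rw [e3] at r3X
  have hk2 : C.kap 2 = 0 := hC.kap_full hM (by
    have e2' : C.a 2 = 1 ∧ C.b 2 = 1 ∧ C.c 2 = 1 ∧ C.d 2 = 1 := by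
      simpa using e2
    exact ⟨by omega, by omega, by omega⟩)
  rw [hk2, mul_zero] at r5X
  rw [hC.kap_zero hM, mul_zero] at r3X
  have hG1 : C.RG 1 = 0 := by
    unfold Cd.RG
    rw [S.s.c1, S.s.d1, hM]
    exact rowPoly_empty (by norm_num)
  rw [hG1, mul_zero, sub_zero] at r4D
  rw [S.kap1 hL] at r4X
  have hk3 : C.kap 3 = 0 := hC.kap_full hM (by
    have g1 := hC.am
    have g2 := hC.bm
    have g3 := hC.cm
    have g4 := hC.dm
    rw [hm] at g1 g2 g3 g4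
    exact ⟨by omega, by omega, by omega⟩)
  have hk5 : C.kap 5 = 0 := hC.kap_full hM (by
    have r := S.r2
    have g1 := r.ha
    have g2 := r.hb
    have g3 := r.hc
    have g4 := r.hd
    rw [e5] at g1 g2 g3 g4
    have e2' : C.a 2 = 1 ∧ C.b 2 = 1 ∧ C.c 2 = 1 ∧ C.d 2 = 1 := by
      simpa using e2
    exact ⟨by omega, by omega, by omega⟩)
  have hG4 : C.RG 4 = T 2 := by
    have r := S.s.r1
    have g3 := r.hc
    have g4 := r.hd
    rw [e4, S.s.c1, S.q] at g3 g4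
    have g5 : C.c 4 = 2 := by rw [g3]; norm_num
    have g6 : C.d 4 = 2 := by rw [g4]; norm_num
    unfold Cd.RG
    rw [g5, g6, hM, rowPoly_len, Nat.cast_one, br_one, mul_one]
  have hD7 : C.DG 7 = T 5 - T 3 := by
    have g5 : C.c 7 = 3 := by rw [k5]; norm_num
    have g6 : C.c' 7 = 4 := by rw [k6]; norm_num
    have g7 : C.d 7 = 4 := by rw [k7]; norm_num
    have g8 : C.d' 7 = 5 := by rw [k8]; norm_num
    apply sub_one_cancel
    rw [hC.DG_mul (by omega), g5, g6, g7, g8, hM]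
    have f1 : (T ((5 : ℤ) + ((1 : ℕ) : ℤ)) : LaurentPolynomial ℤ) = T 1 * T 5 := by
      rw [← T_add]; congr 1
    have f2 : (T ((4 : ℤ) + ((1 : ℕ) : ℤ)) : LaurentPolynomial ℤ) = T 5 := by
      congr 1
    have f3 : (T 4 : LaurentPolynomial ℤ) = T 1 * T 3 := by
      rw [← T_add]; congr 1
    rw [f1, f2, f3]
    ring
  have hz0 := hC.low_zero hM (s := 0) (by omega)
  have hz1 := hC.low_zero hM (s := 1) (by omega)
  have hz2 := hC.low_zero hM (s := 2) (by omega)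
  have hXK := hC.XK hM (s := 8) (by omega)
  simp only [Finset.sum_range_succ, Finset.sum_range_zero, zero_add, Nat.sub_zero, Nat.sub_self,
    Nat.reduceSub, hX7, hX6, r5X, r4X, r3X, hz0.1, hz1.1, hz2.1, hz0.2, hz1.2, hz2.2, hk2, hk3, hk5,
    hC.kap_zero hM, S.kap1 hL, r4D, hG1, hG4, hD7, mul_zero, zero_mul, add_zero] at hXK
  rw [Cd.RG_zero hC, hM, Nat.cast_one, br_one, one_mul] at hXK
  have hX8 : C.XX 8 = (T 1 - 1) * ((1 + T 1) * T 4) := by
    have f1 : (T 5 : LaurentPolynomial ℤ) = T 1 * (T 1 * T 3) := by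
      rw [← T_add, ← T_add]; congr 1
    have f2 : (T 4 : LaurentPolynomial ℤ) = T 1 * T 3 := by
      rw [← T_add]; congr 1
    have f3 : (T 2 * T 1 : LaurentPolynomial ℤ) = T 3 := by
      rw [← T_add]; congr 1
    have f4 : C.PP = (T 1 - 1) * T 1 := by
      unfold Cd.PP
      rw [S.q]
      rfl
    rw [f4, f1] at hXK
    rw [f2]
    linear_combination hXK - (T 1 - 1) * (1 + T 1) * f3
  have n1 : C.a 7 = 4 := by rw [k1]; norm_num
  have n2 : C.a' 7 = 4 := by rw [k2]; norm_num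
  have n3 : C.b 7 = 3 := by rw [k3]; norm_num
  have n4 : C.b' 7 = 5 := by rw [k4]; norm_num
  have n5 : C.c 7 = 3 := by rw [k5]; norm_num
  have n6 : C.c' 7 = 4 := by rw [k6]; norm_num
  have n7 : C.d 7 = 4 := by rw [k7]; norm_num
  have n8 : C.d' 7 = 5 := by rw [k8]; norm_num
  have la : C.a 8 = C.a 7 ∨ C.a 8 = C.a 7 + 1 := hC.a_let (i := 7) (by omega)
  have lb : C.b 8 = C.b 7 ∨ C.b 8 = C.b 7 + 1 := hC.b_let (i := 7) (by omega)
  have lc : C.c 8 = C.c 7 ∨ C.c 8 = C.c 7 + 1 := hC.c_let (i := 7) (by omega)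
  have ld : C.d 8 = C.d 7 ∨ C.d 8 = C.d 7 + 1 := hC.d_let (i := 7) (by omega)
  have la' : C.a' 8 = C.a' 7 ∨ C.a' 8 = C.a' 7 + 1 := hC.a'_let (i := 7) (by omega)
  have lb' : C.b' 8 = C.b' 7 ∨ C.b' 8 = C.b' 7 + 1 := hC.b'_let (i := 7) (by omega)
  have lc' : C.c' 8 = C.c' 7 ∨ C.c' 8 = C.c' 7 + 1 := hC.c'_let (i := 7) (by omega)
  have ld' : C.d' 8 = C.d' 7 ∨ C.d' 8 = C.d' 7 + 1 := hC.d'_let (i := 7) (by omega)
  have hb8 : C.b 8 = 3 := by
    have g1 := S.bH_lt (y := 8) (by omega) (by omega)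
    have g2 : (C.b 8 : ℝ) ≤ C.bH 8 := C.b_le _
    push_cast at g1
    have g3 : (C.b 8 : ℝ) < 4 := by linarith
    have g4 : C.b 8 < 4 := by exact_mod_cast g3
    omega
  have hd8 : C.d 8 = 4 := by
    have g1 := hC.win_d (i := 5) (by omega)
    have g2 := S.r2.hd
    rw [e5, S.c2, S.q] at g2
    rw [show 5 + C.m = 8 by omega, S.q, g2] at g1
    push_cast at g1
    omega
  have m1 := hC.DH_mul (s := 8) (by omega)
  have m2 := hC.DG_mul (s := 8) (by omega)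
  have m3 : C.DH 8 = (1 + T 1) * C.DG 8 + C.XX 8 := by
    unfold Cd.XX
    rw [S.br2 hL]
    ring
  rw [hb8, hL] at m1
  rw [hd8, hM] at m2
  refine sx20_x8_alg (a := C.a 8) (a' := C.a' 8) (b' := C.b' 8) (c := C.c 8) (c' := C.c' 8)
    (d' := C.d' 8) (by omega) (by omega) (by omega) (by omega) (by omega) (by omega) ?_
  push_cast at m1 m2
  rw [show (3 : ℤ) + 2 = 5 by norm_num, show (4 : ℤ) + 1 = 5 by norm_num, ← m1, ← m2, m3, hX8]
  ring

end Cd.P00T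

end Pool.Agent.Lib.MP_bb0bab_co
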