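import Pool.Agent.Lib.MP_bb0bab_co.SX20g
import Pool.Agent.Lib.MP_bb0bab_co.SX20j

/-!
# SX20 (10.4, all L ≥ 2): the case `(a 1, b 1) = (0, 0)`
-/

namespace Pool.Agent.Lib.MP_bb0bab_co

open LaurentPolynomial

/-- the case `(a 1, b 1) = (0, 0)` is impossible, all `L ≥ 2` -/
theorem Cd.Ok.case00 {C : Cd} (hC : C.Ok) (hM : C.M = 1) (hL : 2 ≤ C.L) (hE : C.Ev 1)
    (hm : 1 < C.m) (he : C.c 1 = C.d 1 + 1) {J : ℕ} (hJ : C.IsJw J) (h1 : C.a 1 = 0)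
    (h2 : C.b 1 = 0) : False := by
  have S10 : C.S10 1 := ⟨hC, hM, hE, hm, he⟩
  obtain ⟨hc, hd, -⟩ := S10.basic
  rw [Nat.sub_self, hC.zero.1] at hc hd
  have S : C.P00 J := ⟨hC, hM, hL, hm, by omega, hd, h1, h2, hJ⟩
  obtain ⟨p, K, Tk⟩ := S.exists_K
  obtain ⟨n, A, B, U⟩ := S.exists_n Tk
  rcases Nat.lt_or_ge n J with hT | hT
  · obtain ⟨hK, hn, hmp⟩ := U.caseT_K1 Tk S hT
    subst hn
    have P : C.P00T J p := ⟨S, Tk.q, Tk.p1, hmp, hJ.reg 2 hT, U.cn, hT⟩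
    exact P.row2m (fun hL2 g1 g2 g3 g4 g5 g6 g7 g8 => P.x1_false hL2 g1 g2 g3 g4 g5 g6 g7 g8)
  · have hnJ := U.nJ
    have : n = J := by omega
    subst this
    exact U.caseR Tk S

end Pool.Agent.Lib.MP_bb0bab_co
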