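import Pool.Agent.Lib.MP_bb0bab_co.SXDefs

/-!
# SX00 bounds between chains and words
-/

namespace Pool.Agent.Lib.MP_bb0bab_co

open LaurentPolynomial

namespace Cd

variable (C : Cd)

theorem aH_le (i : ℕ) : C.aH i ≤ C.a i := Int.le_ceil _
theorem a_lt (i : ℕ) : (C.a i : ℝ) < C.aH i + 1 := Int.ceil_lt_add_one _
theorem b_le (i : ℕ) : (C.b i : ℝ) ≤ C.bH i := Int.floor_le _
theorem bH_lt (i : ℕ) : C.bH i < C.b i + 1 := Int.lt_floor_add_one _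
theorem aK_le (i : ℕ) : C.aK i ≤ C.a' i := Int.le_ceil _
theorem a'_lt (i : ℕ) : (C.a' i : ℝ) < C.aK i + 1 := Int.ceil_lt_add_one _
theorem b'_le (i : ℕ) : (C.b' i : ℝ) ≤ C.bK i := Int.floor_le _
theorem bK_lt (i : ℕ) : C.bK i < C.b' i + 1 := Int.lt_floor_add_one _
theorem lK_le (j : ℕ) : C.lK j ≤ C.c j := Int.le_ceil _
theorem c_lt (j : ℕ) : (C.c j : ℝ) < C.lK j + 1 := Int.ceil_lt_add_one _
theorem d_le (j : ℕ) : (C.d j : ℝ) ≤ C.rK j := Int.floor_le _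
theorem rK_lt (j : ℕ) : C.rK j < C.d j + 1 := Int.lt_floor_add_one _
theorem lH_le (j : ℕ) : C.lH j ≤ C.c' j := Int.le_ceil _
theorem c'_lt (j : ℕ) : (C.c' j : ℝ) < C.lH j + 1 := Int.ceil_lt_add_one _
theorem d'_le (j : ℕ) : (C.d' j : ℝ) ≤ C.rH j := Int.floor_le _
theorem rH_lt (j : ℕ) : C.rH j < C.d' j + 1 := Int.lt_floor_add_one _

theorem a_le_of {i : ℕ} {z : ℤ} (h : C.aH i ≤ z) : C.a i ≤ z := Int.ceil_le.mpr h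
theorem a_ge_of {i : ℕ} {z : ℤ} (h : (z : ℝ) < C.aH i) : z + 1 ≤ C.a i := Int.lt_ceil.mpr h
theorem b_ge_of {i : ℕ} {z : ℤ} (h : (z : ℝ) ≤ C.bH i) : z ≤ C.b i := Int.le_floor.mpr h
theorem b_le_of {i : ℕ} {z : ℤ} (h : C.bH i < z) : C.b i ≤ z - 1 := Int.le_sub_one_of_lt (Int.floor_lt.mpr h)
theorem a'_le_of {i : ℕ} {z : ℤ} (h : C.aK i ≤ z) : C.a' i ≤ z := Int.ceil_le.mpr h
theorem a'_ge_of {i : ℕ} {z : ℤ} (h : (z : ℝ) < C.aK i) : z + 1 ≤ C.a' i := Int.lt_ceil.mpr h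
theorem b'_ge_of {i : ℕ} {z : ℤ} (h : (z : ℝ) ≤ C.bK i) : z ≤ C.b' i := Int.le_floor.mpr h
theorem b'_le_of {i : ℕ} {z : ℤ} (h : C.bK i < z) : C.b' i ≤ z - 1 := Int.le_sub_one_of_lt (Int.floor_lt.mpr h)
theorem c_le_of {i : ℕ} {z : ℤ} (h : C.lK i ≤ z) : C.c i ≤ z := Int.ceil_le.mpr h
theorem c_ge_of {i : ℕ} {z : ℤ} (h : (z : ℝ) < C.lK i) : z + 1 ≤ C.c i := Int.lt_ceil.mpr h
theorem d_ge_of {i : ℕ} {z : ℤ} (h : (z : ℝ) ≤ C.rK i) : z ≤ C.d i := Int.le_floor.mpr h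
theorem d_le_of {i : ℕ} {z : ℤ} (h : C.rK i < z) : C.d i ≤ z - 1 := Int.le_sub_one_of_lt (Int.floor_lt.mpr h)
theorem c'_le_of {i : ℕ} {z : ℤ} (h : C.lH i ≤ z) : C.c' i ≤ z := Int.ceil_le.mpr h
theorem c'_ge_of {i : ℕ} {z : ℤ} (h : (z : ℝ) < C.lH i) : z + 1 ≤ C.c' i := Int.lt_ceil.mpr h
theorem d'_ge_of {i : ℕ} {z : ℤ} (h : (z : ℝ) ≤ C.rH i) : z ≤ C.d' i := Int.le_floor.mpr h
theorem d'_le_of {i : ℕ} {z : ℤ} (h : C.rH i < z) : C.d' i ≤ z - 1 := Int.le_sub_one_of_lt (Int.floor_lt.mpr h)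

end Cd

end Pool.Agent.Lib.MP_bb0bab_co
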