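import Pool.Agent.Lib.MP_bb0bab_co.TL01
import Pool.Agent.Lib.MP_bb0bab_co.SX00
import Pool.Agent.Lib.MP_bb0bab_co.CB30

/-!
# TL02 rows with the homogeneous equation, all L ≥ 2 (M = 1)
-/

namespace Pool.Agent.Lib.MP_bb0bab_co

open LaurentPolynomial

theorem tl_two_inj {p q r s : ℤ}
    (h : (T p : LaurentPolynomial ℤ) + T q = T r + T s) : (p = r ∧ q = s) ∨ (p = s ∧ q = r) := by
  have h3 : ((({p, q} : Multiset ℤ)).map (fun n => (T n : LaurentPolynomial ℤ))).sum =
      ((({r, s} : Multiset ℤ)).map (fun n => (T n : LaurentPolynomial ℤ))).sum := by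
    simp only [Multiset.insert_eq_cons, Multiset.map_cons, Multiset.map_singleton,
      Multiset.sum_cons, Multiset.sum_singleton]
    exact h
  have h4 := T_sum_inj _ _ h3
  have h5 : p ∈ ({r, s} : Multiset ℤ) := by
    rw [← h4]
    simp
  have h6 := congrArg Multiset.sum h4
  simp only [Multiset.insert_eq_cons, Multiset.mem_cons, Multiset.mem_singleton,
    Multiset.sum_cons, Multiset.sum_singleton] at h5 h6
  omega

theorem tl_one_inj {p r : ℤ} (h : (T p : LaurentPolynomial ℤ) = T r) : p = r := by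
  have := tl_two_inj (p := p) (q := 0) (r := r) (s := 0) (by rw [h])
  omega

namespace Cd.Ok

variable {C : Cd} (hC : C.Ok) (hM : C.M = 1)

include hC hM

/-- duality: a bottom row with `K ≠ H` words is opposite to a top row of index `≥ m` -/
theorem D0 {s : ℕ} (hs : s ≤ C.h) (h : C.a' s ≠ C.a s ∨ C.b' s ≠ C.b s) : s + C.m ≤ C.h := by
  by_contra hne
  have h1 := hC.low (C.h - s) (by omega)
  obtain ⟨-, -, h2, h3⟩ := h1
  rw [c_eq, c'_eq, Nat.sub_sub_self hs] at h2
  rw [d_eq, d'_eq, Nat.sub_sub_self hs] at h3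
  rcases h with h | h <;> apply h <;> omega

/-- shift `v = 0`: the shift `u` of the bottom row is 0 -/
theorem tl_u0 {s : ℕ} (hs : s ≤ C.h) {u : ℤ} (hu1 : -1 ≤ u) (hu2 : u ≤ 1)
    (ha : C.a' s = C.a s + u) (hb : C.b' s = C.b s + u) (hmass : u * C.lam s = 0) : u = 0 := by
  by_contra hne
  have hl : C.lam s = 0 := by
    rcases mul_eq_zero.mp hmass with h | h
    · exact absurd h hne
    · exact h
  unfold Cd.lam at hl
  have hM' : (C.M : ℤ) = 1 := by exact_mod_cast hM
  rcases (show u = 1 ∨ u = -1 by omega) with h | h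
  · have hsh : s < C.h := by
      rcases Nat.lt_or_ge s C.h with h1 | h1
      · exact h1
      · exfalso
        have h2 : s = C.h := le_antisymm hs h1
        rw [h2] at ha
        unfold Cd.a' Cd.a at ha
        rw [hC.aHh, hC.aKh] at ha
        omega
    have h3 := hC.len_R hsh
    omega
  · have h3 := hC.D0 hM hs (Or.inl (by omega))
    have h4 := hC.len_P h3
    omega

/-- `H = [L] G` -/
theorem tl_full (hL : 2 ≤ C.L) {s : ℕ} (hl : 0 < C.lam s) (hmu : 0 < C.mu s)
    (h : C.RH s = br C.L * C.RG s) : C.Full s := by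
  unfold Cd.lam at hl
  unfold Cd.mu at hmu
  have hM' : (C.M : ℤ) = 1 := by exact_mod_cast hM
  unfold Cd.RH Cd.RG at h
  obtain ⟨h1, h2, h3⟩ := row_mul hL (show C.a s ≤ C.b s + C.L - 1 by omega)
    (show C.c s ≤ C.d s + C.M - 1 by omega) h
  refine ⟨?_, ?_, ?_⟩ <;> omega

/-- the equal shifts, after a T0 row -/
theorem tl_zzero_eq (hL : 2 ≤ C.L) {s : ℕ} (hm : C.m ≤ s) (hs : s ≤ C.h) {u v : ℤ}
    (hu1 : -1 ≤ u) (hu2 : u ≤ 1) (hv1 : -1 ≤ v) (hv2 : v ≤ 1)
    (ha : C.a' s = C.a s + u) (hb : C.b' s = C.b s + u)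
    (hc : C.c' s = C.c s + v) (hd : C.d' s = C.d s + v)
    (hid : brz u * C.RH s - br C.L * (brz v * C.RG s) = 0)
    (hmass : u * C.lam s - C.L * (v * C.mu s) = 0) : C.T0 s ∨ (C.T1 s ∧ C.Full s) := by
  have hl := hC.lam_nn hs
  have hm1 := hC.hm
  have hLp : (0 : ℤ) < C.L := by omega
  rcases (show v = -1 ∨ v = 0 ∨ v = 1 by omega) with h | h | h
  · exfalso
    subst h
    have h1 := hC.top13 hm hs (by omega)
    have h2 : (C.L : ℤ) * C.mu s > 0 := mul_pos hLp (by omega)
    have h3 : u * C.lam s < 0 := by linarith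
    have h4 : u = -1 := by
      by_contra hne
      have h5 : 0 ≤ u := by omega
      have h6 : 0 ≤ u * C.lam s := mul_nonneg h5 hl
      omega
    subst h4
    have h5 : C.RH s = br C.L * C.RG s := by
      rw [brz_neg_one] at hid
      have h6 : (T 1 : LaurentPolynomial ℤ) * T (-1) = 1 := by
        rw [← T_add, show (1 : ℤ) + -1 = 0 by norm_num, T_zero]
      linear_combination (-(T 1)) * hid + (-(C.RH s) + br C.L * C.RG s) * h6
    obtain ⟨f1, f2, f3⟩ := hC.tl_full hM hL (by omega) (by omega) h5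
    unfold Cd.mu at h1
    omega
  · left
    subst h
    have h1 := hC.tl_u0 hM hs hu1 hu2 ha hb (by linarith)
    subst h1
    exact ⟨by omega, by omega, by omega, by omega⟩
  · right
    subst h
    have h1 := hC.mu_T1 (show 0 < s by omega) hs hc
    have hmu : 0 < C.mu s := by
      unfold Cd.mu
      have hM' : (C.M : ℤ) = 1 := by exact_mod_cast hM
      omega
    have h2 : 0 < (C.L : ℤ) * C.mu s := mul_pos hLp hmu
    have h3 : 0 < u * C.lam s := by linarith
    have h4 : u = 1 := by
      by_contra hne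
      have h5 : u ≤ 0 := by omega
      have h6 : u * C.lam s ≤ 0 := mul_nonpos_of_nonpos_of_nonneg h5 hl
      omega
    subst h4
    rw [brz_one, one_mul, one_mul, sub_eq_zero] at hid
    exact ⟨⟨ha, hb, hc, hd⟩, hC.tl_full hM hL (by omega) hmu hid⟩

/-- the equation for `L = 2` -/
theorem tl_two {s : ℕ} (hs : s ≤ C.h) (hL : C.L = 2) (hX : C.XX s = 0) :
    (T (C.b' s + 2) : LaurentPolynomial ℤ) - T (C.a' s) - T (C.b s + 2) + T (C.a s) =
      (1 + T 1) * (T (C.d' s + 1) - T (C.c' s) - T (C.d s + 1) + T (C.c s)) := by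
  have h1 := hC.DH_mul hs
  have h2 := hC.DG_mul hs
  unfold Cd.XX at hX
  rw [hL] at h1 hX
  rw [hM] at h2
  simp only [Nat.cast_ofNat, Nat.cast_one] at h1 h2 hX
  rw [br_two] at hX
  linear_combination (T 1 - 1) * hX - h1 + (1 + T 1) * h2

theorem zzero (hL : 2 ≤ C.L) {s : ℕ} (hm : C.m ≤ s) (hs : s + 1 ≤ C.h) (h0 : C.T0 s)
    (hX : C.XX (s + 1) = 0) : C.T0 (s + 1) ∨ (C.T1 (s + 1) ∧ C.Full (s + 1)) := by
  obtain ⟨p1, p2, p3, p4⟩ := h0
  have hX0 : C.XX (s + 1) = (T 1 - 1) * 0 := by rw [hX, mul_zero]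
  rcases (show 3 ≤ C.L ∨ C.L = 2 by omega) with hL3 | hL2
  · obtain ⟨u, v, h1, h2, h3, h4, h5, h6, h7, h8, h9, h10⟩ := hC.row_next hM hL3 hs (t := 0)
      (t' := 0) (by omega) (by omega) (by omega) (by omega) hX0
    rw [map_zero] at h10
    exact hC.tl_zzero_eq hM hL (by omega) hs (by omega) (by omega) (by omega) (by omega) h5 h6 h7
      h8 h9 h10
  · have hl := hC.lam_nn hs
    have hl' := hC.lam'_nn hs
    unfold Cd.lam at hl
    have hL2' : (C.L : ℤ) = 2 := by exact_mod_cast hL2
    have key := hC.tl_two hM hs hL2 hX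
    rcases hC.row_split hM hL2 hs (t := 0) (t' := 0) (by omega) (by omega) (by omega) (by omega)
      hX0 with h | h | h
    · obtain ⟨u, v, h1, h2, h3, h4, h5, h6, h7, h8, h9, h10⟩ := h
      rw [map_zero] at h10
      exact hC.tl_zzero_eq hM hL (by omega) hs (by omega) (by omega) (by omega) (by omega) h5 h6 h7
        h8 h9 h10
    · exfalso
      obtain ⟨ha, hb, h⟩ := h
      have e1 : C.b' (s + 1) + 2 = C.b (s + 1) + 2 + 1 := by omega
      have e2 : C.a (s + 1) = C.a' (s + 1) + 1 := by omega
      rcases h with ⟨hc, hd⟩ | ⟨hc, hd⟩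
      · have e3 : C.c (s + 1) = C.c' (s + 1) + 1 := by omega
        have e4 : C.d' (s + 1) + 1 = C.d (s + 1) + 1 := by omega
        have h11 : (T (C.a' (s + 1)) : LaurentPolynomial ℤ) + T (C.b (s + 1) + 2) =
            T (C.c' (s + 1)) + T (C.c (s + 1)) := by
          apply sub_one_cancel
          rw [e1, e2, e4, e3] at key
          rw [e3]
          simp only [T_add] at key ⊢
          linear_combination key
        rcases tl_two_inj h11 with ⟨g1, g2⟩ | ⟨g1, g2⟩
        · have q1 := C.c_lt (s + 1)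
          have q2 := C.bH_lt (s + 1)
          have q3 := hC.lK_le_bH hs
          have q4 : C.c (s + 1) = C.b (s + 1) + 2 := by omega
          rw [q4] at q1
          push_cast at q1
          linarith
        · omega
      · have e3 : C.c (s + 1) = C.c' (s + 1) := by omega
        have e4 : C.d' (s + 1) + 1 = C.d (s + 1) + 1 + 1 := by omega
        have h11 : (T (C.a' (s + 1)) : LaurentPolynomial ℤ) + T (C.b (s + 1) + 2) =
            T (C.d (s + 1) + 1) + T (C.d (s + 1) + 1 + 1) := by
          apply sub_one_cancel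
          rw [e1, e2, e4, e3] at key
          simp only [T_add] at key ⊢
          linear_combination key
        rcases tl_two_inj h11 with ⟨g1, g2⟩ | ⟨g1, g2⟩
        · have q1 := C.a_lt (s + 1)
          have q2 := C.rK_lt (s + 1)
          have q3 := hC.aH_le_rK hs
          have q4 : C.a (s + 1) = C.d (s + 1) + 2 := by omega
          rw [q4] at q1
          push_cast at q1
          linarith
        · omega
    · exfalso
      obtain ⟨ha, hb, h⟩ := h
      have e1 : C.b (s + 1) + 2 = C.b' (s + 1) + 2 + 1 := by omega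
      have e2 : C.a' (s + 1) = C.a (s + 1) + 1 := by omega
      rcases h with ⟨hc, hd⟩ | ⟨hc, hd⟩
      · have e3 : C.c' (s + 1) = C.c (s + 1) + 1 := by omega
        have e4 : C.d' (s + 1) + 1 = C.d (s + 1) + 1 := by omega
        have h11 : (T (C.a (s + 1)) : LaurentPolynomial ℤ) + T (C.b' (s + 1) + 2) =
            T (C.c (s + 1)) + T (C.c (s + 1) + 1) := by
          apply sub_one_cancel
          rw [e1, e2, e4, e3] at key
          simp only [T_add] at key ⊢
          linear_combination -key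
        rcases tl_two_inj h11 with ⟨g1, g2⟩ | ⟨g1, g2⟩
        · have q1 := C.c'_lt (s + 1)
          have q2 := C.bK_lt (s + 1)
          have q3 := hC.lH_le_bK hs
          have q4 : C.c' (s + 1) = C.b' (s + 1) + 2 := by omega
          rw [q4] at q1
          push_cast at q1
          linarith
        · omega
      · have e3 : C.c' (s + 1) = C.c (s + 1) := by omega
        have e4 : C.d (s + 1) + 1 = C.d' (s + 1) + 1 + 1 := by omega
        have h11 : (T (C.a (s + 1)) : LaurentPolynomial ℤ) + T (C.b' (s + 1) + 2) =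
            T (C.d' (s + 1) + 1) + T (C.d' (s + 1) + 1 + 1) := by
          apply sub_one_cancel
          rw [e1, e2, e4, e3] at key
          simp only [T_add] at key ⊢
          linear_combination -key
        rcases tl_two_inj h11 with ⟨g1, g2⟩ | ⟨g1, g2⟩
        · have q1 := C.a'_lt (s + 1)
          have q2 := C.rH_lt (s + 1)
          have q3 := hC.aK_le_rH hs
          have q4 : C.a' (s + 1) = C.d' (s + 1) + 2 := by omega
          rw [q4] at q1
          push_cast at q1
          linarith
        · omega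

/-- the equal shifts, after a full T1 row -/
theorem tl_zfull_eq (hL : 2 ≤ C.L) {s : ℕ} {W : ℤ} (hs0 : 0 < s) (hs : s ≤ C.h) {u v : ℤ}
    (hu1 : 0 ≤ u) (hu2 : u ≤ 1) (hv1 : 0 ≤ v) (hv2 : v ≤ 2)
    (ha : C.a' s = C.a s + u) (hb : C.b' s = C.b s + u)
    (hc : C.c' s = C.c s + v) (hd : C.d' s = C.d s + v)
    (hcW : W ≤ C.c s) (hdW : W ≤ C.d s) (hcW' : C.c' s ≤ W + 2) (hdW' : C.d' s ≤ W + 2)
    (haW : C.a s ≤ W + 1) (hbW : W ≤ C.b s)
    (hid : brz u * C.RH s - br C.L * (brz v * C.RG s) = 0)
    (hmass : u * C.lam s - C.L * (v * C.mu s) = 0) : C.T0 s ∨ (C.T1 s ∧ C.Full s) := by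
  have hl : 0 < C.lam s := by
    unfold Cd.lam
    omega
  have hLp : (0 : ℤ) < C.L := by omega
  rcases (show v = 0 ∨ v = 1 ∨ v = 2 by omega) with h | h | h
  · left
    subst h
    have h1 : u = 0 := by
      have h2 : u * C.lam s = 0 := by linarith
      rcases mul_eq_zero.mp h2 with h | h
      · exact h
      · omega
    subst h1
    exact ⟨by omega, by omega, by omega, by omega⟩
  · right
    subst h
    have h1 := hC.mu_T1 hs0 hs hc
    have hmu : 0 < C.mu s := by
      unfold Cd.mu
      have hM' : (C.M : ℤ) = 1 := by exact_mod_cast hM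
      omega
    have h2 : 0 < (C.L : ℤ) * C.mu s := mul_pos hLp hmu
    have h4 : u = 1 := by
      by_contra hne
      have h5 : u = 0 := by omega
      rw [h5] at hmass
      linarith
    subst h4
    rw [brz_one, one_mul, one_mul, sub_eq_zero] at hid
    exact ⟨⟨ha, hb, hc, hd⟩, hC.tl_full hM hL hl hmu hid⟩
  · exfalso
    have q1 := C.c'_lt s
    have q2 := C.rK_lt s
    have q3 := hC.Psi_pos hs0 hs
    have q4 : C.c' s = C.d s + 2 := by omega
    rw [q4] at q1
    push_cast at q1
    linarith

theorem zfull (hL : 2 ≤ C.L) {s : ℕ} (hm : C.m ≤ s) (hs : s + 1 ≤ C.h) (h1 : C.T1 s)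
    (hf : C.Full s) (hX : C.XX (s + 1) = 0) :
    C.T0 (s + 1) ∨ (C.T1 (s + 1) ∧ C.Full (s + 1)) ∨ C.a' (s + 1) = C.a s + 2 ∨
    (C.L = 2 ∧ C.a (s + 1) = C.a s + 1 ∧ C.b (s + 1) = C.a s ∧ C.c (s + 1) = C.a s + 1 ∧
      C.d (s + 1) = C.a s + 1 ∧ C.a' (s + 1) = C.a s + 1 ∧ C.b' (s + 1) = C.a s + 2 ∧
      C.c' (s + 1) = C.a s + 1 ∧ C.d' (s + 1) = C.a s + 2) := by
  obtain ⟨p1, p2, p3, p4⟩ := h1
  obtain ⟨f1, f2, f3⟩ := hf
  have hX0 : C.XX (s + 1) = (T 1 - 1) * 0 := by rw [hX, mul_zero]
  have a1 := hC.a_let (show s < C.h by omega)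
  have b1 := hC.b_let (show s < C.h by omega)
  have c1 := hC.c_let (show s < C.h by omega)
  have d1 := hC.d_let (show s < C.h by omega)
  have a2 := hC.a'_let (show s < C.h by omega)
  have b2 := hC.b'_let (show s < C.h by omega)
  have c2 := hC.c'_let (show s < C.h by omega)
  have d2 := hC.d'_let (show s < C.h by omega)
  by_cases hthird : C.a' (s + 1) = C.a s + 2
  · exact Or.inr (Or.inr (Or.inl hthird))
  have a3 : C.a' (s + 1) = C.a s + 1 := by omega
  rcases (show 3 ≤ C.L ∨ C.L = 2 by omega) with hL3 | hL2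
  · obtain ⟨u, v, h1, h2, h3, h4, h5, h6, h7, h8, h9, h10⟩ := hC.row_next hM hL3 hs (t := 1)
      (t' := 1) (by omega) (by omega) (by omega) (by omega) hX0
    rw [map_zero] at h10
    have h11 := hC.tl_zfull_eq hM hL (W := C.a s) (by omega) hs (by omega) (by omega) (by omega)
      (by omega) h5 h6 h7 h8 (by omega) (by omega) (by omega) (by omega) (by omega) (by omega) h9
      h10
    rcases h11 with h11 | h11
    · exact Or.inl h11
    · exact Or.inr (Or.inl h11)
  · have hL2' : (C.L : ℤ) = 2 := by exact_mod_cast hL2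
    have key := hC.tl_two hM hs hL2 hX
    rcases hC.row_split hM hL2 hs (t := 1) (t' := 1) (by omega) (by omega) (by omega) (by omega)
      hX0 with h | h | h
    · obtain ⟨u, v, h1, h2, h3, h4, h5, h6, h7, h8, h9, h10⟩ := h
      rw [map_zero] at h10
      have h11 := hC.tl_zfull_eq hM hL (W := C.a s) (by omega) hs (by omega) (by omega) (by omega)
        (by omega) h5 h6 h7 h8 (by omega) (by omega) (by omega) (by omega) (by omega) (by omega) h9
        h10
      rcases h11 with h11 | h11
      · exact Or.inl h11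
      · exact Or.inr (Or.inl h11)
    · obtain ⟨ha, hb, h⟩ := h
      have g1 : C.a (s + 1) = C.a s + 1 := by omega
      have g2 : C.b (s + 1) = C.a s := by omega
      have g3 : C.b' (s + 1) = C.a s + 2 := by omega
      rcases h with ⟨hc, hd⟩ | ⟨hc, hd⟩
      · have g4 : C.c' (s + 1) = C.a s + 1 := by omega
        have g5 : C.c (s + 1) = C.a s + 1 := by omega
        have g6 : C.d' (s + 1) = C.d (s + 1) + 1 := by omega
        have h11 : (T (C.a s + 2) : LaurentPolynomial ℤ) = T (C.d (s + 1) + 1) := by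
          apply sub_one_cancel
          apply one_add_cancel
          rw [a3, g1, g2, g3, g4, g5, g6] at key
          have e1 : (T (C.a s + 2 + 2) : LaurentPolynomial ℤ) = T (C.a s + 2) * T 1 * T 1 := by
            rw [← T_add, ← T_add]
            congr 1
            ring
          have e2 : (T (C.d (s + 1) + 1 + 1) : LaurentPolynomial ℤ) = T (C.d (s + 1) + 1) * T 1 := by
            rw [← T_add]
          rw [e1, e2] at key
          linear_combination key
        have h12 := tl_one_inj h11
        exact Or.inr (Or.inr (Or.inr ⟨hL2, g1, g2, g5, by omega, a3, g3, g4, by omega⟩))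
      · exfalso
        have g4 : C.d (s + 1) = C.a s := by omega
        have g5 : C.d' (s + 1) = C.a s + 2 := by omega
        have h12 := hC.mu_T1 (show 0 < s + 1 by omega) hs (by omega)
        have g6 : C.c (s + 1) = C.a s := by omega
        have g7 : C.c' (s + 1) = C.a s + 1 := by omega
        have h11 : (T (C.a s + 2) : LaurentPolynomial ℤ) + T (C.a s) =
            T (C.a s + 1) + T (C.a s + 1) := by
          apply one_add_cancel
          rw [a3, g1, g2, g3, g4, g5, g6, g7] at key
          have e1 : (T (C.a s + 2 + 2) : LaurentPolynomial ℤ) = T (C.a s + 2) * T 1 * T 1 := by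
            rw [← T_add, ← T_add]
            congr 1
            ring
          have e2 : (T (C.a s + 2 + 1) : LaurentPolynomial ℤ) = T (C.a s + 2) * T 1 := by
            rw [← T_add]
          rw [e1, e2] at key
          linear_combination -key
        rcases tl_two_inj h11 with ⟨q1, q2⟩ | ⟨q1, q2⟩ <;> omega
    · exfalso
      obtain ⟨ha, hb, h⟩ := h
      omega

/-- the next row after a T0 row of even length difference, right side divisible by `[L]`; `L = 2`:
the unequal shifts give `DH (-1) = ± 2`, but `DH = [2] (..)` -/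
theorem next_even (hL : 2 ≤ C.L) {s : ℕ} (hs : s + 1 ≤ C.h) (h0 : C.T0 s) (hab : C.a s = C.b s)
    {R : LaurentPolynomial ℤ} (hX : C.XX (s + 1) = (T 1 - 1) * (br C.L * R)) :
    ∃ u v : ℤ, -1 ≤ u ∧ u ≤ 1 ∧ -1 ≤ v ∧ v ≤ 1 ∧
      C.a' (s + 1) = C.a (s + 1) + u ∧ C.b' (s + 1) = C.b (s + 1) + u ∧
      C.c' (s + 1) = C.c (s + 1) + v ∧ C.d' (s + 1) = C.d (s + 1) + v ∧
      brz u * C.RH (s + 1) - br C.L * (brz v * C.RG (s + 1)) = br C.L * R ∧
      u * C.lam (s + 1) - C.L * (v * C.mu (s + 1)) = C.L * ev1 R := by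
  obtain ⟨p1, p2, p3, p4⟩ := h0
  rcases (show 3 ≤ C.L ∨ C.L = 2 by omega) with hL3 | hL2
  · obtain ⟨u, v, h1, h2, h3, h4, h5, h6, h7, h8, h9, h10⟩ := hC.row_next hM hL3 hs (t := 0)
      (t' := 0) (by omega) (by omega) (by omega) (by omega) hX
    rw [map_mul, ev1_br] at h10
    exact ⟨u, v, by omega, by omega, by omega, by omega, h5, h6, h7, h8, h9, h10⟩
  · have hevm : evm (C.DH (s + 1)) = 0 := by
      have h1 : C.DH (s + 1) = br C.L * ((T 1 - 1) * R + C.DG (s + 1)) := by
        unfold Cd.XX at hX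
        linear_combination hX
      rw [h1, hL2]
      simp only [Nat.cast_ofNat]
      rw [br_two, map_mul, evm_one_add, zero_mul]
    have hm := hC.DH_mul hs
    rw [hL2] at hm
    simp only [Nat.cast_ofNat] at hm
    have a1 := hC.a_let (show s < C.h by omega)
    have b1 := hC.b_let (show s < C.h by omega)
    have a2 := hC.a'_let (show s < C.h by omega)
    have b2 := hC.b'_let (show s < C.h by omega)
    rcases hC.row_split hM hL2 hs (t := 0) (t' := 0) (by omega) (by omega) (by omega) (by omega)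
      hX with h | h | h
    · obtain ⟨u, v, h1, h2, h3, h4, h5, h6, h7, h8, h9, h10⟩ := h
      rw [map_mul, ev1_br] at h10
      exact ⟨u, v, by omega, by omega, by omega, by omega, h5, h6, h7, h8, h9, h10⟩
    · exfalso
      obtain ⟨ha, hb, -⟩ := h
      have g1 : C.a (s + 1) = C.a s + 1 := by omega
      have g2 : C.b (s + 1) = C.a s := by omega
      have g3 : C.a' (s + 1) = C.a s := by omega
      have g4 : C.b' (s + 1) = C.a s + 1 := by omega
      rw [g1, g2, g3, g4] at hm
      have h11 : C.DH (s + 1) = T (C.a s) * (1 + T 2) := by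
        apply sub_one_cancel
        have e2 : (T 2 : LaurentPolynomial ℤ) = T 1 * T 1 := by
          rw [← T_add, show (1 : ℤ) + 1 = 2 by norm_num]
        rw [hm]
        simp only [T_add, e2]
        ring
      rw [h11, map_mul, map_add, map_one, evm_even (n := 2) (by decide)] at hevm
      by_cases hp : Even (C.a s)
      · rw [evm_even hp] at hevm
        norm_num at hevm
      · rw [evm_odd hp] at hevm
        norm_num at hevm
    · exfalso
      obtain ⟨ha, hb, -⟩ := h
      have g1 : C.a (s + 1) = C.a s := by omega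
      have g2 : C.b (s + 1) = C.a s + 1 := by omega
      have g3 : C.a' (s + 1) = C.a s + 1 := by omega
      have g4 : C.b' (s + 1) = C.a s := by omega
      rw [g1, g2, g3, g4] at hm
      have h11 : C.DH (s + 1) = - (T (C.a s) * (1 + T 2)) := by
        apply sub_one_cancel
        have e2 : (T 2 : LaurentPolynomial ℤ) = T 1 * T 1 := by
          rw [← T_add, show (1 : ℤ) + 1 = 2 by norm_num]
        rw [hm]
        simp only [T_add, e2]
        ring
      rw [h11, map_neg, map_mul, map_add, map_one, evm_even (n := 2) (by decide)] at hevm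
      by_cases hp : Even (C.a s)
      · rw [evm_even hp] at hevm
        norm_num at hevm
      · rw [evm_odd hp] at hevm
        norm_num at hevm

end Cd.Ok

end Pool.Agent.Lib.MP_bb0bab_co
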