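import Pool.Agent.Lib.MP_bb0bab_co.TL03
import Pool.Agent.Lib.MP_bb0bab_co.TL02

/-!
# TL04 the first non-regular row (all L ≥ 2)

PROOF. `IsJ.toW`: `res` gives T0 and Full.  `exists_Jw`: `L ≥ 3`: `exists_J` + `toW`; `L = 2`: strong induction with `reg_step2` (X1, X2 contain `Full j`, `Full (j-1)`).
`IsJw.toJ`: obvious.
`IsJw.hh` (0.4'): put `r = J - 1`, `y = m + r ≤ 2m ≤ h`.  Suppose `h ≤ 2y`; `z = h - y ≤ y`.  Bottom row `y` is T1 (`reg r`), so at top index `z`: `d' z - d z = a' y - a y = 1`, `c' z - c z = b' y - b y = 1` (CB07 `c_eq ..`, `h - z = y`).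
So `z ≥ m` (`low`), `z = m + r'`, `r' ≤ r`, `reg r'`: `c (m+r') = q + c r'`, `c' (m+r') = q + d r' + 1`: `c r' = d r'`: row `r'` is full (`reg_full`; `r' = 0` as well, `reg_full` needs `r' < m` only).
Bottom row `z = m + r'`: `lam z = b + L - a = L` (full, regular).  `refl_len` at `z` (`h - z = y`): `lam z = d' y + 1 - c' y = 1` (`reg r`).  So `L = 1`, no.
-/

namespace Pool.Agent.Lib.MP_bb0bab_co

open LaurentPolynomial

namespace Cd

variable {C : Cd}

theorem IsJ.toW {J : ℕ} (hJ : C.IsJ J) : C.IsJw J :=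
  ⟨hJ.pos, hJ.le, hJ.reg, fun h => (hJ.res h).2, fun h => Or.inl (hJ.res h).1⟩

theorem exists_Jw (hC : C.Ok) (hM : C.M = 1) (hL : C.L = 2) : ∃ J, C.IsJw J := by
  have key : ∀ n, 1 ≤ n → n ≤ C.m → (∀ i < n, C.Reg i) ∨ ∃ J, C.IsJw J := by
    intro n h1
    induction n, h1 using Nat.le_induction with
    | base =>
      intro _
      left
      intro i hi
      have : i = 0 := by omega
      subst this
      exact hC.reg_zero hM
    | succ n h1 ih =>
      intro hn
      rcases ih (by omega) with h | h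
      · rcases hC.reg_step2 hM hL (j := n) (by omega) (by omega) h with h2 | h2 | h2 | h2
        · left
          intro i hi
          rcases Nat.lt_succ_iff_lt_or_eq.mp hi with h3 | h3
          · exact h i h3
          · subst h3; exact h2
        · right
          exact ⟨n, by omega, by omega, h, fun _ => h2.2, fun _ => Or.inl h2.1⟩
        · right
          exact ⟨n, by omega, by omega, h, fun _ => h2.fj, fun _ => Or.inr h2.fj'⟩
        · right
          exact ⟨n, by omega, by omega, h, fun _ => h2.fj, fun _ => Or.inr h2.fj'⟩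
      · exact Or.inr h
  rcases key C.m hC.hm le_rfl with h | h
  · exact ⟨C.m, hC.hm, le_rfl, h, fun h0 => absurd h0 (lt_irrefl _),
      fun h0 => absurd h0 (lt_irrefl _)⟩
  · exact h

theorem IsJw.toJ {J : ℕ} (hJ : C.IsJw J) (h0 : J < C.m → C.T0 (C.m + J)) : C.IsJ J :=
  ⟨hJ.pos, hJ.le, hJ.reg, fun h => ⟨h0 h, hJ.full h⟩⟩

theorem IsJw.hh (hC : C.Ok) (hM : C.M = 1) (hL : 2 ≤ C.L) {J : ℕ} (hJ : C.IsJw J) :
    2 * (C.m + J) ≤ C.h + 1 := by
  by_contra hcon
  have hpos := hJ.pos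
  have hle := hJ.le
  have hmh := hC.hmh
  obtain ⟨r, rfl⟩ : ∃ r, J = r + 1 := ⟨J - 1, by omega⟩
  obtain ⟨y, hy⟩ : ∃ y, y = C.m + r := ⟨_, rfl⟩
  obtain ⟨z, hz⟩ : ∃ z, z = C.h - y := ⟨_, rfl⟩
  have hyh : y ≤ C.h := by omega
  have hzy : z ≤ y := by omega
  have hhz : C.h - z = y := by omega
  have hr := hJ.reg r (by omega)
  have e1 := C.d'_eq z
  have e2 := C.d_eq z
  have e3 := C.c'_eq z
  have e4 := C.c_eq z
  rw [hhz] at e1 e2 e3 e4
  have a1 := hr.ha
  have a2 := hr.hb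
  have a3 := hr.ha'
  have a4 := hr.hb'
  rw [← hy] at a1 a2 a3 a4
  have hzm : C.m ≤ z := by
    by_contra h0
    obtain ⟨_, _, _, h4⟩ := hC.low z (by omega)
    omega
  obtain ⟨r', hr'⟩ : ∃ r', z = C.m + r' := ⟨z - C.m, by omega⟩
  have hreg := hJ.reg r' (by omega)
  have hm' : r' < C.m := by omega
  have b1 := hreg.hc
  have b2 := hreg.hc'
  rw [← hr'] at b1 b2
  have he : C.c r' = C.d r' := by omega
  obtain ⟨f1, _, _⟩ := hC.reg_full hM hm' hreg he
  have b3 := hreg.ha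
  have b4 := hreg.hb
  rw [← hr'] at b3 b4
  have l1 := hC.refl_len (y := z) (by omega)
  rw [hhz, hM] at l1
  have c1 := hr.hc'
  have c2 := hr.hd'
  rw [← hy] at c1 c2
  unfold Cd.lam at l1
  push_cast at l1
  omega

end Cd

end Pool.Agent.Lib.MP_bb0bab_co
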