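import Pool.Agent.Lib.MP_bb0bab_co.SX06
import Pool.Agent.Lib.MP_bb0bab_co.TL02
import Pool.Agent.Lib.MP_bb0bab_co.TL04

/-!
# SX31 (10.6): N = 1, (a_1, b_1) = (0, 1) (expand), all L ≥ 2
-/

namespace Pool.Agent.Lib.MP_bb0bab_co

open LaurentPolynomial

namespace Cd.Ok

variable {C : Cd} (hC : C.Ok)

include hC

theorem exp_basic (hm : 1 < C.m) (he : C.c 1 = C.d 1 + 1) :
    C.c 1 = 1 ∧ C.d 1 = 0 ∧ 1 ≤ C.q ∧ C.q + 1 < C.m := by
  have z := hC.zero
  have hh := hC.hmh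
  have lc := hC.c_let (i := 0) (by omega)
  have ld := hC.d_let (i := 0) (by omega)
  rw [zero_add, z.2.2.1] at lc
  rw [zero_add, z.2.2.2.1] at ld
  have hc : C.c 1 = 1 := by omega
  have hd : C.d 1 = 0 := by omega
  refine ⟨hc, hd, ?_, ?_⟩
  · by_contra h
    have := (hC.up hm (z := 0) (by push_cast; omega)).2.2.1
    omega
  · by_contra h
    have := (hC.dn hm (w := 1) (by push_cast; omega)).2.2.2
    omega

theorem exp_m (hm : 1 < C.m) (he : C.c 1 = C.d 1 + 1) (h1 : C.a 1 = 0) (h2 : C.b 1 = 1)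
    (hr : C.Reg 1) : (C.m : ℤ) = 2 * C.q + 1 := by
  obtain ⟨hc, hd, hq1, hqm⟩ := hC.exp_basic hm he
  have hh := hC.hmh
  obtain ⟨fa, fb, -, -⟩ := hC.full_q (k := 1) le_rfl hm.le (by push_cast; linarith)
  have cm1 : ((C.m - 1 : ℕ) : ℝ) = (C.m : ℝ) - 1 := by rw [Nat.cast_sub hm.le]; simp
  have e1 := hC.aHconv.chord (i := 1) (j := C.m - 1) (k := C.m + 1) (by omega) (by omega) (by omega)
  have e2 := hC.bKconc.chord (i := 1) (j := C.m - 1) (k := C.m + 1) (by omega) (by omega) (by omega)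
  rw [cm1] at e1 e2
  push_cast at e1 e2
  have r1 := C.aH_le 1
  have r2 := C.aH_le (C.m + 1)
  have r3 := C.a_lt (C.m - 1)
  have r4 := C.b'_le 1
  have r5 := C.b'_le (C.m + 1)
  have r6 := C.bK_lt (C.m - 1)
  rw [h1] at r1
  rw [hr.ha, h1] at r2
  rw [fa] at r3
  rw [(hC.low 1 hm).2.1, h2] at r4
  rw [hr.hb', h2] at r5
  rw [(hC.low (C.m - 1) (by omega)).2.1, fb] at r6
  push_cast at r1 r2 r3 r4 r5 r6
  have hmR : (3 : ℝ) ≤ C.m := by exact_mod_cast (by omega : 3 ≤ C.m)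
  have u1 : (2 * C.q : ℝ) < C.m := by
    have p1 : 0 < (C.m : ℝ) * (C.aH (C.m - 1) - (C.q - 1)) := mul_pos (by linarith) (by linarith)
    have p2 : 0 ≤ ((C.m : ℝ) - 2) * (C.q - C.aH (C.m + 1)) :=
      mul_nonneg (by linarith) (by linarith)
    nlinarith
  have u2 : (C.m : ℝ) < 2 * C.q + 2 := by
    have p1 : 0 < (C.m : ℝ) * (C.q + 1 - C.bK (C.m - 1)) := mul_pos (by linarith) (by linarith)
    have p2 : 0 ≤ ((C.m : ℝ) - 2) * (C.bK (C.m + 1) - (C.q + 2)) :=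
      mul_nonneg (by linarith) (by linarith)
    nlinarith
  have u1' : 2 * C.q < (C.m : ℤ) := by exact_mod_cast u1
  have u2' : (C.m : ℤ) < 2 * C.q + 2 := by exact_mod_cast u2
  omega

theorem exp_even (hmq : (C.m : ℤ) = 2 * C.q + 1) {t : ℕ} (ht : 2 * t < C.m) :
    C.a (2 * t) = t ∧ C.b (2 * t) = t ∧ C.c (2 * t) = t ∧ C.d (2 * t) = t := by
  apply hC.full_val ht
  · rw [hmq]; push_cast; nlinarith [Nat.cast_nonneg (α := ℤ) t]
  · rw [hmq]; push_cast; nlinarith [Nat.cast_nonneg (α := ℤ) t]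

theorem exp_odd (hm : 1 < C.m) (he : C.c 1 = C.d 1 + 1) (h1 : C.a 1 = 0) (h2 : C.b 1 = 1)
    (hr : C.Reg 1) {t : ℕ} (ht : 2 * t + 1 < C.m) :
    C.a (2 * t + 1) = t ∧ C.b (2 * t + 1) = t + 1 ∧ C.c (2 * t + 1) = t + 1 ∧
      C.d (2 * t + 1) = t := by
  have hmq := hC.exp_m hm he h1 h2 hr
  obtain ⟨hc, hd, hq1, hqm⟩ := hC.exp_basic hm he
  have hh := hC.hmh
  have hmqR : (C.m : ℝ) = 2 * C.q + 1 := by exact_mod_cast hmq
  have e1 := hC.aHconv.chord (i := 1) (j := 2 * t + 1) (k := C.m + 1) (by omega) (by omega) (by omega)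
  have e2 := hC.bKconc.chord (i := 1) (j := 2 * t + 1) (k := C.m + 1) (by omega) (by omega) (by omega)
  push_cast at e1 e2
  have r1 := C.aH_le 1
  have r2 := C.aH_le (C.m + 1)
  have r4 := C.b'_le 1
  have r5 := C.b'_le (C.m + 1)
  rw [h1] at r1
  rw [hr.ha, h1] at r2
  rw [(hC.low 1 hm).2.1, h2] at r4
  rw [hr.hb', h2] at r5
  push_cast at r1 r2 r4 r5
  have ht0 : (0 : ℝ) ≤ t := Nat.cast_nonneg t
  have htm : (2 * t + 1 : ℝ) < C.m := by exact_mod_cast ht
  have hq1R : (1 : ℝ) ≤ C.q := by exact_mod_cast hq1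
  have ua : C.a (2 * t + 1) ≤ t := by
    apply C.a_le_of
    push_cast
    have p1 : 0 ≤ ((C.m : ℝ) - 2 * t) * (0 - C.aH 1) := mul_nonneg (by linarith) (by linarith)
    have p2 : 0 ≤ (2 * (t : ℝ)) * (C.q - C.aH (C.m + 1)) := mul_nonneg (by linarith) (by linarith)
    by_contra hcon
    have p3 : 0 < (C.m : ℝ) * (C.aH (2 * t + 1) - t) := mul_pos (by linarith) (by linarith)
    nlinarith
  have ub : t + 1 ≤ C.b (2 * t + 1) := by
    rw [← (hC.low _ ht).2.1]
    apply C.b'_ge_of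
    push_cast
    have p1 : 0 ≤ ((C.m : ℝ) - 2 * t) * (C.bK 1 - 1) := mul_nonneg (by linarith) (by linarith)
    have p2 : 0 ≤ (2 * (t : ℝ)) * (C.bK (C.m + 1) - (C.q + 2)) :=
      mul_nonneg (by linarith) (by linarith)
    by_contra hcon
    have p3 : 0 < (C.m : ℝ) * (t + 1 - C.bK (2 * t + 1)) := mul_pos (by linarith) (by linarith)
    nlinarith
  have up := hC.up ht (z := t + 1) (by rw [hmq]; push_cast; nlinarith [Nat.cast_nonneg (α := ℤ) t])
  have dn := hC.dn ht (w := t) (by rw [hmq]; push_cast; nlinarith [Nat.cast_nonneg (α := ℤ) t])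
  have lo := hC.lo ht
  omega

theorem exp_reg (_hM : C.M = 1) (hE : C.Ev 1) (hm : 1 < C.m) {J : ℕ} (hJ : C.IsJw J) : 2 ≤ J := by
  have := hJ.pos
  by_contra h
  have hJ1 : J = 1 := by omega
  subst hJ1
  exact hE.nf (hJ.full hm)

/-- slope of `aK` after `m` is more than `1/2` -/
theorem exp_aK (hmq : (C.m : ℤ) = 2 * C.q + 1) (hq1 : 1 ≤ C.q) (hm : 1 < C.m) (h1 : C.a 1 = 0)
    {y : ℕ} (hy : C.m ≤ y) (hyh : y ≤ C.h) : (C.q : ℝ) + ((y : ℝ) - C.m) / 2 < C.aK y := by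
  have hmqR : (C.m : ℝ) = 2 * C.q + 1 := by exact_mod_cast hmq
  have hq1R : (1 : ℝ) ≤ C.q := by exact_mod_cast hq1
  have r1 := C.aK_le 1
  have r2 := C.a'_lt C.m
  rw [(hC.low 1 hm).1, h1] at r1
  rw [hC.am'] at r2
  push_cast at r1 r2
  have s := hC.aKconv.slope (i := 1) (i' := C.m) (j := C.m) (j' := y) hm.le hy hm.le hy hyh
  push_cast at s
  have hyR : (C.m : ℝ) ≤ y := by exact_mod_cast hy
  have p1 : (C.q : ℝ) * ((y : ℝ) - C.m) ≤ (C.aK C.m - C.aK 1) * ((y : ℝ) - C.m) :=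
    mul_le_mul_of_nonneg_right (by linarith) (by linarith)
  have e : (C.m : ℝ) - 1 = 2 * C.q := by linarith
  rw [e] at s
  have p2 : ((y : ℝ) - C.m) / 2 ≤ C.aK y - C.aK C.m := by
    by_contra hcon
    have := mul_lt_mul_of_pos_right (not_le.1 hcon) (by linarith : (0 : ℝ) < 2 * C.q)
    nlinarith
  linarith

theorem exp_J (hM : C.M = 1) (hE : C.Ev 1) (hm : 1 < C.m) (he : C.c 1 = C.d 1 + 1)
    (h1 : C.a 1 = 0) (h2 : C.b 1 = 1) {J : ℕ} (hJ : C.IsJw J) : J = C.m := by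
  have hJ2 := hC.exp_reg hM hE hm hJ
  have hr : C.Reg 1 := hJ.reg 1 (by omega)
  have hmq := hC.exp_m hm he h1 h2 hr
  obtain ⟨hc, hd, hq1, hqm⟩ := hC.exp_basic hm he
  by_contra hne
  have hJm : J < C.m := lt_of_le_of_ne hJ.le hne
  have hf := hJ.full hJm
  have hh := hC.hmh
  rcases Nat.even_or_odd' J with ⟨t, rfl | rfl⟩
  · -- J = 2t
    obtain ⟨n, rfl⟩ : ∃ n, t = n + 1 := ⟨t - 1, by omega⟩
    have e1 : 2 * (n + 1) - 1 = 2 * n + 1 := by omega
    have ho := hC.exp_odd hm he h1 h2 hr (t := n) (by omega)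
    have h0 : C.T0 (C.m + 2 * (n + 1)) := by
      rcases hJ.alt hJm with h | h
      · exact h
      · rw [e1] at h
        have := h.1
        omega
    have hJ' := hJ.toJ (fun _ => h0)
    have hj := (hJ'.jump hC hJm).1
    rw [e1, ho.1] at hj
    have ha := h0.1
    have hk := hC.exp_aK hmq hq1 hm h1 (y := C.m + 2 * (n + 1)) (by omega) (by omega)
    have hk2 := C.aK_le (C.m + 2 * (n + 1))
    rw [ha, hj] at hk2
    push_cast at hk hk2
    linarith
  · have ho := hC.exp_odd hm he h1 h2 hr hJm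
    have := hf.1
    omega

/-- row `2m` -/
theorem exp_row2m (hM : C.M = 1) (hL : 2 ≤ C.L) (hm : 1 < C.m) (he : C.c 1 = C.d 1 + 1)
    (h1 : C.a 1 = 0) (h2 : C.b 1 = 1) (hJ : C.IsJw C.m) :
    C.T0 (C.m + C.m) ∧ C.a (C.m + C.m) = C.m ∧ C.b (C.m + C.m) = C.m ∧ C.c (C.m + C.m) = C.m ∧
      C.d (C.m + C.m) = C.m ∧ 4 * C.m + 1 ≤ C.h := by
  have hr : C.Reg 1 := hJ.reg 1 hm
  have hmq := hC.exp_m hm he h1 h2 hr
  obtain ⟨hc, hd, hq1, hqm⟩ := hC.exp_basic hm he
  have hh := hJ.hh hC hM hL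
  obtain ⟨p, hp⟩ := Int.eq_ofNat_of_zero_le (by omega : 0 ≤ C.q)
  have hmp : C.m = 2 * p + 1 := by omega
  have ev := hC.exp_even hmq (t := p) (by omega)
  have rs := hJ.reg (2 * p) (by omega)
  have es : C.m + C.m = C.m + 2 * p + 1 := by omega
  have hmqR : (C.m : ℝ) = 2 * C.q + 1 := by exact_mod_cast hmq
  have hq1R : (1 : ℝ) ≤ C.q := by exact_mod_cast hq1
  -- the full T1 row 2m - 1
  have wa : C.a (C.m + 2 * p) = 2 * p := by rw [rs.ha, ev.1, hp]; ring
  have wb : C.b (C.m + 2 * p) = 2 * p := by rw [rs.hb, ev.2.1, hp]; ring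
  have wc : C.c (C.m + 2 * p) = 2 * p := by rw [rs.hc, ev.2.2.1, hp]; ring
  have wd : C.d (C.m + 2 * p) = 2 * p := by rw [rs.hd, ev.2.2.1, hp]; ring
  have wa' : C.a' (C.m + 2 * p) = 2 * p + 1 := by rw [rs.ha', ev.1, hp]; ring
  have wb' : C.b' (C.m + 2 * p) = 2 * p + 1 := by rw [rs.hb', ev.2.1, hp]; ring
  have wc' : C.c' (C.m + 2 * p) = 2 * p + 1 := by rw [rs.hc', ev.2.2.2, hp]; ring
  have wd' : C.d' (C.m + 2 * p) = 2 * p + 1 := by rw [rs.hd', ev.2.2.2, hp]; ring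
  have hT1 : C.T1 (C.m + 2 * p) := ⟨by rw [wa', wa], by rw [wb', wb], by rw [wc', wc], by rw [wd', wd]⟩
  have hF : C.Full (C.m + 2 * p) := ⟨by rw [wb, wa], by rw [wc, wa], by rw [wd, wa]⟩
  have hX := (hJ.toJ (fun h => absurd h (lt_irrefl _))).X_2m hC hM
  rw [es] at hX
  have r1 := C.aK_le 1
  rw [(hC.low 1 hm).1, h1] at r1
  push_cast at r1
  have r2 := C.b_le 1
  rw [h2] at r2
  push_cast at r2
  have hT0 : C.T0 (C.m + 2 * p + 1) := by
    rcases hC.zfull hM hL (s := C.m + 2 * p) (by omega) (by omega) hT1 hF hX with h | h | h | h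
    · exact h
    · exfalso
      obtain ⟨ht, hf⟩ := h
      have s1 := hC.S_b (i := 1) (i' := C.m) (k := 0) (k' := C.m + 2 * p + 1) hm.le (by omega)
        (by omega) (by omega)
      have s2 := hC.S_a' (i := 1) (i' := C.m) (k := 0) (k' := C.m + 2 * p + 1) hm.le (by omega)
        (by omega) (by omega)
      have z := hC.top0
      rw [z.2.2.1] at s1
      rw [z.2.1] at s2
      have r3 := C.bH_lt C.m
      rw [hC.bm] at r3
      have r4 := C.a'_lt C.m
      rw [hC.am'] at r4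
      have r5 := C.c'_lt (C.m + 2 * p + 1)
      rw [ht.2.2.1, hf.2.1] at r5
      have r6 := C.rK_lt (C.m + 2 * p + 1)
      rw [hf.2.2] at r6
      have e3 : ((C.m + 2 * p + 1 : ℕ) : ℝ) = 2 * C.m := by
        rw [← es]; push_cast; ring
      rw [e3] at s1 s2
      push_cast at s1 s2 r3 r4 r5 r6
      have hm0 : (0 : ℝ) < C.m := by linarith
      have t1 : C.lH (C.m + 2 * p + 1) < C.m := by
        by_contra hcon
        have p1 := mul_le_mul_of_nonneg_right (not_lt.1 hcon) (by linarith : (0 : ℝ) ≤ C.m - 1)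
        have p2 : (C.bH C.m - C.bH 1) * (2 * C.m - 0) < C.q * (2 * C.m - 0) :=
          mul_lt_mul_of_pos_right (by linarith) (by linarith)
        nlinarith
      have t2 : (C.m : ℝ) < C.rK (C.m + 2 * p + 1) := by
        by_contra hcon
        have p1 := mul_le_mul_of_nonneg_right (not_lt.1 hcon) (by linarith : (0 : ℝ) ≤ C.m - 1)
        have p2 : C.q * (2 * C.m - 0) < (C.aK C.m - C.aK 1) * (2 * C.m - 0) :=
          mul_lt_mul_of_pos_right (by linarith) (by linarith)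
        nlinarith
      have t3 : (C.a (C.m + 2 * p + 1) : ℝ) < (C.m : ℤ) := by push_cast; linarith
      have t4 : ((C.m : ℤ) : ℝ) < C.a (C.m + 2 * p + 1) + 1 := by push_cast; linarith
      have t5 : C.a (C.m + 2 * p + 1) < (C.m : ℤ) := by exact_mod_cast t3
      have t6 : (C.m : ℤ) < C.a (C.m + 2 * p + 1) + 1 := by exact_mod_cast t4
      omega
    · exfalso
      have r3 := C.a'_lt (C.m + 2 * p + 1)
      rw [h, wa] at r3
      have s1 := hC.W_a' (i := 1) (k := 0) (l := C.m + 2 * p) (by omega)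
      rw [zero_add, hC.top0.2.1, add_comm 1 (C.m + 2 * p)] at s1
      have r4 := C.rK_lt (C.m + 2 * p)
      rw [wd] at r4
      push_cast at r3 r4
      linarith
    · exfalso
      have r3 := C.bH_lt (C.m + 2 * p + 1)
      rw [h.2.2.1, wa] at r3
      have s1 := hC.W_b (i := 1) (k := 0) (l := C.m + 2 * p) (by omega)
      rw [zero_add, hC.top0.2.2.1, add_comm 1 (C.m + 2 * p)] at s1
      have r4 := C.c'_lt (C.m + 2 * p)
      rw [wc'] at r4
      push_cast at r3 r4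
      linarith
  have la := hC.a_let (i := C.m + 2 * p) (by omega)
  have lb := hC.b_let (i := C.m + 2 * p) (by omega)
  have lc := hC.c_let (i := C.m + 2 * p) (by omega)
  have ld := hC.d_let (i := C.m + 2 * p) (by omega)
  have la' := hC.a'_let (i := C.m + 2 * p) (by omega)
  have lb' := hC.b'_let (i := C.m + 2 * p) (by omega)
  have lc' := hC.c'_let (i := C.m + 2 * p) (by omega)
  have ld' := hC.d'_let (i := C.m + 2 * p) (by omega)
  obtain ⟨t1, t2, t3, t4⟩ := hT0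
  have va : C.a (C.m + 2 * p + 1) = C.m := by omega
  have vb : C.b (C.m + 2 * p + 1) = C.m := by omega
  have vc : C.c (C.m + 2 * p + 1) = C.m := by omega
  have vd : C.d (C.m + 2 * p + 1) = C.m := by omega
  have hno : 2 * (C.m + C.m) + 1 ≤ C.h := by
    apply hC.no_overlap (y := C.m + C.m) (by omega)
    intro j hj
    have e : C.lam (C.m + C.m) = C.L := by
      unfold Cd.lam
      rw [es, va, vb]; ring
    rw [e, hM]
    rcases Nat.lt_or_ge j C.m with hjm | hjm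
    · have h3 := hC.mu_le hjm
      unfold Cd.mu at h3
      rw [hM] at h3
      obtain ⟨-, -, h4, h5⟩ := hC.low j hjm
      rw [h4, h5]
      omega
    · obtain ⟨i, rfl⟩ := Nat.exists_eq_add_of_le hjm
      rcases Nat.lt_or_ge i C.m with him | him
      · have ri := hJ.reg i him
        rw [ri.hc', ri.hd']
        omega
      · have : i = C.m := by omega
        subst this
        rw [es, t3, t4, vc, vd]
        omega
  rw [es]
  exact ⟨⟨t1, t2, t3, t4⟩, va, vb, vc, vd, by omega⟩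

/-- equation of row `2m + 1` -/
theorem exp_X (hM : C.M = 1) (hm : 1 < C.m) (he : C.c 1 = C.d 1 + 1) (hJ : C.IsJw C.m)
    (h0 : C.T0 (C.m + C.m)) (hh : 4 * C.m + 1 ≤ C.h) :
    C.XX (C.m + C.m + 1) = (T 1 - 1) * (br C.L * (- T (2 * C.q + 1))) := by
  have hr : C.Reg 1 := hJ.reg 1 hm
  obtain ⟨hc, hd, -, -⟩ := hC.exp_basic hm he
  have hX := (hJ.toJ (fun h => absurd h (lt_irrefl _))).X_2m1 hC hM (by omega)
  have e1 : C.DG (C.m + C.m) = 0 := by
    unfold Cd.DG Cd.RG' Cd.RG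
    rw [h0.2.2.1, h0.2.2.2]; simp
  have e2 : C.kap 1 = C.RH 1 := hC.kap_emp hM (by omega)
  have e3 : C.RH (C.m + 1) = T C.q * C.RH 1 := by
    unfold Cd.RH
    rw [hr.ha, hr.hb, T_mul_rowPoly]
    congr 1; ring
  have e4 : C.RG (C.m + 1) = T (C.q + 1) := by
    unfold Cd.RG
    rw [hr.hc, hr.hd, hM, hc]
    have : C.q + 1 + ((1 : ℕ) : ℤ) - 1 = C.q + 1 := by push_cast; ring
    rw [this]
    simp [rowPoly]
  have e5 : C.kap (C.m + 1) = T C.q * C.RH 1 - br C.L * T (C.q + 1) := by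
    unfold Cd.kap
    rw [e3, e4]
  have e6 : (T (2 * C.q + 1) : LaurentPolynomial ℤ) = T C.q * T (C.q + 1) := by
    rw [← T_add]; congr 1; ring
  rw [hX, e1, e2, e5, e6]
  unfold Cd.PP
  ring

theorem case01 (hM : C.M = 1) (hL : 2 ≤ C.L) (hE : C.Ev 1) (hm : 1 < C.m)
    (he : C.c 1 = C.d 1 + 1) {J : ℕ} (hJ : C.IsJw J) (h1 : C.a 1 = 0) (h2 : C.b 1 = 1) : False := by
  have hJm := hC.exp_J hM hE hm he h1 h2 hJ
  subst hJm
  have hr : C.Reg 1 := hJ.reg 1 hm
  have hmq := hC.exp_m hm he h1 h2 hr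
  obtain ⟨hc, hd, hq1, hqm⟩ := hC.exp_basic hm he
  obtain ⟨h0, va, vb, vc, vd, hh⟩ := hC.exp_row2m hM hL hm he h1 h2 hJ
  have hX := hC.exp_X hM hm he hJ h0 hh
  obtain ⟨u, v, hu1, hu2, hv1, hv2, ha, hb, hcc, hdd, -, hmass⟩ :=
    hC.next_even hM hL (s := C.m + C.m) (by omega) h0 (by rw [va, vb]) hX
  rw [map_neg, ev1_T] at hmass
  have hmqR : (C.m : ℝ) = 2 * C.q + 1 := by exact_mod_cast hmq
  have hk := hC.exp_aK hmq hq1 hm h1 (y := C.m + C.m + 1) (by omega) (by omega)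
  have ha2 : C.m + 1 ≤ C.a' (C.m + C.m + 1) := by
    apply C.a'_ge_of
    push_cast at hk ⊢
    linarith
  have la := hC.a_let (i := C.m + C.m) (by omega)
  have lb := hC.b_let (i := C.m + C.m) (by omega)
  have lc := hC.c_let (i := C.m + C.m) (by omega)
  have ld := hC.d_let (i := C.m + C.m) (by omega)
  have la' := hC.a'_let (i := C.m + C.m) (by omega)
  have lc' := hC.c'_let (i := C.m + C.m) (by omega)
  have ld' := hC.d'_let (i := C.m + C.m) (by omega)
  obtain ⟨t1, t2, t3, t4⟩ := h0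
  have hu0 : u = 0 ∨ u = 1 := by omega
  have hlam : 0 < C.lam (C.m + C.m + 1) := by unfold Cd.lam; omega
  have hmu := hC.mu_nn (j := C.m + C.m + 1) (by omega)
  have hLp : (2 : ℤ) ≤ C.L := by exact_mod_cast hL
  have hv : v = -1 ∨ v = 0 ∨ v = 1 := by omega
  have hul : 0 ≤ u * C.lam (C.m + C.m + 1) := by
    rcases hu0 with rfl | rfl <;> linarith
  rcases hv with rfl | rfl | rfl
  · have : 0 ≤ (C.L : ℤ) * C.mu (C.m + C.m + 1) := mul_nonneg (by omega) hmu
    nlinarith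
  · nlinarith
  · have hmu1 : C.mu (C.m + C.m + 1) = 1 := by
      unfold Cd.mu
      rw [hM]; push_cast; omega
    rw [hmu1] at hmass
    have hu : u = 0 := by
      rcases hu0 with h | h
      · exact h
      · rw [h] at hmass; linarith
    have haa : C.a (C.m + C.m + 1) = C.m + 1 := by omega
    have r1 := C.a_lt (C.m + C.m + 1)
    rw [haa] at r1
    have r2 := C.aH_le (C.m + 1)
    rw [hr.ha, h1] at r2
    have r3 := C.rH_lt (C.m + C.m)
    rw [t4, vd] at r3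
    have s1 := hC.S_a (i := C.m + 1) (i' := C.m + C.m + 1) (k := 0) (k' := C.m + C.m) (by omega)
      (by omega) (by omega) (by omega)
    rw [hC.top0.2.2.2] at s1
    push_cast at r1 r2 r3 s1
    have hq1R : (1 : ℝ) ≤ C.q := by exact_mod_cast hq1
    have p1 : ((C.q : ℝ) + 1) * (C.m + C.m - 0) <
        (C.aH (C.m + C.m + 1) - C.aH (C.m + 1)) * (C.m + C.m - 0) :=
      mul_lt_mul_of_pos_right (by linarith) (by linarith)
    have p2 : C.rH (C.m + C.m) * (C.m : ℝ) < (C.m + 1) * C.m :=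
      mul_lt_mul_of_pos_right (by linarith) (by linarith)
    nlinarith

end Cd.Ok

end Pool.Agent.Lib.MP_bb0bab_co
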