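import Pool.Agent.Lib.MP_bb0bab_co.CB01
import Pool.Agent.Lib.MP_bb0bab_co.SX02

/-!
# SX03 the algebra of one row (M = 1)
-/

namespace Pool.Agent.Lib.MP_bb0bab_co

open LaurentPolynomial

theorem ev1_T (n : ℤ) : ev1 (T n) = 1 := by
  unfold ev1
  rw [LaurentPolynomial.eval₂_T]
  simp

theorem ev1_row {a b : ℤ} (h : a ≤ b + 1) : ev1 (rowPoly a b) = b + 1 - a := by
  rw [eval_rowPoly ev1 (ev1_T 1) a b]
  have h1 : ((b + 1 - a).toNat : ℤ) = b + 1 - a := Int.toNat_of_nonneg (by omega)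
  exact h1

theorem ev1_br (n : ℕ) : ev1 (br n) = n := by
  unfold br
  rw [ev1_row (by omega)]
  ring

theorem brz_mul (n : ℤ) : (T 1 - 1) * brz n = T n - 1 := by
  unfold brz
  split_ifs with h
  · rw [sub_one_mul_rowPoly (by omega), sub_add_cancel, T_zero]
  · rw [mul_neg, sub_one_mul_rowPoly (by omega), show (-1 : ℤ) + 1 = 0 by norm_num, T_zero]
    ring

theorem ev1_brz (n : ℤ) : ev1 (brz n) = n := by
  unfold brz
  split_ifs with h
  · rw [ev1_row (by omega)]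
    ring
  · rw [map_neg, ev1_row (by omega)]
    ring

theorem brz_zero : brz 0 = 0 := by
  apply sub_one_cancel
  rw [brz_mul, T_zero]
  ring

theorem brz_one : brz 1 = 1 := by
  apply sub_one_cancel
  rw [brz_mul]
  ring

theorem brz_two : brz 2 = 1 + T 1 := by
  apply sub_one_cancel
  rw [brz_mul, show (2 : ℤ) = 1 + 1 by norm_num, T_add]
  ring

theorem brz_neg_one : brz (-1) = - T (-1) := by
  apply sub_one_cancel
  rw [brz_mul]
  have h : (T 1 : LaurentPolynomial ℤ) * T (-1) = 1 := by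
    rw [← T_add, show (1 : ℤ) + -1 = 0 by norm_num, T_zero]
  linear_combination h

theorem br_one : br 1 = 1 := by
  apply sub_one_cancel
  unfold br
  rw [sub_one_mul_rowPoly (by norm_num), show (1 : ℤ) - 1 + 1 = 1 by norm_num, T_zero]
  ring

theorem row_inj {a b a' b' : ℤ} (h : a ≤ b) (h' : rowPoly a b = rowPoly a' b') :
    a' = a ∧ b' = b := by
  by_cases h1 : a' ≤ b' + 1
  · have h2 := congrArg (fun p => (T 1 - 1) * p) h'
    rw [sub_one_mul_rowPoly (by omega), sub_one_mul_rowPoly h1] at h2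
    have h3 : ((({b + 1, a'} : Multiset ℤ)).map (fun n => (T n : LaurentPolynomial ℤ))).sum =
        ((({b' + 1, a} : Multiset ℤ)).map (fun n => (T n : LaurentPolynomial ℤ))).sum := by
      simp only [Multiset.insert_eq_cons, Multiset.map_cons, Multiset.map_singleton,
        Multiset.sum_cons, Multiset.sum_singleton]
      linear_combination h2
    have h4 := T_sum_inj _ _ h3
    have h5 : b + 1 ∈ ({b' + 1, a} : Multiset ℤ) := by
      rw [← h4]
      simp
    have h6 := congrArg Multiset.sum h4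
    simp only [Multiset.insert_eq_cons, Multiset.mem_cons, Multiset.mem_singleton,
      Multiset.sum_cons, Multiset.sum_singleton] at h5 h6
    omega
  · exfalso
    rw [rowPoly_empty (show b' < a' by omega)] at h'
    have h2 := congrArg ev1 h'
    rw [ev1_row (by omega), map_zero] at h2
    omega

theorem row_mul {L : ℕ} (hL : 2 ≤ L) {a b c d : ℤ} (hab : a ≤ b) (hcd : c ≤ d)
    (h : rowPoly a b = br L * rowPoly c d) : c = a ∧ d = a ∧ b = a + L - 1 := by
  obtain ⟨l, hl⟩ := Int.le.dest (show a ≤ b + 1 by omega)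
  obtain ⟨k, hk⟩ := Int.le.dest (show c ≤ d + 1 by omega)
  have h1 := congrArg (fun p => (T 1 - 1) * ((T 1 - 1) * p)) h
  have h2 : (T 1 - 1) * br L = T L - 1 := by
    unfold br
    rw [sub_one_mul_rowPoly (by omega), sub_add_cancel, T_zero]
  have h3 : (T 1 - 1) * ((T 1 - 1) * (br L * rowPoly c d)) =
      ((T 1 - 1) * br L) * ((T 1 - 1) * rowPoly c d) := by ring
  rw [h3, h2, sub_one_mul_rowPoly (by omega), sub_one_mul_rowPoly (by omega), ← hl, ← hk,
    T_add, T_add] at h1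
  have h4 : (T a : LaurentPolynomial ℤ) * ((T ((1 : ℕ) : ℤ) - 1) * (T (l : ℤ) - 1)) =
      T c * ((T (L : ℤ) - 1) * (T (k : ℤ) - 1)) := by
    rw [Nat.cast_one]
    linear_combination h1
  have h5 := alg2 (by norm_num) (by omega) (by omega) (by omega) h4
  obtain ⟨h5, h6⟩ := h5
  rcases h6 with ⟨h6, h7⟩ | ⟨h6, h7⟩
  · omega
  · subst h7
    subst h6
    refine ⟨h5.symm, ?_, ?_⟩ <;> omega

namespace Cd.Ok

variable {C : Cd} (hC : C.Ok) (hM : C.M = 1)

include hC hM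

theorem ev1_RH {s : ℕ} (hs : s ≤ C.h) : ev1 (C.RH s) = C.lam s := by
  have h := hC.lam_nn hs
  unfold Cd.lam at h
  unfold Cd.RH Cd.lam
  rw [ev1_row (by omega)]
  ring

theorem ev1_RK {s : ℕ} (hs : s ≤ C.h) : ev1 (C.RK s) = C.b' s + C.L - C.a' s := by
  have h := hC.lam'_nn hs
  unfold Cd.RK
  rw [ev1_row (by omega)]
  ring

theorem ev1_RG {s : ℕ} (hs : s ≤ C.h) : ev1 (C.RG s) = C.mu s := by
  have h := hC.mu_nn hs
  unfold Cd.mu at h
  unfold Cd.RG Cd.mu
  rw [ev1_row (by omega)]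
  ring

theorem ev1_RG' {s : ℕ} (hs : s ≤ C.h) : ev1 (C.RG' s) = C.d' s + C.M - C.c' s := by
  have h := hC.mu'_nn hs
  unfold Cd.RG'
  rw [ev1_row (by omega)]
  ring

theorem X_mass {s : ℕ} (hs : s ≤ C.h) {R : LaurentPolynomial ℤ} (hX : C.XX s = (T 1 - 1) * R) :
    (C.b' s - C.b s) - (C.a' s - C.a s) = C.L * ((C.d' s - C.d s) - (C.c' s - C.c s)) := by
  have h := congrArg ev1 hX
  rw [map_mul, map_sub, ev1_T, map_one, sub_self, zero_mul] at h
  unfold Cd.XX Cd.DH Cd.DG at h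
  rw [map_sub, map_sub, map_mul, map_sub, ev1_br, hC.ev1_RK hM hs, hC.ev1_RH hM hs,
    hC.ev1_RG' hM hs, hC.ev1_RG hM hs] at h
  unfold Cd.lam Cd.mu at h
  linear_combination h

theorem X_div {s : ℕ} {u v : ℤ} (ha : C.a' s = C.a s + u) (hb : C.b' s = C.b s + u)
    (hc : C.c' s = C.c s + v) (hd : C.d' s = C.d s + v) {R : LaurentPolynomial ℤ}
    (hX : C.XX s = (T 1 - 1) * R) :
    brz u * C.RH s - br C.L * (brz v * C.RG s) = R := by
  apply sub_one_cancel
  rw [← hX]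
  have h1 : C.RK s = T u * C.RH s := by
    unfold Cd.RK Cd.RH
    rw [T_mul_rowPoly, ha, hb]
    congr 1 <;> ring
  have h2 : C.RG' s = T v * C.RG s := by
    unfold Cd.RG' Cd.RG
    rw [T_mul_rowPoly, hc, hd]
    congr 1 <;> ring
  unfold Cd.XX Cd.DH Cd.DG
  rw [h1, h2]
  have h3 := brz_mul u
  have h4 := brz_mul v
  linear_combination C.RH s * h3 - br C.L * C.RG s * h4

theorem X_div_mass {s : ℕ} (hs : s ≤ C.h) {u v : ℤ} (ha : C.a' s = C.a s + u)
    (hb : C.b' s = C.b s + u) (hc : C.c' s = C.c s + v) (hd : C.d' s = C.d s + v)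
    {R : LaurentPolynomial ℤ} (hX : C.XX s = (T 1 - 1) * R) :
    u * C.lam s - C.L * (v * C.mu s) = ev1 R := by
  have h := congrArg ev1 (hC.X_div hM ha hb hc hd hX)
  rw [map_sub, map_mul, map_mul, map_mul, ev1_brz, ev1_brz, ev1_br, hC.ev1_RH hM hs,
    hC.ev1_RG hM hs] at h
  exact h

/-- the row after a row with equal shifts on both sides -/
theorem row_next (hL : 3 ≤ C.L) {s : ℕ} (hs : s + 1 ≤ C.h) {t t' : ℤ} (ha : C.a' s = C.a s + t)
    (hb : C.b' s = C.b s + t) (hc : C.c' s = C.c s + t') (hd : C.d' s = C.d s + t')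
    {R : LaurentPolynomial ℤ} (hX : C.XX (s + 1) = (T 1 - 1) * R) :
    ∃ u v : ℤ, t - 1 ≤ u ∧ u ≤ t + 1 ∧ t' - 1 ≤ v ∧ v ≤ t' + 1 ∧
      C.a' (s + 1) = C.a (s + 1) + u ∧ C.b' (s + 1) = C.b (s + 1) + u ∧
      C.c' (s + 1) = C.c (s + 1) + v ∧ C.d' (s + 1) = C.d (s + 1) + v ∧
      brz u * C.RH (s + 1) - br C.L * (brz v * C.RG (s + 1)) = R ∧
      u * C.lam (s + 1) - C.L * (v * C.mu (s + 1)) = ev1 R := by
  have a1 := hC.a_let (show s < C.h by omega)
  have b1 := hC.b_let (show s < C.h by omega)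
  have c1 := hC.c_let (show s < C.h by omega)
  have d1 := hC.d_let (show s < C.h by omega)
  have a2 := hC.a'_let (show s < C.h by omega)
  have b2 := hC.b'_let (show s < C.h by omega)
  have c2 := hC.c'_let (show s < C.h by omega)
  have d2 := hC.d'_let (show s < C.h by omega)
  have hm := hC.X_mass hM hs hX
  have hv : (C.d' (s + 1) - C.d (s + 1)) - (C.c' (s + 1) - C.c (s + 1)) = 0 := by
    by_contra hne
    have h3 : (3 : ℤ) ≤ C.L := by exact_mod_cast hL
    rcases lt_or_gt_of_ne hne with h | h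
    · have h4 : (C.d' (s + 1) - C.d (s + 1)) - (C.c' (s + 1) - C.c (s + 1)) ≤ -1 := by omega
      have h5 : (C.L : ℤ) * ((C.d' (s + 1) - C.d (s + 1)) - (C.c' (s + 1) - C.c (s + 1))) ≤ -3 := by
        nlinarith
      rw [← hm] at h5
      omega
    · have h4 : 1 ≤ (C.d' (s + 1) - C.d (s + 1)) - (C.c' (s + 1) - C.c (s + 1)) := by omega
      have h5 : 3 ≤ (C.L : ℤ) * ((C.d' (s + 1) - C.d (s + 1)) - (C.c' (s + 1) - C.c (s + 1))) := by
        nlinarith
      rw [← hm] at h5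
      omega
  rw [hv, mul_zero] at hm
  have e1 : C.a' (s + 1) = C.a (s + 1) + (C.a' (s + 1) - C.a (s + 1)) := by ring
  have e2 : C.b' (s + 1) = C.b (s + 1) + (C.a' (s + 1) - C.a (s + 1)) := by omega
  have e3 : C.c' (s + 1) = C.c (s + 1) + (C.c' (s + 1) - C.c (s + 1)) := by ring
  have e4 : C.d' (s + 1) = C.d (s + 1) + (C.c' (s + 1) - C.c (s + 1)) := by omega
  refine ⟨C.a' (s + 1) - C.a (s + 1), C.c' (s + 1) - C.c (s + 1), ?_, ?_, ?_, ?_, e1, e2, e3, e4,
    hC.X_div hM e1 e2 e3 e4 hX, hC.X_div_mass hM hs e1 e2 e3 e4 hX⟩ <;> omega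

end Cd.Ok

end Pool.Agent.Lib.MP_bb0bab_co
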