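import Pool.Agent.Lib.MP_bb0bab_co.CB12
import Pool.Agent.Lib.MP_bb0bab_co.SX03

/-!
# SX04 the equation for X (M = 1)
-/

namespace Pool.Agent.Lib.MP_bb0bab_co

open LaurentPolynomial

namespace Cd.Ok

variable {C : Cd} (hC : C.Ok) (hM : C.M = 1)

include hC hM

theorem XK {s : ℕ} (hs : s ≤ C.h) :
    ∑ i ∈ Finset.range (s + 1), C.RG i * C.XX (s - i) =
    ∑ i ∈ Finset.range (s + 1), C.kap i * C.DG (s - i) := by
  have h := conv_id hC 1 hs
  obtain ⟨a0, -, -, -, a0', -⟩ := hC.zero
  have hE : ∀ t, C.EE 1 t = C.DH t := by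
    intro t
    unfold EE DH
    rw [Finset.sum_eq_single 0]
    · rw [if_pos one_pos, a0, a0', T_zero, one_mul, one_mul, Nat.sub_zero]
    · intro l _ hl
      rw [if_neg (by omega)]
    · intro h0
      exact absurd (Finset.mem_range.mpr (Nat.succ_pos t)) h0
  have hF : ∀ t, C.FF 1 t = C.DG t := by
    intro t
    unfold FF DG
    rw [Finset.sum_eq_single 0]
    · rw [if_pos one_pos, a0, a0', T_zero, one_mul, one_mul, Nat.sub_zero]
    · intro l _ hl
      rw [if_neg (by omega)]
    · intro h0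
      exact absurd (Finset.mem_range.mpr (Nat.succ_pos t)) h0
  simp only [hE, hF] at h
  have h1 : ∑ i ∈ Finset.range (s + 1), C.RG i * C.XX (s - i) =
      ∑ i ∈ Finset.range (s + 1), C.RG i * C.DH (s - i) -
        br C.L * ∑ i ∈ Finset.range (s + 1), C.RG i * C.DG (s - i) := by
    rw [Finset.mul_sum, ← Finset.sum_sub_distrib]
    refine Finset.sum_congr rfl fun i _ => ?_
    unfold XX
    ring
  have h2 : ∑ i ∈ Finset.range (s + 1), C.kap i * C.DG (s - i) =
      ∑ i ∈ Finset.range (s + 1), C.RH i * C.DG (s - i) -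
        br C.L * ∑ i ∈ Finset.range (s + 1), C.RG i * C.DG (s - i) := by
    rw [Finset.mul_sum, ← Finset.sum_sub_distrib]
    refine Finset.sum_congr rfl fun i _ => ?_
    unfold kap
    ring
  rw [h1, h2, h]

theorem kap_zero : C.kap 0 = 0 := by
  unfold kap
  rw [RH_zero hC, RG_zero hC, hM, Nat.cast_one, br_one, mul_one, sub_self]

theorem kap_full {i : ℕ} (hf : C.Full i) : C.kap i = 0 := by
  obtain ⟨h1, h2, h3⟩ := hf
  unfold kap RH RG
  rw [h1, h2, h3, hM, rowPoly_len, rowPoly_len, Nat.cast_one, br_one]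
  ring

theorem RG_full {i : ℕ} (hf : C.Full i) : C.RG i = T (C.a i) := by
  obtain ⟨h1, h2, h3⟩ := hf
  unfold RG
  rw [h2, h3, hM, rowPoly_len, Nat.cast_one, br_one, mul_one]

theorem kap_emp {i : ℕ} (he : C.d i < C.c i) : C.kap i = C.RH i := by
  unfold kap RG
  rw [hM, rowPoly_empty (by push_cast; omega), mul_zero, sub_zero]

theorem XX_T0 {s : ℕ} (h0 : C.T0 s) : C.XX s = 0 ∧ C.DG s = 0 := by
  obtain ⟨h1, h2, h3, h4⟩ := h0
  have e1 : C.DG s = 0 := by
    unfold DG RG' RG
    rw [h3, h4, sub_self]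
  refine ⟨?_, e1⟩
  unfold XX
  rw [e1]
  unfold DH RK RH
  rw [h1, h2, sub_self, mul_zero, sub_zero]

theorem low_zero {s : ℕ} (hs : s < C.m) : C.XX s = 0 ∧ C.DG s = 0 :=
  hC.XX_T0 hM (hC.low s hs)

theorem X_step {n : ℕ} (hn : C.m + n ≤ C.h) (hX : ∀ i < n, C.XX (C.m + i) = C.PP * C.kap i) :
    C.XX (C.m + n) = C.PP * C.kap n +
      ∑ i ∈ Finset.range n, C.kap (i + 1) * C.eps (n - 1 - i) := by
  have h := hC.XK hM hn
  have hsub : Finset.range (n + 1) ⊆ Finset.range (C.m + n + 1) :=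
    Finset.range_subset_range.mpr (by omega)
  rw [← Finset.sum_subset hsub, ← Finset.sum_subset hsub] at h
  · rw [Finset.sum_range_succ', Finset.sum_range_succ', hC.kap_zero hM, zero_mul, add_zero,
      RG_zero hC, hM, Nat.cast_one, br_one, one_mul, Nat.sub_zero] at h
    have h1 : ∑ i ∈ Finset.range n, C.RG (i + 1) * C.XX (C.m + n - (i + 1)) =
        C.PP * ∑ i ∈ Finset.range n, C.RG (i + 1) * C.kap (n - 1 - i) := by
      rw [Finset.mul_sum]
      refine Finset.sum_congr rfl fun i hi => ?_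
      have hi' := Finset.mem_range.mp hi
      rw [show C.m + n - (i + 1) = C.m + (n - 1 - i) by omega, hX _ (by omega)]
      ring
    have h2 : ∑ i ∈ Finset.range n, C.kap (i + 1) * C.DG (C.m + n - (i + 1)) =
        C.PP * ∑ i ∈ Finset.range n, C.kap (i + 1) * C.RG (n - 1 - i) +
          ∑ i ∈ Finset.range n, C.kap (i + 1) * C.eps (n - 1 - i) := by
      rw [Finset.mul_sum, ← Finset.sum_add_distrib]
      refine Finset.sum_congr rfl fun i hi => ?_
      have hi' := Finset.mem_range.mp hi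
      rw [show C.m + n - (i + 1) = C.m + (n - 1 - i) by omega]
      unfold eps
      ring
    have h3 : ∑ i ∈ Finset.range (n + 1), C.kap i * C.RG (n - i) =
        ∑ i ∈ Finset.range n, C.kap (i + 1) * C.RG (n - 1 - i) := by
      rw [Finset.sum_range_succ', hC.kap_zero hM, zero_mul, add_zero]
      refine Finset.sum_congr rfl fun i hi => ?_
      rw [show n - (i + 1) = n - 1 - i by omega]
    have h4 : ∑ i ∈ Finset.range (n + 1), C.RG i * C.kap (n - i) =
        ∑ i ∈ Finset.range n, C.RG (i + 1) * C.kap (n - 1 - i) + C.kap n := by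
      rw [Finset.sum_range_succ', RG_zero hC, hM, Nat.cast_one, br_one, one_mul, Nat.sub_zero]
      refine congrArg (fun z => z + C.kap n) (Finset.sum_congr rfl fun i hi => ?_)
      rw [show n - (i + 1) = n - 1 - i by omega]
    have h5 : ∑ i ∈ Finset.range (n + 1), C.kap i * C.RG (n - i) =
        ∑ i ∈ Finset.range (n + 1), C.RG i * C.kap (n - i) := by
      rw [← Finset.sum_range_reflect]
      refine Finset.sum_congr rfl fun i hi => ?_
      have hi' := Finset.mem_range.mp hi
      rw [show n + 1 - 1 - i = n - i by omega, show n - (n - i) = i by omega]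
      ring
    rw [h3, h4] at h5
    rw [h1, h2, h5] at h
    linear_combination h
  · intro i hi1 hi2
    have h1 := Finset.mem_range.mp hi1
    have h2 : ¬ i < n + 1 := fun h0 => hi2 (Finset.mem_range.mpr h0)
    rw [(hC.low_zero hM (show C.m + n - i < C.m by omega)).2, mul_zero]
  · intro i hi1 hi2
    have h1 := Finset.mem_range.mp hi1
    have h2 : ¬ i < n + 1 := fun h0 => hi2 (Finset.mem_range.mpr h0)
    rw [(hC.low_zero hM (show C.m + n - i < C.m by omega)).1, mul_zero]

theorem X_one {n e : ℕ} (hn : C.m + n ≤ C.h) (he : e < n)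
    (hX : ∀ i < n, C.XX (C.m + i) = C.PP * C.kap i) (hε : ∀ i < n, i ≠ e → C.eps i = 0) :
    C.XX (C.m + n) = C.PP * C.kap n + C.kap (n - e) * C.eps e := by
  rw [hC.X_step hM hn hX]
  refine congrArg (fun z => C.PP * C.kap n + z) ?_
  rw [Finset.sum_eq_single (n - 1 - e)]
  · rw [show n - 1 - e + 1 = n - e by omega, show n - 1 - (n - 1 - e) = e by omega]
  · intro i hi hne
    have hi' := Finset.mem_range.mp hi
    rw [hε (n - 1 - i) (by omega) (by omega), mul_zero]
  · intro h0
    exact absurd (Finset.mem_range.mpr (by omega)) h0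

theorem X_zero {n : ℕ} (hn : C.m + n ≤ C.h)
    (hX : ∀ i < n, C.XX (C.m + i) = C.PP * C.kap i) (hε : ∀ i < n, C.eps i = 0) :
    C.XX (C.m + n) = C.PP * C.kap n := by
  rw [hC.X_step hM hn hX, Finset.sum_eq_zero, add_zero]
  intro i hi
  have hi' := Finset.mem_range.mp hi
  rw [hε (n - 1 - i) (by omega), mul_zero]

theorem reg_zero : C.Reg 0 := by
  obtain ⟨z1, z2, z3, z4, -⟩ := hC.zero
  have h1 := hC.am
  have h2 := hC.bm
  have h3 := hC.cm
  have h4 := hC.dm
  have h5 := hC.am'
  have h6 := hC.bm'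
  have h7 := hC.cm'
  have h8 := hC.dm'
  constructor <;> rw [Nat.add_zero] <;> omega

theorem reg_X {i : ℕ} (hi : i < C.m) (hr : C.Reg i) :
    C.XX (C.m + i) = C.PP * C.kap i ∧ C.eps i = 0 := by
  obtain ⟨ha, hb, hc, hd, ha', hb', hc', hd'⟩ := hr
  have e1 : C.RK (C.m + i) = T C.q * T 1 * C.RH i := by
    unfold RK RH
    rw [← T_add, T_mul_rowPoly, ha', hb']
    congr 1 <;> ring
  have e2 : C.RH (C.m + i) = T C.q * C.RH i := by
    unfold RH
    rw [T_mul_rowPoly, ha, hb]
    congr 1 <;> ring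
  have e3 : C.RG' (C.m + i) = T C.q * T 1 * T (C.d i) := by
    unfold RG'
    rw [hc', hd', hM, rowPoly_len, Nat.cast_one, br_one, mul_one, ← T_add, ← T_add]
    congr 1
    ring
  have e4 : C.RG (C.m + i) = T C.q * T (C.c i) := by
    unfold RG
    rw [hc, hd, hM, rowPoly_len, Nat.cast_one, br_one, mul_one, ← T_add]
  have h1 := (hC.lo hi).2.2
  have h2 := hC.mu_nn (show i ≤ C.h by have := hC.hmh; omega)
  unfold mu at h2
  rw [hM] at h2
  push_cast at h2
  rcases (show C.c i = C.d i ∨ C.c i = C.d i + 1 by omega) with h3 | h3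
  · have e5 : C.RG i = T (C.c i) := by
      unfold RG
      rw [← h3, hM, rowPoly_len, Nat.cast_one, br_one, mul_one]
    unfold XX eps kap DH DG PP
    rw [e1, e2, e3, e4, e5, ← h3]
    constructor <;> ring
  · have e5 : C.RG i = 0 := by
      unfold RG
      rw [hM, rowPoly_empty (by push_cast; omega)]
    have e6 : (T 1 : LaurentPolynomial ℤ) * T (C.d i) = T (C.c i) := by
      rw [← T_add, h3]
      congr 1
      ring
    unfold XX eps kap DH DG PP
    rw [e1, e2, e3, e4, e5]
    constructor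
    · linear_combination (- br C.L * T C.q) * e6
    · linear_combination T C.q * e6

/-- a resonance row: T0 and full below -/
theorem res_X {j : ℕ} (hj : j ≤ C.m) (h0 : C.T0 (C.m + j)) (hf : C.Full j) :
    C.XX (C.m + j) = C.PP * C.kap j ∧ C.eps j = - (C.PP * T (C.a j)) := by
  obtain ⟨h1, h2⟩ := hC.XX_T0 hM h0
  refine ⟨?_, ?_⟩
  · rw [h1, hC.kap_full hM hf, mul_zero]
  · unfold eps
    rw [h2, hC.RG_full hM hf, zero_sub]

theorem X_lowN {N : ℕ} (hE : C.Ev N) (hN : N < C.m) {j : ℕ} (hj : j < N) :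
    C.XX (C.m + j) = 0 := by
  induction j using Nat.strong_induction_on with
  | _ j ih =>
    have hh := hC.hmh
    rw [hC.X_step hM (by omega) ?_, hC.kap_full hM (hE.full j hj), mul_zero, zero_add]
    · refine Finset.sum_eq_zero fun i hi => ?_
      have hi' := Finset.mem_range.mp hi
      rw [hC.kap_full hM (hE.full (i + 1) (by omega)), zero_mul]
    · intro i hi
      rw [ih i hi (by omega), hC.kap_full hM (hE.full i (by omega)), mul_zero]

theorem X_atN {N : ℕ} (hE : C.Ev N) (hN : N < C.m) :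
    C.XX (C.m + N) = C.PP * C.kap N := by
  have hh := hC.hmh
  have hp := hE.pos
  rw [hC.X_step hM (by omega) ?_, Finset.sum_eq_zero, add_zero]
  · intro i hi
    have hi' := Finset.mem_range.mp hi
    rcases (show i + 1 < N ∨ i + 1 = N by omega) with h | h
    · rw [hC.kap_full hM (hE.full (i + 1) h), zero_mul]
    · rw [show N - 1 - i = 0 by omega, (hC.reg_X hM (by omega) (hC.reg_zero hM)).2, mul_zero]
  · intro i hi
    rw [hC.X_lowN hM hE hN hi, hC.kap_full hM (hE.full i hi), mul_zero]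

end Cd.Ok

end Pool.Agent.Lib.MP_bb0bab_co
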