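import Pool.Agent.Lib.MP_bb0bab_co.SX00
import Pool.Agent.Lib.MP_bb0bab_co.SX04

/-!
# SX05 (10.1) one step: row `m + j` is regular or a resonance
-/

namespace Pool.Agent.Lib.MP_bb0bab_co

open LaurentPolynomial

namespace Cd.Ok

variable {C : Cd} (hC : C.Ok) (hM : C.M = 1)

include hC hM

omit hC hM in
theorem sx05_le {x y : ℤ} (h : y = x ∨ y = x + 1) : x ≤ y ∧ y ≤ x + 1 := by omega

/-- `G_j` has at most one point for `j < m` -/
theorem c_cases {j : ℕ} (hj : j < C.m) : C.c j = C.d j ∨ C.c j = C.d j + 1 := by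
  have h1 := hC.lo hj
  have h2 := hC.mu_nn (j := j) (by have := hC.hmh; omega)
  unfold Cd.mu at h2
  rw [hM] at h2
  push_cast at h2
  omega

theorem sx05_ev {j : ℕ} (hj : j ≤ C.h) :
    ev1 (T C.q * C.kap j) = C.lam j - C.L * C.mu j := by
  have h1 := hC.lam_nn hj
  have h2 := hC.mu_nn hj
  unfold Cd.lam at h1
  unfold Cd.mu at h2
  have e1 : ev1 (C.RH j) = C.lam j := by
    unfold Cd.RH Cd.lam
    rw [ev1_row (by omega)]
    ring
  have e2 : ev1 (C.RG j) = C.mu j := by
    unfold Cd.RG Cd.mu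
    rw [ev1_row (by omega)]
    ring
  unfold Cd.kap
  rw [map_mul, map_sub, map_mul, ev1_T, ev1_br, e1, e2, one_mul]

theorem reg_step (hL : 3 ≤ C.L) {j : ℕ} (h0 : 0 < j) (hj : j < C.m) (hr : ∀ i < j, C.Reg i) :
    C.Reg j ∨ (C.T0 (C.m + j) ∧ C.Full j) := by
  obtain ⟨k, rfl⟩ : ∃ k, j = k + 1 := ⟨j - 1, by omega⟩
  have hmh := hC.hmh
  have hk : k < C.m := by omega
  have hs : C.m + k + 1 ≤ C.h := by omega
  have hsh : C.m + (k + 1) ≤ C.h := by omega
  have R := hr k (by omega)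
  -- the equation
  have hX : C.XX (C.m + (k + 1)) = (T 1 - 1) * (T C.q * C.kap (k + 1)) := by
    rw [hC.X_zero hM hsh (fun i hi => (hC.reg_X hM (by omega) (hr i hi)).1)
      (fun i hi => (hC.reg_X hM (by omega) (hr i hi)).2)]
    unfold Cd.PP
    ring
  have hcc := sx05_le (hC.c_cases hM hk)
  have hcj := sx05_le (hC.c_cases hM hj)
  have a1 := R.ha
  have a2 := R.hb
  have a3 := R.hc
  have a4 := R.hd
  have a5 := R.ha'
  have a6 := R.hb'
  have a7 := R.hc'
  have a8 := R.hd'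
  obtain ⟨u, v, hu1, hu2, hv1, hv2, b1, b2, b3, b4, hid, hmass⟩ :=
    hC.row_next hM hL (s := C.m + k) hs (t := 1) (t' := C.d k + 1 - C.c k)
      (by omega) (by omega) (by omega) (by omega) (R := T C.q * C.kap (k + 1)) hX
  rw [hC.sx05_ev hM (by omega)] at hmass
  -- letters
  have l1 := sx05_le (hC.a_let (i := C.m + k) (by omega))
  have l2 := sx05_le (hC.b_let (i := C.m + k) (by omega))
  have l3 := sx05_le (hC.c_let (i := C.m + k) (by omega))
  have l4 := sx05_le (hC.d_let (i := C.m + k) (by omega))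
  have l5 := sx05_le (hC.a'_let (i := C.m + k) (by omega))
  have l6 := sx05_le (hC.b'_let (i := C.m + k) (by omega))
  have l7 := sx05_le (hC.c'_let (i := C.m + k) (by omega))
  have l8 := sx05_le (hC.d'_let (i := C.m + k) (by omega))
  have m1 := sx05_le (hC.a_let (i := k) (by omega))
  have m2 := sx05_le (hC.b_let (i := k) (by omega))
  -- windows
  obtain ⟨t1, t2, t3, t4⟩ := hC.low (k + 1) hj
  have w1 := sx05_le (hC.win_a' (i := k + 1) (by omega))
  have w2 := sx05_le (hC.win_b (i := k + 1) (by omega))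
  have w3 := sx05_le (hC.win_c' (i := k + 1) (by omega))
  have w4 := sx05_le (hC.win_d (i := k + 1) (by omega))
  rw [show k + 1 + C.m = C.m + k + 1 by omega] at w1 w2 w3 w4
  rw [t1] at w1
  rw [t3] at w3
  have lo1 := hC.lo hj
  have ln := hC.lam_near hj
  have ln' := hC.lam_near hk
  have eqs : C.m + (k + 1) = C.m + k + 1 := by omega
  -- exclude `v = 2`
  have hv3 : v ≤ 1 := by
    by_contra hcon
    have hv : v = 2 := by omega
    subst hv
    have e1 : C.c (C.m + k + 1) = C.d (C.m + k + 1) := by omega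
    have e2 : C.c' (C.m + k + 1) = C.d (C.m + k + 1) + 2 := by omega
    have p1 := hC.Psi_pos (j := C.m + k + 1) (by omega) (by omega)
    have p2 := C.c'_lt (C.m + k + 1)
    have p3 := C.rK_lt (C.m + k + 1)
    rw [e2] at p2
    push_cast at p2
    linarith
  -- exclude `v = -1`
  have hv4 : 0 ≤ v := by
    by_contra hcon
    have hv : v = -1 := by omega
    subst hv
    have p1 := hC.top13 (s := C.m + k + 1) (by omega) (by omega) (by omega)
    unfold Cd.mu at p1
    rw [hM] at p1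
    push_cast at p1
    omega
  -- lower bound for the length
  have hmu1 : 1 ≤ C.mu (C.m + k + 1) := by
    unfold Cd.mu
    rw [hM]
    push_cast
    have hv : v = 0 ∨ v = 1 := by omega
    rcases hv with rfl | rfl
    · have := hC.mu_T0 (j := C.m + k + 1) (by omega) (by omega)
      omega
    · have := hC.mu_T1 (j := C.m + k + 1) (by omega) (by omega) (by omega)
      omega
  have hmu2 : C.mu (C.m + k + 1) = C.d (C.m + k + 1) + 1 - C.c (C.m + k + 1) := by
    unfold Cd.mu
    rw [hM]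
    push_cast
    ring
  have hmuj : C.mu (k + 1) = C.d (k + 1) + 1 - C.c (k + 1) := by
    unfold Cd.mu
    rw [hM]
    push_cast
    ring
  have hlam : C.lam (C.m + k + 1) = C.b (C.m + k + 1) + C.L - C.a (C.m + k + 1) := rfl
  have hlamj : C.lam (k + 1) = C.b (k + 1) + C.L - C.a (k + 1) := rfl
  have hlamk : C.lam k = C.b k + C.L - C.a k := rfl
  have hLz : (3 : ℤ) ≤ C.L := by exact_mod_cast hL
  have hmu3 : C.mu (C.m + k + 1) ≤ 3 := by omega
  by_cases hfin : u = 0 ∧ v = 0
  · -- resonance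
    obtain ⟨rfl, rfl⟩ := hfin
    right
    have hT : C.T0 (C.m + (k + 1)) := by
      rw [eqs]
      exact ⟨by omega, by omega, by omega, by omega⟩
    refine ⟨hT, ?_⟩
    rw [brz_zero, zero_mul, zero_mul, mul_zero, sub_zero] at hid
    have hkap : C.kap (k + 1) = 0 := by
      have h1 : T (-C.q) * (T C.q * C.kap (k + 1)) = 0 := by rw [← hid, mul_zero]
      rw [← mul_assoc, ← T_add, neg_add_cancel, T_zero, one_mul] at h1
      exact h1
    have hne : C.mu (k + 1) ≠ 0 := by
      intro h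
      rw [h] at hmass
      omega
    have hcd : C.c (k + 1) = C.d (k + 1) := by omega
    unfold Cd.kap at hkap
    rw [sub_eq_zero] at hkap
    unfold Cd.RH Cd.RG at hkap
    rw [hM] at hkap
    push_cast at hkap
    obtain ⟨r1, r2, r3⟩ := row_mul (by omega : 2 ≤ C.L) (by omega) (by omega) hkap
    exact ⟨by omega, by omega, by omega⟩
  · left
    have key : C.a (C.m + k + 1) = C.q + C.a (k + 1) ∧ C.b (C.m + k + 1) = C.q + C.b (k + 1) ∧
        C.c (C.m + k + 1) = C.q + C.c (k + 1) ∧ C.d (C.m + k + 1) = C.q + C.c (k + 1) ∧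
        C.a' (C.m + k + 1) = C.q + C.a (k + 1) + 1 ∧ C.b' (C.m + k + 1) = C.q + C.b (k + 1) + 1 ∧
        C.c' (C.m + k + 1) = C.q + C.d (k + 1) + 1 ∧ C.d' (C.m + k + 1) = C.q + C.d (k + 1) + 1 := by
      obtain ⟨μ, hμ⟩ : ∃ μ, μ = C.mu (C.m + k + 1) := ⟨_, rfl⟩
      obtain ⟨ν, hν⟩ : ∃ ν, ν = C.mu (k + 1) := ⟨_, rfl⟩
      rw [← hμ, ← hν] at hmass
      rw [← hμ] at hmu1 hmu2 hmu3
      rw [← hν] at hmuj
      have hν0 : 0 ≤ ν := by omega
      have hν1 : ν ≤ 1 := by omega
      have hu0 : 0 ≤ u := by omega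
      have hu3 : u ≤ 2 := by omega
      clear hX hid R hr hμ hν
      interval_cases u <;> interval_cases v <;> interval_cases μ <;> interval_cases ν <;> omega
    obtain ⟨k1, k2, k3, k4, k5, k6, k7, k8⟩ := key
    exact ⟨k1, k2, k3, k4, k5, k6, k7, k8⟩

theorem reg_full {j : ℕ} (hj : j < C.m) (hr : C.Reg j) (he : C.c j = C.d j) : C.Full j := by
  have hmh := hC.hmh
  have lo1 := hC.lo hj
  have h1 := C.a'_lt (C.m + j)
  have h2 := C.rK_lt (C.m + j)
  have h3 := hC.k1_nn (i := C.m + j) (by omega)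
  rw [hr.ha'] at h1
  rw [hr.hd] at h2
  push_cast at h1 h2
  have h4 : ((C.a j : ℤ) : ℝ) < ((C.c j : ℤ) : ℝ) + 1 := by linarith
  have h5 : C.a j < C.c j + 1 := by exact_mod_cast h4
  have g1 := C.bH_lt (C.m + j)
  have g2 := C.c'_lt (C.m + j)
  have g3 := hC.k2_nn (i := C.m + j) (by omega)
  rw [hr.hb] at g1
  rw [hr.hc'] at g2
  push_cast at g1 g2
  have g4 : ((C.d j : ℤ) : ℝ) < ((C.b j : ℤ) : ℝ) + 1 := by linarith
  have g5 : C.d j < C.b j + 1 := by exact_mod_cast g4
  exact ⟨by omega, by omega, by omega⟩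

end Cd.Ok

end Pool.Agent.Lib.MP_bb0bab_co
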