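import Pool.Agent.Lib.MP_bb0bab_co.TL01
import Pool.Agent.Lib.MP_bb0bab_co.SX05

/-!
# TL03 (10.1 for L = 2) one step: row `m + j` is regular, a resonance, X1 or X2
-/

namespace Pool.Agent.Lib.MP_bb0bab_co

open LaurentPolynomial

theorem TL03_cf3 {a1 a2 a3 b1 b2 b3 : ℤ}
    (h : (T a1 + T a2 + T a3 : LaurentPolynomial ℤ) = T b1 + T b2 + T b3) (n : ℤ) :
    (if a1 = n then (1 : ℤ) else 0) + (if a2 = n then 1 else 0) + (if a3 = n then 1 else 0) =
    (if b1 = n then 1 else 0) + (if b2 = n then 1 else 0) + (if b3 = n then 1 else 0) := by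
  obtain ⟨φ, hφ⟩ := exists_cf n
  have h1 := congrArg φ h
  simpa only [map_add, hφ] using h1

theorem TL03_cf2 {a1 a2 b1 b2 : ℤ}
    (h : (T a1 + T a2 : LaurentPolynomial ℤ) = T b1 + T b2) (n : ℤ) :
    (if a1 = n then (1 : ℤ) else 0) + (if a2 = n then 1 else 0) =
    (if b1 = n then 1 else 0) + (if b2 = n then 1 else 0) := by
  obtain ⟨φ, hφ⟩ := exists_cf n
  have h1 := congrArg φ h
  simpa only [map_add, hφ] using h1

theorem TL03_cf5 {a1 a2 a3 a4 a5 b1 b2 b3 b4 b5 : ℤ}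
    (h : (T a1 + T a2 + T a3 + T a4 + T a5 : LaurentPolynomial ℤ) =
      T b1 + T b2 + T b3 + T b4 + T b5) (n : ℤ) :
    (if a1 = n then (1 : ℤ) else 0) + (if a2 = n then 1 else 0) + (if a3 = n then 1 else 0) +
      (if a4 = n then 1 else 0) + (if a5 = n then 1 else 0) =
    (if b1 = n then 1 else 0) + (if b2 = n then 1 else 0) + (if b3 = n then 1 else 0) +
      (if b4 = n then 1 else 0) + (if b5 = n then 1 else 0) := by
  obtain ⟨φ, hφ⟩ := exists_cf n
  have h1 := congrArg φ h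
  simpa only [map_add, hφ] using h1

theorem TL03_T2 : (T 2 : LaurentPolynomial ℤ) = T 1 * T 1 := by
  rw [← T_add]
  norm_num

/-- the mass one shift identity has no exotic solution -/
theorem TL03_no3 {P Q c : ℤ} (hPQ : Q + 1 ≤ P)
    (h : (T (P + 1) + T Q + T c : LaurentPolynomial ℤ) = T (Q - 1) + T P + T (c + 2)) : False := by
  have e1 := TL03_cf3 h (P + 1)
  have e2 := TL03_cf3 h (Q - 1)
  rw [if_pos rfl, if_neg (show ¬ Q = P + 1 by omega), if_neg (show ¬ Q - 1 = P + 1 by omega),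
    if_neg (show ¬ P = P + 1 by omega)] at e1
  rw [if_neg (show ¬ P + 1 = Q - 1 by omega), if_neg (show ¬ Q = Q - 1 by omega), if_pos rfl,
    if_neg (show ¬ P = Q - 1 by omega)] at e2
  split_ifs at e1 e2 <;> omega

/-- parity of a row killed by `x = -1` -/
theorem TL03_par {A B : ℤ} (hAB : A ≤ B + 2) (h : evm (rowPoly A (B + 1)) = 0) :
    Even (B - A) := by
  have h1 := sub_one_mul_rowPoly (a := A) (b := B + 1) (by omega)
  have h2 := congrArg evm h1
  rw [map_mul, h, mul_zero, map_sub] at h2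
  by_contra hodd
  rw [Int.not_even_iff_odd] at hodd
  obtain ⟨r, hr⟩ := hodd
  by_cases hA : Even A
  · have hB : ¬ Even (B + 1 + 1) := by
      intro hB
      obtain ⟨x, hx⟩ := hA
      obtain ⟨y, hy⟩ := hB
      omega
    rw [evm_even hA, evm_odd hB] at h2
    norm_num at h2
  · have hB : Even (B + 1 + 1) := by
      rw [Int.not_even_iff_odd] at hA
      obtain ⟨x, hx⟩ := hA
      exact ⟨x + r + 2, by omega⟩
    rw [evm_odd hA, evm_even hB] at h2
    norm_num at h2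

theorem TL03_evmT (n : ℤ) : evm (T n) ≠ 0 := by
  by_cases h : Even n
  · rw [evm_even h]; norm_num
  · rw [evm_odd h]; norm_num

theorem TL03_row2 (A : ℤ) : rowPoly A (A + 1) = (1 + T 1) * T A := by
  apply sub_one_cancel
  rw [sub_one_mul_rowPoly (by omega), T_add, T_add]
  ring

theorem TL03_row1 (A : ℤ) : rowPoly A A = T A := by
  apply sub_one_cancel
  rw [sub_one_mul_rowPoly (by omega), T_add]
  ring

/-- the unequal case: evaluation at `-1` and division by `1 + x` -/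
theorem TL03_uneq {A B c d q : ℤ} {X : LaurentPolynomial ℤ}
    (h : (1 + T 1) * X = (T 1 - 1) * (T q * (rowPoly A (B + 1) - br 2 * rowPoly c d)))
    (h1 : A ≤ B + 1) (h2 : B ≤ A + 1) :
    B = A ∧ X = (T 1 - 1) * (T q * (T A - rowPoly c d)) := by
  have e1 := congrArg evm h
  rw [map_mul, evm_one_add, zero_mul, map_mul, map_mul, map_sub, map_sub, map_mul, br_two,
    evm_one_add, zero_mul, sub_zero, evm_odd (show ¬ Even (1 : ℤ) by decide), map_one] at e1
  have e2 : evm (rowPoly A (B + 1)) = 0 := by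
    have h3 := TL03_evmT q
    have h4 : evm (T q) * evm (rowPoly A (B + 1)) = 0 := by linarith
    rcases mul_eq_zero.1 h4 with h5 | h5
    · exact absurd h5 h3
    · exact h5
  obtain ⟨r, hr⟩ := TL03_par (by omega) e2
  have hBA : B = A := by omega
  refine ⟨hBA, ?_⟩
  apply one_add_cancel
  rw [h, hBA, TL03_row2, br_two]
  ring

theorem TL03_k1 {As Bs Cs Ds A B c d q : ℤ}
    (h : rowPoly As (Bs + 1) - br 2 * rowPoly Cs Ds =
      T q * (rowPoly A (B + 1) - br 2 * rowPoly c d))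
    (hAs : As = q + A - 1) (hBs : Bs = q + B + 1) (hl : A ≤ B + 1)
    (hcd : (c = d + 1 ∧ Cs = Ds) ∨ (c = d ∧ Ds = Cs + 1 ∧ (Cs = q + c - 1 ∨ Cs = q + c))) :
    False := by
  have e1 := sub_one_mul_rowPoly (a := As) (b := Bs + 1) (by omega)
  have e2 := sub_one_mul_rowPoly (a := A) (b := B + 1) (by omega)
  rw [br_two] at h
  rcases hcd with ⟨h1, h2⟩ | ⟨h1, h2, h3⟩
  · rw [h2, TL03_row1, h1, rowPoly_empty (show d < d + 1 by omega), mul_zero, sub_zero] at h
    refine TL03_no3 (P := q + B + 2) (Q := q + A) (c := Ds) (by omega) ?_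
    have f1 : (T (Bs + 1 + 1) : LaurentPolynomial ℤ) = T (q + B + 2 + 1) := by
      congr 1; omega
    have f2 : (T As : LaurentPolynomial ℤ) = T (q + A - 1) := by
      congr 1
    have f3 : (T (q + B + 2) : LaurentPolynomial ℤ) = T q * T (B + 1 + 1) := by
      rw [← T_add]; congr 1; omega
    have f4 : (T (q + A) : LaurentPolynomial ℤ) = T q * T A := T_add _ _
    have f5 : (T (Ds + 2) : LaurentPolynomial ℤ) = T Ds * (T 1 * T 1) := by
      rw [T_add, TL03_T2]
    rw [← f1, ← f2, f3, f4, f5]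
    linear_combination (T 1 - 1) * h - e1 + T q * e2
  · rw [h2, TL03_row2, ← h1, TL03_row1] at h
    have f1 : (T (Bs + 1 + 1) : LaurentPolynomial ℤ) = T (q + B + 2 + 1) := by
      congr 1; omega
    have f2 : (T As : LaurentPolynomial ℤ) = T (q + A - 1) := by
      congr 1
    have f3 : (T (q + B + 2) : LaurentPolynomial ℤ) = T q * T (B + 1 + 1) := by
      rw [← T_add]; congr 1; omega
    have f4 : (T (q + A) : LaurentPolynomial ℤ) = T q * T A := T_add _ _
    rcases h3 with h3 | h3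
    · refine TL03_no3 (P := q + B + 2) (Q := q + A) (c := q + c - 1) (by omega) ?_
      have f5 : (T (q + c - 1 + 2) : LaurentPolynomial ℤ) = T q * T c * T 1 := by
        rw [← T_add, ← T_add]; congr 1; ring
      have f6 : (T Cs * T 1 : LaurentPolynomial ℤ) = T q * T c := by
        rw [← T_add, ← T_add]; congr 1; omega
      have f7 : (T (q + c - 1) : LaurentPolynomial ℤ) = T Cs := by
        congr 1; omega
      rw [← f1, ← f2, f3, f4, f5, f7]
      linear_combination (T 1 - 1) * h - e1 + T q * e2 + (T 1 * T 1 + T 1 - 1) * f6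
    · refine TL03_no3 (P := q + B + 2) (Q := q + A) (c := q + c + 1) (by omega) ?_
      have f5 : (T (q + c + 1 + 2) : LaurentPolynomial ℤ) = T q * T c * T 1 * T 1 * T 1 := by
        rw [← T_add, ← T_add, ← T_add, ← T_add]; congr 1; ring
      have f6 : (T Cs : LaurentPolynomial ℤ) = T q * T c := by
        rw [← T_add]; congr 1
      have f7 : (T (q + c + 1) : LaurentPolynomial ℤ) = T q * T c * T 1 := by
        rw [← T_add, ← T_add]
      rw [← f1, ← f2, f3, f4, f5, f7]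
      linear_combination (T 1 - 1) * h - e1 + T q * e2 + (T 1 * T 1 - 1) * (1 + T 1) * f6

theorem TL03_k2 {As Bs Cs Ds A B c d q : ℤ}
    (h : brz 2 * rowPoly As (Bs + 1) - br 2 * (brz 1 * rowPoly Cs Ds) =
      T q * (rowPoly A (B + 1) - br 2 * rowPoly c d))
    (hAs : As = q + A - 1) (hBs : Bs = q + A) (hB : B = A) (hcd : c = d + 1)
    (hD : Ds = Cs + 1) : False := by
  have e1 := sub_one_mul_rowPoly (a := As) (b := Bs + 1) (by omega)
  rw [br_two, brz_two, brz_one, one_mul, hD, TL03_row2, hB, TL03_row2, hcd,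
    rowPoly_empty (show d < d + 1 by omega), mul_zero, sub_zero] at h
  have h1 : rowPoly As (Bs + 1) - (1 + T 1) * T Cs = T q * T A := by
    apply one_add_cancel
    linear_combination h
  refine TL03_no3 (P := q + A + 1) (Q := q + A) (c := Cs) (by omega) ?_
  have f1 : (T (Bs + 1 + 1) : LaurentPolynomial ℤ) = T (q + A + 1 + 1) := by
    congr 1; omega
  have f2 : (T As : LaurentPolynomial ℤ) = T (q + A - 1) := by
    congr 1
  have f3 : (T (q + A + 1) : LaurentPolynomial ℤ) = T q * T A * T 1 := by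
    rw [← T_add, ← T_add]
  have f4 : (T (q + A) : LaurentPolynomial ℤ) = T q * T A := T_add _ _
  have f5 : (T (Cs + 2) : LaurentPolynomial ℤ) = T Cs * (T 1 * T 1) := by
    rw [T_add, TL03_T2]
  rw [← f1, ← f2, f3, f4, f5]
  linear_combination (T 1 - 1) * h1 - e1

theorem TL03_e02 {W x Cs Ds Cs' Ds' : ℤ} {G : LaurentPolynomial ℤ}
    (hG : (T 1 - 1) * G = T (Ds' + 1) - T Cs' - T (Ds + 1) + T Cs)
    (h : T x - G = (T 1 - 1) * T W) :
    (T (x + 1) + T Cs' + T (Ds + 1) + T (W + 1) + T (W + 1) : LaurentPolynomial ℤ) =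
      T x + T (Ds' + 1) + T Cs + T (W + 2) + T W := by
  have f1 : (T (x + 1) : LaurentPolynomial ℤ) = T x * T 1 := T_add _ _
  have f2 : (T (W + 1) : LaurentPolynomial ℤ) = T W * T 1 := T_add _ _
  have f3 : (T (W + 2) : LaurentPolynomial ℤ) = T W * (T 1 * T 1) := by rw [T_add, TL03_T2]
  rw [f1, f2, f3]
  linear_combination (T 1 - 1) * h + hG

theorem TL03_e20 {W x Cs Ds Cs' Ds' : ℤ} {G : LaurentPolynomial ℤ}
    (hG : (T 1 - 1) * G = T (Ds' + 1) - T Cs' - T (Ds + 1) + T Cs)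
    (h : - T x - G = (T 1 - 1) * T W) :
    (T x + T Cs' + T (Ds + 1) + T (W + 1) + T (W + 1) : LaurentPolynomial ℤ) =
      T (x + 1) + T (Ds' + 1) + T Cs + T (W + 2) + T W := by
  have f1 : (T (x + 1) : LaurentPolynomial ℤ) = T x * T 1 := T_add _ _
  have f2 : (T (W + 1) : LaurentPolynomial ℤ) = T W * T 1 := T_add _ _
  have f3 : (T (W + 2) : LaurentPolynomial ℤ) = T W * (T 1 * T 1) := by rw [T_add, TL03_T2]
  rw [f1, f2, f3]
  linear_combination (T 1 - 1) * h + hG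

theorem TL03_f02 {x Cs Ds Cs' Ds' : ℤ} {G : LaurentPolynomial ℤ}
    (hG : (T 1 - 1) * G = T (Ds' + 1) - T Cs' - T (Ds + 1) + T Cs)
    (h : T x - G = 0) :
    (T (x + 1) + T Cs' + T (Ds + 1) : LaurentPolynomial ℤ) = T x + T (Ds' + 1) + T Cs := by
  have f1 : (T (x + 1) : LaurentPolynomial ℤ) = T x * T 1 := T_add _ _
  rw [f1]
  linear_combination (T 1 - 1) * h + hG

theorem TL03_f20 {x Cs Ds Cs' Ds' : ℤ} {G : LaurentPolynomial ℤ}
    (hG : (T 1 - 1) * G = T (Ds' + 1) - T Cs' - T (Ds + 1) + T Cs)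
    (h : - T x - G = 0) :
    (T x + T Cs' + T (Ds + 1) : LaurentPolynomial ℤ) = T (x + 1) + T (Ds' + 1) + T Cs := by
  have f1 : (T (x + 1) : LaurentPolynomial ℤ) = T x * T 1 := T_add _ _
  rw [f1]
  linear_combination (T 1 - 1) * h + hG

/-- integer part: regular case -/
theorem TL03_key {q A B c d As Bs Cs Ds As' Bs' Cs' Ds' u v : ℤ}
    (b1 : As' = As + u) (b2 : Bs' = Bs + u) (b3 : Cs' = Cs + v) (b4 : Ds' = Ds + v)
    (w1 : A + q ≤ As' ∧ As' ≤ A + q + 1) (w2 : B + q ≤ Bs ∧ Bs ≤ B + q + 1)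
    (w3 : c + q ≤ Cs' ∧ Cs' ≤ c + q + 1) (w4 : d + q ≤ Ds ∧ Ds ≤ d + q + 1)
    (hl : A ≤ B + 1) (hcd : d ≤ c ∧ c ≤ d + 1) (hmu : Cs ≤ Ds)
    (hmass : u * (Bs + 2 - As) - 2 * (v * (Ds + 1 - Cs)) = B + 2 - A - 2 * (d + 1 - c))
    (hu : 0 ≤ u ∧ u ≤ 2) (hv : v = 0 ∨ v = 1) (h00 : ¬ (u = 0 ∧ v = 0))
    (K1 : ¬ (u = 1 ∧ v = 1 ∧ Bs = q + B + 1 ∧ As = q + A - 1)) (K2 : ¬ (u = 2 ∧ v = 1)) :
    As = q + A ∧ Bs = q + B ∧ Cs = q + c ∧ Ds = q + c ∧ As' = q + A + 1 ∧ Bs' = q + B + 1 ∧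
      Cs' = q + d + 1 ∧ Ds' = q + d + 1 := by
  obtain ⟨hu1, hu2⟩ := hu
  rcases hv with rfl | rfl
  · interval_cases u
    · exact absurd ⟨rfl, rfl⟩ h00
    · subst b1 b2 b3 b4
      omega
    · omega
  · interval_cases u
    · omega
    · have h2 : Bs = q + B ∧ As = q + A := by omega
      subst b1 b2 b3 b4
      omega
    · exact absurd ⟨rfl, rfl⟩ K2

theorem TL03_K1int {q A B c d As Bs Cs Ds Cs' : ℤ} (b3 : Cs' = Cs + 1)
    (w3 : c + q ≤ Cs' ∧ Cs' ≤ c + q + 1) (hcd : c = d ∨ c = d + 1)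
    (hmass : 1 * (Bs + 2 - As) - 2 * (1 * (Ds + 1 - Cs)) = B + 2 - A - 2 * (d + 1 - c))
    (g1 : Bs = q + B + 1) (g2 : As = q + A - 1) :
    (c = d + 1 ∧ Cs = Ds) ∨ (c = d ∧ Ds = Cs + 1 ∧ (Cs = q + c - 1 ∨ Cs = q + c)) := by
  omega

theorem TL03_K2int {q A B c d ak bk ck As Bs Cs Ds As' Bs' Cs' : ℤ}
    (b1 : As' = As + 2) (b2 : Bs' = Bs + 2) (b3 : Cs' = Cs + 1)
    (w1 : A + q ≤ As' ∧ As' ≤ A + q + 1) (w2 : B + q ≤ Bs)
    (w3 : c + q ≤ Cs') (w4 : Ds ≤ d + q + 1)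
    (l1 : q + ak ≤ As) (l6 : Bs' ≤ q + bk + 1 + 1) (l3 : q + ck ≤ Cs)
    (m1 : A ≤ ak + 1) (m2 : bk ≤ B) (lo1 : B ≤ c) (lo2 : d ≤ A) (lo3 : bk ≤ ck)
    (hcd : c = d ∨ c = d + 1) (hl : A ≤ B + 1)
    (hmass : 2 * (Bs + 2 - As) - 2 * (1 * (Ds + 1 - Cs)) = B + 2 - A - 2 * (d + 1 - c)) :
    c = d + 1 ∧ As = q + A - 1 ∧ Bs = q + A ∧ B = A ∧ Ds = Cs + 1 := by
  have h1 : As = q + A - 1 := by omega
  have h2 : Bs = q + B := by omega
  have h3 : bk = B := by omega
  subst h1 h2 h3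
  have h4 : Ds - Cs = 1 + (d - c + 1) := by omega
  have h5 : bk = A := by omega
  subst h5
  rcases hcd with h | h
  · exfalso
    subst h
    omega
  · refine ⟨h, rfl, rfl, rfl, by omega⟩

namespace Cd.Ok

variable {C : Cd} (hC : C.Ok) (hM : C.M = 1)

include hC hM

theorem TL03_X {j : ℕ} (hj : j < C.m) (hr : ∀ i < j, C.Reg i) :
    C.XX (C.m + j) = (T 1 - 1) * (T C.q * C.kap j) := by
  have hmh := hC.hmh
  rw [hC.X_zero hM (by omega) (fun i hi => (hC.reg_X hM (by omega) (hr i hi)).1)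
    (fun i hi => (hC.reg_X hM (by omega) (hr i hi)).2)]
  unfold Cd.PP
  ring

/-- the case of equal shifts -/
theorem TL03_equal (hL : C.L = 2) {k : ℕ} (hj : k + 1 < C.m) (hr : ∀ i < k + 1, C.Reg i)
    {u v : ℤ} (hu1 : 1 - 1 ≤ u) (hu2 : u ≤ 1 + 1)
    (hv1 : C.d k + 1 - C.c k - 1 ≤ v) (hv2 : v ≤ C.d k + 1 - C.c k + 1)
    (b1 : C.a' (C.m + k + 1) = C.a (C.m + k + 1) + u)
    (b2 : C.b' (C.m + k + 1) = C.b (C.m + k + 1) + u)
    (b3 : C.c' (C.m + k + 1) = C.c (C.m + k + 1) + v)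
    (b4 : C.d' (C.m + k + 1) = C.d (C.m + k + 1) + v)
    (hid : brz u * C.RH (C.m + k + 1) - br C.L * (brz v * C.RG (C.m + k + 1)) =
      T C.q * C.kap (k + 1))
    (hmass : u * C.lam (C.m + k + 1) - C.L * (v * C.mu (C.m + k + 1)) =
      ev1 (T C.q * C.kap (k + 1))) :
    C.Reg (k + 1) ∨ (C.T0 (C.m + (k + 1)) ∧ C.Full (k + 1)) := by
  have hmh := hC.hmh
  have hk : k < C.m := by omega
  have hs : C.m + k + 1 ≤ C.h := by omega
  have R := hr k (by omega)
  have hcc := sx05_le (hC.c_cases hM hk)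
  have hcj := sx05_le (hC.c_cases hM hj)
  have a1 := R.ha
  have a2 := R.hb
  have a3 := R.hc
  have a4 := R.hd
  have a5 := R.ha'
  have a6 := R.hb'
  have a7 := R.hc'
  have a8 := R.hd'
  rw [hC.sx05_ev hM (by omega)] at hmass
  have l1 := sx05_le (hC.a_let (i := C.m + k) (by omega))
  have l2 := sx05_le (hC.b_let (i := C.m + k) (by omega))
  have l3 := sx05_le (hC.c_let (i := C.m + k) (by omega))
  have l4 := sx05_le (hC.d_let (i := C.m + k) (by omega))
  have l5 := sx05_le (hC.a'_let (i := C.m + k) (by omega))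
  have l6 := sx05_le (hC.b'_let (i := C.m + k) (by omega))
  have l7 := sx05_le (hC.c'_let (i := C.m + k) (by omega))
  have l8 := sx05_le (hC.d'_let (i := C.m + k) (by omega))
  have m1 := sx05_le (hC.a_let (i := k) (by omega))
  have m2 := sx05_le (hC.b_let (i := k) (by omega))
  have m3 := sx05_le (hC.c_let (i := k) (by omega))
  have m4 := sx05_le (hC.d_let (i := k) (by omega))
  obtain ⟨t1, t2, t3, t4⟩ := hC.low (k + 1) hj
  have w1 := sx05_le (hC.win_a' (i := k + 1) (by omega))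
  have w2 := sx05_le (hC.win_b (i := k + 1) (by omega))
  have w3 := sx05_le (hC.win_c' (i := k + 1) (by omega))
  have w4 := sx05_le (hC.win_d (i := k + 1) (by omega))
  rw [show k + 1 + C.m = C.m + k + 1 by omega] at w1 w2 w3 w4
  rw [t1] at w1
  rw [t3] at w3
  have lo1 := hC.lo hj
  have lo2 := hC.lo hk
  have ln := hC.lam_near hj
  have ln' := hC.lam_near hk
  have eqs : C.m + (k + 1) = C.m + k + 1 := by omega
  have hL2 : (C.L : ℤ) = 2 := by rw [hL]; rfl
  have hM1 : (C.M : ℤ) = 1 := by rw [hM]; rfl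
  -- exclude `v = 2`
  have hpsi : C.c' (C.m + k + 1) ≤ C.d (C.m + k + 1) + 1 := by
    have p1 := hC.Psi_pos (j := C.m + k + 1) (by omega) (by omega)
    have p2 := C.c'_lt (C.m + k + 1)
    have p3 := C.rK_lt (C.m + k + 1)
    have p4 : ((C.c' (C.m + k + 1) : ℤ) : ℝ) < ((C.d (C.m + k + 1) : ℤ) : ℝ) + 2 := by linarith
    have p5 : C.c' (C.m + k + 1) < C.d (C.m + k + 1) + 2 := by exact_mod_cast p4
    omega
  have hv3 : v ≤ 1 := by
    by_contra hcon
    have hv : v = 2 := by omega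
    subst hv
    omega
  -- exclude `v = -1`
  have hv4 : 0 ≤ v := by
    by_contra hcon
    have hv : v = -1 := by omega
    subst hv
    have p1 := hC.top13 (s := C.m + k + 1) (by omega) (by omega) (by omega)
    unfold Cd.mu at p1
    rw [hM1] at p1
    omega
  have hmu1 : 1 ≤ C.mu (C.m + k + 1) := by
    unfold Cd.mu
    rw [hM1]
    have hv : v = 0 ∨ v = 1 := by omega
    rcases hv with rfl | rfl
    · have := hC.mu_T0 (j := C.m + k + 1) (by omega) (by omega)
      omega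
    · have := hC.mu_T1 (j := C.m + k + 1) (by omega) (by omega) (by omega)
      omega
  have hmu2 : C.mu (C.m + k + 1) = C.d (C.m + k + 1) + 1 - C.c (C.m + k + 1) := by
    unfold Cd.mu
    rw [hM1]
  have hmuj : C.mu (k + 1) = C.d (k + 1) + 1 - C.c (k + 1) := by
    unfold Cd.mu
    rw [hM1]
  have hlam : C.lam (C.m + k + 1) = C.b (C.m + k + 1) + 2 - C.a (C.m + k + 1) := by
    unfold Cd.lam
    rw [hL2]
  have hlamj : C.lam (k + 1) = C.b (k + 1) + 2 - C.a (k + 1) := by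
    unfold Cd.lam
    rw [hL2]
  have hlamk : C.lam k = C.b k + 2 - C.a k := by
    unfold Cd.lam
    rw [hL2]
  rw [hL2] at hmass ln ln'
  have hmu3 : C.mu (C.m + k + 1) ≤ 3 := by omega
  -- the two exotic mass solutions
  have hrows : brz u * rowPoly (C.a (C.m + k + 1)) (C.b (C.m + k + 1) + 1) -
      br 2 * (brz v * rowPoly (C.c (C.m + k + 1)) (C.d (C.m + k + 1))) =
      T C.q * (rowPoly (C.a (k + 1)) (C.b (k + 1) + 1) -
        br 2 * rowPoly (C.c (k + 1)) (C.d (k + 1))) := by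
    have h1 := hid
    unfold Cd.kap Cd.RH Cd.RG at h1
    rw [hL2, hM1] at h1
    rw [show C.b (C.m + k + 1) + 2 - 1 = C.b (C.m + k + 1) + 1 by ring,
      show C.d (C.m + k + 1) + 1 - 1 = C.d (C.m + k + 1) by ring,
      show C.b (k + 1) + 2 - 1 = C.b (k + 1) + 1 by ring,
      show C.d (k + 1) + 1 - 1 = C.d (k + 1) by ring] at h1
    exact h1
  rw [hmu2, hlam, hlamj, hmuj] at hmass
  have hu0 : 0 ≤ u := by linarith
  have hu3 : u ≤ 2 := by linarith
  have hlj : C.a (k + 1) ≤ C.b (k + 1) + 1 := by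
    have := ln.1
    rw [hlamj] at this
    linarith
  have K1 : ¬ (u = 1 ∧ v = 1 ∧ C.b (C.m + k + 1) = C.q + C.b (k + 1) + 1 ∧
      C.a (C.m + k + 1) = C.q + C.a (k + 1) - 1) := by
    rintro ⟨rfl, rfl, g1, g2⟩
    have h1 := hrows
    rw [brz_one, one_mul, one_mul] at h1
    exact TL03_k1 h1 g2 g1 hlj (TL03_K1int b3 w3 (hC.c_cases hM hj) hmass g1 g2)
  have K2 : ¬ (u = 2 ∧ v = 1) := by
    rintro ⟨rfl, rfl⟩
    obtain ⟨x1, x2, x3, x4, x5⟩ := TL03_K2int b1 b2 b3 w1 w2.1 w3.1 w4.2 (by rw [← a1]; exact l1.1)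
      (by rw [← a6]; exact l6.2) (by rw [← a3]; exact l3.1) m1.2 m2.1 lo1.1 lo1.2.1 lo2.1
      (hC.c_cases hM hj) hlj hmass
    exact TL03_k2 hrows x2 x3 x4 x1 x5
  by_cases hfin : u = 0 ∧ v = 0
  · -- resonance
    obtain ⟨rfl, rfl⟩ := hfin
    right
    have hT : C.T0 (C.m + (k + 1)) := by
      rw [eqs]
      exact ⟨by omega, by omega, by omega, by omega⟩
    refine ⟨hT, ?_⟩
    rw [brz_zero, zero_mul, zero_mul, mul_zero, sub_zero] at hid
    have hkap : C.kap (k + 1) = 0 := by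
      have h1 : T (-C.q) * (T C.q * C.kap (k + 1)) = 0 := by rw [← hid, mul_zero]
      rw [← mul_assoc, ← T_add, neg_add_cancel, T_zero, one_mul] at h1
      exact h1
    have hcd : C.c (k + 1) = C.d (k + 1) := by
      rcases hC.c_cases hM hj with h | h
      · exact h
      · rw [h] at hmass
        linarith
    unfold Cd.kap at hkap
    rw [sub_eq_zero] at hkap
    unfold Cd.RH Cd.RG at hkap
    rw [hM] at hkap
    push_cast at hkap
    obtain ⟨r1, r2, r3⟩ := row_mul (by omega : 2 ≤ C.L) (by omega) (by omega) hkap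
    exact ⟨by omega, by omega, by omega⟩
  · left
    have hv5 : v = 0 ∨ v = 1 := by
      clear hmass
      omega
    rw [hmu2] at hmu1
    obtain ⟨k1, k2, k3, k4, k5, k6, k7, k8⟩ := TL03_key b1 b2 b3 b4 w1 w2 w3 w4 hlj hcj
      (by linarith) hmass ⟨hu0, hu3⟩ hv5 hfin K1 K2
    exact ⟨k1, k2, k3, k4, k5, k6, k7, k8⟩

omit hM in
/-- `Psi > 0` for the words -/
theorem TL03_psi {s : ℕ} (h0 : 0 < s) (hs : s ≤ C.h) : C.c' s ≤ C.d s + 1 := by
  have p1 := hC.Psi_pos (j := s) h0 hs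
  have p2 := C.c'_lt s
  have p3 := C.rK_lt s
  have p4 : ((C.c' s : ℤ) : ℝ) < ((C.d s : ℤ) : ℝ) + 2 := by linarith
  have p5 : C.c' s < C.d s + 2 := by exact_mod_cast p4
  omega

/-- unequal shifts, `K` longer: X1 -/
theorem TL03_02 (hL : C.L = 2) {k : ℕ} (hj : k + 1 < C.m) (hr : ∀ i < k + 1, C.Reg i)
    (b1 : C.a' (C.m + k + 1) = C.a (C.m + k + 1) + 1 - 1)
    (b2 : C.b' (C.m + k + 1) = C.b (C.m + k + 1) + 1 + 1)
    (b3 : (C.c' (C.m + k + 1) = C.c (C.m + k + 1) + (C.d k + 1 - C.c k) - 1 ∧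
        C.d' (C.m + k + 1) = C.d (C.m + k + 1) + (C.d k + 1 - C.c k)) ∨
      (C.c' (C.m + k + 1) = C.c (C.m + k + 1) + (C.d k + 1 - C.c k) ∧
        C.d' (C.m + k + 1) = C.d (C.m + k + 1) + (C.d k + 1 - C.c k) + 1)) :
    C.X1 (k + 1) := by
  have hmh := hC.hmh
  have hk : k < C.m := by omega
  have hs : C.m + k + 1 ≤ C.h := by omega
  have R := hr k (by omega)
  have hX := hC.TL03_X hM hj hr
  have hcc := sx05_le (hC.c_cases hM hk)
  have a1 := R.ha
  have a2 := R.hb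
  have a3 := R.hc
  have a4 := R.hd
  have a5 := R.ha'
  have a6 := R.hb'
  have a7 := R.hc'
  have a8 := R.hd'
  have l1 := sx05_le (hC.a_let (i := C.m + k) (by omega))
  have l2 := sx05_le (hC.b_let (i := C.m + k) (by omega))
  have l3 := sx05_le (hC.c_let (i := C.m + k) (by omega))
  have l4 := sx05_le (hC.d_let (i := C.m + k) (by omega))
  have l5 := sx05_le (hC.a'_let (i := C.m + k) (by omega))
  have l6 := sx05_le (hC.b'_let (i := C.m + k) (by omega))
  have l7 := sx05_le (hC.c'_let (i := C.m + k) (by omega))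
  have l8 := sx05_le (hC.d'_let (i := C.m + k) (by omega))
  have m3 := sx05_le (hC.c_let (i := k) (by omega))
  have m4 := sx05_le (hC.d_let (i := k) (by omega))
  obtain ⟨t1, t2, t3, t4⟩ := hC.low (k + 1) hj
  have w1 := sx05_le (hC.win_a' (i := k + 1) (by omega))
  have w2 := sx05_le (hC.win_b (i := k + 1) (by omega))
  have w3 := sx05_le (hC.win_c' (i := k + 1) (by omega))
  have w4 := sx05_le (hC.win_d (i := k + 1) (by omega))
  rw [show k + 1 + C.m = C.m + k + 1 by omega] at w1 w2 w3 w4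
  rw [t1] at w1
  rw [t3] at w3
  have lo1 := hC.lo hj
  have ln := hC.lam_near hj
  have hL2 : (C.L : ℤ) = 2 := by rw [hL]; rfl
  have hM1 : (C.M : ℤ) = 1 := by rw [hM]; rfl
  have hpsi := hC.TL03_psi (s := C.m + k + 1) (by omega) hs
  have hphi := hC.mu_T0 (j := C.m + k + 1) (by omega) (by omega)
  have hDH := hC.DH_mul hs
  have hDG := hC.DG_mul hs
  unfold Cd.lam at ln
  rw [hL2] at hDH ln
  rw [hM1] at hDG
  rw [show C.m + (k + 1) = C.m + k + 1 by omega] at hX
  have hDG' : (T 1 - 1) * C.DG (C.m + k + 1) = T (C.d' (C.m + k + 1) + 1) -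
      T (C.c' (C.m + k + 1)) - T (C.d (C.m + k + 1) + 1) + T (C.c (C.m + k + 1)) := hDG
  have hDH' : C.DH (C.m + k + 1) = (1 + T 1) * T (C.b (C.m + k + 1) + 2) := by
    apply sub_one_cancel
    rw [hDH, b1, b2]
    have f1 : (T (C.b (C.m + k + 1) + 1 + 1 + 2) : LaurentPolynomial ℤ) =
        T (C.b (C.m + k + 1) + 2) * (T 1 * T 1) := by
      rw [← T_add, ← T_add]; congr 1; ring
    have f2 : (T (C.a (C.m + k + 1) + 1 - 1) : LaurentPolynomial ℤ) = T (C.a (C.m + k + 1)) := by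
      congr 1; ring
    rw [f1, f2]
    ring
  have hmain : (1 + T 1) * (T (C.b (C.m + k + 1) + 2) - C.DG (C.m + k + 1)) =
      (T 1 - 1) * (T C.q * (rowPoly (C.a (k + 1)) (C.b (k + 1) + 1) -
        br 2 * rowPoly (C.c (k + 1)) (C.d (k + 1)))) := by
    have h1 := hX
    unfold Cd.XX Cd.kap Cd.RH Cd.RG at h1
    rw [hL2, hM1, hDH'] at h1
    rw [show C.b (k + 1) + 2 - 1 = C.b (k + 1) + 1 by ring,
      show C.d (k + 1) + 1 - 1 = C.d (k + 1) by ring] at h1
    rw [← h1, br_two]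
    ring
  obtain ⟨hBA, hcan⟩ := TL03_uneq hmain (by omega) (by omega)
  rcases hC.c_cases hM hj with g | g
  · -- `G_j` is a point
    have hCA : C.c (k + 1) = C.a (k + 1) := by omega
    rw [hCA, show C.d (k + 1) = C.a (k + 1) by omega, TL03_row1, sub_self, mul_zero, mul_zero] at hcan
    have E := TL03_f02 hDG' hcan
    clear hcan hmain hDH' hDG' hDG hDH hX
    rcases b3 with ⟨b3, b4⟩ | ⟨b3, b4⟩
    · by_cases ht : C.d k + 1 - C.c k = 1
      · -- `(0, 1)`, `t' = 1`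
        rw [ht] at b3 b4
        rw [b3, b4, show C.c (C.m + k + 1) + 1 - 1 = C.c (C.m + k + 1) by ring] at E
        have e1 := TL03_cf3 E (C.b (C.m + k + 1) + 2 + 1)
        rw [if_pos rfl, if_neg (show ¬ C.b (C.m + k + 1) + 2 = C.b (C.m + k + 1) + 2 + 1 by omega)]
          at e1
        have e2 : C.d (C.m + k + 1) = C.b (C.m + k + 1) + 1 := by
          split_ifs at e1 <;> omega
        have hfk : C.Full k := hC.reg_full hM hk R (by omega)
        obtain ⟨x1, x2, x3⟩ := hfk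
        refine ⟨⟨by omega, by omega, by omega⟩, ⟨by simpa using x1, by simpa using x2,
          by simpa using x3⟩, ?_, ?_, ?_, ?_, ?_, ?_, ?_, ?_, ?_⟩ <;>
          simp only [Nat.add_sub_cancel, ← Nat.add_assoc] <;> omega
      · -- `(-1, 0)`
        exfalso
        have ht0 : C.d k + 1 - C.c k = 0 := by omega
        rw [ht0] at b3 b4
        rw [b3, b4] at E
        have e1 := TL03_cf3 E (C.b (C.m + k + 1) + 2 + 1)
        rw [if_pos rfl, if_neg (show ¬ C.b (C.m + k + 1) + 2 = C.b (C.m + k + 1) + 2 + 1 by omega)]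
          at e1
        split_ifs at e1 <;> omega
    · by_cases ht : C.d k + 1 - C.c k = 1
      · -- `(1, 2)`
        exfalso
        rw [ht] at b3 b4
        have hcd := hC.mu_T1 (j := C.m + k + 1) (by omega) hs b3
        rw [b3, b4] at E
        have e1 := TL03_cf3 E (C.d (C.m + k + 1) + 1 + 1 + 1)
        have e2 := TL03_cf3 E (C.d (C.m + k + 1) + 2)
        rw [if_neg (show ¬ C.c (C.m + k + 1) + 1 = C.d (C.m + k + 1) + 1 + 1 + 1 by omega),
          if_neg (show ¬ C.d (C.m + k + 1) + 1 = C.d (C.m + k + 1) + 1 + 1 + 1 by omega),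
          if_pos rfl,
          if_neg (show ¬ C.c (C.m + k + 1) = C.d (C.m + k + 1) + 1 + 1 + 1 by omega)] at e1
        rw [if_neg (show ¬ C.c (C.m + k + 1) + 1 = C.d (C.m + k + 1) + 2 by omega),
          if_neg (show ¬ C.d (C.m + k + 1) + 1 = C.d (C.m + k + 1) + 2 by omega),
          if_neg (show ¬ C.d (C.m + k + 1) + 1 + 1 + 1 = C.d (C.m + k + 1) + 2 by omega),
          if_neg (show ¬ C.c (C.m + k + 1) = C.d (C.m + k + 1) + 2 by omega)] at e2
        split_ifs at e1 e2 <;> omega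
      · -- `(0, 1)`, `t' = 0`
        exfalso
        have ht0 : C.d k + 1 - C.c k = 0 := by omega
        rw [ht0] at b3 b4
        rw [b3, b4] at E
        have e1 := TL03_cf3 E (C.b (C.m + k + 1) + 2 + 1)
        rw [if_pos rfl, if_neg (show ¬ C.b (C.m + k + 1) + 2 = C.b (C.m + k + 1) + 2 + 1 by omega)]
          at e1
        split_ifs at e1 <;> omega
  · -- `G_j` is empty
    exfalso
    rw [g, rowPoly_empty (show C.d (k + 1) < C.d (k + 1) + 1 by omega), sub_zero, ← T_add] at hcan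
    have E := TL03_e02 hDG' hcan
    clear hcan hmain hDH' hDG' hDG hDH hX
    have e := TL03_cf5 E (C.q + C.a (k + 1) + 1)
    rw [if_pos rfl, if_neg (show ¬ C.q + C.a (k + 1) + 2 = C.q + C.a (k + 1) + 1 by omega),
      if_neg (show ¬ C.q + C.a (k + 1) = C.q + C.a (k + 1) + 1 by omega),
      if_neg (show ¬ C.b (C.m + k + 1) + 2 + 1 = C.q + C.a (k + 1) + 1 by omega),
      if_neg (show ¬ C.b (C.m + k + 1) + 2 = C.q + C.a (k + 1) + 1 by omega)] at e
    rcases b3 with ⟨b3, b4⟩ | ⟨b3, b4⟩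
    · split_ifs at e <;> omega
    · split_ifs at e <;> omega

/-- unequal shifts, `H` longer: X2 -/
theorem TL03_20 (hL : C.L = 2) {k : ℕ} (hj : k + 1 < C.m) (hr : ∀ i < k + 1, C.Reg i)
    (b1 : C.a' (C.m + k + 1) = C.a (C.m + k + 1) + 1 + 1)
    (b2 : C.b' (C.m + k + 1) = C.b (C.m + k + 1) + 1 - 1)
    (b3 : (C.c' (C.m + k + 1) = C.c (C.m + k + 1) + (C.d k + 1 - C.c k) + 1 ∧
        C.d' (C.m + k + 1) = C.d (C.m + k + 1) + (C.d k + 1 - C.c k)) ∨
      (C.c' (C.m + k + 1) = C.c (C.m + k + 1) + (C.d k + 1 - C.c k) ∧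
        C.d' (C.m + k + 1) = C.d (C.m + k + 1) + (C.d k + 1 - C.c k) - 1)) :
    C.X2 (k + 1) := by
  have hmh := hC.hmh
  have hk : k < C.m := by omega
  have hs : C.m + k + 1 ≤ C.h := by omega
  have R := hr k (by omega)
  have hX := hC.TL03_X hM hj hr
  have hcc := sx05_le (hC.c_cases hM hk)
  have a1 := R.ha
  have a2 := R.hb
  have a3 := R.hc
  have a4 := R.hd
  have a5 := R.ha'
  have a6 := R.hb'
  have a7 := R.hc'
  have a8 := R.hd'
  have l1 := sx05_le (hC.a_let (i := C.m + k) (by omega))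
  have l2 := sx05_le (hC.b_let (i := C.m + k) (by omega))
  have l3 := sx05_le (hC.c_let (i := C.m + k) (by omega))
  have l4 := sx05_le (hC.d_let (i := C.m + k) (by omega))
  have l5 := sx05_le (hC.a'_let (i := C.m + k) (by omega))
  have l6 := sx05_le (hC.b'_let (i := C.m + k) (by omega))
  have l7 := sx05_le (hC.c'_let (i := C.m + k) (by omega))
  have l8 := sx05_le (hC.d'_let (i := C.m + k) (by omega))
  have m3 := sx05_le (hC.c_let (i := k) (by omega))
  have m4 := sx05_le (hC.d_let (i := k) (by omega))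
  obtain ⟨t1, t2, t3, t4⟩ := hC.low (k + 1) hj
  have w1 := sx05_le (hC.win_a' (i := k + 1) (by omega))
  have w2 := sx05_le (hC.win_b (i := k + 1) (by omega))
  have w3 := sx05_le (hC.win_c' (i := k + 1) (by omega))
  have w4 := sx05_le (hC.win_d (i := k + 1) (by omega))
  rw [show k + 1 + C.m = C.m + k + 1 by omega] at w1 w2 w3 w4
  rw [t1] at w1
  rw [t3] at w3
  have lo1 := hC.lo hj
  have ln := hC.lam_near hj
  have hL2 : (C.L : ℤ) = 2 := by rw [hL]; rfl
  have hM1 : (C.M : ℤ) = 1 := by rw [hM]; rfl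
  have hpsi := hC.TL03_psi (s := C.m + k + 1) (by omega) hs
  have hphi := hC.mu_T0 (j := C.m + k + 1) (by omega) (by omega)
  have hDH := hC.DH_mul hs
  have hDG := hC.DG_mul hs
  unfold Cd.lam at ln
  rw [hL2] at hDH ln
  rw [hM1] at hDG
  rw [show C.m + (k + 1) = C.m + k + 1 by omega] at hX
  have hDG' : (T 1 - 1) * C.DG (C.m + k + 1) = T (C.d' (C.m + k + 1) + 1) -
      T (C.c' (C.m + k + 1)) - T (C.d (C.m + k + 1) + 1) + T (C.c (C.m + k + 1)) := hDG
  have hDH' : C.DH (C.m + k + 1) = (1 + T 1) * (- T (C.a (C.m + k + 1))) := by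
    apply sub_one_cancel
    rw [hDH, b1, b2]
    have f1 : (T (C.a (C.m + k + 1) + 1 + 1) : LaurentPolynomial ℤ) =
        T (C.a (C.m + k + 1)) * (T 1 * T 1) := by
      rw [← T_add, ← T_add]; congr 1; ring
    have f2 : (T (C.b (C.m + k + 1) + 1 - 1 + 2) : LaurentPolynomial ℤ) =
        T (C.b (C.m + k + 1) + 2) := by
      congr 1; ring
    rw [f1, f2]
    ring
  have hmain : (1 + T 1) * (- T (C.a (C.m + k + 1)) - C.DG (C.m + k + 1)) =
      (T 1 - 1) * (T C.q * (rowPoly (C.a (k + 1)) (C.b (k + 1) + 1) -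
        br 2 * rowPoly (C.c (k + 1)) (C.d (k + 1)))) := by
    have h1 := hX
    unfold Cd.XX Cd.kap Cd.RH Cd.RG at h1
    rw [hL2, hM1, hDH'] at h1
    rw [show C.b (k + 1) + 2 - 1 = C.b (k + 1) + 1 by ring,
      show C.d (k + 1) + 1 - 1 = C.d (k + 1) by ring] at h1
    rw [← h1, br_two]
    ring
  obtain ⟨hBA, hcan⟩ := TL03_uneq hmain (by omega) (by omega)
  rcases hC.c_cases hM hj with g | g
  · -- `G_j` is a point
    have hCA : C.c (k + 1) = C.a (k + 1) := by omega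
    rw [hCA, show C.d (k + 1) = C.a (k + 1) by omega, TL03_row1, sub_self, mul_zero, mul_zero] at hcan
    have E := TL03_f20 hDG' hcan
    clear hcan hmain hDH' hDG' hDG hDH hX
    rcases b3 with ⟨b3, b4⟩ | ⟨b3, b4⟩
    · by_cases ht : C.d k + 1 - C.c k = 1
      · -- `(2, 1)`
        exfalso
        rw [ht] at b3 b4
        rw [b3, b4] at E
        have e1 := TL03_cf3 E (C.d (C.m + k + 1) + 1 + 1)
        have e2 := TL03_cf3 E (C.a (C.m + k + 1) + 1)
        rw [if_neg (show ¬ C.c (C.m + k + 1) + 1 + 1 = C.d (C.m + k + 1) + 1 + 1 by omega),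
          if_neg (show ¬ C.d (C.m + k + 1) + 1 = C.d (C.m + k + 1) + 1 + 1 by omega),
          if_pos rfl,
          if_neg (show ¬ C.c (C.m + k + 1) = C.d (C.m + k + 1) + 1 + 1 by omega)] at e1
        rw [if_pos rfl, if_neg (show ¬ C.a (C.m + k + 1) = C.a (C.m + k + 1) + 1 by omega)] at e2
        split_ifs at e1 e2 <;> omega
      · -- `(1, 0)`, `t' = 0`
        exfalso
        have ht0 : C.d k + 1 - C.c k = 0 := by omega
        rw [ht0] at b3 b4
        rw [b3, b4] at E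
        have e1 := TL03_cf3 E (C.a (C.m + k + 1))
        rw [if_pos rfl, if_neg (show ¬ C.a (C.m + k + 1) + 1 = C.a (C.m + k + 1) by omega)] at e1
        split_ifs at e1 <;> omega
    · by_cases ht : C.d k + 1 - C.c k = 1
      · -- `(1, 0)`, `t' = 1`
        rw [ht] at b3 b4
        rw [b3, b4, show C.d (C.m + k + 1) + 1 - 1 + 1 = C.d (C.m + k + 1) + 1 by ring] at E
        have e1 := TL03_cf3 E (C.a (C.m + k + 1))
        rw [if_pos rfl, if_neg (show ¬ C.a (C.m + k + 1) + 1 = C.a (C.m + k + 1) by omega)] at e1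
        have e2 : C.c (C.m + k + 1) = C.a (C.m + k + 1) := by
          split_ifs at e1 <;> omega
        have hfk : C.Full k := hC.reg_full hM hk R (by omega)
        obtain ⟨x1, x2, x3⟩ := hfk
        refine ⟨⟨by omega, by omega, by omega⟩, ⟨by simpa using x1, by simpa using x2,
          by simpa using x3⟩, ?_, ?_, ?_, ?_, ?_, ?_, ?_, ?_, ?_⟩ <;>
          simp only [Nat.add_sub_cancel, ← Nat.add_assoc] <;> omega
      · -- `(0, -1)`
        exfalso
        have ht0 : C.d k + 1 - C.c k = 0 := by omega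
        rw [ht0] at b3 b4
        rw [b3, b4] at E
        have e1 := TL03_cf3 E (C.a (C.m + k + 1))
        rw [if_pos rfl, if_neg (show ¬ C.a (C.m + k + 1) + 1 = C.a (C.m + k + 1) by omega)] at e1
        split_ifs at e1 <;> omega
  · -- `G_j` is empty
    exfalso
    rw [g, rowPoly_empty (show C.d (k + 1) < C.d (k + 1) + 1 by omega), sub_zero, ← T_add] at hcan
    have E := TL03_e20 hDG' hcan
    clear hcan hmain hDH' hDG' hDG hDH hX
    have e := TL03_cf5 E (C.q + C.a (k + 1) + 1)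
    rw [if_pos rfl, if_neg (show ¬ C.q + C.a (k + 1) + 2 = C.q + C.a (k + 1) + 1 by omega),
      if_neg (show ¬ C.q + C.a (k + 1) = C.q + C.a (k + 1) + 1 by omega),
      if_neg (show ¬ C.a (C.m + k + 1) + 1 = C.q + C.a (k + 1) + 1 by omega),
      if_neg (show ¬ C.a (C.m + k + 1) = C.q + C.a (k + 1) + 1 by omega)] at e
    rcases b3 with ⟨b3, b4⟩ | ⟨b3, b4⟩
    · split_ifs at e <;> omega
    · split_ifs at e <;> omega

theorem reg_step2 (hL : C.L = 2) {j : ℕ} (h0 : 0 < j) (hj : j < C.m) (hr : ∀ i < j, C.Reg i) :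
    C.Reg j ∨ (C.T0 (C.m + j) ∧ C.Full j) ∨ C.X1 j ∨ C.X2 j := by
  obtain ⟨k, rfl⟩ : ∃ k, j = k + 1 := ⟨j - 1, by omega⟩
  have hmh := hC.hmh
  have hk : k < C.m := by omega
  have hs : C.m + k + 1 ≤ C.h := by omega
  have R := hr k (by omega)
  have hcc := sx05_le (hC.c_cases hM hk)
  have a1 := R.ha
  have a2 := R.hb
  have a3 := R.hc
  have a4 := R.hd
  have a5 := R.ha'
  have a6 := R.hb'
  have a7 := R.hc'
  have a8 := R.hd'
  have hX := hC.TL03_X hM hj hr
  rw [show C.m + (k + 1) = C.m + k + 1 by omega] at hX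
  have g1 : C.a' (C.m + k) = C.a (C.m + k) + 1 := by omega
  have g2 : C.b' (C.m + k) = C.b (C.m + k) + 1 := by omega
  have g3 : C.c' (C.m + k) = C.c (C.m + k) + (C.d k + 1 - C.c k) := by omega
  have g4 : C.d' (C.m + k) = C.d (C.m + k) + (C.d k + 1 - C.c k) := by omega
  rcases hC.row_split hM hL (s := C.m + k) hs g1 g2 g3 g4 hX with
    ⟨u, v, hu1, hu2, hv1, hv2, b1, b2, b3, b4, hid, hmass⟩ | ⟨b1, b2, b3⟩ | ⟨b1, b2, b3⟩
  · rcases hC.TL03_equal hM hL hj hr hu1 hu2 hv1 hv2 b1 b2 b3 b4 hid hmass with h | h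
    · exact Or.inl h
    · exact Or.inr (Or.inl h)
  · exact Or.inr (Or.inr (Or.inl (hC.TL03_02 hM hL hj hr b1 b2 b3)))
  · exact Or.inr (Or.inr (Or.inr (hC.TL03_20 hM hL hj hr b1 b2 b3)))

end Cd.Ok

end Pool.Agent.Lib.MP_bb0bab_co
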