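import Pool.Agent.Lib.MP_bb0bab_co.TL05
import Pool.Agent.Lib.MP_bb0bab_co.TL03

/-!
# TL07 (9.5) row N of G nonempty, all L ≥ 2 (M = 1, N < m)
-/

namespace Pool.Agent.Lib.MP_bb0bab_co

open LaurentPolynomial

theorem tl07_pm (n : ℤ) : evm (T n) = 1 ∨ evm (T n) = -1 := by
  by_cases h : Even n
  · exact Or.inl (evm_even h)
  · exact Or.inr (evm_odd h)

theorem tl07_succ (n : ℤ) : evm (T (n + 1)) = - evm (T n) := by
  by_cases h : Even n
  · rw [evm_even h, evm_odd (by rw [Int.even_add_one]; exact not_not.mpr h)]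
  · rw [evm_odd h, evm_even (by rw [Int.even_add_one]; exact h)]
    norm_num

theorem tl07_two (n : ℤ) : evm (T (n + 2)) = evm (T n) := by
  rw [show n + 2 = n + 1 + 1 by ring, tl07_succ, tl07_succ, neg_neg]

theorem tl07_inj {n k : ℤ} (h : (T n : LaurentPolynomial ℤ) = T k) : n = k := by
  obtain ⟨φ, hφ⟩ := exists_cf n
  have h1 := congrArg φ h
  rw [hφ, hφ, if_pos rfl] at h1
  by_contra hne
  rw [if_neg (fun e => hne e.symm)] at h1
  exact one_ne_zero h1

namespace Cd.Ok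

variable {C : Cd} (hC : C.Ok) (hM : C.M = 1)

include hC hM

omit hC in
/-- `H_N - [L] G_N` is minus one monomial -/
theorem tl07_kap (hL : 2 ≤ C.L) {j : ℕ} {A δ : ℤ} (hδ : δ = 0 ∨ δ = 1) (ha : C.a j = A + 1)
    (hb : C.b j = A) (hc : C.c j = A + δ) (hd : C.d j = A + δ) :
    C.kap j = - T (A + δ * C.L) := by
  apply sub_one_cancel
  have h2 : (T 1 - 1 : LaurentPolynomial ℤ) * br C.L = T C.L - 1 := by
    unfold br
    rw [sub_one_mul_rowPoly (by omega), sub_add_cancel, T_zero]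
  have h3 : (T 1 - 1 : LaurentPolynomial ℤ) * C.RH j = T (A + C.L) - T (A + 1) := by
    unfold Cd.RH
    rw [ha, hb, sub_one_mul_rowPoly (by omega), sub_add_cancel]
  have h4 : C.RG j = T (A + δ) := by
    unfold Cd.RG
    rw [hc, hd, hM, rowPoly_len, Nat.cast_one, br_one, mul_one]
  unfold Cd.kap
  rw [h4]
  have h5 : (T 1 - 1 : LaurentPolynomial ℤ) * (C.RH j - br C.L * T (A + δ)) =
      (T 1 - 1) * C.RH j - ((T 1 - 1) * br C.L) * T (A + δ) := by ring
  rw [h5, h3, h2, sub_mul, ← T_add, one_mul]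
  rcases hδ with rfl | rfl
  · rw [add_zero, zero_mul, add_zero, T_add A 1, add_comm (C.L : ℤ) A]
    ring
  · rw [one_mul, show (C.L : ℤ) + (A + 1) = A + C.L + 1 by ring, T_add (A + C.L) 1]
    ring

/-- equal shifts -/
theorem tl07_eq (hL : 2 ≤ C.L) {s : ℕ} (hm : C.m ≤ s) (hs : s + 1 ≤ C.h) {W δ e1 e2 e3 e4 u v : ℤ}
    (hδ : δ = 0 ∨ δ = 1) (he1 : e1 = 0 ∨ e1 = 1) (he2 : e2 = 0 ∨ e2 = 1) (he3 : e3 = 0 ∨ e3 = 1)
    (he4 : e4 = 0 ∨ e4 = 1)
    (hrow : C.T0 s ∨ (C.T1 s ∧ C.Full s ∧ C.a s = W))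
    (h1 : C.a' (s + 1) = W + 1 + e1) (h2 : C.b (s + 1) = W + e2)
    (h3 : C.c' (s + 1) = W + δ + e3) (h4 : C.d (s + 1) = W + δ + e4)
    (hu : C.a' s - C.a s - 1 ≤ u ∧ u ≤ C.a' s - C.a s + 1)
    (hv : C.c' s - C.c s - 1 ≤ v ∧ v ≤ C.c' s - C.c s + 1)
    (b1 : C.a' (s + 1) = C.a (s + 1) + u) (b2 : C.b' (s + 1) = C.b (s + 1) + u)
    (b3 : C.c' (s + 1) = C.c (s + 1) + v) (b4 : C.d' (s + 1) = C.d (s + 1) + v)
    (hid : brz u * C.RH (s + 1) - br C.L * (brz v * C.RG (s + 1)) = - T (W + δ * C.L))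
    (hmass : u * C.lam (s + 1) - C.L * (v * C.mu (s + 1)) = -1) : False := by
  have hLz : (2 : ℤ) ≤ C.L := by exact_mod_cast hL
  have hlam : C.lam (s + 1) = C.b (s + 1) + C.L - C.a (s + 1) := rfl
  have hmu : C.mu (s + 1) = C.d (s + 1) + 1 - C.c (s + 1) := by
    unfold Cd.mu
    rw [hM]
    push_cast
    ring
  have hlnn := hC.lam_nn hs
  obtain ⟨l, hl⟩ : ∃ l, l = C.lam (s + 1) := ⟨_, rfl⟩
  obtain ⟨μ, hμ⟩ : ∃ μ, μ = C.mu (s + 1) := ⟨_, rfl⟩
  rw [← hl] at hlam hlnn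
  rw [← hμ] at hmu
  rw [← hl, ← hμ] at hmass
  have hl' : l = C.L - 1 + e2 - e1 + u := by omega
  have hμ' : μ = 1 + e4 - e3 + v := by omega
  -- letters
  have l1 := sx05_le (hC.a_let (i := s) (by omega))
  have l2 := sx05_le (hC.b_let (i := s) (by omega))
  have l3 := sx05_le (hC.c_let (i := s) (by omega))
  have l4 := sx05_le (hC.d_let (i := s) (by omega))
  have l5 := sx05_le (hC.a'_let (i := s) (by omega))
  have l6 := sx05_le (hC.b'_let (i := s) (by omega))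
  have l7 := sx05_le (hC.c'_let (i := s) (by omega))
  have l8 := sx05_le (hC.d'_let (i := s) (by omega))
  -- `v ≤ 1`
  have hv2 : v ≠ 2 := by
    intro hcon
    subst hcon
    rcases hrow with ⟨t1, t2, t3, t4⟩ | ⟨⟨t1, t2, t3, t4⟩, ⟨f1, f2, f3⟩, f4⟩
    · omega
    · have e1 : C.c' (s + 1) = C.d (s + 1) + 2 := by omega
      have p1 := hC.Psi_pos (j := s + 1) (by omega) (by omega)
      have p2 := C.c'_lt (s + 1)
      have p3 := C.rK_lt (s + 1)
      rw [e1] at p2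
      push_cast at p2
      linarith
  -- `v ≠ -1`
  have hv3 : v ≠ -1 := by
    intro hcon
    subst hcon
    have p1 := hC.top13 (s := s + 1) (by omega) (by omega) (by omega)
    rw [← hμ, hM] at p1
    push_cast at p1
    omega
  have hvv : v = 0 ∨ v = 1 := by
    rcases hrow with ⟨t1, t2, t3, t4⟩ | ⟨⟨t1, t2, t3, t4⟩, ⟨f1, f2, f3⟩, f4⟩ <;> omega
  have huu : -1 ≤ u ∧ u ≤ 2 := by
    rcases hrow with ⟨t1, t2, t3, t4⟩ | ⟨⟨t1, t2, t3, t4⟩, ⟨f1, f2, f3⟩, f4⟩ <;> omega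
  rcases hvv with rfl | rfl
  · -- `v = 0`
    rw [zero_mul, mul_zero, sub_zero] at hmass
    have hu1 : u = -1 := by
      by_contra hne
      have : 0 ≤ u := by omega
      have := mul_nonneg this hlnn
      omega
    subst hu1
    have hl1 : l = 1 := by omega
    rw [brz_zero, zero_mul, mul_zero, sub_zero, brz_neg_one] at hid
    have hRH : C.RH (s + 1) = T (C.a (s + 1)) := by
      unfold Cd.RH
      have : C.b (s + 1) + C.L - 1 = C.a (s + 1) + ((1 : ℕ) : ℤ) - 1 := by push_cast; omega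
      rw [this, rowPoly_len, Nat.cast_one, br_one, mul_one]
    rw [hRH, neg_mul, neg_inj, ← T_add] at hid
    have h5 := tl07_inj hid
    rcases hδ with rfl | rfl
    · rw [zero_mul] at h5
      omega
    · rw [one_mul] at h5
      omega
  · -- `v = 1`
    rw [one_mul] at hmass
    have hμ1 : 1 ≤ μ := by
      have := hC.mu_T1 (j := s + 1) (by omega) (by omega) (by omega)
      omega
    have hμ3 : μ ≤ 3 := by omega
    have hu1 : 1 ≤ u := by
      by_contra hne
      have h6 : u ≤ 0 := by omega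
      have h7 : u * l ≤ 0 := mul_nonpos_of_nonpos_of_nonneg h6 hlnn
      have h8 : (2 : ℤ) ≤ C.L * μ := by nlinarith
      linarith
    rcases (show u = 1 ∨ u = 2 by omega) with rfl | rfl
    · -- `u = 1`
      rw [one_mul] at hmass
      rcases (show μ = 1 ∨ μ = 2 ∨ μ = 3 by omega) with h | h | h
      · -- the copy
        have x1 : e1 = 1 := by rw [h] at hmass; omega
        have x2 : e2 = 0 := by rw [h] at hmass; omega
        rcases hδ with rfl | rfl
        · have p1 := C.a'_lt (s + 1)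
          have p2 := C.rK_lt (s + 1)
          have p3 := hC.k1_nn (i := s + 1) (by omega)
          have e : C.a' (s + 1) = C.d (s + 1) + 2 := by omega
          rw [e] at p1
          push_cast at p1
          linarith
        · have p1 := C.c'_lt (s + 1)
          have p2 := C.bH_lt (s + 1)
          have p3 := hC.k2_nn (i := s + 1) (by omega)
          have e : C.c' (s + 1) = C.b (s + 1) + 2 := by omega
          rw [e] at p1
          push_cast at p1
          linarith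
      · have x0 : (C.L : ℤ) = 2 := by rw [h] at hmass; omega
        have x1 : e1 = 0 := by rw [h] at hmass; omega
        have x2 : e2 = 1 := by rw [h] at hmass; omega
        have h6 := congrArg evm hid
        rw [brz_one, one_mul, one_mul, map_sub, map_mul, map_neg, x0, br_two, evm_one_add, zero_mul,
          sub_zero] at h6
        have h7 : (T 1 - 1 : LaurentPolynomial ℤ) * C.RH (s + 1) = T (W + 3) - T W := by
          unfold Cd.RH
          rw [sub_one_mul_rowPoly (by omega)]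
          congr 2 <;> omega
        have h8 := congrArg evm h7
        have h9 : evm (T (W + δ * 2)) = evm (T W) := by
          rcases hδ with rfl | rfl
          · rw [zero_mul, add_zero]
          · rw [one_mul, tl07_two]
        have h10 : evm (T (W + 3)) = - evm (T W) := by
          rw [show W + 3 = W + 1 + 2 by ring, tl07_two, tl07_succ]
        have h11 : evm (T 1 - 1) = -2 := by
          rw [map_sub, map_one, show (1 : ℤ) = 0 + 1 by norm_num, tl07_succ, T_zero, map_one]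
          norm_num
        rw [map_mul, h11, h6, h9, map_sub, h10] at h8
        rcases tl07_pm W with hW | hW <;> rw [hW] at h8 <;> omega
      · rw [h] at hmass
        omega
    · -- `u = 2`
      have x1 : C.T1 s ∧ C.Full s ∧ C.a s = W := by
        rcases hrow with ⟨t1, t2, t3, t4⟩ | h
        · omega
        · exact h
      obtain ⟨⟨t1, t2, t3, t4⟩, ⟨f1, f2, f3⟩, f4⟩ := x1
      have x2 : l = C.L := by omega
      have h6 : (C.L : ℤ) * (μ - 2) = 1 := by linarith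
      rcases (show μ = 1 ∨ μ = 2 ∨ μ = 3 by omega) with h | h | h <;> rw [h] at h6 <;> omega

omit hM in
/-- unequal shifts, `L = 2` -/
theorem tl07_ne (hL : C.L = 2) {s : ℕ} (hs : s + 1 ≤ C.h) {W δ e1 e2 : ℤ}
    (hδ : δ = 0 ∨ δ = 1) (he1 : e1 = 0 ∨ e1 = 1) (he2 : e2 = 0 ∨ e2 = 1)
    (h1 : C.a' (s + 1) = W + 1 + e1) (h2 : C.b (s + 1) = W + e2) {u1 u2 : ℤ}
    (b1 : C.a' (s + 1) = C.a (s + 1) + u1) (b2 : C.b' (s + 1) = C.b (s + 1) + u2)
    (hu : (u1 = 0 ∧ u2 = 2) ∨ (u1 = 2 ∧ u2 = 0) ∨ (u1 = -1 ∧ u2 = 1) ∨ (u1 = 1 ∧ u2 = -1))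
    (hX : C.XX (s + 1) = (T 1 - 1) * (- T (W + δ * C.L))) : False := by
  have h0 := congrArg (fun z => evm ((T 1 - 1) * z)) hX
  have h11 : evm (T 1 - 1) = -2 := by
    rw [map_sub, map_one, show (1 : ℤ) = 0 + 1 by norm_num, tl07_succ, T_zero, map_one]
    norm_num
  have h12 : (T 1 - 1) * C.XX (s + 1) = (T 1 - 1) * C.DH (s + 1) -
      (1 + T 1) * ((T 1 - 1) * C.DG (s + 1)) := by
    unfold Cd.XX
    rw [hL]
    push_cast
    rw [br_two]
    ring
  have h9 : evm (T (W + δ * C.L)) = evm (T W) := by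
    rw [hL]
    rcases hδ with rfl | rfl
    · rw [zero_mul, add_zero]
    · rw [one_mul, Nat.cast_ofNat, tl07_two]
  have h13 := hC.DH_mul hs
  rw [h12, h13, map_sub, map_mul evm (1 + T 1), evm_one_add, zero_mul, sub_zero, map_mul, map_mul,
    h11, map_neg, h9, hL] at h0
  push_cast at h0
  rw [map_add, map_sub, map_sub, tl07_two, tl07_two] at h0
  have hlnn := hC.lam_nn hs
  have hlnn' := hC.lam'_nn hs
  unfold Cd.lam at hlnn
  rw [hL] at hlnn hlnn'
  push_cast at hlnn hlnn'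
  have s1 := tl07_succ W
  have s2 := tl07_two W
  have s3 := tl07_succ (W - 1)
  rw [sub_add_cancel] at s3
  have s4 := tl07_pm W
  rcases hu with ⟨rfl, rfl⟩ | ⟨rfl, rfl⟩ | ⟨rfl, rfl⟩ | ⟨rfl, rfl⟩
  · rw [b2, b1, add_zero, tl07_two] at h0
    omega
  · rw [b2, b1, add_zero, tl07_two] at h0
    omega
  · have g1 : C.b' (s + 1) = W + e2 + 1 := by omega
    have g2 : C.a (s + 1) = W + 1 + e1 + 1 := by omega
    rw [g1, h1, h2, g2, tl07_succ (W + e2), tl07_succ (W + 1 + e1)] at h0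
    rcases he1 with rfl | rfl
    · rw [add_zero] at h0
      rcases he2 with rfl | rfl
      · rw [add_zero] at h0
        omega
      · omega
    · rcases he2 with rfl | rfl
      · omega
      · rw [show W + 1 + 1 = W + 2 by ring] at h0
        omega
  · have g1 : C.b' (s + 1) = W - 1 + e2 := by omega
    have g2 : C.a (s + 1) = W + e1 := by omega
    rw [g1, h1, h2, g2] at h0
    rcases he1 with rfl | rfl
    · rw [add_zero, add_zero] at h0
      rcases he2 with rfl | rfl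
      · rw [add_zero, add_zero] at h0
        omega
      · rw [show W - 1 + 1 = W by ring] at h0
        omega
    · rcases he2 with rfl | rfl
      · omega
      · rw [show W - 1 + 1 = W by ring, show W + 1 + 1 = W + 2 by ring] at h0
        omega

theorem nonempty_top (hL : 2 ≤ C.L) {N : ℕ} (hE : C.Ev N) (hNm : N < C.m)
    (h1 : 2 ≤ N → C.a 1 = 0) (hne : C.c N ≤ C.d N) : False := by
  have hmh := hC.hmh
  have hp := hE.pos
  have hX := hC.X_atN hM hE hNm
  obtain ⟨k, rfl⟩ : ∃ k, N = k + 1 := ⟨N - 1, by omega⟩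
  have hs : C.m + k + 1 ≤ C.h := by omega
  obtain ⟨f1, f2, f3⟩ := hE.full k (by omega)
  obtain ⟨t1, t2, t3, t4⟩ := hE.t0
  obtain ⟨o1, o2, o3⟩ := hC.lo hNm
  have m1 := sx05_le (hC.a_let (i := k) (by omega))
  have m2 := sx05_le (hC.b_let (i := k) (by omega))
  have m3 := sx05_le (hC.c_let (i := k) (by omega))
  have m4 := sx05_le (hC.d_let (i := k) (by omega))
  obtain ⟨δ, hδ⟩ : ∃ δ, C.c (k + 1) = C.a k + δ := ⟨C.c (k + 1) - C.a k, by ring⟩
  have hδ' : δ = 0 ∨ δ = 1 := by omega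
  have hd : C.d (k + 1) = C.a k + δ := by omega
  have hnf : ¬ (C.b (k + 1) = C.a (k + 1) ∧ C.c (k + 1) = C.a (k + 1) ∧
    C.d (k + 1) = C.a (k + 1)) := hE.nf
  have ha : C.a (k + 1) = C.a k + 1 := by omega
  have hb : C.b (k + 1) = C.a k := by omega
  -- the equation
  have hkap := tl07_kap hM hL hδ' ha hb hδ hd
  have hX' : C.XX (C.m + k + 1) = (T 1 - 1) * (- T (C.q + C.a k + δ * C.L)) := by
    rw [show C.m + k + 1 = C.m + (k + 1) by omega, hX, hkap]
    unfold Cd.PP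
    rw [show C.q + C.a k + δ * C.L = C.q + (C.a k + δ * C.L) by ring, T_add C.q]
    ring
  -- the row below
  have hrow : C.T0 (C.m + k) ∨ (C.T1 (C.m + k) ∧ C.Full (C.m + k) ∧ C.a (C.m + k) = C.q + C.a k) := by
    rcases Nat.eq_zero_or_pos k with hk | hk
    · subst hk
      obtain ⟨z1, z2, z3, z4, -⟩ := hC.zero
      right
      rw [Nat.add_zero]
      refine ⟨⟨?_, ?_, ?_, ?_⟩, ⟨?_, ?_, ?_⟩, ?_⟩
      · rw [hC.am, hC.am']
      · rw [hC.bm, hC.bm']
      · rw [hC.cm, hC.cm']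
      · rw [hC.dm, hC.dm']
      · rw [hC.am, hC.bm]
      · rw [hC.am, hC.cm]
      · rw [hC.am, hC.dm]
      · rw [hC.am, z1, add_zero]
    · exact hC.zrowG hM hL hE hNm (by omega) (h1 (by omega)) (by omega)
  -- windows
  have w1 := hC.win_a' (i := k + 1) (by omega)
  have w2 := hC.win_b (i := k + 1) (by omega)
  have w3 := hC.win_c' (i := k + 1) (by omega)
  have w4 := hC.win_d (i := k + 1) (by omega)
  rw [show k + 1 + C.m = C.m + k + 1 by omega] at w1 w2 w3 w4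
  obtain ⟨e1, he1⟩ : ∃ e, C.a' (C.m + k + 1) = C.q + C.a k + 1 + e := ⟨C.a' (C.m + k + 1) - (C.q + C.a k + 1), by ring⟩
  obtain ⟨e2, he2⟩ : ∃ e, C.b (C.m + k + 1) = C.q + C.a k + e := ⟨C.b (C.m + k + 1) - (C.q + C.a k), by ring⟩
  obtain ⟨e3, he3⟩ : ∃ e, C.c' (C.m + k + 1) = C.q + C.a k + δ + e := ⟨C.c' (C.m + k + 1) - (C.q + C.a k + δ), by ring⟩
  obtain ⟨e4, he4⟩ : ∃ e, C.d (C.m + k + 1) = C.q + C.a k + δ + e := ⟨C.d (C.m + k + 1) - (C.q + C.a k + δ), by ring⟩
  have x1 : e1 = 0 ∨ e1 = 1 := by omega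
  have x2 : e2 = 0 ∨ e2 = 1 := by omega
  have x3 : e3 = 0 ∨ e3 = 1 := by omega
  have x4 : e4 = 0 ∨ e4 = 1 := by omega
  obtain ⟨t, t', y1, y2, y3, y4⟩ : ∃ t t' : ℤ, C.a' (C.m + k) = C.a (C.m + k) + t ∧
      C.b' (C.m + k) = C.b (C.m + k) + t ∧ C.c' (C.m + k) = C.c (C.m + k) + t' ∧
      C.d' (C.m + k) = C.d (C.m + k) + t' := by
    rcases hrow with ⟨g1, g2, g3, g4⟩ | ⟨⟨g1, g2, g3, g4⟩, -⟩
    · exact ⟨0, 0, by omega, by omega, by omega, by omega⟩
    · exact ⟨1, 1, g1, g2, g3, g4⟩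
  have hev : ev1 (- T (C.q + C.a k + δ * C.L)) = -1 := by rw [map_neg, ev1_T]
  have fin : ∀ u v : ℤ, t - 1 ≤ u → u ≤ t + 1 → t' - 1 ≤ v → v ≤ t' + 1 →
      C.a' (C.m + k + 1) = C.a (C.m + k + 1) + u → C.b' (C.m + k + 1) = C.b (C.m + k + 1) + u →
      C.c' (C.m + k + 1) = C.c (C.m + k + 1) + v → C.d' (C.m + k + 1) = C.d (C.m + k + 1) + v →
      brz u * C.RH (C.m + k + 1) - br C.L * (brz v * C.RG (C.m + k + 1)) =
        - T (C.q + C.a k + δ * C.L) →
      u * C.lam (C.m + k + 1) - C.L * (v * C.mu (C.m + k + 1)) =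
        ev1 (- T (C.q + C.a k + δ * C.L)) → False := by
    intro u v hu1 hu2 hv1 hv2 b1 b2 b3 b4 hid hmass
    rw [hev] at hmass
    exact hC.tl07_eq hM hL (by omega) hs hδ' x1 x2 x3 x4 hrow he1 he2 he3 he4
      (by omega) (by omega) b1 b2 b3 b4 hid hmass
  rcases (show 3 ≤ C.L ∨ C.L = 2 by omega) with hL3 | hL2
  · obtain ⟨u, v, hu1, hu2, hv1, hv2, b1, b2, b3, b4, hid, hmass⟩ :=
      hC.row_next hM hL3 hs y1 y2 y3 y4 hX'
    exact fin u v hu1 hu2 hv1 hv2 b1 b2 b3 b4 hid hmass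
  · have ht : t = 0 ∨ t = 1 := by
      rcases hrow with ⟨g1, g2, g3, g4⟩ | ⟨⟨g1, g2, g3, g4⟩, -⟩ <;> omega
    rcases hC.row_split hM hL2 hs y1 y2 y3 y4 hX' with
      ⟨u, v, hu1, hu2, hv1, hv2, b1, b2, b3, b4, hid, hmass⟩ | ⟨b1, b2, -⟩ | ⟨b1, b2, -⟩
    · exact fin u v hu1 hu2 hv1 hv2 b1 b2 b3 b4 hid hmass
    · refine hC.tl07_ne hL2 hs hδ' x1 x2 he1 he2 (u1 := t - 1) (u2 := t + 1) (by omega)
        (by omega) ?_ hX'
      rcases ht with rfl | rfl
      · right; right; left; exact ⟨by norm_num, by norm_num⟩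
      · left; exact ⟨by norm_num, by norm_num⟩
    · refine hC.tl07_ne hL2 hs hδ' x1 x2 he1 he2 (u1 := t + 1) (u2 := t - 1) (by omega)
        (by omega) ?_ hX'
      rcases ht with rfl | rfl
      · right; right; right; exact ⟨by norm_num, by norm_num⟩
      · right; left; exact ⟨by norm_num, by norm_num⟩

end Cd.Ok

end Pool.Agent.Lib.MP_bb0bab_co
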