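import Pool.Agent.Lib.MP_bb0bab_co.SX01
import Pool.Agent.Lib.MP_bb0bab_co.SX05

/-!
# SX06 the first resonance `J`
-/

namespace Pool.Agent.Lib.MP_bb0bab_co

open LaurentPolynomial

namespace Cd

variable {C : Cd}

theorem exists_J (hC : C.Ok) (hM : C.M = 1) (hL : 3 ≤ C.L) : ∃ J, C.IsJ J := by
  have hm := hC.hm
  have key : ∀ n, 1 ≤ n → n ≤ C.m → (∀ i < n, C.Reg i) ∨ ∃ J, C.IsJ J := by
    intro n h1
    induction n, h1 using Nat.le_induction with
    | base =>
      intro _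
      left
      intro i hi
      have : i = 0 := by omega
      rw [this]
      exact hC.reg_zero hM
    | succ n hn ih =>
      intro hnm
      rcases ih (by omega) with h | h
      · rcases hC.reg_step hM hL (by omega : 0 < n) (by omega) h with h2 | h2
        · left
          intro i hi
          rcases Nat.lt_succ_iff_lt_or_eq.1 hi with h3 | h3
          · exact h i h3
          · rw [h3]; exact h2
        · right
          exact ⟨n, ⟨hn, by omega, h, fun _ => h2⟩⟩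
      · right; exact h
  rcases key C.m hm le_rfl with h | h
  · exact ⟨C.m, ⟨hm, le_rfl, h, fun h2 => absurd h2 (lt_irrefl _)⟩⟩
  · exact h

theorem sx06_full_m (hC : C.Ok) : C.Full C.m := by
  refine ⟨?_, ?_, ?_⟩
  · rw [hC.am, hC.bm]
  · rw [hC.am, hC.cm]
  · rw [hC.am, hC.dm]

namespace IsJ

theorem hh (hC : C.Ok) (hM : C.M = 1) (hL : 3 ≤ C.L) {J : ℕ} (hJ : C.IsJ J) :
    2 * (C.m + J) ≤ C.h + 1 := by
  have hmh := hC.hmh
  have hp := hJ.pos
  have hle := hJ.le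
  have hLz : (3 : ℤ) ≤ C.L := by exact_mod_cast hL
  have R := hJ.reg (J - 1) (by omega)
  have e : C.m + (J - 1) = C.m + J - 1 := by omega
  have ln := hC.lam_near (j := J - 1) (by omega)
  have hlam : C.lam (C.m + J - 1) = C.lam (J - 1) := by
    have h1 := R.ha
    have h2 := R.hb
    rw [e] at h1 h2
    unfold Cd.lam
    rw [h1, h2]
    ring
  have h1 := hC.no_overlap (y := C.m + J - 1) (by omega) (by
    intro j hj
    rw [hlam]
    rcases lt_or_ge j C.m with h | h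
    · obtain ⟨t1, t2, t3, t4⟩ := hC.low j h
      have hmu := hC.mu_le h
      unfold Cd.mu at hmu
      rw [t3, t4]
      rw [hM] at hmu ⊢
      push_cast at hmu ⊢
      omega
    · have R' := hJ.reg (j - C.m) (by omega)
      have e' : C.m + (j - C.m) = j := by omega
      have h3 := R'.hc'
      have h4 := R'.hd'
      rw [e'] at h3 h4
      rw [h3, h4, hM]
      push_cast
      omega)
  omega

theorem jump (hC : C.Ok) {J : ℕ} (hJ : C.IsJ J) (hJm : J < C.m) :
    C.a (C.m + J) = C.q + C.a (J - 1) + 1 ∧ C.b (C.m + J) = C.q + C.b (J - 1) + 1 := by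
  have hmh := hC.hmh
  have hp := hJ.pos
  have R := hJ.reg (J - 1) (by omega)
  obtain ⟨⟨t1, t2, -, -⟩, -⟩ := hJ.res hJm
  have l1 := hC.a_let (i := C.m + (J - 1)) (by omega)
  have l2 := hC.b_let (i := C.m + (J - 1)) (by omega)
  have l3 := hC.a'_let (i := C.m + (J - 1)) (by omega)
  have l4 := hC.b'_let (i := C.m + (J - 1)) (by omega)
  rw [show C.m + (J - 1) + 1 = C.m + J by omega] at l1 l2 l3 l4
  have h1 := R.ha
  have h2 := R.hb
  have h3 := R.ha'
  have h4 := R.hb'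
  constructor <;> omega

theorem sx06_X (hC : C.Ok) (hM : C.M = 1) {J : ℕ} (hJ : C.IsJ J) (hJm : J < C.m) :
    ∀ i < J + 1, C.XX (C.m + i) = C.PP * C.kap i := by
  intro i hi
  rcases Nat.lt_succ_iff_lt_or_eq.1 hi with h3 | h3
  · exact (hC.reg_X hM (by omega) (hJ.reg i h3)).1
  · rw [h3]
    obtain ⟨r1, r2⟩ := hJ.res hJm
    exact (hC.res_X hM hJ.le r1 r2).1

theorem X_after (hC : C.Ok) (hM : C.M = 1) {J : ℕ} (hJ : C.IsJ J) (hJm : J < C.m) :
    C.XX (C.m + J + 1) =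
      (T 1 - 1) * (T C.q * (C.kap (J + 1) - C.kap 1 * T (C.a J))) := by
  have hmh := hC.hmh
  obtain ⟨r1, r2⟩ := hJ.res hJm
  have h := hC.X_one hM (n := J + 1) (e := J) (by omega) (Nat.lt_succ_self J)
    (sx06_X hC hM hJ hJm)
    (fun i hi hne => (hC.reg_X hM (by omega) (hJ.reg i (by omega))).2)
  rw [(hC.res_X hM hJ.le r1 r2).2, show J + 1 - J = 1 by omega] at h
  have e : C.m + (J + 1) = C.m + J + 1 := by omega
  rw [e] at h
  rw [h]
  unfold Cd.PP
  ring

theorem X_2m (hC : C.Ok) (hM : C.M = 1) (hJ : C.IsJ C.m) : C.XX (C.m + C.m) = 0 := by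
  have hmh := hC.hmh
  rw [hC.X_zero hM (n := C.m) (by omega)
    (fun i hi => (hC.reg_X hM hi (hJ.reg i hi)).1)
    (fun i hi => (hC.reg_X hM hi (hJ.reg i hi)).2),
    hC.kap_full hM (sx06_full_m hC), mul_zero]

theorem X_2m1 (hC : C.Ok) (hM : C.M = 1) (hJ : C.IsJ C.m) (hh : C.m + C.m + 1 ≤ C.h) :
    C.XX (C.m + C.m + 1) = C.PP * C.kap (C.m + 1) +
      C.kap 1 * (C.DG (C.m + C.m) - C.PP * T C.q) := by
  have hk := hC.kap_full hM (sx06_full_m hC)
  have h := hC.X_one hM (n := C.m + 1) (e := C.m) (by omega) (Nat.lt_succ_self _)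
    (by
      intro i hi
      rcases Nat.lt_succ_iff_lt_or_eq.1 hi with h3 | h3
      · exact (hC.reg_X hM h3 (hJ.reg i h3)).1
      · rw [h3, X_2m hC hM hJ, hk, mul_zero])
    (fun i hi hne => (hC.reg_X hM (by omega) (hJ.reg i (by omega))).2)
  rw [show C.m + 1 - C.m = 1 by omega] at h
  have e : C.m + (C.m + 1) = C.m + C.m + 1 := by omega
  rw [e] at h
  have hG : C.RG C.m = T C.q := by
    unfold Cd.RG
    rw [hC.cm, hC.dm]
    rw [rowPoly_len, hM, Nat.cast_one, br_one, mul_one]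
  unfold Cd.eps at h
  rw [h, hG]

end IsJ

/-- (0.3) -/
theorem S10.basic {N : ℕ} (S : C.S10 N) :
    C.c N = C.a (N - 1) + 1 ∧ C.d N = C.a (N - 1) ∧
    (C.a N = C.a (N - 1) ∨ C.a N = C.a (N - 1) + 1) ∧
    (C.b N = C.a (N - 1) ∨ C.b N = C.a (N - 1) + 1) ∧
    0 ≤ C.a (N - 1) ∧ C.a (N - 1) < N ∧ C.a (N - 1) * C.m < C.q * N ∧
    (C.q + 1) * N < (C.a (N - 1) + 1) * C.m ∧ 1 ≤ C.q ∧ C.q + 1 < C.m := by
  have hC := S.ok
  have hmh := hC.hmh
  have hpos := S.ev.pos
  have hNm := S.Nm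
  obtain ⟨f1, f2, f3⟩ := S.ev.full (N - 1) (by omega)
  have l1 := hC.a_let (i := N - 1) (by omega)
  have l2 := hC.b_let (i := N - 1) (by omega)
  have l3 := hC.c_let (i := N - 1) (by omega)
  have l4 := hC.d_let (i := N - 1) (by omega)
  rw [Nat.sub_add_cancel hpos] at l1 l2 l3 l4
  have he := S.emp
  have hc : C.c N = C.a (N - 1) + 1 := by omega
  have hd : C.d N = C.a (N - 1) := by omega
  have hz := hC.zero
  have mono := hC.a_mono (i := 0) (j := N - 1) (by omega) (by omega)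
  rw [hz.1] at mono
  have hA0 : 0 ≤ C.a (N - 1) := mono.1
  have hAN : C.a (N - 1) < N := by
    have := mono.2
    have e : ((N - 1 : ℕ) : ℤ) = N - 1 := by
      rw [Nat.cast_sub hpos]; rfl
    rw [e] at this
    push_cast at this
    omega
  have hNr : (0 : ℝ) < N := by exact_mod_cast hpos
  have hmr : (0 : ℝ) < C.m := by
    have : 0 < C.m := by omega
    exact_mod_cast this
  have hNm' : (N : ℝ) ≤ C.m := by exact_mod_cast hNm.le
  -- first inequality
  have i1 : C.a (N - 1) * C.m < C.q * N := by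
    have ch := hC.lKconv.chord (Nat.zero_le N) hNm.le (by omega : C.m ≤ C.h)
    rw [hC.top0.1] at ch
    have h1 := C.c_lt N
    have h2 := C.lK_le C.m
    rw [hc] at h1
    rw [hC.cm] at h2
    push_cast at h1 ch
    have h3 : ((C.a (N - 1) : ℤ) : ℝ) < C.lK N := by linarith
    have h4 : (C.m : ℝ) * ((C.a (N - 1) : ℤ) : ℝ) < C.m * C.lK N := mul_lt_mul_of_pos_left h3 hmr
    have h5 : (N : ℝ) * C.lK C.m ≤ N * ((C.q : ℤ) : ℝ) := mul_le_mul_of_nonneg_left h2 hNr.le
    have h6 : ((C.a (N - 1) : ℤ) : ℝ) * (C.m : ℤ) < ((C.q : ℤ) : ℝ) * (N : ℤ) := by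
      push_cast
      linarith
    exact_mod_cast h6
  have i2 : (C.q + 1) * N < (C.a (N - 1) + 1) * C.m := by
    have ch := hC.rHconc.chord (Nat.zero_le N) hNm.le (by omega : C.m ≤ C.h)
    rw [hC.top0.2.2.2] at ch
    have h1 := C.rH_lt N
    have h2 := C.d'_le C.m
    obtain ⟨-, -, -, t4⟩ := S.ev.t0
    rw [t4, hd] at h1
    rw [hC.dm'] at h2
    push_cast at h2 ch
    have h4 : (C.m : ℝ) * C.rH N < C.m * (((C.a (N - 1) : ℤ) : ℝ) + 1) :=
      mul_lt_mul_of_pos_left h1 hmr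
    have h5 : (N : ℝ) * (((C.q : ℤ) : ℝ) + 1) ≤ N * C.rH C.m := mul_le_mul_of_nonneg_left h2 hNr.le
    have h6 : (((C.q : ℤ) : ℝ) + 1) * (N : ℤ) < (((C.a (N - 1) : ℤ) : ℝ) + 1) * (C.m : ℤ) := by
      push_cast
      linarith
    exact_mod_cast h6
  have hNz : (0 : ℤ) < N := by exact_mod_cast hpos
  have hmz : (0 : ℤ) < C.m := by omega
  have i3 : 1 ≤ C.q := by
    have h1 : 0 ≤ C.a (N - 1) * C.m := mul_nonneg hA0 hmz.le
    have h2 : 0 < C.q * N := lt_of_le_of_lt h1 i1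
    have h3 := pos_of_mul_pos_left h2 hNz.le
    omega
  have i4 : C.q + 1 < C.m := by
    have h1 : (C.a (N - 1) + 1) * C.m ≤ N * C.m := mul_le_mul_of_nonneg_right (by omega) hmz.le
    have h2 : (C.q + 1) * N < C.m * N := by linarith
    exact lt_of_mul_lt_mul_right h2 hNz.le
  exact ⟨hc, hd, by omega, by omega, hA0, hAN, i1, i2, i3, i4⟩

/-- N = 1: `J ≥ 2` and row `m + 1` is regular -/
theorem S10.J2 (S : C.S10 1) {J : ℕ} (hJ : C.IsJ J) : 2 ≤ J := by
  by_contra hcon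
  have hp := hJ.pos
  have h1 : J = 1 := by omega
  subst h1
  obtain ⟨-, -, f2, f3⟩ := hJ.res S.Nm
  have he := S.emp
  omega

end Cd

end Pool.Agent.Lib.MP_bb0bab_co
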