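import Pool.Agent.Lib.MP_bb0bab_co.TL06
import Pool.Agent.Lib.MP_bb0bab_co.SX06

/-!
# TL08 (10.2 for L = 2) the structure `S102`

`s`: from `S` and `he`.  `zrow`: `zrowG` (TL05).  `rowN`, `hh`: TL06.
`exJ`: `exists_Jw` (TL04) gives `J`; for `J = m` use `IsJw.toJ`.  `J < m`: it is enough that row `m + J` is T0.  `reg_step2` at `J` (all `i < J` regular): Reg J, or T0, or X1 J, or X2 J.  (If Reg J holds: `alt`.. simplest: do not use `exists_Jw`, but repeat its
induction: for all `n ≥ 1`, `n ≤ m`: either all `i < n` are regular or `∃ J < n, IsJ J`; step at `j`: `reg_step2`, and X1 j, X2 j are impossible as follows.)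
 X1 j or X2 j, all rows `i < j` regular, `1 ≤ j < m`, rows `j-1`, `j` full.  `j < N`: `zrowG`: row `m+j` is T0 or T1: in X1 `a' = a`, `b' = b + 2`: neither; in X2 `a' = a + 2`: neither.  `j = N`: `Full N`, against `Ev.nf`.
 `j > N`: for `r < j`, `r + 1 ≤ m`: `C0b` with `t = m`, `s = m+r`, `j := r+1`, `k = 1`: `b (r+1) + q ≤ b (m+r) + c' 1 = q + b r + 0` (row 1 is full: `c' 1 = c 1 = a 1 = 0`): `b (r+1) ≤ b r`; so `b j ≤ 0`; but `Full j`: `b j = c j ≥ c N = a (N-1) + 1 ≥ 1` (`S10.basic`).
-/

namespace Pool.Agent.Lib.MP_bb0bab_co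

open LaurentPolynomial

namespace Cd.Q2

variable {C : Cd} {N : ℕ} (S : C.Q2 N)

include S

theorem s10 (he : C.c N = C.d N + 1) : C.S10 N where
  ok := S.ok
  M1 := S.M1
  ev := S.ev
  Nm := S.Nm
  emp := he

/-- rows `m + j` of the forms X1, X2 cannot follow regular rows if row 1 has value 0 -/
theorem tl08_exotic (he : C.c N = C.d N + 1) (hN2 : 2 ≤ N) (h1 : C.a 1 = 0) {j : ℕ}
    (hj : j < C.m) (hr : ∀ i < j, C.Reg i) (hF : C.Full j)
    (hnT : C.a' (C.m + j) ≠ C.a (C.m + j) ∨ C.b' (C.m + j) ≠ C.b (C.m + j))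
    (hnU : C.a' (C.m + j) ≠ C.a (C.m + j) + 1 ∨ C.b' (C.m + j) ≠ C.b (C.m + j) + 1) : False := by
  have hC := S.ok
  have hNm := S.Nm
  have hL2 : 2 ≤ C.L := by rw [S.L2]
  have hmh := hC.hmh
  rcases Nat.lt_trichotomy j N with h | h | h
  · rcases hC.zrowG S.M1 hL2 S.ev hNm hN2 h1 h with ⟨t1, t2, t3, t4⟩ | ⟨⟨t1, t2, t3, t4⟩, -, -⟩
    · rcases hnT with h2 | h2
      · exact h2 t1
      · exact h2 t2
    · rcases hnU with h2 | h2
      · exact h2 t1
      · exact h2 t2
  · rw [h] at hF
    exact S.ev.nf hF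
  · obtain ⟨b1, -, -, -, b5, -, -, -, -, -⟩ := (S.s10 he).basic
    obtain ⟨f1, f2, f3⟩ := S.ev.full 1 (by omega)
    obtain ⟨-, -, t3, -⟩ := hC.low 1 (by omega)
    have z2 := hC.zero.2.1
    have am := hC.am
    have bm := hC.bm
    have cm := hC.cm
    have dm := hC.dm
    have am' := hC.am'
    have bm' := hC.bm'
    have cm' := hC.cm'
    have dm' := hC.dm'
    have hb : ∀ i ≤ j, C.b i ≤ 0 := by
      intro i
      induction i with
      | zero => intro _; exact z2.le
      | succ i ih =>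
        intro hi
        have h3 := ih (by omega)
        have h2 := hC.C0b (j := i + 1) (s := C.m + i) (k := 1) (t := C.m) (by omega) (by omega)
          (by omega) (by omega)
        have h4 := (hr i (by omega)).hb
        omega
    have hbj := hb j le_rfl
    obtain ⟨g1, g2, g3⟩ := hF
    have hc := hC.c_mono (i := N) (j := j) (by omega) (by omega)
    omega

theorem tl08_exJ (he : C.c N = C.d N + 1) (hN2 : 2 ≤ N) (h1 : C.a 1 = 0) : ∃ J, C.IsJ J := by
  have hC := S.ok
  have hm := hC.hm
  have key : ∀ n, 1 ≤ n → n ≤ C.m → (∀ i < n, C.Reg i) ∨ ∃ J, C.IsJ J := by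
    intro n hn1
    induction n, hn1 using Nat.le_induction with
    | base =>
      intro _
      left
      intro i hi
      have : i = 0 := by omega
      rw [this]
      exact hC.reg_zero S.M1
    | succ n hn ih =>
      intro hnm
      rcases ih (by omega) with h | h
      · rcases hC.reg_step2 S.M1 S.L2 (by omega : 0 < n) (by omega) h with h2 | h2 | h2 | h2
        · left
          intro i hi
          rcases Nat.lt_succ_iff_lt_or_eq.1 hi with h3 | h3
          · exact h i h3
          · rw [h3]; exact h2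
        · right
          exact ⟨n, ⟨hn, by omega, h, fun _ => h2⟩⟩
        · exfalso
          have e1 := h2.ha
          have e2 := h2.hb
          have e3 := h2.ha'
          have e4 := h2.hb'
          exact S.tl08_exotic he hN2 h1 (by omega) h h2.fj (Or.inr (by omega))
            (Or.inl (by omega))
        · exfalso
          have e1 := h2.ha
          have e3 := h2.ha'
          exact S.tl08_exotic he hN2 h1 (by omega) h h2.fj (Or.inl (by omega))
            (Or.inl (by omega))
      · right; exact h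
  rcases key C.m hm le_rfl with h | h
  · exact ⟨C.m, ⟨hm, le_rfl, h, fun h2 => absurd h2 (lt_irrefl _)⟩⟩
  · exact h

theorem s102 (he : C.c N = C.d N + 1) (hN2 : 2 ≤ N) (h1 : C.a 1 = 0) : C.S102 N where
  s := S.s10 he
  N2 := hN2
  h1 := h1
  exJ := S.tl08_exJ he hN2 h1
  zrow := fun _ hj => S.ok.zrowG S.M1 (by rw [S.L2]) S.ev S.Nm hN2 h1 hj
  rowN := S.rowN he (fun _ => h1)
  hh := S.hh2 he (fun _ => h1)

end Cd.Q2

end Pool.Agent.Lib.MP_bb0bab_co
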