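import Pool.Agent.Lib.MP_bb0bab_co.TL06

/-!
# TL09 (10.2, STEP 4 for L = 2) row m+N+1

`A = a (N-1)`.  Hypotheses (from STEPS 1-3): `b N = A+1`, `c (N+1) = A+1`, `N + 1 < m`, row `m+1` is T0, row `m+N` regular with `G_N` empty: at `s-1 = m+N`: bottom T1 with `a = q + a N`, `b = q+A+1`; top `c = d = c' = d' = q+A+1`.
Equation (as SX10 `X_next`; prove it here for `Q2` in the same way): `XX s = (T 1 - 1) * (T q * (kap (N+1) - RH N))`, `s = m+N+1`.
`lam_N = A+3 - a_N ∈ {2,3}`; `a_(N+1) ∈ {a_N, a_N+1}`, `b_(N+1) ∈ {A+1,A+2}`, `d_(N+1) ∈ {A, A+1}` (`d ≤ c`, `lo`), (W m): `a'_s = q+a_(N+1)+e1`, `b_s = q+b_(N+1)+e2`; `c_s, c'_s, d_s, d'_s ∈ {q+A+1, q+A+2}` (letters).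
`C0a` (`s := m+N`, `j = m-1`, `k = 0`, `t = N+1`): `a_N ≤ d_(N+1)`.  So (P1) `d_(N+1) = A+1`, or `d_(N+1) = A` and then `a_N = A`, `lam_N = 3`.
EQUAL (`u ∈ {0,1,2}`, `v ∈ {-1,0,1}`), mass `u lam_s - 2 v mu_s = lam_(N+1) - 2 mu_(N+1) - lam_N`, `lam_s = lam_(N+1)+e2-e1+u`.  `v = -1`: `c_s = d_s = q+A+2`, `mu_s = 1`, against `top13`.  `v = 1`: `c_s = d_s = q+A+1`, `mu_s = 1`.
  (P1) `v = 0`: right side `≤ -1 < 0 ≤ u lam_s` no.  `v = 1`: `u lam_s = lam_(N+1) - lam_N ≤ 1`; `u = 0`: identity gives `RH (N+1) = RH N`; `u = 1`: `lam_s ≥ lam_(N+1) ≥ 3`.. no; `u = 2` no (`lam_s ≥ 1`).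
  (P2) `d_(N+1) = A`, `v = 0`: `u lam_s = lam_(N+1) - lam_N`: the same: `u = 0`.  (P3) `d_(N+1) = A`, `v = 1`, `lam_N = 3`: `u lam_s = lam_(N+1) - 1`: `u = 0`: `lam_(N+1) = 1` no (`≥ lam_N - 1 = 2`); `u = 1`: `e2-e1+1 = -1` no; `u = 2`: `lam_s = lam_(m+N) = 3` (`a_s = a_(s-1)`, `b_s = b_(s-1)`): `6 = lam_(N+1) - 1` no.
UNEQUAL: `(0,2)`: `DH s = (1+T 1) T (b_s+2)`; `(2,0)`: `DH s = -(1+T 1) T a_s`; `v = (-1,0)` or `(0,1)` resp. `(0,-1)` or `(1,0)`: `DG s` is ONE monomial (`T (c-1)`, `T (d+1)`, `- T d`, `- T c`).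
  `evm`: `evm (RH (N+1)) = evm (RH N)`: `lam_(N+1) = lam_N` (same parity, differ by at most 1).  Either `H_(N+1) = H_N` or (`a_(N+1) = a_N+1`, `b_(N+1) = A+2`).
  `H_(N+1) = H_N`: `DG s = T (b_s+2) + (T 1 - 1) T q G_(N+1)` (resp. `- T a_s + ..`).  `(0,2)`: `d_(N+1) = A`: `DG s = T (b_s+2)`, `b_s ≥ q+A+1`: `c_s - 1 = b_s+2` no (`c_s ≤ q+A+2`); `d_s + 1 = b_s + 2`, but `v = (0,1)` after T0: `d_s = d_(s-1) = q+A+1`: `d_s + 1 = q+A+2 < b_s+2` no.
       `d_(N+1) = A+1`: three monomials `T (b_s+2) + T (q+A+2) - T (q+A+1)`, `b_s + 2 ≥ q+A+3`: no.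
     `(2,0)`: `d_(N+1) = A`: `DG s = - T a_s`, `a_s = a_(s-1) = q + a_N ≤ q+A+1`: `v = (0,-1)`: `d_s = q+A+2` no; `v = (1,0)`: `c_s = c_(s-1) = q+A+1`: `a_N = A+1`, against `a_N ≤ d_(N+1) = A`.  `d_(N+1) = A+1`: `- T a_s + T (q+A+2) - T (q+A+1)`: no (`a_s ≤ q+A+1`; coefficient at `q+A+2` is 1).
  shifted: `a_N = A+1`.. (`lam_N = 2`: `H_N = (1+T 1) T (A+1)`; if `lam_N = 3` then `evm` gives `a_(N+1) = a_N` by the sign): `DG s = T (b_s+2) - (T 1 - 1)^2 T (q+A+1) + (T 1 - 1) T q G_(N+1)` resp. `- T a_s - ..`: coefficient at `q+A+2` is `≥ 2`: `DG s` is a monomial: no.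
Conclusion: `u = 0`, `a' = a`, `b' = b` at `s`, row `s-1` T1 at the bottom: `a_s = q + a_N + 1`, `b_s = q+A+2`; if `a_N = A+1` then (P1), `v = 1`, `d_s = q+A+1`.
-/

namespace Pool.Agent.Lib.MP_bb0bab_co

open LaurentPolynomial

/-- indicator -/
def tl09_i (a n : ℤ) : ℤ := if a = n then 1 else 0

theorem tl09_i1 {a n : ℤ} (h : a = n) : tl09_i a n = 1 := if_pos h

theorem tl09_i0 {a n : ℤ} (h : a ≠ n) : tl09_i a n = 0 := if_neg h

theorem tl09_key {q aN a1 b1 d1 g e A : ℤ} {D : LaurentPolynomial ℤ} {σ : ℤ}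
    (hD : D = (σ : ℤ) • ((T 1 + 1) * (T e - T g)))
    (h : D = T q * (T (b1 + 2) - T a1 - T (A + 1 + 2) + T aN -
      (T 1 + 1) * (T (d1 + 1) - T (A + 1)))) (n : ℤ) :
    σ * (tl09_i (1 + e) n - tl09_i (1 + g) n + tl09_i e n - tl09_i g n) =
      tl09_i (q + (b1 + 2)) n - tl09_i (q + a1) n
      - tl09_i (q + (A + 1 + 2)) n + tl09_i (q + aN) n -
      tl09_i (q + (1 + (d1 + 1))) n + tl09_i (q + (1 + (A + 1))) n -
      tl09_i (q + (d1 + 1)) n + tl09_i (q + (A + 1)) n := by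
  obtain ⟨φ, hφ⟩ := exists_cf n
  have h1 : (σ : ℤ) • (T (1 + e) - T (1 + g) + T e - T g : LaurentPolynomial ℤ) =
      T (q + (b1 + 2)) - T (q + a1) - T (q + (A + 1 + 2)) + T (q + aN) -
      T (q + (1 + (d1 + 1))) + T (q + (1 + (A + 1))) - T (q + (d1 + 1)) + T (q + (A + 1)) := by
    have h2 := hD.symm.trans h
    simp only [T_add] at h2 ⊢
    rw [show (T 1 * T e - T 1 * T g + T e - T g : LaurentPolynomial ℤ) = (T 1 + 1) * (T e - T g) by ring, h2]
    ring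
  have h2 := congrArg φ h1
  simpa only [map_zsmul, map_add, map_sub, hφ, smul_eq_mul, tl09_i] using h2

theorem tl09_eq {q A aN a1 b1 d1 as bs cs ds as' bs' cs' ds' u v : ℤ}
    (h1 : A ≤ aN ∧ aN ≤ A + 1) (h2 : aN ≤ a1 ∧ a1 ≤ aN + 1) (h3 : A + 1 ≤ b1 ∧ b1 ≤ A + 1 + 1)
    (h4 : A ≤ d1 ∧ d1 ≤ A + 1) (l1 : q + aN ≤ as ∧ as ≤ q + aN + 1)
    (l2 : q + (A + 1) ≤ bs ∧ bs ≤ q + (A + 1) + 1) (l3 : q + (A + 1) ≤ cs ∧ cs ≤ q + (A + 1) + 1)
    (l4 : q + (A + 1) ≤ ds ∧ ds ≤ q + (A + 1) + 1)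
    (l5 : q + aN + 1 ≤ as' ∧ as' ≤ q + aN + 1 + 1)
    (l6 : q + (A + 1) + 1 ≤ bs' ∧ bs' ≤ q + (A + 1) + 1 + 1)
    (l7 : q + A + 1 ≤ cs' ∧ cs' ≤ q + A + 1 + 1) (l8 : q + A + 1 ≤ ds' ∧ ds' ≤ q + A + 1 + 1)
    (w1 : a1 + q ≤ as' ∧ as' ≤ a1 + q + 1) (w2 : b1 + q ≤ bs ∧ bs ≤ b1 + q + 1)
    (hC0 : aN ≤ d1) (hu1 : 1 - 1 ≤ u) (hu2 : u ≤ 1 + 1) (hv : v = 0 ∨ v = 1)
    (e1 : as' = as + u) (e2 : bs' = bs + u) (e3 : cs' = cs + v) (e4 : ds' = ds + v)
    (hm : u * (bs + 2 - as) - ((2 : ℕ) : ℤ) * (v * (ds + 1 - cs)) =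
      (b1 + 2 - a1) - 2 * (d1 + 1 - (A + 1)) - (A + 3 - aN)) :
    as = q + aN + 1 ∧ as' = q + aN + 1 ∧ bs = q + A + 2 ∧
      (aN = A ∨ aN = A + 1 ∧ ds = q + A + 1) := by
  push_cast at hm
  subst e1 e2 e3 e4
  rcases (show u = 0 ∨ u = 1 ∨ u = 2 by omega) with rfl | rfl | rfl <;> rcases hv with rfl | rfl <;>
    omega

theorem tl09_bad {B q aN a1 b1 d1 g e : ℤ} {D : LaurentPolynomial ℤ} {σ : ℤ}
    (hσ : σ = 1 ∧ e = B + 3 ∨ σ = -1 ∧ e = q + aN) (hg : g = B + 1 ∨ g = B + 2)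
    {A : ℤ} (hB : B = q + A) (haN : aN = A ∨ aN = A + 1) (ha1 : a1 = aN ∨ a1 = aN + 1)
    (hb1 : b1 = A + 1 ∨ b1 = A + 2) (hd1 : d1 = A ∨ d1 = A + 1) (hC0 : aN ≤ d1)
    (hD : D = (σ : ℤ) • ((T 1 + 1) * (T e - T g)))
    (h : D = T q * (T (b1 + 2) - T a1 - T (A + 1 + 2) + T aN -
      (T 1 + 1) * (T (d1 + 1) - T (A + 1)))) : False := by
  have k4 := tl09_key hD h (B + 4)
  have k3 := tl09_key hD h (B + 3)
  have k2 := tl09_key hD h (B + 2)
  clear hD h
  subst hB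
  rcases hσ with ⟨rfl, rfl⟩ | ⟨rfl, rfl⟩ <;> rcases hg with rfl | rfl <;>
    rcases haN with rfl | rfl <;> rcases ha1 with rfl | rfl <;> rcases hb1 with rfl | rfl <;>
    rcases hd1 with rfl | rfl <;> simp (discharger := omega) only [tl09_i1, tl09_i0] at k4 k3 k2 <;> omega

namespace Cd.Q2

variable {C : Cd} {N : ℕ} (S : C.Q2 N)

include S

theorem X_next (he : C.c N = C.d N + 1) (hN2 : 2 ≤ N) (h1 : C.a 1 = 0) (hm : N + 1 < C.m)
    (h0 : C.T0 (C.m + 1)) :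
    C.XX (C.m + N + 1) = (T 1 - 1) * (T C.q * (C.kap (N + 1) - C.RH N)) := by
  have hC := S.ok
  have hM := S.M1
  have hE := S.ev
  have hNm := S.Nm
  have hmh := hC.hmh
  have hX : ∀ i < N + 1, C.XX (C.m + i) = C.PP * C.kap i := by
    intro i hi
    rcases (show i < N ∨ i = N by omega) with h | h
    · rw [hC.X_lowN hM hE hNm h, hC.kap_full hM (hE.full i h), mul_zero]
    · rw [h]
      exact hC.X_atN hM hE hNm
  rw [show C.m + N + 1 = C.m + (N + 1) by omega, hC.X_step hM (by omega) hX]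
  have hs : ∑ i ∈ Finset.range (N + 1), C.kap (i + 1) * C.eps (N + 1 - 1 - i) =
      - (C.PP * C.RH N) := by
    rw [Finset.sum_eq_single (N - 1)]
    · rw [show N - 1 + 1 = N by omega, show N + 1 - 1 - (N - 1) = 1 by omega,
        hC.kap_emp hM (by omega)]
      unfold eps
      rw [(hC.XX_T0 hM h0).2, hC.RG_full hM (hE.full 1 (by omega)), h1, T_zero]
      ring
    · intro i hi hne
      have hi' := Finset.mem_range.mp hi
      rcases (show i < N - 1 ∨ i = N by omega) with h | h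
      · rw [hC.kap_full hM (hE.full (i + 1) (by omega)), zero_mul]
      · rw [show N + 1 - 1 - i = 0 by omega, (hC.reg_X hM (by omega) (hC.reg_zero hM)).2, mul_zero]
    · intro h
      exact absurd (Finset.mem_range.mpr (by omega)) h
  rw [hs]
  unfold PP
  ring

theorem step4 (he : C.c N = C.d N + 1) (hN2 : 2 ≤ N) (h1 : C.a 1 = 0) (hm : N + 1 < C.m)
    (h0 : C.T0 (C.m + 1)) (hb : C.b N = C.a (N - 1) + 1) (hc : C.c (N + 1) = C.a (N - 1) + 1) :
    C.a (C.m + N + 1) = C.q + C.a N + 1 ∧ C.a' (C.m + N + 1) = C.q + C.a N + 1 ∧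
    C.b (C.m + N + 1) = C.q + C.a (N - 1) + 2 ∧
    (C.a N = C.a (N - 1) ∨
      (C.a N = C.a (N - 1) + 1 ∧ C.d (C.m + N + 1) = C.q + C.a (N - 1) + 1)) := by
  have hC := S.ok
  have hM := S.M1
  have hL := S.L2
  have hE := S.ev
  have hNm := S.Nm
  have hmh := hC.hmh
  have R := S.rowN he (fun _ => h1)
  have hX := S.X_next he hN2 h1 hm h0
  have r1 := R.ha
  have r2 := R.hb
  have r3 := R.hc
  have r4 := R.hd
  have r5 := R.ha'
  have r6 := R.hb'
  have r7 := R.hc'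
  have r8 := R.hd'
  -- values at N
  obtain ⟨f1, f2, f3⟩ := hE.full (N - 1) (by omega)
  have cN := hC.c_let (i := N - 1) (by omega)
  have dN := hC.d_let (i := N - 1) (by omega)
  have aN := hC.a_let (i := N - 1) (by omega)
  rw [show N - 1 + 1 = N by omega] at cN dN aN
  obtain ⟨A, hA⟩ : ∃ A, A = C.a (N - 1) := ⟨_, rfl⟩
  rw [f2] at cN
  rw [f3] at dN
  rw [← hA] at cN dN aN f1 f2 f3 hb hc ⊢
  have eN : C.c N = A + 1 ∧ C.d N = A := by omega
  obtain ⟨eN1, eN2⟩ := eN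
  replace aN := Ok.sx05_le aN
  clear cN dN
  have q1 : C.a' (C.m + N) = C.a (C.m + N) + 1 := by rw [r5, r1]
  have q2 : C.b' (C.m + N) = C.b (C.m + N) + 1 := by rw [r6, r2]
  have q3 : C.c' (C.m + N) = C.c (C.m + N) + 0 := by rw [r7, r3, eN1, eN2]; ring
  have q4 : C.d' (C.m + N) = C.d (C.m + N) + 0 := by rw [r8, r4, eN1, eN2]; ring
  -- letters at N + 1
  have aN1 := Ok.sx05_le (hC.a_let (i := N) (by omega))
  have bN1 := Ok.sx05_le (hC.b_let (i := N) (by omega))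
  have dN1 := Ok.sx05_le (hC.d_let (i := N) (by omega))
  -- letters at s
  have l1 := Ok.sx05_le (hC.a_let (i := C.m + N) (by omega))
  have l2 := Ok.sx05_le (hC.b_let (i := C.m + N) (by omega))
  have l3 := Ok.sx05_le (hC.c_let (i := C.m + N) (by omega))
  have l4 := Ok.sx05_le (hC.d_let (i := C.m + N) (by omega))
  have l5 := Ok.sx05_le (hC.a'_let (i := C.m + N) (by omega))
  have l6 := Ok.sx05_le (hC.b'_let (i := C.m + N) (by omega))
  have l7 := Ok.sx05_le (hC.c'_let (i := C.m + N) (by omega))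
  have l8 := Ok.sx05_le (hC.d'_let (i := C.m + N) (by omega))
  rw [hb] at bN1
  rw [eN2] at dN1
  -- windows
  obtain ⟨t1, t2, t3, t4⟩ := hC.low (N + 1) hm
  have w1 := hC.win_a' (i := N + 1) (by omega)
  have w2 := hC.win_b (i := N + 1) (by omega)
  rw [show N + 1 + C.m = C.m + N + 1 by omega] at w1 w2
  rw [t1] at w1
  replace w1 := Ok.sx05_le w1
  replace w2 := Ok.sx05_le w2
  -- C0a
  have c0 := hC.C0a (j := C.m - 1) (s := C.m + N) (k := 0) (t := N + 1) (by omega)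
    (hC.low (C.m - 1) (by omega)).1 (by omega) (by omega) (by omega)
  have am := (hC.a_mono (i := C.m - 1) (j := C.m) (by omega) (by omega)).1
  rw [hC.am] at am
  rw [hC.zero.2.2.2.1, zero_add, r1] at c0
  have hC0 : C.a N ≤ C.d (N + 1) := by omega
  clear am c0
  -- lengths
  have hlam : C.lam (C.m + N + 1) = C.b (C.m + N + 1) + 2 - C.a (C.m + N + 1) := by
    unfold Cd.lam
    rw [hL]
    push_cast
    ring
  have hmu : C.mu (C.m + N + 1) = C.d (C.m + N + 1) + 1 - C.c (C.m + N + 1) := by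
    unfold Cd.mu
    rw [hM]
    push_cast
    ring
  have hev : ev1 (T C.q * (C.kap (N + 1) - C.RH N)) =
      (C.b (N + 1) + 2 - C.a (N + 1)) - 2 * (C.d (N + 1) + 1 - C.c (N + 1)) -
      (A + 3 - C.a N) := by
    rw [mul_sub, map_sub, hC.sx05_ev hM (by omega), map_mul, ev1_T, hC.ev1_RH hM (by omega)]
    unfold Cd.lam Cd.mu
    rw [hM, hL, hb]
    push_cast
    ring
  have hXX : C.XX (C.m + N + 1) = T C.q * (T (C.b (N + 1) + 2) - T (C.a (N + 1)) -
      T (A + 1 + 2) + T (C.a N) - (T 1 + 1) * (T (C.d (N + 1) + 1) - T (A + 1))) := by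
    have e1 : (T 1 - 1) * C.RH (N + 1) = T (C.b (N + 1) + 2) - T (C.a (N + 1)) := by
      unfold Cd.RH
      have := hC.lam_nn (i := N + 1) (by omega)
      unfold Cd.lam at this
      rw [hL] at this ⊢
      push_cast at this ⊢
      rw [sub_one_mul_rowPoly (by omega), show C.b (N + 1) + 2 - 1 + 1 = C.b (N + 1) + 2 by ring]
    have e2 : (T 1 - 1) * C.RH N = T (A + 1 + 2) - T (C.a N) := by
      unfold Cd.RH
      rw [hL]
      push_cast
      rw [sub_one_mul_rowPoly (by omega), show C.b N + 2 - 1 + 1 = A + 1 + 2 by omega]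
    have e3 : (T 1 - 1) * C.RG (N + 1) = T (C.d (N + 1) + 1) - T (A + 1) := by
      unfold Cd.RG
      rw [hM]
      push_cast
      rw [sub_one_mul_rowPoly (by omega), hc, show C.d (N + 1) + 1 - 1 + 1 = C.d (N + 1) + 1 by ring]
    rw [hX]
    unfold Cd.kap
    rw [hL, Nat.cast_two, br_two]
    linear_combination T C.q * (e1 - e2 - (1 + T 1) * e3)
  have z1 : C.a N = A ∨ C.a N = A + 1 := by
    clear * - aN
    omega
  have z2 : C.a (N + 1) = C.a N ∨ C.a (N + 1) = C.a N + 1 := by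
    clear * - aN1
    omega
  have z3 : C.b (N + 1) = A + 1 ∨ C.b (N + 1) = A + 2 := by
    clear * - bN1
    omega
  have z4 : C.d (N + 1) = A ∨ C.d (N + 1) = A + 1 := by
    clear * - dN1
    omega
  have H0 := hC.row_split hM hL (s := C.m + N) (by omega) (t := 1) (t' := 0) q1 q2 q3 q4 hX
  rw [r1] at l1
  rw [r2, hb] at l2
  rw [r3, eN1] at l3
  rw [r4, eN1] at l4
  rw [r5] at l5
  rw [r6, hb] at l6
  rw [r7, eN2] at l7
  rw [r8, eN2] at l8
  have hs0 : C.m ≤ C.m + N + 1 := by omega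
  have hs1 : C.m + N + 1 ≤ C.h := by omega
  clear r1 r2 r3 r4 r5 r6 r7 r8 q1 q2 q3 q4 t1 t2 t3 t4 f1 f2 f3 hmh hNm hN2
  rcases H0 with H | H | H
  · obtain ⟨u, v, hu1, hu2, hv1, hv2, b1, b2, b3, b4, -, hmass⟩ := H
    rw [hev, hlam, hmu, hL, hc] at hmass
    have htop : v ≠ -1 := by
      rintro rfl
      have p1 := hC.top13 (s := C.m + N + 1) hs0 hs1 (by rw [b4]; ring)
      rw [hmu, hM] at p1
      push_cast at p1
      clear * - p1 b3 b4 l4 l8 l3 l7
      omega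
    have hv3 : v = 0 ∨ v = 1 := by
      clear * - hv1 hv2 htop
      omega
    have key := tl09_eq aN aN1 bN1 dN1 l1 l2 l3 l4 l5 l6 l7 l8 w1 w2 hC0 hu1 hu2 hv3 b1 b2 b3 b4
      hmass
    exact key
  · exfalso
    obtain ⟨g1, g2, g3⟩ := H
    have v1 : C.a' (C.m + N + 1) = C.a (C.m + N + 1) := by rw [g1]; ring
    have v2 : C.b (C.m + N + 1) = C.q + A + 1 := by
      clear * - l2 l6 g2
      omega
    have v3 : C.b' (C.m + N + 1) = C.q + A + 3 := by
      clear * - l2 l6 g2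
      omega
    have hDH : C.DH (C.m + N + 1) = (T 1 + 1) * T (C.q + A + 3) := by
      apply sub_one_cancel
      rw [hC.DH_mul hs1, v1, v2, v3, hL]
      push_cast
      rw [show C.q + A + 3 + 2 = 1 + (1 + (C.q + A + 3)) by ring,
        show C.q + A + 1 + 2 = C.q + A + 3 by ring, T_add 1, T_add 1]
      ring
    have hDG : C.DG (C.m + N + 1) = T (C.q + A + 1) ∨ C.DG (C.m + N + 1) = T (C.q + A + 2) := by
      rcases g3 with ⟨g3, g4⟩ | ⟨g3, g4⟩
      · left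
        have v4 : C.c (C.m + N + 1) = C.q + A + 2 := by
          clear * - l3 l7 g3
          omega
        have v5 : C.c' (C.m + N + 1) = C.q + A + 1 := by
          clear * - l3 l7 g3
          omega
        have v6 : C.d' (C.m + N + 1) = C.d (C.m + N + 1) := by
          clear * - g4
          omega
        apply sub_one_cancel
        rw [hC.DG_mul hs1, v4, v5, v6, show C.q + A + 2 = 1 + (C.q + A + 1) by ring, T_add 1]
        ring
      · right
        have v4 : C.d (C.m + N + 1) = C.q + A + 1 := by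
          clear * - l4 l8 g4
          omega
        have v5 : C.d' (C.m + N + 1) = C.q + A + 2 := by
          clear * - l4 l8 g4
          omega
        have v6 : C.c' (C.m + N + 1) = C.c (C.m + N + 1) := by
          clear * - g3
          omega
        apply sub_one_cancel
        rw [hC.DG_mul hs1, v4, v5, v6, hM]
        push_cast
        rw [show C.q + A + 2 + 1 = 1 + (C.q + A + 2) by ring,
          show C.q + A + 1 + 1 = C.q + A + 2 by ring, T_add 1]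
        ring
    rcases hDG with hDG | hDG
    · refine tl09_bad (B := C.q + A) (σ := 1) (Or.inl ⟨rfl, rfl⟩) (Or.inl rfl) rfl
        z1 z2 z3 z4 hC0 (D := C.XX (C.m + N + 1)) ?_ ?_
      · unfold Cd.XX
        rw [hDH, hDG, hL, Nat.cast_two, br_two, one_smul]
        ring
      · rw [hXX]
    · refine tl09_bad (B := C.q + A) (σ := 1) (Or.inl ⟨rfl, rfl⟩) (Or.inr rfl) rfl
        z1 z2 z3 z4 hC0 (D := C.XX (C.m + N + 1)) ?_ ?_
      · unfold Cd.XX
        rw [hDH, hDG, hL, Nat.cast_two, br_two, one_smul]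
        ring
      · rw [hXX]
  · exfalso
    obtain ⟨g1, g2, g3⟩ := H
    have v1 : C.a (C.m + N + 1) = C.q + C.a N := by
      clear * - l1 l5 g1
      omega
    have v2 : C.a' (C.m + N + 1) = C.q + C.a N + 2 := by
      clear * - l1 l5 g1
      omega
    have v3 : C.b' (C.m + N + 1) = C.b (C.m + N + 1) := by rw [g2]; ring
    have hDH : C.DH (C.m + N + 1) = - ((T 1 + 1) * T (C.q + C.a N)) := by
      apply sub_one_cancel
      rw [hC.DH_mul hs1, v1, v2, v3,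
        show C.q + C.a N + 2 = 1 + (1 + (C.q + C.a N)) by ring, T_add 1, T_add 1]
      ring
    have hDG : C.DG (C.m + N + 1) = - T (C.q + A + 1) ∨ C.DG (C.m + N + 1) = - T (C.q + A + 2) := by
      rcases g3 with ⟨g3, g4⟩ | ⟨g3, g4⟩
      · left
        have v4 : C.c (C.m + N + 1) = C.q + A + 1 := by
          clear * - l3 l7 g3
          omega
        have v5 : C.c' (C.m + N + 1) = C.q + A + 2 := by
          clear * - l3 l7 g3
          omega
        have v6 : C.d' (C.m + N + 1) = C.d (C.m + N + 1) := by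
          clear * - g4
          omega
        apply sub_one_cancel
        rw [hC.DG_mul hs1, v4, v5, v6, show C.q + A + 2 = 1 + (C.q + A + 1) by ring, T_add 1]
        ring
      · right
        have v4 : C.d (C.m + N + 1) = C.q + A + 2 := by
          clear * - l4 l8 g4
          omega
        have v5 : C.d' (C.m + N + 1) = C.q + A + 1 := by
          clear * - l4 l8 g4
          omega
        have v6 : C.c' (C.m + N + 1) = C.c (C.m + N + 1) := by
          clear * - g3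
          omega
        apply sub_one_cancel
        rw [hC.DG_mul hs1, v4, v5, v6, hM]
        push_cast
        rw [show C.q + A + 2 + 1 = 1 + (C.q + A + 2) by ring,
          show C.q + A + 1 + 1 = C.q + A + 2 by ring, T_add 1]
        ring
    rcases hDG with hDG | hDG
    · refine tl09_bad (B := C.q + A) (σ := -1) (Or.inr ⟨rfl, rfl⟩) (Or.inl rfl) rfl
        z1 z2 z3 z4 hC0 (D := C.XX (C.m + N + 1)) ?_ ?_
      · unfold Cd.XX
        rw [hDH, hDG, hL, Nat.cast_two, br_two, neg_smul, one_smul]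
        ring
      · rw [hXX]
    · refine tl09_bad (B := C.q + A) (σ := -1) (Or.inr ⟨rfl, rfl⟩) (Or.inr rfl) rfl
        z1 z2 z3 z4 hC0 (D := C.XX (C.m + N + 1)) ?_ ?_
      · unfold Cd.XX
        rw [hDH, hDG, hL, Nat.cast_two, br_two, neg_smul, one_smul]
        ring
      · rw [hXX]

end Cd.Q2

end Pool.Agent.Lib.MP_bb0bab_co
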