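import Pool.Agent.Lib.MP_bb0bab_co.CB11
import Pool.Agent.Lib.MP_bb0bab_co.SX11
import Pool.Agent.Lib.MP_bb0bab_co.TL08
import Pool.Agent.Lib.MP_bb0bab_co.TL09
import Pool.Agent.Lib.MP_bb0bab_co.TL07

/-!
# TL10 (10.2 for L = 2) end of N ≥ 2

`ge2_aux`: `s102` (TL08), SX09 steps 1-3, TL09 `step4`, SX11 `S102.absurd` (the proof of the latter is helper38's).
`mirror_Q2`: row `N` is T0, so `mirror.c N = N - d' N = N - d N`, `mirror.d N = N - c N`.
`ge2` : row 1 is full (`1 < N`), `a 1 ∈ {0,1}`; if `a 1 = 1` use the mirror (`mirror.a 1 = 1 - b' 1 = 0`); if `c N ≤ d N` use `nonempty_top` (TL07).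
-/

namespace Pool.Agent.Lib.MP_bb0bab_co

open LaurentPolynomial

namespace Cd.Q2

variable {C : Cd} {N : ℕ} (S : C.Q2 N)

include S

theorem ge2_aux (he : C.c N = C.d N + 1) (hN2 : 2 ≤ N) (h1 : C.a 1 = 0) : False := by
  have S' := S.s102 he hN2 h1
  obtain ⟨s1, -⟩ := S'.step1
  obtain ⟨s3, s3'⟩ := S'.step3
  exact S'.absurd (S.step4 he hN2 h1 s3 s1 S'.step2 s3')

theorem mirror_Q2 : C.mirror.Q2 N :=
  { ok := mirror_ok S.ok
    M1 := S.M1
    L2 := S.L2
    ev := mirror_ev S.ok S.ev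
    Nm := S.Nm }

theorem tl10_zero (hN2 : 2 ≤ N) (h1 : C.a 1 = 0) : False := by
  have hC := S.ok
  have hNm := S.Nm
  have hmh := hC.hmh
  by_cases hne : C.c N ≤ C.d N
  · exact hC.nonempty_top S.M1 (by rw [S.L2]) S.ev hNm (fun _ => h1) hne
  · have h2 := hC.mu_nn (j := N) (by omega)
    unfold Cd.mu at h2
    rw [S.M1] at h2
    push_cast at h2
    exact S.ge2_aux (by omega) hN2 h1

theorem ge2 (hN2 : 2 ≤ N) : False := by
  have hC := S.ok
  have hNm := S.Nm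
  have hmh := hC.hmh
  have hz := hC.zero
  obtain ⟨f1, f2, f3⟩ := S.ev.full 1 (by omega)
  obtain ⟨t1, t2, t3, t4⟩ := hC.low 1 (by omega)
  rcases hC.a_let (i := 0) (by omega) with h | h
  · rw [Nat.zero_add] at h
    exact S.tl10_zero hN2 (by omega)
  · rw [Nat.zero_add] at h
    apply S.mirror_Q2.tl10_zero hN2
    rw [mirror_a]
    push_cast
    omega

end Cd.Q2

end Pool.Agent.Lib.MP_bb0bab_co
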