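import Pool.Agent.Lib.MP_bb0bab_co.CBX
import Pool.Agent.Lib.MP_bb0bab_co.SX11
import Pool.Agent.Lib.MP_bb0bab_co.SX20
import Pool.Agent.Lib.MP_bb0bab_co.SX31
import Pool.Agent.Lib.MP_bb0bab_co.TL10

/-!
# SXF assembly: M = 1, all L ≥ 2: N < m is impossible
-/

namespace Pool.Agent.Lib.MP_bb0bab_co

open LaurentPolynomial

namespace Cd.Ok

variable {C : Cd} (hC : C.Ok) (hM : C.M = 1)

include hC hM

theorem ge2_M1 {N : ℕ} (hE : C.Ev N) (hNm : N < C.m) (hN2 : 2 ≤ N) : False := by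
  have hLM := hC.hLM
  have hh := hC.hmh
  have hL : 2 ≤ C.L := by omega
  rcases eq_or_lt_of_le hL with h | h
  · exact (Cd.Q2.mk hC hM h.symm hE hNm).ge2 hN2
  · rcases le_or_gt (C.c N) (C.d N) with hc | hc
    · have f1 := hE.full 1 (by omega)
      have l1 := hC.a_let (i := 0) (by omega)
      rw [zero_add, hC.zero.1] at l1
      rcases l1 with ha | ha
      · exact hC.nonempty_top hM hL hE hNm (fun _ => ha) hc
      · have hC' := Cd.mirror_ok hC
        have hE' := Cd.mirror_ev hC hE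
        refine hC'.nonempty_top (C := C.mirror) hM hL hE' hNm (fun _ => ?_) ?_
        · rw [Cd.mirror_a, (hC.low 1 (by omega)).2.1, f1.1, ha]; simp
        · rw [Cd.mirror_c (by omega), Cd.mirror_d (by omega), hE.t0.2.2.1, hE.t0.2.2.2]
          omega
    · have h2 := hC.c_cases hM hNm
      exact Cd.S10.ge2 ⟨hC, hM, hE, hNm, by omega⟩ h hN2

theorem exJw : ∃ J, C.IsJw J := by
  have hLM := hC.hLM
  have hL : 2 ≤ C.L := by omega
  rcases eq_or_lt_of_le hL with h | h
  · exact exists_Jw hC hM h.symm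
  · obtain ⟨J, hJ⟩ := exists_J hC hM h
    exact ⟨J, hJ.toW⟩

theorem case00' (hE : C.Ev 1) (hm : 1 < C.m) (he : C.c 1 = C.d 1 + 1) (h1 : C.a 1 = 0)
    (h2 : C.b 1 = 0) : False := by
  have hLM := hC.hLM
  obtain ⟨J, hJ⟩ := hC.exJw hM
  exact hC.case00 hM (by omega) hE hm he hJ h1 h2

theorem eq1_M1 (hX : C.LemX) (hE : C.Ev 1) (hm : 1 < C.m) : False := by
  have hLM := hC.hLM
  have hh := hC.hmh
  have hL : 2 ≤ C.L := by omega
  rcases le_or_gt (C.c 1) (C.d 1) with hc | hc
  · exact hC.nonempty_top hM hL hE hm (fun h => by omega) hc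
  · have h2 := hC.c_cases hM hm
    have he : C.c 1 = C.d 1 + 1 := by omega
    obtain ⟨J, hJ⟩ := hC.exJw hM
    have hJ2 := hC.exp_reg hM hE hm hJ
    have hr : C.Reg 1 := hJ.reg 1 (by omega)
    have la := hC.a_let (i := 0) (by omega)
    have lb := hC.b_let (i := 0) (by omega)
    rw [zero_add, hC.zero.1] at la
    rw [zero_add, hC.zero.2.1] at lb
    have e := hC.low 1 hm
    rcases la with ha | ha <;> rcases lb with hb | hb
    · exact hC.case00' hM hE hm he ha hb
    · exact hC.case01 hM hL hE hm he hJ ha (by omega)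
    · refine hC.lemX_shrink hX (by omega) ?_ ?_ ?_
      · rw [hr.ha, ha]; ring
      · rw [hr.ha', ha]; ring
      · rw [hr.hb, hb]; ring
    · have hC' := Cd.mirror_ok hC
      have hE' := Cd.mirror_ev hC hE
      refine hC'.case00' (C := C.mirror) hM hE' hm ?_ ?_ ?_
      · rw [Cd.mirror_c (by omega), Cd.mirror_d (by omega), e.2.2.1, e.2.2.2]
        omega
      · rw [Cd.mirror_a, e.2.1, hb]; simp
      · rw [Cd.mirror_b, e.1, ha]; simp

end Cd.Ok

/-- M = 1, all `L ≥ 2`: the event is not below the first discrepancy -/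
theorem Cd.impossible_lt_M1 {C : Cd} (hC : C.Ok) (hM : C.M = 1) (hX : C.LemX) {N : ℕ}
    (hE : C.Ev N) (hNm : N < C.m) : False := by
  rcases Nat.lt_or_ge N 2 with hN | hN
  · have hpos := hE.pos
    obtain rfl : N = 1 := by omega
    exact hC.eq1_M1 hM hX hE hNm
  · exact hC.ge2_M1 hM hE hNm hN

end Pool.Agent.Lib.MP_bb0bab_co
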