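import Pool.Agent.Lib.MP_bb0bab_co.TODefs
import Pool.Agent.Lib.MP_bb0bab_co.CB09
import Pool.Agent.Lib.MP_bb0bab_co.CB30
import Pool.Agent.Lib.MP_bb0bab_co.CB33

/-!
# TO02 the free row above a row of type 1, (L, M) = (2, 1): all solutions (11.1b), from CB33 `z1_alg`
-/

namespace Pool.Agent.Lib.MP_bb0bab_co

open LaurentPolynomial

namespace Cd

variable {C : Cd}

theorem br_one_TO : br 1 = 1 := by
  unfold br rowPoly
  simp

theorem zt1_row (hC : C.Ok) (hL : C.L = 2) (hM : C.M = 1) {s : ℕ} (hm : C.m < s) (hs : s ≤ C.h)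
    {al be ga de : ℤ} (h1 : C.Row (s - 1) al be ga de (al + 1) (be + 1) (ga + 1) (de + 1))
    (r1 : C.a' s ≤ C.b s + 2) (r2 : C.a s + 1 ≤ C.b' s + 2) (hZ : C.Z s) :
    C.T0 s ∨ (C.T1 s ∧ C.Full s) ∨
    (C.Row s (al + 1) be (ga + 1) de (al + 1) (be + 2) (ga + 1) (de + 1) ∧ de = be + 1) ∨
    (C.Row s (al + 1) be (ga + 1) (de + 1) (al + 1) (be + 2) (ga + 1) (de + 2) ∧ de = be) ∨
    (C.Row s al (be + 1) (ga + 1) (de + 1) (al + 2) (be + 1) (ga + 2) (de + 1) ∧ ga = al - 1) ∨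
    (C.Row s al (be + 1) ga (de + 1) (al + 2) (be + 1) (ga + 1) (de + 1) ∧ ga = al) ∨
    (C.Row s al be al (be + 1) (al + 2) (be + 2) (al + 1) (be + 2) ∧ al ≤ be) := by
  obtain ⟨t, rfl⟩ : ∃ t, s = t + 1 := ⟨s - 1, by omega⟩
  obtain ⟨e1, e2, e3, e4, e5, e6, e7, e8⟩ := h1
  rw [Nat.add_sub_cancel] at e1 e2 e3 e4 e5 e6 e7 e8
  have ht : t < C.h := by omega
  have l1 := hC.a_let ht
  have l2 := hC.b_let ht
  have l3 := hC.c_let ht
  have l4 := hC.d_let ht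
  have l5 := hC.a'_let ht
  have l6 := hC.b'_let ht
  have l7 := hC.c'_let ht
  have l8 := hC.d'_let ht
  have n1 := hC.nn_H hs
  have n2 := hC.nn_K hs
  have n3 := hC.nn_G hs
  have n4 := hC.nn_G' hs
  have p1 := hC.mu_Psi (j := t + 1) (by omega) hs
  have p2 := hC.mu_T0 (j := t + 1) hm.le hs
  have k1 : C.a' (t + 1) ≤ C.d (t + 1) + 1 := by
    have h := hC.k1_nn hs
    have h5 : ((C.a' (t + 1) : ℤ) : ℝ) < C.aK (t + 1) + 1 := Int.ceil_lt_add_one _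
    have h4 : C.rK (t + 1) < ((C.d (t + 1) : ℤ) : ℝ) + 1 := Int.lt_floor_add_one _
    have h6 : ((C.a' (t + 1) : ℤ) : ℝ) < ((C.d (t + 1) + 1 + 1 : ℤ) : ℝ) := by push_cast; linarith
    have h7 : C.a' (t + 1) < C.d (t + 1) + 1 + 1 := by exact_mod_cast h6
    omega
  rw [hL] at n1 n2
  rw [hM] at n3 n4
  have hZ' : rowPoly (C.a' (t + 1)) (C.b' (t + 1) + (2 : ℕ) - 1) -
      rowPoly (C.a (t + 1)) (C.b (t + 1) + (2 : ℕ) - 1) =
      br 2 * (rowPoly (C.c' (t + 1)) (C.d' (t + 1)) - rowPoly (C.c (t + 1)) (C.d (t + 1))) := by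
    have h := hZ
    unfold Z RK RH RG' RG at h
    rw [hL, hM, Nat.cast_one, br_one_TO, one_mul] at h
    simpa using h
  have key := z1_alg (L := 2) le_rfl (by push_cast; omega) (by push_cast; omega) p1 p2
    (by push_cast; omega) (by push_cast; omega) (by push_cast at n3; omega)
    (by push_cast at n4; omega) ⟨by omega, by omega⟩ ⟨by omega, by omega⟩ ⟨by omega, by omega⟩
    ⟨by omega, by omega⟩ hZ'
  rcases key with h | h | h | h | h | h
  · exact Or.inl ⟨h.1, h.2.1, h.2.2.1, h.2.2.2⟩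
  · obtain ⟨h1, h2, h3, h4, h5, h6, h7⟩ := h
    exact Or.inr (Or.inl ⟨⟨by omega, by omega, by omega, by omega⟩, ⟨by omega, by omega, by omega⟩⟩)
  · obtain ⟨h1, h2, h3, h4, h5, h6, h7⟩ := h
    refine Or.inr (Or.inr (Or.inr (Or.inr (Or.inr (Or.inr ⟨?_, by omega⟩)))))
    constructor <;> omega
  · obtain ⟨-, h1, h2, h3, h4, h5, h6⟩ := h
    refine Or.inr (Or.inr (Or.inr (Or.inr (Or.inr (Or.inr ⟨?_, by omega⟩)))))
    constructor <;> omega
  · obtain ⟨-, h1, h2, h3, h4, h5⟩ := h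
    by_cases hd : C.d (t + 1) = de
    · refine Or.inr (Or.inr (Or.inl ⟨?_, by omega⟩))
      constructor <;> omega
    · refine Or.inr (Or.inr (Or.inr (Or.inl ⟨?_, by omega⟩)))
      constructor <;> omega
  · obtain ⟨-, h1, h2, h3, h4, h5⟩ := h
    by_cases hc : C.c (t + 1) = ga
    · refine Or.inr (Or.inr (Or.inr (Or.inr (Or.inr (Or.inl ⟨?_, by omega⟩)))))
      constructor <;> omega
    · refine Or.inr (Or.inr (Or.inr (Or.inr (Or.inl ⟨?_, by omega⟩))))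
      constructor <;> omega

end Cd

end Pool.Agent.Lib.MP_bb0bab_co
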