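import Pool.Agent.Lib.MP_bb0bab_co.TO05
import Pool.Agent.Lib.MP_bb0bab_co.CB11

/-!
# TO06 X2 = the mirror image of X1
-/

namespace Pool.Agent.Lib.MP_bb0bab_co

open LaurentPolynomial

namespace Cd

variable {C : Cd}

theorem x2_false (hC : C.Ok) (hL : C.L = 2) (hM : C.M = 1) {s : ℕ} (hm : C.m < s) (hs : s ≤ C.h)
    (hf : ∀ j < s, C.Full j ∧ C.TL j) {V : ℤ}
    (hX : C.Row s V (V + 1) V (V + 1) (V + 2) (V + 1) (V + 1) (V + 1)) : False := by
  have hf' : ∀ j < s, C.mirror.Full j ∧ C.mirror.TL j := fun j hj =>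
    ⟨(mirror_full (by omega) (hf j hj).2).2 (hf j hj).1, (mirror_tl (by omega)).2 (hf j hj).2⟩
  obtain ⟨e1, e2, e3, e4, e5, e6, e7, e8⟩ := hX
  refine x1_false (C := C.mirror) (mirror_ok hC) hL hM (s := s) hm hs hf'
    (V := (s : ℤ) - V - 2) ⟨?_, ?_, ?_, ?_, ?_, ?_, ?_, ?_⟩
  · rw [mirror_a]; omega
  · rw [mirror_b]; omega
  · rw [mirror_c hs]; omega
  · rw [mirror_d hs]; omega
  · rw [mirror_a']; omega
  · rw [mirror_b']; omega
  · rw [mirror_c' hs]; omega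
  · rw [mirror_d' hs]; omega

end Cd

end Pool.Agent.Lib.MP_bb0bab_co
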