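import Pool.Agent.Lib.MP_bb0bab_co.TODefs
import Pool.Agent.Lib.MP_bb0bab_co.CB13

/-!
# TO03 the equations above the first block (rows below `s` full and T-like, nothing assumed on row `s`)

PROOF. `EF_full`: strong induction on `t`.  CB12 `conv_id` with `N := s` at height `t`: in both sums `EE s (t-i) = FF s (t-i) = 0` for `t - i < s` (CB13 `van_of_full` with `N = s`), the other `i` have
`i ≤ t - s < s`, so `RG i = T (a i) * br M`, `RH i = T (a i) * br L` (`copy_rows (copy_zero ..)`, `RG_zero`, `RH_zero`).  So `∑_{i ≤ t-s} T (a i) (br M * EE (t-i) - br L * FF (t-i)) = 0`; the terms `i ≥ 1` vanish by induction, `T (a 0) = 1`.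
`EE_pre`: CB13 `cb13_split` (resp. the same lemma for `RG'`, `RG`) with `N := s`, `e := s`, `V := RH 0` (`copy_rows (copy_zero ..)`).
`pre_eq`: put `y n = br M * (RK (s+n) - RH (s+n)) - br L * (RG' (s+n) - RG (s+n))`.  For `n < m` (`n ≥ 1`): `EE_pre` and `a' (l+1) = a (l+1)` for `l + 1 ≤ n < m` (`low`): `∑_{l ≤ n} T (a l) y (n-l) = 0` (`EF_full`), `y 0 = 0` (`hZ`),
so `y n = 0` by induction.  `n = m`: the last term of the sum is `T q * RK s - T (q+1) * RH s` (`am`, `am'`): `y m + T q * (br M * RK s - br L * RG' s) - T (q+1) * (br M * RH s - br L * RG s) = 0` and `hZ`.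
`s + m < 2 s` as `m < s`.  `pre_eq2`: `EE_pre` with `n = 2`, `a 1 = q = 0`, `a' 1 = 1` (`am`, `am'`, `m = 1`, `a'_mono`), and `EF_full`.
-/

namespace Pool.Agent.Lib.MP_bb0bab_co

open LaurentPolynomial

namespace Cd

variable {C : Cd}

theorem EF_full (hC : C.Ok) {s t : ℕ} (hst : s ≤ t) (ht : t < 2 * s) (hth : t ≤ C.h)
    (hf : ∀ j < s, C.Full j ∧ C.TL j) : br C.M * C.EE s t = br C.L * C.FF s t := by
  induction t using Nat.strong_induction_on with
  | _ t ih =>
    have hv := van_of_full hC le_rfl hf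
    have h := conv_id hC s hth
    rw [Finset.sum_range_succ', Finset.sum_range_succ'] at h
    have hs : ∑ k ∈ Finset.range t, C.RG (k + 1) * C.EE s (t - (k + 1)) =
        ∑ k ∈ Finset.range t, C.RH (k + 1) * C.FF s (t - (k + 1)) := by
      refine Finset.sum_congr rfl fun k hk => ?_
      rw [Finset.mem_range] at hk
      rcases Nat.lt_or_ge (t - (k + 1)) s with h1 | h1
      · obtain ⟨v1, v2⟩ := hv _ h1
        rw [v1, v2, mul_zero, mul_zero]
      · obtain ⟨r1, r2, r3, r4⟩ := cb13_rows_zero hC (hf (k + 1) (by omega))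
        have h2 := ih (t - (k + 1)) (by omega) h1 (by omega) (by omega)
        rw [r1, r3, RG_zero hC, RH_zero hC, mul_assoc, mul_assoc, h2]
    rw [hs, Nat.sub_zero, RG_zero hC, RH_zero hC] at h
    exact add_left_cancel h

theorem EE_pre (hC : C.Ok) {s n : ℕ} (hn : n < s) (hf : ∀ j < s, C.Full j ∧ C.TL j) :
    C.EE s (s + n) = C.RK (s + n) - C.RH (s + n) + ∑ l ∈ Finset.range n,
      (T (C.a (l + 1)) * C.RK (s + (n - 1 - l)) - T (C.a' (l + 1)) * C.RH (s + (n - 1 - l))) ∧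
    C.FF s (s + n) = C.RG' (s + n) - C.RG (s + n) + ∑ l ∈ Finset.range n,
      (T (C.a (l + 1)) * C.RG' (s + (n - 1 - l)) - T (C.a' (l + 1)) * C.RG (s + (n - 1 - l))) := by
  obtain ⟨z1, -, -, -, z5, -⟩ := hC.zero
  have e : ∀ j, s - s + j = j := fun j => by omega
  refine ⟨?_, ?_⟩
  · rw [cb13_EE]
    refine cb13_split (V := C.RH 0) hn le_rfl z1 z5 fun j hj => ?_
    rw [e]
    exact ⟨(cb13_rows_zero hC (hf j hj)).1, (cb13_rows_zero hC (hf j hj)).2.1⟩
  · rw [cb13_FF]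
    refine cb13_split (V := C.RG 0) hn le_rfl z1 z5 fun j hj => ?_
    rw [e]
    exact ⟨(cb13_rows_zero hC (hf j hj)).2.2.1, (cb13_rows_zero hC (hf j hj)).2.2.2⟩

/-- the equation of row `s + n` -/
theorem pre_sum (hC : C.Ok) {s n : ℕ} (hn : n < s) (hsn : s + n ≤ C.h)
    (hf : ∀ j < s, C.Full j ∧ C.TL j) :
    (br C.M * (C.RK (s + n) - C.RH (s + n)) - br C.L * (C.RG' (s + n) - C.RG (s + n))) +
      ∑ l ∈ Finset.range n,
        (T (C.a (l + 1)) * (br C.M * C.RK (s + (n - 1 - l)) - br C.L * C.RG' (s + (n - 1 - l))) -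
          T (C.a' (l + 1)) * (br C.M * C.RH (s + (n - 1 - l)) - br C.L * C.RG (s + (n - 1 - l)))) = 0 := by
  have h := EF_full hC (Nat.le_add_right s n) (by omega) hsn hf
  obtain ⟨h1, h2⟩ := EE_pre hC hn hf
  rw [h1, h2, mul_add, mul_add, Finset.mul_sum, Finset.mul_sum] at h
  have h3 : ∑ l ∈ Finset.range n,
        (T (C.a (l + 1)) * (br C.M * C.RK (s + (n - 1 - l)) - br C.L * C.RG' (s + (n - 1 - l))) -
          T (C.a' (l + 1)) * (br C.M * C.RH (s + (n - 1 - l)) - br C.L * C.RG (s + (n - 1 - l)))) =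
      ∑ l ∈ Finset.range n, br C.M * (T (C.a (l + 1)) * C.RK (s + (n - 1 - l)) -
        T (C.a' (l + 1)) * C.RH (s + (n - 1 - l))) -
      ∑ l ∈ Finset.range n, br C.L * (T (C.a (l + 1)) * C.RG' (s + (n - 1 - l)) -
        T (C.a' (l + 1)) * C.RG (s + (n - 1 - l))) := by
    rw [← Finset.sum_sub_distrib]
    refine Finset.sum_congr rfl fun l _ => ?_
    ring
  rw [h3]
  linear_combination h

theorem pre_zero (hC : C.Ok) {s : ℕ} (hm : C.m < s) (hsm : s + C.m ≤ C.h)
    (hf : ∀ j < s, C.Full j ∧ C.TL j) (n : ℕ) (hn : n < C.m) :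
    br C.M * (C.RK (s + n) - C.RH (s + n)) - br C.L * (C.RG' (s + n) - C.RG (s + n)) = 0 := by
  induction n using Nat.strong_induction_on with
  | _ n ih =>
    have h := pre_sum hC (n := n) (by omega) (by omega) hf
    rw [Finset.sum_eq_zero, add_zero] at h
    · exact h
    · intro l hl
      rw [Finset.mem_range] at hl
      have h1 := ih (n - 1 - l) (by omega) (by omega)
      rw [(hC.low (l + 1) (by omega)).1]
      linear_combination (T (C.a (l + 1)) : LaurentPolynomial ℤ) * h1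

theorem pre_eq (hC : C.Ok) {s : ℕ} (hm : C.m < s) (hsm : s + C.m ≤ C.h)
    (hf : ∀ j < s, C.Full j ∧ C.TL j) :
    br C.M * (C.RK (s + C.m) - C.RH (s + C.m)) - br C.L * (C.RG' (s + C.m) - C.RG (s + C.m)) =
      (T 1 - 1) * (T C.q * (br C.M * C.RH s - br C.L * C.RG s)) := by
  have h := pre_sum hC (n := C.m) hm hsm hf
  have h0 := pre_zero hC hm hsm hf 0 hC.hm
  rw [add_zero] at h0
  obtain ⟨k, hk⟩ : ∃ k, C.m = k + 1 := ⟨C.m - 1, by have := hC.hm; omega⟩
  have hlast : ∑ l ∈ Finset.range C.m,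
        (T (C.a (l + 1)) * (br C.M * C.RK (s + (C.m - 1 - l)) - br C.L * C.RG' (s + (C.m - 1 - l))) -
          T (C.a' (l + 1)) * (br C.M * C.RH (s + (C.m - 1 - l)) - br C.L * C.RG (s + (C.m - 1 - l)))) =
      T C.q * (br C.M * C.RK s - br C.L * C.RG' s) -
        T (C.q + 1) * (br C.M * C.RH s - br C.L * C.RG s) := by
    have e1 : C.a (k + 1) = C.q := by rw [← hk]; exact hC.am
    have e2 : C.a' (k + 1) = C.q + 1 := by rw [← hk]; exact hC.am'
    rw [hk, Finset.sum_range_succ, Finset.sum_eq_zero, zero_add, e1, e2]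
    · have e3 : s + (k + 1 - 1 - k) = s := by omega
      rw [e3]
    · intro l hl
      rw [Finset.mem_range] at hl
      have h1 := pre_zero hC hm hsm hf (k + 1 - 1 - l) (by omega)
      rw [(hC.low (l + 1) (by omega)).1]
      linear_combination (T (C.a (l + 1)) : LaurentPolynomial ℤ) * h1
  rw [hlast] at h
  have e4 : (T (C.q + 1) : LaurentPolynomial ℤ) = T 1 * T C.q := by
    rw [← T_add, add_comm]
  rw [e4] at h
  linear_combination h - (T C.q : LaurentPolynomial ℤ) * h0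

theorem pre_eq2 (hC : C.Ok) (hm : C.m = 1) {s : ℕ} (hs : 3 ≤ s) (hsh : s + 2 ≤ C.h)
    (hf : ∀ j < s, C.Full j ∧ C.TL j) :
    br C.M * (C.RK (s + 2) - C.RH (s + 2) + (C.RK (s + 1) - T 1 * C.RH (s + 1)) +
      (T (C.a 2) * C.RK s - T (C.a' 2) * C.RH s)) =
    br C.L * (C.RG' (s + 2) - C.RG (s + 2) + (C.RG' (s + 1) - T 1 * C.RG (s + 1)) +
      (T (C.a 2) * C.RG' s - T (C.a' 2) * C.RG s)) := by
  have h := EF_full hC (Nat.le_add_right s 2) (by omega) hsh hf
  obtain ⟨h1, h2⟩ := EE_pre hC (n := 2) (by omega) hf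
  have hh : 1 ≤ C.h := by omega
  obtain ⟨z1, -, -, -, z5, -⟩ := hC.zero
  have a1 : C.a 1 = C.q := by rw [← hm]; exact hC.am
  have a1' : C.a' 1 = C.q + 1 := by rw [← hm]; exact hC.am'
  have b1 := hC.a_mono (i := 0) (j := 1) (by omega) hh
  have b2 := hC.a'_mono (i := 0) (j := 1) (by omega) hh
  have q0 : C.q = 0 := by
    push_cast at b1 b2
    omega
  rw [Finset.sum_range_succ, Finset.sum_range_one] at h1 h2
  have e1 : s + (2 - 1 - 0) = s + 1 := by omega
  have e2 : s + (2 - 1 - 1) = s := by omega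
  have e3 : (0 : ℕ) + 1 = 1 := rfl
  have e4 : (1 : ℕ) + 1 = 2 := rfl
  rw [e1, e2, e3, e4, a1, a1', q0, zero_add, T_zero, one_mul] at h1 h2
  rw [h1, h2] at h
  rw [add_assoc, add_assoc]
  exact h

end Cd

end Pool.Agent.Lib.MP_bb0bab_co
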