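import Pool.Agent.Lib.MP_bb0bab_co.TODefs
import Pool.Agent.Lib.MP_bb0bab_co.CB08

/-!
# TO04 (to04_D0) and comparison of windows

PROOF. `to04_D0`: if `h - s < m` then row `h - s` is T0 (`low`), and `d_eq`, `d'_eq`, `c_eq`, `c'_eq` (CB07) at `j = h - s` give `a' s = a s`, `b' s = b s`.
`D0k`: if `h - s < s` then row `h - s` is T-like (`hf`), so (`d_eq`, `d'_eq`) `a' s - a s = d' (h-s) - d (h-s)` is 0 or 1.
`lastwin_*`: `rK w = x - aK (h-w) = aK h - aK (h-w)` is the last window of the convex chain `aK` of length `w`, `ConvN.win`; the same for the others (`aK h = aH h = x`, `bK h = bH h = xr`).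
-/

namespace Pool.Agent.Lib.MP_bb0bab_co

namespace Cd.Ok

variable {C : Cd} (hC : C.Ok)

include hC

theorem to04_D0 {s : ℕ} (hs : s ≤ C.h) (h : C.a' s ≠ C.a s ∨ C.b' s ≠ C.b s) : s + C.m ≤ C.h := by
  by_contra hcon
  obtain ⟨-, -, h3, h4⟩ := hC.low (C.h - s) (by omega)
  have e : C.h - (C.h - s) = s := by omega
  have e1 := d_eq (C := C) (C.h - s)
  have e2 := d'_eq (C := C) (C.h - s)
  have e3 := c_eq (C := C) (C.h - s)
  have e4 := c'_eq (C := C) (C.h - s)
  rw [e] at e1 e2 e3 e4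
  rcases h with h | h
  · exact h (by omega)
  · exact h (by omega)

theorem D0k {s : ℕ} (hs : s ≤ C.h) (hf : ∀ j < s, C.TL j) (h : C.a' s = C.a s + 2) :
    2 * s ≤ C.h := by
  by_contra hcon
  have e : C.h - (C.h - s) = s := by omega
  have e1 := d_eq (C := C) (C.h - s)
  have e2 := d'_eq (C := C) (C.h - s)
  rw [e] at e1 e2
  rcases hf (C.h - s) (by omega) with ⟨-, -, -, h4⟩ | ⟨-, -, -, h4⟩
  · omega
  · omega

/-- every window of `aK` is at most the last one -/
theorem lastwin_a' {i w : ℕ} (h : i + w ≤ C.h) : C.aK (i + w) - C.aK i ≤ C.rK w := by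
  have h1 := hC.aKconv.win (i := i) (j := C.h - w) (w := w) (by omega) (by omega)
  have e : C.h - w + w = C.h := by omega
  rw [e, hC.aKh] at h1
  exact h1

theorem lastwin_a {i w : ℕ} (h : i + w ≤ C.h) : C.aH (i + w) - C.aH i ≤ C.rH w := by
  have h1 := hC.aHconv.win (i := i) (j := C.h - w) (w := w) (by omega) (by omega)
  have e : C.h - w + w = C.h := by omega
  rw [e, hC.aHh] at h1
  exact h1

theorem lastwin_b {i w : ℕ} (h : i + w ≤ C.h) : C.lH w ≤ C.bH (i + w) - C.bH i := by
  have h1 := hC.bHconc.win (i := i) (j := C.h - w) (w := w) (by omega) (by omega)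
  have e : C.h - w + w = C.h := by omega
  rw [e, hC.bHh] at h1
  exact h1

theorem lastwin_b' {i w : ℕ} (h : i + w ≤ C.h) : C.lK w ≤ C.bK (i + w) - C.bK i := by
  have h1 := hC.bKconc.win (i := i) (j := C.h - w) (w := w) (by omega) (by omega)
  have e : C.h - w + w = C.h := by omega
  rw [e, hC.bKh] at h1
  exact h1

/-- and seen from the top -/
theorem lastwin_d {j w : ℕ} (h : j + w ≤ C.h) : C.aK w ≤ C.rK (j + w) - C.rK j := by
  have h1 := hC.rKconc.win (i := j) (j := C.h - w) (w := w) (by omega) (by omega)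
  have e : C.h - w + w = C.h := by omega
  have e2 : C.h - (C.h - w) = w := by omega
  rw [e, hC.toph.2.1] at h1
  have h2 : C.rK (C.h - w) = C.x - C.aK w := by
    unfold Cd.rK
    rw [e2]
  rw [h2] at h1
  linarith

theorem lastwin_d' {j w : ℕ} (h : j + w ≤ C.h) : C.aH w ≤ C.rH (j + w) - C.rH j := by
  have h1 := hC.rHconc.win (i := j) (j := C.h - w) (w := w) (by omega) (by omega)
  have e : C.h - w + w = C.h := by omega
  have e2 : C.h - (C.h - w) = w := by omega
  rw [e, hC.toph.2.2.2] at h1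
  have h2 : C.rH (C.h - w) = C.x - C.aH w := by
    unfold Cd.rH
    rw [e2]
  rw [h2] at h1
  linarith

theorem lastwin_c {j w : ℕ} (h : j + w ≤ C.h) : C.lK (j + w) - C.lK j ≤ C.bK w := by
  have h1 := hC.lKconv.win (i := j) (j := C.h - w) (w := w) (by omega) (by omega)
  have e : C.h - w + w = C.h := by omega
  have e2 : C.h - (C.h - w) = w := by omega
  rw [e, hC.toph.1] at h1
  have h2 : C.lK (C.h - w) = C.xr - C.bK w := by
    unfold Cd.lK
    rw [e2]
  rw [h2] at h1
  linarith

theorem lastwin_c' {j w : ℕ} (h : j + w ≤ C.h) : C.lH (j + w) - C.lH j ≤ C.bH w := by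
  have h1 := hC.lHconv.win (i := j) (j := C.h - w) (w := w) (by omega) (by omega)
  have e : C.h - w + w = C.h := by omega
  have e2 : C.h - (C.h - w) = w := by omega
  rw [e, hC.toph.2.2.1] at h1
  have h2 : C.lH (C.h - w) = C.xr - C.bH w := by
    unfold Cd.lH
    rw [e2]
  rw [h2] at h1
  linarith

end Cd.Ok

end Pool.Agent.Lib.MP_bb0bab_co
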