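import Pool.Agent.Lib.MP_bb0bab_co.TO01
import Pool.Agent.Lib.MP_bb0bab_co.TO03
import Pool.Agent.Lib.MP_bb0bab_co.TO04
import Pool.Agent.Lib.MP_bb0bab_co.CB30

/-!
# TO07 E2 before the event is impossible, (L, M) = (2, 1)   (9.2 (i), 11.3)

`hX`: row `s` is `H = [V,V+1]`, `K = [V+2,V+3]`, `G = [V,V+1]`, `G' = [V+1,V+2]`; row `s-1` is full of type 1 with value `V`.
PROOF. `e2_m2` (`m ≥ 2`, any `L`): `d (s-1) = V`: `rK (s-1) < V + 1`, `lastwin_a'` with `i = 1`, `w = s-1`: `aK s - aK 1 < V + 1`, `aK s > V + 1`: `aK 1 > 0`, `a' 1 ≥ 1`.  `c' (s-1) = V + 1`: `lH (s-1) > V`, `lastwin_b`: `bH s - bH 1 > V`,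
`bH s < V + 1`: `bH 1 < 1`, `b 1 ≤ 0`.  But row `1 < m` is T0 and full (`1 < s`): `a' 1 = a 1 = b 1`.
`e2_m1` (`m = 1`, `s ≥ 3`): `q = 0`.  `2 * s ≤ h` (`D0k`).  `pre_eq` (`m = 1`): in units of `x^V`: `K - H = (1+x)(G' - G) - (x-1) x (1+x)` at row `s+1` (`RH s - br 2 * RG s = x^V (1+x) - x^V (1+x)^2 = - x^(V+1) (1+x)`); the letters
(`a, b ∈ {0,1}`, `a', b' ∈ {2,3}`, `c ∈ {0,1}`, `d ∈ {1,2}`, `c' ∈ {1,2}`, `d' ∈ {2,3}`) and `k1 : a' ≤ d + 1` leave only `(a,b,c,d,a',b',c',d') = (0,1,0,1,2,3,2,3)` (`e2_fin1`; the only other solution of the equation is `(0,0,0,1,3,3,2,3)`).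
Row `s+2`: `pre_eq2` and the letters from row `s+1`, `(a 2, a' 2) ∈ {(1,1),(0,1),(1,2)}` (row 1: `a 1 = 0`, `a' 1 = 1`; row 2 is T-like; letters): no solution at all (`e2_fin2`).  Both finite statements are checked by enumeration (256 cases each).
-/

namespace Pool.Agent.Lib.MP_bb0bab_co

open LaurentPolynomial

def to07E (x1 x2 x3 x4 x5 x6 x7 x8 : Fin 2) (k : ℤ) : Prop :=
  ic (2 + (x5.val : ℤ)) (2 + (x6.val : ℤ) + 1) k - ic (x1.val : ℤ) ((x2.val : ℤ) + 1) k =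
      ic (1 + (x7.val : ℤ)) (2 + (x8.val : ℤ)) k + ic (1 + (x7.val : ℤ)) (2 + (x8.val : ℤ)) (k - 1) -
        ic (x3.val : ℤ) (1 + (x4.val : ℤ)) k - ic (x3.val : ℤ) (1 + (x4.val : ℤ)) (k - 1) +
        (if k = 1 then 1 else 0) - (if k = 3 then 1 else 0)

instance to07E_dec (x1 x2 x3 x4 x5 x6 x7 x8 : Fin 2) (k : ℤ) :
    Decidable (to07E x1 x2 x3 x4 x5 x6 x7 x8 k) := by
  unfold to07E
  infer_instance

def to07P (x1 x2 x3 x4 x5 x6 x7 x8 : Fin 2) : Prop :=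
    ¬ (2 + (x5.val : ℤ) ≤ 1 + (x4.val : ℤ) + 1) ∨
    ¬ (∀ k ∈ [(0 : ℤ), 1, 2, 3, 4, 5], to07E x1 x2 x3 x4 x5 x6 x7 x8 k) ∨
    (x1 = 0 ∧ x2 = 1 ∧ x3 = 0 ∧ x4 = 0 ∧ x5 = 0 ∧ x6 = 1 ∧ x7 = 1 ∧ x8 = 1)

instance to07P_dec (x1 x2 x3 x4 x5 x6 x7 x8 : Fin 2) :
    Decidable (to07P x1 x2 x3 x4 x5 x6 x7 x8) := by
  unfold to07P
  infer_instance

theorem to07_dec1 : ∀ x1 x2 x3 x4 x5 x6 x7 x8 : Fin 2, to07P x1 x2 x3 x4 x5 x6 x7 x8 := by
  decide +kernel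

theorem to07_fin {a n : ℤ} (h : a = n ∨ a = n + 1) : ∃ x : Fin 2, a = n + (x.val : ℤ) := by
  rcases h with h | h
  · exact ⟨0, by rw [h]; simp⟩
  · exact ⟨1, by rw [h]; simp⟩

theorem to07_fin0 {a : ℤ} (h : a = 0 ∨ a = 1) : ∃ x : Fin 2, a = (x.val : ℤ) := by
  rcases h with h | h
  · exact ⟨0, by rw [h]; simp⟩
  · exact ⟨1, by rw [h]; simp⟩

theorem e2_fin1 {a b c d a' b' c' d' : ℤ} (h1 : a = 0 ∨ a = 1) (h2 : b = 0 ∨ b = 1)
    (h3 : c = 0 ∨ c = 1) (h4 : d = 1 ∨ d = 2) (h5 : a' = 2 ∨ a' = 3) (h6 : b' = 2 ∨ b' = 3)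
    (h7 : c' = 1 ∨ c' = 2) (h8 : d' = 2 ∨ d' = 3) (k1 : a' ≤ d + 1)
    (heq : ∀ k : ℤ, ic a' (b' + 1) k - ic a (b + 1) k =
      ic c' d' k + ic c' d' (k - 1) - ic c d k - ic c d (k - 1) +
        (if k = 1 then 1 else 0) - (if k = 3 then 1 else 0)) :
    a = 0 ∧ b = 1 ∧ c = 0 ∧ d = 1 ∧ a' = 2 ∧ b' = 3 ∧ c' = 2 ∧ d' = 3 := by
  obtain ⟨x1, e1⟩ := to07_fin0 h1
  obtain ⟨x2, e2⟩ := to07_fin0 h2
  obtain ⟨x3, e3⟩ := to07_fin0 h3
  obtain ⟨x4, e4⟩ := to07_fin (n := 1) h4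
  obtain ⟨x5, e5⟩ := to07_fin (n := 2) h5
  obtain ⟨x6, e6⟩ := to07_fin (n := 2) h6
  obtain ⟨x7, e7⟩ := to07_fin (n := 1) h7
  obtain ⟨x8, e8⟩ := to07_fin (n := 2) h8
  subst e1 e2 e3 e4 e5 e6 e7 e8
  obtain ⟨y1, y2, y3, y4, y5, y6, y7, y8⟩ := (to07_dec1 x1 x2 x3 x4 x5 x6 x7 x8).elim
    (fun h => absurd k1 h) (fun h => h.elim (fun h => absurd (fun k _ => heq k) h) id)
  subst y1 y2 y3 y4 y5 y6 y7 y8
  simp

theorem to07_dec2 : ∀ x1 x2 x3 x4 x5 x6 x7 x8 : Fin 2, ∀ w ∈ [((1 : ℤ), (1 : ℤ)), (0, 1), (1, 2)],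
    ¬ (∀ k ∈ [(0 : ℤ), 1, 2, 3, 4, 5, 6], ic (2 + (x5.val : ℤ)) (3 + (x6.val : ℤ) + 1) k -
      ic (x1.val : ℤ) (1 + (x2.val : ℤ) + 1) k + (ic 2 4 k - ic 1 3 k) +
        (ic (2 + w.1) (3 + w.1) k - ic w.2 (1 + w.2) k) =
      (ic (2 + (x7.val : ℤ)) (3 + (x8.val : ℤ)) k + ic (2 + (x7.val : ℤ)) (3 + (x8.val : ℤ)) (k - 1) -
        ic (x3.val : ℤ) (1 + (x4.val : ℤ)) k - ic (x3.val : ℤ) (1 + (x4.val : ℤ)) (k - 1)) +
        (ic 2 3 k + ic 2 3 (k - 1) - ic 1 2 k - ic 1 2 (k - 1)) +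
        (ic (1 + w.1) (2 + w.1) k + ic (1 + w.1) (2 + w.1) (k - 1) - ic w.2 (1 + w.2) k -
          ic w.2 (1 + w.2) (k - 1))) := by
  unfold ic
  decide +kernel

/-- `v`, `v'` are `a 2`, `a' 2` -/
theorem e2_fin2 {a b c d a' b' c' d' v v' : ℤ} (h1 : a = 0 ∨ a = 1) (h2 : b = 1 ∨ b = 2)
    (h3 : c = 0 ∨ c = 1) (h4 : d = 1 ∨ d = 2) (h5 : a' = 2 ∨ a' = 3) (h6 : b' = 3 ∨ b' = 4)
    (h7 : c' = 2 ∨ c' = 3) (h8 : d' = 3 ∨ d' = 4)
    (hv : (v = 1 ∧ v' = 1) ∨ (v = 0 ∧ v' = 1) ∨ (v = 1 ∧ v' = 2))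
    (heq : ∀ k : ℤ, ic a' (b' + 1) k - ic a (b + 1) k + (ic 2 4 k - ic 1 3 k) +
        (ic (2 + v) (3 + v) k - ic v' (1 + v') k) =
      (ic c' d' k + ic c' d' (k - 1) - ic c d k - ic c d (k - 1)) +
        (ic 2 3 k + ic 2 3 (k - 1) - ic 1 2 k - ic 1 2 (k - 1)) +
        (ic (1 + v) (2 + v) k + ic (1 + v) (2 + v) (k - 1) - ic v' (1 + v') k -
          ic v' (1 + v') (k - 1))) : False := by
  obtain ⟨x1, e1⟩ := to07_fin0 h1
  obtain ⟨x2, e2⟩ := to07_fin (n := 1) h2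
  obtain ⟨x3, e3⟩ := to07_fin0 h3
  obtain ⟨x4, e4⟩ := to07_fin (n := 1) h4
  obtain ⟨x5, e5⟩ := to07_fin (n := 2) h5
  obtain ⟨x6, e6⟩ := to07_fin (n := 3) h6
  obtain ⟨x7, e7⟩ := to07_fin (n := 2) h7
  obtain ⟨x8, e8⟩ := to07_fin (n := 3) h8
  subst e1 e2 e3 e4 e5 e6 e7 e8
  have hw : (v, v') ∈ [((1 : ℤ), (1 : ℤ)), (0, 1), (1, 2)] := by
    rcases hv with ⟨rfl, rfl⟩ | ⟨rfl, rfl⟩ | ⟨rfl, rfl⟩ <;> simp
  exact to07_dec2 x1 x2 x3 x4 x5 x6 x7 x8 (v, v') hw (fun k _ => heq k)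

theorem to07_icc {lo hi n lo' hi' n' : ℤ} (h1 : lo - n = lo' - n') (h2 : hi - n = hi' - n') :
    ic lo hi n = ic lo' hi' n' := by
  unfold ic
  by_cases h : lo ≤ n ∧ n ≤ hi
  · rw [if_pos h, if_pos (by omega)]
  · rw [if_neg h, if_neg (by omega)]

theorem to07_ics (V lo hi k : ℤ) : ic (V + lo) (V + hi) (V + k) = ic lo hi k := by
  unfold ic
  by_cases h : lo ≤ k ∧ k ≤ hi
  · rw [if_pos h, if_pos (by omega)]
  · rw [if_neg h, if_neg (by omega)]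

theorem to07_let {y z V n n' : ℤ} (h : y = z ∨ y = z + 1) (e : z - V = n) (en : n' = n + 1) :
    y - V = n ∨ y - V = n' := by
  omega

/-- coefficient at `V + k` of a row, in units of `x^V` -/
theorem to07_row (V lo hi k : ℤ) : cf (V + k) (rowPoly lo hi) = ic (lo - V) (hi - V) k := by
  rw [cf_row, ← to07_ics V (lo - V) (hi - V) k]
  congr 1 <;> ring

namespace Cd

variable {C : Cd}

theorem e2_m2 (hC : C.Ok) (hm2 : 2 ≤ C.m) {s : ℕ} (hm : C.m < s) (hs : s ≤ C.h)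
    (hf : ∀ j < s, C.Full j ∧ C.TL j) {V : ℤ} (h1 : C.d (s - 1) = V) (h2 : C.c' (s - 1) = V + 1)
    (h3 : C.a' s = V + 2) (h4 : C.b s = V) : False := by
  have es : 1 + (s - 1) = s := by omega
  have w1 := hC.lastwin_a' (i := 1) (w := s - 1) (by omega)
  have w2 := hC.lastwin_b (i := 1) (w := s - 1) (by omega)
  rw [es] at w1 w2
  have r1 : C.rK (s - 1) < (V : ℝ) + 1 := by
    rw [← h1]; exact Int.lt_floor_add_one _
  have r2 : (V : ℝ) < C.lH (s - 1) := by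
    have h5 : ((C.c' (s - 1) : ℤ) : ℝ) < C.lH (s - 1) + 1 := Int.ceil_lt_add_one _
    rw [h2] at h5
    push_cast at h5
    linarith
  have r3 : (V : ℝ) + 1 < C.aK s := by
    have h5 : ((C.a' s : ℤ) : ℝ) < C.aK s + 1 := Int.ceil_lt_add_one _
    rw [h3] at h5
    push_cast at h5
    linarith
  have r4 : C.bH s < (V : ℝ) + 1 := by
    rw [← h4]; exact Int.lt_floor_add_one _
  have p1 : 0 < C.aK 1 := by linarith
  have p2 : C.bH 1 < 1 := by linarith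
  have q1 : 1 ≤ C.a' 1 := Int.one_le_ceil_iff.mpr p1
  have q2 : C.b 1 < 1 := by
    have h5 : ((C.b 1 : ℤ) : ℝ) ≤ C.bH 1 := Int.floor_le _
    have h6 : ((C.b 1 : ℤ) : ℝ) < 1 := by linarith
    exact_mod_cast h6
  have t := (hC.low 1 (by omega)).1
  have f := (hf 1 (by omega)).1.1
  omega

theorem e2_m1 (hC : C.Ok) (hL : C.L = 2) (hM : C.M = 1) (hm1 : C.m = 1) {s : ℕ} (hs3 : 3 ≤ s)
    (hs : s ≤ C.h) (hf : ∀ j < s, C.Full j ∧ C.TL j) {V : ℤ}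
    (hX : C.Row s V V V (V + 1) (V + 2) (V + 2) (V + 1) (V + 2)) : False := by
  have hh : 2 * s ≤ C.h := hC.D0k hs (fun j hj => (hf j hj).2) (by rw [hX.ea', hX.ea])
  have hL' : (C.L : ℤ) = 2 := by exact_mod_cast hL
  have hM' : (C.M : ℤ) = 1 := by exact_mod_cast hM
  -- q = 0
  obtain ⟨z1, -, -, -, z5, -⟩ := hC.zero
  have a1 : C.a 1 = C.q := by rw [← hm1]; exact hC.am
  have a1' : C.a' 1 = C.q + 1 := by rw [← hm1]; exact hC.am'
  have b1 := hC.a_mono (i := 0) (j := 1) (by omega) (by omega)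
  have b2 := hC.a'_mono (i := 0) (j := 1) (by omega) (by omega)
  have q0 : C.q = 0 := by
    push_cast at b1 b2
    omega
  -- rows
  have key1 := pre_eq hC (s := s) (by omega) (by omega) hf
  rw [hm1, q0, hL', hM', br_one_eq, one_mul, one_mul, T_zero, one_mul] at key1
  have l1 := hC.a_let (i := s) (by omega)
  have l2 := hC.b_let (i := s) (by omega)
  have l3 := hC.c_let (i := s) (by omega)
  have l4 := hC.d_let (i := s) (by omega)
  have l5 := hC.a'_let (i := s) (by omega)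
  have l6 := hC.b'_let (i := s) (by omega)
  have l7 := hC.c'_let (i := s) (by omega)
  have l8 := hC.d'_let (i := s) (by omega)
  rw [hX.ea] at l1
  rw [hX.eb] at l2
  rw [hX.ec] at l3
  rw [hX.ed] at l4
  rw [hX.ea'] at l5
  rw [hX.eb'] at l6
  rw [hX.ec'] at l7
  rw [hX.ed'] at l8
  have k1 : C.a' (s + 1) ≤ C.d (s + 1) + 1 := by
    have h2 := hC.k1_nn (i := s + 1) (by omega)
    have h4 : C.rK (s + 1) < ((C.d (s + 1) : ℤ) : ℝ) + 1 := Int.lt_floor_add_one _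
    have h5 : ((C.a' (s + 1) : ℤ) : ℝ) < C.aK (s + 1) + 1 := Int.ceil_lt_add_one _
    have h6 : ((C.a' (s + 1) : ℤ) : ℝ) < ((C.d (s + 1) : ℤ) : ℝ) + 2 := by linarith
    have h7 : C.a' (s + 1) < C.d (s + 1) + 2 := by exact_mod_cast h6
    omega
  have f1 := e2_fin1 (a := C.a (s + 1) - V) (b := C.b (s + 1) - V) (c := C.c (s + 1) - V)
    (d := C.d (s + 1) - V) (a' := C.a' (s + 1) - V) (b' := C.b' (s + 1) - V)
    (c' := C.c' (s + 1) - V) (d' := C.d' (s + 1) - V) (by omega) (by omega) (by omega) (by omega)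
    (by omega) (by omega) (by omega) (by omega) (by omega) (by
      intro k
      have h := congrArg (cf (V + k)) key1
      rw [cf_sub_one] at h
      simp only [map_sub, cf_br2] at h
      have e1 : V + k - 1 = V + (k - 1) := by ring
      have e2 : V + (k - 1) - 1 = V + (k - 2) := by ring
      unfold Cd.RK Cd.RH Cd.RG Cd.RG' at h
      rw [hL', hM', hX.ea, hX.eb, hX.ec, hX.ed, e1, e2] at h
      simp only [to07_row] at h
      rw [show V - V = 0 by ring, show V + 2 - 1 - V = 1 by ring, show V + 1 + 1 - 1 - V = 1 by ring,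
        show C.a' (s + 1) - V = C.a' (s + 1) - V by ring,
        show C.b' (s + 1) + 2 - 1 - V = C.b' (s + 1) - V + 1 by ring,
        show C.b (s + 1) + 2 - 1 - V = C.b (s + 1) - V + 1 by ring,
        show C.d' (s + 1) + 1 - 1 - V = C.d' (s + 1) - V by ring,
        show C.d (s + 1) + 1 - 1 - V = C.d (s + 1) - V by ring] at h
      have g1 : ic 0 1 (k - 1) - ic 0 1 (k - 2) = (if k = 1 then 1 else 0) - (if k = 3 then 1 else 0) := by
        unfold ic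
        split_ifs <;> omega
      linarith)
  clear l1 l2 l3 l4 l5 l6 l7 l8 key1 k1
  obtain ⟨f1, f2, f3, f4, f5, f6, f7, f8⟩ := f1
  have m1 := to07_let (hC.a_let (i := s + 1) (by omega)) f1 (n' := 1) rfl
  have m2 := to07_let (hC.b_let (i := s + 1) (by omega)) f2 (n' := 2) rfl
  have m3 := to07_let (hC.c_let (i := s + 1) (by omega)) f3 (n' := 1) rfl
  have m4 := to07_let (hC.d_let (i := s + 1) (by omega)) f4 (n' := 2) rfl
  have m5 := to07_let (hC.a'_let (i := s + 1) (by omega)) f5 (n' := 3) rfl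
  have m6 := to07_let (hC.b'_let (i := s + 1) (by omega)) f6 (n' := 4) rfl
  have m7 := to07_let (hC.c'_let (i := s + 1) (by omega)) f7 (n' := 3) rfl
  have m8 := to07_let (hC.d'_let (i := s + 1) (by omega)) f8 (n' := 4) rfl
  have es : s + 1 + 1 = s + 2 := rfl
  rw [es] at m1 m2 m3 m4 m5 m6 m7 m8
  have v0 : (C.a 2 = 1 ∧ C.a' 2 = 1) ∨ (C.a 2 = 0 ∧ C.a' 2 = 1) ∨ (C.a 2 = 1 ∧ C.a' 2 = 2) := by
    clear m1 m2 m3 m4 m5 m6 m7 m8 f1 f2 f3 f4 f5 f6 f7 f8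
    have v1 := hC.a_let (i := 1) (by omega)
    have v2 := hC.a'_let (i := 1) (by omega)
    have e11 : (1 : ℕ) + 1 = 2 := rfl
    rw [e11, a1, q0] at v1
    rw [e11, a1', q0] at v2
    have v3 : C.a' 2 = C.a 2 ∨ C.a' 2 = C.a 2 + 1 := by
      rcases (hf 2 (by omega)).2 with h | h
      · exact Or.inl h.1
      · exact Or.inr h.1
    omega
  have key2 := pre_eq2 hC hm1 (s := s) hs3 (by omega) hf
  rw [hL', hM', br_one_eq, one_mul] at key2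
  refine e2_fin2 m1 m2 m3 m4 m5 m6 m7 m8 v0 ?_
  intro k
  have h := congrArg (cf (V + k)) key2
  clear key2 m1 m2 m3 m4 m5 m6 m7 m8
  simp only [map_sub, map_add, cf_br2, cf_Tmul] at h
  unfold Cd.RK Cd.RH Cd.RG Cd.RG' at h
  rw [hL', hM', hX.ea, hX.eb, hX.ec, hX.ed, hX.ea', hX.eb', hX.ec', hX.ed'] at h
  simp only [cf_row] at h
  clear v0
  rw [show ic (C.a' (s + 2)) (C.b' (s + 2) + 2 - 1) (V + k) = ic (C.a' (s + 2) - V) (C.b' (s + 2) - V + 1) k from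
    to07_icc (by omega) (by omega)] at h
  rw [show ic (C.a (s + 2)) (C.b (s + 2) + 2 - 1) (V + k) = ic (C.a (s + 2) - V) (C.b (s + 2) - V + 1) k from
    to07_icc (by omega) (by omega)] at h
  rw [show ic (C.a' (s + 1)) (C.b' (s + 1) + 2 - 1) (V + k) = ic 2 4 k from
    to07_icc (by omega) (by omega)] at h
  rw [show ic (C.a (s + 1)) (C.b (s + 1) + 2 - 1) (V + k - 1) = ic 1 3 k from
    to07_icc (by omega) (by omega)] at h
  rw [show ic (V + 2) (V + 2 + 2 - 1) (V + k - C.a 2) = ic (2 + C.a 2) (3 + C.a 2) k from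
    to07_icc (by omega) (by omega)] at h
  rw [show ic V (V + 2 - 1) (V + k - C.a' 2) = ic (C.a' 2) (1 + C.a' 2) k from
    to07_icc (by omega) (by omega)] at h
  rw [show ic (C.c' (s + 2)) (C.d' (s + 2) + 1 - 1) (V + k) = ic (C.c' (s + 2) - V) (C.d' (s + 2) - V) k from
    to07_icc (by omega) (by omega)] at h
  rw [show ic (C.c (s + 2)) (C.d (s + 2) + 1 - 1) (V + k) = ic (C.c (s + 2) - V) (C.d (s + 2) - V) k from
    to07_icc (by omega) (by omega)] at h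
  rw [show ic (C.c' (s + 1)) (C.d' (s + 1) + 1 - 1) (V + k) = ic 2 3 k from
    to07_icc (by omega) (by omega)] at h
  rw [show ic (C.c (s + 1)) (C.d (s + 1) + 1 - 1) (V + k - 1) = ic 1 2 k from
    to07_icc (by omega) (by omega)] at h
  rw [show ic (V + 1) (V + 2 + 1 - 1) (V + k - C.a 2) = ic (1 + C.a 2) (2 + C.a 2) k from
    to07_icc (by omega) (by omega)] at h
  rw [show ic V (V + 1 + 1 - 1) (V + k - C.a' 2) = ic (C.a' 2) (1 + C.a' 2) k from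
    to07_icc (by omega) (by omega)] at h
  rw [show ic (C.c' (s + 2)) (C.d' (s + 2) + 1 - 1) (V + k - 1) = ic (C.c' (s + 2) - V) (C.d' (s + 2) - V) (k - 1) from
    to07_icc (by omega) (by omega)] at h
  rw [show ic (C.c (s + 2)) (C.d (s + 2) + 1 - 1) (V + k - 1) = ic (C.c (s + 2) - V) (C.d (s + 2) - V) (k - 1) from
    to07_icc (by omega) (by omega)] at h
  rw [show ic (C.c' (s + 1)) (C.d' (s + 1) + 1 - 1) (V + k - 1) = ic 2 3 (k - 1) from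
    to07_icc (by omega) (by omega)] at h
  rw [show ic (C.c (s + 1)) (C.d (s + 1) + 1 - 1) (V + k - 1 - 1) = ic 1 2 (k - 1) from
    to07_icc (by omega) (by omega)] at h
  rw [show ic (V + 1) (V + 2 + 1 - 1) (V + k - 1 - C.a 2) = ic (1 + C.a 2) (2 + C.a 2) (k - 1) from
    to07_icc (by omega) (by omega)] at h
  rw [show ic V (V + 1 + 1 - 1) (V + k - 1 - C.a' 2) = ic (C.a' 2) (1 + C.a' 2) (k - 1) from
    to07_icc (by omega) (by omega)] at h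
  linarith

end Cd

end Pool.Agent.Lib.MP_bb0bab_co
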