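import Pool.Agent.Lib.MP_bb0bab_co.CBX
import Pool.Agent.Lib.MP_bb0bab_co.TO02
import Pool.Agent.Lib.MP_bb0bab_co.TO06
import Pool.Agent.Lib.MP_bb0bab_co.TO07
import Pool.Agent.Lib.MP_bb0bab_co.CB35

/-!
# TO08 `ZE` for (L, M) = (2, 1)
-/

namespace Pool.Agent.Lib.MP_bb0bab_co

open LaurentPolynomial

namespace Cd

variable {C : Cd}

theorem ze_21 (hC : C.Ok) (hL : C.L = 2) (hM : C.M = 1) (hX : C.LemX) : C.ZE := by
  intro s hms hs hf hT1 hZ
  by_cases htop : C.h < s + C.m
  · exact Or.inl (t0_of_top hC hs htop)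
  have hm1 := hC.hm
  have hF := (hf (s - 1) (by omega)).1
  obtain ⟨f1, f2, f3⟩ := hF
  obtain ⟨g1, g2, g3, g4⟩ := hT1
  have r1 := hC.len_R (i := s) (by omega)
  have r2 := hC.len_P (i := s) (by omega)
  rw [hL, hM] at r1 r2
  push_cast at r1 r2
  have hrow : C.Row (s - 1) (C.a (s - 1)) (C.a (s - 1)) (C.a (s - 1)) (C.a (s - 1))
      (C.a (s - 1) + 1) (C.a (s - 1) + 1) (C.a (s - 1) + 1) (C.a (s - 1) + 1) := by
    constructor <;> omega
  rcases zt1_row hC hL hM hms hs hrow (by omega) (by omega) hZ with r | r | r | r | r | r | r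
  · exact Or.inl r
  · exact Or.inr r
  · exact absurd r.2 (by omega)
  · exact (x1_false hC hL hM hms hs hf (V := C.a (s - 1)) r.1).elim
  · exact absurd r.2 (by omega)
  · exact (x2_false hC hL hM hms hs hf (V := C.a (s - 1)) r.1).elim
  · exfalso
    have hr := r.1
    by_cases hm2 : 2 ≤ C.m
    · exact e2_m2 hC hm2 hms hs hf (V := C.a (s - 1)) f3 (by omega) hr.ea' hr.eb
    have hm : C.m = 1 := by omega
    by_cases hs3 : 3 ≤ s
    · exact e2_m1 hC hL hM hm hs3 hs hf (V := C.a (s - 1)) hr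
    have hs2 : s = 2 := by omega
    subst hs2
    have a1 := hC.am
    have a1' := hC.am'
    rw [hm] at a1 a1'
    have z := hC.zero
    have l1 := hC.a_mono (i := 0) (j := 1) (by omega) (by omega)
    have l2 := hC.a'_mono (i := 0) (j := 1) (by omega) (by omega)
    have hq : C.q = 0 := by
      have z1 := z.1
      have z5 := z.2.2.2.2.1
      push_cast at l1 l2
      omega
    have e1 := hr.ea'
    have e2 := hr.eb
    have e3 : C.a (2 - 1) = 0 := by
      have : (2 - 1 : ℕ) = 1 := rfl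
      rw [this]
      omega
    rw [e3] at e1 e2
    exact hC.lemX_tri hX hm hq hs (by omega) e2

end Cd

end Pool.Agent.Lib.MP_bb0bab_co
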