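import Pool.Agent.Lib.MP_bb0bab_co.TODefs
import Pool.Agent.Lib.MP_bb0bab_co.CB01

/-!
# TO01 coefficients
-/

namespace Pool.Agent.Lib.MP_bb0bab_co

open LaurentPolynomial

theorem cf_T (n k : ℤ) : cf n (T k) = if k = n then 1 else 0 := by
  change (T k : LaurentPolynomial ℤ).coeff n = _
  rw [T_apply]

theorem cf_Tmul (n k : ℤ) (p : LaurentPolynomial ℤ) : cf n (T k * p) = cf (n - k) p := by
  have h1 : T k * p = p * T k := mul_comm _ _
  have h2 : (AddMonoidHom.comp (cf n) (AddMonoidHom.mulLeft (T k : LaurentPolynomial ℤ))) p =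
      cf (n - k) p := by
    induction p using LaurentPolynomial.induction_on' with
    | add p q hp hq => rw [map_add, map_add, hp (mul_comm _ _), hq (mul_comm _ _)]
    | C_mul_T j c =>
      change ((T k : LaurentPolynomial ℤ) * (LaurentPolynomial.C c * T j)).coeff n =
        (LaurentPolynomial.C c * T j : LaurentPolynomial ℤ).coeff (n - k)
      have e1 : (T k : LaurentPolynomial ℤ) * (LaurentPolynomial.C c * T j) =
          LaurentPolynomial.C c * T (k + j) := by
        rw [T_add]; ring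
      rw [e1, ← LaurentPolynomial.single_eq_C_mul_T, ← LaurentPolynomial.single_eq_C_mul_T]
      change (Finsupp.single (k + j) c) n = (Finsupp.single j c) (n - k)
      rw [Finsupp.single_apply, Finsupp.single_apply]
      by_cases h : j = n - k
      · rw [if_pos h, if_pos (by omega)]
      · rw [if_neg h, if_neg (by omega)]
  exact h2

theorem cf_row (n lo hi : ℤ) : cf n (rowPoly lo hi) = ic lo hi n := by
  unfold rowPoly ic
  rw [map_sum]
  simp only [cf_T]
  rw [Finset.sum_ite_eq']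
  simp only [Finset.mem_Icc]

theorem cf_one (n : ℤ) : cf n 1 = if n = 0 then 1 else 0 := by
  rw [← T_zero, cf_T]
  by_cases h : n = 0
  · rw [if_pos h, if_pos h.symm]
  · rw [if_neg h, if_neg (fun h' => h h'.symm)]

theorem br_two_eq : br 2 = 1 + T 1 := by
  unfold br rowPoly
  have h : Finset.Icc (0 : ℤ) (2 - 1) = {0, 1} := by decide
  rw [h, Finset.sum_pair (by decide), T_zero]

theorem cf_br2 (n : ℤ) (p : LaurentPolynomial ℤ) : cf n (br 2 * p) = cf n p + cf (n - 1) p := by
  rw [br_two_eq, add_mul, one_mul, map_add, cf_Tmul]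

theorem cf_sub_one (n : ℤ) (p : LaurentPolynomial ℤ) :
    cf n ((T 1 - 1) * p) = cf (n - 1) p - cf n p := by
  rw [sub_mul, one_mul, map_sub, cf_Tmul]

theorem br_one_eq : br 1 = 1 := by
  unfold br rowPoly
  rw [sub_self, Finset.Icc_self, Finset.sum_singleton, T_zero]

theorem ic_in {lo hi k : ℤ} (h1 : lo ≤ k) (h2 : k ≤ hi) : ic lo hi k = 1 := if_pos ⟨h1, h2⟩

theorem ic_lt {lo hi k : ℤ} (h : k < lo) : ic lo hi k = 0 := if_neg fun h' => by omega

theorem ic_gt {lo hi k : ℤ} (h : hi < k) : ic lo hi k = 0 := if_neg fun h' => by omega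

theorem ic_cases (lo hi k : ℤ) : (lo ≤ k ∧ k ≤ hi ∧ ic lo hi k = 1) ∨ ((k < lo ∨ hi < k) ∧ ic lo hi k = 0) := by
  unfold ic
  split_ifs with h
  · exact Or.inl ⟨h.1, h.2, rfl⟩
  · exact Or.inr ⟨by omega, rfl⟩

end Pool.Agent.Lib.MP_bb0bab_co
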