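import Pool.Agent.Lib.MP_bb0bab_co.TO12
import Pool.Agent.Lib.MP_bb0bab_co.TO01
import Pool.Agent.Lib.MP_bb0bab_co.CB14

/-!
# TO13 the equation at the row `(t+1) N` (11.4.1); nothing is assumed on row `s = t N + 2k`

PROOF. Put `e = t N`, `s = e + 2k`, `s + 1 = e + N` (`N = 2k+1`).  `Van N s` (`van_copy` for the rows `e + j`, `j < 2k`; `B.pre.van` below `e`).  CB12 `conv_id` at `s` and at `s + 1`, keeping only the terms with `EE (s' - i)`, `s' - i ≥ s`:
`RG 0 * EE s = RH 0 * FF s`, `RG 0 * EE (s+1) + RG 1 * EE s = RH 0 * FF (s+1) + RH 1 * FF s`; row 1 is full with value `0` (`copy_rows (copy_zero ..)`: `RG 1 = T 0 * RG 0`, `RH 1 = T 0 * RH 0`), so `br M * EE (s+1) = br L * FF (s+1)`.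
`EE N (s+1) = ∑_{l < N} (T (a l) RK (s+1-l) - T (a' l) RH (s+1-l))` (`cb13_cut`): `l = 0`: `RK (s+1) - RH (s+1)`; `l = 1`: `a 1 = 0`, `a' 1 = 1`: `RK s - T 1 * RH s`; `2 ≤ l ≤ 2k`: row `s + 1 - l = e + (N - l)`, `1 ≤ N - l ≤ 2k-1`, a copy:
`(T (a l + a' (N-l)) - T (a' l + a (N-l))) * RH e`; for `2 ≤ l ≤ 2k-1` these cancel in pairs `l ↔ N - l`; `l = 2k`: `T (k + 1) - T (k + 0)` (`a' 1 = 1`, `a 1 = 0`, `a (2k) = a' (2k) = k`).  (`k = 1`: only `l = 2 = 2k`.)  And `RH (s-2) = T (k-1) * RH e`.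
So `EE (s+1) = RK (s+1) - RH (s+1) + (RK s - RH s) - (T 1 - 1) * (RH s - T 1 * RH (s-2))`, the same for `FF`; finally `Z s`.
-/

namespace Pool.Agent.Lib.MP_bb0bab_co

open LaurentPolynomial

namespace Cd

variable {C : Cd}

/-- the sum `E` at the row after the last row of a block of type O -/
theorem to13_sum {a a' : ℕ → ℤ} {X Y : ℕ → LaurentPolynomial ℤ} {n e : ℕ}
    (ha0 : a 0 = 0) (ha0' : a' 0 = 0) (ha1 : a 1 = 0) (ha1' : a' 1 = 1)
    (hak : a (2 * n + 2) = n + 1) (hak' : a' (2 * n + 2) = n + 1) {V : LaurentPolynomial ℤ}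
    (hV : ∀ j < 2 * n + 2, Y (e + j) = T (a j) * V ∧ X (e + j) = T (a' j) * V) :
    cb13G a a' X Y (2 * n + 3) (e + (2 * n + 3)) =
      X (e + (2 * n + 3)) - Y (e + (2 * n + 3)) + (X (e + (2 * n + 2)) - T 1 * Y (e + (2 * n + 2))) +
        (T 1 - 1) * (T (n + 1) * V) := by
  rw [cb13_cut _ (by omega), Finset.sum_range_succ, Finset.sum_range_succ', Finset.sum_range_succ']
  have h1 : ∑ l ∈ Finset.range (2 * n), (T (a (l + 1 + 1)) * X (e + (2 * n + 3) - (l + 1 + 1)) -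
      T (a' (l + 1 + 1)) * Y (e + (2 * n + 3) - (l + 1 + 1))) = 0 := by
    have h := cb13_anti (fun l => (T (a (l + 2)) : LaurentPolynomial ℤ)) (fun l => T (a' (l + 2)))
      (2 * n)
    have h2 : ∑ l ∈ Finset.range (2 * n), (T (a (l + 1 + 1)) * X (e + (2 * n + 3) - (l + 1 + 1)) -
        T (a' (l + 1 + 1)) * Y (e + (2 * n + 3) - (l + 1 + 1))) =
        (∑ l ∈ Finset.range (2 * n), ((T (a (l + 2)) : LaurentPolynomial ℤ) *
          T (a' (2 * n - 1 - l + 2)) - T (a' (l + 2)) * T (a (2 * n - 1 - l + 2)))) * V := by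
      rw [Finset.sum_mul]
      refine Finset.sum_congr rfl fun l hl => ?_
      rw [Finset.mem_range] at hl
      have e1 : e + (2 * n + 3) - (l + 1 + 1) = e + (2 * n - 1 - l + 2) := by omega
      obtain ⟨hY, hX⟩ := hV (2 * n - 1 - l + 2) (by omega)
      rw [e1, hY, hX]
      ring
    rw [h2, h, zero_mul]
  rw [h1]
  obtain ⟨hY, hX⟩ := hV 1 (by omega)
  have e2 : e + (2 * n + 3) - (0 + 1) = e + (2 * n + 2) := by omega
  have e3 : e + (2 * n + 3) - (2 * n + 2) = e + 1 := by omega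
  have e4 : e + (2 * n + 3) - 0 = e + (2 * n + 3) := by omega
  rw [e2, e3, e4, hY, hX, hak, hak', Nat.zero_add, ha1, ha1', ha0, ha0', T_zero]
  ring

theorem BO.next_eq {N k t : ℕ} (B : BO C N k t (2 * k)) :
    br C.M * (C.RK (t * N + N) - C.RH (t * N + N)) - br C.L * (C.RG' (t * N + N) - C.RG (t * N + N)) =
      (T 1 - 1) * (br C.M * (C.RH (t * N + 2 * k) - T 1 * C.RH (t * N + 2 * k - 2)) -
        br C.L * (C.RG (t * N + 2 * k) - T 1 * C.RG (t * N + 2 * k - 2))) := by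
  have hC := B.ok
  have hN := B.typ.hN
  have hk := B.typ.hk
  have hh := B.hh
  have ht := B.ht
  obtain ⟨z1, -, -, -, z5, -⟩ := hC.zero
  obtain ⟨n, rfl⟩ : ∃ n, k = n + 1 := ⟨k - 1, by omega⟩
  have hN' : N = 2 * n + 3 := by omega
  -- letters
  have v1 := B.typ.vo 0 (by omega)
  have vk := B.typ.ve (n + 1) le_rfl
  have vk' := B.typ.ve n (by omega)
  rw [Nat.mul_zero, Nat.zero_add] at v1
  rw [show 2 * (n + 1) = 2 * n + 2 by ring] at vk
  push_cast at v1 vk
  -- everything vanishes below `s`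
  have hvan : C.Van N (t * N + 2 * (n + 1)) := by
    intro j hj
    rcases lt_or_ge j (t * N) with h | h
    · exact B.pre.van j h
    · obtain ⟨i, rfl⟩ := Nat.exists_eq_add_of_le h
      exact van_copy hC B.pre (by omega) fun j' hj' => B.cop' j' (by omega)
  have hs := eq_of_van hC (by omega : t * N + 2 * (n + 1) ≤ C.h) hvan
  -- row 1
  have hr1 := copy_rows (B.cop 0 1 (by omega) (by omega))
  rw [Nat.zero_mul, Nat.zero_add, v1.1, T_zero, one_mul, one_mul, RH_zero hC, RG_zero hC] at hr1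
  obtain ⟨q1, -, q3, -⟩ := hr1
  -- the convolution at `s + 1`
  have hconv := conv_id hC N (by omega : t * N + 2 * (n + 1) + 1 ≤ C.h)
  rw [Finset.sum_range_succ', Finset.sum_range_succ', Finset.sum_range_succ',
    Finset.sum_range_succ' (fun i => C.RH (i + 1) * _)] at hconv
  rw [Finset.sum_eq_zero, Finset.sum_eq_zero, zero_add, zero_add, Nat.sub_zero, RG_zero hC,
    RH_zero hC, zero_add, q1, q3,
    show t * N + 2 * (n + 1) + 1 - 1 = t * N + 2 * (n + 1) by omega] at hconv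
  rotate_left
  · intro i _
    rw [(hvan _ (by omega)).2, mul_zero]
  · intro i _
    rw [(hvan _ (by omega)).1, mul_zero]
  have key : br C.M * C.EE N (t * N + 2 * (n + 1) + 1) = br C.L * C.FF N (t * N + 2 * (n + 1) + 1) := by
    linear_combination hconv - hs
  -- evaluate
  have e1 : t * N + 2 * (n + 1) + 1 = t * N + (2 * n + 3) := by omega
  have e2 : t * N + 2 * (n + 1) = t * N + (2 * n + 2) := by omega
  have e3 : t * N + 2 * (n + 1) - 2 = t * N + 2 * n := by omega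
  have hE : C.EE N (t * N + (2 * n + 3)) =
      C.RK (t * N + (2 * n + 3)) - C.RH (t * N + (2 * n + 3)) +
        (C.RK (t * N + (2 * n + 2)) - T 1 * C.RH (t * N + (2 * n + 2))) +
        (T 1 - 1) * (T (n + 1) * C.RH (t * N)) := by
    rw [cb13_EE, hN']
    exact to13_sum z1 z5 v1.1 v1.2 vk.1 vk.2 fun j hj =>
      ⟨(copy_rows (hN' ▸ B.cop' j (by omega))).1, (copy_rows (hN' ▸ B.cop' j (by omega))).2.1⟩
  have hF : C.FF N (t * N + (2 * n + 3)) =
      C.RG' (t * N + (2 * n + 3)) - C.RG (t * N + (2 * n + 3)) +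
        (C.RG' (t * N + (2 * n + 2)) - T 1 * C.RG (t * N + (2 * n + 2))) +
        (T 1 - 1) * (T (n + 1) * C.RG (t * N)) := by
    rw [cb13_FF, hN']
    exact to13_sum z1 z5 v1.1 v1.2 vk.1 vk.2 fun j hj =>
      ⟨(copy_rows (hN' ▸ B.cop' j (by omega))).2.2.1, (copy_rows (hN' ▸ B.cop' j (by omega))).2.2.2⟩
  have hz : br C.M * (C.RK (t * N + 2 * (n + 1)) - C.RH (t * N + 2 * (n + 1))) =
      br C.L * (C.RG' (t * N + 2 * (n + 1)) - C.RG (t * N + 2 * (n + 1))) := B.z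
  have hc2 := copy_rows (B.cop' (2 * n) (by omega))
  rw [vk'.1] at hc2
  obtain ⟨c1, -, c3, -⟩ := hc2
  rw [e1, hE, hF] at key
  rw [e2] at hz
  rw [e3, e2, c1, c3, show t * N + N = t * N + (2 * n + 3) by omega]
  have hT : (T ((n : ℤ) + 1) : LaurentPolynomial ℤ) = T 1 * T n := by
    rw [← T_add]
    congr 1
    ring
  rw [hT] at key
  linear_combination key - hz

end Cd

end Pool.Agent.Lib.MP_bb0bab_co
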