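import Pool.Agent.Lib.MP_bb0bab_co.TO01

/-!
# TO14 row `(t+1) N` after XB, YB, EE: algebra (coefficients), (L, M) = (2, 1)

The letters are those of row `s+1`; `al be ga de` are the words of row `s-2`.
PROOF (take `cf` of `heq` at the given exponents; `ic_in`, `ic_lt`, `ic_gt`, `ic_cases`).
`xb_alg`: `D = (1+x) D' + x^(be+2) - x^(be+3)`, `D = [a',b'+1] - [a,b+1]`, `D' = [c',d'] - [c,d]`.  Coefficient at `be+3`: left `1` (`a' ≤ al+2 ≤ be+3 ≤ b'+1`, `b+1 ≤ be+2`), right `D'(be+3) + D'(be+2) - 1`, `D'(be+3) = [d' = be+3]`, `D'(be+2) = 1 - [d = be+2]`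
(`c', c ≤ ga+2 ≤ be+2`): so `d' = be+3`, `d = be+1`.  At `be+2`: left `≤ 1`, right `D'(be+2) + D'(be+1) + 1 = 2 + D'(be+1)`: so `D'(be+1) = -1`: `c' > be+1`, `c ≤ be+1`: `c' = ga+2`, `c = ga+1`, `ga = be`; and left `= 1`: `a' ≤ be+2`.
At `be+1`: left `[a' ≤ be+1] - [a ≤ be+1]`, right `D'(be+1) + D'(be) = -1 + 0`: `a ≤ be+1`, `a' ≥ be+2`: so `a' = be+2`, and `a ∈ {al+1, al+2}`, `a ≤ be+1`, `a' ∈ {al+1, al+2}`: `al = be`.
`yb_alg`: `D = (1+x) D' + x^(al+1) - x^(al+2)`.  At `al`: `-[a = al] = -[c = al]`; at `al+1`: `-1 = D'(al+1) + D'(al) + 1`, `D'(al+1) = [c' = al+1] - 1`, `D'(al) = -[c = al]`: `c = al`, `c' = al+2`, `a = al`.  At `al+2`: left `≥ -1`, right `D'(al+2) - 1 - 1`: `D'(al+2) = 1`: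
`d' ≥ al+2`, `d ≤ al+1`, so `de = al`, `d = al+1`, `d' = al+2`, and left `= -1`: `b ≥ al+1`.  At `al+3`: left `[b' ≥ al+2] - [b ≥ al+2]`, right `D'(al+3) + D'(al+2) = 0 + 1`: `b ≤ al+1`, `b' ≥ al+2`: `b = be+1 = al+1`.
`ee_alg` (`al + 1 ≤ be`): `R := (x-1)(x^al - x^(be+2) - (1+x)(g1 x^al - g2 x^(be+2)))`, `g1 = 1` iff `ga = al`, `g2 = 1` iff `de = be+1`.  Coefficients at `al`, `al+1`, `al+2` (`be + 2 ≥ al + 3`): left `-[a = al]`, `-1`, `[a' = al+2] - 1`;
`D'` at `al`, `al+1`, `al+2`: `-[c = al]`, `[c' = al+1] - 1`, `0` (`d ≥ be+1 ≥ al+2`).  `ga = al-1` (`g1 = 0`): `R = -x^al + x^(al+1) + ..`: `-[a=al] = -[c=al] - 1` so `c = al+1`; `-1 = D'(al+1) + 0 + 1`: `D'(al+1) = -2`: no.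
`ga = al` (`g1 = 1`): `R = x^(al+1) - x^(al+2) + ..`: `-1 = D'(al+1) - [c=al] + 1`: `c = al`, `D'(al+1) = -1`; at `al+2`: `[a' = al+2] - 1 = 0 - 1 - 1`: no.
-/

namespace Pool.Agent.Lib.MP_bb0bab_co

open LaurentPolynomial

theorem to14_two {x y z : ℤ} (hz : z = y + 1) (h : x = y ∨ x = z) : y ≤ x ∧ x ≤ z := by omega

theorem xb_alg {al be ga a b c d a' b' c' d' : ℤ} (l1 : al ≤ be + 1) (l2 : ga ≤ be)
    (ha : a = al + 1 ∨ a = al + 2) (hb : b = be ∨ b = be + 1) (hc : c = ga + 1 ∨ c = ga + 2)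
    (hd : d = be + 1 ∨ d = be + 2) (ha' : a' = al + 1 ∨ a' = al + 2)
    (hb' : b' = be + 2 ∨ b' = be + 3) (hc' : c' = ga + 1 ∨ c' = ga + 2)
    (hd' : d' = be + 2 ∨ d' = be + 3)
    (heq : ∀ n : ℤ, ic a' (b' + 1) n - ic a (b + 1) n =
      ic c' d' n + ic c' d' (n - 1) - ic c d n - ic c d (n - 1) +
        (if n = be + 2 then 1 else 0) - (if n = be + 3 then 1 else 0)) :
    al = be ∧ ga = be := by
  replace ha := to14_two (by ring) ha
  replace hb := to14_two (by ring) hb
  replace hc := to14_two (by ring) hc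
  replace hd := to14_two (by ring) hd
  replace ha' := to14_two (by ring) ha'
  replace hb' := to14_two (by ring) hb'
  replace hc' := to14_two (by ring) hc'
  replace hd' := to14_two (by ring) hd'
  -- coefficient at `be + 3`
  have e3 := heq (be + 3)
  rw [ic_in (lo := a') (hi := b' + 1) (k := be + 3) (by omega) (by omega),
    ic_gt (lo := a) (hi := b + 1) (k := be + 3) (by omega),
    ic_gt (lo := c) (hi := d) (k := be + 3) (by omega),
    if_neg (by omega : ¬ be + 3 = be + 2), if_pos rfl,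
    show be + 3 - 1 = be + 2 by ring] at e3
  have e2 := heq (be + 2)
  rw [if_pos rfl, if_neg (by omega : ¬ be + 2 = be + 3), show be + 2 - 1 = be + 1 by ring] at e2
  have e1 := heq (be + 1)
  rw [if_neg (by omega : ¬ be + 1 = be + 2), if_neg (by omega : ¬ be + 1 = be + 3),
    show be + 1 - 1 = be by ring] at e1
  have p1 := ic_cases c' d' (be + 3)
  have p2 := ic_cases c' d' (be + 2)
  have p3 := ic_cases c d (be + 2)
  have s1 : d' = be + 3 ∧ ic c' d' (be + 2) = 1 ∧ ic c d (be + 2) = 0 ∧ d = be + 1 := by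
    rcases p1 with p1 | p1 <;> rcases p2 with p2 | p2 <;> rcases p3 with p3 | p3 <;> omega
  obtain ⟨s11, s12, s13, s14⟩ := s1
  rw [s12, s13] at e2
  have p4 := ic_cases c' d' (be + 1)
  have p5 := ic_cases c d (be + 1)
  have p6 := ic_cases a' (b' + 1) (be + 2)
  have p7 := ic_cases a (b + 1) (be + 2)
  have s2 : ic c' d' (be + 1) = 0 ∧ ic c d (be + 1) = 1 ∧ c' = be + 2 ∧ ga = be ∧ a' ≤ be + 2 := by
    rcases p4 with p4 | p4 <;> rcases p5 with p5 | p5 <;> rcases p6 with p6 | p6 <;>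
      rcases p7 with p7 | p7 <;> omega
  obtain ⟨s21, s22, s23, s24, s25⟩ := s2
  rw [s21, s22, ic_lt (lo := c') (hi := d') (k := be) (by omega),
    ic_lt (lo := c) (hi := d) (k := be) (by omega)] at e1
  have p8 := ic_cases a' (b' + 1) (be + 1)
  have p9 := ic_cases a (b + 1) (be + 1)
  rcases p8 with p8 | p8 <;> rcases p9 with p9 | p9 <;> omega

theorem yb_alg {al be de a b c d a' b' c' d' : ℤ} (l1 : al ≤ be + 1) (l2 : al ≤ de)
    (ha : a = al ∨ a = al + 1) (hb : b = be + 1 ∨ b = be + 2) (hc : c = al ∨ c = al + 1)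
    (hd : d = de + 1 ∨ d = de + 2) (ha' : a' = al + 2 ∨ a' = al + 3)
    (hb' : b' = be + 1 ∨ b' = be + 2) (hc' : c' = al + 1 ∨ c' = al + 2)
    (hd' : d' = de + 1 ∨ d' = de + 2)
    (heq : ∀ n : ℤ, ic a' (b' + 1) n - ic a (b + 1) n =
      ic c' d' n + ic c' d' (n - 1) - ic c d n - ic c d (n - 1) +
        (if n = al + 1 then 1 else 0) - (if n = al + 2 then 1 else 0)) :
    be = al ∧ de = al := by
  replace ha := to14_two (by ring) ha
  replace hb := to14_two (by ring) hb
  replace hc := to14_two (by ring) hc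
  replace hd := to14_two (by ring) hd
  replace ha' := to14_two (by ring) ha'
  replace hb' := to14_two (by ring) hb'
  replace hc' := to14_two (by ring) hc'
  replace hd' := to14_two (by ring) hd'
  have e0 := heq al
  rw [if_neg (by omega : ¬ al = al + 1), if_neg (by omega : ¬ al = al + 2)] at e0
  have e1 := heq (al + 1)
  rw [if_pos rfl, if_neg (by omega : ¬ al + 1 = al + 2), show al + 1 - 1 = al by ring] at e1
  have e2 := heq (al + 2)
  rw [if_neg (by omega : ¬ al + 2 = al + 1), if_pos rfl, show al + 2 - 1 = al + 1 by ring] at e2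
  have e3 := heq (al + 3)
  rw [if_neg (by omega : ¬ al + 3 = al + 1), if_neg (by omega : ¬ al + 3 = al + 2),
    show al + 3 - 1 = al + 2 by ring] at e3
  -- coefficient at `al`
  rw [ic_lt (lo := a') (hi := b' + 1) (k := al) (by omega),
    ic_lt (lo := c') (hi := d') (k := al) (by omega),
    ic_lt (lo := c') (hi := d') (k := al - 1) (by omega),
    ic_lt (lo := c) (hi := d) (k := al - 1) (by omega)] at e0
  -- coefficient at `al + 1`
  rw [ic_lt (lo := a') (hi := b' + 1) (k := al + 1) (by omega),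
    ic_in (lo := a) (hi := b + 1) (k := al + 1) (by omega) (by omega),
    ic_in (lo := c) (hi := d) (k := al + 1) (by omega) (by omega),
    ic_lt (lo := c') (hi := d') (k := al) (by omega)] at e1
  have p1 := ic_cases a (b + 1) al
  have p2 := ic_cases c d al
  have p3 := ic_cases c' d' (al + 1)
  have s1 : c = al ∧ ic c d al = 1 ∧ ic c' d' (al + 1) = 0 ∧ a = al ∧ c' = al + 2 := by
    rcases p1 with p1 | p1 <;> rcases p2 with p2 | p2 <;> rcases p3 with p3 | p3 <;> omega
  obtain ⟨s11, s12, s13, s14, s15⟩ := s1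
  rw [s13, ic_in (lo := c) (hi := d) (k := al + 1) (by omega) (by omega)] at e2
  have p4 := ic_cases a' (b' + 1) (al + 2)
  have p5 := ic_cases a (b + 1) (al + 2)
  have p6 := ic_cases c' d' (al + 2)
  have p7 := ic_cases c d (al + 2)
  have s2 : ic c' d' (al + 2) = 1 ∧ ic c d (al + 2) = 0 ∧ de = al ∧ d = al + 1 ∧
      d' = al + 2 ∧ al + 1 ≤ b := by
    rcases p4 with p4 | p4 <;> rcases p5 with p5 | p5 <;> rcases p6 with p6 | p6 <;>
      rcases p7 with p7 | p7 <;> omega
  obtain ⟨s21, s22, s23, s24, s25, s26⟩ := s2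
  rw [s21, s22, ic_gt (lo := c') (hi := d') (k := al + 3) (by omega),
    ic_gt (lo := c) (hi := d) (k := al + 3) (by omega)] at e3
  have p8 := ic_cases a' (b' + 1) (al + 3)
  have p9 := ic_cases a (b + 1) (al + 3)
  rcases p8 with p8 | p8 <;> rcases p9 with p9 | p9 <;> omega

theorem ee_alg {al be ga de a b c d a' b' c' d' : ℤ} (l1 : al + 1 ≤ be)
    (hga : ga = al - 1 ∨ ga = al) (hde : de = be ∨ de = be + 1)
    (ha : a = al ∨ a = al + 1) (hb : b = be ∨ b = be + 1) (hc : c = al ∨ c = al + 1)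
    (hd : d = be + 1 ∨ d = be + 2) (ha' : a' = al + 2 ∨ a' = al + 3)
    (hb' : b' = be + 2 ∨ b' = be + 3) (hc' : c' = al + 1 ∨ c' = al + 2)
    (hd' : d' = be + 2 ∨ d' = be + 3)
    (heq : ∀ n : ℤ, ic a' (b' + 1) n - ic a (b + 1) n =
      ic c' d' n + ic c' d' (n - 1) - ic c d n - ic c d (n - 1) +
        ((ic al (be + 1) (n - 1) - ic (al + 1) (be + 2) (n - 1)) -
          (ic al (be + 1) n - ic (al + 1) (be + 2) n)) -
        ((ic al (be + 1) (n - 1) + ic al (be + 1) (n - 2) -
            ic (ga + 1) (de + 1) (n - 1) - ic (ga + 1) (de + 1) (n - 2)) -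
          (ic al (be + 1) n + ic al (be + 1) (n - 1) -
            ic (ga + 1) (de + 1) n - ic (ga + 1) (de + 1) (n - 1)))) : False := by
  replace hga := to14_two (by ring) hga
  replace hde := to14_two (by ring) hde
  replace ha := to14_two (by ring) ha
  replace hb := to14_two (by ring) hb
  replace hc := to14_two (by ring) hc
  replace hd := to14_two (by ring) hd
  replace ha' := to14_two (by ring) ha'
  replace hb' := to14_two (by ring) hb'
  replace hc' := to14_two (by ring) hc'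
  replace hd' := to14_two (by ring) hd'
  have e0 := heq al
  have e1 := heq (al + 1)
  have e2 := heq (al + 2)
  rw [show al + 1 - 1 = al by ring, show al + 1 - 2 = al - 1 by ring] at e1
  rw [show al + 2 - 1 = al + 1 by ring, show al + 2 - 2 = al by ring] at e2
  -- known values
  rw [ic_lt (lo := a') (hi := b' + 1) (k := al) (by omega),
    ic_lt (lo := c') (hi := d') (k := al) (by omega),
    ic_lt (lo := c') (hi := d') (k := al - 1) (by omega),
    ic_lt (lo := c) (hi := d) (k := al - 1) (by omega),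
    ic_lt (lo := al) (hi := be + 1) (k := al - 1) (by omega),
    ic_lt (lo := al + 1) (hi := be + 2) (k := al - 1) (by omega),
    ic_in (lo := al) (hi := be + 1) (k := al) (by omega) (by omega),
    ic_lt (lo := al + 1) (hi := be + 2) (k := al) (by omega),
    ic_lt (lo := al) (hi := be + 1) (k := al - 2) (by omega),
    ic_lt (lo := ga + 1) (hi := de + 1) (k := al - 1) (by omega),
    ic_lt (lo := ga + 1) (hi := de + 1) (k := al - 2) (by omega)] at e0
  rw [ic_lt (lo := a') (hi := b' + 1) (k := al + 1) (by omega),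
    ic_in (lo := a) (hi := b + 1) (k := al + 1) (by omega) (by omega),
    ic_lt (lo := c') (hi := d') (k := al) (by omega),
    ic_in (lo := c) (hi := d) (k := al + 1) (by omega) (by omega),
    ic_in (lo := al) (hi := be + 1) (k := al) (by omega) (by omega),
    ic_lt (lo := al + 1) (hi := be + 2) (k := al) (by omega),
    ic_in (lo := al) (hi := be + 1) (k := al + 1) (by omega) (by omega),
    ic_in (lo := al + 1) (hi := be + 2) (k := al + 1) (by omega) (by omega),
    ic_lt (lo := al) (hi := be + 1) (k := al - 1) (by omega),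
    ic_lt (lo := ga + 1) (hi := de + 1) (k := al - 1) (by omega),
    ic_in (lo := ga + 1) (hi := de + 1) (k := al + 1) (by omega) (by omega)] at e1
  rw [ic_in (lo := a) (hi := b + 1) (k := al + 2) (by omega) (by omega),
    ic_in (lo := c') (hi := d') (k := al + 2) (by omega) (by omega),
    ic_in (lo := c) (hi := d) (k := al + 2) (by omega) (by omega),
    ic_in (lo := c) (hi := d) (k := al + 1) (by omega) (by omega),
    ic_in (lo := al) (hi := be + 1) (k := al) (by omega) (by omega),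
    ic_in (lo := al) (hi := be + 1) (k := al + 1) (by omega) (by omega),
    ic_in (lo := al) (hi := be + 1) (k := al + 2) (by omega) (by omega),
    ic_in (lo := al + 1) (hi := be + 2) (k := al + 1) (by omega) (by omega),
    ic_in (lo := al + 1) (hi := be + 2) (k := al + 2) (by omega) (by omega),
    ic_in (lo := ga + 1) (hi := de + 1) (k := al + 1) (by omega) (by omega)] at e2
  have p1 := ic_cases a (b + 1) al
  have p2 := ic_cases c d al
  have p3 := ic_cases c' d' (al + 1)
  have p4 := ic_cases (ga + 1) (de + 1) al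
  have s1 : ga = al ∧ ic (ga + 1) (de + 1) al = 0 ∧ c = al ∧ ic c' d' (al + 1) = 0 := by
    rcases p1 with p1 | p1 <;> rcases p2 with p2 | p2 <;> rcases p3 with p3 | p3 <;>
      rcases p4 with p4 | p4 <;> omega
  obtain ⟨s11, s12, s13, s14⟩ := s1
  rw [s12, s14] at e2
  have p5 := ic_cases a' (b' + 1) (al + 2)
  have p6 := ic_cases (ga + 1) (de + 1) (al + 2)
  rcases p5 with p5 | p5 <;> rcases p6 with p6 | p6 <;> omega

end Pool.Agent.Lib.MP_bb0bab_co
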