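import Pool.Agent.Lib.MP_bb0bab_co.TO12
import Pool.Agent.Lib.MP_bb0bab_co.TO13
import Pool.Agent.Lib.MP_bb0bab_co.TO14
import Pool.Agent.Lib.MP_bb0bab_co.TO02
import Pool.Agent.Lib.MP_bb0bab_co.TO04
import Pool.Agent.Lib.MP_bb0bab_co.CB30

/-!
# TO15 the exceptions in the blocks of type O are impossible, (L, M) = (2, 1)

`al = a (tN) + l`, .. are the words at `s - 2 = tN + 2l`, `s = tN + i`, `i = 2l+2` (`BO.rows`).  `nf`: they are not all equal.
PROOF. `xa_no`: `dj_b` (`b' s = be + 2`): `b (rN) = b ((r-1)N) + k + 1` for `1 ≤ r ≤ t`, `b 0 = 0`, so `b (tN) = t (k+1)`; `d (tN) ≤ t (k+1)` by `step_c`; so `de ≤ be`, but `de = be + 1`.  `ya_no`: `dj_a`: `a (tN) = t k`, `c (tN) ≥ t k`, but `ga = al - 1`.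
`xb_no`: `dj_b`: `i = 2k`; `next_eq` with `L = 2`, `M = 1`, `RH s = rowPoly (al+1) (be+1)`, `RH (s-2) = rowPoly al (be+1)`, `RG s = rowPoly (ga+1) (be+1)`, `RG (s-2) = rowPoly ga be`: right side `-(T 1 - 1) T (be+2)`; letters at `s + 1`; `xb_alg`: row `s-2` is full.
`yb_no`: `dj_a`: `i = 2k`; `RH s = rowPoly al (be+2)`, `T 1 * RH (s-2) = rowPoly (al+1) (be+2)`, `RG s = rowPoly al (de+1)`, `T 1 * RG (s-2) = rowPoly (al+1) (de+1)`: right side `(T 1 - 1)(T al - (1 + T 1) T al) = -(T 1 - 1) T (al+1)`; `yb_alg`.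
`ee_no`: `dj_b` (`i = 2k`).  `al + 1 ≤ be`: `next_eq` and `ee_alg`; `ga ∈ {al - 1, al}` as `c s = al ∈ {ga, ga+1}`, `de ∈ {be, be+1}` as `d s = be + 1`.  `al = be` (`=: V`): windows: `D0k`: `2 s ≤ h` (rows `< s` are T-like).
`aK s > V + 1`, `aK (s-2) ≤ V`: `> 1`; `rK s - rK (s-2) = aK (h-s+2) - aK (h-s)` is a later window (`h - s ≥ s - 2`): `> 1`, `rK s < d s + 1 = V + 2`: `rK (s-2) < V + 1`: `de ≤ V`.  `bH s < V + 1`, `bH (s-2) ≥ V`: `< 1`; `lH s - lH (s-2) < 1` (later window), `lH s > c' s - 1 = V`: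
`lH (s-2) > V - 1`: `ga = c' (s-2) ≥ V`.  `mu`: `ga ≤ de`: so `al = be = ga = de`: row `s - 2` is full, so row `tN` is full (same differences): `nf`.
`zb_21`: TO02 `zt1_row` with `BO.rows`, `r1`: `len_R`, `r2`: `len_P` (`s + 1 ≤ h`).  (`T1 s ∧ Full s` is allowed by `ZB`.)
-/

namespace Pool.Agent.Lib.MP_bb0bab_co

open LaurentPolynomial

namespace Cd

variable {C : Cd}

namespace BO

variable {N k t i : ℕ} (B : BO C N k t i) (hL : C.L = 2) (hM : C.M = 1) {al be ga de : ℤ}
  (hr : C.Row (t * N + i - 2) al be ga de al be ga de)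

theorem to15_sum {N t : ℕ} {f : ℕ → ℤ} {c : ℤ} (h : ∀ r, 1 ≤ r → r ≤ t → f (r * N) = f ((r - 1) * N) + c) :
    f (t * N) = f 0 + t * c := by
  induction t with
  | zero => simp
  | succ t ih =>
    have h1 := ih (fun r h1 h2 => h r h1 (by omega))
    have h2 := h (t + 1) (by omega) le_rfl
    rw [Nat.add_sub_cancel] at h2
    rw [h2, h1]
    push_cast
    ring

theorem to15_le {N t : ℕ} {f : ℕ → ℤ} {c : ℤ} (h : ∀ r, 1 ≤ r → r ≤ t → f (r * N) ≤ f ((r - 1) * N) + c) :
    f (t * N) ≤ f 0 + t * c := by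
  induction t with
  | zero => simp
  | succ t ih =>
    have h1 := ih (fun r h1 h2 => h r h1 (by omega))
    have h2 := h (t + 1) (by omega) le_rfl
    rw [Nat.add_sub_cancel] at h2
    push_cast
    linarith

theorem to15_ge {N t : ℕ} {f : ℕ → ℤ} {c : ℤ} (h : ∀ r, 1 ≤ r → r ≤ t → f ((r - 1) * N) + c ≤ f (r * N)) :
    f 0 + t * c ≤ f (t * N) := by
  induction t with
  | zero => simp
  | succ t ih =>
    have h1 := ih (fun r h1 h2 => h r h1 (by omega))
    have h2 := h (t + 1) (by omega) le_rfl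
    rw [Nat.add_sub_cancel] at h2
    push_cast
    linarith

include B hr in
/-- the words at `s-2` against the words at the bottom of the block -/
theorem to15_words : ∃ l : ℕ, i = 2 * l + 2 ∧ al = C.a (t * N) + l ∧ be = C.b (t * N) + l ∧
    ga = C.c (t * N) + l ∧ de = C.d (t * N) + l ∧
    C.Row (t * N + i - 1) al be ga de (al + 1) (be + 1) (ga + 1) (de + 1) := by
  obtain ⟨l, hl, h1, h2⟩ := B.rows
  have e1 := h1.ea.symm.trans hr.ea
  have e2 := h1.eb.symm.trans hr.eb
  have e3 := h1.ec.symm.trans hr.ec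
  have e4 := h1.ed.symm.trans hr.ed
  rw [e1, e2, e3, e4] at h2
  exact ⟨l, hl, e1.symm, e2.symm, e3.symm, e4.symm, h2⟩

include B hL hM hr in
theorem to15_l1 : al ≤ be + 1 := by
  obtain ⟨l, -, e1, e2, -, -, -⟩ := B.to15_words hr
  have := B.lam
  rw [hL, hM] at this
  push_cast at this
  omega

include B hr in
theorem to15_l2 : ga ≤ de := by
  obtain ⟨l, -, -, -, e3, e4, -⟩ := B.to15_words hr
  have := B.mu
  omega

include B hr in
/-- row `s-2` is not full -/
theorem to15_nf (h1 : be = al) (h2 : ga = al) (h3 : de = al) : False := by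
  obtain ⟨l, -, e1, e2, e3, e4, -⟩ := B.to15_words hr
  exact B.nf ⟨by omega, by omega, by omega⟩

include hL hM in
/-- coefficients of `next_eq` -/
theorem to15_cf (B : BO C N k t (2 * k)) {a1 b1 c1 d1 a2 b2 c2 d2 : ℤ}
    (h1 : C.a (t * N + 2 * k) = a1) (h2 : C.b (t * N + 2 * k) = b1)
    (h3 : C.c (t * N + 2 * k) = c1) (h4 : C.d (t * N + 2 * k) = d1)
    (h5 : C.a (t * N + 2 * k - 2) = a2) (h6 : C.b (t * N + 2 * k - 2) = b2)
    (h7 : C.c (t * N + 2 * k - 2) = c2) (h8 : C.d (t * N + 2 * k - 2) = d2) (n : ℤ) :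
    ic (C.a' (t * N + N)) (C.b' (t * N + N) + 1) n - ic (C.a (t * N + N)) (C.b (t * N + N) + 1) n =
      ic (C.c' (t * N + N)) (C.d' (t * N + N)) n + ic (C.c' (t * N + N)) (C.d' (t * N + N)) (n - 1) -
      ic (C.c (t * N + N)) (C.d (t * N + N)) n - ic (C.c (t * N + N)) (C.d (t * N + N)) (n - 1) +
      ((ic a1 (b1 + 1) (n - 1) - ic (a2 + 1) (b2 + 2) (n - 1)) -
        (ic a1 (b1 + 1) n - ic (a2 + 1) (b2 + 2) n)) -
      ((ic c1 d1 (n - 1) + ic c1 d1 (n - 2) - ic (c2 + 1) (d2 + 1) (n - 1) -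
          ic (c2 + 1) (d2 + 1) (n - 2)) -
        (ic c1 d1 n + ic c1 d1 (n - 1) - ic (c2 + 1) (d2 + 1) n -
          ic (c2 + 1) (d2 + 1) (n - 1))) := by
  have h := congrArg (cf n) B.next_eq
  have rh : ∀ j, C.RH j = rowPoly (C.a j) (C.b j + 1) := fun j => by
    rw [RH, hL]; congr 1; push_cast; ring
  have rk : ∀ j, C.RK j = rowPoly (C.a' j) (C.b' j + 1) := fun j => by
    rw [RK, hL]; congr 1; push_cast; ring
  have rg : ∀ j, C.RG j = rowPoly (C.c j) (C.d j) := fun j => by
    rw [RG, hM]; congr 1; push_cast; ring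
  have rg' : ∀ j, C.RG' j = rowPoly (C.c' j) (C.d' j) := fun j => by
    rw [RG', hM]; congr 1; push_cast; ring
  have sh : ∀ lo hi m : ℤ, ic (lo + 1) (hi + 1) m = ic lo hi (m - 1) := fun lo hi m => by
    unfold ic
    congr 1
    exact propext ⟨fun h => ⟨by omega, by omega⟩, fun h => ⟨by omega, by omega⟩⟩
  have e1 : br (C.M : ℤ) = 1 := by rw [hM]; exact br_one_eq
  have e2 : br (C.L : ℤ) = br 2 := by rw [hL]; rfl
  rw [e1, e2] at h
  simp only [one_mul, map_sub, cf_sub_one, cf_br2, cf_Tmul, cf_row, rh, rk, rg, rg', h1, h2, h3, h4,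
    h5, h6, h7, h8] at h
  have e3 : b2 + 2 = b2 + 1 + 1 := by ring
  rw [e3]
  simp only [sh]
  have e4 : n - 1 - 1 = n - 2 := by ring
  have e5 : n - 2 - 1 = n - 3 := by ring
  simp only [e4, e5] at h ⊢
  linarith

include B hL hM hr

theorem xa_no (hX : C.Row (t * N + i) (al + 1) be (ga + 1) de (al + 1) (be + 2) (ga + 1) (de + 1))
    (h : de = be + 1) : False := by
  obtain ⟨l, -, e1, e2, e3, e4, -⟩ := B.to15_words hr
  obtain ⟨h1, -⟩ := B.dj_b (by rw [hX.eb', hr.eb'])
  have h2 := to15_sum h1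
  have h3 := to15_le (f := C.d) (N := N) (t := t) (c := (k : ℤ) + 1) (fun r hr1 hr2 => (B.step_c hr1 hr2).2)
  obtain ⟨z1, z2, z3, z4, -⟩ := B.ok.zero
  rw [z2] at h2
  rw [z4] at h3
  omega

theorem ya_no (hX : C.Row (t * N + i) al (be + 1) (ga + 1) (de + 1) (al + 2) (be + 1) (ga + 2) (de + 1))
    (h : ga = al - 1) : False := by
  obtain ⟨l, -, e1, e2, e3, e4, -⟩ := B.to15_words hr
  obtain ⟨h1, -⟩ := B.dj_a (by rw [hX.ea, hr.ea])
  have h2 := to15_sum h1
  have h3 := to15_ge (f := C.c) (N := N) (t := t) (c := (k : ℤ)) (fun r hr1 hr2 => (B.step_c hr1 hr2).1)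
  obtain ⟨z1, z2, z3, z4, -⟩ := B.ok.zero
  rw [z1] at h2
  rw [z3] at h3
  omega

theorem xb_no (hX : C.Row (t * N + i) (al + 1) be (ga + 1) (de + 1) (al + 1) (be + 2) (ga + 1) (de + 2))
    (h : de = be) : False := by
  have l1 := B.to15_l1 hL hM hr
  have l2 := B.to15_l2 hr
  obtain ⟨-, h2⟩ := B.dj_b (by rw [hX.eb', hr.eb'])
  subst h2
  obtain ⟨n1, n2, n3, n4⟩ := B.to12_N
  have hlt : t * N + 2 * k < C.h := by omega
  have es : t * N + 2 * k + 1 = t * N + N := by have := B.typ.hN; omega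
  have la := B.ok.a_let hlt
  have lb := B.ok.b_let hlt
  have lc := B.ok.c_let hlt
  have ld := B.ok.d_let hlt
  have la' := B.ok.a'_let hlt
  have lb' := B.ok.b'_let hlt
  have lc' := B.ok.c'_let hlt
  have ld' := B.ok.d'_let hlt
  rw [es, hX.ea] at la
  rw [es, hX.eb] at lb
  rw [es, hX.ec] at lc
  rw [es, hX.ed] at ld
  rw [es, hX.ea'] at la'
  rw [es, hX.eb'] at lb'
  rw [es, hX.ec'] at lc'
  rw [es, hX.ed'] at ld'
  have hcf := fun n => to15_cf hL hM B hX.ea hX.eb hX.ec hX.ed hr.ea hr.eb hr.ec hr.ed n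
  have hh := xb_alg (al := al) (be := be) (ga := ga) (a := C.a (t * N + N)) (b := C.b (t * N + N))
    (c := C.c (t * N + N)) (d := C.d (t * N + N)) (a' := C.a' (t * N + N)) (b' := C.b' (t * N + N))
    (c' := C.c' (t * N + N)) (d' := C.d' (t * N + N)) l1 (by omega)
    (by rcases la with h | h <;> omega) (by rcases lb with h | h <;> omega)
    (by rcases lc with h | h <;> omega) (by rcases ld with h | h <;> omega)
    (by rcases la' with h | h <;> omega) (by rcases lb' with h | h <;> omega)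
    (by rcases lc' with h | h <;> omega) (by rcases ld' with h | h <;> omega)
    (fun n => by
      rw [hcf n]
      have x1 : ∀ m : ℤ, ic (al + 1) (be + 1) m - ic (al + 1) (be + 2) m =
          - (if m = be + 2 then 1 else 0) := fun m => by
        unfold ic
        split_ifs <;> omega
      rw [x1, x1]
      have x2 : (if n - 1 = be + 2 then (1 : ℤ) else 0) = if n = be + 3 then 1 else 0 := by
        split_ifs <;> omega
      rw [x2]
      ring)
  exact B.to15_nf hr hh.1.symm (by omega) (by omega)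

theorem yb_no (hX : C.Row (t * N + i) al (be + 1) ga (de + 1) (al + 2) (be + 1) (ga + 1) (de + 1))
    (h : ga = al) : False := by
  have l1 := B.to15_l1 hL hM hr
  have l2 := B.to15_l2 hr
  obtain ⟨-, h2⟩ := B.dj_a (by rw [hX.ea, hr.ea])
  subst h2
  obtain ⟨n1, n2, n3, n4⟩ := B.to12_N
  have hlt : t * N + 2 * k < C.h := by omega
  have es : t * N + 2 * k + 1 = t * N + N := by have := B.typ.hN; omega
  have la := B.ok.a_let hlt
  have lb := B.ok.b_let hlt
  have lc := B.ok.c_let hlt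
  have ld := B.ok.d_let hlt
  have la' := B.ok.a'_let hlt
  have lb' := B.ok.b'_let hlt
  have lc' := B.ok.c'_let hlt
  have ld' := B.ok.d'_let hlt
  rw [es, hX.ea] at la
  rw [es, hX.eb] at lb
  rw [es, hX.ec] at lc
  rw [es, hX.ed] at ld
  rw [es, hX.ea'] at la'
  rw [es, hX.eb'] at lb'
  rw [es, hX.ec'] at lc'
  rw [es, hX.ed'] at ld'
  have hcf := fun n => to15_cf hL hM B hX.ea hX.eb hX.ec hX.ed hr.ea hr.eb hr.ec hr.ed n
  have hh := yb_alg (al := al) (be := be) (de := de) (a := C.a (t * N + N)) (b := C.b (t * N + N))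
    (c := C.c (t * N + N)) (d := C.d (t * N + N)) (a' := C.a' (t * N + N)) (b' := C.b' (t * N + N))
    (c' := C.c' (t * N + N)) (d' := C.d' (t * N + N)) l1 (by omega)
    (by rcases la with h | h <;> omega) (by rcases lb with h | h <;> omega)
    (by rcases lc with h | h <;> omega) (by rcases ld with h | h <;> omega)
    (by rcases la' with h | h <;> omega) (by rcases lb' with h | h <;> omega)
    (by rcases lc' with h | h <;> omega) (by rcases ld' with h | h <;> omega)
    (fun n => by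
      rw [hcf n]
      have e2 : be + 1 + 1 = be + 2 := by ring
      rw [e2, h]
      have x1 : ∀ m : ℤ, ic al (be + 2) m - ic (al + 1) (be + 2) m =
          (if m = al then 1 else 0) := fun m => by
        unfold ic
        split_ifs <;> omega
      have x2 : ∀ m : ℤ, ic al (de + 1) m - ic (al + 1) (de + 1) m =
          (if m = al then 1 else 0) := fun m => by
        unfold ic
        split_ifs <;> omega
      have y1 := x1 (n - 1)
      have y2 := x1 n
      have y3 := x2 n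
      have y4 := x2 (n - 1)
      have y5 := x2 (n - 2)
      have z2 : (if n - 2 = al then (1 : ℤ) else 0) = if n = al + 2 then 1 else 0 := by
        split_ifs <;> omega
      have z1 : (if n - 1 = al then (1 : ℤ) else 0) = if n = al + 1 then 1 else 0 := by
        split_ifs <;> omega
      rw [z2] at y5
      rw [z1] at y1 y4
      linarith)
  exact B.to15_nf hr hh.1 h hh.2

theorem ee_no (hX : C.Row (t * N + i) al be al (be + 1) (al + 2) (be + 2) (al + 1) (be + 2))
    (h : al ≤ be) : False := by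
  have l1 := B.to15_l1 hL hM hr
  have l2 := B.to15_l2 hr
  obtain ⟨l, hl, -, -, -, -, hr1⟩ := B.to15_words hr
  obtain ⟨n1, n2, n3, n4⟩ := B.to12_N
  have hi2 := B.i2
  rcases Int.lt_or_le al be with hab | hab
  · obtain ⟨-, h2⟩ := B.dj_b (by rw [hX.eb', hr.eb'])
    subst h2
    have hlt : t * N + 2 * k < C.h := by omega
    have es : t * N + 2 * k + 1 = t * N + N := by have := B.typ.hN; omega
    have hlt1 : t * N + 2 * k - 1 < C.h := by omega
    have es1 : t * N + 2 * k - 1 + 1 = t * N + 2 * k := by omega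
    have mc := B.ok.c_let hlt1
    have md := B.ok.d_let hlt1
    rw [es1, hX.ec, hr1.ec] at mc
    rw [es1, hX.ed, hr1.ed] at md
    have la := B.ok.a_let hlt
    have lb := B.ok.b_let hlt
    have lc := B.ok.c_let hlt
    have ld := B.ok.d_let hlt
    have la' := B.ok.a'_let hlt
    have lb' := B.ok.b'_let hlt
    have lc' := B.ok.c'_let hlt
    have ld' := B.ok.d'_let hlt
    rw [es, hX.ea] at la
    rw [es, hX.eb] at lb
    rw [es, hX.ec] at lc
    rw [es, hX.ed] at ld
    rw [es, hX.ea'] at la'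
    rw [es, hX.eb'] at lb'
    rw [es, hX.ec'] at lc'
    rw [es, hX.ed'] at ld'
    have hcf := fun n => to15_cf hL hM B hX.ea hX.eb hX.ec hX.ed hr.ea hr.eb hr.ec hr.ed n
    exact ee_alg (al := al) (be := be) (ga := ga) (de := de) (a := C.a (t * N + N)) (b := C.b (t * N + N))
      (c := C.c (t * N + N)) (d := C.d (t * N + N)) (a' := C.a' (t * N + N)) (b' := C.b' (t * N + N))
      (c' := C.c' (t * N + N)) (d' := C.d' (t * N + N)) (by omega)
      (by rcases mc with h | h <;> omega) (by rcases md with h | h <;> omega)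
      (by rcases la with h | h <;> omega) (by rcases lb with h | h <;> omega)
      (by rcases lc with h | h <;> omega) (by rcases ld with h | h <;> omega)
      (by rcases la' with h | h <;> omega) (by rcases lb' with h | h <;> omega)
      (by rcases lc' with h | h <;> omega) (by rcases ld' with h | h <;> omega)
      (fun n => hcf n)
  · have hV : be = al := by omega
    subst hV
    have h2s : 2 * (t * N + i) ≤ C.h := B.ok.D0k (by omega) B.tl (by rw [hX.ea', hX.ea])
    -- the four windows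
    have k1 : (be : ℝ) + 1 < C.aK (t * N + i) := by
      have h1 : ((C.a' (t * N + i) : ℤ) : ℝ) < C.aK (t * N + i) + 1 := Int.ceil_lt_add_one _
      rw [hX.ea'] at h1
      push_cast at h1
      linarith
    have k2 : C.aK (t * N + i - 2) ≤ be := by
      have h1 : C.aK (t * N + i - 2) ≤ ((C.a' (t * N + i - 2) : ℤ) : ℝ) := Int.le_ceil _
      rwa [hr.ea'] at h1
    have k3 : C.bH (t * N + i) < be + 1 := by
      have h1 : C.bH (t * N + i) < ((C.b (t * N + i) : ℤ) : ℝ) + 1 := Int.lt_floor_add_one _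
      rwa [hX.eb] at h1
    have k4 : (be : ℝ) ≤ C.bH (t * N + i - 2) := by
      have h1 : ((C.b (t * N + i - 2) : ℤ) : ℝ) ≤ C.bH (t * N + i - 2) := Int.floor_le _
      rwa [hr.eb] at h1
    have e1 : t * N + i - 2 + 2 = t * N + i := by omega
    have e2 : C.h - (t * N + i) + 2 = C.h - (t * N + i - 2) := by omega
    have w1 := B.ok.aKconv.win (i := t * N + i - 2) (j := C.h - (t * N + i)) (w := 2) (by omega) (by omega)
    have w2 := B.ok.bHconc.win (i := t * N + i - 2) (j := C.h - (t * N + i)) (w := 2) (by omega) (by omega)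
    rw [e1, e2] at w1 w2
    have r1 : C.rK (t * N + i) < be + 2 := by
      have h1 : C.rK (t * N + i) < ((C.d (t * N + i) : ℤ) : ℝ) + 1 := Int.lt_floor_add_one _
      rw [hX.ed] at h1
      push_cast at h1
      linarith
    have r2 : (de : ℝ) ≤ C.rK (t * N + i - 2) := by
      have h1 : ((C.d (t * N + i - 2) : ℤ) : ℝ) ≤ C.rK (t * N + i - 2) := Int.floor_le _
      rwa [hr.ed] at h1
    have r3 : (be : ℝ) < C.lH (t * N + i) := by
      have h1 : ((C.c' (t * N + i) : ℤ) : ℝ) < C.lH (t * N + i) + 1 := Int.ceil_lt_add_one _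
      rw [hX.ec'] at h1
      push_cast at h1
      linarith
    have r4 : C.lH (t * N + i - 2) ≤ ga := by
      have h1 : C.lH (t * N + i - 2) ≤ ((C.c' (t * N + i - 2) : ℤ) : ℝ) := Int.le_ceil _
      rwa [hr.ec'] at h1
    unfold Cd.rK at r1 r2
    unfold Cd.lH at r3 r4
    have s1 : (de : ℝ) < be + 1 := by linarith
    have s2 : (be : ℝ) < ga + 1 := by linarith
    have s3 : de < be + 1 := by exact_mod_cast s1
    have s4 : be < ga + 1 := by exact_mod_cast s2
    exact B.to15_nf hr rfl (by omega) (by omega)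

end BO

theorem zb_21 (hC : C.Ok) (hL : C.L = 2) (hM : C.M = 1) {N k : ℕ} (hO : C.TypeO N k) : C.ZB N := by
  intro t i ht pre cop tl nf cop' i2 iN t1 hh z
  have B : BO C N k t i := ⟨hC, hO, ht, pre, cop, tl, nf, cop', i2, iN, t1, hh, z⟩
  obtain ⟨n1, n2, n3, n4⟩ := B.to12_N
  obtain ⟨l, hl, r2, r1⟩ := B.rows
  have hm := hO.hm
  have l1 := B.to15_l1 hL hM r2
  have l2 := B.to15_l2 r2
  have q1 := hC.len_R (i := t * N + i) (by omega)
  have q2 := hC.len_P (i := t * N + i) (by omega)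
  rcases zt1_row hC hL hM (s := t * N + i) (by omega) (by omega) r1 (by omega) (by omega) z with
    h | h | ⟨hX, h⟩ | ⟨hX, h⟩ | ⟨hX, h⟩ | ⟨hX, h⟩ | ⟨hX, h⟩
  · exact Or.inl h
  · exact Or.inr h
  · exact (B.xa_no hL hM r2 hX h).elim
  · exact (B.xb_no hL hM r2 hX h).elim
  · exact (B.ya_no hL hM r2 hX h).elim
  · exact (B.yb_no hL hM r2 hX h).elim
  · exact (B.ee_no hL hM r2 hX h).elim

end Cd

end Pool.Agent.Lib.MP_bb0bab_co
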