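import Pool.Agent.Lib.MP_bb0bab_co.CB28
import Pool.Agent.Lib.MP_bb0bab_co.CB36
import Pool.Agent.Lib.MP_bb0bab_co.TO08
import Pool.Agent.Lib.MP_bb0bab_co.TO15
import Pool.Agent.Lib.MP_bb0bab_co.SXF

/-!
# MP_bb0bab_co: final assembly

`germ_arises`: every germ arises from a direct sum decomposition.
-/

namespace Pool.Agent.Lib.MP_bb0bab_co

namespace Cd

variable {C : Cd}

theorem blocks_all (hC : C.Ok) (hX : C.LemX) : C.Blocks := by
  by_cases hM : 2 ≤ C.M
  · exact blocks_M2 hC hM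
  have hM1 : C.M = 1 := by
    have := hC.hM
    omega
  have hlt : ∀ N, C.Ev N → N < C.m → False :=
    fun N hE h => impossible_lt_M1 hC hM1 hX hE h
  by_cases hL : 3 ≤ C.L
  · exact blocks_of hC (ze_M1 hC hM1 hL) hlt (fun N k hE hmN hO => zb_M1 hC hM1 hL hO)
  · have hL2 : C.L = 2 := by
      have := hC.hLM
      omega
    exact blocks_of hC (ze_21 hC hL2 hM1 hX) hlt (fun N k _ _ hO => zb_21 hC hL2 hM1 hO)

end Cd

theorem germ_arises {H K : Finset (ℤ × ℤ)} {L M h : ℕ} {xl : ℤ} {αH αK βH βK : ℕ → ℝ} {m : ℕ}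
    {q : ℤ} (G : Germ H K L M h xl αH αK βH βK m q) : Arises H K :=
  germ_blocks G (Cd.blocks_all (germ_ok G) (germ_lemX G))

end Pool.Agent.Lib.MP_bb0bab_co
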