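import Pool.Agent.Lib.MP_bb0bab_co.SX06

/-!
# SX09 (10.2) N ≥ 2, V_1 = 0: STEPS 1-3 (any L ≥ 2)

All four words at 1 are 0 (row 1 is full: `1 < N`).  `A = a (N-1)`.
PROOF. `step1`.  By `zrow` (j = 1) row `m+1` is T0 or T1 full with value `q`.  In the first case the letters after the T1 full row `m` (value `q`) give all words `q+1`.  Suppose T1.
  `J` from `exists_J`; `J ≠ 1` (row `m+1` would be T0).  For `r < J`, `r+1 ≤ m`: `C0b` with `t = m`, `s = m+r`, `j = r+1`, `k = 1`: `b (r+1) + q ≤ b (m+r) + c' 1 = q + b r`; so `b j ≤ 0` for all `j ≤ J`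
  (and `b j ≥ 0`).  `J = m`: `b m = q ≥ 1`, no.  So `J < m`, row `J` is full.  `J > N`: `c J = b J = 0 < 1 ≤ A + 1 = c N ≤ c J` no.  `J = N`: not full (`ev.nf`).  `1 < J < N`:
  `C0b` with `t = m`, `s = m+1` (`b (m+1) = q + b 1 = q`), `1 ≤ j ≤ N`, `k = j-1`: `b j ≤ c' (j-1) = c (j-1)`: `a j ≤ a (j-1)` for `j < N`, so `a j = 0` for all `j < N` and `b N ≤ 0`, `b N = 0`.
  Row `m+J` is T0 after the T1 row `m+J-1` (value `q`): all words are `q+1`.  `b (m+N-1) ≥ b (m+J) = q+1`.  Row `m+N-1` is T0: otherwise value `q + 0` (`zrow`) but `a ≥ q+1`.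
  Row `m+N` is regular (T1 at the bottom): letters `b (m+N) + 1 = b' (m+N) ≤ b' (m+N-1) + 1 = b (m+N-1) + 1` and `b (m+N) ≥ b (m+N-1)`: `q + b N = b (m+N-1) ≥ q+1`: no.
`step2`.  Row `m+N-1` is T0: `N = 2` is `step1`.  `N > 2`: otherwise T1 full with value `q + A`.  `C0b` (`t = m`, `s = m+N-1`, `j = N`, `k = 1`): `b N + q ≤ q + A + 0`: `b N ≤ A`.
  `C0b` (`t = m+N-1`, `s = m+N`, `1 ≤ j < N`, `k = j-1`; `j + t ≤ m+2N-2 ≤ h`): `b j + q + A ≤ q + b N + c' (j-1)`: `a j ≤ a (j-1)`: `A = 0`, value `q`, but `a (m+N-1) ≥ a (m+1) = q+1`: no.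
  Letters between row `m+N-1` (T0) and row `m+N` (bottom T1): `a (m+N-1) = a (m+N) = q + a N`, `b (m+N-1) = q + b N`.
  `c (m+N-1) = c' (m+N-1) ∈ {q+A, q+A+1}` (`win_c'` at `N-1`).  If `q+A`: `lH (m+N-1) ≤ q+A`, `lH m > q`, `lH N - lH 1 ≤ lH (m+N-1) - lH m < A` (`lHconv.win`), `lH 1 ≤ c' 1 = 0`: `lH N < A`, but
  `lH N > c' N - 1 = A`.  So `c (m+N-1) = q+A+1 ≤ b (m+N-1) = q + b N` (`BT`, `hhN`): `b N = A + 1`.
`step3`.  `m ≠ N+1`: `(q-A) m > q` and `(q-A) m < q+1 ≤ m` (from `basic`).  `c (N+1) ≤ A+1`: otherwise `lK (N+1) > A+1`, `lK 1 ≤ 0`, `lK m ≤ q`, `lKconv.chord` (1, N+1, m): `(A+1)(m-1) < q N`, and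
  `(q+1) N < (A+1) m` gives `N < A+1`, but `A < N`.
-/

namespace Pool.Agent.Lib.MP_bb0bab_co

open LaurentPolynomial

namespace Cd.S102

variable {C : Cd} {N : ℕ} (S : C.S102 N)

include S

/-- row `1` is full and of type 0 -/
theorem sx09_one :
    C.b 1 = 0 ∧ C.c 1 = 0 ∧ C.d 1 = 0 ∧ C.a' 1 = 0 ∧ C.b' 1 = 0 ∧ C.c' 1 = 0 ∧ C.d' 1 = 0 := by
  have h1 := S.h1
  have hN2 := S.N2
  obtain ⟨f1, f2, f3⟩ := S.s.ev.full 1 (by omega)
  obtain ⟨t1, t2, t3, t4⟩ := S.s.ok.low 1 (by have := S.s.Nm; omega)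
  refine ⟨?_, ?_, ?_, ?_, ?_, ?_, ?_⟩ <;> omega

/-- a nonincreasing word is zero -/
theorem sx09_zero {n : ℕ} {f : ℕ → ℤ} (h0 : f 0 = 0) (hf : ∀ j, 1 ≤ j → j ≤ n → f j ≤ f (j - 1)) :
    ∀ j ≤ n, f j ≤ 0 := by
  have _ := S
  intro j
  induction j with
  | zero => intro _; exact h0.le
  | succ j ih =>
    intro hj
    have h2 := hf (j + 1) (by omega) hj
    have h3 := ih (by omega)
    rw [Nat.add_sub_cancel] at h2
    omega

theorem step1 : C.T0 (C.m + 1) ∧ C.a (C.m + 1) = C.q + 1 ∧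
    C.b (C.m + 1) = C.q + 1 ∧ C.c (C.m + 1) = C.q + 1 ∧ C.d (C.m + 1) = C.q + 1 := by
  have h1 := S.h1
  have hN2 := S.N2
  have hC := S.s.ok
  have hNm := S.s.Nm
  have hm := hC.hm
  have hmh := hC.hmh
  obtain ⟨b1, b2, b3, b4, b5, b6, b7, b8, b9, b10⟩ := S.s.basic
  obtain ⟨o1, o2, o3, o4, o5, o6, o7⟩ := S.sx09_one
  obtain ⟨z1, z2, z3, z4, z5, z6, z7, z8⟩ := hC.zero
  have am := hC.am
  have bm := hC.bm
  have cm := hC.cm
  have dm := hC.dm
  have am' := hC.am'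
  have bm' := hC.bm'
  have cm' := hC.cm'
  have dm' := hC.dm'
  rcases S.zrow 1 (by omega) with h | ⟨hT1, hF, hv⟩
  · refine ⟨h, ?_⟩
    obtain ⟨t1, t2, t3, t4⟩ := h
    have hmlt : C.m < C.h := by omega
    clear b3 b4
    refine ⟨?_, ?_, ?_, ?_⟩
    · have l1 := hC.a_let hmlt
      have l5 := hC.a'_let hmlt
      omega
    · have l2 := hC.b_let hmlt
      have l6 := hC.b'_let hmlt
      omega
    · have l3 := hC.c_let hmlt
      have l7 := hC.c'_let hmlt
      omega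
    · have l4 := hC.d_let hmlt
      have l8 := hC.d'_let hmlt
      omega
  · exfalso
    obtain ⟨t1, t2, t3, t4⟩ := hT1
    obtain ⟨f1, f2, f3⟩ := hF
    obtain ⟨J, hJ⟩ := S.exJ
    have hJ1 := hJ.pos
    have hJm := hJ.le
    have hbJ : ∀ j ≤ J, C.b j ≤ 0 := by
      refine S.sx09_zero z2 fun j hj1 hj => ?_
      have h2 := hC.C0b (j := j) (s := C.m + (j - 1)) (k := 1) (t := C.m) (by omega) (by omega)
        (by omega) (by omega)
      have h3 := (hJ.reg (j - 1) (by omega)).hb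
      omega
    have hbJJ := hbJ J le_rfl
    have hJlt : J < C.m := by
      rcases Nat.lt_or_ge J C.m with h | h
      · exact h
      · have : J = C.m := by omega
        rw [this] at hbJJ
        omega
    obtain ⟨hT0, g1, g2, g3⟩ := hJ.res hJlt
    have hbJ0 := hC.b_mono (i := 0) (j := J) (by omega) (by omega)
    have hJN : J < N := by
      by_contra hc
      rcases Nat.lt_or_ge N J with h | h
      · have := hC.c_mono (i := N) (j := J) (by omega) (by omega)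
        omega
      · have : J = N := by omega
        rw [this] at g1 g2 g3
        exact S.s.ev.nf ⟨g1, g2, g3⟩
    have hJ2 : 2 ≤ J := by
      by_contra hc
      have : J = 1 := by omega
      rw [this] at hT0
      have := hT0.1
      omega
    have hbc : ∀ j, 1 ≤ j → j ≤ N → C.b j ≤ C.c' (j - 1) := by
      intro j hj1 hj
      have h2 := hC.C0b (j := j) (s := C.m + 1) (k := j - 1) (t := C.m) (by omega) (by omega)
        (by omega) (by omega)
      omega
    have haN : ∀ j ≤ N - 1, C.a j ≤ 0 := by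
      refine S.sx09_zero z1 fun j hj1 hj => ?_
      have h2 := hbc j hj1 (by omega)
      obtain ⟨_, _, e3, _⟩ := hC.low (j - 1) (by omega)
      obtain ⟨k1, _, _⟩ := S.s.ev.full j (by omega)
      obtain ⟨_, k2, _⟩ := S.s.ev.full (j - 1) (by omega)
      omega
    have hA := haN (N - 1) le_rfl
    have hbN : C.b N = 0 := by
      have h2 := hbc N (by omega) le_rfl
      obtain ⟨_, _, e3, _⟩ := hC.low (N - 1) (by omega)
      obtain ⟨_, k2, _⟩ := S.s.ev.full (N - 1) (by omega)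
      omega
    -- row `m + J`
    have hr := hJ.reg (J - 1) (by omega)
    have haJ1 := haN (J - 1) (by omega)
    have haJ0 := hC.a_mono (i := 0) (j := J - 1) (by omega) (by omega)
    obtain ⟨k1, k2, k3⟩ := S.s.ev.full (J - 1) (by omega)
    have l2 := hC.b_let (i := C.m + (J - 1)) (by omega)
    have l6 := hC.b'_let (i := C.m + (J - 1)) (by omega)
    rw [show C.m + (J - 1) + 1 = C.m + J by omega] at l2 l6
    have r2 := hr.hb
    have r4 := hr.hb'
    have r6 := hT0.2.1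
    have hbmJ : C.b (C.m + J) = C.q + 1 := by
      clear b3 b4
      omega
    clear l2 l6 b3 b4
    have hm1 := hC.b_mono (i := C.m + J) (j := C.m + N) (by omega) (by omega)
    have hrN := S.rowN.hb
    omega

theorem step2 : C.b N = C.a (N - 1) + 1 := by
  have h1 := S.h1
  have hN2 := S.N2
  have hC := S.s.ok
  have hNm := S.s.Nm
  have hm := hC.hm
  have hmh := hC.hmh
  have hh := S.hh
  obtain ⟨b1, b2, b3, b4, b5, b6, b7, b8, b9, b10⟩ := S.s.basic
  obtain ⟨o1, o2, o3, o4, o5, o6, o7⟩ := S.sx09_one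
  obtain ⟨z1, z2, z3, z4, z5, z6, z7, z8⟩ := hC.zero
  obtain ⟨s1, s2, s3, s4, s5⟩ := S.step1
  have hrN := S.rowN
  have am := hC.am
  have cm := hC.cm
  have cm' := hC.cm'
  have dm' := hC.dm'
  have hT0 : C.T0 (C.m + (N - 1)) := by
    rcases S.zrow (N - 1) (by omega) with h | ⟨hT1, hF, hv⟩
    · exact h
    · exfalso
      obtain ⟨t1, t2, t3, t4⟩ := hT1
      obtain ⟨f1, f2, f3⟩ := hF
      have h2 := hC.C0b (j := N) (s := C.m + (N - 1)) (k := 1) (t := C.m) (by omega) (by omega)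
        (by omega) (by omega)
      have hbN : C.b N ≤ C.a (N - 1) := by omega
      have hr := hrN.hb
      have haN : ∀ j ≤ N - 1, C.a j ≤ 0 := by
        refine S.sx09_zero z1 fun j hj1 hj => ?_
        have h3 := hC.C0b (j := j) (s := C.m + N) (k := j - 1) (t := C.m + (N - 1)) (by omega)
          (by omega) (by omega) (by omega)
        obtain ⟨_, _, e3, _⟩ := hC.low (j - 1) (by omega)
        obtain ⟨k1, _, _⟩ := S.s.ev.full j (by omega)
        obtain ⟨_, k2, _⟩ := S.s.ev.full (j - 1) (by omega)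
        omega
      have hA := haN (N - 1) le_rfl
      have h4 := hC.a_mono (i := C.m + 1) (j := C.m + (N - 1)) (by omega) (by omega)
      omega
  obtain ⟨t1, t2, t3, t4⟩ := hT0
  have l2 := hC.b_let (i := C.m + (N - 1)) (by omega)
  have l6 := hC.b'_let (i := C.m + (N - 1)) (by omega)
  rw [show C.m + (N - 1) + 1 = C.m + N by omega] at l2 l6
  have r2 := hrN.hb
  have r4 := hrN.hb'
  have hb1 : C.b (C.m + (N - 1)) = C.q + C.b N := by omega
  obtain ⟨e1, e2, e3, e4⟩ := hC.low (N - 1) (by omega)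
  obtain ⟨k1, k2, k3⟩ := S.s.ev.full (N - 1) (by omega)
  have hw := hC.win_c' (i := N - 1) (by omega)
  rw [show N - 1 + C.m = C.m + (N - 1) by omega] at hw
  have hcs : C.c (C.m + (N - 1)) = C.q + C.a (N - 1) + 1 := by
    by_contra hne
    have hc : C.c' (C.m + (N - 1)) = C.q + C.a (N - 1) := by omega
    have u1 := C.lH_le (C.m + (N - 1))
    have u2 := C.c'_lt C.m
    have u3 := hC.lHconv.win (i := 1) (j := C.m) (w := N - 1) (by omega) (by omega)
    rw [show 1 + (N - 1) = N by omega] at u3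
    have u4 := C.lH_le 1
    have u5 := C.c'_lt N
    have u6 : C.c' N = C.a (N - 1) + 1 := by
      have := S.s.ev.t0.2.2.1
      omega
    rw [hc] at u1
    rw [cm'] at u2
    rw [o6] at u4
    rw [u6] at u5
    push_cast at u1 u2 u4 u5
    linarith
  have hBT := (hC.BT (s := C.m + (N - 1)) (by omega) (by omega) t2 t4).2
  omega

theorem step3 : N + 1 < C.m ∧ C.c (N + 1) = C.a (N - 1) + 1 := by
  have h1 := S.h1
  have hN2 := S.N2
  have hC := S.s.ok
  have hNm := S.s.Nm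
  have hm := hC.hm
  have hmh := hC.hmh
  obtain ⟨b1, b2, b3, b4, b5, b6, b7, b8, b9, b10⟩ := S.s.basic
  obtain ⟨o1, o2, o3, o4, o5, o6, o7⟩ := S.sx09_one
  have hN1 : N + 1 < C.m := by
    rcases Nat.lt_or_ge (N + 1) C.m with h | h
    · exact h
    · exfalso
      have hmN : (C.m : ℤ) = N + 1 := by omega
      rw [hmN] at b7 b8
      have e1 : C.a (N - 1) * ((N : ℤ) + 1) = C.a (N - 1) * N + C.a (N - 1) := by ring
      have e2 : (C.a (N - 1) + 1) * ((N : ℤ) + 1) = C.a (N - 1) * N + C.a (N - 1) + N + 1 := by ring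
      have e3 : (C.q + 1) * (N : ℤ) = C.q * N + N := by ring
      rw [e1] at b7
      rw [e2, e3] at b8
      omega
  refine ⟨hN1, ?_⟩
  have c1 := hC.c_mono (i := N) (j := N + 1) (by omega) (by omega)
  by_contra hne
  have hc : C.a (N - 1) + 2 ≤ C.c (N + 1) := by omega
  have hcR : ((C.a (N - 1) : ℤ) : ℝ) + 2 ≤ C.c (N + 1) := by exact_mod_cast hc
  have u1 := C.c_lt (N + 1)
  have u2 := C.lK_le 1
  have u3 := C.lK_le C.m
  have u4 := hC.lKconv.chord (i := 1) (j := N + 1) (k := C.m) (by omega) (by omega) (by omega)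
  rw [o2] at u2
  rw [hC.cm] at u3
  push_cast at u2 u4
  have hmR : ((N : ℝ) + 1) < C.m := by exact_mod_cast hN1
  have hN0 : (0 : ℝ) < N := by exact_mod_cast S.s.ev.pos
  have v1 : ((C.m : ℝ) - 1) * (C.a (N - 1) + 1) < ((C.m : ℝ) - 1) * C.lK (N + 1) := by
    apply mul_lt_mul_of_pos_left
    · linarith
    · linarith
  have v2 : ((C.m : ℝ) - (N + 1)) * C.lK 1 ≤ 0 :=
    mul_nonpos_of_nonneg_of_nonpos (by linarith) u2
  have v3 : ((N : ℝ) + 1 - 1) * C.lK C.m ≤ N * C.q := by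
    rw [add_sub_cancel_right]
    exact mul_le_mul_of_nonneg_left u3 hN0.le
  have v4 : ((C.m : ℝ) - 1) * (C.a (N - 1) + 1) < N * C.q := by linarith
  have v5 : ((C.m : ℤ) - 1) * (C.a (N - 1) + 1) < N * C.q := by exact_mod_cast v4
  have e1 : ((C.m : ℤ) - 1) * (C.a (N - 1) + 1) = (C.a (N - 1) + 1) * C.m - C.a (N - 1) - 1 := by ring
  have e3 : (C.q + 1) * (N : ℤ) = N * C.q + N := by ring
  rw [e1] at v5
  rw [e3] at b8
  omega

end Cd.S102

end Pool.Agent.Lib.MP_bb0bab_co
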