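import Pool.Agent.Lib.MP_bb0bab_co.SXDefs

/-!
# MP_bb0bab_co, N < m, L = 2, M = 1: definitions

Text: /team-store/BB_SEC11.md, 11.5 and 11.6 (changes to section 10 for `L = 2`).
-/

namespace Pool.Agent.Lib.MP_bb0bab_co

open LaurentPolynomial

/-- evaluation at `x = -1` -/
noncomputable def evm : LaurentPolynomial ℤ →+* ℤ :=
  LaurentPolynomial.eval₂ (RingHom.id ℤ) (-1)

namespace Cd

variable (C : Cd)

/-- standing hypotheses: `L = 2`, `M = 1`, `N < m` (row `N` of `G` empty or not) -/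
structure Q2 (N : ℕ) : Prop where
  ok : C.Ok
  M1 : C.M = 1
  L2 : C.L = 2
  ev : C.Ev N
  Nm : N < C.m

/-- the exotic row X1 at `m + j`: rows `j - 1`, `j` are full with the same value `a j`, `W = q + a j`:
`H = {W+1}`, `K = [W+1, W+3]`, `G = {W+1}`, `G' = {W+1, W+2}` -/
structure X1 (j : ℕ) : Prop where
  fj : C.Full j
  fj' : C.Full (j - 1)
  ej : C.a (j - 1) = C.a j
  ha : C.a (C.m + j) = C.q + C.a j + 1
  hb : C.b (C.m + j) = C.q + C.a j
  hc : C.c (C.m + j) = C.q + C.a j + 1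
  hd : C.d (C.m + j) = C.q + C.a j + 1
  ha' : C.a' (C.m + j) = C.q + C.a j + 1
  hb' : C.b' (C.m + j) = C.q + C.a j + 2
  hc' : C.c' (C.m + j) = C.q + C.a j + 1
  hd' : C.d' (C.m + j) = C.q + C.a j + 2

/-- the exotic row X2 (mirror of X1): rows `j - 1`, `j` are full with values `a j - 1`, `a j`, `W = q + a j` -/
structure X2 (j : ℕ) : Prop where
  fj : C.Full j
  fj' : C.Full (j - 1)
  ej : C.a (j - 1) = C.a j - 1
  ha : C.a (C.m + j) = C.q + C.a j - 1
  hb : C.b (C.m + j) = C.q + C.a j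
  hc : C.c (C.m + j) = C.q + C.a j - 1
  hd : C.d (C.m + j) = C.q + C.a j
  ha' : C.a' (C.m + j) = C.q + C.a j + 1
  hb' : C.b' (C.m + j) = C.q + C.a j
  hc' : C.c' (C.m + j) = C.q + C.a j
  hd' : C.d' (C.m + j) = C.q + C.a j

/-- weak form of `IsJ` (all `L ≥ 2`): `J` is the first non-regular row, or `m` if there is none;
row `J` is full, and row `m + J` is T0 or row `J - 1` is full, too -/
structure IsJw (J : ℕ) : Prop where
  pos : 1 ≤ J
  le : J ≤ C.m
  reg : ∀ i < J, C.Reg i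
  full : J < C.m → C.Full J
  alt : J < C.m → C.T0 (C.m + J) ∨ C.Full (J - 1)

end Cd

end Pool.Agent.Lib.MP_bb0bab_co
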