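import Pool.Agent.Lib.MP_bb0bab_co.SX00
import Pool.Agent.Lib.MP_bb0bab_co.SX01
import Pool.Agent.Lib.MP_bb0bab_co.SX02
import Pool.Agent.Lib.MP_bb0bab_co.TLDefs

/-!
# SX20a (10.4, all L ≥ 2): general inequalities
-/

namespace Pool.Agent.Lib.MP_bb0bab_co

open LaurentPolynomial

namespace Cd.Ok

variable {C : Cd} (hC : C.Ok)

include hC

/-- a short window of `bH` with increment `< 1` bounds `q` from above -/
theorem q_lt_of_win {i l : ℕ} (hl : 0 < l) (hlm : l ≤ C.m) (hi : i + C.m ≤ C.h)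
    (hw : C.bH (i + l) - C.bH i < 1) : C.q * l < C.m := by
  have h1 := hC.W_b (i := i) (k := C.m - l) (l := l) (by omega)
  have e1 : C.m - l + l = C.m := by omega
  rw [e1] at h1
  have hmh := hC.hmh
  have h2 := hC.lHconv.chord (i := 0) (j := C.m - l) (k := C.m) (by omega) (by omega) (by omega)
  have h0 := hC.top0.2.2.1
  rw [h0] at h2
  have h3 : (C.c' C.m : ℝ) < C.lH C.m + 1 := C.c'_lt _
  rw [hC.cm'] at h3
  push_cast [Nat.cast_sub hlm] at h2 h3
  have hl' : (0 : ℝ) < l := by exact_mod_cast hl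
  have hm' : (0 : ℝ) < C.m := by exact_mod_cast hC.hm
  have h4 : (l : ℝ) * C.lH C.m < C.m := by nlinarith
  have h5 : (C.q : ℝ) * l < C.m := by nlinarith
  exact_mod_cast h5

/-- basic facts for `N = 1` -/
theorem basic1 (h1 : C.c 1 = 1) (h2 : C.d 1 = 0) (hm : 1 < C.m) : 1 ≤ C.q ∧ C.q + 1 < C.m := by
  have hmh := hC.hmh
  have hm' : (1 : ℝ) < C.m := by exact_mod_cast hm
  obtain ⟨-, -, hc1, hd1⟩ := hC.low 1 hm
  constructor
  · have h3 := hC.lKconv.chord (i := 0) (j := 1) (k := C.m) (by omega) (by omega) (by omega)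
    rw [hC.top0.1] at h3
    have h4 : C.lK C.m ≤ C.c C.m := C.lK_le _
    rw [hC.cm] at h4
    have h5 : (C.c 1 : ℝ) < C.lK 1 + 1 := C.c_lt _
    rw [h1] at h5
    push_cast at h3 h5
    have h6 : (0 : ℝ) < C.q := by nlinarith
    exact_mod_cast h6
  · have h3 := hC.rHconc.chord (i := 0) (j := 1) (k := C.m) (by omega) (by omega) (by omega)
    rw [hC.top0.2.2.2] at h3
    have h4 : (C.d' C.m : ℝ) ≤ C.rH C.m := C.d'_le _
    rw [hC.dm'] at h4
    have h5 : C.rH 1 < C.d' 1 + 1 := C.rH_lt _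
    rw [hd1, h2] at h5
    push_cast at h3 h4 h5
    have h6 : (C.q : ℝ) + 1 < C.m := by nlinarith
    exact_mod_cast h6

end Cd.Ok

end Pool.Agent.Lib.MP_bb0bab_co
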