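import Pool.Agent.Lib.MP_bb0bab_co.SX20a
import Pool.Agent.Lib.MP_bb0bab_co.TL04
import Pool.Agent.Lib.MP_bb0bab_co.SX06

/-!
# SX20b (10.4, all L ≥ 2): the numbers `p = q`, `K`, `n1`, `A0`, `B0`
-/

namespace Pool.Agent.Lib.MP_bb0bab_co

open LaurentPolynomial

namespace Cd

/-- hypotheses of 10.4: `N = 1`, `(a 1, b 1) = (0, 0)` -/
structure P00 (C : Cd) (J : ℕ) : Prop where
  ok : C.Ok
  M1 : C.M = 1
  L2 : 2 ≤ C.L
  m1 : 1 < C.m
  c1 : C.c 1 = 1
  d1 : C.d 1 = 0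
  a1 : C.a 1 = 0
  b1 : C.b 1 = 0
  jw : C.IsJw J

/-- the numbers of 10.4 (i) -/
structure P00K (C : Cd) (p K : ℕ) : Prop where
  q : C.q = p
  p1 : 1 ≤ p
  K1 : 1 ≤ K
  le : K * (p + 1) ≤ C.m
  lt : p * (K + 1) < C.m
  up : C.m < (K + 1) * (p + 1)

namespace P00

variable {C : Cd} {J : ℕ} (S : C.P00 J)

include S

theorem J2 : 2 ≤ J := by
  by_contra hcon
  have h1 := S.jw.pos
  have hJ : J = 1 := by omega
  have hf := S.jw.full (by rw [hJ]; exact S.m1)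
  rw [hJ] at hf
  have h2 := hf.2.1
  rw [S.c1, S.a1] at h2
  omega

theorem r1 : C.Reg 1 := S.jw.reg 1 (by have := S.J2; omega)

theorem hh : 2 * (C.m + J) ≤ C.h + 1 := S.jw.hh S.ok S.M1 S.L2

theorem exists_K : ∃ p K : ℕ, C.P00K p K := by
  have hC := S.ok
  obtain ⟨hq, hqm⟩ := hC.basic1 S.c1 S.d1 S.m1
  obtain ⟨p, hp⟩ := Int.eq_ofNat_of_zero_le (by omega : 0 ≤ C.q)
  have hpm : p + 1 < C.m := by
    have : (p : ℤ) + 1 < C.m := by rw [← hp]; exact hqm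
    exact_mod_cast this
  have hp1 : 1 ≤ p := by
    have : (1 : ℤ) ≤ p := by rw [← hp]; exact hq
    exact_mod_cast this
  refine ⟨p, C.m / (p + 1), hp, hp1, ?_, ?_, ?_, ?_⟩
  · exact Nat.div_pos (by omega) (by omega)
  · exact Nat.div_mul_le_self _ _
  · set K := C.m / (p + 1) with hK
    have hK1 : 1 ≤ K := Nat.div_pos (by omega) (by omega)
    have hKle : K * (p + 1) ≤ C.m := Nat.div_mul_le_self _ _
    have hKm : K + 1 ≤ C.m := by nlinarith
    have hmh := hC.hmh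
    have h3 := hC.full_q (k := K) hK1 (by omega) (by rw [hp]; exact_mod_cast hKle)
    have h4 := hC.q_lt_of_win (i := C.m - K) (l := K + 1) (by omega) hKm (by omega) (by
      have e1 : C.m - K + (K + 1) = C.m + 1 := by omega
      rw [e1]
      have h5 : C.bH (C.m + 1) < C.b (C.m + 1) + 1 := C.bH_lt _
      have h6 : (C.b (C.m - K) : ℝ) ≤ C.bH (C.m - K) := C.b_le _
      rw [S.r1.hb, S.b1] at h5
      rw [h3.2.1] at h6
      push_cast at h5
      linarith)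
    rw [hp] at h4
    exact_mod_cast h4
  · have h1 := Nat.lt_div_mul_add (a := C.m) (b := p + 1) (by omega)
    nlinarith

end P00

namespace P00K

variable {C : Cd} {J p K : ℕ} (T : C.P00K p K) (S : C.P00 J)

include T

theorem km : K + 1 < C.m := by
  have h1 := T.p1
  have h2 := T.lt
  nlinarith

theorem two_K : 2 * K ≤ C.m := by
  have h1 := T.p1
  have h2 := T.le
  nlinarith

include S

/-- rows `1 ≤ j ≤ K + 1` have words in `{0,1}`, `c = 1` -/
theorem words {j : ℕ} (h1 : 1 ≤ j) (h2 : j ≤ K + 1) :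
    0 ≤ C.a j ∧ C.a j ≤ 1 ∧ 0 ≤ C.b j ∧ C.b j ≤ 1 ∧ C.c j = 1 ∧ 0 ≤ C.d j ∧ C.d j ≤ 1 := by
  have hC := S.ok
  have hkm := T.km
  have hlt := T.lt
  have hu := hC.up (j := j) (by omega) (z := 1) (by
    rw [T.q]
    have : p * j ≤ C.m * 1 := by nlinarith
    exact_mod_cast this)
  have hd := hC.dn (j := j) (by omega) (w := 0) (by
    rw [T.q]
    have : 0 ≤ ((p : ℤ) + 1) * j := by positivity
    linarith)
  have hmh := hC.hmh
  have hc := (hC.c_mono (i := 1) (j := j) h1 (by omega)).1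
  rw [S.c1] at hc
  exact ⟨hd.1, hu.1, hd.2.1, hu.2.1, by omega, hd.2.2.2, hu.2.2.2⟩

/-- row `K + 1` is full with value 1 -/
theorem fullK : C.a (K + 1) = 1 ∧ C.b (K + 1) = 1 ∧ C.c (K + 1) = 1 ∧ C.d (K + 1) = 1 := by
  have hC := S.ok
  have hkm := T.km
  have hlt := T.lt
  have hup := T.up
  exact hC.full_val (j := K + 1) (by omega) (z := 1) (by
    rw [T.q]
    have : p * (K + 1) ≤ C.m * 1 := by nlinarith
    exact_mod_cast this) (by
    rw [T.q]
    have : C.m * 1 ≤ (p + 1) * (K + 1) := by nlinarith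
    exact_mod_cast this)

/-- rows `m - k`, `1 ≤ k ≤ K` -/
theorem fullQ {k : ℕ} (h1 : 1 ≤ k) (h2 : k ≤ K) :
    C.a (C.m - k) = p ∧ C.b (C.m - k) = p ∧ C.c (C.m - k) = p ∧ C.d (C.m - k) = p := by
  have hC := S.ok
  have hle := T.le
  have h3 := T.two_K
  have h4 := hC.full_q (k := k) h1 (by omega) (by
    rw [T.q]
    have : k * (p + 1) ≤ C.m := by nlinarith
    exact_mod_cast this)
  rw [T.q] at h4
  exact h4

end P00K

/-- the first nonempty top row `n`, and the last zeros `A`, `B` of `a`, `b` -/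
structure P00N (C : Cd) (J K n A B : ℕ) : Prop where
  n2 : 2 ≤ n
  nK : n ≤ K + 1
  nJ : n ≤ J
  emp : ∀ j, 1 ≤ j → j < n → C.c j = 1 ∧ C.d j = 0
  an : C.a n = 1
  bn : C.b n = 1
  cn : C.c n = 1
  dn : C.d n = 1
  A1 : 1 ≤ A
  An : A < n
  A0 : C.a A = 0
  A1' : C.a (A + 1) = 1
  B1 : 1 ≤ B
  Bn : B < n
  B0 : C.b B = 0
  B1' : C.b (B + 1) = 1
  nA : n ≤ A + 2

theorem exists_last {f : ℕ → ℤ} {n : ℕ} (hn : 2 ≤ n) (h1 : f 1 = 0) (h2 : f n = 1)
    (h : ∀ j, 1 ≤ j → j ≤ n → 0 ≤ f j ∧ f j ≤ 1) :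
    ∃ A, 1 ≤ A ∧ A < n ∧ f A = 0 ∧ f (A + 1) = 1 := by
  induction n, hn using Nat.le_induction with
  | base => exact ⟨1, le_rfl, by omega, h1, h2⟩
  | succ n hn ih =>
    by_cases hfn : f n = 1
    · obtain ⟨A, hA1, hA2, hA3, hA4⟩ := ih hfn (fun j hj1 hj2 => h j hj1 (by omega))
      exact ⟨A, hA1, by omega, hA3, hA4⟩
    · have := h n (by omega) (by omega)
      exact ⟨n, by omega, by omega, by omega, h2⟩

theorem P00.exists_n {C : Cd} {J : ℕ} (S : C.P00 J) {p K : ℕ} (T : C.P00K p K) :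
    ∃ n A B : ℕ, C.P00N J K n A B := by
  classical
  have hC := S.ok
  have hkm := T.km
  have hmh := hC.hmh
  have hK := T.fullK S
  have hex : ∃ j, 1 ≤ j ∧ C.c j = C.d j := ⟨K + 1, by omega, by rw [hK.2.2.1, hK.2.2.2]⟩
  obtain ⟨hn1, hn2⟩ := Nat.find_spec hex
  have hmin : ∀ j < Nat.find hex, ¬ (1 ≤ j ∧ C.c j = C.d j) := fun j hj => Nat.find_min hex hj
  set n := Nat.find hex with hn
  have hnK : n ≤ K + 1 := Nat.find_min' hex ⟨by omega, by rw [hK.2.2.1, hK.2.2.2]⟩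
  have hn2' : 2 ≤ n := by
    by_contra hcon
    have : n = 1 := by omega
    rw [this, S.c1, S.d1] at hn2
    omega
  have hJ2 := S.J2
  have hnJ : n ≤ J := by
    rcases lt_or_ge J C.m with hJ | hJ
    · have hf := S.jw.full hJ
      exact Nat.find_min' hex ⟨by omega, by rw [hf.2.1, hf.2.2]⟩
    · omega
  have hemp : ∀ j, 1 ≤ j → j < n → C.c j = 1 ∧ C.d j = 0 := by
    intro j hj1 hj2
    have h1 := T.words S hj1 (by omega : j ≤ K + 1)
    have h2 := hmin j hj2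
    refine ⟨h1.2.2.2.2.1, ?_⟩
    have h3 : C.c j ≠ C.d j := fun h => h2 ⟨hj1, h⟩
    omega
  have hwn := T.words S (by omega : 1 ≤ n) hnK
  have hfull : C.Full n := by
    rcases Nat.lt_or_ge n J with hlt | hge
    · exact hC.reg_full S.M1 (by omega) (S.jw.reg n hlt) hn2
    · have : n = J := by omega
      rw [this]
      exact S.jw.full (by omega)
  obtain ⟨hf1, hf2, hf3⟩ := hfull
  have hcn : C.c n = 1 := hwn.2.2.2.2.1
  have han : C.a n = 1 := by omega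
  have hbn : C.b n = 1 := by omega
  obtain ⟨A, hA1, hA2, hA3, hA4⟩ := exists_last (f := C.a) hn2' S.a1 han
    (fun j hj1 hj2 => by have := T.words S hj1 (by omega : j ≤ K + 1); exact ⟨this.1, this.2.1⟩)
  obtain ⟨B, hB1, hB2, hB3, hB4⟩ := exists_last (f := C.b) hn2' S.b1 hbn
    (fun j hj1 hj2 => by
      have := T.words S hj1 (by omega : j ≤ K + 1); exact ⟨this.2.2.1, this.2.2.2.1⟩)
  refine ⟨n, A, B, hn2', hnK, hnJ, hemp, han, hbn, hcn, by omega, hA1, hA2, hA3, hA4,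
    hB1, hB2, hB3, hB4, ?_⟩
  -- (C1)
  by_contra hcon
  have hA : A + 1 ≤ n - 2 := by omega
  have hreg := S.jw.reg (A + 1) (by omega)
  have hq1 := T.fullQ S (k := 1) le_rfl T.K1
  have h1 := hC.C0a (j := C.m - 1) (s := C.m + (A + 1)) (k := 0) (t := A + 2)
    (by rw [hreg.ha', hreg.ha]) ((hC.low (C.m - 1) (by omega)).1) (by omega) (by omega) (by omega)
  rw [hC.zero.2.2.2.1, hreg.ha, hA4, hq1.1, (hemp (A + 2) (by omega) (by omega)).2, T.q] at h1
  omega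

end Cd

end Pool.Agent.Lib.MP_bb0bab_co
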