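import Pool.Agent.Lib.MP_bb0bab_co.SX20b

/-!
# SX20c (10.4, all L ≥ 2): (ii-a), (ii-b), CASE T (`n < J`) reduces to `m = 2q + 1`
-/

namespace Pool.Agent.Lib.MP_bb0bab_co

open LaurentPolynomial

namespace Cd.P00N

variable {C : Cd} {J p K n A B : ℕ} (U : C.P00N J K n A B) (T : C.P00K p K) (S : C.P00 J)

include U T S

theorem regA : C.Reg A := S.jw.reg A (by have := U.nJ; have := U.An; omega)

theorem regB : C.Reg B := S.jw.reg B (by have := U.nJ; have := U.Bn; omega)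

/-- (ii-b) -/
theorem iib : p * (K + B) < C.m := by
  have hC := S.ok
  have hmh := hC.hmh
  have h2K := T.two_K
  have hK1 := T.K1
  have hnK := U.nK
  have hBn := U.Bn
  have hB1 := U.B1
  have h3 := T.fullQ S (k := K) hK1 le_rfl
  have h4 := hC.q_lt_of_win (i := C.m - K) (l := K + B) (by omega) (by omega) (by omega) (by
    have e1 : C.m - K + (K + B) = C.m + B := by omega
    rw [e1]
    have h5 : C.bH (C.m + B) < C.b (C.m + B) + 1 := C.bH_lt _
    have h6 : (C.b (C.m - K) : ℝ) ≤ C.bH (C.m - K) := C.b_le _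
    rw [(U.regB T S).hb, U.B0, T.q] at h5
    rw [h3.2.1] at h6
    push_cast at h5 h6
    linarith)
  rw [T.q] at h4
  exact_mod_cast h4

/-- (ii-a) -/
theorem iia : p * (K + A) < C.m := by
  have hC := S.ok
  have hmh := hC.hmh
  have h2K := T.two_K
  have hK1 := T.K1
  have hnK := U.nK
  have hAn := U.An
  have hA1 := U.A1
  have hp1 := T.p1
  have h3 := T.fullQ S (k := K) hK1 le_rfl
  have h4 := hC.aHconv.chord (i := A) (j := C.m - K) (k := C.m + A) (by omega) (by omega) (by omega)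
  have h5 : C.aH A ≤ C.a A := C.aH_le _
  have h6 : C.aH (C.m + A) ≤ C.a (C.m + A) := C.aH_le _
  have h7 : (C.a (C.m - K) : ℝ) < C.aH (C.m - K) + 1 := C.a_lt _
  rw [U.A0] at h5
  rw [(U.regA T S).ha, U.A0, T.q] at h6
  rw [h3.1] at h7
  have hKm : K ≤ C.m := by omega
  push_cast [Nat.cast_sub hKm] at h4 h5 h6 h7
  have hc1 : (0 : ℝ) ≤ (C.m : ℝ) - K - A := by
    have : K + A ≤ C.m := by omega
    have : (K : ℝ) + A ≤ C.m := by exact_mod_cast this
    linarith
  have hc2 : (0 : ℝ) < C.m := by exact_mod_cast hC.hm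
  have hc3 : (0 : ℝ) ≤ (K : ℝ) + A := by positivity
  have e1 : (C.m : ℝ) + A - (C.m - K) = K + A := by ring
  have e2 : (C.m : ℝ) + A - A = C.m := by ring
  rw [e1, e2] at h4
  have h8 : ((K : ℝ) + A) * C.aH A ≤ 0 := mul_nonpos_of_nonneg_of_nonpos hc3 (by linarith)
  have h9 : ((C.m : ℝ) - K - A) * C.aH (C.m + A) ≤ ((C.m : ℝ) - K - A) * p :=
    mul_le_mul_of_nonneg_left (by linarith) hc1
  have h10 : (C.m : ℝ) * ((p : ℝ) - 1) < (C.m : ℝ) * C.aH (C.m - K) :=
    mul_lt_mul_of_pos_left (by linarith) hc2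
  have h11 : (p : ℝ) * (K + A) < C.m := by nlinarith
  exact_mod_cast h11

/-- CASE T: `n < J` -/
theorem caseT (hT : n < J) : n = K + 1 ∧ C.m ≤ p * (K + 2) ∧ A = 1 ∧ B = 1 ∧ K ≤ 2 := by
  have hC := S.ok
  have hmh := hC.hmh
  have hh := S.hh
  have h2K := T.two_K
  have hkm := T.km
  have hK1 := T.K1
  have hnK := U.nK
  have hn2 := U.n2
  have hBn := U.Bn
  have hB1 := U.B1
  have hA1 := U.A1
  have hp1 := T.p1
  have hJm := S.jw.le
  have hrn := S.jw.reg n hT
  have hiia := U.iia T S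
  have hiib := U.iib T S
  have hnA := U.nA
  -- lH (m+n) > q+1
  have h1 : (C.c' (C.m + n) : ℝ) < C.lH (C.m + n) + 1 := C.c'_lt _
  rw [hrn.hc', U.dn, T.q] at h1
  have h2 : (C.b (B + 1) : ℝ) ≤ C.bH (B + 1) := C.b_le _
  rw [U.B1'] at h2
  have h3 : C.bH (C.m + B) < C.b (C.m + B) + 1 := C.bH_lt _
  rw [(U.regB T S).hb, U.B0, T.q] at h3
  push_cast at h1 h2 h3
  have hnK' : n = K + 1 := by
    by_contra hcon
    have hlt : n + 1 ≤ K + 1 := by omega
    have h4 := hC.W_b (i := B + 1) (k := n + 1) (l := C.m - 1) (by omega)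
    have e1 : n + 1 + (C.m - 1) = C.m + n := by omega
    have e2 : B + 1 + (C.m - 1) = C.m + B := by omega
    rw [e1, e2] at h4
    have h5 : C.lH (n + 1) ≤ C.c' (n + 1) := C.lH_le _
    have h6 := T.words S (by omega : 1 ≤ n + 1) hlt
    obtain ⟨-, -, h7, -⟩ := hC.low (n + 1) (by omega)
    rw [h7, h6.2.2.2.2.1] at h5
    push_cast at h5
    linarith
  -- slopes
  have h4 := hC.S_b (i := B + 1) (i' := C.m + B) (k := 0) (k' := C.m + n) (by omega) (by omega)
    (by omega) (by omega)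
  rw [hC.top0.2.2.1] at h4
  push_cast at h4
  have hc1 : (1 : ℝ) < C.m := by exact_mod_cast S.m1
  have e3 : (C.m : ℝ) + B - (B + 1) = C.m - 1 := by ring
  have e4 : (C.m : ℝ) + n - 0 = C.m + n := by ring
  rw [e3, sub_zero, e4] at h4
  have h5 : ((p : ℝ) + 1) * (C.m - 1) < C.lH (C.m + n) * (C.m - 1) :=
    mul_lt_mul_of_pos_right (by linarith) (by linarith)
  have h6 : (C.bH (C.m + B) - C.bH (B + 1)) * ((C.m : ℝ) + n) < p * ((C.m : ℝ) + n) :=
    mul_lt_mul_of_pos_right (by linarith) (by positivity)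
  have h7 : ((p : ℝ) + 1) * (C.m - 1) < p * ((C.m : ℝ) + n) := by linarith
  have h8 : (C.m : ℝ) < p * (n + 1) + 1 := by nlinarith
  have h9 : C.m < p * (n + 1) + 1 := by exact_mod_cast h8
  have hmle : C.m ≤ p * (K + 2) := by
    rw [hnK'] at h9
    have e5 : K + 1 + 1 = K + 2 := rfl
    rw [e5] at h9
    omega
  have hA : A = 1 := by
    by_contra hcon
    have : 2 ≤ A := by omega
    have : p * (K + 2) ≤ p * (K + A) := Nat.mul_le_mul_left _ (by omega)
    omega
  have hB : B = 1 := by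
    by_contra hcon
    have : 2 ≤ B := by omega
    have : p * (K + 2) ≤ p * (K + B) := Nat.mul_le_mul_left _ (by omega)
    omega
  exact ⟨hnK', hmle, hA, hB, by omega⟩

/-- CASE T, `K = 2` is impossible -/
theorem caseT_K1 (hT : n < J) : K = 1 ∧ n = 2 ∧ C.m = 2 * p + 1 := by
  obtain ⟨hn, hm, hA, hB, hK⟩ := U.caseT T S hT
  have hC := S.ok
  have hmh := hC.hmh
  have hK1 := T.K1
  have hp1 := T.p1
  have hJm := S.jw.le
  have hle := T.le
  have hlt := T.lt
  have hup := T.up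
  rcases (by omega : K = 1 ∨ K = 2) with h | h
  · subst h
    exact ⟨rfl, hn, by omega⟩
  · exfalso
    subst h
    subst hA
    have hn3 : n = 3 := hn
    subst hn3
    have hm6 : 4 ≤ C.m := by omega
    have hr3 := S.jw.reg 3 hT
    have hr2 := S.jw.reg 2 (by omega)
    have h1 := hC.C0a (j := C.m - 3) (s := C.m + 2) (k := C.m - 2) (t := C.m + 3)
      (by rw [hr2.ha', hr2.ha]) ((hC.low (C.m - 3) (by omega)).1) (by omega) (by omega) (by omega)
    have hq2 := T.fullQ S (k := 2) (by omega) le_rfl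
    rw [hq2.2.2.2, hr2.ha, hr3.hd, U.A1', U.cn, T.q] at h1
    have h2 : (p : ℤ) ≤ C.a (C.m - 3) := by linarith
    have h3 := hC.aHconv.chord (i := 1) (j := C.m - 3) (k := C.m + 1) (by omega) (by omega)
      (by omega)
    have h4 : C.aH 1 ≤ C.a 1 := C.aH_le _
    have h5 : C.aH (C.m + 1) ≤ C.a (C.m + 1) := C.aH_le _
    have h6 : (C.a (C.m - 3) : ℝ) < C.aH (C.m - 3) + 1 := C.a_lt _
    rw [S.a1] at h4
    rw [S.r1.ha, S.a1, T.q] at h5
    have h2' : (p : ℝ) ≤ C.a (C.m - 3) := by exact_mod_cast h2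
    have h3m : 3 ≤ C.m := by omega
    push_cast [Nat.cast_sub h3m] at h3 h4 h5
    have hc4 : (4 : ℝ) ≤ C.m := by exact_mod_cast hm6
    have hmR : (C.m : ℝ) ≤ p * (2 + 2) := by exact_mod_cast hm
    have e1 : (C.m : ℝ) + 1 - (C.m - 3) = 4 := by ring
    have e2 : (C.m : ℝ) + 1 - 1 = C.m := by ring
    have e3 : (C.m : ℝ) - 3 - 1 = C.m - 4 := by ring
    rw [e1, e2, e3] at h3
    have h7 : ((C.m : ℝ) - 4) * C.aH (C.m + 1) ≤ (C.m - 4) * p :=
      mul_le_mul_of_nonneg_left (by linarith) (by linarith)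
    have h8 : (C.m : ℝ) * ((p : ℝ) - 1) < C.m * C.aH (C.m - 3) :=
      mul_lt_mul_of_pos_left (by linarith) (by linarith)
    nlinarith

end Cd.P00N

end Pool.Agent.Lib.MP_bb0bab_co
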