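import Pool.Agent.Lib.MP_bb0bab_co.SX20c

/-!
# SX20d (10.4, all L ≥ 2): CASE T, `m = 2 p + 1`
-/

namespace Pool.Agent.Lib.MP_bb0bab_co

open LaurentPolynomial

namespace Cd

/-- the situation `m = 2 p + 1`, `q = p`, rows 1 and 2 regular, row 2 full -/
structure P00T (C : Cd) (J p : ℕ) : Prop where
  s : C.P00 J
  q : C.q = p
  p1 : 1 ≤ p
  m : C.m = 2 * p + 1
  r2 : C.Reg 2
  c2 : C.c 2 = 1
  J3 : 3 ≤ J

namespace P00T

variable {C : Cd} {J p : ℕ} (S : C.P00T J p)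

include S

theorem even_row {t : ℕ} (ht : 2 * t < C.m) :
    C.a (2 * t) = t ∧ C.b (2 * t) = t ∧ C.c (2 * t) = t ∧ C.d (2 * t) = t := by
  have hm := S.m
  refine S.s.ok.full_val ht (z := t) ?_ ?_
  · rw [S.q]
    have : p * (2 * t) ≤ C.m * t := by rw [hm]; nlinarith
    exact_mod_cast this
  · rw [S.q]
    have : C.m * t ≤ (p + 1) * (2 * t) := by rw [hm]; nlinarith
    exact_mod_cast this

theorem aH_odd {y : ℕ} (h1 : 1 ≤ y) (h2 : y ≤ C.m + 1) :
    (C.m : ℝ) * C.aH y ≤ ((y : ℝ) - 1) * p := by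
  have hC := S.s.ok
  have hmh := hC.hmh
  have hm := S.m
  have h3 := hC.aHconv.chord (i := 1) (j := y) (k := C.m + 1) h1 h2 (by omega)
  have h4 : C.aH 1 ≤ C.a 1 := C.aH_le _
  have h5 : C.aH (C.m + 1) ≤ C.a (C.m + 1) := C.aH_le _
  rw [S.s.a1] at h4
  rw [S.s.r1.ha, S.s.a1, S.q] at h5
  push_cast at h3 h4 h5
  have h1' : (1 : ℝ) ≤ y := by exact_mod_cast h1
  have h2' : (y : ℝ) ≤ C.m + 1 := by exact_mod_cast h2
  have h6 : ((C.m : ℝ) + 1 - y) * C.aH 1 ≤ 0 :=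
    mul_nonpos_of_nonneg_of_nonpos (by linarith) (by linarith)
  have h7 : ((y : ℝ) - 1) * C.aH (C.m + 1) ≤ (y - 1) * p :=
    mul_le_mul_of_nonneg_left (by linarith) (by linarith)
  have e : (C.m : ℝ) + 1 - 1 = C.m := by ring
  rw [e] at h3
  linarith

theorem odd_row {t : ℕ} (ht : 2 * t + 1 < C.m) :
    C.a (2 * t + 1) = t ∧ C.b (2 * t + 1) = t ∧ C.c (2 * t + 1) = t + 1 ∧ C.d (2 * t + 1) = t := by
  have hC := S.s.ok
  have hmh := hC.hmh
  have hm := S.m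
  have hp1 := S.p1
  have hd := hC.dn ht (w := t) (by
    rw [S.q]
    have : C.m * t ≤ (p + 1) * (2 * t + 1) := by rw [hm]; nlinarith
    exact_mod_cast this)
  have hu := hC.up ht (z := t + 1) (by
    rw [S.q]
    have : p * (2 * t + 1) ≤ C.m * (t + 1) := by rw [hm]; nlinarith
    exact_mod_cast this)
  have hlo := hC.lo ht
  -- a
  have h1 := S.aH_odd (y := 2 * t + 1) (by omega) (by omega)
  have hmR : (C.m : ℝ) = 2 * p + 1 := by rw [hm]; push_cast; ring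
  have hpR : (1 : ℝ) ≤ p := by exact_mod_cast hp1
  have htR : (0 : ℝ) ≤ t := by positivity
  have h2 : C.aH (2 * t + 1) ≤ ((t : ℤ) : ℝ) := by
    push_cast at h1 ⊢
    rw [hmR] at h1
    by_contra hcon
    have h3 : (t : ℝ) < C.aH (2 * t + 1) := not_le.1 hcon
    have h4 : ((2 : ℝ) * p + 1) * t < (2 * p + 1) * C.aH (2 * t + 1) :=
      mul_lt_mul_of_pos_left h3 (by linarith)
    nlinarith
  have ha := C.a_le_of h2
  -- b
  have h3 := hC.C0b (j := 2 * t + 1) (s := C.m + 1) (k := 2 * t) (t := C.m)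
    (by rw [hC.cm', hC.cm]) (by omega) (by omega) (by omega)
  obtain ⟨-, -, h4, -⟩ := hC.low (2 * t) (by omega)
  have he := S.even_row (t := t) (by omega)
  rw [hC.cm, S.s.r1.hb, S.s.b1, h4, he.2.2.1] at h3
  -- c
  have h5 := hC.C0b (j := 2 * t) (s := C.m + 1) (k := 2 * t + 1) (t := C.m + 2)
    (by rw [S.r2.hc', S.r2.hc, S.c2]; have := (S.even_row (t := 1) (by omega)).2.2.2
        rw [show (2 * 1 : ℕ) = 2 from rfl] at this; rw [this]; push_cast; ring) (by omega) (by omega)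
    (by omega)
  obtain ⟨-, -, h6, -⟩ := hC.low (2 * t + 1) ht
  rw [S.r2.hc, S.c2, S.s.r1.hb, S.s.b1, h6, he.2.1] at h5
  refine ⟨by omega, by omega, by omega, by omega⟩

theorem aK_gt {y : ℕ} (h1 : C.m ≤ y) (h2 : y ≤ C.h) : ((y : ℝ) - 1) < 2 * C.aK y := by
  have hC := S.s.ok
  have hmh := hC.hmh
  have hm := S.m
  have hm1 := S.s.m1
  have h3 := hC.aKconv.slope (i := 1) (i' := C.m) (j := C.m) (j' := y) (by omega) h1 (by omega) h1 h2
  have h4 : C.aK 1 ≤ C.a' 1 := C.aK_le _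
  obtain ⟨h5, -⟩ := hC.low 1 (by omega)
  rw [h5, S.s.a1] at h4
  have h6 : (C.a' C.m : ℝ) < C.aK C.m + 1 := C.a'_lt _
  rw [hC.am', S.q] at h6
  have hmR : (C.m : ℝ) = 2 * p + 1 := by rw [hm]; push_cast; ring
  have hpR : (1 : ℝ) ≤ p := by exact_mod_cast S.p1
  have h1' : (C.m : ℝ) ≤ y := by exact_mod_cast h1
  push_cast at h3 h4 h6
  rw [hmR] at h3 h1' 
  have e : (2 : ℝ) * p + 1 - 1 = 2 * p := by ring
  rw [e] at h3
  have h7 : (p : ℝ) * ((y : ℝ) - (2 * p + 1)) ≤ (C.aK C.m - C.aK 1) * ((y : ℝ) - (2 * p + 1)) :=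
    mul_le_mul_of_nonneg_right (by linarith) (by linarith)
  by_contra hcon
  have h8 : 2 * C.aK y ≤ (y : ℝ) - 1 := not_lt.1 hcon
  have h9 : (C.aK y - C.aK C.m) * (2 * p) < (((y : ℝ) - 1) / 2 - p) * (2 * p) :=
    mul_lt_mul_of_pos_right (by linarith) (by linarith)
  nlinarith

/-- the first non-regular row is `m` -/
theorem J_eq : J = C.m := by
  have hC := S.s.ok
  have hmh := hC.hmh
  have hm := S.m
  have hJ := S.s.jw
  have hJ3 := S.J3
  by_contra hcon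
  have hlt : J < C.m := by have := hJ.le; omega
  have hf := hJ.full hlt
  -- J is even
  rcases Nat.even_or_odd' J with ⟨t, h | h⟩
  · -- J = 2 t, row J-1 = 2 (t-1) + 1 is not full
    obtain ⟨t', rfl⟩ : ∃ t', t = t' + 1 := ⟨t - 1, by omega⟩
    have h1 : J - 1 = 2 * t' + 1 := by omega
    have h2 := S.odd_row (t := t') (by omega)
    have h0 : C.T0 (C.m + J) := by
      rcases hJ.alt hlt with h3 | h3
      · exact h3
      · exfalso
        rw [h1] at h3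
        have h4 := h3.2.1
        rw [h2.2.2.1, h2.1] at h4
        omega
    have hJJ := hJ.toJ (fun _ => h0)
    obtain ⟨h3, -⟩ := hJJ.jump hC hlt
    rw [h1, h2.1, S.q] at h3
    have h4 : C.aK (C.m + J) ≤ C.a' (C.m + J) := C.aK_le _
    rw [h0.1, h3] at h4
    have h5 := S.aK_gt (y := C.m + J) (by omega) (by omega)
    push_cast at h4 h5
    have hmR : (C.m : ℝ) = 2 * p + 1 := by rw [hm]; push_cast; ring
    have hJR : (J : ℝ) = 2 * (t' + 1) := by rw [h]; push_cast; ring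
    rw [hmR, hJR] at h5
    linarith
  · have h2 := S.odd_row (t := t) (by omega)
    rw [h] at hf
    have h4 := hf.2.1
    rw [h2.2.2.1, h2.1] at h4
    omega

theorem isJ : C.IsJ C.m := by
  have h1 := S.J_eq
  have h2 := S.s.jw
  rw [h1] at h2
  exact h2.toJ (fun h => absurd h (lt_irrefl _))

theorem h4m : 4 * C.m ≤ C.h + 1 := by
  have h1 := S.s.hh
  rw [S.J_eq] at h1
  omega

theorem bH_lt {y : ℕ} (h1 : C.m + 1 ≤ y) (h2 : y ≤ C.h) : 2 * C.bH y < y := by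
  have hC := S.s.ok
  have hm := S.m
  have h3 := hC.bHconc.chord (i := 0) (j := C.m + 1) (k := y) (by omega) h1 h2
  rw [hC.bH0] at h3
  have h4 : C.bH (C.m + 1) < C.b (C.m + 1) + 1 := C.bH_lt _
  rw [S.s.r1.hb, S.s.b1, S.q] at h4
  have hmR : (C.m : ℝ) = 2 * p + 1 := by rw [hm]; push_cast; ring
  have hpR : (1 : ℝ) ≤ p := by exact_mod_cast S.p1
  have h1' : (C.m : ℝ) + 1 ≤ y := by exact_mod_cast h1
  push_cast at h3 h4
  rw [hmR] at h3 h1'
  by_contra hcon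
  have h5 : (y : ℝ) ≤ 2 * C.bH y := not_lt.1 hcon
  have h6 : (y : ℝ) * C.bH (C.m + 1) < y * (p + 1) := mul_lt_mul_of_pos_left (by linarith) (by linarith)
  nlinarith

end P00T

end Cd

end Pool.Agent.Lib.MP_bb0bab_co
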