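import Pool.Agent.Lib.MP_bb0bab_co.SX20d
import Pool.Agent.Lib.MP_bb0bab_co.TL02

/-!
# SX20e (10.4, all L ≥ 2): CASE T, row `2m`
-/

namespace Pool.Agent.Lib.MP_bb0bab_co

open LaurentPolynomial

namespace Cd.P00T

variable {C : Cd} {J p : ℕ} (S : C.P00T J p)

include S

/-- row `2 m - 1` is full T1 with value `2 p` -/
theorem row_pred : C.T1 (C.m + (C.m - 1)) ∧ C.Full (C.m + (C.m - 1)) ∧
    C.a (C.m + (C.m - 1)) = 2 * p := by
  have hm := S.m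
  have hr := S.isJ.reg (C.m - 1) (by omega)
  have he := S.even_row (t := p) (by omega)
  have e1 : 2 * p = C.m - 1 := by omega
  rw [e1] at he
  have hq := S.q
  refine ⟨⟨?_, ?_, ?_, ?_⟩, ⟨?_, ?_, ?_⟩, ?_⟩
  · rw [hr.ha', hr.ha]
  · rw [hr.hb', hr.hb]
  · rw [hr.hc', hr.hc, he.2.2.1, he.2.2.2]
  · rw [hr.hd', hr.hd, he.2.2.1, he.2.2.2]
  · rw [hr.hb, hr.ha, he.1, he.2.1]
  · rw [hr.hc, hr.ha, he.1, he.2.2.1]
  · rw [hr.hd, hr.ha, he.1, he.2.2.1]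
  · rw [hr.ha, he.1, hq]; ring

theorem row2m (hX1 : C.L = 2 → C.a (C.m + C.m) = 2 * p + 1 → C.b (C.m + C.m) = 2 * p →
    C.c (C.m + C.m) = 2 * p + 1 → C.d (C.m + C.m) = 2 * p + 1 → C.a' (C.m + C.m) = 2 * p + 1 →
    C.b' (C.m + C.m) = 2 * p + 2 → C.c' (C.m + C.m) = 2 * p + 1 →
    C.d' (C.m + C.m) = 2 * p + 2 → False) : False := by
  have hC := S.s.ok
  have hmh := hC.hmh
  have hm := S.m
  have hp1 := S.p1
  have h4m := S.h4m
  obtain ⟨ht1, hfu, hva⟩ := S.row_pred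
  have es : C.m + (C.m - 1) + 1 = C.m + C.m := by omega
  have hX := IsJ.X_2m hC S.s.M1 S.isJ
  have hz := hC.zfull S.s.M1 S.s.L2 (s := C.m + (C.m - 1)) (by omega) (by omega) ht1 hfu
    (by rw [es]; exact hX)
  rw [es, hva] at hz
  have hmR : (C.m : ℝ) = 2 * p + 1 := by rw [hm]; push_cast; ring
  have hpR : (1 : ℝ) ≤ p := by exact_mod_cast hp1
  rcases hz with hz | ⟨hz1, hz2⟩ | hz | hz
  · -- T0
    have h1 := (hC.b'_mono (i := C.m + (C.m - 1)) (j := C.m + C.m) (by omega) (by omega)).1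
    rw [hz.2.1, ht1.2.1, hfu.1, hva] at h1
    have h2 := S.bH_lt (y := C.m + C.m) (by omega) (by omega)
    have h3 : (C.b (C.m + C.m) : ℝ) ≤ C.bH (C.m + C.m) := C.b_le _
    have h1' : (2 : ℝ) * p + 1 ≤ C.b (C.m + C.m) := by exact_mod_cast h1
    push_cast at h2
    linarith
  · -- T1 and full
    have h1 : (C.c' (C.m + C.m) : ℝ) < C.lH (C.m + C.m) + 1 := C.c'_lt _
    have h2 : C.rK (C.m + C.m) < C.d (C.m + C.m) + 1 := C.rK_lt _
    have h3 := hC.S_b (i := C.m - 1) (i' := C.m + 1) (k := 0) (k' := C.m + C.m) (by omega)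
      (by omega) (by omega) (by omega)
    have h4 := hC.S_a' (i := 1) (i' := C.m) (k := 0) (k' := C.m + C.m) (by omega)
      (by omega) (by omega) (by omega)
    rw [hC.top0.2.2.1] at h3
    rw [hC.top0.2.1] at h4
    have h5 : C.bH (C.m + 1) < C.b (C.m + 1) + 1 := C.bH_lt _
    have h6 : (C.b (C.m - 1) : ℝ) ≤ C.bH (C.m - 1) := C.b_le _
    have h7 : C.aK 1 ≤ C.a' 1 := C.aK_le _
    have h8 : (C.a' C.m : ℝ) < C.aK C.m + 1 := C.a'_lt _
    rw [S.s.r1.hb, S.s.b1, S.q] at h5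
    have he := S.even_row (t := p) (by omega)
    have e1 : 2 * p = C.m - 1 := by omega
    rw [e1] at he
    rw [he.2.1] at h6
    rw [(hC.low 1 S.s.m1).1, S.s.a1] at h7
    rw [hC.am', S.q] at h8
    have h9 : C.c' (C.m + C.m) = C.a (C.m + C.m) + 1 := by rw [hz1.2.2.1, hz2.2.1]
    rw [h9] at h1
    rw [hz2.2.2] at h2
    have hm1 : 1 ≤ C.m := hC.hm
    push_cast [Nat.cast_sub hm1] at h1 h2 h3 h4 h5 h6 h7 h8
    have e2 : (C.m : ℝ) + 1 - (C.m - 1) = 2 := by ring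
    rw [e2] at h3
    simp only [sub_zero] at h3 h4
    have hmpos : (0 : ℝ) < (C.m : ℝ) + C.m := by linarith
    have h10 : (C.bH (C.m + 1) - C.bH (C.m - 1)) * ((C.m : ℝ) + C.m) < 1 * ((C.m : ℝ) + C.m) :=
      mul_lt_mul_of_pos_right (by linarith) hmpos
    have h11 : C.lH (C.m + C.m) < C.m := by linarith
    have h12 : (p : ℝ) * ((C.m : ℝ) + C.m) < (C.aK C.m - C.aK 1) * ((C.m : ℝ) + C.m) :=
      mul_lt_mul_of_pos_right (by linarith) hmpos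
    have h13 : (C.m : ℝ) < C.rK (C.m + C.m) := by
      have e3 : (C.m : ℝ) - 1 = 2 * p := by rw [hmR]; ring
      rw [e3] at h4
      by_contra hcon
      have h14 : C.rK (C.m + C.m) ≤ C.m := not_lt.1 hcon
      have h15 : C.rK (C.m + C.m) * (2 * p) ≤ C.m * (2 * p) :=
        mul_le_mul_of_nonneg_right h14 (by linarith)
      nlinarith
    have h16 : ((C.a (C.m + C.m) : ℤ) : ℝ) < ((C.m : ℤ) : ℝ) := by push_cast; linarith
    have h17 : ((C.m : ℤ) : ℝ) < ((C.a (C.m + C.m) + 1 : ℤ) : ℝ) := by push_cast; linarith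
    have h18 : C.a (C.m + C.m) < C.m := by exact_mod_cast h16
    have h19 : (C.m : ℤ) < C.a (C.m + C.m) + 1 := by exact_mod_cast h17
    omega
  · -- third case
    have h1 : (C.a' (C.m + C.m) : ℝ) < C.aK (C.m + C.m) + 1 := C.a'_lt _
    have h2 := hC.W_a' (i := 1) (k := 0) (l := C.m + (C.m - 1)) (by omega)
    have e2 : 1 + (C.m + (C.m - 1)) = C.m + C.m := by omega
    rw [e2, zero_add, hC.top0.2.1] at h2
    have h3 : C.rK (C.m + (C.m - 1)) < C.d (C.m + (C.m - 1)) + 1 := C.rK_lt _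
    have h4 : C.aK 1 ≤ C.a' 1 := C.aK_le _
    rw [(hC.low 1 S.s.m1).1, S.s.a1] at h4
    rw [hfu.2.2, hva] at h3
    rw [hz] at h1
    push_cast at h1 h2 h3 h4
    linarith
  · exact hX1 hz.1 hz.2.1 hz.2.2.1 hz.2.2.2.1 hz.2.2.2.2.1 hz.2.2.2.2.2.1 hz.2.2.2.2.2.2.1
      hz.2.2.2.2.2.2.2.1 hz.2.2.2.2.2.2.2.2

end Cd.P00T

end Pool.Agent.Lib.MP_bb0bab_co
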