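import Pool.Agent.Lib.MP_bb0bab_co.SX20e

/-!
# SX20f (10.4, all L ≥ 2): CASE R (`n = J`), R1 - R4
-/

namespace Pool.Agent.Lib.MP_bb0bab_co

open LaurentPolynomial

namespace Cd.P00N

variable {C : Cd} {J p K A B : ℕ} (U : C.P00N J K J A B) (T : C.P00K p K) (S : C.P00 J)

include U T S

theorem J_lt : J < C.m := by
  have := T.km
  have := U.nK
  omega

theorem res : C.T0 (C.m + J) := by
  have hJ := U.J_lt T S
  have hn2 := U.n2
  rcases S.jw.alt hJ with h | h
  · exact h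
  · exfalso
    have h1 := U.emp (J - 1) (by omega) (by omega)
    have h2 := h.2.1
    have h3 := h.2.2
    omega

theorem isJ : C.IsJ J := S.jw.toJ (fun _ => U.res T S)

theorem jump : C.a (C.m + J) = p + C.a (J - 1) + 1 ∧ C.b (C.m + J) = p + C.b (J - 1) + 1 := by
  have h := (U.isJ T S).jump S.ok (U.J_lt T S)
  rw [T.q] at h
  exact h

/-- R1 -/
theorem r1b : C.b (J - 1) = 0 := by
  have hC := S.ok
  have hmh := hC.hmh
  have hh := S.hh
  have hn2 := U.n2
  have hnK := U.nK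
  have hB1 := U.B1
  have hBn := U.Bn
  have hJ := U.J_lt T S
  have hw := T.words S (j := J - 1) (by omega) (by omega)
  by_contra hcon
  have hb1 : C.b (J - 1) = 1 := by omega
  have hBJ : B + 2 ≤ J := by
    by_contra h
    have : B = J - 1 := by omega
    rw [← this, U.B0] at hb1
    omega
  have hj := (U.jump T S).2
  rw [hb1] at hj
  have h1 := hC.bHconc.chord (i := 0) (j := C.m + B) (k := C.m + J) (by omega) (by omega) (by omega)
  rw [hC.bH0] at h1
  have h2 : (C.b (C.m + J) : ℝ) ≤ C.bH (C.m + J) := C.b_le _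
  have h3 : C.bH (C.m + B) < C.b (C.m + B) + 1 := C.bH_lt _
  rw [hj] at h2
  rw [(U.regB T S).hb, U.B0, T.q] at h3
  push_cast at h1 h2 h3
  have hmB : (0 : ℝ) ≤ (C.m : ℝ) + B := by positivity
  have hmJ : (0 : ℝ) < (C.m : ℝ) + J := by
    have : (0 : ℝ) < C.m := by exact_mod_cast hC.hm
    positivity
  have h4 : ((C.m : ℝ) + B) * (p + 2) ≤ (C.m + B) * C.bH (C.m + J) :=
    mul_le_mul_of_nonneg_left (by linarith) hmB
  have h5 : ((C.m : ℝ) + J) * C.bH (C.m + B) < (C.m + J) * (p + 1) :=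
    mul_lt_mul_of_pos_left (by linarith) hmJ
  have h6 : ((C.m : ℝ) + B) * (p + 2) < (C.m + J) * (p + 1) := by nlinarith
  have h7 : (C.m + B) * (p + 2) < (C.m + J) * (p + 1) := by exact_mod_cast h6
  have h8 : (C.m + J) * (p + 1) ≤ (C.m + (K + 1)) * (p + 1) := Nat.mul_le_mul_right _ (by omega)
  have h9 : (C.m + 1) * (p + 2) ≤ (C.m + B) * (p + 2) := Nat.mul_le_mul_right _ (by omega)
  have h10 := T.le
  nlinarith

/-- R2 -/
theorem r2a : C.a (J - 1) = 0 := by
  have hC := S.ok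
  have hmh := hC.hmh
  have hh := S.hh
  have hn2 := U.n2
  have hnK := U.nK
  have hA1 := U.A1
  have hAn := U.An
  have hnA := U.nA
  have hJ := U.J_lt T S
  have hw := T.words S (j := J - 1) (by omega) (by omega)
  by_contra hcon
  have ha1 : C.a (J - 1) = 1 := by omega
  have hAJ : A = J - 2 := by
    by_contra h
    have : A = J - 1 := by omega
    rw [← this, U.A0] at ha1
    omega
  have hj := (U.jump T S).1
  rw [ha1] at hj
  have h1 := hC.W_a (i := C.m + A) (k := 0) (l := 2) (by omega)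
  have e1 : C.m + A + 2 = C.m + J := by omega
  rw [e1, hC.top0.2.2.2, zero_add] at h1
  have h2 : (C.a (C.m + J) : ℝ) < C.aH (C.m + J) + 1 := C.a_lt _
  have h3 : C.aH (C.m + A) ≤ C.a (C.m + A) := C.aH_le _
  rw [hj] at h2
  rw [(U.regA T S).ha, U.A0, T.q] at h3
  have h4 : C.rH 2 < C.d' 2 + 1 := C.rH_lt _
  obtain ⟨-, -, -, h5⟩ := hC.low 2 (by omega)
  rw [h5, (U.emp 2 (by omega) (by omega)).2] at h4
  push_cast at h1 h2 h3 h4
  linarith

theorem below {j : ℕ} (h1 : 1 ≤ j) (h2 : j < J) : C.a j = 0 ∧ C.b j = 0 ∧ C.c j = 1 ∧ C.d j = 0 := by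
  have hC := S.ok
  have hmh := hC.hmh
  have hJ := U.J_lt T S
  have hnK := U.nK
  have hw := T.words S h1 (by omega)
  have ha := (hC.a_mono (i := j) (j := J - 1) (by omega) (by omega)).1
  have hb := (hC.b_mono (i := j) (j := J - 1) (by omega) (by omega)).1
  rw [U.r2a T S] at ha
  rw [U.r1b T S] at hb
  have he := U.emp j h1 h2
  exact ⟨by omega, by omega, he.1, he.2⟩

theorem ab_res : C.a (C.m + J) = p + 1 ∧ C.b (C.m + J) = p + 1 := by
  obtain ⟨h1, h2⟩ := U.jump T S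
  rw [U.r2a T S] at h1
  rw [U.r1b T S] at h2
  exact ⟨by linarith, by linarith⟩

/-- R3 -/
theorem r3 : J ≤ K := by
  have hC := S.ok
  have hmh := hC.hmh
  have hh := S.hh
  have hn2 := U.n2
  have hJ := U.J_lt T S
  have h0 := U.res T S
  have hab := U.ab_res T S
  have h1 := hC.aKconv.chord (i := J - 1) (j := C.m) (k := C.m + J) (by omega) (by omega) (by omega)
  have h2 : C.aK (J - 1) ≤ C.a' (J - 1) := C.aK_le _
  rw [(hC.low (J - 1) (by omega)).1, U.r2a T S] at h2
  have h3 : C.aK (C.m + J) ≤ C.a' (C.m + J) := C.aK_le _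
  rw [h0.1, hab.1] at h3
  have h4 : (C.a' C.m : ℝ) < C.aK C.m + 1 := C.a'_lt _
  rw [hC.am', T.q] at h4
  have hJ1 : 1 ≤ J := by omega
  push_cast [Nat.cast_sub hJ1] at h1 h2 h3 h4
  have e1 : (C.m : ℝ) + J - (J - 1) = C.m + 1 := by ring
  have e2 : (C.m : ℝ) + J - C.m = J := by ring
  rw [e1, e2] at h1
  have hJR : (0 : ℝ) ≤ J := by positivity
  have hJm : (J : ℝ) < C.m := by exact_mod_cast hJ
  have h5 : (J : ℝ) * C.aK (J - 1) ≤ 0 := mul_nonpos_of_nonneg_of_nonpos hJR (by linarith)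
  have h6 : ((C.m : ℝ) - (J - 1)) * C.aK (C.m + J) ≤ (C.m - (J - 1)) * (p + 1) :=
    mul_le_mul_of_nonneg_left (by linarith) (by linarith)
  have h7 : ((C.m : ℝ) + 1) * p < (C.m + 1) * C.aK C.m :=
    mul_lt_mul_of_pos_left (by linarith) (by positivity)
  have h8 : (J : ℝ) * (p + 1) < C.m + 1 := by nlinarith
  have h9 : J * (p + 1) < C.m + 1 := by exact_mod_cast h8
  have h10 := T.up
  by_contra hcon
  have h11 : (K + 1) * (p + 1) ≤ J * (p + 1) := Nat.mul_le_mul_right _ (by omega)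
  omega

theorem hJp : J * (p + 1) ≤ C.m := by
  have h1 := U.r3 T S
  have h2 := T.le
  have h3 : J * (p + 1) ≤ K * (p + 1) := Nat.mul_le_mul_right _ h1
  omega

/-- R4 -/
theorem r4 : C.c (C.m + J) = p + 1 ∧ C.d (C.m + J) = p + 1 ∧ 2 * (C.m + J) + 1 ≤ C.h := by
  have hC := S.ok
  have hM := S.M1
  have hmh := hC.hmh
  have hh := S.hh
  have hn2 := U.n2
  have hJ := U.J_lt T S
  have h0 := U.res T S
  have hab := U.ab_res T S
  have hJp := U.hJp T S
  obtain ⟨h1, h2⟩ := hC.BT (s := C.m + J) (by omega) (by omega) h0.2.1 h0.2.2.2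
  rw [hab.1] at h1
  rw [hab.2] at h2
  have hwc := hC.win_c' (i := J) (by omega)
  have hwd := hC.win_d (i := J) (by omega)
  obtain ⟨-, -, hlc, hld⟩ := hC.low J hJ
  rw [Nat.add_comm J C.m, hlc, U.cn, T.q, h0.2.2.1] at hwc
  rw [Nat.add_comm J C.m, U.dn, T.q] at hwd
  have hc : C.c (C.m + J) = p + 1 := by omega
  have hd : C.d (C.m + J) = p + 1 := by
    by_contra hcon
    have hd2 : C.d (C.m + J) = p + 2 := by omega
    have h3 := hC.rKconc.chord (i := 0) (j := C.m) (k := C.m + J) (by omega) (by omega) (by omega)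
    rw [hC.top0.2.1] at h3
    have h4 : (C.d (C.m + J) : ℝ) ≤ C.rK (C.m + J) := C.d_le _
    have h5 : C.rK C.m < C.d C.m + 1 := C.rK_lt _
    rw [hd2] at h4
    rw [hC.dm, T.q] at h5
    push_cast at h3 h4 h5
    have hmR : (0 : ℝ) < C.m := by exact_mod_cast hC.hm
    have hJR : (0 : ℝ) ≤ J := by positivity
    have h6 : (C.m : ℝ) * (p + 2) ≤ C.m * C.rK (C.m + J) :=
      mul_le_mul_of_nonneg_left (by linarith) (by linarith)
    have h7 : ((C.m : ℝ) + J) * C.rK C.m < (C.m + J) * (p + 1) :=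
      mul_lt_mul_of_pos_left (by linarith) (by linarith)
    have h8 : (C.m : ℝ) < J * (p + 1) := by nlinarith
    have h9 : C.m < J * (p + 1) := by exact_mod_cast h8
    omega
  refine ⟨hc, hd, hC.no_overlap (y := C.m + J) (by omega) ?_⟩
  intro j hj
  have hL := S.L2
  have hlam : C.lam (C.m + J) = C.L := by
    unfold Cd.lam
    rw [hab.1, hab.2]; ring
  rw [hlam, hM]
  have hL' : (2 : ℤ) ≤ C.L := by exact_mod_cast hL
  rcases lt_trichotomy j C.m with hjm | hjm | hjm
  · have h3 := hC.mu_le hjm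
    obtain ⟨-, -, h4, h5⟩ := hC.low j hjm
    unfold Cd.mu at h3
    rw [hM] at h3
    rw [h4, h5]
    push_cast at h3 ⊢
    linarith
  · subst hjm
    rw [hC.dm', hC.cm']
    push_cast
    linarith
  · obtain ⟨i, rfl⟩ : ∃ i, j = C.m + i := ⟨j - C.m, by omega⟩
    rcases Nat.lt_or_ge i J with hi | hi
    · have hr := S.jw.reg i hi
      rw [hr.hc', hr.hd']
      push_cast
      linarith
    · have : i = J := by omega
      subst this
      rw [h0.2.2.1, h0.2.2.2, hc, hd]
      push_cast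
      linarith

end Cd.P00N

end Pool.Agent.Lib.MP_bb0bab_co
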