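import Pool.Agent.Lib.MP_bb0bab_co.SX20f

/-!
# SX20g (10.4, all L ≥ 2): CASE R, R5 - R8
-/

namespace Pool.Agent.Lib.MP_bb0bab_co

open LaurentPolynomial

namespace Cd.P00N

variable {C : Cd} {J p K A B : ℕ} (U : C.P00N J K J A B) (Tk : C.P00K p K) (S : C.P00 J)

include U Tk S

/-- row `J + 1` is full with value 1 -/
theorem fullJ1 : C.a (J + 1) = 1 ∧ C.b (J + 1) = 1 ∧ C.c (J + 1) = 1 ∧ C.d (J + 1) = 1 := by
  have hC := S.ok
  have hmh := hC.hmh
  have hJ := U.J_lt Tk S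
  have h3 := U.r3 Tk S
  have hw := Tk.words S (j := J + 1) (by omega) (by omega)
  have ha := (hC.a_mono (i := J) (j := J + 1) (by omega) (by omega)).1
  have hb := (hC.b_mono (i := J) (j := J + 1) (by omega) (by omega)).1
  have hd := (hC.d_mono (i := J) (j := J + 1) (by omega) (by omega)).1
  rw [U.an] at ha
  rw [U.bn] at hb
  rw [U.dn] at hd
  exact ⟨by omega, by omega, hw.2.2.2.2.1, by omega⟩

theorem XX_next : C.XX (C.m + J + 1) = (T 1 - 1) * (br C.L * (- T ((p : ℤ) + 1))) := by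
  have hC := S.ok
  have hM := S.M1
  have hf := U.fullJ1 Tk S
  have h1 := (U.isJ Tk S).X_after hC hM (U.J_lt Tk S)
  rw [hC.kap_full hM ⟨by rw [hf.1, hf.2.1], by rw [hf.1, hf.2.2.1], by rw [hf.1, hf.2.2.2]⟩,
    hC.kap_emp hM (by rw [S.c1, S.d1]; omega), U.an, Tk.q] at h1
  rw [h1]
  have h2 : C.RH 1 = br C.L := by
    unfold Cd.RH br
    rw [S.a1, S.b1]
    congr 1
    ring
  rw [h2, show ((p : ℤ) + 1) = p + 1 from rfl, T_add]
  ring

/-- R5 -/
theorem r5 : C.a' (C.m + J + 1) = C.a (C.m + J + 1) ∧ C.c (C.m + J + 1) = p + 1 ∧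
    C.c' (C.m + J + 1) = p + 2 ∧ C.d (C.m + J + 1) = p + 1 := by
  have hC := S.ok
  have hM := S.M1
  have hmh := hC.hmh
  have hn2 := U.n2
  have hJ := U.J_lt Tk S
  have h0 := U.res Tk S
  have hab := U.ab_res Tk S
  obtain ⟨hc, hd, hh⟩ := U.r4 Tk S
  have hL := S.L2
  obtain ⟨u, v, hu1, hu2, hv1, hv2, h1, h2, h3, h4, -, h6⟩ := hC.next_even hM hL
    (s := C.m + J) (by omega) h0 (by rw [hab.1, hab.2]) (U.XX_next Tk S)
  have ha := hC.a_let (i := C.m + J) (by omega)
  have hb := hC.b_let (i := C.m + J) (by omega)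
  have ha' := hC.a'_let (i := C.m + J) (by omega)
  have hb' := hC.b'_let (i := C.m + J) (by omega)
  have hc0 := hC.c_let (i := C.m + J) (by omega)
  have hd0 := hC.d_let (i := C.m + J) (by omega)
  have hc0' := hC.c'_let (i := C.m + J) (by omega)
  have hd0' := hC.d'_let (i := C.m + J) (by omega)
  obtain ⟨h01, h02, h03, h04⟩ := h0
  rw [h01] at ha'
  rw [h02] at hb'
  rw [h03] at hc0'
  rw [h04] at hd0'
  rw [hab.1] at ha ha'
  rw [hab.2] at hb hb'
  rw [hc] at hc0 hc0'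
  rw [hd] at hd0 hd0'
  have e : ev1 (- T ((p : ℤ) + 1)) = -1 := by rw [map_neg, ev1_T]
  rw [e] at h6
  have hL' : (2 : ℤ) ≤ C.L := by exact_mod_cast hL
  have hlam : C.lam (C.m + J + 1) = C.b (C.m + J + 1) + C.L - C.a (C.m + J + 1) := rfl
  have hmu : C.mu (C.m + J + 1) = C.d (C.m + J + 1) + 1 - C.c (C.m + J + 1) := by
    unfold Cd.mu
    rw [hM]
    norm_num
  have hv : v = -1 ∨ v = 0 ∨ v = 1 := by omega
  have huu : u = -1 ∨ u = 0 ∨ u = 1 := by omega
  rcases hv with rfl | rfl | rfl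
  · -- v = -1
    exfalso
    have h7 := hC.top13 (s := C.m + J + 1) (by omega) (by omega) (by rw [h4]; ring)
    rw [hM] at h7
    push_cast at h7
    have h8 : (C.L : ℤ) * 2 ≤ C.L * C.mu (C.m + J + 1) := mul_le_mul_of_nonneg_left h7 (by omega)
    rcases huu with rfl | rfl | rfl
    · rw [hlam] at h6
      have : (C.L : ℤ) * (-1 * C.mu (C.m + J + 1)) = -(C.L * C.mu (C.m + J + 1)) := by ring
      rw [this] at h6
      omega
    · have : (C.L : ℤ) * (-1 * C.mu (C.m + J + 1)) = -(C.L * C.mu (C.m + J + 1)) := by ring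
      rw [this] at h6
      omega
    · rw [hlam] at h6
      have : (C.L : ℤ) * (-1 * C.mu (C.m + J + 1)) = -(C.L * C.mu (C.m + J + 1)) := by ring
      rw [this] at h6
      omega
  · -- v = 0
    exfalso
    have h7 : u * C.lam (C.m + J + 1) = - C.L := by linarith
    rw [hlam] at h7
    rcases huu with rfl | rfl | rfl
    · have hb2 : C.b (C.m + J + 1) = p + 2 := by omega
      have h8 := hC.bHconc.chord (i := 0) (j := C.m + (J - 1)) (k := C.m + J + 1) (by omega)
        (by omega) (by omega)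
      rw [hC.bH0] at h8
      have h9 : (C.b (C.m + J + 1) : ℝ) ≤ C.bH (C.m + J + 1) := C.b_le _
      have h10 : C.bH (C.m + (J - 1)) < C.b (C.m + (J - 1)) + 1 := C.bH_lt _
      rw [hb2] at h9
      have hr := S.jw.reg (J - 1) (by omega)
      rw [hr.hb, U.r1b Tk S, Tk.q] at h10
      have hJ1 : 1 ≤ J := by omega
      push_cast [Nat.cast_sub hJ1] at h8 h9 h10
      have hJR : (2 : ℝ) ≤ J := by exact_mod_cast hn2
      have hmR : (0 : ℝ) < C.m := by exact_mod_cast hC.hm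
      have h11 : ((C.m : ℝ) + (J - 1)) * (p + 2) ≤ (C.m + (J - 1)) * C.bH (C.m + J + 1) :=
        mul_le_mul_of_nonneg_left (by linarith) (by linarith)
      have h12 : ((C.m : ℝ) + J + 1) * C.bH (C.m + (J - 1)) < (C.m + J + 1) * (p + 1) :=
        mul_lt_mul_of_pos_left (by linarith) (by linarith)
      have h13 : (C.m : ℝ) + (J - 1) < 2 * (p + 1) := by nlinarith
      have h14 : (C.m : ℝ) + 1 < 2 * (p + 1) := by linarith
      have h15 : C.m + 1 < 2 * (p + 1) := by exact_mod_cast h14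
      have h16 := Tk.lt
      have h17 := Tk.K1
      have h18 : p * 2 ≤ p * (K + 1) := Nat.mul_le_mul_left _ (by omega)
      omega
    · omega
    · omega
  · -- v = 1
    have hc1 : C.c (C.m + J + 1) = p + 1 := by omega
    have hd1 : C.d (C.m + J + 1) = p + 1 := by omega
    have hmu1 : C.mu (C.m + J + 1) = 1 := by rw [hmu, hc1, hd1]; ring
    rw [hmu1] at h6
    have h7 : u * C.lam (C.m + J + 1) = 0 := by linarith
    have hlam0 : C.lam (C.m + J + 1) ≠ 0 := by
      rw [hlam]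
      omega
    have hu0 : u = 0 := by
      rcases mul_eq_zero.1 h7 with h | h
      · exact h
      · exact absurd h hlam0
    rw [hu0] at h1
    exact ⟨by linarith, hc1, by linarith, hd1⟩

/-- R6 -/
theorem r6 : K = 2 ∧ J = 2 ∧ C.m ≤ 4 * p ∧ 3 * p < C.m := by
  have hC := S.ok
  have hmh := hC.hmh
  have hn2 := U.n2
  have hJ := U.J_lt Tk S
  have h3 := U.r3 Tk S
  obtain ⟨hc, hd, hh⟩ := U.r4 Tk S
  obtain ⟨-, -, hc', -⟩ := U.r5 Tk S
  have hB : B = J - 1 := by
    by_contra hcon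
    have := U.Bn
    have hb := (U.below Tk S (j := B + 1) (by omega) (by omega)).2.1
    rw [U.B1'] at hb
    omega
  have hiib := U.iib Tk S
  have h4 := hC.S_b (i := J) (i' := C.m + (J - 1)) (k := 0) (k' := C.m + J + 1) (by omega)
    (by omega) (by omega) (by omega)
  rw [hC.top0.2.2.1] at h4
  have h5 : (C.c' (C.m + J + 1) : ℝ) < C.lH (C.m + J + 1) + 1 := C.c'_lt _
  rw [hc'] at h5
  have h6 : (C.b J : ℝ) ≤ C.bH J := C.b_le _
  rw [U.bn] at h6
  have h7 : C.bH (C.m + (J - 1)) < C.b (C.m + (J - 1)) + 1 := C.bH_lt _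
  have hr := S.jw.reg (J - 1) (by omega)
  rw [hr.hb, U.r1b Tk S, Tk.q] at h7
  have hJ1 : 1 ≤ J := by omega
  push_cast [Nat.cast_sub hJ1] at h4 h5 h6 h7
  have e1 : (C.m : ℝ) + (J - 1) - J = C.m - 1 := by ring
  rw [e1] at h4
  simp only [sub_zero] at h4
  have hmR : (1 : ℝ) < C.m := by exact_mod_cast S.m1
  have hJR : (0 : ℝ) ≤ J := by positivity
  have h8 : ((p : ℝ) + 1) * (C.m - 1) < C.lH (C.m + J + 1) * (C.m - 1) :=
    mul_lt_mul_of_pos_right (by linarith) (by linarith)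
  have h9 : (C.bH (C.m + (J - 1)) - C.bH J) * ((C.m : ℝ) + J + 1) < p * ((C.m : ℝ) + J + 1) :=
    mul_lt_mul_of_pos_right (by linarith) (by linarith)
  have h10 : (C.m : ℝ) < p * (J + 2) + 1 := by nlinarith
  have h11 : C.m < p * (J + 2) + 1 := by exact_mod_cast h10
  rw [hB] at hiib
  have hK2 : K ≤ 2 := by
    by_contra hcon
    have : p * (J + 2) ≤ p * (K + (J - 1)) := Nat.mul_le_mul_left _ (by omega)
    omega
  have hK : K = 2 := by omega
  have hJe : J = 2 := by omega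
  subst hK
  subst hJe
  refine ⟨rfl, rfl, by omega, ?_⟩
  have := Tk.lt
  omega

/-- CASE R is impossible -/
theorem caseR : False := by
  have hC := S.ok
  have hmh := hC.hmh
  obtain ⟨hK, hJ2, hm4, hm3⟩ := U.r6 Tk S
  subst hK
  subst hJ2
  have hp1 := Tk.p1
  have hm2 := U.J_lt Tk S
  have h0 := U.res Tk S
  have hab := U.ab_res Tk S
  obtain ⟨hc, hd, hh⟩ := U.r4 Tk S
  obtain ⟨ha', hcs, hc's, hds⟩ := U.r5 Tk S
  have ha := hC.a_let (i := C.m + 2) (by omega)
  rw [hab.1] at ha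
  have hle := Tk.le
  have hm1 : 3 ≤ C.m := by omega
  -- common bounds
  have ha1 : C.aH 1 ≤ C.a 1 := C.aH_le _
  have ham1 : C.aH (C.m + 1) ≤ C.a (C.m + 1) := C.aH_le _
  rw [S.a1] at ha1
  rw [S.r1.ha, S.a1, Tk.q] at ham1
  rcases ha with has | has
  · -- R8: a_s = q + 1
    have h1 := hC.aKconv.chord (i := 1) (j := C.m) (k := C.m + 2 + 1) (by omega) (by omega)
      (by omega)
    have h2 : C.aK 1 ≤ C.a' 1 := C.aK_le _
    rw [(hC.low 1 S.m1).1, S.a1] at h2
    have h3 : C.aK (C.m + 2 + 1) ≤ C.a' (C.m + 2 + 1) := C.aK_le _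
    rw [ha', has] at h3
    have h4 : (C.a' C.m : ℝ) < C.aK C.m + 1 := C.a'_lt _
    rw [hC.am', Tk.q] at h4
    push_cast at h1 h2 h3 h4
    have hmR : (3 : ℝ) ≤ C.m := by exact_mod_cast hm1
    have hm4R : (C.m : ℝ) ≤ 4 * p := by exact_mod_cast hm4
    have e1 : (C.m : ℝ) + 2 + 1 - 1 = C.m + 2 := by ring
    have e2 : (C.m : ℝ) + 2 + 1 - C.m = 3 := by ring
    rw [e1, e2] at h1
    have h5 : ((C.m : ℝ) - 1) * C.aK (C.m + 2 + 1) ≤ (C.m - 1) * (p + 1) :=
      mul_le_mul_of_nonneg_left (by linarith) (by linarith)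
    have h6 : ((C.m : ℝ) + 2) * p < (C.m + 2) * C.aK C.m :=
      mul_lt_mul_of_pos_left (by linarith) (by linarith)
    have h7 : (3 : ℝ) * p + 1 < C.m := by nlinarith
    have h8 : 3 * p + 1 < C.m := by exact_mod_cast h7
    -- a_{m-3} ≤ q - 1
    have h9 : C.a (C.m - 3) ≤ p - 1 := by
      by_contra hcon
      have h10 : (p : ℤ) ≤ C.a (C.m - 3) := by omega
      have h11 := hC.aHconv.chord (i := 1) (j := C.m - 3) (k := C.m + 1) (by omega) (by omega)
        (by omega)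
      have h12 : (C.a (C.m - 3) : ℝ) < C.aH (C.m - 3) + 1 := C.a_lt _
      have h10' : (p : ℝ) ≤ C.a (C.m - 3) := by exact_mod_cast h10
      push_cast [Nat.cast_sub hm1] at h11 ha1 ham1
      have e3 : (C.m : ℝ) + 1 - (C.m - 3) = 4 := by ring
      have e4 : (C.m : ℝ) + 1 - 1 = C.m := by ring
      have e5 : (C.m : ℝ) - 3 - 1 = C.m - 4 := by ring
      rw [e3, e4, e5] at h11
      have h13 : (4 : ℝ) ≤ C.m := by
        have : 4 ≤ C.m := by omega
        exact_mod_cast this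
      have h14 : ((C.m : ℝ) - 4) * C.aH (C.m + 1) ≤ (C.m - 4) * p :=
        mul_le_mul_of_nonneg_left (by linarith) (by linarith)
      have h15 : (C.m : ℝ) * ((p : ℝ) - 1) < C.m * C.aH (C.m - 3) :=
        mul_lt_mul_of_pos_left (by linarith) (by linarith)
      nlinarith
    -- steps of d
    have hstep : ∀ k, k + C.m ≤ C.h → C.d k + 1 ≤ C.d (k + 3) := by
      intro k hk
      have h10 := hC.W_a' (i := C.m - 3) (k := k) (l := 3) (by omega)
      have e3 : C.m - 3 + 3 = C.m := by omega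
      rw [e3] at h10
      have h11 : C.aK (C.m - 3) ≤ C.a' (C.m - 3) := C.aK_le _
      rw [(hC.low (C.m - 3) (by omega)).1] at h11
      have h9' : (C.a (C.m - 3) : ℝ) ≤ p - 1 := by exact_mod_cast h9
      have h12 : (C.d k : ℝ) ≤ C.rK k := C.d_le _
      have h13 : C.rK (k + 3) < C.d (k + 3) + 1 := C.rK_lt _
      have h14 : (C.d k : ℝ) + 1 < C.d (k + 3) + 1 := by linarith
      have h15 : C.d k + 1 < C.d (k + 3) + 1 := by exact_mod_cast h14
      omega
    have hind : ∀ n : ℕ, n + 1 ≤ p → (n : ℤ) + 1 ≤ C.d (2 + 3 * n) := by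
      intro n
      induction n with
      | zero =>
        intro _
        have := U.dn
        simpa using this.ge
      | succ n ih =>
        intro hn
        have h10 := ih (by omega)
        have h11 := hstep (2 + 3 * n) (by omega)
        have e3 : 2 + 3 * n + 3 = 2 + 3 * (n + 1) := by ring
        rw [e3] at h11
        push_cast
        linarith
    have h10 := hind (p - 1) (by omega)
    have h11 := (hC.d_mono (i := 2 + 3 * (p - 1)) (j := C.m - 3) (by omega) (by omega)).1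
    have h12 := (hC.lo (j := C.m - 3) (by omega)).2.1
    have hp1' : ((p - 1 : ℕ) : ℤ) = p - 1 := by push_cast [Nat.cast_sub hp1]; ring
    rw [hp1'] at h10
    omega
  · -- R7: a_s = q + 2
    have h1 : (C.a (C.m + 2 + 1) : ℝ) < C.aH (C.m + 2 + 1) + 1 := C.a_lt _
    rw [has] at h1
    have h2 := hC.S_a (i := C.m + 1) (i' := C.m + 2 + 1) (k := 0) (k' := C.m + 2) (by omega)
      (by omega) (by omega) (by omega)
    rw [hC.top0.2.2.2] at h2
    have h3 : C.rH (C.m + 2) < C.d' (C.m + 2) + 1 := C.rH_lt _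
    rw [h0.2.2.2, hd] at h3
    push_cast at h1 h2 h3 ham1
    have e1 : (C.m : ℝ) + 2 + 1 - (C.m + 1) = 2 := by ring
    rw [e1] at h2
    simp only [sub_zero] at h2
    have hmR : (3 : ℝ) ≤ C.m := by exact_mod_cast hm1
    have h4 : 1 * ((C.m : ℝ) + 2) < (C.aH (C.m + 2 + 1) - C.aH (C.m + 1)) * (C.m + 2) :=
      mul_lt_mul_of_pos_right (by linarith) (by linarith)
    have h5 : (C.m : ℝ) < 2 * p + 2 := by linarith
    have h6 : C.m < 2 * p + 2 := by exact_mod_cast h5
    omega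

end Cd.P00N

end Pool.Agent.Lib.MP_bb0bab_co
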