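import Pool.Agent.Lib.MP_bb0bab_co.SX20e

/-!
# SX20h (10.4, L = 2): the row X1 at `2m` is impossible
-/

namespace Pool.Agent.Lib.MP_bb0bab_co

open LaurentPolynomial

/-- the coefficient equation of the row `2m+1` after X1 at `W + n` -/
def SXhEq (a b b' c c' d d' n : ℤ) : Prop :=
  ((if b' + 2 = n then (1 : ℤ) else 0) - (if 1 = n then 1 else 0) -
      (if b + 2 = n then 1 else 0) + (if a = n then 1 else 0)) =
      (if d' + 1 = n then 1 else 0) + (if d' + 2 = n then 1 else 0) - (if c' = n then 1 else 0) -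
      (if c' + 1 = n then 1 else 0) - (if d + 1 = n then 1 else 0) - (if d + 2 = n then 1 else 0) +
      (if c = n then 1 else 0) + (if c + 1 = n then 1 else 0) + (if 2 = n then 1 else 0) -
      (if 0 = n then 1 else 0)

instance (a b b' c c' d d' n : ℤ) : Decidable (SXhEq a b b' c c' d d' n) := by
  unfold SXhEq; infer_instance

set_option synthInstance.maxSize 2000 in
set_option maxRecDepth 100000 in
theorem sx20_x1_fin : ∀ a b b' c c' d d' : Bool,
    (SXhEq (cond a 1 0) (cond b 0 (-1)) (cond b' 2 1) (cond c 1 0) (cond c' 1 0) (cond d 1 0) (cond d' 2 1) 0 ∧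
     SXhEq (cond a 1 0) (cond b 0 (-1)) (cond b' 2 1) (cond c 1 0) (cond c' 1 0) (cond d 1 0) (cond d' 2 1) 1 ∧
     SXhEq (cond a 1 0) (cond b 0 (-1)) (cond b' 2 1) (cond c 1 0) (cond c' 1 0) (cond d 1 0) (cond d' 2 1) 2 ∧
     SXhEq (cond a 1 0) (cond b 0 (-1)) (cond b' 2 1) (cond c 1 0) (cond c' 1 0) (cond d 1 0) (cond d' 2 1) 3) →
    a = true ∧ c = false ∧ c' = true ∧
      ((b = false ∧ b' = false ∧ d = false ∧ d' = false) ∨
       (b = true ∧ b' = true ∧ d = true ∧ d' = true)) := by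
  decide

/-- the local equation of the row `2m+1` after X1, in coefficients (`W = m`, `a' = W+1`) -/
theorem sx20_x1_alg {W a b b' c c' d d' : ℤ}
    (ha : a = W ∨ a = W + 1) (hb : b = W - 1 ∨ b = W) (hb' : b' = W + 1 ∨ b' = W + 2)
    (hc : c = W ∨ c = W + 1) (hc' : c' = W ∨ c' = W + 1) (hd : d = W ∨ d = W + 1)
    (hd' : d' = W + 1 ∨ d' = W + 2)
    (h : (T (b' + 2) - T (W + 1) - T (b + 2) + T a : LaurentPolynomial ℤ) =
      (1 + T 1) * (T (d' + 1) - T c' - T (d + 1) + T c) + (T 1 - 1) * ((1 + T 1) * T W)) :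
    a = W + 1 ∧ c = W ∧ c' = W + 1 ∧
      ((b = W - 1 ∧ b' = W + 1 ∧ d = W ∧ d' = W + 1) ∨
       (b = W ∧ b' = W + 2 ∧ d = W + 1 ∧ d' = W + 2)) := by
  obtain ⟨xa, rfl⟩ : ∃ x : Bool, a = W + cond x 1 0 := by
    rcases ha with rfl | rfl
    · exact ⟨false, by simp⟩
    · exact ⟨true, by simp⟩
  obtain ⟨xb, rfl⟩ : ∃ x : Bool, b = W + cond x 0 (-1) := by
    rcases hb with rfl | rfl
    · exact ⟨false, by simp; ring⟩
    · exact ⟨true, by simp⟩
  obtain ⟨xb', rfl⟩ : ∃ x : Bool, b' = W + cond x 2 1 := by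
    rcases hb' with rfl | rfl
    · exact ⟨false, by simp⟩
    · exact ⟨true, by simp⟩
  obtain ⟨xc, rfl⟩ : ∃ x : Bool, c = W + cond x 1 0 := by
    rcases hc with rfl | rfl
    · exact ⟨false, by simp⟩
    · exact ⟨true, by simp⟩
  obtain ⟨xc', rfl⟩ : ∃ x : Bool, c' = W + cond x 1 0 := by
    rcases hc' with rfl | rfl
    · exact ⟨false, by simp⟩
    · exact ⟨true, by simp⟩
  obtain ⟨xd, rfl⟩ : ∃ x : Bool, d = W + cond x 1 0 := by
    rcases hd with rfl | rfl
    · exact ⟨false, by simp⟩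
    · exact ⟨true, by simp⟩
  obtain ⟨xd', rfl⟩ : ∃ x : Bool, d' = W + cond x 2 1 := by
    rcases hd' with rfl | rfl
    · exact ⟨false, by simp⟩
    · exact ⟨true, by simp⟩
  have key : ∀ n : ℤ, SXhEq (cond xa 1 0) (cond xb 0 (-1)) (cond xb' 2 1) (cond xc 1 0)
      (cond xc' 1 0) (cond xd 1 0) (cond xd' 2 1) n := by
    intro n
    unfold SXhEq
    generalize (cond xa 1 0 : ℤ) = a at *
    generalize (cond xb 0 (-1) : ℤ) = b at *
    generalize (cond xb' 2 1 : ℤ) = b' at *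
    generalize (cond xc 1 0 : ℤ) = c at *
    generalize (cond xc' 1 0 : ℤ) = c' at *
    generalize (cond xd 1 0 : ℤ) = d at *
    generalize (cond xd' 2 1 : ℤ) = d' at *
    have h2 : (T (W + (b' + 2)) - T (W + 1) - T (W + (b + 2)) + T (W + a) : LaurentPolynomial ℤ) =
        T (W + (d' + 1)) + T (W + (d' + 2)) - T (W + c') - T (W + (c' + 1)) - T (W + (d + 1))
          - T (W + (d + 2)) + T (W + c) + T (W + (c + 1)) + T (W + 2) - T (W + 0) := by
      rw [show W + (b' + 2) = W + b' + 2 by ring, show W + (b + 2) = W + b + 2 by ring, h]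
      have e0 : (T (W + d' + 1) : LaurentPolynomial ℤ) = T (W + (d' + 1)) := by congr 1; ring
      have e00 : (T (W + d + 1) : LaurentPolynomial ℤ) = T (W + (d + 1)) := by congr 1; ring
      have e1 : (T 1 * T (W + d' + 1) : LaurentPolynomial ℤ) = T (W + (d' + 2)) := by
        rw [← T_add]; congr 1; ring
      have e2 : (T 1 * T (W + c') : LaurentPolynomial ℤ) = T (W + (c' + 1)) := by
        rw [← T_add]; congr 1; ring
      have e3 : (T 1 * T (W + d + 1) : LaurentPolynomial ℤ) = T (W + (d + 2)) := by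
        rw [← T_add]; congr 1; ring
      have e4 : (T 1 * T (W + c) : LaurentPolynomial ℤ) = T (W + (c + 1)) := by
        rw [← T_add]; congr 1; ring
      have e5 : (T 1 * (T 1 * T W) : LaurentPolynomial ℤ) = T (W + 2) := by
        rw [← T_add, ← T_add]; congr 1; ring
      have e6 : (T (W + 0) : LaurentPolynomial ℤ) = T W := by rw [add_zero]
      linear_combination e0 - e00 + e1 - e2 - e3 + e4 + e5 + e6
    obtain ⟨φ, hφ⟩ := exists_cf (W + n)
    have h3 := congrArg φ h2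
    simpa only [map_add, map_sub, hφ, add_right_inj] using h3
  obtain ⟨h1, h2, h3, h4⟩ := sx20_x1_fin _ _ _ _ _ _ _ ⟨key 0, key 1, key 2, key 3⟩
  subst h1 h2 h3
  refine ⟨by simp, by simp, by simp, ?_⟩
  rcases h4 with ⟨rfl, rfl, rfl, rfl⟩ | ⟨rfl, rfl, rfl, rfl⟩
  · left; simp; ring
  · right; simp

end Pool.Agent.Lib.MP_bb0bab_co
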