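import Pool.Agent.Lib.MP_bb0bab_co.SX20h

/-!
# SX20i (10.4, L = 2): the row X1 at `2m` is impossible, second part
-/

namespace Pool.Agent.Lib.MP_bb0bab_co

open LaurentPolynomial

/-- the coefficient equation of the row `8`, `m = 3` -/
def SXiEq (a a' b' c c' d' n : ℤ) : Prop :=
  ((if b' + 2 = n then (1 : ℤ) else 0) - (if a' = n then 1 else 0) -
      (if 5 = n then 1 else 0) + (if a = n then 1 else 0)) =
      (if d' + 1 = n then 1 else 0) + (if d' + 2 = n then 1 else 0) - (if c' = n then 1 else 0) -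
      (if c' + 1 = n then 1 else 0) - (if 5 = n then 1 else 0) - (if 6 = n then 1 else 0) +
      (if c = n then 1 else 0) + (if c + 1 = n then 1 else 0) + (if 7 = n then 1 else 0) -
      (if 6 = n then 1 else 0) - (if 5 = n then 1 else 0) + (if 4 = n then 1 else 0)

instance (a a' b' c c' d' n : ℤ) : Decidable (SXiEq a a' b' c c' d' n) := by
  unfold SXiEq; infer_instance

set_option synthInstance.maxSize 2000 in
set_option maxRecDepth 100000 in
theorem sx20_x8_fin : ∀ a a' b' c c' d' : Bool,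
    (SXiEq (cond a 5 4) (cond a' 5 4) (cond b' 6 5) (cond c 4 3) (cond c' 5 4) (cond d' 6 5) 3 ∧
     SXiEq (cond a 5 4) (cond a' 5 4) (cond b' 6 5) (cond c 4 3) (cond c' 5 4) (cond d' 6 5) 4 ∧
     SXiEq (cond a 5 4) (cond a' 5 4) (cond b' 6 5) (cond c 4 3) (cond c' 5 4) (cond d' 6 5) 6) →
    False := by
  decide

theorem sx20_x8_alg {a a' b' c c' d' : ℤ} (ha : a = 4 ∨ a = 5) (ha' : a' = 4 ∨ a' = 5)
    (hb' : b' = 5 ∨ b' = 6) (hc : c = 3 ∨ c = 4) (hc' : c' = 4 ∨ c' = 5) (hd' : d' = 5 ∨ d' = 6)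
    (h : (T (b' + 2) - T a' - T (3 + 2) + T a : LaurentPolynomial ℤ) =
      (1 + T 1) * (T (d' + 1) - T c' - T (4 + 1) + T c) +
        (T 1 - 1) * ((T 1 - 1) * ((1 + T 1) * T 4))) : False := by
  obtain ⟨xa, rfl⟩ : ∃ x : Bool, a = cond x 5 4 := by
    rcases ha with rfl | rfl
    · exact ⟨false, rfl⟩
    · exact ⟨true, rfl⟩
  obtain ⟨xa', rfl⟩ : ∃ x : Bool, a' = cond x 5 4 := by
    rcases ha' with rfl | rfl
    · exact ⟨false, rfl⟩
    · exact ⟨true, rfl⟩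
  obtain ⟨xb', rfl⟩ : ∃ x : Bool, b' = cond x 6 5 := by
    rcases hb' with rfl | rfl
    · exact ⟨false, rfl⟩
    · exact ⟨true, rfl⟩
  obtain ⟨xc, rfl⟩ : ∃ x : Bool, c = cond x 4 3 := by
    rcases hc with rfl | rfl
    · exact ⟨false, rfl⟩
    · exact ⟨true, rfl⟩
  obtain ⟨xc', rfl⟩ : ∃ x : Bool, c' = cond x 5 4 := by
    rcases hc' with rfl | rfl
    · exact ⟨false, rfl⟩
    · exact ⟨true, rfl⟩
  obtain ⟨xd', rfl⟩ : ∃ x : Bool, d' = cond x 6 5 := by
    rcases hd' with rfl | rfl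
    · exact ⟨false, rfl⟩
    · exact ⟨true, rfl⟩
  have key : ∀ n : ℤ, SXiEq (cond xa 5 4) (cond xa' 5 4) (cond xb' 6 5) (cond xc 4 3)
      (cond xc' 5 4) (cond xd' 6 5) n := by
    intro n
    unfold SXiEq
    generalize (cond xa 5 4 : ℤ) = a at *
    generalize (cond xb' 6 5 : ℤ) = b' at *
    generalize (cond xc 4 3 : ℤ) = c at *
    generalize (cond xc' 5 4 : ℤ) = c' at *
    generalize (cond xd' 6 5 : ℤ) = d' at *
    generalize (cond xa' 5 4 : ℤ) = a' at *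
    have h2 : (T (b' + 2) - T a' - T 5 + T a : LaurentPolynomial ℤ) =
        T (d' + 1) + T (d' + 2) - T c' - T (c' + 1) - T 5 - T 6 + T c + T (c + 1) +
          T 7 - T 6 - T 5 + T 4 := by
      have h5 : (3 : ℤ) + 2 = 5 := by norm_num
      have h6 : (4 : ℤ) + 1 = 5 := by norm_num
      rw [h5, h6] at h
      rw [h]
      have e1 : (T 1 * T (d' + 1) : LaurentPolynomial ℤ) = T (d' + 2) := by
        rw [← T_add]; congr 1; ring
      have e2 : (T 1 * T c' : LaurentPolynomial ℤ) = T (c' + 1) := by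
        rw [← T_add]; congr 1; ring
      have e3 : (T 1 * T 5 : LaurentPolynomial ℤ) = T 6 := by
        rw [← T_add]; congr 1
      have e4 : (T 1 * T c : LaurentPolynomial ℤ) = T (c + 1) := by
        rw [← T_add]; congr 1; ring
      have e5 : (T 1 * T 4 : LaurentPolynomial ℤ) = T 5 := by
        rw [← T_add]; congr 1
      have e6 : (T 1 * (T 1 * T 4) : LaurentPolynomial ℤ) = T 6 := by
        rw [← T_add, ← T_add]; congr 1
      have e7 : (T 1 * (T 1 * (T 1 * T 4)) : LaurentPolynomial ℤ) = T 7 := by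
        rw [← T_add, ← T_add, ← T_add]; congr 1
      linear_combination e1 - e2 - e3 + e4 + e7 - e6 - e5
    obtain ⟨φ, hφ⟩ := exists_cf n
    have h3 := congrArg φ h2
    simpa only [map_add, map_sub, hφ] using h3
  exact sx20_x8_fin _ _ _ _ _ _ ⟨key 3, key 4, key 6⟩

namespace Cd.P00T

variable {C : Cd} {J p : ℕ} (S : C.P00T J p)

include S

theorem br2 (hL : C.L = 2) : br C.L = 1 + T 1 := by
  rw [hL]
  exact br_two

theorem kap1 (hL : C.L = 2) : C.kap 1 = 1 + T 1 := by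
  have hC := S.s.ok
  rw [hC.kap_emp S.s.M1 (by rw [S.s.c1, S.s.d1]; omega)]
  unfold Cd.RH
  rw [S.s.a1, S.s.b1, ← S.br2 hL]
  unfold br
  congr 1
  ring

theorem XX_2m1 (hL : C.L = 2) (hD : C.DG (C.m + C.m) = T (2 * (p : ℤ) + 2)) :
    C.XX (C.m + C.m + 1) = (1 + T 1) * T (2 * (p : ℤ) + 1) := by
  have hC := S.s.ok
  have h4m := S.h4m
  have hm := S.m
  have hmh := hC.hmh
  have h1 := IsJ.X_2m1 hC S.s.M1 S.isJ (by omega)
  have hk : C.kap (C.m + 1) = -((T 1 - 1) * ((1 + T 1) * T (p : ℤ))) := by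
    unfold Cd.kap Cd.RH Cd.RG
    have hr := S.s.r1
    rw [hr.ha, hr.hb, hr.hc, hr.hd, S.s.a1, S.s.b1, S.s.c1, S.q, S.s.M1, rowPoly_len, rowPoly_len,
      S.br2 hL, Nat.cast_one, br_one, add_zero, T_add]
    ring
  rw [h1, hk, S.kap1 hL, hD]
  unfold Cd.PP
  rw [S.q]
  have e1 : (T (2 * (p : ℤ) + 2) : LaurentPolynomial ℤ) = T 1 * (T 1 * (T (p : ℤ) * T (p : ℤ))) := by
    rw [← T_add, ← T_add, ← T_add]; congr 1; ring
  have e2 : (T (2 * (p : ℤ) + 1) : LaurentPolynomial ℤ) = T 1 * (T (p : ℤ) * T (p : ℤ)) := by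
    rw [← T_add, ← T_add]; congr 1; ring
  rw [e1, e2]
  ring

theorem DG_2m (h3 : C.c (C.m + C.m) = 2 * p + 1) (h4 : C.d (C.m + C.m) = 2 * p + 1)
    (h7 : C.c' (C.m + C.m) = 2 * p + 1) (h8 : C.d' (C.m + C.m) = 2 * p + 2) :
    C.DG (C.m + C.m) = T (2 * (p : ℤ) + 2) := by
  have hC := S.s.ok
  have h4m := S.h4m
  have hm := S.m
  apply sub_one_cancel
  rw [hC.DG_mul (by omega), h3, h4, h7, h8, S.s.M1]
  have e1 : (T (2 * (p : ℤ) + 2 + ((1 : ℕ) : ℤ)) : LaurentPolynomial ℤ) =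
      T 1 * T (2 * (p : ℤ) + 2) := by
    rw [← T_add]; congr 1; push_cast; ring
  have e2 : (T (2 * (p : ℤ) + 1 + ((1 : ℕ) : ℤ)) : LaurentPolynomial ℤ) = T (2 * (p : ℤ) + 2) := by
    congr 1
  rw [e1, e2]
  ring

/-- the row `2m+1` after X1 -/
theorem x1_next (hL : C.L = 2) (h1 : C.a (C.m + C.m) = 2 * p + 1) (h2 : C.b (C.m + C.m) = 2 * p)
    (h3 : C.c (C.m + C.m) = 2 * p + 1) (h4 : C.d (C.m + C.m) = 2 * p + 1)
    (h5 : C.a' (C.m + C.m) = 2 * p + 1) (h6 : C.b' (C.m + C.m) = 2 * p + 2)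
    (h7 : C.c' (C.m + C.m) = 2 * p + 1) (h8 : C.d' (C.m + C.m) = 2 * p + 2) :
    C.a (C.m + C.m + 1) = 2 * p + 2 ∧ C.a' (C.m + C.m + 1) = 2 * p + 2 ∧
    C.b (C.m + C.m + 1) = 2 * p + 1 ∧ C.b' (C.m + C.m + 1) = 2 * p + 3 ∧
    C.c (C.m + C.m + 1) = 2 * p + 1 ∧ C.c' (C.m + C.m + 1) = 2 * p + 2 ∧
    C.d (C.m + C.m + 1) = 2 * p + 2 ∧ C.d' (C.m + C.m + 1) = 2 * p + 3 := by
  have hC := S.s.ok
  have h4m := S.h4m
  have hm := S.m
  have hmh := hC.hmh
  have hs : C.m + C.m + 1 ≤ C.h := by omega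
  have la := hC.a_let (i := C.m + C.m) (by omega)
  have lb := hC.b_let (i := C.m + C.m) (by omega)
  have lc := hC.c_let (i := C.m + C.m) (by omega)
  have ld := hC.d_let (i := C.m + C.m) (by omega)
  have la' := hC.a'_let (i := C.m + C.m) (by omega)
  have lb' := hC.b'_let (i := C.m + C.m) (by omega)
  have lc' := hC.c'_let (i := C.m + C.m) (by omega)
  have ld' := hC.d'_let (i := C.m + C.m) (by omega)
  rw [h1] at la
  rw [h2] at lb
  rw [h3] at lc
  rw [h4] at ld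
  rw [h5] at la'
  rw [h6] at lb'
  rw [h7] at lc'
  rw [h8] at ld'
  have ha' : C.a' (C.m + C.m + 1) = 2 * p + 2 := by
    have g1 := S.aK_gt (y := C.m + C.m + 1) (by omega) hs
    have g2 : C.aK (C.m + C.m + 1) ≤ C.a' (C.m + C.m + 1) := C.aK_le _
    rw [hm] at g1
    push_cast at g1
    have g3 : ((2 * (p : ℤ) + 1 : ℤ) : ℝ) < C.a' (C.m + C.m + 1) := by
      push_cast
      rw [hm] at g2
      rw [hm]
      linarith
    have g4 : 2 * (p : ℤ) + 1 < C.a' (C.m + C.m + 1) := by exact_mod_cast g3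
    omega
  have hX := S.XX_2m1 hL (S.DG_2m h3 h4 h7 h8)
  have g1 := hC.DH_mul hs
  have g2 := hC.DG_mul hs
  have g3 : C.DH (C.m + C.m + 1) = (1 + T 1) * C.DG (C.m + C.m + 1) +
      (1 + T 1) * T (2 * (p : ℤ) + 1) := by
    rw [← hX]
    unfold Cd.XX
    rw [S.br2 hL]
    ring
  have key := sx20_x1_alg (W := 2 * (p : ℤ) + 1) (a := C.a (C.m + C.m + 1)) (b := C.b (C.m + C.m + 1))
    (b' := C.b' (C.m + C.m + 1)) (c := C.c (C.m + C.m + 1)) (c' := C.c' (C.m + C.m + 1))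
    (d := C.d (C.m + C.m + 1)) (d' := C.d' (C.m + C.m + 1)) (by omega) (by omega) (by omega)
    (by omega) (by omega) (by omega) (by omega) (by
      rw [hL] at g1
      rw [S.s.M1] at g2
      have e1 : (T (C.b' (C.m + C.m + 1) + 2) - T (2 * (p : ℤ) + 1 + 1) -
          T (C.b (C.m + C.m + 1) + 2) + T (C.a (C.m + C.m + 1)) : LaurentPolynomial ℤ) =
          (T 1 - 1) * C.DH (C.m + C.m + 1) := by
        rw [g1, ha']
        push_cast
        ring_nf
      have e2 : (T (C.d' (C.m + C.m + 1) + 1) - T (C.c' (C.m + C.m + 1)) -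
          T (C.d (C.m + C.m + 1) + 1) + T (C.c (C.m + C.m + 1)) : LaurentPolynomial ℤ) =
          (T 1 - 1) * C.DG (C.m + C.m + 1) := by
        rw [g2]
        push_cast
        ring
      rw [e1, e2, g3]
      ring)
  obtain ⟨k1, k2, k3, ⟨k4, k5, k6, k7⟩ | ⟨k4, k5, k6, k7⟩⟩ := key
  · exfalso
    have g4 := hC.k2_nn hs
    have g5 : (C.c' (C.m + C.m + 1) : ℝ) < C.lH (C.m + C.m + 1) + 1 := C.c'_lt _
    have g6 : C.bH (C.m + C.m + 1) < C.b (C.m + C.m + 1) + 1 := C.bH_lt _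
    rw [k3] at g5
    rw [k4] at g6
    push_cast at g5 g6
    linarith
  · refine ⟨by omega, ha', by omega, by omega, by omega, by omega, by omega, by omega⟩

end Cd.P00T

end Pool.Agent.Lib.MP_bb0bab_co
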