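import Pool.Agent.Lib.MP_bb0bab_co.SX04
import Pool.Agent.Lib.MP_bb0bab_co.TLDefs

/-!
# TL01 algebra for L = 2: evaluation at -1, coefficients, the two kinds of next rows
-/

namespace Pool.Agent.Lib.MP_bb0bab_co

open LaurentPolynomial

theorem evm_even {n : ℤ} (h : Even n) : evm (T n) = 1 := by
  unfold evm
  rw [LaurentPolynomial.eval₂_T, h.neg_one_zpow]
  rfl

theorem evm_odd {n : ℤ} (h : ¬ Even n) : evm (T n) = -1 := by
  unfold evm
  obtain ⟨k, hk⟩ := Int.not_even_iff_odd.mp h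
  have h2 : Even (2 * k) := ⟨k, by ring⟩
  rw [LaurentPolynomial.eval₂_T, hk, zpow_add, h2.neg_one_zpow, zpow_one, one_mul]
  rfl

theorem evm_one_add : evm (1 + T 1) = 0 := by
  rw [map_add, map_one, evm_odd (by decide)]
  norm_num

/-- the coefficient of `x^n` as an additive map -/
theorem exists_cf (n : ℤ) : ∃ φ : LaurentPolynomial ℤ →+ ℤ, ∀ k : ℤ, φ (T k) = if k = n then 1 else 0 := by
  refine ⟨(Finsupp.applyAddHom n).comp AddMonoidAlgebra.coeffAddEquiv.toAddMonoidHom, fun k => ?_⟩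
  show (T k : LaurentPolynomial ℤ).coeff n = _
  rw [T_apply]

theorem br_two : br 2 = 1 + T 1 := by
  apply sub_one_cancel
  unfold br
  rw [sub_one_mul_rowPoly (by norm_num), show (2 : ℤ) - 1 + 1 = 1 + 1 by norm_num, T_zero, T_add]
  ring

/-- `1 + T 1` is not a zero divisor -/
theorem one_add_cancel {p q : LaurentPolynomial ℤ} (h : (1 + T 1) * p = (1 + T 1) * q) : p = q := by
  have h0 : (1 + T 1 : LaurentPolynomial ℤ) ≠ 0 := by
    intro h1
    have h2 := congrArg ev1 h1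
    rw [map_add, map_one, ev1_T, map_zero] at h2
    norm_num at h2
  exact mul_left_cancel₀ h0 h

namespace Cd.Ok

variable {C : Cd} (hC : C.Ok)

include hC

theorem DH_mul {s : ℕ} (hs : s ≤ C.h) :
    (T 1 - 1) * C.DH s = T (C.b' s + C.L) - T (C.a' s) - T (C.b s + C.L) + T (C.a s) := by
  have h1 := hC.lam_nn hs
  have h2 := hC.lam'_nn hs
  unfold Cd.lam at h1
  unfold Cd.DH Cd.RK Cd.RH
  rw [mul_sub, sub_one_mul_rowPoly (by omega), sub_one_mul_rowPoly (by omega), sub_add_cancel,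
    sub_add_cancel]
  ring

theorem DG_mul {s : ℕ} (hs : s ≤ C.h) :
    (T 1 - 1) * C.DG s = T (C.d' s + C.M) - T (C.c' s) - T (C.d s + C.M) + T (C.c s) := by
  have h1 := hC.mu_nn hs
  have h2 := hC.mu'_nn hs
  unfold Cd.mu at h1
  unfold Cd.DG Cd.RG' Cd.RG
  rw [mul_sub, sub_one_mul_rowPoly (by omega), sub_one_mul_rowPoly (by omega), sub_add_cancel,
    sub_add_cancel]
  ring

theorem row_split (hM : C.M = 1) (hL : C.L = 2) {s : ℕ} (hs : s + 1 ≤ C.h) {t t' : ℤ}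
    (ha : C.a' s = C.a s + t) (hb : C.b' s = C.b s + t) (hc : C.c' s = C.c s + t')
    (hd : C.d' s = C.d s + t') {R : LaurentPolynomial ℤ} (hX : C.XX (s + 1) = (T 1 - 1) * R) :
    (∃ u v : ℤ, t - 1 ≤ u ∧ u ≤ t + 1 ∧ t' - 1 ≤ v ∧ v ≤ t' + 1 ∧
      C.a' (s + 1) = C.a (s + 1) + u ∧ C.b' (s + 1) = C.b (s + 1) + u ∧
      C.c' (s + 1) = C.c (s + 1) + v ∧ C.d' (s + 1) = C.d (s + 1) + v ∧
      brz u * C.RH (s + 1) - br C.L * (brz v * C.RG (s + 1)) = R ∧
      u * C.lam (s + 1) - C.L * (v * C.mu (s + 1)) = ev1 R) ∨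
    (C.a' (s + 1) = C.a (s + 1) + t - 1 ∧ C.b' (s + 1) = C.b (s + 1) + t + 1 ∧
      ((C.c' (s + 1) = C.c (s + 1) + t' - 1 ∧ C.d' (s + 1) = C.d (s + 1) + t') ∨
       (C.c' (s + 1) = C.c (s + 1) + t' ∧ C.d' (s + 1) = C.d (s + 1) + t' + 1))) ∨
    (C.a' (s + 1) = C.a (s + 1) + t + 1 ∧ C.b' (s + 1) = C.b (s + 1) + t - 1 ∧
      ((C.c' (s + 1) = C.c (s + 1) + t' + 1 ∧ C.d' (s + 1) = C.d (s + 1) + t') ∨
       (C.c' (s + 1) = C.c (s + 1) + t' ∧ C.d' (s + 1) = C.d (s + 1) + t' - 1))) := by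
  have a1 := hC.a_let (show s < C.h by omega)
  have b1 := hC.b_let (show s < C.h by omega)
  have c1 := hC.c_let (show s < C.h by omega)
  have d1 := hC.d_let (show s < C.h by omega)
  have a2 := hC.a'_let (show s < C.h by omega)
  have b2 := hC.b'_let (show s < C.h by omega)
  have c2 := hC.c'_let (show s < C.h by omega)
  have d2 := hC.d'_let (show s < C.h by omega)
  have hm := hC.X_mass hM hs hX
  have hL' : (C.L : ℤ) = 2 := by exact_mod_cast hL
  rw [hL'] at hm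
  by_cases hv : (C.d' (s + 1) - C.d (s + 1)) - (C.c' (s + 1) - C.c (s + 1)) = 0
  · left
    have e1 : C.a' (s + 1) = C.a (s + 1) + (C.a' (s + 1) - C.a (s + 1)) := by ring
    have e2 : C.b' (s + 1) = C.b (s + 1) + (C.a' (s + 1) - C.a (s + 1)) := by omega
    have e3 : C.c' (s + 1) = C.c (s + 1) + (C.c' (s + 1) - C.c (s + 1)) := by ring
    have e4 : C.d' (s + 1) = C.d (s + 1) + (C.c' (s + 1) - C.c (s + 1)) := by omega
    refine ⟨C.a' (s + 1) - C.a (s + 1), C.c' (s + 1) - C.c (s + 1), ?_, ?_, ?_, ?_, e1, e2, e3, e4,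
      hC.X_div hM e1 e2 e3 e4 hX, hC.X_div_mass hM hs e1 e2 e3 e4 hX⟩ <;> omega
  · right
    rcases lt_or_gt_of_ne hv with h | h
    · right
      refine ⟨by omega, by omega, ?_⟩
      rcases (show C.c' (s + 1) = C.c (s + 1) + t' + 1 ∨ C.c' (s + 1) ≠ C.c (s + 1) + t' + 1 from
        em _) with h5 | h5
      · left
        refine ⟨by omega, by omega⟩
      · right
        refine ⟨by omega, by omega⟩
    · left
      refine ⟨by omega, by omega, ?_⟩
      rcases (show C.c' (s + 1) = C.c (s + 1) + t' - 1 ∨ C.c' (s + 1) ≠ C.c (s + 1) + t' - 1 from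
        em _) with h5 | h5
      · left
        refine ⟨by omega, by omega⟩
      · right
        refine ⟨by omega, by omega⟩

end Cd.Ok

end Pool.Agent.Lib.MP_bb0bab_co
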