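import Pool.Agent.Lib.MP_bb0bab_co.TL02
import Pool.Agent.Lib.MP_bb0bab_co.SX01

/-!
# TL05 rows m+j, j < N (N ≥ 2, V_1 = 0), all L ≥ 2, row N of G empty or not
-/

namespace Pool.Agent.Lib.MP_bb0bab_co

open LaurentPolynomial

namespace Cd.Ok

variable {C : Cd} (hC : C.Ok) (hM : C.M = 1)

include hC

/-- the value of a full T1 row -/
theorem tl05_val {N j : ℕ} (hE : C.Ev N) (hNm : N < C.m) (hj : j < N)
    (hT : C.T1 (C.m + j)) (hF : C.Full (C.m + j)) : C.a (C.m + j) = C.q + C.a j := by
  have hmh := hC.hmh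
  have w1 := hC.win_a' (i := j) (by omega)
  have w2 := hC.win_b (i := j) (by omega)
  rw [show j + C.m = C.m + j by omega] at w1 w2
  obtain ⟨l1, l2, l3, l4⟩ := hC.low j (by omega)
  obtain ⟨t1, t2, t3, t4⟩ := hT
  obtain ⟨f1, f2, f3⟩ := hF
  obtain ⟨g1, g2, g3⟩ := hE.full j hj
  omega

include hM

theorem zrowG (hL : 2 ≤ C.L) {N : ℕ} (hE : C.Ev N) (hNm : N < C.m) (hN2 : 2 ≤ N)
    (h1 : C.a 1 = 0) {j : ℕ} (hj : j < N) :
    C.T0 (C.m + j) ∨ (C.T1 (C.m + j) ∧ C.Full (C.m + j) ∧ C.a (C.m + j) = C.q + C.a j) := by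
  have hmh := hC.hmh
  have hm := hC.hm
  obtain ⟨z1, z2, z3, z4, z5, z6, z7, z8⟩ := hC.zero
  obtain ⟨o1, o2, o3⟩ := hE.full 1 (by omega)
  obtain ⟨p1, p2, p3, p4⟩ := hC.low 1 (by omega)
  induction j with
  | zero =>
    right
    have am := hC.am
    have bm := hC.bm
    have cm := hC.cm
    have dm := hC.dm
    have am' := hC.am'
    have bm' := hC.bm'
    have cm' := hC.cm'
    have dm' := hC.dm'
    rw [Nat.add_zero]
    refine ⟨⟨?_, ?_, ?_, ?_⟩, ⟨?_, ?_, ?_⟩, ?_⟩ <;> omega
  | succ j ih =>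
    have hs : C.m + j + 1 ≤ C.h := by omega
    have ej : C.m + (j + 1) = C.m + j + 1 := by omega
    have hX := hC.X_lowN hM hE hNm hj
    rw [ej] at hX ⊢
    have fin : C.T1 (C.m + j + 1) ∧ C.Full (C.m + j + 1) →
        C.T1 (C.m + j + 1) ∧ C.Full (C.m + j + 1) ∧ C.a (C.m + j + 1) = C.q + C.a (j + 1) := by
      intro h
      refine ⟨h.1, h.2, ?_⟩
      have h3 := hC.tl05_val hE hNm hj
      rw [ej] at h3
      exact h3 h.1 h.2
    rcases ih (by omega) with h0 | ⟨hT, hF, hv⟩
    · rcases hC.zzero hM hL (by omega) hs h0 hX with h | h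
      · exact Or.inl h
      · exact Or.inr (fin h)
    · rcases hC.zfull hM hL (by omega) hs hT hF hX with h | h | h | h
      · exact Or.inl h
      · exact Or.inr (fin h)
      · exfalso
        have k1 := hC.W_a' (i := 1) (k := 0) (l := C.m + j) (by omega)
        rw [show 1 + (C.m + j) = C.m + j + 1 by omega, Nat.zero_add, hC.top0.2.1] at k1
        have k2 := C.aK_le 1
        have k3 := C.a'_lt (C.m + j + 1)
        have k4 := C.rK_lt (C.m + j)
        have k5 : C.d (C.m + j) = C.a (C.m + j) := by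
          obtain ⟨f1, f2, f3⟩ := hF
          omega
        rw [p1, h1] at k2
        rw [h] at k3
        rw [k5] at k4
        push_cast at k2 k3
        linarith
      · exfalso
        obtain ⟨hL2, e1, e2, e3, e4, e5, e6, e7, e8⟩ := h
        have w1 := hC.win_a' (i := j + 1) (by omega)
        have w2 := hC.win_b (i := j + 1) (by omega)
        rw [show j + 1 + C.m = C.m + j + 1 by omega] at w1 w2
        obtain ⟨l1, l2, l3, l4⟩ := hC.low (j + 1) (by omega)
        obtain ⟨g1, g2, g3⟩ := hE.full (j + 1) hj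
        have hW : C.a (C.m + j) = C.q + C.a (j + 1) := by omega
        have cm := hC.cm
        have cm' := hC.cm'
        have h0b := hC.C0b (j := j + 2) (s := C.m + j + 1) (k := 1) (t := C.m) (by omega) (by omega)
          (by omega) (by omega)
        have hb : C.b (j + 2) ≤ C.a (j + 1) := by omega
        have hmono := (hC.a'_mono (Nat.zero_le C.m) (by omega)).2
        have am' := hC.am'
        have hq := (hC.full_q (k := 1) le_rfl (by omega) (by push_cast; omega)).2.1
        have q1 := (hC.low (C.m - 1) (by omega)).2.1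
        have q2 := (hC.low (j + 2) (by omega)).2.1
        have w3 := hC.bKconc.win (w := j + 2) (Nat.zero_le (C.m - 1)) (by omega)
        rw [show C.m - 1 + (j + 2) = C.m + j + 1 by omega, Nat.zero_add, hC.bK0] at w3
        have k1 := C.b'_le (C.m + j + 1)
        have k2 := C.bK_lt (C.m - 1)
        have k3 := C.bK_lt (j + 2)
        rw [e6, hW] at k1
        rw [q1, hq] at k2
        rw [q2] at k3
        have hb' : (C.b (j + 2) : ℝ) ≤ C.a (j + 1) := by exact_mod_cast hb
        push_cast at k1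
        linarith

end Cd.Ok

end Pool.Agent.Lib.MP_bb0bab_co
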