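import Pool.Agent.Lib.MP_bb0bab_co.TL05
import Pool.Agent.Lib.MP_bb0bab_co.TL04
import Pool.Agent.Lib.MP_bb0bab_co.SX08

/-!
# TL06 row m+N, L = 2, empty top row N
-/

namespace Pool.Agent.Lib.MP_bb0bab_co

open LaurentPolynomial

/-- three monomials determine the exponents up to a permutation -/
theorem TL06_perm {x1 x2 x3 y1 y2 y3 : ℤ}
    (h : (T x1 + T x2 + T x3 : LaurentPolynomial ℤ) = T y1 + T y2 + T y3) :
    (x1 = y1 ∧ ((x2 = y2 ∧ x3 = y3) ∨ (x2 = y3 ∧ x3 = y2))) ∨
    (x1 = y2 ∧ ((x2 = y1 ∧ x3 = y3) ∨ (x2 = y3 ∧ x3 = y1))) ∨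
    (x1 = y3 ∧ ((x2 = y1 ∧ x3 = y2) ∨ (x2 = y2 ∧ x3 = y1))) := by
  have e1 := TL03_cf3 h x1
  rw [if_pos rfl] at e1
  have h1 : x1 = y1 ∨ x1 = y2 ∨ x1 = y3 := by
    by_contra hcon
    push Not at hcon
    rw [if_neg (Ne.symm hcon.1), if_neg (Ne.symm hcon.2.1), if_neg (Ne.symm hcon.2.2)] at e1
    split_ifs at e1 <;> omega
  rcases h1 with rfl | rfl | rfl
  · left
    refine ⟨rfl, tl_two_inj ?_⟩
    linear_combination h
  · right; left
    refine ⟨rfl, tl_two_inj ?_⟩
    linear_combination h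
  · right; right
    refine ⟨rfl, tl_two_inj ?_⟩
    linear_combination h

/-- row `s-1` T0, `K` longer: the exponents -/
theorem TL06_a {AN BN As Bs g q : ℤ} {DH DG : LaurentPolynomial ℤ}
    (h1 : (T 1 - 1) * DH = T (Bs + 1 + 2) - T (As - 1) - T (Bs + 2) + T As)
    (h2 : DG = T g)
    (h3 : DH - br 2 * DG = T (q + BN + 2) - T (q + AN)) :
    (T (Bs + 2) + T (As - 1) + T (q + AN) : LaurentPolynomial ℤ) =
      T (q + BN + 2) + T g + T (g + 1) := by
  have f1 : (T (Bs + 1 + 2) : LaurentPolynomial ℤ) = T (Bs + 2) * T 1 := by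
    rw [← T_add]
    congr 1
    ring
  have f2 : (T As : LaurentPolynomial ℤ) = T (As - 1) * T 1 := by
    rw [← T_add]
    congr 1
    ring
  have f3 : (T (g + 1) : LaurentPolynomial ℤ) = T g * T 1 := T_add _ _
  have h4 : DH = T (Bs + 2) + T (As - 1) := by
    apply sub_one_cancel
    rw [h1, f1, f2]
    ring
  rw [br_two, h4, h2] at h3
  rw [f3]
  linear_combination h3

/-- row `s-1` T0, `K` shorter: the exponents -/
theorem TL06_b {AN BN As Bs g q : ℤ} {DH DG : LaurentPolynomial ℤ}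
    (h1 : (T 1 - 1) * DH = T (Bs - 1 + 2) - T (As + 1) - T (Bs + 2) + T As)
    (h2 : DG = - T g)
    (h3 : DH - br 2 * DG = T (q + BN + 2) - T (q + AN)) :
    (T g + T (g + 1) + T (q + AN) : LaurentPolynomial ℤ) =
      T (q + BN + 2) + T As + T (Bs + 1) := by
  have f1 : (T (Bs - 1 + 2) : LaurentPolynomial ℤ) = T (Bs + 1) := by
    congr 1
    ring
  have f2 : (T (As + 1) : LaurentPolynomial ℤ) = T As * T 1 := T_add _ _
  have f3 : (T (g + 1) : LaurentPolynomial ℤ) = T g * T 1 := T_add _ _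
  have f4 : (T (Bs + 2) : LaurentPolynomial ℤ) = T (Bs + 1) * T 1 := by
    rw [← T_add]
    congr 1
    ring
  have h4 : DH = - T As - T (Bs + 1) := by
    apply sub_one_cancel
    rw [h1, f1, f2, f4]
    ring
  rw [br_two, h4, h2] at h3
  rw [f3]
  linear_combination h3


namespace Cd.Q2

variable {C : Cd} {N : ℕ} (S : C.Q2 N)

include S

theorem TL06_S10 (he : C.c N = C.d N + 1) : C.S10 N where
  ok := S.ok
  M1 := S.M1
  ev := S.ev
  Nm := S.Nm
  emp := he

/-- above a full T1 row the left end does not jump by two -/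
theorem TL06_u2 (h1 : C.a 1 = 0) (hm1 : 1 < C.m) {s : ℕ} (hs : s + 1 ≤ C.h) {t : ℤ}
    (ha0 : C.a' s = C.a s + 1) (hf : C.Full s) (ha : C.a' (s + 1) = C.a (s + 1) + t)
    (ht : t = 2) : False := by
  have hC := S.ok
  obtain ⟨fb, fc, fd⟩ := hf
  have l1 := hC.a_let (i := s) (by omega)
  have l2 := hC.a'_let (i := s) (by omega)
  have hv1 : C.a' (s + 1) = C.a s + 2 := by omega
  have w1 := hC.W_a' (i := 1) (k := 0) (l := s) (by omega)
  rw [show 1 + s = s + 1 by omega, Nat.zero_add, hC.top0.2.1] at w1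
  have w2 := C.a'_lt (s + 1)
  have w3 := C.aK_le 1
  have w4 := C.rK_lt s
  have t1 := (hC.low 1 hm1).1
  rw [hv1] at w2
  rw [t1, h1] at w3
  rw [fd] at w4
  push_cast at w2 w3
  linarith

theorem rowN (he : C.c N = C.d N + 1) (h1 : 2 ≤ N → C.a 1 = 0) : C.Reg N := by
  have hC := S.ok
  have hM := S.M1
  have hL := S.L2
  have hm := hC.hm
  have hmh := hC.hmh
  have hNm := S.Nm
  have hpos := S.ev.pos
  rcases (show N = 1 ∨ 2 ≤ N by omega) with rfl | hN2
  · have hz : ∀ i < 1, C.Reg i := by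
      intro i hi
      have : i = 0 := by omega
      subst this
      exact hC.reg_zero hM
    rcases hC.reg_step2 hM hL (j := 1) (by omega) hNm hz with h | h | h | h
    · exact h
    · exact absurd h.2 S.ev.nf
    · exact absurd h.fj S.ev.nf
    · exact absurd h.fj S.ev.nf
  have ha1 := h1 hN2
  have SS := S.TL06_S10 he
  obtain ⟨k, rfl⟩ : ∃ k, N = k + 1 := ⟨N - 1, by omega⟩
  obtain ⟨B1, B2, B3, B4, -⟩ := SS.basic
  rw [Nat.add_sub_cancel] at B1 B2 B3 B4
  have hX := hC.X_atN hM S.ev hNm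
  have hs : C.m + k + 1 ≤ C.h := by omega
  have hX' : C.XX (C.m + k + 1) = (T 1 - 1) * (T C.q * C.RH (k + 1)) := by
    rw [show C.m + k + 1 = C.m + (k + 1) by omega, hX, hC.kap_emp hM (by omega)]
    unfold Cd.PP
    ring
  have hlow := hC.low (k + 1) (by omega)
  have w1 := Cd.Ok.sx05_le (hC.win_a' (i := k + 1) (by omega))
  have w2 := Cd.Ok.sx05_le (hC.win_b (i := k + 1) (by omega))
  have w3 := Cd.Ok.sx05_le (hC.win_c' (i := k + 1) (by omega))
  have w4 := Cd.Ok.sx05_le (hC.win_d (i := k + 1) (by omega))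
  rw [show k + 1 + C.m = C.m + k + 1 by omega] at w1 w2 w3 w4
  rw [hlow.1] at w1
  rw [hlow.2.2.1] at w3
  have hev : ev1 (T C.q * C.RH (k + 1)) = C.lam (k + 1) := by
    have hn := hC.lam_nn (i := k + 1) (by omega)
    unfold Cd.lam at hn
    unfold Cd.RH Cd.lam
    rw [map_mul, ev1_T, one_mul, ev1_row (by omega)]
    ring
  have hlamN := hC.lam_near hNm
  have hL2 : (C.L : ℤ) = 2 := by rw [hL]; rfl
  have hM1 : (C.M : ℤ) = 1 := by rw [hM]; rfl
  have hlam : C.lam (C.m + k + 1) = C.b (C.m + k + 1) + C.L - C.a (C.m + k + 1) := rfl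
  have hlam2 : C.lam (k + 1) = C.b (k + 1) + C.L - C.a (k + 1) := rfl
  have hmu : C.mu (C.m + k + 1) = C.d (C.m + k + 1) + C.M - C.c (C.m + k + 1) := rfl
  have n1 := hC.lam_nn hs
  have n2 := hC.mu_nn hs
  rw [hL2] at hlamN hlam hlam2
  rw [hM1] at hmu
  have hphi := hC.mu_T0 (j := C.m + k + 1) (by omega) hs
  -- equal shifts
  have key : ∀ u v : ℤ, -1 ≤ u → u ≤ 1 → -1 ≤ v → v ≤ 1 →
        C.a' (C.m + k + 1) = C.a (C.m + k + 1) + u → C.b' (C.m + k + 1) = C.b (C.m + k + 1) + u →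
        C.c' (C.m + k + 1) = C.c (C.m + k + 1) + v → C.d' (C.m + k + 1) = C.d (C.m + k + 1) + v →
        brz u * C.RH (C.m + k + 1) - br C.L * (brz v * C.RG (C.m + k + 1)) =
          T C.q * C.RH (k + 1) →
        u * C.lam (C.m + k + 1) - C.L * (v * C.mu (C.m + k + 1)) = C.lam (k + 1) →
        C.Reg (k + 1) := by
    intro u v hu1 hu2 hv1 hv2 ea eb ec ed hid hmass
    rw [hL2] at hmass
    have hv : v = -1 ∨ v = 0 ∨ v = 1 := by omega
    have hu : u = -1 ∨ u = 0 ∨ u = 1 := by omega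
    rcases hv with rfl | rfl | rfl
    · exfalso
      have h13 := hC.top13 (by omega) hs (by omega)
      omega
    · rcases hu with rfl | rfl | rfl
      · exfalso
        omega
      · exfalso
        omega
      · refine ⟨?_, ?_, ?_, ?_, ?_, ?_, ?_, ?_⟩ <;> rw [show C.m + (k + 1) = C.m + k + 1 by omega] <;> omega
    · have g1 := hC.mu_T1 (by omega) hs ec
      exfalso
      rcases hu with rfl | rfl | rfl
      · omega
      · omega
      · rw [brz_one, one_mul, one_mul] at hid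
        unfold Cd.RH Cd.RG at hid
        rw [hL2, hM1] at hid
        have q1 : C.b (C.m + k + 1) = C.q + C.b (k + 1) + 1 := by omega
        have q2 : C.a (C.m + k + 1) = C.q + C.a (k + 1) - 1 := by omega
        have q3 : C.c (C.m + k + 1) = C.d (C.m + k + 1) := by omega
        refine TL03_k1 (As := C.a (C.m + k + 1)) (Bs := C.b (C.m + k + 1))
          (Cs := C.c (C.m + k + 1)) (Ds := C.d (C.m + k + 1)) (A := C.a (k + 1))
          (B := C.b (k + 1)) (c := C.c (k + 1)) (d := C.d (k + 1)) (q := C.q) ?_ q2 q1 (by omega)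
          (Or.inl ⟨he, q3⟩)
        rw [he, rowPoly_empty (show C.d (k + 1) < C.d (k + 1) + 1 by omega), mul_zero, sub_zero]
        rw [show C.b (C.m + k + 1) + 2 - 1 = C.b (C.m + k + 1) + 1 by ring,
          show C.d (C.m + k + 1) + 1 - 1 = C.d (C.m + k + 1) by ring,
          show C.b (k + 1) + 2 - 1 = C.b (k + 1) + 1 by ring] at hid
        exact hid
  have hDH := hC.DH_mul hs
  have hDG := hC.DG_mul hs
  rw [hL2] at hDH
  rw [hM1] at hDG
  have hk1 := hC.k1'_nn (i := C.m + k + 1) hs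
  have hk2 := hC.lH_le_bK (i := C.m + k + 1) hs
  have z1 : C.a (C.m + k + 1) ≤ C.d' (C.m + k + 1) + 1 := by
    have p1 := C.a_lt (C.m + k + 1)
    have p2 := C.rH_lt (C.m + k + 1)
    have p3 : ((C.a (C.m + k + 1) : ℤ) : ℝ) < ((C.d' (C.m + k + 1) : ℤ) : ℝ) + 2 := by linarith
    have p4 : C.a (C.m + k + 1) < C.d' (C.m + k + 1) + 2 := by exact_mod_cast p3
    omega
  have z2 : C.c' (C.m + k + 1) ≤ C.b' (C.m + k + 1) + 1 := by
    have p1 := C.c'_lt (C.m + k + 1)
    have p2 := C.bK_lt (C.m + k + 1)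
    have p3 : ((C.c' (C.m + k + 1) : ℤ) : ℝ) < ((C.b' (C.m + k + 1) : ℤ) : ℝ) + 2 := by linarith
    have p4 : C.c' (C.m + k + 1) < C.b' (C.m + k + 1) + 2 := by exact_mod_cast p3
    omega
  have n3 := hC.lam'_nn hs
  rw [hL2] at n3
  -- the equation with monomials
  have hXm : C.DH (C.m + k + 1) - br 2 * C.DG (C.m + k + 1) =
      T (C.q + C.b (k + 1) + 2) - T (C.q + C.a (k + 1)) := by
    have e2 := sub_one_mul_rowPoly (a := C.a (k + 1)) (b := C.b (k + 1) + 2 - 1) (by omega)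
    have h2 := hX'
    unfold Cd.XX Cd.RH at h2
    rw [hL2] at h2
    rw [h2, T_add, T_add, T_add]
    rw [show C.b (k + 1) + 2 - 1 + 1 = C.b (k + 1) + 2 by ring, T_add] at e2
    linear_combination T C.q * e2
  rcases hC.zrowG hM (by omega) S.ev S.Nm hN2 ha1 (j := k) (by omega) with h0 | ⟨hT1, hF, hval⟩
  · obtain ⟨t1, t2, t3, t4⟩ := h0
    rcases hC.row_split hM hL (s := C.m + k) hs (t := 0) (t' := 0) (by omega) (by omega) (by omega)
      (by omega) hX' with
      ⟨u, v, hu1, hu2, hv1, hv2, b1, b2, b3, b4, hid, hmass⟩ | ⟨b1, b2, b3⟩ | ⟨b1, b2, b3⟩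
    · rw [hev] at hmass
      exact key u v (by omega) (by omega) (by omega) (by omega) b1 b2 b3 b4 hid hmass
    · exfalso
      rw [b1, b2, show C.b (C.m + k + 1) + 0 + 1 + 2 = C.b (C.m + k + 1) + 1 + 2 by ring,
        show C.a (C.m + k + 1) + 0 - 1 = C.a (C.m + k + 1) - 1 by ring] at hDH
      rcases b3 with ⟨b3, b4⟩ | ⟨b3, b4⟩
      · have hG : C.DG (C.m + k + 1) = T (C.c (C.m + k + 1) - 1) := by
          apply sub_one_cancel
          rw [hDG, b3, b4, show C.d (C.m + k + 1) + 0 + 1 = C.d (C.m + k + 1) + 1 by ring,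
            show C.c (C.m + k + 1) + 0 - 1 = C.c (C.m + k + 1) - 1 by ring]
          have f : (T (C.c (C.m + k + 1)) : LaurentPolynomial ℤ) =
              T (C.c (C.m + k + 1) - 1) * T 1 := by
            rw [← T_add]; congr 1; ring
          rw [f]
          ring
        have E := TL06_perm (TL06_a hDH hG hXm)
        omega
      · have hG : C.DG (C.m + k + 1) = T (C.d (C.m + k + 1) + 1) := by
          apply sub_one_cancel
          rw [hDG, b3, b4, show C.d (C.m + k + 1) + 0 + 1 + 1 = C.d (C.m + k + 1) + 1 + 1 by ring,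
            show C.c (C.m + k + 1) + 0 = C.c (C.m + k + 1) by ring, T_add _ 1]
          ring
        have E := TL06_perm (TL06_a hDH hG hXm)
        omega
    · exfalso
      rw [b1, b2, show C.b (C.m + k + 1) + 0 - 1 + 2 = C.b (C.m + k + 1) - 1 + 2 by ring,
        show C.a (C.m + k + 1) + 0 + 1 = C.a (C.m + k + 1) + 1 by ring] at hDH
      rcases b3 with ⟨b3, b4⟩ | ⟨b3, b4⟩
      · have hG : C.DG (C.m + k + 1) = - T (C.c (C.m + k + 1)) := by
          apply sub_one_cancel
          rw [hDG, b3, b4, show C.d (C.m + k + 1) + 0 + 1 = C.d (C.m + k + 1) + 1 by ring,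
            show C.c (C.m + k + 1) + 0 + 1 = C.c (C.m + k + 1) + 1 by ring, T_add (C.c _) 1]
          ring
        have E := TL06_perm (TL06_b hDH hG hXm)
        omega
      · have hG : C.DG (C.m + k + 1) = - T (C.d (C.m + k + 1)) := by
          apply sub_one_cancel
          rw [hDG, b3, b4, show C.d (C.m + k + 1) + 0 - 1 + 1 = C.d (C.m + k + 1) by ring,
            show C.c (C.m + k + 1) + 0 = C.c (C.m + k + 1) by ring, T_add _ 1]
          ring
        have E := TL06_perm (TL06_b hDH hG hXm)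
        omega
  · obtain ⟨t1, t2, t3, t4⟩ := hT1
    have l1 := Cd.Ok.sx05_le (hC.a_let (i := C.m + k) (by omega))
    have l5 := Cd.Ok.sx05_le (hC.a'_let (i := C.m + k) (by omega))
    rcases hC.row_split hM hL (s := C.m + k) hs (t := 1) (t' := 1) (by omega) (by omega) (by omega)
      (by omega) hX' with
      ⟨u, v, hu1, hu2, hv1, hv2, b1, b2, b3, b4, hid, hmass⟩ | ⟨b1, b2, b3⟩ | ⟨b1, b2, b3⟩
    · rw [hev] at hmass
      obtain ⟨n1', n2'⟩ := SS.sx08_two hN2 ha1 hs ⟨t1, t2, t3, t4⟩ hF b1 b3 b4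
      exact key u v (by omega) (by omega) (by omega) (by omega) b1 b2 b3 b4 hid hmass
    · exfalso
      rw [b1, b2] at hDH
      have hDH' : C.DH (C.m + k + 1) = (1 + T 1) * T (C.b (C.m + k + 1) + 2) := by
        apply sub_one_cancel
        rw [hDH]
        have f1 : (T (C.b (C.m + k + 1) + 1 + 1 + 2) : LaurentPolynomial ℤ) =
            T (C.b (C.m + k + 1) + 2) * (T 1 * T 1) := by
          rw [← T_add, ← T_add]; congr 1; ring
        have f2 : (T (C.a (C.m + k + 1) + 1 - 1) : LaurentPolynomial ℤ) =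
            T (C.a (C.m + k + 1)) := by
          congr 1; ring
        rw [f1, f2]
        ring
      have hmain : (1 + T 1) * (T (C.b (C.m + k + 1) + 2) - C.DG (C.m + k + 1)) =
          (T 1 - 1) * (T C.q * (rowPoly (C.a (k + 1)) (C.b (k + 1) + 1) -
            br 2 * rowPoly (C.c (k + 1)) (C.d (k + 1)))) := by
        have h2 := hX'
        unfold Cd.XX Cd.RH at h2
        rw [hL2, hDH'] at h2
        rw [he, rowPoly_empty (show C.d (k + 1) < C.d (k + 1) + 1 by omega), mul_zero, sub_zero]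
        rw [show C.b (k + 1) + 2 - 1 = C.b (k + 1) + 1 by ring] at h2
        rw [← h2, br_two]
        ring
      obtain ⟨hBA, hcan⟩ := TL03_uneq hmain (by omega) (by omega)
      rw [he, rowPoly_empty (show C.d (k + 1) < C.d (k + 1) + 1 by omega), sub_zero, ← T_add]
        at hcan
      have E := TL03_e02 hDG hcan
      have e := TL03_cf5 E (C.q + C.a (k + 1) + 1)
      rw [if_pos rfl, if_neg (show ¬ C.q + C.a (k + 1) + 2 = C.q + C.a (k + 1) + 1 by omega),
        if_neg (show ¬ C.q + C.a (k + 1) = C.q + C.a (k + 1) + 1 by omega),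
        if_neg (show ¬ C.b (C.m + k + 1) + 2 + 1 = C.q + C.a (k + 1) + 1 by omega),
        if_neg (show ¬ C.b (C.m + k + 1) + 2 = C.q + C.a (k + 1) + 1 by omega)] at e
      clear hcan hmain hDH' hDG hDH hX hX' hXm E
      rcases b3 with ⟨b3, b4⟩ | ⟨b3, b4⟩
      · split_ifs at e <;> omega
      · split_ifs at e <;> omega
    · exfalso
      exact S.TL06_u2 ha1 (by omega) hs (t := 1 + 1) t1 hF (by omega) (by norm_num)

theorem hh2 (he : C.c N = C.d N + 1) (h1 : 2 ≤ N → C.a 1 = 0) : 2 * C.m + N + 1 ≤ C.h := by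
  have hC := S.ok
  have hM := S.M1
  have hL := S.L2
  have hR := S.rowN he h1
  have hm := hC.hm
  have hmh := hC.hmh
  have hNm := S.Nm
  by_contra hcon
  have h2 := hC.refl_len (y := C.m) (by omega)
  obtain ⟨z, hz⟩ : ∃ z, z = C.h - C.m := ⟨_, rfl⟩
  have hzm : C.h - z = C.m := by omega
  rw [← hz] at h2
  unfold Cd.lam at h2
  rw [hC.am, hC.bm, hM, hL] at h2
  push_cast at h2
  obtain ⟨i, rfl⟩ : ∃ i, z = C.m + i := ⟨z - C.m, by omega⟩
  rcases Nat.lt_trichotomy i N with hi | rfl | hi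
  · rcases Nat.eq_zero_or_pos i with rfl | hi0
    · rw [Nat.add_zero, hC.cm', hC.dm'] at h2
      omega
    · rcases hC.zrowG hM (by omega) S.ev S.Nm (by omega) (h1 (by omega)) hi with h0 | ⟨hT, hF, -⟩
      · obtain ⟨-, -, -, t4⟩ := h0
        have d1 := C.d_eq (C.m + i)
        have d2 := C.d'_eq (C.m + i)
        rw [hzm] at d1 d2
        have am := hC.am
        have am' := hC.am'
        omega
      · obtain ⟨t1, t2, t3, t4⟩ := hT
        obtain ⟨f1, f2, f3⟩ := hF
        omega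
  · have r7 := hR.hc'
    have r8 := hR.hd'
    omega
  · omega

end Cd.Q2

end Pool.Agent.Lib.MP_bb0bab_co
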