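import Pool.Agent.Lib.MP_bb0bab_co.TO01
import Pool.Agent.Lib.MP_bb0bab_co.TO03
import Pool.Agent.Lib.MP_bb0bab_co.TO04
import Pool.Agent.Lib.MP_bb0bab_co.CB09

/-!
# TO05 X1 before the event is impossible, (L, M) = (2, 1)   (11.3)
-/

namespace Pool.Agent.Lib.MP_bb0bab_co

open LaurentPolynomial

theorem x1_dec : ∀ b ∈ Finset.Icc (-1 : ℤ) 0, ∀ c' ∈ Finset.Icc (0 : ℤ) 1, c' ≤ b + 1 →
    ∀ a' ∈ Finset.Icc (0 : ℤ) 1, ∀ d ∈ Finset.Icc (0 : ℤ) 1,
    ∀ a ∈ Finset.Icc (-1 : ℤ) 2, ∀ c ∈ Finset.Icc (-1 : ℤ) 2,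
    ∀ b' ∈ Finset.Icc (0 : ℤ) 3, ∀ d' ∈ Finset.Icc (0 : ℤ) 3,
      ¬ (∀ k ∈ Finset.Icc (-1 : ℤ) 4, ic a' (b' + 1) k - ic a (b + 1) k =
      ic c' d' k + ic c' d' (k - 1) - ic c d k - ic c d (k - 1) +
        (if k = 1 then 1 else 0) - (if k = 2 then 1 else 0)) := by
  unfold ic
  decide +kernel

theorem x1_fin {a b c d a' b' c' d' : ℤ} (h1 : -1 ≤ a) (h1' : a ≤ b + 2) (h2 : b = -1 ∨ b = 0)
    (h3 : a' = 0 ∨ a' = 1) (h4 : 0 ≤ b') (h4' : b' ≤ 3) (h5 : -1 ≤ c) (h5' : c ≤ d + 1)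
    (h6 : d = 0 ∨ d = 1) (h7 : c' = 0 ∨ c' = 1) (h8 : 0 ≤ d') (h8' : d' ≤ 3) (k2 : c' ≤ b + 1)
    (heq : ∀ k : ℤ, ic a' (b' + 1) k - ic a (b + 1) k =
      ic c' d' k + ic c' d' (k - 1) - ic c d k - ic c d (k - 1) +
        (if k = 1 then 1 else 0) - (if k = 2 then 1 else 0)) : False :=
  x1_dec b (Finset.mem_Icc.2 ⟨by omega, by omega⟩) c' (Finset.mem_Icc.2 ⟨by omega, by omega⟩) k2
    a' (Finset.mem_Icc.2 ⟨by omega, by omega⟩) d (Finset.mem_Icc.2 ⟨by omega, by omega⟩)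
    a (Finset.mem_Icc.2 ⟨by omega, by omega⟩) c (Finset.mem_Icc.2 ⟨by omega, by omega⟩)
    b' (Finset.mem_Icc.2 ⟨by omega, by omega⟩) d' (Finset.mem_Icc.2 ⟨by omega, by omega⟩)
    fun k _ => heq k

theorem ic_shift (lo hi k U : ℤ) : ic lo hi (U + k) = ic (lo - U) (hi - U) k := by
  unfold ic
  by_cases h : lo ≤ U + k ∧ U + k ≤ hi
  · rw [if_pos h, if_pos ⟨by omega, by omega⟩]
  · rw [if_neg h, if_neg (fun h' => h ⟨by omega, by omega⟩)]

namespace Cd

variable {C : Cd}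

theorem x1_false (hC : C.Ok) (hL : C.L = 2) (hM : C.M = 1) {s : ℕ} (hm : C.m < s) (hs : s ≤ C.h)
    (hf : ∀ j < s, C.Full j ∧ C.TL j) {V : ℤ}
    (hX : C.Row s (V + 1) V (V + 1) (V + 1) (V + 1) (V + 2) (V + 1) (V + 2)) : False := by
  obtain ⟨ea, eb, ec, ed, ea', eb', ec', ed'⟩ := hX
  have hsm : s + C.m ≤ C.h := hC.to04_D0 hs (Or.inr (by rw [eb, eb']; omega))
  -- words at s + m
  have wa' := hC.win_a' hsm
  have wb := hC.win_b hsm
  have wc' := hC.win_c' hsm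
  have wd := hC.win_d hsm
  rw [ea'] at wa'
  rw [eb] at wb
  rw [ec'] at wc'
  rw [ed] at wd
  have hmh : C.m ≤ C.h := hC.cb08_m
  -- basic real bounds
  have r1 : (V : ℝ) < C.aH s := by
    have h := Int.ceil_lt_add_one (C.aH s)
    have e : ⌈C.aH s⌉ = V + 1 := ea
    rw [e] at h; push_cast at h; linarith
  have r2 : (C.q : ℝ) - 1 < C.aH C.m := by
    have h := Int.ceil_lt_add_one (C.aH C.m)
    have e : ⌈C.aH C.m⌉ = C.q := hC.am
    rw [e] at h; linarith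
  have r3 : C.aH C.m ≤ C.aH (s + C.m) - C.aH s := by
    have h := hC.aHconv.win (w := C.m) (Nat.zero_le s) hsm
    rwa [Nat.zero_add, hC.aH0, sub_zero] at h
  have h1 : C.q + V ≤ C.a (s + C.m) := by
    have h := Int.le_ceil (C.aH (s + C.m))
    have h' : ((C.q + V - 1 : ℤ) : ℝ) < ((C.a (s + C.m) : ℤ) : ℝ) := by
      show _ < ((⌈C.aH (s + C.m)⌉ : ℤ) : ℝ)
      push_cast; linarith
    have h'' : C.q + V - 1 < C.a (s + C.m) := by exact_mod_cast h'
    omega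
  have h1' : C.a (s + C.m) ≤ C.b (s + C.m) + 2 := by
    have h := hC.abH _ hsm
    rw [hL] at h
    have h2 := Int.ceil_lt_add_one (C.aH (s + C.m))
    have h3 := Int.lt_floor_add_one (C.bH (s + C.m))
    have h' : ((C.a (s + C.m) : ℤ) : ℝ) < ((C.b (s + C.m) : ℤ) : ℝ) + 3 := by
      show ((⌈C.aH (s + C.m)⌉ : ℤ) : ℝ) < ((⌊C.bH (s + C.m)⌋ : ℤ) : ℝ) + 3
      push_cast at h
      linarith
    have h'' : C.a (s + C.m) < C.b (s + C.m) + 3 := by exact_mod_cast h'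
    omega
  have r4 : (V : ℝ) + 2 ≤ C.bK s := by
    have h := Int.floor_le (C.bK s)
    have e : ⌊C.bK s⌋ = V + 2 := eb'
    rw [e] at h; push_cast at h; linarith
  have r5 : C.bK s < (V : ℝ) + 3 := by
    have h := Int.lt_floor_add_one (C.bK s)
    have e : ⌊C.bK s⌋ = V + 2 := eb'
    rw [e] at h; push_cast at h; linarith
  have r6 : (C.q : ℝ) - 1 < C.lK C.m := by
    have h := Int.ceil_lt_add_one (C.lK C.m)
    have e : ⌈C.lK C.m⌉ = C.q := hC.cm
    rw [e] at h; linarith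
  have r7 := hC.lastwin_b' (i := s) (w := C.m) hsm
  have h4 : C.q + V + 1 ≤ C.b' (s + C.m) := by
    apply Int.le_floor.2
    push_cast
    linarith
  have r8 : C.bK C.m < (C.q : ℝ) + 2 := by
    have h := Int.lt_floor_add_one (C.bK C.m)
    have e : ⌊C.bK C.m⌋ = C.q + 1 := hC.bm'
    rw [e] at h; push_cast at h; linarith
  have r9 : C.bK (s + C.m) - C.bK s ≤ C.bK C.m := by
    have h := hC.bKconc.win (w := C.m) (Nat.zero_le s) hsm
    rwa [Nat.zero_add, hC.bK0, sub_zero] at h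
  have h4' : C.b' (s + C.m) ≤ C.q + V + 4 := by
    have h : C.b' (s + C.m) < C.q + V + 5 := by
      apply Int.floor_lt.2
      push_cast
      linarith
    omega
  have r10 : (V : ℝ) < C.lK s := by
    have h := Int.ceil_lt_add_one (C.lK s)
    have e : ⌈C.lK s⌉ = V + 1 := ec
    rw [e] at h; push_cast at h; linarith
  have r11 : C.lK C.m ≤ C.lK (s + C.m) - C.lK s := by
    have h := hC.lKconv.win (w := C.m) (Nat.zero_le s) hsm
    rwa [Nat.zero_add, hC.top0.1, sub_zero] at h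
  have h5 : C.q + V ≤ C.c (s + C.m) := by
    have h := Int.le_ceil (C.lK (s + C.m))
    have h' : ((C.q + V - 1 : ℤ) : ℝ) < ((C.c (s + C.m) : ℤ) : ℝ) := by
      show _ < ((⌈C.lK (s + C.m)⌉ : ℤ) : ℝ)
      push_cast; linarith
    have h'' : C.q + V - 1 < C.c (s + C.m) := by exact_mod_cast h'
    omega
  have h5' : C.c (s + C.m) ≤ C.d (s + C.m) + 1 := by
    have h := hC.abK (C.h - (s + C.m)) (Nat.sub_le _ _)
    have h2 := Int.ceil_lt_add_one (C.lK (s + C.m))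
    have h3 := Int.lt_floor_add_one (C.rK (s + C.m))
    have h4 : C.lK (s + C.m) ≤ C.rK (s + C.m) := by
      unfold Cd.lK Cd.rK
      rw [Cd.Ok.cb08_xr, hL, hM]
      rw [hL] at h
      push_cast at h ⊢
      linarith
    have h' : ((C.c (s + C.m) : ℤ) : ℝ) < ((C.d (s + C.m) : ℤ) : ℝ) + 2 := by
      show ((⌈C.lK (s + C.m)⌉ : ℤ) : ℝ) < ((⌊C.rK (s + C.m)⌋ : ℤ) : ℝ) + 2
      linarith
    have h'' : C.c (s + C.m) < C.d (s + C.m) + 2 := by exact_mod_cast h'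
    omega
  have r12 : (V : ℝ) + 2 ≤ C.rH s := by
    have h := Int.floor_le (C.rH s)
    have e : ⌊C.rH s⌋ = V + 2 := ed'
    rw [e] at h; push_cast at h; linarith
  have r13 : C.rH s < (V : ℝ) + 3 := by
    have h := Int.lt_floor_add_one (C.rH s)
    have e : ⌊C.rH s⌋ = V + 2 := ed'
    rw [e] at h; push_cast at h; linarith
  have r14 := hC.lastwin_d' (j := s) (w := C.m) hsm
  have h8 : C.q + V + 1 ≤ C.d' (s + C.m) := by
    apply Int.le_floor.2
    push_cast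
    linarith
  have r15 : C.rH C.m < (C.q : ℝ) + 2 := by
    have h := Int.lt_floor_add_one (C.rH C.m)
    have e : ⌊C.rH C.m⌋ = C.q + 1 := hC.dm'
    rw [e] at h; push_cast at h; linarith
  have r16 : C.rH (s + C.m) - C.rH s ≤ C.rH C.m := by
    have h := hC.rHconc.win (w := C.m) (Nat.zero_le s) hsm
    rwa [Nat.zero_add, hC.top0.2.2.2, sub_zero] at h
  have h8' : C.d' (s + C.m) ≤ C.q + V + 4 := by
    have h : C.d' (s + C.m) < C.q + V + 5 := by
      apply Int.floor_lt.2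
      push_cast
      linarith
    omega
  have k2 : C.c' (s + C.m) ≤ C.b (s + C.m) + 1 := by
    have h := hC.k2_nn hsm
    have h2 := Int.ceil_lt_add_one (C.lH (s + C.m))
    have h3 := Int.lt_floor_add_one (C.bH (s + C.m))
    have h' : ((C.c' (s + C.m) : ℤ) : ℝ) < ((C.b (s + C.m) : ℤ) : ℝ) + 2 := by
      show ((⌈C.lH (s + C.m)⌉ : ℤ) : ℝ) < ((⌊C.bH (s + C.m)⌋ : ℤ) : ℝ) + 2
      linarith
    have h'' : C.c' (s + C.m) < C.b (s + C.m) + 2 := by exact_mod_cast h'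
    omega
  -- the equation
  have E := pre_eq hC hm hsm hf
  rw [hL, hM] at E
  have hb2 : br ((2 : ℕ) : ℤ) = br 2 := rfl
  have hb1 : br ((1 : ℕ) : ℤ) = 1 := br_one_eq
  rw [hb1, hb2, one_mul, one_mul] at E
  have e1 : C.RH s = T (V + 1) := by
    unfold Cd.RH
    rw [ea, eb, hL, show V + ((2 : ℕ) : ℤ) - 1 = V + 1 by push_cast; ring]
    unfold rowPoly
    rw [Finset.Icc_self, Finset.sum_singleton]
  have e2 : C.RG s = T (V + 1) := by
    unfold Cd.RG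
    rw [ec, ed, hM, show V + 1 + ((1 : ℕ) : ℤ) - 1 = V + 1 by push_cast; ring]
    unfold rowPoly
    rw [Finset.Icc_self, Finset.sum_singleton]
  rw [e1, e2] at E
  have E2 : C.RK (s + C.m) - C.RH (s + C.m) = br 2 * (C.RG' (s + C.m) - C.RG (s + C.m)) +
      (T (C.q + V + 1 + 1) - T (C.q + V + 1 + 2)) := by
    have e3 : (T 1 - 1) * (T C.q * ((T (V + 1) : LaurentPolynomial ℤ) - br 2 * T (V + 1))) =
        T (C.q + V + 1 + 1) - T (C.q + V + 1 + 2) := by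
      rw [br_two_eq, show C.q + V + 1 + 1 = 1 + (C.q + (V + 1)) by ring,
        show C.q + V + 1 + 2 = 1 + (1 + (C.q + (V + 1))) by ring, T_add 1, T_add C.q,
        T_add 1 (1 + _), T_add 1, T_add C.q]
      ring
    rw [e3] at E
    linear_combination E
  refine x1_fin (a := C.a (s + C.m) - (C.q + V + 1)) (b := C.b (s + C.m) - (C.q + V + 1))
    (c := C.c (s + C.m) - (C.q + V + 1)) (d := C.d (s + C.m) - (C.q + V + 1))
    (a' := C.a' (s + C.m) - (C.q + V + 1)) (b' := C.b' (s + C.m) - (C.q + V + 1))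
    (c' := C.c' (s + C.m) - (C.q + V + 1)) (d' := C.d' (s + C.m) - (C.q + V + 1))
    (by omega) (by omega) (by omega) (by omega) (by omega) (by omega) (by omega) (by omega)
    (by omega) (by omega) (by omega) (by omega) (by omega) fun k => ?_
  have E3 := congrArg (cf (C.q + V + 1 + k)) E2
  rw [map_sub, map_add, map_sub, cf_br2, map_sub, map_sub, cf_T, cf_T] at E3
  unfold Cd.RK Cd.RH Cd.RG Cd.RG' at E3
  rw [hL, hM] at E3
  simp only [cf_row] at E3
  rw [show C.q + V + 1 + k - 1 = C.q + V + 1 + (k - 1) by ring] at E3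
  simp only [ic_shift _ _ _ (C.q + V + 1)] at E3
  rw [show C.b' (s + C.m) + ((2 : ℕ) : ℤ) - 1 - (C.q + V + 1) =
      C.b' (s + C.m) - (C.q + V + 1) + 1 by push_cast; ring,
    show C.b (s + C.m) + ((2 : ℕ) : ℤ) - 1 - (C.q + V + 1) =
      C.b (s + C.m) - (C.q + V + 1) + 1 by push_cast; ring,
    show C.d' (s + C.m) + ((1 : ℕ) : ℤ) - 1 - (C.q + V + 1) =
      C.d' (s + C.m) - (C.q + V + 1) by push_cast; ring,
    show C.d (s + C.m) + ((1 : ℕ) : ℤ) - 1 - (C.q + V + 1) =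
      C.d (s + C.m) - (C.q + V + 1) by push_cast; ring] at E3
  have i1 : (if C.q + V + 1 + 1 = C.q + V + 1 + k then (1 : ℤ) else 0) = if k = 1 then 1 else 0 := by
    by_cases h : k = 1
    · rw [if_pos h, if_pos (by omega)]
    · rw [if_neg h, if_neg (by omega)]
  have i2 : (if C.q + V + 1 + 2 = C.q + V + 1 + k then (1 : ℤ) else 0) = if k = 2 then 1 else 0 := by
    by_cases h : k = 2
    · rw [if_pos h, if_pos (by omega)]
    · rw [if_neg h, if_neg (by omega)]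
  rw [i1, i2] at E3
  linarith

end Cd

end Pool.Agent.Lib.MP_bb0bab_co
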