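import Pool.Agent.Lib.MP_bb0bab_co.CB06

/-!
# TO11 the double jump lemma (real version, 11.4)

`w j = ⌊g j⌋` for a concave chain; rows `r N + j` (`r < t`, `j < N = 2k+1`) and `t N + j` (`j < i`) are copies with the pattern `j ↦ (j+1)/2` (0 1 1 2 2 .. k k), `i` even, and `w` jumps by 2 on `[tN+i-2, tN+i]`.
PROOF. `g (tN+i) - g (tN+i-2) > 1` (`≥ w + 2` against `< w + 1`).  So every earlier window of length 2 is `> 1` (`ConcN.win`).  First claim: window `[rN-2, rN]` (`r ≥ 1`, `rN ≤ tN ≤ tN + i - 2`): `g (rN) > g (rN-2) + 1 ≥ w (rN-2) + 1 = w ((r-1)N) + k + 1`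
(`rN - 2 = (r-1)N + (2k-1)`, `(2k-1+1)/2 = k`), so `w (rN) ≥ w ((r-1)N) + k + 1`, and `w (rN) ≤ w (rN-1) + 1 = w ((r-1)N) + k + 1` (`hlet`, `rN - 1 = (r-1)N + 2k`, `(2k+1)/2 = k`).
Second claim: suppose `i + 2 ≤ 2k`.  `g (tN+i) ≥ w (tN+i-2) + 2 = w (tN) + (i-1)/2 + 2 = w (tN) + i/2 + 1` (`i` even: `(i-1)/2 = i/2 - 1`); `g (tN-1) < w (tN-1) + 1 = w ((t-1)N) + k + 1 = w (tN)`.  So the window `[tN-1, tN+i]` (length `i+1`) is `> i/2 + 1`;
the window `[1, i+2]` is earlier, so `g (i+2) - g 1 > i/2 + 1`; but `g 1 ≥ w 1 = w 0 + 1`, `g (i+2) < w (i+2) + 1 = w 0 + (i+3)/2 + 1 = w 0 + i/2 + 2` (`hcop` with `r = 0`, `i + 2 < N`).  Contradiction.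
`dj_conv` is `dj_conc` for `g j := j - f j`, `w j := j - v j` (`⌊j - f j⌋ = j - ⌈f j⌉`), `j - j/2 = (j+1)/2`.
-/

namespace Pool.Agent.Lib.MP_bb0bab_co

theorem dj_conc {h N k t i : ℕ} {g : ℕ → ℝ} {w : ℕ → ℤ} (hg : ConcN h g)
    (hw : ∀ j ≤ h, ⌊g j⌋ = w j) (hk : 1 ≤ k) (hN : N = 2 * k + 1) (ht : 1 ≤ t)
    (hlet : ∀ j < h, w (j + 1) ≤ w j + 1)
    (hcop : ∀ r < t, ∀ j < N, w (r * N + j) = w (r * N) + ((j + 1) / 2 : ℕ))
    (hcop' : ∀ j < i, w (t * N + j) = w (t * N) + ((j + 1) / 2 : ℕ))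
    (hi : Even i) (hi2 : 2 ≤ i) (hiN : i < N) (hh : t * N + i ≤ h)
    (hj : w (t * N + i) = w (t * N + i - 2) + 2) :
    (∀ r, 1 ≤ r → r ≤ t → w (r * N) = w ((r - 1) * N) + (k + 1)) ∧ i = 2 * k := by
  obtain ⟨l, rfl⟩ : ∃ l, i = 2 * l + 2 := by
    obtain ⟨c, hc⟩ := hi
    exact ⟨c - 1, by omega⟩
  have glo : ∀ j ≤ h, ((w j : ℤ) : ℝ) ≤ g j := fun j hj => by
    rw [← hw j hj]; exact Int.floor_le _
  have ghi : ∀ j ≤ h, g j < ((w j : ℤ) : ℝ) + 1 := fun j hj => by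
    rw [← hw j hj]; exact Int.lt_floor_add_one _
  have hTN : N ≤ t * N := by nlinarith
  have e0 : t * N + (2 * l + 2) - 2 = t * N + 2 * l := by omega
  rw [e0] at hj
  have h2l : w (t * N + 2 * l) = w (t * N) + (l : ℤ) := by
    have := hcop' (2 * l) (by omega)
    rw [this]
    congr 1
    have : (2 * l + 1) / 2 = l := by omega
    rw [this]
  have hwin : ∀ j, j ≤ t * N + 2 * l → g j + 1 < g (j + 2) := by
    intro j hj'
    have h1 := hg.win (w := 2) hj' (by omega)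
    have h2 := glo (t * N + (2 * l + 2)) hh
    have h3 := ghi (t * N + 2 * l) (by omega)
    have e1 : t * N + 2 * l + 2 = t * N + (2 * l + 2) := by ring
    rw [e1] at h1
    rw [hj] at h2
    push_cast at h2
    linarith
  have hfirst : ∀ r, 1 ≤ r → r ≤ t → w (r * N) = w ((r - 1) * N) + (k + 1) := by
    intro r hr1 hrt
    obtain ⟨s, rfl⟩ : ∃ s, r = s + 1 := ⟨r - 1, by omega⟩
    rw [Nat.add_sub_cancel]
    have hsN : (s + 1) * N ≤ t * N := Nat.mul_le_mul_right N hrt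
    have esN : (s + 1) * N = s * N + N := by ring
    have c1 := hcop s (by omega) (2 * k - 1) (by omega)
    have c2 := hcop s (by omega) (2 * k) (by omega)
    have d1 : (2 * k - 1 + 1) / 2 = k := by omega
    have d2 : (2 * k + 1) / 2 = k := by omega
    rw [d1] at c1
    rw [d2] at c2
    have w1 := hwin (s * N + (2 * k - 1)) (by omega)
    have e2 : s * N + (2 * k - 1) + 2 = (s + 1) * N := by omega
    rw [e2] at w1
    have g1 := glo (s * N + (2 * k - 1)) (by omega)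
    have g2 := ghi ((s + 1) * N) (by omega)
    have l1 := hlet (s * N + 2 * k) (by omega)
    have e3 : s * N + 2 * k + 1 = (s + 1) * N := by omega
    rw [e3] at l1
    have h5 : ((w (s * N + (2 * k - 1)) : ℤ) : ℝ) + 1 < ((w ((s + 1) * N) : ℤ) : ℝ) + 1 := by
      linarith
    have h6 : w (s * N + (2 * k - 1)) + 1 < w ((s + 1) * N) + 1 := by exact_mod_cast h5
    omega
  refine ⟨hfirst, ?_⟩
  by_contra hne
  have hlt : 2 * l + 2 + 2 ≤ 2 * k := by omega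
  have f1 := hfirst t ht le_rfl
  have c2 := hcop (t - 1) (by omega) (2 * k) (by omega)
  have d2 : (2 * k + 1) / 2 = k := by omega
  rw [d2] at c2
  have e4 : (t - 1) * N + 2 * k = t * N - 1 := by
    obtain ⟨s, rfl⟩ : ∃ s, t = s + 1 := ⟨t - 1, by omega⟩
    rw [Nat.add_sub_cancel]
    have : (s + 1) * N = s * N + N := by ring
    omega
  rw [e4] at c2
  have g1 := ghi (t * N - 1) (by omega)
  have g2 := glo (t * N + (2 * l + 2)) hh
  have g3 := hg.win (i := 1) (j := t * N - 1) (w := 2 * l + 3) (by omega) (by omega)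
  have e5 : t * N - 1 + (2 * l + 3) = t * N + (2 * l + 2) := by omega
  have e6 : 1 + (2 * l + 3) = 2 * l + 4 := by ring
  rw [e5, e6] at g3
  have c3 := hcop 0 (by omega) 1 (by omega)
  have c4 := hcop 0 (by omega) (2 * l + 4) (by omega)
  have d3 : (1 + 1) / 2 = 1 := by norm_num
  have d4 : (2 * l + 4 + 1) / 2 = l + 2 := by omega
  rw [d3] at c3
  rw [d4] at c4
  simp only [Nat.zero_mul, Nat.zero_add] at c3 c4
  have g4 := glo 1 (by omega)
  have g5 := ghi (2 * l + 4) (by omega)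
  rw [hj, h2l] at g2
  rw [c2] at g1
  rw [c3] at g4
  rw [c4] at g5
  rw [f1] at g2
  push_cast at g1 g2 g4 g5
  linarith

theorem dj_conv {h N k t i : ℕ} {f : ℕ → ℝ} {v : ℕ → ℤ} (hf : ConvN h f)
    (hv : ∀ j ≤ h, ⌈f j⌉ = v j) (hk : 1 ≤ k) (hN : N = 2 * k + 1) (ht : 1 ≤ t)
    (hlet : ∀ j < h, v j ≤ v (j + 1))
    (hcop : ∀ r < t, ∀ j < N, v (r * N + j) = v (r * N) + (j / 2 : ℕ))
    (hcop' : ∀ j < i, v (t * N + j) = v (t * N) + (j / 2 : ℕ))
    (hi : Even i) (hi2 : 2 ≤ i) (hiN : i < N) (hh : t * N + i ≤ h)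
    (hj : v (t * N + i) = v (t * N + i - 2)) :
    (∀ r, 1 ≤ r → r ≤ t → v (r * N) = v ((r - 1) * N) + k) ∧ i = 2 * k := by
  have hg : ConcN h (fun j => (j : ℝ) - f j) := by
    intro j hj'
    have := hf j hj'
    push_cast
    linarith
  have key := dj_conc (h := h) (N := N) (k := k) (t := t) (i := i) (g := fun j => (j : ℝ) - f j)
    (w := fun j => (j : ℤ) - v j) hg ?_ hk hN ht ?_ ?_ ?_ hi hi2 hiN hh ?_
  · refine ⟨fun r h1 h2 => ?_, key.2⟩
    obtain ⟨s, rfl⟩ : ∃ s, r = s + 1 := ⟨r - 1, by omega⟩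
    have := key.1 (s + 1) h1 h2
    rw [Nat.add_sub_cancel] at this ⊢
    have h3 : ((((s + 1) * N : ℕ) : ℤ)) - v ((s + 1) * N) = ((s * N : ℕ) : ℤ) - v (s * N) + (k + 1) := this
    push_cast at h3
    have hN' : (N : ℤ) = 2 * k + 1 := by exact_mod_cast hN
    rw [add_mul, one_mul] at h3
    linarith
  · intro j hj'
    show ⌊(j : ℝ) - f j⌋ = (j : ℤ) - v j
    rw [← hv j hj']
    have : ((j : ℕ) : ℝ) = (((j : ℕ) : ℤ) : ℝ) := by simp
    rw [this, sub_eq_add_neg, Int.floor_intCast_add, Int.floor_neg]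
    ring
  · intro j hj'
    have := hlet j hj'
    show (((j + 1 : ℕ) : ℤ)) - v (j + 1) ≤ (j : ℤ) - v j + 1
    push_cast
    linarith
  · intro r hr j hjN
    have := hcop r hr j hjN
    show (((r * N + j : ℕ) : ℤ)) - v (r * N + j) = ((r * N : ℕ) : ℤ) - v (r * N) + (((j + 1) / 2 : ℕ) : ℤ)
    rw [this]
    push_cast
    omega
  · intro j hjN
    have := hcop' j hjN
    show (((t * N + j : ℕ) : ℤ)) - v (t * N + j) = ((t * N : ℕ) : ℤ) - v (t * N) + (((j + 1) / 2 : ℕ) : ℤ)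
    rw [this]
    push_cast
    omega
  · show (((t * N + i : ℕ) : ℤ)) - v (t * N + i) = ((t * N + i - 2 : ℕ) : ℤ) - v (t * N + i - 2) + 2
    rw [hj]
    have : ((t * N + i - 2 : ℕ) : ℤ) = ((t * N + i : ℕ) : ℤ) - 2 := by
      rw [Nat.cast_sub (by omega)]
      norm_num
    rw [this]
    ring

end Pool.Agent.Lib.MP_bb0bab_co
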