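import Pool.Agent.Lib.MP_bb0bab_co.CBDefs

/-!
# MP_bb0bab_co, section 11, (L, M) = (2, 1): definitions

Text: /team-store/BB_SEC11.md.
-/

namespace Pool.Agent.Lib.MP_bb0bab_co

open LaurentPolynomial

/-- coefficient at `n` -/
noncomputable def cf (n : ℤ) : LaurentPolynomial ℤ →+ ℤ where
  toFun p := p.coeff n
  map_zero' := by simp
  map_add' := by simp

/-- the coefficient at `k` of the row `[lo, hi]` -/
def ic (lo hi k : ℤ) : ℤ := if lo ≤ k ∧ k ≤ hi then 1 else 0

namespace Cd

variable (C : Cd)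

/-- the eight words at `s` -/
structure Row (s : ℕ) (a b c d a' b' c' d' : ℤ) : Prop where
  ea : C.a s = a
  eb : C.b s = b
  ec : C.c s = c
  ed : C.d s = d
  ea' : C.a' s = a'
  eb' : C.b' s = b'
  ec' : C.c' s = c'
  ed' : C.d' s = d'

end Cd

end Pool.Agent.Lib.MP_bb0bab_co
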