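import Pool.Agent.Lib.MP_bb0bab_co.TO11
import Pool.Agent.Lib.MP_bb0bab_co.TODefs
import Pool.Agent.Lib.MP_bb0bab_co.CB09
import Pool.Agent.Lib.MP_bb0bab_co.CB13

/-!
# TO12 the situation of `ZB` and the double jump lemma for the four free words

PROOF. `BO.ev`: `T1 (tN+i-1)` and `copy_type`: `tau (i-1) = 1`, but even rows have `tau = 0` (`ve`), so `i - 1` is odd.
`BO.pat`: TypeO: `a j = j/2`, `a' j = (j+1)/2` for `j < N` (`ve`, `vo`), so `Copy e j` gives the words of row `e + j`: `a (e+j) = a e + j/2`, `b (e+j) = b e + j/2`, .., `a' (e+j) = a e + (j+1)/2`, `b' (e+j) = b e + (j+1)/2`, .. (note that `Copy` uses `a e`, `b e`, `c e`, `d e`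
also for the primed words; for `j = 0`: `a' e = a e`, ..).
`BO.rows`: row `tN+i-2` and row `tN+i-1`.
`dj_b`: `dj_conc` with `g = bK`, `w = b'` (`b' (rN) = b (rN)` by `pat` with `j = 0`); `dj_d`: `g = rK`?? no: `g = rH`, `w = d'`; `dj_a`: `dj_conv` with `f = aH`, `v = a`; `dj_c`: `f = lK`, `v = c`.
`lam`, `mu`: CB09 `len_T0` (`tN + i - 2 + m ≤ h`), `mu_T0`/(`T0` row: `d' = d`), `m = 1`.
-/

namespace Pool.Agent.Lib.MP_bb0bab_co

namespace Cd

variable {C : Cd}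

/-- the situation of `ZB` -/
structure BO (C : Cd) (N k t i : ℕ) : Prop where
  ok : C.Ok
  typ : C.TypeO N k
  ht : 1 ≤ t
  pre : C.Pre N (t * N)
  cop : ∀ r j, j < N → r < t → C.Copy (r * N) j
  tl : ∀ j < t * N + i, C.TL j
  nf : ¬ C.Full (t * N)
  cop' : ∀ j < i, C.Copy (t * N) j
  i2 : 2 ≤ i
  iN : i < N
  t1 : C.T1 (t * N + i - 1)
  hh : t * N + i + N ≤ C.h + 1
  z : C.Z (t * N + i)

namespace BO

variable {N k t i : ℕ} (B : BO C N k t i)

include B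

theorem pat {j : ℕ} (hj : j < N) : C.a j = (j / 2 : ℕ) ∧ C.a' j = ((j + 1) / 2 : ℕ) := by
  have hN := B.typ.hN
  rcases Nat.even_or_odd' j with ⟨l, rfl | rfl⟩
  · obtain ⟨h1, h2⟩ := B.typ.ve l (by omega)
    rw [h1, h2]
    have e1 : 2 * l / 2 = l := by omega
    have e2 : (2 * l + 1) / 2 = l := by omega
    rw [e1, e2]
    exact ⟨rfl, rfl⟩
  · obtain ⟨h1, h2⟩ := B.typ.vo l (by omega)
    rw [h1, h2]
    have e1 : (2 * l + 1) / 2 = l := by omega
    have e2 : (2 * l + 1 + 1) / 2 = l + 1 := by omega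
    rw [e1, e2]
    exact ⟨rfl, by push_cast; ring⟩

theorem ev : Even i := by
  have hN := B.typ.hN
  have h2 := B.i2
  have hiN := B.iN
  have h1 := B.t1.1
  have e1 : t * N + i - 1 = t * N + (i - 1) := by omega
  rw [e1] at h1
  obtain ⟨c1, -, -, -, c5, -⟩ := B.cop' (i - 1) (by omega)
  rw [c1, c5] at h1
  rcases Nat.even_or_odd' (i - 1) with ⟨l, hl | hl⟩
  · obtain ⟨h3, h4⟩ := B.typ.ve l (by omega)
    rw [hl, h3, h4] at h1
    omega
  · exact ⟨l + 1, by omega⟩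

/-- rows `i-2` and `i-1` of the block; `l = i / 2 - 1` -/
theorem rows : ∃ l : ℕ, i = 2 * l + 2 ∧
    C.Row (t * N + i - 2) (C.a (t * N) + l) (C.b (t * N) + l) (C.c (t * N) + l) (C.d (t * N) + l)
      (C.a (t * N) + l) (C.b (t * N) + l) (C.c (t * N) + l) (C.d (t * N) + l) ∧
    C.Row (t * N + i - 1) (C.a (t * N) + l) (C.b (t * N) + l) (C.c (t * N) + l) (C.d (t * N) + l)
      (C.a (t * N) + l + 1) (C.b (t * N) + l + 1) (C.c (t * N) + l + 1)
      (C.d (t * N) + l + 1) := by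
  have hN := B.typ.hN
  have h2 := B.i2
  have hiN := B.iN
  obtain ⟨l, hl⟩ : ∃ l, i = 2 * l + 2 := by
    obtain ⟨c, hc⟩ := B.ev
    exact ⟨c - 1, by omega⟩
  refine ⟨l, hl, ?_, ?_⟩
  · have e1 : t * N + i - 2 = t * N + 2 * l := by omega
    rw [e1]
    obtain ⟨c1, c2, c3, c4, c5, c6, c7, c8⟩ := B.cop' (2 * l) (by omega)
    obtain ⟨h3, h4⟩ := B.typ.ve l (by omega)
    rw [h3] at c1 c2 c3 c4
    rw [h4] at c5 c6 c7 c8
    exact ⟨c1, c2, c3, c4, c5, c6, c7, c8⟩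
  · have e1 : t * N + i - 1 = t * N + (2 * l + 1) := by omega
    rw [e1]
    obtain ⟨c1, c2, c3, c4, c5, c6, c7, c8⟩ := B.cop' (2 * l + 1) (by omega)
    obtain ⟨h3, h4⟩ := B.typ.vo l (by omega)
    rw [h3] at c1 c2 c3 c4
    rw [h4] at c5 c6 c7 c8
    exact ⟨c1, c2, c3, c4, c5.trans (add_assoc _ _ _).symm, c6.trans (add_assoc _ _ _).symm,
      c7.trans (add_assoc _ _ _).symm, c8.trans (add_assoc _ _ _).symm⟩

/-- the bottom row of a block is of type 0 -/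
theorem to12_T0 {r : ℕ} (hr : r ≤ t) : C.T0 (r * N) := by
  have hN := B.typ.hN
  have h2 := B.i2
  have hc : C.Copy (r * N) 0 := by
    rcases Nat.lt_or_ge r t with h | h
    · exact B.cop r 0 (by omega) h
    · have : r = t := le_antisymm hr h
      rw [this]
      exact B.cop' 0 (by omega)
  obtain ⟨z1, -, -, -, z5, -⟩ := B.ok.zero
  obtain ⟨-, -, -, -, c5, c6, c7, c8⟩ := hc
  rw [z5, add_zero, add_zero] at c5 c6 c7 c8
  exact ⟨c5, c6, c7, c8⟩

theorem to12_N : 3 ≤ N ∧ N ≤ t * N ∧ t * N + i ≤ C.h ∧ t * N + i + 2 ≤ C.h := by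
  have hN := B.typ.hN
  have hk := B.typ.hk
  have h2 := B.i2
  have hh := B.hh
  have ht := B.ht
  have hTN : N ≤ t * N := by nlinarith
  refine ⟨by omega, hTN, by omega, by omega⟩

theorem lam : C.a (t * N) ≤ C.b (t * N) + C.L - C.M := by
  obtain ⟨h1, h2, h3, h4⟩ := B.to12_N
  have hm := B.typ.hm
  have := B.ok.len_T0 (i := t * N) (by omega) (B.to12_T0 le_rfl).2.1
  omega

theorem mu : C.c (t * N) ≤ C.d (t * N) := by
  obtain ⟨h1, h2, h3, h4⟩ := B.to12_N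
  have hm := B.typ.hm
  have := B.ok.mu_T0 (j := t * N) (by omega) (by omega)
  rw [(B.to12_T0 le_rfl).2.2.2] at this
  exact this

theorem dj_b (hj : C.b' (t * N + i) = C.b' (t * N + i - 2) + 2) :
    (∀ r, 1 ≤ r → r ≤ t → C.b (r * N) = C.b ((r - 1) * N) + (k + 1)) ∧ i = 2 * k := by
  obtain ⟨h1, h2, h3, h4⟩ := B.to12_N
  have hiN := B.iN
  have key := dj_conc (h := C.h) (N := N) (k := k) (t := t) (i := i) (g := C.bK) (w := C.b')
    B.ok.bKconc (fun j _ => rfl) B.typ.hk B.typ.hN B.ht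
    (fun j hj => by rcases B.ok.b'_let hj with h | h <;> omega)
    (fun r hr j hj => by
      obtain ⟨-, -, -, -, -, c6, -, -⟩ := B.cop r j hj hr
      rw [c6, (B.pat hj).2, (B.to12_T0 hr.le).2.1])
    (fun j hj => by
      obtain ⟨-, -, -, -, -, c6, -, -⟩ := B.cop' j hj
      rw [c6, (B.pat (j := j) (by omega)).2, (B.to12_T0 le_rfl).2.1])
    B.ev B.i2 B.iN h3 hj
  refine ⟨fun r hr1 hr2 => ?_, key.2⟩
  have := key.1 r hr1 hr2
  rw [(B.to12_T0 hr2).2.1, (B.to12_T0 (by omega)).2.1] at this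
  exact this

theorem dj_d (hj : C.d' (t * N + i) = C.d' (t * N + i - 2) + 2) :
    (∀ r, 1 ≤ r → r ≤ t → C.d (r * N) = C.d ((r - 1) * N) + (k + 1)) ∧ i = 2 * k := by
  obtain ⟨h1, h2, h3, h4⟩ := B.to12_N
  have hiN := B.iN
  have key := dj_conc (h := C.h) (N := N) (k := k) (t := t) (i := i) (g := C.rH) (w := C.d')
    B.ok.rHconc (fun j _ => rfl) B.typ.hk B.typ.hN B.ht
    (fun j hj => by rcases B.ok.d'_let hj with h | h <;> omega)
    (fun r hr j hj => by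
      obtain ⟨-, -, -, -, -, -, -, c8⟩ := B.cop r j hj hr
      rw [c8, (B.pat hj).2, (B.to12_T0 hr.le).2.2.2])
    (fun j hj => by
      obtain ⟨-, -, -, -, -, -, -, c8⟩ := B.cop' j hj
      rw [c8, (B.pat (j := j) (by omega)).2, (B.to12_T0 le_rfl).2.2.2])
    B.ev B.i2 B.iN h3 hj
  refine ⟨fun r hr1 hr2 => ?_, key.2⟩
  have := key.1 r hr1 hr2
  rw [(B.to12_T0 hr2).2.2.2, (B.to12_T0 (by omega)).2.2.2] at this
  exact this

theorem dj_a (hj : C.a (t * N + i) = C.a (t * N + i - 2)) :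
    (∀ r, 1 ≤ r → r ≤ t → C.a (r * N) = C.a ((r - 1) * N) + k) ∧ i = 2 * k := by
  obtain ⟨h1, h2, h3, h4⟩ := B.to12_N
  have hiN := B.iN
  exact dj_conv (h := C.h) (N := N) (k := k) (t := t) (i := i) (f := C.aH) (v := C.a)
    B.ok.aHconv (fun j _ => rfl) B.typ.hk B.typ.hN B.ht
    (fun j hj => by rcases B.ok.a_let hj with h | h <;> omega)
    (fun r hr j hj => by
      obtain ⟨c1, -⟩ := B.cop r j hj hr
      rw [c1, (B.pat hj).1])
    (fun j hj => by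
      obtain ⟨c1, -⟩ := B.cop' j hj
      rw [c1, (B.pat (j := j) (by omega)).1])
    B.ev B.i2 B.iN h3 hj

theorem dj_c (hj : C.c (t * N + i) = C.c (t * N + i - 2)) :
    (∀ r, 1 ≤ r → r ≤ t → C.c (r * N) = C.c ((r - 1) * N) + k) ∧ i = 2 * k := by
  obtain ⟨h1, h2, h3, h4⟩ := B.to12_N
  have hiN := B.iN
  exact dj_conv (h := C.h) (N := N) (k := k) (t := t) (i := i) (f := C.lK) (v := C.c)
    B.ok.lKconv (fun j _ => rfl) B.typ.hk B.typ.hN B.ht
    (fun j hj => by rcases B.ok.c_let hj with h | h <;> omega)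
    (fun r hr j hj => by
      obtain ⟨-, -, c3, -⟩ := B.cop r j hj hr
      rw [c3, (B.pat hj).1])
    (fun j hj => by
      obtain ⟨-, -, c3, -⟩ := B.cop' j hj
      rw [c3, (B.pat (j := j) (by omega)).1])
    B.ev B.i2 B.iN h3 hj

/-- in any case the blocks move by `k` or `k + 1` -/
theorem step_c {r : ℕ} (h1 : 1 ≤ r) (h2 : r ≤ t) :
    C.c ((r - 1) * N) + k ≤ C.c (r * N) ∧ C.d (r * N) ≤ C.d ((r - 1) * N) + (k + 1) := by
  obtain ⟨n1, n2, n3, n4⟩ := B.to12_N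
  obtain ⟨s, rfl⟩ : ∃ s, r = s + 1 := ⟨r - 1, by omega⟩
  rw [Nat.add_sub_cancel]
  have hN := B.typ.hN
  have hsN : (s + 1) * N ≤ t * N := Nat.mul_le_mul_right N h2
  have esN : (s + 1) * N = s * N + 2 * k + 1 := by rw [hN]; ring
  obtain ⟨-, -, c3, c4, -⟩ := B.cop s (2 * k) (by omega) (by omega)
  rw [(B.typ.ve k le_rfl).1] at c3 c4
  have hlt : s * N + 2 * k < C.h := by omega
  have l1 := B.ok.c_let hlt
  have l2 := B.ok.d_let hlt
  rw [c3] at l1
  rw [c4] at l2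
  rw [esN]
  constructor
  · rcases l1 with h | h <;> omega
  · rcases l2 with h | h <;> omega

end BO

end Cd

end Pool.Agent.Lib.MP_bb0bab_co
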